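import Pool.Agent.Lib.BrV.Defs

/-!
# BrV.Alg: the algebra `R` (sections 1.1 - 1.3 of the paper /team-store/MP_97e538_al_paper.md)

The head of a word (`List Bool`) is its LAST letter; `true = p`, `false = z`; `sg w = (-1)^(np w)`.
`sh (a :: v) (b :: w) = app b (sh (a :: v) w) + sg (b :: w) • app a (sh v (b :: w))`, so
`mu` is bilinear with `mu (bw v) (bw w) = sh v w` (`Finsupp.lift` on `single _ 1`).

Proofs.
* `R_ext`: `del c f w = f (c :: w)` and every word is `[]` or `c :: w`.
* `del_mu` (deletion formula): bilinear in `f, g`, so check it for `f = bw v`, `g = bw w`; cases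
  `v = []` (then `sh [] w = bw w`, `del c (bw []) = 0`), `w = []` (`sh v [] = bw v`, `tau (bw []) = bw []`)
  and `v = a :: v'`, `w = b :: w'`: the defining equation and `del c (app a f) = f` or `0`.
* `mu_nil`: coefficient of the empty word: `sh v w [] = 0` unless `v = w = []` (`app a f [] = 0`).
* `tau_mu`: `sh v w` is supported on words with `np = np v + np w` (induction), `sg` multiplicative;
  or by induction on the lengths with `R_ext`.
* `mu_assoc`: for words by induction on the sum of the three lengths with `R_ext`: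
  the coefficient of `[]` is multiplicative; `del c ((f g) h) = (f g)(del c h) + (f (del c g) + (del c f)(tau g))(tau h)`
  and `del c (f (g h)) = f (g (del c h) + (del c g)(tau h)) + (del c f)(tau g)(tau h)`; for
  `f = bw v` the vectors `del c f` are `0` or basis vectors of shorter words; then trilinearity.
* gradings: `sh v w` is supported on words `x` with `np x = np v + np w`, `nz x = nz v + nz w`.
-/

namespace BrV

open Finsupp

private theorem alg_single (w : Wd) (a : ℝ) : (single w a : R) = a • bw w := by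
  rw [bw, smul_single, smul_eq_mul, mul_one]

private theorem alg_ext {M : Type*} [AddCommMonoid M] [Module ℝ M] {φ ψ : R →ₗ[ℝ] M}
    (h : ∀ w, φ (bw w) = ψ (bw w)) : φ = ψ := by
  refine Finsupp.lhom_ext fun w a => ?_
  rw [alg_single, map_smul, map_smul, h]

private theorem alg_ext2 {M : Type*} [AddCommMonoid M] [Module ℝ M] {φ ψ : R →ₗ[ℝ] R →ₗ[ℝ] M}
    (h : ∀ v w, φ (bw v) (bw w) = ψ (bw v) (bw w)) : φ = ψ :=
  alg_ext fun v => alg_ext fun w => h v w

theorem mu_bw (v w : Wd) : mu (bw v) (bw w) = sh v w := by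
  simp [mu, bw, Finsupp.lift_apply]

private theorem alg_nil_sh (w : Wd) : sh [] w = bw w := by
  rw [sh]

theorem sh_nil (v : Wd) : sh v [] = bw v := by
  cases v with
  | nil => rw [sh]
  | cons a v => rw [sh]

theorem sh_cons (a b : Bool) (v w : Wd) :
    sh (a :: v) (b :: w) = app b (sh (a :: v) w) + sg (b :: w) • app a (sh v (b :: w)) := by
  rw [sh]

theorem app_bw (a : Bool) (w : Wd) : app a (bw w) = bw (a :: w) := by
  simp [app, bw, lmapDomain_apply, mapDomain_single]

theorem del_apply (c : Bool) (f : R) (w : Wd) : del c f w = f (c :: w) := rfl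

theorem app_cons (a b : Bool) (f : R) (w : Wd) : app a f (b :: w) = if a = b then f w else 0 := by
  rw [app, lmapDomain_apply]
  split_ifs with h
  · subst h
    exact mapDomain_apply List.cons_injective f w
  · refine mapDomain_of_notMem_range f _ ?_
    rintro ⟨x, hx⟩
    exact h (List.cons.inj hx).1

theorem app_nil (a : Bool) (f : R) : app a f [] = 0 := by
  rw [app, lmapDomain_apply]
  refine mapDomain_of_notMem_range f _ ?_
  rintro ⟨x, hx⟩
  exact List.cons_ne_nil _ _ hx

theorem del_app (a : Bool) (f : R) : del a (app a f) = f := by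
  ext w
  rw [del_apply, app_cons, if_pos rfl]

theorem del_app_ne (a b : Bool) (h : a ≠ b) (f : R) : del a (app b f) = 0 := by
  ext w
  rw [del_apply, app_cons, if_neg (Ne.symm h)]
  rfl

private theorem alg_del_app (c b : Bool) (f : R) : del c (app b f) = if c = b then f else 0 := by
  split_ifs with h
  · rw [h, del_app]
  · exact del_app_ne c b h f

theorem app_inj (a : Bool) (f g : R) (h : app a f = app a g) : f = g := by
  rw [← del_app a f, h, del_app]

theorem R_ext (f g : R) (h0 : f [] = g []) (h : ∀ c, del c f = del c g) : f = g := by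
  ext w
  cases w with
  | nil => exact h0
  | cons c w => rw [← del_apply, h, del_apply]

theorem R_decomp (f : R) : f = f [] • bw [] + app true (del true f) + app false (del false f) := by
  ext w
  rw [Finsupp.add_apply, Finsupp.add_apply, Finsupp.smul_apply]
  cases w with
  | nil => rw [app_nil, app_nil, bw, single_eq_same]; simp
  | cons c w =>
    rw [app_cons, app_cons, del_apply, del_apply, bw, single_eq_of_ne (List.cons_ne_nil _ _)]
    cases c <;> simp

private theorem alg_tau_bw (w : Wd) : tau (bw w) = sg w • bw w := by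
  show (Finsupp.lift R ℝ Wd fun w => sg w • bw w) (single w 1) = sg w • bw w
  rw [Finsupp.lift_apply]
  refine (sum_single_index ?_).trans (one_smul _ _)
  exact zero_smul _ _

theorem tau_apply (f : R) (w : Wd) : tau f w = sg w * f w := by
  induction f using Finsupp.induction_linear with
  | zero => simp
  | add f g hf hg => rw [map_add, Finsupp.add_apply, hf, hg, Finsupp.add_apply, mul_add]
  | single x a =>
    rw [alg_single, map_smul, alg_tau_bw, Finsupp.smul_apply, Finsupp.smul_apply,
      Finsupp.smul_apply, smul_eq_mul, smul_eq_mul, smul_eq_mul]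
    by_cases h : x = w
    · rw [h]; ring
    · rw [bw, single_eq_of_ne (Ne.symm h)]; ring

private theorem alg_sg_sq (w : Wd) : sg w * sg w = 1 := by
  rw [sg, ← mul_pow]
  norm_num

theorem tau_tau (f : R) : tau (tau f) = f := by
  ext w
  rw [tau_apply, tau_apply, ← mul_assoc, alg_sg_sq, one_mul]

theorem nil_mu (f : R) : mu (bw []) f = f := by
  have h : mu (bw []) = LinearMap.id := alg_ext fun w => by
    rw [mu_bw, alg_nil_sh]
    rfl
  rw [h]
  rfl

theorem mu_one (f : R) : mu f (bw []) = f := by
  have h : mu.flip (bw []) = LinearMap.id := alg_ext fun w => by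
    rw [LinearMap.flip_apply, mu_bw, sh_nil]
    rfl
  rw [← LinearMap.flip_apply, h]
  rfl

private theorem alg_bw_nil : (bw [] : R) [] = 1 := by
  rw [bw, single_eq_same]

private theorem alg_bw_cons (a : Bool) (v : Wd) : (bw (a :: v) : R) [] = 0 := by
  rw [bw, single_eq_of_ne (List.cons_ne_nil _ _).symm]

private theorem alg_sh_nil_apply (v w : Wd) : sh v w [] = bw v [] * bw w [] := by
  cases v with
  | nil => rw [alg_nil_sh, alg_bw_nil, one_mul]
  | cons a v =>
    cases w with
    | nil => rw [sh_nil, alg_bw_nil, mul_one]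
    | cons b w =>
      rw [sh_cons, Finsupp.add_apply, Finsupp.smul_apply, app_nil, app_nil, alg_bw_cons]
      simp

theorem mu_nil (f g : R) : mu f g [] = f [] * g [] := by
  have h : mu.compr₂ (Finsupp.lapply ([] : Wd)) =
      (LinearMap.mul ℝ ℝ).compl₁₂ (Finsupp.lapply ([] : Wd)) (Finsupp.lapply ([] : Wd)) :=
    alg_ext2 fun v w => by
      show mu (bw v) (bw w) [] = bw v [] * bw w []
      rw [mu_bw, alg_sh_nil_apply]
  exact congrArg (fun B : R →ₗ[ℝ] R →ₗ[ℝ] ℝ => B f g) h

private theorem alg_del_nil (c : Bool) : del c (bw []) = 0 := by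
  ext w
  rw [del_apply, bw, single_eq_of_ne (List.cons_ne_nil _ _)]
  rfl

private theorem alg_tau_nil : tau (bw []) = bw [] := by
  rw [alg_tau_bw]
  simp [sg, np]

theorem del_mu (c : Bool) (f g : R) :
    del c (mu f g) = mu f (del c g) + mu (del c f) (tau g) := by
  have h : mu.compr₂ (del c) = mu.compl₂ (del c) + mu.compl₁₂ (del c) tau :=
    alg_ext2 fun v w => by
      show del c (mu (bw v) (bw w)) = mu (bw v) (del c (bw w)) + mu (del c (bw v)) (tau (bw w))
      rw [mu_bw]
      cases v with
      | nil => rw [alg_nil_sh, alg_del_nil, nil_mu, map_zero, LinearMap.zero_apply, add_zero]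
      | cons a v =>
        cases w with
        | nil => rw [sh_nil, alg_del_nil, map_zero, zero_add, alg_tau_nil, mu_one]
        | cons b w =>
          rw [sh_cons, map_add, map_smul, alg_del_app, alg_del_app, ← app_bw b w, ← app_bw a v,
            alg_del_app, alg_del_app, app_bw, app_bw, alg_tau_bw]
          congr 1
          · split_ifs
            · rw [mu_bw]
            · rw [map_zero]
          · split_ifs
            · rw [map_smul, mu_bw]
            · rw [smul_zero, map_zero, LinearMap.zero_apply]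
  exact congrArg (fun B : R →ₗ[ℝ] R →ₗ[ℝ] R => B f g) h

private theorem alg_np_cons (a : Bool) (w : Wd) : np (a :: w) = np w + np [a] := by
  cases a <;> simp [np]

private theorem alg_nz_cons (a : Bool) (w : Wd) : nz (a :: w) = nz w + nz [a] := by
  cases a <;> simp [nz]

private theorem alg_IsH_bw (w : Wd) : IsH (np w) (nz w) (bw w) := by
  intro x hx
  rw [bw] at hx
  have : x = w := by
    by_contra h
    exact hx (single_eq_of_ne h)
  rw [this]
  exact ⟨rfl, rfl⟩

private theorem alg_IsH_app (a : Bool) (n k : ℕ) (f : R) (hf : IsH n k f) :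
    IsH (n + np [a]) (k + nz [a]) (app a f) := by
  intro w hw
  cases w with
  | nil => exact absurd (app_nil a f) hw
  | cons b w =>
    rw [app_cons] at hw
    split_ifs at hw with h
    · obtain ⟨h1, h2⟩ := hf w hw
      rw [← h, alg_np_cons, alg_nz_cons, h1, h2]
      exact ⟨rfl, rfl⟩
    · exact absurd rfl hw

private theorem alg_IsH_add (n k : ℕ) (f g : R) (hf : IsH n k f) (hg : IsH n k g) :
    IsH n k (f + g) := by
  intro w hw
  by_cases h : f w = 0
  · refine hg w ?_
    rw [Finsupp.add_apply, h, zero_add] at hw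
    exact hw
  · exact hf w h

private theorem alg_IsH_smul (n k : ℕ) (a : ℝ) (f : R) (hf : IsH n k f) : IsH n k (a • f) := by
  intro w hw
  refine hf w fun h => hw ?_
  rw [Finsupp.smul_apply, h, smul_zero]

private theorem alg_IsH_sh (v w : Wd) : IsH (np v + np w) (nz v + nz w) (sh v w) := by
  induction v, w using sh.induct with
  | case1 w =>
    rw [alg_nil_sh]
    have h1 : np ([] : Wd) = 0 := rfl
    have h2 : nz ([] : Wd) = 0 := rfl
    rw [h1, h2, zero_add, zero_add]
    exact alg_IsH_bw w
  | case2 a v =>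
    rw [sh_nil]
    exact alg_IsH_bw _
  | case3 a v b w ih1 ih2 =>
    rw [sh_cons]
    refine alg_IsH_add _ _ _ _ ?_ (alg_IsH_smul _ _ _ _ ?_)
    · have := alg_IsH_app b _ _ _ ih1
      rw [add_assoc, ← alg_np_cons, add_assoc, ← alg_nz_cons] at this
      exact this
    · have := alg_IsH_app a _ _ _ ih2
      rw [alg_np_cons a v, alg_nz_cons a v, add_right_comm, add_right_comm (nz v)]
      exact this

theorem tau_mu (f g : R) : tau (mu f g) = mu (tau f) (tau g) := by
  have h : mu.compr₂ tau = mu.compl₁₂ tau tau :=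
    alg_ext2 fun v w => by
      show tau (mu (bw v) (bw w)) = mu (tau (bw v)) (tau (bw w))
      rw [alg_tau_bw, alg_tau_bw, LinearMap.map_smul₂, map_smul, mu_bw]
      ext x
      rw [tau_apply, Finsupp.smul_apply, Finsupp.smul_apply, smul_eq_mul, smul_eq_mul]
      by_cases hx : sh v w x = 0
      · rw [hx]; ring
      · have := (alg_IsH_sh v w x hx).1
        rw [← mul_assoc]
        congr 1
        rw [sg, sg, sg, this, pow_add]
  exact congrArg (fun B : R →ₗ[ℝ] R →ₗ[ℝ] R => B f g) h

private theorem alg_del_bw (c : Bool) (u : Wd) : del c (bw u) = 0 ∨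
    ∃ u' : Wd, u'.length + 1 = u.length ∧ del c (bw u) = bw u' := by
  cases u with
  | nil => exact Or.inl (alg_del_nil c)
  | cons a u =>
    rw [← app_bw, alg_del_app]
    split_ifs with h
    · exact Or.inr ⟨u, rfl, rfl⟩
    · exact Or.inl rfl

private theorem alg_assoc (N : ℕ) : ∀ u v w : Wd, u.length + v.length + w.length ≤ N →
    mu (mu (bw u) (bw v)) (bw w) = mu (bw u) (mu (bw v) (bw w)) := by
  induction N with
  | zero =>
    intro u v w h
    have hu : u = [] := List.length_eq_zero_iff.mp (by omega)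
    rw [hu, nil_mu, nil_mu]
  | succ N ih =>
    intro u v w h
    refine R_ext _ _ ?_ fun c => ?_
    · rw [mu_nil, mu_nil, mu_nil, mu_nil, mul_assoc]
    · rw [del_mu, del_mu, del_mu, del_mu, tau_mu, map_add, map_add, LinearMap.add_apply,
        ← add_assoc]
      have h1 : mu (mu (bw u) (bw v)) (del c (bw w)) = mu (bw u) (mu (bw v) (del c (bw w))) := by
        rcases alg_del_bw c w with h0 | ⟨w', hl, h0⟩
        · rw [h0, map_zero, map_zero, map_zero]
        · rw [h0, ih u v w' (by omega)]
      have h2 : mu (mu (bw u) (del c (bw v))) (tau (bw w)) =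
          mu (bw u) (mu (del c (bw v)) (tau (bw w))) := by
        rw [alg_tau_bw, map_smul, map_smul, map_smul]
        rcases alg_del_bw c v with h0 | ⟨v', hl, h0⟩
        · rw [h0, map_zero, map_zero, LinearMap.zero_apply, map_zero]
        · rw [h0, ih u v' w (by omega)]
      have h3 : mu (mu (del c (bw u)) (tau (bw v))) (tau (bw w)) =
          mu (del c (bw u)) (mu (tau (bw v)) (tau (bw w))) := by
        rw [alg_tau_bw, alg_tau_bw, map_smul, map_smul, LinearMap.map_smul₂, map_smul,
          LinearMap.map_smul₂, map_smul, map_smul]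
        rcases alg_del_bw c u with h0 | ⟨u', hl, h0⟩
        · rw [h0, map_zero, LinearMap.zero_apply, map_zero, LinearMap.zero_apply,
            LinearMap.zero_apply]
        · rw [h0, ih u' v w (by omega)]
      rw [h1, h2, h3, add_assoc]

theorem mu_assoc (f g h : R) : mu (mu f g) h = mu f (mu g h) := by
  have h' : mu.compr₂ mu = (LinearMap.llcomp ℝ R R R).compl₁₂ mu mu :=
    alg_ext2 fun u v => alg_ext fun w => alg_assoc _ u v w le_rfl
  exact congrArg (fun B : R →ₗ[ℝ] R →ₗ[ℝ] R →ₗ[ℝ] R => B f g h) h'

theorem IsH_bw (w : Wd) : IsH (np w) (nz w) (bw w) := alg_IsH_bw w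

private theorem alg_IsH_iff (n k : ℕ) (f : R) :
    IsH n k f ↔ f ∈ Submodule.span ℝ (bw '' {w | np w = n ∧ nz w = k}) := by
  have h : Submodule.span ℝ (bw '' {w | np w = n ∧ nz w = k}) =
      supported ℝ ℝ {w | np w = n ∧ nz w = k} := (supported_eq_span_single ℝ _).symm
  rw [h, mem_supported']
  constructor
  · intro hf w hw
    by_contra h0
    exact hw (hf w h0)
  · intro hf w hw
    by_contra h0
    exact hw (hf w h0)

theorem IsH_mu (a b c d : ℕ) (f g : R) (hf : IsH a b f) (hg : IsH c d g) :
    IsH (a + c) (b + d) (mu f g) := by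
  rw [alg_IsH_iff] at hf
  induction hf using Submodule.span_induction with
  | mem x hx =>
    obtain ⟨v, ⟨h1, h2⟩, rfl⟩ := hx
    rw [alg_IsH_iff] at hg
    induction hg using Submodule.span_induction with
    | mem y hy =>
      obtain ⟨w, ⟨h3, h4⟩, rfl⟩ := hy
      rw [mu_bw, ← h1, ← h2, ← h3, ← h4]
      exact alg_IsH_sh v w
    | zero =>
      rw [map_zero]
      intro w hw
      exact absurd rfl hw
    | add x y _ _ hx hy =>
      rw [map_add]
      exact alg_IsH_add _ _ _ _ hx hy
    | smul a x _ hx =>
      rw [map_smul]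
      exact alg_IsH_smul _ _ _ _ hx
  | zero =>
    rw [map_zero]
    intro w hw
    exact absurd rfl hw
  | add x y _ _ hx hy =>
    rw [map_add]
    exact alg_IsH_add _ _ _ _ hx hy
  | smul a x _ hx =>
    rw [map_smul]
    exact alg_IsH_smul _ _ _ _ hx

theorem tau_of_IsH (n k : ℕ) (f : R) (hf : IsH n k f) : tau f = (-1 : ℝ) ^ n • f := by
  ext w
  rw [tau_apply, Finsupp.smul_apply, smul_eq_mul]
  by_cases h : f w = 0
  · rw [h, mul_zero, mul_zero]
  · rw [sg, (hf w h).1]

theorem IsH_tau (n k : ℕ) (f : R) (hf : IsH n k f) : IsH n k (tau f) := by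
  rw [tau_of_IsH n k f hf]
  exact alg_IsH_smul _ _ _ _ hf

theorem IsH_app_true (n k : ℕ) (f : R) (hf : IsH n k f) : IsH (n + 1) k (app true f) :=
  alg_IsH_app true n k f hf

theorem IsH_app_false (n k : ℕ) (f : R) (hf : IsH n k f) : IsH n (k + 1) (app false f) :=
  alg_IsH_app false n k f hf

theorem IsH_del_true (n k : ℕ) (f : R) (hf : IsH n k f) :
    ∀ w, del true f w ≠ 0 → np w + 1 = n ∧ nz w = k := by
  intro w hw
  have := hf (true :: w) hw
  rw [alg_np_cons, alg_nz_cons] at this
  exact this

theorem IsH_del_false (n k : ℕ) (f : R) (hf : IsH n k f) :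
    ∀ w, del false f w ≠ 0 → np w = n ∧ nz w + 1 = k := by
  intro w hw
  have := hf (false :: w) hw
  rw [alg_np_cons, alg_nz_cons] at this
  exact this

private theorem alg_cmp_apply (n k : ℕ) (f : R) (w : Wd) :
    cmp n k f w = if np w = n ∧ nz w = k then f w else 0 := by
  unfold cmp
  rw [filter_apply]

theorem IsH_cmp (n k : ℕ) (f : R) : IsH n k (cmp n k f) := by
  intro w hw
  by_contra h
  exact hw (by rw [alg_cmp_apply, if_neg h])

theorem cmp_of_IsH (n k : ℕ) (f : R) (hf : IsH n k f) : cmp n k f = f := by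
  ext w
  by_cases h : np w = n ∧ nz w = k
  · rw [alg_cmp_apply, if_pos h]
  · rw [alg_cmp_apply, if_neg h]
    by_contra h0
    exact h (hf w (Ne.symm h0))

private theorem alg_cmp_ne (n k a b : ℕ) (f : R) (hf : IsH a b f) (h : ¬ (a = n ∧ b = k)) :
    cmp n k f = 0 := by
  ext w
  by_cases h' : np w = n ∧ nz w = k
  · rw [alg_cmp_apply, if_pos h']
    by_contra h0
    have := hf w h0
    exact h ⟨this.1.symm.trans h'.1, this.2.symm.trans h'.2⟩
  · rw [alg_cmp_apply, if_neg h']
    rfl

/-- every element is the sum of its components -/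
theorem sum_cmp (f : R) : ∃ N : ℕ, ∀ M, N ≤ M →
    f = ∑ n ∈ Finset.range M, ∑ k ∈ Finset.range M, cmp n k f := by
  refine ⟨f.support.sup (fun w => np w + nz w) + 1, fun M hM => ?_⟩
  ext w
  rw [Finsupp.finsetSum_apply]
  have h1 : ∀ n, (∑ k ∈ Finset.range M, cmp n k f) w =
      if np w = n then (∑ k ∈ Finset.range M, if nz w = k then f w else 0) else 0 := by
    intro n
    rw [Finsupp.finsetSum_apply]
    split_ifs with h
    · refine Finset.sum_congr rfl fun k _ => ?_
      by_cases hk : nz w = k
      · rw [alg_cmp_apply, if_pos ⟨h, hk⟩, if_pos hk]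
      · rw [alg_cmp_apply, if_neg (fun h' => hk h'.2), if_neg hk]
    · refine Finset.sum_eq_zero fun k _ => ?_
      rw [alg_cmp_apply, if_neg (fun h' => h h'.1)]
  rw [Finset.sum_congr rfl fun n _ => h1 n]
  by_cases h0 : f w = 0
  · rw [h0]
    simp
  · have h2 : np w + nz w ≤ f.support.sup (fun w => np w + nz w) :=
      Finset.le_sup (f := fun w => np w + nz w) (Finsupp.mem_support_iff.mpr h0)
    rw [Finset.sum_ite_eq, if_pos (Finset.mem_range.mpr (by omega)), Finset.sum_ite_eq,
      if_pos (Finset.mem_range.mpr (by omega))]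

private def algCmp (n k : ℕ) : R →ₗ[ℝ] R where
  toFun := cmp n k
  map_add' f g := by
    rw [cmp, cmp, cmp, filter_add]
  map_smul' a f := by
    rw [cmp, cmp, filter_smul, RingHom.id_apply]

/-- components of a product with a homogeneous right factor -/
theorem cmp_mu_right (n k a b : ℕ) (f g : R) (hg : IsH a b g) :
    cmp (n + a) (k + b) (mu f g) = mu (cmp n k f) g := by
  have h : (algCmp (n + a) (k + b)).comp (mu.flip g) = (mu.flip g).comp (algCmp n k) :=
    alg_ext fun v => by
      show cmp (n + a) (k + b) (mu (bw v) g) = mu (cmp n k (bw v)) g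
      have h1 := IsH_mu _ _ _ _ _ _ (alg_IsH_bw v) hg
      by_cases h2 : np v = n ∧ nz v = k
      · rw [h2.1, h2.2] at h1
        have h3 := alg_IsH_bw v
        rw [h2.1, h2.2] at h3
        rw [cmp_of_IsH _ _ _ h1, cmp_of_IsH _ _ _ h3]
      · rw [alg_cmp_ne _ _ _ _ _ h1 (by omega), alg_cmp_ne _ _ _ _ _ (alg_IsH_bw v) h2,
          map_zero, LinearMap.zero_apply]
  exact congrArg (fun B : R →ₗ[ℝ] R => B f) h

/-- components of a product with a homogeneous left factor -/
theorem cmp_mu_left (n k a b : ℕ) (f g : R) (hg : IsH a b g) :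
    cmp (a + n) (b + k) (mu g f) = mu g (cmp n k f) := by
  have h : (algCmp (a + n) (b + k)).comp (mu g) = (mu g).comp (algCmp n k) :=
    alg_ext fun v => by
      show cmp (a + n) (b + k) (mu g (bw v)) = mu g (cmp n k (bw v))
      have h1 := IsH_mu _ _ _ _ _ _ hg (alg_IsH_bw v)
      by_cases h2 : np v = n ∧ nz v = k
      · rw [h2.1, h2.2] at h1
        have h3 := alg_IsH_bw v
        rw [h2.1, h2.2] at h3
        rw [cmp_of_IsH _ _ _ h1, cmp_of_IsH _ _ _ h3]
      · rw [alg_cmp_ne _ _ _ _ _ h1 (by omega), alg_cmp_ne _ _ _ _ _ (alg_IsH_bw v) h2,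
          map_zero]
  exact congrArg (fun B : R →ₗ[ℝ] R => B f) h

/-- the components of `f * g` in other bidegrees vanish -/
theorem cmp_mu_right_zero (n k a b : ℕ) (f g : R) (hg : IsH a b g) (h : n < a ∨ k < b) :
    cmp n k (mu f g) = 0 := by
  have h' : (algCmp n k).comp (mu.flip g) = 0 :=
    alg_ext fun v => by
      show cmp n k (mu (bw v) g) = 0
      have h1 := IsH_mu _ _ _ _ _ _ (alg_IsH_bw v) hg
      exact alg_cmp_ne _ _ _ _ _ h1 (by omega)
  exact congrArg (fun B : R →ₗ[ℝ] R => B f) h'

end BrV
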