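import Pool.Agent.Lib.BrV.Alg

/-!
# BrV.Api: evaluation lemmas for `rmP, emb, D, D0, cl, cns, mg, uo, cmpP`

All proofs: unfold the definition of `Defs.lean`, `Finsupp` lemmas (`mapRange_apply`, `mapDomain_apply`,
`mapDomain_of_notMem_range`, `lsum_single`, `lift_apply`, `sum_single_index`), additivity.
-/

namespace BrV

open Finsupp

theorem rmP_apply (v : R) (x : Ph) (i : Ix) : rmP v x i = mu (x i) v := by
  simp [rmP]

theorem rmP_single (v : R) (i : Ix) (f : R) : rmP v (single i f) = single i (mu f v) := by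
  simp [rmP]

theorem rmP_rmP (v w : R) (x : Ph) : rmP w (rmP v x) = rmP (mu v w) x := by
  ext1 i
  rw [rmP_apply, rmP_apply, rmP_apply, mu_assoc]

theorem rmP_one (x : Ph) : rmP (bw []) x = x := by
  ext1 i
  rw [rmP_apply, mu_one]

theorem rmP_add (v w : R) (x : Ph) : rmP (v + w) x = rmP v x + rmP w x := by
  ext1 i
  rw [Finsupp.add_apply, rmP_apply, rmP_apply, rmP_apply, map_add]

theorem rmP_smul (a : ℝ) (v : R) (x : Ph) : rmP (a • v) x = a • rmP v x := by
  ext1 i
  rw [Finsupp.smul_apply, rmP_apply, rmP_apply, map_smul]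

private theorem pairInj (b : Bool) : Function.Injective (fun l : LB => ((b, l) : Ix)) := by
  intro l l' h
  exact (Prod.mk.inj h).2

theorem emb_apply (b b' : Bool) (c : CL) (l : LB) :
    emb b c (b', l) = if b = b' then c l • bw [] else 0 := by
  unfold emb
  rw [mapRange_apply]
  split_ifs with h
  · subst h
    rw [mapDomain_apply (pairInj b)]
  · rw [mapDomain_of_notMem_range, zero_smul]
    rintro ⟨l', hl'⟩
    exact h (Prod.mk.inj hl').1

theorem emb_add (b : Bool) (c c' : CL) : emb b (c + c') = emb b c + emb b c' := by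
  ext1 ⟨b', l⟩
  rw [Finsupp.add_apply, emb_apply, emb_apply, emb_apply]
  split_ifs
  · rw [Finsupp.add_apply, add_smul]
  · rw [add_zero]

theorem emb_sub (b : Bool) (c c' : CL) : emb b (c - c') = emb b c - emb b c' := by
  ext1 ⟨b', l⟩
  rw [Finsupp.sub_apply, emb_apply, emb_apply, emb_apply]
  split_ifs
  · rw [Finsupp.sub_apply, sub_smul]
  · rw [sub_zero]

theorem emb_smul (b : Bool) (a : ℝ) (c : CL) : emb b (a • c) = a • emb b c := by
  ext1 ⟨b', l⟩
  rw [Finsupp.smul_apply, emb_apply, emb_apply]
  split_ifs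
  · rw [Finsupp.smul_apply, smul_assoc]
  · rw [smul_zero]

theorem emb_zero (b : Bool) : emb b 0 = 0 := by
  ext1 ⟨b', l⟩
  rw [emb_apply]
  split_ifs
  · rw [Finsupp.zero_apply, zero_smul, Finsupp.zero_apply]
  · rw [Finsupp.zero_apply]

theorem emb_single (b : Bool) (l : LB) (a : ℝ) : emb b (single l a) = single (b, l) (a • bw []) := by
  unfold emb
  rw [mapDomain_single, mapRange_single]

theorem cl_apply (f : R) (l : LB) (u : Wd) (q : LB) :
    cl f l (u :: q) = if q = l then f u else 0 := by
  unfold cl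
  split_ifs with h
  · subst h
    exact mapDomain_apply (fun a b hab => (List.cons.inj hab).1) f u
  · rw [mapDomain_of_notMem_range]
    rintro ⟨u', hu'⟩
    exact h (List.cons.inj hu').2.symm

theorem cl_nil (f : R) (l : LB) : cl f l [] = 0 := by
  unfold cl
  rw [mapDomain_of_notMem_range]
  rintro ⟨u', hu'⟩
  exact List.cons_ne_nil _ _ hu'

theorem cl_add (f g : R) (l : LB) : cl (f + g) l = cl f l + cl g l := by
  unfold cl
  exact mapDomain_add

theorem cl_smul (a : ℝ) (f : R) (l : LB) : cl (a • f) l = a • cl f l := by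
  unfold cl
  exact mapDomain_smul a f

theorem cl_bw (u : Wd) (l : LB) : cl (bw u) l = single (u :: l) 1 := by
  unfold cl bw
  rw [mapDomain_single]

theorem cns_single (w : Wd) (l : LB) (a : ℝ) : cns w (single l a) = single (w :: l) a := by
  unfold cns
  rw [lmapDomain_apply, mapDomain_single]

theorem cns_apply (w u : Wd) (c : CL) (q : LB) : cns w c (u :: q) = if w = u then c q else 0 := by
  unfold cns
  rw [lmapDomain_apply]
  split_ifs with h
  · subst h
    exact mapDomain_apply (fun a b hab => (List.cons.inj hab).2) c q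
  · rw [mapDomain_of_notMem_range]
    rintro ⟨u', hu'⟩
    exact h (List.cons.inj hu').1

theorem cns_nil (w : Wd) (c : CL) : cns w c [] = 0 := by
  unfold cns
  rw [lmapDomain_apply, mapDomain_of_notMem_range]
  rintro ⟨u', hu'⟩
  exact List.cons_ne_nil _ _ hu'

theorem mg_single (l : LB) (a : ℝ) : mg (single l a) = a • mg0 l := by
  unfold mg
  rw [lift_apply]
  exact sum_single_index (zero_smul _ _)

theorem uo_single (l : LB) (a : ℝ) : uo (single l a) = a • uo0 l := by
  unfold uo
  rw [lift_apply]
  exact sum_single_index (zero_smul _ _)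

theorem mg0_cons2 (w v : Wd) (l : LB) :
    mg0 (w :: v :: l) = cl (bm v w) l - cns w (mg0 (v :: l)) := by
  rw [mg0]

theorem D_single (i : Ix) (v : R) : D (single i v) = rmP v (D1 i) := by
  unfold D
  rw [lsum_single]
  rfl

theorem D_apply (x : Ph) (j : Ix) : D x j = x.sum fun i v => mu (D1 i j) v := by
  unfold D
  rw [lsum_apply]
  unfold Finsupp.sum
  rw [Finsupp.finsetSum_apply]
  apply Finset.sum_congr rfl
  intro i _
  exact rmP_apply (x i) (D1 i) j

theorem D0_single (i : Ix) (a : ℝ) : D0 (single i a) = a • D01 i := by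
  unfold D0
  rw [lift_apply]
  exact sum_single_index (zero_smul _ _)

theorem D01_apply (i j : Ix) : D01 i j = D1 i j [] := by
  unfold D01
  rw [mapRange_apply]

/-- `app true (bm v w) = (v p) * (w p)` -/
theorem app_bm (v w : Wd) : app true (bm v w) = mu (bw (true :: v)) (bw (true :: w)) := by
  rw [mu_bw, sh_cons, bm, map_add, map_smul]

/-- `app true (ub w) = z * (w p) - (-1)^(np w + 1) (w p) * z` -/
theorem app_ub (w : Wd) : app true (ub w) =
    mu (bw [false]) (bw (true :: w)) + sg w • mu (bw (true :: w)) (bw [false]) := by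
  have h1 : sg (true :: w) = - sg w := by
    simp [sg, np, pow_succ]
  have h2 : sg [false] = 1 := by
    simp [sg, np]
  have h3 : sg w * sg w = 1 := by
    unfold sg
    rw [← mul_pow]
    simp
  rw [mu_bw, mu_bw, sh_cons, sh_cons, h1, h2, ub, map_add, map_smul, sh_nil]
  have h4 : sh [] (true :: w) = bw (true :: w) := by
    rw [← mu_bw, nil_mu]
  rw [h4, app_bw]
  rw [smul_add, one_smul, neg_smul]
  abel

end BrV
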