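import Pool.Agent.Lib.BrV.Formal

/-!
# BrV.BCyc: the complex `B(R)` is exact except in degree `(0, 0)` (4.6 (i))

`x` has only coefficients at indices `(false, l)`.
Proof.  A word `v` is uniquely `v' z^j` with `v' = []` or `v' = true :: u` a block (in Lean: `v = List.replicate j false ++ v'`).
`s ([l] v' z^j) = [l | v'] z^j`, i.e. `s (single (false,l) (bw (replicate j false ++ (true :: u)))) = single (false, u :: l) (bw (zw j))`, `s = 0` if `v' = []`.
Let `T_j` = the set of words with fewer than `j` trailing `z` (`j` = length of the maximal run of `false` at the head of the list).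
(a) for a block `w' = true :: w` and `v = v' z^j`:  `w' * v = (w' * v') z^j + (combination of words of T_j)`
   (`sh_cons` with `a = true`, `b = false`: `(w' * (v z)) = (w' * v) z + ± (..) p`), and `w' * v'` is `app true` of something (`v' = true :: u`: `app true (bm w u)`; `v' = []`: `w'`).
(b) on `[l] v' z^j` with `l ≠ []` or `v' ≠ []`: `D s + s D - 1` has only words of `T_j`:
   `D s = single (false,l) (v' * z^j) - rmP (z^j) (emb false (mg0 (u :: l)))`, with `v' * z^j = v' z^j + T_j` (by (a)) and `mg0 (u :: w :: l') = cl (bm w u) l' - cns u (mg0 (w :: l'))`;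
   `s D ([w :: l'] v' z^j) = s ([l'] (w' * v' z^j)) - cns u (mg0 (w :: l')) z^j` modulo `T_j` = `cl (bm w u) l' z^j - cns u (mg0 (w::l')) z^j` modulo `T_j`.
   If `v' = []`, `l = w :: l'`: `s = 0`, `s D = s ([l'] (w' * z^j)) = [w :: l'] z^j` modulo `T_j`  (`s` does not change the number of trailing `z`).
(c) let `x` be a `D`-cycle as in the statement, all of whose words have at most `j` trailing `z`.  `x - D (s x) = - (D s + s D - 1) x` has words with fewer than `j` trailing
   `z`, is again a cycle, of the same degree, with only `false` indices.  (If `r = 0` then all `l = []` and `n ≥ 1` forces `v' ≠ []`.)  Induct on `j`.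
`Ac_weak`-style: homogeneity of the result by `cmpP` (`cmpP_D`), `cmpP` keeps the `false` indices.
-/

namespace BrV

open Finsupp

/-- number of trailing letters `z` -/
private def tz : Wd → ℕ
  | [] => 0
  | true :: _ => 0
  | false :: w => tz w + 1

private theorem tz_le_nz (w : Wd) : tz w ≤ nz w := by
  induction w with
  | nil => exact le_rfl
  | cons a w ih =>
    cases a
    · have h : nz (false :: w) = nz w + 1 := by simp [nz]
      rw [h]
      exact Nat.succ_le_succ ih
    · exact Nat.zero_le _

/-- append a letter `z` to all coefficients -/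
private noncomputable def A : Ph →ₗ[ℝ] Ph := mapRange.linearMap (app false)

private theorem A_apply (x : Ph) (i : Ix) : A x i = app false (x i) := by
  simp [A]

private theorem A_single (i : Ix) (f : R) : A (single i f) = single i (app false f) := by
  simp [A]

/-- the homotopy on a word -/
private noncomputable def s0 (l : LB) : Wd → Ph
  | [] => 0
  | true :: u => single (false, u :: l) (bw [])
  | false :: v => A (s0 l v)

/-- the homotopy -/
private noncomputable def S : Ph →ₗ[ℝ] Ph :=
  Finsupp.lsum ℝ fun i => Finsupp.lift Ph ℝ Wd (s0 i.2)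

private theorem S_bw (i : Ix) (v : Wd) : S (single i (bw v)) = s0 i.2 v := by
  have h1 : S (single i (bw v)) = (Finsupp.lift Ph ℝ Wd (s0 i.2)) (bw v) := by
    unfold S
    exact Finsupp.lsum_single ℝ _ i (bw v)
  rw [h1, bw, Finsupp.lift_apply]
  exact (Finsupp.sum_single_index (by exact zero_smul ℝ _)).trans (one_smul ℝ _)

private theorem smul_bw (a : ℝ) (v : Wd) : a • bw v = single v a := by
  simp [bw]

private theorem smul_single' (a : ℝ) (i : Ix) (f : R) :
    (single i (a • f) : Ph) = a • single i f := (Finsupp.smul_single a i f).symm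

private theorem single_add' (i : Ix) (f g : R) :
    (single i (f + g) : Ph) = single i f + single i g := Finsupp.single_add i f g

private theorem map_sub' (f : Ph →ₗ[ℝ] Ph) (x y : Ph) : f (x - y) = f x - f y := map_sub f x y

private theorem add_z (x : Ph) : x + 0 = x := by
  refine Finsupp.ext fun i => Finsupp.ext fun w => ?_
  change x i w + (0 : ℝ) = x i w
  ring

private theorem z_add (x : Ph) : 0 + x = x := by
  refine Finsupp.ext fun i => Finsupp.ext fun w => ?_
  change (0 : ℝ) + x i w = x i w
  ring

private theorem sub_z (x : Ph) : x - 0 = x := by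
  refine Finsupp.ext fun i => Finsupp.ext fun w => ?_
  change x i w - (0 : ℝ) = x i w
  ring

private theorem add_sub_c (a b : Ph) : a + (b - a) = b := by
  refine Finsupp.ext fun i => Finsupp.ext fun w => ?_
  change a i w + (b i w - a i w) = b i w
  ring

/-- linear maps and submodules -/
private theorem mem_lin (f : Ph →ₗ[ℝ] Ph) (T : Submodule ℝ Ph) (x : Ph)
    (h : ∀ i w, x i w ≠ 0 → f (single i (bw w)) ∈ T) : f x ∈ T := by
  have hx : x = ∑ i ∈ x.support, ∑ w ∈ (x i).support, (x i w) • (single i (bw w) : Ph) := by
    conv_lhs => rw [← Finsupp.sum_single x, Finsupp.sum]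
    refine Finset.sum_congr rfl fun i _ => ?_
    have h1 : x i = ∑ w ∈ (x i).support, (x i w) • bw w := by
      conv_lhs => rw [← Finsupp.sum_single (x i), Finsupp.sum]
      exact Finset.sum_congr rfl fun w _ => (smul_bw _ _).symm
    conv_lhs => rw [h1]
    rw [← Finsupp.singleAddHom_apply, map_sum]
    exact Finset.sum_congr rfl fun w _ => smul_single' _ _ _
  rw [hx, map_sum]
  refine T.sum_mem fun i _ => ?_
  rw [map_sum]
  refine T.sum_mem fun w hw => ?_
  rw [map_smul]
  exact T.smul_mem _ (h i w (Finsupp.mem_support_iff.mp hw))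

private theorem cancel1 (a t : Ph) : a + t + (-1 : ℝ) • a = t := by
  refine Finsupp.ext fun i => Finsupp.ext fun w => ?_
  change a i w + t i w + (-1 : ℝ) * a i w = t i w
  ring

private theorem cancel2 (a b : Ph) : a = b + (a + (-1 : ℝ) • b) := by
  refine Finsupp.ext fun i => Finsupp.ext fun w => ?_
  change a i w = b i w + (a i w + (-1 : ℝ) * b i w)
  ring

private theorem ex_lin (f g : Ph →ₗ[ℝ] Ph) (T : Submodule ℝ Ph) (x : Ph)
    (h : ∀ i w, x i w ≠ 0 → ∃ t ∈ T, f (single i (bw w)) = g (single i (bw w)) + t) :
    ∃ t ∈ T, f x = g x + t := by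
  refine ⟨(f + (-1 : ℝ) • g) x, mem_lin _ _ _ fun i w hw => ?_, ?_⟩
  · obtain ⟨t, ht, he⟩ := h i w hw
    rw [LinearMap.add_apply, LinearMap.smul_apply, he, cancel1]
    exact ht
  · rw [LinearMap.add_apply, LinearMap.smul_apply]
    exact cancel2 _ _

private theorem lin_ext (f g : Ph →ₗ[ℝ] Ph)
    (h : ∀ i w, f (single i (bw w)) = g (single i (bw w))) (x : Ph) : f x = g x := by
  obtain ⟨t, ht, he⟩ := ex_lin f g ⊥ x fun i w _ =>
    ⟨0, Submodule.zero_mem _, (h i w).trans (add_z _).symm⟩
  rw [Submodule.mem_bot] at ht
  rw [he, ht]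
  exact add_zero _

private theorem S_A (x : Ph) : S (A x) = A (S x) := by
  refine lin_ext (S ∘ₗ A) (A ∘ₗ S) (fun i w => ?_) x
  rw [LinearMap.comp_apply, LinearMap.comp_apply, A_single, app_bw, S_bw, S_bw]
  rfl

/-- only indices `(false, l)` and words with fewer than `j` trailing `z` -/
private def T (j : ℕ) : Submodule ℝ Ph where
  carrier := {x | ∀ i w, x i w ≠ 0 → i.1 = false ∧ tz w < j}
  zero_mem' := fun i w h => absurd rfl h
  add_mem' := by
    intro x y hx hy i w h
    by_cases h1 : x i w = 0
    · refine hy i w fun h2 => h ?_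
      change x i w + y i w = 0
      rw [h1, h2, add_zero]
    · exact hx i w h1
  smul_mem' := by
    intro c x hx i w h
    refine hx i w fun h2 => h ?_
    change c * x i w = 0
    rw [h2, mul_zero]

private theorem T_zero (x : Ph) (h : x ∈ T 0) : x = 0 := by
  refine Finsupp.ext fun i => Finsupp.ext fun w => ?_
  by_contra hne
  exact absurd (h i w hne).2 (Nat.not_lt_zero _)

private theorem T_mono {j j' : ℕ} (h : j ≤ j') {x : Ph} (hx : x ∈ T j) : x ∈ T j' :=
  fun i w hw => ⟨(hx i w hw).1, lt_of_lt_of_le (hx i w hw).2 h⟩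

private theorem T_A {j : ℕ} {x : Ph} (hx : x ∈ T j) : A x ∈ T (j + 1) := by
  intro i w hw
  rw [A_apply] at hw
  cases w with
  | nil => exact absurd (app_nil _ _) hw
  | cons a w =>
    rw [app_cons] at hw
    split_ifs at hw with ha
    · subst ha
      exact ⟨(hx i w hw).1, Nat.succ_lt_succ (hx i w hw).2⟩
    · exact absurd rfl hw

private theorem single_T (l : LB) (f : R) (j : ℕ) (h : ∀ w, f w ≠ 0 → tz w < j) :
    (single ((false, l) : Ix) f : Ph) ∈ T j := by
  intro i w hw
  by_cases hi : ((false, l) : Ix) = i
  · subst hi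
    rw [Finsupp.single_eq_same] at hw
    exact ⟨rfl, h w hw⟩
  · rw [Finsupp.single_eq_of_ne (fun h => hi h.symm)] at hw
    exact absurd rfl hw

private theorem bw_ne (v w : Wd) (h : bw v w ≠ 0) : w = v := by
  by_contra hne
  exact h (by rw [bw, Finsupp.single_eq_of_ne hne])

private theorem T_S {x : Ph} (hx : x ∈ T 1) : S x ∈ T 1 := by
  refine mem_lin _ _ _ fun i w hw => ?_
  rw [S_bw]
  have h := (hx i w hw).2
  cases w with
  | nil => exact Submodule.zero_mem _
  | cons a w =>
    cases a
    · exact absurd h (by simp [tz])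
    · refine single_T _ _ _ fun v hv => ?_
      rw [bw_ne _ _ hv]
      exact Nat.zero_lt_one

/-- only indices `(false, l)` -/
private def FO : Submodule ℝ Ph where
  carrier := {x | ∀ l, x (true, l) = 0}
  zero_mem' := fun _ => rfl
  add_mem' := by
    intro x y hx hy l
    change x (true, l) + y (true, l) = 0
    rw [hx, hy, add_zero]
  smul_mem' := by
    intro c x hx l
    change c • x (true, l) = 0
    rw [hx, smul_zero]

private theorem FO_A {x : Ph} (hx : x ∈ FO) : A x ∈ FO := by
  intro l
  rw [A_apply, hx, map_zero]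

private theorem FO_single (l : LB) (f : R) : (single ((false, l) : Ix) f : Ph) ∈ FO := by
  intro l'
  exact Finsupp.single_eq_of_ne (by simp)

private theorem FO_s0 (l : LB) (v : Wd) : s0 l v ∈ FO := by
  induction v with
  | nil => exact Submodule.zero_mem _
  | cons a v ih =>
    cases a
    · exact FO_A ih
    · exact FO_single _ _

private theorem FO_S (x : Ph) : S x ∈ FO := by
  refine mem_lin _ _ _ fun i w _ => ?_
  rw [S_bw]
  exact FO_s0 _ _

private theorem sub_add' (a b c t : Ph) (h : a = c + t) : a - b = c - b + t := by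
  rw [h]
  exact add_sub_right_comm c t b

/-- `D A - A D` -/
private theorem DA (x : Ph) (hx : x ∈ FO) : ∃ t ∈ T 1, D (A x) = A (D x) + t := by
  refine ex_lin (D ∘ₗ A) (A ∘ₗ D) _ _ fun i v hv => ?_
  obtain ⟨b, l⟩ := i
  cases b
  · rw [LinearMap.comp_apply, LinearMap.comp_apply, A_single, app_bw, D_single, D_single]
    cases l with
    | nil =>
      have h0 : D1 (false, []) = 0 := rfl
      rw [h0, map_zero, map_zero, map_zero]
      exact ⟨0, Submodule.zero_mem _, (add_z _).symm⟩
    | cons w l =>
      have h0 : D1 (false, w :: l) =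
          single (false, l) (bw (true :: w)) - emb false (mg0 (w :: l)) := rfl
      have h1 : rmP (bw (false :: v)) (emb false (mg0 (w :: l))) =
          A (rmP (bw v) (emb false (mg0 (w :: l)))) := by
        refine Finsupp.ext fun j => ?_
        obtain ⟨b, q⟩ := j
        rw [A_apply, rmP_apply, rmP_apply, emb_apply]
        split_ifs with hb
        · rw [map_smul, LinearMap.smul_apply, nil_mu, LinearMap.smul_apply, nil_mu,
            LinearMap.map_smul, app_bw]
        · rw [map_zero, LinearMap.zero_apply, LinearMap.zero_apply, map_zero]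
      have h2 : (single ((false, l) : Ix) (mu (bw (true :: w)) (bw (false :: v))) : Ph) =
          A (single ((false, l) : Ix) (mu (bw (true :: w)) (bw v))) +
          single (false, l) (sg (false :: v) • app true (sh w (false :: v))) := by
        rw [A_single, mu_bw, mu_bw, sh_cons, ← single_add']
      refine ⟨single (false, l) (sg (false :: v) • app true (sh w (false :: v))), ?_, ?_⟩
      · refine single_T _ _ _ fun u hu => ?_
        rw [Finsupp.smul_apply] at hu
        cases u with
        | nil => exact Nat.zero_lt_one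
        | cons a u =>
          rw [app_cons] at hu
          split_ifs at hu with ha
          · subst ha
            exact Nat.zero_lt_one
          · exact absurd (smul_zero _) hu
      · rw [h0, map_sub', map_sub', map_sub', h1, rmP_single, rmP_single]
        exact sub_add' _ _ _ _ h2
  · exact absurd (by rw [hx l]; rfl) hv

private theorem cl_zero (l : LB) : cl 0 l = 0 := by
  simp [cl]

private theorem S_true (l : LB) (f : R) :
    S (single (false, l) (app true f)) = emb false (cl f l) := by
  induction f using Finsupp.induction_linear with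
  | zero => rw [map_zero, Finsupp.single_zero, cl_zero, emb_zero]; exact map_zero S
  | add f g hf hg => rw [map_add, single_add', map_add, hf, hg, cl_add, emb_add]
  | single u a =>
    rw [← smul_bw, map_smul, app_bw, smul_single', map_smul, S_bw, cl_smul, emb_smul,
      cl_bw, emb_single, one_smul]
    rfl

private theorem S_emb_true (u : Wd) (c : CL) :
    S (rmP (bw (true :: u)) (emb false c)) = emb false (cns u c) := by
  induction c using Finsupp.induction_linear with
  | zero =>
    rw [map_zero, emb_zero]
    exact (congrArg S (map_zero (rmP (bw (true :: u))))).trans (map_zero S)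
  | add f g hf hg => rw [map_add, emb_add, emb_add, map_add, map_add, hf, hg]
  | single q a =>
    rw [emb_single, rmP_single, map_smul, LinearMap.smul_apply, nil_mu, smul_single',
      map_smul, S_bw, cns_single, emb_single, smul_single']
    rfl

private theorem S_emb (c : CL) : S (emb false c) = 0 := by
  induction c using Finsupp.induction_linear with
  | zero => rw [emb_zero]; exact map_zero S
  | add f g hf hg => rw [emb_add, map_add, hf, hg]; exact add_z _
  | single q a =>
    rw [emb_single, smul_single', map_smul, S_bw]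
    exact smul_zero _

/-- `S D + D S = 1` modulo fewer trailing `z` -/
private theorem key (l : LB) (v : Wd) (h : l ≠ [] ∨ 1 ≤ np v) :
    ∃ t ∈ T (tz v), S (D (single (false, l) (bw v))) + D (S (single (false, l) (bw v))) =
      single (false, l) (bw v) + t := by
  induction v with
  | nil =>
    have hl : l ≠ [] := by
      rcases h with h | h
      · exact h
      · exact absurd h (by simp [np])
    obtain ⟨w, l', rfl⟩ := List.exists_cons_of_ne_nil hl
    have h0 : D1 (false, w :: l') =
        single (false, l') (bw (true :: w)) - emb false (mg0 (w :: l')) := rfl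
    have h1 : s0 (w :: l') [] = 0 := rfl
    have h2 : s0 l' (true :: w) = single (false, w :: l') (bw []) := rfl
    refine ⟨0, Submodule.zero_mem _, ?_⟩
    rw [D_single, rmP_one, h0, map_sub', S_bw, S_bw, S_emb]
    change s0 l' (true :: w) - 0 + D (s0 (w :: l') []) = _
    rw [h1, h2]
    refine (congrArg₂ (· + ·) (sub_z _) (map_zero D)).trans ?_
    rfl
  | cons a v ih =>
    cases a
    · have h' : l ≠ [] ∨ 1 ≤ np v := by
        rcases h with h | h
        · exact Or.inl h
        · right
          simpa [np] using h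
      have hA : (single ((false, l) : Ix) (bw (false :: v)) : Ph) =
          A (single (false, l) (bw v)) := by rw [A_single, app_bw]
      set x : Ph := single (false, l) (bw v) with hx
      obtain ⟨t1, ht1, he1⟩ := DA x (FO_single _ _)
      obtain ⟨t2, ht2, he2⟩ := DA (S x) (FO_S x)
      obtain ⟨t3, ht3, he3⟩ := ih h'
      refine ⟨A t3 + S t1 + t2, Submodule.add_mem _ (Submodule.add_mem _ (T_A ht3)
        (T_mono (Nat.le_add_left 1 _) (T_S ht1))) (T_mono (Nat.le_add_left 1 _) ht2), ?_⟩
      rw [hA, S_A, he1, he2, map_add, S_A]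
      have h5 : A (S (D x)) + A (D (S x)) = A x + A t3 := by
        rw [← map_add, he3, map_add]
      refine Finsupp.ext fun i => Finsupp.ext fun w => ?_
      have h6 := congrArg (fun z : Ph => z i w) h5
      change A (S (D x)) i w + A (D (S x)) i w = A x i w + A t3 i w at h6
      change A (S (D x)) i w + S t1 i w + (A (D (S x)) i w + t2 i w) =
        A x i w + (A t3 i w + S t1 i w + t2 i w)
      linarith
    · have h0 : ∀ l, s0 l (true :: v) = single (false, v :: l) (bw []) := fun l => rfl
      have h1 : D1 (false, v :: l) =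
        single (false, l) (bw (true :: v)) - emb false (mg0 (v :: l)) := rfl
      refine ⟨0, Submodule.zero_mem _, ?_⟩
      rw [S_bw, h0, D_single, D_single, rmP_one, h1]
      have h2 : S (rmP (bw (true :: v)) (D1 (false, l))) = emb false (mg0 (v :: l)) := by
        cases l with
        | nil =>
          have h3 : D1 (false, []) = 0 := rfl
          have h4 : mg0 [v] = 0 := rfl
          rw [h3, h4, emb_zero]
          exact (congrArg S (map_zero (rmP (bw (true :: v))))).trans (map_zero S)
        | cons w l =>
          have h3 : D1 (false, w :: l) =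
            single (false, l) (bw (true :: w)) - emb false (mg0 (w :: l)) := rfl
          rw [h3, map_sub', map_sub', rmP_single, ← app_bm, S_true, S_emb_true, mg0_cons2, emb_sub]
      rw [h2]
      refine Eq.trans ?_ (add_z _).symm
      exact add_sub_c _ _

private theorem cmpP_sub_supp (r n k : ℕ) (x : Ph) (i : Ix) (w : Wd)
    (hw : cmpP r n k x i w ≠ 0) : x i w ≠ 0 := by
  rw [cmpP_apply] at hw
  split_ifs at hw with hi
  · intro h
    refine hw ?_
    rw [cmp, Finsupp.filter_apply]
    split_ifs
    · exact h
    · rfl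
  · exact absurd rfl hw

private theorem cmpP_T {j : ℕ} {x : Ph} (r n k : ℕ) (hx : x ∈ T j) : cmpP r n k x ∈ T j :=
  fun i w hw => hx i w (cmpP_sub_supp r n k x i w hw)

private theorem cmpP_FO {x : Ph} (r n k : ℕ) (hx : x ∈ FO) : cmpP r n k x ∈ FO := by
  intro l
  refine Finsupp.ext fun w => ?_
  by_contra hne
  exact cmpP_sub_supp r n k x _ w hne (by rw [hx l]; rfl)

private theorem aux (r n k : ℕ) (h : 1 ≤ r ∨ 1 ≤ n) (j : ℕ) : ∀ x : Ph, IsHP r n k x → x ∈ T j →
    D x = 0 → ∃ y ∈ FO, D y = x := by
  induction j with
  | zero =>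
    intro x _ hT _
    exact ⟨0, Submodule.zero_mem _, by rw [T_zero x hT]; exact map_zero D⟩
  | succ j ih =>
    intro x hx hT hD
    obtain ⟨t, ht, he⟩ : ∃ t ∈ T j, (S ∘ₗ D + D ∘ₗ S) x = (LinearMap.id : Ph →ₗ[ℝ] Ph) x + t := by
      refine ex_lin _ _ _ _ fun i w hw => ?_
      obtain ⟨b, l⟩ := i
      have hb := hT _ w hw
      have hb1 : b = false := hb.1
      subst hb1
      obtain ⟨h3, h4, -⟩ := hx _ w hw
      have h7 : l ≠ [] ∨ 1 ≤ np w := by
        by_cases hl : l = []
        · right
          subst hl
          have h5 : rI (false, []) = 0 := rfl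
          have h6 : nI (false, []) = 0 := rfl
          omega
        · exact Or.inl hl
      obtain ⟨t, ht, he⟩ := key l w h7
      exact ⟨t, T_mono (Nat.lt_succ_iff.mp hb.2) ht, he⟩
    have he' : D (S x) = x + t := by
      have h1 : (S ∘ₗ D + D ∘ₗ S) x = S (D x) + D (S x) := rfl
      rw [h1, hD] at he
      have h2 : S 0 + D (S x) = D (S x) :=
        (congrArg (· + D (S x)) (map_zero S)).trans (z_add _)
      exact h2.symm.trans he
    have h3 : x + cmpP r n k t = D (cmpP (r + 1) n k (S x)) := by
      rw [← cmpP_D, he', map_add, cmpP_of_IsHP r n k x hx]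
    obtain ⟨y, hy1, hy2⟩ := ih (cmpP r n k t) (cmpP_IsHP _ _ _ _) (cmpP_T _ _ _ ht) (by
      have h4 : D (x + cmpP r n k t) = 0 := by rw [h3, D_D]
      rw [map_add, hD] at h4
      exact (z_add _).symm.trans h4)
    refine ⟨cmpP (r + 1) n k (S x) + (-1 : ℝ) • y,
      Submodule.add_mem _ (cmpP_FO _ _ _ (FO_S x)) (Submodule.smul_mem _ _ hy1), ?_⟩
    rw [map_add, ← h3, map_smul, hy2]
    refine Finsupp.ext fun i => Finsupp.ext fun w => ?_
    change x i w + cmpP r n k t i w + (-1 : ℝ) * cmpP r n k t i w = x i w
    ring

theorem B_exact (r n k : ℕ) (x : Ph) (hx : IsHP r n k x) (hf : ∀ l, x (true, l) = 0)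
    (hD : D x = 0) (h : 1 ≤ r ∨ 1 ≤ n) :
    ∃ y : Ph, IsHP (r + 1) n k y ∧ (∀ l, y (true, l) = 0) ∧ D y = x := by
  have hT : x ∈ T (k + 1) := by
    intro i w hw
    obtain ⟨h1, h2, h3⟩ := hx i w hw
    obtain ⟨b, l⟩ := i
    cases b
    · refine ⟨rfl, ?_⟩
      have := tz_le_nz w
      omega
    · exact absurd (by rw [hf l]; rfl) hw
  obtain ⟨y, hy1, hy2⟩ := aux r n k h (k + 1) x hx hT hD
  refine ⟨cmpP (r + 1) n k y, cmpP_IsHP _ _ _ _, cmpP_FO _ _ _ hy1, ?_⟩
  rw [← cmpP_D, hy2, cmpP_of_IsHP r n k x hx]

end BrV
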