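import Pool.Agent.Lib.BrV.PDefs

namespace BrV

/-- the braid relations for the generators with index in the open interval `(o, m)` -/
def BRel {A : Type*} [Monoid A] (S : ℕ → A) (o m : ℕ) : Prop :=
  (∀ i j, o < i → i + 2 ≤ j → j < m → S i * S j = S j * S i) ∧
  (∀ i, o < i → i + 1 < m → S i * S (i + 1) * S i = S (i + 1) * S i * S (i + 1))

end BrV
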