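import Pool.Agent.Lib.BrV.Pow

/-!
# BrV.BarN: bar complex of a module over span{p^j} (abstract part of (4.5))

`N` is a real vector space with operators `e a` (`a : ℕ`), `e 0 = 1`, `e a (e b v) = cc a b • e (a + b) v`.  Lists of naturals: the
entry `a` stands for the positive integer `a + 1`, the head is the last entry.
`bd e (l ⊗ v)` for `l = a :: l'` is `l' ⊗ e (a+1) v - (mgN l) ⊗ v`.

Theorem `bar_exact`: if every `v` with `e 1 v = 0` is `e 1 w`, then the complex is exact in degrees `≥ 2`.
Proof.  `e 1 (e 1 v) = 0` (`cc 1 1 = 0`).  Choose a complement `N1` of `K = ker (e 1)` in `N`; `e 1 : N1 → K` is bijective.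
* `P = ℕ →₀ N1` (`single b v = δ_b v`) with `e a (δ_b v) = cc a b • δ_{a+b} v` (same laws by `cc_assoc`).  The complex of `P` is exact in
  degrees `r ≥ 1`: `s (l ⊗ δ_{b+1} v) = (b :: l) ⊗ δ_0 v`, `s (l ⊗ δ_0 v) = 0`, `bd s + s bd = 1` on lists of length `≥ 1`
  (`mgN (b::a::l') = cc (a+1) (b+1) • [(a+b+1)::l'] - cons b (mgN (a::l'))`, `cc (b+1) 0 = 1`).
* `φ : P → N`, `δ_b v ↦ e b v`;  `ι : P → P`, `ι (δ_b v) = cc b 2 • δ_{b+2} v - δ_b v1 - cc b 1 • δ_{b+1} v2` where `e 2 v = v1 + e 1 v2` with
  `v1, v2 ∈ N1` unique (`N = N1 ⊕ e 1 N1`).  Both commute with all `e a` (`cc_assoc`: `cc a b * cc (a+b) 2 = cc b 2 * cc a (b+2)`, ...), `φ ∘ ι = 0`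
  (`e b (e 2 v - v1 - e 1 v2) = 0`), `ι` is injective (top index, `cc_two_pos`), `φ` is onto (already from `b = 0, 1`), and `ker φ = im ι`: modulo `im ι` every
  element is `δ_0 v + δ_1 v'`, and `φ (δ_0 v + δ_1 v') = v + e 1 v' = 0` forces `v = v' = 0`.
* Let `x` be a cycle of degree `r ≥ 2` with coefficients in `N`.  Lift it coefficientwise to `x~` over `P`: `bd x~ = ι b` for some `b` of degree `r - 1`
  (coefficientwise), `ι (bd b) = 0`, so `bd b = 0`, `r - 1 ≥ 1`, `b = bd b'`, `x~ - ι b'` is a cycle of degree `r ≥ 1`, `= bd y~`, and `x = φ (x~ - ι b') = bd (φ y~)`.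
All maps of coefficients are applied with `Finsupp.mapRange.linearMap`.
-/

namespace BrV

open Finsupp

/-- alternating sum of the merges of neighbours, from the last one -/
noncomputable def mgN : List ℕ → (List ℕ →₀ ℝ)
  | [] => 0
  | [_] => 0
  | a :: b :: l => single ((a + b + 1) :: l) (cc (b + 1) (a + 1)) -
      mapDomain (List.cons a) (mgN (b :: l))

/-- differential on `l ⊗ v` -/
noncomputable def bd0 {N : Type} [AddCommGroup N] [Module ℝ N] (e : ℕ → N →ₗ[ℝ] N) :
    List ℕ → N → (List ℕ →₀ N)
  | [], _ => 0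
  | a :: l, v => single l (e (a + 1) v) - (mgN (a :: l)).mapRange (fun t => t • v) (zero_smul _ _)

/-- the differential of the bar complex -/
noncomputable def bd {N : Type} [AddCommGroup N] [Module ℝ N] (e : ℕ → N →ₗ[ℝ] N) :
    (List ℕ →₀ N) →ₗ[ℝ] (List ℕ →₀ N) :=
  Finsupp.lsum ℝ fun l =>
    { toFun := bd0 e l
      map_add' := fun v w => by
        cases l with
        | nil => simp [bd0]
        | cons a l =>
          ext j
          simp [bd0, smul_add]
          abel
      map_smul' := fun a v => by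
        cases l with
        | nil => simp [bd0]
        | cons b l =>
          ext j
          simp [bd0, smul_sub, smul_comm a] }

section aux

variable {M M' : Type} [AddCommGroup M] [Module ℝ M] [AddCommGroup M'] [Module ℝ M']

/-- `m ⊗ v` -/
private noncomputable def tn (v : M) : (List ℕ →₀ ℝ) →ₗ[ℝ] (List ℕ →₀ M) :=
  Finsupp.mapRange.linearMap (LinearMap.toSpanSingleton ℝ M v)

private lemma tn_apply (v : M) (m : List ℕ →₀ ℝ) (l : List ℕ) : tn v m l = m l • v := rfl

private lemma tn_single (v : M) (l : List ℕ) (t : ℝ) : tn v (single l t) = single l (t • v) := by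
  simp [tn]

private lemma tn_eq (v : M) (m : List ℕ →₀ ℝ) :
    m.mapRange (fun t => t • v) (zero_smul _ _) = tn v m := by
  ext l
  rfl

private lemma tn_mapDomain (v : M) (a : ℕ) (m : List ℕ →₀ ℝ) :
    tn v (mapDomain (List.cons a) m) = mapDomain (List.cons a) (tn v m) := by
  induction m using Finsupp.induction_linear with
  | zero => simp
  | add f g hf hg => rw [mapDomain_add, map_add, map_add, mapDomain_add, hf, hg]
  | single l t => rw [mapDomain_single, tn_single, tn_single, mapDomain_single]

private lemma bd_single (e : ℕ → M →ₗ[ℝ] M) (l : List ℕ) (v : M) :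
    bd e (single l v) = bd0 e l v := by
  have h1 : bd e (single l v) = (single l v).sum fun l v => bd0 e l v := rfl
  rw [h1, Finsupp.sum_single_index]
  cases l with
  | nil => rfl
  | cons a l =>
    show single l (e (a + 1) 0) - (mgN (a :: l)).mapRange (fun t => t • (0 : M)) (zero_smul _ _) = 0
    rw [map_zero, single_zero, zero_sub, neg_eq_zero]
    ext j
    exact smul_zero _

private lemma bd_nil (e : ℕ → M →ₗ[ℝ] M) (v : M) : bd e (single [] v) = 0 := by
  rw [bd_single]; rfl

private lemma bd_cons (e : ℕ → M →ₗ[ℝ] M) (a : ℕ) (l : List ℕ) (v : M) :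
    bd e (single (a :: l) v) = single l (e (a + 1) v) - tn v (mgN (a :: l)) := by
  rw [bd_single, bd0, tn_eq]

/-- linear extension of `mgN` -/
private noncomputable def mgL : (List ℕ →₀ ℝ) →ₗ[ℝ] (List ℕ →₀ ℝ) :=
  Finsupp.lift (List ℕ →₀ ℝ) ℝ (List ℕ) mgN

private lemma mgL_single (l : List ℕ) (t : ℝ) : mgL (single l t) = t • mgN l := by
  simp [mgL]

private lemma mgN_two (a b : ℕ) (l : List ℕ) :
    mgN (a :: b :: l) = single ((a + b + 1) :: l) (cc (b + 1) (a + 1)) -
      mapDomain (List.cons a) (mgN (b :: l)) := rfl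

private lemma mgL_two (a b : ℕ) (m : List ℕ →₀ ℝ) :
    mgL (mapDomain (List.cons a) (mapDomain (List.cons b) m)) =
      cc (b + 1) (a + 1) • mapDomain (List.cons (a + b + 1)) m -
        mapDomain (List.cons a) (mgL (mapDomain (List.cons b) m)) := by
  induction m using Finsupp.induction_linear with
  | zero => simp
  | add f g hf hg =>
    simp only [mapDomain_add, map_add, smul_add] at hf hg ⊢
    rw [hf, hg]
    abel
  | single l t =>
    rw [mapDomain_single, mapDomain_single, mapDomain_single, mgL_single, mgL_single, mgN_two,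
      smul_sub, smul_single, smul_single, mapDomain_smul]
    simp only [smul_eq_mul, mul_comm]

private lemma mgL_mgN (l : List ℕ) : ∀ a b : ℕ,
    mgL (mapDomain (List.cons a) (mgN (b :: l))) = cc (b + 1) (a + 1) • mgN ((a + b + 1) :: l) := by
  induction l with
  | nil =>
    intro a b
    simp [mgN]
  | cons c l ih =>
    intro a b
    have hm : ∃ m : List ℕ →₀ ℝ, m = mgN (c :: l) := ⟨_, rfl⟩
    rw [mgN_two b c l, mgN_two (a + b + 1) c l, mapDomain_sub, map_sub, mapDomain_single,
      mgL_single, mgN_two a (b + c + 1) l, mgL_two, ih b c, smul_sub, smul_sub, mapDomain_smul,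
      smul_single, smul_single]
    have h1 : cc (c + 1) (b + 1) * cc (b + c + 1 + 1) (a + 1) =
        cc (b + 1) (a + 1) * cc (c + 1) (a + b + 1 + 1) := by
      have h := cc_assoc (c + 1) (b + 1) (a + 1)
      have e1 : c + 1 + (b + 1) = b + c + 1 + 1 := by ring
      have e2 : b + 1 + (a + 1) = a + b + 1 + 1 := by ring
      rw [e1, e2] at h
      exact h
    have h2 : a + (b + c + 1) + 1 = a + b + 1 + c + 1 := by ring
    rw [smul_eq_mul, smul_eq_mul, h1, h2]
    abel

private lemma bd_tn_cons (e : ℕ → M →ₗ[ℝ] M) (a : ℕ) (v : M) (m : List ℕ →₀ ℝ) :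
    bd e (tn v (mapDomain (List.cons a) m)) =
      tn (e (a + 1) v) m - tn v (mgL (mapDomain (List.cons a) m)) := by
  induction m using Finsupp.induction_linear with
  | zero => simp
  | add f g hf hg =>
    simp only [mapDomain_add, map_add] at hf hg ⊢
    rw [hf, hg]
    abel
  | single l t =>
    rw [mapDomain_single, tn_single, bd_cons, tn_single, mgL_single, map_smul, map_smul]
    congr 1
    ext j
    rw [tn_apply, Finsupp.smul_apply, tn_apply, smul_comm]

private lemma bd_bd (e : ℕ → M →ₗ[ℝ] M) (hm : ∀ a b v, e a (e b v) = cc a b • e (a + b) v)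
    (x : List ℕ →₀ M) : bd e (bd e x) = 0 := by
  induction x using Finsupp.induction_linear with
  | zero => simp
  | add f g hf hg => rw [map_add, map_add, hf, hg, add_zero]
  | single l v =>
    match l with
    | [] => rw [bd_nil, map_zero]
    | [a] =>
      rw [bd_cons]
      simp [mgN, bd_nil]
    | a :: b :: l =>
      rw [bd_cons, map_sub, bd_cons, mgN_two, map_sub, map_sub, tn_single, bd_tn_cons, mgL_mgN,
        map_smul, bd_cons, hm, map_smul]
      have h1 : b + 1 + (a + 1) = a + b + 1 + 1 := by ring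
      have h2 : tn (cc (b + 1) (a + 1) • v) (mgN ((a + b + 1) :: l)) =
          cc (b + 1) (a + 1) • tn v (mgN ((a + b + 1) :: l)) := by
        ext j
        rw [tn_apply, Finsupp.smul_apply, tn_apply, smul_comm]
      rw [h1, h2]
      abel

private lemma bd_map (e : ℕ → M →ₗ[ℝ] M) (e' : ℕ → M' →ₗ[ℝ] M') (f : M →ₗ[ℝ] M')
    (hf : ∀ a v, f (e a v) = e' a (f v)) (x : List ℕ →₀ M) :
    bd e' (mapRange.linearMap f x) = mapRange.linearMap f (bd e x) := by
  induction x using Finsupp.induction_linear with
  | zero => simp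
  | add g h hg hh => simp only [map_add] at hg hh ⊢; rw [hg, hh]
  | single l v =>
    have h1 : ∀ (l : List ℕ) (v : M), mapRange.linearMap f (single l v) = single l (f v) := by
      intro l v
      simp
    have h2 : ∀ (m : List ℕ →₀ ℝ), mapRange.linearMap f (tn v m) = tn (f v) m := by
      intro m
      ext j
      rw [mapRange.linearMap_apply, mapRange_apply, tn_apply, tn_apply, map_smul]
    cases l with
    | nil => rw [h1, bd_nil, bd_nil, map_zero]
    | cons a l => rw [h1, bd_cons, bd_cons, map_sub, h1, h2, hf]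

private lemma mgN_len : ∀ (l l' : List ℕ), mgN l l' ≠ 0 → l'.length + 1 = l.length := by
  intro l
  match l with
  | [] => intro l' h; exact absurd rfl h
  | [_] => intro l' h; exact absurd rfl h
  | a :: b :: l =>
    intro l' h
    by_contra hne
    apply h
    rw [mgN_two, coe_sub, Pi.sub_apply]
    have h1 : (single ((a + b + 1) :: l) (cc (b + 1) (a + 1)) : List ℕ →₀ ℝ) l' = 0 := by
      rw [single_apply, if_neg]
      rintro rfl
      apply hne
      simp
    have h2 : (mapDomain (List.cons a) (mgN (b :: l)) : List ℕ →₀ ℝ) l' = 0 := by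
      by_contra h3
      have h4 := mapDomain_support (mem_support_iff.2 h3)
      obtain ⟨l'', h5, rfl⟩ := Finset.mem_image.1 h4
      have h6 := mgN_len (b :: l) l'' (mem_support_iff.1 h5)
      apply hne
      simp only [List.length_cons] at h6 ⊢
      omega
    rw [h1, h2, sub_zero]

private lemma bd_len (e : ℕ → M →ₗ[ℝ] M) (r : ℕ) (x : List ℕ →₀ M)
    (hx : ∀ l, x l ≠ 0 → l.length = r) : ∀ l, bd e x l ≠ 0 → l.length + 1 = r := by
  intro l hl
  have h1 : bd e x = x.sum fun l v => bd0 e l v := rfl
  rw [h1, Finsupp.sum_apply, Finsupp.sum] at hl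
  obtain ⟨l0, h2, h3⟩ := Finset.exists_ne_zero_of_sum_ne_zero hl
  have h4 := hx l0 (mem_support_iff.1 h2)
  match l0 with
  | [] => exact absurd rfl h3
  | a :: l0 =>
    by_contra hne
    apply h3
    simp only [List.length_cons] at h4
    have h5 : (single l0 (e (a + 1) (x (a :: l0))) : List ℕ →₀ M) l = 0 := by
      rw [single_apply, if_neg]
      rintro rfl
      exact hne h4
    have h6 : mgN (a :: l0) l = 0 := by
      by_contra h7
      have := mgN_len _ _ h7
      simp only [List.length_cons] at this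
      omega
    show (single l0 (e (a + 1) (x (a :: l0))) - (mgN (a :: l0)).mapRange
      (fun t => t • x (a :: l0)) (zero_smul _ _) : List ℕ →₀ M) l = 0
    rw [coe_sub, Pi.sub_apply, h5, mapRange_apply, h6, zero_smul, sub_zero]

/-! ### the free module -/

/-- the operators on `ℕ →₀ M` -/
private noncomputable def eP (a : ℕ) : (ℕ →₀ M) →ₗ[ℝ] (ℕ →₀ M) :=
  Finsupp.lsum ℝ fun b => cc a b • Finsupp.lsingle (a + b)

private lemma eP_single (a b : ℕ) (v : M) : eP a (single b v) = cc a b • single (a + b) v := by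
  simp [eP]

private lemma eP_eP (a b : ℕ) (v : ℕ →₀ M) : eP a (eP b v) = cc a b • eP (a + b) v := by
  induction v using Finsupp.induction_linear with
  | zero => simp
  | add f g hf hg => rw [map_add, map_add, map_add, smul_add, hf, hg]
  | single c v =>
    rw [eP_single, map_smul, eP_single, eP_single, smul_smul, smul_smul, ← cc_assoc, add_assoc]

/-- the contraction -/
private noncomputable def sP : (List ℕ →₀ (ℕ →₀ M)) →ₗ[ℝ] (List ℕ →₀ (ℕ →₀ M)) :=
  Finsupp.lsum ℝ fun l => Finsupp.lsum ℝ fun b =>
    match b with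
    | 0 => 0
    | b + 1 => (Finsupp.lsingle (b :: l)).comp (Finsupp.lsingle 0)

private lemma sP_zero (l : List ℕ) (v : M) : sP (single l (single 0 v)) = 0 := by
  simp [sP]

private lemma sP_succ (l : List ℕ) (b : ℕ) (v : M) :
    sP (single l (single (b + 1) v)) = single (b :: l) (single 0 v) := by
  simp [sP]

private lemma sP_tn_zero (v : M) (m : List ℕ →₀ ℝ) : sP (tn (single 0 v) m) = 0 := by
  induction m using Finsupp.induction_linear with
  | zero => simp
  | add f g hf hg => rw [map_add, map_add, hf, hg, add_zero]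
  | single l t => rw [tn_single, smul_single, sP_zero]

private lemma sP_tn_succ (v : M) (b : ℕ) (m : List ℕ →₀ ℝ) :
    sP (tn (single (b + 1) v) m) = tn (single 0 v) (mapDomain (List.cons b) m) := by
  induction m using Finsupp.induction_linear with
  | zero => simp
  | add f g hf hg => rw [map_add, map_add, mapDomain_add, map_add, hf, hg]
  | single l t =>
    rw [tn_single, smul_single, sP_succ, mapDomain_single, tn_single, smul_single]

private lemma contr_cons (a : ℕ) (l : List ℕ) (v : ℕ →₀ M) :
    bd eP (sP (single (a :: l) v)) + sP (bd eP (single (a :: l) v)) = single (a :: l) v := by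
  induction v using Finsupp.induction_linear with
  | zero => simp
  | add f g hf hg =>
    have h1 : bd eP (sP (single (a :: l) (f + g))) + sP (bd eP (single (a :: l) (f + g))) =
        (bd eP (sP (single (a :: l) f)) + sP (bd eP (single (a :: l) f))) +
        (bd eP (sP (single (a :: l) g)) + sP (bd eP (single (a :: l) g))) := by
      rw [single_add, map_add, map_add, map_add, map_add]
      abel
    rw [h1, hf, hg, single_add]
  | single b v =>
    match b with
    | 0 =>
      rw [sP_zero, map_zero, zero_add, bd_cons, map_sub, sP_tn_zero, sub_zero, eP_single,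
        cc_zero_right, one_smul, add_zero, sP_succ]
    | b + 1 =>
      have h1 : a + 1 + (b + 1) = (b + a + 1) + 1 := by ring
      have h2 : sP (single l (cc (a + 1) (b + 1) • single (a + 1 + (b + 1)) v)) =
          cc (a + 1) (b + 1) • single ((b + a + 1) :: l) (single 0 v) := by
        rw [← smul_single, map_smul, h1, sP_succ]
      have h3 : (single ((b + a + 1) :: l) (cc (a + 1) (b + 1) • single 0 v) :
          List ℕ →₀ (ℕ →₀ M)) = cc (a + 1) (b + 1) • single ((b + a + 1) :: l) (single 0 v) :=
        (smul_single _ _ _).symm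
      rw [sP_succ, bd_cons, bd_cons, eP_single, cc_zero_right, one_smul, add_zero, mgN_two, map_sub,
        map_sub, tn_single, sP_tn_succ, eP_single, h2, h3]
      abel

private lemma contr (x : List ℕ →₀ (ℕ →₀ M)) (hx : ∀ l, x l ≠ 0 → l ≠ []) :
    bd eP (sP x) + sP (bd eP x) = x := by
  have h1 : x = x.sum single := (Finsupp.sum_single x).symm
  have h2 : ∀ f : (List ℕ →₀ (ℕ →₀ M)) →ₗ[ℝ] (List ℕ →₀ (ℕ →₀ M)),
      f x = ∑ l ∈ x.support, f (single l (x l)) := by
    intro f
    conv_lhs => rw [h1]
    rw [Finsupp.sum, map_sum]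
  have h3 : bd eP (sP x) = ∑ l ∈ x.support, bd eP (sP (single l (x l))) :=
    h2 ((bd eP).comp sP)
  have h4 : sP (bd eP x) = ∑ l ∈ x.support, sP (bd eP (single l (x l))) :=
    h2 (sP.comp (bd eP))
  rw [h3, h4, ← Finset.sum_add_distrib]
  conv_rhs => rw [h1, Finsupp.sum]
  apply Finset.sum_congr rfl
  intro l hl
  have h5 := hx l (mem_support_iff.1 hl)
  cases l with
  | nil => exact absurd rfl h5
  | cons a l => exact contr_cons a l _

private lemma sP_len (r : ℕ) (x : List ℕ →₀ (ℕ →₀ M)) (hx : ∀ l, x l ≠ 0 → l.length = r) :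
    ∀ l, sP x l ≠ 0 → l.length = r + 1 := by
  intro l hl
  have h1 : sP x = ∑ l ∈ x.support, sP (single l (x l)) := by
    conv_lhs => rw [(Finsupp.sum_single x).symm]
    rw [Finsupp.sum, map_sum]
  rw [h1, Finsupp.finsetSum_apply] at hl
  obtain ⟨l0, h2, h3⟩ := Finset.exists_ne_zero_of_sum_ne_zero hl
  have h4 := hx l0 (mem_support_iff.1 h2)
  have h5 : ∀ v : ℕ →₀ M, sP (single l0 v) l ≠ 0 → l.length = l0.length + 1 := by
    intro v
    induction v using Finsupp.induction_linear with
    | zero => intro h; exact absurd (by simp) h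
    | add f g hf hg =>
      intro h
      rw [single_add, map_add, coe_add, Pi.add_apply] at h
      by_cases h6 : sP (single l0 f) l = 0
      · rw [h6, zero_add] at h
        exact hg h
      · exact hf h6
    | single b v =>
      intro h
      match b with
      | 0 => rw [sP_zero] at h; exact absurd rfl h
      | b + 1 =>
        rw [sP_succ, single_apply] at h
        by_cases h7 : b :: l0 = l
        · rw [← h7]; rfl
        · rw [if_neg h7] at h; exact absurd rfl h
  rw [h5 _ h3, h4]

private lemma exact_P (r : ℕ) (hr : 1 ≤ r) (x : List ℕ →₀ (ℕ →₀ M))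
    (hx : ∀ l, x l ≠ 0 → l.length = r) (hd : bd eP x = 0) :
    ∃ y : List ℕ →₀ (ℕ →₀ M), (∀ l, y l ≠ 0 → l.length = r + 1) ∧ bd eP y = x := by
  refine ⟨sP x, sP_len r x hx, ?_⟩
  have h := contr x (fun l hl h0 => by
    have := hx l hl
    rw [h0, List.length_nil] at this
    omega)
  rwa [hd, map_zero, add_zero] at h

end aux

theorem bar_exact {N : Type} [AddCommGroup N] [Module ℝ N] (e : ℕ → N →ₗ[ℝ] N)
    (h0 : ∀ v, e 0 v = v) (hm : ∀ a b v, e a (e b v) = cc a b • e (a + b) v)
    (hex : ∀ v, e 1 v = 0 → ∃ w, v = e 1 w) (r : ℕ) (hr : 2 ≤ r) (x : List ℕ →₀ N)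
    (hx : ∀ l, x l ≠ 0 → l.length = r) (hd : bd e x = 0) :
    ∃ y : List ℕ →₀ N, (∀ l, y l ≠ 0 → l.length = r + 1) ∧ bd e y = x := by
  have h11 : ∀ v, e 1 (e 1 v) = 0 := by
    intro v
    rw [hm, cc_one, if_neg (by decide), zero_smul]
  obtain ⟨N1, hN1⟩ := Submodule.exists_isCompl (LinearMap.ker (e 1))
  -- the decomposition
  let Θ : (N1 × N1) →ₗ[ℝ] N :=
    LinearMap.coprod N1.subtype ((e 1).comp N1.subtype)
  have hΘ : ∀ v w : N1, Θ (v, w) = (v : N) + e 1 w := by
    intro v w
    simp [Θ]
  have hdisj : ∀ v : N, v ∈ N1 → e 1 v = 0 → v = 0 := by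
    intro v h1 h2
    have h3 := hN1.disjoint
    rw [Submodule.disjoint_def] at h3
    exact h3 v (LinearMap.mem_ker.2 h2) h1
  have hinj : Function.Injective Θ := by
    rw [← LinearMap.ker_eq_bot, LinearMap.ker_eq_bot']
    rintro ⟨v, w⟩ h
    rw [hΘ] at h
    have h1 : e 1 (v : N) = 0 := by
      have h2 := congrArg (e 1) h
      rwa [map_add, h11, add_zero, map_zero] at h2
    have h2 : (v : N) = 0 := hdisj _ v.2 h1
    rw [h2, zero_add] at h
    have h3 : (w : N) = 0 := hdisj _ w.2 h
    exact Prod.ext (Subtype.ext h2) (Subtype.ext h3)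
  have hdec : ∀ v : N, ∃ a : N1, ∃ b : N, e 1 b = 0 ∧ v = a + b := by
    intro v
    have h1 : v ∈ LinearMap.ker (e 1) ⊔ N1 := by
      rw [hN1.sup_eq_top]; trivial
    obtain ⟨b, hb, a, ha, rfl⟩ := Submodule.mem_sup.1 h1
    exact ⟨⟨a, ha⟩, b, LinearMap.mem_ker.1 hb, add_comm _ _⟩
  have hsurj : Function.Surjective Θ := by
    intro v
    obtain ⟨a, b, hb, rfl⟩ := hdec v
    obtain ⟨w, rfl⟩ := hex b hb
    obtain ⟨c, d, hd', rfl⟩ := hdec w
    refine ⟨(a, c), ?_⟩
    rw [hΘ, map_add, hd', add_zero]
  let Φ : (N1 × N1) ≃ₗ[ℝ] N := LinearEquiv.ofBijective Θ ⟨hinj, hsurj⟩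
  let al : N1 →ₗ[ℝ] N1 := (LinearMap.fst ℝ N1 N1).comp (Φ.symm.toLinearMap.comp ((e 2).comp N1.subtype))
  let be : N1 →ₗ[ℝ] N1 := (LinearMap.snd ℝ N1 N1).comp (Φ.symm.toLinearMap.comp ((e 2).comp N1.subtype))
  have hal : ∀ v : N1, e 2 (v : N) = (al v : N) + e 1 (be v : N) := by
    intro v
    have h1 : Θ (Φ.symm (e 2 (v : N))) = e 2 (v : N) := Φ.apply_symm_apply _
    rw [← h1]
    exact hΘ _ _
  let φ : (ℕ →₀ N1) →ₗ[ℝ] N := Finsupp.lsum ℝ fun b => (e b).comp N1.subtype
  have hφ : ∀ (b : ℕ) (v : N1), φ (single b v) = e b (v : N) := by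
    intro b v
    simp [φ]
  let io : (ℕ →₀ N1) →ₗ[ℝ] (ℕ →₀ N1) := Finsupp.lsum ℝ fun b =>
    cc b 2 • Finsupp.lsingle (b + 2) - (Finsupp.lsingle b).comp al -
      cc b 1 • (Finsupp.lsingle (b + 1)).comp be
  have hio : ∀ (b : ℕ) (v : N1), io (single b v) =
      cc b 2 • single (b + 2) v - single b (al v) - cc b 1 • single (b + 1) (be v) := by
    intro b v
    simp [io]
  have hφe : ∀ a v, φ (eP a v) = e a (φ v) := by
    intro a v
    induction v using Finsupp.induction_linear with
    | zero => simp
    | add f g hf hg => simp only [map_add, hf, hg]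
    | single b v => rw [eP_single, map_smul, hφ, hφ, hm]
  have hioe : ∀ a v, io (eP a v) = eP a (io v) := by
    intro a v
    induction v using Finsupp.induction_linear with
    | zero => simp
    | add f g hf hg => simp only [map_add, hf, hg]
    | single b v =>
      rw [eP_single, map_smul, hio, hio, map_sub, map_sub, map_smul, map_smul, eP_single, eP_single,
        eP_single, smul_sub, smul_sub, smul_smul, smul_smul, smul_smul, smul_smul, cc_assoc,
        cc_assoc, add_assoc, add_assoc]
  have hφio : ∀ v, φ (io v) = 0 := by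
    intro v
    induction v using Finsupp.induction_linear with
    | zero => simp
    | add f g hf hg => rw [map_add, map_add, hf, hg, add_zero]
    | single b v =>
      rw [hio, map_sub, map_sub, map_smul, map_smul, hφ, hφ, hφ, ← hm, ← hm, ← map_sub, ← map_sub,
        hal]
      have : (al v : N) + e 1 (be v : N) - (al v : N) - e 1 (be v : N) = 0 := by abel
      rw [this, map_zero]
  have hioinj : Function.Injective io := by
    rw [← LinearMap.ker_eq_bot, LinearMap.ker_eq_bot']
    intro u hu
    by_contra hne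
    have hsup : u.support.Nonempty := Finsupp.support_nonempty_iff.2 hne
    let t := u.support.max' hsup
    have ht : t ∈ u.support := Finset.max'_mem _ _
    have hmax : ∀ b ∈ u.support, b ≤ t := fun b hb => Finset.le_max' _ _ hb
    have h1 : io u = ∑ b ∈ u.support, io (single b (u b)) := by
      conv_lhs => rw [(Finsupp.sum_single u).symm]
      rw [Finsupp.sum, map_sum]
    have h2 : io u (t + 2) = cc t 2 • u t := by
      rw [h1, Finsupp.finsetSum_apply, Finset.sum_eq_single_of_mem t ht]
      · rw [hio]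
        simp
      · intro b hb hbt
        have h3 := hmax b hb
        rw [hio]
        simp only [coe_sub, coe_smul, Pi.sub_apply, Pi.smul_apply]
        rw [single_apply, if_neg (by omega), single_apply, if_neg (by omega), single_apply,
          if_neg (by omega)]
        simp
    rw [hu] at h2
    have h3 : cc t 2 • u t = 0 := h2.symm
    rcases smul_eq_zero.1 h3 with h4 | h4
    · exact (cc_two_pos t).ne' h4
    · exact (mem_support_iff.1 ht) h4
  have hφsurj : Function.Surjective φ := by
    intro v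
    obtain ⟨⟨a, b⟩, rfl⟩ := hsurj v
    refine ⟨single 0 a + single 1 b, ?_⟩
    rw [map_add, hφ, hφ, h0, hΘ]
  have hred : ∀ u : ℕ →₀ N1, ∃ (w : ℕ →₀ N1) (a b : N1), u = io w + single 0 a + single 1 b := by
    have hone : ∀ (n : ℕ) (v : N1), ∃ (w : ℕ →₀ N1) (a b : N1),
        single n v = io w + single 0 a + single 1 b := by
      intro n
      induction n using Nat.strong_induction_on with
      | _ n ih =>
        intro v
        match n with
        | 0 => exact ⟨0, v, 0, by simp⟩
        | 1 => exact ⟨0, 0, v, by simp⟩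
        | n + 2 =>
          obtain ⟨w1, a1, b1, h1⟩ := ih n (by omega) (al v)
          obtain ⟨w2, a2, b2, h2⟩ := ih (n + 1) (by omega) (be v)
          have hc : cc n 2 ≠ 0 := (cc_two_pos n).ne'
          refine ⟨(cc n 2)⁻¹ • (single n v + w1 + cc n 1 • w2),
            (cc n 2)⁻¹ • (a1 + cc n 1 • a2), (cc n 2)⁻¹ • (b1 + cc n 1 • b2), ?_⟩
          have h3 : io (single n v) + single n (al v) + cc n 1 • single (n + 1) (be v) =
              cc n 2 • single (n + 2) v := by
            rw [hio]
            abel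
          have h4 : single (n + 2) v = (cc n 2)⁻¹ •
              (io (single n v) + single n (al v) + cc n 1 • single (n + 1) (be v)) := by
            rw [h3, smul_smul, inv_mul_cancel₀ hc, one_smul]
          rw [h4, h1, h2, ← smul_single, ← smul_single, map_smul, ← smul_add, ← smul_add]
          congr 1
          rw [map_add, map_add, map_smul, single_add, single_add, ← smul_single, ← smul_single,
            smul_add, smul_add]
          abel
    intro u
    induction u using Finsupp.induction_linear with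
    | zero => exact ⟨0, 0, 0, by simp⟩
    | add f g hf hg =>
      obtain ⟨w1, a1, b1, h1⟩ := hf
      obtain ⟨w2, a2, b2, h2⟩ := hg
      refine ⟨w1 + w2, a1 + a2, b1 + b2, ?_⟩
      rw [h1, h2, map_add, single_add, single_add]
      abel
    | single n v => exact hone n v
  have hker : ∀ u, φ u = 0 → ∃ w, io w = u := by
    intro u hu
    obtain ⟨w, a, b, h1⟩ := hred u
    rw [h1, map_add, map_add, hφio, zero_add, hφ, hφ, h0] at hu
    have h2 : Θ (a, b) = Θ 0 := by rw [hΘ, hu, map_zero]
    have h3 := hinj h2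
    have h4 : a = 0 := congrArg Prod.fst h3
    have h5 : b = 0 := congrArg Prod.snd h3
    refine ⟨w, ?_⟩
    rw [h1, h4, h5]
    simp
  -- sections
  obtain ⟨sg', hsg⟩ := LinearMap.exists_rightInverse_of_surjective φ (LinearMap.range_eq_top.2 hφsurj)
  obtain ⟨rh, hrh⟩ := LinearMap.exists_leftInverse_of_injective io (LinearMap.ker_eq_bot.2 hioinj)
  have hsg1 : ∀ v, φ (sg' v) = v := fun v => LinearMap.congr_fun hsg v
  have hrh1 : ∀ u, φ u = 0 → io (rh u) = u := by
    intro u hu
    obtain ⟨w, rfl⟩ := hker u hu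
    have : rh (io w) = w := LinearMap.congr_fun hrh w
    rw [this]
  have hne : ∀ {A B : Type} [AddCommGroup A] [Module ℝ A] [AddCommGroup B] [Module ℝ B]
      (f : A →ₗ[ℝ] B) (z : List ℕ →₀ A) (l : List ℕ), mapRange.linearMap f z l ≠ 0 → z l ≠ 0 := by
    intro A B _ _ _ _ f z l h hz
    apply h
    rw [mapRange.linearMap_apply, mapRange_apply, hz, map_zero]
  let xt := mapRange.linearMap sg' x
  have hxt : ∀ l, xt l ≠ 0 → l.length = r := fun l hl => hx l (hne _ _ _ hl)
  have hφxt : mapRange.linearMap φ xt = x := by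
    ext l
    exact hsg1 (x l)
  have hφbd : mapRange.linearMap φ (bd eP xt) = 0 := by
    rw [← bd_map eP e φ hφe, hφxt, hd]
  let b := mapRange.linearMap rh (bd eP xt)
  have hiob : mapRange.linearMap io b = bd eP xt := by
    ext l : 1
    exact hrh1 _ (DFunLike.congr_fun hφbd l)
  have hblen : ∀ l, b l ≠ 0 → l.length = r - 1 := by
    intro l hl
    have := bd_len eP r xt hxt l (hne _ _ _ hl)
    omega
  have hbdb : bd eP b = 0 := by
    have h1 : mapRange.linearMap io (bd eP b) = 0 := by
      rw [← bd_map eP eP io hioe, hiob, bd_bd eP eP_eP]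
    ext l : 1
    apply hioinj
    have h2 : io (bd eP b l) = 0 := DFunLike.congr_fun h1 l
    rw [h2, coe_zero, Pi.zero_apply, map_zero]
  obtain ⟨b', hb'len, hb'⟩ := exact_P (r - 1) (by omega) b hblen hbdb
  have hb'len' : ∀ l, b' l ≠ 0 → l.length = r := by
    intro l hl
    have := hb'len l hl
    omega
  obtain ⟨y, hylen, hy⟩ := exact_P r (by omega) (xt - mapRange.linearMap io b') (by
    intro l hl
    by_cases h1 : xt l = 0
    · have h2 : mapRange.linearMap io b' l ≠ 0 := by
        intro h3
        apply hl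
        rw [coe_sub, Pi.sub_apply, h1, h3, sub_zero]
      exact hb'len' l (hne _ _ _ h2)
    · exact hxt l h1) (by
    rw [map_sub, bd_map eP eP io hioe, hb', hiob, sub_self])
  refine ⟨mapRange.linearMap φ y, fun l hl => hylen l (hne _ _ _ hl), ?_⟩
  rw [bd_map eP e φ hφe, hy, map_sub, hφxt]
  have : mapRange.linearMap φ (mapRange.linearMap io b') = 0 := by
    ext l
    exact hφio (b' l)
  rw [this, sub_zero]

end BrV
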