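import Pool.Agent.Lib.BrV.CdF

/-!
# BrV.CAug: degree zero of the Salvetti complex

`eps x` = sum of the coefficients.  For `1 ≤ j ≤ N` let `c_j = replicate (N - j) 0 ++ (1 :: replicate (j - 1) 0)` (`tot = N + 1`, length `N`): `bE (sg1 S) c_j = (-1)^(N-j) single (replicate (N+1) 0) (1 - S_j)`
(`Qe S (j-1) 1 1 = 1 - S j`).  `aug_F`: modulo the image, `a S_j = a` for every `a : M`, so by `BM.gen` and induction on the length every `a` is `1`; `x = eps x • 1 = 0`.
`aug_F0`: a composition of `N + 1` with `N` parts is one of the `c_j`; `eps (x * (1 - S_j)) = 0` (`eps` is the ring homomorphism `MonoidAlgebra.lift` of the constant map `1`).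
-/

namespace BrV

open Finsupp

/-- sum of the coefficients -/
noncomputable def eps {M : Type} (x : MonoidAlgebra ℝ M) : ℝ := x.coeff.sum fun _ a => a

private theorem eps_eq_lift {M : Type} [Monoid M] (x : MonoidAlgebra ℝ M) :
    eps x = MonoidAlgebra.lift ℝ ℝ M (1 : M →* ℝ) x := by
  rw [MonoidAlgebra.lift_apply]
  simp [eps]

theorem eps_mul {M : Type} [Monoid M] (x y : MonoidAlgebra ℝ M) : eps (x * y) = eps x * eps y := by
  rw [eps_eq_lift, eps_eq_lift, eps_eq_lift, map_mul]

theorem eps_add {M : Type} (x y : MonoidAlgebra ℝ M) : eps (x + y) = eps x + eps y := by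
  unfold eps
  rw [MonoidAlgebra.coeff_add]
  exact Finsupp.sum_add_index' (fun _ => rfl) (fun _ _ _ => rfl)

theorem eps_single {M : Type} (a : M) (t : ℝ) : eps (MonoidAlgebra.single a t) = t := by
  unfold eps
  rw [MonoidAlgebra.coeff_single]
  exact Finsupp.sum_single_index rfl

/-! ### the boundary of the compositions with one part of size two -/

private theorem tot_cons (a : ℕ) (l : List ℕ) : tot (a :: l) = a + 1 + tot l := by
  simp [tot]

private theorem tot_rep (j : ℕ) : tot (List.replicate j 0) = j := by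
  simp [tot]

private theorem bE_zero_cons {A : Type} [Ring A] (T : ℕ → A) (l : List ℕ) :
    bE T (0 :: l) = - mapDomain (List.cons 0) (bE T l) := by
  simp [bE]

private theorem bE_rep {A : Type} [Ring A] (T : ℕ → A) (j : ℕ) :
    bE T (List.replicate j 0) = 0 := by
  induction j with
  | zero => simp [bE]
  | succ j ih => rw [List.replicate_succ, bE_zero_cons, ih]; simp

private theorem Qe_one_one {A : Type} [Ring A] (T : ℕ → A) (o : ℕ) :
    Qe T o 1 1 = 1 - T (o + 1) := by
  simp [Qe, cyc, sub_eq_add_neg]

private theorem bE_one_rep {A : Type} [Ring A] (T : ℕ → A) (j : ℕ) :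
    bE T (1 :: List.replicate j 0) = single (List.replicate (j + 2) 0) (1 - T (j + 1)) := by
  rw [bE, bE_rep]
  simp [Qe_one_one, tot_rep, List.replicate_succ]

/-- the composition with the part of size two at the position `j` -/
private def cj (k j : ℕ) : List ℕ := List.replicate k 0 ++ 1 :: List.replicate j 0

private theorem bE_cj {A : Type} [Ring A] (T : ℕ → A) (k j : ℕ) :
    bE T (cj k j) = single (List.replicate (k + j + 2) 0) ((-1) ^ k * (1 - T (j + 1))) := by
  induction k with
  | zero => simp only [cj, List.replicate_zero, List.nil_append]; rw [bE_one_rep]; simp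
  | succ k ih =>
    have h : cj (k + 1) j = 0 :: cj k j := by simp [cj, List.replicate_succ]
    rw [h, bE_zero_cons, ih, mapDomain_single, ← single_neg, pow_succ]
    have h2 : k + 1 + j + 2 = (k + j + 2) + 1 := by omega
    rw [h2, List.replicate_succ]
    congr 1
    noncomm_ring

private theorem cj_len (k j : ℕ) : (cj k j).length = k + j + 1 := by
  simp [cj]; omega

private theorem cj_tot (k j : ℕ) : tot (cj k j) = k + j + 2 := by
  simp [cj, tot]; omega

private theorem tot_ge (c : List ℕ) : c.length ≤ tot c := by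
  induction c with
  | nil => simp [tot]
  | cons a l ih => rw [tot_cons]; simp only [List.length_cons]; omega

private theorem eq_rep (c : List ℕ) (h : tot c = c.length) : c = List.replicate c.length 0 := by
  induction c with
  | nil => rfl
  | cons a l ih =>
    rw [tot_cons] at h
    simp only [List.length_cons] at h ⊢
    have := tot_ge l
    have ha : a = 0 := by omega
    rw [List.replicate_succ, ← ih (by omega), ha]

private theorem eq_cj (c : List ℕ) (h : tot c = c.length + 1) :
    ∃ k j, c = cj k j := by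
  induction c with
  | nil => simp [tot] at h
  | cons a l ih =>
    rw [tot_cons] at h
    simp only [List.length_cons] at h
    have h1 := tot_ge l
    by_cases ha : a = 0
    · subst ha
      obtain ⟨k, j, rfl⟩ := ih (by omega)
      exact ⟨k + 1, j, by simp [cj, List.replicate_succ]⟩
    · have ha1 : a = 1 := by omega
      subst ha1
      refine ⟨0, l.length, ?_⟩
      rw [eq_rep l (by omega)]
      simp [cj]

private theorem dFs {A : Type} [Ring A] (S : ℕ → A) (c : List ℕ) (x : A) :
    dF S (single c x) = x • bE S c := by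
  simp [dF]

private theorem eps_zero {M : Type} : eps (0 : MonoidAlgebra ℝ M) = 0 := by
  simp [eps]

private theorem eps_neg {M : Type} (x : MonoidAlgebra ℝ M) : eps (-x) = - eps x := by
  have h := eps_add x (-x)
  rw [add_neg_cancel, eps_zero] at h
  linarith

private theorem eps_sum {M ι : Type} (s : Finset ι) (f : ι → MonoidAlgebra ℝ M) :
    eps (∑ i ∈ s, f i) = ∑ i ∈ s, eps (f i) := by
  classical
  induction s using Finset.induction_on with
  | empty => simp [eps_zero]
  | insert a s ha ih => rw [Finset.sum_insert ha, Finset.sum_insert ha, eps_add, ih]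

/-- the image in degree zero -/
private def Im {M : Type} [Monoid M] (S : ℕ → M) (N : ℕ) :
    Submodule (MonoidAlgebra ℝ M) (MonoidAlgebra ℝ M) where
  carrier := {x | ∃ y : List ℕ →₀ MonoidAlgebra ℝ M,
    (∀ c, y c ≠ 0 → c.length = N ∧ tot c = N + 1) ∧
      dF (sg1 S) y = single (List.replicate (N + 1) 0) x}
  zero_mem' := ⟨0, by simp, by simp⟩
  add_mem' := by
    rintro a b ⟨y, hy, hy'⟩ ⟨z, hz, hz'⟩
    refine ⟨y + z, fun c hc => ?_, by rw [map_add, hy', hz', single_add]⟩
    by_cases h : y c = 0
    · refine hz c fun h2 => hc ?_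
      rw [Finsupp.add_apply, h, h2, add_zero]
    · exact hy c h
  smul_mem' := by
    rintro a b ⟨y, hy, hy'⟩
    refine ⟨a • y, fun c hc => hy c fun h => hc ?_, by rw [map_smul, hy', smul_single]⟩
    rw [Finsupp.smul_apply, h, smul_zero]

private theorem one_sub_mem {M : Type} [Monoid M] (S : ℕ → M) (N i : ℕ) (h1 : 1 ≤ i)
    (h2 : i ≤ N) : (1 - sg1 S i : MonoidAlgebra ℝ M) ∈ Im S N := by
  obtain ⟨k, hk⟩ : ∃ k, N = k + (i - 1) + 1 := ⟨N - i, by omega⟩
  have hi : i - 1 + 1 = i := by omega
  refine ⟨single (cj k (i - 1)) ((-1) ^ k), fun c hc => ?_, ?_⟩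
  · have hc2 : cj k (i - 1) = c := by
      by_contra hne
      exact hc (Finsupp.single_eq_of_ne' hne)
    rw [← hc2, cj_len, cj_tot]
    exact ⟨by omega, by omega⟩
  · rw [dFs, bE_cj, smul_single, hi]
    have h3 : k + (i - 1) + 2 = N + 1 := by omega
    have h4 : ((-1 : MonoidAlgebra ℝ M) ^ k * (-1) ^ k) = 1 := by
      rw [← pow_add, ← two_mul, pow_mul]
      simp
    rw [h3, smul_eq_mul, ← mul_assoc, h4, one_mul]

theorem aug_F {M : Type} [Monoid M] {S : ℕ → M} {N : ℕ} {len : M → ℕ} (h : BM S N len)
    (x : MonoidAlgebra ℝ M) (hx : eps x = 0) :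
    ∃ y : List ℕ →₀ MonoidAlgebra ℝ M, (∀ c, y c ≠ 0 → c.length = N ∧ tot c = N + 1) ∧
      dF (sg1 S) y = single (List.replicate (N + 1) 0) x := by
  have key : ∀ n : ℕ, ∀ a : M, len a = n →
      (MonoidAlgebra.single a (1 : ℝ) - 1 : MonoidAlgebra ℝ M) ∈ Im S N := by
    intro n
    induction n using Nat.strong_induction_on with
    | _ n ih =>
      intro a ha
      rcases h.gen a with rfl | ⟨b, i, h1, h2, rfl⟩
      · rw [← MonoidAlgebra.one_def, sub_self]
        exact Submodule.zero_mem _
      · have hb : len b < n := by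
          rw [← ha, h.len_mul, h.len_S i h1 h2]
          omega
        have e : (MonoidAlgebra.single (b * S i) (1 : ℝ) - 1 : MonoidAlgebra ℝ M) =
            (MonoidAlgebra.single b (1 : ℝ) - 1) -
              MonoidAlgebra.single b (1 : ℝ) • (1 - sg1 S i) := by
          rw [smul_eq_mul, mul_sub, mul_one, sg1, MonoidAlgebra.single_mul_single, mul_one]
          abel
        rw [e]
        exact Submodule.sub_mem _ (ih _ hb b rfl)
          (Submodule.smul_mem _ _ (one_sub_mem S N i h1 h2))
  have hx2 : x = x.coeff.sum fun a t =>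
      (MonoidAlgebra.single (1 : M) t) • (MonoidAlgebra.single a (1 : ℝ) - 1) := by
    have h3 : x = x.coeff.sum fun a t => MonoidAlgebra.single a t := by
      rw [MonoidAlgebra.sum_coeff_single]
    have h4 : (x.coeff.sum fun _ t => MonoidAlgebra.single (1 : M) t) = 0 := by
      have h5 : (x.coeff.sum fun _ t => MonoidAlgebra.single (1 : M) t) =
          MonoidAlgebra.single (1 : M) (eps x) := by
        unfold eps Finsupp.sum
        exact (map_sum (MonoidAlgebra.singleAddHom (1 : M)) _ _).symm
      rw [h5, hx, MonoidAlgebra.single_zero]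
    conv_lhs => rw [h3, ← sub_zero (x.coeff.sum _), ← h4]
    unfold Finsupp.sum
    rw [← Finset.sum_sub_distrib]
    refine Finset.sum_congr rfl fun a _ => ?_
    beta_reduce
    rw [smul_eq_mul, mul_sub, mul_one, MonoidAlgebra.single_mul_single, one_mul, mul_one]
  have hx3 : x ∈ Im S N := by
    rw [hx2]
    exact Submodule.sum_mem _ fun a _ => Submodule.smul_mem _ _ (key _ a rfl)
  exact hx3

/-- valid in every monoid, in particular in the braid group -/
theorem aug_F0 {M : Type} [Monoid M] (S : ℕ → M) (N : ℕ) (y : List ℕ →₀ MonoidAlgebra ℝ M)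
    (hy : ∀ c, y c ≠ 0 → c.length = N ∧ tot c = N + 1) :
    ∃ q : MonoidAlgebra ℝ M, eps q = 0 ∧ dF (sg1 S) y = single (List.replicate (N + 1) 0) q := by
  classical
  have key : ∀ c ∈ y.support, ∃ q : MonoidAlgebra ℝ M, eps q = 0 ∧
      dF (sg1 S) (single c (y c)) = single (List.replicate (N + 1) 0) q := by
    intro c hc
    obtain ⟨h1, h2⟩ := hy c (Finsupp.mem_support_iff.mp hc)
    obtain ⟨k, j, rfl⟩ := eq_cj c (by omega)
    rw [cj_len] at h1
    refine ⟨y (cj k j) * ((-1) ^ k * (1 - sg1 S (j + 1))), ?_, ?_⟩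
    · rw [eps_mul, eps_mul]
      have : eps (1 - sg1 S (j + 1) : MonoidAlgebra ℝ M) = 0 := by
        rw [sub_eq_add_neg, eps_add, eps_neg, MonoidAlgebra.one_def, sg1, eps_single, eps_single]
        ring
      rw [this]
      ring
    · rw [dFs, bE_cj, smul_single, smul_eq_mul]
      congr 2
      omega
  choose! q hq1 hq2 using key
  refine ⟨∑ c ∈ y.support, q c, ?_, ?_⟩
  · rw [eps_sum]
    exact Finset.sum_eq_zero hq1
  · conv_lhs => rw [← Finsupp.sum_single y]
    unfold Finsupp.sum
    rw [map_sum]
    rw [Finset.sum_congr rfl hq2]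
    exact (map_sum (Finsupp.singleAddHom (List.replicate (N + 1) 0)) _ _).symm

end BrV
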