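import Pool.Agent.Lib.BrV.QApi
import Pool.Agent.Lib.BrV.BRelDef

/-!
# BrV.Coassoc: coassociativity of the shuffle elements (9.4), `sal ∘ sal = 0`

Relations of the braid group for the indices `o < i, j < o + a + b + c` only.
`cyc_comm`: `S i` commutes with `cyc S j b = S (j+b-1) ... S j` if `i + 2 ≤ j` or `j + b + 1 ≤ i`.
`cyc_conj`: `cyc S i b * S j = S (j-1) * cyc S i b` for `i < j < i + b`: move `S j` through `S i .. S (j-2)`, then `S j S (j-1) S j = S (j-1) S j S (j-1)`, then move `S (j-1)` to the left.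
`cyc_add`: `cyc S (i+c) b * cyc S i c = cyc S i (c+b)`.
`Qe_coassoc`: induction on `a + b + c` (`a = 0`, `b = 0` or `c = 0`: both sides equal by `Qe_zero_left/right`).  Write `Q`, `C(i,b) = cyc S i b`:
 LHS `= [Q(o;a+b,c-1) + (-1)^c Q(o;a+b-1,c) C(o+a+b,c)] Q(o;a,b)`, and `C(o+a+b,c)` commutes with `Q(o;a,b-1)`, `Q(o;a-1,b)` (they use `S i`, `i ≤ o+a+b-2`), `C(o+a+b,c) C(o+a,b) = C(o+a,b+c)`, so
 LHS `= Q(o;a+b,c-1) Q(o;a,b) + (-1)^c Q(o;a+b-1,c) Q(o;a,b-1) C(o+a+b,c) + (-1)^(b+c) Q(o;a+b-1,c) Q(o;a-1,b) C(o+a,b+c)`.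
 RHS `= Q(o;a,b+c-1) [Q(o+a;b,c-1) + (-1)^c Q(o+a;b-1,c) C(o+a+b,c)] + (-1)^(b+c) Q(o;a-1,b+c) C(o+a,b+c) Q(o+a;b,c)`, and
 `C(o+a,b+c) Q(o+a;b,c) = Q(o+a-1;b,c) C(o+a,b+c)` (`cyc_conj` and induction on the recursion of `Q`).  The three pairs of terms agree by induction.
`sal_sal`: induction on the list (`mgS`).  For `l = a :: b :: c :: l'` (`c` the first, `x` the coefficient): the term merging all three is `Q(o;c+b+2,a+1) Q(o;c+1,b+1) x - Q(o;c+1,a+b+2) Q(o+c+1;b+1,a+1) x = 0`;
 merges of disjoint pairs commute (the shuffle elements use disjoint, far apart sets of generators) with opposite signs.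
-/

namespace BrV

open Finsupp

private theorem BRel.mono {A : Type*} [Monoid A] {S : ℕ → A} {o m m' : ℕ} (h : BRel S o m)
    (hm : m' ≤ m) : BRel S o m' :=
  ⟨fun i j h1 h2 h3 => h.1 i j h1 h2 (by omega), fun i h1 h2 => h.2 i h1 (by omega)⟩

theorem cyc_comm {A : Type*} [Monoid A] (S : ℕ → A) (o m i j b : ℕ) (h : BRel S o m)
    (hi : o < i) (hi' : i < m) (hj : o < j) (hj' : j + b ≤ m) (hf : i + 2 ≤ j ∨ j + b + 1 ≤ i) :
    S i * cyc S j b = cyc S j b * S i := by
  induction b with
  | zero => simp [cyc]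
  | succ b ih =>
    have h1 : S i * S (j + b) = S (j + b) * S i := by
      rcases hf with hf | hf
      · exact h.1 i (j + b) hi (by omega) (by omega)
      · exact (h.1 (j + b) i (by omega) (by omega) hi').symm
    rw [cyc, ← mul_assoc, h1, mul_assoc, ih (by omega) (by omega), mul_assoc]

theorem cyc_conj {A : Type*} [Monoid A] (S : ℕ → A) (o m i j b : ℕ) (h : BRel S o m)
    (hi : o < i) (hj : i < j) (hj' : j < i + b) (hb : i + b ≤ m) :
    cyc S i b * S j = S (j - 1) * cyc S i b := by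
  induction b with
  | zero => omega
  | succ b ih =>
    by_cases hjb : j < i + b
    · have h1 : S (i + b) * S (j - 1) = S (j - 1) * S (i + b) :=
        (h.1 (j - 1) (i + b) (by omega) (by omega) (by omega)).symm
      rw [cyc, mul_assoc, ih hjb (by omega), ← mul_assoc, h1, mul_assoc]
    · have hj2 : j = i + b := by omega
      obtain ⟨b', rfl⟩ : ∃ b', b = b' + 1 := ⟨b - 1, by omega⟩
      subst hj2
      have h1 : S (i + (b' + 1)) * cyc S i b' = cyc S i b' * S (i + (b' + 1)) :=
        cyc_comm S o m _ i b' h (by omega) (by omega) hi (by omega) (Or.inr (by omega))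
      have h2 := h.2 (i + b') (by omega) (by omega)
      have h3 : i + (b' + 1) - 1 = i + b' := by omega
      rw [h3, cyc, cyc]
      have h4 : i + b' + 1 = i + (b' + 1) := by omega
      rw [h4] at h2
      calc S (i + (b' + 1)) * (S (i + b') * cyc S i b') * S (i + (b' + 1))
          = S (i + (b' + 1)) * S (i + b') * (cyc S i b' * S (i + (b' + 1))) := by
            simp only [mul_assoc]
        _ = S (i + (b' + 1)) * S (i + b') * S (i + (b' + 1)) * cyc S i b' := by
            rw [← h1]; simp only [mul_assoc]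
        _ = S (i + b') * S (i + (b' + 1)) * S (i + b') * cyc S i b' := by rw [← h2]
        _ = _ := by simp only [mul_assoc]

theorem cyc_add {A : Type*} [Monoid A] (S : ℕ → A) (i b c : ℕ) :
    cyc S (i + c) b * cyc S i c = cyc S i (c + b) := by
  induction b with
  | zero => simp [cyc]
  | succ b ih =>
    rw [cyc, mul_assoc, ih, ← Nat.add_assoc, cyc, Nat.add_assoc]

private theorem cyc_inter {A : Type*} [Monoid A] (S : ℕ → A) (X : A) (o₁ o₂ n : ℕ)
    (h : ∀ i, 1 ≤ i → i < n → X * S (o₁ + i) = S (o₂ + i) * X) (i b : ℕ) (hi : 1 ≤ i)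
    (hb : i + b ≤ n) : X * cyc S (o₁ + i) b = cyc S (o₂ + i) b * X := by
  induction b with
  | zero => simp [cyc]
  | succ b ih =>
    have h1 := h (i + b) (by omega) (by omega)
    rw [← Nat.add_assoc, ← Nat.add_assoc] at h1
    rw [cyc, cyc, ← mul_assoc, h1, mul_assoc, ih (by omega), mul_assoc]

private theorem Qe_inter {A : Type*} [Ring A] (S : ℕ → A) (X : A) (o₁ o₂ n : ℕ)
    (h : ∀ i, 1 ≤ i → i < n → X * S (o₁ + i) = S (o₂ + i) * X) (a b : ℕ)
    (hb : a + b ≤ n) : X * Qe S o₁ a b = Qe S o₂ a b * X := by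
  suffices H : ∀ k a b, a + b = k → k ≤ n → X * Qe S o₁ a b = Qe S o₂ a b * X from
    H (a + b) a b rfl hb
  intro k
  induction k with
  | zero =>
    intro a b hab _
    have ha : a = 0 := by omega
    subst ha
    rw [Qe_zero_left, Qe_zero_left, mul_one, one_mul]
  | succ k ih =>
    intro a b hab hk
    rcases a with _ | a
    · rw [Qe_zero_left, Qe_zero_left, mul_one, one_mul]
    rcases b with _ | b
    · rw [Qe_zero_right, Qe_zero_right, mul_one, one_mul]
    rw [Qe_succ, Qe_succ, mul_add, add_mul, ih (a + 1) b (by omega) (by omega)]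
    congr 1
    have h1 := ih a (b + 1) (by omega) (by omega)
    have h2 := cyc_inter S X o₁ o₂ n h (a + 1) (b + 1) (by omega) (by omega)
    rw [← Nat.add_assoc, ← Nat.add_assoc] at h2
    have h3 : X * (-1 : A) ^ (b + 1) = (-1 : A) ^ (b + 1) * X :=
      (((Commute.neg_one_left X).pow_left _).eq).symm
    calc X * ((-1) ^ (b + 1) * Qe S o₁ a (b + 1) * cyc S (o₁ + a + 1) (b + 1))
        = (X * (-1) ^ (b + 1)) * Qe S o₁ a (b + 1) * cyc S (o₁ + a + 1) (b + 1) := by
          simp only [mul_assoc]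
      _ = (-1) ^ (b + 1) * (X * Qe S o₁ a (b + 1)) * cyc S (o₁ + a + 1) (b + 1) := by
          rw [h3]; simp only [mul_assoc]
      _ = (-1) ^ (b + 1) * Qe S o₂ a (b + 1) * (X * cyc S (o₁ + a + 1) (b + 1)) := by
          rw [h1]; simp only [mul_assoc]
      _ = _ := by rw [h2]; simp only [mul_assoc]

private theorem coassoc_aux {A : Type*} [Ring A] (q1 q2 q3 q4 q5 q6 q7 q8 q9 q10 q11 c1 c2 c3 : A) (sb sc sbc : A)
    (hsb : ∀ u, sb * u = u * sb) (hsc : ∀ u, sc * u = u * sc) (hs : sc * sb = sbc)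
    (e1 : c1 * q4 = q4 * c1) (e2 : c1 * q5 = q5 * c1) (e3 : c1 * c2 = c3)
    (e4 : c3 * q9 = q10 * c3)
    (r1 : q1 * q3 = q6 * q7) (r2 : q2 * q4 = q6 * q8) (r3 : q2 * q5 = q11 * q10)
    (d1 : q3 = q4 + sb * q5 * c2) (d2 : q9 = q7 + sc * q8 * c1) :
    (q1 + sc * q2 * c1) * q3 = (q6 + sbc * q11 * c3) * q9 := by
  have hA : (sc * q2 * c1) * q3 = sc * (q2 * q4) * c1 + sbc * (q2 * q5) * c3 := by
    rw [d1, mul_add]
    congr 1
    · rw [mul_assoc, e1]; simp only [mul_assoc]
    · calc sc * q2 * c1 * (sb * q5 * c2) = sc * q2 * (c1 * sb) * q5 * c2 := by simp only [mul_assoc]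
        _ = sc * q2 * sb * (c1 * q5) * c2 := by rw [← hsb]; simp only [mul_assoc]
        _ = sc * (q2 * sb) * q5 * (c1 * c2) := by rw [e2]; simp only [mul_assoc]
        _ = sc * (sb * q2) * q5 * c3 := by rw [← hsb, e3]
        _ = _ := by rw [← hs]; simp only [mul_assoc]
  have hB : (sbc * q11 * c3) * q9 = sbc * (q11 * q10) * c3 := by
    rw [mul_assoc, e4]; simp only [mul_assoc]
  have hC : q6 * q9 = q6 * q7 + sc * (q6 * q8) * c1 := by
    rw [d2, mul_add]
    congr 1
    calc q6 * (sc * q8 * c1) = (q6 * sc) * q8 * c1 := by simp only [mul_assoc]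
      _ = _ := by rw [← hsc]; simp only [mul_assoc]
  rw [add_mul, add_mul, hA, hB, hC, r1, r2, r3, add_assoc]

theorem Qe_coassoc {A : Type*} [Ring A] (S : ℕ → A) (o a b c : ℕ) (h : BRel S o (o + a + b + c)) :
    Qe S o (a + b) c * Qe S o a b = Qe S o a (b + c) * Qe S (o + a) b c := by
  suffices H : ∀ k a b c, a + b + c = k → BRel S o (o + k) →
      Qe S o (a + b) c * Qe S o a b = Qe S o a (b + c) * Qe S (o + a) b c from
    H (a + b + c) a b c rfl (by rw [← Nat.add_assoc, ← Nat.add_assoc]; exact h)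
  clear h
  intro k
  induction k with
  | zero =>
    intro a b c hab _
    have ha : a = 0 := by omega
    have hb : b = 0 := by omega
    have hc : c = 0 := by omega
    subst ha; subst hb; subst hc
    simp [Qe_zero_left]
  | succ k ih =>
    intro a b c hk h
    rcases a with _ | a
    · rw [Qe_zero_left, Qe_zero_left, Nat.zero_add, Nat.add_zero, mul_one, one_mul]
    rcases b with _ | b
    · rw [Qe_zero_right, Qe_zero_left, Nat.zero_add, Nat.add_zero]
    rcases c with _ | c
    · rw [Qe_zero_right, Qe_zero_right, Nat.add_zero, one_mul, mul_one]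
    have hk' : BRel S o (o + k) := h.mono (by omega)
    have r1 := ih (a + 1) (b + 1) c (by omega) hk'
    have r2 := ih (a + 1) b (c + 1) (by omega) hk'
    have r3 := ih a (b + 1) (c + 1) (by omega) hk'
    have E1 : a + 1 + (b + 1) = (a + 1 + b) + 1 := by omega
    have E2 : b + 1 + (c + 1) = (b + (c + 1)) + 1 := by omega
    have E3 : a + (b + 1) = a + 1 + b := by omega
    have E4 : b + 1 + c = b + (c + 1) := by omega
    have d1 := Qe_succ S o a b
    have d2 := Qe_succ S (o + (a + 1)) b c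
    rw [E1] at r1 ⊢
    rw [E2] at r3 ⊢
    rw [E3] at r3
    rw [E4] at r1
    rw [Qe_succ S o (a + 1 + b) c, Qe_succ S o a (b + (c + 1))]
    have C1 : cyc S (o + (a + 1 + b) + 1) (c + 1) * cyc S (o + a + 1) (b + 1) =
        cyc S (o + a + 1) (b + (c + 1) + 1) := by
      have := cyc_add S (o + a + 1) (c + 1) (b + 1)
      rw [show o + (a + 1 + b) + 1 = o + a + 1 + (b + 1) by omega, this,
        show b + 1 + (c + 1) = b + (c + 1) + 1 by omega]
    have hcm : ∀ a' b', a' + b' ≤ a + b + 1 →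
        cyc S (o + (a + 1 + b) + 1) (c + 1) * Qe S o a' b' =
          Qe S o a' b' * cyc S (o + (a + 1 + b) + 1) (c + 1) := by
      intro a' b' hab
      apply Qe_inter S _ o o (a + b + 1) _ a' b' hab
      intro i h1 h2
      exact (cyc_comm S o (o + (k + 1)) (o + i) (o + (a + 1 + b) + 1) (c + 1) h (by omega) (by omega)
        (by omega) (by omega) (Or.inl (by omega))).symm
    have hcj : cyc S (o + a + 1) (b + (c + 1) + 1) * Qe S (o + (a + 1)) (b + 1) (c + 1) =
        Qe S (o + a) (b + 1) (c + 1) * cyc S (o + a + 1) (b + (c + 1) + 1) := by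
      apply Qe_inter S _ (o + (a + 1)) (o + a) (b + 1 + (c + 1)) _ (b + 1) (c + 1) le_rfl
      intro i h1 h2
      have := cyc_conj S o (o + (k + 1)) (o + a + 1) (o + (a + 1) + i) (b + (c + 1) + 1) h (by omega)
        (by omega) (by omega) (by omega)
      rw [this]
      congr 2
      omega
    have E5 : o + (a + 1) + b + 1 = o + (a + 1 + b) + 1 := by omega
    rw [E5] at d2
    refine coassoc_aux (Qe S o (a + 1 + b + 1) c) (Qe S o (a + 1 + b) (c + 1)) (Qe S o (a + 1) (b + 1))
      (Qe S o (a + 1) b) (Qe S o a (b + 1)) (Qe S o (a + 1) (b + (c + 1)))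
      (Qe S (o + (a + 1)) (b + 1) c) (Qe S (o + (a + 1)) b (c + 1))
      (Qe S (o + (a + 1)) (b + 1) (c + 1)) (Qe S (o + a) (b + 1) (c + 1))
      (Qe S o a (b + (c + 1) + 1)) (cyc S (o + (a + 1 + b) + 1) (c + 1))
      (cyc S (o + a + 1) (b + 1)) (cyc S (o + a + 1) (b + (c + 1) + 1))
      ((-1) ^ (b + 1)) ((-1) ^ (c + 1)) ((-1) ^ (b + (c + 1) + 1))
      (fun u => ((Commute.neg_one_left u).pow_left _).eq)
      (fun u => ((Commute.neg_one_left u).pow_left _).eq) ?_ (hcm _ _ (by omega)) (hcm _ _ (by omega)) C1 hcj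
      r1 r2 r3 d1 d2
    rw [← pow_add]
    congr 1
    omega

/-! ### `sal ∘ sal = 0` -/
section sal
variable {M : Type} [AddCommGroup M] [Module ℝ M] (S : ℕ → Module.End ℝ M)

private theorem sal_single (l : List ℕ) (x : M) : sal S (single l x) = mgS S l x := by
  simp [sal]

private theorem mgS_cons (a b : ℕ) (l : List ℕ) (x : M) : mgS S (a :: b :: l) x =
    single ((a + b + 1) :: l) (Qe S (tot l) (b + 1) (a + 1) x) -
      lmapDomain M ℝ (List.cons a) (mgS S (b :: l) x) := rfl

/-- merging the last part -/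
private noncomputable def HH (a : ℕ) : (List ℕ →₀ M) →ₗ[ℝ] (List ℕ →₀ M) :=
  Finsupp.lsum ℝ fun l => match l with
    | [] => 0
    | b :: l => (lsingle ((a + b + 1) :: l)).comp (Qe S (tot l) (b + 1) (a + 1))

private theorem HH_single (a b : ℕ) (l : List ℕ) (x : M) : HH S a (single (b :: l) x) =
    single ((a + b + 1) :: l) (Qe S (tot l) (b + 1) (a + 1) x) := by
  simp [HH]

private theorem sal_cons (a : ℕ) (y : List ℕ →₀ M) :
    sal S (lmapDomain M ℝ (List.cons a) y) = HH S a y - lmapDomain M ℝ (List.cons a) (sal S y) := by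
  have h : (sal S).comp (lmapDomain M ℝ (List.cons a)) =
      HH S a - (lmapDomain M ℝ (List.cons a)).comp (sal S) := by
    apply Finsupp.lhom_ext
    intro l x
    rw [LinearMap.comp_apply, LinearMap.sub_apply, LinearMap.comp_apply, lmapDomain_apply,
      mapDomain_single, sal_single, sal_single]
    rcases l with _ | ⟨b, l⟩
    · simp [mgS, HH]
    · rw [mgS_cons, HH_single]
  have h2 := LinearMap.congr_fun h y
  simpa using h2

private theorem tot_cons (a : ℕ) (l : List ℕ) : tot (a :: l) = a + 1 + tot l := by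
  simp [tot]

private theorem comm_Qe (n T a b : ℕ) (h : BRel S 0 n) (hT : T + a + b ≤ n) (i : ℕ) (hi : 1 ≤ i)
    (hi' : i < T) (x : M) : Qe S T a b (S i x) = S i (Qe S T a b x) := by
  have h1 : S i * Qe S T a b = Qe S T a b * S i := by
    apply Qe_inter S _ T T (a + b) _ a b le_rfl
    intro j h1 h2
    exact h.1 i (T + j) (by omega) (by omega) (by omega)
  exact (LinearMap.congr_fun h1 x).symm

private theorem mgS_comm (n T : ℕ) (φ : Module.End ℝ M)
    (hφ : ∀ i, 1 ≤ i → i < T → ∀ x, φ (S i x) = S i (φ x)) (l : List ℕ) (hl : tot l = T) (x : M) :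
    mgS S l (φ x) = Finsupp.mapRange.linearMap φ (mgS S l x) := by
  have h := sal_nat φ S S T hφ (single l x) (by
    intro l' hl'
    by_cases hll : l = l'
    · rw [← hll]; exact hl
    · exact absurd (by rw [single_eq_of_ne (Ne.symm hll)]) hl')
  have h2 : Finsupp.mapRange.linearMap φ (single l x) = single l (φ x) := by
    rw [mapRange.linearMap_apply, mapRange_single]
  rw [sal_single, h2, sal_single] at h
  exact h.symm

private theorem HH_cons (a b T : ℕ) (y : List ℕ →₀ M) (hy : ∀ l, y l ≠ 0 → tot l = T) :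
    HH S a (lmapDomain M ℝ (List.cons b) y) = lmapDomain M ℝ (List.cons (a + b + 1))
      (Finsupp.mapRange.linearMap (Qe S T (b + 1) (a + 1)) y) := by
  have h : y ∈ Finsupp.supported M ℝ {l | tot l = T} := by
    rw [Finsupp.mem_supported]
    intro l hl
    exact hy l (Finsupp.mem_support_iff.1 hl)
  rw [← Finsupp.sum_single y]
  rw [Finsupp.sum, map_sum, map_sum, map_sum, map_sum]
  refine Finset.sum_congr rfl fun l hl => ?_
  have hl' : tot l = T := hy l (Finsupp.mem_support_iff.1 hl)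
  rw [lmapDomain_apply, mapDomain_single, HH_single, mapRange.linearMap_apply, mapRange_single,
    lmapDomain_apply, mapDomain_single, hl']

private theorem sal_mgS (n : ℕ) (h : BRel S 0 n) (l : List ℕ) (hl : tot l ≤ n) (x : M) :
    sal S (mgS S l x) = 0 := by
  induction l generalizing x with
  | nil => simp [mgS]
  | cons a l ih =>
    rcases l with _ | ⟨b, l⟩
    · simp [mgS]
    rw [tot_cons] at hl
    have ih' := ih (by omega) x
    rw [mgS_cons, map_sub, sal_single, sal_cons, ih', map_zero, sub_zero]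
    rcases l with _ | ⟨c, l⟩
    · simp [mgS]
    rw [tot_cons, tot_cons] at hl
    rw [mgS_cons, mgS_cons, map_sub, HH_single]
    have hT : ∀ l', mgS S (c :: l) x l' ≠ 0 → tot l' = tot (c :: l) := by
      intro l' hl'
      have := sal_supp S (c :: l).length (tot (c :: l)) (single (c :: l) x) (by
        intro l'' hl''
        by_cases hll : c :: l = l''
        · rw [← hll]; exact ⟨rfl, rfl⟩
        · exact absurd (by rw [single_eq_of_ne (Ne.symm hll)]) hl'') l' (by rw [sal_single]; exact hl')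
      exact this.2
    rw [HH_cons S a b (tot (c :: l)) _ hT, mgS_comm S n (tot (c :: l)) (Qe S (tot (c :: l)) (b + 1) (a + 1))
      (fun i h1 h2 y => comm_Qe S n _ _ _ h (by rw [tot_cons]; omega) i h1 h2 y) (c :: l) rfl x]
    have h1 : Qe S (tot l) (c + 1) (a + b + 1 + 1) (Qe S (tot (c :: l)) (b + 1) (a + 1) x) =
        Qe S (tot l) (b + c + 1 + 1) (a + 1) (Qe S (tot l) (c + 1) (b + 1) x) := by
      have h2 : BRel S (tot l) (tot l + (c + 1) + (b + 1) + (a + 1)) :=
        ⟨fun i j h1 h2 h3 => h.1 i j (by omega) h2 (by omega),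
          fun i h1 h2 => h.2 i (by omega) (by omega)⟩
      have h3 := Qe_coassoc S (tot l) (c + 1) (b + 1) (a + 1) h2
      have h4 := LinearMap.congr_fun h3 x
      rw [Module.End.mul_apply, Module.End.mul_apply] at h4
      have e1 : c + 1 + (b + 1) = b + c + 1 + 1 := by omega
      have e2 : b + 1 + (a + 1) = a + b + 1 + 1 := by omega
      have e3 : tot l + (c + 1) = tot (c :: l) := by rw [tot_cons]; omega
      rw [e1, e2, e3] at h4
      exact h4.symm
    rw [h1]
    have e4 : a + b + 1 + c + 1 = a + (b + c + 1) + 1 := by omega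
    rw [e4, sub_self]

end sal

theorem sal_sal {M : Type} [AddCommGroup M] [Module ℝ M] (S : ℕ → Module.End ℝ M) (n : ℕ)
    (h : BRel S 0 n) (x : List ℕ →₀ M) (hx : ∀ l, x l ≠ 0 → tot l = n) : sal S (sal S x) = 0 := by
  rw [← Finsupp.sum_single x]
  rw [Finsupp.sum, map_sum, map_sum]
  refine Finset.sum_eq_zero fun l hl => ?_
  rw [sal_single]
  exact sal_mgS S n h l (le_of_eq (hx l (Finsupp.mem_support_iff.1 hl))) _

end BrV
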