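import Pool.Agent.Lib.BrV.CDefs
import Pool.Agent.Lib.BrV.Coassoc

/-!
# BrV.CBM: first consequences: cancellation, Garside elements, top terms (9.3)

`cancel`: induction on `len c` with `gen`, `lcm` (`i = j`).  `cyc_word`, `Dm_comm`, `Dc_comm`: `S i` commutes with products of far generators (`cyc_comm`).
`mx_D`: `mx(a,b) D_a D_b^[a] = D_(a+b)` at offset `o`.  Induction on `a` (`C(i,b) = cyc S i b`):
 `mx(a+1,b) D_(a+1) D_b^[a+1] = mx(a,b) C(o+a+1,b) D_a C(o+1,a) D_b^[a+1] = mx(a,b) D_a C(o+a+1,b) C(o+1,a) D_b^[a+1]` (`C(o+a+1,b)` commutes with `D_a`, letters `≤ o+a-1`)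
 `= mx(a,b) D_a C(o+1,a+b) D_b^[a+1]` (`cyc_add`) `= mx(a,b) D_a D_b^[a] C(o+1,a+b)` (`cyc_conj`: `C(o+1,a+b) S_j = S_(j-1) C(o+1,a+b)` for `o+1 < j ≤ o+a+b`, so `C D_b^[a+1] = D_b^[a] C`) `= D_(a+b) C(o+1,a+b) = D_(a+b+1)`.
`Dm_div`: `D_(m+1) = D_m C(o+1,m)`; `j = o+1`: `C(o+1,m)` ends with `S (o+1)`; `j > o+1`: `D_m = x S_(j-1)` (induction), `S_(j-1) C(o+1,m) = C(o+1,m) S_j`.
`Dc_div`: last part: `Dm_div`; earlier: `Dc l = x S_j`, and `S_j` commutes with `Dm S (tot l) (a+1)` (`j < tot l`).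
`Ins_lt`: interior positions satisfy `1 ≤ j < tot c`.
-/

namespace BrV

theorem BM.cancel {M : Type} [Monoid M] {S : ℕ → M} {N : ℕ} {len : M → ℕ} (h : BM S N len)
    (a b c : M) (e : a * c = b * c) : a = b := by
  suffices H : ∀ n : ℕ, ∀ a b c : M, len c = n → a * c = b * c → a = b from H _ a b c rfl e
  intro n
  induction n with
  | zero =>
    intro a b c hc e
    rcases h.gen c with rfl | ⟨c', i, hi, hi', rfl⟩
    · simpa using e
    · rw [h.len_mul, h.len_S i hi hi'] at hc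
      omega
  | succ n ih =>
    intro a b c hc e
    rcases h.gen c with rfl | ⟨c', i, hi, hi', rfl⟩
    · simpa using e
    · rw [h.len_mul, h.len_S i hi hi'] at hc
      rw [← mul_assoc, ← mul_assoc] at e
      rcases h.lcm _ _ i i hi hi' hi hi' e with ⟨-, h1⟩ | ⟨h1, -⟩ | ⟨h1, -⟩
      · exact ih a b c' (by omega) h1
      · omega
      · omega

theorem BM.eq_one {M : Type} [Monoid M] {S : ℕ → M} {N : ℕ} {len : M → ℕ} (h : BM S N len)
    (a : M) (e : len a = 0) : a = 1 := by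
  rcases h.gen a with h1 | ⟨b, i, hi, hi', rfl⟩
  · exact h1
  · rw [h.len_mul, h.len_S i hi hi'] at e
    omega

/-- strip a far generator -/
theorem BM.far {M : Type} [Monoid M] {S : ℕ → M} {N : ℕ} {len : M → ℕ} (h : BM S N len)
    (a b : M) (i j : ℕ) (hi : 1 ≤ i ∧ i ≤ N) (hj : 1 ≤ j ∧ j ≤ N) (hf : i + 2 ≤ j ∨ j + 2 ≤ i)
    (e : a * S i = b * S j) : ∃ c, a = c * S j ∧ b = c * S i := by
  rcases h.lcm a b i j hi.1 hi.2 hj.1 hj.2 e with ⟨h1, -⟩ | ⟨h1, -⟩ | ⟨-, h1⟩
  · omega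
  · omega
  · exact h1

/-- strip a product of far generators -/
theorem BM.far_cyc {M : Type} [Monoid M] {S : ℕ → M} {N : ℕ} {len : M → ℕ} (h : BM S N len)
    (a b : M) (i m j : ℕ) (hi : 1 ≤ i) (hm : i + m ≤ N + 1) (hj : 1 ≤ j ∧ j ≤ N)
    (hf : i + m + 1 ≤ j ∨ j + 2 ≤ i) (e : a * cyc S i m = b * S j) : ∃ c, a = c * S j := by
  induction m generalizing a with
  | zero => exact ⟨b, by simpa [cyc] using e⟩
  | succ m ih =>
    rw [cyc, ← mul_assoc] at e
    obtain ⟨c, hc⟩ := ih (a * S (i + m)) (by omega) (by omega) e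
    obtain ⟨c', h1, -⟩ := h.far a c (i + m) j ⟨by omega, by omega⟩ hj (by omega) hc
    exact ⟨c', h1⟩

private theorem tot_cons (a : ℕ) (l : List ℕ) : tot (a :: l) = a + 1 + tot l := by
  simp [tot]

theorem Ins_lt (c : List ℕ) (j : ℕ) (h : Ins c j) : 1 ≤ j ∧ j < tot c := by
  induction c with
  | nil => exact absurd h (by simp [Ins])
  | cons a l ih =>
    rw [tot_cons]
    rcases h with h | h
    · omega
    · have := ih h
      omega

private theorem cyc_int {M : Type} [Monoid M] (S : ℕ → M) (X : M) (o₁ o₂ n : ℕ)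
    (h : ∀ i, 1 ≤ i → i < n → X * S (o₁ + i) = S (o₂ + i) * X) (i b : ℕ) (hi : 1 ≤ i)
    (hb : i + b ≤ n) : X * cyc S (o₁ + i) b = cyc S (o₂ + i) b * X := by
  induction b with
  | zero => simp [cyc]
  | succ b ih =>
    have h1 := h (i + b) (by omega) (by omega)
    rw [← Nat.add_assoc, ← Nat.add_assoc] at h1
    rw [cyc, cyc, ← mul_assoc, h1, mul_assoc, ih (by omega), mul_assoc]

private theorem Dm_int {M : Type} [Monoid M] (S : ℕ → M) (X : M) (o₁ o₂ n : ℕ)
    (h : ∀ i, 1 ≤ i → i < n → X * S (o₁ + i) = S (o₂ + i) * X) (m : ℕ) (hm : m ≤ n) :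
    X * Dm S o₁ m = Dm S o₂ m * X := by
  induction m with
  | zero => simp [Dm]
  | succ m ih =>
    rw [Dm, Dm, ← mul_assoc, ih (by omega), mul_assoc,
      cyc_int S X o₁ o₂ n h 1 m le_rfl (by omega), mul_assoc]

private theorem Dc_int {M : Type} [Monoid M] (S : ℕ → M) (X : M) (l : List ℕ)
    (h : ∀ i, 1 ≤ i → i < tot l → X * S i = S i * X) : X * Dc S l = Dc S l * X := by
  induction l with
  | nil => simp [Dc]
  | cons a l ih =>
    have h1 := ih (fun i h1 h2 => h i h1 (by rw [tot_cons]; omega))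
    have h2 := Dm_int S X (tot l) (tot l) (a + 1)
      (fun i h1 h2 => h (tot l + i) (by omega) (by rw [tot_cons]; omega)) (a + 1) le_rfl
    rw [Dc, ← mul_assoc, h1, mul_assoc, h2, mul_assoc]

theorem Dm_comm {M : Type} [Monoid M] (S : ℕ → M) (N o m i : ℕ) (h : BRel S 0 (N + 1))
    (hm : o + m ≤ N + 1) (hi : 1 ≤ i) (hN : i ≤ N) (hf : i + 1 ≤ o ∨ o + m + 1 ≤ i) :
    S i * Dm S o m = Dm S o m * S i := by
  induction m with
  | zero => simp [Dm]
  | succ m ih =>
    rw [Dm, ← mul_assoc, ih (by omega) (by omega), mul_assoc,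
      cyc_comm S 0 (N + 1) i (o + 1) m h (by omega) (by omega) (by omega) (by omega) (by omega),
      mul_assoc]

theorem mx_comm {M : Type} [Monoid M] (S : ℕ → M) (N o a b i : ℕ) (h : BRel S 0 (N + 1))
    (hm : o + a + b ≤ N + 1) (hi : 1 ≤ i) (hf : i + 1 ≤ o) :
    S i * mx S o a b = mx S o a b * S i := by
  induction a with
  | zero => simp [mx]
  | succ a ih =>
    rw [mx, ← mul_assoc, ih (by omega), mul_assoc,
      cyc_comm S 0 (N + 1) i (o + a + 1) b h (by omega) (by omega) (by omega) (by omega) (by omega),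
      mul_assoc]

theorem mx_D {M : Type} [Monoid M] (S : ℕ → M) (N o a b : ℕ) (h : BRel S 0 (N + 1))
    (hm : o + a + b ≤ N + 1) :
    mx S o a b * Dm S o a * Dm S (o + a) b = Dm S o (a + b) := by
  induction a with
  | zero => simp [mx, Dm]
  | succ a ih =>
    have h1 : cyc S (o + a + 1) b * Dm S o a = Dm S o a * cyc S (o + a + 1) b :=
      (cyc_int S (Dm S o a) (o + a) (o + a) (b + 1) (fun i h1 h2 =>
        (Dm_comm S N o a (o + a + i) h (by omega) (by omega) (by omega) (by omega)).symm) 1 b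
        le_rfl (by omega)).symm
    have h2 : cyc S (o + a + 1) b * cyc S (o + 1) a = cyc S (o + 1) (a + b) := by
      have := cyc_add S (o + 1) b a
      rwa [show o + 1 + a = o + a + 1 by omega] at this
    have h3 : cyc S (o + 1) (a + b) * Dm S (o + a + 1) b =
        Dm S (o + a) b * cyc S (o + 1) (a + b) := by
      apply Dm_int S _ (o + a + 1) (o + a) b _ b le_rfl
      intro i h1 h2
      have := cyc_conj S 0 (N + 1) (o + 1) (o + a + 1 + i) (a + b) h (by omega) (by omega)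
        (by omega) (by omega)
      rw [this]
      congr 2
      omega
    have h4 : a + 1 + b = a + b + 1 := by omega
    rw [mx, Dm, h4, Dm, ← ih (by omega), ← Nat.add_assoc]
    calc mx S o a b * cyc S (o + a + 1) b * (Dm S o a * cyc S (o + 1) a) * Dm S (o + a + 1) b
        = mx S o a b * (cyc S (o + a + 1) b * Dm S o a) * cyc S (o + 1) a * Dm S (o + a + 1) b := by
          simp only [mul_assoc]
      _ = mx S o a b * Dm S o a * (cyc S (o + a + 1) b * cyc S (o + 1) a) * Dm S (o + a + 1) b := by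
          rw [h1]; simp only [mul_assoc]
      _ = mx S o a b * Dm S o a * (cyc S (o + 1) (a + b) * Dm S (o + a + 1) b) := by
          rw [h2]; simp only [mul_assoc]
      _ = _ := by rw [h3]; simp only [mul_assoc]

private theorem BM.len_cyc {M : Type} [Monoid M] {S : ℕ → M} {N : ℕ} {len : M → ℕ} (h : BM S N len)
    (i b : ℕ) (hi : 1 ≤ i) (hm : i + b ≤ N + 1) : len (cyc S i b) = b := by
  induction b with
  | zero => simp [cyc, h.len_one]
  | succ b ih =>
    rw [cyc, h.len_mul, ih (by omega), h.len_S (i + b) (by omega) (by omega)]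
    omega

theorem BM.len_mx {M : Type} [Monoid M] {S : ℕ → M} {N : ℕ} {len : M → ℕ} (h : BM S N len)
    (o a b : ℕ) (hm : o + a + b ≤ N + 1) : len (mx S o a b) = a * b := by
  induction a with
  | zero => simp [mx, h.len_one]
  | succ a ih =>
    rw [mx, h.len_mul, ih (by omega), h.len_cyc (o + a + 1) b (by omega) (by omega)]
    ring

theorem Dm_div {M : Type} [Monoid M] (S : ℕ → M) (N o m j : ℕ) (h : BRel S 0 (N + 1))
    (hm : o + m ≤ N + 1) (h1 : o < j) (h2 : j < o + m) : ∃ c, Dm S o m = c * S j := by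
  induction m generalizing j with
  | zero => omega
  | succ m ih =>
    by_cases hj : j = o + 1
    · subst hj
      obtain ⟨m', rfl⟩ : ∃ m', m = 1 + m' := ⟨m - 1, by omega⟩
      refine ⟨Dm S o (1 + m') * cyc S (o + 1 + 1) m', ?_⟩
      rw [Dm, ← cyc_add S (o + 1) m' 1]
      simp [cyc, mul_assoc]
    · obtain ⟨x, hx⟩ := ih (j - 1) (by omega) (by omega) (by omega)
      refine ⟨x * cyc S (o + 1) m, ?_⟩
      rw [Dm, hx, mul_assoc, mul_assoc,
        cyc_conj S 0 (N + 1) (o + 1) j m h (by omega) (by omega) (by omega) (by omega)]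

theorem Dc_div {M : Type} [Monoid M] (S : ℕ → M) (N : ℕ) (h : BRel S 0 (N + 1)) (c : List ℕ)
    (hc : tot c ≤ N + 1) (j : ℕ) (hj : Ins c j) : ∃ b, Dc S c = b * S j := by
  induction c with
  | nil => exact absurd hj (by simp [Ins])
  | cons a l ih =>
    rw [tot_cons] at hc
    rcases hj with hj | hj
    · obtain ⟨x, hx⟩ := Dm_div S N (tot l) (a + 1) j h (by omega) hj.1 (by omega)
      exact ⟨Dc S l * x, by rw [Dc, hx, mul_assoc]⟩
    · obtain ⟨x, hx⟩ := ih (by omega) hj
      have h1 := Ins_lt l j hj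
      refine ⟨x * Dm S (tot l) (a + 1), ?_⟩
      rw [Dc, hx, mul_assoc, mul_assoc,
        Dm_comm S N (tot l) (a + 1) j h (by omega) h1.1 (by omega) (Or.inl (by omega))]

/-- merging two neighbouring parts -/
theorem mx_Dc {M : Type} [Monoid M] (S : ℕ → M) (N : ℕ) (h : BRel S 0 (N + 1)) (a j : ℕ)
    (l : List ℕ) (hj : j < a) (hc : tot (a :: l) ≤ N + 1) :
    mx S (tot l) (j + 1) (a - j) * Dc S ((a - 1 - j) :: j :: l) = Dc S (a :: l) := by
  rw [tot_cons] at hc
  have h1 : mx S (tot l) (j + 1) (a - j) * Dc S l = Dc S l * mx S (tot l) (j + 1) (a - j) :=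
    Dc_int S _ l (fun i h1 h2 =>
      (mx_comm S N (tot l) (j + 1) (a - j) i h (by omega) h1 (by omega)).symm)
  have h2 := mx_D S N (tot l) (j + 1) (a - j) h (by omega)
  have h3 : a - 1 - j + 1 = a - j := by omega
  have h4 : j + 1 + (a - j) = a + 1 := by omega
  have h5 : tot (j :: l) = tot l + (j + 1) := by rw [tot_cons]; omega
  rw [h4] at h2
  rw [Dc, Dc, Dc, h3, h5, ← h2]
  calc mx S (tot l) (j + 1) (a - j) *
        (Dc S l * Dm S (tot l) (j + 1) * Dm S (tot l + (j + 1)) (a - j))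
      = (mx S (tot l) (j + 1) (a - j) * Dc S l) * Dm S (tot l) (j + 1) *
          Dm S (tot l + (j + 1)) (a - j) := by simp only [mul_assoc]
    _ = _ := by rw [h1]; simp only [mul_assoc]

end BrV
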