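import Pool.Agent.Lib.BrV.CBM

/-!
# BrV.CCen: the central element `z = (S N ... S 1)^(N+1)` (9.6)

`d = cyc S 1 N = S N ... S 1`.  `d S_j = S_(j-1) d` for `2 ≤ j ≤ N` (`cyc_conj`).  `d^2 S_1 = S_N d^2`: `d = S_N d'`, `d' = cyc S 1 (N-1)`, `d = d'' S_1`, `d'' = cyc S 2 (N-1)`; `d d'' = d' d` (move the letters `N, .., 2` of `d''` through `d`), so
`S_N d d'' = S_N d' d = d d`, and `S_N d^2 = S_N d d'' S_1 = d^2 S_1`.
So `d^k S_j = S_(j-k) d^k` (`k < j`), `d^(j+1) S_j = d^2 S_1 d^(j-1) = S_N d^(j+1)`, `d^(N+1) S_j = d^(N-j) S_N d^(j+1) = S_j d^(N+1)`.  `z = d^(N+1)` commutes with all generators, so with everything (`BM.gen`, induction on `len`).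
`z = d^(N-j) d'' S_1 ... `: `z = d^(N+1-j) d^j = d^(N+1-j) d'' S_1 d^(j-1) = (d^(N+1-j) d'' d^(j-1)) S_j` for `j ≥ 1`; `t = d^(N+1-j) d'' d^(j-1)`  (`d^j = d d^(j-1) = d'' S_1 d^(j-1)`).
`z = S_j t'` for some `t'`: `z = d^(N-j) S_N d' d^j = S_j (d^(N-j) d' d^j)`.  Then `t' = t`: `z t' = t' z`, `t (S_j t') = (t S_j) t'` is `t z = z t'`, so `t z = t' z`, cancel (`BM.cancel`).
(`N = 0`: `z = 1`, no generators.)
-/

namespace BrV

private theorem cc_move {M : Type} [Monoid M] {S : ℕ → M} {K : ℕ} (h : BRel S 0 (K + 1 + 1))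
    (b : ℕ) (hb : b ≤ K) :
    cyc S 1 (K + 1) * cyc S 2 b = cyc S 1 b * cyc S 1 (K + 1) := by
  induction b with
  | zero => simp [cyc]
  | succ b ih =>
    have h1 : cyc S 1 (K + 1) * S (2 + b) = S (2 + b - 1) * cyc S 1 (K + 1) :=
      cyc_conj S 0 (K + 1 + 1) 1 (2 + b) (K + 1) h (by omega) (by omega) (by omega) (by omega)
    have h2 : 2 + b - 1 = 1 + b := by omega
    rw [h2] at h1
    have h3 : cyc S 2 (b + 1) = S (2 + b) * cyc S 2 b := rfl
    have h4 : cyc S 1 (b + 1) = S (1 + b) * cyc S 1 b := rfl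
    rw [h3, h4, ← mul_assoc, h1, mul_assoc, ih (by omega), mul_assoc]

private theorem cc_pow {M : Type} [Monoid M] {S : ℕ → M} {K : ℕ} (h : BRel S 0 (K + 1 + 1))
    (k j : ℕ) (hj : j ≤ K + 1) (hk : k < j) :
    cyc S 1 (K + 1) ^ k * S j = S (j - k) * cyc S 1 (K + 1) ^ k := by
  induction k with
  | zero => simp
  | succ k ih =>
    have h1 : cyc S 1 (K + 1) * S (j - k) = S (j - k - 1) * cyc S 1 (K + 1) :=
      cyc_conj S 0 (K + 1 + 1) 1 (j - k) (K + 1) h (by omega) (by omega) (by omega) (by omega)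
    have h2 : j - k - 1 = j - (k + 1) := by omega
    rw [h2] at h1
    rw [pow_succ', mul_assoc, ih (by omega), ← mul_assoc, h1, mul_assoc]

theorem central {M : Type} [Monoid M] {S : ℕ → M} {N : ℕ} {len : M → ℕ} (h : BM S N len) :
    ∃ z : M, (∀ a, a * z = z * a) ∧
      ∀ j, 1 ≤ j → j ≤ N → ∃ t, z = t * S j ∧ z = S j * t := by
  rcases N with _ | K
  · exact ⟨1, fun a => by simp, fun j h1 h2 => by omega⟩
  have hr : BRel S 0 (K + 1 + 1) := h.rel
  obtain ⟨d, hd⟩ : ∃ d, d = cyc S 1 (K + 1) := ⟨_, rfl⟩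
  obtain ⟨d', hd'⟩ : ∃ d', d' = cyc S 1 K := ⟨_, rfl⟩
  obtain ⟨d'', hd''⟩ : ∃ d'', d'' = cyc S 2 K := ⟨_, rfl⟩
  have e1 : d = S (K + 1) * d' := by
    rw [hd, hd', cyc, Nat.add_comm 1 K]
  have e2 : d = d'' * S 1 := by
    have h1 := cyc_add S 1 K 1
    have h2 : cyc S 1 1 = S 1 := by simp [cyc]
    rw [h2] at h1
    rw [hd, hd'', Nat.add_comm K 1, ← h1]
  have e3 : d * d'' = d' * d := by
    rw [hd, hd', hd'']
    exact cc_move hr K le_rfl
  have e4 : d ^ 2 * S 1 = S (K + 1) * d ^ 2 := by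
    have h1 : S (K + 1) * d ^ 2 = S (K + 1) * (d * d'') * S 1 := by
      conv_lhs => rw [pow_two]
      conv_lhs =>
        rw [show d * d = d * (d'' * S 1) from by rw [← e2]]
      simp only [mul_assoc]
    rw [h1, e3, ← mul_assoc (S (K + 1)) d' d, ← e1, pow_two]
  have e5 : ∀ k j, j ≤ K + 1 → k < j → d ^ k * S j = S (j - k) * d ^ k := by
    intro k j hj hk
    rw [hd]
    exact cc_pow hr k j hj hk
  -- commutes with generators
  have e6 : ∀ j, 1 ≤ j → j ≤ K + 1 → d ^ (K + 2) * S j = S j * d ^ (K + 2) := by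
    intro j hj hj'
    obtain ⟨i, rfl⟩ : ∃ i, j = i + 1 := ⟨j - 1, by omega⟩
    obtain ⟨m, hm⟩ : ∃ m, K = i + m := ⟨K - i, by omega⟩
    have h1 : d ^ i * S (i + 1) = S 1 * d ^ i := by
      have := e5 i (i + 1) hj' (by omega)
      rwa [show i + 1 - i = 1 from by omega] at this
    have h2 : d ^ m * S (K + 1) = S (i + 1) * d ^ m := by
      have := e5 m (K + 1) le_rfl (by omega)
      rwa [show K + 1 - m = i + 1 from by omega] at this
    have h3 : d ^ (K + 2) = d ^ m * d ^ 2 * d ^ i := by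
      rw [← pow_add, ← pow_add]
      congr 1
      omega
    calc d ^ (K + 2) * S (i + 1) = d ^ m * d ^ 2 * (d ^ i * S (i + 1)) := by
          rw [h3]; simp only [mul_assoc]
      _ = d ^ m * (d ^ 2 * S 1) * d ^ i := by rw [h1]; simp only [mul_assoc]
      _ = (d ^ m * S (K + 1)) * d ^ 2 * d ^ i := by rw [e4]; simp only [mul_assoc]
      _ = S (i + 1) * (d ^ m * d ^ 2 * d ^ i) := by rw [h2]; simp only [mul_assoc]
      _ = S (i + 1) * d ^ (K + 2) := by rw [h3]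
  have e7 : ∀ n a, len a = n → a * d ^ (K + 2) = d ^ (K + 2) * a := by
    intro n
    induction n with
    | zero =>
      intro a ha
      rw [h.eq_one a ha, one_mul, mul_one]
    | succ n ih =>
      intro a ha
      rcases h.gen a with rfl | ⟨b, i, hi, hi', rfl⟩
      · simp
      · have hb : len b = n := by
          rw [h.len_mul, h.len_S i hi hi'] at ha
          omega
        rw [mul_assoc, ← e6 i hi hi', ← mul_assoc, ih b hb, mul_assoc]
  refine ⟨d ^ (K + 2), fun a => e7 _ a rfl, fun j hj hj' => ?_⟩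
  obtain ⟨i, rfl⟩ : ∃ i, j = i + 1 := ⟨j - 1, by omega⟩
  obtain ⟨m, hm⟩ : ∃ m, K = i + m := ⟨K - i, by omega⟩
  have h1 : d ^ i * S (i + 1) = S 1 * d ^ i := by
    have := e5 i (i + 1) hj' (by omega)
    rwa [show i + 1 - i = 1 from by omega] at this
  have h2 : d ^ m * S (K + 1) = S (i + 1) * d ^ m := by
    have := e5 m (K + 1) le_rfl (by omega)
    rwa [show K + 1 - m = i + 1 from by omega] at this
  have t1 : d ^ (K + 2) = (d ^ (m + 1) * d'' * d ^ i) * S (i + 1) := by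
    calc d ^ (K + 2) = d ^ (m + 1) * d * d ^ i := by
          rw [← pow_succ, ← pow_add]
          congr 1
          omega
      _ = d ^ (m + 1) * (d'' * S 1) * d ^ i := by rw [← e2]
      _ = d ^ (m + 1) * d'' * (S 1 * d ^ i) := by simp only [mul_assoc]
      _ = d ^ (m + 1) * d'' * (d ^ i * S (i + 1)) := by rw [h1]
      _ = _ := by simp only [mul_assoc]
  have t2 : d ^ (K + 2) = S (i + 1) * (d ^ m * d' * d ^ (i + 1)) := by
    calc d ^ (K + 2) = d ^ m * d * d ^ (i + 1) := by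
          rw [← pow_succ, ← pow_add]
          congr 1
          omega
      _ = d ^ m * (S (K + 1) * d') * d ^ (i + 1) := by rw [← e1]
      _ = (d ^ m * S (K + 1)) * d' * d ^ (i + 1) := by simp only [mul_assoc]
      _ = (S (i + 1) * d ^ m) * d' * d ^ (i + 1) := by rw [h2]
      _ = _ := by simp only [mul_assoc]
  have t3 : d ^ (m + 1) * d'' * d ^ i = d ^ m * d' * d ^ (i + 1) := by
    apply h.cancel _ _ (d ^ (K + 2))
    calc (d ^ (m + 1) * d'' * d ^ i) * d ^ (K + 2)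
        = (d ^ (m + 1) * d'' * d ^ i) * (S (i + 1) * (d ^ m * d' * d ^ (i + 1))) := by rw [← t2]
      _ = ((d ^ (m + 1) * d'' * d ^ i) * S (i + 1)) * (d ^ m * d' * d ^ (i + 1)) := by
          simp only [mul_assoc]
      _ = d ^ (K + 2) * (d ^ m * d' * d ^ (i + 1)) := by rw [← t1]
      _ = (d ^ m * d' * d ^ (i + 1)) * d ^ (K + 2) := (e7 _ _ rfl).symm
  exact ⟨d ^ (m + 1) * d'' * d ^ i, t1, by rw [t3]; exact t2⟩

end BrV
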