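import Pool.Agent.Lib.BrV.BRelDef
import Pool.Agent.Lib.MP_97e538_al.Reps

/-!
# Part C: definitions for the Garside / Salvetti resolution of the braid group (section 9)

`n = N + 1` strands, generators `S 1, .., S N`.  Compositions are lists of naturals, the entry `a` is a part of size
`a + 1`, the head of the list is the LAST part; `tot` is the sum of the sizes.
-/

namespace BrV

open Finsupp

/-- conclusion of the Garside lemma for `a * S i = b * S j` -/
def RR {M : Type} [Monoid M] (S : ℕ → M) (a : M) (i : ℕ) (b : M) (j : ℕ) : Prop :=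
  (i = j ∧ a = b) ∨ ((j = i + 1 ∨ i = j + 1) ∧ ∃ c, a = c * S i * S j ∧ b = c * S j * S i) ∨
  ((i + 2 ≤ j ∨ j + 2 ≤ i) ∧ ∃ c, a = c * S j ∧ b = c * S i)

/-- the properties of the braid monoid that are used -/
structure BM {M : Type} [Monoid M] (S : ℕ → M) (N : ℕ) (len : M → ℕ) : Prop where
  rel : BRel S 0 (N + 1)
  len_one : len 1 = 0
  len_mul : ∀ a b, len (a * b) = len a + len b
  len_S : ∀ i, 1 ≤ i → i ≤ N → len (S i) = 1
  gen : ∀ a, a = 1 ∨ ∃ b i, 1 ≤ i ∧ i ≤ N ∧ a = b * S i
  lcm : ∀ a b i j, 1 ≤ i → i ≤ N → 1 ≤ j → j ≤ N → a * S i = b * S j → RR S a i b j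

/-- Garside element of the block of `m` strands at offset `o` -/
def Dm {M : Type} [Monoid M] (S : ℕ → M) (o : ℕ) : ℕ → M
  | 0 => 1
  | m + 1 => Dm S o m * cyc S (o + 1) m

/-- product of the Garside elements of the parts of a composition -/
def Dc {M : Type} [Monoid M] (S : ℕ → M) : List ℕ → M
  | [] => 1
  | a :: l => Dc S l * Dm S (tot l) (a + 1)

/-- top term of the shuffle element `Q(o; a, b)` -/
def mx {M : Type} [Monoid M] (S : ℕ → M) (o : ℕ) : ℕ → ℕ → M
  | 0, _ => 1
  | a + 1, b => mx S o a b * cyc S (o + a + 1) b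

/-- interior positions of a composition -/
def Ins : List ℕ → ℕ → Prop
  | [], _ => False
  | a :: l, j => (tot l < j ∧ j ≤ tot l + a) ∨ Ins l j

/-- `S i` in the monoid ring -/
noncomputable def sg1 {M : Type} [Monoid M] (S : ℕ → M) (i : ℕ) : MonoidAlgebra ℝ M :=
  MonoidAlgebra.single (S i) 1

/-- boundary of the basis element of a composition: split one part, with shuffle elements -/
noncomputable def bE {A : Type} [Ring A] (S : ℕ → A) : List ℕ → (List ℕ →₀ A)
  | [] => 0
  | a :: l => ∑ j ∈ Finset.range a, single ((a - 1 - j) :: j :: l) (Qe S (tot l) (j + 1) (a - j)) -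
      mapDomain (List.cons a) (bE S l)

/-- the differential of the free left `A`-module on the compositions -/
noncomputable def dF {A : Type} [Ring A] (S : ℕ → A) : (List ℕ →₀ A) →ₗ[A] (List ℕ →₀ A) :=
  Finsupp.lift (List ℕ →₀ A) A (List ℕ) (bE S)

/-- leading part of `bE` -/
noncomputable def bL : List ℕ → (List ℕ →₀ ℝ)
  | [] => 0
  | a :: l => ∑ j ∈ Finset.range a, single ((a - 1 - j) :: j :: l) ((-1 : ℝ) ^ ((j + 1) * (a - j))) -
      mapDomain (List.cons a) (bL l)

/-- combinatorial homotopy: merge at the `t`-th cut from the right -/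
noncomputable def hL : ℕ → List ℕ → (List ℕ →₀ ℝ)
  | 0, 0 :: x :: l => single ((x + 1) :: l) ((-1 : ℝ) ^ (x + 1))
  | t + 1, 0 :: c => - mapDomain (List.cons 0) (hL t c)
  | _, _ => 0

/-! ### the braid monoid and the braid group on the generators `1..N` -/

/-- Artin's relations in the free monoid -/
def brel (N : ℕ) : FreeMonoid (Fin N) → FreeMonoid (Fin N) → Prop := fun x y =>
  (∃ i j : Fin N, i.1 + 2 ≤ j.1 ∧ x = FreeMonoid.of i * FreeMonoid.of j ∧
    y = FreeMonoid.of j * FreeMonoid.of i) ∨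
  (∃ i j : Fin N, j.1 = i.1 + 1 ∧ x = FreeMonoid.of i * FreeMonoid.of j * FreeMonoid.of i ∧
    y = FreeMonoid.of j * FreeMonoid.of i * FreeMonoid.of j)

/-- the braid monoid with `N` generators -/
abbrev BMon (N : ℕ) : Type := PresentedMonoid (brel N)

/-- its generators `S 1, .., S N` -/
def Sm (N i : ℕ) : BMon N :=
  if h : 1 ≤ i ∧ i ≤ N then PresentedMonoid.of (brel N) ⟨i - 1, by omega⟩ else 1

/-- the length -/
def lenM (N : ℕ) (a : BMon N) : ℕ := Multiplicative.toAdd
  (PresentedMonoid.lift (rels := brel N) (fun _ => Multiplicative.ofAdd (1 : ℕ)) (by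
    rintro x y (⟨i, j, -, rfl, rfl⟩ | ⟨i, j, -, rfl, rfl⟩) <;> simp) a)

open Pool.Agent.Lib.BrSym in
/-- generators of the braid group, `1 ≤ i ≤ N` -/
def sG (N i : ℕ) : Braid N := if h : 1 ≤ i ∧ i ≤ N then PresentedGroup.of ⟨i - 1, by omega⟩ else 1

open Pool.Agent.Lib.BrSym in
/-- the braid monoid maps to the braid group -/
def toG (N : ℕ) : BMon N →* Braid N :=
  PresentedMonoid.lift (rels := brel N) (fun i => (PresentedGroup.of i : Braid N)) (by
    rintro x y (⟨i, j, h, rfl, rfl⟩ | ⟨i, j, h, rfl, rfl⟩)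
    · simp only [map_mul, FreeMonoid.lift_eval_of]
      exact PresentedGroup.mk_eq_mk_of_mul_inv_mem (Or.inl ⟨i, j, h, rfl⟩)
    · simp only [map_mul, FreeMonoid.lift_eval_of]
      exact PresentedGroup.mk_eq_mk_of_mul_inv_mem (Or.inr ⟨i, j, h, rfl⟩))

end BrV
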