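import Pool.Agent.Lib.BrV.CBM

/-!
# BrV.CDiv: divisibility by the Garside elements (9.2)

Right divisibility `S j | b`: `∃ x, b = x * S j`.  `C(i,p) = cyc S i p = S (i+p-1) .. S i`.
(i) if `S j | b` for `o < j ≤ o + p` (`o + p ≤ N`) then `C(o+1,p) | b`.  Induction on `p`: `b = c C(o+1,p)` and `b = d S_(o+p+1)`.  `p = 0` clear.  `p ≥ 1`: `c S_(o+p) C(o+1,p-1) = d S_(o+p+1)`;
   strip `C(o+1,p-1)` (letters `≤ o+p-1`, far from `o+p+1`; `BM.far_cyc`, keeping both sides): `c S_(o+p) = d' S_(o+p+1)`; `lcm`: `c = c' S_(o+p) S_(o+p+1)`; so `b = (c' S_(o+p)) C(o+1,p+1)`.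
(ii) one block: if `S j | b` for all `o < j < o + m` then `Dm S o m | b`.  Induction on `m` (`m ≤ 1` clear): `b = b' C(o+1,m-1)` by (i).  For `o < j < o + m - 1`: `S_(j+1) | b`: `b' C(j+2, .) S_(j+1) S_j C(o+1, j-o-1) = e S_(j+1)`
   (`C(o+1,m-1) = C(j+2, o+m-j-2) S_(j+1) S_j C(o+1,j-o-1)`, `cyc_add`); strip `C(o+1,j-o-1)` (far from `j+1`): `(b' C(j+2,.) S_(j+1)) S_j = e' S_(j+1)`; `lcm`: `b' C(j+2,.) S_(j+1) = c S_j S_(j+1)`, cancel: `b' C(j+2,.) = c S_j`;
   strip `C(j+2,.)` (far from `j`): `S_j | b'`.  So `b' = a D_(m-1)` and `b = a D_(m-1) C(o+1,m-1) = a D_m`.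
(iii) several blocks: `c = m' :: l`: `b = b' Dm S (tot l) (m'+1)` by (ii); for `j` in `Ins l` (`j < tot l`): `S_j | b' Dm S (tot l) (m'+1)`, whose second factor is a word in letters `> tot l`, far from `j`: strip letter by letter, `S_j | b'`.
   Induction: `b' = a Dc S l`.
-/

namespace BrV

private theorem div_cyc {M : Type} [Monoid M] {S : ℕ → M} {N : ℕ} {len : M → ℕ}
    (h : BM S N len) (o : ℕ) : ∀ (p : ℕ), o + p ≤ N → ∀ b : M,
      (∀ j, o < j → j ≤ o + p → ∃ x, b = x * S j) → ∃ a, b = a * cyc S (o + 1) p := by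
  intro p
  induction p with
  | zero => exact fun _ b _ => ⟨b, by simp [cyc]⟩
  | succ p ih =>
    intro hp b hb
    obtain ⟨c, hc⟩ := ih (by omega) b (fun j h1 h2 => hb j h1 (by omega))
    obtain ⟨d, hd⟩ := hb (o + p + 1) (by omega) (by omega)
    cases p with
    | zero =>
      refine ⟨d, ?_⟩
      rw [hd]
      simp [cyc]
    | succ q =>
      have e1 : (c * S (o + 1 + q)) * cyc S (o + 1) q = d * S (o + q + 2) := by
        have h3 : o + (q + 1) + 1 = o + q + 2 := by omega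
        rw [h3] at hd
        rw [← hd, hc, cyc, mul_assoc]
      obtain ⟨c', hc'⟩ := h.far_cyc _ _ (o + 1) q (o + q + 2) (by omega) (by omega)
        ⟨by omega, by omega⟩ (Or.inl (by omega)) e1
      rcases h.lcm _ _ _ _ (by omega) (by omega) (by omega) (by omega) hc' with
        ⟨h1, -⟩ | ⟨-, c'', h2, -⟩ | ⟨h1, -⟩
      · omega
      · refine ⟨c'' * S (o + 1 + q), ?_⟩
        have h3 : o + 1 + (q + 1) = o + q + 2 := by omega
        rw [hc, h2, cyc.eq_2 S (o + 1) (q + 1), h3]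
        simp only [mul_assoc]
      · omega

private theorem div_Dm {M : Type} [Monoid M] {S : ℕ → M} {N : ℕ} {len : M → ℕ}
    (h : BM S N len) (o : ℕ) : ∀ (m : ℕ), o + m ≤ N + 1 → ∀ b : M,
      (∀ j, o < j → j < o + m → ∃ x, b = x * S j) → ∃ a, b = a * Dm S o m := by
  intro m
  induction m with
  | zero => exact fun _ b _ => ⟨b, by simp [Dm]⟩
  | succ m ih =>
    intro hm b hb
    obtain ⟨b', hb'⟩ := div_cyc h o m (by omega) b (fun j h1 h2 => hb j h1 (by omega))
    have key : ∀ j, o < j → j < o + m → ∃ x, b' = x * S j := by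
      intro j h1 h2
      obtain ⟨e, he⟩ := hb (j + 1) (by omega) (by omega)
      obtain ⟨t, rfl⟩ : ∃ t, j = o + 1 + t := ⟨j - o - 1, by omega⟩
      obtain ⟨r, rfl⟩ : ∃ r, m = t + 2 + r := ⟨m - t - 2, by omega⟩
      have e1 : (b' * cyc S (o + 1 + (t + 2)) r * S (o + 1 + t + 1) * S (o + 1 + t)) *
          cyc S (o + 1) t = e * S (o + 1 + t + 1) := by
        rw [← he, hb', ← cyc_add, cyc, cyc]
        simp only [mul_assoc]
        rfl
      obtain ⟨e', he'⟩ := h.far_cyc _ _ (o + 1) t (o + 1 + t + 1) (by omega) (by omega)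
        ⟨by omega, by omega⟩ (Or.inl (by omega)) e1
      rcases h.lcm _ _ _ _ (by omega) (by omega) (by omega) (by omega) he' with
        ⟨h1, -⟩ | ⟨-, c'', h2, -⟩ | ⟨h1, -⟩
      · omega
      · have e2 := h.cancel _ _ _ h2
        obtain ⟨x, hx⟩ := h.far_cyc _ _ (o + 1 + (t + 2)) r (o + 1 + t) (by omega) (by omega)
          ⟨by omega, by omega⟩ (Or.inr (by omega)) e2
        exact ⟨x, hx⟩
      · omega
    obtain ⟨a, ha⟩ := ih (by omega) b' key
    exact ⟨a, by rw [hb', ha, Dm, mul_assoc]⟩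

private theorem far_Dm {M : Type} [Monoid M] {S : ℕ → M} {N : ℕ} {len : M → ℕ}
    (h : BM S N len) (o j : ℕ) (hj : 1 ≤ j) (hjo : j + 1 ≤ o) : ∀ (m : ℕ), o + m ≤ N + 1 →
      ∀ a b : M, a * Dm S o m = b * S j → ∃ c, a = c * S j := by
  intro m
  induction m with
  | zero => exact fun _ a b e => ⟨b, by simpa [Dm] using e⟩
  | succ m ih =>
    intro hm a b e
    have e1 : (a * Dm S o m) * cyc S (o + 1) m = b * S j := by
      rw [← e, Dm, mul_assoc]
    obtain ⟨c, hc⟩ := h.far_cyc _ _ (o + 1) m j (by omega) (by omega)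
      ⟨by omega, by omega⟩ (Or.inr (by omega)) e1
    exact ih (by omega) a c hc

theorem div_D {M : Type} [Monoid M] {S : ℕ → M} {N : ℕ} {len : M → ℕ} (h : BM S N len)
    (c : List ℕ) (hc : tot c ≤ N + 1) (b : M) (hb : ∀ j, Ins c j → ∃ x, b = x * S j) :
    ∃ a, b = a * Dc S c := by
  induction c generalizing b with
  | nil => exact ⟨b, by simp [Dc]⟩
  | cons a l ih =>
    have ht : tot (a :: l) = a + 1 + tot l := by simp [tot]
    rw [ht] at hc
    obtain ⟨b', hb'⟩ := div_Dm h (tot l) (a + 1) (by omega) b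
      (fun j h1 h2 => hb j (Or.inl ⟨h1, by omega⟩))
    obtain ⟨x, hx⟩ := ih (by omega) b' (fun j hj => by
      have h1 := Ins_lt l j hj
      obtain ⟨y, hy⟩ := hb j (Or.inr hj)
      exact far_Dm h (tot l) j h1.1 (by omega) (a + 1) (by omega) b' y (by rw [← hb', hy]))
    exact ⟨x, by rw [hb', hx, Dc, mul_assoc]⟩

end BrV
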