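import Pool.Agent.Lib.BrV.CTrans

/-!
# BrV.CMon: the braid monoid satisfies `BM` (Garside lemma, 9.1)

`rel`, `len_one`, `len_mul`, `len_S`: direct.  `gen`: `PresentedMonoid.surjective_mk`, induction on the word.
`lcm`: by induction on `L` prove `(G L)`: `RR (Sm N) a i b j` whenever `a * S i = b * S j`, `len a < L`.
Step: for words (`FreeMonoid (Fin N)`, as lists) put `T(x, y)`: `x = y = 1`, or `x = A * of p`, `y = B * of q` with `RR (Sm N) (mk A) (p+1) (mk B) (q+1)`.
Let `T'(x, y)`: `mk x = mk y ∧ length x = length y ∧ (length x ≤ L + 1 → T(x,y))`.  `T'` is a congruence on `FreeMonoid (Fin N)` containing `brel`: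
 reflexive, symmetric (`RR_symm`); transitive: `RR_trans` with `H = (G L)` (the last letters and the words before them of a nonempty word are determined);
 products: `x x'` and `y y'` with `x', y'` nonempty: `x' = A of p`, `y' = B of q`, `RR (mk A) (p+1) (mk B) (q+1)`, so `RR (mk (x A)) .. (mk (y B)) ..` by left multiplication with `mk x = mk y`; if `x' = y' = 1` (equal lengths) trivial;
 relations: `of i of j` and `of j of i` (far): `RR (S i) j (S j) i` with `c = 1`;  `of i of j of i`, `of j of i of j`: `RR (S i S j) i (S j S i) j` with `c = 1`.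
So `conGen (brel N) ≤ T'` (`Con.conGen_le`).  If `mk A * S i = mk B * S j` with `len ≤ L`: `T'(A of i, B of j)`, so `RR`.
-/

namespace BrV

private theorem Sm_mk (N : ℕ) (p : Fin N) :
    Sm N (p.1 + 1) = PresentedMonoid.mk (brel N) (FreeMonoid.of p) := by
  have h : 1 ≤ p.1 + 1 ∧ p.1 + 1 ≤ N := ⟨by omega, by have := p.2; omega⟩
  unfold Sm
  rw [dif_pos h]
  rfl

private theorem Sm_mk' (N i : ℕ) (h1 : 1 ≤ i) (h2 : i ≤ N) :
    ∃ p : Fin N, p.1 + 1 = i ∧ Sm N i = PresentedMonoid.mk (brel N) (FreeMonoid.of p) := by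
  refine ⟨⟨i - 1, by omega⟩, ?_, ?_⟩
  · show i - 1 + 1 = i
    omega
  · unfold Sm
    rw [dif_pos ⟨h1, h2⟩]
    rfl

private theorem lenM_mk (N : ℕ) (x : FreeMonoid (Fin N)) :
    lenM N (PresentedMonoid.mk (brel N) x) = x.length := by
  have h : lenM N (PresentedMonoid.mk (brel N) x) = Multiplicative.toAdd
      (FreeMonoid.lift (fun _ : Fin N => Multiplicative.ofAdd (1 : ℕ)) x) := rfl
  rw [h]
  induction x using FreeMonoid.inductionOn' with
  | one => simp
  | of_mul a b ih =>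
    have ih' := ih rfl
    simp only [map_mul, toAdd_mul, FreeMonoid.lift_eval_of, toAdd_ofAdd, FreeMonoid.length_mul,
      FreeMonoid.length_of]
    rw [ih']

private theorem lenM_mul (N : ℕ) (a b : BMon N) : lenM N (a * b) = lenM N a + lenM N b := by
  unfold lenM
  rw [map_mul, toAdd_mul]

private theorem lenM_S (N : ℕ) (i : ℕ) (h1 : 1 ≤ i) (h2 : i ≤ N) : lenM N (Sm N i) = 1 := by
  obtain ⟨p, -, hp⟩ := Sm_mk' N i h1 h2
  rw [hp, lenM_mk, FreeMonoid.length_of]

private theorem wd_cases {α : Type} (x : FreeMonoid α) :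
    x = 1 ∨ ∃ A p, x = A * FreeMonoid.of p := by
  rcases List.eq_nil_or_concat (FreeMonoid.toList x) with h | ⟨l, p, h⟩
  · left
    exact FreeMonoid.toList.injective h
  · right
    refine ⟨FreeMonoid.ofList l, p, ?_⟩
    apply FreeMonoid.toList.injective
    rw [h, List.concat_eq_append]
    rfl

private theorem wd_inj {α : Type} (A B : FreeMonoid α) (p q : α)
    (h : A * FreeMonoid.of p = B * FreeMonoid.of q) : A = B ∧ p = q := by
  have h' : FreeMonoid.toList A ++ [p] = FreeMonoid.toList B ++ [q] := congrArg FreeMonoid.toList h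
  have h2 := List.append_inj' h' rfl
  refine ⟨FreeMonoid.toList.injective h2.1, ?_⟩
  have := h2.2
  simpa using this

private theorem wd_ne {α : Type} (A : FreeMonoid α) (p : α) (h : A * FreeMonoid.of p = 1) :
    False := by
  have := congrArg FreeMonoid.length h
  simp at this

private theorem RR_mul {M : Type} [Monoid M] (S : ℕ → M) (m a b : M) (i j : ℕ)
    (h : RR S a i b j) : RR S (m * a) i (m * b) j := by
  rcases h with ⟨h1, h2⟩ | ⟨h1, c, h2, h3⟩ | ⟨h1, c, h2, h3⟩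
  · exact Or.inl ⟨h1, by rw [h2]⟩
  · refine Or.inr (Or.inl ⟨h1, m * c, ?_, ?_⟩)
    · rw [h2]; simp only [mul_assoc]
    · rw [h3]; simp only [mul_assoc]
  · refine Or.inr (Or.inr ⟨h1, m * c, ?_, ?_⟩)
    · rw [h2]; simp only [mul_assoc]
    · rw [h3]; simp only [mul_assoc]

theorem Sm_rel (N : ℕ) : BRel (Sm N) 0 (N + 1) := by
  constructor
  · intro i j hi hij hj
    obtain ⟨p, hp, hp'⟩ := Sm_mk' N i (by omega) (by omega)
    obtain ⟨q, hq, hq'⟩ := Sm_mk' N j (by omega) (by omega)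
    rw [hp', hq', ← map_mul, ← map_mul]
    exact PresentedMonoid.mk_eq_mk_of_rel (Or.inl ⟨p, q, by omega, rfl, rfl⟩)
  · intro i hi hij
    obtain ⟨p, hp, hp'⟩ := Sm_mk' N i (by omega) (by omega)
    obtain ⟨q, hq, hq'⟩ := Sm_mk' N (i + 1) (by omega) (by omega)
    rw [hp', hq', ← map_mul, ← map_mul, ← map_mul, ← map_mul]
    exact PresentedMonoid.mk_eq_mk_of_rel (Or.inr ⟨p, q, by omega, rfl, rfl⟩)

private theorem TT (N L : ℕ)
    (H : ∀ (x y : BMon N) (p q : ℕ), 1 ≤ p → p ≤ N → 1 ≤ q → q ≤ N → lenM N x < L →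
      x * Sm N p = y * Sm N q → RR (Sm N) x p y q)
    (x y : FreeMonoid (Fin N)) (h : ConGen.Rel (brel N) x y) :
    PresentedMonoid.mk (brel N) x = PresentedMonoid.mk (brel N) y ∧ x.length = y.length ∧
    (x.length ≤ L + 1 → (x = 1 ∧ y = 1) ∨ ∃ A p B q, x = A * FreeMonoid.of p ∧
      y = B * FreeMonoid.of q ∧ RR (Sm N) (PresentedMonoid.mk (brel N) A) (p.1 + 1)
        (PresentedMonoid.mk (brel N) B) (q.1 + 1)) := by
  induction h with
  | of x y h =>
    refine ⟨PresentedMonoid.mk_eq_mk_of_rel h, ?_, fun _ => Or.inr ?_⟩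
    · rcases h with ⟨i, j, -, rfl, rfl⟩ | ⟨i, j, -, rfl, rfl⟩ <;> simp
    · rcases h with ⟨i, j, hij, rfl, rfl⟩ | ⟨i, j, hij, rfl, rfl⟩
      · refine ⟨FreeMonoid.of i, j, FreeMonoid.of j, i, rfl, rfl, Or.inr (Or.inr ⟨Or.inr (by omega),
          1, ?_, ?_⟩)⟩
        · rw [one_mul, Sm_mk]
        · rw [one_mul, Sm_mk]
      · refine ⟨FreeMonoid.of i * FreeMonoid.of j, i, FreeMonoid.of j * FreeMonoid.of i, j, rfl,
          rfl, Or.inr (Or.inl ⟨Or.inl (by omega), 1, ?_, ?_⟩)⟩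
        · rw [one_mul, Sm_mk, Sm_mk, map_mul]
        · rw [one_mul, Sm_mk, Sm_mk, map_mul]
  | refl x =>
    refine ⟨rfl, rfl, fun _ => ?_⟩
    rcases wd_cases x with h | ⟨A, p, h⟩
    · exact Or.inl ⟨h, h⟩
    · exact Or.inr ⟨A, p, A, p, h, h, Or.inl ⟨rfl, rfl⟩⟩
  | symm h ih =>
    obtain ⟨h1, h2, h3⟩ := ih
    refine ⟨h1.symm, h2.symm, fun h4 => ?_⟩
    rcases h3 (by omega) with ⟨h5, h6⟩ | ⟨A, p, B, q, h5, h6, h7⟩
    · exact Or.inl ⟨h6, h5⟩
    · exact Or.inr ⟨B, q, A, p, h6, h5, RR_symm _ _ _ _ _ h7⟩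
  | trans h h' ih ih' =>
    obtain ⟨h1, h2, h3⟩ := ih
    obtain ⟨g1, g2, g3⟩ := ih'
    refine ⟨h1.trans g1, h2.trans g2, fun h4 => ?_⟩
    rcases h3 h4 with ⟨h5, h6⟩ | ⟨A, p, B, q, h5, h6, h7⟩
    · rcases g3 (by omega) with ⟨g5, g6⟩ | ⟨B', q', C, r, g5, g6, g7⟩
      · exact Or.inl ⟨h5, g6⟩
      · exact (wd_ne _ _ (g5.symm.trans h6)).elim
    · rcases g3 (by omega) with ⟨g5, g6⟩ | ⟨B', q', C, r, g5, g6, g7⟩
      · exact (wd_ne _ _ (h6.symm.trans g5)).elim
      · obtain ⟨e1, e2⟩ := wd_inj _ _ _ _ (h6.symm.trans g5)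
        subst e1
        subst e2
        refine Or.inr ⟨A, p, C, r, h5, g6, ?_⟩
        have hA : A.length ≤ L := by
          rw [h5] at h4
          simp only [FreeMonoid.length_mul, FreeMonoid.length_of] at h4
          omega
        exact RR_trans (Sm N) N (lenM N) (Sm_rel N) (lenM_mul N) (lenM_S N) A.length
          (fun x y p q a1 a2 a3 a4 a5 a6 => H x y p q a1 a2 a3 a4 (by omega) a6)
          _ _ (PresentedMonoid.mk (brel N) B) (p.1 + 1) (q.1 + 1) (r.1 + 1)
          ⟨by omega, by have := p.2; omega⟩ ⟨by omega, by have := q.2; omega⟩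
          ⟨by omega, by have := r.2; omega⟩ (lenM_mk N A) h7 g7
  | mul h h' ih ih' =>
    obtain ⟨h1, h2, h3⟩ := ih
    obtain ⟨g1, g2, g3⟩ := ih'
    refine ⟨by rw [map_mul, map_mul, h1, g1], by rw [FreeMonoid.length_mul, FreeMonoid.length_mul,
      h2, g2], fun h4 => ?_⟩
    rw [FreeMonoid.length_mul] at h4
    rcases g3 (by omega) with ⟨g5, g6⟩ | ⟨A, p, B, q, g5, g6, g7⟩
    · rw [g5, g6, mul_one, mul_one]
      exact h3 (by omega)
    · rw [g5, g6, ← mul_assoc, ← mul_assoc]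
      refine Or.inr ⟨_, p, _, q, rfl, rfl, ?_⟩
      rw [map_mul, map_mul, h1]
      exact RR_mul _ _ _ _ _ _ g7

private theorem gar (N L : ℕ) (x y : BMon N) (p q : ℕ) (hp : 1 ≤ p) (hp' : p ≤ N) (hq : 1 ≤ q)
    (hq' : q ≤ N) (hx : lenM N x < L) (h : x * Sm N p = y * Sm N q) : RR (Sm N) x p y q := by
  induction L generalizing x y p q with
  | zero => omega
  | succ L ih =>
    obtain ⟨A, rfl⟩ := PresentedMonoid.surjective_mk (rels := brel N) x
    obtain ⟨B, rfl⟩ := PresentedMonoid.surjective_mk (rels := brel N) y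
    obtain ⟨i, hi, hi'⟩ := Sm_mk' N p hp hp'
    obtain ⟨j, hj, hj'⟩ := Sm_mk' N q hq hq'
    rw [hi', hj', ← map_mul, ← map_mul, PresentedMonoid.mk_eq_mk_iff] at h
    have h2 := TT N L ih _ _ h
    rw [lenM_mk] at hx
    rcases h2.2.2 (by rw [FreeMonoid.length_mul, FreeMonoid.length_of]; omega) with
      ⟨h5, h6⟩ | ⟨A', p', B', q', h5, h6, h7⟩
    · exact (wd_ne _ _ h5).elim
    · obtain ⟨e1, e2⟩ := wd_inj _ _ _ _ h5
      obtain ⟨e3, e4⟩ := wd_inj _ _ _ _ h6
      subst e1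
      subst e2
      subst e3
      subst e4
      rw [hi, hj] at h7
      exact h7

theorem bmon_BM (N : ℕ) : BM (Sm N) N (lenM N) where
  rel := Sm_rel N
  len_one := by
    unfold lenM
    rw [map_one, toAdd_one]
  len_mul := lenM_mul N
  len_S := lenM_S N
  gen := by
    intro a
    obtain ⟨x, rfl⟩ := PresentedMonoid.surjective_mk (rels := brel N) a
    rcases wd_cases x with h | ⟨A, p, h⟩
    · left
      rw [h, map_one]
    · right
      refine ⟨PresentedMonoid.mk (brel N) A, p.1 + 1, by omega, by have := p.2; omega, ?_⟩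
      rw [h, map_mul, Sm_mk]
  lcm := fun a b i j h1 h2 h3 h4 h5 => gar N (lenM N a + 1) a b i j h1 h2 h3 h4 (by omega) h5

end BrV
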