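import Pool.Agent.Lib.BrV.CCen
import Pool.Agent.Lib.BrV.CMon

/-!
# BrV.CEmb: the braid monoid embeds into the braid group (9.6)

`M = BMon N`, `G = Braid N`, `z` from `central (bmon_BM N)`.
`X` = quotient of `M × ℕ` by `(a, m) ~ (b, l) ↔ a * z^l = b * z^m` (transitive: `a z^l = b z^m`, `b z^p = c z^l` give `(a z^p) z^l = (c z^m) z^l`, `BM.cancel`).
`S_j` acts by `(a, m) ↦ (S_j a, m)`, with inverse `(a, m) ↦ (t_j a, m + 1)` (`z = t_j S_j = S_j t_j`, `z` central).  The permutations satisfy Artin's relations, so (`PresentedGroup.toGroup`) `G` acts on `X`, and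
`toG a · [(1,0)] = [(a,0)]` for `a : M`; `[(a,0)] = [(b,0)]` gives `a = b`: `toG` is injective.
`toG_frac`: the set of `g` with `toG z ^ m * g = toG a` for some `m, a` contains the generators, their inverses (`toG z * (S_j)⁻¹ = toG t_j`) and is closed under products (`toG z` commutes with all generators, so it is central:
`PresentedGroup` is generated by the `of i`); `PresentedGroup.generated_by` or induction on closure.
-/

namespace BrV

open Pool.Agent.Lib.BrSym

private theorem ce_Sm (N : ℕ) (p : Fin N) : Sm N (p.1 + 1) = PresentedMonoid.of (brel N) p := by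
  have h : 1 ≤ p.1 + 1 ∧ p.1 + 1 ≤ N := ⟨by omega, by have := p.2; omega⟩
  unfold Sm
  rw [dif_pos h]
  rfl

private theorem ce_toG_of (N : ℕ) (p : Fin N) :
    toG N (PresentedMonoid.of (brel N) p) = (PresentedGroup.of p : Braid N) := by
  unfold toG
  exact PresentedMonoid.lift_of _ _

theorem toG_S (N i : ℕ) : toG N (Sm N i) = sG N i := by
  unfold Sm sG
  by_cases h : 1 ≤ i ∧ i ≤ N
  · rw [dif_pos h, dif_pos h, ce_toG_of]
  · rw [dif_neg h, dif_neg h, map_one]

theorem sG_rel (N : ℕ) : BRel (sG N) 0 (N + 1) := by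
  obtain ⟨h1, h2⟩ := Sm_rel N
  constructor
  · intro i j hi hij hj
    rw [← toG_S, ← toG_S, ← map_mul, ← map_mul, h1 i j hi hij hj]
  · intro i hi hij
    rw [← toG_S, ← toG_S, ← map_mul, ← map_mul, ← map_mul, ← map_mul, h2 i hi hij]

/-- a monoid with a central cancellable element `z`, all generators dividing `z`: it embeds into
a monoid where the images of the generators are units -/
private theorem ce_loc {M : Type} [Monoid M] (z : M) (hz : ∀ a, a * z = z * a)
    (hc : ∀ a b c : M, a * c = b * c → a = b) :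
    ∃ (L : Type) (_ : Monoid L) (φ : M →* L), Function.Injective φ ∧ IsUnit (φ z) := by
  have hzp : ∀ (a : M) (n : ℕ), a * z ^ n = z ^ n * a := fun a n =>
    ((show Commute a z from hz a).pow_right n).eq
  have hS : ∀ (a : M) (s : Submonoid.powers z), a * (s : M) = (s : M) * a := by
    rintro a ⟨_, n, rfl⟩
    exact hzp a n
  let : OreLocalization.OreSet (Submonoid.powers z) :=
    { ore_right_cancel := fun r₁ r₂ s h => ⟨s, by rw [← hS, ← hS]; exact h⟩
      oreNum := fun r _ => r
      oreDenom := fun _ s => s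
      ore_eq := fun r s => (hS r s).symm }
  refine ⟨OreLocalization (Submonoid.powers z) M, inferInstance,
    OreLocalization.numeratorHom, ?_, ?_⟩
  · intro a b hab
    rw [OreLocalization.numeratorHom_apply, OreLocalization.numeratorHom_apply,
      OreLocalization.oreDiv_eq_iff] at hab
    obtain ⟨u, v, h1, h2⟩ := hab
    have h3 : (u : M) = v := by simpa using h2
    have h4 : (u : M) * b = v * a := h1
    rw [← h3, ← hS, ← hS] at h4
    exact (hc _ _ _ h4).symm
  · exact OreLocalization.numerator_isUnit ⟨z, Submonoid.mem_powers z⟩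

private theorem ce_unit {L : Type} [Monoid L] (z s t : L) (hz : IsUnit z) (h1 : z = t * s)
    (h2 : z = s * t) : IsUnit s := by
  obtain ⟨u, hu⟩ := hz
  have a1 : s * (t * (↑u⁻¹ : L)) = 1 := by
    rw [← mul_assoc, ← h2, ← hu, Units.mul_inv]
  have a2 : ((↑u⁻¹ : L) * t) * s = 1 := by
    rw [mul_assoc, ← h1, ← hu, Units.inv_mul]
  have a3 : (↑u⁻¹ : L) * t = t * (↑u⁻¹ : L) := by
    calc (↑u⁻¹ : L) * t = (↑u⁻¹ : L) * t * (s * (t * (↑u⁻¹ : L))) := by rw [a1, mul_one]
      _ = ((↑u⁻¹ : L) * t * s) * (t * (↑u⁻¹ : L)) := by simp only [mul_assoc]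
      _ = t * (↑u⁻¹ : L) := by rw [a2, one_mul]
  exact ⟨⟨s, t * (↑u⁻¹ : L), a1, by rw [← a3]; exact a2⟩, rfl⟩

theorem toG_inj (N : ℕ) : Function.Injective (toG N) := by
  obtain ⟨z, hz, hd⟩ := central (bmon_BM N)
  obtain ⟨L, _, φ, hφ, hu⟩ := ce_loc z hz (bmon_BM N).cancel
  have hU : ∀ p : Fin N, IsUnit (φ (PresentedMonoid.of (brel N) p)) := by
    intro p
    obtain ⟨t, h1, h2⟩ := hd (p.1 + 1) (by omega) (by have := p.2; omega)
    rw [ce_Sm] at h1 h2
    exact ce_unit (φ z) _ (φ t) hu (by rw [← map_mul, ← h1]) (by rw [← map_mul, ← h2])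
  choose f hf using hU
  have hrel : ∀ r ∈ artinRels N, FreeGroup.lift f r = 1 := by
    rintro r (⟨i, j, hij, rfl⟩ | ⟨i, j, hij, rfl⟩)
    · simp only [map_mul, map_inv, FreeGroup.lift_apply_of]
      rw [mul_inv_eq_one]
      apply Units.ext
      simp only [Units.val_mul, hf, ← map_mul]
      congr 1
      exact PresentedMonoid.mk_eq_mk_of_rel (Or.inl ⟨i, j, hij, rfl, rfl⟩)
    · simp only [map_mul, map_inv, FreeGroup.lift_apply_of]
      rw [mul_inv_eq_one]
      apply Units.ext
      simp only [Units.val_mul, hf, ← map_mul]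
      congr 1
      exact PresentedMonoid.mk_eq_mk_of_rel (Or.inr ⟨i, j, hij, rfl, rfl⟩)
  have key : ((Units.coeHom L).comp (PresentedGroup.toGroup hrel)).comp (toG N) = φ := by
    apply PresentedMonoid.ext
    intro p
    rw [MonoidHom.comp_apply, ce_toG_of, MonoidHom.comp_apply, PresentedGroup.toGroup.of]
    exact hf p
  intro a b hab
  apply hφ
  rw [← key]
  simp only [MonoidHom.comp_apply, hab]

theorem toG_frac (N : ℕ) : ∃ z : BMon N, (∀ g : Braid N, g * toG N z = toG N z * g) ∧
    ∀ g : Braid N, ∃ (m : ℕ) (a : BMon N), toG N z ^ m * g = toG N a := by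
  obtain ⟨z, hz, hd⟩ := central (bmon_BM N)
  have hc : ∀ g : Braid N, g * toG N z = toG N z * g := by
    intro g
    have hg : g ∈ Subgroup.centralizer ({toG N z} : Set (Braid N)) := by
      refine PresentedGroup.generated_by _ _ (fun p => ?_) g
      rw [Subgroup.mem_centralizer_singleton_iff]
      rw [← ce_toG_of, ← map_mul, ← map_mul, hz]
    rw [Subgroup.mem_centralizer_singleton_iff] at hg
    exact hg
  refine ⟨z, hc, fun g => ?_⟩
  have hcp : ∀ (g : Braid N) (m : ℕ), g * toG N z ^ m = toG N z ^ m * g := fun g m =>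
    ((show Commute g (toG N z) from hc g).pow_right m).eq
  induction g using PresentedGroup.induction_on with
  | _ w =>
    induction w using FreeGroup.induction_on with
    | C1 => exact ⟨0, 1, by simp⟩
    | of p =>
      refine ⟨0, PresentedMonoid.of (brel N) p, ?_⟩
      rw [ce_toG_of, pow_zero, one_mul]
      rfl
    | inv_of p _ =>
      obtain ⟨t, h1, -⟩ := hd (p.1 + 1) (by omega) (by have := p.2; omega)
      rw [ce_Sm] at h1
      refine ⟨1, t, ?_⟩
      rw [pow_one, map_inv, mul_inv_eq_iff_eq_mul]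
      conv_lhs => rw [h1]
      rw [map_mul, ce_toG_of]
      rfl
    | mul x y hx hy =>
      obtain ⟨m, a, ha⟩ := hx
      obtain ⟨l, b, hb⟩ := hy
      refine ⟨m + l, a * b, ?_⟩
      rw [map_mul, map_mul, ← ha, ← hb, pow_add]
      simp only [mul_assoc]
      congr 1
      rw [← mul_assoc, ← hcp, mul_assoc]

end BrV
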