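import Pool.Agent.Lib.BrV.CDefs

/-!
# BrV.CHomA: the combinatorial homotopy

`bL (a :: l) = ∑_(j<a) (-1)^((j+1)(a-j)) [(a-1-j) :: j :: l] - cons a (bL l)`;  `hL 0 (0 :: x :: l) = (-1)^(x+1) [(x+1) :: l]`, `hL 0 = 0` on other lists; `hL (t+1) (0 :: c) = - cons 0 (hL t c)`.
Write `B`, `H t` for the linear extensions.  Claim: `B (H t c) + H t (B c) = c` for `c = replicate t 0 ++ (y :: l)` with `1 ≤ y` or `l ≠ []`.
`t + 1`: `B (cons 0 v) = - cons 0 (B v)` (no splitting of the entry `0`), so both terms reduce to `cons 0` of the claim for `t`.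
`t = 0`, `c = 0 :: x :: l`:
 `B (H c) = (-1)^(x+1) [∑_(j<x+1) (-1)^((j+1)(x+1-j)) [(x-j) :: j :: l] - cons (x+1) (B l)]`,
 `H (B c) = - H (cons 0 (B (x :: l))) = - H (cons 0 (∑_(j<x) (-1)^((j+1)(x-j)) [(x-1-j) :: j :: l] - cons x (B l))) = - ∑_(j<x) (-1)^((j+1)(x-j)) (-1)^(x-j) [(x-j) :: j :: l] + (-1)^(x+1) cons (x+1) (B l)`.
 The term `j = x` of the first sum is `(-1)^(x+1) (-1)^(x+1) [0 :: x :: l] = c`; for `j < x` the signs: `x + 1 + (j+1)(x+1-j)` and `(j+1)(x-j) + x - j` differ by `2(j+1)`: they cancel.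
`t = 0`, `c = (y+1) :: l`: `H c = 0`; in `B c` only the term `j = y` has head `0`: `(-1)^((y+1)*1) [0 :: y :: l]`, `H` of it is `(-1)^(y+1) (-1)^(y+1) c`; the terms `(y+1) :: l2` are killed by `H 0`.
`hL_supp`: the list `c'` in `H t c` (if not zero): `c = replicate t 0 ++ 0 :: x :: l`, `c' = replicate t 0 ++ (x+1) :: l`; the new interior position is `tot (x :: l)`.
-/

namespace BrV

open Finsupp

private theorem tot_cons' (a : ℕ) (l : List ℕ) : tot (a :: l) = a + 1 + tot l := by
  simp [tot]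

private theorem lift_single' (f : List ℕ → (List ℕ →₀ ℝ)) (c : List ℕ) (r : ℝ) :
    Finsupp.lift (List ℕ →₀ ℝ) ℝ (List ℕ) f (single c r) = r • f c := by
  rw [Finsupp.lift_apply, Finsupp.sum_single_index]
  exact zero_smul _ _

private theorem lift_mapDomain' (f g : List ℕ → (List ℕ →₀ ℝ)) (φ : List ℕ → List ℕ)
    (L : (List ℕ →₀ ℝ) →ₗ[ℝ] (List ℕ →₀ ℝ)) (h : ∀ c, f (φ c) = L (g c)) (v : List ℕ →₀ ℝ) :
    Finsupp.lift (List ℕ →₀ ℝ) ℝ (List ℕ) f (mapDomain φ v) =
      L (Finsupp.lift (List ℕ →₀ ℝ) ℝ (List ℕ) g v) := by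
  induction v using Finsupp.induction_linear with
  | zero => simp
  | add v w hv hw => rw [mapDomain_add, map_add, map_add, map_add, hv, hw]
  | single c r => rw [mapDomain_single, lift_single', lift_single', h, map_smul]

private theorem lift_id' (v : List ℕ →₀ ℝ) :
    Finsupp.lift (List ℕ →₀ ℝ) ℝ (List ℕ) (fun m => single m 1) v = v := by
  induction v using Finsupp.induction_linear with
  | zero => simp
  | add v w hv hw => rw [map_add, hv, hw]
  | single c r => rw [lift_single', smul_single, smul_eq_mul, mul_one]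

private theorem hL_zero_succ (y : ℕ) (l : List ℕ) : hL 0 ((y + 1) :: l) = 0 := by
  simp [hL]

private theorem hL_zero_zero (x : ℕ) (l : List ℕ) :
    hL 0 (0 :: x :: l) = single ((x + 1) :: l) ((-1 : ℝ) ^ (x + 1)) := rfl

private theorem hL_succ_zero (t : ℕ) (c : List ℕ) :
    hL (t + 1) (0 :: c) = - mapDomain (List.cons 0) (hL t c) := rfl

private theorem bL_cons (a : ℕ) (l : List ℕ) :
    bL (a :: l) = ∑ j ∈ Finset.range a,
      single ((a - 1 - j) :: j :: l) ((-1 : ℝ) ^ ((j + 1) * (a - j))) -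
      mapDomain (List.cons a) (bL l) := rfl

private theorem bL_zero (l : List ℕ) : bL (0 :: l) = - mapDomain (List.cons 0) (bL l) := by
  rw [bL_cons, Finset.range_zero, Finset.sum_empty, zero_sub]

private theorem base_succ (y : ℕ) (l : List ℕ) :
    Finsupp.lift (List ℕ →₀ ℝ) ℝ (List ℕ) (hL 0) (bL ((y + 1) :: l)) =
      single ((y + 1) :: l) 1 := by
  rw [bL_cons, map_sub, map_sum, Finset.sum_range_succ,
    lift_mapDomain' (hL 0) (fun m => single m 1) (List.cons (y + 1)) 0
      (fun c => by rw [hL_zero_succ]; rfl)]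
  have h1 : ∀ j ∈ Finset.range y, Finsupp.lift (List ℕ →₀ ℝ) ℝ (List ℕ) (hL 0)
      (single ((y + 1 - 1 - j) :: j :: l) ((-1 : ℝ) ^ ((j + 1) * (y + 1 - j)))) = 0 := by
    intro j hj
    rw [Finset.mem_range] at hj
    obtain ⟨k, hk⟩ : ∃ k, y + 1 - 1 - j = k + 1 := ⟨y - 1 - j, by omega⟩
    rw [hk, lift_single', hL_zero_succ, smul_zero]
  rw [Finset.sum_eq_zero h1]
  have h2 : y + 1 - 1 - y = 0 := by omega
  have h3 : (y + 1) * (y + 1 - y) = y + 1 := by
    rw [Nat.add_sub_cancel_left, mul_one]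
  rw [h2, h3, lift_single', hL_zero_zero, smul_single, smul_eq_mul, ← pow_add,
    Even.neg_one_pow (⟨y + 1, rfl⟩ : Even (y + 1 + (y + 1))), LinearMap.zero_apply, sub_zero,
    zero_add]

private theorem sgn_eq {x j : ℕ} (hj : j < x) :
    ((-1 : ℝ) ^ (x + 1)) * (-1 : ℝ) ^ ((j + 1) * (x + 1 - j)) =
      ((-1 : ℝ) ^ ((j + 1) * (x - j))) * (-1 : ℝ) ^ (x - 1 - j + 1) := by
  obtain ⟨k, rfl⟩ := Nat.exists_eq_add_of_lt hj
  have h1 : j + k + 1 + 1 - j = k + 2 := by omega
  have h2 : j + k + 1 - j = k + 1 := by omega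
  have h3 : j + k + 1 - 1 - j + 1 = k + 1 := by omega
  rw [h1, h2, h3, ← pow_add, ← pow_add]
  have h4 : j + k + 1 + 1 + (j + 1) * (k + 2) = (j + 1) * (k + 1) + (k + 1) + 2 * (j + 1) := by
    ring
  rw [h4, pow_add _ _ (2 * (j + 1)), pow_mul, neg_one_sq, one_pow, mul_one]

private theorem base_zero (x : ℕ) (l : List ℕ) :
    Finsupp.lift (List ℕ →₀ ℝ) ℝ (List ℕ) bL (hL 0 (0 :: x :: l)) +
      Finsupp.lift (List ℕ →₀ ℝ) ℝ (List ℕ) (hL 0) (bL (0 :: x :: l)) =
      single (0 :: x :: l) 1 := by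
  have hA : Finsupp.lift (List ℕ →₀ ℝ) ℝ (List ℕ) bL (hL 0 (0 :: x :: l)) =
      ∑ j ∈ Finset.range x, single ((x - 1 - j + 1) :: j :: l)
        (((-1 : ℝ) ^ (x + 1)) * (-1 : ℝ) ^ ((j + 1) * (x + 1 - j))) +
      single (0 :: x :: l) 1 - ((-1 : ℝ) ^ (x + 1)) • mapDomain (List.cons (x + 1)) (bL l) := by
    rw [hL_zero_zero, lift_single', bL_cons, smul_sub, Finset.sum_range_succ, smul_add,
      Finset.smul_sum]
    have h1 : ∀ j ∈ Finset.range x, ((-1 : ℝ) ^ (x + 1)) •
        (single ((x + 1 - 1 - j) :: j :: l) ((-1 : ℝ) ^ ((j + 1) * (x + 1 - j))) :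
          List ℕ →₀ ℝ) = single ((x - 1 - j + 1) :: j :: l)
        (((-1 : ℝ) ^ (x + 1)) * (-1 : ℝ) ^ ((j + 1) * (x + 1 - j))) := by
      intro j hj
      rw [Finset.mem_range] at hj
      have hk : x + 1 - 1 - j = x - 1 - j + 1 := by omega
      rw [hk, smul_single, smul_eq_mul]
    rw [Finset.sum_congr rfl h1]
    have h2 : x + 1 - 1 - x = 0 := by omega
    have h3 : (x + 1) * (x + 1 - x) = x + 1 := by
      rw [Nat.add_sub_cancel_left, mul_one]
    rw [h2, h3, smul_single, smul_eq_mul, ← pow_add,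
      Even.neg_one_pow (⟨x + 1, rfl⟩ : Even (x + 1 + (x + 1)))]
  have hB : Finsupp.lift (List ℕ →₀ ℝ) ℝ (List ℕ) (hL 0) (bL (0 :: x :: l)) =
      - ∑ j ∈ Finset.range x, single ((x - 1 - j + 1) :: j :: l)
        (((-1 : ℝ) ^ ((j + 1) * (x - j))) * (-1 : ℝ) ^ (x - 1 - j + 1)) +
      ((-1 : ℝ) ^ (x + 1)) • mapDomain (List.cons (x + 1)) (bL l) := by
    rw [bL_zero, map_neg, bL_cons]
    have h0 : mapDomain (List.cons 0) (∑ j ∈ Finset.range x,
        single ((x - 1 - j) :: j :: l) ((-1 : ℝ) ^ ((j + 1) * (x - j))) -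
        mapDomain (List.cons x) (bL l)) =
        ∑ j ∈ Finset.range x, single (0 :: (x - 1 - j) :: j :: l)
          ((-1 : ℝ) ^ ((j + 1) * (x - j))) -
        mapDomain (fun m => 0 :: x :: m) (bL l) := by
      have h := map_sub (Finsupp.lmapDomain ℝ ℝ (List.cons 0)) (∑ j ∈ Finset.range x,
        single ((x - 1 - j) :: j :: l) ((-1 : ℝ) ^ ((j + 1) * (x - j))))
        (mapDomain (List.cons x) (bL l))
      rw [map_sum] at h
      simp only [Finsupp.lmapDomain_apply, mapDomain_single] at h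
      rw [h, ← mapDomain_comp]
      rfl
    rw [h0, map_sub, map_sum,
      lift_mapDomain' (hL 0) (fun m => single m 1) (fun m => 0 :: x :: m)
        (((-1 : ℝ) ^ (x + 1)) • Finsupp.lmapDomain ℝ ℝ (List.cons (x + 1)))
        (fun c => by
          rw [hL_zero_zero, LinearMap.smul_apply, Finsupp.lmapDomain_apply, mapDomain_single,
            smul_single, smul_eq_mul, mul_one]), lift_id']
    have h1 : ∀ j ∈ Finset.range x, Finsupp.lift (List ℕ →₀ ℝ) ℝ (List ℕ) (hL 0)
        (single (0 :: (x - 1 - j) :: j :: l) ((-1 : ℝ) ^ ((j + 1) * (x - j)))) =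
        single ((x - 1 - j + 1) :: j :: l)
        (((-1 : ℝ) ^ ((j + 1) * (x - j))) * (-1 : ℝ) ^ (x - 1 - j + 1)) := by
      intro j _
      rw [lift_single', hL_zero_zero, smul_single, smul_eq_mul]
    rw [Finset.sum_congr rfl h1, LinearMap.smul_apply, Finsupp.lmapDomain_apply, neg_sub,
      sub_eq_add_neg, add_comm]
  rw [hA, hB]
  have h2 : ∑ j ∈ Finset.range x, (single ((x - 1 - j + 1) :: j :: l)
        (((-1 : ℝ) ^ (x + 1)) * (-1 : ℝ) ^ ((j + 1) * (x + 1 - j))) : List ℕ →₀ ℝ) =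
      ∑ j ∈ Finset.range x, single ((x - 1 - j + 1) :: j :: l)
        (((-1 : ℝ) ^ ((j + 1) * (x - j))) * (-1 : ℝ) ^ (x - 1 - j + 1)) := by
    refine Finset.sum_congr rfl fun j hj => ?_
    rw [sgn_eq (Finset.mem_range.1 hj)]
  rw [h2]
  abel

theorem hL_homotopy (t y : ℕ) (l : List ℕ) (h : 1 ≤ y ∨ l ≠ []) :
    Finsupp.lift (List ℕ →₀ ℝ) ℝ (List ℕ) bL (hL t (List.replicate t 0 ++ (y :: l))) +
      Finsupp.lift (List ℕ →₀ ℝ) ℝ (List ℕ) (hL t) (bL (List.replicate t 0 ++ (y :: l))) =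
      single (List.replicate t 0 ++ (y :: l)) 1 := by
  induction t with
  | zero =>
    rw [List.replicate_zero, List.nil_append]
    cases y with
    | zero =>
      cases l with
      | nil => simp at h
      | cons x l => exact base_zero x l
    | succ y => rw [hL_zero_succ, map_zero, zero_add, base_succ]
  | succ t ih =>
    rw [List.replicate_succ, List.cons_append, hL_succ_zero, bL_zero, map_neg, map_neg,
      lift_mapDomain' bL bL (List.cons 0) (-(Finsupp.lmapDomain ℝ ℝ (List.cons 0)))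
        (fun c => by rw [bL_zero]; rfl),
      lift_mapDomain' (hL (t + 1)) (hL t) (List.cons 0) (-(Finsupp.lmapDomain ℝ ℝ (List.cons 0)))
        (fun c => by rw [hL_succ_zero]; rfl),
      LinearMap.neg_apply, LinearMap.neg_apply, neg_neg, neg_neg, ← map_add, ih,
      Finsupp.lmapDomain_apply, mapDomain_single]

theorem hL_supp (t : ℕ) (c c' : List ℕ) (h : hL t c c' ≠ 0) :
    c'.length + 1 = c.length ∧ tot c' = tot c ∧
      ∀ j, Ins c' j ↔ (Ins c j ∨ j + t + 1 = tot c) := by
  induction t generalizing c c' with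
  | zero =>
    match c, h with
    | [], h => exact absurd rfl h
    | [0], h => exact absurd rfl h
    | (y + 1) :: l, h => rw [hL_zero_succ] at h; exact absurd rfl h
    | 0 :: x :: l, h =>
      rw [hL_zero_zero] at h
      have hc : c' = (x + 1) :: l := by
        by_contra hne
        exact h (Finsupp.single_eq_of_ne hne)
      subst hc
      refine ⟨rfl, ?_, fun j => ?_⟩
      · simp only [tot_cons']
        omega
      · simp only [Ins, tot_cons']
        by_cases hl : Ins l j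
        · simp [hl]
        · simp only [hl, or_false]
          omega
  | succ t ih =>
    match c, h with
    | [], h => exact absurd rfl h
    | (y + 1) :: l, h => exact absurd rfl h
    | 0 :: c1, h =>
      rw [hL_succ_zero, Finsupp.neg_apply, neg_ne_zero] at h
      have hc : ∃ c1', hL t c1 c1' ≠ 0 ∧ 0 :: c1' = c' := by
        have h1 := Finsupp.mapDomain_support (Finsupp.mem_support_iff.2 h)
        rw [Finset.mem_image] at h1
        obtain ⟨c1', h2, h3⟩ := h1
        exact ⟨c1', Finsupp.mem_support_iff.1 h2, h3⟩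
      obtain ⟨c1', h2, rfl⟩ := hc
      obtain ⟨h3, h4, h5⟩ := ih c1 c1' h2
      refine ⟨by rw [List.length_cons, List.length_cons, h3], ?_, fun j => ?_⟩
      · simp only [tot_cons']
        omega
      · simp only [Ins, tot_cons']
        rw [h5 j]
        by_cases hl : Ins c1 j
        · simp [hl]
        · simp only [hl, or_false, false_or]
          omega

/-- a composition without interior positions `> tot c - 1 - t` ends with `t` unit parts -/
theorem ends_with (c : List ℕ) (t : ℕ) (ht : t + 2 ≤ tot c)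
    (h : ∀ j, Ins c j → j + t + 1 ≤ tot c) :
    ∃ (y : ℕ) (l : List ℕ), (1 ≤ y ∨ l ≠ []) ∧ c = List.replicate t 0 ++ (y :: l) := by
  induction t generalizing c with
  | zero =>
    match c, ht with
    | [], ht => simp [tot] at ht
    | y :: l, ht =>
      refine ⟨y, l, ?_, rfl⟩
      by_contra hne
      rw [not_or, not_le, not_ne_iff] at hne
      obtain ⟨h1, h2⟩ := hne
      subst h2
      have h3 : tot ([] : List ℕ) = 0 := rfl
      rw [tot_cons', h3] at ht
      omega
  | succ t ih =>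
    match c, ht, h with
    | [], ht, _ => simp [tot] at ht
    | (a + 1) :: l, ht, h =>
      exfalso
      have h1 := h (tot l + (a + 1)) (Or.inl ⟨by omega, le_refl _⟩)
      simp only [tot_cons'] at h1
      omega
    | 0 :: c1, ht, h =>
      obtain ⟨y, l, h1, h2⟩ := ih c1 (by simp only [tot_cons'] at ht; omega) (fun j hj => by
        have h3 := h j (Or.inr hj)
        simp only [tot_cons'] at h3
        omega)
      exact ⟨y, l, h1, by rw [h2, List.replicate_succ, List.cons_append]⟩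

/-- a composition with fewer parts than strands has an interior position -/
theorem exists_Ins (c : List ℕ) (h : c.length < tot c) : ∃ j, Ins c j := by
  induction c with
  | nil => simp [tot] at h
  | cons a l ih =>
    by_cases ha : a = 0
    · subst ha
      obtain ⟨j, hj⟩ := ih (by
        simp only [tot_cons', List.length_cons] at h
        omega)
      exact ⟨j, Or.inr hj⟩
    · exact ⟨tot l + 1, Or.inl ⟨by omega, by omega⟩⟩

end BrV
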