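import Pool.Agent.Lib.BrV.CBM

/-!
# BrV.CTop: top term of the shuffle elements and of the boundary (9.3)

`Qe_top`: induction on `a + b` with `Qe_succ`: `Q(o;a+1,b+1) = Q(o;a+1,b) + (-1)^(b+1) Q(o;a,b+1) C`, `C = cyc S (o+a+1) (b+1)` of length `b + 1`.  First term: lengths `≤ (a+1) b < (a+1)(b+1)`.  Second:
 top term `(-1)^(b+1) (-1)^(a(b+1)) mx(a,b+1) C = (-1)^((a+1)(b+1)) mx(a+1,b+1)`, the rest shorter than `a(b+1) + b + 1`.
 (`cyc (sg1 S) i b = single (cyc S i b) 1`.)
`bE_lead`: induction on `c`.  `c = a :: l`: the coefficient of `bE` at `c2 = (a-1-j) :: j :: l` is `Q(tot l; j+1, a-j)` (these `c2` are different from all `a :: l2`): `m = mx S (tot l) (j+1) (a-j)`, `mx_Dc`, `BM.len_mx`.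
 At `c2 = a :: l2`: `- bE S l l2`: `m` from the induction hypothesis, `Dc (a :: l2) = Dc l2 * Dm S (tot l2) (a+1)`, `tot l2 = tot l` where the coefficients are not zero.  Other `c2`: both are `0`.
-/

namespace BrV

open Finsupp

private theorem coeff_mul_single_ne {M : Type} [Monoid M] (y : MonoidAlgebra ℝ M) (C u : M)
    (h : (y * MonoidAlgebra.single C 1).coeff u ≠ 0) : ∃ v, u = v * C ∧ y.coeff v ≠ 0 := by
  classical
  have h1 : u ∈ (y * MonoidAlgebra.single C (1 : ℝ)).coeff.support := Finsupp.mem_support_iff.2 h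
  have h2 := MonoidAlgebra.support_coeff_mul_single_subset y (1 : ℝ) C h1
  obtain ⟨v, hv, rfl⟩ := Finset.mem_image.1 h2
  exact ⟨v, rfl, Finsupp.mem_support_iff.1 hv⟩

private theorem neg_one_pow_cast {M : Type} [Monoid M] (k : ℕ) :
    ((-1 : MonoidAlgebra ℝ M) ^ k) = MonoidAlgebra.single 1 ((-1 : ℝ) ^ k) := by
  induction k with
  | zero => rfl
  | succ k ih =>
    rw [pow_succ, ih, pow_succ, mul_neg, mul_one, mul_neg, mul_one]
    exact (MonoidAlgebra.single_neg _ _).symm

private theorem mx_zero_right {M : Type} [Monoid M] (S : ℕ → M) (o a : ℕ) : mx S o a 0 = 1 := by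
  induction a with
  | zero => rfl
  | succ a ih => rw [mx, ih]; simp [cyc]

private theorem one_eq_single {M : Type} [Monoid M] (r : ℝ) (hr : r = 1) (m : M) (hm : m = 1) :
    (1 : MonoidAlgebra ℝ M) = MonoidAlgebra.single m r := by
  subst hr hm
  rfl

private theorem tot_cons (a : ℕ) (l : List ℕ) : tot (a :: l) = a + 1 + tot l := by
  simp [tot]

private theorem map_cons_ne {A : Type} [AddCommMonoid A] (a : ℕ) (x : List ℕ →₀ A) (c2 : List ℕ)
    (h : mapDomain (List.cons a) x c2 ≠ 0) : ∃ l2, c2 = a :: l2 ∧ x l2 ≠ 0 := by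
  by_cases hc : c2 ∈ Set.range (List.cons a)
  · obtain ⟨l2, rfl⟩ := hc
    refine ⟨l2, rfl, ?_⟩
    rwa [Finsupp.mapDomain_apply List.cons_injective] at h
  · exact absurd (Finsupp.mapDomain_of_notMem_range x c2 hc) h

private theorem supp_step {A : Type} [AddCommGroup A] (a : ℕ) (l c2 : List ℕ) (f : ℕ → A)
    (x : List ℕ →₀ A)
    (ih : ∀ l2, x l2 ≠ 0 → l2.length = l.length + 1 ∧ tot l2 = tot l ∧ ∀ j, Ins l2 j → Ins l j)
    (h : (∑ j ∈ Finset.range a, single ((a - 1 - j) :: j :: l) (f j) -
      mapDomain (List.cons a) x) c2 ≠ 0) :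
    c2.length = (a :: l).length + 1 ∧ tot c2 = tot (a :: l) ∧ ∀ j, Ins c2 j → Ins (a :: l) j := by
  classical
  by_cases h1 : mapDomain (List.cons a) x c2 = 0
  · rw [Finsupp.sub_apply, h1, sub_zero, Finsupp.finsetSum_apply] at h
    obtain ⟨j, hj, hne⟩ := Finset.exists_ne_zero_of_sum_ne_zero h
    have hj' := Finset.mem_range.1 hj
    have hc : (a - 1 - j) :: j :: l = c2 := by
      by_contra hc
      exact hne (Finsupp.single_eq_of_ne' hc)
    subst hc
    refine ⟨rfl, ?_, ?_⟩
    · rw [tot_cons, tot_cons, tot_cons]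
      omega
    · intro i hi
      rw [Ins, Ins, tot_cons] at hi
      rw [Ins]
      rcases hi with hi | hi | hi
      · left; omega
      · left; omega
      · right; exact hi
  · obtain ⟨l2, rfl, hl2⟩ := map_cons_ne a x c2 h1
    obtain ⟨e1, e2, e3⟩ := ih l2 hl2
    refine ⟨by simp [e1], by rw [tot_cons, tot_cons, e2], ?_⟩
    intro i hi
    rw [Ins, e2] at hi
    rw [Ins]
    rcases hi with hi | hi
    · left; exact hi
    · right; exact e3 i hi

/-- value of the step at a list that splits the last part -/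
private theorem step_split {A : Type} [AddCommGroup A] (a j : ℕ) (hj : j < a) (l : List ℕ)
    (f : ℕ → A) (x : List ℕ →₀ A) :
    (∑ j ∈ Finset.range a, single ((a - 1 - j) :: j :: l) (f j) -
      mapDomain (List.cons a) x) ((a - 1 - j) :: j :: l) = f j := by
  classical
  have h1 : mapDomain (List.cons a) x ((a - 1 - j) :: j :: l) = 0 := by
    by_contra h1
    obtain ⟨l2, e, -⟩ := map_cons_ne a x _ h1
    have := (List.cons.inj e).1
    omega
  rw [Finsupp.sub_apply, h1, sub_zero, Finsupp.finsetSum_apply,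
    Finset.sum_eq_single j]
  · exact Finsupp.single_eq_same
  · intro i _ hi
    apply Finsupp.single_eq_of_ne'
    intro e
    exact hi (List.cons.inj (List.cons.inj e).2).1
  · intro h
    exact absurd (Finset.mem_range.2 hj) h

/-- value of the step at a list with the same last part -/
private theorem step_cons {A : Type} [AddCommGroup A] (a : ℕ) (l l2 : List ℕ)
    (f : ℕ → A) (x : List ℕ →₀ A) :
    (∑ j ∈ Finset.range a, single ((a - 1 - j) :: j :: l) (f j) -
      mapDomain (List.cons a) x) (a :: l2) = - x l2 := by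
  classical
  rw [Finsupp.sub_apply, Finsupp.finsetSum_apply, Finsupp.mapDomain_apply List.cons_injective,
    Finset.sum_eq_zero, zero_sub]
  intro j hj
  have hj' := Finset.mem_range.1 hj
  apply Finsupp.single_eq_of_ne'
  intro e
  have := (List.cons.inj e).1
  omega

/-- value of the step at the other lists -/
private theorem step_other {A : Type} [AddCommGroup A] (a : ℕ) (l c2 : List ℕ)
    (f : ℕ → A) (x : List ℕ →₀ A) (h1 : ∀ j < a, c2 ≠ (a - 1 - j) :: j :: l)
    (h2 : ∀ l2, c2 ≠ a :: l2) :
    (∑ j ∈ Finset.range a, single ((a - 1 - j) :: j :: l) (f j) -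
      mapDomain (List.cons a) x) c2 = 0 := by
  classical
  have h3 : mapDomain (List.cons a) x c2 = 0 := by
    by_contra h3
    obtain ⟨l2, e, -⟩ := map_cons_ne a x _ h3
    exact h2 l2 e
  rw [Finsupp.sub_apply, h3, sub_zero, Finsupp.finsetSum_apply, Finset.sum_eq_zero]
  intro j hj
  apply Finsupp.single_eq_of_ne'
  intro e
  exact h1 j (Finset.mem_range.1 hj) e.symm

private theorem top_alg {M : Type} [Monoid M] (m1 m2 m3 C : M) (r1 r2 s : ℝ)
    (y1 y2 : MonoidAlgebra ℝ M) (hC : m2 * C = m3) :
    MonoidAlgebra.single m1 r1 + y2 + MonoidAlgebra.single 1 s * (MonoidAlgebra.single m2 r2 + y1) *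
      MonoidAlgebra.single C 1 = MonoidAlgebra.single m3 (s * r2) +
      (MonoidAlgebra.single m1 r1 + y2 + s • (y1 * MonoidAlgebra.single C 1)) := by
  have e2 : ∀ z : MonoidAlgebra ℝ M, MonoidAlgebra.single 1 s * z = s • z := by
    intro z
    rw [Algebra.smul_def]
    rfl
  rw [mul_add, MonoidAlgebra.single_mul_single, one_mul, add_mul, MonoidAlgebra.single_mul_single,
    mul_one, hC, mul_assoc, e2]
  abel

theorem cyc_sg1 {M : Type} [Monoid M] (S : ℕ → M) (i b : ℕ) :
    cyc (sg1 S) i b = MonoidAlgebra.single (cyc S i b) 1 := by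
  induction b with
  | zero => rfl
  | succ b ih =>
    rw [cyc, cyc, ih, sg1, MonoidAlgebra.single_mul_single, mul_one]

theorem Qe_top {M : Type} [Monoid M] {S : ℕ → M} {N : ℕ} {len : M → ℕ} (h : BM S N len)
    (o a b : ℕ) (hm : o + a + b ≤ N + 1) : ∃ y : MonoidAlgebra ℝ M,
      Qe (sg1 S) o a b = MonoidAlgebra.single (mx S o a b) ((-1 : ℝ) ^ (a * b)) + y ∧
      ∀ u, y.coeff u ≠ 0 → len u < a * b := by
  induction a generalizing b with
  | zero =>
    refine ⟨0, ?_, ?_⟩
    · rw [Qe_zero_left, add_zero]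
      exact one_eq_single _ (by simp) _ rfl
    · intro u hu
      exact absurd rfl hu
  | succ a iha =>
    induction b with
    | zero =>
      refine ⟨0, ?_, ?_⟩
      · rw [Qe_zero_right, add_zero]
        exact one_eq_single _ (by simp) _ (mx_zero_right S o _)
      · intro u hu
        exact absurd rfl hu
    | succ b ihb =>
      obtain ⟨y1, hy1, hu1⟩ := iha (b + 1) (by omega)
      obtain ⟨y2, hy2, hu2⟩ := ihb (by omega)
      have hl2 := h.len_mx o (a + 1) b (by omega)
      have hCm := h.len_mx o (a + 1) (b + 1) (by omega)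
      have hCa := h.len_mx o a (b + 1) (by omega)
      have hmx : mx S o (a + 1) (b + 1) = mx S o a (b + 1) * cyc S (o + a + 1) (b + 1) := rfl
      have hlC : len (cyc S (o + a + 1) (b + 1)) = b + 1 := by
        rw [hmx, h.len_mul, hCa] at hCm
        have : (a + 1) * (b + 1) = a * (b + 1) + (b + 1) := by ring
        omega
      refine ⟨MonoidAlgebra.single (mx S o (a + 1) b) ((-1 : ℝ) ^ ((a + 1) * b)) + y2 +
        ((-1 : ℝ) ^ (b + 1)) • (y1 * MonoidAlgebra.single (cyc S (o + a + 1) (b + 1)) 1), ?_, ?_⟩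
      · have e1 : ((-1 : ℝ) ^ ((a + 1) * (b + 1))) = (-1 : ℝ) ^ (b + 1) * (-1 : ℝ) ^ (a * (b + 1)) := by
          rw [← pow_add]
          congr 1
          ring
        rw [Qe_succ, hy2, hy1, cyc_sg1, neg_one_pow_cast, e1]
        exact top_alg _ _ _ _ _ _ _ _ _ hmx.symm
      · intro u hu
        have hmul : (a + 1) * b < (a + 1) * (b + 1) := by
          have : (a + 1) * (b + 1) = (a + 1) * b + (a + 1) := by ring
          omega
        by_cases c1 : (MonoidAlgebra.single (mx S o (a + 1) b)
            ((-1 : ℝ) ^ ((a + 1) * b))).coeff u = 0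
        · by_cases c2 : y2.coeff u = 0
          · have c3 : (y1 * MonoidAlgebra.single (cyc S (o + a + 1) (b + 1)) 1).coeff u ≠ 0 := by
              intro c3
              apply hu
              rw [MonoidAlgebra.coeff_add, MonoidAlgebra.coeff_add, Finsupp.add_apply,
                Finsupp.add_apply, MonoidAlgebra.coeff_smul_apply, c1, c2, c3]
              simp
            obtain ⟨v, rfl, hv⟩ := coeff_mul_single_ne y1 _ u c3
            have h4 := hu1 v hv
            rw [h.len_mul, hlC]
            have : (a + 1) * (b + 1) = a * (b + 1) + (b + 1) := by ring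
            omega
          · exact lt_trans (hu2 u c2) hmul
        · rw [MonoidAlgebra.coeff_single] at c1
          have : mx S o (a + 1) b = u := by
            by_contra hne
            exact c1 (Finsupp.single_eq_of_ne' hne)
          rw [← this, hl2]
          exact hmul

theorem bE_supp {A : Type} [Ring A] (S : ℕ → A) (c c2 : List ℕ) (h : bE S c c2 ≠ 0) :
    c2.length = c.length + 1 ∧ tot c2 = tot c ∧ ∀ j, Ins c2 j → Ins c j := by
  induction c generalizing c2 with
  | nil => exact absurd rfl h
  | cons a l ih => exact supp_step a l c2 _ _ (fun l2 h2 => ih l2 h2) h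

theorem bL_supp (c c2 : List ℕ) (h : bL c c2 ≠ 0) :
    c2.length = c.length + 1 ∧ tot c2 = tot c ∧ ∀ j, Ins c2 j → Ins c j := by
  induction c generalizing c2 with
  | nil => exact absurd rfl h
  | cons a l ih => exact supp_step a l c2 _ _ (fun l2 h2 => ih l2 h2) h

theorem bE_lead {M : Type} [Monoid M] {S : ℕ → M} {N : ℕ} {len : M → ℕ} (h : BM S N len)
    (c c2 : List ℕ) (hc : tot c ≤ N + 1) : ∃ (m : M) (y : MonoidAlgebra ℝ M),
      bE (sg1 S) c c2 = MonoidAlgebra.single m (bL c c2) + y ∧
      (bL c c2 ≠ 0 → m * Dc S c2 = Dc S c) ∧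
      ∀ u, y.coeff u ≠ 0 → len (u * Dc S c2) < len (Dc S c) := by
  induction c generalizing c2 with
  | nil =>
    refine ⟨1, 0, ?_, ?_, ?_⟩
    · show (0 : MonoidAlgebra ℝ M) = MonoidAlgebra.single 1 0 + 0
      simp
    · intro hne
      exact absurd rfl hne
    · intro u hu
      exact absurd rfl hu
  | cons a l ih =>
    have htot : tot (a :: l) = a + 1 + tot l := tot_cons a l
    by_cases h1 : ∃ j, j < a ∧ c2 = (a - 1 - j) :: j :: l
    · obtain ⟨j, hj, rfl⟩ := h1
      have eE : bE (sg1 S) (a :: l) ((a - 1 - j) :: j :: l) =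
          Qe (sg1 S) (tot l) (j + 1) (a - j) := by
        rw [bE]
        exact step_split a j hj l (fun j => Qe (sg1 S) (tot l) (j + 1) (a - j)) _
      have eL : bL (a :: l) ((a - 1 - j) :: j :: l) = (-1 : ℝ) ^ ((j + 1) * (a - j)) := by
        rw [bL]
        exact step_split a j hj l (fun j => (-1 : ℝ) ^ ((j + 1) * (a - j))) _
      obtain ⟨y, hy, hu⟩ := Qe_top h (tot l) (j + 1) (a - j) (by omega)
      have hmx := mx_Dc S N h.rel a j l hj hc
      refine ⟨mx S (tot l) (j + 1) (a - j), y, ?_, fun _ => hmx, ?_⟩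
      · rw [eE, eL, hy]
      · intro u hne
        have h2 := hu u hne
        have h3 := h.len_mx (tot l) (j + 1) (a - j) (by omega)
        rw [← hmx, h.len_mul, h.len_mul, h3]
        omega
    · by_cases h2 : ∃ l2, c2 = a :: l2
      · obtain ⟨l2, rfl⟩ := h2
        have eE : bE (sg1 S) (a :: l) (a :: l2) = - bE (sg1 S) l l2 := by
          rw [bE]
          exact step_cons a l l2 (fun j => Qe (sg1 S) (tot l) (j + 1) (a - j)) _
        have eL : bL (a :: l) (a :: l2) = - bL l l2 := by
          rw [bL]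
          exact step_cons a l l2 (fun j => (-1 : ℝ) ^ ((j + 1) * (a - j))) _
        by_cases ht : tot l2 = tot l
        · obtain ⟨m, y, hy, hm, hu⟩ := ih l2 (by omega)
          refine ⟨m, -y, ?_, ?_, ?_⟩
          · rw [eE, eL, hy, neg_add, MonoidAlgebra.single_neg]
          · intro hne
            have hne' : bL l l2 ≠ 0 := by
              intro h0
              rw [eL, h0, neg_zero] at hne
              exact hne rfl
            rw [Dc, Dc, ← mul_assoc, hm hne', ht]
          · intro u hne
            have hne' : y.coeff u ≠ 0 := by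
              intro h0
              apply hne
              rw [MonoidAlgebra.coeff_neg, Finsupp.neg_apply, h0, neg_zero]
            have h3 := hu u hne'
            rw [Dc, Dc, ← mul_assoc, h.len_mul, h.len_mul (Dc S l), ht]
            omega
        · have zE : bE (sg1 S) l l2 = 0 := by
            by_contra h0
            exact ht (bE_supp (sg1 S) l l2 h0).2.1
          have zL : bL l l2 = 0 := by
            by_contra h0
            exact ht (bL_supp l l2 h0).2.1
          refine ⟨1, 0, ?_, ?_, ?_⟩
          · rw [eE, eL, zE, zL]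
            simp
          · intro hne
            exact absurd (by rw [eL, zL, neg_zero]) hne
          · intro u hu
            exact absurd rfl hu
      · have zE : bE (sg1 S) (a :: l) c2 = 0 := by
          rw [bE]
          exact step_other a l c2 (fun j => Qe (sg1 S) (tot l) (j + 1) (a - j)) _
            (fun j hj e => h1 ⟨j, hj, e⟩) (fun l2 e => h2 ⟨l2, e⟩)
        have zL : bL (a :: l) c2 = 0 := by
          rw [bL]
          exact step_other a l c2 (fun j => (-1 : ℝ) ^ ((j + 1) * (a - j))) _
            (fun j hj e => h1 ⟨j, hj, e⟩) (fun l2 e => h2 ⟨l2, e⟩)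
        refine ⟨1, 0, ?_, ?_, ?_⟩
        · rw [zE, zL]
          simp
        · intro hne
          exact absurd zL hne
        · intro u hu
          exact absurd rfl hu

end BrV
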