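import Pool.Agent.Lib.BrV.CDefs
import Pool.Agent.Lib.BrV.Coassoc

/-!
# BrV.CdF: `dF ∘ dF = 0`, naturality, and duality with `sal`

`dF_single`: `Finsupp.lift_apply`, `sum_single_index`.  `dF_map`: `Qe_map` and induction on the list in `bE`.
`dF_dF`: by linearity `dF (bE S c) = 0` for `tot c = n`, by induction on `c`.  `c = a :: l`, `o = tot l`:
 `dF (bE (a::l)) = ∑_j Q(o;j+1,a-j) • bE ((a-1-j)::j::l) - ∑_(l2) (bE l l2) • bE (a::l2)`;
 `bE ((a-1-j)::j::l) = ∑_i single ((a-2-j-i)::i::j::l) Q(o+j+1;i+1,a-1-j-i) - cons (a-1-j) (bE (j::l))`,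
 `bE (j::l) = ∑_m single ((j-1-m)::m::l) Q(o;m+1,j-m) - cons j (bE l)`.
 The splittings of `a` into three parts `x, y, z` cancel: `Q(o;x,y+z) Q(o+x;y,z) = Q(o;x+y,z) Q(o;x,y)` (`Qe_coassoc`).
 The terms `∑_j Q(o;j+1,a-j) • cons (a-1-j) (cons j (bE l))` cancel with `∑_(l2) (bE l l2) • ∑_j single ((a-1-j)::j::l2) Q(o;j+1,a-j)` because the entries of `bE l` are polynomials in the `S i`, `i < tot l`, and
 commute with `Q(o;..)`, a polynomial in the `S i`, `i > tot l` (`tot l2 = tot l`).  The rest is `cons a (dF (bE l)) = 0` (induction).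
 I suggest to prove first (privately): if `x` commutes with all `S i`, `o < i < o + a + b`, then `x` commutes with `Qe S o a b`; and the same for all entries of `bE S l` and `x` commuting with the `S i`, `0 < i < tot l`.
`sal_dual`: `sal S x c2 = ∑_c (bE (S) c2 c) (x c)` for a family of operators `S : ℕ → Module.End ℝ M`: by linearity and induction on the list in `mgS`: the coefficient of `mgS S (a::b::l)` at `(a+b+1)::l` is
 `Q(tot l; b+1, a+1)`, which is the coefficient of `bE S ((a+b+1)::l)` at `a::b::l` (`j = b`); the coefficients at `a :: c1` are `- mgS S (b::l) · c1`, resp. `- bE S c1 (b::l)`.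
 In the form stated: `mgS S l x c = (bE S c l) x`.
-/

/-!
# BrV.CdF: `dF ∘ dF = 0`, naturality, and duality with `sal`

`dF_single`: `Finsupp.lift_apply`, `sum_single_index`.  `dF_map`: `Qe_map` and induction on the list in `bE`.
`dF_dF`: by linearity `dF (bE S c) = 0` for `tot c = n`, by induction on `c`.  `c = a :: l`, `o = tot l`:
 `dF (bE (a::l)) = ∑_j Q(o;j+1,a-j) • bE ((a-1-j)::j::l) - ∑_(l2) (bE l l2) • bE (a::l2)`;
 `bE ((a-1-j)::j::l) = ∑_i single ((a-2-j-i)::i::j::l) Q(o+j+1;i+1,a-1-j-i) - cons (a-1-j) (bE (j::l))`,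
 `bE (j::l) = ∑_m single ((j-1-m)::m::l) Q(o;m+1,j-m) - cons j (bE l)`.
 The splittings of `a` into three parts `x, y, z` cancel: `Q(o;x,y+z) Q(o+x;y,z) = Q(o;x+y,z) Q(o;x,y)` (`Qe_coassoc`).
 The terms `∑_j Q(o;j+1,a-j) • cons (a-1-j) (cons j (bE l))` cancel with `∑_(l2) (bE l l2) • ∑_j single ((a-1-j)::j::l2) Q(o;j+1,a-j)` because the entries of `bE l` are polynomials in the `S i`, `i < tot l`, and
 commute with `Q(o;..)`, a polynomial in the `S i`, `i > tot l` (`tot l2 = tot l`).  The rest is `cons a (dF (bE l)) = 0` (induction).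
 I suggest to prove first (privately): if `x` commutes with all `S i`, `o < i < o + a + b`, then `x` commutes with `Qe S o a b`; and the same for all entries of `bE S l` and `x` commuting with the `S i`, `0 < i < tot l`.
`sal_dual`: `sal S x c2 = ∑_c (bE (S) c2 c) (x c)` for a family of operators `S : ℕ → Module.End ℝ M`: by linearity and induction on the list in `mgS`: the coefficient of `mgS S (a::b::l)` at `(a+b+1)::l` is
 `Q(tot l; b+1, a+1)`, which is the coefficient of `bE S ((a+b+1)::l)` at `a::b::l` (`j = b`); the coefficients at `a :: c1` are `- mgS S (b::l) · c1`, resp. `- bE S c1 (b::l)`.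
 In the form stated: `mgS S l x c = (bE S c l) x`.
-/

namespace BrV

open Finsupp

section
variable {A : Type} [Ring A] (S : ℕ → A)

/-- splitting the new last part -/
private noncomputable def SP (a : ℕ) : (List ℕ →₀ A) →ₗ[A] (List ℕ →₀ A) :=
  Finsupp.lift (List ℕ →₀ A) A (List ℕ) (fun c => ∑ j ∈ Finset.range a,
    single ((a - 1 - j) :: j :: c) (Qe S (tot c) (j + 1) (a - j)))

private theorem SP_single (a : ℕ) (c : List ℕ) (x : A) : SP S a (single c x) =
    x • ∑ j ∈ Finset.range a, single ((a - 1 - j) :: j :: c) (Qe S (tot c) (j + 1) (a - j)) := by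
  rw [SP, Finsupp.lift_apply]
  exact Finsupp.sum_single_index (zero_smul A _)

private theorem bE_cons (a : ℕ) (l : List ℕ) : bE S (a :: l) = SP S a (single l 1) -
    lmapDomain A A (List.cons a) (bE S l) := by
  rw [SP_single, one_smul]
  rfl

end

theorem dF_single {A : Type} [Ring A] (S : ℕ → A) (c : List ℕ) (x : A) :
    dF S (single c x) = x • bE S c := by
  rw [dF, Finsupp.lift_apply]
  exact Finsupp.sum_single_index (zero_smul A _)

private theorem bE_supp {A : Type} [Ring A] (S : ℕ → A) (c : List ℕ) :
    ∀ c', bE S c c' ≠ 0 → c'.length = c.length + 1 ∧ tot c' = tot c := by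
  induction c with
  | nil => intro c' hc'; simp [bE] at hc'
  | cons a l ih =>
    intro c' hc'
    rw [bE, Finsupp.sub_apply] at hc'
    by_cases h1 : mapDomain (List.cons a) (bE S l) c' = 0
    · rw [h1, sub_zero, Finsupp.finsetSum_apply] at hc'
      obtain ⟨j, hj, hj'⟩ := Finset.exists_ne_zero_of_sum_ne_zero hc'
      have hj2 := Finset.mem_range.1 hj
      by_cases h2 : (a - 1 - j) :: j :: l = c'
      · subst h2
        simp only [List.length_cons, tot, List.map_cons, List.sum_cons]
        refine ⟨trivial, ?_⟩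
        omega
      · exact absurd (by rw [single_eq_of_ne (Ne.symm h2)]) hj'
    · have h2 : c' ∈ (mapDomain (List.cons a) (bE S l)).support := Finsupp.mem_support_iff.2 h1
      classical
      have h3 := Finsupp.mapDomain_support h2
      rw [Finset.mem_image] at h3
      obtain ⟨c'', h4, rfl⟩ := h3
      obtain ⟨h5, h6⟩ := ih c'' (Finsupp.mem_support_iff.1 h4)
      simp only [List.length_cons, tot, List.map_cons, List.sum_cons] at h5 h6 ⊢
      omega

theorem dF_supp {A : Type} [Ring A] (S : ℕ → A) (r n : ℕ) (x : List ℕ →₀ A)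
    (hx : ∀ c, x c ≠ 0 → c.length = r ∧ tot c = n) :
    ∀ c, dF S x c ≠ 0 → c.length = r + 1 ∧ tot c = n := by
  intro c hc
  rw [dF, Finsupp.lift_apply, Finsupp.sum, Finsupp.finsetSum_apply] at hc
  obtain ⟨j, hj, hj'⟩ := Finset.exists_ne_zero_of_sum_ne_zero hc
  obtain ⟨h1, h2⟩ := hx j (Finsupp.mem_support_iff.1 hj)
  rw [Finsupp.smul_apply] at hj'
  obtain ⟨h3, h4⟩ := bE_supp S j c (fun h => hj' (by rw [h, smul_zero]))
  omega

private theorem cyc_memR {A : Type} [Ring A] (S : ℕ → A) (R : Subring A) (i b : ℕ)
    (h : ∀ k, i ≤ k → k < i + b → S k ∈ R) : cyc S i b ∈ R := by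
  induction b with
  | zero => exact R.one_mem
  | succ b ih =>
    exact R.mul_mem (h _ (by omega) (by omega)) (ih fun k h1 h2 => h k h1 (by omega))

private theorem Qe_memR {A : Type} [Ring A] (S : ℕ → A) (R : Subring A) (o a b : ℕ)
    (h : ∀ k, o < k → k < o + a + b → S k ∈ R) : Qe S o a b ∈ R := by
  suffices H : ∀ m a b, a + b = m → (∀ k, o < k → k < o + m → S k ∈ R) → Qe S o a b ∈ R from
    H (a + b) a b rfl (fun k h1 h2 => h k h1 (by omega))
  clear h
  intro m
  induction m with
  | zero =>
    intro a b hab _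
    have ha : a = 0 := by omega
    subst ha
    rw [Qe_zero_left]
    exact R.one_mem
  | succ m ih =>
    intro a b hab h
    rcases a with _ | a
    · rw [Qe_zero_left]; exact R.one_mem
    rcases b with _ | b
    · rw [Qe_zero_right]; exact R.one_mem
    rw [Qe_succ]
    have h1 := ih (a + 1) b (by omega) (fun k h1 h2 => h k h1 (by omega))
    have h2 := ih a (b + 1) (by omega) (fun k h1 h2 => h k h1 (by omega))
    have h3 := cyc_memR S R (o + a + 1) (b + 1) (fun k h1 h2 => h k (by omega) (by omega))
    exact R.add_mem h1 (R.mul_mem (R.mul_mem (R.pow_mem (R.neg_mem R.one_mem) _) h2) h3)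

private theorem bE_memR {A : Type} [Ring A] (S : ℕ → A) (R : Subring A) (l : List ℕ)
    (h : ∀ k, 0 < k → k < tot l → S k ∈ R) (c : List ℕ) : bE S l c ∈ R := by
  induction l generalizing c with
  | nil => exact R.zero_mem
  | cons a l ih =>
    have ht : tot (a :: l) = a + 1 + tot l := by simp [tot]
    rw [ht] at h
    rw [bE, Finsupp.sub_apply, Finsupp.finsetSum_apply]
    refine R.sub_mem (R.sum_mem fun j hj => ?_) ?_
    · have hj2 := Finset.mem_range.1 hj
      by_cases h2 : (a - 1 - j) :: j :: l = c
      · subst h2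
        rw [single_eq_same]
        exact Qe_memR S R _ _ _ (fun k h1 h2 => h k (by omega) (by omega))
      · rw [single_eq_of_ne (Ne.symm h2)]
        exact R.zero_mem
    · by_cases h2 : ∃ c', c = a :: c'
      · obtain ⟨c', rfl⟩ := h2
        rw [Finsupp.mapDomain_apply (List.cons_injective)]
        exact ih (fun k h1 h2 => h k h1 (by omega)) c'
      · rw [Finsupp.mapDomain_of_notMem_range]
        · exact R.zero_mem
        · rintro ⟨c', hc'⟩
          exact h2 ⟨c', hc'.symm⟩

private theorem dF_cons {A : Type} [Ring A] (S : ℕ → A) (a : ℕ) (y : List ℕ →₀ A) :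
    dF S (lmapDomain A A (List.cons a) y) = SP S a y - lmapDomain A A (List.cons a) (dF S y) := by
  induction y using Finsupp.induction_linear with
  | zero => simp
  | add x y hx hy =>
    rw [map_add, map_add, hx, hy, map_add, map_add, map_add]
    abel
  | single c x =>
    rw [lmapDomain_apply, mapDomain_single, dF_single, dF_single, bE_cons, smul_sub, ← map_smul,
      ← map_smul, smul_single, smul_eq_mul, mul_one]

private theorem SP_comm {A : Type} [Ring A] (S : ℕ → A) (a o : ℕ) (y : List ℕ →₀ A)
    (hy : ∀ c, y c ≠ 0 → tot c = o)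
    (hc : ∀ c, ∀ j, j < a → Qe S o (j + 1) (a - j) * y c = y c * Qe S o (j + 1) (a - j)) :
    ∑ j ∈ Finset.range a, Qe S o (j + 1) (a - j) •
      lmapDomain A A (List.cons (a - 1 - j)) (lmapDomain A A (List.cons j) y) = SP S a y := by
  rw [SP, Finsupp.lift_apply, Finsupp.sum]
  simp only [Finset.smul_sum]
  rw [Finset.sum_comm]
  refine Finset.sum_congr rfl fun j hj => ?_
  rw [lmapDomain_apply, lmapDomain_apply, ← Finsupp.mapDomain_comp, Finsupp.mapDomain, Finsupp.sum,
    Finset.smul_sum]
  refine Finset.sum_congr rfl fun c hcy => ?_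
  rw [smul_single, smul_single, smul_eq_mul, smul_eq_mul, hc c j (Finset.mem_range.1 hj),
    hy c (Finsupp.mem_support_iff.1 hcy)]
  rfl

private theorem dF_bE {A : Type} [Ring A] (S : ℕ → A) (n : ℕ) (h : BRel S 0 n) (c : List ℕ)
    (hc : tot c ≤ n) : dF S (bE S c) = 0 := by
  induction c with
  | nil => rw [bE, map_zero]
  | cons a l ih =>
    have ht : tot (a :: l) = a + 1 + tot l := by simp [tot]
    rw [ht] at hc
    rw [bE_cons, map_sub, dF_cons, ih (by omega), map_zero, sub_zero, sub_eq_zero,
      ← SP_comm S a (tot l) (bE S l) (fun c hc => (bE_supp S l c hc).2) ?_]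
    · rw [SP_single, one_smul, map_sum]
      have h1 : ∀ j ∈ Finset.range a,
          dF S (single ((a - 1 - j) :: j :: l) (Qe S (tot l) (j + 1) (a - j))) =
          ((∑ i ∈ Finset.range (a - 1 - j), single ((a - 1 - j - 1 - i) :: i :: j :: l)
            (Qe S (tot l) (j + 1) (a - j) * Qe S (tot (j :: l)) (i + 1) (a - 1 - j - i))) -
          ∑ i ∈ Finset.range j, single ((a - 1 - j) :: (j - 1 - i) :: i :: l)
            (Qe S (tot l) (j + 1) (a - j) * Qe S (tot l) (i + 1) (j - i))) +
          Qe S (tot l) (j + 1) (a - j) •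
            lmapDomain A A (List.cons (a - 1 - j)) (lmapDomain A A (List.cons j) (bE S l)) := by
        intro j hj
        rw [dF_single, bE_cons, SP_single, one_smul, bE_cons, SP_single, one_smul, map_sub,
          smul_sub, smul_sub, map_sum, Finset.smul_sum, Finset.smul_sum]
        simp only [smul_single, smul_eq_mul, lmapDomain_apply, mapDomain_single]
        abel
      rw [Finset.sum_congr rfl h1, Finset.sum_add_distrib, Finset.sum_sub_distrib]
      rw [sub_eq_zero.2 ?_, zero_add]
      rw [Finset.sum_sigma', Finset.sum_sigma']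
      refine Finset.sum_nbij' (fun p => ⟨p.1 + p.2 + 1, p.1⟩) (fun q => ⟨q.2, q.1 - q.2 - 1⟩)
        ?_ ?_ ?_ ?_ ?_
      · rintro ⟨j, i⟩ hp
        simp only [Finset.mem_sigma, Finset.mem_range] at hp ⊢
        omega
      · rintro ⟨j, i⟩ hp
        simp only [Finset.mem_sigma, Finset.mem_range] at hp ⊢
        omega
      · rintro ⟨j, i⟩ hp
        simp only [Finset.mem_sigma, Finset.mem_range] at hp
        simp only [Sigma.mk.injEq, heq_eq_eq, true_and]
        omega
      · rintro ⟨j, i⟩ hp
        simp only [Finset.mem_sigma, Finset.mem_range] at hp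
        simp only [Sigma.mk.injEq, heq_eq_eq, and_true]
        omega
      · rintro ⟨j, i⟩ hp
        simp only [Finset.mem_sigma, Finset.mem_range] at hp
        obtain ⟨e, rfl⟩ : ∃ e, a = j + i + 1 + (e + 1) := ⟨a - (j + i + 1) - 1, by omega⟩
        have h2 : BRel S (tot l) (tot l + (j + 1) + (i + 1) + (e + 1)) :=
          ⟨fun i j h1 h2 h3 => h.1 i j (by omega) h2 (by omega),
            fun i h1 h2 => h.2 i (by omega) (by omega)⟩
        have h3 := Qe_coassoc S (tot l) (j + 1) (i + 1) (e + 1) h2
        have h4 : tot (j :: l) = tot l + (j + 1) := by simp [tot]; omega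
        simp only
        rw [h4]
        have e1 : j + i + 1 + (e + 1) - j = i + 1 + (e + 1) := by omega
        have e2 : j + i + 1 + (e + 1) - 1 - j - i = e + 1 := by omega
        have e3 : j + i + 1 + (e + 1) - (j + i + 1) = e + 1 := by omega
        have e4 : j + i + 1 - j = i + 1 := by omega
        have e5 : j + i + 1 + 1 = j + 1 + (i + 1) := by omega
        have e6 : j + i + 1 + (e + 1) - 1 - j - 1 - i = j + i + 1 + (e + 1) - 1 - (j + i + 1) := by
          omega
        have e7 : j + i + 1 - 1 - j = i := by omega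
        rw [e1, e2, e3, e4, e5, e6, e7, h3]
    · intro c' j hj
      have h1 : ∀ k, 0 < k → k < tot l →
          S k ∈ Subring.centralizer {Qe S (tot l) (j + 1) (a - j)} := by
        intro k hk hk'
        have h2 : Qe S (tot l) (j + 1) (a - j) ∈ Subring.centralizer {S k} := by
          apply Qe_memR
          intro i h3 h4
          rw [Subring.mem_centralizer_iff]
          intro g hg
          rw [Set.mem_singleton_iff.1 hg]
          exact h.1 k i hk (by omega) (by omega)
        rw [Subring.mem_centralizer_iff] at h2 ⊢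
        intro g hg
        rw [Set.mem_singleton_iff.1 hg]
        exact (h2 (S k) rfl).symm
      have h5 := bE_memR S _ l h1 c'
      rw [Subring.mem_centralizer_iff] at h5
      exact h5 _ rfl

theorem dF_dF {A : Type} [Ring A] (S : ℕ → A) (n : ℕ) (h : BRel S 0 n) (x : List ℕ →₀ A)
    (hx : ∀ c, x c ≠ 0 → tot c = n) : dF S (dF S x) = 0 := by
  rw [← Finsupp.sum_single x, Finsupp.sum, map_sum, map_sum]
  refine Finset.sum_eq_zero fun l hl => ?_
  rw [dF_single, map_smul, dF_bE S n h l (le_of_eq (hx l (Finsupp.mem_support_iff.1 hl))),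
    smul_zero]

private theorem mapRange_add' {A B : Type} [Ring A] [Ring B] (f : A →+* B) (x y : List ℕ →₀ A) :
    (x + y).mapRange f (map_zero f) = x.mapRange f (map_zero f) + y.mapRange f (map_zero f) :=
  Finsupp.mapRange_add (fun a b => map_add f a b) x y

private theorem mapRange_sub' {A B : Type} [Ring A] [Ring B] (f : A →+* B) (x y : List ℕ →₀ A) :
    (x - y).mapRange f (map_zero f) = x.mapRange f (map_zero f) - y.mapRange f (map_zero f) :=
  Finsupp.mapRange_sub (fun a b => map_sub f a b) x y

private theorem mapRange_sum' {A B : Type} [Ring A] [Ring B] (f : A →+* B) (s : Finset ℕ)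
    (x : ℕ → (List ℕ →₀ A)) :
    (∑ j ∈ s, x j).mapRange f (map_zero f) = ∑ j ∈ s, (x j).mapRange f (map_zero f) := by
  classical
  induction s using Finset.induction_on with
  | empty => simp
  | insert a s ha ih => rw [Finset.sum_insert ha, Finset.sum_insert ha, mapRange_add', ih]

private theorem bE_map {A B : Type} [Ring A] [Ring B] (f : A →+* B) (S : ℕ → A) (c : List ℕ) :
    (bE S c).mapRange f (map_zero f) = bE (fun i => f (S i)) c := by
  induction c with
  | nil => simp [bE]
  | cons a l ih =>
    rw [bE, bE, mapRange_sub', mapRange_sum', ← ih]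
    congr 1
    · refine Finset.sum_congr rfl fun j _ => ?_
      rw [Finsupp.mapRange_single, Qe_map]
    · exact (Finsupp.mapDomain_mapRange _ _ _ (map_zero f) (fun a b => map_add f a b)).symm

theorem dF_map {A B : Type} [Ring A] [Ring B] (f : A →+* B) (S : ℕ → A) (x : List ℕ →₀ A) :
    (dF S x).mapRange f (map_zero f) = dF (fun i => f (S i)) (x.mapRange f (map_zero f)) := by
  induction x using Finsupp.induction_linear with
  | zero => simp
  | add x y hx hy => rw [map_add, mapRange_add', mapRange_add', map_add, hx, hy]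
  | single c a =>
    rw [dF_single, Finsupp.mapRange_single, dF_single, ← bE_map]
    ext l
    simp

theorem sal_dual {M : Type} [AddCommGroup M] [Module ℝ M] (S : ℕ → Module.End ℝ M)
    (l c : List ℕ) (x : M) : mgS S l x c = bE S c l x := by
  have hcons : ∀ (a : ℕ) (X : Type) [AddCommGroup X] (y : List ℕ →₀ X) (c : List ℕ),
      mapDomain (List.cons a) y (a :: c) = y c := fun a X _ y c =>
    Finsupp.mapDomain_apply List.cons_injective _ _
  have hcons2 : ∀ (a b : ℕ) (X : Type) [AddCommGroup X] (y : List ℕ →₀ X) (c : List ℕ), a ≠ b →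
      mapDomain (List.cons a) y (b :: c) = 0 := by
    intro a b X _ y c hab
    apply Finsupp.mapDomain_of_notMem_range
    rintro ⟨c', hc'⟩
    exact hab (List.cons.inj hc').1
  have hcons3 : ∀ (a : ℕ) (X : Type) [AddCommGroup X] (y : List ℕ →₀ X),
      mapDomain (List.cons a) y [] = 0 := by
    intro a X _ y
    apply Finsupp.mapDomain_of_notMem_range
    rintro ⟨c', hc'⟩
    exact List.cons_ne_nil _ _ hc'
  have hbnil : ∀ c : List ℕ, bE S c [] = 0 := by
    intro c
    rcases c with _ | ⟨a, c⟩
    · simp [bE]
    · rw [bE, Finsupp.sub_apply, hcons3, sub_zero, Finsupp.finsetSum_apply]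
      refine Finset.sum_eq_zero fun j _ => ?_
      exact single_eq_of_ne (Ne.symm (List.cons_ne_nil _ _))
  induction c generalizing l with
  | nil =>
    rcases l with _ | ⟨a, _ | ⟨b, l⟩⟩
    · simp [mgS, bE]
    · simp [mgS, bE]
    · rw [mgS, LinearMap.sub_apply, Finsupp.sub_apply, LinearMap.comp_apply, LinearMap.comp_apply,
        lmapDomain_apply, hcons3, lsingle_apply, single_eq_of_ne (Ne.symm (List.cons_ne_nil _ _))]
      simp [bE]
  | cons e l' ih =>
    rcases l with _ | ⟨a, _ | ⟨b, l⟩⟩
    · rw [hbnil]; simp [mgS]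
    · rw [bE, Finsupp.sub_apply, Finsupp.finsetSum_apply, Finset.sum_eq_zero, zero_sub]
      · by_cases hea : e = a
        · subst hea
          rw [hcons, hbnil]
          simp [mgS]
        · rw [hcons2 _ _ _ _ _ hea]
          simp [mgS]
      · intro j _
        apply single_eq_of_ne
        intro h
        exact List.cons_ne_nil _ _ (List.cons.inj h).2.symm
    · rw [mgS, LinearMap.sub_apply, Finsupp.sub_apply, LinearMap.comp_apply, LinearMap.comp_apply,
        lmapDomain_apply, lsingle_apply, bE, Finsupp.sub_apply, LinearMap.sub_apply]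
      congr 1
      · rw [Finsupp.finsetSum_apply]
        by_cases hc : e = a + b + 1 ∧ l' = l
        · obtain ⟨rfl, rfl⟩ := hc
          rw [single_eq_same, Finset.sum_eq_single b]
          · have e1 : a + b + 1 - 1 - b = a := by omega
            have e2 : a + b + 1 - b = a + 1 := by omega
            rw [e1, e2, single_eq_same]
          · intro j hj hjb
            apply single_eq_of_ne
            intro h
            exact hjb (List.cons.inj (List.cons.inj h).2).1.symm
          · intro hb
            exact absurd (Finset.mem_range.2 (by omega)) hb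
        · rw [single_eq_of_ne, Finset.sum_eq_zero]
          · simp
          · intro j hj
            have hj2 := Finset.mem_range.1 hj
            apply single_eq_of_ne
            intro h
            apply hc
            have h1 := (List.cons.inj h).1
            have h2 := (List.cons.inj (List.cons.inj h).2).1
            have h3 := (List.cons.inj (List.cons.inj h).2).2
            exact ⟨by omega, h3.symm⟩
          · intro h
            exact hc ⟨(List.cons.inj h).1, (List.cons.inj h).2⟩
      · by_cases hea : e = a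
        · subst hea
          rw [hcons, hcons, ih]
        · rw [hcons2 _ _ _ _ _ hea, hcons2 _ _ _ _ _ (Ne.symm hea)]
          simp

end BrV
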