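import Pool.Agent.Lib.BrV.CDiv
import Pool.Agent.Lib.BrV.CTop
import Pool.Agent.Lib.BrV.CHomA
import Pool.Agent.Lib.BrV.CdF

/-!
# BrV.CExact: exactness of the Salvetti complex of the braid monoid in positive degrees (9.5)

`A = MonoidAlgebra ℝ M`.  A basis element is `(a, c)` = `single c (single a 1)`; its TOP is `b = a * Dc S c`.  For `b : M` let `J b = {j | 1 ≤ j ≤ N, S j | b}` (right divisibility).  If `tot c = N + 1` then `Ins c ⊆ J (a * Dc S c)` (`Dc_div`).
For `b` and `v : List ℕ →₀ ℝ` supported on compositions `c` of `N + 1` with `Ins c ⊆ J b` let `G b v = ∑_c v(c) (q, c)` with `q * Dc S c = b` (`div_D`; unique by `BM.cancel`).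
Let `mx b` be the maximum of `J b`, `t = N - max (J b)` (if `J b` is not empty).  Define the `ℝ`-linear map `h` on basis elements by `h (a, c) = G b (hL t c)`, `b` the top (`0` if `J b` is empty): by `hL_supp` the
compositions `c'` in `hL t c` have `Ins c' = Ins c ∪ {N - t}`, `N - t = max (J b) ∈ J b`, so `G` is defined; `h (G b v) = G b (H_t v)`.
By `bE_lead`: `dF (G b v) = G b (B v) + (terms with tops of length < len b)`, `B` the linear extension of `bL` (`q * m * Dc c2 = q * Dc c = b`).
For `(a, c)` with `c.length < N + 1`: `J b` is not empty (`exists_Ins`), `c = replicate t 0 ++ (y :: l)` (`ends_with`, since `Ins c ⊆ J b`), so by `hL_homotopy`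
`dF (h (a,c)) + h (dF (a,c)) = (a,c) + (tops of length < len b)`.  (`h` keeps tops; `h` of shorter tops is shorter.)
Now induct on the maximal length `L` of the tops of the cycle `x`: `x' = x - dF (h x) = - (dF h + h dF - 1) x` (as `dF x = 0`) is a cycle (`dF_dF`) with shorter tops, same supports; `L = 0`... `x = 0` when no top is left.
-/

namespace BrV

open Finsupp

section Aux

variable {M : Type} [Monoid M]

/-- coefficient functional -/
private noncomputable def cf (u : M) : MonoidAlgebra ℝ M →ₗ[ℝ] ℝ where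
  toFun p := p.coeff u
  map_add' _ _ := rfl
  map_smul' _ _ := rfl

omit [Monoid M] in
private theorem cf_apply (u : M) (p : MonoidAlgebra ℝ M) : cf u p = p.coeff u := rfl

/-- `single` as a linear map -/
private noncomputable def sgl (u : M) : ℝ →ₗ[ℝ] MonoidAlgebra ℝ M where
  toFun r := MonoidAlgebra.single u r
  map_add' r r' := MonoidAlgebra.single_add u r r'
  map_smul' a r := by
    rw [RingHom.id_apply, MonoidAlgebra.smul_single]

omit [Monoid M] in
private theorem sgl_apply (u : M) (r : ℝ) : sgl u r = MonoidAlgebra.single u r := rfl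

/-- quotient of `b` by `Dc S c` -/
private noncomputable def qq (S : ℕ → M) (b : M) (c : List ℕ) : M :=
  open Classical in if h : ∃ a, b = a * Dc S c then h.choose else 1

private theorem qq_spec {S : ℕ → M} {b : M} {c : List ℕ} (h : ∃ a, b = a * Dc S c) :
    b = qq S b c * Dc S c := by
  unfold qq
  rw [dif_pos h]
  exact h.choose_spec

private theorem qq_eq {S : ℕ → M} {N : ℕ} {len : M → ℕ} (h : BM S N len) (a : M) (c : List ℕ) :
    qq S (a * Dc S c) c = a := by
  have h1 := qq_spec (S := S) (b := a * Dc S c) (c := c) ⟨a, rfl⟩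
  exact (h.cancel _ _ _ h1).symm

private noncomputable def evC (S : ℕ → M) (b : M) (c : List ℕ) : MonoidAlgebra ℝ M →ₗ[ℝ] ℝ :=
  open Classical in if ∃ a, b = a * Dc S c then cf (qq S b c) else 0

private noncomputable def sl (S : ℕ → M) (b : M) :
    (List ℕ →₀ MonoidAlgebra ℝ M) →ₗ[ℝ] (List ℕ →₀ ℝ) :=
  Finsupp.lsum ℝ fun c => (Finsupp.lsingle c).comp (evC S b c)

private theorem sl_single (S : ℕ → M) (b : M) (c : List ℕ) (p : MonoidAlgebra ℝ M) :
    sl S b (single c p) = single c (evC S b c p) := by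
  unfold sl
  rw [Finsupp.lsum_single]
  rfl

private theorem sl_apply (S : ℕ → M) (b : M) (x : List ℕ →₀ MonoidAlgebra ℝ M) (c : List ℕ) :
    sl S b x c = evC S b c (x c) := by
  classical
  induction x using Finsupp.induction_linear with
  | zero => simp
  | add x y hx hy => rw [map_add, Finsupp.add_apply, hx, hy, Finsupp.add_apply, map_add]
  | single c' p =>
    rw [sl_single, Finsupp.single_apply, Finsupp.single_apply]
    split_ifs with hc
    · subst hc
      rfl
    · rw [map_zero]

private noncomputable def GG (S : ℕ → M) (b : M) :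
    (List ℕ →₀ ℝ) →ₗ[ℝ] (List ℕ →₀ MonoidAlgebra ℝ M) :=
  Finsupp.lsum ℝ fun c => (Finsupp.lsingle c).comp (sgl (qq S b c))

private theorem GG_single (S : ℕ → M) (b : M) (c : List ℕ) (r : ℝ) :
    GG S b (single c r) = single c (MonoidAlgebra.single (qq S b c) r) := by
  unfold GG
  rw [Finsupp.lsum_single]
  rfl

private theorem GG_apply (S : ℕ → M) (b : M) (v : List ℕ →₀ ℝ) (c : List ℕ) :
    GG S b v c = MonoidAlgebra.single (qq S b c) (v c) := by
  classical
  induction v using Finsupp.induction_linear with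
  | zero => simp
  | add x y hx hy =>
    rw [map_add, Finsupp.add_apply, hx, hy, Finsupp.add_apply, MonoidAlgebra.single_add]
  | single c' p =>
    rw [GG_single, Finsupp.single_apply, Finsupp.single_apply]
    split_ifs with hc
    · subst hc
      rfl
    · rw [MonoidAlgebra.single_zero]

private noncomputable def bas (a : M) (c : List ℕ) : List ℕ →₀ MonoidAlgebra ℝ M :=
  single c (MonoidAlgebra.single a 1)

private theorem ext_supp {W : Type} [AddCommGroup W] [Module ℝ W]
    (f g : (List ℕ →₀ MonoidAlgebra ℝ M) →ₗ[ℝ] W) (x : List ℕ →₀ MonoidAlgebra ℝ M)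
    (h : ∀ c a, (x c).coeff a ≠ 0 → f (bas a c) = g (bas a c)) : f x = g x := by
  classical
  rw [← Finsupp.sum_single x, Finsupp.sum, map_sum, map_sum]
  refine Finset.sum_congr rfl fun c _ => ?_
  have hp : x c = ∑ a ∈ (x c).coeff.support, (x c).coeff a • MonoidAlgebra.single a (1 : ℝ) := by
    conv_lhs => rw [← MonoidAlgebra.sum_coeff_single (x c)]
    unfold Finsupp.sum
    refine Finset.sum_congr rfl fun a _ => ?_
    rw [MonoidAlgebra.smul_single, smul_eq_mul, mul_one]
  have h2 : ∀ F : (List ℕ →₀ MonoidAlgebra ℝ M) →ₗ[ℝ] W, F (single c (x c)) =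
      ∑ a ∈ (x c).coeff.support, (x c).coeff a • F (bas a c) := by
    intro F
    have e : single c (x c) = (Finsupp.lsingle c : MonoidAlgebra ℝ M →ₗ[ℝ] _) (x c) := rfl
    rw [e]
    conv_lhs => rw [hp]
    rw [map_sum, map_sum]
    refine Finset.sum_congr rfl fun a _ => ?_
    rw [map_smul, map_smul]
    rfl
  rw [h2 f, h2 g]
  refine Finset.sum_congr rfl fun a ha => ?_
  rw [h c a (Finsupp.mem_support_iff.1 ha)]

private theorem ext_supp' {W : Type} [AddCommGroup W] [Module ℝ W]
    (f g : (List ℕ →₀ ℝ) →ₗ[ℝ] W) (x : List ℕ →₀ ℝ)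
    (h : ∀ c, x c ≠ 0 → f (single c 1) = g (single c 1)) : f x = g x := by
  rw [← Finsupp.sum_single x, Finsupp.sum, map_sum, map_sum]
  refine Finset.sum_congr rfl fun c hc => ?_
  have e : (single c (x c) : List ℕ →₀ ℝ) = x c • single c 1 := by
    rw [Finsupp.smul_single, smul_eq_mul, mul_one]
  rw [e, map_smul, map_smul, h c (Finsupp.mem_support_iff.1 hc)]

/-- all tops of `x` have length `< L` -/
private def TP (S : ℕ → M) (len : M → ℕ) (x : List ℕ →₀ MonoidAlgebra ℝ M) (L : ℕ) : Prop :=
  ∀ c u, (x c).coeff u ≠ 0 → len (u * Dc S c) < L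

private theorem TP_add (S : ℕ → M) (len : M → ℕ) (x y : List ℕ →₀ MonoidAlgebra ℝ M) (L : ℕ)
    (hx : TP S len x L) (hy : TP S len y L) : TP S len (x + y) L := by
  intro c u hu
  by_cases h : (x c).coeff u = 0
  · apply hy
    intro h'
    apply hu
    rw [Finsupp.add_apply, MonoidAlgebra.coeff_add, Finsupp.add_apply, h, h', add_zero]
  · exact hx c u h

private theorem TP_neg (S : ℕ → M) (len : M → ℕ) (x : List ℕ →₀ MonoidAlgebra ℝ M) (L : ℕ)
    (hx : TP S len x L) : TP S len (-x) L := by
  intro c u hu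
  apply hx
  intro h
  apply hu
  have : cf u ((-x) c) = - cf u (x c) := by rw [Finsupp.neg_apply, map_neg]
  rw [cf_apply, cf_apply] at this
  rw [this, h, neg_zero]

private theorem TP_sum {ι : Type} (S : ℕ → M) (len : M → ℕ) (s : Finset ι)
    (f : ι → List ℕ →₀ MonoidAlgebra ℝ M) (L : ℕ)
    (hf : ∀ i ∈ s, TP S len (f i) L) : TP S len (∑ i ∈ s, f i) L := by
  classical
  induction s using Finset.induction_on with
  | empty =>
    intro c u hu
    exact absurd rfl hu
  | insert a s ha ih =>
    rw [Finset.sum_insert ha]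
    exact TP_add S len _ _ L (hf a (Finset.mem_insert_self a s))
      (ih fun i hi => hf i (Finset.mem_insert_of_mem hi))

private theorem dF_bas (S : ℕ → M) (a : M) (c c2 : List ℕ) :
    dF (sg1 S) (bas a c) c2 = MonoidAlgebra.single a 1 * bE (sg1 S) c c2 := by
  unfold bas
  rw [dF_single]
  rfl

private theorem coeff_sm (a : M) (y : MonoidAlgebra ℝ M) (u : M)
    (h : (MonoidAlgebra.single a 1 * y).coeff u ≠ 0) : ∃ u', u = a * u' ∧ y.coeff u' ≠ 0 := by
  classical
  have h1 := MonoidAlgebra.support_coeff_single_mul_subset y (1 : ℝ) a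
    (Finsupp.mem_support_iff.2 h)
  rw [Finset.mem_image] at h1
  obtain ⟨u', hu', e⟩ := h1
  exact ⟨u', e.symm, Finsupp.mem_support_iff.1 hu'⟩

private noncomputable def BB : (List ℕ →₀ ℝ) →ₗ[ℝ] (List ℕ →₀ ℝ) :=
  Finsupp.lift (List ℕ →₀ ℝ) ℝ (List ℕ) bL

private noncomputable def HH (t : ℕ) : (List ℕ →₀ ℝ) →ₗ[ℝ] (List ℕ →₀ ℝ) :=
  Finsupp.lift (List ℕ →₀ ℝ) ℝ (List ℕ) (hL t)

private theorem BB_single (c : List ℕ) : BB (single c 1) = bL c := by
  unfold BB
  rw [Finsupp.lift_apply, Finsupp.sum_single_index, one_smul]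
  exact zero_smul _ _

private theorem HH_single (t : ℕ) (c : List ℕ) : HH t (single c 1) = hL t c := by
  unfold HH
  rw [Finsupp.lift_apply, Finsupp.sum_single_index, one_smul]
  exact zero_smul _ _

private theorem HH_supp (t : ℕ) (v : List ℕ →₀ ℝ) (c' : List ℕ) (h : HH t v c' ≠ 0) :
    ∃ c, v c ≠ 0 ∧ hL t c c' ≠ 0 := by
  by_contra hcon
  push Not at hcon
  apply h
  have := ext_supp' ((Finsupp.lapply c').comp (HH t)) 0 v (fun c hc => by
    rw [LinearMap.comp_apply, HH_single, LinearMap.zero_apply]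
    exact hcon c hc)
  rw [LinearMap.comp_apply, LinearMap.zero_apply] at this
  exact this

variable {S : ℕ → M} {N : ℕ} {len : M → ℕ}

/-- coefficients of the differential of a basis element -/
private theorem top_bas (h : BM S N len) (a : M) (c c2 : List ℕ) (hc : tot c ≤ N + 1) (u : M)
    (hu : (dF (sg1 S) (bas a c) c2).coeff u ≠ 0) : len (u * Dc S c2) ≤ len (a * Dc S c) := by
  classical
  rw [dF_bas] at hu
  obtain ⟨m, y, h1, h2, h3⟩ := bE_lead h c c2 hc
  rw [h1] at hu
  obtain ⟨u', rfl, hu'⟩ := coeff_sm _ _ _ hu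
  rw [mul_assoc, h.len_mul, h.len_mul a]
  rw [MonoidAlgebra.coeff_add, Finsupp.add_apply, MonoidAlgebra.coeff_single] at hu'
  by_cases hy : y.coeff u' = 0
  · rw [hy, add_zero, Finsupp.single_apply] at hu'
    split_ifs at hu' with hm
    · subst hm
      rw [h2 hu']
    · exact absurd rfl hu'
  · have := h3 u' hy
    omega

private theorem TP_dF (h : BM S N len) (x : List ℕ →₀ MonoidAlgebra ℝ M)
    (hx : ∀ c, x c ≠ 0 → tot c = N + 1) (L : ℕ) (hL : TP S len x L) :
    TP S len (dF (sg1 S) x) L := by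
  intro c2 u hu
  by_contra hcon
  apply hu
  have := ext_supp ((cf u).comp ((Finsupp.lapply c2).comp ((dF (sg1 S)).restrictScalars ℝ))) 0 x
    (fun c a ha => by
      rw [LinearMap.zero_apply]
      show (dF (sg1 S) (bas a c) c2).coeff u = 0
      by_contra hne
      have hxc : x c ≠ 0 := by
        intro h0
        rw [h0] at ha
        exact ha rfl
      have h1 := top_bas h a c c2 (hx c hxc).le u hne
      have h2 := hL c a ha
      omega)
  exact this

private theorem sl_bas (h : BM S N len) (b a : M) (c : List ℕ) :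
    sl S b (bas a c) = open Classical in if a * Dc S c = b then single c 1 else 0 := by
  classical
  unfold bas
  rw [sl_single]
  unfold evC
  by_cases hd : ∃ a, b = a * Dc S c
  · rw [if_pos hd, cf_apply, MonoidAlgebra.coeff_single]
    have hq := qq_spec hd
    by_cases e : a * Dc S c = b
    · subst e
      rw [if_pos rfl, qq_eq h, Finsupp.single_eq_same]
    · rw [if_neg e, Finsupp.single_apply, if_neg, Finsupp.single_zero]
      rintro rfl
      exact e hq.symm
  · rw [if_neg hd, if_neg (fun e => hd ⟨a, e.symm⟩)]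
    simp

private theorem sl_dF_bas (h : BM S N len) (b a : M) (c : List ℕ) (hc : tot c ≤ N + 1)
    (hb : len (a * Dc S c) ≤ len b) :
    sl S b (dF (sg1 S) (bas a c)) = BB (sl S b (bas a c)) := by
  classical
  rw [sl_bas h]
  ext c2
  rw [sl_apply, dF_bas]
  obtain ⟨m, y, h1, h2, h3⟩ := bE_lead h c c2 hc
  rw [h1]
  have hR : (BB (if a * Dc S c = b then single c 1 else 0)) c2 =
      if a * Dc S c = b then bL c c2 else 0 := by
    split_ifs
    · rw [BB_single]
    · rw [map_zero]
      rfl
  rw [hR]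
  unfold evC
  by_cases hd : ∃ a, b = a * Dc S c2
  · rw [if_pos hd, cf_apply, mul_add, MonoidAlgebra.coeff_add, Finsupp.add_apply]
    have hq := qq_spec hd
    have hy0 : (MonoidAlgebra.single a 1 * y).coeff (qq S b c2) = 0 := by
      by_contra hne
      obtain ⟨u', e, hu'⟩ := coeff_sm _ _ _ hne
      have h4 := h3 u' hu'
      have h5 : len b = len a + len (u' * Dc S c2) := by
        rw [hq, e, mul_assoc, h.len_mul]
      rw [h.len_mul a] at hb
      omega
    rw [hy0, add_zero, MonoidAlgebra.single_mul_single, one_mul, MonoidAlgebra.coeff_single]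
    by_cases hbl : bL c c2 = 0
    · rw [hbl, Finsupp.single_zero]
      simp
    · have h6 := h2 hbl
      by_cases e : a * Dc S c = b
      · rw [if_pos e]
        have : a * m = qq S b c2 := by
          apply h.cancel _ _ (Dc S c2)
          rw [← hq, mul_assoc, h6, e]
        rw [this, Finsupp.single_eq_same]
      · rw [if_neg e, Finsupp.single_apply, if_neg]
        intro e2
        apply e
        rw [← h6, ← mul_assoc, e2, ← hq]
  · rw [if_neg hd, LinearMap.zero_apply]
    by_cases e : a * Dc S c = b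
    · rw [if_pos e]
      by_contra hne
      have h6 := h2 (Ne.symm hne)
      apply hd
      exact ⟨a * m, by rw [mul_assoc, h6, e]⟩
    · rw [if_neg e]

private theorem sl_dF (h : BM S N len) (b : M) (x : List ℕ →₀ MonoidAlgebra ℝ M)
    (hx : ∀ c, x c ≠ 0 → tot c = N + 1) (hL : TP S len x (len b + 1)) :
    sl S b (dF (sg1 S) x) = BB (sl S b x) := by
  have := ext_supp ((sl S b).comp ((dF (sg1 S)).restrictScalars ℝ)) (BB.comp (sl S b)) x
    (fun c a ha => by
      have hxc : x c ≠ 0 := by
        intro h0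
        rw [h0] at ha
        exact ha rfl
      exact sl_dF_bas h b a c (hx c hxc).le (Nat.lt_succ_iff.1 (hL c a ha)))
  exact this

private theorem sl_ne (b : M) (x : List ℕ →₀ MonoidAlgebra ℝ M) (c : List ℕ)
    (hc : sl S b x c ≠ 0) : (∃ a, b = a * Dc S c) ∧ (x c).coeff (qq S b c) ≠ 0 := by
  classical
  rw [sl_apply] at hc
  unfold evC at hc
  split_ifs at hc with hd
  · exact ⟨hd, hc⟩
  · exact absurd rfl hc

/-- `G b v` in the slice of `b'` -/
private theorem sl_GG (h : BM S N len) (b b' : M) (v : List ℕ →₀ ℝ)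
    (hv : ∀ c, v c ≠ 0 → ∃ a, b = a * Dc S c) :
    sl S b' (GG S b v) = open Classical in if b = b' then v else 0 := by
  classical
  have := ext_supp' ((sl S b').comp (GG S b)) (if b = b' then LinearMap.id else 0) v
    (fun c hc => by
      rw [LinearMap.comp_apply, GG_single]
      have e := sl_bas h b' (qq S b c) c
      unfold bas at e
      rw [e, ← qq_spec (hv c hc)]
      split_ifs
      · rfl
      · rfl)
  rw [LinearMap.comp_apply] at this
  rw [this]
  split_ifs
  · rfl
  · rfl

private theorem TP_GG (b : M) (v : List ℕ →₀ ℝ)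
    (hv : ∀ c, v c ≠ 0 → ∃ a, b = a * Dc S c) (L : ℕ) (hb : len b < L) :
    TP S len (GG S b v) L := by
  classical
  intro c u hu
  rw [GG_apply, MonoidAlgebra.coeff_single, Finsupp.single_apply] at hu
  split_ifs at hu with e
  · rw [← e, ← qq_spec (hv c hu)]
    exact hb
  · exact absurd rfl hu

/-- number of unit parts at the end for the homotopy -/
private noncomputable def tt (S : ℕ → M) (N : ℕ) (b : M) : ℕ :=
  open Classical in N - Nat.findGreatest (fun j => 1 ≤ j ∧ ∃ x, b = x * S j) N

private theorem step (h : BM S N len) (b : M) (r : ℕ) (hr : r < N + 1) (v : List ℕ →₀ ℝ)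
    (hv : ∀ c, v c ≠ 0 → c.length = r ∧ tot c = N + 1 ∧ ∃ a, b = a * Dc S c)
    (hB : BB v = 0) :
    BB (HH (tt S N b) v) = v ∧ ∀ c', HH (tt S N b) v c' ≠ 0 →
      c'.length + 1 = r ∧ tot c' = N + 1 ∧ ∃ a, b = a * Dc S c' := by
  classical
  set P : ℕ → Prop := fun j => 1 ≤ j ∧ ∃ x, b = x * S j with hP
  have hPd : ∀ c, v c ≠ 0 → ∀ j, Ins c j → j ≤ N ∧ P j := by
    intro c hc j hj
    obtain ⟨-, h2, a, ha⟩ := hv c hc
    obtain ⟨h3, h4⟩ := Ins_lt c j hj
    refine ⟨by omega, h3, ?_⟩
    obtain ⟨x, hx⟩ := Dc_div S N h.rel c h2.le j hj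
    exact ⟨a * x, by rw [ha, hx, mul_assoc]⟩
  have hex : ∀ c, v c ≠ 0 → ∃ j, Ins c j := by
    intro c hc
    obtain ⟨h1, h2, -⟩ := hv c hc
    exact exists_Ins c (by omega)
  have key : ∀ c, v c ≠ 0 → 1 ≤ Nat.findGreatest P N ∧ P (Nat.findGreatest P N) ∧
      ∀ j, Ins c j → j ≤ Nat.findGreatest P N := by
    intro c hc
    obtain ⟨j, hj⟩ := hex c hc
    obtain ⟨h1, h2⟩ := hPd c hc j hj
    have h3 := Nat.findGreatest_spec h1 h2
    refine ⟨h3.1, h3, fun j' hj' => ?_⟩
    obtain ⟨h4, h5⟩ := hPd c hc j' hj'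
    exact Nat.le_findGreatest h4 h5
  have hg : Nat.findGreatest P N ≤ N := Nat.findGreatest_le N
  have ht : tt S N b = N - Nat.findGreatest P N := rfl
  constructor
  · have := ext_supp' (BB.comp (HH (tt S N b)) + (HH (tt S N b)).comp BB) LinearMap.id v
      (fun c hc => by
        obtain ⟨k1, k2, k3⟩ := key c hc
        obtain ⟨h1, h2, -⟩ := hv c hc
        obtain ⟨y, l, hyl, rfl⟩ := ends_with c (tt S N b) (by omega) (fun j hj => by
          have := k3 j hj
          omega)
        rw [LinearMap.add_apply, LinearMap.comp_apply, LinearMap.comp_apply, HH_single, BB_single]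
        exact hL_homotopy (tt S N b) y l hyl)
    rw [LinearMap.add_apply, LinearMap.comp_apply, LinearMap.comp_apply, hB, map_zero,
      add_zero] at this
    exact this
  · intro c' hc'
    obtain ⟨c, hc, hcc⟩ := HH_supp _ _ _ hc'
    obtain ⟨k1, k2, k3⟩ := key c hc
    obtain ⟨h1, h2, -⟩ := hv c hc
    obtain ⟨s1, s2, s3⟩ := hL_supp _ c c' hcc
    refine ⟨by omega, by omega, div_D h c' (by omega) b fun j hj => ?_⟩
    rcases (s3 j).1 hj with hj' | hj'
    · exact (hPd c hc j hj').2.2
    · have : j = Nat.findGreatest P N := by omega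
      rw [this]
      exact k2.2

private theorem main_ind (h : BM S N len) (r : ℕ) (hr : r < N + 1) (L : ℕ) :
    ∀ x : List ℕ →₀ MonoidAlgebra ℝ M, (∀ c, x c ≠ 0 → c.length = r ∧ tot c = N + 1) →
      dF (sg1 S) x = 0 → TP S len x L →
      ∃ y : List ℕ →₀ MonoidAlgebra ℝ M, (∀ c, y c ≠ 0 → c.length + 1 = r ∧ tot c = N + 1) ∧
        dF (sg1 S) y = x := by
  classical
  induction L with
  | zero =>
    intro x _ _ hL
    refine ⟨0, fun c hc => absurd rfl hc, ?_⟩
    rw [map_zero]
    ext c u
    by_contra hne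
    exact Nat.not_lt_zero _ (hL c u (Ne.symm hne))
  | succ L ih =>
    intro x hx hd hL
    set T : Finset M := (x.support.biUnion fun c =>
      ((x c).coeff.support.image fun u => u * Dc S c)).filter fun b => len b = L with hT
    have hTm : ∀ c u, (x c).coeff u ≠ 0 → len (u * Dc S c) = L → u * Dc S c ∈ T := by
      intro c u hu hl
      rw [hT, Finset.mem_filter, Finset.mem_biUnion]
      refine ⟨⟨c, ?_, ?_⟩, hl⟩
      · rw [Finsupp.mem_support_iff]
        intro h0
        rw [h0] at hu
        exact hu rfl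
      · exact Finset.mem_image_of_mem _ (Finsupp.mem_support_iff.2 hu)
    have hTl : ∀ b ∈ T, len b = L := fun b hb => (Finset.mem_filter.1 hb).2
    have hsv : ∀ b c, sl S b x c ≠ 0 → c.length = r ∧ tot c = N + 1 ∧ ∃ a, b = a * Dc S c := by
      intro b c hc
      obtain ⟨h1, h2⟩ := sl_ne b x c hc
      have hxc : x c ≠ 0 := by
        intro h0
        rw [h0] at h2
        exact h2 rfl
      exact ⟨(hx c hxc).1, (hx c hxc).2, h1⟩
    have hB : ∀ b, len b = L → BB (sl S b x) = 0 := by
      intro b hb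
      rw [← sl_dF h b x (fun c hc => (hx c hc).2) (by rw [hb]; exact hL), hd, map_zero]
    set v : M → (List ℕ →₀ ℝ) := fun b => HH (tt S N b) (sl S b x) with hv
    have hv1 : ∀ b, len b = L → BB (v b) = sl S b x := fun b hb =>
      (step h b r hr (sl S b x) (hsv b) (hB b hb)).1
    have hv2 : ∀ b, len b = L → ∀ c', v b c' ≠ 0 →
        c'.length + 1 = r ∧ tot c' = N + 1 ∧ ∃ a, b = a * Dc S c' := fun b hb =>
      (step h b r hr (sl S b x) (hsv b) (hB b hb)).2
    set y : List ℕ →₀ MonoidAlgebra ℝ M := ∑ b ∈ T, GG S b (v b) with hy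
    have hy1 : ∀ c, y c ≠ 0 → c.length + 1 = r ∧ tot c = N + 1 := by
      intro c hc
      have : ∃ b ∈ T, GG S b (v b) c ≠ 0 := by
        by_contra hcon
        push Not at hcon
        apply hc
        rw [hy, Finsupp.finsetSum_apply]
        exact Finset.sum_eq_zero hcon
      obtain ⟨b, hb, hbc⟩ := this
      have h1 : v b c ≠ 0 := by
        intro h0
        apply hbc
        rw [GG_apply, h0, MonoidAlgebra.single_zero]
      obtain ⟨h2, h3, -⟩ := hv2 b (hTl b hb) c h1
      exact ⟨h2, h3⟩
    have hy2 : TP S len y (L + 1) := by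
      refine TP_sum S len T _ _ fun b hb => ?_
      refine TP_GG b (v b) (fun c hc => (hv2 b (hTl b hb) c hc).2.2) _ ?_
      rw [hTl b hb]
      exact Nat.lt_succ_self L
    have hy3 : ∀ b', len b' = L → sl S b' y = v b' := by
      intro b' hb'
      rw [hy, map_sum]
      have e : ∀ b ∈ T, sl S b' (GG S b (v b)) = if b = b' then v b' else 0 := by
        intro b hb
        rw [sl_GG h b b' (v b) (fun c hc => (hv2 b (hTl b hb) c hc).2.2)]
        split_ifs with hbb
        · rw [hbb]
        · rfl
      rw [Finset.sum_congr rfl e, Finset.sum_ite_eq']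
      split_ifs with hbT
      · rfl
      · have : sl S b' x = 0 := by
          ext c
          by_contra hne
          obtain ⟨h1, h2⟩ := sl_ne b' x c hne
          have h3 := qq_spec h1
          apply hbT
          rw [h3]
          exact hTm c _ h2 (by rw [← h3]; exact hb')
        rw [hv]
        show 0 = HH (tt S N b') (sl S b' x)
        rw [this, map_zero]
    have htot : ∀ c, y c ≠ 0 → tot c = N + 1 := fun c hc => (hy1 c hc).2
    have hdd : dF (sg1 S) (dF (sg1 S) y) = 0 := by
      refine dF_dF (sg1 S) (N + 1) ?_ y htot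
      obtain ⟨b1, b2⟩ := h.rel
      constructor
      · intro i j h1 h2 h3
        unfold sg1
        rw [MonoidAlgebra.single_mul_single, MonoidAlgebra.single_mul_single, b1 i j h1 h2 h3]
      · intro i h1 h2
        unfold sg1
        rw [MonoidAlgebra.single_mul_single, MonoidAlgebra.single_mul_single,
          MonoidAlgebra.single_mul_single, MonoidAlgebra.single_mul_single, b2 i h1 h2]
    have hdy : ∀ c, dF (sg1 S) y c ≠ 0 → c.length = r ∧ tot c = N + 1 := by
      intro c hc
      rcases Nat.eq_zero_or_pos r with hr0 | hr0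
      · exfalso
        apply hc
        have : y = 0 := by
          ext1 c'
          by_contra hne
          have := (hy1 c' hne).1
          omega
        rw [this, map_zero]
        rfl
      · have := dF_supp (sg1 S) (r - 1) (N + 1) y
          (fun c hc => ⟨by have := (hy1 c hc).1; omega, (hy1 c hc).2⟩) c hc
        exact ⟨by omega, this.2⟩
    have g1 : ∀ c, (x - dF (sg1 S) y) c ≠ 0 → c.length = r ∧ tot c = N + 1 := by
      intro c hc
      by_cases h0 : x c = 0
      · apply hdy
        intro h1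
        apply hc
        rw [Finsupp.sub_apply, h0, h1, sub_zero]
      · exact hx c h0
    have g2 : dF (sg1 S) (x - dF (sg1 S) y) = 0 := by
      rw [map_sub, hd, hdd, sub_zero]
    have g3 : TP S len (x - dF (sg1 S) y) L := by
      have h1 : TP S len (x - dF (sg1 S) y) (L + 1) := by
        rw [sub_eq_add_neg]
        exact TP_add S len _ _ _ hL (TP_neg S len _ _ (TP_dF h y htot _ hy2))
      intro c u hu
      have h2 := h1 c u hu
      by_contra hcon
      have h3 : len (u * Dc S c) = L := by omega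
      have h4 : sl S (u * Dc S c) (x - dF (sg1 S) y) = 0 := by
        rw [map_sub, sl_dF h _ y htot (by rw [h3]; exact hy2), hy3 _ h3, hv1 _ h3, sub_self]
      have h5 : sl S (u * Dc S c) (x - dF (sg1 S) y) c = ((x - dF (sg1 S) y) c).coeff u := by
        rw [sl_apply]
        unfold evC
        rw [if_pos ⟨u, rfl⟩, cf_apply, qq_eq h]
      rw [h4] at h5
      exact hu h5.symm
    obtain ⟨y', hy', hdy'⟩ := ih (x - dF (sg1 S) y) g1 g2 g3
    refine ⟨y' + y, ?_, ?_⟩
    · intro c hc
      by_cases h0 : y c = 0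
      · apply hy'
        intro h1
        apply hc
        rw [Finsupp.add_apply, h0, h1, add_zero]
      · exact hy1 c h0
    · rw [map_add, hdy', sub_add_cancel]

end Aux

theorem exact_F {M : Type} [Monoid M] {S : ℕ → M} {N : ℕ} {len : M → ℕ} (h : BM S N len)
    (r : ℕ) (hr : r < N + 1) (x : List ℕ →₀ MonoidAlgebra ℝ M)
    (hx : ∀ c, x c ≠ 0 → c.length = r ∧ tot c = N + 1) (hd : dF (sg1 S) x = 0) :
    ∃ y : List ℕ →₀ MonoidAlgebra ℝ M, (∀ c, y c ≠ 0 → c.length + 1 = r ∧ tot c = N + 1) ∧
      dF (sg1 S) y = x := by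
  classical
  refine main_ind h r hr ((x.support.biUnion fun c =>
      ((x c).coeff.support.image fun u => u * Dc S c)).sup len + 1) x hx hd ?_
  intro c u hu
  rw [Nat.lt_succ_iff]
  refine Finset.le_sup (f := len) ?_
  rw [Finset.mem_biUnion]
  refine ⟨c, ?_, ?_⟩
  · rw [Finsupp.mem_support_iff]
    intro h0
    rw [h0] at hu
    exact hu rfl
  · exact Finset.mem_image_of_mem _ (Finsupp.mem_support_iff.2 hu)

end BrV
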