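import Pool.Agent.Lib.BrV.CEmb
import Pool.Agent.Lib.BrV.CExact
import Pool.Agent.Lib.BrV.CAug

/-!
# BrV.CGrp: the Salvetti complex of the braid group is exact (9.6)

`f = MonoidAlgebra.mapDomainRingHom ℝ (toG N)` (or `mapDomainAlgHom`): `MonoidAlgebra ℝ (BMon N) →+* MonoidAlgebra ℝ (Braid N)`, injective (`toG_inj`), `f (sg1 (Sm N) i) = sg1 (sG N) i` (`toG_S`), `eps (f x) = eps x`.
For a finitely supported `x : List ℕ →₀ MonoidAlgebra ℝ (Braid N)` there is `m` such that all coefficients of `u • x`, `u = single (toG z ^ m) 1`, are in the image of `f` (`toG_frac`: for `g` with exponent `m_g ≤ m`: `z^m g = z^(m - m_g) a_g`); `u` is a unit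
(inverse `single ((toG z ^ m)⁻¹) 1`), `dF` is left linear.  `exact_G`: `u • x = f x1`, `f (dF x1) = dF (f x1) = u • dF x = 0` (`dF_map`), `dF x1 = 0`, `exact_F` (`bmon_BM N`): `x1 = dF y1`, `x = dF (u⁻¹ • f y1)`.
`aug_G`: the same with `aug_F` (`eps (u * x) = eps x`).
-/

namespace BrV

open Finsupp Pool.Agent.Lib.BrSym

private noncomputable def fR (N : ℕ) : MonoidAlgebra ℝ (BMon N) →+* MonoidAlgebra ℝ (Braid N) :=
  MonoidAlgebra.mapDomainRingHom ℝ (toG N)

private theorem fR_single (N : ℕ) (a : BMon N) (r : ℝ) :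
    fR N (MonoidAlgebra.single a r) = MonoidAlgebra.single (toG N a) r := by
  simp [fR]

private theorem fR_inj (N : ℕ) : Function.Injective (fR N) :=
  MonoidAlgebra.mapDomain_injective (toG_inj N)

private theorem fR_sg1 (N : ℕ) : (fun i => fR N (sg1 (Sm N) i)) = sg1 (sG N) := by
  funext i
  unfold sg1
  rw [fR_single, toG_S]

private theorem eps_fR (N : ℕ) (p : MonoidAlgebra ℝ (BMon N)) : eps (fR N p) = eps p := by
  induction p using MonoidAlgebra.induction_linear with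
  | zero => rw [map_zero]; simp [eps]
  | add x y hx hy => rw [map_add, eps_add, eps_add, hx, hy]
  | single a r => rw [fR_single, eps_single, eps_single]

private theorem clear1 (N : ℕ) (z : BMon N)
    (hz : ∀ g : Braid N, ∃ (m : ℕ) (a : BMon N), toG N z ^ m * g = toG N a)
    (q : MonoidAlgebra ℝ (Braid N)) : ∃ m0 : ℕ, ∀ m, m0 ≤ m →
      ∃ p, fR N p = MonoidAlgebra.single (toG N z ^ m) 1 * q := by
  induction q using MonoidAlgebra.induction_linear with
  | zero => exact ⟨0, fun m _ => ⟨0, by rw [map_zero, mul_zero]⟩⟩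
  | add x y hx hy =>
    obtain ⟨m1, h1⟩ := hx
    obtain ⟨m2, h2⟩ := hy
    refine ⟨max m1 m2, fun m hm => ?_⟩
    obtain ⟨p1, hp1⟩ := h1 m (le_trans (le_max_left _ _) hm)
    obtain ⟨p2, hp2⟩ := h2 m (le_trans (le_max_right _ _) hm)
    exact ⟨p1 + p2, by rw [map_add, hp1, hp2, mul_add]⟩
  | single g r =>
    obtain ⟨m1, a, ha⟩ := hz g
    refine ⟨m1, fun m hm => ⟨MonoidAlgebra.single (z ^ (m - m1) * a) r, ?_⟩⟩
    rw [fR_single, MonoidAlgebra.single_mul_single, one_mul, map_mul, map_pow, ← ha, ← mul_assoc,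
      ← pow_add, Nat.sub_add_cancel hm]

private theorem clear2 (N : ℕ) (z : BMon N)
    (hz : ∀ g : Braid N, ∃ (m : ℕ) (a : BMon N), toG N z ^ m * g = toG N a)
    (x : List ℕ →₀ MonoidAlgebra ℝ (Braid N)) : ∃ m0 : ℕ, ∀ m, m0 ≤ m →
      ∃ x1 : List ℕ →₀ MonoidAlgebra ℝ (BMon N), x1.mapRange (fR N) (map_zero _) =
        (MonoidAlgebra.single (toG N z ^ m) (1 : ℝ) : MonoidAlgebra ℝ (Braid N)) • x := by
  induction x using Finsupp.induction_linear with
  | zero => exact ⟨0, fun m _ => ⟨0, by simp⟩⟩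
  | add x y hx hy =>
    obtain ⟨m1, h1⟩ := hx
    obtain ⟨m2, h2⟩ := hy
    refine ⟨max m1 m2, fun m hm => ?_⟩
    obtain ⟨p1, hp1⟩ := h1 m (le_trans (le_max_left _ _) hm)
    obtain ⟨p2, hp2⟩ := h2 m (le_trans (le_max_right _ _) hm)
    refine ⟨p1 + p2, ?_⟩
    rw [Finsupp.mapRange_add (fun a b => map_add (fR N) a b), hp1, hp2, smul_add]
  | single c q =>
    obtain ⟨m1, h1⟩ := clear1 N z hz q
    refine ⟨m1, fun m hm => ?_⟩
    obtain ⟨p, hp⟩ := h1 m hm
    refine ⟨single c p, ?_⟩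
    rw [Finsupp.mapRange_single, hp, Finsupp.smul_single, smul_eq_mul]

private theorem uinv (N : ℕ) (g : Braid N) :
    (MonoidAlgebra.single g⁻¹ (1 : ℝ) : MonoidAlgebra ℝ (Braid N)) * MonoidAlgebra.single g 1 = 1 := by
  rw [MonoidAlgebra.single_mul_single, inv_mul_cancel, one_mul]
  rfl

private theorem dF_fR (N : ℕ) (y : List ℕ →₀ MonoidAlgebra ℝ (BMon N)) :
    dF (sg1 (sG N)) (y.mapRange (fR N) (map_zero _)) =
      (dF (sg1 (Sm N)) y).mapRange (fR N) (map_zero _) := by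
  rw [dF_map, fR_sg1]

theorem exact_G (N r : ℕ) (hr : r < N + 1) (x : List ℕ →₀ MonoidAlgebra ℝ (Braid N))
    (hx : ∀ c, x c ≠ 0 → c.length = r ∧ tot c = N + 1) (hd : dF (sg1 (sG N)) x = 0) :
    ∃ y : List ℕ →₀ MonoidAlgebra ℝ (Braid N),
      (∀ c, y c ≠ 0 → c.length + 1 = r ∧ tot c = N + 1) ∧ dF (sg1 (sG N)) y = x := by
  obtain ⟨z, -, hz⟩ := toG_frac N
  obtain ⟨m, hm⟩ := clear2 N z hz x
  obtain ⟨x1, hx1⟩ := hm m le_rfl
  have hs : ∀ c, x1 c ≠ 0 → c.length = r ∧ tot c = N + 1 := by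
    intro c hc
    refine hx c fun h0 => hc ?_
    have h1 := DFunLike.congr_fun hx1 c
    rw [Finsupp.mapRange_apply, Finsupp.smul_apply, h0, smul_zero] at h1
    exact fR_inj N (by rw [h1, map_zero])
  have hd1 : dF (sg1 (Sm N)) x1 = 0 := by
    apply Finsupp.mapRange_injective (fR N) (map_zero _) (fR_inj N)
    rw [← dF_fR, hx1, map_smul, hd, smul_zero]
    simp
  obtain ⟨y1, hy1, hy2⟩ := exact_F (bmon_BM N) r hr x1 hs hd1
  refine ⟨(MonoidAlgebra.single (toG N z ^ m)⁻¹ (1 : ℝ) : MonoidAlgebra ℝ (Braid N)) •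
    y1.mapRange (fR N) (map_zero _), ?_, ?_⟩
  · intro c hc
    refine hy1 c fun h0 => hc ?_
    rw [Finsupp.smul_apply, Finsupp.mapRange_apply, h0, map_zero, smul_zero]
  · rw [map_smul, dF_fR, hy2, hx1, smul_smul, uinv, one_smul]

theorem aug_G (N : ℕ) (x : MonoidAlgebra ℝ (Braid N)) (hx : eps x = 0) :
    ∃ y : List ℕ →₀ MonoidAlgebra ℝ (Braid N),
      (∀ c, y c ≠ 0 → c.length = N ∧ tot c = N + 1) ∧
        dF (sg1 (sG N)) y = single (List.replicate (N + 1) 0) x := by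
  obtain ⟨z, -, hz⟩ := toG_frac N
  obtain ⟨m, hm⟩ := clear1 N z hz x
  obtain ⟨p, hp⟩ := hm m le_rfl
  have hp0 : eps p = 0 := by
    rw [← eps_fR, hp, eps_mul, hx, mul_zero]
  obtain ⟨y1, hy1, hy2⟩ := aug_F (bmon_BM N) p hp0
  refine ⟨(MonoidAlgebra.single (toG N z ^ m)⁻¹ (1 : ℝ) : MonoidAlgebra ℝ (Braid N)) •
    y1.mapRange (fR N) (map_zero _), ?_, ?_⟩
  · intro c hc
    refine hy1 c fun h0 => hc ?_
    rw [Finsupp.smul_apply, Finsupp.mapRange_apply, h0, map_zero, smul_zero]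
  · rw [map_smul, dF_fR, hy2, Finsupp.mapRange_single, hp, Finsupp.smul_single, smul_eq_mul,
      ← mul_assoc, uinv, one_mul]

end BrV
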