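import Pool.Agent.Lib.BrV.CRDefs
import Pool.Agent.Lib.BrV.CGrp

/-!
# BrV.CFinA: the Salvetti complex as a free resolution in `Rep ℝ (Braid N)`

`ext_dG`: both sides are additive in `x`; for `x = single c (single g t)`: `(dG N i).hom x = t • ρ(g) (f c)`, where `ρ(g)` multiplies all coefficients by `single g 1` on the left (`Representation.freeLift`, `Representation.free`),
and `dF (single c.1 (single g t)) = single g t • bE c.1` (`dF_single`); `bE c.1` is supported on compositions in the range of `Subtype.val` (`bE_supp`: length `+ 1`, same `tot`), so `extG (subtypeDomain ..) = bE c.1`.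
`extG` is injective with image the elements supported on `Cp N i`.
`dG_dG`: `dF_dF` with `BRel (sg1 (sG N)) 0 (N+1)` (from `sG_rel`).  `dG_exact`: `exact_G` with `r = N + 1 - (i + 1)`; if `i + 1 > N + 1` the type `Cp N (i+1)` is empty.
`Cp N 0` has the single element `replicate (N+1) 0`; `epsG (single c x) = eps x`; `eps_exact`: `aug_G`; `dG_eps`: `aug_F0`.
-/

namespace BrV

open CategoryTheory Finsupp Pool.Agent.Lib.BrSym

private theorem extG_apply (N i : ℕ) (x : Cp N i →₀ MonoidAlgebra ℝ (Braid N)) (c : Cp N i) :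
    extG N i x c.1 = x c :=
  Finsupp.mapDomain_apply Subtype.val_injective x c

private theorem extG_not (N i : ℕ) (x : Cp N i →₀ MonoidAlgebra ℝ (Braid N)) (c : List ℕ)
    (h : ¬ (c.length + i = N + 1 ∧ tot c = N + 1)) : extG N i x c = 0 := by
  refine Finsupp.mapDomain_of_notMem_range x c ?_
  rintro ⟨c', rfl⟩
  exact h c'.2

private theorem extG_single (N i : ℕ) (c : Cp N i) (a : MonoidAlgebra ℝ (Braid N)) :
    extG N i (single c a) = single c.1 a := by
  unfold extG
  rw [Finsupp.lmapDomain_apply, Finsupp.mapDomain_single]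

theorem extG_inj (N i : ℕ) : Function.Injective (extG N i) := by
  intro x y h
  ext1 c
  rw [← extG_apply N i x c, ← extG_apply N i y c, h]

theorem extG_supp (N i : ℕ) (x : Cp N i →₀ MonoidAlgebra ℝ (Braid N)) :
    ∀ c, extG N i x c ≠ 0 → c.length + i = N + 1 ∧ tot c = N + 1 := by
  intro c hc
  by_contra h
  exact hc (extG_not N i x c h)

private theorem extG_sub (N i : ℕ) (y : List ℕ →₀ MonoidAlgebra ℝ (Braid N))
    (hy : ∀ c, y c ≠ 0 → c.length + i = N + 1 ∧ tot c = N + 1) :
    extG N i (Finsupp.subtypeDomain (fun c : List ℕ => c.length + i = N + 1 ∧ tot c = N + 1) y) =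
      y := by
  ext1 c
  by_cases h : c.length + i = N + 1 ∧ tot c = N + 1
  · exact extG_apply N i _ ⟨c, h⟩
  · rw [extG_not N i _ c h]
    by_contra h2
    exact h (hy c (Ne.symm h2))

theorem extG_surj (N i : ℕ) (y : List ℕ →₀ MonoidAlgebra ℝ (Braid N))
    (hy : ∀ c, y c ≠ 0 → c.length + i = N + 1 ∧ tot c = N + 1) : ∃ x, extG N i x = y :=
  ⟨_, extG_sub N i y hy⟩

private theorem lreg_apply {G : Type} [Group G] (g : G) (x : MonoidAlgebra ℝ G) :
    Representation.leftRegular ℝ G g x = MonoidAlgebra.single g 1 * x := by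
  ext h
  simp [MonoidAlgebra.coeff_single_mul_apply]

private theorem extG_rho (N i : ℕ) (g : Braid N) (x : Cp N i →₀ MonoidAlgebra ℝ (Braid N)) :
    extG N i (Representation.free ℝ (Braid N) (Cp N i) g x) =
      (MonoidAlgebra.single g 1 : MonoidAlgebra ℝ (Braid N)) • extG N i x := by
  induction x using Finsupp.induction_linear with
  | zero => rw [map_zero, map_zero, smul_zero]
  | add x y hx hy => rw [map_add, map_add, hx, hy, map_add, smul_add]
  | single c a =>
    rw [Representation.finsupp_single, extG_single, extG_single, lreg_apply, smul_single,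
      smul_eq_mul]

private theorem bE_eq {A : Type} [Ring A] (S : ℕ → A) (c : List ℕ) :
    bE S c = dF S (single c 1) := by
  rw [dF_single, one_smul]

private theorem bE_supp' {A : Type} [Ring A] (S : ℕ → A) (c : List ℕ) (c' : List ℕ)
    (h : bE S c c' ≠ 0) : c'.length = c.length + 1 ∧ tot c' = tot c := by
  rw [bE_eq] at h
  refine dF_supp S c.length (tot c) _ ?_ c' h
  intro d hd
  by_cases h1 : d = c
  · rw [h1]
    exact ⟨rfl, rfl⟩
  · exact absurd (single_eq_of_ne h1) hd

private theorem fl_single {G α : Type} [Group G] (A : Rep.{0} ℝ G) (f : α → A) (c : α) (g : G)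
    (t : ℝ) : (Rep.freeLift ℝ G A f).hom (single c (MonoidAlgebra.single g t)) =
      t • A.ρ g (f c) :=
  Representation.freeLift_single_single A.ρ c g t f

private theorem dG_single (N i : ℕ) (c : Cp N (i + 1)) (g : Braid N) (t : ℝ) :
    (dG N i).hom (single c (MonoidAlgebra.single g t)) = t •
      Representation.free ℝ (Braid N) (Cp N i) g
        (Finsupp.subtypeDomain (fun c : List ℕ => c.length + i = N + 1 ∧ tot c = N + 1)
          (bE (sg1 (sG N)) c.1)) := by
  unfold dG
  exact fl_single _ _ c g t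

private theorem ext_single (N i : ℕ) (c : Cp N (i + 1)) (g : Braid N) (t : ℝ) :
    extG N i ((dG N i).hom (single c (MonoidAlgebra.single g t))) =
      dF (sg1 (sG N)) (single c.1 (MonoidAlgebra.single g t)) := by
  rw [dG_single, map_smul, extG_rho, extG_sub]
  · rw [dF_single, ← smul_assoc, MonoidAlgebra.smul_single, smul_eq_mul, mul_one]
  · intro d hd
    obtain ⟨h2, h3⟩ := bE_supp' _ _ _ hd
    have h4 := c.2
    omega

private noncomputable def L1 (N i : ℕ) : (Cp N (i + 1) →₀ MonoidAlgebra ℝ (Braid N)) →ₗ[ℝ]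
    (List ℕ →₀ MonoidAlgebra ℝ (Braid N)) := extG N i ∘ₗ (dG N i).hom.toLinearMap

private noncomputable def L2 (N i : ℕ) : (Cp N (i + 1) →₀ MonoidAlgebra ℝ (Braid N)) →ₗ[ℝ]
    (List ℕ →₀ MonoidAlgebra ℝ (Braid N)) :=
  (dF (sg1 (sG N))).restrictScalars ℝ ∘ₗ extG N (i + 1)

private theorem L1_eq (N i : ℕ) : L1 N i = L2 N i := by
  refine Finsupp.lhom_ext fun c a => ?_
  induction a using MonoidAlgebra.induction_linear with
  | zero => rw [single_zero, map_zero, map_zero]
  | add a b ha hb => rw [single_add, map_add, map_add, ha, hb]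
  | single g t =>
    refine (ext_single N i c g t).trans ?_
    change _ = dF (sg1 (sG N)) (extG N (i + 1) (single c (MonoidAlgebra.single g t)))
    rw [extG_single]

theorem ext_dG (N i : ℕ) (x : Rep.free ℝ (Braid N) (Cp N (i + 1))) :
    extG N i ((dG N i).hom x) = dF (sg1 (sG N)) (extG N (i + 1) x) :=
  LinearMap.congr_fun (L1_eq N i) x

private theorem sg1_rel (N : ℕ) : BRel (sg1 (sG N)) 0 (N + 1) := by
  obtain ⟨h1, h2⟩ := sG_rel N
  constructor
  · intro i j hi hij hj
    simp only [sg1, MonoidAlgebra.single_mul_single]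
    rw [h1 i j hi hij hj]
  · intro i hi hj
    simp only [sg1, MonoidAlgebra.single_mul_single]
    rw [h2 i hi hj]

theorem dG_dG (N i : ℕ) : dG N (i + 1) ≫ dG N i = 0 := by
  refine Rep.free_ext ℝ (Braid N) _ _ _ fun c => ?_
  apply extG_inj N i
  generalize (single c (MonoidAlgebra.single 1 1) :
    Cp N (i + 1 + 1) →₀ MonoidAlgebra ℝ (Braid N)) = x
  change extG N i ((dG N i).hom ((dG N (i + 1)).hom x)) = extG N i 0
  rw [ext_dG, ext_dG, map_zero]
  exact dF_dF _ (N + 1) (sg1_rel N) _ fun c hc => (extG_supp N _ x c hc).2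

theorem dG_exact (N i : ℕ) (x : Rep.free ℝ (Braid N) (Cp N (i + 1)))
    (hx : (dG N i).hom x = 0) : ∃ y, (dG N (i + 1)).hom y = x := by
  have h1 : dF (sg1 (sG N)) (extG N (i + 1) x) = 0 := by
    rw [← ext_dG, hx]
    exact map_zero (extG N i)
  by_cases hi : i + 1 ≤ N + 1
  · obtain ⟨y, hy1, hy2⟩ := exact_G N (N - i) (by omega) (extG N (i + 1) x)
      (fun c hc => by
        have := extG_supp N _ x c hc
        omega) h1
    obtain ⟨z, hz⟩ := extG_surj N (i + 1 + 1) y (fun c hc => by
      have := hy1 c hc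
      omega)
    refine ⟨z, ?_⟩
    apply extG_inj N (i + 1)
    rw [ext_dG, hz, hy2]
  · refine ⟨0, ?_⟩
    apply extG_inj N (i + 1)
    ext1 c
    rw [extG_not, extG_not]
    · omega
    · omega

private theorem tot_cons (a : ℕ) (l : List ℕ) : tot (a :: l) = a + 1 + tot l := by
  simp [tot]

private theorem tot_ge (c : List ℕ) : c.length ≤ tot c := by
  induction c with
  | nil => simp [tot]
  | cons a l ih => rw [tot_cons]; simp only [List.length_cons]; omega

private theorem eq_rep (c : List ℕ) (h : tot c = c.length) : c = List.replicate c.length 0 := by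
  induction c with
  | nil => rfl
  | cons a l ih =>
    rw [tot_cons] at h
    simp only [List.length_cons] at h ⊢
    have := tot_ge l
    have ha : a = 0 := by omega
    rw [List.replicate_succ, ← ih (by omega), ha]

private def c0 (N : ℕ) : Cp N 0 := ⟨List.replicate (N + 1) 0, by simp [tot]⟩

private theorem eq_c0 (N : ℕ) (c : Cp N 0) : c = c0 N := by
  apply Subtype.ext
  have h := c.2
  have h1 := eq_rep c.1 (by omega)
  rw [h1]
  have h2 : c.1.length = N + 1 := by omega
  rw [h2]
  rfl

private theorem eq_single (N : ℕ) (x : Cp N 0 →₀ MonoidAlgebra ℝ (Braid N)) :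
    x = single (c0 N) (x (c0 N)) := by
  ext1 c
  rw [eq_c0 N c, single_eq_same]

private noncomputable def E1 (N : ℕ) : (Cp N 0 →₀ MonoidAlgebra ℝ (Braid N)) →ₗ[ℝ] ℝ :=
  (epsG N).hom.toLinearMap

private theorem eps_zero {M : Type} : eps (0 : MonoidAlgebra ℝ M) = 0 := by
  simp [eps]

private theorem E1_single (N : ℕ) (c : Cp N 0) (a : MonoidAlgebra ℝ (Braid N)) :
    E1 N (single c a) = eps a := by
  induction a using MonoidAlgebra.induction_linear with
  | zero => rw [single_zero, map_zero, eps_zero]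
  | add a b ha hb => rw [single_add, map_add, eps_add, ha, hb]
  | single g t =>
    have h1 : (epsG N).hom (single c (MonoidAlgebra.single g t)) =
        t • (Rep.trivial ℝ (Braid N) ℝ).ρ g (1 : ℝ) :=
      Representation.freeLift_single_single _ c g t _
    rw [eps_single]
    refine Eq.trans h1 ?_
    change t • (1 : ℝ) = t
    simp

private theorem E1_eq (N : ℕ) (x : Cp N 0 →₀ MonoidAlgebra ℝ (Braid N)) :
    E1 N x = eps (x (c0 N)) := by
  rw [eq_single N x, E1_single, single_eq_same]

theorem dG_eps (N : ℕ) : dG N 0 ≫ epsG N = 0 := by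
  refine Rep.free_ext ℝ (Braid N) _ _ _ fun c => ?_
  generalize (single c (MonoidAlgebra.single 1 1) :
    Cp N (0 + 1) →₀ MonoidAlgebra ℝ (Braid N)) = x
  change E1 N ((dG N 0).hom x) = 0
  rw [E1_eq]
  obtain ⟨q, hq, hq2⟩ := aug_F0 (sG N) N (extG N 1 x) (fun c hc => by
    have := extG_supp N _ x c hc
    omega)
  have h1 := ext_dG N 0 x
  rw [hq2] at h1
  have h2 := DFunLike.congr_fun h1 (c0 N).1
  rw [extG_apply] at h2
  refine (congrArg eps h2).trans ?_
  change eps (single (List.replicate (N + 1) 0) q (List.replicate (N + 1) 0)) = 0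
  rw [single_eq_same, hq]

theorem eps_surj (N : ℕ) : Function.Surjective (epsG N).hom := by
  intro t
  refine ⟨single (c0 N) (MonoidAlgebra.single 1 t), ?_⟩
  exact (E1_single N (c0 N) (MonoidAlgebra.single 1 t)).trans (eps_single _ _)

theorem eps_exact (N : ℕ) (x : Rep.free ℝ (Braid N) (Cp N 0)) (hx : (epsG N).hom x = 0) :
    ∃ y, (dG N 0).hom y = x := by
  have h1 : E1 N x = 0 := hx
  rw [E1_eq] at h1
  obtain ⟨y, hy1, hy2⟩ := aug_G N _ h1
  obtain ⟨z, hz⟩ := extG_surj N 1 y (fun c hc => by
      have := hy1 c hc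
      omega)
  refine ⟨z, ?_⟩
  apply extG_inj N 0
  refine (ext_dG N 0 z).trans ?_
  rw [hz, hy2]
  conv_rhs => rw [eq_single N x]
  rw [extG_single]
  rfl

end BrV
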