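import Pool.Agent.Lib.BrV.CFinA

/-!
# BrV.CFinB: cohomology of the braid group with coefficients in `A` is the homology of `Sal(A)`

`S = opS A`.  For `i ≤ N + 1`, `r + i = N + 1`: `Φ_i : (free (Cp N i) ⟶ A) ≃ₗ {x // IsS ⊤ r (N+1) x}`, `f ↦ x`, `x c = f (single c (single 1 1))` for `c ∈ Cp N i`, `0` else (`Rep.freeLiftLEquiv`, `Cp N i` is finite).
`dual`: for `f : free (Cp N i) ⟶ A` and `c ∈ Cp N (i+1)`: `(dG N i ≫ f) (e_c) = f (bE (sg1 (sG N)) c) = ∑_l ρ~(bE (sg1 (sG N)) c l) (x l)`, `ρ~ = A.ρ.asAlgebraHom`, and `ρ~ (bE (sg1 (sG N)) c l) = bE S c l` (`Qe_map`, induction on the list as in `dF_map`;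
`ρ~ (sg1 (sG N) j) = opS A j`), `bE S c l (x l) = mgS S l (x l) c` (`sal_dual`), so it is `sal S x c`.  Hence `Φ_(i+1) (preL (f)) = sal S (Φ_i f)`.
`coh_iso`: `i = j + 1`: `res_iso_succ`, kernel corresponds to `SalZ S ⊤ r (N+1)`, range of `preL j` to `SalB S ⊤ r (N+1)`.  `i = 0`: `res_iso_zero`; `SalB S ⊤ (N+1) (N+1) = 0` because a composition of `N + 1` has at most `N + 1` parts.
(`i + 1 = N + 2` can occur in the kernel condition: `Cp N (N+2)` is empty, and `sal S x = 0` for `r = 0`: `SalZ` is everything, both fine; for `r = 0` everything is `0` since `tot [] = 0`.)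
-/

namespace BrV

open CategoryTheory Finsupp Pool.Agent.Lib.BrSym

private theorem mem_tot (c : List ℕ) : ∀ a ∈ c, a + 1 ≤ tot c := by
  induction c with
  | nil => simp
  | cons b l ih =>
    intro a ha
    have h1 : tot (b :: l) = b + 1 + tot l := by simp [tot]
    rcases List.mem_cons.1 ha with rfl | h
    · omega
    · have := ih a h
      omega

private theorem len_tot (c : List ℕ) : c.length ≤ tot c := by
  induction c with
  | nil => simp
  | cons b l ih =>
    have h1 : tot (b :: l) = b + 1 + tot l := by simp [tot]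
    rw [List.length_cons]
    omega

private theorem finite_set (N i : ℕ) :
    {c : List ℕ | c.length + i = N + 1 ∧ tot c = N + 1}.Finite := by
  have h1 : {l : List (Fin (N + 2)) | l.length ≤ N + 1}.Finite := List.finite_length_le _ _
  refine (h1.image (List.map Fin.val)).subset ?_
  rintro c ⟨hc1, hc2⟩
  have h2 : ∀ a ∈ c, a < N + 2 := by
    intro a ha
    have := mem_tot c a ha
    omega
  obtain ⟨l, hl⟩ := CanLift.prf (β := List (Fin (N + 2))) c h2
  refine ⟨l, ?_, hl⟩
  have : l.length = c.length := by rw [← hl, List.length_map]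
  rw [Set.mem_ofPred_eq]
  omega

/-- a family of vectors as a chain -/
private noncomputable def tX {M : Type} [AddCommGroup M] (N i : ℕ) (F : Cp N i → M) :
    List ℕ →₀ M :=
  Finsupp.ofSupportFinite
    (fun c => if h : c.length + i = N + 1 ∧ tot c = N + 1 then F ⟨c, h⟩ else 0) (by
      refine (finite_set N i).subset ?_
      intro c hc
      by_contra h
      exact hc (dif_neg h))

private theorem tX_pos {M : Type} [AddCommGroup M] (N i : ℕ) (F : Cp N i → M) (c : Cp N i) :
    tX N i F c.1 = F c := by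
  change (if h : c.1.length + i = N + 1 ∧ tot c.1 = N + 1 then F ⟨c.1, h⟩ else 0) = F c
  rw [dif_pos c.2]

private theorem tX_neg {M : Type} [AddCommGroup M] (N i : ℕ) (F : Cp N i → M) (c : List ℕ)
    (h : ¬ (c.length + i = N + 1 ∧ tot c = N + 1)) : tX N i F c = 0 := by
  change (if h : c.length + i = N + 1 ∧ tot c = N + 1 then F ⟨c, h⟩ else 0) = 0
  rw [dif_neg h]

private theorem tX_ext {M : Type} [AddCommGroup M] {N i : ℕ} {F : Cp N i → M} {x : List ℕ →₀ M}
    (h1 : ∀ c : Cp N i, F c = x c.1)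
    (h2 : ∀ c, ¬ (c.length + i = N + 1 ∧ tot c = N + 1) → x c = 0) : tX N i F = x := by
  ext1 c
  by_cases h : c.length + i = N + 1 ∧ tot c = N + 1
  · rw [tX_pos N i F ⟨c, h⟩, h1]
  · rw [tX_neg N i F c h, h2 c h]

private noncomputable def tXL {M : Type} [AddCommGroup M] [Module ℝ M] (N i : ℕ) :
    (Cp N i → M) →ₗ[ℝ] (List ℕ →₀ M) where
  toFun := tX N i
  map_add' F G := by
    refine tX_ext (fun c => ?_) (fun c h => ?_)
    · rw [Finsupp.add_apply, tX_pos, tX_pos, Pi.add_apply]
    · rw [Finsupp.add_apply, tX_neg _ _ _ _ h, tX_neg _ _ _ _ h, add_zero]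
  map_smul' a F := by
    refine tX_ext (fun c => ?_) (fun c h => ?_)
    · rw [Finsupp.smul_apply, tX_pos, Pi.smul_apply, RingHom.id_apply]
    · rw [Finsupp.smul_apply, tX_neg _ _ _ _ h, smul_zero]

/-- the chain of a homomorphism -/
private noncomputable def PhC (N i : ℕ) (A : Rep.{0} ℝ (Braid N)) :
    (Rep.free ℝ (Braid N) (Cp N i) ⟶ A) →ₗ[ℝ] (List ℕ →₀ A) :=
  tXL N i ∘ₗ (Rep.freeLiftLEquiv ℝ (Braid N) (Cp N i) A).toLinearMap

private theorem Ph_pos (N i : ℕ) (A : Rep.{0} ℝ (Braid N))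
    (f : Rep.free ℝ (Braid N) (Cp N i) ⟶ A) (c : Cp N i) :
    PhC N i A f c.1 = f.hom (single c (MonoidAlgebra.single 1 1)) :=
  tX_pos N i _ c

private theorem Ph_neg (N i : ℕ) (A : Rep.{0} ℝ (Braid N))
    (f : Rep.free ℝ (Braid N) (Cp N i) ⟶ A) (c : List ℕ)
    (h : ¬ (c.length + i = N + 1 ∧ tot c = N + 1)) : PhC N i A f c = 0 :=
  tX_neg N i _ c h

private theorem Ph_inj (N i : ℕ) (A : Rep.{0} ℝ (Braid N)) : Function.Injective (PhC N i A) := by
  intro f g h
  apply (Rep.freeLiftLEquiv ℝ (Braid N) (Cp N i) A).injective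
  funext c
  have h1 := Ph_pos N i A f c
  rw [h, Ph_pos] at h1
  exact h1.symm

private theorem Ph_surj (N i : ℕ) (A : Rep.{0} ℝ (Braid N)) (x : List ℕ →₀ A)
    (hx : ∀ c, x c ≠ 0 → c.length + i = N + 1 ∧ tot c = N + 1) : ∃ f, PhC N i A f = x := by
  refine ⟨(Rep.freeLiftLEquiv ℝ (Braid N) (Cp N i) A).symm fun c => x c.1, ?_⟩
  change tX N i ((Rep.freeLiftLEquiv ℝ (Braid N) (Cp N i) A)
    ((Rep.freeLiftLEquiv ℝ (Braid N) (Cp N i) A).symm fun c => x c.1)) = x
  rw [LinearEquiv.apply_symm_apply]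
  refine tX_ext (fun c => rfl) (fun c h => ?_)
  by_contra hne
  exact h (hx c hne)

private theorem Ph_IsS (N i r : ℕ) (h : r + i = N + 1) (A : Rep.{0} ℝ (Braid N))
    (f : Rep.free ℝ (Braid N) (Cp N i) ⟶ A) : IsS (⊤ : Submodule ℝ A) r (N + 1) (PhC N i A f) := by
  refine ⟨fun l hl => ?_, fun l => Submodule.mem_top⟩
  by_contra hne
  refine hl (Ph_neg N i A f l ?_)
  omega

/-- evaluation of a homomorphism at an arbitrary element -/
private theorem hom_eval {N : ℕ} {α : Type} (A : Rep.{0} ℝ (Braid N))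
    (f : Rep.free ℝ (Braid N) α ⟶ A) (y : α →₀ MonoidAlgebra ℝ (Braid N)) :
    f.hom y = y.sum fun l a => A.ρ.asAlgebraHom a (f.hom (single l (MonoidAlgebra.single 1 1))) := by
  induction y using Finsupp.induction_linear with
  | zero =>
    rw [Finsupp.sum_zero_index]
    exact map_zero f.hom
  | add y z hy hz =>
    rw [Finsupp.sum_add_index' (fun l => by rw [map_zero, LinearMap.zero_apply])
      (fun l a b => by rw [map_add, LinearMap.add_apply]), ← hy, ← hz]
    exact map_add f.hom y z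
  | single l a =>
    rw [Finsupp.sum_single_index (by rw [map_zero, LinearMap.zero_apply])]
    induction a using MonoidAlgebra.induction_linear with
    | zero =>
      have e1 : f.hom (single l (0 : MonoidAlgebra ℝ (Braid N))) = 0 := by
        rw [Finsupp.single_zero]
        exact map_zero f.hom
      have e2 : A.ρ.asAlgebraHom (0 : MonoidAlgebra ℝ (Braid N)) = 0 := map_zero _
      rw [e1, e2]
      rfl
    | add a b ha hb =>
      have e1 : f.hom (single l (a + b)) = f.hom (single l a) + f.hom (single l b) := by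
        rw [Finsupp.single_add]
        exact map_add f.hom _ _
      have e2 : A.ρ.asAlgebraHom (a + b) = A.ρ.asAlgebraHom a + A.ρ.asAlgebraHom b :=
        map_add _ _ _
      rw [e1, e2, ha, hb]
      rfl
    | single g t =>
      have e : (single l (MonoidAlgebra.single g t) : α →₀ MonoidAlgebra ℝ (Braid N)) =
          t • (Representation.free ℝ (Braid N) α g (single l (MonoidAlgebra.single 1 1))) := by
        rw [Representation.free_single_single, mul_one, Finsupp.smul_single,
          MonoidAlgebra.smul_single, smul_eq_mul, mul_one]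
      rw [e, Representation.asAlgebraHom_single, LinearMap.smul_apply]
      have e2 := map_smul f.hom t
        (Representation.free ℝ (Braid N) α g (single l (MonoidAlgebra.single 1 1)))
      refine e2.trans ?_
      congr 1
      exact LinearMap.congr_fun (f.hom.isIntertwining' g)
        (single l (MonoidAlgebra.single 1 1))

private theorem bE_map {A B : Type} [Ring A] [Ring B] (f : A →+* B) (S : ℕ → A) (c : List ℕ) :
    (bE S c).mapRange f (map_zero f) = bE (fun i => f (S i)) c := by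
  have h := dF_map f S (single c 1)
  rw [Finsupp.mapRange_single, map_one, dF_single, dF_single, one_smul, one_smul] at h
  exact h

private theorem bE_supp' {A : Type} [Ring A] (S : ℕ → A) (c c' : List ℕ) (h : bE S c c' ≠ 0) :
    c'.length = c.length + 1 ∧ tot c' = tot c := by
  have h1 := dF_supp S c.length (tot c) (single c 1) (fun d hd => by
    have : d = c := by
      by_contra hne
      exact hd (Finsupp.single_eq_of_ne hne)
    rw [this]
    exact ⟨rfl, rfl⟩) c'
  rw [dF_single, one_smul] at h1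
  exact h1 h

private theorem opS_eq {N : ℕ} (A : Rep.{0} ℝ (Braid N)) :
    (fun i => (A.ρ.asAlgebraHom : MonoidAlgebra ℝ (Braid N) →+* Module.End ℝ A)
      (sg1 (sG N) i)) = opS A := by
  funext i
  exact Representation.asAlgebraHom_single_one A.ρ (sG N i)

/-- the duality, for an arbitrary ring homomorphism to operators -/
private theorem sum_core {B M : Type} [Ring B] [AddCommGroup M] [Module ℝ M]
    (φ : B →+* Module.End ℝ M) (T : ℕ → B) (p : List ℕ → Prop) (x : List ℕ →₀ M) (c : List ℕ)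
    (hp : ∀ l ∈ (bE T c).support, p l) :
    ((bE T c).subtypeDomain p).sum (fun l a => φ a (x l.1)) =
      sal (fun i => φ (T i)) x c := by
  have h4 := Finsupp.sum_subtypeDomain_index (p := p) (v := bE T c)
    (h := fun l a => φ a (x l)) hp
  refine h4.trans ?_
  have h5 : ∀ l, φ (bE T c l) = bE (fun i => φ (T i)) c l := by
    intro l
    rw [← bE_map, Finsupp.mapRange_apply]
  rw [Finsupp.sum_of_support_subset _ (Finset.subset_union_left (s₂ := x.support)) _
    (fun l _ => by rw [map_zero, LinearMap.zero_apply])]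
  unfold sal
  rw [Finsupp.lsum_apply, Finsupp.sum_of_support_subset _
    (Finset.subset_union_right (s₁ := (bE T c).support)) _
    (fun l _ => by rw [map_zero]), Finsupp.finsetSum_apply]
  refine Finset.sum_congr rfl fun l _ => ?_
  rw [h5, sal_dual]

private theorem freeLift_e {N : ℕ} {α : Type} (A : Rep.{0} ℝ (Braid N)) (F : α → A) (c : α) :
    (Rep.freeLift ℝ (Braid N) A F).hom (single c (MonoidAlgebra.single 1 1)) = F c := by
  have h := Representation.freeLift_single_single A.ρ c (1 : Braid N) (1 : ℝ) F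
  rw [map_one, one_smul] at h
  exact h

private theorem dG_single (N i : ℕ) (c : Cp N (i + 1)) :
    (dG N i).hom (single c (MonoidAlgebra.single 1 1)) =
      ((bE (sg1 (sG N)) c.1).subtypeDomain
        (fun c : List ℕ => c.length + i = N + 1 ∧ tot c = N + 1) :
        Cp N i →₀ MonoidAlgebra ℝ (Braid N)) := by
  exact freeLift_e (Rep.free ℝ (Braid N) (Cp N i)) (fun c : Cp N (i + 1) =>
    (Finsupp.subtypeDomain (fun c : List ℕ => c.length + i = N + 1 ∧ tot c = N + 1)
      (bE (sg1 (sG N)) c.1) : Cp N i →₀ MonoidAlgebra ℝ (Braid N))) c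

private theorem preL_hom (N i : ℕ) (A : Rep.{0} ℝ (Braid N))
    (f : Rep.free ℝ (Braid N) (Cp N i) ⟶ A) (y : Rep.free ℝ (Braid N) (Cp N (i + 1))) :
    (preL (Cp N) (dG N) A i f).hom y = f.hom ((dG N i).hom y) := rfl

private theorem Ph_preL_pos (N i : ℕ) (A : Rep.{0} ℝ (Braid N))
    (f : Rep.free ℝ (Braid N) (Cp N i) ⟶ A) (c : Cp N (i + 1)) :
    PhC N (i + 1) A (preL (Cp N) (dG N) A i f) c.1 = sal (opS A) (PhC N i A f) c.1 := by
  rw [Ph_pos, preL_hom, dG_single, hom_eval]
  have h3 : ∀ l : Cp N i, f.hom (single l (MonoidAlgebra.single 1 1)) = PhC N i A f l.1 :=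
    fun l => (Ph_pos N i A f l).symm
  simp only [h3]
  rw [← opS_eq]
  exact sum_core (A.ρ.asAlgebraHom : MonoidAlgebra ℝ (Braid N) →+* Module.End ℝ A)
    (sg1 (sG N)) _ (PhC N i A f) c.1 (fun l hl => by
      have h1 := bE_supp' _ _ _ (Finsupp.mem_support_iff.1 hl)
      have h2 := c.2
      omega)

private theorem Ph_preL (N i : ℕ) (A : Rep.{0} ℝ (Braid N))
    (f : Rep.free ℝ (Braid N) (Cp N i) ⟶ A) :
    PhC N (i + 1) A (preL (Cp N) (dG N) A i f) = sal (opS A) (PhC N i A f) := by
  have hxs : ∀ l, PhC N i A f l ≠ 0 → l.length = N + 1 - i ∧ tot l = N + 1 := by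
    intro l hl
    by_contra hne
    refine hl (Ph_neg N i A f l ?_)
    omega
  ext1 c
  by_cases hc : c.length + (i + 1) = N + 1 ∧ tot c = N + 1
  · exact Ph_preL_pos N i A f ⟨c, hc⟩
  · rw [Ph_neg _ _ _ _ _ hc]
    by_contra hne
    have h1 := sal_supp (opS A) (N + 1 - i) (N + 1) (PhC N i A f) hxs c (Ne.symm hne)
    exact hc (by omega)

private theorem Ph_ker (N i r : ℕ) (A : Rep.{0} ℝ (Braid N)) (h : r + i = N + 1)
    (f : Rep.free ℝ (Braid N) (Cp N i) ⟶ A) :
    f ∈ LinearMap.ker (preL (Cp N) (dG N) A i) ↔ PhC N i A f ∈ SalZ (opS A) ⊤ r (N + 1) := by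
  constructor
  · intro hf
    refine ⟨Ph_IsS N i r h A f, ?_⟩
    rw [← Ph_preL, LinearMap.mem_ker.1 hf, map_zero]
  · intro hf
    rw [LinearMap.mem_ker]
    apply Ph_inj N (i + 1) A
    rw [Ph_preL, map_zero]
    exact hf.2

/-- the isomorphism on cycles -/
private noncomputable def cycE (N i r : ℕ) (A : Rep.{0} ℝ (Braid N)) (h : r + i = N + 1) :
    LinearMap.ker (preL (Cp N) (dG N) A i) ≃ₗ[ℝ] SalZ (opS A) ⊤ r (N + 1) :=
  LinearEquiv.ofBijective ((PhC N i A).restrict fun f hf => (Ph_ker N i r A h f).1 hf) (by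
    constructor
    · intro f g hfg
      apply Subtype.ext
      apply Ph_inj N i A
      exact congrArg Subtype.val hfg
    · rintro ⟨x, hx⟩
      obtain ⟨f, rfl⟩ := Ph_surj N i A x (fun c hc => by
        have := hx.1.1 c hc
        omega)
      exact ⟨⟨f, (Ph_ker N i r A h f).2 hx⟩, rfl⟩)

private theorem cycE_val (N i r : ℕ) (A : Rep.{0} ℝ (Braid N)) (h : r + i = N + 1)
    (f : LinearMap.ker (preL (Cp N) (dG N) A i)) :
    (cycE N i r A h f : List ℕ →₀ A) = PhC N i A f.1 := rfl

theorem coh_iso (N i r : ℕ) (A : Rep.{0} ℝ (Braid N)) (h : r + i = N + 1) :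
    Nonempty (groupCohomology A i ≃ₗ[ℝ] (SalZ (opS A) ⊤ r (N + 1) ⧸
      (SalB (opS A) ⊤ r (N + 1)).comap (SalZ (opS A) ⊤ r (N + 1)).subtype)) := by
  cases i with
  | zero =>
    obtain ⟨e⟩ := res_iso_zero (Cp N) (dG N) A (dG_dG N) (epsG N) (dG_eps N) (eps_surj N)
      (eps_exact N) (dG_exact N)
    have hbot : (SalB (opS A) ⊤ r (N + 1)).comap (SalZ (opS A) ⊤ r (N + 1)).subtype = ⊥ := by
      rw [eq_bot_iff]
      rintro ⟨x, hx⟩ ⟨y, hy, hyx⟩
      have hy0 : y = 0 := by
        ext1 l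
        by_contra hne
        have h1 := hy.1 l hne
        have h2 := len_tot l
        omega
      rw [hy0, map_zero] at hyx
      rw [Submodule.mem_bot]
      exact Subtype.ext hyx.symm
    exact ⟨e.trans ((cycE N 0 r A h).trans (Submodule.quotEquivOfEqBot _ hbot).symm)⟩
  | succ j =>
    obtain ⟨e⟩ := res_iso_succ (Cp N) (dG N) A (dG_dG N) (epsG N) (dG_eps N) (eps_surj N)
      (eps_exact N) (dG_exact N) j
    refine ⟨e.trans (Submodule.Quotient.equiv _ _ (cycE N (j + 1) r A h) ?_)⟩
    ext x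
    constructor
    · rintro ⟨f, ⟨g, hg⟩, rfl⟩
      refine ⟨PhC N j A g, Ph_IsS N j (r + 1) (by omega) A g, ?_⟩
      rw [← Ph_preL, hg]
      rfl
    · rintro ⟨y, hy, hyx⟩
      obtain ⟨g, rfl⟩ := Ph_surj N j A y (fun c hc => by
        have := hy.1 c hc
        omega)
      obtain ⟨f, rfl⟩ := (cycE N (j + 1) r A h).surjective x
      refine ⟨f, ⟨g, ?_⟩, rfl⟩
      apply Ph_inj N (j + 1) A
      rw [Ph_preL]
      exact hyx

end BrV
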