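import Pool.Agent.Lib.BrV.CFinB

/-!
# BrV.CHigh: the cohomology of `Braid N` vanishes in degrees `> N`
-/

namespace BrV

open CategoryTheory Finsupp Pool.Agent.Lib.BrSym

theorem coh_high (N i : ℕ) (A : Rep.{0} ℝ (Braid N)) (h : N < i) :
    Module.rank ℝ (groupCohomology A i) = 0 := by
  obtain ⟨j, rfl⟩ : ∃ j, i = j + 1 := ⟨i - 1, by omega⟩
  obtain ⟨e⟩ := res_iso_succ (Cp N) (dG N) A (dG_dG N) (epsG N) (dG_eps N) (eps_surj N)
    (eps_exact N) (dG_exact N) j
  have hempty : ∀ c : List ℕ, tot c = N + 1 → c.length ≠ 0 := by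
    rintro (_ | ⟨a, l⟩) hc
    · simp [tot] at hc
    · simp
  have hE : IsEmpty (Cp N (j + 1)) := by
    refine ⟨fun c => ?_⟩
    have h1 := c.2.1
    have h2 := hempty c.1 c.2.2
    omega
  have hsub : Subsingleton (Rep.free ℝ (Braid N) (Cp N (j + 1)) ⟶ A) :=
    ⟨fun f g => Rep.free_ext ℝ (Braid N) A f g fun i => hE.elim i⟩
  rw [e.rank_eq]
  have h3 : Subsingleton (LinearMap.ker (preL (Cp N) (dG N) A (j + 1))) :=
    ⟨fun f g => Subtype.ext (Subsingleton.elim _ _)⟩
  have h4 : Subsingleton (LinearMap.ker (preL (Cp N) (dG N) A (j + 1)) ⧸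
      (LinearMap.range (preL (Cp N) (dG N) A j)).comap
        (LinearMap.ker (preL (Cp N) (dG N) A (j + 1))).subtype) := by
    refine ⟨fun a b => ?_⟩
    induction a using Submodule.Quotient.induction_on with | _ a =>
    induction b using Submodule.Quotient.induction_on with | _ b =>
    rw [Subsingleton.elim a b]
  exact rank_subsingleton' ℝ _

end BrV
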