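import Mathlib

/-!
# BrV.CRes: group cohomology from an explicit free resolution (general group `G`)

`d i : free (α (i+1)) ⟶ free (α i)`, `ε : free (α 0) ⟶ trivial`, exact.  Build `P : ProjectiveResolution (Rep.trivial ℝ G ℝ)`:
`complex = ChainComplex.of (fun i => Rep.free ℝ G (α i)) d hdd`, projective by `Rep.instProjectiveFree` (the instance in `Mathlib/RepresentationTheory/Rep/Iso.lean`), `π` from `ε` by
`ChainComplex.toSingle₀Equiv` (or `ChainComplex.mkHom`-style `(ChainComplex.toSingle₀Equiv _ _).symm ⟨ε, _⟩`), quasi-isomorphism: degree `0`: cokernel of `d 0` is `ε` (surjective with kernel the image), positive degrees: exactness.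
Possible model: `Rep.FiniteCyclicGroup.resolution`, `Mathlib/RepresentationTheory/Homological/Resolution.lean` (`barResolution`), or check after applying `forget₂ (Rep ℝ G) (ModuleCat ℝ)` (`HomologicalComplex.quasiIso_map_iff_of_preservesHomology`).
Then `groupCohomologyIso A n P : groupCohomology A n ≅ (P.complex.linearYonedaObj ℝ A).homology n`, whose terms are `ModuleCat.of ℝ (free (α n) ⟶ A)` with differentials `preL`; the homology of a cochain complex of `ModuleCat ℝ` at `n`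
is kernel modulo image (`ShortComplex.moduleCatHomologyIso` / `moduleCatLeftHomologyData`; `HomologicalComplex.sc'`, `isoSc'`).
-/

namespace BrV

open CategoryTheory

noncomputable section

variable {G : Type} [Group G] (α : ℕ → Type)
  (d : ∀ i, Rep.free ℝ G (α (i + 1)) ⟶ Rep.free ℝ G (α i)) (A : Rep.{0} ℝ G)

/-- precomposition with `d i` -/
def preL (i : ℕ) : (Rep.free ℝ G (α i) ⟶ A) →ₗ[ℝ] (Rep.free ℝ G (α (i + 1)) ⟶ A) where
  toFun f := d i ≫ f
  map_add' f g := by simp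
  map_smul' a f := by simp

private def resC (hdd : ∀ i, d (i + 1) ≫ d i = 0) : ChainComplex (Rep.{0} ℝ G) ℕ :=
  ChainComplex.of (fun i => Rep.free ℝ G (α i)) d hdd

private theorem resC_d (hdd : ∀ i, d (i + 1) ≫ d i = 0) (i : ℕ) :
    (resC α d hdd).d (i + 1) i = d i := by
  unfold resC
  exact ChainComplex.of_d (fun i => Rep.free ℝ G (α i)) d i

private def resPi (hdd : ∀ i, d (i + 1) ≫ d i = 0)
    (ε : Rep.free ℝ G (α 0) ⟶ Rep.trivial ℝ G ℝ) (hε : d 0 ≫ ε = 0) :
    resC α d hdd ⟶ (ChainComplex.single₀ (Rep ℝ G)).obj (Rep.trivial ℝ G ℝ) :=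
  ((resC α d hdd).toSingle₀Equiv _).symm ⟨ε, by
    rw [resC_d]
    exact hε⟩

private theorem range_eq_ker_of {i : ℕ} (hdd : ∀ i, d (i + 1) ≫ d i = 0)
    (hex : ∀ i x, (d i).hom x = 0 → ∃ y, (d (i + 1)).hom y = x) :
    LinearMap.range (d (i + 1)).hom.toLinearMap = LinearMap.ker (d i).hom.toLinearMap := by
  apply le_antisymm
  · rintro x ⟨y, rfl⟩
    have h1 := congrArg (fun f => f.hom y) (hdd i)
    exact h1
  · intro x hx
    obtain ⟨y, hy⟩ := hex i x hx
    exact ⟨y, hy⟩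

private theorem range_eq_ker_zero (ε : Rep.free ℝ G (α 0) ⟶ Rep.trivial ℝ G ℝ)
    (hε : d 0 ≫ ε = 0) (h0 : ∀ x, ε.hom x = 0 → ∃ y, (d 0).hom y = x) :
    LinearMap.range (d 0).hom.toLinearMap = LinearMap.ker ε.hom.toLinearMap := by
  apply le_antisymm
  · rintro x ⟨y, rfl⟩
    have h1 := congrArg (fun f => f.hom y) hε
    exact h1
  · intro x hx
    obtain ⟨y, hy⟩ := h0 x hx
    exact ⟨y, hy⟩

set_option backward.defeqAttrib.useBackward true in
set_option backward.isDefEq.respectTransparency false in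
private theorem resPi_quasiIso (hdd : ∀ i, d (i + 1) ≫ d i = 0)
    (ε : Rep.free ℝ G (α 0) ⟶ Rep.trivial ℝ G ℝ) (hε : d 0 ≫ ε = 0)
    (hsurj : Function.Surjective ε.hom) (h0 : ∀ x, ε.hom x = 0 → ∃ y, (d 0).hom y = x)
    (hex : ∀ i x, (d i).hom x = 0 → ∃ y, (d (i + 1)).hom y = x) :
    QuasiIso (resPi α d hdd ε hε) where
  quasiIsoAt m := by
    induction m with
    | zero =>
      simp only [resPi]
      rw [ChainComplex.quasiIsoAt₀_iff, ShortComplex.quasiIso_iff_of_zeros' _ rfl rfl rfl]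
      constructor
      · apply (forget₂ _ (ModuleCat ℝ)).reflects_exact_of_faithful
        rw [ShortComplex.moduleCat_exact_iff_range_eq_ker]
        simpa [ChainComplex.toSingle₀Equiv, resC_d] using! range_eq_ker_zero α d ε hε h0
      · rw [Rep.epi_iff_surjective]
        simpa [ChainComplex.toSingle₀Equiv] using! hsurj
    | succ m _ =>
      rw [quasiIsoAt_iff_exactAt' (hL := ChainComplex.exactAt_succ_single_obj ..),
          HomologicalComplex.exactAt_iff' _ (m + 2) (m + 1) m (by simp) (by simp)]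
      apply (forget₂ _ (ModuleCat ℝ)).reflects_exact_of_faithful
      rw [ShortComplex.moduleCat_exact_iff_range_eq_ker]
      simpa [resC_d] using! range_eq_ker_of α d hdd hex

private def resP (hdd : ∀ i, d (i + 1) ≫ d i = 0)
    (ε : Rep.free ℝ G (α 0) ⟶ Rep.trivial ℝ G ℝ) (hε : d 0 ≫ ε = 0)
    (hsurj : Function.Surjective ε.hom) (h0 : ∀ x, ε.hom x = 0 → ∃ y, (d 0).hom y = x)
    (hex : ∀ i x, (d i).hom x = 0 → ∃ y, (d (i + 1)).hom y = x) :
    ProjectiveResolution (Rep.trivial ℝ G ℝ) where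
  complex := resC α d hdd
  projective i := inferInstanceAs <| Projective (Rep.free ℝ G (α i))
  π := resPi α d hdd ε hε
  quasiIso := resPi_quasiIso α d hdd ε hε hsurj h0 hex

private theorem preL_comp (hdd : ∀ i, d (i + 1) ≫ d i = 0) (i : ℕ) :
    ModuleCat.ofHom (preL α d A i) ≫ ModuleCat.ofHom (preL α d A (i + 1)) = 0 := by
  ext f : 2
  change d (i + 1) ≫ (d i ≫ f) = 0
  rw [← Category.assoc, hdd, Limits.zero_comp]

private def sS (hdd : ∀ i, d (i + 1) ≫ d i = 0) (i : ℕ) : ShortComplex (ModuleCat.{0} ℝ) :=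
  ShortComplex.mk (ModuleCat.ofHom (preL α d A i)) (ModuleCat.ofHom (preL α d A (i + 1)))
    (preL_comp α d A hdd i)

private def sZ : ShortComplex (ModuleCat.{0} ℝ) :=
  ShortComplex.mk (0 : ModuleCat.of ℝ (Rep.free ℝ G (α 0) ⟶ A) ⟶
    ModuleCat.of ℝ (Rep.free ℝ G (α 0) ⟶ A)) (ModuleCat.ofHom (preL α d A 0)) (by simp)

private theorem linY_d (hdd : ∀ i, d (i + 1) ≫ d i = 0) (i : ℕ) :
    ((resC α d hdd).linearYonedaObj ℝ A).d i (i + 1) = ModuleCat.ofHom (preL α d A i) := by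
  ext f : 2
  change (resC α d hdd).d (i + 1) i ≫ f = d i ≫ f
  rw [resC_d]
  rfl

private def isoS (hdd : ∀ i, d (i + 1) ≫ d i = 0) (i : ℕ) :
    ((resC α d hdd).linearYonedaObj ℝ A).sc (i + 1) ≅ sS α d A hdd i :=
  ((resC α d hdd).linearYonedaObj ℝ A).isoSc' i (i + 1) (i + 2) (by simp) (by simp) ≪≫
    ShortComplex.isoMk (Iso.refl _) (Iso.refl _) (Iso.refl _)
      (by
        simp only [Iso.refl_hom]
        exact (linY_d α d A hdd i).symm)
      (by
        simp only [Iso.refl_hom]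
        exact (linY_d α d A hdd (i + 1)).symm)

private def isoZ (hdd : ∀ i, d (i + 1) ≫ d i = 0) :
    ((resC α d hdd).linearYonedaObj ℝ A).sc 0 ≅ sZ α d A :=
  ((resC α d hdd).linearYonedaObj ℝ A).isoSc' 0 0 1 (by simp) (by simp) ≪≫
    ShortComplex.isoMk (Iso.refl _) (Iso.refl _) (Iso.refl _)
      (by
        simp only [Iso.refl_hom]
        have h1 : ((resC α d hdd).linearYonedaObj ℝ A).d 0 0 = 0 := by
          apply HomologicalComplex.shape
          simp
        exact h1.symm)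
      (by
        simp only [Iso.refl_hom]
        exact (linY_d α d A hdd 0).symm)

theorem res_iso_succ (hdd : ∀ i, d (i + 1) ≫ d i = 0)
    (ε : Rep.free ℝ G (α 0) ⟶ Rep.trivial ℝ G ℝ) (hε : d 0 ≫ ε = 0)
    (hsurj : Function.Surjective ε.hom) (h0 : ∀ x, ε.hom x = 0 → ∃ y, (d 0).hom y = x)
    (hex : ∀ i x, (d i).hom x = 0 → ∃ y, (d (i + 1)).hom y = x) (i : ℕ) :
    Nonempty (groupCohomology A (i + 1) ≃ₗ[ℝ]
      (LinearMap.ker (preL α d A (i + 1)) ⧸
        (LinearMap.range (preL α d A i)).comap (LinearMap.ker (preL α d A (i + 1))).subtype)) := by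
  have e1 : groupCohomology A (i + 1) ≅
      (sS α d A hdd i).moduleCatLeftHomologyData.H :=
    groupCohomologyIso A (i + 1) (resP α d hdd ε hε hsurj h0 hex) ≪≫
      ShortComplex.homologyMapIso (isoS α d A hdd i) ≪≫ (sS α d A hdd i).moduleCatHomologyIso
  refine ⟨e1.toLinearEquiv.trans (Submodule.quotEquivOfEq _ _ ?_)⟩
  ext ⟨x, hx⟩
  constructor
  · rintro ⟨y, hy⟩
    exact ⟨y, congrArg Subtype.val hy⟩
  · rintro ⟨y, hy⟩
    exact ⟨y, Subtype.ext hy⟩

theorem res_iso_zero (hdd : ∀ i, d (i + 1) ≫ d i = 0)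
    (ε : Rep.free ℝ G (α 0) ⟶ Rep.trivial ℝ G ℝ) (hε : d 0 ≫ ε = 0)
    (hsurj : Function.Surjective ε.hom) (h0 : ∀ x, ε.hom x = 0 → ∃ y, (d 0).hom y = x)
    (hex : ∀ i x, (d i).hom x = 0 → ∃ y, (d (i + 1)).hom y = x) :
    Nonempty (groupCohomology A 0 ≃ₗ[ℝ] LinearMap.ker (preL α d A 0)) := by
  have e1 : groupCohomology A 0 ≅ (sZ α d A).moduleCatLeftHomologyData.H :=
    groupCohomologyIso A 0 (resP α d hdd ε hε hsurj h0 hex) ≪≫
      ShortComplex.homologyMapIso (isoZ α d A hdd) ≪≫ (sZ α d A).moduleCatHomologyIso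
  refine ⟨e1.toLinearEquiv.trans (Submodule.quotEquivOfEqBot _ ?_)⟩
  rw [eq_bot_iff]
  rintro x ⟨y, rfl⟩
  rw [Submodule.mem_bot]
  apply Subtype.ext
  rfl

end

end BrV
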