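import Pool.Agent.Lib.BrV.CDefs
import Pool.Agent.Lib.BrV.CRes

/-!
# Definitions: the Salvetti resolution of the braid group as complex of `Rep ℝ (Braid N)`
-/

namespace BrV

open CategoryTheory Finsupp Pool.Agent.Lib.BrSym

noncomputable section

/-- compositions of `N + 1` with `N + 1 - i` parts -/
abbrev Cp (N i : ℕ) : Type := {c : List ℕ // c.length + i = N + 1 ∧ tot c = N + 1}

/-- the differential -/
def dG (N i : ℕ) : Rep.free ℝ (Braid N) (Cp N (i + 1)) ⟶ Rep.free ℝ (Braid N) (Cp N i) :=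
  Rep.freeLift ℝ (Braid N) (Rep.free ℝ (Braid N) (Cp N i)) fun c =>
    (Finsupp.subtypeDomain (fun c : List ℕ => c.length + i = N + 1 ∧ tot c = N + 1)
      (bE (sg1 (sG N)) c.1) : Cp N i →₀ MonoidAlgebra ℝ (Braid N))

/-- the augmentation -/
def epsG (N : ℕ) : Rep.free ℝ (Braid N) (Cp N 0) ⟶ Rep.trivial ℝ (Braid N) ℝ :=
  Rep.freeLift ℝ (Braid N) (Rep.trivial ℝ (Braid N) ℝ) fun _ => (1 : ℝ)

/-- extension by zero -/
def extG (N i : ℕ) : (Cp N i →₀ MonoidAlgebra ℝ (Braid N)) →ₗ[ℝ]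
    (List ℕ →₀ MonoidAlgebra ℝ (Braid N)) := Finsupp.lmapDomain _ ℝ Subtype.val

/-- cycles of `Sal` -/
def SalZ {M : Type} [AddCommGroup M] [Module ℝ M] (S : ℕ → Module.End ℝ M) (P : Submodule ℝ M)
    (r n : ℕ) : Submodule ℝ (List ℕ →₀ M) where
  carrier := {x | IsS P r n x ∧ sal S x = 0}
  zero_mem' := ⟨⟨fun l h => absurd rfl h, fun l => P.zero_mem⟩, map_zero _⟩
  add_mem' := by
    rintro x y ⟨⟨h1, h2⟩, h3⟩ ⟨⟨h4, h5⟩, h6⟩
    refine ⟨⟨fun l hl => ?_, fun l => P.add_mem (h2 l) (h5 l)⟩, by rw [map_add, h3, h6, add_zero]⟩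
    by_cases h : x l = 0
    · exact h4 l (by intro h'; exact hl (by simp [h, h']))
    · exact h1 l h
  smul_mem' := by
    rintro a x ⟨⟨h1, h2⟩, h3⟩
    refine ⟨⟨fun l hl => h1 l (by intro h'; exact hl (by simp [h'])),
      fun l => P.smul_mem a (h2 l)⟩, by rw [map_smul, h3, smul_zero]⟩


/-- boundaries of `Sal` -/
def SalB {M : Type} [AddCommGroup M] [Module ℝ M] (S : ℕ → Module.End ℝ M) (P : Submodule ℝ M)
    (r n : ℕ) : Submodule ℝ (List ℕ →₀ M) where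
  carrier := {x | ∃ y, IsS P (r + 1) n y ∧ sal S y = x}
  zero_mem' := ⟨0, ⟨fun l h => absurd rfl h, fun l => P.zero_mem⟩, map_zero _⟩
  add_mem' := by
    rintro _ _ ⟨x, ⟨h1, h2⟩, rfl⟩ ⟨y, ⟨h4, h5⟩, rfl⟩
    refine ⟨x + y, ⟨fun l hl => ?_, fun l => P.add_mem (h2 l) (h5 l)⟩, map_add _ _ _⟩
    by_cases h : x l = 0
    · exact h4 l (by intro h'; exact hl (by simp [h, h']))
    · exact h1 l h
  smul_mem' := by
    rintro a _ ⟨x, ⟨h1, h2⟩, rfl⟩
    exact ⟨a • x, ⟨fun l hl => h1 l (by intro h'; exact hl (by simp [h'])),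
      fun l => P.smul_mem a (h2 l)⟩, map_smul _ _ _⟩

/-- the operators of a representation of the braid group -/
def opS {N : ℕ} (A : Rep.{0} ℝ (Braid N)) (j : ℕ) : Module.End ℝ A := A.ρ (sG N j)

end

end BrV
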