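import Pool.Agent.Lib.BrV.QApi
import Pool.Agent.Lib.BrV.BRelDef
import Pool.Agent.Lib.MP_97e538_al.Reps

/-!
# BrV.PiMap: from `ℝ[u_1..u_n] / δ_n` to polynomials in the classes of the chain (section 8)

`n = 2 g + 2`.  `MQ g` = polynomials in `T = X none` and the classes `X (some j)`, `j < 2g`.
`piM (u_i) = T + ∑_(j < i-1) cls g j` (`1 ≤ i ≤ 2g+2`), `piM (X 0) = 0`, `piM (u_i) = 0` for `i > 2g+2`.
Proofs.
* `piM_SA`: compare the algebra maps on `X j` (`1 ≤ i ≤ 2g+1`).  `twist_cls`: `twist g i (cls g j) = cls g j + C (om i j) * cls g i` (`i, j ≤ 2g`), `om i j = 1` (j = i+1), `-1` (i = j+1), `0` else.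
  `j = i`: `piM (2 u_i - u_(i+1)) = T + ∑_(j<i-1) cls j - cls (i-1)`; `sM g i (piM u_i) = sM g i T + ∑_(j<i-1) (twist (i-1) (cls j)) = ` the same (only `j = i-2` contributes, or `sM g 1 T = T - cls 0`).
  `j ≥ i+1`: `∑_(m<j-1) om (i-1) m` gets `-1` from `m = i-2` (or from `T` if `i = 1`) and `+1` from `m = i` if `i < j - 1`.
* `piM_dl`: `δ_n = ∑_j (-1)^j u_(j+1)`, the consecutive differences `u_(2j+2) - u_(2j+1)` map to `cls g (2j)`, `j = 0..g`, and `∑_(j ≤ g) cls g (2j) = 0` (`cls_last`, `cls_lt`).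
* section `ro : MQ g → PA`, `T ↦ u_1`, `X (some j) ↦ u_(j+2) - u_(j+1)`: `piM ∘ ro = id`, and `ro (piM u_i) = u_i` for `1 ≤ i ≤ 2g+1`, `ro (piM u_n) = u_n + δ_n`.
  `piM_surj`: `f = ro h` (homogeneous, variables `u_1..u_(2g+1)`).  `piM_ker`: for all `f` in the subalgebra generated by `u_1..u_n`: `f - ro (piM f) = δ_n q` with `q` in the subalgebra (induction);
  if `piM f = 0`, `f ∈ Bn n (k+1)`: take the homogeneous component of degree `k` of `q`.  (`k = 0`: `f ∈ Bn n 0`, `piM f = 0` gives `f = 0`.)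
* `SM_BRel`: `piM` is onto (`piM ∘ ro = id`) and intertwines (`piM_SA`), so it follows from `SA_comm`, `SA_braid`.
* `sM g i` preserves degrees.  `pderiv none` commutes with `sM g i` (`i ≥ 1`): both composites are derivations along `sM g i`, agree on variables (`pderiv none (emT g v) = 0`).
* `pderiv_none_surj`: on monomials `T^a m ↦ T^(a+1) m / (a+1)`.
* `emT_of_pderiv`: `pderiv none h = 0`: no `X none` in `h` (characteristic 0), so `h` is in the range of `rename some`; homogeneous.
-/

namespace BrV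

open Finsupp Pool.Agent.Lib.BrSym

noncomputable section

/-- polynomials in `T = X none` and the classes of the chain -/
abbrev MQ (g : ℕ) : Type := MvPolynomial (Option (Fin (2 * g))) ℝ

/-- inclusion of the polynomials in the classes -/
def emT (g : ℕ) : MvPolynomial (Fin (2 * g)) ℝ →ₐ[ℝ] MQ g := MvPolynomial.rename Option.some

/-- `u_i ↦ T + ∑_(j < i-1) cls g j` -/
def piM (g : ℕ) : PA →ₐ[ℝ] MQ g := MvPolynomial.aeval fun i =>
  if 1 ≤ i ∧ i ≤ 2 * g + 2 then
    MvPolynomial.X none + ∑ j ∈ Finset.range (i - 1), emT g (cls g j) else 0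

/-- the generators on `MQ g` -/
def sM (g i : ℕ) : MQ g →ₐ[ℝ] MQ g := MvPolynomial.aeval fun o =>
  match o with
  | none => if i = 1 then MvPolynomial.X none - emT g (cls g 0) else MvPolynomial.X none
  | Option.some j => emT g (twist g (i - 1) (MvPolynomial.X j))

/-- as linear operators -/
def SM (g i : ℕ) : Module.End ℝ (MQ g) := (sM g i).toLinearMap

/-- the operators of `Sym` -/
def ST (g i : ℕ) : Module.End ℝ (MvPolynomial (Fin (2 * g)) ℝ) := (twist g (i - 1)).toLinearMap

/-- degree `k` part -/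
def MQk (g k : ℕ) : Submodule ℝ (MQ g) :=
  MvPolynomial.homogeneousSubmodule (Option (Fin (2 * g))) ℝ k

/-! ### auxiliary facts -/

private lemma piM_X (g i : ℕ) : piM g (MvPolynomial.X i) = if 1 ≤ i ∧ i ≤ 2 * g + 2 then
    MvPolynomial.X none + ∑ j ∈ Finset.range (i - 1), emT g (cls g j) else 0 := by
  rw [piM, MvPolynomial.aeval_X]

/-- the images of the `u_(j+1)` -/
private def LL (g j : ℕ) : MQ g :=
  MvPolynomial.X none + ∑ m ∈ Finset.range j, emT g (cls g m)

private lemma piM_X' (g i : ℕ) (h : i ≤ 2 * g + 1) : piM g (MvPolynomial.X (i + 1)) = LL g i := by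
  rw [piM_X, if_pos ⟨by omega, by omega⟩]
  rfl

private lemma piM_X_out (g i : ℕ) (h : ¬ (1 ≤ i ∧ i ≤ 2 * g + 2)) :
    piM g (MvPolynomial.X i) = 0 := by
  rw [piM_X, if_neg h]

private lemma piM_C (g : ℕ) (a : ℝ) : piM g (MvPolynomial.C a) = MvPolynomial.C a := by
  rw [← MvPolynomial.algebraMap_eq, AlgHom.commutes, MvPolynomial.algebraMap_eq]

private lemma LL_succ (g j : ℕ) : LL g (j + 1) = LL g j + emT g (cls g j) := by
  rw [LL, LL, Finset.sum_range_succ, add_assoc]

private lemma LL_zero (g : ℕ) : LL g 0 = MvPolynomial.X none := by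
  simp [LL]

theorem SM_emT (g i : ℕ) (v : MvPolynomial (Fin (2 * g)) ℝ) :
    SM g i (emT g v) = emT g (ST g i v) := by
  have h : (sM g i).comp (emT g) = (emT g).comp (twist g (i - 1)) := by
    apply MvPolynomial.algHom_ext
    intro j
    rw [AlgHom.comp_apply, AlgHom.comp_apply, emT, MvPolynomial.rename_X, sM,
      MvPolynomial.aeval_X]
    rfl
  exact DFunLike.congr_fun h v

private lemma sM_emT (g i : ℕ) (v : MvPolynomial (Fin (2 * g)) ℝ) :
    sM g i (emT g v) = emT g (twist g (i - 1) v) := SM_emT g i v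

private lemma sM_none (g i : ℕ) : sM g i (MvPolynomial.X none) =
    if i = 1 then MvPolynomial.X none - emT g (cls g 0) else MvPolynomial.X none := by
  rw [sM, MvPolynomial.aeval_X]

private lemma sM_C (g i : ℕ) (a : ℝ) : sM g i (MvPolynomial.C a) = MvPolynomial.C a := by
  rw [← MvPolynomial.algebraMap_eq, AlgHom.commutes, MvPolynomial.algebraMap_eq]

private lemma emT_C (g : ℕ) (a : ℝ) : emT g (MvPolynomial.C a) = MvPolynomial.C a := by
  rw [← MvPolynomial.algebraMap_eq, AlgHom.commutes, MvPolynomial.algebraMap_eq]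

private lemma sM_cls (g i j : ℕ) (hi : i - 1 ≤ 2 * g) (hj : j ≤ 2 * g) :
    sM g i (emT g (cls g j)) = emT g (cls g j) +
      MvPolynomial.C (om (i - 1) j) * emT g (cls g (i - 1)) := by
  rw [sM_emT, twist_cls _ _ hi hj, map_add, map_mul, emT_C]

private lemma sum_om' (i j : ℕ) (hi : 1 ≤ i) :
    (if i = 1 then (-1 : ℝ) else 0) + ∑ m ∈ Finset.range j, om (i - 1) m =
      if j + 1 = i ∨ j = i then -1 else 0 := by
  induction j with
  | zero =>
    simp only [Finset.range_zero, Finset.sum_empty, add_zero]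
    by_cases h : i = 1
    · rw [if_pos h, if_pos (by omega)]
    · rw [if_neg h, if_neg (by omega)]
  | succ j ih =>
    rw [Finset.sum_range_succ, ← add_assoc, ih]
    unfold om
    split_ifs <;> first | omega | norm_num

private lemma sM_LL (g i j : ℕ) (hi : 1 ≤ i) (hi' : i ≤ 2 * g + 1) (hj : j ≤ 2 * g + 1) :
    sM g i (LL g j) = LL g j +
      MvPolynomial.C (if j + 1 = i ∨ j = i then -1 else 0) * emT g (cls g (i - 1)) := by
  rw [← sum_om' i j hi, LL, map_add, map_sum, sM_none]
  have h1 : ∀ m ∈ Finset.range j, sM g i (emT g (cls g m)) = emT g (cls g m) +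
      MvPolynomial.C (om (i - 1) m) * emT g (cls g (i - 1)) := by
    intro m hm
    have := Finset.mem_range.mp hm
    exact sM_cls g i m (by omega) (by omega)
  rw [Finset.sum_congr rfl h1, Finset.sum_add_distrib, ← Finset.sum_mul, map_add, map_sum]
  by_cases h : i = 1
  · subst h
    simp only [if_true, map_neg, map_one]
    ring
  · simp only [if_neg h, map_zero]
    ring

theorem piM_SA (g i : ℕ) (hg : 1 ≤ g) (hi : 1 ≤ i) (hn : i ≤ 2 * g + 1) (f : PA) :
    piM g (SA i f) = SM g i (piM g f) := by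
  have h : (piM g).comp (sA i) = (sM g i).comp (piM g) := by
    apply MvPolynomial.algHom_ext
    intro j
    rw [AlgHom.comp_apply, AlgHom.comp_apply, sA, MvPolynomial.aeval_X]
    obtain ⟨i, rfl⟩ : ∃ i', i = i' + 1 := ⟨i - 1, by omega⟩
    by_cases h1 : j = i + 1
    · subst h1
      rw [if_pos rfl, map_sub, map_mul, map_ofNat, piM_X' g i (by omega),
        piM_X' g (i + 1) (by omega), sM_LL g (i + 1) i (by omega) hn (by omega), LL_succ,
        if_pos (by omega)]
      simp only [Nat.add_sub_cancel, map_neg, map_one]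
      ring
    · rw [if_neg h1]
      by_cases h2 : j = i + 1 + 1
      · subst h2
        rw [if_pos rfl, piM_X' g i (by omega), piM_X' g (i + 1) (by omega),
          sM_LL g (i + 1) (i + 1) (by omega) hn (by omega), LL_succ, if_pos (by omega)]
        simp only [Nat.add_sub_cancel, map_neg, map_one]
        ring
      · rw [if_neg h2]
        by_cases h3 : 1 ≤ j ∧ j ≤ 2 * g + 2
        · obtain ⟨j, rfl⟩ : ∃ j', j = j' + 1 := ⟨j - 1, by omega⟩
          rw [piM_X' g j (by omega), sM_LL g (i + 1) j (by omega) hn (by omega),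
            if_neg (by omega)]
          simp
        · rw [piM_X_out g j h3, map_zero]
  exact DFunLike.congr_fun h f

private lemma sum_dl (g m : ℕ) : ∑ j ∈ Finset.range (2 * m),
    MvPolynomial.C ((-1 : ℝ) ^ j) * LL g j =
      - ∑ j ∈ Finset.range m, emT g (cls g (2 * j)) := by
  induction m with
  | zero => simp
  | succ m ih =>
    rw [Nat.mul_succ, Finset.sum_range_succ, Finset.sum_range_succ, ih, Finset.sum_range_succ,
      LL_succ, pow_succ, pow_mul]
    simp only [neg_one_sq, one_pow, one_mul, map_neg, map_one]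
    ring

private lemma sum_cls_even (g : ℕ) :
    ∑ j ∈ Finset.range (g + 1), emT g (cls g (2 * j)) = 0 := by
  rw [Finset.sum_range_succ, cls_last, map_neg, map_sum,
    ← Fin.sum_univ_eq_sum_range (fun j => emT g (cls g (2 * j))) g, add_neg_eq_zero]
  apply Finset.sum_congr rfl
  intro j _
  rw [cls_lt]

theorem piM_dl (g : ℕ) (hg : 1 ≤ g) : piM g (dl 0 (2 * g + 2)) = 0 := by
  have h : piM g (dl 0 (2 * g + 2)) = ∑ j ∈ Finset.range (2 * (g + 1)),
      MvPolynomial.C ((-1 : ℝ) ^ j) * LL g j := by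
    rw [dl, map_sum]
    apply Finset.sum_congr (by congr 1)
    intro j hj
    have := Finset.mem_range.mp hj
    rw [map_mul, piM_C, Nat.zero_add, piM_X' g j (by omega)]
  rw [h, sum_dl, sum_cls_even, neg_zero]

private lemma emT_hom (g : ℕ) {k : ℕ} {v : MvPolynomial (Fin (2 * g)) ℝ}
    (hv : v.IsHomogeneous k) : (emT g v).IsHomogeneous k :=
  hv.rename_isHomogeneous

private lemma LL_hom (g j : ℕ) : (LL g j).IsHomogeneous 1 :=
  (MvPolynomial.isHomogeneous_X _ _).add
    (MvPolynomial.IsHomogeneous.sum _ _ _ fun _ _ => emT_hom g (cls_hom _))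

private lemma aeval_hom {σ τ : Type} {k : ℕ} {f : MvPolynomial σ ℝ} (hf : f.IsHomogeneous k)
    (G : σ → MvPolynomial τ ℝ) (hG : ∀ i, (G i).IsHomogeneous 1) :
    (MvPolynomial.aeval G f).IsHomogeneous k := by
  have := hf.aeval (S := ℝ) G hG
  rwa [one_mul] at this

theorem piM_mem (g k : ℕ) (hg : 1 ≤ g) (f : PA) (hf : f ∈ Bn (2 * g + 2) k) :
    piM g f ∈ MQk g k := by
  have h1 : f.IsHomogeneous k := hf.1
  refine aeval_hom h1 _ fun i => ?_
  split_ifs with h
  · exact LL_hom g (i - 1)
  · exact MvPolynomial.isHomogeneous_zero _ _ _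

/-- the section of `piM` -/
private def ro (g : ℕ) : MQ g →ₐ[ℝ] PA := MvPolynomial.aeval fun o =>
  match o with
  | none => MvPolynomial.X 1
  | Option.some j => MvPolynomial.X (j.1 + 2) - MvPolynomial.X (j.1 + 1)

private lemma ro_none (g : ℕ) : ro g (MvPolynomial.X none) = MvPolynomial.X 1 := by
  rw [ro, MvPolynomial.aeval_X]

private lemma ro_some (g : ℕ) (j : Fin (2 * g)) : ro g (MvPolynomial.X (Option.some j)) =
    MvPolynomial.X (j.1 + 2) - MvPolynomial.X (j.1 + 1) := by
  rw [ro, MvPolynomial.aeval_X]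

private lemma ro_C (g : ℕ) (a : ℝ) : ro g (MvPolynomial.C a) = MvPolynomial.C a := by
  rw [← MvPolynomial.algebraMap_eq, AlgHom.commutes, MvPolynomial.algebraMap_eq]

private lemma emT_cls_lt (g j : ℕ) (hj : j < 2 * g) :
    emT g (cls g j) = MvPolynomial.X (Option.some ⟨j, hj⟩) := by
  rw [cls_lt hj, emT, MvPolynomial.rename_X]

private lemma piM_ro (g : ℕ) (h : MQ g) : piM g (ro g h) = h := by
  have h1 : (piM g).comp (ro g) = AlgHom.id ℝ _ := by
    apply MvPolynomial.algHom_ext
    intro o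
    rw [AlgHom.comp_apply]
    cases o with
    | none => rw [ro_none, piM_X' g 0 (by omega), LL_zero]; rfl
    | some j =>
      have := j.2
      have e1 : piM g (MvPolynomial.X (j.1 + 2)) = LL g (j.1 + 1) :=
        piM_X' g (j.1 + 1) (by omega)
      rw [ro_some, map_sub, e1, piM_X' g j.1 (by omega), LL_succ,
        emT_cls_lt g j.1 j.2]
      simp
  exact DFunLike.congr_fun h1 h

private lemma ro_LL (g j : ℕ) (hj : j ≤ 2 * g) : ro g (LL g j) = MvPolynomial.X (j + 1) := by
  induction j with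
  | zero => rw [LL_zero, ro_none]
  | succ j ih =>
    rw [LL_succ, map_add, ih (by omega), emT_cls_lt g j (by omega), ro_some]
    ring

private lemma dl_even (m : ℕ) : dl 0 (2 * m) = ∑ j ∈ Finset.range m,
    (MvPolynomial.X (2 * j + 1) - MvPolynomial.X (2 * j + 2) : PA) := by
  rw [dl]
  induction m with
  | zero => simp
  | succ m ih =>
    rw [Nat.mul_succ, Finset.sum_range_succ, Finset.sum_range_succ, ih, Finset.sum_range_succ,
      pow_succ, pow_mul]
    simp only [neg_one_sq, one_pow, one_mul, map_neg, map_one, Nat.zero_add, neg_mul]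
    ring

private lemma ro_LL_last (g : ℕ) : ro g (LL g (2 * g + 1)) =
    MvPolynomial.X (2 * g + 2) + dl 0 (2 * g + 2) := by
  have h1 : dl 0 (2 * g + 2) = dl 0 (2 * (g + 1)) := rfl
  rw [LL_succ, map_add, ro_LL g (2 * g) le_rfl, h1, dl_even, Finset.sum_range_succ, cls_last,
    map_neg, map_neg, map_sum, map_sum]
  have h2 : ∑ j : Fin g, ro g (emT g (MvPolynomial.X ⟨2 * j.1, by omega⟩)) =
      ∑ j ∈ Finset.range g, (MvPolynomial.X (2 * j + 2) - MvPolynomial.X (2 * j + 1) : PA) := by
    rw [← Fin.sum_univ_eq_sum_range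
      (fun j => (MvPolynomial.X (2 * j + 2) - MvPolynomial.X (2 * j + 1) : PA)) g]
    apply Finset.sum_congr rfl
    intro j _
    rw [emT, MvPolynomial.rename_X, ro_some]
  rw [h2, ← Finset.sum_neg_distrib]
  have h3 : ∀ j ∈ Finset.range g, (-(MvPolynomial.X (2 * j + 2) - MvPolynomial.X (2 * j + 1)) : PA)
      = MvPolynomial.X (2 * j + 1) - MvPolynomial.X (2 * j + 2) := fun j _ => by ring
  rw [Finset.sum_congr rfl h3]
  ring

private lemma ro_supp (g : ℕ) (h : MQ g) :
    ro g h ∈ MvPolynomial.supported ℝ {i | 1 ≤ i ∧ i ≤ 2 * g + 2} := by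
  induction h using MvPolynomial.induction_on with
  | C a =>
    rw [ro_C, ← MvPolynomial.algebraMap_eq]
    exact Subalgebra.algebraMap_mem (MvPolynomial.supported ℝ {i | 1 ≤ i ∧ i ≤ 2 * g + 2}) a
  | add p q hp hq => rw [map_add]; exact Subalgebra.add_mem _ hp hq
  | mul_X p o hp =>
    rw [map_mul]
    refine Subalgebra.mul_mem _ hp ?_
    cases o with
    | none =>
      rw [ro_none, MvPolynomial.X_mem_supported]
      exact ⟨le_rfl, by omega⟩
    | some j =>
      have := j.2
      rw [ro_some]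
      refine Subalgebra.sub_mem _ ?_ ?_ <;> rw [MvPolynomial.X_mem_supported]
      · exact ⟨by omega, by omega⟩
      · exact ⟨by omega, by omega⟩

theorem piM_surj (g k : ℕ) (hg : 1 ≤ g) (h : MQ g) (hh : h ∈ MQk g k) :
    ∃ f ∈ Bn (2 * g + 2) k, piM g f = h := by
  refine ⟨ro g h, ⟨?_, ro_supp g h⟩, piM_ro g h⟩
  have h1 : h.IsHomogeneous k := hh
  show (ro g h).IsHomogeneous k
  refine aeval_hom h1 _ fun o => ?_
  cases o with
  | none => exact MvPolynomial.isHomogeneous_X _ _
  | some j => exact (MvPolynomial.isHomogeneous_X _ _).sub (MvPolynomial.isHomogeneous_X _ _)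

private lemma ker_aux (g : ℕ) (f : PA)
    (hf : f ∈ MvPolynomial.supported ℝ {i | 1 ≤ i ∧ i ≤ 2 * g + 2}) :
    ∃ q ∈ MvPolynomial.supported ℝ {i | 1 ≤ i ∧ i ≤ 2 * g + 2},
      f - ro g (piM g f) = dl 0 (2 * g + 2) * q := by
  rw [MvPolynomial.supported_eq_adjoin_X] at hf
  induction hf using Algebra.adjoin_induction with
  | mem x hx =>
    obtain ⟨i, ⟨h1, h2⟩, rfl⟩ := hx
    obtain ⟨i, rfl⟩ : ∃ i', i = i' + 1 := ⟨i - 1, by omega⟩
    rw [piM_X' g i (by omega)]
    by_cases h3 : i ≤ 2 * g
    · refine ⟨0, Subalgebra.zero_mem _, ?_⟩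
      rw [ro_LL g i h3]
      ring
    · have h4 : i = 2 * g + 1 := by omega
      subst h4
      refine ⟨-1, Subalgebra.neg_mem _ (Subalgebra.one_mem _), ?_⟩
      rw [ro_LL_last]
      ring
  | algebraMap r =>
    refine ⟨0, Subalgebra.zero_mem _, ?_⟩
    rw [MvPolynomial.algebraMap_eq, piM_C, ro_C]
    ring
  | add x y _ _ hx hy =>
    obtain ⟨q1, h1, h2⟩ := hx
    obtain ⟨q2, h3, h4⟩ := hy
    refine ⟨q1 + q2, Subalgebra.add_mem _ h1 h3, ?_⟩
    rw [map_add, map_add]
    linear_combination h2 + h4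
  | mul x y hx' hy' hx hy =>
    obtain ⟨q1, h1, h2⟩ := hx
    obtain ⟨q2, h3, h4⟩ := hy
    refine ⟨q1 * y + ro g (piM g x) * q2, Subalgebra.add_mem _ (Subalgebra.mul_mem _ h1 hy')
      (Subalgebra.mul_mem _ (ro_supp g _) h3), ?_⟩
    rw [map_mul, map_mul]
    linear_combination y * h2 + ro g (piM g x) * h4

private lemma dl_hom (o n : ℕ) : (dl o n).IsHomogeneous 1 :=
  MvPolynomial.IsHomogeneous.sum _ _ _ fun _ _ => (MvPolynomial.isHomogeneous_X _ _).C_mul _

private lemma hc_mul {σ : Type} (p q : MvPolynomial σ ℝ) (hp : p.IsHomogeneous 1) (k : ℕ) :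
    MvPolynomial.homogeneousComponent (k + 1) (p * q) =
      p * MvPolynomial.homogeneousComponent k q := by
  conv_lhs => rw [← MvPolynomial.sum_homogeneousComponent q, Finset.mul_sum, map_sum]
  have h1 : ∀ i ∈ Finset.range (q.totalDegree + 1),
      MvPolynomial.homogeneousComponent (k + 1) (p * MvPolynomial.homogeneousComponent i q) =
        if i = k then p * MvPolynomial.homogeneousComponent k q else 0 := by
    intro i _
    have h2 : p * MvPolynomial.homogeneousComponent i q ∈
        MvPolynomial.homogeneousSubmodule σ ℝ (1 + i) :=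
      hp.mul (MvPolynomial.homogeneousComponent_isHomogeneous i q)
    rw [MvPolynomial.homogeneousComponent_of_mem h2]
    by_cases h3 : i = k
    · subst h3
      rw [if_pos rfl, if_pos (by omega)]
    · rw [if_neg h3, if_neg (by omega)]
  rw [Finset.sum_congr rfl h1, Finset.sum_ite_eq']
  split_ifs with h4
  · rfl
  · rw [MvPolynomial.homogeneousComponent_eq_zero k q (by
      rw [Finset.mem_range] at h4; omega), mul_zero]

private lemma hc_supp {σ : Type} (s : Set σ) (q : MvPolynomial σ ℝ)
    (hq : q ∈ MvPolynomial.supported ℝ s) (k : ℕ) :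
    MvPolynomial.homogeneousComponent k q ∈ MvPolynomial.supported ℝ s := by
  classical
  rw [MvPolynomial.homogeneousComponent_apply]
  apply Subalgebra.sum_mem
  intro d hd
  rw [Finset.mem_filter] at hd
  rw [MvPolynomial.mem_supported] at hq ⊢
  intro i hi
  rw [MvPolynomial.vars_monomial (MvPolynomial.mem_support_iff.mp hd.1)] at hi
  apply hq
  rw [Finset.mem_coe, MvPolynomial.mem_vars_iff_mem_support]
  exact ⟨d, hd.1, hi⟩

theorem piM_ker (g k : ℕ) (hg : 1 ≤ g) (f : PA) (hf : f ∈ Bn (2 * g + 2) (k + 1))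
    (h : piM g f = 0) : ∃ q ∈ Bn (2 * g + 2) k, f = dl 0 (2 * g + 2) * q := by
  obtain ⟨q, h1, h2⟩ := ker_aux g f hf.2
  rw [h, map_zero, sub_zero] at h2
  refine ⟨MvPolynomial.homogeneousComponent k q,
    ⟨MvPolynomial.homogeneousComponent_mem k q, hc_supp _ q h1 k⟩, ?_⟩
  rw [← hc_mul _ _ (dl_hom _ _), ← h2]
  exact (MvPolynomial.homogeneousComponent_eq_self hf.1).symm

theorem SM_mem (g k i : ℕ) (h : MQ g) (hh : h ∈ MQk g k) : SM g i h ∈ MQk g k := by
  have h1 : h.IsHomogeneous k := hh
  refine aeval_hom h1 _ fun o => ?_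
  cases o with
  | none =>
    show (if i = 1 then MvPolynomial.X none - emT g (cls g 0) else
      (MvPolynomial.X none : MQ g)).IsHomogeneous 1
    split_ifs
    · exact (MvPolynomial.isHomogeneous_X _ _).sub (emT_hom g (cls_hom _))
    · exact MvPolynomial.isHomogeneous_X _ _
  | some j => exact emT_hom g (twist_hom _ (MvPolynomial.isHomogeneous_X _ _))

private lemma pderiv_emT (g : ℕ) (v : MvPolynomial (Fin (2 * g)) ℝ) :
    MvPolynomial.pderiv none (emT g v) = 0 := by
  induction v using MvPolynomial.induction_on with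
  | C a => rw [emT_C, MvPolynomial.pderiv_C]
  | add p q hp hq => rw [map_add, map_add, hp, hq, add_zero]
  | mul_X p j hp =>
    rw [map_mul, MvPolynomial.pderiv_mul, hp, emT, MvPolynomial.rename_X,
      MvPolynomial.pderiv_X_of_ne (by simp)]
    ring

theorem SM_pderiv (g i : ℕ) (h : MQ g) :
    MvPolynomial.pderiv none (SM g i h) = SM g i (MvPolynomial.pderiv none h) := by
  show MvPolynomial.pderiv none (sM g i h) = sM g i (MvPolynomial.pderiv none h)
  induction h using MvPolynomial.induction_on with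
  | C a => rw [sM_C, MvPolynomial.pderiv_C, map_zero]
  | add p q hp hq => rw [map_add, map_add, map_add, map_add, hp, hq]
  | mul_X p o hp =>
    rw [map_mul, MvPolynomial.pderiv_mul, hp, MvPolynomial.pderiv_mul, map_add, map_mul, map_mul]
    congr 2
    cases o with
    | none =>
      rw [MvPolynomial.pderiv_X_self, map_one, sM_none]
      split_ifs
      · rw [map_sub, pderiv_emT, MvPolynomial.pderiv_X_self, sub_zero]
      · rw [MvPolynomial.pderiv_X_self]
    | some j =>
      rw [MvPolynomial.pderiv_X_of_ne (by simp), map_zero, sM, MvPolynomial.aeval_X]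
      exact pderiv_emT g _

theorem SM_BRel (g : ℕ) (hg : 1 ≤ g) : BRel (SM g) 0 (2 * g + 2) := by
  constructor
  · intro i j h1 h2 h3
    apply LinearMap.ext
    intro h
    rw [← piM_ro g h]
    simp only [Module.End.mul_apply]
    rw [← piM_SA g j hg (by omega) (by omega), ← piM_SA g i hg (by omega) (by omega),
      ← piM_SA g i hg (by omega) (by omega), ← piM_SA g j hg (by omega) (by omega)]
    exact congrArg (piM g) (DFunLike.congr_fun (SA_comm i j (by omega) h2) (ro g h))
  · intro i h1 h2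
    apply LinearMap.ext
    intro h
    rw [← piM_ro g h]
    simp only [Module.End.mul_apply]
    rw [← piM_SA g i hg (by omega) (by omega), ← piM_SA g (i + 1) hg (by omega) (by omega),
      ← piM_SA g i hg (by omega) (by omega), ← piM_SA g (i + 1) hg (by omega) (by omega),
      ← piM_SA g i hg (by omega) (by omega), ← piM_SA g (i + 1) hg (by omega) (by omega)]
    exact congrArg (piM g) (DFunLike.congr_fun (SA_braid i (by omega)) (ro g h))

theorem emT_inj (g : ℕ) (v : MvPolynomial (Fin (2 * g)) ℝ) (h : emT g v = 0) : v = 0 :=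
  MvPolynomial.rename_injective _ (Option.some_injective _) (by rw [map_zero]; exact h)

theorem emT_mem (g k : ℕ) (v : MvPolynomial (Fin (2 * g)) ℝ) (hv : v ∈ Wsp g k) :
    emT g v ∈ MQk g k := emT_hom g hv

theorem pderiv_none_mem (g k : ℕ) (h : MQ g) (hh : h ∈ MQk g (k + 1)) :
    MvPolynomial.pderiv none h ∈ MQk g k := by
  have h1 : h.IsHomogeneous (k + 1) := hh
  show (MvPolynomial.pderiv none h).IsHomogeneous k
  intro d hd
  rw [MvPolynomial.coeff_pderiv] at hd
  have h2 := h1 (left_ne_zero_of_mul hd)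
  rw [map_add] at h2
  have h3 : (Finsupp.weight (1 : Option (Fin (2 * g)) → ℕ)) (Finsupp.single none 1) = 1 := by
    simp [Finsupp.weight_single]
  rw [h3] at h2
  omega

theorem pderiv_none_surj (g k : ℕ) (h : MQ g) (hh : h ∈ MQk g k) :
    ∃ h' ∈ MQk g (k + 1), MvPolynomial.pderiv none h' = h := by
  have h1 : h.IsHomogeneous k := hh
  refine ⟨∑ d ∈ h.support, MvPolynomial.monomial (d + Finsupp.single none 1)
    (MvPolynomial.coeff d h / ((d none : ℝ) + 1)), ?_, ?_⟩
  · apply Submodule.sum_mem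
    intro d hd
    apply MvPolynomial.isHomogeneous_monomial
    have h2 := h1 (MvPolynomial.mem_support_iff.mp hd)
    have h3 : Finsupp.degree d = k := by
      rw [Finsupp.degree_eq_weight_one]
      exact h2
    rw [map_add, h3]
    simp
  · rw [map_sum]
    conv_rhs => rw [← MvPolynomial.support_sum_monomial_coeff h]
    apply Finset.sum_congr rfl
    intro d _
    rw [MvPolynomial.pderiv_monomial, add_tsub_cancel_right]
    congr 1
    have : ((d none : ℝ) + 1) ≠ 0 := by positivity
    simp only [Finsupp.add_apply, Finsupp.single_eq_same]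
    push_cast
    field_simp

theorem emT_of_pderiv (g k : ℕ) (h : MQ g) (hh : h ∈ MQk g k)
    (hd : MvPolynomial.pderiv none h = 0) : ∃ v ∈ Wsp g k, emT g v = h := by
  classical
  have h1 : ∀ d, MvPolynomial.coeff d h ≠ 0 → d none = 0 := by
    intro d hd'
    by_contra h2
    have h3 := MvPolynomial.coeff_pderiv (i := none) h (d - Finsupp.single none 1)
    have h4 : d - Finsupp.single none 1 + Finsupp.single none 1 = d := by
      apply tsub_add_cancel_of_le
      rw [Finsupp.single_le_iff]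
      omega
    rw [hd, h4, MvPolynomial.coeff_zero] at h3
    have h5 : (((d - Finsupp.single none 1 : Option (Fin (2 * g)) →₀ ℕ) none : ℝ) + 1) ≠ 0 := by
      positivity
    exact hd' ((mul_eq_zero.mp h3.symm).resolve_right h5)
  have h2 : (↑h.vars : Set (Option (Fin (2 * g)))) ⊆ Set.range Option.some := by
    intro o ho
    rw [Finset.mem_coe, MvPolynomial.mem_vars_iff_mem_support] at ho
    obtain ⟨d, h3, h4⟩ := ho
    cases o with
    | none => exact absurd (h1 d (MvPolynomial.mem_support_iff.mp h3)) (Finsupp.mem_support_iff.mp h4)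
    | some j => exact ⟨j, rfl⟩
  obtain ⟨v, hv⟩ := MvPolynomial.exists_rename_eq_of_vars_subset_range h Option.some
    (Option.some_injective _) h2
  refine ⟨v, ?_, hv⟩
  have h3 : (MvPolynomial.rename Option.some v).IsHomogeneous k := by
    rw [hv]; exact hh
  exact (MvPolynomial.IsHomogeneous.rename_isHomogeneous_iff (Option.some_injective _)).mp h3

end

end BrV
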