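import Pool.Agent.Lib.BrV.RelSal
import Pool.Agent.Lib.BrV.Coassoc
import Pool.Agent.Lib.BrV.PiMap

/-!
# BrV.Desc: exactness of `Sal(Sym^k V)` (7.5), (8.1)

`n = 2g + 2`.
`salMQ`: let `x` be a cycle of `Sal_r` with coefficients in `MQk g (k+1)`.  Lift: `x1` with coefficients in `Bn n (k+1)`, same supports (`piM_surj`, lift `0` to `0`), `mapRange piM x1 = x`.
 `mapRange piM (sal SA x1) = sal (SM g) x = 0` (`sal_nat`, `piM_SA`), and `sal SA x1` has coefficients in `Bn n (k+1)` (`sal_mem`, `SA_mem_Bn`), so (`piM_ker`) `sal SA x1 l = dl 0 n * b l`, `b l ∈ Bn n k`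
 (`b l = 0` where `sal SA x1 l = 0`).  `relSal`: `x1 = sal SA y + δ z`; apply `piM`: `x = sal (SM g) (piM y)` (`piM_dl`).
`salSym` (8.1): `φ` a cycle with coefficients in `Wsp g (k+1)`; `emT φ` is a cycle in `Sal(MQk g (k+1))` (`SM_emT`, `sal_nat`), `= sal ψ`, `ψ` of degree `r+1`.  `E = pderiv none`: `sal (E ψ) = E (sal ψ) = E (emT φ) = 0`
 (`SM_pderiv`), `E ψ` has coefficients in `MQk g k`, so `E ψ = sal χ`, `χ` of degree `r + 2`; `χ = E χ'` coefficientwise (`pderiv_none_surj`; same support), `χ'` with coefficients in `MQk g (k+1)`.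
 `ψ' = ψ - sal χ'`: `E ψ' = 0`, so `ψ' = emT φ'` coefficientwise (`emT_of_pderiv`), `sal ψ' = emT φ - sal (sal χ') = emT φ` (`sal_sal`, `SM_BRel`), so `sal (ST g) φ' = φ` (`emT_inj`).
-/

namespace BrV

open Finsupp Pool.Agent.Lib.BrSym

private theorem exists_lift {M M' : Type*} [AddCommGroup M] [Module ℝ M] [AddCommGroup M']
    [Module ℝ M'] (φ : M →ₗ[ℝ] M') (N : Submodule ℝ M) (x' : List ℕ →₀ M')
    (h : ∀ l, ∃ m ∈ N, φ m = x' l) :
    ∃ x : List ℕ →₀ M, (∀ l, x l ∈ N) ∧ (∀ l, φ (x l) = x' l) ∧ ∀ l, x l ≠ 0 → x' l ≠ 0 := by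
  classical
  choose m hm hφ using h
  refine ⟨Finsupp.onFinset x'.support (fun l => if x' l = 0 then 0 else m l) ?_, ?_, ?_, ?_⟩
  · intro l hl
    rw [Finsupp.mem_support_iff]
    intro h
    exact hl (if_pos h)
  · intro l
    rw [Finsupp.onFinset_apply]
    split_ifs with h
    · exact N.zero_mem
    · exact hm l
  · intro l
    rw [Finsupp.onFinset_apply]
    split_ifs with h
    · rw [h, map_zero]
    · exact hφ l
  · intro l hl h
    rw [Finsupp.onFinset_apply] at hl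
    exact hl (if_pos h)

private theorem mapRange_lift {M M' : Type*} [AddCommGroup M] [Module ℝ M] [AddCommGroup M']
    [Module ℝ M'] (φ : M →ₗ[ℝ] M') (x : List ℕ →₀ M) (x' : List ℕ →₀ M')
    (h : ∀ l, φ (x l) = x' l) : Finsupp.mapRange.linearMap φ x = x' := by
  ext l
  exact h l

private theorem mapRange_ne {M M' : Type*} [AddCommGroup M] [Module ℝ M] [AddCommGroup M']
    [Module ℝ M'] (φ : M →ₗ[ℝ] M') (x : List ℕ →₀ M) (l : List ℕ)
    (h : Finsupp.mapRange.linearMap φ x l ≠ 0) : x l ≠ 0 := by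
  intro h0
  apply h
  change φ (x l) = 0
  rw [h0, map_zero]

theorem salMQ (g k r : ℕ) (hg : 1 ≤ g) (hV : Va r (2 * g + 2) (k + 1)) :
    SalEx (SM g) (MQk g (k + 1)) r (2 * g + 2) := by
  intro x hx hc
  let φ : PA →ₗ[ℝ] MQ g := (piM g).toLinearMap
  obtain ⟨x1, h1, h2, h3⟩ := exists_lift φ (Bn (2 * g + 2) (k + 1)) x
    fun l => piM_surj g (k + 1) hg (x l) (hx.2 l)
  have hx1 : IsS (Bn (2 * g + 2) (k + 1)) r (2 * g + 2) x1 := ⟨fun l hl => hx.1 l (h3 l hl), h1⟩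
  have hnat : ∀ y : List ℕ →₀ PA, (∀ l, y l ≠ 0 → tot l = 2 * g + 2) →
      Finsupp.mapRange.linearMap φ (sal SA y) = sal (SM g) (Finsupp.mapRange.linearMap φ y) :=
    fun y hy => sal_nat φ SA (SM g) (2 * g + 2)
      (fun i hi hi' f => piM_SA g i hg hi (by omega) f) y hy
  have h4 : ∀ l, piM g (sal SA x1 l) = 0 := by
    intro l
    have h5 := hnat x1 fun l hl => (hx1.1 l hl).2
    rw [mapRange_lift φ x1 x h2, hc] at h5
    exact DFunLike.congr_fun h5 l
  have h5 : ∀ l, sal SA x1 l ∈ Bn (2 * g + 2) (k + 1) :=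
    sal_mem _ SA (2 * g + 2) (fun i hi hi' f hf => SA_mem_Bn _ _ i hi hi' f hf) x1
      (fun l hl => (hx1.1 l hl).2) h1
  obtain ⟨b, hb1, hb2, -⟩ := exists_lift (LinearMap.mulLeft ℝ (dl 0 (2 * g + 2)))
    (Bn (2 * g + 2) k) (sal SA x1) fun l => by
      obtain ⟨q, hq, hq2⟩ := piM_ker g k hg (sal SA x1 l) (h5 l) (h4 l)
      exact ⟨q, hq, hq2.symm⟩
  obtain ⟨y, z, hy, hz, hyz⟩ := relSal r (2 * g + 2) k (by omega) hV x1 hx1 b hb1
    fun l => (hb2 l).symm
  refine ⟨Finsupp.mapRange.linearMap φ y, ⟨fun l hl => hy.1 l (mapRange_ne φ y l hl),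
    fun l => piM_mem g (k + 1) hg (y l) (hy.2 l)⟩, ?_⟩
  rw [← hnat y fun l hl => (hy.1 l hl).2]
  ext1 l
  change piM g (sal SA y l) = x l
  rw [← h2 l]
  change _ = piM g (x1 l)
  rw [hyz l, map_add, map_mul, piM_dl g hg, zero_mul, add_zero]

theorem salSym (g k r : ℕ) (hg : 1 ≤ g)
    (h1 : SalEx (SM g) (MQk g (k + 1)) r (2 * g + 2))
    (h2 : SalEx (SM g) (MQk g k) (r + 1) (2 * g + 2)) :
    SalEx (ST g) (Wsp g (k + 1)) r (2 * g + 2) := by
  intro f hf hc
  let e : MvPolynomial (Fin (2 * g)) ℝ →ₗ[ℝ] MQ g := (emT g).toLinearMap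
  let E : MQ g →ₗ[ℝ] MQ g := (MvPolynomial.pderiv (R := ℝ) (none : Option (Fin (2 * g)))).toLinearMap
  have hnate : ∀ y : List ℕ →₀ MvPolynomial (Fin (2 * g)) ℝ,
      (∀ l, y l ≠ 0 → tot l = 2 * g + 2) →
      Finsupp.mapRange.linearMap e (sal (ST g) y)
        = sal (SM g) (Finsupp.mapRange.linearMap e y) :=
    fun y hy => sal_nat e (ST g) (SM g) (2 * g + 2)
      (fun i hi hi' v => (SM_emT g i v).symm) y hy
  have hnatE : ∀ y : List ℕ →₀ MQ g, (∀ l, y l ≠ 0 → tot l = 2 * g + 2) →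
      Finsupp.mapRange.linearMap E (sal (SM g) y)
        = sal (SM g) (Finsupp.mapRange.linearMap E y) :=
    fun y hy => sal_nat E (SM g) (SM g) (2 * g + 2) (fun i hi hi' v => SM_pderiv g i v) y hy
  have hEe : ∀ v, E (e v) = 0 := by
    intro v
    classical
    change MvPolynomial.pderiv none (MvPolynomial.rename Option.some v) = 0
    apply MvPolynomial.pderiv_eq_zero_of_notMem_vars
    intro h
    have h3 := MvPolynomial.vars_rename Option.some v h
    rw [Finset.mem_image] at h3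
    obtain ⟨a, -, ha⟩ := h3
    exact absurd ha (by simp)
  -- the cycle with coefficients in `MQ`
  obtain ⟨ps, hps, hps2⟩ := h1 (Finsupp.mapRange.linearMap e f)
    ⟨fun l hl => hf.1 l (mapRange_ne e f l hl), fun l => emT_mem g (k + 1) (f l) (hf.2 l)⟩
    (by rw [← hnate f fun l hl => (hf.1 l hl).2, hc, map_zero])
  obtain ⟨ch, hch, hch2⟩ := h2 (Finsupp.mapRange.linearMap E ps)
    ⟨fun l hl => hps.1 l (mapRange_ne E ps l hl), fun l => pderiv_none_mem g k (ps l) (hps.2 l)⟩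
    (by
      rw [← hnatE ps fun l hl => (hps.1 l hl).2, hps2]
      ext1 l
      exact hEe (f l))
  obtain ⟨ch', hc1, hc2, hc3⟩ := exists_lift E (MQk g (k + 1)) ch
    fun l => pderiv_none_surj g k (ch l) (hch.2 l)
  have hch' : ∀ l, ch' l ≠ 0 → l.length = r + 1 + 1 ∧ tot l = 2 * g + 2 :=
    fun l hl => hch.1 l (hc3 l hl)
  have hs1 := sal_supp (SM g) (r + 1 + 1) (2 * g + 2) ch' hch'
  have hs2 := sal_mem (MQk g (k + 1)) (SM g) (2 * g + 2)
    (fun i _ _ x hx => SM_mem g (k + 1) i x hx) ch' (fun l hl => (hch' l hl).2) hc1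
  let ps' : List ℕ →₀ MQ g := ps - sal (SM g) ch'
  have hps'1 : ∀ l, ps' l ≠ 0 → l.length = r + 1 ∧ tot l = 2 * g + 2 := by
    intro l hl
    by_cases h0 : ps l = 0
    · have h3 : sal (SM g) ch' l ≠ 0 := by
        intro h4
        apply hl
        change ps l - sal (SM g) ch' l = 0
        rw [h0, h4, sub_zero]
      have h4 := hs1 l h3
      exact ⟨by omega, h4.2⟩
    · exact hps.1 l h0
  have hps'2 : ∀ l, ps' l ∈ MQk g (k + 1) := fun l => sub_mem (hps.2 l) (hs2 l)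
  have hps'3 : ∀ l, MvPolynomial.pderiv none (ps' l) = 0 := by
    intro l
    change E (ps l - sal (SM g) ch' l) = 0
    rw [map_sub]
    have h3 := hnatE ch' fun l hl => (hch' l hl).2
    rw [mapRange_lift E ch' ch hc2, hch2] at h3
    have h4 := DFunLike.congr_fun h3 l
    have h5 : E (sal (SM g) ch' l) = E (ps l) := h4
    rw [h5, sub_self]
  obtain ⟨f', hf1, hf2, hf3⟩ := exists_lift e (Wsp g (k + 1)) ps'
    fun l => emT_of_pderiv g (k + 1) (ps' l) (hps'2 l) (hps'3 l)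
  have hf' : IsS (Wsp g (k + 1)) (r + 1) (2 * g + 2) f' :=
    ⟨fun l hl => hps'1 l (hf3 l hl), hf1⟩
  refine ⟨f', hf', ?_⟩
  have h3 := hnate f' fun l hl => (hf'.1 l hl).2
  rw [mapRange_lift e f' ps' hf2] at h3
  have h4 : sal (SM g) ps' = Finsupp.mapRange.linearMap e f := by
    change sal (SM g) (ps - sal (SM g) ch') = _
    rw [map_sub, sal_sal (SM g) (2 * g + 2) (SM_BRel g hg) ch' (fun l hl => (hch' l hl).2),
      sub_zero, hps2]
  rw [h4] at h3
  ext1 l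
  have h5 : e (sal (ST g) f' l) = e (f l) := DFunLike.congr_fun h3 l
  have h6 : emT g (sal (ST g) f' l - f l) = 0 := by
    rw [map_sub]
    exact sub_eq_zero.2 h5
  exact sub_eq_zero.1 (emT_inj g _ h6)

end BrV
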