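import Pool.Agent.Lib.BrV.Alg

/-!
# BrV.Ideals: the graded left ideals used (end of section 1)

Proofs.  `mul_mem`: bilinearity reduces to words where needed; `RG k`: `np, nz` are additive (`IsH_mu` for words);
`Rpl`: `mu_nil` (`f ∈ Rpl ↔ f [] = 0`); `Rp`, `Rz`, `F m`: `f * (g * p^j) = (f * g) * p^j` (`mu_assoc`);
`J`: `(f * g) * z = f * (g * z)`.
`cmp_mem`: `cmp` is linear; `cmp_mu_right`, `cmp_mu_right_zero`: the components of `g * p^j` are the
`(cmp g) * p^j` or zero; `J`: `cmp n k g * z = cmp n (k+1) (g * z)`.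
Sums and suprema: `Submodule.mem_sup`, `Submodule.iSup_induction` (or `Submodule.iSup_le` with the comap of `cmp`,
which is the linear map `Finsupp.filterLinearMap`-like; define it privately).
`Ex_sup`: for `a` of bidegree `(n,k)`: take `b` from `Ex ⊤ Y k`; it is a combination of words with `nz = k`, so in `RG k`.
-/

namespace BrV

open Finsupp

theorem mem_Rpl (f : R) : f ∈ Rpl ↔ f [] = 0 := by
  unfold Rpl
  rw [Finsupp.mem_supported']
  constructor
  · intro h
    exact h [] (by simp)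
  · intro h x hx
    have : x = [] := by
      by_contra hne
      exact hx hne
    rw [this]
    exact h

theorem mem_RG (k : ℕ) (f : R) : f ∈ RG k ↔ ∀ w, f w ≠ 0 → k ≤ nz w := by
  unfold RG
  rw [Finsupp.mem_supported']
  constructor
  · intro h w hw
    by_contra hk
    exact hw (h w hk)
  · intro h w hw
    by_contra hne
    exact hw (h w hne)

theorem mem_Rp (f : R) : f ∈ Rp ↔ ∃ g, mu g (bw [true]) = f := by
  exact Iff.rfl

theorem mem_Rz (f : R) : f ∈ Rz ↔ ∃ g, mu g (bw [false]) = f := by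
  exact Iff.rfl

theorem mem_J (f : R) : f ∈ J ↔ mu f (bw [false]) ∈ Rp := by
  exact Iff.rfl

/-- the component as a linear map -/
private noncomputable def cmpL (n k : ℕ) : R →ₗ[ℝ] R where
  toFun := cmp n k
  map_add' := fun _ _ => Finsupp.filter_add
  map_smul' := fun _ _ => Finsupp.filter_smul

private theorem cmpL_apply (n k : ℕ) (f : R) : cmpL n k f = cmp n k f := rfl

private theorem cmp_zero' (n k : ℕ) : cmp n k 0 = 0 := (cmpL n k).map_zero

private theorem of_cmp_ne (n k : ℕ) (f : R) (w : Wd) (h : cmp n k f w ≠ 0) : f w ≠ 0 := by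
  intro h0
  apply h
  unfold cmp
  rw [Finsupp.filter_apply]
  split_ifs
  · exact h0
  · rfl

private theorem range_LI (v : Wd) : IsLI (LinearMap.range (rm v)) := by
  refine ⟨?_, ?_⟩
  · rintro f g ⟨x, rfl⟩
    refine ⟨mu f x, ?_⟩
    show mu (mu f x) (bw v) = mu f (mu x (bw v))
    exact mu_assoc _ _ _
  · rintro n k g ⟨x, rfl⟩
    show cmp n k (mu x (bw v)) ∈ _
    by_cases h : n < np v ∨ k < nz v
    · rw [cmp_mu_right_zero n k _ _ x (bw v) (IsH_bw v) h]
      exact Submodule.zero_mem _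
    · push Not at h
      obtain ⟨n', rfl⟩ := Nat.exists_eq_add_of_le' h.1
      obtain ⟨k', rfl⟩ := Nat.exists_eq_add_of_le' h.2
      rw [cmp_mu_right n' k' _ _ x (bw v) (IsH_bw v)]
      exact ⟨_, rfl⟩

private theorem iSup_LI {ι : Sort*} (X : ι → Submodule ℝ R) (h : ∀ i, IsLI (X i)) :
    IsLI (⨆ i, X i) := by
  refine ⟨?_, ?_⟩
  · intro f g hg
    have : (⨆ i, X i) ≤ (⨆ i, X i).comap (mu f) :=
      iSup_le fun i x hx => (le_iSup X i) ((h i).mul_mem f x hx)
    exact this hg
  · intro n k g hg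
    have : (⨆ i, X i) ≤ (⨆ i, X i).comap (cmpL n k) :=
      iSup_le fun i x hx => (le_iSup X i) ((h i).cmp_mem n k x hx)
    exact this hg

theorem IsLI_top : IsLI ⊤ := by
  exact ⟨fun _ _ _ => trivial, fun _ _ _ _ => trivial⟩

theorem IsLI_bot : IsLI ⊥ := by
  refine ⟨?_, ?_⟩
  · intro f g hg
    rw [Submodule.mem_bot] at hg ⊢
    rw [hg, map_zero]
  · intro n k g hg
    rw [Submodule.mem_bot] at hg ⊢
    rw [hg, cmp_zero']

theorem IsLI_RG (k : ℕ) : IsLI (RG k) := by
  refine ⟨?_, ?_⟩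
  · intro f g hg
    have hle : RG k ≤ (RG k).comap (mu f) := by
      conv_lhs => unfold RG
      rw [Finsupp.supported_eq_span_single, Submodule.span_le]
      rintro _ ⟨w, hw, rfl⟩
      show mu f (bw w) ∈ RG k
      induction f using Finsupp.induction_linear with
      | zero =>
        rw [map_zero, LinearMap.zero_apply]
        exact Submodule.zero_mem _
      | add f1 f2 h1 h2 =>
        rw [map_add, LinearMap.add_apply]
        exact Submodule.add_mem _ h1 h2
      | single v a =>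
        have e : (Finsupp.single v a : R) = a • bw v := by
          unfold bw
          rw [Finsupp.smul_single, smul_eq_mul, mul_one]
        rw [e, map_smul, LinearMap.smul_apply]
        apply Submodule.smul_mem
        rw [mem_RG]
        intro x hx
        have := (IsH_mu _ _ _ _ _ _ (IsH_bw v) (IsH_bw w) x hx).2
        have hw' : k ≤ nz w := hw
        omega
    exact hle hg
  · intro n l g hg
    rw [mem_RG] at hg ⊢
    intro w hw
    exact hg w (of_cmp_ne n l g w hw)

theorem IsLI_Rpl : IsLI Rpl := by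
  refine ⟨?_, ?_⟩
  · intro f g hg
    rw [mem_Rpl] at hg ⊢
    rw [mu_nil, hg, mul_zero]
  · intro n k g hg
    rw [mem_Rpl] at hg ⊢
    by_contra h
    exact of_cmp_ne n k g [] h hg

theorem IsLI_Rp : IsLI Rp := by
  exact range_LI _

theorem IsLI_Rz : IsLI Rz := by
  exact range_LI _

theorem IsLI_J : IsLI J := by
  refine ⟨?_, ?_⟩
  · intro f g hg
    rw [mem_J] at hg ⊢
    rw [mu_assoc]
    exact IsLI_Rp.mul_mem _ _ hg
  · intro n k g hg
    rw [mem_J] at hg ⊢
    rw [← cmp_mu_right n k _ _ g (bw [false]) (IsH_bw [false])]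
    exact IsLI_Rp.cmp_mem _ _ _ hg

theorem IsLI_F (m : ℕ) : IsLI (F m) := by
  exact iSup_LI _ fun j => iSup_LI _ fun _ => range_LI _

theorem IsLI_sup (X Y : Submodule ℝ R) (hX : IsLI X) (hY : IsLI Y) : IsLI (X ⊔ Y) := by
  refine ⟨?_, ?_⟩
  · intro f g hg
    have : X ⊔ Y ≤ (X ⊔ Y).comap (mu f) :=
      sup_le (fun x hx => Submodule.mem_sup_left (hX.mul_mem f x hx))
        (fun x hx => Submodule.mem_sup_right (hY.mul_mem f x hx))
    exact this hg
  · intro n k g hg
    have : X ⊔ Y ≤ (X ⊔ Y).comap (cmpL n k) :=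
      sup_le (fun x hx => Submodule.mem_sup_left (hX.cmp_mem n k x hx))
        (fun x hx => Submodule.mem_sup_right (hY.cmp_mem n k x hx))
    exact this hg

theorem IsLI_inf (X Y : Submodule ℝ R) (hX : IsLI X) (hY : IsLI Y) : IsLI (X ⊓ Y) := by
  exact ⟨fun f g hg => ⟨hX.mul_mem f g hg.1, hY.mul_mem f g hg.2⟩,
    fun n k g hg => ⟨hX.cmp_mem n k g hg.1, hY.cmp_mem n k g hg.2⟩⟩

private theorem range_le_Rpl (v : Wd) (hv : v ≠ []) : LinearMap.range (rm v) ≤ Rpl := by
  rintro _ ⟨x, rfl⟩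
  rw [mem_Rpl]
  show mu x (bw v) [] = 0
  rw [mu_nil]
  have : bw v [] = 0 := by
    unfold bw
    exact Finsupp.single_eq_of_ne (Ne.symm hv)
  rw [this, mul_zero]

theorem Rp_le_Rpl : Rp ≤ Rpl := by
  exact range_le_Rpl _ (by simp)

theorem Rz_le_Rpl : Rz ≤ Rpl := by
  exact range_le_Rpl _ (by simp)

theorem F_le_Rpl (m : ℕ) (h : 1 ≤ m) : F m ≤ Rpl := by
  refine iSup_le fun j => iSup_le fun hj => range_le_Rpl _ ?_
  intro h0
  have := congrArg List.length h0
  simp only [pw, List.length_replicate, List.length_nil] at this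
  omega

theorem RG_le_Rpl (k : ℕ) (h : 1 ≤ k) : RG k ≤ Rpl := by
  intro f hf
  rw [mem_RG] at hf
  rw [mem_Rpl]
  by_contra h0
  have := hf [] h0
  simp only [nz, List.count_nil] at this
  omega

theorem RG_zero : RG 0 = ⊤ := by
  rw [eq_top_iff]
  intro f _
  rw [mem_RG]
  intro w _
  exact Nat.zero_le _

theorem Ex_sup (Y : Submodule ℝ R) (k : ℕ) (h : Ex ⊤ Y k) : Ex (Y ⊔ RG k) Y k := by
  intro n a ha _ hm
  obtain ⟨b, _, hb, hab⟩ := h n a ha trivial hm
  refine ⟨b, Submodule.mem_sup_right ?_, hb, hab⟩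
  rw [mem_RG]
  intro w hw
  exact (hb w hw).2.ge

end BrV
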