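import Pool.Agent.Lib.BrV.Str
import Pool.Agent.Lib.BrV.Ideals

/-!
# BrV.ExK: `p` is exact on `R / F 1` in positive `z`-degree (section 3.2)

Proof.  Let `a` be of bidegree `(n,k)`, `k ≥ 1`, `p * a ∈ F 1`.  `G_sup_F1` and components: `a = a0 + a1`,
`a0 ∈ G'`, `a1 ∈ F 1`, both of bidegree `(n,k)` (use `IsLI_F`; `cmp` preserves `G'`); `p * a0 ∈ F 1`.  `a0` has no word ending in `p` and no empty word,
so `a0 = app false A`, `A = del false a0`, `IsH n (k-1) A`.
For every `w` with `IsH m j w` put `ad w = p * w + (-1)^m w * p`.  From `sh_cons` (bilinear in `w`):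
  `p * (app false w) = app false (p * w) + (-1)^m app true (app false w)`,
  `(app false w) * p = app true (app false w) - app false (w * p)`   (`p = bw [true]`, `sg [true] = -1`)
so `p * (app false w) - app false (ad w) = (-1)^m (app false w) * p ∈ Rp ≤ F 1`.   (*)
Hence `app false (ad A) ∈ F 1 ⊓ G' = 0`, `ad A = 0`.  `del_mu` (`c = true`): `del (p * A) = p * del A + (-1)^n A`,
`del (A * p) = A - (del A) * p`; so `0 = del (ad A) = 2 (-1)^n A + ad (del A)` with `ad (del A) = p * del A + (-1)^(n-1) (del A) * p`.
So `a0 = app false A = - 1/2 (-1)^n app false (ad (del A))`, and by (*) for `w = del A` this is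
`- 1/2 (-1)^n p * (app false (del A))` modulo `F 1`: `b = - 1/2 (-1)^n app false (del true A)`.
-/

namespace BrV

open Finsupp

private theorem tau_app_false (w : R) (t : ℝ) (h : tau w = t • w) :
    tau (app false w) = t • app false w := by
  ext x
  rw [tau_apply, Finsupp.smul_apply]
  cases x with
  | nil => simp [app_nil]
  | cons b x =>
    rw [app_cons]
    split_ifs with hb
    · have h1 : tau w x = t • w x := by rw [h]; rfl
      rw [tau_apply] at h1
      subst hb
      have : sg (false :: x) = sg x := by simp [sg, np]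
      rw [this, h1]
    · simp

private theorem tau_p : tau (bw [true]) = - bw [true] := by
  have h := tau_of_IsH (np [true]) (nz [true]) (bw [true]) (IsH_bw [true])
  rw [h]
  simp [np]

private theorem del_true_p : del true (bw [true]) = bw [] := by
  rw [← app_bw, del_app]

private theorem del_false_p : del false (bw [true]) = 0 := by
  rw [← app_bw, del_app_ne _ _ (by decide)]

private theorem p_nil : bw [true] ([] : Wd) = 0 := by
  rw [← app_bw, app_nil]

/-- formula (*) -/
private theorem star (w : R) (t : ℝ) (h : tau w = t • w) :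
    mu (bw [true]) (app false w) =
      app false (mu (bw [true]) w + t • mu w (bw [true])) + t • mu (app false w) (bw [true]) := by
  apply R_ext
  · rw [mu_nil, Finsupp.add_apply, Finsupp.smul_apply, mu_nil, app_nil, app_nil, p_nil]
    simp
  · intro c
    rw [del_mu]
    simp only [map_add, map_smul, del_mu]
    cases c
    · simp only [del_app, del_false_p, tau_p]
      simp
    · rw [del_app_ne _ _ (by decide), del_app_ne _ _ (by decide), del_app_ne _ _ (by decide),
        del_true_p, nil_mu, mu_one, tau_app_false w t h]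
      simp

theorem Ex_top_F1 (k : ℕ) (hk : 1 ≤ k) : Ex ⊤ (F 1) k := by
  intro n a ha _ hpa
  obtain ⟨g, hg, f, hf, haf⟩ := G_sup_F1 a
  have hcadd : ∀ x y : R, cmp n k (x + y) = cmp n k x + cmp n k y := by
    intro x y
    simp [cmp, Finsupp.filter_add]
  set a0 := cmp n k g with ha0
  set a1 := cmp n k f with ha1
  have hsum : a = a0 + a1 := by
    rw [← cmp_of_IsH n k a ha, haf, hcadd]
  have ha1F : a1 ∈ F 1 := (IsLI_F 1).cmp_mem n k f hf
  have ha0G : del true a0 = 0 := by
    ext w
    rw [del_apply, ha0]
    have h1 : g (true :: w) = 0 := by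
      rw [← del_apply]
      have : del true g = 0 := hg
      rw [this]; rfl
    simp only [cmp, Finsupp.filter_apply]
    split_ifs
    · simpa using h1
    · rfl
  have ha0H : IsH n k a0 := IsH_cmp n k g
  have ha0nil : a0 [] = 0 := by
    by_contra hne
    have := (ha0H [] hne).2
    simp [nz] at this
    omega
  set A := del false a0 with hA
  have ha0A : a0 = app false A := by
    have h := R_decomp a0
    rw [ha0nil, ha0G] at h
    simpa using h
  have hAH : IsH n (k - 1) A := by
    intro w hw
    have := IsH_del_false n k a0 ha0H w hw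
    exact ⟨this.1, by omega⟩
  have htA : tau A = (-1 : ℝ) ^ n • A := tau_of_IsH n (k - 1) A hAH
  have hRp : ∀ x : R, mu x (bw [true]) ∈ F 1 := fun x => Rp_le_F1 ((mem_Rp _).2 ⟨x, rfl⟩)
  have hpa0 : mu (bw [true]) a0 ∈ F 1 := by
    have h1 : mu (bw [true]) a0 = mu (bw [true]) a - mu (bw [true]) a1 := by
      rw [hsum, map_add]; abel
    rw [h1]
    exact Submodule.sub_mem _ hpa ((IsLI_F 1).mul_mem _ _ ha1F)
  set adA := mu (bw [true]) A + (-1 : ℝ) ^ n • mu A (bw [true]) with hadA
  have hadF : app false adA ∈ F 1 := by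
    have h1 : app false adA = mu (bw [true]) a0 - (-1 : ℝ) ^ n • mu (app false A) (bw [true]) := by
      rw [ha0A, star A _ htA]; abel
    rw [h1]
    exact Submodule.sub_mem _ hpa0 (Submodule.smul_mem _ _ (hRp _))
  have hadG : app false adA ∈ G' := by
    change del true (app false adA) = 0
    exact del_app_ne _ _ (by decide) _
  have had0 : adA = 0 := by
    have h1 := G_inf_F1 _ hadG hadF
    have h2 := congrArg (del false) h1
    rwa [del_app, map_zero] at h2
  set B := del true A with hB
  have hBH : ∀ w, B w ≠ 0 → np w + 1 = n ∧ nz w = k - 1 := IsH_del_true n (k - 1) A hAH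
  have htB : tau B = (-(-1 : ℝ) ^ n) • B := by
    ext w
    rw [tau_apply, Finsupp.smul_apply, smul_eq_mul]
    by_cases hw : B w = 0
    · rw [hw]; simp
    · have h1 := (hBH w hw).1
      rw [← h1, pow_succ]
      simp [sg]
  have hdel : (2 * (-1 : ℝ) ^ n) • A + (mu (bw [true]) B + (-(-1 : ℝ) ^ n) • mu B (bw [true])) = 0 := by
    have h1 := congrArg (del true) had0
    rw [hadA, map_add, map_smul, del_mu, del_mu, del_true_p, nil_mu, mu_one, tau_p, htA, map_zero] at h1
    rw [← h1, map_neg, ← hB]
    module
  have hsq : ((-1 : ℝ) ^ n) * (-1) ^ n = 1 := by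
    rw [← mul_pow]; simp
  have hAe : A = (-(1 / 2) * (-1 : ℝ) ^ n) • (mu (bw [true]) B + (-(-1 : ℝ) ^ n) • mu B (bw [true])) := by
    have h2 : mu (bw [true]) B + (-(-1 : ℝ) ^ n) • mu B (bw [true]) = -((2 * (-1 : ℝ) ^ n) • A) :=
      eq_neg_of_add_eq_zero_right hdel
    rw [h2, smul_neg, smul_smul]
    have : -(1 / 2) * (-1 : ℝ) ^ n * (2 * (-1) ^ n) = -1 := by
      linear_combination (-1 : ℝ) * hsq
    rw [this]; simp
  refine ⟨(-(1 / 2) * (-1 : ℝ) ^ n) • app false B, Submodule.mem_top, ?_, ?_⟩
  · intro w hw
    rw [Finsupp.smul_apply, smul_eq_mul] at hw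
    have hw' : app false B w ≠ 0 := right_ne_zero_of_mul hw
    cases w with
    | nil => exact absurd (app_nil _ _) hw'
    | cons b w =>
      rw [app_cons] at hw'
      split_ifs at hw' with hb
      · subst hb
        have := hBH w hw'
        refine ⟨?_, ?_⟩
        · simpa [np] using this.1
        · have h3 := this.2
          simp only [nz, List.count_cons_self] at h3 ⊢
          omega
      · exact absurd rfl hw'
  · have h1 : a - mu (bw [true]) ((-(1 / 2) * (-1 : ℝ) ^ n) • app false B) =
        a1 + (-(1 / 2) : ℝ) • mu (app false B) (bw [true]) := by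
      have e1 : a0 = (-(1 / 2) * (-1 : ℝ) ^ n) •
          app false (mu (bw [true]) B + (-(-1 : ℝ) ^ n) • mu B (bw [true])) := by
        rw [← map_smul, ← hAe]; exact ha0A
      rw [hsum, map_smul, star B _ htB, e1, smul_add, smul_smul]
      have : (-(1 / 2) * (-1 : ℝ) ^ n) * (-(-1) ^ n) = 1 / 2 := by
        linear_combination (1 / 2 : ℝ) * hsq
      rw [this]
      module
    rw [h1]
    exact Submodule.add_mem _ ha1F (Submodule.smul_mem _ _ (hRp _))

end BrV
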