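import Pool.Agent.Lib.BrV.Alg

/-!
# BrV.Pow: powers of `p` and `z` (section 1.4)

`pw j = p^j`, `zw j = z^j` as words; `cc (a+1) (b+1) = cc (a+1) b + (-1)^(b+1) * cc a (b+1)`,
`cc 0 b = cc (a+1) 0 = 1`.

Proofs.  `pow_mul`: `sh_cons` for `pw (a+1) = true :: pw a`, `pw (b+1) = true :: pw b`, with
`sg (pw (b+1)) = (-1)^(b+1)`; induction on `a + b`.  `cc_one`: `cc (a+1) 1 = cc (a+1) 0 - cc a 1 = 1 - cc a 1`.
`cc_two`: `cc (a+1) 2 = cc (a+1) 1 + cc a 2`.  `z_mul`: by `del_mu` with `c = false` (`tau (bw (zw b)) = bw (zw b)`)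
and `R_ext`, or by `sh_cons`; `Nat.choose_succ_succ`.
`cc_symm_one`: `cc 1 b`: `cc 1 (b+1) = cc 1 b + (-1)^(b+1)`.
-/

namespace BrV

open Finsupp

theorem np_pw (j : ℕ) : np (pw j) = j := by
  simp [np, pw]

theorem nz_pw (j : ℕ) : nz (pw j) = 0 := by
  simp [nz, pw, List.count_replicate]

theorem np_zw (j : ℕ) : np (zw j) = 0 := by
  simp [np, zw, List.count_replicate]

theorem nz_zw (j : ℕ) : nz (zw j) = j := by
  simp [nz, zw]

/-- a word without `z` is a power of `p` -/
theorem eq_pw (w : Wd) (h : nz w = 0) : w = pw (np w) := by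
  induction w with
  | nil => rfl
  | cons a w ih =>
    cases a with
    | false => simp [nz] at h
    | true =>
      have h' : nz w = 0 := by simpa [nz] using h
      have e : np (true :: w) = np w + 1 := by simp [np]
      rw [e, pw, List.replicate_succ]
      congr 1
      exact ih h'

/-- a word without `p` is a power of `z` -/
theorem eq_zw (w : Wd) (h : np w = 0) : w = zw (nz w) := by
  induction w with
  | nil => rfl
  | cons a w ih =>
    cases a with
    | true => simp [np] at h
    | false =>
      have h' : np w = 0 := by simpa [np] using h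
      have e : nz (false :: w) = nz w + 1 := by simp [nz]
      rw [e, zw, List.replicate_succ]
      congr 1
      exact ih h'

theorem pow_mul (a b : ℕ) : mu (bw (pw a)) (bw (pw b)) = cc a b • bw (pw (a + b)) := by
  induction a generalizing b with
  | zero =>
    have e : pw 0 = [] := rfl
    rw [e, nil_mu, Nat.zero_add]
    simp [cc]
  | succ a iha =>
    induction b with
    | zero =>
      have e : pw 0 = [] := rfl
      rw [e, mu_one, Nat.add_zero]
      simp [cc]
    | succ b ihb =>
      have e1 : pw (a + 1) = true :: pw a := rfl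
      have e2 : pw (b + 1) = true :: pw b := rfl
      have e3 : sh (pw (a + 1)) (pw b) = cc (a + 1) b • bw (pw (a + 1 + b)) := by
        rw [← mu_bw]; exact ihb
      have e4 : sh (pw a) (pw (b + 1)) = cc a (b + 1) • bw (pw (a + (b + 1))) := by
        rw [← mu_bw]; exact iha (b + 1)
      have e5 : sg (true :: pw b) = (-1) ^ (b + 1) := by
        rw [← e2]; simp [sg, np_pw]
      have e6 : pw (a + 1 + (b + 1)) = true :: pw (a + 1 + b) := rfl
      have e7 : pw (a + (b + 1)) = pw (a + 1 + b) := by
        congr 1; omega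
      have e8 : sh (pw (a + 1)) (pw (b + 1)) = app true (sh (pw (a + 1)) (pw b))
          + sg (true :: pw b) • app true (sh (pw a) (pw (b + 1))) := by
        rw [e1, e2]; exact sh_cons _ _ _ _
      rw [mu_bw, e8, e3, e4, e5, map_smul, map_smul, app_bw, app_bw, e6, e7, cc, smul_smul,
        ← add_smul]

theorem z_mul (a b : ℕ) :
    mu (bw (zw a)) (bw (zw b)) = ((a + b).choose a : ℝ) • bw (zw (a + b)) := by
  induction a generalizing b with
  | zero =>
    have e : zw 0 = [] := rfl
    rw [e, nil_mu, Nat.zero_add]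
    simp
  | succ a iha =>
    induction b with
    | zero =>
      have e : zw 0 = [] := rfl
      rw [e, mu_one, Nat.add_zero]
      simp
    | succ b ihb =>
      have e1 : zw (a + 1) = false :: zw a := rfl
      have e2 : zw (b + 1) = false :: zw b := rfl
      have e3 : sh (zw (a + 1)) (zw b) = ((a + 1 + b).choose (a + 1) : ℝ) • bw (zw (a + 1 + b)) := by
        rw [← mu_bw]; exact ihb
      have e4 : sh (zw a) (zw (b + 1)) = ((a + (b + 1)).choose a : ℝ) • bw (zw (a + (b + 1))) := by
        rw [← mu_bw]; exact iha (b + 1)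
      have e5 : sg (false :: zw b) = 1 := by
        rw [← e2]; simp [sg, np_zw]
      have e6 : zw (a + 1 + (b + 1)) = false :: zw (a + 1 + b) := rfl
      have e7 : a + (b + 1) = a + 1 + b := by omega
      have e8 : sh (zw (a + 1)) (zw (b + 1)) = app false (sh (zw (a + 1)) (zw b))
          + sg (false :: zw b) • app false (sh (zw a) (zw (b + 1))) := by
        rw [e1, e2]; exact sh_cons _ _ _ _
      have e9 : (a + 1 + (b + 1)).choose (a + 1) = (a + 1 + b).choose a + (a + 1 + b).choose (a + 1) := by
        have : a + 1 + (b + 1) = (a + 1 + b) + 1 := by omega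
        rw [this, Nat.choose_succ_succ]
      rw [mu_bw, e8, e3, e4, e5, map_smul, map_smul, app_bw, app_bw, e6, e7, one_smul,
        ← add_smul, e9]
      congr 1
      push_cast
      ring

theorem cc_zero_left (b : ℕ) : cc 0 b = 1 := by
  simp [cc]

theorem cc_zero_right (a : ℕ) : cc a 0 = 1 := by
  cases a <;> simp [cc]

theorem cc_one (a : ℕ) : cc a 1 = if Even a then 1 else 0 := by
  induction a with
  | zero => simp [cc]
  | succ a ih =>
    rw [cc, ih, cc_zero_right]
    by_cases h : Even a
    · have h' : ¬ Even (a + 1) := by rw [Nat.even_add_one]; exact not_not.mpr h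
      rw [if_pos h, if_neg h']; norm_num
    · have h' : Even (a + 1) := by rw [Nat.even_add_one]; exact h
      rw [if_neg h, if_pos h']; norm_num

theorem cc_one_left (b : ℕ) : cc 1 b = if Even b then 1 else 0 := by
  induction b with
  | zero => simp [cc]
  | succ b ih =>
    rw [cc, ih, cc_zero_left]
    by_cases h : Even b
    · have h' : ¬ Even (b + 1) := by rw [Nat.even_add_one]; exact not_not.mpr h
      rw [if_pos h, if_neg h', (Nat.not_even_iff_odd.mp h').neg_one_pow]; norm_num
    · have h' : Even (b + 1) := by rw [Nat.even_add_one]; exact h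
      rw [if_neg h, if_pos h', h'.neg_one_pow]; norm_num

theorem cc_two (a : ℕ) : cc a 2 = ((a / 2 : ℕ) : ℝ) + 1 := by
  induction a with
  | zero => simp [cc]
  | succ a ih =>
    have e : cc (a + 1) 2 = cc (a + 1) 1 + (-1) ^ 2 * cc a 2 := by rw [cc]
    rw [e, cc_one, ih]
    by_cases h : Even (a + 1)
    · rw [if_pos h]
      have h2 : (a + 1) / 2 = a / 2 + 1 := by
        obtain ⟨k, hk⟩ := h
        omega
      rw [h2]; push_cast; ring
    · rw [if_neg h]
      have h2 : (a + 1) / 2 = a / 2 := by
        obtain ⟨k, hk⟩ := Nat.not_even_iff_odd.mp h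
        omega
      rw [h2]; ring

theorem cc_two_pos (a : ℕ) : 0 < cc a 2 := by
  rw [cc_two]; positivity

/-- the associativity of the powers -/
theorem cc_assoc (a b c : ℕ) : cc a b * cc (a + b) c = cc b c * cc a (b + c) := by
  have h := mu_assoc (bw (pw a)) (bw (pw b)) (bw (pw c))
  rw [pow_mul, pow_mul, map_smul, map_smul, LinearMap.smul_apply, pow_mul, pow_mul, smul_smul,
    smul_smul, Nat.add_assoc] at h
  have h' := congrArg (fun f : R => f (pw (a + (b + c)))) h
  simpa [bw] using h'

/-- `p^(2j+1)` is a right multiple of `p` -/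
theorem pow_odd (j : ℕ) : mu (bw (pw (2 * j))) (bw [true]) = bw (pw (2 * j + 1)) := by
  have h := pow_mul (2 * j) 1
  have e : pw 1 = [true] := rfl
  rw [e, cc_one, if_pos (even_two_mul j), one_smul] at h
  exact h

theorem p_p : mu (bw [true]) (bw [true]) = 0 := by
  have h := pow_mul 1 1
  have e : pw 1 = [true] := rfl
  rw [e, cc_one, if_neg (by decide), zero_smul] at h
  exact h

end BrV
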