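import Pool.Agent.Lib.BrV.BCyc
import Pool.Agent.Lib.BrV.Pow

/-!
# BrV.Free: `Ac ⊤ ⊥ r n k` for `k ≥ 1` (4.6 (ii))

Proof.  Let `x = c + e b` be a cycle of degree `(r,n,k)`, `k ≥ 1`: `c` the part at the indices `(false, l)`, `b : Ph` with `b (false, l) = x (true, l)`, `b (true, l) = 0`.
From the definition of `D1`: `(D x) (true, l) = - (D b) (false, l)`; so `D b = 0`; `b` has degree `(r-1, n, k-1)` (`b = 0` if `r = 0`).
For `f : Ph` with only `false` indices let `E f (true, l) = f (false, l)`, `E f (false, l) = 0`; `D (E f) = Z f - E (D f)` with `Z f` at `false` indices.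
* `b = 0`, (`r ≥ 1` or `n ≥ 1`): `B_exact` for `c`.
* `r ≥ 1` and (`r ≥ 2` or `n ≥ 1`): `b = D f` (`B_exact`, degree `r - 1`); `x + D (E f) = c + Z f` has only `false` indices and is a cycle, `= D y'`; `x = D (y' - E f)`.
* `r = 1, n = 0`: every list of one block has `np ≥ 1`, so `c = 0` and `b = μ z^(k-1)` at `(false, [])`; `D x = μ z * z^(k-1) = μ k z^k` at `(false, [])` (`z_mul`, `eq_zw`), so `μ = 0`.
* `r = 0, n = 0`: `x = λ z^k` at `(false, [])`, `x = D (single (true, []) ((λ/k) • bw (zw (k-1))))`.
(`r = 0`, `n ≥ 1`: `b = 0` since `rI (true, l) ≥ 1`.)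
-/

namespace BrV

open Finsupp

/-- the `e`-part, put at the indices `false` -/
private noncomputable def P1 : Ph →ₗ[ℝ] Ph :=
  Finsupp.lsum ℝ fun i : Ix => if i.1 = true then lsingle (false, i.2) else 0

/-- the elements of the `false`-part, put at the indices `true` -/
private noncomputable def E1 : Ph →ₗ[ℝ] Ph :=
  Finsupp.lsum ℝ fun i : Ix => if i.1 = false then lsingle (true, i.2) else 0

private theorem P1_single (b : Bool) (l : LB) (v : R) :
    P1 (single (b, l) v) = if b = true then single (false, l) v else 0 := by
  unfold P1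
  rw [Finsupp.lsum_single]
  by_cases h : b = true
  · simp [h]
  · simp [h]

private theorem E1_single (b : Bool) (l : LB) (v : R) :
    E1 (single (b, l) v) = if b = false then single (true, l) v else 0 := by
  unfold E1
  rw [Finsupp.lsum_single]
  by_cases h : b = false
  · simp [h]
  · simp [h]

private theorem P1_false (x : Ph) (l : LB) : P1 x (false, l) = x (true, l) := by
  induction x using Finsupp.induction_linear with
  | zero => simp
  | add x y hx hy => rw [map_add, Finsupp.add_apply, Finsupp.add_apply, hx, hy]
  | single i v =>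
    obtain ⟨b, q⟩ := i
    rw [P1_single]
    cases b
    · simp [Finsupp.single_apply]
    · simp [Finsupp.single_apply]

private theorem P1_true (x : Ph) (l : LB) : P1 x (true, l) = 0 := by
  induction x using Finsupp.induction_linear with
  | zero => simp
  | add x y hx hy => rw [map_add, Finsupp.add_apply, hx, hy, add_zero]
  | single i v =>
    obtain ⟨b, q⟩ := i
    rw [P1_single]
    cases b
    · simp
    · simp [Finsupp.single_apply]

private theorem E1_true (x : Ph) (l : LB) : E1 x (true, l) = x (false, l) := by
  induction x using Finsupp.induction_linear with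
  | zero => simp
  | add x y hx hy => rw [map_add, Finsupp.add_apply, Finsupp.add_apply, hx, hy]
  | single i v =>
    obtain ⟨b, q⟩ := i
    rw [E1_single]
    cases b
    · simp [Finsupp.single_apply]
    · simp [Finsupp.single_apply]

private theorem E1_false (x : Ph) (l : LB) : E1 x (false, l) = 0 := by
  induction x using Finsupp.induction_linear with
  | zero => simp
  | add x y hx hy => rw [map_add, Finsupp.add_apply, hx, hy, add_zero]
  | single i v =>
    obtain ⟨b, q⟩ := i
    rw [E1_single]
    cases b
    · simp [Finsupp.single_apply]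
    · simp

private theorem ph_ext {x y : Ph} (h0 : ∀ l, x (false, l) = y (false, l))
    (h1 : ∀ l, x (true, l) = y (true, l)) : x = y := by
  apply Finsupp.ext
  rintro ⟨b, l⟩
  cases b
  · exact h0 l
  · exact h1 l

private theorem P1_E1 (f : Ph) (hf : ∀ l, f (true, l) = 0) : P1 (E1 f) = f := by
  apply ph_ext
  · intro l
    rw [P1_false, E1_true]
  · intro l
    rw [P1_true, hf]

private theorem P1_rmP (v : R) (x : Ph) : P1 (rmP v x) = rmP v (P1 x) := by
  apply ph_ext
  · intro l
    rw [P1_false, rmP_apply, rmP_apply, P1_false]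
  · intro l
    rw [P1_true, rmP_apply, P1_true, map_zero, LinearMap.zero_apply]

private theorem dB_tt (l q : LB) : dB true l (true, q) = dB false l (false, q) := by
  cases l with
  | nil => simp [dB]
  | cons w l =>
    unfold dB
    rw [Finsupp.sub_apply, Finsupp.sub_apply, emb_apply, emb_apply]
    simp [Finsupp.single_apply]

private theorem dB_ft (l q : LB) : dB false l (true, q) = 0 := by
  cases l with
  | nil => simp [dB]
  | cons w l =>
    unfold dB
    rw [Finsupp.sub_apply, emb_apply]
    simp [Finsupp.single_apply]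

private theorem P1_D1_false (l : LB) : P1 (D1 (false, l)) = 0 := by
  apply ph_ext
  · intro q
    rw [P1_false]
    exact dB_ft l q
  · intro q
    rw [P1_true]
    rfl

private theorem P1_D1_true (l : LB) : P1 (D1 (true, l)) = - D1 (false, l) := by
  apply ph_ext
  · intro q
    rw [P1_false]
    show (emb false (uo0 l) + single (false, l) ((-1 : ℝ) ^ npL l • bw [false]) - dB true l)
      (true, q) = (- dB false l) (false, q)
    rw [Finsupp.sub_apply, Finsupp.add_apply, emb_apply, dB_tt, Finsupp.neg_apply]
    simp [Finsupp.single_apply]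
  · intro q
    rw [P1_true]
    show 0 = (- dB false l) (true, q)
    rw [Finsupp.neg_apply, dB_ft, neg_zero]

private theorem P1_D (x : Ph) : P1 (D x) = - D (P1 x) := by
  induction x using Finsupp.induction_linear with
  | zero =>
    rw [map_zero, map_zero, map_zero]
    exact (neg_zero (G := Ph)).symm
  | add x y hx hy =>
    rw [map_add, map_add, hx, hy, map_add, map_add]
    exact (neg_add (α := Ph) _ _).symm
  | single i v =>
    obtain ⟨b, q⟩ := i
    rw [D_single, P1_rmP, P1_single]
    cases b
    · rw [P1_D1_false, map_zero]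
      simp only [Bool.false_eq_true, if_false]
      rw [map_zero]
      exact (neg_zero (G := Ph)).symm
    · rw [P1_D1_true]
      simp only [if_true]
      rw [D_single]
      apply Finsupp.ext
      intro j
      have h1 : (rmP v (D1 (false, q))) j = mu (D1 (false, q) j) v := rmP_apply v _ j
      have h2 : (rmP v (-D1 (false, q))) j = mu (-(D1 (false, q) j)) v := rmP_apply v _ j
      have h3 : mu (-(D1 (false, q) j)) v = - mu (D1 (false, q) j) v := by
        rw [map_neg, LinearMap.neg_apply]
      rw [h2, h3, ← h1]
      rfl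

private theorem IsHP_P1 (r n k : ℕ) (x : Ph) (hx : IsHP (r + 1) n (k + 1) x) :
    IsHP r n k (P1 x) := by
  rintro ⟨b, l⟩ w h
  cases b with
  | true => rw [P1_true] at h; exact absurd rfl h
  | false =>
    rw [P1_false] at h
    obtain ⟨h1, h2, h3⟩ := hx _ w h
    simp only [rI, nI, kI, Bool.toNat_true, Bool.toNat_false] at *
    refine ⟨by omega, h2, by omega⟩

private theorem IsHP_E1 (r n k : ℕ) (x : Ph) (hx : IsHP r n k x) :
    IsHP (r + 1) n (k + 1) (E1 x) := by
  rintro ⟨b, l⟩ w h
  cases b with
  | false => rw [E1_false] at h; exact absurd rfl h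
  | true =>
    rw [E1_true] at h
    obtain ⟨h1, h2, h3⟩ := hx _ w h
    simp only [rI, nI, kI, Bool.toNat_true, Bool.toNat_false] at *
    refine ⟨by omega, h2, by omega⟩

private theorem main_case (r n k : ℕ) (h : 1 ≤ r ∨ 1 ≤ n) (x : Ph)
    (hx : IsHP (r + 1) n (k + 1) x) (hD : D x = 0) :
    ∃ y : Ph, IsHP (r + 1 + 1) n (k + 1) y ∧ D y = x := by
  have hb : D (P1 x) = 0 := by
    have := P1_D x
    rw [hD, map_zero] at this
    exact (neg_eq_zero (α := Ph)).1 this.symm
  obtain ⟨f, hf1, hf2, hf3⟩ := B_exact r n k (P1 x) (IsHP_P1 r n k x hx) (P1_true x) hb h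
  have hE := IsHP_E1 _ _ _ f hf1
  have hx' : IsHP (r + 1) n (k + 1) (x + D (E1 f)) :=
    IsHP_add _ _ _ _ _ hx (IsHP_D _ _ _ _ hE)
  have h0 : ∀ l, (x + D (E1 f)) (true, l) = 0 := by
    intro l
    have h1 : P1 (x + D (E1 f)) = 0 := by
      rw [map_add, P1_D, P1_E1 f hf2, hf3]
      exact add_neg_cancel (G := Ph) _
    rw [← P1_false, h1, Finsupp.zero_apply]
  have hD' : D (x + D (E1 f)) = 0 := by
    rw [map_add, hD, D_D]
    exact add_zero (M := Ph) 0
  obtain ⟨y, hy1, hy2, hy3⟩ := B_exact (r + 1) n (k + 1) _ hx' h0 hD' (Or.inl (by omega))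
  refine ⟨y - E1 f, IsHP_sub _ _ _ _ _ hy1 hE, ?_⟩
  have h1 : D (y - E1 f) + D (E1 f) = D y := by
    rw [← map_add]
    exact congrArg D (sub_add_cancel (G := Ph) y (E1 f))
  rw [hy3] at h1
  exact add_right_cancel (G := Ph) h1

private theorem rI_eq_zero (i : Ix) (h : rI i = 0) : i = (false, []) := by
  obtain ⟨b, l⟩ := i
  simp only [rI] at h
  have h1 : l.length = 0 := by omega
  have h2 : b.toNat = 0 := by omega
  rw [List.length_eq_zero_iff] at h1
  subst h1
  cases b
  · rfl
  · simp at h2

private theorem D_e (v : R) : D (single (true, []) v) = single (false, []) (mu (bw [false]) v) := by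
  rw [D_single]
  show rmP v (emb false (uo0 []) + single (false, []) ((-1 : ℝ) ^ npL [] • bw [false]) -
    dB true []) = _
  have h1 : uo0 [] = 0 := by simp [uo0]
  have h2 : dB true [] = 0 := by simp [dB]
  have h3 : emb false (uo0 []) + single (false, []) ((-1 : ℝ) ^ npL [] • bw [false]) -
      dB true [] = (single (false, []) (bw [false]) : Ph) := by
    rw [h1, emb_zero, h2]
    refine (sub_zero (G := Ph) _).trans ((zero_add (M := Ph) _).trans ?_)
    simp [npL]
  rw [h3, rmP_single]

private theorem r0_only (r n k : ℕ) (b : Bool) (hr : r = b.toNat) (x : Ph)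
    (hx : IsHP r 0 (k + b.toNat) x) :
    ∃ c : ℝ, x = single (b, []) (c • bw (zw k)) := by
  refine ⟨x (b, []) (zw k), ?_⟩
  apply Finsupp.ext
  intro i
  apply Finsupp.ext
  intro w
  by_cases h : x i w = 0
  · rw [h]
    by_cases hi : i = (b, [])
    · subst hi
      rw [Finsupp.single_eq_same]
      by_cases hw : w = zw k
      · subst hw
        rw [h]
        simp
      · simp [bw, Finsupp.single_apply, Ne.symm hw]
    · rw [Finsupp.single_eq_of_ne hi]
      rfl
  · obtain ⟨h1, h2, h3⟩ := hx i w h
    have hi : i = (b, []) := by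
      obtain ⟨b', l⟩ := i
      have hl : l = [] := by
        cases l with
        | nil => rfl
        | cons u l =>
          exfalso
          simp only [nI, npL, List.map_cons, List.sum_cons] at h2
          omega
      subst hl
      have hb : b'.toNat = b.toNat := by
        simp only [rI, List.length_nil] at h1
        omega
      cases b <;> cases b' <;> simp_all
    subst hi
    have hw : w = zw k := by
      have h4 : np w = 0 := by omega
      have h5 := eq_zw w h4
      have h6 : nz w = k := by
        simp only [kI, nzL, List.map_nil, List.sum_nil] at h3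
        omega
      rwa [h6] at h5
    subst hw
    rw [Finsupp.single_eq_same]
    simp [bw]

private theorem z_mul_one (k : ℕ) :
    mu (bw [false]) (bw (zw k)) = ((k : ℝ) + 1) • bw (zw (k + 1)) := by
  have h := z_mul 1 k
  have e1 : zw 1 = [false] := rfl
  rw [e1, Nat.choose_one_right, Nat.add_comm 1 k] at h
  rw [h]
  push_cast
  rfl

theorem Ac_top_bot (r n k : ℕ) (hk : 1 ≤ k) : Ac ⊤ ⊥ r n k := by
  obtain ⟨k, rfl⟩ : ∃ k', k = k' + 1 := ⟨k - 1, by omega⟩
  intro x hx _ hD
  have hD0 : D x = 0 := by
    apply Finsupp.ext
    intro i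
    have := hD i
    rw [Submodule.mem_bot] at this
    rw [this]
    rfl
  suffices h : ∃ y : Ph, IsHP (r + 1) n (k + 1) y ∧ D y = x by
    obtain ⟨y, hy1, hy2⟩ := h
    refine ⟨y, 0, hy1, fun _ => Submodule.mem_top, ?_, fun i => ?_, ?_⟩
    · intro i w h
      exact absurd rfl h
    · rw [Submodule.mem_bot]
      rfl
    · rw [hy2]
      exact (add_zero (M := Ph) x).symm
  cases r with
  | zero =>
    rcases Nat.eq_zero_or_pos n with hn | hn
    · subst hn
      obtain ⟨c, hc⟩ := r0_only 0 0 (k + 1) false rfl x hx
      refine ⟨single (true, []) ((c / ((k : ℝ) + 1)) • bw (zw k)), ?_, ?_⟩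
      · intro i w h
        by_cases hi : i = (true, [])
        · subst hi
          rw [Finsupp.single_eq_same] at h
          have hw : w = zw k := by
            by_contra h1
            apply h
            simp [bw, Finsupp.single_apply, Ne.symm h1]
          subst hw
          refine ⟨rfl, ?_, ?_⟩
          · show 0 + np (zw k) = 0
            rw [np_zw]
          · show 0 + 1 + nz (zw k) = k + 1
            rw [nz_zw]
            omega
        · rw [Finsupp.single_eq_of_ne hi] at h
          exact absurd rfl h
      · rw [D_e, map_smul, z_mul_one, smul_smul, hc]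
        congr 2
        have : ((k : ℝ) + 1) ≠ 0 := by positivity
        field_simp
    · have h0 : ∀ l, x (true, l) = 0 := by
        intro l
        by_contra h
        obtain ⟨w, hw⟩ := Finsupp.ne_iff.1 h
        have := (hx _ w hw).1
        simp [rI] at this
      obtain ⟨y, hy1, _, hy3⟩ := B_exact 0 n (k + 1) x hx h0 hD0 (Or.inr hn)
      exact ⟨y, hy1, hy3⟩
  | succ r =>
    by_cases h : 1 ≤ r ∨ 1 ≤ n
    · exact main_case r n k h x hx hD0
    · have hr : r = 0 := by omega
      have hn : n = 0 := by omega
      subst hr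
      subst hn
      obtain ⟨c, hc⟩ := r0_only 1 0 k true rfl x hx
      have h1 : single (false, []) ((c * ((k : ℝ) + 1)) • bw (zw (k + 1))) = (0 : Ph) := by
        rw [hc, D_e, map_smul, z_mul_one, smul_smul] at hD0
        exact hD0
      have h2 : c = 0 := by
        rw [Finsupp.single_eq_zero] at h1
        have h3 := congrArg (fun f : R => f (zw (k + 1))) h1
        simp [bw] at h3
        rcases h3 with h3 | h3
        · exact h3
        · have : ((k : ℝ) + 1) ≠ 0 := by positivity
          exact absurd h3 this
      refine ⟨0, ?_, ?_⟩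
      · intro i w h
        exact absurd rfl h
      · rw [hc, h2, zero_smul, Finsupp.single_zero, map_zero]

end BrV
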