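import Pool.Agent.Lib.BrV.Formal
import Pool.Agent.Lib.BrV.BarN

/-!
# BrV.Pure: the pure part (4.5)

Proof (`Ac_weak`).  Let `x ∈ Φ(X)_{r,n,k}`, `D x ∈ Φ(Y)`, `r ≥ 2`.  A coefficient `x i` is homogeneous of bidegree `(n - nI i, k - kI i)`; if `kI i ≥ 1`
it is in `Y` by `hlow`.  So modulo `Φ(Y)` only the indices `i = (false, l)` with `nzL l = 0` matter: `l = L.map pw` for a unique `L : List ℕ`
(the block `true :: pw a` is `p^(a+1)`; `eq_pw`).
`Xk = {f ∈ X | f is a combination of words with nz = k}` (submodule), `N = Xk ⧸ Y.comap _`, `e a [v] = [mu (bw (pw a)) v]` (well defined, `Y` left ideal);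
`e 0 = 1` (`nil_mu`), `e a (e b v) = cc a b • e (a+b) v` (`mu_assoc`, `pow_mul`).
Exactness: `e 1 [v] = 0`: `p * v ∈ Y`; the components `v_n` of `v` of bidegree `(n,k)` satisfy `p * v_n ∈ Y` (`cmp_mu_left`, `hY.cmp_mem`),
so `v_n - p * b_n ∈ Y` by `Ex`, `v - p * ∑ b_n ∈ Y`.
Let `xN : List ℕ →₀ N`, `xN L = [x (false, L.map pw)]`.  `bd e xN = 0`: for `L' : List ℕ` the coefficient of `D x` at `(false, L'.map pw)` is in `Y` and, modulo `Y`, is
the sum over the pure indices of `mu (D1 i j) (x i)` (non pure `i` have `x i ∈ Y`), and for pure `i = (false, L.map pw)`: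
`D1 i = single (false, tail) (bw (pw (a+1))) - emb false (mg0 (L.map pw))`, where `mg0 (L.map pw) = mapDomain (List.map pw) (mgN L)`
(`bm (pw b) (pw a) = cc (b+1) (a+1) • bw (pw (a+b+1))` from `app_bm`, `pow_mul`, `app_inj`; `pw (a+1) = true :: pw a`; `List.map pw` injective).
`bar_exact`: `xN = bd e yN`.  Lift `yN` to `y : Ph` with `y (false, L.map pw) ∈ Xk` a representative of `yN L`; then `x - D y ∈ Φ(Y)`:
at pure indices by the computation above, at the other indices `x i ∈ Y` and `D y i = 0` (`D` of pure lists is pure).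
`y i ∈ X`.
-/

namespace BrV

open Finsupp

private def jj (L : List ℕ) : Ix := (false, L.map pw)

private theorem pw_inj : Function.Injective pw := by
  intro a b h
  have h2 := congrArg np h
  rwa [np_pw, np_pw] at h2

private theorem jj_inj : Function.Injective jj := by
  intro L L' h
  have h2 : L.map pw = L'.map pw := congrArg Prod.snd h
  exact (List.map_injective_iff.2 pw_inj) h2

private theorem pw_succ (a : ℕ) : pw (a + 1) = true :: pw a := rfl

private noncomputable def EE (a : ℕ) : R →ₗ[ℝ] R := mu (bw (pw a))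

private theorem bm_pure (a b : ℕ) :
    bm (pw b) (pw a) = cc (b + 1) (a + 1) • bw (pw (a + b + 1)) := by
  apply app_inj true
  rw [app_bm, map_smul, app_bw, ← pw_succ, ← pw_succ, ← pw_succ, pow_mul]
  congr 3
  omega

private theorem mg0_pure : ∀ L : List ℕ, mg0 (L.map pw) = mapDomain (List.map pw) (mgN L)
  | [] => by simp [mg0, mgN]
  | [a] => by simp [mg0, mgN]
  | a :: b :: L => by
    have ih := mg0_pure (b :: L)
    have h1 : mg0 ((a :: b :: L).map pw) =
        cl (bm (pw b) (pw a)) (L.map pw) - cns (pw a) (mg0 ((b :: L).map pw)) := by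
      rw [List.map_cons, List.map_cons, mg0_cons2]
    have h2 : cns (pw a) (mapDomain (List.map pw) (mgN (b :: L))) =
        mapDomain (List.map pw) (mapDomain (List.cons a) (mgN (b :: L))) := by
      rw [cns, lmapDomain_apply, ← mapDomain_comp, ← mapDomain_comp]
      rfl
    have h3 : mapDomain (List.map pw) (mgN (a :: b :: L)) =
        mapDomain (List.map pw) (single ((a + b + 1) :: L) (cc (b + 1) (a + 1))) -
        mapDomain (List.map pw) (mapDomain (List.cons a) (mgN (b :: L))) := by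
      rw [mgN, ← lmapDomain_apply ℝ ℝ, map_sub, lmapDomain_apply, lmapDomain_apply]
    rw [h1, ih, h2, h3, bm_pure, cl_smul, cl_bw, mapDomain_single, List.map_cons, smul_single,
      smul_eq_mul, mul_one]

private theorem rmP_emb (v : R) (c : List ℕ →₀ ℝ) :
    rmP v (emb false (mapDomain (List.map pw) c)) =
      mapDomain jj (c.mapRange (fun t => t • v) (zero_smul _ _)) := by
  induction c using Finsupp.induction_linear with
  | zero => simp [emb_zero]
  | add f g hf hg =>
    rw [mapDomain_add, emb_add, map_add, hf, hg, mapRange_add (fun x y => add_smul x y v),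
      mapDomain_add]
  | single L a =>
    rw [mapDomain_single, emb_single, rmP_single, mapRange_single, mapDomain_single, map_smul,
      LinearMap.smul_apply, nil_mu]
    rfl

private theorem D_pure (u : List ℕ →₀ R) : D (mapDomain jj u) = mapDomain jj (bd EE u) := by
  induction u using Finsupp.induction_linear with
  | zero => simp
  | add f g hf hg => rw [mapDomain_add, map_add, hf, hg, map_add, mapDomain_add]
  | single L v =>
    have h1 : bd EE (single L v) = bd0 EE L v := by
      rw [bd, lsum_single]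
      rfl
    rw [mapDomain_single, D_single, h1]
    cases L with
    | nil =>
      have h2 : D1 (jj []) = 0 := rfl
      have h3 : bd0 EE [] v = 0 := rfl
      rw [h2, h3, map_zero, mapDomain_zero]
    | cons a L =>
      have h2 : D1 (jj (a :: L)) = single (jj L) (bw (pw (a + 1))) -
          emb false (mg0 ((a :: L).map pw)) := rfl
      have h3 : bd0 EE (a :: L) v = single L (EE (a + 1) v) -
          (mgN (a :: L)).mapRange (fun t => t • v) (zero_smul _ _) := rfl
      have h4 : rmP v (single (jj L) (bw (pw (a + 1))) - emb false (mg0 ((a :: L).map pw))) =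
          rmP v (single (jj L) (bw (pw (a + 1)))) - rmP v (emb false (mg0 ((a :: L).map pw))) :=
        map_sub (rmP v) (single (jj L) (bw (pw (a + 1)))) (emb false (mg0 ((a :: L).map pw)))
      have h5 : ∀ f g : List ℕ →₀ R, mapDomain jj (f - g) = mapDomain jj f - mapDomain jj g :=
        fun f g => map_sub (lmapDomain R ℝ jj) f g
      rw [h2, h3, h4, h5, rmP_single, mg0_pure, rmP_emb, mapDomain_single]
      rfl

private theorem mapRange_bd {N N' : Type} [AddCommGroup N] [Module ℝ N] [AddCommGroup N']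
    [Module ℝ N'] (e : ℕ → N →ₗ[ℝ] N) (e' : ℕ → N' →ₗ[ℝ] N') (φ : N →ₗ[ℝ] N')
    (h : ∀ a v, φ (e a v) = e' a (φ v)) (u : List ℕ →₀ N) :
    mapRange.linearMap φ (bd e u) = bd e' (mapRange.linearMap φ u) := by
  induction u using Finsupp.induction_linear with
  | zero => simp
  | add f g hf hg => rw [map_add, map_add, hf, hg, map_add, map_add]
  | single L v =>
    have h1 : bd e (single L v) = bd0 e L v := by
      rw [bd, lsum_single]
      rfl
    have h2 : bd e' (single L (φ v)) = bd0 e' L (φ v) := by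
      rw [bd, lsum_single]
      rfl
    rw [mapRange.linearMap_apply, mapRange.linearMap_apply, mapRange_single, h1, h2]
    cases L with
    | nil =>
      show mapRange φ _ (0 : List ℕ →₀ N) = 0
      simp
    | cons a L =>
      ext j
      simp only [bd0, mapRange_apply, coe_sub, Pi.sub_apply, map_sub, map_smul]
      congr 1
      rw [Finsupp.single_apply, Finsupp.single_apply]
      split_ifs
      · exact h _ _
      · simp

/-- the degree part -/
private def Dk (k : ℕ) : Submodule ℝ R := supported ℝ ℝ {w | nz w = k}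

private theorem mem_Dk (k : ℕ) (f : R) : f ∈ Dk k ↔ ∀ w, f w ≠ 0 → nz w = k := by
  rw [Dk, mem_supported']
  constructor
  · intro h w hw
    by_contra h2
    exact hw (h w h2)
  · intro h w hw
    by_contra h2
    exact hw (h w h2)

private theorem pw_mu_Dk (k a : ℕ) (f : R) (hf : f ∈ Dk k) : mu (bw (pw a)) f ∈ Dk k := by
  have h1 : ∀ w, nz w = k → mu (bw (pw a)) (bw w) ∈ Dk k := by
    intro w hw
    rw [mem_Dk]
    have h := IsH_mu _ _ _ _ _ _ (IsH_bw (pw a)) (IsH_bw w)
    intro x hx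
    rw [(h x hx).2, nz_pw, hw, zero_add]
  have h2 : Dk k = Submodule.span ℝ ((fun w => bw w) '' {w | nz w = k}) := by
    rw [Dk, supported_eq_span_single]
    rfl
  have h3 : Dk k ≤ (Dk k).comap (mu (bw (pw a))) := by
    conv_lhs => rw [h2]
    rw [Submodule.span_le]
    rintro _ ⟨w, hw, rfl⟩
    exact h1 w hw
  exact h3 hf

private theorem cmp_Dk (n k k' : ℕ) (f : R) (hf : f ∈ Dk k) (h : k' ≠ k) : cmp n k' f = 0 := by
  ext w
  rw [cmp, filter_apply]
  split_ifs with h1
  · by_contra h2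
    exact h (h1.2.symm.trans ((mem_Dk k f).1 hf w h2))
  · rfl

private theorem sum_cmp_Dk (k : ℕ) (f : R) (hf : f ∈ Dk k) :
    ∃ M : ℕ, f = ∑ n ∈ Finset.range M, cmp n k f := by
  obtain ⟨N, hN⟩ := sum_cmp f
  refine ⟨max N (k + 1), ?_⟩
  conv_lhs => rw [hN (max N (k + 1)) (le_max_left _ _)]
  refine Finset.sum_congr rfl fun n _ => ?_
  rw [Finset.sum_eq_single k]
  · intro b _ hb
    exact cmp_Dk n k b f hf hb
  · intro h
    exact absurd (Finset.mem_range.2 (lt_of_lt_of_le (Nat.lt_succ_self k) (le_max_right _ _))) h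

private theorem exact_Dk (X Y : Submodule ℝ R) (hX : IsLI X) (hY : IsLI Y) (k : ℕ)
    (hex : Ex X Y k) (f : R) (hf : f ∈ X) (hk : f ∈ Dk k) (h : mu (bw [true]) f ∈ Y) :
    ∃ b ∈ X, b ∈ Dk k ∧ f - mu (bw [true]) b ∈ Y := by
  obtain ⟨M, hM⟩ := sum_cmp_Dk k f hk
  have h1 : ∀ n, ∃ b, b ∈ X ∧ b ∈ Dk k ∧ cmp n k f - mu (bw [true]) b ∈ Y := by
    intro n
    have h2 : mu (bw [true]) (cmp n k f) ∈ Y := by
      have h3 := cmp_mu_left n k 1 0 f (bw [true]) (IsH_bw [true])
      rw [← h3]
      exact hY.cmp_mem _ _ _ h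
    obtain ⟨b, hb, hb1, hb2⟩ := hex n (cmp n k f) (IsH_cmp n k f) (hX.cmp_mem _ _ _ hf) h2
    exact ⟨b, hb, (mem_Dk k b).2 fun w hw => (hb1 w hw).2, hb2⟩
  choose b hb1 hb2 hb3 using h1
  refine ⟨∑ n ∈ Finset.range M, b n, Submodule.sum_mem _ fun n _ => hb1 n,
    Submodule.sum_mem _ fun n _ => hb2 n, ?_⟩
  have h4 : f - mu (bw [true]) (∑ n ∈ Finset.range M, b n) =
      ∑ n ∈ Finset.range M, (cmp n k f - mu (bw [true]) (b n)) := by
    rw [map_sum, Finset.sum_sub_distrib, ← hM]
  rw [h4]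
  exact Submodule.sum_mem _ fun n _ => hb3 n

private theorem kI_jj (L : List ℕ) : kI (jj L) = 0 := by
  have h : ∀ L : List ℕ, nzL (L.map pw) = 0 := by
    intro L
    induction L with
    | nil => rfl
    | cons a L ih =>
      have h1 : nzL ((a :: L).map pw) = nz (pw a) + nzL (L.map pw) := by
        simp [nzL]
      rw [h1, ih, nz_pw]
  show nzL (L.map pw) + 0 = 0
  rw [h]

private theorem rI_jj (L : List ℕ) : rI (jj L) = L.length := by
  show (L.map pw).length + 0 = L.length
  simp

private theorem eq_jj (i : Ix) (h : kI i = 0) : ∃ L, jj L = i := by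
  obtain ⟨b, l⟩ := i
  have h1 : nzL l + b.toNat = 0 := h
  have h2 : b = false := by
    cases b with
    | false => rfl
    | true => simp at h1
  have h3 : nzL l = 0 := by omega
  have h4 : ∀ l : LB, nzL l = 0 → (l.map np).map pw = l := by
    intro l
    induction l with
    | nil => intro _; rfl
    | cons w l ih =>
      intro h5
      have h6 : nz w + nzL l = 0 := by
        simpa [nzL] using h5
      have h7 : nz w = 0 := by omega
      have h8 : nzL l = 0 := by omega
      rw [List.map_cons, List.map_cons, ih h8, ← eq_pw w h7]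
  refine ⟨l.map np, ?_⟩
  rw [jj, h4 l h3, h2]

theorem Ac_pure (X Y : Submodule ℝ R) (hX : IsLI X) (hY : IsLI Y) (hYX : Y ≤ X) (k : ℕ)
    (hlow : ∀ n i f, i < k → IsH n i f → f ∈ X → f ∈ Y) (hex : Ex X Y k) (r n : ℕ)
    (hr : 2 ≤ r) : Ac X Y r n k := by
  classical
  apply Ac_weak X Y hX hY
  intro x hx hxX hxY
  -- the pure part
  let u : List ℕ →₀ R := comapDomain jj x jj_inj.injOn
  have hu1 : ∀ L, u L = x (jj L) := fun L => rfl
  have hnp : ∀ i, (∀ L, jj L ≠ i) → x i ∈ Y := by
    intro i hi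
    by_cases h0 : x i = 0
    · rw [h0]
      exact Y.zero_mem
    obtain ⟨h1, h2, h3, h4⟩ := IsHP_coeff r n k x hx i h0
    refine hlow _ _ _ ?_ h4 (hxX i)
    have h5 : kI i ≠ 0 := by
      intro h6
      obtain ⟨L, hL⟩ := eq_jj i h6
      exact hi L hL
    omega
  have hDk : ∀ L, u L ∈ Dk k := by
    intro L
    rw [mem_Dk]
    intro w hw
    have h1 := (hx (jj L) w hw).2.2
    rw [kI_jj, zero_add] at h1
    exact h1
  have hbd : ∀ L, bd EE u L ∈ Y := by
    intro L
    have h1 : x.filter (fun i => ∃ L, jj L = i) = mapDomain jj u := by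
      ext1 i
      by_cases hi : ∃ L, jj L = i
      · rw [filter_apply_pos (fun i => ∃ L, jj L = i) x hi]
        obtain ⟨L, rfl⟩ := hi
        rw [mapDomain_apply jj_inj]
        rfl
      · rw [filter_apply_neg (fun i => ∃ L, jj L = i) x hi, mapDomain_of_notMem_range]
        rintro ⟨L, hL⟩
        exact hi ⟨L, hL⟩
    have h2 : D x = D (mapDomain jj u) + D (x.filter (fun i => ¬ ∃ L, jj L = i)) := by
      rw [← h1, ← map_add, filter_add_filter_not]
    have h3 : D (x.filter (fun i => ¬ ∃ L, jj L = i)) (jj L) ∈ Y := by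
      refine D_mem Y hY _ (fun i => ?_) _
      by_cases hi : ∃ L, jj L = i
      · rw [filter_apply_neg (fun i => ¬ ∃ L, jj L = i) x (not_not.2 hi)]
        exact Y.zero_mem
      · rw [filter_apply_pos (fun i => ¬ ∃ L, jj L = i) x hi]
        exact hnp i fun L hL => hi ⟨L, hL⟩
    have h4 : D x (jj L) = bd EE u L + D (x.filter (fun i => ¬ ∃ L, jj L = i)) (jj L) := by
      rw [h2, Finsupp.add_apply, D_pure, mapDomain_apply jj_inj]
    have h5 := Y.sub_mem (hxY (jj L)) h3
    rw [h4, add_sub_cancel_right] at h5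
    exact h5
  -- the module
  let Nn : Submodule ℝ (R ⧸ Y) := (X ⊓ Dk k).map Y.mkQ
  let eb : ℕ → (R ⧸ Y) →ₗ[ℝ] (R ⧸ Y) := fun a =>
    Y.mapQ Y (EE a) (fun f hf => hY.mul_mem _ _ hf)
  have heb : ∀ a f, eb a (Y.mkQ f) = Y.mkQ (EE a f) := fun a f => rfl
  have he : ∀ a, ∀ v ∈ Nn, eb a v ∈ Nn := by
    rintro a _ ⟨f, hf, rfl⟩
    rw [heb]
    exact ⟨EE a f, ⟨hX.mul_mem _ _ hf.1, pw_mu_Dk k a f hf.2⟩, rfl⟩
  let e : ℕ → Nn →ₗ[ℝ] Nn := fun a => (eb a).restrict (he a)
  have hee : ∀ a (v : Nn), ((e a v : Nn) : R ⧸ Y) = eb a v := fun a v => rfl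
  have h0 : ∀ v, e 0 v = v := by
    rintro ⟨_, f, hf, rfl⟩
    apply Subtype.ext
    rw [hee, heb]
    show Y.mkQ (mu (bw []) f) = Y.mkQ f
    rw [nil_mu]
  have hm : ∀ a b v, e a (e b v) = cc a b • e (a + b) v := by
    rintro a b ⟨_, f, hf, rfl⟩
    apply Subtype.ext
    rw [Submodule.coe_smul, hee, hee, hee, heb, heb, heb, ← map_smul]
    congr 1
    show mu (bw (pw a)) (mu (bw (pw b)) f) = cc a b • mu (bw (pw (a + b))) f
    rw [← mu_assoc, pow_mul, map_smul, LinearMap.smul_apply]
  have hexN : ∀ v, e 1 v = 0 → ∃ w, v = e 1 w := by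
    rintro ⟨_, f, hf, rfl⟩ hv
    have h1 : Y.mkQ (mu (bw [true]) f) = 0 := congrArg Subtype.val hv
    have h2 : mu (bw [true]) f ∈ Y := by
      rwa [Submodule.mkQ_apply, Submodule.Quotient.mk_eq_zero] at h1
    obtain ⟨b, hb1, hb2, hb3⟩ := exact_Dk X Y hX hY k hex f hf.1 hf.2 h2
    refine ⟨⟨Y.mkQ b, b, ⟨hb1, hb2⟩, rfl⟩, ?_⟩
    apply Subtype.ext
    rw [hee, heb]
    show Y.mkQ f = Y.mkQ (mu (bw [true]) b)
    rw [← sub_eq_zero, ← map_sub, Submodule.mkQ_apply, Submodule.Quotient.mk_eq_zero]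
    exact hb3
  -- the cycle over `Nn`
  have hmem : ∀ L, Y.mkQ (u L) ∈ Nn := fun L => ⟨u L, ⟨hxX (jj L), hDk L⟩, rfl⟩
  let xN : List ℕ →₀ Nn := onFinset u.support (fun L => ⟨Y.mkQ (u L), hmem L⟩) (by
    intro L hL
    rw [mem_support_iff]
    intro h1
    apply hL
    apply Subtype.ext
    show Y.mkQ (u L) = 0
    rw [h1, map_zero])
  have hxN : mapRange.linearMap Nn.subtype xN = mapRange.linearMap Y.mkQ u := by
    ext1 L
    rfl
  have hbN : bd e xN = 0 := by
    have h1 : mapRange.linearMap Nn.subtype (bd e xN) = mapRange.linearMap Y.mkQ (bd EE u) := by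
      rw [mapRange_bd e eb Nn.subtype (fun a v => rfl), hxN, mapRange_bd EE eb Y.mkQ
        (fun a v => rfl)]
    ext1 L
    apply Subtype.ext
    have h2 := DFunLike.congr_fun h1 L
    rw [mapRange.linearMap_apply, mapRange.linearMap_apply, mapRange_apply, mapRange_apply] at h2
    have h3 : Y.mkQ (bd EE u L) = 0 := by
      rw [Submodule.mkQ_apply, Submodule.Quotient.mk_eq_zero]
      exact hbd L
    rw [h3] at h2
    exact h2
  have hlen : ∀ L, xN L ≠ 0 → L.length = r := by
    intro L hL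
    have h1 : x (jj L) ≠ 0 := by
      intro h2
      apply hL
      apply Subtype.ext
      show Y.mkQ (x (jj L)) = 0
      rw [h2, map_zero]
    rw [← rI_jj]
    exact (IsHP_coeff r n k x hx (jj L) h1).1
  obtain ⟨yN, _, hyN⟩ := bar_exact e h0 hm hexN r hr xN hlen hbN
  -- lift
  have hg : ∀ v : Nn, ∃ f, f ∈ X ∧ Y.mkQ f = v ∧ (v = 0 → f = 0) := by
    intro v
    by_cases hv : v = 0
    · exact ⟨0, X.zero_mem, by rw [hv, map_zero]; rfl, fun _ => rfl⟩
    · obtain ⟨_, f, hf, rfl⟩ := v
      exact ⟨f, hf.1, rfl, fun h => absurd h hv⟩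
  choose g hg1 hg2 hg3 using hg
  let y0 : List ℕ →₀ R := yN.mapRange g (hg3 0 rfl)
  have hy0 : mapRange.linearMap Y.mkQ y0 = mapRange.linearMap Nn.subtype yN := by
    ext1 L
    exact hg2 (yN L)
  have hdiff : ∀ L, x (jj L) - bd EE y0 L ∈ Y := by
    intro L
    have h1 : mapRange.linearMap Y.mkQ (bd EE y0) = mapRange.linearMap Y.mkQ u := by
      rw [mapRange_bd EE eb Y.mkQ (fun a v => rfl), hy0, ← mapRange_bd e eb Nn.subtype
        (fun a v => rfl), hyN, hxN]
    have h2 := DFunLike.congr_fun h1 L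
    rw [mapRange.linearMap_apply, mapRange.linearMap_apply, mapRange_apply, mapRange_apply] at h2
    have h3 : Y.mkQ (x (jj L) - bd EE y0 L) = 0 := by
      rw [map_sub, h2, ← hu1, sub_self]
    rwa [Submodule.mkQ_apply, Submodule.Quotient.mk_eq_zero] at h3
  refine ⟨mapDomain jj y0, x - D (mapDomain jj y0), ?_, ?_, ?_⟩
  · intro i
    by_cases hi : ∃ L, jj L = i
    · obtain ⟨L, rfl⟩ := hi
      rw [mapDomain_apply jj_inj]
      exact hg1 _
    · rw [mapDomain_of_notMem_range]
      · exact X.zero_mem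
      · rintro ⟨L, hL⟩
        exact hi ⟨L, hL⟩
  · intro i
    rw [D_pure]
    by_cases hi : ∃ L, jj L = i
    · obtain ⟨L, rfl⟩ := hi
      have h1 : (x - mapDomain jj (bd EE y0)) (jj L) = x (jj L) - bd EE y0 L := by
        rw [Finsupp.sub_apply, mapDomain_apply jj_inj]
      rw [h1]
      exact hdiff L
    · have h1 : (x - mapDomain jj (bd EE y0)) i = x i := by
        rw [Finsupp.sub_apply, mapDomain_of_notMem_range, sub_zero]
        rintro ⟨L, hL⟩
        exact hi ⟨L, hL⟩
      rw [h1]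
      exact hnp i fun L hL => hi ⟨L, hL⟩
  · exact (add_sub_cancel (D (mapDomain jj y0)) x).symm

end BrV
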