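import Pool.Agent.Lib.BrV.Supp
import Pool.Agent.Lib.BrV.Pure
import Pool.Agent.Lib.BrV.Free
import Pool.Agent.Lib.BrV.ExK

/-!
# BrV.Half1: the half of slope 1 (section 5)

`Ac_top_F1` (5.1): `k ≥ 1`, all `r, n`.  Strong induction on `n`, simultaneously for all `r`.  For `1 ≤ m ≤ n`: `Ac_transport` with
`X' = ⊤, Y' = F 1, X = F m, Y = F (m+1), c = bw (pw m), (a,b) = (m,0)` and `Ac ⊤ (F 1) r (n-m) k` (induction) gives `Ac (F m) (F (m+1)) r n k`
(`F_succ`, `mul_pow_mem_F_iff`, `rm (pw m) f = mu f (bw (pw m))`).  Chain: `Ac (F 1) (F (n+1)) r n k`, and `Ac (F (n+1)) ⊥ r n k` by `Ac_triv` + `F_low`.  So `Ac (F 1) ⊥ r n k` for all `r`; with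
`Ac_top_bot`, `Ac_quot`, `Ac_quot0` (`Z = ⊥`): `Ac ⊤ (F 1) r n k`.
`Va_half1` (5.2): `k ≥ 1`, `r > k + 1`, all `n`.  Strong induction on `k` (for all `r, n`).  By `Ac_Va` enough `Ac ⊤ Rpl r n k`; by `Ac_quot`
(`Z = F 1`, `Y = Rpl`, `Ac_top_F1`) enough `Ac Rpl (F 1) (r-1) n k`.  Chain `Rpl ≥ F 1 ⊔ RG k ≥ F 1`.
 First step by `Ac_supp`: bidegree `(m,i)`, `i ≤ k`: `i = 0`: a homogeneous element of `Rpl` is a multiple of `bw (pw m)`, `m ≥ 1`, so in `F 1`
 (`pw m = mu (bw []) (pw m) ∈ F m ≤ F 1`); `i = k`: in `RG k`; `1 ≤ i < k`: `Va (r-1) (n-m) (k-i)` by induction (`k - i ≥ 1`, `r - 1 > k - i + 1`).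
 Second step by `Ac_pure` (`X = F 1 ⊔ RG k`, `Y = F 1`): a homogeneous element of `X` with `nz = i < k` is in `F 1` (component of the `RG k`-part is `0`),
 `Ex_sup`, `Ex_top_F1`, `r - 1 ≥ 2`.
-/

namespace BrV

open Finsupp

private theorem F_step (k n : ℕ) (ih : ∀ m, m < n → ∀ r, Ac ⊤ (F 1) r m k) (m : ℕ) (hm : 1 ≤ m)
    (hmn : m ≤ n) (r : ℕ) : Ac (F m) (F (m + 1)) r n k := by
  have h := Ac_transport ⊤ (F 1) (F m) (F (m + 1)) IsLI_top (IsLI_F 1) (IsLI_F m)
    (IsLI_F (m + 1)) m 0 (bw (pw m))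
    (by have := IsH_bw (pw m); rwa [np_pw, nz_pw] at this)
    (by
      intro f _
      rw [F_succ]
      exact Submodule.mem_sup_left ⟨f, rfl⟩)
    (fun f hf => (mul_pow_mem_F_iff m f).2 hf)
    (by
      intro f hf
      rw [F_succ, Submodule.mem_sup] at hf
      obtain ⟨y, ⟨g, hg⟩, z, hz, hyz⟩ := hf
      refine ⟨g, Submodule.mem_top, ?_⟩
      have : f - mu g (bw (pw m)) = z := by
        rw [← hyz, ← hg]
        show mu g (bw (pw m)) + z - mu g (bw (pw m)) = z
        abel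
      rw [this]
      exact hz)
    (fun f _ hf => (mul_pow_mem_F_iff m f).1 hf)
    r (n - m) k (ih (n - m) (by omega) r)
  have e1 : n - m + m = n := by omega
  rwa [e1] at h

theorem Ac_top_F1 (k : ℕ) (hk : 1 ≤ k) (r n : ℕ) : Ac ⊤ (F 1) r n k := by
  induction n using Nat.strong_induction_on generalizing r with
  | _ n ih =>
    have chain : ∀ m, m ≤ n → ∀ r, Ac (F 1) (F (m + 1)) r n k := by
      intro m
      induction m with
      | zero => intro _ r; exact Ac_self _ _ _ _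
      | succ m ihm =>
        intro hm r
        exact Ac_chain (F 1) (F (m + 1)) (F (m + 2)) (F_anti 1 (m + 1) (by omega))
          (F_anti (m + 1) (m + 2) (by omega)) r n k (ihm (by omega) r)
          (F_step k n ih (m + 1) (by omega) hm r)
    have hlow : ∀ r, Ac (F (n + 1)) ⊥ r n k := by
      intro r
      refine Ac_triv _ _ r n k ?_
      intro m i f hm _ hf hfF
      rw [Submodule.mem_bot]
      exact F_low (n + 1) m i f hfF hf (by omega)
    have hbot : ∀ r, Ac (F 1) ⊥ r n k := fun r =>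
      Ac_chain (F 1) (F (n + 1)) ⊥ (F_anti 1 (n + 1) (by omega)) bot_le r n k
        (chain n le_rfl r) (hlow r)
    cases r with
    | zero => exact Ac_quot0 ⊤ (F 1) ⊥ bot_le n k (Ac_top_bot 0 n k hk)
    | succ r =>
      exact Ac_quot ⊤ (F 1) ⊥ le_top bot_le r n k (Ac_top_bot (r + 1) n k hk) (hbot r)

private theorem low_pure (m : ℕ) (f : R) (hf : IsH m 0 f) (hR : f ∈ Rpl) : f ∈ F 1 := by
  have h1 : ∀ w, f w ≠ 0 → w = pw m := by
    intro w hw
    obtain ⟨h2, h3⟩ := hf w hw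
    have := eq_pw w h3
    rwa [h2] at this
  have h2 : f = f (pw m) • bw (pw m) := by
    ext w
    by_cases hw : w = pw m
    · subst hw
      simp [bw]
    · have h3 : f w = 0 := by
        by_contra h4
        exact hw (h1 w h4)
      rw [h3]
      simp [bw, Finsupp.single_apply, Ne.symm hw]
  rcases Nat.eq_zero_or_pos m with hm | hm
  · subst hm
    rw [mem_Rpl] at hR
    have h3 : f (pw 0) = 0 := hR
    rw [h2, h3, zero_smul]
    exact Submodule.zero_mem _
  · rw [h2]
    refine Submodule.smul_mem _ _ ?_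
    refine F_anti 1 m hm ?_
    rw [F_succ]
    refine Submodule.mem_sup_left ⟨bw [], ?_⟩
    show mu (bw []) (bw (pw m)) = bw (pw m)
    exact nil_mu _

theorem Va_half1 (k : ℕ) (hk : 1 ≤ k) (r n : ℕ) (hr : k + 1 < r) : Va r n k := by
  induction k using Nat.strong_induction_on generalizing r n with
  | _ k ih =>
    obtain ⟨r', rfl⟩ : ∃ r', r = r' + 1 := ⟨r - 1, by omega⟩
    refine Ac_Va _ _ _ ?_
    refine Ac_quot ⊤ Rpl (F 1) le_top (F_le_Rpl 1 le_rfl) r' n k (Ac_top_F1 k hk (r' + 1) n) ?_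
    have hle : F 1 ⊔ RG k ≤ Rpl := sup_le (F_le_Rpl 1 le_rfl) (RG_le_Rpl k hk)
    refine Ac_chain Rpl (F 1 ⊔ RG k) (F 1) hle le_sup_left r' n k ?_ ?_
    · refine Ac_supp Rpl (F 1 ⊔ RG k) IsLI_Rpl (IsLI_sup _ _ (IsLI_F 1) (IsLI_RG k)) hle r' n k ?_
      intro m i _ hi
      rcases Nat.eq_zero_or_pos i with h0 | h0
      · left
        intro f hf hR
        subst h0
        exact Submodule.mem_sup_left (low_pure m f hf hR)
      · rcases Nat.lt_or_ge i k with h1 | h1
        · right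
          exact ih (k - i) (by omega) (by omega) r' (n - m) (by omega)
        · left
          intro f hf _
          refine Submodule.mem_sup_right ?_
          rw [mem_RG]
          intro w hw
          have := (hf w hw).2
          omega
    · refine Ac_pure (F 1 ⊔ RG k) (F 1) (IsLI_sup _ _ (IsLI_F 1) (IsLI_RG k)) (IsLI_F 1)
        le_sup_left k ?_ (Ex_sup (F 1) k (Ex_top_F1 k hk)) r' n (by omega)
      intro m i f hi hf hmem
      obtain ⟨g, hg, h, hh, hgh⟩ := Submodule.mem_sup.1 hmem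
      have e1 : cmp m i f = cmp m i g + cmp m i h := by
        rw [← hgh]
        exact Finsupp.filter_add
      have e2 : cmp m i h = 0 := by
        ext w
        by_cases hw : h w = 0
        · simp [cmp, Finsupp.filter_apply, hw]
        · have h3 := (mem_RG k h).1 hh w hw
          have h4 : ¬ (np w = m ∧ nz w = i) := by
            rintro ⟨_, h5⟩
            omega
          simp [cmp, Finsupp.filter_apply, h4]
      have e3 : f = cmp m i g := by
        rw [e2, add_zero, cmp_of_IsH m i f hf] at e1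
        exact e1
      rw [e3]
      exact (IsLI_F 1).cmp_mem m i g hg

end BrV
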