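import Pool.Agent.Lib.BrV.ExK

/-!
# BrV.ExP: `p` is exact on `R / R p` in positive `z`-degree (section 3.3)

Proof.  (1) chain: `Ex X Y k`, `Ex Y Z k`, `Z ≤ Y` imply `Ex X Z k`: for `a ∈ X` with `p * a ∈ Z ≤ Y`: `a - p * b ∈ Y`,
homogeneous, `p * (a - p * b) = p * a ∈ Z` (`p_p`, `mu_assoc`), so `a - p * b - p * b' ∈ Z`.  (`Y ≤ X` is used for `b' ∈ X`.)
(2) For `X_j = Rp ⊔ F (2 j)`: `Ex X_j X_{j+1} k` for every `j`: `a ∈ X_j` of bidegree `(n,k)`, `p * a ∈ X_{j+1}`.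
By `Rp_F`: `a = x * p^(2j) + y`, `y ∈ X_{j+1}`; taking components (`IsLI_F`, `IsLI_Rp`, `IsLI_sup`, `cmp_mu_right`, and
`cmp_mu_right_zero` if `n < 2 j`, then `a ∈ X_{j+1}` and `b = 0`) we may assume that `x` is of bidegree `(n - 2j, k)`.  `p * y ∈ X_{j+1}` (left ideal),
so `(p * x) * p^(2j) ∈ X_{j+1}`, so `p * x ∈ F 1` (`mul_pow_mem_Rp_iff`), so `x - p * b ∈ F 1` (`Ex_top_F1`), so
`(x - p * b) * p^(2j) ∈ X_{j+1}`, i.e. `a - p * (b * p^(2j)) ∈ X_{j+1}`; `b * p^(2j) ∈ F (2j) ≤ X_j`, homogeneous.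
(3) `X_0 = ⊤` (`F_zero`), so `Ex ⊤ X_j k` for all `j` by (1).  Given `a` of bidegree `(n,k)` take `j` with `2 j > n`:
`a - p * b ∈ Rp ⊔ F (2j)` of bidegree `(n,k)`; its `F (2j)`-part can be replaced by its component, which is `0`
(`F_low`), so `a - p * b ∈ Rp`.
-/

namespace BrV

open Finsupp

private theorem isH_sub {n k : ℕ} {f g : R} (hf : IsH n k f) (hg : IsH n k g) :
    IsH n k (f - g) := by
  intro w hw
  by_cases h : f w = 0
  · refine hg w fun h' => hw ?_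
    rw [Finsupp.sub_apply, h, h', sub_zero]
  · exact hf w h

private theorem isH_zero (n k : ℕ) : IsH n k 0 := by
  intro w hw
  exact absurd (by simp) hw

private theorem eq_zero_of_deg {k : ℕ} {b : R} (hb : ∀ w, b w ≠ 0 → np w + 1 = 0 ∧ nz w = k) :
    b = 0 := by
  ext w
  by_contra h
  have := (hb w h).1
  omega

private theorem isH_pmul {n k : ℕ} {b : R} (hb : ∀ w, b w ≠ 0 → np w + 1 = n ∧ nz w = k) :
    IsH n k (mu (bw [true]) b) := by
  cases n with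
  | zero =>
    rw [eq_zero_of_deg hb, map_zero]
    exact isH_zero 0 k
  | succ n =>
    have h1 : IsH n k b := fun w hw => ⟨by have := (hb w hw).1; omega, (hb w hw).2⟩
    have h2 := IsH_mu 1 0 n k (bw [true]) b (IsH_bw [true]) h1
    intro w hw
    have h3 := h2 w hw
    exact ⟨by omega, by omega⟩

private theorem ex_chain {X Y Z : Submodule ℝ R} {k : ℕ} (h1 : Ex X Y k) (h2 : Ex Y Z k)
    (hZ : Z ≤ Y) (hY : Y ≤ X) : Ex X Z k := by
  intro n a ha haX haZ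
  obtain ⟨b, hbX, hb, hbY⟩ := h1 n a ha haX (hZ haZ)
  have h3 : mu (bw [true]) (a - mu (bw [true]) b) = mu (bw [true]) a := by
    rw [map_sub, ← mu_assoc, p_p]
    simp
  obtain ⟨b', hb'Y, hb', hb'Z⟩ := h2 n (a - mu (bw [true]) b) (isH_sub ha (isH_pmul hb)) hbY
    (by rw [h3]; exact haZ)
  refine ⟨b + b', X.add_mem hbX (hY hb'Y), ?_, ?_⟩
  · intro w hw
    by_cases h : b w = 0
    · refine hb' w fun h' => hw ?_
      rw [Finsupp.add_apply, h, h', add_zero]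
    · exact hb w h
  · rw [map_add, ← sub_sub]
    exact hb'Z

private theorem cmp_add' (n k : ℕ) (f g : R) : cmp n k (f + g) = cmp n k f + cmp n k g :=
  Finsupp.filter_add

private theorem np_pw' (j : ℕ) : IsH j 0 (bw (pw j)) := by
  have h := IsH_bw (pw j)
  rwa [np_pw, nz_pw] at h

private theorem ex_step (k : ℕ) (hk : 1 ≤ k) (j : ℕ) :
    Ex (Rp ⊔ F (2 * j)) (Rp ⊔ F (2 * j + 2)) k := by
  intro n a ha haX hpa
  have hLI : IsLI (Rp ⊔ F (2 * j + 2)) := IsLI_sup _ _ IsLI_Rp (IsLI_F _)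
  rw [Rp_F j] at haX
  obtain ⟨u, ⟨x, hx⟩, y, hy, hxy⟩ := Submodule.mem_sup.mp haX
  have hx' : mu x (bw (pw (2 * j))) = u := hx
  have h1 : a = cmp n k (mu x (bw (pw (2 * j)))) + cmp n k y := by
    rw [← cmp_add', hx', hxy, cmp_of_IsH n k a ha]
  have hy' := hLI.cmp_mem n k y hy
  by_cases hn : n < 2 * j
  · rw [cmp_mu_right_zero n k (2 * j) 0 x _ (np_pw' (2 * j)) (Or.inl hn), zero_add] at h1
    refine ⟨0, Submodule.zero_mem _, fun w hw => absurd (by simp) hw, ?_⟩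
    rw [map_zero, sub_zero, h1]
    exact hy'
  · obtain ⟨n', rfl⟩ : ∃ n', n = n' + 2 * j := ⟨n - 2 * j, by omega⟩
    have h2 := cmp_mu_right n' k (2 * j) 0 x (bw (pw (2 * j))) (np_pw' (2 * j))
    rw [add_zero] at h2
    rw [h2] at h1
    have h3 : mu (mu (bw [true]) (cmp n' k x)) (bw (pw (2 * j))) ∈ Rp ⊔ F (2 * j + 2) := by
      have h4 : mu (mu (bw [true]) (cmp n' k x)) (bw (pw (2 * j))) =
          mu (bw [true]) a - mu (bw [true]) (cmp (n' + 2 * j) k y) := by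
        rw [eq_sub_iff_add_eq, mu_assoc, ← map_add, ← h1]
      rw [h4]
      exact Submodule.sub_mem _ hpa (hLI.mul_mem _ _ hy')
    rw [mul_pow_mem_Rp_iff] at h3
    obtain ⟨b, -, hb, hbF⟩ := Ex_top_F1 k hk n' (cmp n' k x) (IsH_cmp n' k x) Submodule.mem_top h3
    rw [← mul_pow_mem_Rp_iff j] at hbF
    refine ⟨mu b (bw (pw (2 * j))), ?_, ?_, ?_⟩
    · rw [Rp_F j]
      exact Submodule.mem_sup_left ⟨b, rfl⟩
    · cases n' with
      | zero =>
        rw [eq_zero_of_deg hb]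
        intro w hw
        exact absurd (by simp) hw
      | succ n' =>
        have h5 : IsH n' k b := fun w hw => ⟨by have := (hb w hw).1; omega, (hb w hw).2⟩
        have h6 := IsH_mu n' k (2 * j) 0 b _ h5 (np_pw' (2 * j))
        intro w hw
        have h7 := h6 w hw
        exact ⟨by omega, by omega⟩
    · have h8 : a - mu (bw [true]) (mu b (bw (pw (2 * j)))) =
          mu (cmp n' k x - mu (bw [true]) b) (bw (pw (2 * j))) + cmp (n' + 2 * j) k y := by
        rw [map_sub, LinearMap.sub_apply, mu_assoc, h1]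
        abel
      rw [h8]
      exact Submodule.add_mem _ hbF hy'

private theorem ex_all (k : ℕ) (hk : 1 ≤ k) (j : ℕ) : Ex ⊤ (Rp ⊔ F (2 * j)) k := by
  induction j with
  | zero =>
    intro n a _ _ _
    refine ⟨0, Submodule.mem_top, fun w hw => absurd (by simp) hw, ?_⟩
    rw [mul_zero, F_zero]
    simp
  | succ j ih =>
    refine ex_chain ih (ex_step k hk j) ?_ le_top
    rw [Rp_F j]
    exact le_sup_right

theorem Ex_top_Rp (k : ℕ) (hk : 1 ≤ k) : Ex ⊤ Rp k := by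
  intro n a ha haX hpa
  obtain ⟨b, hbX, hb, hbY⟩ := ex_all k hk (n + 1) n a ha haX (Submodule.mem_sup_left hpa)
  refine ⟨b, hbX, hb, ?_⟩
  obtain ⟨r, hr, f, hf, hrf⟩ := Submodule.mem_sup.mp hbY
  have h1 : a - mu (bw [true]) b = cmp n k r + cmp n k f := by
    rw [← cmp_add', hrf, cmp_of_IsH n k _ (isH_sub ha (isH_pmul hb))]
  have h2 : cmp n k f = 0 := F_low (2 * (n + 1)) n k _ ((IsLI_F _).cmp_mem n k f hf)
    (IsH_cmp n k f) (by omega)
  rw [h1, h2, add_zero]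
  exact IsLI_Rp.cmp_mem n k r hr

end BrV
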