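import Pool.Agent.Lib.BrV.Alg

/-!
# BrV.Inj: multiplication by `z` is injective (section 1.5)

Proofs.  `del_mu` with `c = false`, `tau (bw [false]) = bw [false]`, `del false (bw [false]) = bw []`:
`del false (f * z) = f + (del false f) * z`.  Let `f ≠ 0`; `(del false)^M f` vanishes for large `M`
(`f` has finite support and `del false` shortens words), let `M` be maximal with `(del false)^M f ≠ 0`;
by induction `(del false)^(j+1) (f * z) = (j+1) (del false)^j f + ((del false)^(j+1) f) * z`, for `j = M`
this is `(M+1) (del false)^M f ≠ 0`.  Left: `del false (z * f) = z * del false f + tau f`,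
`del false (tau f) = tau (del false f)` (`np (false :: w) = np w`), so
`(del false)^(j+1) (z * f) = z * (del false)^(j+1) f + (j+1) tau ((del false)^j f)`.
`p_mu_inj`: if `p * a = 0` then `0 = del true (p * a) = p * del true a + tau a`, so `tau a = - p * del true a`.
-/

namespace BrV

open Finsupp

private theorem del_z : del false (bw [false]) = bw [] := by
  have h : bw [false] = app false (bw []) := (app_bw false []).symm
  rw [h, del_app]

private theorem del_p : del true (bw [true]) = bw [] := by
  have h : bw [true] = app true (bw []) := (app_bw true []).symm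
  rw [h, del_app]

private theorem tau_z : tau (bw [false]) = bw [false] := by
  have h : IsH 0 1 (bw [false]) := IsH_bw [false]
  rw [tau_of_IsH 0 1 _ h, pow_zero, one_smul]

private theorem del_tau (f : R) : del false (tau f) = tau (del false f) := by
  ext w
  rw [del_apply, tau_apply, tau_apply, del_apply]
  have h : sg (false :: w) = sg w := by simp [sg, np]
  rw [h]

private theorem exists_bd (f : R) : ∃ M : ℕ, ∀ w : Wd, M ≤ w.length → f w = 0 := by
  refine ⟨f.support.sup List.length + 1, fun w hw => ?_⟩
  by_contra hne
  have h1 : w ∈ f.support := mem_support_iff.mpr hne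
  have h2 : w.length ≤ f.support.sup List.length := Finset.le_sup (f := List.length) h1
  omega

private theorem P1 (M : ℕ) : ∀ (f : R) (c : ℝ), 0 < c → (∀ w : Wd, M ≤ w.length → f w = 0) →
    c • f + mu (del false f) (bw [false]) = 0 → f = 0 := by
  induction M with
  | zero =>
    intro f c _ h _
    ext w
    exact h w (Nat.zero_le _)
  | succ M ih =>
    intro f c hc h he
    have h1 := congrArg (del false) he
    rw [map_add, map_smul, del_mu, del_z, mu_one, tau_z, map_zero] at h1
    have h2 : (c + 1) • del false f + mu (del false (del false f)) (bw [false]) = 0 := by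
      rw [← h1, add_smul, one_smul, add_assoc]
    have h3 : del false f = 0 := ih (del false f) (c + 1) (by linarith) (fun w hw => by
      rw [del_apply]
      exact h _ (by simpa using hw)) h2
    rw [h3, map_zero, LinearMap.zero_apply, add_zero] at he
    rcases smul_eq_zero.mp he with h4 | h4
    · exact absurd h4 hc.ne'
    · exact h4

private theorem P2 (M : ℕ) : ∀ (f : R) (c : ℝ), 0 < c → (∀ w : Wd, M ≤ w.length → f w = 0) →
    c • tau f + mu (bw [false]) (del false f) = 0 → f = 0 := by
  induction M with
  | zero =>
    intro f c _ h _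
    ext w
    exact h w (Nat.zero_le _)
  | succ M ih =>
    intro f c hc h he
    have h1 := congrArg (del false) he
    rw [map_add, map_smul, del_mu, del_z, nil_mu, del_tau, map_zero] at h1
    have h2 : (c + 1) • tau (del false f) + mu (bw [false]) (del false (del false f)) = 0 := by
      rw [← h1, add_smul, one_smul, add_assoc, add_comm (tau (del false f))]
    have h3 : del false f = 0 := ih (del false f) (c + 1) (by linarith) (fun w hw => by
      rw [del_apply]
      exact h _ (by simpa using hw)) h2
    rw [h3, map_zero, add_zero] at he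
    rcases smul_eq_zero.mp he with h4 | h4
    · exact absurd h4 hc.ne'
    · rw [← tau_tau f, h4, map_zero]

theorem mu_z_inj (f : R) (h : mu f (bw [false]) = 0) : f = 0 := by
  obtain ⟨M, hM⟩ := exists_bd f
  have h1 := congrArg (del false) h
  rw [del_mu, del_z, mu_one, tau_z, map_zero] at h1
  exact P1 M f 1 one_pos hM (by rw [one_smul]; exact h1)

theorem z_mu_inj (f : R) (h : mu (bw [false]) f = 0) : f = 0 := by
  obtain ⟨M, hM⟩ := exists_bd f
  have h1 := congrArg (del false) h
  rw [del_mu, del_z, nil_mu, map_zero, add_comm] at h1
  exact P2 M f 1 one_pos hM (by rw [one_smul]; exact h1)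

/-- exactness of left multiplication by `p` on `R` (section 3.1) -/
theorem Ex_top_bot (k : ℕ) : Ex ⊤ ⊥ k := by
  intro n a ha _ h0
  rw [Submodule.mem_bot] at h0
  have h1 := congrArg (del true) h0
  rw [del_mu, del_p, nil_mu, map_zero, tau_of_IsH n k a ha] at h1
  have hs : ((-1 : ℝ) ^ n) * ((-1 : ℝ) ^ n) = 1 := by
    rw [← mul_pow]; norm_num
  refine ⟨(-(-1 : ℝ) ^ n) • del true a, Submodule.mem_top, ?_, ?_⟩
  · intro w hw
    refine IsH_del_true n k a ha w ?_
    intro h2
    apply hw
    rw [Finsupp.smul_apply, h2, smul_zero]
  · rw [Submodule.mem_bot, map_smul]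
    have h2 : mu (bw [true]) (del true a) = -((-1 : ℝ) ^ n • a) := eq_neg_of_add_eq_zero_left h1
    rw [h2, neg_smul, smul_neg, smul_smul, hs, one_smul, neg_neg, sub_self]

end BrV
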