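import Pool.Agent.Lib.BrV.Alg

/-!
# BrV.LowN: nonempty words with at most one letter `p` lie in `R p + R z` (section 2.6)

The head of a word is its LAST letter, so `z^a p z^b` is `zw b ++ (true :: zw a)`.

Proof.  `v * z` is the sum of all insertions of `z` in `v` (no signs, `sg [false] = 1`); `v * p` is the sum of
all insertions of `p` in `v` with the sign `(-1)^(number of letters of v after the new p)`  (both by `sh_cons`
with `w = []`: `sh (a :: v) [b] = bw (b :: a :: v) + sg [b] • app a (sh v [b])`).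
* `np w = 0`: `w = z^j`, `j ≥ 1`: `z^(j-1) * z = j z^j`.
* `np w = 1`, `w = z^a p z^b`: for `b ≥ 1`: `(z^a p z^(b-1)) * z = b z^a p z^b + (a+1) z^(a+1) p z^(b-1)`.
  So modulo `Rz`: `z^a p z^b = (-1)^b binom(a+b,b) z^(a+b) p`, and `z^a * p = ∑_{j ≤ a} (-1)^j z^(a-j) p z^j`
  is `(∑_j binom(a,j)) z^a p = 2^a z^a p` modulo `Rz`.  Hence `z^a p ∈ Rp + Rz` and then all `z^a p z^b`.
  (`binom(a+b,b)`: with `a' = a - j`, `b = j` it is `binom(a,j)`.)
-/

namespace BrV

open Finsupp

/-- the word `z^a p z^b` -/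
private def W (a b : ℕ) : Wd := zw b ++ (true :: zw a)

private lemma W_zero (a : ℕ) : W a 0 = true :: zw a := rfl

private lemma W_succ (a b : ℕ) : W a (b + 1) = false :: W a b := rfl

private lemma zw_succ (j : ℕ) : zw (j + 1) = false :: zw j := rfl

private lemma sg_false : sg [false] = 1 := by simp [sg, np]

private lemma sg_true : sg [true] = -1 := by simp [sg, np]

private lemma sh_false (a : Bool) (v : Wd) :
    sh (a :: v) [false] = bw (false :: a :: v) + app a (sh v [false]) := by
  rw [sh_cons, sg_false, one_smul, sh_nil, app_bw]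

private lemma sh_true (a : Bool) (v : Wd) :
    sh (a :: v) [true] = bw (true :: a :: v) - app a (sh v [true]) := by
  rw [sh_cons, sg_true, sh_nil, app_bw, neg_smul, one_smul, sub_eq_add_neg]

private lemma sh_empty (w : Wd) : sh [] w = bw w := by
  rw [← mu_bw, nil_mu]

private lemma sh_zw (j : ℕ) : sh (zw j) [false] = ((j : ℝ) + 1) • bw (zw (j + 1)) := by
  induction j with
  | zero =>
    have h : zw 0 = [] := rfl
    rw [h, sh_empty]
    simp [zw]
  | succ j ih =>
    rw [zw_succ j, sh_false, ih, map_smul, app_bw, ← zw_succ j, ← zw_succ (j + 1)]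
    push_cast
    module

private lemma sh_W (a b : ℕ) : sh (W a b) [false] =
    ((b : ℝ) + 1) • bw (W a (b + 1)) + ((a : ℝ) + 1) • bw (W (a + 1) b) := by
  induction b with
  | zero =>
    rw [W_zero, sh_false, sh_zw, map_smul, app_bw, W_succ, W_zero, W_zero]
    push_cast
    module
  | succ b ih =>
    rw [W_succ a b, sh_false, ih, map_add, map_smul, map_smul, app_bw, app_bw, ← W_succ a b,
      ← W_succ a (b + 1), ← W_succ (a + 1) b]
    push_cast
    module

private lemma mem_Rz (v : Wd) : sh v [false] ∈ Rz :=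
  ⟨bw v, by simp [rm, mu_bw]⟩

private lemma mem_Rp (v : Wd) : sh v [true] ∈ Rp :=
  ⟨bw v, by simp [rm, mu_bw]⟩

private lemma W_mod (a b : ℕ) :
    bw (W a b) - ((-1 : ℝ) ^ b * ((a + b).choose b : ℝ)) • bw (W (a + b) 0) ∈ Rz := by
  induction b generalizing a with
  | zero => simp
  | succ b ih =>
    have h1 := ih (a + 1)
    have h2 := mem_Rz (W a b)
    rw [sh_W] at h2
    have hb : ((b : ℝ) + 1) ≠ 0 := by positivity
    have h3 : bw (W a (b + 1)) - ((-1 : ℝ) ^ (b + 1) * ((a + (b + 1)).choose (b + 1) : ℝ)) •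
        bw (W (a + (b + 1)) 0) = ((b : ℝ) + 1)⁻¹ • (((b : ℝ) + 1) • bw (W a (b + 1)) +
          ((a : ℝ) + 1) • bw (W (a + 1) b)) - (((b : ℝ) + 1)⁻¹ * ((a : ℝ) + 1)) •
          (bw (W (a + 1) b) - ((-1 : ℝ) ^ b * ((a + 1 + b).choose b : ℝ)) •
            bw (W (a + 1 + b) 0)) := by
      have hab : a + (b + 1) = a + 1 + b := by ring
      rw [hab]
      have hc : ((a + 1 + b).choose (b + 1) : ℝ) * ((b : ℝ) + 1) =
          ((a + 1 + b).choose b : ℝ) * ((a : ℝ) + 1) := by
        have := Nat.choose_succ_right_eq (a + 1 + b) b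
        have h4 : a + 1 + b - b = a + 1 := by omega
        rw [h4] at this
        exact_mod_cast this
      have hc' : ((a + 1 + b).choose (b + 1) : ℝ) =
          ((b : ℝ) + 1)⁻¹ * ((a : ℝ) + 1) * ((a + 1 + b).choose b : ℝ) := by
        field_simp
        linarith
      rw [hc', smul_add, smul_smul, inv_mul_cancel₀ hb, one_smul, smul_smul, smul_sub, smul_smul]
      rw [pow_succ]
      module
    rw [h3]
    exact Rz.sub_mem (Rz.smul_mem _ h2) (Rz.smul_mem _ h1)

private lemma sh_zp (a : ℕ) : sh (zw a) [true] =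
    ∑ j ∈ Finset.range (a + 1), ((-1 : ℝ) ^ j) • bw (W (a - j) j) := by
  induction a with
  | zero =>
    have h : zw 0 = [] := rfl
    rw [h, sh_empty]
    simp [W, zw]
  | succ a ih =>
    rw [zw_succ a, sh_true, ih, map_sum, Finset.sum_range_succ' _ (a + 1)]
    have h1 : ∀ j ∈ Finset.range (a + 1), ((-1 : ℝ) ^ (j + 1)) • bw (W (a + 1 - (j + 1)) (j + 1)) =
        - app false (((-1 : ℝ) ^ j) • bw (W (a - j) j)) := by
      intro j _
      rw [map_smul, app_bw, W_succ, pow_succ, Nat.add_sub_add_right]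
      module
    rw [Finset.sum_congr rfl h1, Finset.sum_neg_distrib, pow_zero, one_smul, Nat.sub_zero, W_zero,
      zw_succ]
    abel

private lemma W_zero_mem (a : ℕ) : bw (W a 0) ∈ Rp ⊔ Rz := by
  have h1 : sh (zw a) [true] ∈ Rp ⊔ Rz := Submodule.mem_sup_left (mem_Rp _)
  have h2 : sh (zw a) [true] - (2 : ℝ) ^ a • bw (W a 0) ∈ Rp ⊔ Rz := by
    have h3 : sh (zw a) [true] - (2 : ℝ) ^ a • bw (W a 0) =
        ∑ j ∈ Finset.range (a + 1), ((-1 : ℝ) ^ j) • (bw (W (a - j) j) -
          ((-1 : ℝ) ^ j * ((a - j + j).choose j : ℝ)) • bw (W (a - j + j) 0)) := by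
      have h4 : (2 : ℝ) ^ a = ∑ j ∈ Finset.range (a + 1), (a.choose j : ℝ) := by
        have := Nat.sum_range_choose a
        exact_mod_cast this.symm
      rw [sh_zp, h4, Finset.sum_smul, ← Finset.sum_sub_distrib]
      apply Finset.sum_congr rfl
      intro j hj
      have hj' : a - j + j = a := Nat.sub_add_cancel (by
        have := Finset.mem_range.mp hj
        omega)
      rw [hj', smul_sub, smul_smul, ← mul_assoc, ← mul_pow]
      norm_num
    rw [h3]
    apply Submodule.sum_mem
    intro j _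
    exact Submodule.smul_mem _ _ (Submodule.mem_sup_right (W_mod _ _))
  have h5 : (2 : ℝ) ^ a • bw (W a 0) ∈ Rp ⊔ Rz := by
    have := Submodule.sub_mem _ h1 h2
    simpa using this
  exact (Submodule.smul_mem_iff _ (by positivity)).mp h5

private lemma W_mem (a b : ℕ) : bw (W a b) ∈ Rp ⊔ Rz := by
  have h1 : bw (W a b) - ((-1 : ℝ) ^ b * ((a + b).choose b : ℝ)) • bw (W (a + b) 0) ∈ Rp ⊔ Rz :=
    Submodule.mem_sup_right (W_mod a b)
  have h2 := Submodule.smul_mem (Rp ⊔ Rz) ((-1 : ℝ) ^ b * ((a + b).choose b : ℝ))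
    (W_zero_mem (a + b))
  have := Submodule.add_mem _ h1 h2
  simpa using this

private lemma np_cons_true (w : Wd) : np (true :: w) = np w + 1 := by simp [np]

private lemma np_cons_false (w : Wd) : np (false :: w) = np w := by simp [np]

private lemma eq_zw (w : Wd) (h : np w = 0) : w = zw w.length := by
  induction w with
  | nil => rfl
  | cons a w ih =>
    cases a with
    | true => rw [np_cons_true] at h; omega
    | false =>
      rw [np_cons_false] at h
      rw [List.length_cons, zw_succ, ← ih h]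

private lemma eq_W (w : Wd) (h : np w = 1) : ∃ a b, w = W a b := by
  induction w with
  | nil => simp [np] at h
  | cons a w ih =>
    cases a with
    | true =>
      rw [np_cons_true] at h
      refine ⟨w.length, 0, ?_⟩
      rw [W_zero, ← eq_zw w (by omega)]
    | false =>
      rw [np_cons_false] at h
      obtain ⟨a, b, rfl⟩ := ih h
      exact ⟨a, b + 1, (W_succ a b).symm⟩

theorem lowN (w : Wd) (h0 : w ≠ []) (h : np w ≤ 1) : bw w ∈ Rp ⊔ Rz := by
  rcases Nat.le_one_iff_eq_zero_or_eq_one.mp h with h1 | h1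
  · apply Submodule.mem_sup_right
    rw [eq_zw w h1]
    obtain ⟨j, hj⟩ : ∃ j, w.length = j + 1 := by
      cases w with
      | nil => exact absurd rfl h0
      | cons a w => exact ⟨w.length, by simp⟩
    rw [hj]
    have h2 := mem_Rz (zw j)
    rw [sh_zw] at h2
    exact (Submodule.smul_mem_iff _ (by positivity)).mp h2
  · obtain ⟨a, b, rfl⟩ := eq_W w h1
    exact W_mem a b

/-- the same for homogeneous elements -/
theorem lowN_IsH (n k : ℕ) (f : R) (hf : IsH n k f) (hn : n ≤ 1) (h0 : f [] = 0) :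
    f ∈ Rp ⊔ Rz := by
  have h1 : f = ∑ w ∈ f.support, f w • bw w := by
    conv_lhs => rw [← Finsupp.sum_single f]
    rw [Finsupp.sum]
    apply Finset.sum_congr rfl
    intro w _
    simp [bw]
  rw [h1]
  apply Submodule.sum_mem
  intro w hw
  apply Submodule.smul_mem
  have hw' := Finsupp.mem_support_iff.mp hw
  apply lowN
  · rintro rfl
    exact hw' h0
  · rw [(hf w hw').1]
    exact hn

end BrV
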