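import Pool.Agent.Lib.BrV.Supp
import Pool.Agent.Lib.BrV.Pure
import Pool.Agent.Lib.BrV.Free
import Pool.Agent.Lib.BrV.ExP
import Pool.Agent.Lib.BrV.LowN
import Pool.Agent.Lib.BrV.Inj

/-!
# BrV.Half2: the uniform half (section 6)

`Ac_top_Rp` (6.1): `k ≥ 1`.  Induction on `n`, for all `r`: `Ac_transport` with `X' = ⊤, Y' = Rp, X = Rp, Y = ⊥, c = bw [true], (a,b) = (1,0)`
(`mul_p_eq_zero_iff`) gives `Ac Rp ⊥ r n k` from `Ac ⊤ Rp r (n-1) k` (`n ≥ 1`; for `n = 0` `Ac_triv`: homogeneous elements of `Rp` with `np = 0` vanish);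
`Ac_top_bot`, `Ac_quot`, `Ac_quot0`.
`Va_half2` (6.2): hypotheses: `hJ` (3.4), `hV3` `(V(3,3,k))`, `hhigh` (`Va r n k` for `r ≥ n + 1`, not `(r,n) = (1,0)`).
 Strong induction on `r`.  `r ≤ 3`: `3 r > 2 n + 2`, (`n ≥ 1` or `r ≥ 2`): then `n + 1 ≤ r` or `(r,n) = (3,3)`.
 `r ≥ 4` (put `r' = r - 1`): by `Ac_Va`, `Ac_quot` (`Z = Rp`), `Ac_top_Rp` enough `Ac Rpl Rp r' n k`.  Chain
 `Rpl ≥ Rp ⊔ Rz ⊔ RG k ≥ Rp ⊔ RG k ≥ Rp`.
 (a) `Ac (Rp ⊔ RG k) Rp r' n k`: `Ac_pure`, `Ex_sup`, `Ex_top_Rp`.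
 (b) `Ac Rpl (Rp ⊔ Rz ⊔ RG k) r' n k`: `Ac_supp`: `(m,i)` with `m ≤ 1` or `i = k`: inclusion (`lowN_IsH`); else `m ≥ 2`, `i < k`: `Va r' (n-m) (k-i)`:
     `3 r' > 2 (n - m) + 2`, `r' ≥ 2`: induction.
 (c) `Ac (Rp ⊔ Rz ⊔ RG k) (Rp ⊔ RG k) r' n k`.  `k = 1`: the homogeneous elements of `Rz` of `z`-degree `≤ 1` are `0` or in `RG 1`: `Ac_triv`.
     `k = k' + 1`, `k' ≥ 1`: `Ac_transport` with `X' = ⊤`, `Y' = J ⊔ RG k'`, `X = Rp ⊔ Rz ⊔ RG k`, `Y = Rp ⊔ RG k`, `c = bw [false]`, `(a,b) = (0,1)` from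
     `Ac ⊤ (J ⊔ RG k') r' n k'`  (`h4`: `f * z ∈ Rp ⊔ RG k`: compare the components of `f` with `nz < k'`: they are in `J`; the others in `RG k'`).
     By `Ac_quot` (`Z = RG k'`): enough `Ac ⊤ (RG k') r' n k'` and `Ac (J ⊔ RG k') (RG k') (r'-1) n k'`.
     The first: by `Ac_quot` (`Z = ⊥`) from `Ac_top_bot` and `Ac (RG k') ⊥ (r'-1) n k'`: `Ac_pure` with `Ex (RG k') ⊥ k'` (`Ex_sup ⊥`, `Ex_top_bot`), `r' - 1 ≥ 2`.
     The second: `Ac_supp`: `(m,i)`: `i = k'`: in `RG k'`; `m ≤ 2`, `i < k'`: a homogeneous element of `J ⊔ RG k'` is in `J`, so `0` by `hJ`;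
     `m ≥ 3`, `i < k'`: `Va (r'-1) (n-m) (k'-i)`: `3 (r'-1) > 2 (n-m) + 2` iff (`m = 3`) `3 r > 2 n + 2`; `r' - 1 ≥ 2`: induction.
-/

namespace BrV

open Finsupp

private theorem hp : IsH 1 0 (bw [true]) := IsH_bw [true]

private theorem hz : IsH 0 1 (bw [false]) := IsH_bw [false]

private theorem cmp_add' (n k : ℕ) (f g : R) : cmp n k (f + g) = cmp n k f + cmp n k g :=
  Finsupp.filter_add

private theorem cmp_RG_zero (n i k : ℕ) (f : R) (hf : f ∈ RG k) (h : i < k) : cmp n i f = 0 := by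
  rw [mem_RG] at hf
  ext w
  by_contra hne
  have hc := IsH_cmp n i f w hne
  have h2 : cmp n i f w = f w := by
    unfold cmp
    exact Finsupp.filter_apply_pos _ _ hc
  rw [h2] at hne
  have := hf w hne
  omega

private theorem IsH_RG (n i k : ℕ) (f : R) (hf : IsH n i f) (h : k ≤ i) : f ∈ RG k := by
  rw [mem_RG]
  intro w hw
  have := (hf w hw).2
  omega

private theorem lem1 (Y : Submodule ℝ R) (hY : IsLI Y) (k n i : ℕ) (f : R) (hi : i < k)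
    (hf : IsH n i f) (h : f ∈ Y ⊔ RG k) : f ∈ Y := by
  obtain ⟨a, ha, b, hb, rfl⟩ := Submodule.mem_sup.1 h
  rw [← cmp_of_IsH n i _ hf, cmp_add', cmp_RG_zero n i k b hb hi, add_zero]
  exact hY.cmp_mem n i a ha

private theorem mu_z_RG (k : ℕ) (f : R) (hf : f ∈ RG k) : mu f (bw [false]) ∈ RG (k + 1) := by
  have hle : RG k ≤ (RG (k + 1)).comap (rm [false]) := by
    unfold RG
    rw [Finsupp.supported_eq_span_single, Submodule.span_le]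
    rintro _ ⟨w, hw, rfl⟩
    have h1 : IsH (np w + 0) (nz w + 1) (mu (bw w) (bw [false])) :=
      IsH_mu _ _ _ _ _ _ (IsH_bw w) hz
    have h2 := IsH_RG _ _ (k + 1) _ h1 (Nat.succ_le_succ hw)
    exact h2
  exact hle hf

private theorem Ac_Rp_bot (k : ℕ) (r n : ℕ) (h : ∀ n', n = n' + 1 → Ac ⊤ Rp r n' k) :
    Ac Rp ⊥ r n k := by
  rcases n with _ | n
  · refine Ac_triv Rp ⊥ r 0 k ?_
    intro m i f hm hi hf hfR
    obtain ⟨g, hg⟩ := (mem_Rp f).1 hfR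
    have h0 : cmp m i f = 0 := by
      rw [← hg]
      exact cmp_mu_right_zero m i 1 0 g _ hp (Or.inl (by omega))
    rw [cmp_of_IsH m i f hf] at h0
    rw [h0]
    exact Submodule.zero_mem _
  · have := Ac_transport ⊤ Rp Rp ⊥ IsLI_top IsLI_Rp IsLI_Rp IsLI_bot 1 0 (bw [true]) hp
      (fun f _ => (mem_Rp _).2 ⟨f, rfl⟩)
      (fun f hf => by
        rw [(mul_p_eq_zero_iff f).2 hf]
        exact Submodule.zero_mem _)
      (fun f hf => by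
        obtain ⟨g, hg⟩ := (mem_Rp f).1 hf
        refine ⟨g, Submodule.mem_top, ?_⟩
        rw [hg, sub_self]
        exact Submodule.zero_mem _)
      (fun f _ hf => (mul_p_eq_zero_iff f).1 ((Submodule.mem_bot ℝ).1 hf))
      r n k (h n rfl)
    exact this

theorem Ac_top_Rp (k : ℕ) (hk : 1 ≤ k) (r n : ℕ) : Ac ⊤ Rp r n k := by
  induction n generalizing r with
  | zero =>
    rcases r with _ | r
    · exact Ac_quot0 ⊤ Rp ⊥ bot_le 0 k (Ac_top_bot 0 0 k hk)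
    · exact Ac_quot ⊤ Rp ⊥ le_top bot_le r 0 k (Ac_top_bot (r + 1) 0 k hk)
        (Ac_Rp_bot k r 0 (fun n' h => by omega))
  | succ n ih =>
    rcases r with _ | r
    · exact Ac_quot0 ⊤ Rp ⊥ bot_le (n + 1) k (Ac_top_bot 0 (n + 1) k hk)
    · refine Ac_quot ⊤ Rp ⊥ le_top bot_le r (n + 1) k (Ac_top_bot (r + 1) (n + 1) k hk)
        (Ac_Rp_bot k r (n + 1) (fun n' h => ?_))
      have : n' = n := by omega
      subst this
      exact ih r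

/-- step (a) -/
private theorem step_a (k : ℕ) (hk : 1 ≤ k) (r n : ℕ) (hr : 2 ≤ r) :
    Ac (Rp ⊔ RG k) Rp r n k :=
  Ac_pure (Rp ⊔ RG k) Rp (IsLI_sup _ _ IsLI_Rp (IsLI_RG k)) IsLI_Rp le_sup_left k
    (fun n i f hi hf h => lem1 Rp IsLI_Rp k n i f hi hf h)
    (Ex_sup Rp k (Ex_top_Rp k hk)) r n hr

/-- step (b) -/
private theorem step_b (k : ℕ) (hk : 1 ≤ k) (r n : ℕ)
    (hV : ∀ m i, 2 ≤ m → m ≤ n → i < k → Va r (n - m) (k - i)) :
    Ac Rpl (Rp ⊔ Rz ⊔ RG k) r n k := by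
  refine Ac_supp Rpl (Rp ⊔ Rz ⊔ RG k) IsLI_Rpl
    (IsLI_sup _ _ (IsLI_sup _ _ IsLI_Rp IsLI_Rz) (IsLI_RG k))
    (sup_le (sup_le Rp_le_Rpl Rz_le_Rpl) (RG_le_Rpl k hk)) r n k ?_
  intro m i hm hi
  by_cases h1 : m ≤ 1
  · left
    intro f hf hfR
    exact Submodule.mem_sup_left (lowN_IsH m i f hf h1 ((mem_Rpl f).1 hfR))
  by_cases h2 : i = k
  · left
    intro f hf _
    exact Submodule.mem_sup_right (IsH_RG m i k f hf h2.ge)
  · right
    exact hV m i (by omega) hm (by omega)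

/-- step (c), `k = 1` -/
private theorem step_c1 (r n : ℕ) : Ac (Rp ⊔ Rz ⊔ RG 1) (Rp ⊔ RG 1) r n 1 := by
  refine Ac_triv _ _ r n 1 ?_
  intro m i f _ hi hf h
  rcases Nat.eq_zero_or_pos i with h0 | h0
  · subst h0
    have h1 : f ∈ Rp ⊔ Rz := lem1 (Rp ⊔ Rz) (IsLI_sup _ _ IsLI_Rp IsLI_Rz) 1 m 0 f one_pos hf h
    obtain ⟨a, ha, b, hb, rfl⟩ := Submodule.mem_sup.1 h1
    obtain ⟨g, hg⟩ := (mem_Rz b).1 hb
    have h2 : cmp m 0 b = 0 := by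
      rw [← hg]
      exact cmp_mu_right_zero m 0 0 1 g _ hz (Or.inr one_pos)
    rw [← cmp_of_IsH m 0 _ hf, cmp_add', h2, add_zero]
    exact Submodule.mem_sup_left (IsLI_Rp.cmp_mem m 0 a ha)
  · exact Submodule.mem_sup_right (IsH_RG m i 1 f hf h0)

/-- the condition `h4` -/
private theorem h4aux (k : ℕ) (f : R) (h : mu f (bw [false]) ∈ Rp ⊔ RG (k + 1)) :
    f ∈ J ⊔ RG k := by
  obtain ⟨a, ha, b, hb, hab⟩ := Submodule.mem_sup.1 h
  obtain ⟨N, hN⟩ := sum_cmp f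
  rw [hN N le_rfl]
  refine Submodule.sum_mem _ fun n _ => Submodule.sum_mem _ fun i _ => ?_
  rcases lt_or_ge i k with hi | hi
  · refine Submodule.mem_sup_left ?_
    rw [mem_J, ← cmp_mu_right n i 0 1 f _ hz, ← hab, cmp_add',
      cmp_RG_zero _ _ (k + 1) b hb (by omega), add_zero]
    exact IsLI_Rp.cmp_mem _ _ a ha
  · exact Submodule.mem_sup_right (IsH_RG n i k _ (IsH_cmp n i f) hi)

/-- step (c), `k ≥ 2` -/
private theorem step_c2 (k r n : ℕ) (h : Ac ⊤ (J ⊔ RG k) r n k) :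
    Ac (Rp ⊔ Rz ⊔ RG (k + 1)) (Rp ⊔ RG (k + 1)) r n (k + 1) := by
  have := Ac_transport ⊤ (J ⊔ RG k) (Rp ⊔ Rz ⊔ RG (k + 1)) (Rp ⊔ RG (k + 1)) IsLI_top
    (IsLI_sup _ _ IsLI_J (IsLI_RG k))
    (IsLI_sup _ _ (IsLI_sup _ _ IsLI_Rp IsLI_Rz) (IsLI_RG (k + 1)))
    (IsLI_sup _ _ IsLI_Rp (IsLI_RG (k + 1))) 0 1 (bw [false]) hz
    (fun f _ => Submodule.mem_sup_left (Submodule.mem_sup_right ((mem_Rz _).2 ⟨f, rfl⟩)))
    (fun f hf => by
      obtain ⟨a, ha, b, hb, rfl⟩ := Submodule.mem_sup.1 hf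
      rw [map_add, LinearMap.add_apply]
      exact Submodule.add_mem_sup ((mem_J a).1 ha) (mu_z_RG k b hb))
    (fun f hf => by
      obtain ⟨ab, hab, c, hc, rfl⟩ := Submodule.mem_sup.1 hf
      obtain ⟨a, ha, b, hb, rfl⟩ := Submodule.mem_sup.1 hab
      obtain ⟨g, hg⟩ := (mem_Rz b).1 hb
      refine ⟨g, Submodule.mem_top, ?_⟩
      rw [hg]
      have : a + b + c - b = a + c := by abel
      rw [this]
      exact Submodule.add_mem_sup ha hc)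
    (fun f _ hf => h4aux k f hf) r n k h
  exact this

/-- `Ac ⊤ (J ⊔ RG k)` -/
private theorem step_J (hJ : ∀ n k f, n ≤ 2 → IsH n k f → f ∈ J → f = 0) (k : ℕ) (hk : 1 ≤ k)
    (r n : ℕ) (hr : 2 ≤ r) (hV : ∀ m i, 3 ≤ m → m ≤ n → i < k → Va r (n - m) (k - i)) :
    Ac ⊤ (J ⊔ RG k) (r + 1) n k := by
  refine Ac_quot ⊤ (J ⊔ RG k) (RG k) le_top le_sup_right r n k ?_ ?_
  · refine Ac_quot ⊤ (RG k) ⊥ le_top bot_le r n k (Ac_top_bot (r + 1) n k hk) ?_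
    refine Ac_pure (RG k) ⊥ (IsLI_RG k) IsLI_bot bot_le k ?_ ?_ r n hr
    · intro n i f hi hf h
      rw [← cmp_of_IsH n i f hf, cmp_RG_zero n i k f h hi]
      exact Submodule.zero_mem _
    · have := Ex_sup ⊥ k (Ex_top_bot k)
      rwa [bot_sup_eq] at this
  · refine Ac_supp (J ⊔ RG k) (RG k) (IsLI_sup _ _ IsLI_J (IsLI_RG k)) (IsLI_RG k)
      le_sup_right r n k ?_
    intro m i hm hi
    by_cases h1 : i = k
    · left
      intro f hf _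
      exact IsH_RG m i k f hf h1.ge
    by_cases h2 : m ≤ 2
    · left
      intro f hf h
      have h3 : f ∈ J := lem1 J IsLI_J k m i f (by omega) hf h
      rw [hJ m i f h2 hf h3]
      exact Submodule.zero_mem _
    · right
      exact hV m i (by omega) hm (by omega)

theorem Va_half2 (hJ : ∀ n k f, n ≤ 2 → IsH n k f → f ∈ J → f = 0)
    (hV3 : ∀ k, 1 ≤ k → Va 3 3 k)
    (hhigh : ∀ r n k, n + 1 ≤ r → (1 ≤ n ∨ 2 ≤ r) → 1 ≤ k → Va r n k)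
    (r n k : ℕ) (hk : 1 ≤ k) (h : 2 * n + 2 < 3 * r) (hn : 1 ≤ n ∨ 2 ≤ r) : Va r n k := by
  induction r using Nat.strong_induction_on generalizing n k with
  | _ r ih =>
    by_cases hr : r ≤ 3
    · by_cases h1 : n + 1 ≤ r
      · exact hhigh r n k h1 hn hk
      · have h2 : r = 3 := by omega
        have h3 : n = 3 := by omega
        subst h2 h3
        exact hV3 k hk
    · obtain ⟨r2, rfl⟩ : ∃ r2, r = r2 + 1 + 1 := ⟨r - 2, by omega⟩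
      have hr2 : 2 ≤ r2 := by omega
      refine Ac_Va _ n k ?_
      refine Ac_quot ⊤ Rpl Rp le_top Rp_le_Rpl (r2 + 1) n k (Ac_top_Rp k hk _ _) ?_
      have hb : Ac Rpl (Rp ⊔ Rz ⊔ RG k) (r2 + 1) n k :=
        step_b k hk (r2 + 1) n (fun m i hm hmn hi =>
          ih (r2 + 1) (by omega) (n - m) (k - i) (by omega) (by omega) (Or.inr (by omega)))
      have ha : Ac (Rp ⊔ RG k) Rp (r2 + 1) n k := step_a k hk (r2 + 1) n (by omega)
      have hc : Ac (Rp ⊔ Rz ⊔ RG k) (Rp ⊔ RG k) (r2 + 1) n k := by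
        obtain ⟨k', rfl⟩ : ∃ k', k = k' + 1 := ⟨k - 1, by omega⟩
        rcases Nat.eq_zero_or_pos k' with h0 | h0
        · subst h0
          exact step_c1 (r2 + 1) n
        · exact step_c2 k' (r2 + 1) n (step_J hJ k' h0 r2 n hr2 (fun m i hm hmn hi =>
            ih r2 (by omega) (n - m) (k' - i) (by omega) (by omega) (Or.inr hr2)))
      refine Ac_chain Rpl (Rp ⊔ Rz ⊔ RG k) Rp
        (sup_le (sup_le Rp_le_Rpl Rz_le_Rpl) (RG_le_Rpl k hk))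
        (le_sup_left.trans le_sup_left) (r2 + 1) n k hb ?_
      exact Ac_chain (Rp ⊔ Rz ⊔ RG k) (Rp ⊔ RG k) Rp
        (sup_le_sup_right le_sup_left _) le_sup_left (r2 + 1) n k hc ha

end BrV
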