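import Pool.Agent.Lib.BrV.Key
import Pool.Agent.Lib.BrV.Inj
import Pool.Agent.Lib.BrV.Pow
import Pool.Agent.Lib.BrV.Ideals

/-!
# BrV.JLow: `J` has no nonzero element with `np ≤ 2` (7.3)

Let `f ∈ J`, `IsH n k f`, `n ≤ 2`: `f * z = h * p`  (`mem_J`, `mem_Rp`); taking components (`cmp_mu_right`, `cmp_mu_right_zero`) we may assume `IsH (n-1) (k+1) h`; if `n = 0` then `f * z = 0`.
In all cases it is enough to show `f * z = 0` (`mu_z_inj`).  By `PP_mu_z`, `PP (f * z)` vanishes at `t = 0` (`subt 0`).  By `PP_mu` with `g = p = bw [true]` (`PP p = P [true] = 1`, `zet a 1 = 2 u_(a+1) - t`):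
* `n = 1`: `a = 0`, `H = PP h ∈ An 0 (k+1)`: `PP (h * p) = subt (2 u_1 - t) H`; at `t = 0`: `H(2 u_1) = 0`, `H = 0`, so `PP (f * z) = 0`, `f * z = 0` (`PP_inj`).
* `n = 2`: `a = 1`, `H = H(u_1; t) ∈ An 1 (k+1)`, `Q(0;1,1) = 1 - s_1`: `PP (h * p) = H(u_1; 2u_2 - t) - H(2u_1 - u_2; 2u_1 - t)`; at `t = 0`: `H(u_1; 2u_2) = H(2u_1 - u_2; 2u_1)`.  (E)
  Put `g(x,y) = H((x+y)/2; y)`: `H(u;t) = g(2u - t, t)` and (E) reads `g(x,y) = g(x, x+y)` with `x = 2u_1 - 2u_2`, `y = 2u_2` (independent), so `g(x,y) = g(x, y + m x)` for all natural `m`, so `g` does not depend on `y`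
  (for real `x ≠ 0` the polynomial `g(x, ·)` is constant).  `g` is homogeneous of degree `k+1`: `g = c x^(k+1)`, `H = c (2 u_1 - t)^(k+1)`.
  `PP (z^(k+1) * p) = (2 u_1 - t)^(k+1) / (k+1)!` (`PP_mu` with `a = 0`, `b = 1`, `P (zw j) = t^j / j!`), so `h = c (k+1)! z^(k+1) * p` (`PP_inj`), `h * p = 0` (`mu_assoc`, `p_p`), `f * z = 0`.
  Concretely: with the real function `G(x,y) = eval ..`; it may be simpler to argue with `H` as a polynomial in two real variables via `MvPolynomial.funext`.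
-/

namespace BrV

open Finsupp

private theorem eval_subt (a : ℕ → ℝ) (q F : PA) :
    MvPolynomial.eval a (subt q F) =
      MvPolynomial.eval (fun i => if i = 0 then MvPolynomial.eval a q else a i) F := by
  induction F using MvPolynomial.induction_on with
  | C r => simp [subt]
  | add p q hp hq => rw [map_add, map_add, map_add, hp, hq]
  | mul_X p i hp =>
    rw [map_mul, map_mul, map_mul, hp]
    congr 1
    by_cases h : i = 0
    · simp [subt, h]
    · simp [subt, h]

private theorem eval_sA (a : ℕ → ℝ) (i : ℕ) (F : PA) :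
    MvPolynomial.eval a (sA i F) =
      MvPolynomial.eval (fun j => if j = i then 2 * a i - a (i + 1)
        else if j = i + 1 then a i else a j) F := by
  induction F using MvPolynomial.induction_on with
  | C r => simp [sA]
  | add p q hp hq => rw [map_add, map_add, map_add, hp, hq]
  | mul_X p j hp =>
    rw [map_mul, map_mul, map_mul, hp]
    congr 1
    by_cases h : j = i
    · simp [sA, h]
    · by_cases h' : j = i + 1
      · simp [sA, h']
      · simp [sA, h, h']

private theorem eval_poly (y : ℝ) (g : ℕ → Polynomial ℝ) (F : PA) :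
    Polynomial.eval y (MvPolynomial.aeval g F) =
      MvPolynomial.eval (fun i => Polynomial.eval y (g i)) F := by
  induction F using MvPolynomial.induction_on with
  | C r => simp
  | add p q hp hq => rw [map_add, map_add, Polynomial.eval_add, hp, hq]
  | mul_X p i hp =>
    rw [map_mul, map_mul, Polynomial.eval_mul, hp]
    simp

private theorem eval_congr (n k : ℕ) (F : PA) (hF : F ∈ An n k) (a b : ℕ → ℝ)
    (h : ∀ i ≤ n, a i = b i) : MvPolynomial.eval a F = MvPolynomial.eval b F := by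
  have h1 : F ∈ MvPolynomial.supported ℝ {i : ℕ | i ≤ n} := hF.2
  rw [MvPolynomial.mem_supported] at h1
  refine MvPolynomial.hom_congr_vars ?_ ?_ rfl
  · ext r
    simp
  · intro i hi _
    rw [MvPolynomial.eval_X, MvPolynomial.eval_X]
    exact h i (h1 hi)

private theorem eval_hom (n k : ℕ) (F : PA) (hF : F ∈ An n k) (a : ℕ → ℝ) (c : ℝ) :
    MvPolynomial.eval (fun i => c * a i) F = c ^ k * MvPolynomial.eval a F := by
  have h1 : F.IsHomogeneous k := (MvPolynomial.mem_homogeneousSubmodule k F).1 hF.1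
  rw [MvPolynomial.eval_eq, MvPolynomial.eval_eq, Finset.mul_sum]
  refine Finset.sum_congr rfl fun d hd => ?_
  have h2 : k = ∑ i ∈ d.support, d i := by
    by_contra hne
    rw [MvPolynomial.mem_support_iff] at hd
    exact hd (h1.coeff_eq_zero (fun h => hne h.symm))
  have h3 : ∏ i ∈ d.support, (c * a i) ^ d i =
      c ^ k * ∏ i ∈ d.support, a i ^ d i := by
    rw [h2, ← Finset.prod_pow_eq_pow_sum, ← Finset.prod_mul_distrib]
    refine Finset.prod_congr rfl fun i _ => ?_
    rw [mul_pow]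
  rw [h3]
  ring

private theorem IsH_sub_smul (n k : ℕ) (f g : R) (c : ℝ) (hf : IsH n k f) (hg : IsH n k g) :
    IsH n k (f - c • g) := by
  intro w hw
  by_cases h : f w = 0
  · apply hg w
    intro h2
    apply hw
    rw [Finsupp.sub_apply, Finsupp.smul_apply, h, h2]
    simp
  · exact hf w h

private theorem IsH_p : IsH 1 0 (bw [true]) := IsH_bw [true]

private theorem IsH_z : IsH 0 1 (bw [false]) := IsH_bw [false]

private theorem PP_p : PP (bw [true]) = 1 := by
  rw [PP_bw, P_p]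

private theorem zet01 (o : ℕ) : zet o 1 = 2 * MvPolynomial.X (o + 1) - MvPolynomial.X 0 := by
  unfold zet dl
  simp
  ring

/-- a product `h * p` with `h` of bidegree `(0, l)` -/
private theorem PP_mu_p0 (l : ℕ) (h : R) (hh : IsH 0 l h) :
    PP (mu h (bw [true])) = subt (2 * MvPolynomial.X 1 - MvPolynomial.X 0) (PP h) := by
  rw [PP_mu 0 l 1 0 h (bw [true]) hh IsH_p, Qe_zero_left, PP_p, map_one, mul_one, zet01]
  rfl

private theorem X0_mem (m : ℕ) : (MvPolynomial.X 0 ^ m : PA) ∈ An 0 m := by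
  refine ⟨(MvPolynomial.mem_homogeneousSubmodule _ _).2 (MvPolynomial.isHomogeneous_X_pow 0 m), ?_⟩
  have h : (MvPolynomial.X 0 : PA) ∈ MvPolynomial.supported ℝ {i : ℕ | i ≤ 0} :=
    MvPolynomial.X_mem_supported.2 (le_refl 0)
  exact (MvPolynomial.supported ℝ {i : ℕ | i ≤ 0}).pow_mem h m

private theorem low1 (k : ℕ) (f : R) (h : R) (hh : IsH 0 (k + 1) h)
    (he : mu h (bw [true]) = mu f (bw [false])) : mu f (bw [false]) = 0 := by
  have h1 := congrArg PP he
  rw [PP_mu_p0 (k + 1) h hh, PP_mu_z] at h1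
  have hH : PP h ∈ An 0 (k + 1) := PP_mem 0 (k + 1) h hh
  have h2 : PP h = 0 := by
    apply MvPolynomial.funext
    intro a
    rw [map_zero]
    have h3 := congrArg (MvPolynomial.eval (fun i => if i = 0 then (0 : ℝ) else a 0 / 2)) h1
    rw [eval_subt, map_mul, MvPolynomial.eval_X, if_pos rfl, zero_mul] at h3
    rw [← h3]
    refine eval_congr 0 (k + 1) _ hH _ _ ?_
    intro i hi
    have hi0 : i = 0 := by omega
    rw [hi0, if_pos rfl]
    simp
    ring
  have h4 : h = 0 := PP_inj 0 (k + 1) h hh h2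
  rw [← he, h4, map_zero]
  rfl

private theorem low2 (k : ℕ) (f : R) (h : R) (hh : IsH 1 (k + 1) h)
    (he : mu h (bw [true]) = mu f (bw [false])) : mu f (bw [false]) = 0 := by
  obtain ⟨H, hHe⟩ : ∃ H, H = PP h := ⟨_, rfl⟩
  have hH : H ∈ An 1 (k + 1) := by
    rw [hHe]
    exact PP_mem 1 (k + 1) h hh
  have h1 := congrArg PP he
  rw [PP_mu 1 (k + 1) 1 0 h (bw [true]) hh IsH_p, PP_p, map_one, mul_one, zet01, PP_mu_z, ← hHe,
    Qe_succ, Qe_zero_right, Qe_zero_left] at h1
  obtain ⟨Y, hY⟩ : ∃ Y, Y = subt (2 * MvPolynomial.X (1 + 1) - MvPolynomial.X 0) H := ⟨_, rfl⟩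
  rw [← hY] at h1
  have h1' : Y - sA 1 Y = MvPolynomial.X 0 * PP f := by
    rw [← h1]
    have hc : cyc SA (0 + 0 + 1) (0 + 1) = SA 1 := by
      change SA (0 + 0 + 1 + 0) * cyc SA (0 + 0 + 1) 0 = SA 1
      change SA 1 * 1 = SA 1
      rw [mul_one]
    rw [hc, LinearMap.add_apply]
    have hm : ((-1) ^ (0 + 1) * 1 * SA 1 : Module.End ℝ PA) Y = - sA 1 Y := by
      rw [zero_add, pow_one, mul_one, ← SA_apply]
      rfl
    rw [hm, sub_eq_add_neg]
    rfl
  obtain ⟨E, hE⟩ : ∃ E : ℝ → ℝ → ℝ, E = fun u t =>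
      MvPolynomial.eval (fun i : ℕ => if i = 0 then t else u) H := ⟨_, rfl⟩
  have hEa : ∀ a : ℕ → ℝ, MvPolynomial.eval a H = E (a 1) (a 0) := by
    intro a
    rw [hE]
    refine eval_congr 1 (k + 1) H hH _ _ ?_
    intro i hi
    by_cases h0 : i = 0
    · rw [h0, if_pos rfl]
    · rw [if_neg h0]
      have : i = 1 := by omega
      rw [this]
  have hYa : ∀ a : ℕ → ℝ, MvPolynomial.eval a Y = E (a 1) (2 * a 2 - a 0) := by
    intro a
    rw [hY, eval_subt, hEa]
    simp
  have hEq : ∀ u v : ℝ, E u (2 * v) = E (2 * u - v) (2 * u) := by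
    intro u v
    have h2 := congrArg (MvPolynomial.eval (fun i : ℕ => if i = 0 then (0 : ℝ)
      else if i = 1 then u else v)) h1'
    have h4 : MvPolynomial.eval (fun i : ℕ => if i = 0 then (0 : ℝ)
        else if i = 1 then u else v) (MvPolynomial.X 0 * PP f) = 0 := by
      rw [map_mul, MvPolynomial.eval_X]
      simp
    rw [map_sub, eval_sA, hYa, hYa, h4] at h2
    have h3 := sub_eq_zero.1 h2
    simpa using h3
  obtain ⟨g, hg⟩ : ∃ g : ℝ → ℝ → ℝ, g = fun x y => E ((x + y) / 2) y := ⟨_, rfl⟩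
  have hgs : ∀ x y, g x (y + x) = g x y := by
    intro x y
    rw [hg]
    have h2 := hEq ((x + y) / 2) (y / 2)
    have e1 : 2 * (y / 2) = y := by ring
    have e2 : 2 * ((x + y) / 2) - y / 2 = (x + (y + x)) / 2 := by ring
    have e3 : 2 * ((x + y) / 2) = y + x := by ring
    rw [e1, e2, e3] at h2
    exact h2.symm
  have hgm : ∀ (x : ℝ) (m : ℕ), g x (m * x) = g x 0 := by
    intro x m
    induction m with
    | zero => simp
    | succ m ih =>
      have e1 : ((m + 1 : ℕ) : ℝ) * x = m * x + x := by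
        push_cast
        ring
      rw [e1, hgs, ih]
  have hg0 : ∀ x y, x ≠ 0 → g x y = g x 0 := by
    intro x y hx
    obtain ⟨q, hq⟩ : ∃ q : Polynomial ℝ, q = MvPolynomial.aeval (fun i : ℕ =>
      if i = 0 then (Polynomial.X : Polynomial ℝ)
      else Polynomial.C (1 / 2) * (Polynomial.X + Polynomial.C x)) H := ⟨_, rfl⟩
    have hqe : ∀ y, Polynomial.eval y q = g x y := by
      intro y
      rw [hq, eval_poly, hEa, hg]
      simp
      congr 1
      ring
    have hz : q - Polynomial.C (g x 0) = 0 := by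
      apply Polynomial.eq_zero_of_infinite_isRoot
      refine Set.Infinite.mono (s := Set.range fun m : ℕ => (m : ℝ) * x) ?_ ?_
      · rintro _ ⟨m, rfl⟩
        change Polynomial.IsRoot _ _
        rw [Polynomial.IsRoot.def, Polynomial.eval_sub, Polynomial.eval_C, hqe, hgm, sub_self]
      · apply Set.infinite_range_of_injective
        intro m m' hm
        exact_mod_cast mul_right_cancel₀ hx hm
    rw [← hqe y, sub_eq_zero.1 hz, Polynomial.eval_C]
  have hhom : ∀ c u t, E (c * u) (c * t) = c ^ (k + 1) * E u t := by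
    intro c u t
    have h2 := eval_hom 1 (k + 1) H hH (fun i : ℕ => if i = 0 then t else u) c
    rw [hEa, hEa] at h2
    simpa using h2
  obtain ⟨c, hc⟩ : ∃ c, c = g 1 0 := ⟨_, rfl⟩
  have hval : ∀ a : ℕ → ℝ, 2 * a 1 - a 0 ≠ 0 →
      MvPolynomial.eval a H = c * (2 * a 1 - a 0) ^ (k + 1) := by
    intro a ha
    have h2 : MvPolynomial.eval a H = g (2 * a 1 - a 0) (a 0) := by
      rw [hEa, hg]
      change E (a 1) (a 0) = E ((2 * a 1 - a 0 + a 0) / 2) (a 0)
      congr 1
      ring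
    rw [h2, hg0 _ _ ha, hc, hg]
    change E ((2 * a 1 - a 0 + 0) / 2) 0 = E ((1 + 0) / 2) 0 * _
    have h3 := hhom (2 * a 1 - a 0) ((1 + 0) / 2) 0
    rw [mul_zero] at h3
    have e1 : (2 * a 1 - a 0 + 0) / 2 = (2 * a 1 - a 0) * ((1 + 0) / 2) := by ring
    rw [e1, h3, mul_comm]
  obtain ⟨Z, hZ⟩ : ∃ Z : PA, Z = 2 * MvPolynomial.X 1 - MvPolynomial.X 0 := ⟨_, rfl⟩
  have hZa : ∀ a : ℕ → ℝ, MvPolynomial.eval a Z = 2 * a 1 - a 0 := by
    intro a
    rw [hZ]
    simp
  have hZ0 : Z ≠ 0 := by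
    intro h0
    have h2 := hZa fun i => if i = 0 then 0 else 1
    rw [h0, map_zero] at h2
    norm_num at h2
  have hHZ : H = MvPolynomial.C c * Z ^ (k + 1) := by
    have h2 : (H - MvPolynomial.C c * Z ^ (k + 1)) * Z = 0 := by
      apply MvPolynomial.funext
      intro a
      rw [map_zero, map_mul, map_sub, map_mul, map_pow, MvPolynomial.eval_C, hZa]
      by_cases ha : 2 * a 1 - a 0 = 0
      · rw [ha, mul_zero]
      · rw [hval a ha, sub_self, zero_mul]
    rcases mul_eq_zero.1 h2 with h3 | h3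
    · exact sub_eq_zero.1 h3
    · exact absurd h3 hZ0
  obtain ⟨e, hee, hPe⟩ := PP_surj 0 (k + 1) (MvPolynomial.X 0 ^ (k + 1)) (X0_mem (k + 1))
  have hme : IsH 1 (k + 1) (mu e (bw [true])) := by
    have := IsH_mu 0 (k + 1) 1 0 e (bw [true]) hee IsH_p
    simpa using this
  have hPm : PP (mu e (bw [true])) = Z ^ (k + 1) := by
    rw [PP_mu_p0 (k + 1) e hee, hPe, map_pow, hZ]
    congr 1
    simp [subt]
  have hdI : IsH 1 (k + 1) (h - c • mu e (bw [true])) :=
    IsH_sub_smul 1 (k + 1) h (mu e (bw [true])) c hh hme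
  have hdP : PP (h - c • mu e (bw [true])) = 0 := by
    have h5 : PP (h - c • mu e (bw [true])) = PP h - c • PP (mu e (bw [true])) :=
      (map_sub PP h (c • mu e (bw [true]))).trans
        (congrArg (fun y => PP h - y) (map_smul PP c (mu e (bw [true]))))
    rw [h5, hPm, ← hHe, hHZ, MvPolynomial.smul_eq_C_mul, sub_self]
  have hdiff : h = c • mu e (bw [true]) := sub_eq_zero.1 (PP_inj 1 (k + 1) _ hdI hdP)
  have h6 : mu (mu e (bw [true])) (bw [true]) = 0 := by
    rw [mu_assoc, p_p]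
    exact map_zero (mu e)
  have h7 : mu (c • mu e (bw [true])) (bw [true]) = c • mu (mu e (bw [true])) (bw [true]) := by
    rw [map_smul]
    rfl
  rw [← he, hdiff, h7, h6]
  exact smul_zero c

theorem J_low (n k : ℕ) (f : R) (hn : n ≤ 2) (hf : IsH n k f) (hJ : f ∈ J) : f = 0 := by
  apply mu_z_inj
  rw [mem_J, mem_Rp] at hJ
  obtain ⟨h, hh⟩ := hJ
  have hfz : IsH n (k + 1) (mu f (bw [false])) := IsH_mu n k 0 1 f (bw [false]) hf IsH_z
  have hcm := cmp_of_IsH n (k + 1) _ hfz
  rw [← hh] at hcm ⊢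
  interval_cases n
  · rw [← hcm]
    exact cmp_mu_right_zero 0 (k + 1) 1 0 h (bw [true]) IsH_p (Or.inl one_pos)
  · have h2 := cmp_mu_right 0 (k + 1) 1 0 h (bw [true]) IsH_p
    rw [zero_add, add_zero, hcm] at h2
    rw [hh]
    refine low1 k f (cmp 0 (k + 1) h) (IsH_cmp 0 (k + 1) h) ?_
    rw [← h2, hh]
  · have h2 := cmp_mu_right 1 (k + 1) 1 0 h (bw [true]) IsH_p
    rw [add_zero] at h2
    have h3 : cmp (1 + 1) (k + 1) (mu h (bw [true])) = mu h (bw [true]) := hcm
    rw [h3] at h2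
    rw [hh]
    refine low2 k f (cmp 1 (k + 1) h) (IsH_cmp 1 (k + 1) h) ?_
    rw [← h2, hh]

end BrV
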