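import Pool.Agent.Lib.BrV.RelSal

/-!
# BrV.Va33: `Va 3 3 k` for `k ≥ 1` (7.6)

Let `c0 : Ph0`, `IsH0 3 3 k c0`, `D0 c0 = 0`; `c0 = pr c b` (`exists_pr`), `mg c = uo b`, `mg b = 0` (`D0_pr`).  The lists of `c` have three blocks with `npL = 3`: `np` of every block is `0`: `Θ c = single [0,0,0] φ`,
`φ ∈ Bn 3 k` (`Th_IsS`).  `sal SA (Θ c) = Θ (mg c) = Θ (uo b)`, whose coefficients are `2 δ_3 * Θ b` (`Th_uo`).
`sal SA (single [0,0,0] φ) = single [1,0] (Q(1;1,1) φ) - single [0,1] (Q(0;1,1) φ)`, `Q(o;1,1) = 1 - s_(o+1)` (`mgS` on `0 :: 0 :: 0 :: []`).  So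
  `φ - s_1 φ, φ - s_2 φ ∈ δ_3 · PA` with quotients in `Bn 3 (k-1)` (the coefficients of `Θ b`).  (*)
Claim: `φ = δ_3 f1` with `f1 ∈ Bn 3 (k-1)`.  Evaluate at the points `(a, a + b, b)`, where `δ_3 = 0`: `H(a,b) = φ(a,a+b,b)` satisfies `H(a - b, b) = H(a,b) = H(a, a + b)`, so it is constant for `a, b ≠ 0`,
homogeneous of degree `k ≥ 1`: `H = 0`.
So `φ = 2 δ_3 f2`, `f2 = (1/2) f1`; `Th_surj`: `Θ d = single [0,0,0] f2`, `d` of degree `(3 blocks, n = 3, k - 1)`; `Θ (uo d) = Θ c`, `uo d = c` (`Th_inj`).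
`D0 (pr 0 d) = pr (uo d) (mg d) = pr c (mg d)`, so `c0 - D0 (pr 0 d) = pr 0 (b - mg d)` and its `D0` is `0` (`D0 (D0 (pr 0 d)) = 0` by `D0_pr`, `mg_uo0`, `mg_mg0`), so `uo (b - mg d) = 0`, `b = mg d` (`uo_inj`).
`e = pr 0 d`, `IsH0 4 3 k e`.
-/

namespace BrV

open Finsupp

/-! ### polynomials -/

/-- the point `(a, a + b, b)` -/
private def pt (a b : ℝ) (i : ℕ) : ℝ := if i = 1 then a else if i = 2 then a + b else if i = 3 then b else 0

private theorem dl3 : dl 0 3 = MvPolynomial.X 1 - MvPolynomial.X 2 + MvPolynomial.X 3 := by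
  simp [dl, Finset.sum_range_succ, sub_eq_add_neg]

private theorem eval_dl3 (a b : ℝ) : MvPolynomial.eval (pt a b) (dl 0 3) = 0 := by
  rw [dl3]
  simp [pt]

private theorem eval_sA (v v' : ℕ → ℝ) (i : ℕ) (φ : PA)
    (h : ∀ j, MvPolynomial.eval v (sA i (MvPolynomial.X j)) = v' j) :
    MvPolynomial.eval v (sA i φ) = MvPolynomial.eval v' φ := by
  have h1 : ((MvPolynomial.aeval v : PA →ₐ[ℝ] ℝ).comp (sA i)) = MvPolynomial.aeval v' := by
    apply MvPolynomial.algHom_ext
    intro j
    rw [MvPolynomial.aeval_X, ← h j]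
    rfl
  exact DFunLike.congr_fun h1 φ

private theorem eval_s1 (a b : ℝ) (φ : PA) :
    MvPolynomial.eval (pt a b) (sA 1 φ) = MvPolynomial.eval (pt (a - b) b) φ := by
  apply eval_sA
  intro j
  unfold sA
  rw [MvPolynomial.aeval_X]
  by_cases h1 : j = 1
  · subst h1
    simp [pt]
    ring
  · by_cases h2 : j = 2
    · subst h2
      simp [pt]
    · rw [if_neg h1, if_neg h2]
      simp [pt, h1, h2]

private theorem eval_s2 (a b : ℝ) (φ : PA) :
    MvPolynomial.eval (pt a b) (sA 2 φ) = MvPolynomial.eval (pt a (a + b)) φ := by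
  apply eval_sA
  intro j
  unfold sA
  rw [MvPolynomial.aeval_X]
  by_cases h1 : j = 2
  · subst h1
    simp [pt]
    ring
  · by_cases h2 : j = 3
    · subst h2
      simp [pt]
    · rw [if_neg h1, if_neg h2]
      simp [pt, h1, h2]

private theorem eval_hom (k : ℕ) (φ : PA) (h : φ.IsHomogeneous k) (t : ℝ) (v : ℕ → ℝ) :
    MvPolynomial.eval (fun i => t * v i) φ = t ^ k * MvPolynomial.eval v φ := by
  rw [MvPolynomial.eval_eq, MvPolynomial.eval_eq, Finset.mul_sum]
  refine Finset.sum_congr rfl fun d hd => ?_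
  have h1 : ∑ i ∈ d.support, d i = k := by
    have h2 := h (MvPolynomial.mem_support_iff.1 hd)
    rw [← h2, Finsupp.weight_apply, Finsupp.sum]
    simp
  simp only [mul_pow]
  rw [Finset.prod_mul_distrib, Finset.prod_pow_eq_pow_sum, h1]
  ring

private theorem eval_zero_of (k : ℕ) (hk : 1 ≤ k) (φ : PA) (h : φ.IsHomogeneous k)
    (h1 : ∀ a b, MvPolynomial.eval (pt a b) φ = MvPolynomial.eval (pt (a - b) b) φ)
    (h2 : ∀ a b, MvPolynomial.eval (pt a b) φ = MvPolynomial.eval (pt a (a + b)) φ) (a b : ℝ) :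
    MvPolynomial.eval (pt a b) φ = 0 := by
  -- one variable polynomials
  have hA : ∀ b : ℝ, b ≠ 0 → ∀ a a', MvPolynomial.eval (pt a b) φ =
      MvPolynomial.eval (pt a' b) φ := by
    intro b hb a a'
    let p : Polynomial ℝ := MvPolynomial.aeval (fun i : ℕ => if i = 1 then Polynomial.X else
      if i = 2 then Polynomial.X + Polynomial.C b else if i = 3 then Polynomial.C b else 0) φ
    have hp : ∀ x, p.eval x = MvPolynomial.eval (pt x b) φ := by
      intro x
      have h3 : ((Polynomial.aeval x : Polynomial ℝ →ₐ[ℝ] ℝ).comp (MvPolynomial.aeval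
        (fun i : ℕ => if i = 1 then Polynomial.X else
          if i = 2 then Polynomial.X + Polynomial.C b else if i = 3 then Polynomial.C b else 0))) =
          (MvPolynomial.aeval (pt x b) : PA →ₐ[ℝ] ℝ) := by
        apply MvPolynomial.algHom_ext
        intro j
        rw [AlgHom.comp_apply, MvPolynomial.aeval_X, MvPolynomial.aeval_X]
        unfold pt
        split_ifs <;> simp
      exact DFunLike.congr_fun h3 φ
    have h4 : ∀ m : ℕ, p.eval (-(m : ℝ) * b) = p.eval 0 := by
      intro m
      induction m with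
      | zero => simp
      | succ m ih =>
        rw [← ih, hp, hp, h1 (-(m : ℝ) * b)]
        congr 2
        push_cast
        ring_nf
    have h5 : p = Polynomial.C (p.eval 0) := by
      apply Polynomial.eq_of_infinite_eval_eq
      refine Set.Infinite.mono (s := Set.range fun m : ℕ => -(m : ℝ) * b) ?_ ?_
      · rintro _ ⟨m, rfl⟩
        simp only [Set.mem_ofPred_eq, Polynomial.eval_C]
        exact h4 m
      · apply Set.infinite_range_of_injective
        intro m m' hm
        have h6 : (m : ℝ) = m' := by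
          have h7 := mul_right_cancel₀ hb hm
          exact neg_injective h7
        exact_mod_cast h6
    rw [← hp, ← hp, h5, Polynomial.eval_C, Polynomial.eval_C]
  have hB : ∀ a : ℝ, a ≠ 0 → ∀ b b', MvPolynomial.eval (pt a b) φ =
      MvPolynomial.eval (pt a b') φ := by
    intro a ha b b'
    let p : Polynomial ℝ := MvPolynomial.aeval (fun i : ℕ => if i = 1 then Polynomial.C a else
      if i = 2 then Polynomial.C a + Polynomial.X else if i = 3 then Polynomial.X else 0) φ
    have hp : ∀ x, p.eval x = MvPolynomial.eval (pt a x) φ := by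
      intro x
      have h3 : ((Polynomial.aeval x : Polynomial ℝ →ₐ[ℝ] ℝ).comp (MvPolynomial.aeval
        (fun i : ℕ => if i = 1 then Polynomial.C a else
          if i = 2 then Polynomial.C a + Polynomial.X else if i = 3 then Polynomial.X else 0))) =
          (MvPolynomial.aeval (pt a x) : PA →ₐ[ℝ] ℝ) := by
        apply MvPolynomial.algHom_ext
        intro j
        rw [AlgHom.comp_apply, MvPolynomial.aeval_X, MvPolynomial.aeval_X]
        unfold pt
        split_ifs <;> simp
      exact DFunLike.congr_fun h3 φ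
    have h4 : ∀ m : ℕ, p.eval ((m : ℝ) * a) = p.eval 0 := by
      intro m
      induction m with
      | zero => simp
      | succ m ih =>
        rw [← ih, hp, hp, h2 a ((m : ℝ) * a)]
        congr 2
        push_cast
        ring_nf
    have h5 : p = Polynomial.C (p.eval 0) := by
      apply Polynomial.eq_of_infinite_eval_eq
      refine Set.Infinite.mono (s := Set.range fun m : ℕ => (m : ℝ) * a) ?_ ?_
      · rintro _ ⟨m, rfl⟩
        simp only [Set.mem_ofPred_eq, Polynomial.eval_C]
        exact h4 m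
      · apply Set.infinite_range_of_injective
        intro m m' hm
        exact_mod_cast mul_right_cancel₀ ha hm
    rw [← hp, ← hp, h5, Polynomial.eval_C, Polynomial.eval_C]
  have hscale : ∀ t a b : ℝ, MvPolynomial.eval (pt (t * a) (t * b)) φ =
      t ^ k * MvPolynomial.eval (pt a b) φ := by
    intro t a b
    rw [← eval_hom k φ h]
    congr 2
    funext i
    unfold pt
    split_ifs <;> ring
  have h11 : MvPolynomial.eval (pt 1 1) φ = 0 := by
    have h3 := hscale 2 1 1
    rw [mul_one, hA 2 two_ne_zero 2 1, hB 1 one_ne_zero 2 1] at h3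
    have h4 : (2 : ℝ) ^ k ≠ 1 := by
      have h5 : (1 : ℝ) < 2 ^ k := one_lt_pow₀ one_lt_two (by omega)
      exact ne_of_gt h5
    have h6 : ((2 : ℝ) ^ k - 1) * MvPolynomial.eval (pt 1 1) φ = 0 := by
      rw [sub_mul, one_mul, ← h3, sub_self]
    exact (mul_eq_zero.1 h6).resolve_left (sub_ne_zero.2 h4)
  by_cases hb : b = 0
  · by_cases ha : a = 0
    · have h3 := hscale 0 1 1
      rw [zero_mul, zero_pow (by omega), zero_mul] at h3
      rw [ha, hb]
      exact h3
    · rw [hB a ha b 1, hA 1 one_ne_zero a 1, h11]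
  · rw [hA b hb a 1, hB 1 one_ne_zero b 1, h11]

/-- the substitution `u_2 ↦ u_1 + u_3` -/
private noncomputable def sg2 : PA →ₐ[ℝ] PA := MvPolynomial.aeval fun i =>
  if i = 2 then MvPolynomial.X 1 + MvPolynomial.X 3 else MvPolynomial.X i

private theorem dvd_sub (f : PA) : dl 0 3 ∣ f - sg2 f := by
  induction f using MvPolynomial.induction_on with
  | C a =>
    have h1 : sg2 (MvPolynomial.C a) = MvPolynomial.C a := sg2.commutes a
    rw [h1, sub_self]
    exact dvd_zero _
  | add p q hp hq =>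
    have h1 : p + q - sg2 (p + q) = (p - sg2 p) + (q - sg2 q) := by
      rw [map_add]
      ring
    rw [h1]
    exact dvd_add hp hq
  | mul_X p i hp =>
    have h1 : p * MvPolynomial.X i - sg2 (p * MvPolynomial.X i) =
        (p - sg2 p) * MvPolynomial.X i + sg2 p * (MvPolynomial.X i - sg2 (MvPolynomial.X i)) := by
      rw [map_mul]
      ring
    rw [h1]
    refine dvd_add (Dvd.dvd.mul_right hp _) (Dvd.dvd.mul_left ?_ _)
    unfold sg2
    rw [MvPolynomial.aeval_X]
    split_ifs with h2
    · subst h2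
      refine ⟨-1, ?_⟩
      rw [dl3]
      ring
    · rw [sub_self]
      exact dvd_zero _

private theorem sg2_zero (k : ℕ) (φ : PA) (h : φ ∈ Bn 3 k)
    (h0 : ∀ a b, MvPolynomial.eval (pt a b) φ = 0) : sg2 φ = 0 := by
  apply MvPolynomial.funext
  intro v
  rw [map_zero, ← h0 (v 1) (v 3)]
  have h1 : ((MvPolynomial.aeval v : PA →ₐ[ℝ] ℝ).comp sg2) =
      MvPolynomial.aeval (fun i => if i = 2 then v 1 + v 3 else v i) := by
    apply MvPolynomial.algHom_ext
    intro j
    rw [AlgHom.comp_apply]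
    unfold sg2
    rw [MvPolynomial.aeval_X, MvPolynomial.aeval_X]
    split_ifs <;> simp
  have h2 : MvPolynomial.eval v (sg2 φ) =
      MvPolynomial.eval (fun i => if i = 2 then v 1 + v 3 else v i) φ := DFunLike.congr_fun h1 φ
  rw [h2]
  have hs : φ ∈ MvPolynomial.supported ℝ {i : ℕ | 1 ≤ i ∧ i ≤ 3} := h.2
  rw [MvPolynomial.mem_supported] at hs
  refine MvPolynomial.eval₂Hom_congr' rfl ?_ rfl
  intro i hi _
  have h3 : 1 ≤ i ∧ i ≤ 3 := hs hi
  unfold pt
  obtain ⟨h4, h5⟩ := h3
  interval_cases i <;> simp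

private theorem quot_mem (k : ℕ) (φ q : PA) (h : φ ∈ Bn 3 (k + 1)) (hq : φ = dl 0 3 * q) :
    q ∈ Bn 3 k := by
  have hd0 : dl 0 3 ≠ 0 := dl_ne_zero 0 3 (by norm_num)
  have hdh : (dl 0 3).IsHomogeneous 1 := (dl_mem 0 3).1
  constructor
  · -- homogeneous
    rw [SetLike.mem_coe, MvPolynomial.mem_homogeneousSubmodule]
    have h1 : ∀ j, dl 0 3 * MvPolynomial.homogeneousComponent j q =
        MvPolynomial.homogeneousComponent (j + 1) φ := by
      intro j
      have h2 : φ = ∑ i ∈ Finset.range (q.totalDegree + 1),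
          dl 0 3 * MvPolynomial.homogeneousComponent i q := by
        rw [← Finset.mul_sum, MvPolynomial.sum_homogeneousComponent, hq]
      rw [h2, map_sum]
      have h3 : ∀ i, MvPolynomial.homogeneousComponent (j + 1)
          (dl 0 3 * MvPolynomial.homogeneousComponent i q) =
          if i = j then dl 0 3 * MvPolynomial.homogeneousComponent i q else 0 := by
        intro i
        have h4 : dl 0 3 * MvPolynomial.homogeneousComponent i q ∈
            MvPolynomial.homogeneousSubmodule ℕ ℝ (i + 1) := by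
          rw [MvPolynomial.mem_homogeneousSubmodule, add_comm]
          exact hdh.mul (MvPolynomial.homogeneousComponent_isHomogeneous i q)
        rw [MvPolynomial.homogeneousComponent_of_mem h4]
        by_cases h5 : i = j
        · rw [if_pos (by omega), if_pos h5]
        · rw [if_neg (by omega), if_neg h5]
      simp only [h3]
      rw [Finset.sum_ite_eq']
      split_ifs with h6
      · rfl
      · rw [MvPolynomial.homogeneousComponent_eq_zero, mul_zero]
        rw [Finset.mem_range] at h6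
        omega
    have h2 : ∀ j, j ≠ k → MvPolynomial.homogeneousComponent j q = 0 := by
      intro j hj
      have h3 := h1 j
      rw [MvPolynomial.homogeneousComponent_of_mem h.1, if_neg (by omega)] at h3
      exact (mul_eq_zero.1 h3).resolve_left hd0
    have h3 : q = MvPolynomial.homogeneousComponent k q := by
      conv_lhs => rw [← MvPolynomial.sum_homogeneousComponent q]
      by_cases h4 : k ∈ Finset.range (q.totalDegree + 1)
      · rw [Finset.sum_eq_single k (fun j _ hj => h2 j hj) (fun h5 => absurd h4 h5)]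
      · rw [Finset.sum_eq_zero, MvPolynomial.homogeneousComponent_eq_zero]
        · rw [Finset.mem_range] at h4
          omega
        · intro j hj
          exact h2 j fun h5 => h4 (h5 ▸ hj)
    rw [h3]
    exact MvPolynomial.homogeneousComponent_isHomogeneous k q
  · -- variables
    let π : PA →ₐ[ℝ] PA := MvPolynomial.aeval fun i =>
      if 1 ≤ i ∧ i ≤ 3 then MvPolynomial.X i else 0
    have hfix : ∀ f : PA, f ∈ MvPolynomial.supported ℝ {i : ℕ | 1 ≤ i ∧ i ≤ 3} → π f = f := by
      intro f hf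
      rw [MvPolynomial.mem_supported] at hf
      have h1 : π f = MvPolynomial.aeval (fun i => (MvPolynomial.X i : PA)) f := by
        refine MvPolynomial.eval₂Hom_congr' rfl ?_ rfl
        intro i hi _
        exact if_pos (hf hi)
      rw [h1, MvPolynomial.aeval_X_left_apply]
    have hran : ∀ f : PA, π f ∈ MvPolynomial.supported ℝ {i : ℕ | 1 ≤ i ∧ i ≤ 3} := by
      intro f
      induction f using MvPolynomial.induction_on with
      | C a =>
        have h1 : π (MvPolynomial.C a) = MvPolynomial.C a := π.commutes a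
        rw [h1]
        exact Subalgebra.algebraMap_mem _ a
      | add p q hp hq =>
        rw [map_add]
        exact Subalgebra.add_mem _ hp hq
      | mul_X p i hp =>
        rw [map_mul]
        refine Subalgebra.mul_mem _ hp ?_
        have h1 : π (MvPolynomial.X i) = if 1 ≤ i ∧ i ≤ 3 then MvPolynomial.X i else 0 :=
          MvPolynomial.aeval_X _ i
        rw [h1]
        split_ifs with h2
        · exact MvPolynomial.X_mem_supported.2 h2
        · exact Subalgebra.zero_mem _
    have h1 : π φ = φ := hfix φ h.2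
    have h2 : π (dl 0 3) = dl 0 3 := hfix _ (by
      have := (dl_mem 0 3).2
      exact this)
    have h3 : dl 0 3 * q = dl 0 3 * π q := by
      rw [← hq]
      conv_lhs => rw [← h1, hq, map_mul, h2]
    rw [mul_left_cancel₀ hd0 h3]
    exact hran q

/-! ### chains -/

private theorem lift_supp (F : LB → CL) (c : CL) (l : LB)
    (h : Finsupp.lift CL ℝ LB F c l ≠ 0) : ∃ l', c l' ≠ 0 ∧ F l' l ≠ 0 := by
  rw [Finsupp.lift_apply, Finsupp.sum, Finsupp.finsetSum_apply] at h
  obtain ⟨l', h1, h2⟩ := Finset.exists_ne_zero_of_sum_ne_zero h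
  refine ⟨l', Finsupp.mem_support_iff.1 h1, fun h3 => h2 ?_⟩
  rw [Finsupp.smul_apply, h3, smul_zero]

private theorem mg_mg (c : CL) : mg (mg c) = 0 := by
  induction c using Finsupp.induction_linear with
  | zero => simp
  | add f g hf hg => rw [map_add, map_add, hf, hg, add_zero]
  | single l a => rw [mg_single, map_smul, mg_mg0, smul_zero]

private theorem mg_uo (c : CL) : mg (uo c) = uo (mg c) := by
  induction c using Finsupp.induction_linear with
  | zero => simp
  | add f g hf hg => rw [map_add, map_add, map_add, map_add, hf, hg]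
  | single l a => rw [mg_single, uo_single, map_smul, map_smul, mg_uo0]

private theorem pr_sub (c b c' b' : CL) : pr c b - pr c' b' = pr (c - c') (b - b') := by
  ext ⟨t, l⟩
  cases t
  · rw [Finsupp.sub_apply, pr_false, pr_false, pr_false, Finsupp.sub_apply]
  · rw [Finsupp.sub_apply, pr_true, pr_true, pr_true, Finsupp.sub_apply]

private theorem pr_eq_zero (c b : CL) (h : pr c b = 0) : c = 0 ∧ b = 0 := by
  constructor
  · ext l
    rw [← pr_false c b, h]
    rfl
  · ext l
    rw [← pr_true c b, h]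
    rfl

private theorem Qe11 (o : ℕ) (f : PA) : Qe SA o 1 1 f = f - sA (o + 1) f := by
  rw [Qe_succ, Qe_zero_right, Qe_zero_left]
  simp [cyc, SA]
  ring

private theorem three (l : List ℕ) (h1 : l.length = 3) (h2 : tot l = 3) : l = [0, 0, 0] := by
  match l, h1 with
  | [a, b, c], _ =>
    simp [tot] at h2
    have : a = 0 ∧ b = 0 ∧ c = 0 := by omega
    rw [this.1, this.2.1, this.2.2]

theorem Va33 (k : ℕ) (hk : 1 ≤ k) : Va 3 3 k := by
  obtain ⟨k, rfl⟩ : ∃ k', k = k' + 1 := ⟨k - 1, by omega⟩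
  intro c0 hc0 hD
  obtain ⟨c, b, rfl⟩ := exists_pr c0
  have hc : ∀ l, c l ≠ 0 → l.length = 3 ∧ npL l = 3 ∧ nzL l = k + 1 := by
    intro l hl
    have h1 := hc0 (false, l) (by rw [pr_false]; exact hl)
    simpa [rI, nI, kI] using h1
  have hb : ∀ l, b l ≠ 0 → l.length = 2 ∧ npL l = 3 ∧ nzL l = k := by
    intro l hl
    have h1 := hc0 (true, l) (by rw [pr_true]; exact hl)
    simp [rI, nI, kI] at h1
    exact ⟨by omega, h1.2.1, h1.2.2⟩
  rw [D0_pr] at hD
  obtain ⟨h1, h2⟩ := pr_eq_zero _ _ hD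
  have h3 : mg c = uo b := by
    have h4 : uo b = mg c + (- mg c + uo b) := by abel
    rw [h4, h1, add_zero]
  -- the polynomial
  have hS := Th_IsS 3 3 (k + 1) c hc
  obtain ⟨φ, hφ⟩ : ∃ φ, φ = Th c [0, 0, 0] := ⟨_, rfl⟩
  have hTh : Th c = single [0, 0, 0] φ := by
    ext1 l
    by_cases hl : Th c l = 0
    · by_cases hl2 : [0, 0, 0] = l
      · subst hl2
        rw [Finsupp.single_eq_same, hφ]
      · rw [hl, Finsupp.single_eq_of_ne (Ne.symm hl2)]
    · have h4 := hS.1 l hl
      have h5 := three l h4.1 h4.2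
      subst h5
      rw [Finsupp.single_eq_same, hφ]
  have hφB : φ ∈ Bn 3 (k + 1) := by
    rw [hφ]
    exact hS.2 _
  have hsal : sal SA (Th c) = single [1, 0] (φ - sA 2 φ) - single [0, 1] (φ - sA 1 φ) := by
    rw [hTh]
    unfold sal
    rw [Finsupp.lsum_single]
    have h4 : mgS SA [0, 0, 0] φ = single [1, 0] (Qe SA 1 1 1 φ) -
        lmapDomain PA ℝ (List.cons 0) (mgS SA [0, 0] φ) := rfl
    have h5 : mgS SA [0, 0] φ = single [1] (Qe SA 0 1 1 φ) -
        lmapDomain PA ℝ (List.cons 0) (mgS SA [0] φ) := rfl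
    have h6 : mgS SA [0] φ = 0 := rfl
    rw [h4, h5, h6, map_zero, sub_zero, lmapDomain_apply, mapDomain_single, Qe11, Qe11]
  have hsal2 : ∀ l, sal SA (Th c) l = 2 * dl 0 3 * Th b l := by
    intro l
    rw [← Th_mg, h3]
    exact Th_uo 3 b (fun l hl => (hb l hl).2.1) l
  have e1 : φ - sA 2 φ = dl 0 3 * (2 * Th b [1, 0]) := by
    have h4 := hsal2 [1, 0]
    rw [hsal, Finsupp.sub_apply, Finsupp.single_eq_same, Finsupp.single_eq_of_ne (by decide),
      sub_zero] at h4
    rw [h4]
    ring
  have e2 : φ - sA 1 φ = dl 0 3 * (- (2 * Th b [0, 1])) := by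
    have h4 := hsal2 [0, 1]
    rw [hsal, Finsupp.sub_apply, Finsupp.single_eq_same, Finsupp.single_eq_of_ne (by decide),
      zero_sub] at h4
    rw [← neg_neg (φ - sA 1 φ), h4]
    ring
  have hev1 : ∀ x y, MvPolynomial.eval (pt x y) φ = MvPolynomial.eval (pt (x - y) y) φ := by
    intro x y
    have h4 := congrArg (MvPolynomial.eval (pt x y)) e2
    rw [map_sub, map_mul, eval_dl3, zero_mul, eval_s1] at h4
    exact sub_eq_zero.1 h4
  have hev2 : ∀ x y, MvPolynomial.eval (pt x y) φ = MvPolynomial.eval (pt x (x + y)) φ := by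
    intro x y
    have h4 := congrArg (MvPolynomial.eval (pt x y)) e1
    rw [map_sub, map_mul, eval_dl3, zero_mul, eval_s2] at h4
    exact sub_eq_zero.1 h4
  have hz := eval_zero_of (k + 1) (by omega) φ hφB.1 hev1 hev2
  obtain ⟨q, hq⟩ := dvd_sub φ
  rw [sg2_zero (k + 1) φ hφB hz, sub_zero] at hq
  have hqB := quot_mem k φ q hφB hq
  obtain ⟨f2, hf2⟩ : ∃ f2 : PA, f2 = (2⁻¹ : ℝ) • q := ⟨_, rfl⟩
  have hf2B : f2 ∈ Bn 3 k := by
    rw [hf2]
    exact Submodule.smul_mem _ _ hqB
  have hφ2 : 2 * dl 0 3 * f2 = φ := by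
    rw [hq, hf2, mul_smul_comm, mul_assoc, two_mul, ← two_smul ℝ (dl 0 3 * q), smul_smul]
    norm_num
  have hSf : IsS (Bn 3 k) 3 3 (single [0, 0, 0] f2) := by
    constructor
    · intro l hl
      have h4 : l = [0, 0, 0] := by
        by_contra h5
        exact hl (Finsupp.single_eq_of_ne h5)
      rw [h4]
      exact ⟨rfl, rfl⟩
    · intro l
      by_cases h4 : l = [0, 0, 0]
      · rw [h4, Finsupp.single_eq_same]
        exact hf2B
      · rw [Finsupp.single_eq_of_ne h4]
        exact Submodule.zero_mem _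
  obtain ⟨d, hd, hThd⟩ := Th_surj 3 3 k _ hSf
  have huod : uo d = c := by
    have h4 : Th (uo d - c) = 0 := by
      rw [map_sub]
      ext1 l
      rw [Finsupp.sub_apply, Th_uo 3 d (fun l hl => (hd l hl).2.1) l, hThd, hTh]
      by_cases h5 : l = [0, 0, 0]
      · rw [h5, Finsupp.single_eq_same, Finsupp.single_eq_same, hφ2, sub_self]
        rfl
      · rw [Finsupp.single_eq_of_ne h5, Finsupp.single_eq_of_ne h5, mul_zero, sub_self]
        rfl
    refine sub_eq_zero.1 (Th_inj 3 (k + 1) _ ?_ h4)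
    intro l hl
    rw [Finsupp.sub_apply] at hl
    by_cases h5 : c l = 0
    · rw [h5, sub_zero] at hl
      obtain ⟨l', h6, h7⟩ := lift_supp uo0 d l hl
      have h8 := uo0_supp l' l h7
      have h9 := hd l' h6
      exact ⟨by omega, by omega⟩
    · exact (hc l h5).2
  have hmgd : mg d = b := by
    have h4 : uo (b - mg d) = 0 := by
      rw [map_sub, ← mg_uo, huod, h3, sub_self]
    refine (sub_eq_zero.1 (uo_inj 3 k (by norm_num) _ ?_ h4)).symm
    intro l hl
    rw [Finsupp.sub_apply] at hl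
    by_cases h5 : b l = 0
    · rw [h5, zero_sub, neg_ne_zero] at hl
      obtain ⟨l', h6, h7⟩ := lift_supp mg0 d l hl
      have h8 := mg0_supp l' l h7
      have h9 := hd l' h6
      exact ⟨by omega, by omega⟩
    · exact (hb l h5).2
  refine ⟨pr 0 d, ?_, ?_⟩
  · rintro ⟨t, l⟩ hl
    cases t
    · rw [pr_false] at hl
      exact absurd rfl hl
    · rw [pr_true] at hl
      have h4 := hd l hl
      simp [rI, nI, kI, h4.1, h4.2.1, h4.2.2]
  · rw [D0_pr, map_zero, neg_zero, zero_add, huod, hmgd]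

end BrV
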