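import Pool.Agent.Lib.BrV.CFinB
import Pool.Agent.Lib.BrV.Desc
import Pool.Agent.Lib.BrV.Half1
import Pool.Agent.Lib.BrV.Half2
import Pool.Agent.Lib.BrV.JLow
import Pool.Agent.Lib.BrV.Va33

/-!
# BrV.CSym: assembly

`salEx_sym`: `Va r n k`, `Va (r+1) n (k-1)` for `n = 2g+2`, `k ≥ 2`: from `Va_half1` (`r > k + 1`) or `Va_half2` with `J_low`, `Va33`, `Va_high` (`3 r > 2 n + 2`); `salMQ`, `salSym`.
`sym_transfer`: coefficients in the subtype `Wsp g k` with the operators `opS (SymV g k) j` correspond to coefficients in `MvPolynomial (Fin (2g)) ℝ` lying in `Wsp g k` with the operators `ST g j`, for `1 ≤ j ≤ 2g+1`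
(`symRep_of`; only these `j` occur for compositions of `2g + 2`: `sal_nat` with `φ = (Wsp g k).subtype`, `N = 2g + 1`).  So `SalEx (ST g) (Wsp g k) r (2g+2)` gives `SalZ ≤ SalB`, the quotient is trivial, `Module.rank = 0` by `coh_iso`.
`i ≤ 2g+2` with `r + i = 2g + 2`: `3 i < 2 g` iff `2 (2g+2) + 2 < 3 r`; `i + k < 2g + 1` iff `k + 1 < r`.
-/

namespace BrV

open CategoryTheory Finsupp Pool.Agent.Lib.BrSym

private theorem Va_all (g k r : ℕ) (hk : 1 ≤ k)
    (h : 2 * (2 * g + 2) + 2 < 3 * r ∨ k + 1 < r) : Va r (2 * g + 2) k := by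
  rcases h with h | h
  · exact Va_half2 (fun n k f h1 h2 h3 => J_low n k f h1 h2 h3) Va33 Va_high r (2 * g + 2) k hk h
      (Or.inl (by omega))
  · exact Va_half1 k hk r (2 * g + 2) h

theorem salEx_sym (g k r : ℕ) (hg : 1 ≤ g) (hk : 2 ≤ k)
    (h : 2 * (2 * g + 2) + 2 < 3 * r ∨ k + 1 < r) : SalEx (ST g) (Wsp g k) r (2 * g + 2) := by
  obtain ⟨k, rfl⟩ : ∃ k', k = k' + 1 + 1 := ⟨k - 2, by omega⟩
  apply salSym g (k + 1) r hg
  · exact salMQ g (k + 1) r hg (Va_all g (k + 1 + 1) r (by omega) h)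
  · exact salMQ g k (r + 1) hg (Va_all g (k + 1) (r + 1) (by omega) (by omega))

private theorem opS_val (g k j : ℕ) (h1 : 1 ≤ j) (h2 : j < 2 * g + 2) (v : Wsp g k) :
    (Wsp g k).subtype (opS (SymV g k) j v) = ST g j ((Wsp g k).subtype v) := by
  have h : sG (2 * g + 1) j = PresentedGroup.of ⟨j - 1, by omega⟩ := by
    unfold sG
    rw [dif_pos ⟨h1, by omega⟩]
  show ((symRep g k (sG (2 * g + 1) j)) v).1 = _
  rw [h]
  exact symRep_of g k ⟨j - 1, by omega⟩ v

theorem sym_transfer (g k i r : ℕ) (h : r + i = 2 * g + 2)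
    (hS : SalEx (ST g) (Wsp g k) r (2 * g + 2)) :
    Module.rank ℝ (groupCohomology (SymV g k) i) = 0 := by
  classical
  obtain ⟨e⟩ := coh_iso (2 * g + 1) i r (SymV g k) h
  rw [e.rank_eq]
  have key : ∀ x : List ℕ →₀ Wsp g k, x ∈ SalZ (opS (SymV g k)) ⊤ r (2 * g + 1 + 1) →
      x ∈ SalB (opS (SymV g k)) ⊤ r (2 * g + 1 + 1) := by
    rintro x ⟨⟨h1, -⟩, h2⟩
    set φ : Wsp g k →ₗ[ℝ] MvPolynomial (Fin (2 * g)) ℝ := (Wsp g k).subtype with hφ
    have hφ0 : ∀ v : Wsp g k, φ v = 0 → v = 0 := fun v hv => Subtype.ext hv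
    have hinj : Function.Injective (Finsupp.mapRange.linearMap (α := List ℕ) φ) := by
      intro a b hab
      ext1 l
      have h3 := DFunLike.congr_fun hab l
      exact Subtype.ext h3
    have hnat : ∀ y : List ℕ →₀ Wsp g k, (∀ l, y l ≠ 0 → tot l = 2 * g + 2) →
        Finsupp.mapRange.linearMap φ (sal (opS (SymV g k)) y) =
          sal (ST g) (Finsupp.mapRange.linearMap φ y) := by
      intro y hy
      exact sal_nat φ (opS (SymV g k)) (ST g) (2 * g + 2)
        (fun j hj1 hj2 v => opS_val g k j hj1 hj2 v) y hy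
    obtain ⟨y', hy1, hy2⟩ := hS (Finsupp.mapRange.linearMap φ x) ⟨fun l hl => h1 l (by
        intro h0
        apply hl
        show φ (x l) = 0
        rw [h0, map_zero]), fun l => (x l).2⟩ (by
        rw [← hnat x (fun l hl => (h1 l hl).2), h2, map_zero])
    set ψ : MvPolynomial (Fin (2 * g)) ℝ → Wsp g k := fun v => if hv : v ∈ Wsp g k then ⟨v, hv⟩ else 0
      with hψ
    have hψ0 : ψ 0 = 0 := by
      rw [hψ]
      simp only
      rw [dif_pos (Submodule.zero_mem _)]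
      rfl
    have hφψ : ∀ v ∈ Wsp g k, φ (ψ v) = v := by
      intro v hv
      rw [hψ]
      simp only
      rw [dif_pos hv]
      rfl
    set y : List ℕ →₀ Wsp g k := Finsupp.mapRange ψ hψ0 y' with hy
    have hyy : Finsupp.mapRange.linearMap φ y = y' := by
      ext1 l
      exact hφψ _ (hy1.2 l)
    have hyl : ∀ l, y l ≠ 0 → y' l ≠ 0 := by
      intro l hl h0
      apply hl
      show ψ (y' l) = 0
      rw [h0, hψ0]
    refine ⟨y, ⟨fun l hl => hy1.1 l (hyl l hl), fun _ => Submodule.mem_top⟩, ?_⟩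
    apply hinj
    rw [hnat y (fun l hl => (hy1.1 l (hyl l hl)).2), hyy, hy2]
  have hsub : Subsingleton (SalZ (opS (SymV g k)) ⊤ r (2 * g + 1 + 1) ⧸
      (SalB (opS (SymV g k)) ⊤ r (2 * g + 1 + 1)).comap
        (SalZ (opS (SymV g k)) ⊤ r (2 * g + 1 + 1)).subtype) := by
    rw [Submodule.Quotient.subsingleton_iff, eq_top_iff]
    rintro ⟨x, hx⟩ -
    exact key x hx
  exact rank_subsingleton' ℝ _

theorem vanishing (g k i : ℕ) (hg : 1 ≤ g) (hk : 2 ≤ k) (h : 3 * i < 2 * g ∨ i + k < 2 * g + 1) :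
    Module.rank ℝ (groupCohomology (SymV g k) i) = 0 := by
  obtain ⟨r, hr⟩ : ∃ r, r + i = 2 * g + 2 := ⟨2 * g + 2 - i, by omega⟩
  exact sym_transfer g k i r hr (salEx_sym g k r hg hk (by omega))

end BrV
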