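import Pool.Agent.Lib.BrV.CDefs

/-!
# BrV.CTrans: transitivity step of the Garside lemma (9.1)

`RR S a i b j`: (`i = j`, `a = b`), or (`|i-j| = 1`, `a = x S_i S_j`, `b = x S_j S_i`), or (`|i-j| ≥ 2`, `a = x S_j`, `b = x S_i`).  Write `i` for `S i`.  `H` is the Garside lemma for shorter elements.
If `i = k` or `k = j` nothing to do.  Otherwise:
(far, far)  `a = u k, c = u i; c = v j, b = v k`, `u i = v j`, so by `H`:  `i = j`: `u = v`, `a = b`.  `i,j` far: `u = w j, v = w i`: `a = (w k) j, b = (w k) i`.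
   `i,j` adjacent: `u = w i j, v = w j i`: `a = w i j k = (w k) i j`, `b = w j i k = (w k) j i`.
(adj, far)  `a = u i k, c = u k i; c = v j, b = v k`, `(u k) i = v j`  (`i ≠ j`).
   `i,j` far: `u k = w j, v = w i`, then (`k,j` far) `u = x j, w = x k`: `a = x j i k = (x i k) j`, `b = w i k = x k i k = (x i k) i`.
   `i,j` adjacent: `u k = (w i) j`, `v = w j i`; (`k,j` far) `u = x j`, `w i = x k`; (`i,k` adjacent) `w = y i k, x = y k i`.
     `a = u i k = y k i j i k = y k j i j k = y j k i k j = y j i k i j = (y j i k) i j`;  `b = w j i k = y i k j i k = y i j k i k = y i j i k i = y j i j k i = y j i k j i = (y j i k) j i`.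
(far, adj)  symmetric (swap the roles; `RR` is symmetric).
(adj, adj)  `a = u i k, c = u k i; c = v k j, b = v j k`, `(u k) i = (v k) j`.
   `i = j`: `u k = v k`, `u = v` (`H`), `a = b`.
   `i ≠ j`: then `i, j` are `k ± 1`, far: `u k = w j, v k = w i`; (`k,j` adj) `u = x k j, w = x j k`; (`k,i` adj) `v = y k i, w = y i k`; `x j k = y i k`, `x j = y i` (`H`), `x = z i, y = z j`.
     `a = u i k = z i k j i k = z i k i j k = z k i k j k = z k i j k j = (z k i j k) j`;  `b = v j k = z j k i j k = z j k j i k = z k j k i k = z k j i k i = (z k i j k) i`.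
Lengths: `a, b, c` have length `L` (from `h1, h2`), every application of `H` is to shorter elements.
-/

namespace BrV

private theorem com' {M : Type} [Monoid M] {p q : M} (h : p * q = q * p) (t : M) :
    p * (q * t) = q * (p * t) := by
  rw [← mul_assoc, h, mul_assoc]

private theorem brd' {M : Type} [Monoid M] {p q : M} (h : p * q * p = q * p * q) (t : M) :
    p * (q * (p * t)) = q * (p * (q * t)) := by
  rw [← mul_assoc, ← mul_assoc, h, mul_assoc, mul_assoc]

private theorem brd0 {M : Type} [Monoid M] {p q : M} (h : p * q * p = q * p * q) :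
    p * (q * p) = q * (p * q) := by
  rw [← mul_assoc, h, mul_assoc]

theorem RR_symm {M : Type} [Monoid M] (S : ℕ → M) (a b : M) (i j : ℕ) (h : RR S a i b j) :
    RR S b j a i := by
  rcases h with ⟨h, e⟩ | ⟨h, c, h1, h2⟩ | ⟨h, c, h1, h2⟩
  · exact Or.inl ⟨h.symm, e.symm⟩
  · exact Or.inr (Or.inl ⟨h.symm, c, h2, h1⟩)
  · exact Or.inr (Or.inr ⟨h.symm, c, h2, h1⟩)

/-- the case (adjacent, far) -/
private theorem adj_far {M : Type} [Monoid M] (S : ℕ → M) (N : ℕ) (len : M → ℕ)
    (hcom : ∀ p q, 1 ≤ p → p ≤ N → 1 ≤ q → q ≤ N → (p + 2 ≤ q ∨ q + 2 ≤ p) → S p * S q = S q * S p)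
    (hbrd : ∀ p q, 1 ≤ p → p ≤ N → 1 ≤ q → q ≤ N → (q = p + 1 ∨ p = q + 1) →
      S p * S q * S p = S q * S p * S q)
    (hmul : ∀ a b, len (a * b) = len a + len b)
    (hS : ∀ i, 1 ≤ i → i ≤ N → len (S i) = 1) (L : ℕ)
    (H : ∀ x y p q, 1 ≤ p → p ≤ N → 1 ≤ q → q ≤ N → len x < L → x * S p = y * S q → RR S x p y q)
    (u v : M) (i k j : ℕ) (hi : 1 ≤ i ∧ i ≤ N) (hk : 1 ≤ k ∧ k ≤ N) (hj : 1 ≤ j ∧ j ≤ N)
    (hL : len u + 2 = L) (hik : k = i + 1 ∨ i = k + 1) (hkj : k + 2 ≤ j ∨ j + 2 ≤ k)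
    (e : u * S k * S i = v * S j) : RR S (u * S i * S k) i (v * S k) j := by
  have cjk := hcom j k hj.1 hj.2 hk.1 hk.2 (by omega)
  have bik := hbrd i k hi.1 hi.2 hk.1 hk.2 (by omega)
  have l1 : len (u * S k) < L := by rw [hmul, hS k hk.1 hk.2]; omega
  rcases H (u * S k) v i j hi.1 hi.2 hj.1 hj.2 l1 e with ⟨h, _⟩ | ⟨h, w, hw1, hw2⟩ | ⟨h, w, hw1, hw2⟩
  · omega
  · -- adjacent
    have hw1' : u * S k = (w * S i) * S j := hw1
    rcases H u (w * S i) k j hk.1 hk.2 hj.1 hj.2 (by omega) hw1' with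
      ⟨h', _⟩ | ⟨h', _⟩ | ⟨h', x, hx1, hx2⟩
    · omega
    · omega
    · have l2 : len w < L := by
        have h3 := congrArg len hw1
        rw [hmul, hmul, hmul, hS k hk.1 hk.2, hS i hi.1 hi.2, hS j hj.1 hj.2] at h3
        omega
      rcases H w x i k hi.1 hi.2 hk.1 hk.2 l2 hx2 with ⟨h'', _⟩ | ⟨h'', y, hy1, hy2⟩ | ⟨h'', _⟩
      · omega
      · have bij := hbrd i j hi.1 hi.2 hj.1 hj.2 (by omega)
        refine Or.inr (Or.inl ⟨h, y * S j * S i * S k, ?_, ?_⟩)
        · rw [hx1, hy2]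
          simp only [mul_assoc]
          rw [brd' bij, com' cjk.symm, cjk, brd' bik.symm]
        · rw [hw2, hy1]
          simp only [mul_assoc]
          rw [com' cjk.symm, brd0 bik.symm, brd' bij, com' cjk]
      · omega
  · -- far
    rcases H u w k j hk.1 hk.2 hj.1 hj.2 (by omega) hw1 with
      ⟨h', _⟩ | ⟨h', _⟩ | ⟨h', x, hx1, hx2⟩
    · omega
    · omega
    · have cij := hcom i j hi.1 hi.2 hj.1 hj.2 (by omega)
      refine Or.inr (Or.inr ⟨h, x * S i * S k, ?_, ?_⟩)
      · rw [hx1]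
        simp only [mul_assoc]
        rw [com' cij.symm, cjk]
      · rw [hw2, hx2]
        simp only [mul_assoc]
        rw [brd0 bik.symm]


theorem RR_trans {M : Type} [Monoid M] (S : ℕ → M) (N : ℕ) (len : M → ℕ)
    (hrel : BRel S 0 (N + 1)) (hmul : ∀ a b, len (a * b) = len a + len b)
    (hS : ∀ i, 1 ≤ i → i ≤ N → len (S i) = 1) (L : ℕ)
    (H : ∀ x y p q, 1 ≤ p → p ≤ N → 1 ≤ q → q ≤ N → len x < L → x * S p = y * S q → RR S x p y q)
    (a b c : M) (i k j : ℕ) (hi : 1 ≤ i ∧ i ≤ N) (hk : 1 ≤ k ∧ k ≤ N) (hj : 1 ≤ j ∧ j ≤ N)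
    (ha : len a = L) (h1 : RR S a i c k) (h2 : RR S c k b j) : RR S a i b j := by
  have hcom : ∀ p q, 1 ≤ p → p ≤ N → 1 ≤ q → q ≤ N → (p + 2 ≤ q ∨ q + 2 ≤ p) →
      S p * S q = S q * S p := by
    intro p q hp hp' hq hq' h
    rcases h with h | h
    · exact hrel.1 p q (by omega) h (by omega)
    · exact (hrel.1 q p (by omega) h (by omega)).symm
  have hbrd : ∀ p q, 1 ≤ p → p ≤ N → 1 ≤ q → q ≤ N → (q = p + 1 ∨ p = q + 1) →
      S p * S q * S p = S q * S p * S q := by
    intro p q hp hp' hq hq' h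
    rcases h with h | h
    · subst h
      exact hrel.2 p (by omega) (by omega)
    · subst h
      exact (hrel.2 q (by omega) (by omega)).symm
  rcases h1 with ⟨h, e⟩ | ⟨hik, u, hu1, hu2⟩ | ⟨hik, u, hu1, hu2⟩
  · subst h
    subst e
    exact h2
  · -- adjacent
    have lu : len u + 2 = L := by
      rw [← ha, hu1, hmul, hmul, hS i hi.1 hi.2, hS k hk.1 hk.2]
    rcases h2 with ⟨h', e'⟩ | ⟨hkj, v, hv1, hv2⟩ | ⟨hkj, v, hv1, hv2⟩
    · subst h'
      subst e'
      exact Or.inr (Or.inl ⟨hik, u, hu1, hu2⟩)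
    · -- adjacent, adjacent
      have lv : len v + 2 = L := by
        have h3 := congrArg len (hu2.symm.trans hv1)
        rw [hmul, hmul, hmul, hmul, hS k hk.1 hk.2, hS i hi.1 hi.2, hS j hj.1 hj.2] at h3
        omega
      have l1 : len (u * S k) < L := by rw [hmul, hS k hk.1 hk.2]; omega
      rcases H (u * S k) (v * S k) i j hi.1 hi.2 hj.1 hj.2 l1 (hu2.symm.trans hv1) with
        ⟨h, e⟩ | ⟨h, _⟩ | ⟨h, w, hw1, hw2⟩
      · rcases H u v k k hk.1 hk.2 hk.1 hk.2 (by omega) e with ⟨_, e'⟩ | ⟨h', _⟩ | ⟨h', _⟩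
        · subst h
          subst e'
          exact Or.inl ⟨rfl, hu1.trans hv2.symm⟩
        · omega
        · omega
      · omega
      · rcases H u w k j hk.1 hk.2 hj.1 hj.2 (by omega) hw1 with
          ⟨h', _⟩ | ⟨_, x, hx1, hx2⟩ | ⟨h', _⟩
        · omega
        · rcases H v w k i hk.1 hk.2 hi.1 hi.2 (by omega) hw2 with
            ⟨h', _⟩ | ⟨_, y, hy1, hy2⟩ | ⟨h', _⟩
          · omega
          · have lw : len w = len u := by
              have h3 := congrArg len hw1
              rw [hmul, hmul, hS k hk.1 hk.2, hS j hj.1 hj.2] at h3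
              omega
            have lxj : len (x * S j) < L := by
              have h3 := congrArg len hx2
              rw [hmul, hS k hk.1 hk.2] at h3
              omega
            have lx : len x < L := by
              rw [hmul] at lxj
              omega
            rcases H (x * S j) (y * S i) k k hk.1 hk.2 hk.1 hk.2 lxj (hx2.symm.trans hy2) with
              ⟨_, e⟩ | ⟨h', _⟩ | ⟨h', _⟩
            · rcases H x y j i hj.1 hj.2 hi.1 hi.2 lx e with
                ⟨h', _⟩ | ⟨h', _⟩ | ⟨_, z, hz1, hz2⟩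
              · omega
              · omega
              · have cij := hcom i j hi.1 hi.2 hj.1 hj.2 (by omega)
                have bik := hbrd i k hi.1 hi.2 hk.1 hk.2 (by omega)
                have bjk := hbrd j k hj.1 hj.2 hk.1 hk.2 (by omega)
                refine Or.inr (Or.inr ⟨h, z * S k * S i * S j * S k, ?_, ?_⟩)
                · rw [hu1, hx1, hz1]
                  simp only [mul_assoc]
                  rw [com' cij.symm, brd' bik, brd0 bjk.symm]
                · rw [hv2, hy1, hz2]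
                  simp only [mul_assoc]
                  rw [com' cij, brd' bjk, brd0 bik.symm, com' cij.symm]
            · omega
            · omega
          · omega
        · omega
    · -- adjacent, far
      rw [hu1, hv2]
      exact adj_far S N len hcom hbrd hmul hS L H u v i k j hi hk hj lu hik hkj
        (hu2.symm.trans hv1)
  · -- far
    have lu : len u + 1 = L := by
      rw [← ha, hu1, hmul, hS k hk.1 hk.2]
    rcases h2 with ⟨h', e'⟩ | ⟨hkj, v, hv1, hv2⟩ | ⟨hkj, v, hv1, hv2⟩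
    · subst h'
      subst e'
      exact Or.inr (Or.inr ⟨hik, u, hu1, hu2⟩)
    · -- far, adjacent
      have lv : len v + 2 = L := by
        have h3 := congrArg len (hu2.symm.trans hv1)
        rw [hmul, hmul, hmul, hS k hk.1 hk.2, hS i hi.1 hi.2, hS j hj.1 hj.2] at h3
        omega
      apply RR_symm
      rw [hu1, hv2]
      exact adj_far S N len hcom hbrd hmul hS L H v u j k i hj hk hi lv (by omega) (by omega)
        (hv1.symm.trans hu2)
    · -- far, far
      have cik := hcom i k hi.1 hi.2 hk.1 hk.2 (by omega)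
      have cjk := hcom j k hj.1 hj.2 hk.1 hk.2 (by omega)
      rcases H u v i j hi.1 hi.2 hj.1 hj.2 (by omega) (hu2.symm.trans hv1) with
        ⟨h, e⟩ | ⟨h, w, hw1, hw2⟩ | ⟨h, w, hw1, hw2⟩
      · refine Or.inl ⟨h, ?_⟩
        rw [hu1, hv2, e]
      · refine Or.inr (Or.inl ⟨h, w * S k, ?_, ?_⟩)
        · rw [hu1, hw1]
          simp only [mul_assoc]
          rw [cjk, com' cik]
        · rw [hv2, hw2]
          simp only [mul_assoc]
          rw [cik, com' cjk]
      · refine Or.inr (Or.inr ⟨h, w * S k, ?_, ?_⟩)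
        · rw [hu1, hw1]
          simp only [mul_assoc]
          rw [cjk]
        · rw [hv2, hw2]
          simp only [mul_assoc]
          rw [cik]

end BrV
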