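import Pool.Agent.Lib.BrV.Grad

/-!
# BrV.Coef: `Va` with coefficients in a vector space, `Ac ⊤ Rpl → Va`

`Va_coef`: choose a basis `β` of `Q` (`Module.Basis.ofVectorSpace ℝ Q`).  For `g` in the index set let `c_g i = β.repr (c i) g`; only
finitely many `c_g` are nonzero; `IsH0 r n k c_g`, `D0 c_g = 0` (coordinates of `D0Q c = 0`); take `e_g` with `D0 e_g = c_g`
(`0` if `c_g = 0`) and `e = ∑_g ∑_i single i (e_g i • β g)`.
`Ac_Va`: let `c` be as in `Va`; `x = ∑ single i (c i • bw [])`: `IsHP r n k x`, and `(D x i) [] = D0 c i = 0`, so `D x i ∈ Rpl`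
(`mem_Rpl`).  `x = D y + z`, `z i [] = 0`, `e i = y i []`:  `(D y j) [] = ∑_i mu (D1 i j) (y i) [] = ∑_i (D1 i j []) (y i [])` (`mu_nil`), so
`D0 e j = (D y j) [] = x j [] = c j`.  In general `(D x j) [] = D0 (fun i => x i []) j` for every `x : Ph`.
-/

namespace BrV

open Finsupp

/-- the scalar differential with coefficients in `Q` -/
noncomputable def D0Q (Q : Type) [AddCommGroup Q] [Module ℝ Q] : (Ix →₀ Q) →ₗ[ℝ] (Ix →₀ Q) :=
  Finsupp.lsum ℝ fun i =>
    { toFun := fun v => (D01 i).mapRange (fun a => a • v) (zero_smul _ _)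
      map_add' := fun v w => by ext j; simp [smul_add]
      map_smul' := fun a v => by ext j; simp [smul_comm a] }

private theorem D0_app (y : Ph0) (j : Ix) : D0 y j = y.sum fun i a => a * D01 i j := by
  unfold D0
  rw [lift_apply]
  unfold Finsupp.sum
  rw [Finsupp.finsetSum_apply]
  rfl

private theorem D0Q_single (Q : Type) [AddCommGroup Q] [Module ℝ Q] (i : Ix) (v : Q) (j : Ix) :
    D0Q Q (single i v) j = D01 i j • v := by
  unfold D0Q
  rw [lsum_single]
  rfl

private theorem D0Q_smul (Q : Type) [AddCommGroup Q] [Module ℝ Q] (q : Q) (e : Ph0) :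
    D0Q Q (mapRange.linearMap (LinearMap.toSpanSingleton ℝ Q q) e) =
      mapRange.linearMap (LinearMap.toSpanSingleton ℝ Q q) (D0 e) := by
  have h : (D0Q Q).comp (mapRange.linearMap (LinearMap.toSpanSingleton ℝ Q q)) =
      (mapRange.linearMap (LinearMap.toSpanSingleton ℝ Q q)).comp D0 := by
    refine Finsupp.lhom_ext fun i a => ?_
    ext1 j
    rw [LinearMap.comp_apply, LinearMap.comp_apply, mapRange.linearMap_apply,
      mapRange_single, D0Q_single, D0_single, mapRange.linearMap_apply, mapRange_apply]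
    simp [smul_smul, mul_comm]
  exact LinearMap.congr_fun h e

private theorem D0_coord (Q : Type) [AddCommGroup Q] [Module ℝ Q] (φ : Q →ₗ[ℝ] ℝ)
    (c : Ix →₀ Q) : D0 (mapRange.linearMap φ c) = mapRange.linearMap φ (D0Q Q c) := by
  have h : D0.comp (mapRange.linearMap φ) = (mapRange.linearMap φ).comp (D0Q Q) := by
    refine Finsupp.lhom_ext fun i a => ?_
    ext1 j
    rw [LinearMap.comp_apply, LinearMap.comp_apply, mapRange.linearMap_apply,
      mapRange_single, D0_single, mapRange.linearMap_apply, mapRange_apply, D0Q_single]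
    simp [mul_comm]
  exact LinearMap.congr_fun h c

theorem Va_coef (Q : Type) [AddCommGroup Q] [Module ℝ Q] (r n k : ℕ) (h : Va r n k)
    (c : Ix →₀ Q) (hc : ∀ i, c i ≠ 0 → rI i = r ∧ nI i = n ∧ kI i = k) (hD : D0Q Q c = 0) :
    ∃ e : Ix →₀ Q, (∀ i, e i ≠ 0 → rI i = r + 1 ∧ nI i = n ∧ kI i = k) ∧ D0Q Q e = c := by
  classical
  let β := Module.Basis.ofVectorSpace ℝ Q
  have key : ∀ g, ∃ e : Ph0, IsH0 (r + 1) n k e ∧
      D0 e = mapRange.linearMap (β.coord g) c := by
    intro g
    refine h _ ?_ ?_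
    · intro i hi
      refine hc i ?_
      intro h0
      apply hi
      rw [mapRange.linearMap_apply, mapRange_apply, h0, map_zero]
    · rw [D0_coord, hD, map_zero]
  choose e he1 he2 using key
  let G := c.support.biUnion fun i => (β.repr (c i)).support
  refine ⟨∑ g ∈ G, mapRange.linearMap (LinearMap.toSpanSingleton ℝ Q (β g)) (e g), ?_, ?_⟩
  · intro i hi
    rw [Finsupp.finsetSum_apply] at hi
    obtain ⟨g, _, hne⟩ := Finset.exists_ne_zero_of_sum_ne_zero hi
    refine he1 g i ?_
    intro h0
    apply hne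
    rw [mapRange.linearMap_apply, mapRange_apply, h0, map_zero]
  · rw [map_sum]
    ext1 i
    rw [Finsupp.finsetSum_apply]
    have hterm : ∀ g ∈ G, (D0Q Q (mapRange.linearMap (LinearMap.toSpanSingleton ℝ Q (β g))
        (e g))) i = (β.repr (c i)) g • β g := by
      intro g _
      rw [D0Q_smul, he2 g, mapRange.linearMap_apply, mapRange_apply, mapRange.linearMap_apply,
        mapRange_apply]
      rfl
    rw [Finset.sum_congr rfl hterm]
    have hsum : (β.repr (c i)).sum (fun g a => a • β g) = c i := by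
      have := β.linearCombination_repr (c i)
      rwa [Finsupp.linearCombination_apply] at this
    by_cases h0 : c i = 0
    · rw [h0]
      simp
    · conv_rhs => rw [← hsum]
      unfold Finsupp.sum
      symm
      refine Finset.sum_subset ?_ ?_
      · intro g hg
        exact Finset.mem_biUnion.mpr ⟨i, Finsupp.mem_support_iff.mpr h0, hg⟩
      · intro g _ hg
        rw [Finsupp.notMem_support_iff.mp hg]
        exact zero_smul ℝ _

theorem D_nil (x : Ph) (j : Ix) : D x j [] = D0 (x.mapRange (fun f => f []) rfl) j := by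
  rw [D_apply, D0_app, Finsupp.sum_mapRange_index (fun i => zero_mul _)]
  unfold Finsupp.sum
  rw [Finsupp.finsetSum_apply]
  refine Finset.sum_congr rfl fun i _ => ?_
  rw [mu_nil]
  change _ = x i [] * D01 i j
  rw [D01_apply, mul_comm]

theorem Ac_Va (r n k : ℕ) (h : Ac ⊤ Rpl r n k) : Va r n k := by
  intro c hc hD
  let x : Ph := mapRange.linearMap (LinearMap.toSpanSingleton ℝ R (bw [])) c
  have hx : ∀ i, x i = c i • bw [] := fun i => rfl
  have hxn : ∀ i, x i [] = c i := by
    intro i
    rw [hx, Finsupp.smul_apply, bw, Finsupp.single_eq_same, smul_eq_mul, mul_one]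
  have hx0 : x.mapRange (fun f => f []) rfl = c := by
    ext i
    rw [mapRange_apply]
    exact hxn i
  have hxH : IsHP r n k x := by
    intro i w hw
    rw [hx, Finsupp.smul_apply, bw] at hw
    have hc0 : c i ≠ 0 := by
      intro h0
      apply hw
      rw [h0, zero_smul]
    have hwn : w = [] := by
      by_contra hne
      apply hw
      rw [Finsupp.single_eq_of_ne hne, smul_zero]
    obtain ⟨h1, h2, h3⟩ := hc i hc0
    subst hwn
    exact ⟨h1, by simpa [np] using h2, by simpa [nz] using h3⟩
  obtain ⟨y, z, hy, _, _, hz, hxyz⟩ := h x hxH (fun _ => Submodule.mem_top) (by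
    intro i
    rw [mem_Rpl, D_nil, hx0, hD]
    rfl)
  refine ⟨y.mapRange (fun f => f []) rfl, ?_, ?_⟩
  · intro i hi
    rw [mapRange_apply] at hi
    obtain ⟨h1, h2, h3⟩ := hy i [] hi
    exact ⟨h1, by simpa [np] using h2, by simpa [nz] using h3⟩
  · ext j
    rw [← D_nil]
    have h1 : x j [] = D y j [] + z j [] := by
      rw [hxyz]
      rfl
    rw [(mem_Rpl _).mp (hz j), add_zero, hxn] at h1
    exact h1.symm

end BrV
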