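import Pool.Agent.Lib.BrV.DT

/-!
# BrV.DAc: the total complex with the empty list is acyclic (paper 4, section 7)

Claim for all `N`: if `IsD t n k x`, `dt x = 0` and `x i ≠ 0 → rI i < N`, then `x = dt y` with `IsD (t+1) n k y`.  `N = 0`: `x = 0`.  `N + 1`: `dt_SS`: `x = dt (SG (SS x)) + x'`, `x' = SG (DL (SS x) - SS (DL x))`; `x'` is a cycle (`dt_dt`), `IsD t n k x'`
(difference of `x` and `dt (SG (SS x))`: `IsD_SS`, `IsD_dt`), and `x' i ≠ 0 → rI i < N` (`D1_ne`: `DL` lowers `rI` by one, `DL_apply`; `SS`, `SG` do not change the index).  Induction.  (All `x` have finite support, so `N` exists; also `rI i ≤ t`.)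
-/

namespace BrV

open Finsupp

private theorem DAc_sub (t n k : ℕ) (x y : PhL) (hx : IsD t n k x) (hy : IsD t n k y) :
    IsD t n k (x - y) := by
  intro i q h
  by_cases h1 : x i q = 0
  · refine hy i q fun h2 => h ?_
    rw [Finsupp.sub_apply, Finsupp.sub_apply, h1, h2, sub_zero]
  · exact hx i q h1

private theorem DAc_add (t n k : ℕ) (x y : PhL) (hx : IsD t n k x) (hy : IsD t n k y) :
    IsD t n k (x + y) := by
  intro i q h
  by_cases h1 : x i q = 0
  · refine hy i q fun h2 => h ?_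
    rw [Finsupp.add_apply, Finsupp.add_apply, h1, h2, add_zero]
  · exact hx i q h1

private theorem DAc_DL (x : PhL) (i : Ix) (h : DL x i ≠ 0) :
    ∃ j, x j ≠ 0 ∧ rI i + 1 = rI j := by
  rw [DL_apply] at h
  obtain ⟨j, hj, hj'⟩ := Finset.exists_ne_zero_of_sum_ne_zero h
  refine ⟨j, Finsupp.mem_support_iff.1 hj, ?_⟩
  have h1 : D1 j i ≠ 0 := fun h2 => hj' (by
    change act (D1 j i) (x j) = 0
    rw [h2, map_zero, LinearMap.zero_apply])
  obtain ⟨u, hu⟩ := Finsupp.ne_iff.1 h1
  exact (D1_ne j i u hu).1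

private theorem DAc_SS (x : PhL) (i : Ix) (h : SS x i ≠ 0) : x i ≠ 0 := by
  intro h1
  refine h ?_
  unfold SS
  rw [Finsupp.mapRange.linearMap_apply, Finsupp.mapRange_apply, h1, map_zero]

private theorem DAc_main (t n k : ℕ) (N : ℕ) : ∀ x : PhL, IsD t n k x → dt x = 0 →
    (∀ i, x i ≠ 0 → rI i < N) → ∃ y, IsD (t + 1) n k y ∧ dt y = x := by
  induction N with
  | zero =>
    intro x _ _ hN
    refine ⟨0, fun i q h => absurd rfl h, ?_⟩
    rw [map_zero]
    ext1 i
    by_contra h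
    exact absurd (hN i (fun h' => h (by rw [h']; rfl))) (Nat.not_lt_zero _)
  | succ N ih =>
    intro x hx h0 hN
    have hS := dt_SS t n k x hx
    have e0 : SG (SS (dt x)) = 0 := by rw [h0, map_zero, map_zero]
    have hS : dt (SG (SS x)) + SG (DL (SS x) - SS (DL x)) = x := by
      have e1 : dt (SG (SS x)) + SG (SS (dt x)) = dt (SG (SS x)) := by
        rw [e0]
        exact add_zero (dt (SG (SS x)))
      rw [e1] at hS
      exact hS
    have hx' : SG (DL (SS x) - SS (DL x)) = x - dt (SG (SS x)) :=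
      eq_sub_of_add_eq (G := PhL)
        ((add_comm (SG (DL (SS x) - SS (DL x))) (dt (SG (SS x)))).trans hS)
    have hd : IsD t n k (SG (DL (SS x) - SS (DL x))) := by
      rw [hx']
      exact DAc_sub t n k _ _ hx (IsD_dt t n k _ (IsD_SS t n k x hx))
    have hc : dt (SG (DL (SS x) - SS (DL x))) = 0 := by
      have e2 : dt (x - dt (SG (SS x))) = dt x - dt (dt (SG (SS x))) := map_sub dt _ _
      rw [hx', e2, h0, dt_dt]
      exact sub_zero (0 : PhL)
    have hr : ∀ i, SG (DL (SS x) - SS (DL x)) i ≠ 0 → rI i < N := by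
      intro i hi
      rw [SG_apply] at hi
      have h1 : (DL (SS x) - SS (DL x)) i ≠ 0 := fun h2 => hi (by rw [h2, smul_zero])
      rw [Finsupp.sub_apply] at h1
      by_cases h2 : DL (SS x) i = 0
      · have h3 : SS (DL x) i ≠ 0 := fun h4 => h1 (by rw [h2, h4, sub_zero])
        obtain ⟨j, hj, hj'⟩ := DAc_DL x i (DAc_SS _ i h3)
        have := hN j hj
        omega
      · obtain ⟨j, hj, hj'⟩ := DAc_DL _ i h2
        have := hN j (DAc_SS _ j hj)
        omega
    obtain ⟨y, hy, hy'⟩ := ih _ hd hc hr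
    refine ⟨SG (SS x) + y, DAc_add _ _ _ _ _ (IsD_SS t n k x hx) hy, ?_⟩
    have e3 : dt (SG (SS x) + y) = dt (SG (SS x)) + dt y := map_add dt _ _
    rw [e3, hy']
    exact hS

theorem dt_ex (t n k : ℕ) (x : PhL) (hx : IsD t n k x) (h : dt x = 0) :
    ∃ y, IsD (t + 1) n k y ∧ dt y = x := by
  refine DAc_main t n k (t + 1) x hx h fun i hi => ?_
  obtain ⟨q, hq⟩ := Finsupp.ne_iff.1 hi
  have := (hx i q hq).1
  omega

end BrV
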