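import Pool.Agent.Lib.BrV.Api
import Pool.Agent.Lib.BrV.Ideals

/-!
# BrV.Grad: gradings of the complex; `D` preserves graded left ideals

Proofs.  `bm v w` is supported on `x` with `np x = np v + np w + 1`, `nz x = nz v + nz w`
(`app_bm`, `IsH_mu`), `ub w` on `x` with `np x = np w`, `nz x = nz w + 1`.  `mg0_supp`, `uo0_supp`: induction on the list.
`D_IsHP`: `D_apply`: `D x j w ≠ 0` gives `i, v` with `x i v ≠ 0` and `mu (D1 i j) (bw v) w ≠ 0`; `D1 i j` is
homogeneous of the complementary bidegree by cases (`i = (false, l)`, `(true, l)`, `j.1`).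
`D_mem`: `D x j = ∑_i mu (D1 i j) (x i)` and `X` is a left ideal.
`cmpP_apply`: `(cmpP r n k x) i = cmp (n - nI i) (k - kI i) (x i)` if `rI i = r, nI i ≤ n, kI i ≤ k`, else `0`.
`cmpP_D`: `D` and `cmpP` are linear: check on `x = single i (bw w)`: homogeneous of bidegree
`(rI i, nI i + np w, kI i + nz w)`; so is `D x` with `rI i - 1`  (if `rI i = 0` then `D x = 0`).
`Ac_weak`: replace `y`, `z` by `cmpP (r+1) n k y`, `cmpP r n k z` and apply `cmpP r n k` to `x = D y + z`.
-/

namespace BrV

open Finsupp

private theorem sh_supp (v w x : Wd) (h : sh v w x ≠ 0) :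
    np x = np v + np w ∧ nz x = nz v + nz w := by
  have := IsH_mu _ _ _ _ _ _ (IsH_bw v) (IsH_bw w) x
  rw [mu_bw] at this
  exact this h

private theorem np_true (w : Wd) : np (true :: w) = np w + 1 := by
  simp [np]

private theorem nz_true (w : Wd) : nz (true :: w) = nz w := by
  simp [nz]

private theorem np_false (w : Wd) : np (false :: w) = np w := by
  simp [np]

private theorem nz_false (w : Wd) : nz (false :: w) = nz w + 1 := by
  simp [nz]

private theorem np_nil : np [] = 0 := by simp [np]

private theorem nz_nil : nz [] = 0 := by simp [nz]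

private theorem npL_cons (w : Wd) (l : LB) : npL (w :: l) = np w + 1 + npL l := by
  simp [npL]

private theorem nzL_cons (w : Wd) (l : LB) : nzL (w :: l) = nz w + nzL l := by
  simp [nzL]

private theorem bm_supp (v w x : Wd) (h : bm v w x ≠ 0) :
    np x = np v + np w + 1 ∧ nz x = nz v + nz w := by
  unfold bm at h
  rw [Finsupp.add_apply, Finsupp.smul_apply, smul_eq_mul] at h
  by_cases h1 : sh (true :: v) w x = 0
  · have h2 : sh v (true :: w) x ≠ 0 := by
      intro h0
      apply h
      rw [h1, h0]
      simp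
    have := sh_supp _ _ _ h2
    rw [np_true, nz_true] at this
    omega
  · have := sh_supp _ _ _ h1
    rw [np_true, nz_true] at this
    omega

private theorem ub_supp (w x : Wd) (h : ub w x ≠ 0) :
    np x = np w ∧ nz x = nz w + 1 := by
  unfold ub at h
  rw [Finsupp.add_apply, Finsupp.smul_apply, smul_eq_mul] at h
  by_cases h1 : sh [false] w x = 0
  · have h2 : sh w [false] x ≠ 0 := by
      intro h0
      apply h
      rw [h1, h0]
      simp
    have := sh_supp _ _ _ h2
    rw [np_false, nz_false, np_nil, nz_nil] at this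
    omega
  · have := sh_supp _ _ _ h1
    rw [np_false, nz_false, np_nil, nz_nil] at this
    omega

private theorem cl_supp (f : R) (l q : LB) (h : cl f l q ≠ 0) : ∃ u, q = u :: l ∧ f u ≠ 0 := by
  cases q with
  | nil => exact absurd (cl_nil f l) h
  | cons u q =>
    rw [cl_apply] at h
    by_cases hq : q = l
    · rw [if_pos hq] at h
      exact ⟨u, by rw [hq], h⟩
    · rw [if_neg hq] at h
      exact absurd rfl h

private theorem cns_supp (w : Wd) (c : CL) (q : LB) (h : cns w c q ≠ 0) :
    ∃ q', q = w :: q' ∧ c q' ≠ 0 := by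
  cases q with
  | nil => exact absurd (cns_nil w c) h
  | cons u q =>
    rw [cns_apply] at h
    by_cases hq : w = u
    · rw [if_pos hq] at h
      exact ⟨q, by rw [hq], h⟩
    · rw [if_neg hq] at h
      exact absurd rfl h

theorem mg0_supp (l q : LB) (h : mg0 l q ≠ 0) :
    q.length + 1 = l.length ∧ npL q = npL l ∧ nzL q = nzL l := by
  induction l generalizing q with
  | nil => exact absurd (by simp [mg0]) h
  | cons w l ih =>
    cases l with
    | nil => exact absurd (by simp [mg0]) h
    | cons v l =>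
      rw [mg0_cons2, Finsupp.sub_apply] at h
      by_cases h1 : cl (bm v w) l q = 0
      · have h2 : cns w (mg0 (v :: l)) q ≠ 0 := by
          intro h0
          apply h
          rw [h1, h0]
          simp
        obtain ⟨q', rfl, hq'⟩ := cns_supp _ _ _ h2
        have := ih q' hq'
        simp only [npL_cons, nzL_cons, List.length_cons] at this ⊢
        omega
      · obtain ⟨u, rfl, hu⟩ := cl_supp _ _ _ h1
        have := bm_supp _ _ _ hu
        simp only [npL_cons, nzL_cons, List.length_cons, true_and]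
        omega

theorem uo0_supp (l q : LB) (h : uo0 l q ≠ 0) :
    q.length = l.length ∧ npL q = npL l ∧ nzL q = nzL l + 1 := by
  induction l generalizing q with
  | nil => exact absurd (by simp [uo0]) h
  | cons w l ih =>
    rw [uo0, Finsupp.add_apply, Finsupp.smul_apply, smul_eq_mul] at h
    by_cases h1 : cns w (uo0 l) q = 0
    · have h2 : cl (ub w) l q ≠ 0 := by
        intro h0
        apply h
        rw [h1, h0]
        simp
      obtain ⟨u, rfl, hu⟩ := cl_supp _ _ _ h2
      have := ub_supp _ _ hu
      simp only [npL_cons, nzL_cons, List.length_cons, true_and]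
      omega
    · obtain ⟨q', rfl, hq'⟩ := cns_supp _ _ _ h1
      have := ih q' hq'
      simp only [npL_cons, nzL_cons, List.length_cons] at this ⊢
      omega

private theorem bw_supp (w x : Wd) (h : bw w x ≠ 0) : x = w := by
  unfold bw at h
  by_contra hne
  exact h (Finsupp.single_eq_of_ne hne)

private theorem emb_supp (b : Bool) (c : CL) (j : Ix) (u : Wd) (h : emb b c j u ≠ 0) :
    j.1 = b ∧ c j.2 ≠ 0 ∧ u = [] := by
  obtain ⟨b', l⟩ := j
  rw [emb_apply] at h
  by_cases hb : b = b'
  · rw [if_pos hb, Finsupp.smul_apply, smul_eq_mul] at h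
    refine ⟨hb.symm, left_ne_zero_of_mul h, bw_supp _ _ (right_ne_zero_of_mul h)⟩
  · rw [if_neg hb] at h
    exact absurd rfl h

private theorem single_supp (i j : Ix) (f : R) (u : Wd) (h : (single i f : Ph) j u ≠ 0) :
    j = i ∧ f u ≠ 0 := by
  by_cases hij : j = i
  · subst hij
    rw [Finsupp.single_eq_same] at h
    exact ⟨rfl, h⟩
  · rw [Finsupp.single_eq_of_ne hij] at h
    exact absurd rfl h

private theorem dB_supp (b : Bool) (l : LB) (j : Ix) (u : Wd) (h : dB b l j u ≠ 0) :
    rI j + 1 = l.length + b.toNat ∧ nI j + np u = npL l ∧ kI j + nz u = nzL l + b.toNat := by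
  cases l with
  | nil => exact absurd (by simp [dB]) h
  | cons w l =>
    rw [dB, Finsupp.sub_apply, Finsupp.sub_apply] at h
    by_cases h1 : (single (b, l) (bw (true :: w)) : Ph) j u = 0
    · have h2 : emb b (mg0 (w :: l)) j u ≠ 0 := by
        intro h0
        apply h
        rw [h1, h0]
        simp
      obtain ⟨hb, hm, rfl⟩ := emb_supp _ _ _ _ h2
      obtain ⟨b', q⟩ := j
      simp only at hb hm
      subst hb
      have := mg0_supp _ _ hm
      simp only [rI, nI, kI, np_nil, nz_nil] at this ⊢
      omega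
    · obtain ⟨rfl, hf⟩ := single_supp _ _ _ _ h1
      have := bw_supp _ _ hf
      subst this
      simp only [rI, nI, kI, np_true, nz_true, npL_cons, nzL_cons, List.length_cons]
      omega

private theorem D1_supp (i j : Ix) (u : Wd) (h : D1 i j u ≠ 0) :
    rI j + 1 = rI i ∧ nI j + np u = nI i ∧ kI j + nz u = kI i := by
  obtain ⟨b, l⟩ := i
  cases b with
  | false =>
    rw [D1] at h
    have := dB_supp _ _ _ _ h
    simpa only [rI, nI, kI] using this
  | true =>
    rw [D1, Finsupp.sub_apply, Finsupp.add_apply, Finsupp.sub_apply, Finsupp.add_apply] at h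
    by_cases h3 : dB true l j u = 0
    · by_cases h1 : emb false (uo0 l) j u = 0
      · have h2 : (single (false, l) ((-1 : ℝ) ^ npL l • bw [false]) : Ph) j u ≠ 0 := by
          intro h0
          apply h
          rw [h1, h0, h3]
          simp
        obtain ⟨rfl, hf⟩ := single_supp _ _ _ _ h2
        rw [Finsupp.smul_apply, smul_eq_mul] at hf
        have := bw_supp _ _ (right_ne_zero_of_mul hf)
        subst this
        refine ⟨?_, ?_, ?_⟩
        · simp [rI]
        · simp [nI, np_false, np_nil]
        · simp [kI, nz_false, nz_nil]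
      · obtain ⟨hb, hm, rfl⟩ := emb_supp _ _ _ _ h1
        obtain ⟨b', q⟩ := j
        simp only at hb hm
        subst hb
        have := uo0_supp _ _ hm
        simp only [rI, nI, kI, np_nil, nz_nil, Bool.toNat_false, Bool.toNat_true] at this ⊢
        omega
    · have := dB_supp _ _ _ _ h3
      simpa only [rI, nI, kI] using this

private theorem mu_sum (f g : R) : mu f g = f.sum fun u a => g.sum fun v b => a • (b • sh u v) := by
  unfold mu
  rw [Finsupp.lift_apply, Finsupp.sum, Finsupp.sum, LinearMap.sum_apply]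
  refine Finset.sum_congr rfl fun u _ => ?_
  rw [LinearMap.smul_apply, Finsupp.lift_apply, Finsupp.sum, Finsupp.sum, Finset.smul_sum]

private theorem mu_supp (f g : R) (w : Wd) (h : mu f g w ≠ 0) :
    ∃ u v, f u ≠ 0 ∧ g v ≠ 0 ∧ np w = np u + np v ∧ nz w = nz u + nz v := by
  by_contra hno
  apply h
  rw [mu_sum, Finsupp.sum, Finsupp.finsetSum_apply]
  refine Finset.sum_eq_zero fun u hu => ?_
  rw [Finsupp.sum, Finsupp.finsetSum_apply]
  refine Finset.sum_eq_zero fun v hv => ?_
  rw [Finsupp.smul_apply, Finsupp.smul_apply]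
  have : sh u v w = 0 := by
    by_contra hs
    apply hno
    have := sh_supp _ _ _ hs
    exact ⟨u, v, Finsupp.mem_support_iff.mp hu, Finsupp.mem_support_iff.mp hv, this.1, this.2⟩
  rw [this]
  simp

theorem D_IsHP (r n k : ℕ) (x : Ph) (h : IsHP r n k x) :
    ∀ i w, D x i w ≠ 0 → rI i + 1 = r ∧ nI i + np w = n ∧ kI i + nz w = k := by
  intro j w hw
  rw [D_apply, Finsupp.sum, Finsupp.finsetSum_apply] at hw
  obtain ⟨i, _, hi⟩ := Finset.exists_ne_zero_of_sum_ne_zero hw
  obtain ⟨u, v, hu, hv, h1, h2⟩ := mu_supp _ _ _ hi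
  have a := D1_supp _ _ _ hu
  have b := h _ _ hv
  omega

theorem D_mem (X : Submodule ℝ R) (hX : IsLI X) (x : Ph) (hx : ∀ i, x i ∈ X) :
    ∀ i, D x i ∈ X := by
  intro j
  rw [D_apply, Finsupp.sum]
  exact Submodule.sum_mem _ fun i _ => hX.mul_mem _ _ (hx i)

theorem D_zero_deg (n k : ℕ) (x : Ph) (h : IsHP 0 n k x) : D x = 0 := by
  ext i w
  by_contra hne
  have := D_IsHP _ _ _ _ h i w hne
  omega

theorem IsHP_add (r n k : ℕ) (x y : Ph) (hx : IsHP r n k x) (hy : IsHP r n k y) :
    IsHP r n k (x + y) := by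
  intro i w h
  rw [Finsupp.add_apply, Finsupp.add_apply] at h
  by_cases h1 : x i w = 0
  · have h2 : y i w ≠ 0 := by
      intro h0
      apply h
      rw [h1, h0, add_zero]
    exact hy _ _ h2
  · exact hx _ _ h1

theorem IsHP_sub (r n k : ℕ) (x y : Ph) (hx : IsHP r n k x) (hy : IsHP r n k y) :
    IsHP r n k (x - y) := by
  intro i w h
  rw [Finsupp.sub_apply, Finsupp.sub_apply] at h
  by_cases h1 : x i w = 0
  · have h2 : y i w ≠ 0 := by
      intro h0
      apply h
      rw [h1, h0, sub_zero]
    exact hy _ _ h2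
  · exact hx _ _ h1

theorem IsHP_D (r n k : ℕ) (x : Ph) (h : IsHP (r + 1) n k x) : IsHP r n k (D x) := by
  intro i w hw
  have := D_IsHP _ _ _ _ h i w hw
  omega

theorem IsHP_coeff (r n k : ℕ) (x : Ph) (h : IsHP r n k x) (i : Ix) (hi : x i ≠ 0) :
    rI i = r ∧ nI i ≤ n ∧ kI i ≤ k ∧ IsH (n - nI i) (k - kI i) (x i) := by
  obtain ⟨w, hw⟩ := Finsupp.ne_iff.mp hi
  have h1 := h i w (by simpa using hw)
  refine ⟨h1.1, by omega, by omega, fun u hu => ?_⟩
  have h2 := h i u hu
  omega

private theorem lift_if (P : Wd → Prop) [DecidablePred P] (f : R) (u : Wd) :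
    (Finsupp.lift R ℝ Wd (fun w => if P w then bw w else 0)) f u = if P u then f u else 0 := by
  induction f using Finsupp.induction_linear with
  | zero => simp
  | add f g hf hg =>
    rw [map_add, Finsupp.add_apply, hf, hg, Finsupp.add_apply]
    split_ifs <;> simp
  | single w a =>
    rw [Finsupp.lift_apply, Finsupp.sum_single_index (by simp)]
    by_cases hw : P w
    · rw [if_pos hw]
      unfold bw
      rw [Finsupp.smul_apply, Finsupp.single_apply, Finsupp.single_apply]
      by_cases hu : w = u
      · subst hu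
        simp [hw]
      · simp [hu]
    · rw [if_neg hw, smul_zero]
      by_cases hu : w = u
      · subst hu
        simp [hw]
      · rw [Finsupp.single_apply, if_neg hu]
        simp

private theorem cmpP_apply2 (r n k : ℕ) (x : Ph) (i : Ix) (w : Wd) : cmpP r n k x i w =
    if rI i = r ∧ nI i + np w = n ∧ kI i + nz w = k then x i w else 0 := by
  induction x using Finsupp.induction_linear with
  | zero => simp
  | add x y hx hy =>
    rw [map_add, Finsupp.add_apply, Finsupp.add_apply, hx, hy, Finsupp.add_apply,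
      Finsupp.add_apply]
    split_ifs <;> simp
  | single j f =>
    unfold cmpP
    rw [Finsupp.lsum_single, LinearMap.comp_apply, Finsupp.lsingle_apply]
    by_cases hij : i = j
    · subst hij
      rw [Finsupp.single_eq_same, Finsupp.single_eq_same]
      exact lift_if (fun w => rI i = r ∧ nI i + np w = n ∧ kI i + nz w = k) f w
    · rw [Finsupp.single_eq_of_ne hij, Finsupp.single_eq_of_ne hij]
      simp

theorem cmpP_apply (r n k : ℕ) (x : Ph) (i : Ix) : cmpP r n k x i =
    if rI i = r ∧ nI i ≤ n ∧ kI i ≤ k then cmp (n - nI i) (k - kI i) (x i) else 0 := by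
  ext w
  rw [cmpP_apply2]
  by_cases hc : rI i = r ∧ nI i ≤ n ∧ kI i ≤ k
  · rw [if_pos hc]
    unfold cmp
    rw [Finsupp.filter_apply]
    by_cases h2 : np w = n - nI i ∧ nz w = k - kI i
    · rw [if_pos h2, if_pos (by omega)]
    · rw [if_neg h2, if_neg (by omega)]
  · rw [if_neg hc, if_neg (by omega)]
    rfl

theorem cmpP_IsHP (r n k : ℕ) (x : Ph) : IsHP r n k (cmpP r n k x) := by
  intro i w h
  rw [cmpP_apply2] at h
  by_contra hc
  rw [if_neg hc] at h
  exact h rfl

theorem cmpP_of_IsHP (r n k : ℕ) (x : Ph) (h : IsHP r n k x) : cmpP r n k x = x := by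
  ext i w
  rw [cmpP_apply2]
  split_ifs with hc
  · rfl
  · by_contra hne
    exact hc (h i w (Ne.symm hne))

private theorem IsHP_single (i : Ix) (w : Wd) (a : ℝ) :
    IsHP (rI i) (nI i + np w) (kI i + nz w) (single i (single w a)) := by
  intro j u h
  obtain ⟨rfl, hu⟩ := single_supp _ _ _ _ h
  have : u = w := by
    by_contra hne
    exact hu (Finsupp.single_eq_of_ne hne)
  subst this
  exact ⟨rfl, rfl, rfl⟩

theorem cmpP_D (r n k : ℕ) (x : Ph) : cmpP r n k (D x) = D (cmpP (r + 1) n k x) := by
  induction x using Finsupp.induction_linear with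
  | zero => simp
  | add x y hx hy => rw [map_add, map_add, hx, hy, map_add, map_add]
  | single i f =>
    induction f using Finsupp.induction_linear with
    | zero => simp
    | add f g hf hg =>
      rw [Finsupp.single_add, map_add, map_add, hf, hg, map_add, map_add]
    | single w a =>
      have hH := IsHP_single i w a
      by_cases hc : rI i = r + 1 ∧ nI i + np w = n ∧ kI i + nz w = k
      · obtain ⟨h1, h2, h3⟩ := hc
        rw [h1, h2, h3] at hH
        rw [cmpP_of_IsHP _ _ _ _ (IsHP_D _ _ _ _ hH), cmpP_of_IsHP _ _ _ _ hH]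
      · have e1 : cmpP (r + 1) n k (single i (single w a)) = 0 := by
          ext j u
          rw [cmpP_apply2]
          split_ifs with h1
          · by_contra hne
            have := hH j u hne
            exact hc (by omega)
          · rfl
        rw [e1, map_zero]
        ext j u
        rw [cmpP_apply2]
        split_ifs with h1
        · by_contra hne
          have := D_IsHP _ _ _ _ hH j u hne
          exact hc (by omega)
        · rfl

theorem cmpP_mem (X : Submodule ℝ R) (hX : IsLI X) (r n k : ℕ) (x : Ph) (hx : ∀ i, x i ∈ X) :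
    ∀ i, cmpP r n k x i ∈ X := by
  intro i
  rw [cmpP_apply]
  split_ifs
  · exact hX.cmp_mem _ _ _ (hx i)
  · exact X.zero_mem

/-- the homogeneity of the witnesses is automatic -/
theorem Ac_weak (X Y : Submodule ℝ R) (hX : IsLI X) (hY : IsLI Y) (r n k : ℕ)
    (h : ∀ x : Ph, IsHP r n k x → (∀ i, x i ∈ X) → (∀ i, D x i ∈ Y) →
      ∃ y z : Ph, (∀ i, y i ∈ X) ∧ (∀ i, z i ∈ Y) ∧ x = D y + z) : Ac X Y r n k := by
  intro x hx hxX hxY
  obtain ⟨y, z, hy, hz, e⟩ := h x hx hxX hxY
  refine ⟨cmpP (r + 1) n k y, cmpP r n k z, cmpP_IsHP _ _ _ _, cmpP_mem X hX _ _ _ _ hy,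
    cmpP_IsHP _ _ _ _, cmpP_mem Y hY _ _ _ _ hz, ?_⟩
  have := cmpP_of_IsHP _ _ _ _ hx
  rw [e, map_add, cmpP_D, ← e] at this
  exact this.symm

end BrV
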