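import Pool.Agent.Lib.BrV.MgMg
import Pool.Agent.Lib.BrV.Grad

/-!
# BrV.DD: `D` commutes with right multiplication, `D ∘ D = 0`

Proofs.  `D_rmP`: on `x = single i v`: `D_single`, `rmP_rmP`.
`D_D`: `D (D (single i v)) = rmP v (D (D1 i))` by `D_rmP`; so `D (D1 i) = 0` is needed.  Let
`dl b c = ∑_l c(l) dB b l` (linear extension to `CL`), `s(l) = (-1)^(npL l)`, `z = bw [false]`.
(1) `dl b (mg0 (w::l)) = rmP (bw (true::w)) (dB b l)`.  `l = []`: both `0`.  `l = v::l'`: with `m = mg0 (v::l')`:
  `dl b (cl (bm v w) l') = single (b,l') (app true (bm v w)) - emb b (∑_u (bm v w)(u) mg0 (u::l'))`,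
  `dl b (cns w m) = ∑_q m(q) single (b,q) (bw (true::w)) - emb b (∑_q m(q) mg0 (w::q))`,
  `rmP (bw (true::w)) (dB b (v::l')) = single (b,l') (app true (bm v w)) - ∑_q m(q) single (b,q) (bw (true::w))` (`app_bm`, `nil_mu`),
  and `∑_u (bm v w)(u) mg0 (u::l') - ∑_q m(q) mg0 (w::q) = mg (mg0 (w::v::l')) = 0` (`mg_mg0`).
  This gives `D (dB false (w::l)) = rmP (bw (true::w)) (dB false l) - dl false (mg0 (w::l)) = 0`.
(2) `i = (true, l)`, `l = []`: `D1 = single (false, []) z`, `D = 0`.  `l = w::l'`: `D (D1 (true,l)) = dl false (uo0 l) + s(l) rmP z (dB false l) - D (dB true l)`,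
  `D (dB true (w::l')) = rmP (bw (true::w)) (D1 (true,l')) - [emb false (uo (mg0 l)) + s(l) rmP z (emb false (mg0 l)) - dl true (mg0 l)]`
  (`mg0_supp`: `npL q = npL l` on the support).  The `true` part vanishes by (1); the `false` part is
  `single (false,l') [s(l') app true (ub w) + s(l) (w p) * z - s(l') z * (w p)] - emb false (mg (uo0 l)) + emb false (uo (mg0 l))`,
  which is `0` by `app_ub` (`s(w::l') = s(l') sg (true::w) = - s(l') sg w`) and `mg_uo0`; here
  `dl false (uo0 (w::l')) = ∑_q (uo0 l')(q) single (false,q) (bw (true::w)) + s(l') single (false,l') (app true (ub w)) - emb false (mg (uo0 l))`.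
-/

namespace BrV

open Finsupp


theorem D_rmP (v : R) (x : Ph) : D (rmP v x) = rmP v (D x) := by
  induction x using Finsupp.induction_linear with
  | zero => rw [map_zero, map_zero, map_zero]
  | add f g hf hg => rw [map_add, map_add, hf, hg, map_add, map_add]
  | single i f => rw [rmP_single, D_single, D_single, rmP_rmP]

private theorem rsub (v : R) (x y : Ph) : rmP v (x - y) = rmP v x - rmP v y := map_sub (rmP v) x y

private theorem radd (v : R) (x y : Ph) : rmP v (x + y) = rmP v x + rmP v y := map_add _ _ _

private theorem rzero (v : R) : rmP v 0 = 0 := map_zero _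

private theorem dsub (x y : Ph) : D (x - y) = D x - D y := map_sub D x y

private theorem dadd (x y : Ph) : D (x + y) = D x + D y := map_add _ _ _

private theorem dzero : D 0 = 0 := map_zero _

private theorem ssub (a : ℝ) (x y : Ph) : a • (x - y) = a • x - a • y := smul_sub a x y

private theorem sadd (a : ℝ) (x y : Ph) : a • (x + y) = a • x + a • y := smul_add a x y

private theorem sone (x : Ph) : (1 : ℝ) • x = x := one_smul ℝ x

private theorem szero (a : ℝ) : a • (0 : Ph) = 0 := smul_zero _

private theorem sinv (a b : ℝ) (x : Ph) : a • (b • x) = (a * b) • x := smul_smul a b x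

private theorem saddl (a b : ℝ) (x : Ph) : (a + b) • x = a • x + b • x := add_smul a b x

private theorem az (x : Ph) : x + 0 = x := add_zero x

private theorem za (x : Ph) : 0 + x = x := zero_add x

private theorem sz (x : Ph) : x - 0 = x := sub_zero x

private theorem ss (x : Ph) : x - x = 0 := sub_self x

private theorem sgl_add (i : Ix) (f g : R) : (single i (f + g) : Ph) = single i f + single i g :=
  single_add _ _ _

private theorem sgl_smul (i : Ix) (a : ℝ) (f : R) : (single i (a • f) : Ph) = a • single i f :=
  (smul_single _ _ _).symm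

private theorem sgl_zero (i : Ix) : (single i (0 : R) : Ph) = 0 := single_zero _

private theorem musl (a : ℝ) (f g : R) : mu (a • f) g = a • mu f g := by
  rw [map_smul, LinearMap.smul_apply]

/-- linear extension of `dB b` -/
private noncomputable def dl (b : Bool) : CL →ₗ[ℝ] Ph := Finsupp.lift Ph ℝ LB (dB b)

private theorem dl_single (b : Bool) (l : LB) (a : ℝ) : dl b (single l a) = a • dB b l := by
  simp [dl]

private theorem dl_add (b : Bool) (x y : CL) : dl b (x + y) = dl b x + dl b y := map_add _ _ _

private theorem dl_sub (b : Bool) (x y : CL) : dl b (x - y) = dl b x - dl b y := map_sub (dl b) x y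

private theorem dl_smul (b : Bool) (a : ℝ) (x : CL) : dl b (a • x) = a • dl b x := map_smul _ _ _

private theorem dl_zero (b : Bool) : dl b 0 = 0 := map_zero _

/-- the sum of the `(false, l) * (-1)^(npL l) z` -/
private noncomputable def sp : CL →ₗ[ℝ] Ph :=
  Finsupp.lift Ph ℝ LB fun l => single (false, l) ((-1 : ℝ) ^ npL l • bw [false])

private theorem sp_single (l : LB) (a : ℝ) :
    sp (single l a) = a • single (false, l) ((-1 : ℝ) ^ npL l • bw [false]) := by
  simp [sp]

private theorem sp_add (x y : CL) : sp (x + y) = sp x + sp y := map_add _ _ _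

private theorem sp_zero : sp 0 = 0 := map_zero _

private theorem D1_false (l : LB) : D1 (false, l) = dB false l := rfl

private theorem D1_true (l : LB) : D1 (true, l) =
    emb false (uo0 l) + single (false, l) ((-1 : ℝ) ^ npL l • bw [false]) - dB true l := rfl

private theorem dB_cons (b : Bool) (w : Wd) (l : LB) :
    dB b (w :: l) = single (b, l) (bw (true :: w)) - emb b (mg0 (w :: l)) := rfl

private theorem rmP_a (a : ℝ) (x : Ph) : rmP (a • bw []) x = a • x := by
  rw [rmP_smul, rmP_one]

private theorem D_emb_false (c : CL) : D (emb false c) = dl false c := by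
  induction c using Finsupp.induction_linear with
  | zero => rw [emb_zero, dzero, dl_zero]
  | add f g hf hg => rw [emb_add, dadd, dl_add, hf, hg]
  | single l a => rw [emb_single, D_single, dl_single, rmP_a, D1_false]

private theorem D_emb_true (c : CL) : D (emb true c) = emb false (uo c) + sp c - dl true c := by
  induction c using Finsupp.induction_linear with
  | zero => rw [map_zero, emb_zero, emb_zero, dzero, sp_zero, dl_zero, az, sz]
  | add f g hf hg =>
    rw [emb_add, dadd, map_add, sp_add, dl_add, emb_add, hf, hg]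
    abel
  | single l a =>
    rw [emb_single, D_single, dl_single, sp_single, uo_single, emb_smul, rmP_a, D1_true,
      ssub, sadd]

private theorem dl_cl (b : Bool) (f : R) (l : LB) :
    dl b (cl f l) = single (b, l) (app true f) - emb b (mg (cl f l)) := by
  induction f using Finsupp.induction_linear with
  | zero =>
    have h : cl (0 : R) l = 0 := by simp [cl]
    rw [h, dl_zero, map_zero, map_zero, emb_zero, sgl_zero, sz]
  | add f g hf hg =>
    rw [cl_add, dl_add, hf, hg, map_add, map_add, sgl_add, emb_add]
    abel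
  | single u a =>
    have h : (single u a : R) = a • bw u := by
      rw [bw, smul_single, smul_eq_mul, mul_one]
    rw [h, cl_smul, cl_bw, dl_smul, dl_single, sone, map_smul, map_smul, mg_single, one_smul,
      app_bw, emb_smul, dB_cons, ssub, sgl_smul]

private theorem dl_cns (b : Bool) (w : Wd) (c : CL) :
    dl b (cns w c) = rmP (bw (true :: w)) (emb b c) - emb b (mg (cns w c)) := by
  induction c using Finsupp.induction_linear with
  | zero =>
    have h : cns w 0 = 0 := map_zero _
    rw [h, dl_zero, map_zero, emb_zero, rzero, sz]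
  | add f g hf hg =>
    rw [map_add, dl_add, hf, hg, map_add, emb_add, radd, emb_add]
    abel
  | single l a =>
    rw [cns_single, dl_single, mg_single, emb_single, rmP_single, emb_smul, dB_cons, ssub,
      map_smul, LinearMap.smul_apply, nil_mu, sgl_smul]

private theorem dl_mg0 (b : Bool) (w : Wd) (l : LB) :
    dl b (mg0 (w :: l)) = rmP (bw (true :: w)) (dB b l) := by
  cases l with
  | nil =>
    have h1 : mg0 [w] = 0 := rfl
    have h2 : dB b [] = 0 := rfl
    rw [h1, h2, dl_zero, rzero]
  | cons v l =>
    have h := mg_mg0 (w :: v :: l)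
    rw [mg0_cons2, map_sub] at h
    have h' : emb b (mg (cl (bm v w) l)) = emb b (mg (cns w (mg0 (v :: l)))) := by
      rw [sub_eq_zero.1 h]
    rw [mg0_cons2, dl_sub, dl_cl, dl_cns, dB_cons, rsub, rmP_single, app_bm, h']
    abel

private theorem DD_false (l : LB) : D (dB false l) = 0 := by
  cases l with
  | nil =>
    have h2 : dB false [] = 0 := rfl
    rw [h2, dzero]
  | cons w l =>
    rw [dB_cons, dsub, D_single, D_emb_false, dl_mg0, D1_false, ss]

private theorem sp_apply (c : CL) (b : Bool) (l : LB) :
    sp c (b, l) = if b = false then (c l * (-1 : ℝ) ^ npL l) • bw [false] else 0 := by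
  induction c using Finsupp.induction_linear with
  | zero => simp
  | add f g hf hg =>
    rw [map_add, Finsupp.add_apply, hf, hg, Finsupp.add_apply]
    split_ifs
    · rw [add_mul, add_smul]
    · rw [add_zero]
  | single q a =>
    rw [sp_single, Finsupp.smul_apply]
    by_cases hb : b = false
    · subst hb
      rw [if_pos rfl]
      by_cases hq : q = l
      · subst hq
        rw [single_eq_same, single_eq_same, smul_smul]
      · rw [single_eq_of_ne' (fun h => hq (Prod.mk.inj h).2), single_eq_of_ne' hq,
          smul_zero, zero_mul, zero_smul]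
    · rw [if_neg hb, single_eq_of_ne' (fun h => hb (Prod.mk.inj h).1.symm), smul_zero]

private theorem sp_eq (c : CL) (N : ℕ) (h : ∀ q, c q ≠ 0 → npL q = N) :
    sp c = (-1 : ℝ) ^ N • rmP (bw [false]) (emb false c) := by
  refine Finsupp.ext fun i => ?_
  obtain ⟨b, l⟩ := i
  rw [sp_apply, Finsupp.smul_apply, rmP_apply, emb_apply]
  by_cases hb : b = false
  · subst hb
    rw [if_pos rfl, if_pos rfl, map_smul, LinearMap.smul_apply, nil_mu, smul_smul]
    by_cases hc : c l = 0
    · rw [hc, zero_mul, mul_zero]
    · rw [h l hc, mul_comm]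
  · rw [if_neg hb, if_neg (fun h => hb h.symm), map_zero, LinearMap.zero_apply, smul_zero]

private theorem DD_true (l : LB) : D (D1 (true, l)) = 0 := by
  cases l with
  | nil =>
    have h1 : uo0 [] = 0 := rfl
    have h2 : dB true [] = 0 := rfl
    have h3 : dB false [] = 0 := rfl
    rw [D1_true, h1, h2, emb_zero, za, sz, D_single, D1_false, h3, rzero]
  | cons w l =>
    have hs : (-1 : ℝ) ^ npL (w :: l) = -(sg w * (-1 : ℝ) ^ npL l) := by
      have h : npL (w :: l) = np w + 1 + npL l := by
        simp [npL]
      rw [h, pow_add, pow_add, sg]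
      ring
    have hsp := sp_eq (mg0 (w :: l)) (npL (w :: l)) (fun q hq => (mg0_supp _ _ hq).2.1)
    have hA : D (dB true (w :: l)) = rmP (bw (true :: w)) (D1 (true, l)) -
        (emb false (uo (mg0 (w :: l))) + (-1 : ℝ) ^ npL (w :: l) •
          rmP (bw [false]) (emb false (mg0 (w :: l))) - rmP (bw (true :: w)) (dB true l)) := by
      rw [dB_cons, dsub, D_single, D_emb_true, dl_mg0, hsp]
    have hu : uo0 (w :: l) = cns w (uo0 l) + (-1 : ℝ) ^ npL l • cl (ub w) l := rfl
    have hB : dl false (uo0 (w :: l)) = rmP (bw (true :: w)) (emb false (uo0 l)) +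
        (-1 : ℝ) ^ npL l • single (false, l) (app true (ub w)) - emb false (mg (uo0 (w :: l))) := by
      rw [hu, dl_add, dl_smul, dl_cns, dl_cl, map_add, map_smul, emb_add, emb_smul, ssub]
      abel
    rw [D1_true, dsub, dadd, D_emb_false, D_single, hA, hB, D1_false, dB_cons, D1_true,
      mg_uo0, rsub, rsub, radd, rmP_single, rmP_single, map_smul, musl, app_ub,
      rmP_smul, sgl_add, sgl_smul, sgl_smul, sgl_smul, sadd, sinv]
    have hY : ((-1 : ℝ) ^ npL l * sg w) • (single (false, l) (mu (bw (true :: w)) (bw [false])) : Ph) +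
        (-1 : ℝ) ^ npL (w :: l) • (single (false, l) (mu (bw (true :: w)) (bw [false])) : Ph) = 0 := by
      rw [← saddl, hs]
      have h0 : (-1 : ℝ) ^ npL l * sg w + -(sg w * (-1 : ℝ) ^ npL l) = 0 := by ring
      rw [h0]
      exact zero_smul ℝ _
    rw [← hY]
    abel

theorem D_D (x : Ph) : D (D x) = 0 := by
  have h1 : ∀ i, D (D1 i) = 0 := by
    rintro ⟨b, l⟩
    cases b with
    | false => rw [D1_false]; exact DD_false l
    | true => exact DD_true l
  induction x using Finsupp.induction_linear with
  | zero => rw [dzero, dzero]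
  | add f g hf hg => rw [dadd, dadd, hf, hg, az]
  | single i v => rw [D_single, D_rmP, h1, rzero]

end BrV
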