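import Pool.Agent.Lib.BrV.LCmp
import Pool.Agent.Lib.BrV.Half1

/-!
# BrV.LTail: the part with tails of small `z`-degree is acyclic (paper 3, (2.3))

For a tail `l ∈ TT m` (a list of `m` words ending in `z`) put `π_l f = act f (single ([] :: l) 1)`, `Π_l = mapRange π_l : Ph → PhL`.  `π_l f = ∑_j cb (gc_j f) (p^j l)` (`act_cb` with `g = bw []`), where `p^0 l = l` (`act_one`) and `p^j l`, `j ≥ 1`, has
`npW = npW l + j` (`act0_supp`).  `DL (Π_l x) = Π_l (D x)` (`DL_aP`).
CLAIM (descending induction on `d ≤ n + 1`): if moreover all lists `q` in `x` have `d ≤ npW q.tail`, then `x` is a boundary as stated.  For `d = n + 1`: `x = 0`.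
Step: let `A` be the finite set of the tails `l` of lists in `x` with `npW l = d`; for `l ∈ A` let `x_l : Ph`, `x_l i = ∑_u x i (u :: l) • bw u` (coefficients in `G'`); it is homogeneous of degree `(r, n - d, k - nzW l)`, `1 ≤ k - nzW l`.
(1) `gp (D x_l j) = 0` for all `j`: the coefficient of `u :: l` in `DL x j = ∑_i act (D1 i j) (x i)`: a list `u' :: l'` of `x i` contributes `∑_s cb (gc_s (D1 i j * u')) (p^s l')`; tails have `npW = npW l' + s ≥ d + s`, so the tail `l` comes only from `s = 0`, `l' = l`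
(`p^0 l' = l'`), and the contribution is `gc_0 (D1 i j * u') u = gp (..) u`.  Sum: `gp (∑_i D1 i j * x_l i) u = gp (D x_l j) u`, and it is `0` as `DL x = 0`.  (If `u` ends in `p` then `gp (..) u = 0` anyway.)
So `D x_l j ∈ F 1` (`gp_eq_zero`).
(2) `Ac_top_F1 (k - nzW l)`: `x_l = D y_l + z_l`, `z_l` with coefficients in `F 1`, `y_l` homogeneous.
(3) `x' = x - DL (∑_{l ∈ A} Π_l y_l)` is homogeneous, in `YY (m+1)` (`act_YY`), a cycle, tails of `z`-degree `< k`, and all its tails have `npW ≥ d + 1`: the coefficient of `u :: l`, `npW l = d`, in `Π_l (D y_l) = Π_l (x_l - z_l)` is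
`gp (x_l i - z_l i) u = x_l i u = x i (u :: l)` (`gp_of_mem`, `gp_eq_zero`), and the `Π_(l')` with `l' ≠ l` in `A` do not contribute.  Apply the claim for `d + 1`.
-/

namespace BrV

open Finsupp

private theorem lt_inj (l : LW) : Function.Injective (fun u : Wd => u :: l) := by
  intro a b h
  exact (List.cons.inj h).1

/-- coefficients of the lists with tail `l` -/
private noncomputable def pj (l : LW) : CW →ₗ[ℝ] R :=
  lcomapDomain (fun u : Wd => u :: l) (lt_inj l)

private theorem pj_apply (l : LW) (y : CW) (u : Wd) : pj l y u = y (u :: l) := rfl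

private theorem pj_single (l l' : LW) (u : Wd) :
    pj l (single (u :: l') 1) = if l' = l then bw u else 0 := by
  ext v
  rw [pj_apply]
  split_ifs with h
  · subst h
    unfold bw
    by_cases hv : v = u
    · subst hv
      rw [Finsupp.single_eq_same, Finsupp.single_eq_same]
    · rw [Finsupp.single_eq_of_ne hv, Finsupp.single_eq_of_ne]
      intro h2
      exact hv (List.cons.inj h2).1
  · rw [Finsupp.zero_apply, Finsupp.single_eq_of_ne]
    intro h2
    exact h (List.cons.inj h2).2.symm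

private theorem lt_gc0 (f : R) : gc 0 f = gp f := by
  unfold gc
  rw [pow_zero]
  rfl

private theorem lt_mem (m : ℕ) (y : CW) : y ∈ YY m ↔ ∀ q, y q ≠ 0 →
    q.length = m ∧ (∀ w ∈ q, w = [] ∨ Zw w) ∧ ∀ w ∈ q.tail, Zw w := by
  unfold YY
  rw [Finsupp.mem_supported]
  constructor
  · intro h q hq
    exact h (Finset.mem_coe.2 (Finsupp.mem_support_iff.2 hq))
  · intro h q hq
    exact h q (Finsupp.mem_support_iff.1 (Finset.mem_coe.1 hq))

private theorem lt_single (m : ℕ) (l : LW) (h1 : l.length = m) (h2 : ∀ w ∈ l, Zw w) :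
    (single l 1 : CW) ∈ YY m := by
  rw [lt_mem]
  intro q hq
  have hql : q = l := by
    by_contra hne
    exact hq (Finsupp.single_eq_of_ne hne)
  subst hql
  exact ⟨h1, fun w hw => Or.inr (h2 w hw), fun w hw => h2 w (List.mem_of_mem_tail hw)⟩

private theorem lt_single' (m : ℕ) (l : LW) (h1 : l.length = m) (h2 : ∀ w ∈ l, Zw w) :
    (single ([] :: l) 1 : CW) ∈ YY (m + 1) := by
  rw [lt_mem]
  intro q hq
  have hql : q = [] :: l := by
    by_contra hne
    exact hq (Finsupp.single_eq_of_ne hne)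
  subst hql
  refine ⟨by rw [List.length_cons, h1], ?_, ?_⟩
  · intro w hw
    rcases List.mem_cons.1 hw with h3 | h3
    · exact Or.inl h3
    · exact Or.inr (h2 w h3)
  · intro w hw
    exact h2 w hw

private theorem npW_cons (u : Wd) (l : LW) : npW (u :: l) = np u + npW l := by
  simp [npW]

private theorem nzW_cons (u : Wd) (l : LW) : nzW (u :: l) = nz u + nzW l := by
  simp [nzW]

private theorem lt_np_pw (j : ℕ) : np (pw j) = j := by
  simp [np, pw]

private theorem pj_act1 (m d : ℕ) (f : R) (l l' : LW) (hl : npW l = d) (u' : Wd)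
    (h1 : l'.length = m) (h2 : ∀ w ∈ l', Zw w) (h3 : d ≤ npW l') :
    pj l (act f (single (u' :: l') 1)) = gp (mu f (pj l (single (u' :: l') 1))) := by
  obtain ⟨N, hN⟩ := gc_bound (mu f (bw u'))
  have e1 : act f (single (u' :: l') 1) = ∑ j ∈ Finset.range (N + 1),
      cb (gc j (mu f (bw u'))) (act (bw (pw j)) (single l' 1)) := by
    have e2 : (single (u' :: l') 1 : CW) = cb (bw u') (single l' 1) := by
      rw [cb_bw, cns_single]
    rw [e2]
    exact act_cb f (bw u') (single l' 1) (N + 1) (fun j hj => hN j (by omega))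
  rw [e1, pj_single]
  ext u
  rw [pj_apply, Finsupp.finsetSum_apply]
  simp only [cb_apply]
  rw [Finset.sum_eq_single 0]
  · have e3 : act (bw (pw 0)) (single l' 1) = (single l' 1 : CW) :=
      act_one m _ (lt_single m l' h1 h2)
    rw [e3, lt_gc0]
    split_ifs with h4
    · subst h4
      rw [Finsupp.single_eq_same, mul_one]
    · rw [Finsupp.single_eq_of_ne (fun h5 => h4 h5.symm), mul_zero, map_zero, map_zero,
        Finsupp.zero_apply]
  · intro j _ hj
    have e4 : (act (bw (pw j)) (single l' 1)) l = 0 := by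
      rw [act_single]
      by_contra hne
      have h5 := (act0_supp l' (pw j) l hne).2.1
      rw [lt_np_pw] at h5
      omega
    rw [e4, mul_zero]
  · intro h5
    exact absurd (Finset.mem_range.2 (Nat.succ_pos N)) h5

private theorem pj_act (m d : ℕ) (f : R) (l : LW) (hl : npW l = d) (y : CW)
    (hy : ∀ q, y q ≠ 0 → q.length = m + 1 ∧ (∀ w ∈ q.tail, Zw w) ∧ d ≤ npW q.tail) :
    pj l (act f y) = gp (mu f (pj l y)) := by
  have e1 : y = ∑ q ∈ y.support, y q • (single q 1 : CW) := by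
    conv_lhs => rw [← Finsupp.sum_single y]
    unfold Finsupp.sum
    refine Finset.sum_congr rfl fun q _ => ?_
    rw [Finsupp.smul_single, smul_eq_mul, mul_one]
  have e2 : ∀ q ∈ y.support, pj l (act f (y q • (single q 1 : CW))) =
      gp (mu f (pj l (y q • (single q 1 : CW)))) := by
    intro q hq
    obtain ⟨h1, h2, h3⟩ := hy q (Finsupp.mem_support_iff.1 hq)
    cases q with
    | nil => simp at h1
    | cons u' l' =>
      rw [map_smul, map_smul, map_smul, map_smul, map_smul,
        pj_act1 m d f l l' hl u' (by simpa using h1) h2 h3]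
  rw [e1, map_sum, map_sum, map_sum, map_sum, map_sum]
  exact Finset.sum_congr rfl e2

/-- the map `Π_l` -/
private noncomputable def Pil (l : LW) : Ph →ₗ[ℝ] PhL :=
  Finsupp.mapRange.linearMap (act.flip (single ([] :: l) 1))

private theorem Pil_apply (l : LW) (g : Ph) (i : Ix) :
    Pil l g i = act (g i) (single ([] :: l) 1) := rfl

private theorem DL_Pil (l : LW) (g : Ph) : DL (Pil l g) = Pil l (D g) := DL_aP _ g

private theorem Pil_supp (l : LW) (g : Ph) (i : Ix) (q : LW) (h : Pil l g i q ≠ 0) :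
    ∃ v, g i v ≠ 0 ∧ npW q = np v + npW l ∧ nzW q = nz v + nzW l ∧ nzW q.tail = nzW l ∧
      npW l ≤ npW q.tail := by
  rw [Pil_apply] at h
  obtain ⟨v, l0, h1, h2, h3⟩ := act_supp _ _ _ h
  have h4 : l0 = [] :: l := by
    by_contra hne
    exact h2 (Finsupp.single_eq_of_ne hne)
  subst h4
  obtain ⟨_, h5, h6, h7, h8⟩ := act0_supp _ _ _ h3
  rw [npW_cons] at h5
  rw [nzW_cons] at h6
  have e1 : np [] = 0 := rfl
  have e2 : nz [] = 0 := rfl
  rw [List.tail_cons] at h7 h8
  exact ⟨v, h1, by omega, by omega, h7, h8⟩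

private theorem pj_Pil (m d : ℕ) (l l' : LW) (hl : npW l = d) (h1 : l'.length = m)
    (h2 : ∀ w ∈ l', Zw w) (h3 : d ≤ npW l') (g : Ph) (i : Ix) :
    pj l (Pil l' g i) = if l' = l then gp (g i) else 0 := by
  rw [Pil_apply, pj_act1 m d (g i) l l' hl [] h1 h2 h3, pj_single]
  split_ifs
  · rw [mu_one]
  · rw [map_zero, map_zero]

/-- the properties kept in the induction -/
private def Gd (m r n k d : ℕ) (x : PhL) : Prop :=
  IsHL r n k x ∧ (∀ i, x i ∈ YY (m + 1)) ∧ ∀ i q, x i q ≠ 0 → nzW q.tail < k ∧ d ≤ npW q.tail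

private theorem Gd_zero (m r n k d : ℕ) : Gd m r n k d 0 := by
  refine ⟨fun i q h => absurd rfl h, fun i => Submodule.zero_mem _, fun i q h => absurd rfl h⟩

private theorem Gd_add (m r n k d : ℕ) (x y : PhL) (hx : Gd m r n k d x) (hy : Gd m r n k d y) :
    Gd m r n k d (x + y) := by
  refine ⟨IsHL_add r n k x y hx.1 hy.1, fun i => ?_, fun i q h => ?_⟩
  · rw [Finsupp.add_apply]
    exact Submodule.add_mem _ (hx.2.1 i) (hy.2.1 i)
  · rw [Finsupp.add_apply, Finsupp.add_apply] at h
    by_cases h1 : x i q = 0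
    · rw [h1, zero_add] at h
      exact hy.2.2 i q h
    · exact hx.2.2 i q h1

private theorem Gd_sub (m r n k d : ℕ) (x y : PhL) (hx : Gd m r n k d x) (hy : Gd m r n k d y) :
    Gd m r n k d (x - y) := by
  refine ⟨IsHL_sub r n k x y hx.1 hy.1, fun i => ?_, fun i q h => ?_⟩
  · rw [Finsupp.sub_apply]
    exact Submodule.sub_mem _ (hx.2.1 i) (hy.2.1 i)
  · rw [Finsupp.sub_apply, Finsupp.sub_apply] at h
    by_cases h1 : x i q = 0
    · rw [h1, zero_sub, neg_ne_zero] at h
      exact hy.2.2 i q h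
    · exact hx.2.2 i q h1

private theorem Gd_sum (m r n k d : ℕ) (A : Finset LW) (f : LW → PhL)
    (h : ∀ l ∈ A, Gd m r n k d (f l)) : Gd m r n k d (∑ l ∈ A, f l) :=
  Finset.sum_induction f (Gd m r n k d) (fun a b => Gd_add m r n k d a b) (Gd_zero m r n k d) h

private theorem Gd_Pil (m r a b n k d : ℕ) (l : LW) (g : Ph) (hg : IsHP r a b g)
    (h1 : l.length = m) (h2 : ∀ w ∈ l, Zw w) (hn : a + npW l = n) (hk : b + nzW l = k)
    (hb : 1 ≤ b) (hd : d ≤ npW l) : Gd m r n k d (Pil l g) := by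
  refine ⟨?_, ?_, ?_⟩
  · intro i q h
    obtain ⟨v, h3, h4, h5, _, _⟩ := Pil_supp l g i q h
    obtain ⟨h6, h7, h8⟩ := hg i v h3
    exact ⟨h6, by omega, by omega⟩
  · intro i
    rw [Pil_apply]
    exact act_YY _ _ _ (lt_single' m l h1 h2)
  · intro i q h
    obtain ⟨v, _, _, _, h5, h6⟩ := Pil_supp l g i q h
    exact ⟨by omega, by omega⟩

private theorem lt_gp_sum (s : Finset Ix) (f : Ix → R) :
    gp (∑ i ∈ s, f i) = ∑ i ∈ s, gp (f i) := map_sum gp f s

/-- the coefficient chain of a tail of lowest degree -/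
private theorem lt_cyc (m r n k d : ℕ) (x : PhL) (hx : Gd m r n k d x) (hd : DL x = 0) (l : LW)
    (hl : npW l = d) (j : Ix) :
    gp (D (Finsupp.mapRange.linearMap (pj l) x) j) = 0 := by
  have e1 : D (Finsupp.mapRange.linearMap (pj l) x) j =
      x.sum fun i y => mu (D1 i j) (pj l y) := by
    rw [D_apply, Finsupp.mapRange.linearMap_apply, Finsupp.sum_mapRange_index]
    intro i
    exact map_zero _
  have e2 : pj l (DL x j) = 0 := by
    rw [hd, Finsupp.zero_apply, map_zero]
  rw [DL_apply] at e2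
  unfold Finsupp.sum at e1 e2
  rw [map_sum] at e2
  rw [e1, lt_gp_sum, ← e2]
  refine Finset.sum_congr rfl fun i _ => ?_
  symm
  refine pj_act m d (D1 i j) l hl (x i) fun q hq => ?_
  obtain ⟨h1, _, h3⟩ := (lt_mem _ _).1 (hx.2.1 i) q hq
  exact ⟨h1, h3, (hx.2.2 i q hq).2⟩

private theorem lt_step (m r n k d : ℕ) (x : PhL) (hx : Gd m r n k d x) (hd : DL x = 0) :
    ∃ y x' : PhL, Gd m (r + 1) n k 0 y ∧ Gd m r n k (d + 1) x' ∧ x' = x - DL y := by
  classical
  set A : Finset LW := (x.support.biUnion fun i => (x i).support.image List.tail).filter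
    fun l => npW l = d with hA
  have hmemA : ∀ l, l ∈ A → ∃ i q, x i q ≠ 0 ∧ q.tail = l ∧ npW l = d := by
    intro l hl
    rw [hA, Finset.mem_filter, Finset.mem_biUnion] at hl
    obtain ⟨⟨i, _, h2⟩, h3⟩ := hl
    obtain ⟨q, h4, h5⟩ := Finset.mem_image.1 h2
    exact ⟨i, q, Finsupp.mem_support_iff.1 h4, h5, h3⟩
  have hAmem : ∀ l u i, npW l = d → x i (u :: l) ≠ 0 → l ∈ A := by
    intro l u i hl hne
    rw [hA, Finset.mem_filter, Finset.mem_biUnion]
    refine ⟨⟨i, ?_, ?_⟩, hl⟩
    · rw [Finsupp.mem_support_iff]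
      intro h0
      exact hne (by rw [h0, Finsupp.zero_apply])
    · exact Finset.mem_image.2 ⟨u :: l, Finsupp.mem_support_iff.2 hne, rfl⟩
  have hprop : ∀ l ∈ A, l.length = m ∧ (∀ w ∈ l, Zw w) ∧ npW l = d ∧ nzW l < k ∧ d ≤ n := by
    intro l hl
    obtain ⟨i, q, h1, h2, h3⟩ := hmemA l hl
    obtain ⟨h4, _, h6⟩ := (lt_mem _ _).1 (hx.2.1 i) q h1
    have h7 := hx.2.2 i q h1
    have h8 := (hx.1 i q h1).2.1
    rw [h2] at h6 h7
    cases q with
    | nil => simp at h4
    | cons u q =>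
      rw [List.tail_cons] at h2
      subst h2
      rw [npW_cons] at h8
      refine ⟨by simpa using h4, h6, h3, h7.1, by omega⟩
  have hex : ∀ l, ∃ y z : Ph, l ∈ A → IsHP (r + 1) (n - d) (k - nzW l) y ∧ (∀ i, z i ∈ F 1) ∧
      Finsupp.mapRange.linearMap (pj l) x = D y + z := by
    intro l
    by_cases hl : l ∈ A
    · obtain ⟨h1, h2, h3, h4, h5⟩ := hprop l hl
      have hH : IsHP r (n - d) (k - nzW l) (Finsupp.mapRange.linearMap (pj l) x) := by
        intro i u hu
        have h6 : x i (u :: l) ≠ 0 := hu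
        obtain ⟨h7, h8, h9⟩ := hx.1 i _ h6
        rw [npW_cons] at h8
        rw [nzW_cons] at h9
        exact ⟨h7, by omega, by omega⟩
      obtain ⟨y, z, a1, _, _, a4, a5⟩ := Ac_top_F1 (k - nzW l) (by omega) r (n - d)
        (Finsupp.mapRange.linearMap (pj l) x) hH (fun i => Submodule.mem_top)
        (fun j => (gp_eq_zero _).1 (lt_cyc m r n k d x hx hd l h3 j))
      exact ⟨y, z, fun _ => ⟨a1, a4, a5⟩⟩
    · exact ⟨0, 0, fun h => absurd h hl⟩
  choose Y Z hYZ using hex
  have hDL : DL (∑ l ∈ A, Pil l (Y l)) = ∑ l ∈ A, Pil l (D (Y l)) := by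
    rw [map_sum]
    exact Finset.sum_congr rfl fun l _ => DL_Pil l (Y l)
  have hG1 : ∀ l ∈ A, Gd m (r + 1) n k 0 (Pil l (Y l)) := by
    intro l hl
    obtain ⟨h1, h2, h3, h4, h5⟩ := hprop l hl
    exact Gd_Pil m (r + 1) (n - d) (k - nzW l) n k 0 l _ (hYZ l hl).1 h1 h2 (by omega) (by omega)
      (by omega) (Nat.zero_le _)
  have hG2 : ∀ l ∈ A, Gd m r n k d (Pil l (D (Y l))) := by
    intro l hl
    obtain ⟨h1, h2, h3, h4, h5⟩ := hprop l hl
    exact Gd_Pil m r (n - d) (k - nzW l) n k d l _ (IsHP_D _ _ _ _ (hYZ l hl).1) h1 h2 (by omega)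
      (by omega) (by omega) (by omega)
  have hx' : Gd m r n k d (x - ∑ l ∈ A, Pil l (D (Y l))) :=
    Gd_sub m r n k d x _ hx (Gd_sum m r n k d A _ hG2)
  refine ⟨∑ l ∈ A, Pil l (Y l), x - ∑ l ∈ A, Pil l (D (Y l)), Gd_sum m (r + 1) n k 0 A _ hG1,
    ⟨hx'.1, hx'.2.1, fun i q hq => ⟨(hx'.2.2 i q hq).1, ?_⟩⟩, by rw [hDL]⟩
  have h1 := (hx'.2.2 i q hq).2
  by_contra hlt
  have h2 : npW q.tail = d := by omega
  apply hq
  cases q with
  | nil =>
    by_contra hne
    have h3 := ((lt_mem _ _).1 (hx'.2.1 i) [] hne).1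
    simp at h3
  | cons u l =>
    rw [List.tail_cons] at h2
    have h3 : pj l ((x - ∑ l ∈ A, Pil l (D (Y l))) i) = 0 := by
      rw [Finsupp.sub_apply, Finsupp.finsetSum_apply, map_sub, map_sum]
      have h4 : ∀ l' ∈ A, pj l (Pil l' (D (Y l')) i) = if l' = l then gp (D (Y l') i) else 0 := by
        intro l' hl'
        obtain ⟨b1, b2, b3, _, _⟩ := hprop l' hl'
        exact pj_Pil m d l l' h2 b1 b2 (by omega) _ i
      rw [Finset.sum_congr rfl h4, Finset.sum_ite_eq']
      split_ifs with hl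
      · have h5 := (hYZ l hl).2.2
        have h6 : pj l (x i) = D (Y l) i + Z l i := by
          have h7 := DFunLike.congr_fun h5 i
          exact h7
        have h8 : gp (Z l i) = 0 := (gp_eq_zero _).2 ((hYZ l hl).2.1 i)
        have h9 : gp (pj l (x i)) = pj l (x i) := by
          refine gp_of_mem _ ?_
          unfold G'
          rw [LinearMap.mem_ker]
          ext w
          rw [del_apply, pj_apply, Finsupp.zero_apply]
          by_contra hne
          have h10 := ((lt_mem _ _).1 (hx.2.1 i) _ hne).2.1 (true :: w) List.mem_cons_self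
          rcases h10 with h10 | h10
          · exact List.cons_ne_nil _ _ h10
          · simp [Zw] at h10
        have h11 : gp (D (Y l) i) = pj l (x i) := by
          have h12 : gp (pj l (x i)) = gp (D (Y l) i) + gp (Z l i) := by rw [h6, map_add]
          rw [h8, add_zero, h9] at h12
          exact h12.symm
        rw [h11, sub_self]
      · rw [sub_zero]
        ext v
        rw [pj_apply, Finsupp.zero_apply]
        by_contra hne
        exact hl (hAmem l v i h2 hne)
    have h13 := DFunLike.congr_fun h3 u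
    rw [pj_apply] at h13
    exact h13

private theorem lt_ind (m r n k t : ℕ) : ∀ (d : ℕ) (x : PhL), n + 1 = d + t → Gd m r n k d x →
    DL x = 0 → ∃ y : PhL, Gd m (r + 1) n k 0 y ∧ DL y = x := by
  induction t with
  | zero =>
    intro d x hd hx _
    refine ⟨0, Gd_zero _ _ _ _ _, ?_⟩
    rw [map_zero]
    symm
    ext i q
    by_contra hne
    have hne' : x i q ≠ 0 := hne
    have h1 := (hx.2.2 i q hne').2
    have h2 := (hx.1 i q hne').2.1
    have h3 : npW q.tail ≤ npW q := by
      cases q with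
      | nil => exact le_refl _
      | cons u q =>
        rw [npW_cons, List.tail_cons]
        exact Nat.le_add_left _ _
    omega
  | succ t ih =>
    intro d x hd hx hD
    obtain ⟨y, x', h1, h2, h3⟩ := lt_step m r n k d x hx hD
    have e1 : DL x' = 0 := by
      rw [h3]
      refine (map_sub DL x (DL y)).trans ?_
      rw [hD, DL_DL]
      exact sub_zero (0 : PhL)
    obtain ⟨y', h4, h5⟩ := ih (d + 1) x' (by omega) h2 e1
    refine ⟨y' + y, Gd_add _ _ _ _ _ _ _ h4 h1, ?_⟩
    rw [map_add, h5, h3]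
    exact sub_add_cancel x (DL y)

theorem tail_ac (m r n k : ℕ) (x : PhL) (hx : IsHL r n k x) (hY : ∀ i, x i ∈ YY (m + 1))
    (ht : ∀ i q, x i q ≠ 0 → nzW q.tail < k) (hd : DL x = 0) :
    ∃ y : PhL, IsHL (r + 1) n k y ∧ (∀ i, y i ∈ YY (m + 1)) ∧
      (∀ i q, y i q ≠ 0 → nzW q.tail < k) ∧ DL y = x := by
  have hG : Gd m r n k 0 x := ⟨hx, hY, fun i q h => ⟨ht i q h, Nat.zero_le _⟩⟩
  obtain ⟨y, h1, h2⟩ := lt_ind m r n k (n + 1) 0 x (by omega) hG hd
  exact ⟨y, h1.1, h1.2.1, fun i q h => (h1.2.2 i q h).1, h2⟩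

end BrV
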