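import Pool.Agent.Lib.BrV.DT
import Pool.Agent.Lib.BrV.LTail

/-!
# BrV.DLow: the part with small tails is acyclic relative to `Φ0` (paper 4, section 7)

Claim for all `N`: the statement for `x` with `x i q ≠ 0 → q.length ≤ N`.  `N = 0`: `y = 0` (`IsE x`).  `N + 1`: let `x₁` be the part of `x` with `q.length = N + 1` (`Finsupp.mapRange` of the filter).  The part of `dt x` with `q.length = N + 1` is `DL x₁` (`act_supp`, `act0_supp`: `DL` preserves
the length; `BZ` lowers it by one), and it is `0` because `IsE (dt x)`.  `IsHL (t - (N+1)) n k x₁` (`rI i + (N + 1) = t`; if `x₁ ≠ 0` then `t ≥ N + 1`), `∀ i, x₁ i ∈ YY (N + 1)`, tails `< k`: `tail_ac N (t - (N+1)) n k x₁` gives `y₁` with `DL y₁ = x₁`; `IsD (t+1) n k y₁`, `IsA k y₁`.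
`x - dt y₁` is supported on lists of length `≤ N` (`x - x₁` and `SG (BZ y₁)`), `IsD t n k` (`IsD_dt`), `IsA k` (`IsA_dt`), and `dt (x - dt y₁) = dt x` (`dt_dt`).  Induction: `y = y₁ + y₂`.
-/

namespace BrV

open Finsupp

/-- the lists of length `m` -/
private noncomputable def dlow_P (m : ℕ) : CW →ₗ[ℝ] CW where
  toFun y := y.filter fun q => q.length = m
  map_add' _ _ := Finsupp.filter_add
  map_smul' _ _ := Finsupp.filter_smul

private theorem dlow_P_apply (m : ℕ) (y : CW) (q : LW) :
    dlow_P m y q = if q.length = m then y q else 0 :=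
  Finsupp.filter_apply _ _ _

private theorem dlow_P_act (m : ℕ) (f : R) (y : CW) :
    act f (dlow_P m y) = dlow_P m (act f y) := by
  ext q
  rw [dlow_P_apply]
  have key : ∀ z : CW, (∀ l, z l ≠ 0 → l.length ≠ q.length) → act f z q = 0 := by
    intro z hz
    by_contra h
    obtain ⟨v, l, -, hl, h0⟩ := act_supp f z q h
    exact hz l hl (act0_supp l v q h0).1.symm
  split_ifs with hq
  · have h1 : act f (y - dlow_P m y) q = 0 := by
      refine key _ fun l hl h2 => hl ?_
      rw [Finsupp.sub_apply, dlow_P_apply, if_pos (h2.trans hq), sub_self]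
    rw [map_sub, Finsupp.sub_apply, sub_eq_zero] at h1
    exact h1.symm
  · refine key _ fun l hl h2 => hl ?_
    rw [dlow_P_apply, if_neg]
    intro h3
    exact hq (h2.symm.trans h3)

/-- the lists of length `m` in the coefficients -/
private noncomputable def dlow_Q (m : ℕ) : PhL →ₗ[ℝ] PhL :=
  Finsupp.mapRange.linearMap (dlow_P m)

private theorem dlow_Q_apply (m : ℕ) (x : PhL) (i : Ix) (q : LW) :
    dlow_Q m x i q = if q.length = m then x i q else 0 := by
  unfold dlow_Q
  rw [Finsupp.mapRange.linearMap_apply, Finsupp.mapRange_apply, dlow_P_apply]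

private theorem dlow_Q_DL (m : ℕ) (x : PhL) : DL (dlow_Q m x) = dlow_Q m (DL x) := by
  ext1 j
  have e1 : dlow_Q m (DL x) j = dlow_P m (DL x j) := by
    unfold dlow_Q
    rw [Finsupp.mapRange.linearMap_apply, Finsupp.mapRange_apply]
  have e2 : DL (dlow_Q m x) j = x.sum fun i y => act (D1 i j) (dlow_P m y) := by
    rw [DL_apply]
    unfold dlow_Q
    rw [Finsupp.mapRange.linearMap_apply, Finsupp.sum_mapRange_index]
    intro i
    exact map_zero _
  rw [e1, e2, DL_apply]
  unfold Finsupp.sum
  rw [map_sum]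
  exact Finset.sum_congr rfl fun i _ => dlow_P_act m (D1 i j) (x i)

private theorem dlow_bz_supp (y : CW) (q : LW) (h : bz y q ≠ 0) :
    ∃ q', y q' ≠ 0 ∧ bz (single q' 1) q ≠ 0 := by
  have e1 : bz y = ∑ l ∈ y.support, y l • bz (single l 1) := by
    have e2 : y = ∑ l ∈ y.support, y l • (single l 1 : CW) := by
      conv_lhs => rw [← Finsupp.sum_single y]
      unfold Finsupp.sum
      refine Finset.sum_congr rfl fun l _ => ?_
      rw [Finsupp.smul_single, smul_eq_mul, mul_one]
    conv_lhs => rw [e2]
    rw [map_sum]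
    exact Finset.sum_congr rfl fun l _ => map_smul _ _ _
  rw [e1, Finsupp.finsetSum_apply] at h
  obtain ⟨l, -, hl⟩ := Finset.exists_ne_zero_of_sum_ne_zero h
  rw [Finsupp.smul_apply, smul_eq_mul] at hl
  exact ⟨l, left_ne_zero_of_mul hl, right_ne_zero_of_mul hl⟩

/-- `bz` lowers the length by one -/
private theorem dlow_bz_len (y : CW) (q : LW) (h : bz y q ≠ 0)
    (hy : ∀ q', y q' ≠ 0 → (∀ w ∈ q', w = [] ∨ Zw w) ∧ ∀ w ∈ q'.tail, Zw w) :
    ∃ q', y q' ≠ 0 ∧ q'.length = q.length + 1 := by
  obtain ⟨q', h1, h2⟩ := dlow_bz_supp y q h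
  refine ⟨q', h1, ?_⟩
  cases hq' : q' with
  | nil =>
    exfalso
    apply h2
    rw [hq']
    have e : bz (single [] 1 : CW) = 0 := by
      simp [bz, bz0]
    rw [e, Finsupp.zero_apply]
  | cons w l =>
    have hm : (single q' 1 : CW) ∈ YY (l.length + 1) := by
      unfold YY
      rw [Finsupp.mem_supported']
      intro q'' hq''
      rw [Finsupp.single_apply, if_neg]
      intro he
      apply hq''
      rw [← he]
      exact ⟨by rw [hq', List.length_cons], hy q' h1⟩
    have h3 := bz_YY l.length _ hm
    unfold YY at h3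
    rw [Finsupp.mem_supported'] at h3
    have h4 : q.length = l.length := by
      by_contra hne
      exact h2 (h3 q fun h5 => hne h5.1)
    rw [List.length_cons, h4]

private theorem dlow_SG_BZ (y : PhL) (i : Ix) (q : LW) (h : SG (BZ y) i q ≠ 0) :
    bz (y i) q ≠ 0 := by
  rw [SG_apply, Finsupp.smul_apply, smul_eq_mul] at h
  have h1 := right_ne_zero_of_mul h
  unfold BZ at h1
  rw [Finsupp.mapRange.linearMap_apply, Finsupp.mapRange_apply] at h1
  exact h1

private theorem dlow_IsD_sub (t n k : ℕ) (x y : PhL) (hx : IsD t n k x) (hy : IsD t n k y) :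
    IsD t n k (x - y) := by
  intro i q h
  rw [Finsupp.sub_apply, Finsupp.sub_apply] at h
  by_cases h1 : x i q = 0
  · rw [h1, zero_sub, neg_ne_zero] at h
    exact hy i q h
  · exact hx i q h1

private theorem dlow_IsD_add (t n k : ℕ) (x y : PhL) (hx : IsD t n k x) (hy : IsD t n k y) :
    IsD t n k (x + y) := by
  intro i q h
  rw [Finsupp.add_apply, Finsupp.add_apply] at h
  by_cases h1 : x i q = 0
  · rw [h1, zero_add] at h
    exact hy i q h
  · exact hx i q h1

private theorem dlow_IsA_sub (k : ℕ) (x y : PhL) (hx : IsA k x) (hy : IsA k y) :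
    IsA k (x - y) := by
  intro i q h
  rw [Finsupp.sub_apply, Finsupp.sub_apply] at h
  by_cases h1 : x i q = 0
  · rw [h1, zero_sub, neg_ne_zero] at h
    exact hy i q h
  · exact hx i q h1

private theorem dlow_IsA_add (k : ℕ) (x y : PhL) (hx : IsA k x) (hy : IsA k y) :
    IsA k (x + y) := by
  intro i q h
  rw [Finsupp.add_apply, Finsupp.add_apply] at h
  by_cases h1 : x i q = 0
  · rw [h1, zero_add] at h
    exact hy i q h
  · exact hx i q h1

private theorem dlow_ind (t n k : ℕ) : ∀ (N : ℕ) (x : PhL),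
    (∀ i q, x i q ≠ 0 → q.length ≤ N) → IsD t n k x → IsA k x → IsE (dt x) →
    ∃ y, IsD (t + 1) n k y ∧ IsA k y ∧ IsE (x - dt y) := by
  intro N
  induction N with
  | zero =>
    intro x hN _ _ _
    refine ⟨0, fun i q h => absurd rfl h, fun i q h => absurd rfl h, ?_⟩
    have e0 : x - dt 0 = x := by
      rw [map_zero]
      exact sub_zero x
    rw [e0]
    intro i q h
    exact List.length_eq_zero_iff.1 (Nat.le_zero.1 (hN i q h))
  | succ N ih =>
    intro x hN hx hA hE
    by_cases htN : N + 1 ≤ t
    · set x₁ : PhL := dlow_Q (N + 1) x with hx₁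
      have hx₁' : ∀ i q, x₁ i q ≠ 0 → x i q ≠ 0 ∧ q.length = N + 1 := by
        intro i q h
        rw [hx₁, dlow_Q_apply] at h
        by_cases h1 : q.length = N + 1
        · rw [if_pos h1] at h
          exact ⟨h, h1⟩
        · rw [if_neg h1] at h
          exact absurd rfl h
      have hD : DL x₁ = 0 := by
        rw [hx₁, dlow_Q_DL]
        ext j q
        rw [dlow_Q_apply]
        split_ifs with h1
        · by_contra h2
          have h2' : DL x j q ≠ 0 := h2
          have h3 : SG (BZ x) j q = 0 := by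
            by_contra h4
            obtain ⟨q', h5, h6⟩ := dlow_bz_len (x j) q (dlow_SG_BZ x j q h4)
              (fun q' hq' => (hx j q' hq').2.2.2)
            have h7 := hN j q' h5
            omega
          have h4 : dt x j q ≠ 0 := by
            unfold dt
            rw [LinearMap.add_apply, LinearMap.comp_apply, Finsupp.add_apply, Finsupp.add_apply, h3,
              add_zero]
            exact h2'
          have h5 := hE j q h4
          rw [h5] at h1
          exact absurd h1 (by simp)
        · rfl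
      have hH : IsHL (t - (N + 1)) n k x₁ := by
        intro i q h
        obtain ⟨h1, h2⟩ := hx₁' i q h
        obtain ⟨h3, h4, h5, _⟩ := hx i q h1
        exact ⟨by omega, h4, h5⟩
      have hY : ∀ i, x₁ i ∈ YY (N + 1) := by
        intro i
        unfold YY
        rw [Finsupp.mem_supported']
        intro q hq
        by_contra h
        obtain ⟨h1, h2⟩ := hx₁' i q h
        exact hq ⟨h2, (hx i q h1).2.2.2⟩
      obtain ⟨y₁, a1, a2, a3, a4⟩ := tail_ac N (t - (N + 1)) n k x₁ hH hY
        (fun i q h => hA i q (hx₁' i q h).1) hD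
      have hmem : ∀ i q, y₁ i q ≠ 0 → q.length = N + 1 ∧ (∀ w ∈ q, w = [] ∨ Zw w) ∧
          ∀ w ∈ q.tail, Zw w := by
        intro i q h
        have h1 := a2 i
        unfold YY at h1
        rw [Finsupp.mem_supported'] at h1
        by_contra h2
        exact h (h1 q h2)
      have b1 : IsD (t + 1) n k y₁ := by
        intro i q h
        obtain ⟨h1, h2, h3⟩ := a1 i q h
        obtain ⟨h4, h5⟩ := hmem i q h
        exact ⟨by omega, h2, h3, h5⟩
      have b2 : IsA k y₁ := a3
      have c1 : ∀ i q, (x - dt y₁) i q ≠ 0 → q.length ≤ N := by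
        intro i q h
        by_contra hlt
        apply h
        have e1 : SG (BZ y₁) i q = 0 := by
          by_contra h4
          obtain ⟨q', h5, h6⟩ := dlow_bz_len (y₁ i) q (dlow_SG_BZ y₁ i q h4)
            (fun q' hq' => (hmem i q' hq').2)
          have h7 := (hmem i q' h5).1
          omega
        have e2 : dt y₁ i q = x₁ i q := by
          unfold dt
          rw [LinearMap.add_apply, LinearMap.comp_apply, Finsupp.add_apply, Finsupp.add_apply, e1,
            add_zero, a4]
        rw [Finsupp.sub_apply, Finsupp.sub_apply, e2, hx₁, dlow_Q_apply]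
        by_cases h1 : q.length = N + 1
        · rw [if_pos h1, sub_self]
        · rw [if_neg h1, sub_zero]
          by_contra h2
          have h3 := hN i q h2
          omega
      have c2 : dt (x - dt y₁) = dt x := by
        refine (map_sub dt x (dt y₁)).trans ?_
        rw [dt_dt]
        exact sub_zero (dt x)
      obtain ⟨y₂, d1, d2, d3⟩ := ih (x - dt y₁) c1
        (dlow_IsD_sub t n k _ _ hx (IsD_dt t n k y₁ b1))
        (dlow_IsA_sub k _ _ hA (IsA_dt k y₁ b2)) (by rw [c2]; exact hE)
      refine ⟨y₁ + y₂, dlow_IsD_add _ _ _ _ _ b1 d1, dlow_IsA_add _ _ _ b2 d2, ?_⟩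
      have e4 : x - dt (y₁ + y₂) = x - dt y₁ - dt y₂ := by
        rw [map_add]
        exact sub_add_eq_sub_sub x _ _
      rw [e4]
      exact d3
    · refine ih x (fun i q h => ?_) hx hA hE
      have h1 := (hx i q h).1
      omega

theorem dt_low (t n k : ℕ) (x : PhL) (hx : IsD t n k x) (hA : IsA k x) (hE : IsE (dt x)) :
    ∃ y, IsD (t + 1) n k y ∧ IsA k y ∧ IsE (x - dt y) := by
  refine dlow_ind t n k t x (fun i q h => ?_) hx hA hE
  have h1 := (hx i q h).1
  omega

end BrV
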