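import Pool.Agent.Lib.BrV.LDef

/-!
# BrV.LBar: the bar complex of `BarN` in degree one (paper 3, (2.6))

`N` with operators `e a`, `e a (e b v) = cc a b • e (a+b) v` for all `v`; `T` a submodule of `N` stable under the `e a`, `e 0 = 1` on `T`, `e 1` exact on `T`.  `[a]` stands for the block `p^(a+1)`:
`bd e ([a] ⊗ v) = [] ⊗ e (a+1) v`, `bd e ([a, b] ⊗ v) = [b] ⊗ e (a+1) v - cc (b+1) (a+1) • [a+b+1] ⊗ v` (head = last block).  `bF e ([a] ⊗ v) = (2/(a+1)) e a v` for odd `a`, else `0`.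
* `bar_exact_sub`: `bar_exact` for the type `T` (restrict the operators, `Submodule.subtype` on coefficients commutes with `bd`).
* `bF_bd`: on `[a, b] ⊗ v`: if `b` is odd the first part is `(2/(b+1)) cc b (a+1) e (a+b+1) v`; if `a + b + 1` is odd the second is `cc (b+1) (a+1) (2/(a+b+2)) e (a+b+1) v`.  `cc_formula`.  `b` odd, `a` odd (`b+1 = 2β`, `a+1 = 2α`): `cc (2β-1) (2α) = binom(α+β-1, β-1)`,
  `cc (2β) (2α) = binom(α+β, β)` and `(1/β) binom(α+β-1, β-1) = (1/(α+β)) binom(α+β, β)`.  `b` odd, `a` even: `cc b (a+1) = 0` (both odd), second part absent.  `b` even, `a` odd: `a + b + 1` even: nothing.  `b` even, `a` even: `cc (b+1) (a+1) = 0` (both odd).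
* `bF_cyc`: `e 1 (e a v) = cc 1 a • .. = 0` for odd `a`.  `e 2 (e a v) = cc 2 a • e (a+2) v`, `cc 2 a = (a+1)/2` for odd `a`; so `e 2 (bF x) = ∑_{a odd} e (a+2) (x [a])`; and `e 1 (∑_a e (a+1) (x [a])) = ∑_a cc 1 (a+1) e (a+2) (x [a])`, `cc 1 (a+1) = 1` for `a` odd, `0` for `a` even; the
  sum `∑_a e (a+1) (x [a]) = (bd e x) [] = 0`.
* `bF_inj`: `x = ∑ [a] ⊗ v_a` with values in `T`.  Modulo boundaries of elements with values in `T`: `[b+c+1] ⊗ v ~ (1 / cc (b+1) (c+1)) [b] ⊗ e (c+1) v` if `cc (b+1) (c+1) ≠ 0`; for `a ≥ 2` take `b ∈ {0, 1}`, `b ≡ a`, `c + 1 = a - b` even (then `cc ≠ 0` by `cc_formula`).  So `x ~ [0] ⊗ y1 + [1] ⊗ y2`.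
  By `bF_bd` and the cycle condition `bF = e 1 y2 = 0` and `e 1 y1 + e 2 y2 = 0`.  `y2 = e 1 w`, `w ∈ T`: `bd ([0,1] ⊗ w) = [1] ⊗ e 1 w - cc 2 1 • [2] ⊗ w`, `bd ([1,0] ⊗ w) = [0] ⊗ e 2 w - cc 1 2 • [2] ⊗ w`, `cc 2 1 = cc 1 2 = 1`: so `[1] ⊗ e 1 w ~ [0] ⊗ e 2 w`.  So `x ~ [0] ⊗ y`, `e 1 y = 0`, `y = e 1 w'`, and
  `bd ([0,0] ⊗ w') = [0] ⊗ e 1 w'` (`cc 1 1 = 0`).
* `bF_surj`: `F = e 1 t`, `e 1 (e 2 t) = cc 1 2 e 3 t = e 3 t = cc 2 1 e 3 t = e 2 (e 1 t) = 0`, so `e 2 t = e 1 w`; `x = [1] ⊗ t - [0] ⊗ w`.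
-/

namespace BrV

open Finsupp

section aux

variable {M M' : Type} [AddCommGroup M] [Module ℝ M] [AddCommGroup M'] [Module ℝ M']

private noncomputable def LBar_tn (v : M) : (List ℕ →₀ ℝ) →ₗ[ℝ] (List ℕ →₀ M) :=
  Finsupp.mapRange.linearMap (LinearMap.toSpanSingleton ℝ M v)

private lemma LBar_tn_apply (v : M) (m : List ℕ →₀ ℝ) (l : List ℕ) : LBar_tn v m l = m l • v := rfl

private lemma LBar_tn_single (v : M) (l : List ℕ) (t : ℝ) :
    LBar_tn v (single l t) = single l (t • v) := by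
  simp [LBar_tn]

private lemma LBar_tn_eq (v : M) (m : List ℕ →₀ ℝ) :
    m.mapRange (fun t => t • v) (zero_smul _ _) = LBar_tn v m := by
  ext l
  rfl

private lemma LBar_bd_single (e : ℕ → M →ₗ[ℝ] M) (l : List ℕ) (v : M) :
    bd e (single l v) = bd0 e l v := by
  have h1 : bd e (single l v) = (single l v).sum fun l v => bd0 e l v := rfl
  rw [h1, Finsupp.sum_single_index]
  cases l with
  | nil => rfl
  | cons a l =>
    show single l (e (a + 1) 0) - (mgN (a :: l)).mapRange (fun t => t • (0 : M)) (zero_smul _ _) = 0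
    rw [map_zero, single_zero, zero_sub, neg_eq_zero]
    ext j
    exact smul_zero _

private lemma LBar_bd_nil (e : ℕ → M →ₗ[ℝ] M) (v : M) : bd e (single [] v) = 0 := by
  rw [LBar_bd_single]; rfl

private lemma LBar_bd_cons (e : ℕ → M →ₗ[ℝ] M) (a : ℕ) (l : List ℕ) (v : M) :
    bd e (single (a :: l) v) = single l (e (a + 1) v) - LBar_tn v (mgN (a :: l)) := by
  rw [LBar_bd_single, bd0, LBar_tn_eq]

private lemma LBar_bd_one (e : ℕ → M →ₗ[ℝ] M) (a : ℕ) (v : M) :
    bd e (single [a] v) = single [] (e (a + 1) v) := by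
  rw [LBar_bd_cons]
  have : mgN [a] = 0 := rfl
  rw [this, map_zero, sub_zero]

private lemma LBar_bd_two (e : ℕ → M →ₗ[ℝ] M) (a b : ℕ) (v : M) :
    bd e (single [a, b] v) =
      single [b] (e (a + 1) v) - cc (b + 1) (a + 1) • single [a + b + 1] v := by
  rw [LBar_bd_cons]
  have : mgN [a, b] = single [a + b + 1] (cc (b + 1) (a + 1)) - mapDomain (List.cons a) 0 := rfl
  rw [this, mapDomain_zero, sub_zero, LBar_tn_single, smul_single]

private lemma LBar_bd_map (e : ℕ → M →ₗ[ℝ] M) (e' : ℕ → M' →ₗ[ℝ] M') (f : M →ₗ[ℝ] M')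
    (hf : ∀ a v, f (e a v) = e' a (f v)) (x : List ℕ →₀ M) :
    bd e' (mapRange.linearMap f x) = mapRange.linearMap f (bd e x) := by
  induction x using Finsupp.induction_linear with
  | zero => simp
  | add g h hg hh => simp only [map_add] at hg hh ⊢; rw [hg, hh]
  | single l v =>
    have h1 : ∀ (l : List ℕ) (v : M), mapRange.linearMap f (single l v) = single l (f v) := by
      intro l v
      simp
    have h2 : ∀ (m : List ℕ →₀ ℝ), mapRange.linearMap f (LBar_tn v m) = LBar_tn (f v) m := by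
      intro m
      ext j
      rw [mapRange.linearMap_apply, mapRange_apply, LBar_tn_apply, LBar_tn_apply, map_smul]
    cases l with
    | nil => rw [h1, LBar_bd_nil, LBar_bd_nil, map_zero]
    | cons a l => rw [h1, LBar_bd_cons, LBar_bd_cons, map_sub, h1, h2, hf]

private lemma LBar_ext (A B : (List ℕ →₀ M) →ₗ[ℝ] M') (P : List ℕ → Prop)
    (h : ∀ l, P l → ∀ v, A (single l v) = B (single l v)) (x : List ℕ →₀ M)
    (hx : ∀ l, x l ≠ 0 → P l) : A x = B x := by
  have h1 : ∀ f : (List ℕ →₀ M) →ₗ[ℝ] M', f x = ∑ l ∈ x.support, f (single l (x l)) := by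
    intro f
    conv_lhs => rw [← Finsupp.sum_single x]
    rw [Finsupp.sum, map_sum]
  rw [h1 A, h1 B]
  exact Finset.sum_congr rfl fun l hl => h l (hx l (mem_support_iff.1 hl)) _

private lemma LBar_bF_one (e : ℕ → M →ₗ[ℝ] M) (a : ℕ) (v : M) :
    bF e (single [a] v) = if Odd a then (2 / ((a : ℝ) + 1)) • e a v else 0 := by
  unfold bF
  rw [Finsupp.lsum_single]
  show (if Odd a then (2 / ((a : ℝ) + 1)) • e a else (0 : M →ₗ[ℝ] M)) v = _
  split_ifs <;> rfl

end aux

theorem bar_exact_sub {N : Type} [AddCommGroup N] [Module ℝ N] (e : ℕ → N →ₗ[ℝ] N)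
    (T : Submodule ℝ N) (hT : ∀ a, ∀ v ∈ T, e a v ∈ T) (h0 : ∀ v ∈ T, e 0 v = v)
    (hm : ∀ a b v, e a (e b v) = cc a b • e (a + b) v)
    (hex : ∀ v ∈ T, e 1 v = 0 → ∃ w ∈ T, v = e 1 w) (r : ℕ) (hr : 2 ≤ r) (x : List ℕ →₀ N)
    (hx : ∀ l, x l ≠ 0 → l.length = r) (hxT : ∀ l, x l ∈ T) (hd : bd e x = 0) :
    ∃ y : List ℕ →₀ N, (∀ l, y l ≠ 0 → l.length = r + 1) ∧ (∀ l, y l ∈ T) ∧ bd e y = x := by
  let e' : ℕ → T →ₗ[ℝ] T := fun a => (e a).restrict (hT a)
  have he' : ∀ a (v : T), T.subtype (e' a v) = e a (T.subtype v) := fun a v => rfl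
  let x' : List ℕ →₀ T := Finsupp.onFinset x.support (fun l => ⟨x l, hxT l⟩) (by
    intro l hl
    rw [mem_support_iff]
    intro h
    apply hl
    exact Subtype.ext h)
  have hx' : mapRange.linearMap T.subtype x' = x := by
    ext l
    rfl
  have hinj : ∀ z : List ℕ →₀ T, mapRange.linearMap T.subtype z = 0 → z = 0 := by
    intro z hz
    ext l
    have := DFunLike.congr_fun hz l
    exact this
  have hd' : bd e' x' = 0 := by
    apply hinj
    rw [← LBar_bd_map e' e T.subtype he', hx', hd]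
  obtain ⟨y, hy1, hy2⟩ := bar_exact e' (fun v => Subtype.ext (h0 v v.2))
    (fun a b v => Subtype.ext (hm a b v))
    (fun v hv => by
      obtain ⟨w, hw, hvw⟩ := hex v v.2 (congrArg Subtype.val hv)
      exact ⟨⟨w, hw⟩, Subtype.ext hvw⟩) r hr x'
    (fun l hl => hx l fun h => hl (Subtype.ext h)) hd'
  refine ⟨mapRange.linearMap T.subtype y, ?_, ?_, ?_⟩
  · intro l hl
    apply hy1
    intro h
    apply hl
    show T.subtype (y l) = 0
    rw [h, map_zero]
  · intro l
    exact (y l).2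
  · rw [LBar_bd_map e' e T.subtype he', hy2, hx']

private lemma LBar_coef (α β : ℕ) (hβ : 1 ≤ β) :
    (2 / ((2 * β - 1 : ℝ) + 1)) * (((α + β - 1).choose (β - 1) : ℕ) : ℝ)
      = (2 / ((2 * α - 1 + (2 * β - 1) + 1 : ℝ) + 1)) * (((α + β).choose β : ℕ) : ℝ) := by
  have h := Nat.add_one_mul_choose_eq (α + β - 1) (β - 1)
  rw [show α + β - 1 + 1 = α + β by omega, show β - 1 + 1 = β by omega] at h
  have h' : ((α : ℝ) + β) * (((α + β - 1).choose (β - 1) : ℕ) : ℝ)
      = (((α + β).choose β : ℕ) : ℝ) * β := by exact_mod_cast h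
  have hb : (0 : ℝ) < β := by exact_mod_cast hβ
  have ha : (0 : ℝ) ≤ α := Nat.cast_nonneg α
  have e1 : (2 * β - 1 : ℝ) + 1 = 2 * β := by ring
  have e2 : (2 * α - 1 + (2 * β - 1) + 1 : ℝ) + 1 = 2 * (α + β) := by ring
  rw [e1, e2]
  have h3 : (0 : ℝ) < α + β := by linarith
  field_simp
  linear_combination h'

theorem bF_bd {N : Type} [AddCommGroup N] [Module ℝ N] (e : ℕ → N →ₗ[ℝ] N)
    (hm : ∀ a b v, e a (e b v) = cc a b • e (a + b) v) (x : List ℕ →₀ N)
    (hx : ∀ l, x l ≠ 0 → l.length = 2) : bF e (bd e x) = 0 := by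
  refine LBar_ext ((bF e).comp (bd e)) 0 (fun l => l.length = 2) ?_ x hx
  intro l hl v
  obtain ⟨a, b, rfl⟩ := List.length_eq_two.1 hl
  rw [LinearMap.comp_apply, LinearMap.zero_apply, LBar_bd_two, map_sub, map_smul, LBar_bF_one,
    LBar_bF_one, hm]
  rcases Nat.even_or_odd a with ha | ha <;> rcases Nat.even_or_odd b with hb | hb
  · have h1 : ¬ Odd b := Nat.not_odd_iff_even.2 hb
    rw [if_neg h1, cc_formula, if_pos ⟨hb.add_one, ha.add_one⟩, zero_smul, sub_zero]
  · have h2 : ¬ Odd (a + b + 1) := by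
      rw [Nat.not_odd_iff_even]
      exact (ha.add_odd hb).add_one
    rw [if_neg h2, smul_zero, sub_zero, if_pos hb, cc_formula, if_pos ⟨hb, ha.add_one⟩, zero_smul,
      smul_zero]
  · have h1 : ¬ Odd b := Nat.not_odd_iff_even.2 hb
    have h2 : ¬ Odd (a + b + 1) := by
      rw [Nat.not_odd_iff_even]
      exact (ha.add_even hb).add_one
    rw [if_neg h1, if_neg h2, smul_zero, sub_zero]
  · have h2 : Odd (a + b + 1) := (ha.add_odd hb).add_one
    rw [if_pos hb, if_pos h2, cc_formula, cc_formula, if_neg, if_neg]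
    · obtain ⟨α, rfl⟩ := ha
      obtain ⟨β, rfl⟩ := hb
      have e1 : (2 * β + 1 + (2 * α + 1 + 1)) / 2 = (α + 1) + (β + 1) - 1 := by omega
      have e2 : (2 * β + 1) / 2 = β + 1 - 1 := by omega
      have e3 : (2 * β + 1 + 1 + (2 * α + 1 + 1)) / 2 = (α + 1) + (β + 1) := by omega
      have e4 : (2 * β + 1 + 1) / 2 = β + 1 := by omega
      have e5 : 2 * β + 1 + (2 * α + 1 + 1) = 2 * α + 1 + (2 * β + 1) + 1 := by ring
      rw [e1, e2, e3, e4, e5, smul_smul, smul_smul, ← sub_smul]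
      have h := LBar_coef (α + 1) (β + 1) (by omega)
      have h3 : (2 / (((2 * β + 1 : ℕ) : ℝ) + 1)) * (((α + 1 + (β + 1) - 1).choose (β + 1 - 1) : ℕ) : ℝ)
          - (((α + 1 + (β + 1)).choose (β + 1) : ℕ) : ℝ) *
            (2 / (((2 * α + 1 + (2 * β + 1) + 1 : ℕ) : ℝ) + 1)) = 0 := by
        rw [sub_eq_zero, mul_comm (((α + 1 + (β + 1)).choose (β + 1) : ℕ) : ℝ)]
        have g1 : (((2 * β + 1 : ℕ) : ℝ) + 1) = (2 * ((β + 1 : ℕ) : ℝ) - 1) + 1 := by
          push_cast; ring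
        have g2 : (((2 * α + 1 + (2 * β + 1) + 1 : ℕ) : ℝ) + 1)
            = (2 * ((α + 1 : ℕ) : ℝ) - 1 + (2 * ((β + 1 : ℕ) : ℝ) - 1) + 1) + 1 := by
          push_cast; ring
        rw [g1, g2]
        exact h
      rw [h3, zero_smul]
    · rintro ⟨h3, -⟩
      exact (Nat.not_odd_iff_even.2 hb.add_one) h3
    · rintro ⟨-, h3⟩
      exact (Nat.not_odd_iff_even.2 ha.add_one) h3

theorem bF_cyc {N : Type} [AddCommGroup N] [Module ℝ N] (e : ℕ → N →ₗ[ℝ] N)
    (hm : ∀ a b v, e a (e b v) = cc a b • e (a + b) v) (x : List ℕ →₀ N)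
    (hx : ∀ l, x l ≠ 0 → l.length = 1) (hd : bd e x = 0) :
    e 1 (bF e x) = 0 ∧ e 2 (bF e x) = 0 := by
  constructor
  · refine LBar_ext ((e 1).comp (bF e)) 0 (fun l => l.length = 1) ?_ x hx
    intro l hl v
    obtain ⟨a, rfl⟩ := List.length_eq_one_iff.1 hl
    rw [LinearMap.comp_apply, LinearMap.zero_apply, LBar_bF_one]
    split_ifs with ha
    · rw [map_smul, hm, cc_one_left, if_neg (Nat.not_even_iff_odd.2 ha), zero_smul, smul_zero]
    · rw [map_zero]
  · have h1 : e 2 (bF e x) = e 1 (bd e x []) := by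
      refine LBar_ext ((e 2).comp (bF e)) ((e 1).comp ((Finsupp.lapply []).comp (bd e)))
        (fun l => l.length = 1) ?_ x hx
      intro l hl v
      obtain ⟨a, rfl⟩ := List.length_eq_one_iff.1 hl
      rw [LinearMap.comp_apply, LinearMap.comp_apply, LinearMap.comp_apply, LBar_bF_one,
        LBar_bd_one, Finsupp.lapply_apply, Finsupp.single_eq_same, hm, cc_one_left]
      split_ifs with ha h2 h2
      · rw [map_smul, hm, cc_formula, if_neg (fun h => (by decide : ¬ Odd 2) h.1), smul_smul,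
          one_smul]
        obtain ⟨α, rfl⟩ := ha
        have e1 : (2 + (2 * α + 1)) / 2 = α + 1 := by omega
        rw [e1, show 2 / 2 = 1 from rfl, Nat.choose_one_right,
          show 1 + (2 * α + 1 + 1) = 2 + (2 * α + 1) by ring]
        have e2 : (2 / (((2 * α + 1 : ℕ) : ℝ) + 1)) * ((α + 1 : ℕ) : ℝ) = 1 := by
          push_cast
          have : (0 : ℝ) ≤ α := Nat.cast_nonneg α
          field_simp
          ring
        rw [e2, one_smul]
      · exact absurd ha.add_one h2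
      · exact absurd h2 (by
          rw [Nat.even_add_one]
          exact fun h => h (Nat.not_odd_iff_even.1 ha))
      · rw [map_zero, zero_smul]
    rw [h1, hd, Finsupp.zero_apply, map_zero]

theorem bF_inj {N : Type} [AddCommGroup N] [Module ℝ N] (e : ℕ → N →ₗ[ℝ] N)
    (T : Submodule ℝ N) (hT : ∀ a, ∀ v ∈ T, e a v ∈ T)
    (hm : ∀ a b v, e a (e b v) = cc a b • e (a + b) v)
    (hex : ∀ v ∈ T, e 1 v = 0 → ∃ w ∈ T, v = e 1 w) (x : List ℕ →₀ N)
    (hx : ∀ l, x l ≠ 0 → l.length = 1) (hxT : ∀ l, x l ∈ T) (hd : bd e x = 0)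
    (hF : bF e x = 0) :
    ∃ y : List ℕ →₀ N, (∀ l, y l ≠ 0 → l.length = 2) ∧ (∀ l, y l ∈ T) ∧ bd e y = x := by
  let S2 : Submodule ℝ (List ℕ →₀ N) :=
    { carrier := {y | (∀ l, y l ≠ 0 → l.length = 2) ∧ ∀ l, y l ∈ T}
      add_mem' := by
        rintro y z ⟨hy1, hy2⟩ ⟨hz1, hz2⟩
        refine ⟨fun l hl => ?_, fun l => T.add_mem (hy2 l) (hz2 l)⟩
        by_cases h : y l = 0
        · apply hz1
          intro h'
          apply hl
          rw [Finsupp.add_apply, h, h', add_zero]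
        · exact hy1 l h
      zero_mem' := ⟨fun l hl => absurd rfl hl, fun l => T.zero_mem⟩
      smul_mem' := by
        rintro c y ⟨hy1, hy2⟩
        refine ⟨fun l hl => hy1 l fun h => hl ?_, fun l => T.smul_mem c (hy2 l)⟩
        rw [Finsupp.smul_apply, h, smul_zero] }
  have hs : ∀ a b, ∀ v ∈ T, single [a, b] v ∈ S2 := by
    intro a b v hv
    refine ⟨fun l hl => ?_, fun l => ?_⟩
    · rw [single_apply] at hl
      split_ifs at hl with h
      · rw [← h]; rfl
      · exact absurd rfl hl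
    · rw [single_apply]
      split_ifs
      · exact hv
      · exact T.zero_mem
  set B := S2.map (bd e) with hB
  have hb : ∀ a b, ∀ v ∈ T, single [b] (e (a + 1) v) - cc (b + 1) (a + 1) • single [a + b + 1] v ∈ B := by
    intro a b v hv
    rw [← LBar_bd_two]
    exact Submodule.mem_map_of_mem (hs a b v hv)
  have hB1 : ∀ z ∈ B, bd e z = 0 ∧ bF e z = 0 := by
    intro z hz
    obtain ⟨y, hy, rfl⟩ := Submodule.mem_map.1 hz
    refine ⟨?_, bF_bd e hm y hy.1⟩
    refine LBar_ext ((bd e).comp (bd e)) 0 (fun l => l.length = 2) ?_ y hy.1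
    intro l hl v
    obtain ⟨a, b, rfl⟩ := List.length_eq_two.1 hl
    rw [LinearMap.comp_apply, LinearMap.zero_apply, LBar_bd_two, map_sub, map_smul, LBar_bd_one,
      LBar_bd_one, hm, smul_single, show b + 1 + (a + 1) = a + b + 1 + 1 by ring, sub_self]
  have hred1 : ∀ a, ∀ v ∈ T, ∃ y1 ∈ T, ∃ y2 ∈ T,
      single [a] v - single [0] y1 - single [1] y2 ∈ B := by
    intro a v hv
    rcases Nat.lt_or_ge a 2 with h | h
    · obtain rfl | rfl : a = 0 ∨ a = 1 := by omega
      · refine ⟨v, hv, 0, T.zero_mem, ?_⟩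
        rw [sub_self, single_zero, sub_zero]
        exact B.zero_mem
      · refine ⟨0, T.zero_mem, v, hv, ?_⟩
        rw [single_zero, sub_zero, sub_self]
        exact B.zero_mem
    · have hgen : ∀ b c, b + c + 1 = a → Even (c + 1) → ∃ u ∈ T,
          single [a] v - single [b] u ∈ B := by
        intro b c hbc hc
        have h1 := hb c b v hv
        have hcc : cc (b + 1) (c + 1) ≠ 0 := by
          rw [cc_formula, if_neg (fun h => (Nat.not_odd_iff_even.2 hc) h.2)]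
          have : 0 < ((b + 1 + (c + 1)) / 2).choose ((b + 1) / 2) :=
            Nat.choose_pos (Nat.div_le_div_right (by omega))
          exact_mod_cast this.ne'
        refine ⟨(cc (b + 1) (c + 1))⁻¹ • e (c + 1) v, T.smul_mem _ (hT _ _ hv), ?_⟩
        have h2 := B.smul_mem (-(cc (b + 1) (c + 1))⁻¹) h1
        have h3 : -(cc (b + 1) (c + 1))⁻¹ • (single [b] (e (c + 1) v) -
            cc (b + 1) (c + 1) • single [c + b + 1] v) =
            single [a] v - single [b] ((cc (b + 1) (c + 1))⁻¹ • e (c + 1) v) := by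
          rw [smul_sub, smul_smul, neg_mul, inv_mul_cancel₀ hcc, neg_smul, neg_smul, one_smul,
            smul_single, show c + b + 1 = a by omega]
          abel
        rw [h3] at h2
        exact h2
      rcases Nat.even_or_odd a with ha | ha
      · obtain ⟨u, hu, h1⟩ := hgen 0 (a - 1) (by omega) (by rwa [show a - 1 + 1 = a by omega])
        refine ⟨u, hu, 0, T.zero_mem, ?_⟩
        rwa [single_zero, sub_zero]
      · obtain ⟨u, hu, h1⟩ := hgen 1 (a - 2) (by omega) (by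
          obtain ⟨k, hk⟩ := ha
          exact ⟨k, by omega⟩)
        refine ⟨0, T.zero_mem, u, hu, ?_⟩
        rwa [single_zero, sub_zero]
  have hred : ∃ y1 ∈ T, ∃ y2 ∈ T, x - single [0] y1 - single [1] y2 ∈ B := by
    have hsum : ∀ s : Finset (List ℕ), (∀ l ∈ s, l.length = 1) → ∃ y1 ∈ T, ∃ y2 ∈ T,
        (∑ l ∈ s, single l (x l)) - single [0] y1 - single [1] y2 ∈ B := by
      intro s
      induction s using Finset.induction_on with
      | empty =>
        intro _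
        refine ⟨0, T.zero_mem, 0, T.zero_mem, ?_⟩
        rw [Finset.sum_empty, single_zero, single_zero, sub_zero, sub_zero]
        exact B.zero_mem
      | insert l s hl ih =>
        intro hs'
        obtain ⟨y1, h1, y2, h2, h3⟩ := ih fun l' hl' => hs' l' (Finset.mem_insert_of_mem hl')
        obtain ⟨a, rfl⟩ := List.length_eq_one_iff.1 (hs' l (Finset.mem_insert_self l s))
        obtain ⟨z1, g1, z2, g2, g3⟩ := hred1 a (x [a]) (hxT [a])
        refine ⟨z1 + y1, T.add_mem g1 h1, z2 + y2, T.add_mem g2 h2, ?_⟩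
        rw [Finset.sum_insert hl, single_add, single_add]
        have := B.add_mem g3 h3
        convert this using 1
        abel
    obtain ⟨y1, h1, y2, h2, h3⟩ := hsum x.support fun l hl => hx l (mem_support_iff.1 hl)
    refine ⟨y1, h1, y2, h2, ?_⟩
    have h4 : ∑ l ∈ x.support, single l (x l) = x := Finsupp.sum_single x
    rwa [h4] at h3
  obtain ⟨y1, hy1, y2, hy2, h12⟩ := hred
  obtain ⟨k1, k2⟩ := hB1 _ h12
  rw [map_sub, map_sub, hd, LBar_bd_one, LBar_bd_one] at k1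
  rw [map_sub, map_sub, hF, LBar_bF_one, LBar_bF_one, if_neg (by decide), if_pos (by decide)] at k2
  have k3 : e 1 y2 = 0 := by
    have : (2 / (((1 : ℕ) : ℝ) + 1)) = 1 := by norm_num
    rw [this, one_smul, sub_zero, zero_sub, neg_eq_zero] at k2
    exact k2
  have k4 : e 1 y1 + e 2 y2 = 0 := by
    have h := DFunLike.congr_fun k1 []
    rw [Finsupp.sub_apply, Finsupp.sub_apply, Finsupp.single_eq_same, Finsupp.single_eq_same,
      Finsupp.zero_apply] at h
    rw [show e 1 y1 + e 2 y2 = -(0 - e (0 + 1) y1 - e (1 + 1) y2) by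
      rw [zero_add, show (1 + 1 : ℕ) = 2 from rfl]; abel, h, neg_zero]
  obtain ⟨w, hw, rfl⟩ := hex y2 hy2 k3
  have c21 : cc 2 1 = 1 := by rw [cc_one, if_pos (by decide)]
  have c12 : cc 1 2 = 1 := by rw [cc_one_left, if_pos (by decide)]
  have c11 : cc 1 1 = 0 := by rw [cc_one, if_neg (by decide)]
  have b1 := hb 0 1 w hw
  have b2 := hb 1 0 w hw
  have b3 : single [1] (e 1 w) - single [0] (e 2 w) ∈ B := by
    have := B.sub_mem b1 b2
    rw [show cc (1 + 1) (0 + 1) = 1 from c21, show cc (0 + 1) (1 + 1) = 1 from c12] at this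
    convert this using 1
    rw [show (0 + 1 : ℕ) = 1 from rfl, show (1 + 1 : ℕ) = 2 from rfl]
    abel
  have hyT : y1 + e 2 w ∈ T := T.add_mem hy1 (hT _ _ hw)
  have k5 : e 1 (y1 + e 2 w) = 0 := by
    rw [map_add, hm, c12, one_smul]
    rw [hm, c21, one_smul] at k4
    exact k4
  obtain ⟨w', hw', hyw⟩ := hex _ hyT k5
  have b4 : single [0] (y1 + e 2 w) ∈ B := by
    have := hb 0 0 w' hw'
    rw [show cc (0 + 1) (0 + 1) = 0 from c11, zero_smul, sub_zero] at this
    rw [hyw]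
    exact this
  have hxB : x ∈ B := by
    have := B.add_mem h12 (B.add_mem b3 b4)
    convert this using 1
    rw [single_add]
    abel
  obtain ⟨y, hy, hyx⟩ := Submodule.mem_map.1 hxB
  exact ⟨y, hy.1, hy.2, hyx⟩

theorem bF_surj {N : Type} [AddCommGroup N] [Module ℝ N] (e : ℕ → N →ₗ[ℝ] N)
    (T : Submodule ℝ N) (hT : ∀ a, ∀ v ∈ T, e a v ∈ T)
    (hm : ∀ a b v, e a (e b v) = cc a b • e (a + b) v)
    (hex : ∀ v ∈ T, e 1 v = 0 → ∃ w ∈ T, v = e 1 w) (F : N) (hF : F ∈ T) (h1 : e 1 F = 0)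
    (h2 : e 2 F = 0) :
    ∃ x : List ℕ →₀ N, (∀ l, x l ≠ 0 → l.length = 1) ∧ (∀ l, x l ∈ T) ∧ bd e x = 0 ∧
      bF e x = F := by
  have c21 : cc 2 1 = 1 := by rw [cc_one, if_pos (by decide)]
  have c12 : cc 1 2 = 1 := by rw [cc_one_left, if_pos (by decide)]
  obtain ⟨t, ht, rfl⟩ := hex F hF h1
  have h3 : e 1 (e 2 t) = 0 := by
    rw [hm, c12, one_smul]
    rw [hm, c21, one_smul] at h2
    exact h2
  obtain ⟨w, hw, htw⟩ := hex _ (hT _ _ ht) h3
  refine ⟨single [1] t - single [0] w, ?_, ?_, ?_, ?_⟩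
  · intro l hl
    by_contra hne
    apply hl
    rw [Finsupp.sub_apply, single_apply, single_apply, if_neg, if_neg, sub_zero]
    · rintro rfl
      exact hne rfl
    · rintro rfl
      exact hne rfl
  · intro l
    rw [Finsupp.sub_apply]
    refine T.sub_mem ?_ ?_
    · rw [single_apply]
      split_ifs
      · exact ht
      · exact T.zero_mem
    · rw [single_apply]
      split_ifs
      · exact hw
      · exact T.zero_mem
  · rw [map_sub, LBar_bd_one, LBar_bd_one, show (1 + 1 : ℕ) = 2 from rfl, htw,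
      show (0 + 1 : ℕ) = 1 from rfl, sub_self]
  · rw [map_sub, LBar_bF_one, LBar_bF_one, if_pos (by decide), if_neg (by decide), sub_zero]
    have : (2 / (((1 : ℕ) : ℝ) + 1)) = 1 := by norm_num
    rw [this, one_smul]

end BrV
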