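import Pool.Agent.Lib.BrV.LCmp
import Pool.Agent.Lib.BrV.LBar

/-!
# BrV.LPur: the pure part (paper 3, (2.5))

`jL s = (false, s.map pw)`; `pur u = ∑_s jL s ⊗ cns [] (u s)`.
-/

namespace BrV

open Finsupp

private theorem pw_injP : Function.Injective pw := by
  intro a b h
  have h2 := congrArg np h
  rwa [np_pw, np_pw] at h2

theorem jL_inj : Function.Injective jL := by
  intro L L' h
  have h2 : L.map pw = L'.map pw := congrArg Prod.snd h
  exact (List.map_injective_iff.2 pw_injP) h2

private theorem pur_eq (u : List ℕ →₀ CW) :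
    pur u = mapDomain jL (u.mapRange (cns []) (map_zero _)) := rfl

theorem pur_jL (u : List ℕ →₀ CW) (s : List ℕ) : pur u (jL s) = cns [] (u s) := by
  rw [pur_eq, mapDomain_apply jL_inj, mapRange_apply]

theorem pur_ne (u : List ℕ →₀ CW) (i : Ix) (hi : ∀ s, jL s ≠ i) : pur u i = 0 := by
  rw [pur_eq, mapDomain_of_notMem_range]
  rintro ⟨L, hL⟩
  exact hi L hL

private theorem cns_inj (w : Wd) (y y' : CW) (h : cns w y = cns w y') : y = y' := by
  ext q
  have h2 := DFunLike.congr_fun h (w :: q)
  rwa [cns_apply, cns_apply, if_pos rfl, if_pos rfl] at h2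

theorem pur_inj (u u' : List ℕ →₀ CW) (h : pur u = pur u') : u = u' := by
  ext1 s
  have h2 := DFunLike.congr_fun h (jL s)
  rw [pur_jL, pur_jL] at h2
  exact cns_inj _ _ _ h2

theorem eA_pw (a b : ℕ) (v : CW) : eA a (eA b v) = cc a b • eA (a + b) v := act_pw a b v

private theorem bm_pureP (a b : ℕ) :
    bm (pw b) (pw a) = cc (b + 1) (a + 1) • bw (pw (a + b + 1)) := by
  apply app_inj true
  have h1 : ∀ a, true :: pw a = pw (a + 1) := fun a => rfl
  rw [app_bm, map_smul, app_bw, h1, h1, h1, pow_mul]
  congr 3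
  omega

private theorem mg0_pureP : ∀ L : List ℕ, mg0 (L.map pw) = mapDomain (List.map pw) (mgN L)
  | [] => by simp [mg0, mgN]
  | [a] => by simp [mg0, mgN]
  | a :: b :: L => by
    have ih := mg0_pureP (b :: L)
    have h1 : mg0 ((a :: b :: L).map pw) =
        cl (bm (pw b) (pw a)) (L.map pw) - cns (pw a) (mg0 ((b :: L).map pw)) := by
      rw [List.map_cons, List.map_cons, mg0_cons2]
    have h2 : cns (pw a) (mapDomain (List.map pw) (mgN (b :: L))) =
        mapDomain (List.map pw) (mapDomain (List.cons a) (mgN (b :: L))) := by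
      rw [cns, lmapDomain_apply, ← mapDomain_comp, ← mapDomain_comp]
      rfl
    have h3 : mapDomain (List.map pw) (mgN (a :: b :: L)) =
        mapDomain (List.map pw) (single ((a + b + 1) :: L) (cc (b + 1) (a + 1))) -
        mapDomain (List.map pw) (mapDomain (List.cons a) (mgN (b :: L))) := by
      rw [mgN, ← lmapDomain_apply ℝ ℝ, map_sub, lmapDomain_apply, lmapDomain_apply]
    rw [h1, ih, h2, h3, bm_pureP, cl_smul, cl_bw, mapDomain_single, List.map_cons, smul_single,
      smul_eq_mul, mul_one]

/-- the action on the embedded scalars -/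
private theorem act_embP (y : CW) (hy : act (bw []) y = y) (c : List ℕ →₀ ℝ) :
    mapRange.linearMap (act.flip y) (emb false (mapDomain (List.map pw) c)) =
      mapDomain jL (c.mapRange (fun t => t • y) (zero_smul _ _)) := by
  induction c using Finsupp.induction_linear with
  | zero =>
    rw [mapDomain_zero, emb_zero, map_zero, mapRange_zero, mapDomain_zero]
  | add f g hf hg =>
    rw [mapDomain_add, emb_add, map_add, hf, hg, mapRange_add (fun x y' => add_smul x y' y),
      mapDomain_add]
  | single L a =>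
    rw [mapDomain_single, emb_single, mapRange_single, mapDomain_single,
      mapRange.linearMap_apply, mapRange_single, map_smul, LinearMap.flip_apply, hy]
    rfl

private theorem DL_single' (i : Ix) (y : CW) :
    DL (single i y) = mapRange.linearMap (act.flip y) (D1 i) := by
  ext1 j
  rw [DL_single, mapRange.linearMap_apply, mapRange_apply, LinearMap.flip_apply]

private theorem pur_single (s : List ℕ) (v : CW) : pur (single s v) = single (jL s) (cns [] v) := by
  rw [pur_eq, mapRange_single, mapDomain_single]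

private theorem bd_single {N : Type} [AddCommGroup N] [Module ℝ N] (e : ℕ → N →ₗ[ℝ] N)
    (L : List ℕ) (v : N) : bd e (single L v) = bd0 e L v := by
  rw [bd, lsum_single]
  rfl

private theorem pur_mR (c : List ℕ →₀ ℝ) (v : CW) :
    pur (c.mapRange (fun t => t • v) (zero_smul _ _)) =
      mapDomain jL (c.mapRange (fun t => t • cns [] v) (zero_smul _ _)) := by
  rw [pur_eq]
  congr 1
  ext1 s
  rw [mapRange_apply, mapRange_apply, mapRange_apply, map_smul]

private theorem DL_pur1 (m : ℕ) (s : List ℕ) (v : CW) (hv : v ∈ TT m) :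
    DL (pur (single s v)) = pur (bd eA (single s v)) := by
  rw [pur_single, DL_single', bd_single]
  cases s with
  | nil =>
    have h2 : D1 (jL []) = 0 := rfl
    have h3 : bd0 eA [] v = 0 := rfl
    rw [h2, h3, map_zero, map_zero]
  | cons a L =>
    have h2 : D1 (jL (a :: L)) = single (jL L) (bw (pw (a + 1))) -
        emb false (mg0 ((a :: L).map pw)) := rfl
    have h3 : bd0 eA (a :: L) v = single L (eA (a + 1) v) -
        (mgN (a :: L)).mapRange (fun t => t • v) (zero_smul _ _) := rfl
    have hy : act (bw []) (cns [] v) = cns [] v := act_one (m + 1) _ (cns_nil_YY m v hv)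
    have h4 : mapRange.linearMap (act.flip (cns [] v)) (single (jL L) (bw (pw (a + 1))) -
        emb false (mg0 ((a :: L).map pw))) =
        mapRange.linearMap (act.flip (cns [] v)) (single (jL L) (bw (pw (a + 1)))) -
        mapRange.linearMap (act.flip (cns [] v)) (emb false (mg0 ((a :: L).map pw))) :=
      map_sub (mapRange.linearMap (act.flip (cns [] v))) (single (jL L) (bw (pw (a + 1))))
        (emb false (mg0 ((a :: L).map pw)))
    have h5 : ∀ f g : List ℕ →₀ CW, pur (f - g) = pur f - pur g := fun f g => map_sub pur f g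
    rw [h2, h3, h4, h5, mg0_pureP, act_embP _ hy, pur_single, pur_mR,
      mapRange.linearMap_apply, mapRange_single, LinearMap.flip_apply, act_pw_nil]
    rfl

theorem DL_pur (m : ℕ) (u : List ℕ →₀ CW) (hu : ∀ s, u s ∈ TT m) :
    DL (pur u) = pur (bd eA u) := by
  have h1 : u = ∑ s ∈ u.support, single s (u s) := (Finsupp.sum_single u).symm
  rw [h1]
  simp only [map_sum]
  exact Finset.sum_congr rfl fun s _ => DL_pur1 m s (u s) (hu s)

private theorem kI_jL (L : List ℕ) : kI (jL L) = 0 := by
  have h : ∀ L : List ℕ, nzL (L.map pw) = 0 := by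
    intro L
    induction L with
    | nil => rfl
    | cons a L ih =>
      have h1 : nzL ((a :: L).map pw) = nz (pw a) + nzL (L.map pw) := by
        simp [nzL]
      rw [h1, ih, nz_pw]
  show nzL (L.map pw) + 0 = 0
  rw [h]

private theorem rI_jL (L : List ℕ) : rI (jL L) = L.length := by
  show (L.map pw).length + 0 = L.length
  simp

private theorem eq_jL (i : Ix) (h : kI i = 0) : ∃ L, jL L = i := by
  obtain ⟨b, l⟩ := i
  have h1 : nzL l + b.toNat = 0 := h
  have h2 : b = false := by
    cases b with
    | false => rfl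
    | true => simp at h1
  have h3 : nzL l = 0 := by omega
  have h4 : ∀ l : LB, nzL l = 0 → (l.map np).map pw = l := by
    intro l
    induction l with
    | nil => intro _; rfl
    | cons w l ih =>
      intro h5
      have h6 : nz w + nzL l = 0 := by
        simpa [nzL] using h5
      have h7 : nz w = 0 := by omega
      have h8 : nzL l = 0 := by omega
      rw [List.map_cons, List.map_cons, ih h8, ← eq_pw w h7]
  refine ⟨l.map np, ?_⟩
  rw [jL, h4 l h3, h2]

private theorem nz_ne_zero (w : Wd) (h : Zw w) : nz w ≠ 0 := by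
  cases w with
  | nil => simp [Zw] at h
  | cons a w =>
    have h1 : a = false := by simpa [Zw] using h
    rw [h1]
    simp [nz]

private theorem mem_YY (m : ℕ) (y : CW) (hy : y ∈ YY m) (q : LW) (h : y q ≠ 0) :
    q.length = m ∧ (∀ w ∈ q, w = [] ∨ Zw w) ∧ ∀ w ∈ q.tail, Zw w := by
  by_contra h2
  exact h ((mem_supported' ℝ y).1 hy q h2)

private theorem nil_of (k c : ℕ) (w : Wd) (l : LW) (h1 : c + nzW (w :: l) = k) (h2 : nzW l = k)
    (h3 : w = [] ∨ Zw w) : w = [] ∧ c = 0 := by
  have h4 : nzW (w :: l) = nz w + nzW l := by simp [nzW]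
  have h5 : nz w = 0 := by omega
  refine ⟨?_, by omega⟩
  rcases h3 with h3 | h3
  · exact h3
  · exact absurd h5 (nz_ne_zero w h3)

theorem pur_of (m r n k : ℕ) (x : PhL) (hx : IsHL r n k x) (hY : ∀ i, x i ∈ YY (m + 1))
    (ht : ∀ i q, x i q ≠ 0 → nzW q.tail = k) :
    ∃ u : List ℕ →₀ CW, pur u = x ∧ (∀ s, u s ∈ TT m) ∧ (∀ s q, u s q ≠ 0 → nzW q = k) ∧
      ∀ s, u s ≠ 0 → s.length = r := by
  classical
  have hci : Function.Injective (List.cons ([] : Wd)) := List.cons_injective
  -- the shape of the lists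
  have key : ∀ i q, x i q ≠ 0 → ∃ l, q = [] :: l ∧ kI i = 0 ∧ nzW l = k := by
    intro i q h
    obtain ⟨h1, h2, h3⟩ := mem_YY _ _ (hY i) q h
    cases q with
    | nil => simp at h1
    | cons w l =>
      have h4 := (hx i _ h).2.2
      have h5 := ht i _ h
      obtain ⟨h6, h7⟩ := nil_of k (kI i) w l h4 h5 (h2 w (by simp))
      exact ⟨l, by rw [h6], h7, h5⟩
  let g : CW → CW := fun y => comapDomain (List.cons ([] : Wd)) y hci.injOn
  have g0 : g 0 = 0 := by
    ext q
    rfl
  let u : List ℕ →₀ CW := (comapDomain jL x jL_inj.injOn).mapRange g g0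
  have hu : ∀ s q, u s q = x (jL s) ([] :: q) := fun s q => rfl
  refine ⟨u, ?_, ?_, ?_, ?_⟩
  · ext i q
    by_cases hi : ∃ s, jL s = i
    · obtain ⟨s, rfl⟩ := hi
      rw [pur_jL]
      cases q with
      | nil =>
        rw [cns_nil]
        by_contra h
        obtain ⟨l, h1, _⟩ := key _ _ (Ne.symm h)
        exact List.cons_ne_nil _ _ h1.symm
      | cons w l =>
        rw [cns_apply]
        split_ifs with h
        · rw [hu, ← h]
        · by_contra h2
          obtain ⟨l', h1, _⟩ := key _ _ (Ne.symm h2)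
          exact h (List.cons.inj h1).1.symm
    · rw [pur_ne u i fun s hs => hi ⟨s, hs⟩]
      by_contra h2
      obtain ⟨l', _, h1, _⟩ := key i q (Ne.symm h2)
      exact hi (eq_jL i h1)
  · intro s
    rw [TT, mem_supported']
    intro q hq
    by_contra h
    rw [hu] at h
    obtain ⟨h1, h2, h3⟩ := mem_YY _ _ (hY _) _ h
    apply hq
    refine ⟨?_, fun w hw => h3 w hw⟩
    simpa using h1
  · intro s q h
    rw [hu] at h
    exact ht _ _ h
  · intro s h
    have h1 : ∃ q, u s q ≠ 0 := by
      by_contra h2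
      apply h
      ext q
      by_contra h3
      exact h2 ⟨q, h3⟩
    obtain ⟨q, h1⟩ := h1
    rw [hu] at h1
    rw [← rI_jL]
    exact (hx _ _ h1).1

theorem pur_YY (m : ℕ) (u : List ℕ →₀ CW) (hu : ∀ s, u s ∈ TT m) (i : Ix) :
    pur u i ∈ YY (m + 1) := by
  by_cases hi : ∃ s, jL s = i
  · obtain ⟨s, rfl⟩ := hi
    rw [pur_jL]
    exact cns_nil_YY m _ (hu s)
  · rw [pur_ne u i fun s hs => hi ⟨s, hs⟩]
    exact Submodule.zero_mem _

end BrV
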