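import Pool.Agent.Lib.BrV.DT
import Pool.Agent.Lib.BrV.LPur

/-!
# BrV.DPur: the pure part (paper 4, section 7)

`pur u (jL s) = cns [] (u s)` (`pur_jL`), `0` at the other indices (`pur_ne`); `rI (jL s) = s.length`, `nI (jL s) = (s.map (·+1)).sum`, `kI (jL s) = 0`.
* `pur_IsD`: the lists are `[] :: q`, `q` a list of words ending in `z`.
* `dt_pur`: `u = ∑ single s (single q (u s q))`, so by linearity `DL (pur u) = pur (bd eA u)` (`DL_pur` for each summand, `m = q.length`, `single q _ ∈ TT q.length`), and `BZ (pur u) (jL s) = bz (cns [] (u s)) = u s - cns [] (bz (u s))` (`bz_cns_nil`).  So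
  `dt (pur u) = pur (dU u) + a`, `a (jL s) = (-1)^(s.length) • u s`, `a i = 0` else (`SG_apply`, definition of `dU`, `sgU`).  `IsA k a`: the lists `q` of `u s` are not empty (`nzW q = k ≥ 1`) and their first word has a `z` (`Zw`), so `nzW q.tail < k`.
  `IsD r n k a`: `s.length + q.length = r`.
* `pur_A`: `pur u (jL s) ([] :: q) = u s q`, `nzW ([] :: q).tail = nzW q = k`, not `< k`.
* `pur_split`: `x = (part with nzW q.tail < k) + (part with nzW q.tail = k)` (`tL`, `tL_apply`: `nzW q.tail ≤ nzW q ≤ k`).  In the second part `q ≠ []` (as `k ≥ 1`), `kI i + nzW q = k = nzW q.tail`, so `kI i = 0`, the first word has no `z`, it is `[]` (`[]` or `Zw`), and `i = jL s`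
  (`i.1 = false`, all blocks are `pw _`: `eq_pw`); define `u s := ` the tails: `u s q = x (jL s) ([] :: q)` (`Finsupp.comapDomain` with `jL_inj`, `List.cons_injective`).  As `pur_of` in `LPur.lean`.
-/

namespace BrV

open Finsupp

private theorem dpur_apply (u : UL) (s : List ℕ) (q : LW) :
    pur u (jL s) ([] :: q) = u s q := by
  rw [pur_jL, cns_apply, if_pos rfl]

private theorem dpur_shape (u : UL) (i : Ix) (q : LW) (h : pur u i q ≠ 0) :
    ∃ s q', i = jL s ∧ q = [] :: q' ∧ u s q' ≠ 0 := by
  by_cases hi : ∃ s, jL s = i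
  · obtain ⟨s, rfl⟩ := hi
    rw [pur_jL] at h
    cases q with
    | nil => rw [cns_nil] at h; exact absurd rfl h
    | cons w l =>
      rw [cns_apply] at h
      split_ifs at h with h1
      · exact ⟨s, l, rfl, by rw [h1], h⟩
      · exact absurd rfl h
  · rw [pur_ne u i fun s hs => hi ⟨s, hs⟩] at h
    exact absurd rfl h

private theorem dpur_nzL (L : List ℕ) : nzL (L.map pw) = 0 := by
  induction L with
  | nil => rfl
  | cons a L ih =>
    have h1 : nzL ((a :: L).map pw) = nz (pw a) + nzL (L.map pw) := by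
      simp [nzL]
    rw [h1, ih, nz_pw]

private theorem dpur_kI (L : List ℕ) : kI (jL L) = 0 := by
  show nzL (L.map pw) + 0 = 0
  rw [dpur_nzL]

private theorem dpur_rI (L : List ℕ) : rI (jL L) = L.length := by
  show (L.map pw).length + 0 = L.length
  simp

private theorem dpur_nI (L : List ℕ) : nI (jL L) = (L.map fun a => a + 1).sum := by
  show npL (L.map pw) = _
  unfold npL
  rw [List.map_map]
  congr 1
  apply List.map_congr_left
  intro a _
  show np (pw a) + 1 = a + 1
  rw [np_pw]

private theorem dpur_nz (w : Wd) (h : Zw w) : 1 ≤ nz w := by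
  cases w with
  | nil => simp [Zw] at h
  | cons a w =>
    have h1 : a = false := by simpa [Zw] using h
    rw [h1]
    simp [nz]

private theorem dpur_npW (w : Wd) (l : LW) : npW (w :: l) = np w + npW l := by
  simp [npW]

private theorem dpur_nzW (w : Wd) (l : LW) : nzW (w :: l) = nz w + nzW l := by
  simp [nzW]

private theorem dpur_np0 : np ([] : Wd) = 0 := by
  have h := np_pw 0
  exact h

private theorem dpur_nz0 : nz ([] : Wd) = 0 := by
  have h := nz_pw 0
  exact h

private theorem dpur_eq_jL (i : Ix) (h : kI i = 0) : ∃ L, jL L = i := by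
  obtain ⟨b, l⟩ := i
  have h1 : nzL l + b.toNat = 0 := h
  have h2 : b = false := by
    cases b with
    | false => rfl
    | true => simp at h1
  have h3 : nzL l = 0 := by omega
  have h4 : ∀ l : LB, nzL l = 0 → (l.map np).map pw = l := by
    intro l
    induction l with
    | nil => intro _; rfl
    | cons w l ih =>
      intro h5
      have h6 : nz w + nzL l = 0 := by
        simpa [nzL] using h5
      have h7 : nz w = 0 := by omega
      have h8 : nzL l = 0 := by omega
      rw [List.map_cons, List.map_cons, ih h8, ← eq_pw w h7]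
  refine ⟨l.map np, ?_⟩
  rw [jL, h4 l h3, h2]

private theorem dpur_sgU (u : UL) (s : List ℕ) : sgU u s = (-1 : ℝ) ^ s.length • u s := by
  classical
  induction u using Finsupp.induction_linear with
  | zero => simp
  | add f g hf hg =>
    rw [map_add, Finsupp.add_apply, hf, hg, Finsupp.add_apply, smul_add]
  | single t y =>
    have h1 : sgU (single t y) = (-1 : ℝ) ^ t.length • single t y := by
      rw [sgU, Finsupp.lsum_single]
      rfl
    rw [h1, Finsupp.smul_apply]
    by_cases h2 : t = s
    · rw [h2]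
    · rw [Finsupp.single_apply, if_neg h2, smul_zero, smul_zero]

theorem pur_IsD (r n k : ℕ) (u : UL) (hu : IsU r n k u) : IsD (r + 1) n k (pur u) := by
  intro i q h
  obtain ⟨s, q', rfl, rfl, h1⟩ := dpur_shape u i q h
  obtain ⟨h2, h3, h4, h5⟩ := hu s q' h1
  refine ⟨?_, ?_, ?_, ?_, ?_⟩
  · rw [dpur_rI, List.length_cons]; omega
  · rw [dpur_nI, dpur_npW, dpur_np0, zero_add, h3]
  · rw [dpur_kI, dpur_nzW, dpur_nz0, h4]; simp
  · intro w hw
    rcases List.mem_cons.1 hw with h6 | h6
    · exact Or.inl h6
    · exact Or.inr (h5 w h6)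
  · intro w hw
    exact h5 w hw

private theorem dpur_DL (u : UL) (hu : ∀ s q, u s q ≠ 0 → ∀ w ∈ q, Zw w) :
    DL (pur u) = pur (bd eA u) := by
  have h0 : ∀ s q, u s q ≠ 0 → DL (pur (single s (single q (u s q)))) =
      pur (bd eA (single s (single q (u s q)))) := by
    intro s q h
    apply DL_pur q.length
    intro s'
    rw [TT, mem_supported']
    intro q' hq'
    by_cases h1 : s = s'
    · rw [h1, Finsupp.single_eq_same]
      rw [Finsupp.single_apply]
      split_ifs with h2
      · exfalso
        apply hq'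
        rw [← h2]
        exact ⟨rfl, hu s q h⟩
      · rfl
    · rw [Finsupp.single_apply, if_neg h1]
      rfl
  have h1 : ∀ s, DL (pur (single s (u s))) = pur (bd eA (single s (u s))) := by
    intro s
    have h2 : (single s (u s) : UL) = ∑ q ∈ (u s).support, single s (single q (u s q)) := by
      have h3 : u s = ∑ q ∈ (u s).support, single q (u s q) := (Finsupp.sum_single (u s)).symm
      have h4 : (Finsupp.lsingle s : CW →ₗ[ℝ] UL) (u s) =
          ∑ q ∈ (u s).support, (Finsupp.lsingle s : CW →ₗ[ℝ] UL) (single q (u s q)) := by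
        conv_lhs => rw [h3]
        rw [map_sum]
      exact h4
    rw [h2]
    simp only [map_sum]
    exact Finset.sum_congr rfl fun q hq => h0 s q (Finsupp.mem_support_iff.1 hq)
  have h5 : u = ∑ s ∈ u.support, single s (u s) := (Finsupp.sum_single u).symm
  rw [h5]
  simp only [map_sum]
  exact Finset.sum_congr rfl fun s _ => h1 s

private theorem dpur_a (r n k : ℕ) (u : UL) (hu : IsU r n k u) (s : List ℕ) :
    (dt (pur u) - pur (dU u)) (jL s) = (-1 : ℝ) ^ s.length • u s := by
  have h1 : dt (pur u) = DL (pur u) + SG (BZ (pur u)) := rfl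
  have h2 : dU u = bd eA u - sgU (Finsupp.mapRange.linearMap bz u) := rfl
  have h3 := dpur_DL u fun s q h => (hu s q h).2.2.2
  have h9 : ∀ f g : UL, pur (f - g) = pur f - pur g := fun f g => map_sub pur f g
  rw [h1, h2, h9, h3, Finsupp.sub_apply, Finsupp.add_apply, Finsupp.sub_apply, SG_apply,
    dpur_rI, pur_jL (sgU _), dpur_sgU]
  have h4 : BZ (pur u) (jL s) = u s - cns [] (bz (u s)) := by
    rw [BZ, mapRange.linearMap_apply, mapRange_apply, pur_jL, bz_cns_nil]
  rw [h4, mapRange.linearMap_apply, mapRange_apply, map_smul, smul_sub]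
  abel

private theorem dpur_a0 (r n k : ℕ) (u : UL) (hu : IsU r n k u) (i : Ix)
    (hi : ∀ s, jL s ≠ i) : (dt (pur u) - pur (dU u)) i = 0 := by
  have h1 : dt (pur u) = DL (pur u) + SG (BZ (pur u)) := rfl
  have h2 : dU u = bd eA u - sgU (Finsupp.mapRange.linearMap bz u) := rfl
  have h3 := dpur_DL u fun s q h => (hu s q h).2.2.2
  have h4 : BZ (pur u) i = 0 := by
    rw [BZ, mapRange.linearMap_apply, mapRange_apply, pur_ne u i hi, map_zero]
  have h9 : ∀ f g : UL, pur (f - g) = pur f - pur g := fun f g => map_sub pur f g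
  rw [h1, h2, h9, h3, Finsupp.sub_apply, Finsupp.add_apply, Finsupp.sub_apply, SG_apply,
    h4, pur_ne (sgU _) i hi, smul_zero]
  abel

theorem dt_pur (r n k : ℕ) (hk : 1 ≤ k) (u : UL) (hu : IsU r n k u) :
    ∃ a, IsD r n k a ∧ IsA k a ∧ dt (pur u) = pur (dU u) + a := by
  refine ⟨dt (pur u) - pur (dU u), ?_, ?_, by abel⟩
  · intro i q h
    by_cases hi : ∃ s, jL s = i
    · obtain ⟨s, rfl⟩ := hi
      rw [dpur_a r n k u hu, Finsupp.smul_apply] at h
      have h1 : u s q ≠ 0 := fun h2 => h (by rw [h2, smul_zero])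
      obtain ⟨h2, h3, h4, h5⟩ := hu s q h1
      refine ⟨?_, ?_, ?_, ?_, ?_⟩
      · rw [dpur_rI]; exact h2
      · rw [dpur_nI]; exact h3
      · rw [dpur_kI, zero_add]; exact h4
      · exact fun w hw => Or.inr (h5 w hw)
      · exact fun w hw => h5 w (List.mem_of_mem_tail hw)
    · rw [dpur_a0 r n k u hu i fun s hs => hi ⟨s, hs⟩] at h
      exact absurd rfl h
  · intro i q h
    by_cases hi : ∃ s, jL s = i
    · obtain ⟨s, rfl⟩ := hi
      rw [dpur_a r n k u hu, Finsupp.smul_apply] at h
      have h1 : u s q ≠ 0 := fun h2 => h (by rw [h2, smul_zero])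
      obtain ⟨h2, h3, h4, h5⟩ := hu s q h1
      cases q with
      | nil =>
        have h6 : nzW ([] : LW).tail = 0 := rfl
        rw [h6]; omega
      | cons w l =>
        rw [dpur_nzW] at h4
        have h7 := dpur_nz w (h5 w (by simp))
        show nzW l < k
        omega
    · rw [dpur_a0 r n k u hu i fun s hs => hi ⟨s, hs⟩] at h
      exact absurd rfl h

theorem pur_A (k : ℕ) (u : UL) (hu : ∀ s q, u s q ≠ 0 → nzW q = k) (hA : IsA k (pur u)) :
    u = 0 := by
  ext s q
  by_contra h
  have h0 : u s q ≠ 0 := h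
  have h1 := hu s q h0
  have h2 : pur u (jL s) ([] :: q) ≠ 0 := by rw [dpur_apply]; exact h0
  have h3 : nzW q < k := hA _ _ h2
  omega

theorem pur_split (t n k : ℕ) (hk : 1 ≤ k) (x : PhL) (hx : IsD (t + 1) n k x) :
    ∃ u a, IsU t n k u ∧ IsD (t + 1) n k a ∧ IsA k a ∧ x = pur u + a := by
  classical
  have hci : Function.Injective (List.cons ([] : Wd)) := List.cons_injective
  let g : CW → CW := fun y => comapDomain (List.cons ([] : Wd)) y hci.injOn
  have g0 : g 0 = 0 := by
    ext q
    rfl
  let u : UL := (comapDomain jL x jL_inj.injOn).mapRange g g0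
  have hu : ∀ s q, u s q = x (jL s) ([] :: q) := fun s q => rfl
  have hU : IsU t n k u := by
    intro s q h
    rw [hu] at h
    obtain ⟨h1, h2, h3, h4, h5⟩ := hx _ _ h
    rw [dpur_rI, List.length_cons] at h1
    rw [dpur_nI, dpur_npW, dpur_np0, zero_add] at h2
    rw [dpur_kI, dpur_nzW, dpur_nz0, zero_add, zero_add] at h3
    exact ⟨by omega, h2, h3, fun w hw => h5 w hw⟩
  have hP := pur_IsD t n k u hU
  refine ⟨u, x - pur u, hU, ?_, ?_, by abel⟩
  · intro i q h
    rw [Finsupp.sub_apply, Finsupp.sub_apply] at h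
    by_cases h1 : x i q = 0
    · refine hP i q fun h2 => h ?_
      rw [h1, h2, sub_zero]
    · exact hx i q h1
  · intro i q h
    rw [Finsupp.sub_apply, Finsupp.sub_apply] at h
    by_contra hc
    by_cases h1 : x i q = 0
    · have h2 : pur u i q ≠ 0 := fun h3 => h (by rw [h1, h3, sub_zero])
      obtain ⟨s, q', rfl, rfl, h3⟩ := dpur_shape u i q h2
      rw [hu] at h3
      exact h3 h1
    · obtain ⟨h2, h3, h4, h5, h6⟩ := hx i q h1
      cases q with
      | nil =>
        apply hc
        have h7 : nzW ([] : LW).tail = 0 := rfl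
        rw [h7]; omega
      | cons w l =>
        have h7 : ¬ nzW l < k := hc
        rw [dpur_nzW] at h4
        have h8 : nz w = 0 := by omega
        have h9 : kI i = 0 := by omega
        obtain ⟨s, rfl⟩ := dpur_eq_jL i h9
        have h10 : w = [] := by
          rcases h5 w (by simp) with h11 | h11
          · exact h11
          · have := dpur_nz w h11
            omega
        rw [h10] at h
        apply h
        rw [dpur_apply, hu, sub_self]

end BrV
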