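import Pool.Agent.Lib.BrV.OY
import Pool.Agent.Lib.BrV.LPur

/-!
# BrV.OUb: degrees in the complex `UL` (paper 4, section 6)

`bd e` acts on `single s y` (`s = a :: s'`) by `single s' (e (a+1) y) - (mgN s) ⊗ y`; `mgN s` is supported on lists of length `s.length - 1` with the same `∑ (a+1)`; `e (a+1) = act (bw (pw (a+1)))` raises `npW` by `a + 1`, preserves `nzW`, the length and the property that all words end in `z`
(`act_supp`, `act0_supp`, `act_TT`, `IsW_act`, `np_pw`, `nz_pw`).
* `CU_dU`: also `bz_TT`, `IsW_bz` (`bz` shortens the list by one; `bz0 [w] = 0` for `Zw w`).  `CB_bd`: the same for `bd eA` only.  `CU_yU`, `CB_yU`: `yW_supp`.  `CU_low`: `yW_low` (`npW q ≤ n < 2 j`).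
* `CU_IsU`: `∀ w ∈ q, Zw w` implies `q.length ≤ nzW q = k`.
-/

namespace BrV

open Finsupp

/-- all pairs in the support satisfy `P` -/
private def OUb_S (P : List ℕ → LW → Prop) (u : UL) : Prop := ∀ s q, u s q ≠ 0 → P s q

private theorem OUb_zero (P : List ℕ → LW → Prop) : OUb_S P 0 := fun _ _ h => absurd rfl h

private theorem OUb_add {P : List ℕ → LW → Prop} {x y : UL} (hx : OUb_S P x) (hy : OUb_S P y) :
    OUb_S P (x + y) := by
  intro s q h
  by_cases h1 : x s q ≠ 0
  · exact hx s q h1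
  · rw [not_not] at h1
    refine hy s q fun h2 => h ?_
    rw [Finsupp.add_apply, Finsupp.add_apply, h1, h2, add_zero]

private theorem OUb_smul {P : List ℕ → LW → Prop} {x : UL} (a : ℝ) (hx : OUb_S P x) :
    OUb_S P (a • x) := by
  intro s q h
  refine hx s q fun h2 => h ?_
  rw [Finsupp.smul_apply, Finsupp.smul_apply, h2, smul_zero]

private theorem OUb_sub {P : List ℕ → LW → Prop} {x y : UL} (hx : OUb_S P x) (hy : OUb_S P y) :
    OUb_S P (x - y) := by
  intro s q h
  by_cases h1 : x s q ≠ 0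
  · exact hx s q h1
  · rw [not_not] at h1
    refine hy s q fun h2 => h ?_
    rw [Finsupp.sub_apply, Finsupp.sub_apply, h1, h2, sub_zero]

private theorem OUb_sum {P : List ℕ → LW → Prop} {ι : Type} (t : Finset ι) (f : ι → UL)
    (h : ∀ i ∈ t, OUb_S P (f i)) : OUb_S P (∑ i ∈ t, f i) := by
  classical
  induction t using Finset.induction_on with
  | empty => rw [Finset.sum_empty]; exact OUb_zero P
  | insert i t hi ih =>
    rw [Finset.sum_insert hi]
    exact OUb_add (h i (Finset.mem_insert_self i t))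
      (ih fun j hj => h j (Finset.mem_insert_of_mem hj))

private theorem OUb_map {P P' : List ℕ → LW → Prop} (A : UL →ₗ[ℝ] UL)
    (h : ∀ s q, P s q → OUb_S P' (A (single s (single q 1)))) {u : UL} (hu : OUb_S P u) :
    OUb_S P' (A u) := by
  have h1 : u = ∑ s ∈ u.support, single s (u s) := (Finsupp.sum_single u).symm
  have h2 : ∀ s, (u s) = ∑ q ∈ (u s).support, (u s q) • (single q 1 : CW) := by
    intro s
    conv_lhs => rw [← Finsupp.sum_single (u s)]
    refine Finset.sum_congr rfl fun q _ => ?_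
    rw [Finsupp.smul_single, smul_eq_mul, mul_one]
  rw [h1, map_sum]
  refine OUb_sum _ _ fun s _ => ?_
  have h3 : (single s (u s) : UL) =
      ∑ q ∈ (u s).support, (u s q) • (single s (single q 1) : UL) := by
    conv_lhs => rw [h2 s]
    rw [Finsupp.single_finsetSum]
    exact Finset.sum_congr rfl fun q _ => (Finsupp.smul_single _ _ _).symm
  rw [h3, map_sum]
  refine OUb_sum _ _ fun q hq => ?_
  rw [map_smul]
  exact OUb_smul _ (h s q (hu s q (Finsupp.mem_support_iff.1 hq)))

private theorem OUb_single {P : List ℕ → LW → Prop} (s : List ℕ) (y : CW)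
    (h : ∀ q, y q ≠ 0 → P s q) : OUb_S P (single s y) := by
  intro s' q h1
  by_cases h2 : s' = s
  · subst h2
    rw [Finsupp.single_eq_same] at h1
    exact h q h1
  · rw [Finsupp.single_eq_of_ne h2] at h1
    exact absurd rfl h1

private theorem OUb_mgN (s t : List ℕ) (h : mgN s t ≠ 0) :
    t.length + 1 = s.length ∧ (t.map fun a => a + 1).sum = (s.map fun a => a + 1).sum := by
  induction s generalizing t with
  | nil => exact absurd rfl h
  | cons a s ih =>
    cases s with
    | nil => exact absurd rfl h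
    | cons b l =>
      rw [mgN, Finsupp.sub_apply] at h
      by_cases h1 : t = (a + b + 1) :: l
      · subst h1
        refine ⟨by simp, ?_⟩
        simp only [List.map_cons, List.sum_cons]
        omega
      · rw [Finsupp.single_eq_of_ne h1, zero_sub, neg_ne_zero] at h
        by_cases h2 : t ∈ Set.range (List.cons a)
        · obtain ⟨t', rfl⟩ := h2
          rw [Finsupp.mapDomain_apply List.cons_injective] at h
          obtain ⟨h3, h4⟩ := ih t' h
          refine ⟨by simpa using h3, ?_⟩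
          simp only [List.map_cons, List.sum_cons] at h4 ⊢
          omega
        · rw [Finsupp.mapDomain_of_notMem_range _ _ h2] at h
          exact absurd rfl h

private theorem OUb_bd_single (s : List ℕ) (v : CW) : bd eA (single s v) = bd0 eA s v := by
  rw [bd, lsum_single]
  rfl

private theorem OUb_mem_TT (q : LW) (h : ∀ w ∈ q, Zw w) : (single q 1 : CW) ∈ TT q.length := by
  unfold TT
  exact Finsupp.single_mem_supported ℝ _ ⟨rfl, h⟩

private theorem OUb_TT {m : ℕ} {y : CW} (hy : y ∈ TT m) (q : LW) (h : y q ≠ 0) :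
    q.length = m ∧ ∀ w ∈ q, Zw w := by
  by_contra h2
  exact h ((Finsupp.mem_supported' ℝ y).1 hy q h2)

/-- the differential of the bar complex on the supports -/
private theorem OUb_bd (r n k : ℕ) (C : ℕ → Prop) (u : UL)
    (hu : OUb_S (fun s q => s.length + q.length = r + 1 ∧
      (s.map fun a => a + 1).sum + npW q = n ∧ nzW q = k ∧ (∀ w ∈ q, Zw w) ∧ C q.length) u) :
    OUb_S (fun s q => s.length + q.length = r ∧
      (s.map fun a => a + 1).sum + npW q = n ∧ nzW q = k ∧ (∀ w ∈ q, Zw w) ∧ C q.length)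
      (bd eA u) := by
  refine OUb_map (bd eA) ?_ hu
  rintro s q ⟨h1, h2, h3, h4, h5⟩
  rw [OUb_bd_single]
  cases s with
  | nil => exact OUb_zero _
  | cons a L =>
    have hb : bd0 eA (a :: L) (single q 1 : CW) = single L (eA (a + 1) (single q 1)) -
        (mgN (a :: L)).mapRange (fun t => t • (single q 1 : CW)) (zero_smul _ _) := rfl
    rw [hb]
    refine OUb_sub ?_ ?_
    · refine OUb_single L _ fun q' hq' => ?_
      have h6 : (eA (a + 1) (single q 1 : CW)) ∈ TT q.length :=
        act_TT q.length (bw (pw (a + 1))) _ (OUb_mem_TT q h4)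
      obtain ⟨h7, h8⟩ := OUb_TT h6 q' hq'
      have h9 : act0 q (pw (a + 1)) q' ≠ 0 := by
        have : eA (a + 1) (single q 1 : CW) = act0 q (pw (a + 1)) := act_single _ _
        rwa [this] at hq'
      obtain ⟨-, h10, h11, -, -⟩ := act0_supp q (pw (a + 1)) q' h9
      rw [np_pw] at h10
      rw [nz_pw] at h11
      simp only [List.length_cons, List.map_cons, List.sum_cons] at h1 h2
      refine ⟨by omega, by omega, by omega, h8, ?_⟩
      rw [h7]
      exact h5
    · intro s' q' h6
      rw [Finsupp.mapRange_apply, Finsupp.smul_apply, smul_eq_mul] at h6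
      have h7 : mgN (a :: L) s' ≠ 0 := left_ne_zero_of_mul h6
      have h8 : (single q 1 : CW) q' ≠ 0 := right_ne_zero_of_mul h6
      have h9 : q' = q := by
        by_contra h
        exact h8 (Finsupp.single_eq_of_ne h)
      subst h9
      obtain ⟨h10, h11⟩ := OUb_mgN _ _ h7
      simp only [List.length_cons] at h1 h10
      refine ⟨by omega, ?_, h3, h4, h5⟩
      rw [h11]
      exact h2

private theorem OUb_bz_single (q : LW) : bz (single q 1) = bz0 q := by
  unfold bz
  rw [Finsupp.lift_apply, Finsupp.sum_single_index, one_smul]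
  exact zero_smul _ _

private theorem OUb_bz (M r n k : ℕ) (u : UL)
    (hu : OUb_S (fun s q => s.length + q.length = r + 1 ∧
      (s.map fun a => a + 1).sum + npW q = n ∧ nzW q = k ∧ (∀ w ∈ q, Zw w) ∧ q.length ≤ M) u) :
    OUb_S (fun s q => s.length + q.length = r ∧
      (s.map fun a => a + 1).sum + npW q = n ∧ nzW q = k ∧ (∀ w ∈ q, Zw w) ∧ q.length ≤ M)
      (Finsupp.mapRange.linearMap bz u) := by
  refine OUb_map (Finsupp.mapRange.linearMap bz) ?_ hu
  rintro s q ⟨h1, h2, h3, h4, h5⟩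
  rw [Finsupp.mapRange.linearMap_apply, Finsupp.mapRange_single]
  cases q with
  | nil =>
    have h6 : bz (single [] 1) = 0 := by
      rw [OUb_bz_single]
      rfl
    rw [h6, Finsupp.single_zero]
    exact OUb_zero _
  | cons w l =>
    refine OUb_single s _ fun q' hq' => ?_
    have h6 : bz (single (w :: l) 1) ∈ TT l.length :=
      bz_TT l.length _ (OUb_mem_TT (w :: l) h4)
    obtain ⟨h7, h8⟩ := OUb_TT h6 q' hq'
    have h9 : IsW (npW (w :: l)) (nzW (w :: l)) (single (w :: l) 1 : CW) := by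
      intro q'' hq''
      have h10 : q'' = w :: l := by
        by_contra h
        exact hq'' (Finsupp.single_eq_of_ne h)
      rw [h10]
      exact ⟨rfl, rfl⟩
    obtain ⟨h10, h11⟩ := IsW_bz _ _ _ h9 q' hq'
    simp only [List.length_cons] at h1 h5
    refine ⟨by omega, by omega, by omega, h8, by omega⟩

private theorem OUb_sg {P : List ℕ → LW → Prop} {u : UL} (hu : OUb_S P u) :
    OUb_S P (sgU u) := by
  refine OUb_map sgU ?_ hu
  intro s q h
  have h1 : sgU (single s (single q 1)) = ((-1 : ℝ) ^ s.length) • single s (single q 1) := by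
    rw [sgU, lsum_single]
    rfl
  rw [h1]
  refine OUb_smul _ (OUb_single s _ fun q' hq' => ?_)
  have h10 : q' = q := by
    by_contra h
    exact hq' (Finsupp.single_eq_of_ne h)
  rw [h10]
  exact h

private theorem OUb_CU {M r n k : ℕ} {u : UL} : u ∈ CU M r n k ↔
    OUb_S (fun s q => s.length + q.length = r ∧
      (s.map fun a => a + 1).sum + npW q = n ∧ nzW q = k ∧ (∀ w ∈ q, Zw w) ∧ q.length ≤ M) u := by
  constructor
  · rintro ⟨h1, h2⟩ s q h
    obtain ⟨a, b, c, d⟩ := h1 s q h
    exact ⟨a, b, c, d, h2 s q h⟩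
  · intro h1
    exact ⟨fun s q h => ⟨(h1 s q h).1, (h1 s q h).2.1, (h1 s q h).2.2.1, (h1 s q h).2.2.2.1⟩,
      fun s q h => (h1 s q h).2.2.2.2⟩

private theorem OUb_CB {m r n k : ℕ} {u : UL} : u ∈ CB m r n k ↔
    OUb_S (fun s q => s.length + q.length = r ∧
      (s.map fun a => a + 1).sum + npW q = n ∧ nzW q = k ∧ (∀ w ∈ q, Zw w) ∧ q.length = m) u := by
  constructor
  · rintro ⟨h1, h2⟩ s q h
    obtain ⟨a, b, c, d⟩ := h1 s q h
    exact ⟨a, b, c, d, h2 s q h⟩
  · intro h1
    exact ⟨fun s q h => ⟨(h1 s q h).1, (h1 s q h).2.1, (h1 s q h).2.2.1, (h1 s q h).2.2.2.1⟩,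
      fun s q h => (h1 s q h).2.2.2.2⟩

private theorem OUb_yU (j : ℕ) (u : UL) (s : List ℕ) : yU j u s = yW j (u s) := by
  unfold yU
  rw [Finsupp.mapRange.linearMap_apply, Finsupp.mapRange_apply]

private theorem OUb_nz_pos (w : Wd) (h : Zw w) : 1 ≤ nz w := by
  cases w with
  | nil => simp [Zw] at h
  | cons a w =>
    have h1 : a = false := by simpa [Zw] using h
    rw [h1]
    simp [nz]

private theorem OUb_len (q : LW) (h : ∀ w ∈ q, Zw w) : q.length ≤ nzW q := by
  induction q with
  | nil => exact Nat.zero_le _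
  | cons w l ih =>
    have h1 : nzW (w :: l) = nz w + nzW l := by simp [nzW]
    have h2 := ih fun v hv => h v (List.mem_cons_of_mem _ hv)
    have h3 := OUb_nz_pos w (h w (by simp))
    rw [h1, List.length_cons]
    omega

theorem CU_dU (M r n k : ℕ) (u : UL) (hu : u ∈ CU M (r + 1) n k) : dU u ∈ CU M r n k := by
  rw [OUb_CU] at hu ⊢
  have h1 : dU u = bd eA u - sgU (Finsupp.mapRange.linearMap bz u) := rfl
  rw [h1]
  exact OUb_sub (OUb_bd r n k (fun x => x ≤ M) u hu) (OUb_sg (OUb_bz M r n k u hu))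

theorem CB_bd (m r n k : ℕ) (u : UL) (hu : u ∈ CB m (r + 1) n k) : bd eA u ∈ CB m r n k := by
  rw [OUb_CB] at hu ⊢
  exact OUb_bd r n k (fun x => x = m) u hu

theorem CU_yU (M r n k j : ℕ) (u : UL) (hu : u ∈ CU M r (n + 2 * j) k) : yU j u ∈ CU M r n k := by
  rw [OUb_CU] at hu ⊢
  intro s q h
  rw [OUb_yU] at h
  obtain ⟨l, h1, h2, h3, -, h5, h6⟩ := yW_supp j (u s) q h
  obtain ⟨a1, a2, a3, a4, a5⟩ := hu s l h1
  exact ⟨by omega, by omega, by omega, h6 a4, by omega⟩

theorem CB_yU (m r n k j : ℕ) (u : UL) (hu : u ∈ CB m r (n + 2 * j) k) : yU j u ∈ CB m r n k := by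
  rw [OUb_CB] at hu ⊢
  intro s q h
  rw [OUb_yU] at h
  obtain ⟨l, h1, h2, h3, -, h5, h6⟩ := yW_supp j (u s) q h
  obtain ⟨a1, a2, a3, a4, a5⟩ := hu s l h1
  exact ⟨by omega, by omega, by omega, h6 a4, by omega⟩

theorem CU_low (M r n k j : ℕ) (u : UL) (hu : u ∈ CU M r n k) (hj : n < 2 * j) : yU j u = 0 := by
  rw [OUb_CU] at hu
  ext1 s
  rw [OUb_yU]
  refine yW_low j (u s) fun l hl => ?_
  obtain ⟨a1, a2, a3, a4, a5⟩ := hu s l hl
  omega

theorem CB_le (m r n k : ℕ) : CB m r n k ≤ CU m r n k := by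
  intro u hu
  exact ⟨hu.1, fun s q h => (hu.2 s q h).le⟩

theorem CU_mono (M M' r n k : ℕ) (h : M ≤ M') : CU M r n k ≤ CU M' r n k := by
  intro u hu
  exact ⟨hu.1, fun s q h' => (hu.2 s q h').trans h⟩

theorem CU_IsU (r n k : ℕ) (u : UL) : u ∈ CU k r n k ↔ IsU r n k u := by
  constructor
  · intro h
    exact h.1
  · intro h
    refine ⟨h, fun s q h1 => ?_⟩
    obtain ⟨-, -, h3, h4⟩ := h s q h1
    have h5 := OUb_len q h4
    omega

end BrV
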