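import Pool.Agent.Lib.BrV.SHDef

/-!
# BrV.SLin: linear algebra for quotients `Z / B` (only Mathlib and the definition `HD`)

* `HD_map`: `φ` induces a linear map `Z / B → Z' / B'` (`Submodule.mapQ` of the restriction of `φ` to `Z → Z'`), injective by `h2`, onto by `h3`; `LinearEquiv.ofBijective`, `LinearEquiv.rank_eq`.
* `HD_fun`: `HD_map` with `Z' = ⊤`, `B' = ⊥` in `Fin d → ℝ`, and `rank (⊤ ⧸ ⊥) = rank (Fin d → ℝ) = d` (`rank_fin_fun`).
* `HD_uniq`: `Nat.cast` into cardinals is injective.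
* `HD_zero`: `Z ≤ B`: the quotient is trivial.
* `HD_ker`: `φ` induces `Z / B → Z' / B'`, onto; its kernel is (isomorphic to) `(Z ⊓ φ⁻¹ B') / B`; `rank_quotient_add_rank` or `LinearMap.rank_range_add_rank_ker`; cancel natural numbers (everything is finite: `d + rank = a` with `rank ≤ a < ℵ₀`).
* `HD_fin`: a finite-dimensional `Z`: `Module.finrank_eq_rank`.
-/

namespace BrV

open Finsupp

private theorem rank_quot {V W : Type} [AddCommGroup V] [Module ℝ V] [AddCommGroup W] [Module ℝ W]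
    (Z B : Submodule ℝ V) (T : Z →ₗ[ℝ] W) (hk : ∀ z : Z, T z = 0 ↔ (z : V) ∈ B)
    (hs : Function.Surjective T) :
    Module.rank ℝ (Z ⧸ B.comap Z.subtype) = Module.rank ℝ W := by
  have h : LinearMap.ker T = B.comap Z.subtype := by
    ext z
    rw [LinearMap.mem_ker, hk, Submodule.mem_comap]
    rfl
  rw [← h]
  exact (T.quotKerEquivOfSurjective hs).rank_eq

theorem HD_map {V V' : Type} [AddCommGroup V] [Module ℝ V] [AddCommGroup V'] [Module ℝ V']
    (Z B : Submodule ℝ V) (Z' B' : Submodule ℝ V') (φ : V →ₗ[ℝ] V') (h1 : ∀ z ∈ Z, φ z ∈ Z')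
    (h2 : ∀ z ∈ Z, φ z ∈ B' ↔ z ∈ B) (h3 : ∀ z' ∈ Z', ∃ z ∈ Z, z' - φ z ∈ B') (d : ℕ) :
    HD Z B d ↔ HD Z' B' d := by
  unfold HD
  rw [rank_quot Z B ((B'.comap Z'.subtype).mkQ.comp (φ.restrict h1))]
  · rintro ⟨z, hz⟩
    rw [LinearMap.comp_apply, Submodule.mkQ_apply, Submodule.Quotient.mk_eq_zero,
      Submodule.mem_comap]
    exact h2 z hz
  · intro w
    obtain ⟨⟨z', hz'⟩, rfl⟩ := Submodule.mkQ_surjective _ w
    obtain ⟨z, hz, h⟩ := h3 z' hz'
    refine ⟨⟨z, hz⟩, ?_⟩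
    rw [LinearMap.comp_apply, Submodule.mkQ_apply, Submodule.mkQ_apply, eq_comm,
      Submodule.Quotient.eq, Submodule.mem_comap]
    exact h

theorem HD_fun {V : Type} [AddCommGroup V] [Module ℝ V] (Z B : Submodule ℝ V) (d : ℕ)
    (φ : V →ₗ[ℝ] (Fin d → ℝ)) (h1 : ∀ z ∈ Z, φ z = 0 ↔ z ∈ B) (h2 : ∀ t, ∃ z ∈ Z, φ z = t) :
    HD Z B d := by
  unfold HD
  rw [rank_quot Z B (φ.comp Z.subtype)]
  · exact rank_fin_fun d
  · rintro ⟨z, hz⟩
    exact h1 z hz
  · intro t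
    obtain ⟨z, hz, h⟩ := h2 t
    exact ⟨⟨z, hz⟩, h⟩

theorem HD_uniq {V : Type} [AddCommGroup V] [Module ℝ V] (Z B : Submodule ℝ V) (d d' : ℕ)
    (h : HD Z B d) (h' : HD Z B d') : d = d' := by
  have h1 : (d : Cardinal) = d' := Eq.trans (Eq.symm h) h'
  exact_mod_cast h1

theorem HD_zero {V : Type} [AddCommGroup V] [Module ℝ V] (Z B : Submodule ℝ V) (h : Z ≤ B) :
    HD Z B 0 := by
  refine HD_fun Z B 0 0 (fun z hz => ⟨fun _ => h hz, fun _ => rfl⟩) fun t => ?_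
  exact ⟨0, Z.zero_mem, Subsingleton.elim _ _⟩

theorem HD_ker {V V' : Type} [AddCommGroup V] [Module ℝ V] [AddCommGroup V'] [Module ℝ V']
    (Z B : Submodule ℝ V) (hB : B ≤ Z) (Z' B' : Submodule ℝ V') (φ : V →ₗ[ℝ] V')
    (h1 : ∀ z ∈ Z, φ z ∈ Z') (h2 : ∀ b ∈ B, φ b ∈ B') (h3 : ∀ z' ∈ Z', ∃ z ∈ Z, z' - φ z ∈ B')
    (a b c : ℕ) (ha : HD Z B a) (hb : HD Z' B' b) (hc : c + b = a) :
    HD (Z ⊓ B'.comap φ) B c := by
  unfold HD at ha hb ⊢
  set Tb : (Z ⧸ B.comap Z.subtype) →ₗ[ℝ] (Z' ⧸ B'.comap Z'.subtype) :=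
    (B.comap Z.subtype).mapQ (B'.comap Z'.subtype) (φ.restrict h1) (by
      rintro ⟨z, hz⟩ hz'
      rw [Submodule.mem_comap, Submodule.mem_comap]
      exact h2 z hz') with hTb
  have hTs : Function.Surjective Tb := by
    intro w
    obtain ⟨⟨z', hz'⟩, rfl⟩ := Submodule.mkQ_surjective _ w
    obtain ⟨z, hz, h⟩ := h3 z' hz'
    refine ⟨(B.comap Z.subtype).mkQ ⟨z, hz⟩, ?_⟩
    rw [hTb, Submodule.mkQ_apply, Submodule.mkQ_apply, Submodule.mapQ_apply, eq_comm,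
      Submodule.Quotient.eq, Submodule.mem_comap]
    exact h
  have hr := LinearMap.rank_range_add_rank_ker Tb
  rw [LinearMap.range_eq_top.2 hTs, rank_top, ha, hb] at hr
  have hle : Z ⊓ B'.comap φ ≤ Z := inf_le_left
  set T1 : (Z ⊓ B'.comap φ : Submodule ℝ V) →ₗ[ℝ] LinearMap.ker Tb :=
    LinearMap.codRestrict (LinearMap.ker Tb)
      ((B.comap Z.subtype).mkQ.comp (Submodule.inclusion hle)) (by
        rintro ⟨z, hz⟩
        rw [LinearMap.mem_ker, LinearMap.comp_apply, hTb, Submodule.mkQ_apply,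
          Submodule.mapQ_apply, Submodule.Quotient.mk_eq_zero, Submodule.mem_comap]
        exact hz.2) with hT1
  have hq := rank_quot (Z ⊓ B'.comap φ) B T1 (by
    rintro ⟨z, hz⟩
    rw [← Subtype.coe_inj, hT1, LinearMap.codRestrict_apply, LinearMap.comp_apply,
      Submodule.mkQ_apply, ZeroMemClass.coe_zero, Submodule.Quotient.mk_eq_zero,
      Submodule.mem_comap]
    rfl) (by
    rintro ⟨w, hw⟩
    obtain ⟨⟨z, hz⟩, rfl⟩ := Submodule.mkQ_surjective _ w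
    rw [LinearMap.mem_ker, hTb, Submodule.mkQ_apply, Submodule.mapQ_apply,
      Submodule.Quotient.mk_eq_zero, Submodule.mem_comap] at hw
    exact ⟨⟨z, hz, hw⟩, Subtype.ext rfl⟩)
  rw [hq]
  have hcb : (b : Cardinal) + Module.rank ℝ (LinearMap.ker Tb) = (b : Cardinal) + (c : Cardinal) := by
    rw [hr, ← hc]
    push_cast
    exact add_comm _ _
  exact Cardinal.eq_of_add_eq_add_left hcb (Cardinal.natCast_lt_aleph0)

theorem HD_fin {V : Type} [AddCommGroup V] [Module ℝ V] (Z B : Submodule ℝ V)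
    (h : Module.Finite ℝ Z) (hB : B ≤ Z) :
    HD Z B (Module.finrank ℝ Z - Module.finrank ℝ B) ∧
      Module.finrank ℝ B ≤ Module.finrank ℝ Z := by
  have hle : Module.finrank ℝ B ≤ Module.finrank ℝ Z := Submodule.finrank_mono hB
  refine ⟨?_, hle⟩
  unfold HD
  rw [← Module.finrank_eq_rank]
  congr 1
  have h1 := Submodule.finrank_quotient_add_finrank (B.comap Z.subtype)
  have h2 : Module.finrank ℝ (B.comap Z.subtype) = Module.finrank ℝ B :=
    (Submodule.comapSubtypeEquivOfLe hB).finrank_eq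
  omega

end BrV
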