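import Pool.Agent.Lib.BrV.DAc
import Pool.Agent.Lib.BrV.DLow
import Pool.Agent.Lib.BrV.DPur
import Pool.Agent.Lib.BrV.OUb
import Pool.Agent.Lib.BrV.SLin

/-!
# BrV.DHd: `H_r(Φ0)` is the homology of `UL` (paper 4, section 7)

`1 ≤ k`, `n = 2 L`.  Three times `HD_map`:
1. `ioL : (Z0, B0) → (ZA, BA)`, by `dt_low`.
2. `dt : (ZR, BR) → (ZA, BA)`, by `dt_ex`.
3. `pur : (ZU k r k L, BU k r k L) → (ZR, BR)`, by `pur_split`, `dt_pur`, `pur_A`.
-/

namespace BrV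

open Finsupp

/-! ### closure properties -/

private theorem DHd_dsub (x y : PhL) : dt (x - y) = dt x - dt y := map_sub dt x y

private theorem DHd_za (x : PhL) : 0 + x = x := zero_add x

private theorem DHd_az (x : PhL) : x + 0 = x := add_zero x

private theorem DHd_sz (x : PhL) : x - 0 = x := sub_zero x

private theorem DHd_ss (x : PhL) : x - x = 0 := sub_self x

private theorem DHd_sac (x y : PhL) : x - y + y = x := sub_add_cancel x y

private theorem DHd_aneg (x y : PhL) : x + y + (-1 : ℝ) • y = x :=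
  (congrArg (fun t => x + y + t) (neg_one_smul ℝ y)).trans (add_neg_cancel_right x y)

private theorem DHd_asub (x y : PhL) : y = x + y - x := (add_sub_cancel_left x y).symm

private theorem DHd_add_ne (x y : PhL) (i : Ix) (q : LW) (h : (x + y) i q ≠ 0) :
    x i q ≠ 0 ∨ y i q ≠ 0 := by
  by_contra hc
  rw [not_or, not_not, not_not] at hc
  exact h (by rw [Finsupp.add_apply, Finsupp.add_apply, hc.1, hc.2, add_zero])

private theorem DHd_smul_ne (a : ℝ) (x : PhL) (i : Ix) (q : LW) (h : (a • x) i q ≠ 0) :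
    x i q ≠ 0 := by
  intro h'
  exact h (by rw [Finsupp.smul_apply, Finsupp.smul_apply, h', smul_zero])

private theorem DHd_D_zero (t n k : ℕ) : IsD t n k 0 := fun _ _ h => absurd rfl h

private theorem DHd_D_add (t n k : ℕ) (x y : PhL) (hx : IsD t n k x) (hy : IsD t n k y) :
    IsD t n k (x + y) := fun i q h => (DHd_add_ne x y i q h).elim (hx i q) (hy i q)

private theorem DHd_D_smul (t n k : ℕ) (a : ℝ) (x : PhL) (hx : IsD t n k x) :
    IsD t n k (a • x) := fun i q h => hx i q (DHd_smul_ne a x i q h)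

private theorem DHd_D_sub (t n k : ℕ) (x y : PhL) (hx : IsD t n k x) (hy : IsD t n k y) :
    IsD t n k (x - y) := by
  have h : x - y = x + (-1 : ℝ) • y :=
    (sub_eq_add_neg x y).trans (congrArg (fun t => x + t) (neg_one_smul ℝ y).symm)
  rw [h]
  exact DHd_D_add _ _ _ _ _ hx (DHd_D_smul _ _ _ _ _ hy)

private theorem DHd_A_zero (k : ℕ) : IsA k 0 := fun _ _ h => absurd rfl h

private theorem DHd_A_add (k : ℕ) (x y : PhL) (hx : IsA k x) (hy : IsA k y) :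
    IsA k (x + y) := fun i q h => (DHd_add_ne x y i q h).elim (hx i q) (hy i q)

private theorem DHd_A_smul (k : ℕ) (a : ℝ) (x : PhL) (hx : IsA k x) :
    IsA k (a • x) := fun i q h => hx i q (DHd_smul_ne a x i q h)

private theorem DHd_A_sub (k : ℕ) (x y : PhL) (hx : IsA k x) (hy : IsA k y) :
    IsA k (x - y) := by
  have h : x - y = x + (-1 : ℝ) • y :=
    (sub_eq_add_neg x y).trans (congrArg (fun t => x + t) (neg_one_smul ℝ y).symm)
  rw [h]
  exact DHd_A_add _ _ _ hx (DHd_A_smul _ _ _ hy)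

/-! ### the auxiliary spaces -/

private def DHd_ZA (r n k : ℕ) : Submodule ℝ PhL where
  carrier := {a | IsD r n k a ∧ IsA k a ∧ dt a = 0}
  zero_mem' := ⟨DHd_D_zero _ _ _, DHd_A_zero _, map_zero _⟩
  add_mem' := by
    rintro x y ⟨h1, h2, h3⟩ ⟨h4, h5, h6⟩
    exact ⟨DHd_D_add _ _ _ _ _ h1 h4, DHd_A_add _ _ _ h2 h5,
      by rw [map_add, h3, h6, DHd_az]⟩
  smul_mem' := by
    rintro a x ⟨h1, h2, h3⟩
    exact ⟨DHd_D_smul _ _ _ _ _ h1, DHd_A_smul _ _ _ h2, by rw [map_smul, h3, smul_zero]⟩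

private def DHd_BA (r n k : ℕ) : Submodule ℝ PhL where
  carrier := {a | ∃ w, IsD (r + 1) n k w ∧ IsA k w ∧ dt w = a}
  zero_mem' := ⟨0, DHd_D_zero _ _ _, DHd_A_zero _, map_zero _⟩
  add_mem' := by
    rintro _ _ ⟨x, h1, h2, rfl⟩ ⟨y, h4, h5, rfl⟩
    exact ⟨x + y, DHd_D_add _ _ _ _ _ h1 h4, DHd_A_add _ _ _ h2 h5, map_add _ _ _⟩
  smul_mem' := by
    rintro a _ ⟨x, h1, h2, rfl⟩
    exact ⟨a • x, DHd_D_smul _ _ _ _ _ h1, DHd_A_smul _ _ _ h2, map_smul _ _ _⟩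

private def DHd_ZR (r n k : ℕ) : Submodule ℝ PhL where
  carrier := {x | IsD (r + 1) n k x ∧ IsA k (dt x)}
  zero_mem' := ⟨DHd_D_zero _ _ _, by rw [map_zero]; exact DHd_A_zero _⟩
  add_mem' := by
    rintro x y ⟨h1, h2⟩ ⟨h4, h5⟩
    exact ⟨DHd_D_add _ _ _ _ _ h1 h4, by rw [map_add]; exact DHd_A_add _ _ _ h2 h5⟩
  smul_mem' := by
    rintro a x ⟨h1, h2⟩
    exact ⟨DHd_D_smul _ _ _ _ _ h1, by rw [map_smul]; exact DHd_A_smul _ _ _ h2⟩

private def DHd_BR (r n k : ℕ) : Submodule ℝ PhL where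
  carrier := {x | ∃ w a, IsD (r + 2) n k w ∧ IsD (r + 1) n k a ∧ IsA k a ∧ dt w + a = x}
  zero_mem' := ⟨0, 0, DHd_D_zero _ _ _, DHd_D_zero _ _ _, DHd_A_zero _,
    by rw [map_zero, DHd_az]⟩
  add_mem' := by
    rintro _ _ ⟨w, a, h1, h2, h3, rfl⟩ ⟨w', a', h4, h5, h6, rfl⟩
    exact ⟨w + w', a + a', DHd_D_add _ _ _ _ _ h1 h4, DHd_D_add _ _ _ _ _ h2 h5,
      DHd_A_add _ _ _ h3 h6, by rw [map_add]; abel⟩
  smul_mem' := by
    rintro c _ ⟨w, a, h1, h2, h3, rfl⟩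
    exact ⟨c • w, c • a, DHd_D_smul _ _ _ _ _ h1, DHd_D_smul _ _ _ _ _ h2,
      DHd_A_smul _ _ _ h3, by rw [map_smul]; exact (smul_add c (dt w) a).symm⟩

/-! ### step 1 -/

private theorem DHd_ioL_apply (c : Ph0) (i : Ix) : ioL c i = c i • single [] (1 : ℝ) := rfl

private theorem DHd_ioL_ne (c : Ph0) (i : Ix) (q : LW) (h : ioL c i q ≠ 0) : q = [] ∧ c i ≠ 0 := by
  rw [DHd_ioL_apply, Finsupp.smul_apply, smul_eq_mul] at h
  refine ⟨?_, left_ne_zero_of_mul h⟩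
  by_contra hq
  exact right_ne_zero_of_mul h (Finsupp.single_eq_of_ne hq)

private theorem DHd_ioL_inj (c c' : Ph0) (h : ioL c = ioL c') : c = c' := by
  ext i
  have h2 := DFunLike.congr_fun (DFunLike.congr_fun h i) []
  rw [DHd_ioL_apply, DHd_ioL_apply, Finsupp.smul_apply, Finsupp.smul_apply,
    Finsupp.single_eq_same, smul_eq_mul, smul_eq_mul, mul_one, mul_one] at h2
  exact h2

private theorem DHd_ioL_D (r n k : ℕ) (c : Ph0) (hc : IsH0 r n k c) : IsD r n k (ioL c) := by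
  intro i q h
  obtain ⟨rfl, hi⟩ := DHd_ioL_ne c i q h
  obtain ⟨h1, h2, h3⟩ := hc i hi
  refine ⟨?_, ?_, ?_, ?_, ?_⟩
  · simpa using h1
  · simpa [npW] using h2
  · simpa [nzW] using h3
  · intro w hw
    simp at hw
  · intro w hw
    simp at hw

private theorem DHd_ioL_A (k : ℕ) (hk : 1 ≤ k) (c : Ph0) : IsA k (ioL c) := by
  intro i q h
  obtain ⟨rfl, -⟩ := DHd_ioL_ne c i q h
  simp [nzW]
  omega

private theorem DHd_ioL_E (c : Ph0) : IsE (ioL c) := fun i q h => (DHd_ioL_ne c i q h).1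

private theorem DHd_H0 (r n k : ℕ) (c : Ph0) (x : PhL) (hx : IsD r n k x)
    (h : ∀ i, c i = x i []) : IsH0 r n k c := by
  intro i hi
  rw [h i] at hi
  obtain ⟨h1, h2, h3, -, -⟩ := hx i [] hi
  refine ⟨?_, ?_, ?_⟩
  · simpa using h1
  · simpa [npW] using h2
  · simpa [nzW] using h3

private theorem DHd_step1 (r n k d : ℕ) (hk : 1 ≤ k) :
    HD (Z0 r n k) (B0 r n k) d ↔ HD (V := PhL) (DHd_ZA r n k) (DHd_BA r n k) d := by
  refine HD_map (V' := PhL) (Z0 r n k) (B0 r n k) (DHd_ZA r n k) (DHd_BA r n k) ioL ?_ ?_ ?_ d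
  · rintro z ⟨h1, h2⟩
    exact ⟨DHd_ioL_D r n k z h1, DHd_ioL_A k hk z, by rw [dt_ioL, h2, map_zero]⟩
  · rintro z ⟨h1, h2⟩
    constructor
    · rintro ⟨w, hw1, hw2, hw3⟩
      obtain ⟨y, hy1, hy2, hy3⟩ := dt_low (r + 1) n k w hw1 hw2
        (by rw [hw3]; exact DHd_ioL_E z)
      obtain ⟨e, he1, he2⟩ := IsE_ioL _ hy3
      have hD : IsD (r + 1) n k (w - dt y) :=
        DHd_D_sub _ _ _ _ _ hw1 (IsD_dt (r + 1) n k y hy1)
      refine ⟨e, DHd_H0 (r + 1) n k e _ hD he2, ?_⟩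
      apply DHd_ioL_inj
      rw [← dt_ioL, ← he1, DHd_dsub, dt_dt, DHd_sz, hw3]
    · rintro ⟨e, he1, he2⟩
      exact ⟨ioL e, DHd_ioL_D _ n k e he1, DHd_ioL_A k hk e, by rw [dt_ioL, he2]⟩
  · rintro a ⟨h1, h2, h3⟩
    obtain ⟨y, hy1, hy2, hy3⟩ := dt_low r n k a h1 h2
      (by rw [h3]; exact fun _ _ h => absurd rfl h)
    obtain ⟨c, hc1, hc2⟩ := IsE_ioL _ hy3
    have hD : IsD r n k (a - dt y) := DHd_D_sub _ _ _ _ _ h1 (IsD_dt r n k y hy1)
    refine ⟨c, ⟨DHd_H0 r n k c _ hD hc2, ?_⟩, y, hy1, hy2, ?_⟩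
    · apply DHd_ioL_inj
      rw [← dt_ioL, ← hc1, DHd_dsub, dt_dt, DHd_sz, h3, map_zero]
    · rw [← hc1]
      abel

/-! ### step 2 -/

private theorem DHd_step2 (r n k d : ℕ) :
    HD (V := PhL) (DHd_ZR r n k) (DHd_BR r n k) d ↔ HD (V := PhL) (DHd_ZA r n k) (DHd_BA r n k) d := by
  refine HD_map (V := PhL) (V' := PhL) (DHd_ZR r n k) (DHd_BR r n k) (DHd_ZA r n k) (DHd_BA r n k) dt ?_ ?_ ?_ d
  · rintro x ⟨h1, h2⟩
    exact ⟨IsD_dt r n k x h1, h2, dt_dt x⟩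
  · rintro x ⟨h1, h2⟩
    constructor
    · rintro ⟨w, hw1, hw2, hw3⟩
      obtain ⟨y, hy1, hy2⟩ := dt_ex (r + 1) n k (x - w) (DHd_D_sub _ _ _ _ _ h1 hw1)
        (by rw [DHd_dsub, hw3, DHd_ss])
      exact ⟨y, w, hy1, hw1, hw2, by rw [hy2, DHd_sac]⟩
    · rintro ⟨w, a, h3, h4, h5, rfl⟩
      exact ⟨a, h4, h5, by rw [map_add, dt_dt, DHd_za]⟩
  · rintro a ⟨h1, h2, h3⟩
    obtain ⟨y, hy1, hy2⟩ := dt_ex r n k a h1 h3
    refine ⟨y, ⟨hy1, by rw [hy2]; exact h2⟩, ?_⟩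
    rw [hy2, DHd_ss]
    exact (DHd_BA r n k).zero_mem

/-! ### step 3 -/

private theorem DHd_step3 (r L k d : ℕ) (hk : 1 ≤ k) :
    HD (V := UL) (ZU k r k L) (BU k r k L) d ↔
      HD (V := PhL) (DHd_ZR r (2 * L) k) (DHd_BR r (2 * L) k) d := by
  refine HD_map (V := UL) (V' := PhL) (ZU k r k L) (BU k r k L) (DHd_ZR r (2 * L) k) (DHd_BR r (2 * L) k)
    pur ?_ ?_ ?_ d
  · rintro u ⟨h1, h2⟩
    have h1' : IsU r (2 * L) k u := (CU_IsU _ _ _ _).1 h1
    have h2' : dU u = 0 := h2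
    obtain ⟨a, -, ha2, ha3⟩ := dt_pur r (2 * L) k hk u h1'
    refine ⟨pur_IsD _ _ _ _ h1', ?_⟩
    rw [ha3, h2', map_zero, DHd_za]
    exact ha2
  · rintro u ⟨h1, h2⟩
    have h1' : IsU r (2 * L) k u := (CU_IsU _ _ _ _).1 h1
    constructor
    · rintro ⟨w, a, hw, ha1, ha2, h3⟩
      obtain ⟨v, a1, hv, hb1, hb2, hb3⟩ := pur_split (r + 1) (2 * L) k hk w hw
      obtain ⟨a2, hc1, hc2, hc3⟩ := dt_pur (r + 1) (2 * L) k hk v hv
      have hv' : v ∈ CU k (r + 1) (2 * L) k := (CU_IsU _ _ _ _).2 hv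
      have hdv : dU v ∈ CU k r (2 * L) k := CU_dU _ _ _ _ _ hv'
      have hdv' : IsU r (2 * L) k (dU v) := (CU_IsU _ _ _ _).1 hdv
      refine ⟨v, hv', ?_⟩
      have h4 : pur (u - dU v) = a2 + dt a1 + a := by
        have h5 : pur (u - dU v) = pur u - pur (dU v) := map_sub pur u (dU v)
        rw [h5, ← h3, hb3, map_add, hc3]
        abel
      have h5 : u - dU v = 0 := by
        refine pur_A k (u - dU v) ?_ ?_
        · intro s q hs
          have h6 : (u - dU v) s q = u s q - dU v s q := by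
            rw [Finsupp.sub_apply, Finsupp.sub_apply]
          rw [h6] at hs
          by_cases h7 : u s q = 0
          · have h8 : dU v s q ≠ 0 := by
              intro h8
              exact hs (by rw [h7, h8, sub_zero])
            exact (hdv' s q h8).2.2.1
          · exact (h1' s q h7).2.2.1
        · rw [h4]
          exact DHd_A_add _ _ _ (DHd_A_add _ _ _ hc2 (IsA_dt _ _ hb2)) ha2
      exact (sub_eq_zero.1 h5).symm
    · rintro ⟨v, hv, rfl⟩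
      have hv' : IsU (r + 1) (2 * L) k v := (CU_IsU _ _ _ _).1 hv
      obtain ⟨a, ha1, ha2, ha3⟩ := dt_pur (r + 1) (2 * L) k hk v hv'
      refine ⟨pur v, (-1 : ℝ) • a, pur_IsD _ _ _ _ hv', DHd_D_smul _ _ _ _ _ ha1,
        DHd_A_smul _ _ _ ha2, ?_⟩
      rw [ha3, DHd_aneg]
  · rintro x ⟨h1, h2⟩
    obtain ⟨u, a, hu, ha1, ha2, hx⟩ := pur_split r (2 * L) k hk x h1
    obtain ⟨a', hb1, hb2, hb3⟩ := dt_pur r (2 * L) k hk u hu
    have h3 : IsA k (pur (dU u)) := by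
      have h4 : pur (dU u) = dt x - (a' + dt a) := by
        rw [hx, map_add, hb3]
        abel
      rw [h4]
      exact DHd_A_sub _ _ _ h2 (DHd_A_add _ _ _ hb2 (IsA_dt _ _ ha2))
    have h5 : dU u = 0 := by
      cases r with
      | zero =>
        have hu0 : u = 0 := by
          ext s q
          by_contra hs
          obtain ⟨e1, -, e3, -⟩ := hu s q hs
          have e4 : q = [] := by
            rw [← List.length_eq_zero_iff]
            omega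
          rw [e4] at e3
          simp [nzW] at e3
          omega
        rw [hu0, map_zero]
      | succ r =>
        refine pur_A k (dU u) ?_ h3
        have hu' : u ∈ CU k (r + 1) (2 * L) k := (CU_IsU _ _ _ _).2 hu
        have h6 : IsU r (2 * L) k (dU u) := (CU_IsU _ _ _ _).1 (CU_dU _ _ _ _ _ hu')
        intro s q hs
        exact (h6 s q hs).2.2.1
    refine ⟨u, ⟨(CU_IsU _ _ _ _).2 hu, h5⟩, 0, a, DHd_D_zero _ _ _, ha1, ha2, ?_⟩
    rw [map_zero, DHd_za, hx]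
    exact DHd_asub _ _

theorem HD_tot (r L k d : ℕ) (hk : 1 ≤ k) :
    HD (Z0 r (2 * L) k) (B0 r (2 * L) k) d ↔ HD (V := UL) (ZU k r k L) (BU k r k L) d :=
  (DHd_step1 r (2 * L) k d hk).trans
    ((DHd_step2 r (2 * L) k d).symm.trans (DHd_step3 r L k d hk).symm)

end BrV
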