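import Pool.Agent.Lib.BrV.LCb

/-!
# BrV.LBz: `bz` commutes with the action of `R` (paper 3, (1.5))
-/

namespace BrV

open Finsupp

private theorem lbz_single_R (w : Wd) (b : ℝ) : (single w b : R) = b • bw w := by
  simp [bw]

private theorem lbz_ext_R {M : Type} [AddCommGroup M] [Module ℝ M] {φ ψ : R →ₗ[ℝ] M}
    (h : ∀ w, φ (bw w) = ψ (bw w)) : φ = ψ :=
  Finsupp.lhom_ext fun w b => by
    rw [lbz_single_R, map_smul, map_smul, h w]

private theorem lbz_ext_CW {M : Type} [AddCommGroup M] [Module ℝ M] {φ ψ : CW →ₗ[ℝ] M}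
    (h : ∀ l : LW, φ (single l 1) = ψ (single l 1)) : φ = ψ :=
  Finsupp.lhom_ext fun l b => by
    have h1 : (single l b : CW) = b • (single l 1 : CW) := by simp
    rw [h1, map_smul, map_smul, h l]

private theorem lbz_bz_single (l : LW) : bz (single l 1) = bz0 l := by
  simp [bz, Finsupp.lift_apply]

private theorem lbz_cb_single (u : Wd) (l : LW) : cb (bw u) (single l 1) = single (u :: l) 1 := by
  rw [cb_bw, cns_single]

private theorem lbz_bw_nil (w : Wd) : (bw w : R) [] = if w = [] then 1 else 0 := by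
  unfold bw
  rw [Finsupp.single_apply]

theorem bz_cb_nil (f : R) : bz (cb f (single [] 1)) = f [] • single [] 1 := by
  have h : bz.comp (cb.flip (single [] 1)) =
      (LinearMap.toSpanSingleton ℝ CW (single [] 1)).comp (Finsupp.lapply ([] : Wd)) :=
    lbz_ext_R fun w => by
      rw [LinearMap.comp_apply, LinearMap.flip_apply, LinearMap.comp_apply, lbz_cb_single,
        lbz_bz_single, Finsupp.lapply_apply, LinearMap.toSpanSingleton_apply, lbz_bw_nil]
      rw [bz0]
      split_ifs <;> simp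
  have h2 := LinearMap.congr_fun h f
  exact h2

theorem bz_cb_cb (f g : R) (y : CW) :
    bz (cb f (cb g y)) = cb (mu f g) y - cb f (bz (cb g y)) := by
  -- words
  have hw : ∀ (w v : Wd) (l : LW), bz (cb (bw w) (cb (bw v) (single l 1))) =
      cb (mu (bw w) (bw v)) (single l 1) - cb (bw w) (bz (cb (bw v) (single l 1))) := by
    intro w v l
    rw [lbz_cb_single, lbz_cb_single, lbz_bz_single, lbz_bz_single, mu_bw, cb_bw, cb_single, bz0]
  have h1 : ∀ (w v : Wd) (y : CW), bz (cb (bw w) (cb (bw v) y)) =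
      cb (mu (bw w) (bw v)) y - cb (bw w) (bz (cb (bw v) y)) := by
    intro w v y
    have h : bz.comp ((cb (bw w)).comp (cb (bw v))) =
        cb (mu (bw w) (bw v)) - (cb (bw w)).comp (bz.comp (cb (bw v))) :=
      lbz_ext_CW fun l => hw w v l
    exact LinearMap.congr_fun h y
  have h2 : ∀ (w : Wd) (g : R) (y : CW), bz (cb (bw w) (cb g y)) =
      cb (mu (bw w) g) y - cb (bw w) (bz (cb g y)) := by
    intro w g y
    have h : bz.comp ((cb (bw w)).comp (cb.flip y)) =
        (cb.flip y).comp (mu (bw w)) - (cb (bw w)).comp (bz.comp (cb.flip y)) :=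
      lbz_ext_R fun v => h1 w v y
    exact LinearMap.congr_fun h g
  have h : bz.comp (cb.flip (cb g y)) =
      (cb.flip y).comp (mu.flip g) - cb.flip (bz (cb g y)) :=
    lbz_ext_R fun w => h2 w g y
  exact LinearMap.congr_fun h f

private theorem lbz_bz_sum (a : R) (s : Finset ℕ) (b : ℕ → R) (y : ℕ → CW) :
    bz (cb a (∑ i ∈ s, cb (b i) (y i))) =
      ∑ i ∈ s, cb (mu a (b i)) (y i) - cb a (bz (∑ i ∈ s, cb (b i) (y i))) := by
  rw [map_sum, map_sum, map_sum, map_sum, ← Finset.sum_sub_distrib]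
  exact Finset.sum_congr rfl fun i _ => bz_cb_cb a (b i) (y i)

private theorem lbz_step (f : R) (w u : Wd) (y : CW)
    (ih : ∀ g : R, bz (act g (cb (bw u) y)) = act g (bz (cb (bw u) y))) :
    bz (act f (cb (bw w) (cb (bw u) y))) = act f (bz (cb (bw w) (cb (bw u) y))) := by
  obtain ⟨N, hN⟩ := gc_bound (mu f (bw w))
  obtain ⟨N', hN'⟩ := gc_bound (mu f (mu (bw w) (bw u)))
  have hb : ∀ j, ∃ M, ∀ i, M ≤ i → gc i (mu (bw (pw j)) (bw u)) = 0 := fun j => gc_bound _
  choose M hM using hb
  set K : ℕ := max ((Finset.range N).sup M) N' with hK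
  have hK1 : ∀ j ∈ Finset.range N, ∀ i, K ≤ i → gc i (mu (bw (pw j)) (bw u)) = 0 := by
    intro j hj i hi
    refine hM j i ((Finset.le_sup (f := M) hj).trans ((le_max_left _ _).trans hi))
  have hK2 : ∀ i, K ≤ i → gc i (mu f (mu (bw w) (bw u))) = 0 := fun i hi =>
    hN' i ((le_max_right _ _).trans hi)
  rw [act_cb f (bw w) _ N hN, map_sum]
  have e1 : ∀ j ∈ Finset.range N,
      bz (cb (gc j (mu f (bw w))) (act (bw (pw j)) (cb (bw u) y))) =
        ∑ i ∈ Finset.range K, cb (mu (gc j (mu f (bw w))) (gc i (mu (bw (pw j)) (bw u))))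
          (act (bw (pw i)) y) -
        cb (gc j (mu f (bw w))) (act (bw (pw j)) (bz (cb (bw u) y))) := by
    intro j hj
    rw [← ih, act_cb (bw (pw j)) (bw u) y K (hK1 j hj), lbz_bz_sum]
  rw [Finset.sum_congr rfl e1, Finset.sum_sub_distrib, ← act_cb f (bw w) _ N hN, bz_cb_cb, map_sub,
    act_cb f (mu (bw w) (bw u)) y K hK2]
  congr 1
  rw [Finset.sum_comm]
  refine Finset.sum_congr rfl fun i _ => ?_
  have e2 : gc i (mu f (mu (bw w) (bw u))) =
      ∑ j ∈ Finset.range N, mu (gc j (mu f (bw w))) (gc i (mu (bw (pw j)) (bw u))) := by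
    rw [← mu_assoc]
    exact gc_mu2 i (mu f (bw w)) (bw u) N hN
  rw [e2, map_sum, LinearMap.sum_apply]

private theorem lbz_one (f : R) (w : Wd) :
    bz (act f (cb (bw w) (single [] 1))) = act f (bz (cb (bw w) (single [] 1))) := by
  obtain ⟨N, hN⟩ := gc_bound (mu f (bw w))
  have hN1 : ∀ j, N + 1 ≤ j → gc j (mu f (bw w)) = 0 := fun j hj => hN j (by omega)
  rw [act_cb f (bw w) _ (N + 1) hN1, map_sum, bz_cb_nil, map_smul, act_nil]
  rw [Finset.sum_range_succ']
  have e0 : ∀ j ∈ Finset.range N,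
      bz (cb (gc (j + 1) (mu f (bw w))) (act (bw (pw (j + 1))) (single [] 1))) = 0 := by
    intro j _
    rw [act_nil, lbz_bw_nil]
    have : pw (j + 1) ≠ [] := by
      unfold pw
      simp
    rw [if_neg this]
    simp
  rw [Finset.sum_eq_zero e0, zero_add, act_nil, lbz_bw_nil, if_pos (show pw 0 = ([] : Wd) from rfl), one_smul,
    bz_cb_nil, gc_nil, mu_nil, smul_smul, mul_comm]

private theorem lbz_list (l : LW) : ∀ f : R, bz (act f (single l 1)) = act f (bz (single l 1)) := by
  induction l with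
  | nil =>
    intro f
    rw [act_nil, map_smul, lbz_bz_single, bz0, smul_zero, map_zero]
  | cons w l ih =>
    intro f
    cases l with
    | nil =>
      rw [← lbz_cb_single]
      exact lbz_one f w
    | cons u l =>
      rw [← lbz_cb_single w, ← lbz_cb_single u]
      refine lbz_step f w u (single l 1) fun g => ?_
      rw [lbz_cb_single]
      exact ih g

theorem bz_act (f : R) (y : CW) : bz (act f y) = act f (bz y) := by
  have h : bz.comp (act f) = (act f).comp bz := lbz_ext_CW fun l => lbz_list l f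
  exact LinearMap.congr_fun h y

end BrV
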