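import Pool.Agent.Lib.BrV.LBz

/-!
# BrV.LHom: `bz bz = 0` and the contraction `ss` (paper 3, (1.6))

* `bz_bz`: for `single l 1` by induction on `l`.  `l = w :: u :: x :: l''`; write `w` for `cb (bw w)`, `Z = bz (x :: l'')`, `Y = bz (u :: x :: l'') = cb (u*x) l'' - cb u Z` (`bz_cb_cb`).  `bz l = cb (w*u) (x :: l'') - cb w Y`, and by `bz_cb_cb` again
  `bz (bz l) = cb (w*u*x) l'' - cb (w*u) Z - cb (w*(u*x)) l'' + cb w (bz (cb (u*x) l'')) + cb (w*u) Z - cb w (bz (cb u Z)) = cb w (bz Y) = cb w (bz (bz (u :: x :: l''))) = 0` (`mu_assoc`, induction).  `[]`, `[w]`, `[w, u]` directly (`bz_cb_nil`, `mu_nil`).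
* `bz_cns_nil`: `bz0 ([] :: l) = single l 1 - cns [] (bz0 l)` (`sh [] v = bw v`).
* `bz_YY`, `bz_TT`: `w*v ∈ G'` (`G_mu`) for `w` empty or ending in `z`, `v` ending in `z`, and `nz ≥ 1`.  For `[w]`: `bz0 [w] = single [] 1` or `0`.
* `ss_YY`, `tp_TT`, `YY_split`: from the definitions.  `ss_tp`: on lists of length `≥ 1`.
* `bz_ss`: basis lists of `YY m`.  `[]`: `bz [[]] = []`.  Head `w ≠ []`: `bz ([] :: w :: l) = w :: l - cns [] (bz (w :: l))`, and `ss (bz (w :: l)) = cns [] (bz (w :: l))`: all lists in `bz (w :: l)` (for `l ≠ []`) have a nonempty head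
  (`w*u` has `nz ≥ 1`), and `bz [w] = 0`.  Head `[]`: `ss = 0`, `bz ([] :: l) = l - cns [] (bz l)`, `ss l = cns [] l` (`l` nonempty with nonempty head, or `l = []`: `ss [] = [[]]`), `ss (cns [] _) = 0`.
-/

namespace BrV

open Finsupp

/-! ### private tools -/

private theorem lh_ext {φ ψ : CW →ₗ[ℝ] CW}
    (h : ∀ l : LW, φ (single l 1) = ψ (single l 1)) (y : CW) : φ y = ψ y := by
  have h2 : φ = ψ := Finsupp.lhom_ext fun l b => by
    have h1 : (single l b : CW) = b • (single l 1 : CW) := by simp
    rw [h1, map_smul, map_smul, h l]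
  rw [h2]

private theorem lh_map {s : Set LW} {S : Submodule ℝ CW} (φ : CW →ₗ[ℝ] CW)
    (h : ∀ q ∈ s, φ (single q 1) ∈ S) {y : CW} (hy : y ∈ supported ℝ ℝ s) : φ y ∈ S := by
  rw [Finsupp.supported_eq_span_single] at hy
  have h2 : Submodule.span ℝ ((fun i => (single i 1 : CW)) '' s) ≤ S.comap φ := by
    rw [Submodule.span_le]
    rintro _ ⟨q, hq, rfl⟩
    exact h q hq
  exact h2 hy

private theorem lh_eq {s : Set LW} (φ ψ : CW →ₗ[ℝ] CW)
    (h : ∀ q ∈ s, φ (single q 1) = ψ (single q 1)) {y : CW} (hy : y ∈ supported ℝ ℝ s) :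
    φ y = ψ y := by
  have h1 : (φ - ψ) y ∈ (⊥ : Submodule ℝ CW) := lh_map (φ - ψ) (fun q hq => by
    rw [LinearMap.sub_apply, h q hq, sub_self]
    exact Submodule.zero_mem _) hy
  rw [Submodule.mem_bot, LinearMap.sub_apply, sub_eq_zero] at h1
  exact h1

private theorem lh_sup {s : Set LW} {y : CW} :
    y ∈ supported ℝ ℝ s ↔ ∀ q, y q ≠ 0 → q ∈ s := by
  rw [Finsupp.mem_supported]
  constructor
  · intro h q hq
    exact h (Finsupp.mem_support_iff.2 hq)
  · intro h q hq
    exact h q (Finsupp.mem_support_iff.1 hq)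

private theorem lh_single {s : Set LW} {q : LW} (h : q ∈ s) :
    (single q 1 : CW) ∈ supported ℝ ℝ s := by
  rw [lh_sup]
  intro r hr
  rw [Finsupp.single_apply] at hr
  by_cases hq : q = r
  · exact hq ▸ h
  · rw [if_neg hq] at hr
    exact absurd rfl hr

private theorem lh_bz (l : LW) : bz (single l 1) = bz0 l := by
  simp [bz, Finsupp.lift_apply]

private theorem lh_ss (l : LW) : ss (single l 1) = ss0 l := by
  simp [ss, Finsupp.lift_apply]

private theorem lh_tp_cons (w : Wd) (l : LW) :
    tp (single (w :: l) 1) = if w = [] then 0 else single (w :: l) 1 := by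
  simp [tp, Finsupp.lift_apply]

private theorem lh_cb_single (u : Wd) (l : LW) : cb (bw u) (single l 1) = single (u :: l) 1 := by
  rw [cb_bw, cns_single]

private theorem lh_sh_nil (v : Wd) : sh [] v = bw v := by
  rw [sh]

private theorem lh_cl {s : Set LW} (f : R) (l : LW) (h : ∀ u, f u ≠ 0 → u :: l ∈ s) :
    cl f l ∈ supported ℝ ℝ s := by
  rw [lh_sup]
  intro q hq
  cases q with
  | nil =>
    rw [← cb_single, cb_nil] at hq
    exact absurd rfl hq
  | cons u q =>
    rw [← cb_single, cb_apply, Finsupp.single_apply] at hq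
    by_cases h1 : l = q
    · rw [if_pos h1, mul_one] at hq
      exact h1 ▸ h u hq
    · rw [if_neg h1, mul_zero] at hq
      exact absurd rfl hq

private theorem lh_cns {s t : Set LW} (w : Wd) (h : ∀ q ∈ s, w :: q ∈ t) {y : CW}
    (hy : y ∈ supported ℝ ℝ s) : cns w y ∈ supported ℝ ℝ t :=
  lh_map (cns w) (fun q hq => by
    rw [cns_single]
    exact lh_single (h q hq)) hy

private theorem lh_Zw_ne {w : Wd} (h : Zw w) : w ≠ [] := by
  rintro rfl
  exact absurd h (by unfold Zw; simp)

private theorem lh_G {w : Wd} (h : Zw w) : bw w ∈ G' := by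
  unfold G'
  rw [LinearMap.mem_ker]
  ext u
  rw [del_apply]
  unfold bw
  rw [Finsupp.single_apply, if_neg]
  · rfl
  · rintro rfl
    unfold Zw at h
    simp at h

private theorem lh_sh {w v : Wd} (hw : Zw w) (hv : Zw v) (u : Wd) (hu : sh w v u ≠ 0) :
    Zw u := by
  have h1 : sh w v ∈ G' := by
    rw [← mu_bw]
    exact G_mu _ _ (lh_G hw) (lh_G hv)
  cases u with
  | nil =>
    exfalso
    apply hu
    rw [← mu_bw, mu_nil]
    have h2 : (bw w : R) [] = 0 := by
      unfold bw
      rw [Finsupp.single_apply, if_neg (lh_Zw_ne hw)]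
    rw [h2, zero_mul]
  | cons a u =>
    cases a with
    | true =>
      exfalso
      apply hu
      unfold G' at h1
      rw [LinearMap.mem_ker] at h1
      rw [← del_apply, h1]
      rfl
    | false =>
      unfold Zw
      rfl

theorem bz_bz (y : CW) : bz (bz y) = 0 := by
  have key : ∀ l : LW, bz (bz (single l 1)) = 0 := by
    intro l
    induction l with
    | nil =>
      rw [lh_bz, bz0, map_zero]
    | cons w l ih =>
      cases l with
      | nil =>
        rw [lh_bz, bz0]
        split_ifs
        · rw [lh_bz, bz0]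
        · rw [map_zero]
      | cons u l =>
        cases l with
        | nil =>
          rw [← lh_cb_single w, ← lh_cb_single u, bz_cb_cb, bz_cb_nil, map_sub, bz_cb_nil, map_smul,
            map_smul, bz_cb_nil, mu_nil, smul_smul, mul_comm (bw u []), sub_self]
        | cons x l =>
          rw [← lh_cb_single w, ← lh_cb_single u, ← lh_cb_single x]
          rw [← lh_cb_single u, ← lh_cb_single x] at ih
          rw [bz_cb_cb, map_sub, bz_cb_cb]
          rw [bz_cb_cb (bw u)] at ih ⊢
          rw [map_sub] at ih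
          rw [map_sub, map_sub, bz_cb_cb, bz_cb_cb, mu_assoc]
          have h3 : cb (bw w) (bz (cb (mu (bw u) (bw x)) (single l 1)) -
              bz (cb (bw u) (bz (cb (bw x) (single l 1))))) = 0 := by
            rw [ih, map_zero]
          rw [map_sub] at h3
          rw [sub_eq_zero] at h3
          rw [h3]
          abel
  have h := lh_ext (φ := bz.comp bz) (ψ := 0) (fun l => by
    rw [LinearMap.comp_apply, key l, LinearMap.zero_apply]) y
  rw [LinearMap.comp_apply, LinearMap.zero_apply] at h
  exact h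

theorem bz_cns_nil (t : CW) : bz (cns [] t) = t - cns [] (bz t) := by
  have h := lh_ext (φ := bz.comp (cns [])) (ψ := LinearMap.id - (cns []).comp bz) (fun l => by
    rw [LinearMap.comp_apply, LinearMap.sub_apply, LinearMap.comp_apply, LinearMap.id_apply,
      cns_single, lh_bz, lh_bz]
    cases l with
    | nil => rw [bz0, bz0, if_pos rfl, map_zero, sub_zero]
    | cons v l => rw [bz0, lh_sh_nil, cl_bw]) t
  exact h

theorem bz_TT (m : ℕ) (y : CW) (hy : y ∈ TT (m + 1)) : bz y ∈ TT m := by
  have key : ∀ q : LW, ∀ m : ℕ, q.length = m + 1 → (∀ w ∈ q, Zw w) → bz0 q ∈ TT m := by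
    intro q
    induction q with
    | nil =>
      intro m h _
      simp at h
    | cons w l ih =>
      intro m hm hw
      cases l with
      | nil =>
        rw [bz0, if_neg (lh_Zw_ne (hw w (by simp)))]
        exact Submodule.zero_mem _
      | cons v l =>
        rw [bz0]
        have hlen : l.length + 1 = m := by simpa using hm
        refine Submodule.sub_mem _ ?_ ?_
        · refine lh_cl _ _ fun u hu => ⟨by simpa using hlen, ?_⟩
          intro x hx
          rcases List.mem_cons.1 hx with rfl | hx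
          · exact lh_sh (hw w (by simp)) (hw v (by simp)) _ hu
          · exact hw x (by simp [hx])
        · refine lh_cns w (s := {q | q.length = l.length ∧ ∀ w ∈ q, Zw w}) ?_
            (ih l.length (by simp) fun x hx => hw x (List.mem_cons_of_mem _ hx))
          rintro q ⟨h1, h2⟩
          refine ⟨by simp [h1, hlen], ?_⟩
          intro x hx
          rcases List.mem_cons.1 hx with rfl | hx
          · exact hw _ (by simp)
          · exact h2 x hx
  refine lh_map bz ?_ hy
  rintro q ⟨h1, h2⟩
  rw [lh_bz]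
  exact key q m h1 h2

theorem bz_YY (m : ℕ) (y : CW) (hy : y ∈ YY (m + 1)) : bz y ∈ YY m := by
  refine lh_map bz ?_ hy
  rintro q ⟨h1, h2, h3⟩
  rw [lh_bz]
  cases q with
  | nil => simp at h1
  | cons w l =>
    have hl : ∀ x ∈ l, Zw x := h3
    have hlen : l.length = m := by simpa using h1
    cases l with
    | nil =>
      rw [bz0]
      split_ifs
      · refine lh_single ⟨hlen, ?_, ?_⟩
        · intro x hx
          simp at hx
        · intro x hx
          simp at hx
      · exact Submodule.zero_mem _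
    | cons v l =>
      rw [bz0]
      have hlen' : l.length + 1 = m := by simpa using hlen
      refine Submodule.sub_mem _ ?_ ?_
      · refine lh_cl _ _ fun u hu => ?_
        have hZ : Zw u := by
          rcases h2 w (by simp) with rfl | hw
          · rw [lh_sh_nil] at hu
            unfold bw at hu
            rw [Finsupp.single_apply] at hu
            by_cases h4 : v = u
            · exact h4 ▸ hl v (by simp)
            · rw [if_neg h4] at hu
              exact absurd rfl hu
          · exact lh_sh hw (hl v (by simp)) _ hu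
        refine ⟨by simpa using hlen', ?_, ?_⟩
        · intro x hx
          rcases List.mem_cons.1 hx with rfl | hx
          · exact Or.inr hZ
          · exact Or.inr (hl x (by simp [hx]))
        · intro x hx
          exact hl x (List.mem_cons_of_mem _ hx)
      · have h5 : bz0 (v :: l) ∈ TT l.length := by
          rw [← lh_bz]
          refine bz_TT _ _ (lh_single ⟨by simp, hl⟩)
        refine lh_cns w (s := {q | q.length = l.length ∧ ∀ w ∈ q, Zw w}) ?_ h5
        rintro q ⟨h6, h7⟩
        refine ⟨by simp [h6, hlen'], ?_, h7⟩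
        intro x hx
        rcases List.mem_cons.1 hx with rfl | hx
        · exact h2 _ (by simp)
        · exact Or.inr (h7 x hx)

theorem ss_YY (m : ℕ) (y : CW) (hy : y ∈ YY m) : ss y ∈ YY (m + 1) := by
  refine lh_map ss ?_ hy
  rintro q ⟨h1, h2, h3⟩
  rw [lh_ss]
  cases q with
  | nil =>
    rw [ss0]
    refine lh_single ⟨by simpa using h1.symm, ?_, ?_⟩
    · intro x hx
      exact Or.inl (by simpa using hx)
    · intro x hx
      simp at hx
  | cons w l =>
    rw [ss0]
    split_ifs with hw
    · exact Submodule.zero_mem _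
    · have hw' : Zw w := (h2 w (by simp)).resolve_left hw
      refine lh_single ⟨by simpa using h1, ?_, ?_⟩
      · intro x hx
        rcases List.mem_cons.1 hx with rfl | hx
        · exact Or.inl rfl
        · exact h2 x hx
      · intro x hx
        have hx' : x ∈ w :: l := hx
        rcases List.mem_cons.1 hx' with rfl | hx'
        · exact hw'
        · exact h3 x hx'

private theorem lh_ss_cns (t : CW) : ss (cns [] t) = 0 := by
  have h := lh_ext (φ := ss.comp (cns [])) (ψ := 0) (fun l => by
    rw [LinearMap.comp_apply, LinearMap.zero_apply, cns_single, lh_ss, ss0, if_pos rfl]) t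
  exact h

private theorem lh_ss_TT (m : ℕ) (t : CW) (ht : t ∈ TT (m + 1)) : ss t = cns [] t := by
  refine lh_eq ss (cns []) ?_ ht
  rintro q ⟨h1, h2⟩
  cases q with
  | nil => simp at h1
  | cons w l =>
    rw [lh_ss, ss0, if_neg (lh_Zw_ne (h2 w (by simp))), cns_single]

theorem bz_ss (m : ℕ) (y : CW) (hy : y ∈ YY m) : bz (ss y) + ss (bz y) = y := by
  refine lh_eq (bz.comp ss + ss.comp bz) LinearMap.id ?_ hy
  rintro q ⟨h1, h2, h3⟩
  rw [LinearMap.add_apply, LinearMap.comp_apply, LinearMap.comp_apply, LinearMap.id_apply]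
  cases q with
  | nil =>
    rw [lh_ss, ss0, lh_bz, lh_bz, bz0, bz0, if_pos rfl, map_zero, add_zero]
  | cons w l =>
    have hl : ∀ x ∈ l, Zw x := h3
    by_cases hw : w = []
    · subst hw
      rw [lh_ss, ss0, if_pos rfl, map_zero, zero_add, ← cns_single, bz_cns_nil, map_sub, lh_ss_cns,
        sub_zero, cns_single, lh_ss]
      cases l with
      | nil => rw [ss0]
      | cons v l => rw [ss0, if_neg (lh_Zw_ne (hl v (by simp)))]
    · have hw' : Zw w := (h2 w (by simp)).resolve_left hw
      rw [lh_ss, ss0, if_neg hw, ← cns_single [] (w :: l), bz_cns_nil]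
      have h4 : ss (bz (single (w :: l) 1)) = cns [] (bz (single (w :: l) 1)) := by
        cases l with
        | nil =>
          rw [lh_bz, bz0, if_neg hw, map_zero, map_zero]
        | cons v l =>
          refine lh_ss_TT l.length _ (bz_TT _ _ (lh_single ⟨by simp, ?_⟩))
          intro x hx
          rcases List.mem_cons.1 hx with rfl | hx
          · exact hw'
          · exact hl x hx
      rw [h4, sub_add_cancel]

private theorem lh_IsW {n k : ℕ} {y : CW} :
    IsW n k y ↔ y ∈ supported ℝ ℝ {q : LW | npW q = n ∧ nzW q = k} := by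
  rw [lh_sup]
  rfl

private theorem lh_npW (w : Wd) (l : LW) : npW (w :: l) = np w + npW l := by
  unfold npW
  rw [List.map_cons, List.sum_cons]

private theorem lh_nzW (w : Wd) (l : LW) : nzW (w :: l) = nz w + nzW l := by
  unfold nzW
  rw [List.map_cons, List.sum_cons]

private theorem lh_np_nil : np [] = 0 := rfl

private theorem lh_nz_nil : nz [] = 0 := rfl

theorem IsW_bz (n k : ℕ) (y : CW) (hy : IsW n k y) : IsW n k (bz y) := by
  rw [lh_IsW] at hy ⊢
  have key : ∀ q : LW,
      bz0 q ∈ supported ℝ ℝ {r : LW | npW r = npW q ∧ nzW r = nzW q} := by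
    intro q
    induction q with
    | nil =>
      rw [bz0]
      exact Submodule.zero_mem _
    | cons w l ih =>
      cases l with
      | nil =>
        rw [bz0]
        split_ifs with hw
        · subst hw
          refine lh_single ⟨?_, ?_⟩
          · rw [lh_npW, lh_np_nil, zero_add]
          · rw [lh_nzW, lh_nz_nil, zero_add]
        · exact Submodule.zero_mem _
      | cons v l =>
        rw [bz0]
        refine Submodule.sub_mem _ ?_ ?_
        · refine lh_cl _ _ fun u hu => ?_
          have h1 := IsH_mu _ _ _ _ _ _ (IsH_bw w) (IsH_bw v)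
          rw [mu_bw] at h1
          have h2 := h1 u hu
          refine ⟨?_, ?_⟩
          · rw [lh_npW, lh_npW, lh_npW, h2.1, add_assoc]
          · rw [lh_nzW, lh_nzW, lh_nzW, h2.2, add_assoc]
        · refine lh_cns w ?_ ih
          rintro r ⟨h1, h2⟩
          refine ⟨?_, ?_⟩
          · rw [lh_npW, lh_npW w, h1]
          · rw [lh_nzW, lh_nzW w, h2]
  refine lh_map bz ?_ hy
  rintro q ⟨h1, h2⟩
  rw [lh_bz]
  have h3 := key q
  rw [h1, h2] at h3
  exact h3

theorem IsW_ss (n k : ℕ) (y : CW) (hy : IsW n k y) : IsW n k (ss y) := by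
  rw [lh_IsW] at hy ⊢
  refine lh_map ss ?_ hy
  rintro q ⟨h1, h2⟩
  rw [lh_ss]
  cases q with
  | nil =>
    rw [ss0]
    refine lh_single ⟨?_, ?_⟩
    · rw [lh_npW, lh_np_nil, zero_add, h1]
    · rw [lh_nzW, lh_nz_nil, zero_add, h2]
  | cons w l =>
    rw [ss0]
    split_ifs
    · exact Submodule.zero_mem _
    · refine lh_single ⟨?_, ?_⟩
      · rw [lh_npW, lh_np_nil, zero_add, h1]
      · rw [lh_nzW, lh_nz_nil, zero_add, h2]

theorem ss_tp (m : ℕ) (y : CW) (hy : y ∈ YY (m + 1)) : ss y = cns [] (tp y) := by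
  refine lh_eq ss ((cns []).comp tp) ?_ hy
  rintro q ⟨h1, -, -⟩
  rw [LinearMap.comp_apply]
  cases q with
  | nil => simp at h1
  | cons w l =>
    rw [lh_ss, ss0, lh_tp_cons]
    split_ifs
    · rw [map_zero]
    · rw [cns_single]

theorem tp_TT (m : ℕ) (y : CW) (hy : y ∈ YY (m + 1)) : tp y ∈ TT (m + 1) := by
  refine lh_map tp ?_ hy
  rintro q ⟨h1, h2, h3⟩
  cases q with
  | nil => simp at h1
  | cons w l =>
    rw [lh_tp_cons]
    split_ifs with hw
    · exact Submodule.zero_mem _
    · refine lh_single ⟨h1, ?_⟩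
      intro x hx
      rcases List.mem_cons.1 hx with rfl | hx
      · exact (h2 _ (by simp)).resolve_left hw
      · exact h3 x hx

theorem tp_cns_nil (t : CW) : tp (cns [] t) = 0 := by
  have h := lh_ext (φ := tp.comp (cns [])) (ψ := 0) (fun l => by
    rw [LinearMap.comp_apply, LinearMap.zero_apply, cns_single, lh_tp_cons, if_pos rfl]) t
  exact h

theorem tp_of_TT (m : ℕ) (t : CW) (ht : t ∈ TT (m + 1)) : tp t = t := by
  refine lh_eq tp LinearMap.id ?_ ht
  rintro q ⟨h1, h2⟩
  cases q with
  | nil => simp at h1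
  | cons w l =>
    rw [lh_tp_cons, if_neg (lh_Zw_ne (h2 w (by simp))), LinearMap.id_apply]

theorem cns_nil_YY (m : ℕ) (t : CW) (ht : t ∈ TT m) : cns [] t ∈ YY (m + 1) := by
  refine lh_cns [] ?_ ht
  rintro q ⟨h1, h2⟩
  refine ⟨by simp [h1], ?_, h2⟩
  intro x hx
  rcases List.mem_cons.1 hx with rfl | hx
  · exact Or.inl rfl
  · exact Or.inr (h2 x hx)

private noncomputable def lh_dl : CW →ₗ[ℝ] CW := Finsupp.lift CW ℝ LW fun q =>
  match q with
  | [] => 0
  | w :: l => if w = [] then single l 1 else 0

private theorem lh_dl_cons (w : Wd) (l : LW) :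
    lh_dl (single (w :: l) 1) = if w = [] then single l 1 else 0 := by
  simp [lh_dl, Finsupp.lift_apply]

theorem YY_split (m : ℕ) (y : CW) (hy : y ∈ YY (m + 1)) : ∃ t ∈ TT m, y = tp y + cns [] t := by
  refine ⟨lh_dl y, ?_, ?_⟩
  · refine lh_map lh_dl ?_ hy
    rintro q ⟨h1, h2, h3⟩
    cases q with
    | nil => simp at h1
    | cons w l =>
      rw [lh_dl_cons]
      split_ifs
      · exact lh_single ⟨by simpa using h1, h3⟩
      · exact Submodule.zero_mem _
  · refine lh_eq LinearMap.id (tp + (cns []).comp lh_dl) ?_ hy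
    rintro q ⟨h1, h2, h3⟩
    rw [LinearMap.add_apply, LinearMap.comp_apply, LinearMap.id_apply]
    cases q with
    | nil => simp at h1
    | cons w l =>
      rw [lh_dl_cons, lh_tp_cons]
      by_cases hw : w = []
      · rw [if_pos hw, if_pos hw, cns_single, zero_add, hw]
      · rw [if_neg hw, if_neg hw, map_zero, add_zero]

end BrV
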