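import Pool.Agent.Lib.BrV.LCb

/-!
# BrV.LSup: supports and degrees of `act` (paper 3, section 1)

* `act0_supp`: induction on `l` (for all `v`).  `l = w :: l'`: a term `u :: q'` with `gc j (sh v w) u ≠ 0`, `act0 l' (pw j) q' ≠ 0`: `gc_IsH` gives `np u + j = np v + np w`, `nz u = nz v + nz w`.
* `act_supp`: bilinearity.
* `act_TT`, `act_YY`: `gc j (sh v w) ∈ G'` (`gc_mem`), so `u` is empty or ends in `z`; if `w` ends in `z` then `nz u ≥ 1`, so `u` ends in `z`.  Induction on the list for `TT` (all lists of words ending in `z`), then `YY`.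
* `act_one`: for `w` empty or ending in `z`: `bw w ∈ G'`, `gc_G`: `act0 (w :: l) [] = cb (bw w) (act0 l [])`; induction.
* `act_pw_nil`: `act_cb` with `g = bw []`: `gc j (bw (pw a)) = if a = j then bw [] else 0` (`gc_pw` with `g = bw []`, `nil_mu`).
* `act_fl`: `fl k` keeps the lists whose tail has `z`-degree `< k`; `act` preserves the `z`-degree of the tail (`act0_supp`).
-/

namespace BrV

open Finsupp

private theorem sup_act_bw (v : Wd) (y : CW) :
    act (bw v) y = y.sum fun l b => b • act0 l v := by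
  unfold act bw
  rw [Finsupp.lift_apply, Finsupp.sum_single_index, one_smul, Finsupp.lift_apply]
  exact zero_smul _ _

private theorem sup_expand (f : R) (y : CW) (q : LW) :
    act f y q = ∑ v ∈ f.support, ∑ l ∈ y.support, f v * (y l * act0 l v q) := by
  have h1 : act f y = f.sum fun v a => a • act (bw v) y := by
    have h2 : f = f.sum fun v a => a • bw v := by
      conv_lhs => rw [← Finsupp.sum_single f]
      unfold bw
      simp only [Finsupp.smul_single, smul_eq_mul, mul_one]
    conv_lhs => rw [h2]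
    rw [Finsupp.sum, map_sum, LinearMap.sum_apply, Finsupp.sum]
    refine Finset.sum_congr rfl fun v _ => ?_
    rw [map_smul, LinearMap.smul_apply]
  rw [h1, Finsupp.sum, Finsupp.finsetSum_apply]
  refine Finset.sum_congr rfl fun v _ => ?_
  rw [Finsupp.smul_apply, sup_act_bw, Finsupp.sum, Finsupp.finsetSum_apply, smul_eq_mul,
    Finset.mul_sum]
  refine Finset.sum_congr rfl fun l _ => ?_
  rw [Finsupp.smul_apply, smul_eq_mul]

private theorem sup_np_pw (j : ℕ) : np (pw j) = j := by
  simp [np, pw]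

private theorem sup_nz_pw (j : ℕ) : nz (pw j) = 0 := by
  simp [nz, pw, List.count_replicate]

private theorem sup_sh_IsH (v w : Wd) : IsH (np v + np w) (nz v + nz w) (sh v w) := by
  rw [← mu_bw]
  exact IsH_mu _ _ _ _ _ _ (IsH_bw v) (IsH_bw w)

private theorem sup_G (f : R) (hf : f ∈ G') (u : Wd) (hu : f u ≠ 0) : u = [] ∨ Zw u := by
  cases u with
  | nil => exact Or.inl rfl
  | cons a u =>
    cases a with
    | false => exact Or.inr rfl
    | true =>
      exfalso
      apply hu
      have h1 : del true f = 0 := hf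
      rw [← del_apply, h1]
      rfl

private theorem sup_cons (w : Wd) (l : LW) (v : Wd) (q : LW) (h : act0 (w :: l) v q ≠ 0) :
    ∃ u q' j, q = u :: q' ∧ gc j (sh v w) u ≠ 0 ∧ act0 l (pw j) q' ≠ 0 := by
  rw [act0, Finsupp.finsetSum_apply] at h
  obtain ⟨j, -, hj⟩ := Finset.exists_ne_zero_of_sum_ne_zero h
  cases q with
  | nil => exact absurd (cb_nil _ _) hj
  | cons u q' =>
    rw [cb_apply] at hj
    exact ⟨u, q', j, rfl, left_ne_zero_of_mul hj, right_ne_zero_of_mul hj⟩

private theorem sup_nil (v : Wd) (q : LW) (h : act0 [] v q ≠ 0) : v = [] ∧ q = [] := by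
  rw [act0] at h
  by_cases hv : v = []
  · rw [if_pos hv] at h
    refine ⟨hv, ?_⟩
    by_contra hq
    exact h (Finsupp.single_eq_of_ne hq)
  · rw [if_neg hv] at h
    exact absurd rfl h

private theorem sup_np_cons (u : Wd) (q : LW) : npW (u :: q) = np u + npW q := by
  simp [npW]

private theorem sup_nz_cons (u : Wd) (q : LW) : nzW (u :: q) = nz u + nzW q := by
  simp [nzW]

theorem act0_supp (l : LW) (v : Wd) (q : LW) (h : act0 l v q ≠ 0) :
    q.length = l.length ∧ npW q = np v + npW l ∧ nzW q = nz v + nzW l ∧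
      nzW q.tail = nzW l.tail ∧ npW l.tail ≤ npW q.tail := by
  induction l generalizing v q with
  | nil =>
    obtain ⟨rfl, rfl⟩ := sup_nil v q h
    simp [np, nz]
  | cons w l ih =>
    obtain ⟨u, q', j, rfl, h1, h2⟩ := sup_cons w l v q h
    obtain ⟨h3, h4⟩ := gc_IsH _ _ j _ (sup_sh_IsH v w) u h1
    obtain ⟨i1, i2, i3, -, -⟩ := ih _ _ h2
    rw [sup_np_pw] at i2
    rw [sup_nz_pw] at i3
    rw [sup_np_cons, sup_np_cons, sup_nz_cons, sup_nz_cons, List.length_cons, List.length_cons,
      List.tail_cons, List.tail_cons]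
    refine ⟨?_, ?_, ?_, ?_, ?_⟩ <;> omega

theorem act_supp (f : R) (y : CW) (q : LW) (h : act f y q ≠ 0) :
    ∃ v l, f v ≠ 0 ∧ y l ≠ 0 ∧ act0 l v q ≠ 0 := by
  rw [sup_expand] at h
  obtain ⟨v, -, hv⟩ := Finset.exists_ne_zero_of_sum_ne_zero h
  obtain ⟨l, -, hl⟩ := Finset.exists_ne_zero_of_sum_ne_zero hv
  exact ⟨v, l, left_ne_zero_of_mul hl, left_ne_zero_of_mul (right_ne_zero_of_mul hl),
    right_ne_zero_of_mul (right_ne_zero_of_mul hl)⟩

private theorem sup_Zw (l : LW) (v : Wd) (q : LW) (h : act0 l v q ≠ 0) (hl : ∀ w ∈ l, Zw w) :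
    ∀ w ∈ q, Zw w := by
  induction l generalizing v q with
  | nil =>
    obtain ⟨-, rfl⟩ := sup_nil v q h
    simp
  | cons w l ih =>
    obtain ⟨u, q', j, rfl, h1, h2⟩ := sup_cons w l v q h
    obtain ⟨-, h4⟩ := gc_IsH _ _ j _ (sup_sh_IsH v w) u h1
    have hw : 1 ≤ nz w := by
      have h5 : Zw w := hl w (by simp)
      cases w with
      | nil => exact absurd h5 (by simp [Zw])
      | cons a w =>
        have h6 : a = false := by simpa [Zw] using h5
        rw [h6]
        simp [nz]
    have hu : Zw u := by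
      rcases sup_G _ (gc_mem j _) u h1 with h5 | h5
      · rw [h5] at h4
        have : nz [] = 0 := by simp [nz]
        omega
      · exact h5
    intro x hx
    rcases List.mem_cons.1 hx with rfl | hx
    · exact hu
    · exact ih _ _ h2 (fun y hy => hl y (List.mem_cons_of_mem _ hy)) x hx

theorem act_TT (m : ℕ) (f : R) (y : CW) (hy : y ∈ TT m) : act f y ∈ TT m := by
  unfold TT at hy ⊢
  rw [Finsupp.mem_supported'] at hy ⊢
  intro q hq
  by_contra h
  obtain ⟨v, l, -, hl, h0⟩ := act_supp f y q h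
  have hl' : l.length = m ∧ ∀ w ∈ l, Zw w := by
    by_contra hc
    exact hl (hy l hc)
  exact hq ⟨(act0_supp l v q h0).1.trans hl'.1, sup_Zw l v q h0 hl'.2⟩

theorem act_YY (m : ℕ) (f : R) (y : CW) (hy : y ∈ YY m) : act f y ∈ YY m := by
  unfold YY at hy ⊢
  rw [Finsupp.mem_supported'] at hy ⊢
  intro q hq
  by_contra h
  obtain ⟨v, l, -, hl, h0⟩ := act_supp f y q h
  have hl' : l.length = m ∧ (∀ w ∈ l, w = [] ∨ Zw w) ∧ ∀ w ∈ l.tail, Zw w := by
    by_contra hc
    exact hl (hy l hc)
  apply hq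
  refine ⟨(act0_supp l v q h0).1.trans hl'.1, ?_⟩
  cases l with
  | nil =>
    obtain ⟨-, rfl⟩ := sup_nil v q h0
    simp
  | cons w l =>
    obtain ⟨u, q', j, rfl, h1, h2⟩ := sup_cons w l v q h0
    have h3 := sup_Zw l _ _ h2 hl'.2.2
    refine ⟨fun x hx => ?_, h3⟩
    rcases List.mem_cons.1 hx with rfl | hx
    · exact sup_G _ (gc_mem j _) _ h1
    · exact Or.inr (h3 x hx)

theorem TT_le_YY (m : ℕ) : TT m ≤ YY m := by
  unfold TT YY
  refine Finsupp.supported_mono ?_
  rintro q ⟨h1, h2⟩
  exact ⟨h1, fun w hw => Or.inr (h2 w hw), fun w hw => h2 w (List.mem_of_mem_tail hw)⟩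

private theorem sup_bw_G (w : Wd) (h : w = [] ∨ Zw w) : bw w ∈ G' := by
  have h1 : del true (bw w) = 0 := by
    ext u
    rw [del_apply]
    refine Finsupp.single_eq_of_ne ?_
    rintro rfl
    rcases h with h | h
    · exact absurd h (by simp)
    · simp [Zw] at h
  exact h1

private theorem sup_one0 (l : LW) (h1 : ∀ w ∈ l, w = [] ∨ Zw w) :
    act0 l [] = single l 1 := by
  induction l with
  | nil => rw [act0, if_pos rfl]
  | cons w l ih =>
    have h2 : sh [] w = bw w := by rw [← mu_bw, nil_mu]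
    rw [act0, h2, Finset.sum_eq_single_of_mem 0 (by simp)]
    · rw [gc_G _ _ (sup_bw_G w (h1 w (by simp))), if_pos rfl, cb_bw]
      have h3 : pw 0 = [] := rfl
      rw [h3, ih (fun x hx => h1 x (List.mem_cons_of_mem _ hx)), cns_single]
    · intro j _ hj
      rw [gc_G _ _ (sup_bw_G w (h1 w (by simp))), if_neg hj, map_zero, LinearMap.zero_apply]

theorem act_one (m : ℕ) (y : CW) (hy : y ∈ YY m) : act (bw []) y = y := by
  rw [sup_act_bw]
  conv_rhs => rw [← Finsupp.sum_single y]
  refine Finset.sum_congr rfl fun l hl => ?_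
  have hl' : l.length = m ∧ (∀ w ∈ l, w = [] ∨ Zw w) ∧ ∀ w ∈ l.tail, Zw w := by
    by_contra hc
    unfold YY at hy
    rw [Finsupp.mem_supported'] at hy
    exact (Finsupp.mem_support_iff.1 hl) (hy l hc)
  show y l • act0 l [] = single l (y l)
  rw [sup_one0 l hl'.2.1, Finsupp.smul_single, smul_eq_mul, mul_one]

theorem IsW_act (a b n k : ℕ) (f : R) (y : CW) (hf : IsH a b f) (hy : IsW n k y) :
    IsW (a + n) (b + k) (act f y) := by
  intro q hq
  obtain ⟨v, l, hv, hl, h0⟩ := act_supp f y q hq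
  obtain ⟨h1, h2⟩ := hf v hv
  obtain ⟨h3, h4⟩ := hy l hl
  obtain ⟨-, h5, h6, -, -⟩ := act0_supp l v q h0
  omega

theorem act_pw_nil (a : ℕ) (y : CW) :
    act (bw (pw a)) (cns [] y) = cns [] (act (bw (pw a)) y) := by
  have h1 : ∀ j, gc j (mu (bw (pw a)) (bw [])) = if a = j then bw [] else 0 := by
    intro j
    rw [mu_one]
    have h2 := gc_pw a j (bw []) (sup_bw_G [] (Or.inl rfl))
    rwa [nil_mu] at h2
  rw [← cb_bw, act_cb (bw (pw a)) (bw []) y (a + 1) (fun j hj => by
    rw [h1, if_neg (by omega)])]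
  rw [Finset.sum_eq_single_of_mem a (by simp), h1, if_pos rfl, cb_bw]
  intro j _ hj
  rw [h1, if_neg (Ne.symm hj), map_zero, LinearMap.zero_apply]

theorem fl_apply (k : ℕ) (y : CW) (q : LW) : fl k y q = if nzW q.tail < k then y q else 0 := by
  unfold fl
  rw [Finsupp.lift_apply, Finsupp.sum, Finsupp.finsetSum_apply]
  have h : ∀ l ∈ y.support, (y l • (if nzW l.tail < k then single l 1 else (0 : CW))) q =
      if l = q then (if nzW q.tail < k then y q else 0) else 0 := by
    intro l _
    by_cases hlq : l = q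
    · subst hlq
      rw [if_pos rfl]
      split_ifs with h1
      · rw [Finsupp.smul_apply, Finsupp.single_eq_same, smul_eq_mul, mul_one]
      · simp
    · rw [if_neg hlq]
      split_ifs with h1
      · rw [Finsupp.smul_apply, Finsupp.single_eq_of_ne (Ne.symm hlq), smul_zero]
      · simp
  rw [Finset.sum_congr rfl h, Finset.sum_ite_eq' y.support q]
  by_cases hq : q ∈ y.support
  · rw [if_pos hq]
  · rw [if_neg hq, Finsupp.notMem_support_iff.1 hq, ite_self]

theorem act_fl (k : ℕ) (f : R) (y : CW) : fl k (act f y) = act f (fl k y) := by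
  ext q
  rw [fl_apply]
  have h1 : act f (fl k y) q =
      ∑ v ∈ f.support, ∑ l ∈ y.support, f v * (fl k y l * act0 l v q) := by
    rw [sup_expand]
    refine Finset.sum_congr rfl fun v _ => Finset.sum_subset ?_ ?_
    · intro l hl
      rw [Finsupp.mem_support_iff] at hl ⊢
      intro h
      apply hl
      rw [fl_apply, h, ite_self]
    · intro l _ hl
      rw [Finsupp.notMem_support_iff.1 hl, zero_mul, mul_zero]
  rw [h1]
  have h2 : ∀ v ∈ f.support, ∀ l ∈ y.support, f v * (fl k y l * act0 l v q) =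
      (if nzW q.tail < k then 1 else 0) * (f v * (y l * act0 l v q)) := by
    intro v _ l _
    rw [fl_apply]
    by_cases h3 : act0 l v q = 0
    · rw [h3]
      ring
    · rw [(act0_supp l v q h3).2.2.2.1]
      split_ifs <;> ring
  rw [Finset.sum_congr rfl fun v hv => Finset.sum_congr rfl (h2 v hv)]
  have h4 : ∑ v ∈ f.support, ∑ l ∈ y.support,
      (if nzW q.tail < k then (1 : ℝ) else 0) * (f v * (y l * act0 l v q)) =
      (if nzW q.tail < k then (1 : ℝ) else 0) *
        ∑ v ∈ f.support, ∑ l ∈ y.support, f v * (y l * act0 l v q) := by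
    rw [Finset.mul_sum]
    exact Finset.sum_congr rfl fun v _ => (Finset.mul_sum _ _ _).symm
  rw [h4, ← sup_expand]
  split_ifs <;> ring

end BrV
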