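import Pool.Agent.Lib.BrV.LAct
import Pool.Agent.Lib.BrV.LSup
import Pool.Agent.Lib.BrV.LHom
import Pool.Agent.Lib.BrV.DD
import Pool.Agent.Lib.BrV.Grad

/-!
# BrV.LDL: the differential of `Φ(CW)` (paper 3, section 2)

* `DL_single`, `DL_apply`: unfold (`mapRange_apply`).
* `D1_ne`: `D1 i = D (single i (bw []))` (`D_single`, `rmP_one`) and `D_IsHP` for the homogeneous element `single i (bw [])`.
* `DL_aP`: at `j`: `∑_i act (D1 i j) (act (x i) y) = ∑_i act (mu (D1 i j) (x i)) y = act (D x j) y` (`act_mul`, `D_apply`, linearity).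
* `DL_DL`: by linearity `x = single i y`: `DL (single i y) = mapRange (act . y) (D1 i)`, so `DL (DL (single i y)) = mapRange (act . y) (D (D1 i)) = 0` (`DL_aP`, `D_D`, `D1 i = D (single i (bw []))`).
* `BZ_DL`: `bz_act`.  `DL_IsHL`: `D1_ne`, `act0_supp`, `act_supp`.  `DL_zero`: `rI i = 0` means `i = (false, [])`, `D1 (false, []) = 0`.  `DL_mem`: clear.
* `DL_ioL`: `act f (single [] 1) = f [] • single [] 1` (`act_nil`), `D01_apply`.
-/

namespace BrV

open Finsupp

theorem DL_single (i : Ix) (y : CW) (j : Ix) : DL (single i y) j = act (D1 i j) y := by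
  simp [DL]

theorem DL_apply (x : PhL) (j : Ix) : DL x j = x.sum fun i y => act (D1 i j) y := by
  unfold DL
  rw [Finsupp.lsum_apply, Finsupp.sum_apply]
  rfl

private theorem LDL_D1 (i : Ix) : D (single i (bw [])) = D1 i := by
  rw [D_single, rmP_one]

theorem D1_ne (i j : Ix) (u : Wd) (h : D1 i j u ≠ 0) :
    rI j + 1 = rI i ∧ nI j + np u = nI i ∧ kI j + nz u = kI i := by
  have h1 : IsHP (rI i) (nI i) (kI i) (single i (bw [])) := by
    intro i' w hw
    rw [Finsupp.single_apply] at hw
    by_cases hi : i = i'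
    · subst hi
      rw [if_pos rfl] at hw
      have hw' : w = [] := by
        by_contra hne
        apply hw
        rw [bw, Finsupp.single_apply, if_neg (fun e => hne e.symm)]
      subst hw'
      refine ⟨rfl, ?_, ?_⟩
      · simp [np]
      · simp [nz]
    · rw [if_neg hi] at hw
      exact absurd rfl hw
  refine D_IsHP _ _ _ _ h1 j u ?_
  rw [LDL_D1]
  exact h

private theorem LDL_flip (y : CW) (x : Ph) (j : Ix) :
    Finsupp.mapRange.linearMap (act.flip y) x j = act (x j) y := by
  rw [Finsupp.mapRange.linearMap_apply, Finsupp.mapRange_apply, LinearMap.flip_apply]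

theorem DL_aP (y : CW) (x : Ph) : DL (Finsupp.mapRange.linearMap (act.flip y) x) =
    Finsupp.mapRange.linearMap (act.flip y) (D x) := by
  induction x using Finsupp.induction_linear with
  | zero => simp
  | add f g hf hg => rw [map_add, map_add, map_add, map_add, hf, hg]
  | single i f =>
    have h1 : Finsupp.mapRange.linearMap (act.flip y) (single i f) = single i (act f y) := by
      rw [Finsupp.mapRange.linearMap_apply, Finsupp.mapRange_single, LinearMap.flip_apply]
    rw [h1]
    ext1 j
    rw [DL_single, LDL_flip, D_single, rmP_apply, act_mul]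

theorem DL_DL (x : PhL) : DL (DL x) = 0 := by
  induction x using Finsupp.induction_linear with
  | zero => rw [map_zero, map_zero]
  | add f g hf hg =>
    rw [map_add, map_add, hf, hg]
    exact add_zero (0 : PhL)
  | single i y =>
    have h1 : DL (single i y) = Finsupp.mapRange.linearMap (act.flip y) (D1 i) := by
      ext1 j
      rw [DL_single, LDL_flip]
    rw [h1, DL_aP, ← LDL_D1, D_D, map_zero]

theorem BZ_DL (x : PhL) : BZ (DL x) = DL (BZ x) := by
  induction x using Finsupp.induction_linear with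
  | zero => simp
  | add f g hf hg => rw [map_add, map_add, map_add, map_add, hf, hg]
  | single i y =>
    have h1 : BZ (single i y) = single i (bz y) := by
      rw [BZ, Finsupp.mapRange.linearMap_apply, Finsupp.mapRange_single]
    rw [h1]
    ext1 j
    rw [DL_single, BZ, Finsupp.mapRange.linearMap_apply, Finsupp.mapRange_apply, DL_single, bz_act]

theorem DL_IsHL (r n k : ℕ) (x : PhL) (h : IsHL (r + 1) n k x) : IsHL r n k (DL x) := by
  intro j q hq
  rw [DL_apply, Finsupp.sum, Finsupp.finsetSum_apply] at hq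
  obtain ⟨i, _, hi⟩ := Finset.exists_ne_zero_of_sum_ne_zero hq
  obtain ⟨v, l, hv, hl, hvl⟩ := act_supp _ _ _ hi
  obtain ⟨h1, h2, h3⟩ := D1_ne i j v hv
  obtain ⟨h4, h5, h6⟩ := h i l hl
  obtain ⟨-, h7, h8, -, -⟩ := act0_supp _ _ _ hvl
  refine ⟨?_, ?_, ?_⟩ <;> omega

theorem DL_zero (n k : ℕ) (x : PhL) (h : IsHL 0 n k x) : DL x = 0 := by
  ext1 j
  ext1 q
  by_contra hq
  rw [DL_apply, Finsupp.sum, Finsupp.finsetSum_apply] at hq
  obtain ⟨i, _, hi⟩ := Finset.exists_ne_zero_of_sum_ne_zero hq
  obtain ⟨v, l, hv, hl, hvl⟩ := act_supp _ _ _ hi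
  obtain ⟨h1, h2, h3⟩ := D1_ne i j v hv
  obtain ⟨h4, h5, h6⟩ := h i l hl
  omega

theorem DL_mem (X : Submodule ℝ CW) (hX : ∀ f y, y ∈ X → act f y ∈ X) (x : PhL)
    (hx : ∀ i, x i ∈ X) (j : Ix) : DL x j ∈ X := by
  rw [DL_apply, Finsupp.sum]
  exact Submodule.sum_mem _ fun i _ => hX _ _ (hx i)

theorem DL_ioL (c : Ph0) : DL (ioL c) = ioL (D0 c) := by
  induction c using Finsupp.induction_linear with
  | zero => simp
  | add f g hf hg => rw [map_add, map_add, map_add, map_add, hf, hg]
  | single i a =>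
    have h1 : ioL (single i a) = single i (a • single [] 1) := by
      rw [ioL, Finsupp.mapRange.linearMap_apply, Finsupp.mapRange_single,
        LinearMap.toSpanSingleton_apply]
    have h2 : ∀ (c : Ph0) (j : Ix), ioL c j = c j • single [] 1 := by
      intro c j
      rw [ioL, Finsupp.mapRange.linearMap_apply, Finsupp.mapRange_apply,
        LinearMap.toSpanSingleton_apply]
    rw [h1]
    ext1 j
    rw [DL_single, map_smul, act_nil, h2, D0_single, Finsupp.smul_apply, D01_apply, smul_smul,
      smul_eq_mul]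

end BrV
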