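import Pool.Agent.Lib.BrV.ODef
import Pool.Agent.Lib.BrV.LDL
import Pool.Agent.Lib.BrV.LHom
import Pool.Agent.Lib.BrV.LBz

/-!
# BrV.DT: the total differential `dt = DL + SG ∘ BZ` (paper 4, section 7)

* `SG_apply`: `SG x i = (-1)^(rI i) • x i`.  `dt_dt`: `DL DL = 0` (`DL_DL`), `BZ DL = DL BZ` (`BZ_DL`), `BZ BZ = 0` (`bz_bz`), `SG` commutes with `BZ`, `DL (SG x) = - SG (DL x)` (`D1_ne`: `DL` lowers `rI` by one), `SG SG = 1`.
* `IsD_dt`: `D1_ne` and `act_supp`, `act0_supp` (the length of the lists is preserved; `act_YY` for the shape of the words), `IsW_bz`, `bz_YY` (shortens the lists by one; `bz (single [] 1) = 0`, `bz0 [w]` is a multiple of `single [] 1`).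
* `IsA_dt`: `act0_supp` (`nzW q.tail` is preserved); `bz0 (w :: u :: l) = cl (sh w u) l - cns w (bz0 (u :: l))`: the tails are `l` and the lists of `bz0 (u :: l)` (`IsW_bz`: same `nzW` as `u :: l`); for `[w]`: the empty list, `nzW [] = 0 < k` because `nzW [w].tail < k`.
* `IsE_dt`: `act_nil`, `bz (single [] 1) = 0`.  `dt_ioL`: `DL_ioL`.  `IsE_ioL`: `x = ioL c` with `c i = x i []`.
* `dt_SS`: `dt (SG (SS x)) + SG (SS (dt x)) = x - SG (DL (SS ..) ..)`: for `x` with `IsD t n k x`: `dt (SG (SS x)) + SG (SS (dt x)) + SG (DL (SS x) - SS (DL x)) = x`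
  (`DL SG = - SG DL`, `BZ SS + SS BZ = 1` by `bz_ss`, `SG` commutes with `SS`, `BZ`, `SG SG = 1`).
-/

namespace BrV

open Finsupp

/-! ### private tools -/

private theorem DT_ne (φ : CW →ₗ[ℝ] CW) (y : CW) (q : LW) (h : φ y q ≠ 0) :
    ∃ l, y l ≠ 0 ∧ φ (single l 1) q ≠ 0 := by
  have h1 : φ y = y.sum fun l b => b • φ (single l 1) := by
    conv_lhs => rw [← Finsupp.sum_single y]
    rw [Finsupp.sum, map_sum, Finsupp.sum]
    refine Finset.sum_congr rfl fun l _ => ?_
    rw [← map_smul, Finsupp.smul_single, smul_eq_mul, mul_one]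
  rw [h1, Finsupp.sum, Finsupp.finsetSum_apply] at h
  obtain ⟨l, -, hl⟩ := Finset.exists_ne_zero_of_sum_ne_zero h
  rw [Finsupp.smul_apply, smul_eq_mul] at hl
  exact ⟨l, left_ne_zero_of_mul hl, right_ne_zero_of_mul hl⟩

private theorem DT_bz (l : LW) : bz (single l 1) = bz0 l := by
  simp [bz, Finsupp.lift_apply]

private theorem DT_ss (l : LW) : ss (single l 1) = ss0 l := by
  simp [ss, Finsupp.lift_apply]

private theorem DT_map (φ : CW →ₗ[ℝ] CW) (x : PhL) (i : Ix) :
    Finsupp.mapRange.linearMap φ x i = φ (x i) := by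
  rw [Finsupp.mapRange.linearMap_apply, Finsupp.mapRange_apply]

/-- the shape of the lists in `IsD` -/
private def DT_sh (q : LW) : Prop := (∀ w ∈ q, w = [] ∨ Zw w) ∧ ∀ w ∈ q.tail, Zw w

private theorem DT_YY {m : ℕ} {y : CW} :
    y ∈ YY m ↔ ∀ q, y q ≠ 0 → q.length = m ∧ DT_sh q := by
  unfold YY
  rw [Finsupp.mem_supported']
  constructor
  · intro h q hq
    by_contra hc
    exact hq (h q hc)
  · intro h q hq
    by_contra hc
    exact hq (h q hc)

private theorem DT_single {l : LW} (h : DT_sh l) : (single l 1 : CW) ∈ YY l.length := by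
  rw [DT_YY]
  intro q hq
  rw [Finsupp.single_apply] at hq
  by_cases hl : l = q
  · exact hl ▸ ⟨rfl, h⟩
  · rw [if_neg hl] at hq
    exact absurd rfl hq

private theorem DT_W (l : LW) : IsW (npW l) (nzW l) (single l 1) := by
  intro q hq
  rw [Finsupp.single_apply] at hq
  by_cases hl : l = q
  · exact hl ▸ ⟨rfl, rfl⟩
  · rw [if_neg hl] at hq
    exact absurd rfl hq

theorem SG_apply (x : PhL) (i : Ix) : SG x i = (-1 : ℝ) ^ rI i • x i := by
  induction x using Finsupp.induction_linear with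
  | zero => simp
  | add f g hf hg => rw [map_add, Finsupp.add_apply, hf, hg, Finsupp.add_apply, smul_add]
  | single j y =>
    have h1 : SG (single j y) = (-1 : ℝ) ^ rI j • single j y := by
      unfold SG
      rw [Finsupp.lsum_single, LinearMap.smul_apply, Finsupp.lsingle_apply]
    rw [h1, Finsupp.smul_apply, Finsupp.single_apply]
    by_cases h : j = i
    · rw [h]
    · rw [if_neg h, smul_zero, smul_zero]

private theorem DT_SGSG (x : PhL) : SG (SG x) = x := by
  ext1 i
  rw [SG_apply, SG_apply, smul_smul, ← mul_pow, neg_one_mul, neg_neg, one_pow, one_smul]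

private theorem DT_comm (φ : CW →ₗ[ℝ] CW) (x : PhL) :
    Finsupp.mapRange.linearMap φ (SG x) = SG (Finsupp.mapRange.linearMap φ x) := by
  ext1 i
  rw [SG_apply, DT_map, DT_map, SG_apply, map_smul]

private theorem DT_BZ (x : PhL) : BZ (SG x) = SG (BZ x) := DT_comm bz x

private theorem DT_SS (x : PhL) : SS (SG x) = SG (SS x) := DT_comm ss x

private theorem DT_DLSG (x : PhL) : DL (SG x) = - SG (DL x) := by
  induction x using Finsupp.induction_linear with
  | zero =>
    rw [map_zero, map_zero, map_zero]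
    exact (neg_zero (G := PhL)).symm
  | add f g hf hg =>
    rw [map_add, map_add, map_add, map_add, hf, hg]
    exact (neg_add (SG (DL f)) (SG (DL g))).symm
  | single i y =>
    have h1 : SG (single i y) = (-1 : ℝ) ^ rI i • single i y := by
      unfold SG
      rw [Finsupp.lsum_single, LinearMap.smul_apply, Finsupp.lsingle_apply]
    rw [h1, map_smul]
    ext1 j
    rw [Finsupp.smul_apply, Finsupp.neg_apply, SG_apply, DL_single]
    by_cases h : D1 i j = 0
    · rw [h, map_zero, LinearMap.zero_apply, smul_zero, smul_zero, neg_zero]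
    · have h2 : ∃ u, D1 i j u ≠ 0 := by
        by_contra hc
        push Not at hc
        exact h (Finsupp.ext hc)
      obtain ⟨u, hu⟩ := h2
      obtain ⟨h3, -, -⟩ := D1_ne i j u hu
      rw [← h3, pow_succ, mul_neg_one, neg_smul]

private theorem DT_dt (x : PhL) : dt x = DL x + SG (BZ x) := rfl

theorem dt_dt (x : PhL) : dt (dt x) = 0 := by
  have hb : BZ (BZ x) = 0 := by
    ext1 i
    have h1 : BZ (BZ x) i = bz (bz (x i)) := by
      unfold BZ
      rw [DT_map, DT_map]
    rw [h1, bz_bz]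
    rfl
  rw [DT_dt, DT_dt, map_add, map_add, map_add, DL_DL, DT_DLSG, DT_BZ, hb, BZ_DL]
  rw [map_zero, map_zero]
  have key : ∀ a : PhL, (0 : PhL) + -a + (a + 0) = 0 := fun a => by abel
  exact key _

/-- the two parts of `dt` on supports -/
private theorem DT_split (x : PhL) (j : Ix) (q : LW) (h : dt x j q ≠ 0) :
    (∃ i v l, x i l ≠ 0 ∧ D1 i j v ≠ 0 ∧ act0 l v q ≠ 0) ∨
      ∃ l, x j l ≠ 0 ∧ bz0 l q ≠ 0 := by
  rw [DT_dt, Finsupp.add_apply, Finsupp.add_apply] at h
  by_cases h1 : DL x j q = 0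
  · right
    rw [h1, zero_add, SG_apply, Finsupp.smul_apply, smul_eq_mul] at h
    have h2 : BZ x j q ≠ 0 := right_ne_zero_of_mul h
    unfold BZ at h2
    rw [DT_map] at h2
    obtain ⟨l, hl, h3⟩ := DT_ne bz _ _ h2
    rw [DT_bz] at h3
    exact ⟨l, hl, h3⟩
  · left
    rw [DL_apply, Finsupp.sum, Finsupp.finsetSum_apply] at h1
    obtain ⟨i, _, hi⟩ := Finset.exists_ne_zero_of_sum_ne_zero h1
    obtain ⟨v, l, hv, hl, hvl⟩ := act_supp _ _ _ hi
    exact ⟨i, v, l, hl, hv, hvl⟩

private theorem DT_bz0 (l q : LW) (hs : DT_sh l) (h : bz0 l q ≠ 0) :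
    q.length + 1 = l.length ∧ DT_sh q ∧ npW q = npW l ∧ nzW q = nzW l := by
  cases l with
  | nil => exact absurd rfl h
  | cons w l =>
    have h1 : bz (single (w :: l) 1) ∈ YY l.length := bz_YY _ _ (DT_single hs)
    rw [DT_YY, DT_bz] at h1
    obtain ⟨h2, h3⟩ := h1 q h
    have h4 := IsW_bz _ _ _ (DT_W (w :: l))
    rw [DT_bz] at h4
    obtain ⟨h5, h6⟩ := h4 q h
    exact ⟨by rw [h2, List.length_cons], h3, h5, h6⟩

private theorem DT_act0 (l q : LW) (v : Wd) (hs : DT_sh l) (h : act0 l v q ≠ 0) : DT_sh q := by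
  have h1 : act (bw v) (single l 1) ∈ YY l.length := act_YY _ _ _ (DT_single hs)
  rw [DT_YY, act_single] at h1
  exact (h1 q h).2

theorem IsD_dt (t n k : ℕ) (x : PhL) (h : IsD (t + 1) n k x) : IsD t n k (dt x) := by
  intro j q hq
  rcases DT_split x j q hq with ⟨i, v, l, hl, hv, hvl⟩ | ⟨l, hl, hb⟩
  · obtain ⟨h1, h2, h3, h4, h5⟩ := h i l hl
    obtain ⟨a1, a2, a3⟩ := D1_ne i j v hv
    obtain ⟨b1, b2, b3, -, -⟩ := act0_supp _ _ _ hvl
    obtain ⟨c1, c2⟩ := DT_act0 l q v ⟨h4, h5⟩ hvl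
    exact ⟨by omega, by omega, by omega, c1, c2⟩
  · obtain ⟨h1, h2, h3, h4, h5⟩ := h j l hl
    obtain ⟨b1, ⟨b2, b3⟩, b4, b5⟩ := DT_bz0 l q ⟨h4, h5⟩ hb
    exact ⟨by omega, by omega, by omega, b2, b3⟩

theorem IsA_dt (k : ℕ) (x : PhL) (h : IsA k x) : IsA k (dt x) := by
  intro j q hq
  rcases DT_split x j q hq with ⟨i, v, l, hl, hv, hvl⟩ | ⟨l, hl, hb⟩
  · have h1 := h i l hl
    obtain ⟨-, -, -, b4, -⟩ := act0_supp _ _ _ hvl
    rw [b4]
    exact h1
  · have h1 := h j l hl
    cases l with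
    | nil => exact absurd rfl hb
    | cons w l =>
      cases l with
      | nil =>
        rw [bz0] at hb
        by_cases hw : w = []
        · rw [if_pos hw, Finsupp.single_apply] at hb
          by_cases hq' : [] = q
          · rw [← hq']
            exact h1
          · rw [if_neg hq'] at hb
            exact absurd rfl hb
        · rw [if_neg hw] at hb
          exact absurd rfl hb
      | cons u l =>
        rw [List.tail_cons] at h1
        have h2 : nzW l ≤ nzW (u :: l) := by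
          unfold nzW
          rw [List.map_cons, List.sum_cons]
          exact Nat.le_add_left _ _
        rw [bz0, Finsupp.sub_apply] at hb
        by_cases hc : cl (sh w u) l q = 0
        · rw [hc, zero_sub, neg_ne_zero] at hb
          obtain ⟨l', hl', h3⟩ := DT_ne (cns w) _ _ hb
          rw [cns_single, Finsupp.single_apply] at h3
          by_cases hq' : w :: l' = q
          · rw [← hq', List.tail_cons]
            have h4 := IsW_bz _ _ _ (DT_W (u :: l))
            rw [DT_bz] at h4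
            rw [(h4 l' hl').2]
            exact h1
          · rw [if_neg hq'] at h3
            exact absurd rfl h3
        · have h3 : q ∈ (cl (sh w u) l).support := Finsupp.mem_support_iff.2 hc
          unfold cl at h3
          have h4 := Finsupp.mapDomain_support h3
          rw [Finset.mem_image] at h4
          obtain ⟨a, -, ha⟩ := h4
          rw [← ha, List.tail_cons]
          omega

theorem IsE_dt (x : PhL) (h : IsE x) : IsE (dt x) := by
  intro j q hq
  rcases DT_split x j q hq with ⟨i, v, l, hl, hv, hvl⟩ | ⟨l, hl, hb⟩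
  · have h1 := h i l hl
    obtain ⟨b1, -, -, -, -⟩ := act0_supp _ _ _ hvl
    rw [h1, List.length_nil, List.length_eq_zero_iff] at b1
    exact b1
  · have h1 := h j l hl
    rw [h1] at hb
    exact absurd rfl hb

private theorem DT_ioL (c : Ph0) (j : Ix) : ioL c j = c j • single [] 1 := by
  rw [ioL, Finsupp.mapRange.linearMap_apply, Finsupp.mapRange_apply,
    LinearMap.toSpanSingleton_apply]

theorem dt_ioL (c : Ph0) : dt (ioL c) = ioL (D0 c) := by
  have h1 : BZ (ioL c) = 0 := by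
    ext1 i
    have h2 : BZ (ioL c) i = bz (ioL c i) := by
      unfold BZ
      rw [DT_map]
    rw [h2, DT_ioL, map_smul, DT_bz, bz0, smul_zero]
    rfl
  rw [DT_dt, DL_ioL, h1, map_zero]
  exact add_zero (ioL (D0 c))

theorem IsE_ioL (x : PhL) (h : IsE x) : ∃ c : Ph0, x = ioL c ∧ ∀ i, c i = x i [] := by
  refine ⟨x.mapRange (fun y => y []) rfl, ?_, fun i => Finsupp.mapRange_apply ..⟩
  ext1 i
  rw [DT_ioL, Finsupp.mapRange_apply]
  ext1 q
  rw [Finsupp.smul_apply, Finsupp.single_apply, smul_eq_mul]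
  by_cases hq : [] = q
  · rw [if_pos hq, mul_one, ← hq]
  · rw [if_neg hq, mul_zero]
    by_contra hc
    exact hq (h i q hc).symm

theorem dt_SS (t n k : ℕ) (x : PhL) (h : IsD t n k x) :
    dt (SG (SS x)) + SG (SS (dt x)) + SG (DL (SS x) - SS (DL x)) = x := by
  have h1 : BZ (SS x) + SS (BZ x) = x := by
    ext1 i
    have h2 : (BZ (SS x) + SS (BZ x)) i = bz (ss (x i)) + ss (bz (x i)) := by
      unfold BZ SS
      rw [Finsupp.add_apply, DT_map, DT_map, DT_map, DT_map]
    rw [h2]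
    refine bz_ss (t - rI i) (x i) ?_
    rw [DT_YY]
    intro q hq
    obtain ⟨h3, -, -, h4, h5⟩ := h i q hq
    exact ⟨by omega, h4, h5⟩
  have e1 : dt (SG (SS x)) = -SG (DL (SS x)) + BZ (SS x) := by
    rw [DT_dt, DT_DLSG, DT_BZ, DT_SGSG]
  have e2 : SG (SS (dt x)) = SG (SS (DL x)) + SS (BZ x) := by
    rw [DT_dt, map_add SS, map_add SG, DT_SS, DT_SGSG]
  have e3 : SG (DL (SS x) - SS (DL x)) = SG (DL (SS x)) - SG (SS (DL x)) := map_sub SG _ _
  rw [e1, e2, e3]
  have key : ∀ a b c d : PhL, -a + b + (c + d) + (a - c) = b + d := fun a b c d => by abel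
  exact (key _ _ _ _).trans h1

theorem IsD_SS (t n k : ℕ) (x : PhL) (h : IsD t n k x) : IsD (t + 1) n k (SG (SS x)) := by
  intro i q hq
  rw [SG_apply, Finsupp.smul_apply, smul_eq_mul] at hq
  have h1 : SS x i q ≠ 0 := right_ne_zero_of_mul hq
  unfold SS at h1
  rw [DT_map] at h1
  obtain ⟨l, hl, h2⟩ := DT_ne ss _ _ h1
  obtain ⟨a1, a2, a3, a4, a5⟩ := h i l hl
  have h3 : ss (single l 1) ∈ YY (l.length + 1) := ss_YY _ _ (DT_single ⟨a4, a5⟩)
  rw [DT_YY] at h3
  obtain ⟨b1, b2, b3⟩ := h3 q h2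
  obtain ⟨c1, c2⟩ := IsW_ss _ _ _ (DT_W l) q h2
  exact ⟨by omega, by omega, by omega, b2, b3⟩

end BrV
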