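import Mathlib

/-!
# MP_97e538_al, uniform vanishing: definitions for the word model

Paper: /team-store/MP_97e538_al_paper.md (helper52).  Letters: `true = p`, `false = z`.  A word is a
`List Bool` whose HEAD IS ITS LAST LETTER.
-/

namespace BrV

open Finsupp

/-- Words in the letters `p = true`, `z = false`; the head of the list is the last letter. -/
abbrev Wd : Type := List Bool

/-- The quantum shuffle algebra, as a vector space. -/
abbrev R : Type := Wd →₀ ℝ

/-- number of letters `p` -/
def np (w : Wd) : ℕ := w.count true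

/-- number of letters `z` -/
def nz (w : Wd) : ℕ := w.count false

/-- the sign `(-1)^(np w)` -/
def sg (w : Wd) : ℝ := (-1) ^ np w

noncomputable section

/-- the basis vector of a word -/
def bw (w : Wd) : R := single w 1

/-- append a letter at the end -/
def app (a : Bool) : R →ₗ[ℝ] R := lmapDomain ℝ ℝ (List.cons a)

/-- delete the last letter if it is `c` (else `0`): `(del c f) w = f (c :: w)` -/
def del (c : Bool) : R →ₗ[ℝ] R := lcomapDomain (List.cons c) List.cons_injective

/-- signed shuffles of two words: a letter of the left word passing a letter `p` of the right word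
gives a factor `-1` -/
def sh : Wd → Wd → R
  | [], w => bw w
  | a :: v, [] => bw (a :: v)
  | a :: v, b :: w => app b (sh (a :: v) w) + sg (b :: w) • app a (sh v (b :: w))
termination_by v w => v.length + w.length

/-- the product of `R` -/
def mu : R →ₗ[ℝ] R →ₗ[ℝ] R :=
  Finsupp.lift (R →ₗ[ℝ] R) ℝ Wd fun v => Finsupp.lift R ℝ Wd fun w => sh v w

/-- right multiplication by a word -/
def rm (w : Wd) : R →ₗ[ℝ] R := mu.flip (bw w)

/-- the sign twist `w ↦ (-1)^(np w) w` -/
def tau : R →ₗ[ℝ] R := Finsupp.lift R ℝ Wd fun w => sg w • bw w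

/-- the word `z^j` -/
def zw (j : ℕ) : Wd := List.replicate j false

/-- the coefficient of `p^a * p^b = c(a,b) p^(a+b)` -/
def cc : ℕ → ℕ → ℝ
  | 0, _ => 1
  | _ + 1, 0 => 1
  | a + 1, b + 1 => cc (a + 1) b + (-1) ^ (b + 1) * cc a (b + 1)

/-- homogeneous of bidegree `(n, k)` -/
def IsH (n k : ℕ) (f : R) : Prop := ∀ w, f w ≠ 0 → np w = n ∧ nz w = k

/-- component of bidegree `(n, k)` -/
def cmp (n k : ℕ) (f : R) : R := f.filter fun w => np w = n ∧ nz w = k

/-- graded left ideals -/
structure IsLI (X : Submodule ℝ R) : Prop where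
  mul_mem : ∀ f g, g ∈ X → mu f g ∈ X
  cmp_mem : ∀ n k g, g ∈ X → cmp n k g ∈ X

/-- `R^(≥ k)`: combinations of words with at least `k` letters `z` -/
def RG (k : ℕ) : Submodule ℝ R := supported ℝ ℝ {w | k ≤ nz w}

/-- combinations of nonempty words -/
def Rpl : Submodule ℝ R := supported ℝ ℝ {w | w ≠ []}

/-- `R * p` -/
def Rp : Submodule ℝ R := LinearMap.range (rm [true])

/-- `R * z` -/
def Rz : Submodule ℝ R := LinearMap.range (rm [false])

/-- `J = {a | a * z ∈ R * p}` -/
def J : Submodule ℝ R := Rp.comap (rm [false])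

/-- the word `p^j` -/
def pw (j : ℕ) : Wd := List.replicate j true

/-- `F_m = ∑_{j ≥ m} R * p^j` -/
def F (m : ℕ) : Submodule ℝ R := ⨆ j : ℕ, ⨆ _ : m ≤ j, LinearMap.range (rm (pw j))

/-- `G'`: combinations of words not ending in `p` -/
def G' : Submodule ℝ R := LinearMap.ker (del true)

/-- left multiplication by `p` is exact on `X / Y` in `z`-degree `k` -/
def Ex (X Y : Submodule ℝ R) (k : ℕ) : Prop :=
  ∀ (n : ℕ) (a : R), IsH n k a → a ∈ X → mu (bw [true]) a ∈ Y →
    ∃ b ∈ X, (∀ w, b w ≠ 0 → np w + 1 = n ∧ nz w = k) ∧ a - mu (bw [true]) b ∈ Y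

/-! ### lists of blocks

A block is a word `true :: w` ending in `p`; it is encoded by `w`.  The head of a list of blocks is
the LAST block. -/

/-- lists of blocks -/
abbrev LB : Type := List Wd

/-- number of letters `p` of a list of blocks -/
def npL (l : LB) : ℕ := (l.map fun w => np w + 1).sum

/-- number of letters `z` of a list of blocks -/
def nzL (l : LB) : ℕ := (l.map nz).sum

/-- the product of the blocks `v` (left), `w` (right), as a combination of blocks:
`(true :: v) * (true :: w) = app true (bm v w)` -/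
def bm (v w : Wd) : R := sh (true :: v) w + sg (true :: w) • sh v (true :: w)

/-- `U(block w) = app true (ub w)` -/
def ub (w : Wd) : R := sh [false] w + sg w • sh w [false]

/-- combination of lists of blocks -/
abbrev CL : Type := LB →₀ ℝ

/-- `cl f l = ∑ f(u) (u :: l)` -/
def cl (f : R) (l : LB) : CL := mapDomain (fun u => u :: l) f

/-- add a block at the end -/
def cns (w : Wd) : CL →ₗ[ℝ] CL := lmapDomain ℝ ℝ (List.cons w)

/-- alternating sum of the merges of two neighbouring blocks, counted from the last block -/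
def mg0 : LB → CL
  | [] => 0
  | [_] => 0
  | w :: v :: l => cl (bm v w) l - cns w (mg0 (v :: l))

/-- the derivation `U` on lists of blocks -/
def uo0 : LB → CL
  | [] => 0
  | w :: l => cns w (uo0 l) + (-1 : ℝ) ^ npL l • cl (ub w) l

/-- merging -/
def mg : CL →ₗ[ℝ] CL := Finsupp.lift CL ℝ LB mg0

/-- `U` -/
def uo : CL →ₗ[ℝ] CL := Finsupp.lift CL ℝ LB uo0

/-! ### the big complex -/

/-- indices: `(false, l)` is the list of blocks `l`, `(true, l)` is `e l` -/
abbrev Ix : Type := Bool × LB

/-- homological degree -/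
def rI (i : Ix) : ℕ := i.2.length + i.1.toNat

/-- number of `p` -/
def nI (i : Ix) : ℕ := npL i.2

/-- number of `z` -/
def kI (i : Ix) : ℕ := nzL i.2 + i.1.toNat

/-- `Φ(R)`: coefficients in `R` on the right -/
abbrev Ph : Type := Ix →₀ R

/-- scalar version -/
abbrev Ph0 : Type := Ix →₀ ℝ

/-- put a combination of lists in the `b`-part, with coefficients in `R · []` -/
def emb (b : Bool) (c : CL) : Ph := (mapDomain (fun l => ((b, l) : Ix)) c).mapRange (fun a => a • bw [])
  (zero_smul _ _)

/-- the differential of `[l] · 1` in the part `b` of `B` -/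
def dB (b : Bool) : LB → Ph
  | [] => 0
  | w :: l => single (b, l) (bw (true :: w)) - emb b (mg0 (w :: l))

/-- `D1 i = D (i · 1)` -/
def D1 : Ix → Ph
  | (false, l) => dB false l
  | (true, l) => emb false (uo0 l) + single (false, l) ((-1 : ℝ) ^ npL l • bw [false]) - dB true l

/-- right multiplication by an element of `R` on `Φ` -/
def rmP (v : R) : Ph →ₗ[ℝ] Ph := mapRange.linearMap (mu.flip v)

/-- the differential of `Φ(R)`: `D (i · v) = (D1 i) · v` -/
def D : Ph →ₗ[ℝ] Ph := Finsupp.lsum ℝ fun i =>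
  { toFun := fun v => rmP v (D1 i)
    map_add' := fun v w => by
      ext j : 1
      simp [rmP]
    map_smul' := fun a v => by
      ext j : 1
      simp [rmP] }

/-- the scalar differential: coefficients of the empty word -/
def D01 (i : Ix) : Ph0 := (D1 i).mapRange (fun f => f []) rfl

/-- the scalar differential -/
def D0 : Ph0 →ₗ[ℝ] Ph0 := Finsupp.lift Ph0 ℝ Ix D01

/-- homogeneous of homological degree `r` and bidegree `(n, k)` -/
def IsHP (r n k : ℕ) (x : Ph) : Prop :=
  ∀ i w, x i w ≠ 0 → rI i = r ∧ nI i + np w = n ∧ kI i + nz w = k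

/-- the same for scalar coefficients -/
def IsH0 (r n k : ℕ) (c : Ph0) : Prop := ∀ i, c i ≠ 0 → rI i = r ∧ nI i = n ∧ kI i = k

/-- the component of homological degree `r` and bidegree `(n, k)` -/
def cmpP (r n k : ℕ) : Ph →ₗ[ℝ] Ph := Finsupp.lsum ℝ fun i =>
  (lsingle i).comp <| Finsupp.lift R ℝ Wd fun w =>
    if rI i = r ∧ nI i + np w = n ∧ kI i + nz w = k then bw w else 0

/-- `H_r (Φ(X) / Φ(Y))_{n,k} = 0` -/
def Ac (X Y : Submodule ℝ R) (r n k : ℕ) : Prop :=
  ∀ x : Ph, IsHP r n k x → (∀ i, x i ∈ X) → (∀ i, D x i ∈ Y) →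
    ∃ y z : Ph, IsHP (r + 1) n k y ∧ (∀ i, y i ∈ X) ∧ IsHP r n k z ∧ (∀ i, z i ∈ Y) ∧ x = D y + z

/-- `H_r (Φ_0)_{n,k} = 0` -/
def Va (r n k : ℕ) : Prop :=
  ∀ c : Ph0, IsH0 r n k c → D0 c = 0 → ∃ e : Ph0, IsH0 (r + 1) n k e ∧ D0 e = c

end

end BrV
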