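import Pool.Agent.Lib.BrV.DD

/-!
# BrV.Formal: formal lemmas (4.1), (4.2) and the transport lemma (4.3)

Proofs (only `D_D`, linearity, `IsHP_D`, `IsHP_sub`).
`Ac_chain`: `x ∈ Φ(X)`, `D x ∈ Φ(Z) ≤ Φ(Y)`: `x = D y + z`, `z ∈ Φ(Y)`, `D z = D x ∈ Φ(Z)`, `z = D y' + z'`; `x = D (y + y') + z'`.
`Ac_quot`: `x ∈ Φ(X)_{r+1}`, `D x ∈ Φ(Y)_r` (`IsHP_D`), `D (D x) = 0 ∈ Φ(Z)`: `D x = D y + z` with `y ∈ Φ(Y)_{r+1}`, `z ∈ Φ(Z)`;
`D (x - y) = z ∈ Φ(Z)`, `x - y ∈ Φ(X)`: `x - y = D y' + z'`; so `x = D y' + (y + z')`.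
`Ac_quot0`: `r = 0`: `D x = 0` (`D_zero_deg`).
`Ac_triv`: `D 0 + x`; every coefficient of `x` is homogeneous of bidegree `≤ (n,k)` (`IsHP_coeff`).
`Ac_transport`: let `x ∈ Φ(X)` of degree `(r, n+a, k+b)` with `D x ∈ Φ(Y)`.  Choose `g i ∈ X'` with `x i - (g i) * c ∈ Y` (`g i = 0` if
`x i = 0`), `G0 = ∑ single i (g i)`, `G = cmpP r n k G0 ∈ Φ(X')` (`cmpP_mem`).  `x - rmP c G = cmpP r (n+a) (k+b) (x - rmP c G0) ∈ Φ(Y)`
(`cmpP r (n+a) (k+b) (rmP c G0) = rmP c (cmpP r n k G0)`: on `single i (bw w)`, `IsH_mu`).  `rmP c (D G) = D (rmP c G) = D x - D (x - rmP c G) ∈ Φ(Y)`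
(`D_rmP`, `D_mem`), `D G ∈ Φ(X')`, so `D G ∈ Φ(Y')` by `h4`.  `G = D y + z`; `x = D (rmP c y) + (rmP c z + (x - rmP c G))`.
(Use `Ac_weak`.)
-/

namespace BrV

open Finsupp

private theorem dadd (x y : Ph) : D (x + y) = D x + D y := map_add _ _ _

private theorem dsub (x y : Ph) : D (x - y) = D x - D y := map_sub D x y

private theorem dzero : D 0 = 0 := map_zero _

private theorem za (x : Ph) : 0 + x = x := zero_add x

private theorem csub (r n k : ℕ) (x y : Ph) : cmpP r n k (x - y) = cmpP r n k x - cmpP r n k y :=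
  map_sub (cmpP r n k) x y

private theorem rsub (v : R) (x y : Ph) : rmP v (x - y) = rmP v x - rmP v y := map_sub (rmP v) x y

private theorem radd (v : R) (x y : Ph) : rmP v (x + y) = rmP v x + rmP v y := map_add _ _ _

private theorem sa (x y : Ph) : x - y + y = x := sub_add_cancel x y

private theorem IsHP_zero (r n k : ℕ) : IsHP r n k 0 := by
  intro i w h
  exact absurd rfl h

theorem Ac_self (X : Submodule ℝ R) (r n k : ℕ) : Ac X X r n k := by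
  intro x hx hxX _
  refine ⟨0, x, IsHP_zero _ _ _, fun i => X.zero_mem, hx, hxX, ?_⟩
  rw [dzero, za]

theorem Ac_chain (X Y Z : Submodule ℝ R) (hYX : Y ≤ X) (hZY : Z ≤ Y) (r n k : ℕ)
    (h1 : Ac X Y r n k) (h2 : Ac Y Z r n k) : Ac X Z r n k := by
  intro x hx hxX hxZ
  obtain ⟨y, z, hy, hyX, hz, hzY, e⟩ := h1 x hx hxX fun i => hZY (hxZ i)
  have e1 : D z = D x := by
    rw [e, dadd, D_D, za]
  obtain ⟨y', z', hy', hyY', hz', hzZ', e'⟩ := h2 z hz hzY fun i => by rw [e1]; exact hxZ i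
  refine ⟨y + y', z', IsHP_add _ _ _ _ _ hy hy', fun i => ?_, hz', hzZ', ?_⟩
  · rw [Finsupp.add_apply]
    exact X.add_mem (hyX i) (hYX (hyY' i))
  · rw [dadd, e, e']
    exact (add_assoc (D y) (D y') z').symm

theorem Ac_quot (X Y Z : Submodule ℝ R) (hYX : Y ≤ X) (hZY : Z ≤ Y) (r n k : ℕ)
    (h1 : Ac X Z (r + 1) n k) (h2 : Ac Y Z r n k) : Ac X Y (r + 1) n k := by
  intro x hx hxX hxY
  have h0 : ∀ i, D (D x) i ∈ Z := by
    intro i
    rw [D_D]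
    exact Z.zero_mem
  obtain ⟨y, z, hy, hyY, hz, hzZ, e⟩ := h2 (D x) (IsHP_D _ _ _ _ hx) hxY h0
  have e1 : D (x - y) = z := by
    rw [dsub, e]
    exact add_sub_cancel_left (D y) z
  obtain ⟨y', z', hy', hyX', hz', hzZ', e'⟩ := h1 (x - y) (IsHP_sub _ _ _ _ _ hx hy)
    (fun i => by
      rw [Finsupp.sub_apply]
      exact X.sub_mem (hxX i) (hYX (hyY i)))
    (fun i => by rw [e1]; exact hzZ i)
  refine ⟨y', z' + y, hy', hyX', IsHP_add _ _ _ _ _ hz' hy, fun i => ?_, ?_⟩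
  · rw [Finsupp.add_apply]
    exact Y.add_mem (hZY (hzZ' i)) (hyY i)
  · rw [← sa x y, e']
    exact add_assoc (D y') z' y

theorem Ac_quot0 (X Y Z : Submodule ℝ R) (hZY : Z ≤ Y) (n k : ℕ)
    (h1 : Ac X Z 0 n k) : Ac X Y 0 n k := by
  intro x hx hxX _
  have h0 : ∀ i, D x i ∈ Z := by
    intro i
    rw [D_zero_deg n k x hx]
    exact Z.zero_mem
  obtain ⟨y, z, hy, hyX, hz, hzZ, e⟩ := h1 x hx hxX h0
  exact ⟨y, z, hy, hyX, hz, fun i => hZY (hzZ i), e⟩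

theorem Ac_triv (X Y : Submodule ℝ R) (r n k : ℕ)
    (h : ∀ m i f, m ≤ n → i ≤ k → IsH m i f → f ∈ X → f ∈ Y) : Ac X Y r n k := by
  intro x hx hxX _
  refine ⟨0, x, IsHP_zero _ _ _, fun i => X.zero_mem, hx, fun i => ?_, ?_⟩
  · by_cases hi : x i = 0
    · rw [hi]
      exact Y.zero_mem
    · obtain ⟨_, _, _, h4⟩ := IsHP_coeff _ _ _ _ hx i hi
      exact h _ _ _ (Nat.sub_le _ _) (Nat.sub_le _ _) h4 (hxX i)
  · rw [dzero, za]

private theorem cmpP_rmP (r n k a b : ℕ) (c : R) (hc : IsH a b c) (x : Ph) :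
    cmpP r (n + a) (k + b) (rmP c x) = rmP c (cmpP r n k x) := by
  ext1 i
  rw [cmpP_apply, rmP_apply, rmP_apply, cmpP_apply]
  by_cases h1 : rI i = r ∧ nI i ≤ n ∧ kI i ≤ k
  · rw [if_pos h1, if_pos (by omega)]
    have e1 : n + a - nI i = (n - nI i) + a := by omega
    have e2 : k + b - kI i = (k - kI i) + b := by omega
    rw [e1, e2]
    exact cmp_mu_right _ _ _ _ _ _ hc
  · rw [if_neg h1, map_zero, LinearMap.zero_apply]
    split_ifs with h2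
    · exact cmp_mu_right_zero _ _ _ _ _ _ hc (by omega)
    · rfl

theorem Ac_transport (X' Y' X Y : Submodule ℝ R) (hX' : IsLI X') (hY' : IsLI Y') (hX : IsLI X)
    (hY : IsLI Y) (a b : ℕ) (c : R) (hc : IsH a b c)
    (h1 : ∀ f ∈ X', mu f c ∈ X) (h2 : ∀ f ∈ Y', mu f c ∈ Y)
    (h3 : ∀ f ∈ X, ∃ g ∈ X', f - mu g c ∈ Y)
    (h4 : ∀ f ∈ X', mu f c ∈ Y → f ∈ Y') (r n k : ℕ) (h : Ac X' Y' r n k) :
    Ac X Y r (n + a) (k + b) := by
  classical
  refine Ac_weak X Y hX hY _ _ _ ?_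
  intro x hx hxX hxY
  choose g hg1 hg2 using fun i => h3 (x i) (hxX i)
  -- the lift of `x`
  let G0 : Ph := Finsupp.onFinset x.support (fun i => if x i = 0 then 0 else g i) (by
    intro i hi
    rw [Finsupp.mem_support_iff]
    intro h0
    exact hi (if_pos h0))
  have hG0 : ∀ i, G0 i = if x i = 0 then 0 else g i := fun i => rfl
  have hG0X : ∀ i, G0 i ∈ X' := by
    intro i
    rw [hG0]
    split_ifs
    · exact X'.zero_mem
    · exact hg1 i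
  have hG0Y : ∀ i, (x - rmP c G0) i ∈ Y := by
    intro i
    rw [Finsupp.sub_apply, rmP_apply, hG0]
    split_ifs with h0
    · rw [h0, map_zero, LinearMap.zero_apply, sub_zero]
      exact Y.zero_mem
    · exact hg2 i
  have hG : IsHP r n k (cmpP r n k G0) := cmpP_IsHP _ _ _ _
  have hGX : ∀ i, cmpP r n k G0 i ∈ X' := cmpP_mem X' hX' _ _ _ _ hG0X
  have hd : ∀ i, (x - rmP c (cmpP r n k G0)) i ∈ Y := by
    have e : x - rmP c (cmpP r n k G0) = cmpP r (n + a) (k + b) (x - rmP c G0) := by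
      rw [csub, cmpP_rmP _ _ _ _ _ _ hc, cmpP_of_IsHP _ _ _ _ hx]
    rw [e]
    exact cmpP_mem Y hY _ _ _ _ hG0Y
  have hDG : ∀ i, D (cmpP r n k G0) i ∈ Y' := by
    intro i
    refine h4 _ (D_mem X' hX' _ hGX i) ?_
    have e1 : rmP c (D (cmpP r n k G0)) = D x - D (x - rmP c (cmpP r n k G0)) := by
      rw [dsub, D_rmP]
      exact (sub_sub_cancel (D x) _).symm
    have e2 := congrArg (fun y : Ph => y i) e1
    simp only [rmP_apply, Finsupp.sub_apply] at e2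
    rw [e2]
    exact Y.sub_mem (hxY i) (D_mem Y hY _ hd i)
  obtain ⟨y, z, hy, hyX, hz, hzY, e⟩ := h _ hG hGX hDG
  refine ⟨rmP c y, rmP c z + (x - rmP c (cmpP r n k G0)), fun i => ?_, fun i => ?_, ?_⟩
  · rw [rmP_apply]
    exact h1 _ (hyX i)
  · rw [Finsupp.add_apply, rmP_apply]
    exact Y.add_mem (h2 _ (hzY i)) (hd i)
  · have e3 : rmP c (cmpP r n k G0) = D (rmP c y) + rmP c z := by
      rw [D_rmP, ← radd, ← e]
    rw [e3]
    ext1 i
    simp only [Finsupp.add_apply, Finsupp.sub_apply]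
    abel

end BrV
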