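import Pool.Agent.Lib.BrV.ODef

/-!
# BrV.GAb: bound for rational sequences (paper 4, section 5): only power series

`pT m = ∏_{j=1}^m (1 - X^j)`; `Rat m P d : pT m * mk d = P`.  Work with integer sequences `d : ℕ → ℤ`, `pT m * mk d = P`; claim `|d L| ≤ C (L+1)^(m-1)` for `m ≥ 1`, induction on `m`.
`m = 1`: `(1 - X) mk d = P`: `d 0 = P_0`, `d (L+1) - d L = P_(L+1)` (`PowerSeries.coeff`), so `d L = ∑_{i ≤ L} P_i`, bounded by `∑_{i ≤ natDegree P} |P_i|`.
`m → m+1`: let `mk d' = (1 - X^(m+1)) * mk d`: `d' L = d L` for `L < m+1`, `d' (L+(m+1)) = d (L+(m+1)) - d L`, and `pT m * mk d' = P` (`pT (m+1) = pT m * (1 - X^(m+1))`, `Finset.prod_range_succ`); `|d' L| ≤ C (L+1)^(m-1)`.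
By strong induction `|d L| ≤ C (L+1) (L+1)^(m-1)`: `|d L| ≤ |d' L| + |d (L - (m+1))| ≤ C (L+1)^(m-1) + C L (L+1)^(m-1)` (`L - (m+1) + 1 ≤ L`).
-/

namespace BrV

private lemma GAb_mul (k : ℕ) (d : ℕ → ℤ) :
    (1 - PowerSeries.X ^ k) * PowerSeries.mk d
      = PowerSeries.mk (fun L => if k ≤ L then d L - d (L - k) else d L) := by
  ext L
  rw [sub_mul, one_mul, map_sub, PowerSeries.coeff_mk, PowerSeries.coeff_X_pow_mul',
    PowerSeries.coeff_mk, PowerSeries.coeff_mk]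
  by_cases h : k ≤ L
  · rw [if_pos h, if_pos h]
  · rw [if_neg h, if_neg h, sub_zero]

private lemma GAb_base (P : Polynomial ℤ) (d : ℕ → ℤ)
    (h : pT 1 * PowerSeries.mk d = (P : PowerSeries ℤ)) :
    ∃ C : ℝ, 0 ≤ C ∧ ∀ L : ℕ, |(d L : ℝ)| ≤ C := by
  have h1 : ∀ L, (if 1 ≤ L then d L - d (L - 1) else d L) = P.coeff L := by
    intro L
    have h2 : (1 - PowerSeries.X ^ 1) * PowerSeries.mk d = (P : PowerSeries ℤ) := by
      rw [← h]
      simp [pT]
    rw [GAb_mul] at h2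
    have h3 := congrArg (PowerSeries.coeff L) h2
    rwa [PowerSeries.coeff_mk, Polynomial.coeff_coe] at h3
  have h4 : ∀ L, |(d L : ℝ)| ≤ ∑ i ∈ Finset.range (L + 1), |(P.coeff i : ℝ)| := by
    intro L
    induction L with
    | zero =>
      have := h1 0
      simp only [Nat.le_zero, one_ne_zero, if_false] at this
      simp [this]
    | succ L ih =>
      have := h1 (L + 1)
      rw [if_pos (by omega), Nat.add_sub_cancel] at this
      have h5 : d (L + 1) = d L + P.coeff (L + 1) := by linarith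
      rw [Finset.sum_range_succ, h5, Int.cast_add]
      exact (abs_add_le _ _).trans (by linarith)
  refine ⟨∑ i ∈ P.support, |(P.coeff i : ℝ)|, Finset.sum_nonneg fun i _ => abs_nonneg _, ?_⟩
  intro L
  refine (h4 L).trans ?_
  have h5 : ∑ i ∈ P.support ∪ Finset.range (L + 1), |(P.coeff i : ℝ)|
      = ∑ i ∈ P.support, |(P.coeff i : ℝ)| := by
    symm
    apply Finset.sum_subset Finset.subset_union_left
    intro i _ hi
    rw [Polynomial.notMem_support_iff] at hi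
    simp [hi]
  rw [← h5]
  exact Finset.sum_le_sum_of_subset_of_nonneg Finset.subset_union_right
    fun i _ _ => abs_nonneg _

private lemma GAb_int (m : ℕ) : ∀ (P : Polynomial ℤ) (d : ℕ → ℤ),
    pT (m + 1) * PowerSeries.mk d = (P : PowerSeries ℤ) →
    ∃ C : ℝ, 0 ≤ C ∧ ∀ L : ℕ, |(d L : ℝ)| ≤ C * ((L : ℝ) + 1) ^ m := by
  induction m with
  | zero =>
    intro P d h
    obtain ⟨C, hC, h1⟩ := GAb_base P d h
    exact ⟨C, hC, fun L => by simpa using h1 L⟩
  | succ m ih =>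
    intro P d h
    have h1 : pT (m + 1 + 1) = pT (m + 1) * (1 - PowerSeries.X ^ (m + 1 + 1)) := by
      unfold pT
      rw [Finset.prod_range_succ]
    rw [h1, mul_assoc, GAb_mul] at h
    obtain ⟨C, hC, h2⟩ := ih P _ h
    refine ⟨C, hC, ?_⟩
    intro L
    induction L using Nat.strong_induction_on with
    | _ L ihL =>
      have h3 := h2 L
      by_cases hL : m + 1 + 1 ≤ L
      · rw [if_pos hL, Int.cast_sub] at h3
        have h4 := ihL (L - (m + 1 + 1)) (by omega)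
        have h5 : ((L - (m + 1 + 1) : ℕ) : ℝ) + 1 ≤ (L : ℝ) := by
          have : L - (m + 1 + 1) + 1 ≤ L := by omega
          exact_mod_cast this
        have h6 : (0 : ℝ) ≤ ((L - (m + 1 + 1) : ℕ) : ℝ) + 1 := by positivity
        have h7 : (((L - (m + 1 + 1) : ℕ) : ℝ) + 1) ^ (m + 1)
            ≤ (L : ℝ) * ((L : ℝ) + 1) ^ m := by
          rw [pow_succ, mul_comm]
          exact mul_le_mul h5 (pow_le_pow_left₀ h6 (by linarith) m) (pow_nonneg h6 m)
            (by positivity)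
        have h8 : |(d L : ℝ)| ≤ |(d L : ℝ) - (d (L - (m + 1 + 1)) : ℝ)|
            + |(d (L - (m + 1 + 1)) : ℝ)| := by
          have := abs_add_le ((d L : ℝ) - (d (L - (m + 1 + 1)) : ℝ))
            ((d (L - (m + 1 + 1)) : ℝ))
          rwa [sub_add_cancel] at this
        calc |(d L : ℝ)| ≤ C * ((L : ℝ) + 1) ^ m
              + C * (((L - (m + 1 + 1) : ℕ) : ℝ) + 1) ^ (m + 1) := by linarith
          _ ≤ C * ((L : ℝ) + 1) ^ m + C * ((L : ℝ) * ((L : ℝ) + 1) ^ m) := by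
              have := mul_le_mul_of_nonneg_left h7 hC
              linarith
          _ = C * ((L : ℝ) + 1) ^ (m + 1) := by ring
      · rw [if_neg hL] at h3
        refine h3.trans (mul_le_mul_of_nonneg_left ?_ hC)
        exact pow_le_pow_right₀ (by linarith [(Nat.cast_nonneg L : (0 : ℝ) ≤ L)]) (by omega)

theorem as_bd (m : ℕ) (hm : 1 ≤ m) (P : Polynomial ℤ) (d : ℕ → ℕ) (h : Rat m P d) :
    ∃ C : ℝ, ∀ L : ℕ, (d L : ℝ) ≤ C * ((L : ℝ) + 1) ^ (m - 1) := by
  obtain ⟨k, rfl⟩ : ∃ k, m = k + 1 := ⟨m - 1, by omega⟩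
  obtain ⟨C, _, h1⟩ := GAb_int k P (fun L => (d L : ℤ)) h
  refine ⟨C, fun L => ?_⟩
  have h2 := h1 L
  rw [Nat.add_sub_cancel]
  refine le_trans ?_ h2
  rw [Int.cast_natCast]
  exact le_abs_self _

end BrV
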