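import Pool.Agent.Lib.BrV.ODef

/-!
# BrV.GArt: descending chain condition, formal properties (paper 4, section 3): only linear algebra

Chains `X a` (`a : ℕ`) of stable families `L ↦ X a L` between `B` and `Z`.
* `art_mono`: the same chain.  `art_triv`: `B L ≤ X a L ≤ Z L ≤ B L`.
* `art_ext`: apply the hypotheses to `X a ⊓ C` (between `B` and `C`) and `X a ⊔ C` (between `C` and `Z`); both are stable (`y j (x + c) = y j x + y j c`); modular law: `X ≤ X'`, `X ⊓ C = X' ⊓ C`, `X ⊔ C = X' ⊔ C` give `X = X'`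
  (`eq_of_le_of_inf_le_of_sup_le`, for every `L`).  Take the larger of the two indices; note that for `a ≥ a₀` `X a ≤ X a₀`.
* `art_inj`: `X' a L = (X a L).map f ⊔ B' L`: stable (`y' j (f x) = f (y j x)`, `X a` stable; for `L < j` both are `0`), between `B'` and `Z'`, descending.  `X a L = {x ∈ Z L | f x ∈ X' a L}`: if `f x = f x₁ + b'`, `x₁ ∈ X a L`, then `f (x - x₁) ∈ B' L`, so `x - x₁ ∈ B L ≤ X a L`.
* `art_surj`: `X a L = Z L ⊓ (X' a L).comap f`: contains `B`, stable (`Z` stable, `f (y j x) = y' j (f x) ∈ X' a`; for `L < j` `y j x = 0` by `Sta y m Z`).  If `X a L = X a₀ L` then `X' a₀ L ≤ X' a L`: `x' ∈ X' a₀ L ≤ Z' L`, `x' - f z ∈ B' L` for some `z ∈ Z L`,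
  so `f z ∈ X' a₀ L`, `z ∈ X a₀ L = X a L`, `f z ∈ X' a L`, `x' ∈ X' a L`.
-/

namespace BrV

variable {V V' : Type} [AddCommGroup V] [Module ℝ V] [AddCommGroup V'] [Module ℝ V']

theorem art_mono (y : ℕ → V →ₗ[ℝ] V) (m : ℕ) (Z B Z' B' : ℕ → Submodule ℝ V)
    (h : Art y m Z B) (hB : ∀ L, B L ≤ B' L) (hZ : ∀ L, Z' L ≤ Z L) : Art y m Z' B' := by
  intro X hX hBZ hd
  exact h X hX (fun a L => ⟨(hB L).trans (hBZ a L).1, (hBZ a L).2.trans (hZ L)⟩) hd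

theorem art_triv (y : ℕ → V →ₗ[ℝ] V) (m : ℕ) (Z B : ℕ → Submodule ℝ V)
    (h : ∀ L, Z L ≤ B L) : Art y m Z B := by
  intro X _ hBZ _
  exact ⟨0, fun a _ L => le_antisymm (((hBZ a L).2.trans (h L)).trans (hBZ 0 L).1)
    (((hBZ 0 L).2.trans (h L)).trans (hBZ a L).1)⟩

theorem art_ext (y : ℕ → V →ₗ[ℝ] V) (m : ℕ) (Z C B : ℕ → Submodule ℝ V) (hC : Sta y m C)
    (hBC : ∀ L, B L ≤ C L) (hCZ : ∀ L, C L ≤ Z L) (h1 : Art y m C B) (h2 : Art y m Z C) :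
    Art y m Z B := by
  intro X hX hBZ hd
  have hanti : ∀ a b, a ≤ b → ∀ L, X b L ≤ X a L := by
    intro a b hab L
    exact antitone_nat_of_succ_le (f := fun a => X a L) (fun a => hd a L) hab
  obtain ⟨a1, ha1⟩ := h1 (fun a L => X a L ⊓ C L)
    (by
      intro a j hj1 hjm
      obtain ⟨hs1, hs2⟩ := hX a j hj1 hjm
      obtain ⟨hc1, hc2⟩ := hC j hj1 hjm
      exact ⟨fun L v hv => ⟨hs1 L v hv.1, hc1 L v hv.2⟩, fun L hL v hv => hs2 L hL v hv.1⟩)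
    (fun a L => ⟨le_inf (hBZ a L).1 (hBC L), inf_le_right⟩)
    (fun a L => inf_le_inf_right _ (hd a L))
  obtain ⟨a2, ha2⟩ := h2 (fun a L => X a L ⊔ C L)
    (by
      intro a j hj1 hjm
      obtain ⟨hs1, hs2⟩ := hX a j hj1 hjm
      obtain ⟨hc1, hc2⟩ := hC j hj1 hjm
      refine ⟨fun L v hv => ?_, fun L hL v hv => ?_⟩
      · obtain ⟨x, hx, c, hc, rfl⟩ := Submodule.mem_sup.mp hv
        rw [map_add]
        exact Submodule.add_mem_sup (hs1 L x hx) (hc1 L c hc)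
      · obtain ⟨x, hx, c, hc, rfl⟩ := Submodule.mem_sup.mp hv
        rw [map_add, hs2 L hL x hx, hc2 L hL c hc, add_zero])
    (fun a L => ⟨le_sup_right, sup_le (hBZ a L).2 (hCZ L)⟩)
    (fun a L => sup_le_sup_right (hd a L) _)
  refine ⟨max a1 a2, fun a ha L => ?_⟩
  have e1 : X a L ⊓ C L = X (max a1 a2) L ⊓ C L :=
    (ha1 a ((le_max_left _ _).trans ha) L).trans (ha1 (max a1 a2) (le_max_left _ _) L).symm
  have e2 : X a L ⊔ C L = X (max a1 a2) L ⊔ C L :=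
    (ha2 a ((le_max_right _ _).trans ha) L).trans (ha2 (max a1 a2) (le_max_right _ _) L).symm
  exact eq_of_le_of_inf_le_of_sup_le (hanti _ _ ha L) e1.ge e2.ge

theorem art_inj (y : ℕ → V →ₗ[ℝ] V) (y' : ℕ → V' →ₗ[ℝ] V') (m : ℕ) (Z B : ℕ → Submodule ℝ V)
    (Z' B' : ℕ → Submodule ℝ V') (f : V →ₗ[ℝ] V') (hf : ∀ j L, ∀ v ∈ Z L, f (y j v) = y' j (f v))
    (h1 : ∀ L, ∀ v ∈ Z L, f v ∈ Z' L) (h2 : ∀ L, ∀ v ∈ Z L, f v ∈ B' L ↔ v ∈ B L)
    (hB' : Sta y' m B') (hBZ' : ∀ L, B' L ≤ Z' L) (h : Art y' m Z' B') : Art y m Z B := by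
  intro X hX hBZ hd
  have hanti : ∀ a b, a ≤ b → ∀ L, X b L ≤ X a L := by
    intro a b hab L
    exact antitone_nat_of_succ_le (f := fun a => X a L) (fun a => hd a L) hab
  obtain ⟨a0, ha0⟩ := h (fun a L => (X a L).map f ⊔ B' L)
    (by
      intro a j hj1 hjm
      obtain ⟨hs1, hs2⟩ := hX a j hj1 hjm
      obtain ⟨hc1, hc2⟩ := hB' j hj1 hjm
      refine ⟨fun L v hv => ?_, fun L hL v hv => ?_⟩
      · obtain ⟨w, hw, c, hc, rfl⟩ := Submodule.mem_sup.mp hv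
        obtain ⟨x, hx, rfl⟩ := Submodule.mem_map.mp hw
        rw [map_add, ← hf j _ x ((hBZ a _).2 hx)]
        exact Submodule.add_mem_sup (Submodule.mem_map_of_mem (hs1 L x hx)) (hc1 L c hc)
      · obtain ⟨w, hw, c, hc, rfl⟩ := Submodule.mem_sup.mp hv
        obtain ⟨x, hx, rfl⟩ := Submodule.mem_map.mp hw
        rw [map_add, ← hf j _ x ((hBZ a _).2 hx), hs2 L hL x hx, hc2 L hL c hc, map_zero,
          add_zero])
    (fun a L => ⟨le_sup_right, sup_le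
      (by
        rw [Submodule.map_le_iff_le_comap]
        intro x hx
        exact h1 L x ((hBZ a L).2 hx)) (hBZ' L)⟩)
    (fun a L => sup_le_sup_right (Submodule.map_mono (hd a L)) _)
  refine ⟨a0, fun a ha L => le_antisymm (hanti _ _ ha L) ?_⟩
  intro x hx
  have e : (X a L).map f ⊔ B' L = (X a0 L).map f ⊔ B' L := ha0 a ha L
  have hx' : f x ∈ (X a L).map f ⊔ B' L := by
    rw [e]
    exact Submodule.mem_sup_left (Submodule.mem_map_of_mem hx)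
  obtain ⟨w, hw, b', hb', hwb⟩ := Submodule.mem_sup.mp hx'
  obtain ⟨x1, hx1, rfl⟩ := Submodule.mem_map.mp hw
  have hxZ : x - x1 ∈ Z L := (Z L).sub_mem ((hBZ a0 L).2 hx) ((hBZ a L).2 hx1)
  have hfb : f (x - x1) ∈ B' L := by
    rw [map_sub, ← hwb, add_sub_cancel_left]
    exact hb'
  have hB : x - x1 ∈ X a L := (hBZ a L).1 ((h2 L _ hxZ).mp hfb)
  have := (X a L).add_mem hB hx1
  rwa [sub_add_cancel] at this

theorem art_surj (y : ℕ → V →ₗ[ℝ] V) (y' : ℕ → V' →ₗ[ℝ] V') (m : ℕ) (Z B : ℕ → Submodule ℝ V)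
    (Z' B' : ℕ → Submodule ℝ V') (f : V →ₗ[ℝ] V') (hf : ∀ j L, ∀ v ∈ Z L, f (y j v) = y' j (f v))
    (h1 : ∀ L, ∀ v ∈ B L, f v ∈ B' L) (h2 : ∀ L, ∀ v' ∈ Z' L, ∃ v ∈ Z L, v' - f v ∈ B' L)
    (hZ : Sta y m Z) (hBZ : ∀ L, B L ≤ Z L) (h : Art y m Z B) : Art y' m Z' B' := by
  intro X' hX' hBZ' hd
  have hanti : ∀ a b, a ≤ b → ∀ L, X' b L ≤ X' a L := by
    intro a b hab L
    exact antitone_nat_of_succ_le (f := fun a => X' a L) (fun a => hd a L) hab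
  obtain ⟨a0, ha0⟩ := h (fun a L => Z L ⊓ (X' a L).comap f)
    (by
      intro a j hj1 hjm
      obtain ⟨hs1, hs2⟩ := hX' a j hj1 hjm
      obtain ⟨hc1, hc2⟩ := hZ j hj1 hjm
      refine ⟨fun L v hv => ⟨hc1 L v hv.1, ?_⟩, fun L hL v hv => hc2 L hL v hv.1⟩
      have h3 : f (y j v) ∈ X' a L := by
        rw [hf j _ v hv.1]
        exact hs1 L (f v) hv.2
      exact h3)
    (fun a L => ⟨fun b hb => ⟨hBZ L hb, (hBZ' a L).1 (h1 L b hb)⟩, inf_le_left⟩)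
    (fun a L => inf_le_inf_left _ (Submodule.comap_mono (hd a L)))
  refine ⟨a0, fun a ha L => le_antisymm (hanti _ _ ha L) ?_⟩
  intro x' hx'
  obtain ⟨z, hz, hzb⟩ := h2 L x' ((hBZ' a0 L).2 hx')
  have hfz : f z ∈ X' a0 L := by
    have h3 := (X' a0 L).sub_mem hx' ((hBZ' a0 L).1 hzb)
    rwa [sub_sub_cancel] at h3
  have e : Z L ⊓ (X' a L).comap f = Z L ⊓ (X' a0 L).comap f := ha0 a ha L
  have hz2 : z ∈ Z L ⊓ (X' a L).comap f := by
    rw [e]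
    exact ⟨hz, hfz⟩
  have hfz2 : f z ∈ X' a L := hz2.2
  have h4 := (X' a L).add_mem hfz2 ((hBZ' a L).1 hzb)
  rwa [add_sub_cancel] at h4

end BrV
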