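import Pool.Agent.Lib.BrV.ODef

/-!
# BrV.GAs: asymptotics of rational sequences (paper 4, section 5): only power series and sums

`pT m = ∏_{j=1}^m (1 - X^j)`; `Rat m P d : pT m * mk d = P`.
Work with integer sequences: for `d : ℕ → ℤ` with `pT (m+1) * mk d = P` let `d' : ℕ → ℤ` be `mk d' = (1 - X^(m+1)) * mk d`: `d' L = d L` for `L < m+1`, `d' (L+(m+1)) = d (L+(m+1)) - d L`, and `pT m * mk d' = P` (`pT (m+1) = pT m * (1 - X^(m+1))`).
* `m = 1` exactly: `d L = P(1)` for `L ≥ natDegree P` (`d L = ∑_{i ≤ L} P_i`, `Polynomial.eval_eq_sum_range`).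
* `m = 2`: `d (L+2) - d L = d' (L+2)`, `d' L = P(1)` for `L ≥ L₀`: `e L := 2 d L - P(1) L` satisfies `e (L+2) = e L + 2 (d' (L+2) - P(1))`, the last term is `0` for `L + 2 ≥ L₀`, so `|e L| ≤ C` (`c_2 = 2! 1! = 2`).
* `m → m + 1`, `m ≥ 2`: `c_m := m! (m-1)!`.  Hypothesis `|c_m d' L - P(1) L^(m-1)| ≤ C (L+1)^(m-2)`.  Put `e L := c_(m+1) d L - P(1) L^m`, `c_(m+1) = m (m+1) c_m`.  For `M = L-(m+1) ≥ 0`:
  `e L - e M = m (m+1) c_m d' L - P(1) (L^m - M^m)`, and `|L^m - M^m - m (m+1) L^(m-1)| ≤ C1 (L+1)^(m-2)` (`L^m - M^m = (m+1) ∑_{i<m} L^i M^(m-1-i)`, `0 ≤ L^(m-1-i) - M^(m-1-i) ≤ (m+1) m L^(m-2-i)`; or Taylor/binomial theorem),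
  so `|e L| ≤ |e M| + C2 (L+1)^(m-2)`, and by strong induction `|e L| ≤ K (L+1)^(m-1)` (`K (M+1) (L+1)^(m-2) + C2 (L+1)^(m-2) ≤ K (L+1)^(m-1)` for `K ≥ C2`; the finitely many `L < m+1` by enlarging `K`).
-/

namespace BrV

private lemma gas_rec (e : ℕ → ℝ) (k n : ℕ) (C : ℝ) (hk : 1 ≤ k)
    (h : ∀ L, k ≤ L → |e L| ≤ |e (L - k)| + C * ((L : ℝ) + 1) ^ n) :
    ∃ K : ℝ, ∀ L : ℕ, |e L| ≤ K * ((L : ℝ) + 1) ^ (n + 1) := by
  refine ⟨∑ i ∈ Finset.range k, |e i| + |C|, fun L => ?_⟩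
  set K := ∑ i ∈ Finset.range k, |e i| + |C| with hK
  have hS : 0 ≤ ∑ i ∈ Finset.range k, |e i| := Finset.sum_nonneg fun i _ => abs_nonneg _
  have hK0 : 0 ≤ K := add_nonneg hS (abs_nonneg _)
  have hCK : |C| ≤ K := by rw [hK]; linarith
  induction L using Nat.strong_induction_on with
  | _ L ih =>
    rcases lt_or_ge L k with hL | hL
    · have h1 : |e L| ≤ ∑ i ∈ Finset.range k, |e i| :=
        Finset.single_le_sum (f := fun i => |e i|) (fun i _ => abs_nonneg _)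
          (Finset.mem_range.2 hL)
      have h2 : (1 : ℝ) ≤ ((L : ℝ) + 1) ^ (n + 1) := by
        apply one_le_pow₀
        have : (0 : ℝ) ≤ L := Nat.cast_nonneg L
        linarith
      have h3 : K * 1 ≤ K * ((L : ℝ) + 1) ^ (n + 1) := mul_le_mul_of_nonneg_left h2 hK0
      have h4 : |e L| ≤ K := by rw [hK]; linarith [abs_nonneg C]
      linarith
    · have h1 := ih (L - k) (by omega)
      have h2 := h L hL
      have hL0 : (0 : ℝ) ≤ L := Nat.cast_nonneg L
      have hcast : ((L - k : ℕ) : ℝ) + 1 ≤ L := by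
        have : L - k + 1 ≤ L := by omega
        exact_mod_cast this
      have hpos : (0 : ℝ) ≤ ((L - k : ℕ) : ℝ) + 1 := by positivity
      have h3 : (((L - k : ℕ) : ℝ) + 1) ^ (n + 1) ≤ (L : ℝ) * ((L : ℝ) + 1) ^ n := by
        rw [pow_succ, mul_comm]
        apply mul_le_mul hcast _ (pow_nonneg hpos n) hL0
        exact pow_le_pow_left₀ hpos (by linarith) n
      have h4 : C * ((L : ℝ) + 1) ^ n ≤ K * ((L : ℝ) + 1) ^ n :=
        mul_le_mul_of_nonneg_right (le_trans (le_abs_self C) hCK) (by positivity)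
      have h5 : K * (((L - k : ℕ) : ℝ) + 1) ^ (n + 1) ≤ K * ((L : ℝ) * ((L : ℝ) + 1) ^ n) :=
        mul_le_mul_of_nonneg_left h3 hK0
      have h6 : K * ((L : ℝ) + 1) ^ (n + 1)
          = K * ((L : ℝ) * ((L : ℝ) + 1) ^ n) + K * ((L : ℝ) + 1) ^ n := by ring
      linarith

private lemma gas_rec0 (e : ℕ → ℝ) (k L₀ : ℕ) (hk : 1 ≤ k)
    (h : ∀ L, k ≤ L → L₀ ≤ L → |e L| ≤ |e (L - k)|) :
    ∃ K : ℝ, ∀ L : ℕ, |e L| ≤ K := by
  refine ⟨∑ i ∈ Finset.range (L₀ + k), |e i|, fun L => ?_⟩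
  induction L using Nat.strong_induction_on with
  | _ L ih =>
    rcases lt_or_ge L (L₀ + k) with hL | hL
    · exact Finset.single_le_sum (f := fun i => |e i|) (fun i _ => abs_nonneg _)
          (Finset.mem_range.2 hL)
    · exact le_trans (h L (by omega) (by omega)) (ih (L - k) (by omega))

private lemma gas_pow (k : ℝ) (hk : 0 ≤ k) (n : ℕ) :
    ∃ C : ℝ, 0 ≤ C ∧ ∀ L : ℝ, k ≤ L →
      |L ^ (n + 2) - (L - k) ^ (n + 2) - ((n : ℝ) + 2) * k * L ^ (n + 1)| ≤ C * L ^ n := by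
  induction n with
  | zero =>
    refine ⟨k ^ 2, by positivity, fun L hL => ?_⟩
    have h : L ^ (0 + 2) - (L - k) ^ (0 + 2) - (((0 : ℕ) : ℝ) + 2) * k * L ^ (0 + 1)
        = -(k ^ 2) := by
      push_cast; ring
    rw [h, abs_neg, abs_of_nonneg (by positivity)]
    simp
  | succ n ih =>
    obtain ⟨C, hC, h⟩ := ih
    refine ⟨C + ((n : ℝ) + 2) * k ^ 2, by positivity, fun L hL => ?_⟩
    have hL0 : 0 ≤ L := le_trans hk hL
    have h1 : L ^ (n + 1 + 2) - (L - k) ^ (n + 1 + 2)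
        - (((n + 1 : ℕ) : ℝ) + 2) * k * L ^ (n + 1 + 1)
        = (L - k) * (L ^ (n + 2) - (L - k) ^ (n + 2) - ((n : ℝ) + 2) * k * L ^ (n + 1))
          - ((n : ℝ) + 2) * k ^ 2 * L ^ (n + 1) := by
      push_cast; ring
    rw [h1]
    have h2 := h L hL
    have h3 : |(L - k) * (L ^ (n + 2) - (L - k) ^ (n + 2) - ((n : ℝ) + 2) * k * L ^ (n + 1))|
        ≤ L * (C * L ^ n) := by
      rw [abs_mul]
      apply mul_le_mul _ h2 (abs_nonneg _) hL0
      rw [abs_of_nonneg (by linarith)]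
      linarith
    have h4 : |((n : ℝ) + 2) * k ^ 2 * L ^ (n + 1)| = ((n : ℝ) + 2) * k ^ 2 * L ^ (n + 1) :=
      abs_of_nonneg (by positivity)
    calc _ ≤ |(L - k) * (L ^ (n + 2) - (L - k) ^ (n + 2) - ((n : ℝ) + 2) * k * L ^ (n + 1))|
          + |((n : ℝ) + 2) * k ^ 2 * L ^ (n + 1)| := abs_sub _ _
      _ ≤ L * (C * L ^ n) + ((n : ℝ) + 2) * k ^ 2 * L ^ (n + 1) := by rw [h4]; linarith
      _ = (C + ((n : ℝ) + 2) * k ^ 2) * L ^ (n + 1) := by ring

/-- the reduced sequence -/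
private def gasD (k : ℕ) (d : ℕ → ℤ) (L : ℕ) : ℤ := if k ≤ L then d L - d (L - k) else d L

private lemma gasD_mk (k : ℕ) (d : ℕ → ℤ) :
    PowerSeries.mk (gasD k d) = (1 - PowerSeries.X ^ k) * PowerSeries.mk d := by
  ext L
  rw [PowerSeries.coeff_mk, sub_mul, one_mul, map_sub, PowerSeries.coeff_mk,
    PowerSeries.coeff_X_pow_mul', gasD]
  split_ifs with h
  · rw [PowerSeries.coeff_mk]
  · rw [sub_zero]

private lemma gas_step (m : ℕ) (P : Polynomial ℤ) (d : ℕ → ℤ)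
    (h : pT (m + 1) * PowerSeries.mk d = (P : PowerSeries ℤ)) :
    pT m * PowerSeries.mk (gasD (m + 1) d) = (P : PowerSeries ℤ) := by
  rw [gasD_mk, ← mul_assoc, ← h]
  congr 1
  rw [pT, pT, Finset.prod_range_succ]

private lemma gas_one (P : Polynomial ℤ) (d : ℕ → ℤ)
    (h : pT 1 * PowerSeries.mk d = (P : PowerSeries ℤ)) (L : ℕ) (hL : P.natDegree ≤ L) :
    d L = P.eval 1 := by
  have h0 := gas_step 0 P d (by simpa using h)
  have h0' : PowerSeries.mk (gasD 1 d) = (P : PowerSeries ℤ) := by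
    rw [← h0, pT]; simp
  have hc : ∀ i, gasD 1 d i = P.coeff i := by
    intro i
    have := congrArg (PowerSeries.coeff i) h0'
    rwa [PowerSeries.coeff_mk, Polynomial.coeff_coe] at this
  have hs : ∀ n, d n = ∑ i ∈ Finset.range (n + 1), P.coeff i := by
    intro n
    induction n with
    | zero =>
      have := hc 0
      rw [gasD, if_neg (by omega)] at this
      simpa using this
    | succ n ih =>
      have := hc (n + 1)
      rw [gasD, if_pos (by omega), Nat.add_sub_cancel] at this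
      rw [Finset.sum_range_succ, ← ih]
      linarith
  rw [hs L, Polynomial.eval_eq_sum_range]
  simp only [one_pow, mul_one]
  symm
  apply Finset.sum_subset
  · intro i hi
    rw [Finset.mem_range] at hi ⊢
    omega
  · intro i _ hi
    rw [Finset.mem_range] at hi
    exact Polynomial.coeff_eq_zero_of_natDegree_lt (by omega)

private lemma gas_main (n : ℕ) : ∀ (P : Polynomial ℤ) (d : ℕ → ℤ),
    pT (n + 2) * PowerSeries.mk d = (P : PowerSeries ℤ) →
    ∃ C : ℝ, ∀ L : ℕ, |(((n + 2).factorial * (n + 1).factorial : ℕ) : ℝ) * (d L : ℝ) -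
      ((P.eval 1 : ℤ) : ℝ) * (L : ℝ) ^ (n + 1)| ≤ C * ((L : ℝ) + 1) ^ n := by
  induction n with
  | zero =>
    intro P d h
    have h1 := gas_step 1 P d h
    have h2 := gas_one P _ h1
    obtain ⟨K, hK⟩ := gas_rec0 (fun L => (((0 + 2).factorial * (0 + 1).factorial : ℕ) : ℝ) *
      (d L : ℝ) - ((P.eval 1 : ℤ) : ℝ) * (L : ℝ) ^ (0 + 1)) 2 P.natDegree (by norm_num) (by
        intro L hL hL0
        apply le_of_eq
        congr 1
        have h3 := h2 L hL0
        rw [gasD, if_pos hL] at h3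
        have h4 : ((d L : ℤ) : ℝ) = ((P.eval 1 : ℤ) : ℝ) + (d (L - 2) : ℝ) := by
          have : d L = P.eval 1 + d (L - 2) := by
            have h5 : d L - d (L - 2) = P.eval 1 := h3
            linarith
          rw [this]; push_cast; ring
        have h6 : ((L - 2 : ℕ) : ℝ) = (L : ℝ) - 2 := by
          rw [Nat.cast_sub hL]; norm_num
        have h7 : (((0 + 2).factorial * (0 + 1).factorial : ℕ) : ℝ) = 2 := by
          norm_num [Nat.factorial]
        simp only [h7, h4, h6]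
        ring)
    exact ⟨K, fun L => by simpa using hK L⟩
  | succ n ih =>
    intro P d h
    have h1 := gas_step (n + 2) P d h
    obtain ⟨C, hC⟩ := ih P _ h1
    obtain ⟨C1, hC10, hC1⟩ := gas_pow ((n : ℝ) + 3) (by positivity) n
    have hC0 : 0 ≤ C := by
      have := le_trans (abs_nonneg _) (hC 0)
      simpa using this
    obtain ⟨K, hK⟩ := gas_rec (fun L => (((n + 1 + 2).factorial * (n + 1 + 1).factorial : ℕ) : ℝ) *
      (d L : ℝ) - ((P.eval 1 : ℤ) : ℝ) * (L : ℝ) ^ (n + 1 + 1)) (n + 3) n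
      (((n : ℝ) + 3) * ((n : ℝ) + 2) * C + |((P.eval 1 : ℤ) : ℝ)| * C1) (by omega) (by
        intro L hL
        have hL' : ((n : ℝ) + 3) ≤ L := by exact_mod_cast hL
        have hM : ((L - (n + 3) : ℕ) : ℝ) = (L : ℝ) - ((n : ℝ) + 3) := by
          rw [Nat.cast_sub hL]; push_cast; ring
        have h2 := hC L
        have h3 := hC1 (L : ℝ) hL'
        have hd : (gasD (n + 2 + 1) d L : ℝ) = (d L : ℝ) - (d (L - (n + 3)) : ℝ) := by
          rw [gasD, if_pos (by omega)]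
          push_cast
          rfl
        rw [hd] at h2
        have hf : (((n + 1 + 2).factorial * (n + 1 + 1).factorial : ℕ) : ℝ)
            = ((n : ℝ) + 3) * ((n : ℝ) + 2) * (((n + 2).factorial * (n + 1).factorial : ℕ) : ℝ) := by
          have e1 : (n + 1 + 2).factorial = (n + 3) * (n + 2).factorial := by
            rw [show n + 1 + 2 = (n + 2) + 1 from by ring, Nat.factorial_succ]
          have e2 : (n + 1 + 1).factorial = (n + 2) * (n + 1).factorial := by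
            rw [Nat.factorial_succ]
          rw [e1, e2]; push_cast; ring
        set c : ℝ := (((n + 2).factorial * (n + 1).factorial : ℕ) : ℝ) with hc
        set p : ℝ := ((P.eval 1 : ℤ) : ℝ) with hp
        have key : (((n + 1 + 2).factorial * (n + 1 + 1).factorial : ℕ) : ℝ) * (d L : ℝ)
              - p * (L : ℝ) ^ (n + 1 + 1)
            = ((((n + 1 + 2).factorial * (n + 1 + 1).factorial : ℕ) : ℝ) *
              (d (L - (n + 3)) : ℝ) - p * ((L - (n + 3) : ℕ) : ℝ) ^ (n + 1 + 1))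
              + (((n : ℝ) + 3) * ((n : ℝ) + 2) *
                  (c * ((d L : ℝ) - (d (L - (n + 3)) : ℝ)) - p * (L : ℝ) ^ (n + 1))
                - p * ((L : ℝ) ^ (n + 2) - ((L : ℝ) - ((n : ℝ) + 3)) ^ (n + 2)
                  - ((n : ℝ) + 2) * ((n : ℝ) + 3) * (L : ℝ) ^ (n + 1))) := by
          rw [hf, hM]; ring
        show |_| ≤ |_| + _
        rw [key]
        refine le_trans (abs_add_le _ _) (add_le_add le_rfl ?_)
        refine le_trans (abs_sub _ _) ?_
        rw [abs_mul, abs_mul p]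
        have hsplit : (((n : ℝ) + 3) * ((n : ℝ) + 2) * C + |p| * C1) * ((L : ℝ) + 1) ^ n
            = ((n : ℝ) + 3) * ((n : ℝ) + 2) * (C * ((L : ℝ) + 1) ^ n)
              + |p| * (C1 * ((L : ℝ) + 1) ^ n) := by ring
        rw [hsplit]
        have hLL : (L : ℝ) ^ n ≤ ((L : ℝ) + 1) ^ n :=
          pow_le_pow_left₀ (Nat.cast_nonneg L) (by linarith) n
        apply add_le_add
        · rw [abs_of_nonneg (by positivity : (0:ℝ) ≤ ((n : ℝ) + 3) * ((n : ℝ) + 2))]
          exact mul_le_mul_of_nonneg_left h2 (by positivity)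
        · apply mul_le_mul_of_nonneg_left _ (abs_nonneg _)
          exact le_trans h3 (mul_le_mul_of_nonneg_left hLL hC10))
    exact ⟨K, fun L => hK L⟩

theorem as_lim (m : ℕ) (hm : 2 ≤ m) (P : Polynomial ℤ) (d : ℕ → ℕ) (h : Rat m P d) :
    ∃ C : ℝ, ∀ L : ℕ, |((m.factorial * (m - 1).factorial : ℕ) : ℝ) * (d L : ℝ) -
      ((P.eval 1 : ℤ) : ℝ) * (L : ℝ) ^ (m - 1)| ≤ C * ((L : ℝ) + 1) ^ (m - 2) := by
  obtain ⟨n, rfl⟩ : ∃ n, m = n + 2 := ⟨m - 2, by omega⟩
  obtain ⟨C, hC⟩ := gas_main n P (fun L => (d L : ℤ)) h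
  refine ⟨C, fun L => ?_⟩
  have := hC L
  simpa using this

end BrV
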