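import Pool.Agent.Lib.BrV.GArt
import Pool.Agent.Lib.BrV.SLin

/-!
# BrV.GFin: finite dimension from the chain condition (paper 4, section 4): only linear algebra

* `art_fin`: fix `L`.  Every descending sequence `U a` of subspaces with `B L ≤ U a ≤ Z L` becomes constant: apply `h` to the families `X a L' := Z L'` for `L' < L`, `U a` for `L' = L`, `B L'` for `L' > L`.  They are stable: `v ∈ X a (L' + j)`:
  if `L' + j ≤ L` then (`j ≥ 1`) `L' < L` and `v ∈ Z (L' + j)`, so `y j v ∈ Z L' = X a L'`; if `L' + j > L` then `v ∈ B (L' + j)`, `y j v ∈ B L' ≤ X a L'`.  If `L' < j`: `v ∈ Z L'`, `y j v = 0`.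
  So the quotient `Q = Z L ⧸ (B L).comap (Z L).subtype` is Artinian (descending sequences of submodules of `Q`, pulled back to `Z L` and pushed to `V`), hence finite-dimensional (`IsSemisimpleModule.finite_tfae` or
  `isArtinian_iff_..`; or directly: if `Q` is not finite-dimensional it has a linearly independent sequence `e_0, e_1, ..` (`Module.rank ≥ ℵ₀`), the spans of `{e_i | i ≥ a}` descend strictly), `d = finrank`, `Module.finrank_eq_rank`.
* `art_zero`: `X a L := Z L` for `a ≤ L`, `B L` for `L < a` (every family is stable for `m = 0`: the condition is empty); constant from `a₀` on: for `L ≥ a₀`: `Z L = X L L = X (L+1) L = B L`.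
-/

namespace BrV

variable {V : Type} [AddCommGroup V] [Module ℝ V]

/-- descending sequences of subspaces at the index `L` become constant -/
private theorem GFin_chain (y : ℕ → V →ₗ[ℝ] V) (m : ℕ) (Z B : ℕ → Submodule ℝ V)
    (hZ : Sta y m Z) (hB : Sta y m B) (hBZ : ∀ L, B L ≤ Z L) (h : Art y m Z B) (L : ℕ)
    (U : ℕ → Submodule ℝ V) (hU : ∀ a, B L ≤ U a ∧ U a ≤ Z L) (hd : ∀ a, U (a + 1) ≤ U a) :
    ∃ a₀, ∀ a, a₀ ≤ a → U a = U a₀ := by
  classical
  set X : ℕ → ℕ → Submodule ℝ V := fun a L' => if L' < L then Z L' else if L' = L then U a else B L'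
    with hX
  have hlt : ∀ a L', L' < L → X a L' = Z L' := fun a L' hl => by
    simp only [hX, if_pos hl]
  have heq : ∀ a, X a L = U a := fun a => by
    simp only [hX, lt_irrefl, if_false, if_true]
  have hgt : ∀ a L', L < L' → X a L' = B L' := fun a L' hl => by
    simp only [hX, if_neg (not_lt.2 hl.le), if_neg hl.ne']
  have hbd : ∀ a L', B L' ≤ X a L' ∧ X a L' ≤ Z L' := by
    intro a L'
    rcases lt_trichotomy L' L with hl | hl | hl
    · rw [hlt a L' hl]
      exact ⟨hBZ L', le_refl _⟩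
    · rw [hl, heq a]
      exact hU a
    · rw [hgt a L' hl]
      exact ⟨le_refl _, hBZ L'⟩
  have hst : ∀ a, Sta y m (X a) := by
    intro a j hj1 hjm
    refine ⟨fun L' v hv => ?_, fun L' hL' v hv => ?_⟩
    · rcases le_or_gt (L' + j) L with hl | hl
      · rw [hlt a L' (by omega)]
        exact (hZ j hj1 hjm).1 L' v ((hbd a (L' + j)).2 hv)
      · rw [hgt a (L' + j) hl] at hv
        exact (hbd a L').1 ((hB j hj1 hjm).1 L' v hv)
    · exact (hZ j hj1 hjm).2 L' hL' v ((hbd a L').2 hv)
  have hde : ∀ a L', X (a + 1) L' ≤ X a L' := by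
    intro a L'
    rcases lt_trichotomy L' L with hl | hl | hl
    · rw [hlt a L' hl, hlt (a + 1) L' hl]
    · rw [hl, heq a, heq (a + 1)]
      exact hd a
    · rw [hgt a L' hl, hgt (a + 1) L' hl]
  obtain ⟨a₀, ha⟩ := h X hst hbd hde
  refine ⟨a₀, fun a haa => ?_⟩
  have := ha a haa L
  rwa [heq, heq] at this

theorem art_fin (y : ℕ → V →ₗ[ℝ] V) (m : ℕ) (Z B : ℕ → Submodule ℝ V) (hZ : Sta y m Z)
    (hB : Sta y m B) (hBZ : ∀ L, B L ≤ Z L) (h : Art y m Z B) (L : ℕ) :
    ∃ d : ℕ, HD (Z L) (B L) d := by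
  have hart : IsArtinian ℝ (Z L ⧸ (B L).comap (Z L).subtype) := by
    rw [← monotone_stabilizes_iff_artinian]
    intro f
    set q := ((B L).comap (Z L).subtype).mkQ with hq
    have hU : ∀ a, B L ≤ ((((OrderDual.ofDual (f a)) : Submodule ℝ _).comap q).map (Z L).subtype) ∧
        ((((OrderDual.ofDual (f a)) : Submodule ℝ _).comap q).map (Z L).subtype) ≤ Z L := by
      refine fun a => ⟨fun v hv => ?_, fun v hv => ?_⟩
      · refine ⟨⟨v, hBZ L hv⟩, ?_, rfl⟩
        show q _ ∈ (OrderDual.ofDual (f a) : Submodule ℝ _)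
        have : q ⟨v, hBZ L hv⟩ = 0 := by
          rw [hq, Submodule.mkQ_apply, Submodule.Quotient.mk_eq_zero, Submodule.mem_comap]
          exact hv
        rw [this]
        exact Submodule.zero_mem _
      · obtain ⟨z, -, rfl⟩ := hv
        exact z.2
    have hd : ∀ a, ((((OrderDual.ofDual (f (a + 1))) : Submodule ℝ _).comap q).map (Z L).subtype) ≤
        ((((OrderDual.ofDual (f a)) : Submodule ℝ _).comap q).map (Z L).subtype) := fun a =>
      Submodule.map_mono (Submodule.comap_mono (OrderDual.ofDual_le_ofDual.2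
        (f.monotone (Nat.le_succ a))))
    obtain ⟨a₀, ha⟩ := GFin_chain y m Z B hZ hB hBZ h L
      (fun a => (((OrderDual.ofDual (f a)) : Submodule ℝ _).comap q).map (Z L).subtype) hU hd
    refine ⟨a₀, fun a haa => ?_⟩
    have h1 := ha a haa
    have h2 := Submodule.map_injective_of_injective (Z L).injective_subtype h1
    have h3 := Submodule.comap_injective_of_surjective
      (Submodule.mkQ_surjective ((B L).comap (Z L).subtype)) h2
    exact (congrArg OrderDual.toDual h3).symm
  have hfin : Module.Finite ℝ (Z L ⧸ (B L).comap (Z L).subtype) :=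
    (IsSemisimpleModule.finite_tfae.out 0 2).mpr hart
  exact ⟨Module.finrank ℝ (Z L ⧸ (B L).comap (Z L).subtype), (Module.finrank_eq_rank _ _).symm⟩

theorem art_zero (y : ℕ → V →ₗ[ℝ] V) (Z B : ℕ → Submodule ℝ V) (hBZ : ∀ L, B L ≤ Z L)
    (h : Art y 0 Z B) : ∃ L₀, ∀ L, L₀ ≤ L → Z L = B L := by
  classical
  set X : ℕ → ℕ → Submodule ℝ V := fun a L => if a ≤ L then Z L else B L with hX
  have hle : ∀ a L, a ≤ L → X a L = Z L := fun a L hl => by simp only [hX, if_pos hl]
  have hgt : ∀ a L, ¬ a ≤ L → X a L = B L := fun a L hl => by simp only [hX, if_neg hl]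
  have hbd : ∀ a L, B L ≤ X a L ∧ X a L ≤ Z L := by
    intro a L
    by_cases hl : a ≤ L
    · rw [hle a L hl]
      exact ⟨hBZ L, le_refl _⟩
    · rw [hgt a L hl]
      exact ⟨le_refl _, hBZ L⟩
  have hde : ∀ a L, X (a + 1) L ≤ X a L := by
    intro a L
    by_cases hl : a + 1 ≤ L
    · rw [hle (a + 1) L hl, hle a L (by omega)]
    · rw [hgt (a + 1) L hl]
      exact (hbd a L).1
  obtain ⟨a₀, ha⟩ := h X (fun a j h1 h2 => absurd h2 (by omega)) hbd hde
  refine ⟨a₀, fun L hL => ?_⟩
  have h1 := ha L hL L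
  have h2 := ha (L + 1) (by omega) L
  rw [← hle L L (le_refl L), h1, ← h2, hgt (L + 1) L (by omega)]

end BrV
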