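import Pool.Agent.Lib.BrV.SLin

/-!
# BrV.GRk: rank identities for quotients (paper 4, sections 4 and 7): only linear algebra

* `HD_rk4`: `f` induces `f̄ : Z ⧸ B → Z' ⧸ B'`; its kernel is `(Z ⊓ f⁻¹ B') ⧸ B` (dimension `κ`), its range is `(f Z ⊔ B') ⧸ B'`, and `Z' ⧸ (f Z ⊔ B')` has dimension `γ`.
  So `d = κ + rank f̄` and `d' = rank f̄ + γ`.
* `HD_mid`: `f : Z' → Z`, `g : Z → Z''` with `g⁻¹(B'') ∩ Z ≤ f(Z') + B`.  The kernel of `ḡ : Z ⧸ B → Z'' ⧸ B''` is contained in the range of `f̄ : Z' ⧸ B' → Z ⧸ B`, so `rank (Z ⧸ B) = rank (range ḡ) + rank (ker ḡ) ≤ c + a`;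
  it is a natural number `≤ a + c` (`Cardinal.lt_aleph0`).
-/

namespace BrV

private theorem GRk_quot {V W : Type} [AddCommGroup V] [Module ℝ V] [AddCommGroup W] [Module ℝ W]
    (Z B : Submodule ℝ V) (T : Z →ₗ[ℝ] W) (hk : ∀ z : Z, T z = 0 ↔ (z : V) ∈ B)
    (hs : Function.Surjective T) :
    Module.rank ℝ (Z ⧸ B.comap Z.subtype) = Module.rank ℝ W := by
  have h : LinearMap.ker T = B.comap Z.subtype := by
    ext z
    rw [LinearMap.mem_ker, hk, Submodule.mem_comap]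
    rfl
  rw [← h]
  exact (T.quotKerEquivOfSurjective hs).rank_eq

/-- the induced map of quotients -/
private noncomputable def GRk_map {V V' : Type} [AddCommGroup V] [Module ℝ V] [AddCommGroup V']
    [Module ℝ V'] (Z B : Submodule ℝ V) (Z' B' : Submodule ℝ V') (f : V →ₗ[ℝ] V')
    (h1 : ∀ z ∈ Z, f z ∈ Z') (h2 : ∀ z ∈ B, f z ∈ B') :
    (Z ⧸ B.comap Z.subtype) →ₗ[ℝ] (Z' ⧸ B'.comap Z'.subtype) :=
  (B.comap Z.subtype).mapQ (B'.comap Z'.subtype) (f.restrict h1) (by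
    rintro ⟨z, hz⟩ hz'
    rw [Submodule.mem_comap, Submodule.mem_comap]
    exact h2 z hz')

private theorem GRk_map_mk {V V' : Type} [AddCommGroup V] [Module ℝ V] [AddCommGroup V']
    [Module ℝ V'] (Z B : Submodule ℝ V) (Z' B' : Submodule ℝ V') (f : V →ₗ[ℝ] V')
    (h1 : ∀ z ∈ Z, f z ∈ Z') (h2 : ∀ z ∈ B, f z ∈ B') (z : V) (hz : z ∈ Z) :
    GRk_map Z B Z' B' f h1 h2 ((B.comap Z.subtype).mkQ ⟨z, hz⟩) =
      (B'.comap Z'.subtype).mkQ ⟨f z, h1 z hz⟩ := by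
  rw [GRk_map, Submodule.mkQ_apply, Submodule.mkQ_apply, Submodule.mapQ_apply]
  rfl

private theorem GRk_mk_zero {V : Type} [AddCommGroup V] [Module ℝ V] (Z B : Submodule ℝ V) (z : V)
    (hz : z ∈ Z) : (B.comap Z.subtype).mkQ ⟨z, hz⟩ = 0 ↔ z ∈ B := by
  rw [Submodule.mkQ_apply, Submodule.Quotient.mk_eq_zero, Submodule.mem_comap]
  rfl

variable {V V' V'' : Type} [AddCommGroup V] [Module ℝ V] [AddCommGroup V'] [Module ℝ V']
  [AddCommGroup V''] [Module ℝ V'']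

theorem HD_rk4 (Z B : Submodule ℝ V) (Z' B' : Submodule ℝ V') (f : V →ₗ[ℝ] V')
    (hBZ : B ≤ Z) (hBZ' : B' ≤ Z') (h1 : ∀ z ∈ Z, f z ∈ Z') (h2 : ∀ z ∈ B, f z ∈ B')
    (d d' κ γ : ℕ) (hd : HD Z B d) (hd' : HD Z' B' d') (hκ : HD (Z ⊓ B'.comap f) B κ)
    (hγ : HD Z' (Z.map f ⊔ B') γ) : d + γ = κ + d' := by
  unfold HD at hd hd' hκ hγ
  set Tb := GRk_map Z B Z' B' f h1 h2 with hTb
  have hr := LinearMap.rank_range_add_rank_ker Tb
  rw [hd] at hr
  have hle : Z ⊓ B'.comap f ≤ Z := inf_le_left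
  set T1 : (Z ⊓ B'.comap f : Submodule ℝ V) →ₗ[ℝ] LinearMap.ker Tb :=
    LinearMap.codRestrict (LinearMap.ker Tb)
      ((B.comap Z.subtype).mkQ.comp (Submodule.inclusion hle)) (by
        rintro ⟨z, hz⟩
        rw [LinearMap.mem_ker, LinearMap.comp_apply]
        have e : Submodule.inclusion hle ⟨z, hz⟩ = ⟨z, hz.1⟩ := rfl
        rw [e, hTb, GRk_map_mk, GRk_mk_zero]
        exact hz.2) with hT1
  have hq := GRk_quot (Z ⊓ B'.comap f) B T1 (by
    rintro ⟨z, hz⟩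
    rw [← Subtype.coe_inj, hT1, LinearMap.codRestrict_apply, LinearMap.comp_apply,
      ZeroMemClass.coe_zero]
    exact GRk_mk_zero Z B z hz.1) (by
    rintro ⟨w, hw⟩
    obtain ⟨⟨z, hz⟩, rfl⟩ := Submodule.mkQ_surjective _ w
    rw [LinearMap.mem_ker, hTb, GRk_map_mk, GRk_mk_zero] at hw
    exact ⟨⟨z, hz, hw⟩, Subtype.ext rfl⟩)
  rw [hκ] at hq
  rw [← hq] at hr
  have hr2 := Submodule.rank_quotient_add_rank (LinearMap.range Tb)
  rw [hd'] at hr2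
  have hq2 := GRk_quot Z' (Z.map f ⊔ B')
    ((LinearMap.range Tb).mkQ.comp (B'.comap Z'.subtype).mkQ) (by
      rintro ⟨z', hz'⟩
      rw [LinearMap.comp_apply, Submodule.mkQ_apply (LinearMap.range Tb),
        Submodule.Quotient.mk_eq_zero, LinearMap.mem_range]
      constructor
      · rintro ⟨w, hw⟩
        obtain ⟨⟨z, hz⟩, rfl⟩ := Submodule.mkQ_surjective _ w
        rw [hTb, GRk_map_mk, Submodule.mkQ_apply, Submodule.mkQ_apply, eq_comm,
          Submodule.Quotient.eq, Submodule.mem_comap] at hw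
        have hw' : z' - f z ∈ B' := hw
        rw [Submodule.mem_sup]
        exact ⟨f z, ⟨z, hz, rfl⟩, z' - f z, hw', by abel⟩
      · intro hm
        obtain ⟨y, ⟨z, hz, rfl⟩, b, hb, hy⟩ := Submodule.mem_sup.1 hm
        refine ⟨(B.comap Z.subtype).mkQ ⟨z, hz⟩, ?_⟩
        rw [hTb, GRk_map_mk, Submodule.mkQ_apply, Submodule.mkQ_apply, eq_comm,
          Submodule.Quotient.eq, Submodule.mem_comap]
        have e : z' - f z = b := by
          have hy' : f z + b = z' := hy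
          rw [← hy']
          abel
        show z' - f z ∈ B'
        rw [e]
        exact hb) (by
      intro w
      obtain ⟨v, rfl⟩ := Submodule.mkQ_surjective _ w
      obtain ⟨z, rfl⟩ := Submodule.mkQ_surjective _ v
      exact ⟨z, rfl⟩)
  rw [hγ] at hq2
  rw [← hq2] at hr2
  have h : ((d + γ : ℕ) : Cardinal) = ((κ + d' : ℕ) : Cardinal) := by
    push_cast
    rw [← hr, ← hr2]
    ring
  exact_mod_cast h

theorem HD_mid (Z B : Submodule ℝ V) (Z' B' : Submodule ℝ V') (Z'' B'' : Submodule ℝ V'')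
    (f : V' →ₗ[ℝ] V) (g : V →ₗ[ℝ] V'') (hf : ∀ z ∈ Z', f z ∈ Z) (hfB : ∀ z ∈ B', f z ∈ B)
    (hg : ∀ z ∈ Z, g z ∈ Z'') (hgB : ∀ z ∈ B, g z ∈ B'')
    (hex : ∀ z ∈ Z, g z ∈ B'' → ∃ z' ∈ Z', z - f z' ∈ B) (a c : ℕ) (ha : HD Z' B' a)
    (hc : HD Z'' B'' c) : ∃ b, b ≤ a + c ∧ HD Z B b := by
  unfold HD at ha hc ⊢
  set Tf := GRk_map Z' B' Z B f hf hfB with hTf
  set Tg := GRk_map Z B Z'' B'' g hg hgB with hTg
  have hr := LinearMap.rank_range_add_rank_ker Tg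
  have hker : LinearMap.ker Tg ≤ LinearMap.range Tf := by
    intro w hw
    obtain ⟨⟨z, hz⟩, rfl⟩ := Submodule.mkQ_surjective _ w
    rw [LinearMap.mem_ker, hTg, GRk_map_mk, GRk_mk_zero] at hw
    obtain ⟨z', hz', h⟩ := hex z hz hw
    refine ⟨(B'.comap Z'.subtype).mkQ ⟨z', hz'⟩, ?_⟩
    rw [hTf, GRk_map_mk, Submodule.mkQ_apply, Submodule.mkQ_apply, eq_comm,
      Submodule.Quotient.eq, Submodule.mem_comap]
    exact h
  have h1 : Module.rank ℝ (LinearMap.ker Tg) ≤ (a : Cardinal) := by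
    rw [← ha]
    exact (Submodule.rank_mono hker).trans (rank_range_le Tf)
  have h2 : Module.rank ℝ (LinearMap.range Tg) ≤ (c : Cardinal) := by
    rw [← hc]
    exact Submodule.rank_le _
  have h3 : Module.rank ℝ (Z ⧸ B.comap Z.subtype) ≤ ((a + c : ℕ) : Cardinal) := by
    rw [← hr]
    push_cast
    rw [add_comm (a : Cardinal)]
    exact add_le_add h2 h1
  obtain ⟨b, hb⟩ := Cardinal.lt_aleph0.1 (h3.trans_lt Cardinal.natCast_lt_aleph0)
  refine ⟨b, ?_, hb⟩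
  rw [hb] at h3
  exact_mod_cast h3

end BrV
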