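import Pool.Agent.Lib.BrV.GFin
import Pool.Agent.Lib.BrV.GRk

/-!
# BrV.GHS: Hilbert-Serre for the chain condition (paper 4, section 4): only linear algebra

`hil_serre`, induction on `m` for all `Z, B`.
* `m = 0`: `pT 0 = 1`; `d` from `art_fin`, `d L = 0` for `L ≥ L₀` (`art_zero`, `HD_zero`, `HD_uniq`): `PowerSeries.mk d` is the polynomial `∑_{L < L₀} d L X^L`.
* `m + 1`: `e = y (m+1)`, `K L := Z L ⊓ (if m + 1 ≤ L then B (L - (m+1)) else ⊥).comap e`, `C L := (Z (L + (m+1))).map e ⊔ B L`.  Both families are stable under `y 1..y m` (`hc`: `e (y j v) = y j (e v)`; indices: `L + j - (m+1) = (L - (m+1)) + j`;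
  note that `e v = 0` for `v ∈ Z L`, `L < m + 1`, so `K L = Z L` there; for `v ∈ K (L+j)` with `L < m + 1`: `e (y j v) = 0` because `y j v ∈ Z L`), `B L ≤ K L ≤ Z L`, `B L ≤ C L ≤ Z L`.
  `Art y m K B`: a family `X` between `B` and `K` which is stable under `y 1..y m` is stable under `e`: `v ∈ X (L + (m+1)) ≤ K (L+(m+1))`, so `e v ∈ B L ≤ X L`; and `e v = 0` for `L < m+1`.  So the chain condition `h` applies (`B ≤ X ≤ K ≤ Z`).
  `Art y m Z C`: a family between `C` and `Z`: `v ∈ X (L + (m+1)) ≤ Z (..)`: `e v ∈ C L ≤ X L`.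
  By induction `(κ, P)` for `(K, B)`, `(γ, P')` for `(Z, C)`; let `d` be from `art_fin`.  `HD_rk4` (`Z (L+(m+1)), B (..) → Z L, B L`, `f = e`): `d (L + (m+1)) + γ L = κ (L + (m+1)) + d L`; for `L < m+1`: `K L = Z L`, `d L = κ L` (`HD_uniq`).
  Hence `(1 - X^(m+1)) * mk d = mk κ - X^(m+1) * mk γ` (`PowerSeries.ext`, `PowerSeries.coeff_X_pow_mul'`), multiply by `pT m` (`pT (m+1) = pT m * (1 - X^(m+1))`, `Finset.prod_range_succ`): `P - X^(m+1) * P'`.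
-/

namespace BrV

variable {V : Type} [AddCommGroup V] [Module ℝ V]

/-- the kernel family -/
private def KF (e : V →ₗ[ℝ] V) (m : ℕ) (Z B : ℕ → Submodule ℝ V) (L : ℕ) : Submodule ℝ V :=
  Z L ⊓ (if m + 1 ≤ L then B (L - (m + 1)) else ⊥).comap e

/-- the cokernel family -/
private def CF (e : V →ₗ[ℝ] V) (m : ℕ) (Z B : ℕ → Submodule ℝ V) (L : ℕ) : Submodule ℝ V :=
  (Z (L + (m + 1))).map e ⊔ B L

private theorem KF_add (e : V →ₗ[ℝ] V) (m : ℕ) (Z B : ℕ → Submodule ℝ V) (L : ℕ) :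
    KF e m Z B (L + (m + 1)) = Z (L + (m + 1)) ⊓ (B L).comap e := by
  unfold KF
  rw [if_pos (Nat.le_add_left _ _), Nat.add_sub_cancel]

private theorem KF_lt (e : V →ₗ[ℝ] V) (m : ℕ) (Z B : ℕ → Submodule ℝ V) (L : ℕ)
    (hL : L < m + 1) (he : ∀ v ∈ Z L, e v = 0) : KF e m Z B L = Z L := by
  unfold KF
  rw [if_neg (not_le.mpr hL)]
  refine inf_eq_left.mpr fun v hv => ?_
  rw [Submodule.mem_comap, he v hv]
  exact Submodule.zero_mem _

private theorem KF_le (e : V →ₗ[ℝ] V) (m : ℕ) (Z B : ℕ → Submodule ℝ V) (L : ℕ) :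
    KF e m Z B L ≤ Z L := inf_le_left

private theorem KF_cases (e : V →ₗ[ℝ] V) (m : ℕ) (Z B : ℕ → Submodule ℝ V) (L : ℕ) (v : V)
    (hv : v ∈ Z L) (h1 : ∀ L', L = L' + (m + 1) → e v ∈ B L') (h2 : L < m + 1 → e v = 0) :
    v ∈ KF e m Z B L := by
  refine ⟨hv, ?_⟩
  show e v ∈ (if m + 1 ≤ L then B (L - (m + 1)) else ⊥)
  split_ifs with h
  · exact h1 _ (Nat.sub_add_cancel h).symm
  · rw [h2 (not_le.mp h)]
    exact Submodule.zero_mem _

private theorem KF_mem (e : V →ₗ[ℝ] V) (m : ℕ) (Z B : ℕ → Submodule ℝ V) (L : ℕ) (v : V)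
    (hv : v ∈ KF e m Z B (L + (m + 1))) : e v ∈ B L := by
  rw [KF_add] at hv
  exact hv.2

private theorem KF_ge (y : ℕ → V →ₗ[ℝ] V) (m : ℕ) (Z B : ℕ → Submodule ℝ V)
    (hB : Sta y (m + 1) B) (hBZ : ∀ L, B L ≤ Z L) (L : ℕ) : B L ≤ KF (y (m + 1)) m Z B L := by
  obtain ⟨hb1, hb2⟩ := hB (m + 1) (by omega) le_rfl
  intro v hv
  refine KF_cases _ _ _ _ _ _ (hBZ L hv) ?_ fun hL => hb2 L hL v hv
  rintro L' rfl
  exact hb1 L' v hv

private theorem KF_sta (y : ℕ → V →ₗ[ℝ] V) (m : ℕ) (Z B : ℕ → Submodule ℝ V)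
    (hZ : Sta y (m + 1) Z) (hB : Sta y (m + 1) B) (hc : Cmm y Z) :
    Sta y m (KF (y (m + 1)) m Z B) := by
  obtain ⟨hz1, hz2⟩ := hZ (m + 1) (by omega) le_rfl
  intro j hj1 hjm
  obtain ⟨hj3, hj4⟩ := hZ j hj1 (by omega)
  refine ⟨fun L v hv => ?_, fun L hL v hv => hj4 L hL v (KF_le _ _ _ _ _ hv)⟩
  have hvZ : v ∈ Z (L + j) := KF_le _ _ _ _ _ hv
  have hyZ : y j v ∈ Z L := hj3 L v hvZ
  refine KF_cases _ _ _ _ _ _ hyZ ?_ fun hL => hz2 L hL _ hyZ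
  rintro L' rfl
  rw [hc (m + 1) j _ v hvZ]
  refine (hB j hj1 (by omega)).1 L' _ ?_
  have e1 : L' + (m + 1) + j = L' + j + (m + 1) := by omega
  rw [e1] at hv
  exact KF_mem _ _ _ _ _ _ hv

private theorem CF_sta (y : ℕ → V →ₗ[ℝ] V) (m : ℕ) (Z B : ℕ → Submodule ℝ V)
    (hZ : Sta y (m + 1) Z) (hB : Sta y (m + 1) B) (hc : Cmm y Z) :
    Sta y m (CF (y (m + 1)) m Z B) := by
  obtain ⟨hz1, hz2⟩ := hZ (m + 1) (by omega) le_rfl
  intro j hj1 hjm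
  obtain ⟨hj3, hj4⟩ := hZ j hj1 (by omega)
  obtain ⟨hb3, hb4⟩ := hB j hj1 (by omega)
  refine ⟨fun L v hv => ?_, fun L hL v hv => ?_⟩
  · obtain ⟨w, hw, b, hb, rfl⟩ := Submodule.mem_sup.mp hv
    obtain ⟨z, hz, rfl⟩ := Submodule.mem_map.mp hw
    rw [map_add, hc j (m + 1) _ z hz]
    refine Submodule.add_mem_sup (Submodule.mem_map_of_mem ?_) (hb3 L b hb)
    have e1 : L + j + (m + 1) = L + (m + 1) + j := by omega
    rw [e1] at hz
    exact hj3 _ z hz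
  · obtain ⟨w, hw, b, hb, rfl⟩ := Submodule.mem_sup.mp hv
    obtain ⟨z, hz, rfl⟩ := Submodule.mem_map.mp hw
    rw [map_add, hb4 L hL b hb, hj4 L hL _ (hz1 L z hz), add_zero]

private theorem CF_ge (e : V →ₗ[ℝ] V) (m : ℕ) (Z B : ℕ → Submodule ℝ V) (L : ℕ) :
    B L ≤ CF e m Z B L := le_sup_right

private theorem CF_le (y : ℕ → V →ₗ[ℝ] V) (m : ℕ) (Z B : ℕ → Submodule ℝ V)
    (hZ : Sta y (m + 1) Z) (hBZ : ∀ L, B L ≤ Z L) (L : ℕ) : CF (y (m + 1)) m Z B L ≤ Z L := by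
  refine sup_le ?_ (hBZ L)
  rw [Submodule.map_le_iff_le_comap]
  intro z hz
  exact (hZ (m + 1) (by omega) le_rfl).1 L z hz

private theorem art_K (y : ℕ → V →ₗ[ℝ] V) (m : ℕ) (Z B : ℕ → Submodule ℝ V)
    (hZ : Sta y (m + 1) Z) (h : Art y (m + 1) Z B) :
    Art y m (KF (y (m + 1)) m Z B) B := by
  obtain ⟨hz1, hz2⟩ := hZ (m + 1) (by omega) le_rfl
  intro X hX hBK hd
  refine h X (fun a j hj1 hjm => ?_)
    (fun a L => ⟨(hBK a L).1, (hBK a L).2.trans (KF_le _ _ _ _ _)⟩) hd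
  rcases Nat.lt_or_ge m j with hj | hj
  · obtain rfl : j = m + 1 := by omega
    exact ⟨fun L v hv => (hBK a L).1 (KF_mem _ _ _ _ _ _ ((hBK a _).2 hv)),
      fun L hL v hv => hz2 L hL v (KF_le _ _ _ _ _ ((hBK a L).2 hv))⟩
  · exact hX a j hj1 hj

private theorem art_C (y : ℕ → V →ₗ[ℝ] V) (m : ℕ) (Z B : ℕ → Submodule ℝ V)
    (hZ : Sta y (m + 1) Z) (h : Art y (m + 1) Z B) :
    Art y m Z (CF (y (m + 1)) m Z B) := by
  obtain ⟨hz1, hz2⟩ := hZ (m + 1) (by omega) le_rfl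
  intro X hX hCZ hd
  refine h X (fun a j hj1 hjm => ?_)
    (fun a L => ⟨(CF_ge _ _ _ _ _).trans (hCZ a L).1, (hCZ a L).2⟩) hd
  rcases Nat.lt_or_ge m j with hj | hj
  · obtain rfl : j = m + 1 := by omega
    exact ⟨fun L v hv => (hCZ a L).1
        (Submodule.mem_sup_left (Submodule.mem_map_of_mem ((hCZ a _).2 hv))),
      fun L hL v hv => hz2 L hL v ((hCZ a L).2 hv)⟩
  · exact hX a j hj1 hj

private theorem series_step (m : ℕ) (d κ γ : ℕ → ℕ)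
    (h1 : ∀ L, d (L + (m + 1)) + γ L = κ (L + (m + 1)) + d L)
    (h2 : ∀ L, L < m + 1 → d L = κ L) (P P' : Polynomial ℤ) (hP : Rat m P κ)
    (hP' : Rat m P' γ) : Rat (m + 1) (P - Polynomial.X ^ (m + 1) * P') d := by
  have key : (1 - PowerSeries.X ^ (m + 1)) * PowerSeries.mk (fun L => (d L : ℤ)) =
      PowerSeries.mk (fun L => (κ L : ℤ)) -
        PowerSeries.X ^ (m + 1) * PowerSeries.mk (fun L => (γ L : ℤ)) := by
    ext n
    rw [sub_mul, one_mul, map_sub, map_sub, PowerSeries.coeff_X_pow_mul',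
      PowerSeries.coeff_X_pow_mul', PowerSeries.coeff_mk, PowerSeries.coeff_mk,
      PowerSeries.coeff_mk, PowerSeries.coeff_mk]
    split_ifs with h
    · have h3 := h1 (n - (m + 1))
      rw [Nat.sub_add_cancel h] at h3
      have h4 : ((d n : ℤ)) + (γ (n - (m + 1)) : ℤ) = (κ n : ℤ) + (d (n - (m + 1)) : ℤ) := by
        exact_mod_cast h3
      linarith
    · rw [h2 n (by omega)]
  unfold Rat at hP hP' ⊢
  have hpT : pT (m + 1) = pT m * (1 - PowerSeries.X ^ (m + 1)) := by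
    unfold pT
    rw [Finset.prod_range_succ]
  rw [hpT, mul_assoc, key, mul_sub, hP, ← mul_assoc, mul_comm (pT m), mul_assoc, hP',
    Polynomial.coe_sub, Polynomial.coe_mul, Polynomial.coe_pow, Polynomial.coe_X]

theorem hil_serre (y : ℕ → V →ₗ[ℝ] V) (m : ℕ) (Z B : ℕ → Submodule ℝ V) (hZ : Sta y m Z)
    (hB : Sta y m B) (hBZ : ∀ L, B L ≤ Z L) (hc : Cmm y Z) (h : Art y m Z B) :
    ∃ (d : ℕ → ℕ) (P : Polynomial ℤ), (∀ L, HD (Z L) (B L) (d L)) ∧ Rat m P d := by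
  induction m generalizing Z B with
  | zero =>
    choose d hd using art_fin y 0 Z B hZ hB hBZ h
    obtain ⟨L₀, hL₀⟩ := art_zero y Z B hBZ h
    refine ⟨d, ∑ L ∈ Finset.range L₀, Polynomial.monomial L (d L : ℤ), hd, ?_⟩
    unfold Rat pT
    rw [Finset.prod_range_zero, one_mul]
    ext n
    rw [PowerSeries.coeff_mk, Polynomial.coeff_coe, Polynomial.finsetSum_coeff]
    simp only [Polynomial.coeff_monomial]
    rw [Finset.sum_ite_eq']
    split_ifs with hn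
    · rfl
    · have hn' : L₀ ≤ n := by
        rw [Finset.mem_range] at hn
        omega
      have h0 : d n = 0 := HD_uniq (Z n) (B n) _ _ (hd n) (HD_zero _ _ (hL₀ n hn').le)
      rw [h0, Nat.cast_zero]
  | succ m ih =>
    have hZm : Sta y m Z := fun j hj1 hjm => hZ j hj1 (by omega)
    have hBm : Sta y m B := fun j hj1 hjm => hB j hj1 (by omega)
    obtain ⟨hz1, hz2⟩ := hZ (m + 1) (by omega) le_rfl
    obtain ⟨hb1, hb2⟩ := hB (m + 1) (by omega) le_rfl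
    choose d hd using art_fin y (m + 1) Z B hZ hB hBZ h
    obtain ⟨κ, P, hκ, hP⟩ := ih (KF (y (m + 1)) m Z B) B (KF_sta y m Z B hZ hB hc) hBm
      (KF_ge y m Z B hB hBZ) (fun i j L v hv => hc i j L v (KF_le _ _ _ _ _ hv))
      (art_K y m Z B hZ h)
    obtain ⟨γ, P', hγ, hP'⟩ := ih Z (CF (y (m + 1)) m Z B) hZm (CF_sta y m Z B hZ hB hc)
      (CF_le y m Z B hZ hBZ) hc (art_C y m Z B hZ h)
    refine ⟨d, _, hd, series_step m d κ γ ?_ ?_ P P' hP hP'⟩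
    · intro L
      refine HD_rk4 (Z (L + (m + 1))) (B (L + (m + 1))) (Z L) (B L) (y (m + 1)) (hBZ _) (hBZ _)
        (hz1 L) (hb1 L) _ _ _ _ (hd _) (hd _) ?_ (hγ L)
      have h3 := hκ (L + (m + 1))
      rwa [KF_add] at h3
    · intro L hL
      have h3 := hκ L
      rw [KF_lt _ _ _ _ _ hL (hz2 L hL)] at h3
      exact HD_uniq _ _ _ _ (hd L) h3

end BrV
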