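import Pool.Agent.Lib.BrV.GArt

/-!
# BrV.GHil: dual Hilbert basis lemma (paper 4, section 3): only linear algebra
-/

namespace BrV

variable {V : Type} [AddCommGroup V] [Module ℝ V]

private theorem GHil_unif (P : ℕ → ℕ → Prop) (N : ℕ) (h : ∀ i, i < N → ∃ s, ∀ a, s ≤ a → P i a) :
    ∃ s, ∀ i, i < N → ∀ a, s ≤ a → P i a := by
  induction N with
  | zero => exact ⟨0, fun i hi => absurd hi (Nat.not_lt_zero i)⟩
  | succ N ih =>
    obtain ⟨s, hs⟩ := ih (fun i hi => h i (by omega))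
    obtain ⟨t, ht⟩ := h N (by omega)
    refine ⟨max s t, fun i hi a ha => ?_⟩
    rcases Nat.lt_or_ge i N with h1 | h1
    · exact hs i h1 a (le_trans (le_max_left s t) ha)
    · have h2 : i = N := by omega
      subst h2
      exact ht a (le_trans (le_max_right s t) ha)

private theorem GHil_desc (X : ℕ → ℕ → Submodule ℝ V) (hd : ∀ a L, X (a + 1) L ≤ X a L)
    (a b L : ℕ) (hab : a ≤ b) : X b L ≤ X a L := by
  induction b, hab using Nat.le_induction with
  | base => exact le_rfl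
  | succ b _ ih => exact le_trans (hd b L) ih

private theorem GHil_pow_mem (y : ℕ → V →ₗ[ℝ] V) (m : ℕ) (X : ℕ → Submodule ℝ V)
    (hX : Sta y (m + 1) X) (i : ℕ) : ∀ (L : ℕ) (v : V), v ∈ X (L + i * (m + 1)) →
      ((y (m + 1)) ^ i) v ∈ X L := by
  induction i with
  | zero =>
    intro L v hv
    simpa using hv
  | succ i ih =>
    intro L v hv
    have h1 : L + (i + 1) * (m + 1) = (L + i * (m + 1)) + (m + 1) := by ring
    rw [h1] at hv
    have h2 := (hX (m + 1) (by omega) le_rfl).1 _ v hv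
    have h3 := ih L _ h2
    rw [pow_succ]
    exact h3

private theorem GHil_pow_zero (y : ℕ → V →ₗ[ℝ] V) (m : ℕ) (X : ℕ → Submodule ℝ V)
    (hX : Sta y (m + 1) X) (i : ℕ) : ∀ (L : ℕ) (v : V), L < i * (m + 1) → v ∈ X L →
      ((y (m + 1)) ^ i) v = 0 := by
  induction i with
  | zero =>
    intro L v hL _
    omega
  | succ i ih =>
    intro L v hL hv
    rw [pow_succ]
    change ((y (m + 1)) ^ i) (y (m + 1) v) = 0
    rcases Nat.lt_or_ge L (m + 1) with h | h
    · rw [(hX (m + 1) (by omega) le_rfl).2 L h v hv, map_zero]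
    · obtain ⟨L', rfl⟩ := Nat.exists_eq_add_of_le' h
      have h2 := (hX (m + 1) (by omega) le_rfl).1 _ v hv
      refine ih L' _ ?_ h2
      have h3 : (i + 1) * (m + 1) = i * (m + 1) + (m + 1) := by ring
      omega

private theorem GHil_comm (y : ℕ → V →ₗ[ℝ] V) (m : ℕ) (Z : ℕ → Submodule ℝ V)
    (hZ : Sta y (m + 1) Z) (hc : Cmm y Z) (j i : ℕ) : ∀ (L : ℕ) (v : V), v ∈ Z L →
      y j (((y (m + 1)) ^ i) v) = ((y (m + 1)) ^ i) (y j v) := by
  induction i with
  | zero =>
    intro L v _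
    simp
  | succ i ih =>
    intro L v hv
    rw [pow_succ]
    change y j (((y (m + 1)) ^ i) (y (m + 1) v)) = ((y (m + 1)) ^ i) (y (m + 1) (y j v))
    rw [hc (m + 1) j L v hv]
    rcases Nat.lt_or_ge L (m + 1) with h | h
    · rw [(hZ (m + 1) (by omega) le_rfl).2 L h v hv]
      simp
    · obtain ⟨L', rfl⟩ := Nat.exists_eq_add_of_le' h
      have h2 := (hZ (m + 1) (by omega) le_rfl).1 _ v hv
      exact ih L' _ h2

/-- the auxiliary families -/
private def GHil_K (y : ℕ → V →ₗ[ℝ] V) (m : ℕ) (X : ℕ → ℕ → Submodule ℝ V) (a i L : ℕ) :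
    Submodule ℝ V :=
  ((X a (L + i * (m + 1))) ⊓ LinearMap.ker ((y (m + 1)) ^ (i + 1))).map ((y (m + 1)) ^ i)

private theorem GHil_mem_K (y : ℕ → V →ₗ[ℝ] V) (m : ℕ) (X : ℕ → ℕ → Submodule ℝ V) (a i L : ℕ)
    (w : V) : w ∈ GHil_K y m X a i L ↔ ∃ v, v ∈ X a (L + i * (m + 1)) ∧
      ((y (m + 1)) ^ (i + 1)) v = 0 ∧ ((y (m + 1)) ^ i) v = w := by
  unfold GHil_K
  rw [Submodule.mem_map]
  constructor
  · rintro ⟨v, hv, hw⟩
    rw [Submodule.mem_inf, LinearMap.mem_ker] at hv
    exact ⟨v, hv.1, hv.2, hw⟩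
  · rintro ⟨v, h1, h2, h3⟩
    refine ⟨v, ?_, h3⟩
    rw [Submodule.mem_inf, LinearMap.mem_ker]
    exact ⟨h1, h2⟩

theorem hil_step (y : ℕ → V →ₗ[ℝ] V) (m : ℕ) (Z : ℕ → Submodule ℝ V) (hZ : Sta y (m + 1) Z)
    (hc : Cmm y Z) (h : Art y m (fun L => Z L ⊓ LinearMap.ker (y (m + 1))) (fun _ => ⊥)) :
    Art y (m + 1) Z (fun _ => ⊥) := by
  intro X hX hb hd
  -- bounds
  have hKZ : ∀ a i L, GHil_K y m X a i L ≤ Z L ⊓ LinearMap.ker (y (m + 1)) := by
    intro a i L w hw
    rw [GHil_mem_K] at hw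
    obtain ⟨v, h1, h2, rfl⟩ := hw
    rw [Submodule.mem_inf, LinearMap.mem_ker]
    refine ⟨(hb a L).2 (GHil_pow_mem y m (X a) (hX a) i L v h1), ?_⟩
    have h3 : ((y (m + 1)) ^ (i + 1)) v = y (m + 1) (((y (m + 1)) ^ i) v) := by
      rw [pow_succ']
      rfl
    rw [← h3]
    exact h2
  -- stability
  have hKS : ∀ a i, Sta y m (GHil_K y m X a i) := by
    intro a i j hj1 hj2
    refine ⟨fun L w hw => ?_, fun L hL w hw => ?_⟩
    · rw [GHil_mem_K] at hw ⊢
      obtain ⟨v, h1, h2, rfl⟩ := hw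
      have h4 : L + j + i * (m + 1) = (L + i * (m + 1)) + j := by ring
      rw [h4] at h1
      refine ⟨y j v, (hX a j hj1 (by omega)).1 _ v h1, ?_, ?_⟩
      · rw [← GHil_comm y m Z hZ hc j (i + 1) _ v ((hb a _).2 h1), h2, map_zero]
      · rw [GHil_comm y m Z hZ hc j i _ v ((hb a _).2 h1)]
    · have h5 := (Submodule.mem_inf.mp (hKZ a i L hw)).1
      exact (hZ j hj1 (by omega)).2 L hL w h5
  -- monotonicity
  have hXd : ∀ a b L, a ≤ b → X b L ≤ X a L := fun a b L hab => GHil_desc X hd a b L hab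
  have hK1 : ∀ a b i L, a ≤ b → GHil_K y m X b i L ≤ GHil_K y m X a i L := by
    intro a b i L hab w hw
    rw [GHil_mem_K] at hw ⊢
    obtain ⟨v, h1, h2, h3⟩ := hw
    exact ⟨v, hXd a b _ hab h1, h2, h3⟩
  have hK2s : ∀ a i L, GHil_K y m X a (i + 1) L ≤ GHil_K y m X a i L := by
    intro a i L w hw
    rw [GHil_mem_K] at hw ⊢
    obtain ⟨v, h1, h2, h3⟩ := hw
    have h4 : L + (i + 1) * (m + 1) = (L + i * (m + 1)) + (m + 1) := by ring
    rw [h4] at h1
    refine ⟨y (m + 1) v, (hX a (m + 1) (by omega) le_rfl).1 _ v h1, ?_, ?_⟩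
    · rw [pow_succ] at h2
      exact h2
    · rw [pow_succ] at h3
      exact h3
  have hK2 : ∀ a i j L, i ≤ j → GHil_K y m X a j L ≤ GHil_K y m X a i L := by
    intro a i j L hij
    induction j, hij using Nat.le_induction with
    | base => exact le_rfl
    | succ j _ ih => exact le_trans (hK2s a j L) ih
  -- the diagonal chain
  obtain ⟨a₀, ha₀⟩ := h (fun a => GHil_K y m X a a) (fun a => hKS a a)
    (fun a L => ⟨bot_le, hKZ a a L⟩)
    (fun a L => le_trans (hK1 a (a + 1) (a + 1) L (by omega)) (hK2s a a L))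
  have hdiag : ∀ a i L, a₀ ≤ a → a₀ ≤ i → GHil_K y m X a i L = GHil_K y m X a₀ a₀ L := by
    intro a i L ha hi
    apply le_antisymm
    · exact le_trans (hK1 a₀ a i L ha) (hK2 a₀ a₀ i L hi)
    · have h1 := ha₀ (max a i) (le_trans ha (le_max_left a i)) L
      have h2 : GHil_K y m X (max a i) (max a i) L = GHil_K y m X a₀ a₀ L := h1
      rw [← h2]
      exact le_trans (hK1 a (max a i) (max a i) L (le_max_left a i))
        (hK2 a i (max a i) L (le_max_right a i))
  -- the chains for small i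
  obtain ⟨s, hs⟩ := GHil_unif (fun i a => ∀ L, ∀ b, a ≤ b →
      GHil_K y m X b i L = GHil_K y m X a i L) a₀ (by
    intro i _
    obtain ⟨t, ht⟩ := h (fun a => GHil_K y m X a i) (fun a => hKS a i)
      (fun a L => ⟨bot_le, hKZ a i L⟩) (fun a L => hK1 a (a + 1) i L (by omega))
    refine ⟨t, fun a ha L b hab => ?_⟩
    have h1 : GHil_K y m X a i L = GHil_K y m X t i L := ht a ha L
    have h2 : GHil_K y m X b i L = GHil_K y m X t i L := ht b (le_trans ha hab) L
    rw [h1, h2])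
  have hall : ∀ a i L, max a₀ s ≤ a → GHil_K y m X a i L = GHil_K y m X (max a₀ s) i L := by
    intro a i L ha
    rcases Nat.lt_or_ge i a₀ with h1 | h1
    · exact hs i h1 (max a₀ s) (le_max_right a₀ s) L a ha
    · rw [hdiag a i L (le_trans (le_max_left a₀ s) ha) h1,
        hdiag (max a₀ s) i L (le_max_left a₀ s) h1]
  refine ⟨max a₀ s, fun a ha L => ?_⟩
  apply le_antisymm (hXd (max a₀ s) a L ha)
  -- the induction
  have key : ∀ t L v, v ∈ X (max a₀ s) L → ((y (m + 1)) ^ t) v = 0 → v ∈ X a L := by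
    intro t
    induction t with
    | zero =>
      intro L v _ hv
      have h1 : v = 0 := by simpa using hv
      rw [h1]
      exact Submodule.zero_mem _
    | succ t ih =>
      intro L v hv he
      rcases Nat.lt_or_ge L (t * (m + 1)) with h1 | h1
      · exact ih L v hv (GHil_pow_zero y m (X (max a₀ s)) (hX _) t L v h1 hv)
      · obtain ⟨L', rfl⟩ := Nat.exists_eq_add_of_le' h1
        have h2 : ((y (m + 1)) ^ t) v ∈ GHil_K y m X (max a₀ s) t L' := by
          rw [GHil_mem_K]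
          exact ⟨v, hv, he, rfl⟩
        rw [← hall a t L' ha, GHil_mem_K] at h2
        obtain ⟨v', h3, _, h5⟩ := h2
        have h6 : v - v' ∈ X (max a₀ s) (L' + t * (m + 1)) :=
          Submodule.sub_mem _ hv (hXd (max a₀ s) a _ ha h3)
        have h7 : ((y (m + 1)) ^ t) (v - v') = 0 := by
          rw [map_sub, h5, sub_self]
        have h8 := ih _ (v - v') h6 h7
        have h9 := Submodule.add_mem _ h8 h3
        rwa [sub_add_cancel] at h9
  intro v hv
  refine key (L + 1) L v hv (GHil_pow_zero y m (X (max a₀ s)) (hX _) (L + 1) L v ?_ hv)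
  have h1 : (L + 1) * (m + 1) = L * m + L + m + 1 := by ring
  rw [h1]
  have h2 : 0 ≤ L * m := Nat.zero_le _
  omega

/-- the part of `Z` killed by `y (j+1), .., y m` -/
private def GHil_W (y : ℕ → V →ₗ[ℝ] V) (m : ℕ) (Z : ℕ → Submodule ℝ V) (j L : ℕ) :
    Submodule ℝ V where
  carrier := {v | v ∈ Z L ∧ ∀ i, j < i → i ≤ m → y i v = 0}
  add_mem' := by
    rintro a b ⟨ha1, ha2⟩ ⟨hb1, hb2⟩
    refine ⟨Submodule.add_mem _ ha1 hb1, fun i h1 h2 => ?_⟩
    rw [map_add, ha2 i h1 h2, hb2 i h1 h2, add_zero]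
  zero_mem' := ⟨Submodule.zero_mem _, fun i _ _ => map_zero _⟩
  smul_mem' := by
    rintro c a ⟨ha1, ha2⟩
    refine ⟨Submodule.smul_mem _ c ha1, fun i h1 h2 => ?_⟩
    rw [map_smul, ha2 i h1 h2, smul_zero]

private theorem GHil_mem_W (y : ℕ → V →ₗ[ℝ] V) (m : ℕ) (Z : ℕ → Submodule ℝ V) (j L : ℕ) (v : V) :
    v ∈ GHil_W y m Z j L ↔ v ∈ Z L ∧ ∀ i, j < i → i ≤ m → y i v = 0 := Iff.rfl

private theorem GHil_base (y : ℕ → V →ₗ[ℝ] V) (W : ℕ → Submodule ℝ V)
    (hf : ∀ L, Module.Finite ℝ (W L)) (L₀ : ℕ) (h0 : ∀ L, L₀ ≤ L → W L = ⊥) :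
    Art y 0 W (fun _ => ⊥) := by
  intro X _ hb hd
  obtain ⟨s, hs⟩ := GHil_unif (fun L a => ∀ b, a ≤ b → X b L = X a L) L₀ (by
    intro L _
    obtain ⟨t, ht⟩ : ∃ t, ∀ a, Module.finrank ℝ (X t L) ≤ Module.finrank ℝ (X a L) :=
      ⟨Function.argmin (fun a => Module.finrank ℝ (X a L)),
        fun a => Function.argmin_le (fun a => Module.finrank ℝ (X a L)) a⟩
    have h1 : ∀ b, t ≤ b → X b L = X t L := by
      intro b hb'
      haveI : Module.Finite ℝ (W L) := hf L
      haveI : Module.Finite ℝ (X t L) := Submodule.finiteDimensional_of_le (hb t L).2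
      have h2 : X b L ≤ X t L := GHil_desc X hd t b L hb'
      exact Submodule.eq_of_le_of_finrank_le h2 (ht b)
    refine ⟨t, fun a ha b hab => ?_⟩
    rw [h1 b (le_trans ha hab), h1 a ha])
  refine ⟨s, fun a ha L => ?_⟩
  rcases Nat.lt_or_ge L L₀ with h1 | h1
  · exact hs L h1 s le_rfl a ha
  · have h2 : ∀ b, X b L = ⊥ := by
      intro b
      have h3 := (hb b L).2
      rw [h0 L h1] at h3
      exact le_bot_iff.mp h3
    rw [h2 a, h2 s]

theorem hil_all (y : ℕ → V →ₗ[ℝ] V) (m : ℕ) (Z : ℕ → Submodule ℝ V) (hZ : Sta y m Z)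
    (hc : Cmm y Z) (hf : ∀ L, Module.Finite ℝ (Z L)) (L₀ : ℕ)
    (h0 : ∀ L, L₀ ≤ L → ∀ v ∈ Z L, (∀ j, 1 ≤ j → j ≤ m → y j v = 0) → v = 0) :
    Art y m Z (fun _ => ⊥) := by
  have key : ∀ j, j ≤ m → Art y j (GHil_W y m Z j) (fun _ => ⊥) := by
    intro j
    induction j with
    | zero =>
      intro _
      apply GHil_base y (GHil_W y m Z 0) _ L₀
      · intro L hL
        rw [eq_bot_iff]
        intro v hv
        rw [GHil_mem_W] at hv
        rw [Submodule.mem_bot]
        exact h0 L hL v hv.1 (fun j h1 h2 => hv.2 j (by omega) h2)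
      · intro L
        haveI : Module.Finite ℝ (Z L) := hf L
        exact Submodule.finiteDimensional_of_le (fun v hv => hv.1)
    | succ j ih =>
      intro hj
      apply hil_step y j (GHil_W y m Z (j + 1))
      · intro i hi1 hi2
        refine ⟨fun L v hv => ?_, fun L hL v hv => ?_⟩
        · rw [GHil_mem_W] at hv ⊢
          refine ⟨(hZ i hi1 (by omega)).1 L v hv.1, fun i' h1 h2 => ?_⟩
          rw [hc i' i _ v hv.1, hv.2 i' h1 h2, map_zero]
        · exact (hZ i hi1 (by omega)).2 L hL v hv.1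
      · intro i i' L v hv
        exact hc i i' L v hv.1
      · have h1 : (fun L => GHil_W y m Z (j + 1) L ⊓ LinearMap.ker (y (j + 1))) =
            GHil_W y m Z j := by
          funext L
          ext v
          rw [Submodule.mem_inf, LinearMap.mem_ker, GHil_mem_W, GHil_mem_W]
          constructor
          · rintro ⟨⟨h2, h3⟩, h4⟩
            refine ⟨h2, fun i h5 h6 => ?_⟩
            rcases Nat.lt_or_ge (j + 1) i with h7 | h7
            · exact h3 i h7 h6
            · have h8 : i = j + 1 := by omega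
              rw [h8]
              exact h4
          · rintro ⟨h2, h3⟩
            exact ⟨⟨h2, fun i h5 h6 => h3 i (by omega) h6⟩, h3 (j + 1) (by omega) hj⟩
        rw [h1]
        exact ih (by omega)
  have h1 : GHil_W y m Z m = Z := by
    funext L
    ext v
    rw [GHil_mem_W]
    constructor
    · rintro ⟨h2, _⟩
      exact h2
    · intro h2
      exact ⟨h2, fun i h3 h4 => by omega⟩
  have h2 := key m le_rfl
  rw [h1] at h2
  exact h2

end BrV
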