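import Pool.Agent.Lib.BrV.ODef

/-!
# BrV.GSI: the number of `k`-element sets with given sum (paper 4, section 5): only finite sets

`a k s := card {A ⊆ ℕ finite | card A = k, ∑ A = s}` (as a `Finset`: `((Finset.range (s+1)).powersetCard k).filter (fun A => ∑ x ∈ A, x = s)`).
* `a 0 s = [s = 0]`.
* `a (k+1) s = [k+1 ≤ s] a (k+1) (s - (k+1)) + [k ≤ s] a k (s - k)`: split by `0 ∉ A` or `0 ∈ A`.  `0 ∉ A`: subtract `1` from all elements (`Finset.image Nat.pred`, inverse `Finset.map (addRight 1)`): sum `s - (k+1)`.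
  `0 ∈ A`: erase `0` and subtract `1` from the `k` others.
* So `(1 - X^(k+1)) * mk (a (k+1)) = X^k * mk (a k)`, and `pT k * mk (a k) = X^(k(k-1)/2)` by induction (`Finset.prod_range_succ`; `(k+1) k / 2 = k (k-1)/2 + k`).
* `SI L k` is the set for `s + (k+1)/2 = L` (subsets of `range (L+1)`; a set with sum `s` is contained in `range (s+1)`): `mk (card (SI L k)) = X^((k+1)/2) * mk (a k)` (`0` for `L < (k+1)/2`).
-/

namespace BrV

open Finset

/-- the sets with `k` elements and sum `s` -/
private def GSI_T (k s : ℕ) : Finset (Finset ℕ) :=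
  ((range (s + 1)).powersetCard k).filter fun A => ∑ x ∈ A, x = s

private theorem GSI_sub (A : Finset ℕ) (s : ℕ) (h : ∑ x ∈ A, x ≤ s) : A ⊆ range (s + 1) := by
  intro x hx
  rw [mem_range]
  have : x ≤ ∑ x ∈ A, x := single_le_sum (f := fun x => x) (fun _ _ => Nat.zero_le _) hx
  omega

private theorem GSI_mem (k s : ℕ) (A : Finset ℕ) :
    A ∈ GSI_T k s ↔ A.card = k ∧ ∑ x ∈ A, x = s := by
  unfold GSI_T
  rw [mem_filter, mem_powersetCard]
  constructor
  · rintro ⟨⟨_, h1⟩, h2⟩; exact ⟨h1, h2⟩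
  · rintro ⟨h1, h2⟩; exact ⟨⟨GSI_sub A s h2.le, h1⟩, h2⟩

/-- shift by one -/
private def GSI_sh (B : Finset ℕ) : Finset ℕ := B.map (addRightEmbedding 1)

private theorem GSI_sh_card (B : Finset ℕ) : (GSI_sh B).card = B.card := card_map _

private theorem GSI_sh_sum (B : Finset ℕ) : ∑ x ∈ GSI_sh B, x = ∑ x ∈ B, x + B.card := by
  unfold GSI_sh
  rw [sum_map]
  simp [sum_add_distrib]

private theorem GSI_sh_inj : Function.Injective GSI_sh := map_injective _

private theorem GSI_sh_zero (B : Finset ℕ) : 0 ∉ GSI_sh B := by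
  unfold GSI_sh
  simp

private theorem GSI_ex (A : Finset ℕ) (h : 0 ∉ A) : ∃ B, A = GSI_sh B := by
  refine ⟨A.image Nat.pred, ?_⟩
  unfold GSI_sh
  ext x
  simp only [mem_map, mem_image, addRightEmbedding_apply, exists_exists_and_eq_and]
  constructor
  · intro hx
    refine ⟨x, hx, ?_⟩
    have : x ≠ 0 := fun h0 => h (h0 ▸ hx)
    simp only [Nat.pred_eq_sub_one]
    omega
  · rintro ⟨y, hy, hxy⟩
    have : y ≠ 0 := fun h0 => h (h0 ▸ hy)
    have : y = x := by
      simp only [Nat.pred_eq_sub_one] at hxy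
      omega
    rwa [← this]

private theorem GSI_rec (k s : ℕ) : (GSI_T (k + 1) s).card =
    (if k + 1 ≤ s then (GSI_T (k + 1) (s - (k + 1))).card else 0) +
      (if k ≤ s then (GSI_T k (s - k)).card else 0) := by
  classical
  rw [← card_filter_add_card_filter_not (s := GSI_T (k + 1) s) (fun A => 0 ∉ A)]
  congr 1
  · split_ifs with h
    · rw [← card_image_of_injective (GSI_T (k + 1) (s - (k + 1))) GSI_sh_inj]
      congr 1
      ext A
      simp only [mem_filter, mem_image, GSI_mem]
      constructor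
      · rintro ⟨⟨h1, h2⟩, h0⟩
        obtain ⟨B, rfl⟩ := GSI_ex A h0
        rw [GSI_sh_card] at h1
        rw [GSI_sh_sum, h1] at h2
        exact ⟨B, ⟨h1, by omega⟩, rfl⟩
      · rintro ⟨B, ⟨h1, h2⟩, rfl⟩
        refine ⟨⟨?_, ?_⟩, GSI_sh_zero B⟩
        · rw [GSI_sh_card, h1]
        · rw [GSI_sh_sum, h1, h2]; omega
    · rw [card_eq_zero, eq_empty_iff_forall_notMem]
      intro A hA
      simp only [mem_filter, GSI_mem] at hA
      obtain ⟨⟨h1, h2⟩, h0⟩ := hA
      obtain ⟨B, rfl⟩ := GSI_ex A h0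
      rw [GSI_sh_card] at h1
      rw [GSI_sh_sum, h1] at h2
      omega
  · have hins : ∀ B C : Finset ℕ, insert 0 (GSI_sh B) = insert 0 (GSI_sh C) → B = C := by
      intro B C hBC
      apply GSI_sh_inj
      rw [← erase_insert (GSI_sh_zero B), hBC, erase_insert (GSI_sh_zero C)]
    have hdec : ∀ A : Finset ℕ, ¬ 0 ∉ A → ∃ B, A = insert 0 (GSI_sh B) := by
      intro A hA
      rw [not_not] at hA
      obtain ⟨B, hB⟩ := GSI_ex (A.erase 0) (notMem_erase 0 A)
      exact ⟨B, by rw [← hB, insert_erase hA]⟩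
    have hc : ∀ B : Finset ℕ, (insert 0 (GSI_sh B)).card = B.card + 1 := by
      intro B
      rw [card_insert_of_notMem (GSI_sh_zero B), GSI_sh_card]
    have hs : ∀ B : Finset ℕ, ∑ x ∈ insert 0 (GSI_sh B), x = ∑ x ∈ B, x + B.card := by
      intro B
      rw [sum_insert (GSI_sh_zero B), GSI_sh_sum, zero_add]
    split_ifs with h
    · rw [← card_image_of_injective (f := fun B => insert 0 (GSI_sh B)) (GSI_T k (s - k))
        (fun B C hBC => hins B C hBC)]
      congr 1
      ext A
      simp only [mem_filter, mem_image, GSI_mem]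
      constructor
      · rintro ⟨⟨h1, h2⟩, h0⟩
        obtain ⟨B, rfl⟩ := hdec A h0
        rw [hc] at h1
        have h3 : B.card = k := by omega
        rw [hs, h3] at h2
        exact ⟨B, ⟨h3, by omega⟩, rfl⟩
      · rintro ⟨B, ⟨h1, h2⟩, rfl⟩
        refine ⟨⟨?_, ?_⟩, ?_⟩
        · rw [hc, h1]
        · rw [hs, h1, h2]; omega
        · simp
    · rw [card_eq_zero, eq_empty_iff_forall_notMem]
      intro A hA
      simp only [mem_filter, GSI_mem] at hA
      obtain ⟨⟨h1, h2⟩, h0⟩ := hA
      obtain ⟨B, rfl⟩ := hdec A h0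
      rw [hc] at h1
      rw [hs] at h2
      omega

private theorem GSI_zero : PowerSeries.mk (fun s => ((GSI_T 0 s).card : ℤ)) = 1 := by
  ext s
  rw [PowerSeries.coeff_mk, PowerSeries.coeff_one]
  split_ifs with h
  · subst h
    have : GSI_T 0 0 = {∅} := by
      ext A
      rw [GSI_mem, mem_singleton, card_eq_zero]
      constructor
      · exact fun h => h.1
      · rintro rfl; simp
    rw [this]; simp
  · have : GSI_T 0 s = ∅ := by
      rw [eq_empty_iff_forall_notMem]
      intro A hA
      rw [GSI_mem, card_eq_zero] at hA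
      obtain ⟨rfl, h2⟩ := hA
      simp at h2
      exact h h2.symm
    rw [this]; simp

private theorem GSI_step (k : ℕ) :
    (1 - PowerSeries.X ^ (k + 1)) * PowerSeries.mk (fun s => ((GSI_T (k + 1) s).card : ℤ)) =
      PowerSeries.X ^ k * PowerSeries.mk (fun s => ((GSI_T k s).card : ℤ)) := by
  ext s
  rw [sub_mul, one_mul, map_sub, PowerSeries.coeff_X_pow_mul', PowerSeries.coeff_X_pow_mul',
    PowerSeries.coeff_mk, PowerSeries.coeff_mk, PowerSeries.coeff_mk, GSI_rec k s]
  split_ifs <;> push_cast <;> ring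

private theorem GSI_main (k : ℕ) :
    pT k * PowerSeries.mk (fun s => ((GSI_T k s).card : ℤ)) = PowerSeries.X ^ (k * (k - 1) / 2) := by
  induction k with
  | zero =>
    rw [GSI_zero]
    simp [pT]
  | succ k ih =>
    have h : pT (k + 1) = pT k * (1 - PowerSeries.X ^ (k + 1)) := by
      unfold pT
      rw [prod_range_succ]
    rw [h, mul_assoc, GSI_step, mul_left_comm, ih, ← pow_add, Nat.triangle_succ]
    congr 1
    omega

theorem SI_rat (k : ℕ) :
    Rat k (Polynomial.X ^ (k * (k - 1) / 2 + (k + 1) / 2)) (fun L => (SI L k).card) := by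
  unfold Rat
  have h : PowerSeries.mk (fun L => ((SI L k).card : ℤ)) = PowerSeries.X ^ ((k + 1) / 2) *
      PowerSeries.mk (fun s => ((GSI_T k s).card : ℤ)) := by
    ext L
    rw [PowerSeries.coeff_X_pow_mul', PowerSeries.coeff_mk, PowerSeries.coeff_mk]
    split_ifs with hL
    · have : SI L k = GSI_T k (L - (k + 1) / 2) := by
        ext A
        rw [GSI_mem]
        unfold SI
        rw [mem_filter, mem_powersetCard]
        constructor
        · rintro ⟨⟨_, h1⟩, h2⟩; exact ⟨h1, by omega⟩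
        · rintro ⟨h1, h2⟩
          exact ⟨⟨GSI_sub A L (by omega), h1⟩, by omega⟩
      rw [this]
    · have : SI L k = ∅ := by
        rw [eq_empty_iff_forall_notMem]
        intro A hA
        unfold SI at hA
        rw [mem_filter] at hA
        have := hA.2
        omega
      rw [this]; simp
  simp only [h]
  rw [mul_left_comm, GSI_main, Polynomial.coe_pow, Polynomial.coe_X, ← pow_add]
  congr 1
  omega

end BrV
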