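import Pool.Agent.Lib.BrV.PDefs

/-!
# BrV.QApi: naturality of the shuffle elements and of `Sal`

Proofs.  `Qe S o a b` is a polynomial in `S (o+1), .., S (o+a+b-1)` by its recursion (induction on `a + b`; `cyc S (o+a+1) (b+1) = S (o+a+b+1) * ... * S (o+a+1)`).
`Qe_nat`: the same induction (`(-1)^(b+1)` as an endomorphism is a scalar).  `sal_nat`: induction on the list in `mgS`; for `l` with `tot l = n` the offsets and sizes satisfy
`tot l' + (b+1) + (a+1) ≤ n`.  `sal_supp`, `sal_mem`: induction on the list.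
`sA` facts: algebra maps compared on the variables (`MvPolynomial.algHom_ext`), `pderiv 0 (sA i f) = sA i (pderiv 0 f)`: both sides are derivations along `sA i`, agree on variables
(or `MvPolynomial.induction_on`).
-/

namespace BrV

open Finsupp

theorem Qe_zero_left {A : Type*} [Ring A] (S : ℕ → A) (o b : ℕ) : Qe S o 0 b = 1 := by
  cases b <;> simp [Qe]

theorem Qe_zero_right {A : Type*} [Ring A] (S : ℕ → A) (o a : ℕ) : Qe S o a 0 = 1 := by
  cases a <;> simp [Qe]

theorem Qe_succ {A : Type*} [Ring A] (S : ℕ → A) (o a b : ℕ) : Qe S o (a + 1) (b + 1) =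
    Qe S o (a + 1) b + (-1) ^ (b + 1) * Qe S o a (b + 1) * cyc S (o + a + 1) (b + 1) := by
  rw [Qe]

private theorem cyc_map {A B : Type*} [Ring A] [Ring B] (f : A →+* B) (S : ℕ → A) (o b : ℕ) :
    f (cyc S o b) = cyc (fun i => f (S i)) o b := by
  induction b with
  | zero => simp [cyc]
  | succ b ih => rw [cyc, cyc, map_mul, ih]

/-- images under ring homomorphisms -/
theorem Qe_map {A B : Type*} [Ring A] [Ring B] (f : A →+* B) (S : ℕ → A) (o a b : ℕ) :
    f (Qe S o a b) = Qe (fun i => f (S i)) o a b := by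
  induction a generalizing b with
  | zero => rw [Qe_zero_left, Qe_zero_left, map_one]
  | succ a iha =>
    induction b with
    | zero => rw [Qe_zero_right, Qe_zero_right, map_one]
    | succ b ihb =>
      rw [Qe_succ, Qe_succ, map_add, map_mul, map_mul, map_pow, map_neg, map_one, ihb, iha, cyc_map]

private theorem nop_apply {M : Type} [AddCommGroup M] [Module ℝ M] (k : ℕ) (x : M) :
    ((-1 : Module.End ℝ M) ^ k) x = (-1 : ℝ) ^ k • x := by
  induction k with
  | zero => simp
  | succ k ih =>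
    rw [pow_succ', Module.End.mul_apply, ih]
    rw [pow_succ']
    simp

private theorem Qe_succ_apply {M : Type} [AddCommGroup M] [Module ℝ M] (S : ℕ → Module.End ℝ M)
    (o a b : ℕ) (x : M) : Qe S o (a + 1) (b + 1) x =
    Qe S o (a + 1) b x + (-1 : ℝ) ^ (b + 1) • Qe S o a (b + 1) (cyc S (o + a + 1) (b + 1) x) := by
  rw [Qe_succ, LinearMap.add_apply, Module.End.mul_apply, Module.End.mul_apply, nop_apply]

private theorem cyc_nat {M M' : Type} [AddCommGroup M] [Module ℝ M] [AddCommGroup M'] [Module ℝ M']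
    (φ : M →ₗ[ℝ] M') (S : ℕ → Module.End ℝ M) (S' : ℕ → Module.End ℝ M') (o o' j b : ℕ)
    (h : ∀ i, j ≤ i → i < j + b → ∀ x, φ (S (o + i) x) = S' (o' + i) (φ x)) (x : M) :
    φ (cyc S (o + j) b x) = cyc S' (o' + j) b (φ x) := by
  induction b with
  | zero => simp [cyc]
  | succ b ih =>
    rw [cyc, cyc, Module.End.mul_apply, Module.End.mul_apply,
      ← ih fun i h1 h2 => h i h1 (by omega)]
    have h3 := h (j + b) (by omega) (by omega) (cyc S (o + j) b x)
    rw [← add_assoc, ← add_assoc] at h3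
    exact h3

/-- intertwining maps -/
theorem Qe_nat {M M' : Type} [AddCommGroup M] [Module ℝ M] [AddCommGroup M'] [Module ℝ M']
    (φ : M →ₗ[ℝ] M') (S : ℕ → Module.End ℝ M) (S' : ℕ → Module.End ℝ M') (o o' a b : ℕ)
    (h : ∀ i, 1 ≤ i → i < a + b → ∀ x, φ (S (o + i) x) = S' (o' + i) (φ x)) (x : M) :
    φ (Qe S o a b x) = Qe S' o' a b (φ x) := by
  induction a generalizing b x with
  | zero => rw [Qe_zero_left, Qe_zero_left]; rfl
  | succ a iha =>
    induction b generalizing x with
    | zero => rw [Qe_zero_right, Qe_zero_right]; rfl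
    | succ b ihb =>
      rw [Qe_succ_apply, Qe_succ_apply, map_add, map_smul,
        ihb (fun i h1 h2 => h i h1 (by omega)) x,
        iha (b + 1) (fun i h1 h2 => h i h1 (by omega))]
      have h3 := cyc_nat φ S S' o o' (a + 1) (b + 1)
        (fun i h1 h2 => h i (by omega) (by omega)) x
      rw [← add_assoc, ← add_assoc] at h3
      rw [h3]

private theorem cyc_mem {M : Type} [AddCommGroup M] [Module ℝ M] (N : Submodule ℝ M)
    (S : ℕ → Module.End ℝ M) (o b : ℕ)
    (h : ∀ i, o ≤ i → i < o + b → ∀ x ∈ N, S i x ∈ N) (x : M) (hx : x ∈ N) :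
    cyc S o b x ∈ N := by
  induction b with
  | zero => simpa [cyc] using hx
  | succ b ih =>
    rw [cyc, Module.End.mul_apply]
    exact h _ (by omega) (by omega) _ (ih fun i h1 h2 => h i h1 (by omega))

theorem Qe_mem {M : Type} [AddCommGroup M] [Module ℝ M] (N : Submodule ℝ M)
    (S : ℕ → Module.End ℝ M) (o a b : ℕ)
    (h : ∀ i, o < i → i < o + a + b → ∀ x ∈ N, S i x ∈ N) (x : M) (hx : x ∈ N) :
    Qe S o a b x ∈ N := by
  induction a generalizing b x with
  | zero => rw [Qe_zero_left]; exact hx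
  | succ a iha =>
    induction b generalizing x with
    | zero => rw [Qe_zero_right]; exact hx
    | succ b ihb =>
      rw [Qe_succ_apply]
      refine N.add_mem (ihb (fun i h1 h2 => h i h1 (by omega)) x hx) (N.smul_mem _ ?_)
      exact iha (b + 1) (fun i h1 h2 => h i h1 (by omega)) _
        (cyc_mem N S _ _ (fun i h1 h2 => h i (by omega) (by omega)) x hx)

private theorem mgS_cons {M : Type} [AddCommGroup M] [Module ℝ M] (S : ℕ → Module.End ℝ M)
    (a b : ℕ) (l : List ℕ) (m : M) : mgS S (a :: b :: l) m =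
      single ((a + b + 1) :: l) (Qe S (tot l) (b + 1) (a + 1) m) -
        mapDomain (List.cons a) (mgS S (b :: l) m) := by
  rfl

private theorem tot_cons (a : ℕ) (l : List ℕ) : tot (a :: l) = a + 1 + tot l := by
  simp [tot]

private theorem sal_eq {M : Type} [AddCommGroup M] [Module ℝ M] (S : ℕ → Module.End ℝ M)
    (x : List ℕ →₀ M) : sal S x = ∑ l ∈ x.support, mgS S l (x l) := by
  rfl

private theorem sal_single {M : Type} [AddCommGroup M] [Module ℝ M] (S : ℕ → Module.End ℝ M)
    (l : List ℕ) (m : M) : sal S (single l m) = mgS S l m := by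
  simp [sal]

private theorem mgS_nat {M M' : Type} [AddCommGroup M] [Module ℝ M] [AddCommGroup M'] [Module ℝ M']
    (φ : M →ₗ[ℝ] M') (S : ℕ → Module.End ℝ M) (S' : ℕ → Module.End ℝ M') (n : ℕ)
    (h : ∀ i, 1 ≤ i → i < n → ∀ x, φ (S i x) = S' i (φ x)) :
    ∀ (l : List ℕ), tot l ≤ n → ∀ m : M,
      Finsupp.mapRange.linearMap φ (mgS S l m) = mgS S' l (φ m)
  | [], _, m => by simp [mgS]
  | [a], _, m => by simp [mgS]
  | a :: b :: l, hl, m => by
    have ih := mgS_nat φ S S' n h (b :: l) (by rw [tot_cons] at hl; omega) m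
    rw [mgS_cons, mgS_cons, map_sub, ← ih]
    congr 1
    · rw [Finsupp.mapRange.linearMap_apply, Finsupp.mapRange_single]
      congr 1
      apply Qe_nat
      intro i h1 h2 x
      apply h
      · omega
      · rw [tot_cons, tot_cons] at hl
        omega
    · rw [Finsupp.mapRange.linearMap_apply, Finsupp.mapRange.linearMap_apply,
        Finsupp.mapDomain_mapRange _ _ _ _ (map_add φ)]

theorem sal_nat {M M' : Type} [AddCommGroup M] [Module ℝ M] [AddCommGroup M'] [Module ℝ M']
    (φ : M →ₗ[ℝ] M') (S : ℕ → Module.End ℝ M) (S' : ℕ → Module.End ℝ M') (n : ℕ)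
    (h : ∀ i, 1 ≤ i → i < n → ∀ x, φ (S i x) = S' i (φ x)) (x : List ℕ →₀ M)
    (hx : ∀ l, x l ≠ 0 → tot l = n) :
    Finsupp.mapRange.linearMap φ (sal S x) = sal S' (Finsupp.mapRange.linearMap φ x) := by
  conv_rhs => rw [← Finsupp.sum_single x]
  rw [sal_eq, map_sum, Finsupp.sum, map_sum, map_sum]
  apply Finset.sum_congr rfl
  intro l hl
  rw [Finsupp.mapRange.linearMap_apply φ (single l (x l)), Finsupp.mapRange_single, sal_single]
  exact mgS_nat φ S S' n h l (le_of_eq (hx l (Finsupp.mem_support_iff.1 hl))) (x l)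

private theorem mgS_supp {M : Type} [AddCommGroup M] [Module ℝ M] (S : ℕ → Module.End ℝ M) :
    ∀ (l : List ℕ) (m : M) (l' : List ℕ), mgS S l m l' ≠ 0 →
      l'.length + 1 = l.length ∧ tot l' = tot l
  | [], m, l', h => by simp [mgS] at h
  | [a], m, l', h => by simp [mgS] at h
  | a :: b :: l, m, l', h => by
    rw [mgS_cons, Finsupp.sub_apply] at h
    by_cases h1 : l' = (a + b + 1) :: l
    · subst h1
      rw [tot_cons, tot_cons, tot_cons]
      constructor
      · simp
      · omega
    · rw [Finsupp.single_eq_of_ne h1, zero_sub, neg_ne_zero] at h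
      by_cases h2 : ∃ l'', l' = a :: l''
      · obtain ⟨l'', rfl⟩ := h2
        rw [Finsupp.mapDomain_apply List.cons_injective] at h
        obtain ⟨h3, h4⟩ := mgS_supp S (b :: l) m l'' h
        rw [tot_cons, tot_cons a, h4]
        simp only [List.length_cons] at h3 ⊢
        exact ⟨by omega, trivial⟩
      · exfalso
        apply h
        rw [Finsupp.mapDomain_notin_range]
        rintro ⟨l'', h3⟩
        exact h2 ⟨l'', h3.symm⟩

theorem sal_supp {M : Type} [AddCommGroup M] [Module ℝ M] (S : ℕ → Module.End ℝ M) (r n : ℕ)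
    (x : List ℕ →₀ M) (hx : ∀ l, x l ≠ 0 → l.length = r ∧ tot l = n) :
    ∀ l, sal S x l ≠ 0 → l.length + 1 = r ∧ tot l = n := by
  intro l hl
  rw [sal_eq, Finsupp.finset_sum_apply] at hl
  obtain ⟨l', h1, h2⟩ := Finset.exists_ne_zero_of_sum_ne_zero hl
  obtain ⟨h3, h4⟩ := mgS_supp S l' _ l h2
  obtain ⟨h5, h6⟩ := hx l' (Finsupp.mem_support_iff.1 h1)
  exact ⟨by omega, by omega⟩

private theorem mgS_mem {M : Type} [AddCommGroup M] [Module ℝ M] (N : Submodule ℝ M)
    (S : ℕ → Module.End ℝ M) (n : ℕ) (h : ∀ i, 1 ≤ i → i < n → ∀ x ∈ N, S i x ∈ N) :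
    ∀ (l : List ℕ), tot l ≤ n → ∀ m ∈ N, ∀ l' : List ℕ, mgS S l m l' ∈ N
  | [], _, m, _, l' => by simp [mgS]
  | [a], _, m, _, l' => by simp [mgS]
  | a :: b :: l, hl, m, hm, l' => by
    rw [mgS_cons, Finsupp.sub_apply]
    apply N.sub_mem
    · by_cases h1 : l' = (a + b + 1) :: l
      · subst h1
        rw [Finsupp.single_eq_same]
        apply Qe_mem _ _ _ _ _ _ _ hm
        intro i h1 h2
        apply h i (by omega)
        rw [tot_cons, tot_cons] at hl
        omega
      · rw [Finsupp.single_eq_of_ne h1]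
        exact N.zero_mem
    · by_cases h2 : ∃ l'', l' = a :: l''
      · obtain ⟨l'', rfl⟩ := h2
        rw [Finsupp.mapDomain_apply List.cons_injective]
        exact mgS_mem N S n h (b :: l) (by rw [tot_cons] at hl; omega) m hm l''
      · rw [Finsupp.mapDomain_notin_range]
        · exact N.zero_mem
        rintro ⟨l'', h3⟩
        exact h2 ⟨l'', h3.symm⟩

theorem sal_mem {M : Type} [AddCommGroup M] [Module ℝ M] (N : Submodule ℝ M)
    (S : ℕ → Module.End ℝ M) (n : ℕ) (h : ∀ i, 1 ≤ i → i < n → ∀ x ∈ N, S i x ∈ N)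
    (x : List ℕ →₀ M) (hx : ∀ l, x l ≠ 0 → tot l = n) (hN : ∀ l, x l ∈ N) :
    ∀ l, sal S x l ∈ N := by
  intro l
  rw [sal_eq, Finsupp.finset_sum_apply]
  apply N.sum_mem
  intro l' hl'
  exact mgS_mem N S n h l' (le_of_eq (hx l' (Finsupp.mem_support_iff.1 hl'))) _ (hN l') l

/-! ### the generators on polynomials -/

theorem SA_apply (i : ℕ) (f : PA) : SA i f = sA i f := by
  rfl

theorem SA_mul (i : ℕ) (f g : PA) : SA i (f * g) = SA i f * SA i g := by
  rw [SA_apply, SA_apply, SA_apply, map_mul]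

private theorem sA_X_self (i : ℕ) : sA i (MvPolynomial.X i) =
    2 * MvPolynomial.X i - MvPolynomial.X (i + 1) := by
  simp [sA]

private theorem sA_X_succ (i : ℕ) : sA i (MvPolynomial.X (i + 1)) = MvPolynomial.X i := by
  simp [sA]

private theorem sA_X_of_ne (i j : ℕ) (h1 : j ≠ i) (h2 : j ≠ i + 1) :
    sA i (MvPolynomial.X j) = MvPolynomial.X j := by
  simp [sA, h1, h2]

private theorem sA_homog (i k : ℕ) (f : PA) (hf : f.IsHomogeneous k) :
    (sA i f).IsHomogeneous k := by
  have h := hf.aeval (fun j => if j = i then 2 * MvPolynomial.X i - MvPolynomial.X (i + 1)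
    else if j = i + 1 then MvPolynomial.X i else (MvPolynomial.X j : PA)) (n := 1) (by
      intro j
      split_ifs with h1 h2
      · apply MvPolynomial.IsHomogeneous.sub
        · have h3 : (2 * MvPolynomial.X i : PA) = MvPolynomial.C (2 : ℝ) * MvPolynomial.X i := by
            rw [map_ofNat]
          rw [h3]
          exact (MvPolynomial.isHomogeneous_C_mul_X _ _)
        · exact MvPolynomial.isHomogeneous_X _ _
      · exact MvPolynomial.isHomogeneous_X _ _
      · exact MvPolynomial.isHomogeneous_X _ _)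
  rw [one_mul] at h
  exact h

private theorem sA_supported (i : ℕ) (s : Set ℕ) (hi : i ∈ s) (hi' : i + 1 ∈ s) (f : PA)
    (hf : f ∈ MvPolynomial.supported ℝ s) : sA i f ∈ MvPolynomial.supported ℝ s := by
  have h : MvPolynomial.supported ℝ s ≤ (MvPolynomial.supported ℝ s).comap (sA i) := by
    rw [MvPolynomial.supported_eq_adjoin_X]
    apply Algebra.adjoin_le
    rintro _ ⟨j, hj, rfl⟩
    show sA i (MvPolynomial.X j) ∈ Algebra.adjoin ℝ (MvPolynomial.X '' s)
    have hX : ∀ l ∈ s, (MvPolynomial.X l : PA) ∈ Algebra.adjoin ℝ (MvPolynomial.X '' s) :=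
      fun l hl => Algebra.subset_adjoin ⟨l, hl, rfl⟩
    by_cases h1 : j = i
    · subst h1
      rw [sA_X_self]
      apply Subalgebra.sub_mem
      · apply Subalgebra.mul_mem
        · exact ofNat_mem _ 2
        · exact hX _ hi
      · exact hX _ hi'
    · by_cases h2 : j = i + 1
      · subst h2
        rw [sA_X_succ]
        exact hX _ hi
      · rw [sA_X_of_ne i j h1 h2]
        exact hX _ hj
  exact h hf

theorem SA_mem_Bn (n k i : ℕ) (hi : 1 ≤ i) (hn : i < n) (f : PA) (hf : f ∈ Bn n k) :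
    SA i f ∈ Bn n k := by
  refine ⟨sA_homog i k f hf.1, sA_supported i _ ?_ ?_ f hf.2⟩
  · exact ⟨hi, hn.le⟩
  · exact ⟨by omega, hn⟩

theorem SA_mem_An (n k i : ℕ) (hi : 1 ≤ i) (hn : i < n) (f : PA) (hf : f ∈ An n k) :
    SA i f ∈ An n k := by
  refine ⟨sA_homog i k f hf.1, sA_supported i _ ?_ ?_ f hf.2⟩
  · exact hn.le
  · exact hn

theorem SA_shf (o i : ℕ) (hi : 1 ≤ i) (f : PA) : SA (o + i) (shf o f) = shf o (SA i f) := by
  have h : (sA (o + i)).comp (shf o) = (shf o).comp (sA i) := by
    apply MvPolynomial.algHom_ext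
    intro j
    rw [AlgHom.comp_apply, AlgHom.comp_apply]
    have hs0 : shf o (MvPolynomial.X 0) = MvPolynomial.X 0 := by simp [shf]
    have hs : ∀ l, 1 ≤ l → shf o (MvPolynomial.X l) = MvPolynomial.X (l + o) := by
      intro l hl
      have : l ≠ 0 := by omega
      simp [shf, this]
    by_cases h0 : j = 0
    · subst h0
      rw [hs0, sA_X_of_ne _ _ (by omega) (by omega), sA_X_of_ne _ _ (by omega) (by omega), hs0]
    · rw [hs j (by omega)]
      by_cases h1 : j = i
      · subst h1
        rw [sA_X_self, map_sub, map_mul, hs j (by omega), hs (j + 1) (by omega),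
          add_comm j o, sA_X_self, map_ofNat]
        congr 2
        omega
      · by_cases h2 : j = i + 1
        · subst h2
          rw [sA_X_succ, hs i hi, show i + 1 + o = o + i + 1 by omega, sA_X_succ, add_comm o i]
        · rw [sA_X_of_ne i j h1 h2, sA_X_of_ne _ _ (by omega) (by omega), hs j (by omega)]
  exact DFunLike.congr_fun h f

theorem SA_pderiv (i : ℕ) (hi : 1 ≤ i) (f : PA) :
    MvPolynomial.pderiv 0 (SA i f) = SA i (MvPolynomial.pderiv 0 f) := by
  rw [SA_apply, SA_apply]
  induction f using MvPolynomial.induction_on with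
  | C a =>
    rw [show sA i (MvPolynomial.C a) = MvPolynomial.C a from (sA i).commutes a,
      MvPolynomial.pderiv_C, map_zero]
  | add p q hp hq => rw [map_add, map_add, map_add, map_add, hp, hq]
  | mul_X p j hp =>
    rw [map_mul, MvPolynomial.pderiv_mul, MvPolynomial.pderiv_mul, map_add, map_mul, map_mul, hp]
    congr 2
    by_cases h1 : j = i
    · subst h1
      rw [sA_X_self, map_sub, MvPolynomial.pderiv_X_of_ne (by omega : j + 1 ≠ 0),
        MvPolynomial.pderiv_mul, MvPolynomial.pderiv_X_of_ne (by omega : j ≠ 0),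
        show (2 : PA) = MvPolynomial.C (2 : ℝ) from (map_ofNat _ 2).symm, MvPolynomial.pderiv_C]
      simp
    · by_cases h2 : j = i + 1
      · subst h2
        rw [sA_X_succ, MvPolynomial.pderiv_X_of_ne (by omega : i ≠ 0),
          MvPolynomial.pderiv_X_of_ne (by omega : i + 1 ≠ 0), map_zero]
      · rw [sA_X_of_ne i j h1 h2]
        by_cases h0 : j = 0
        · subst h0
          rw [MvPolynomial.pderiv_X_self, map_one]
        · rw [MvPolynomial.pderiv_X_of_ne h0, map_zero]

/-- the generators `s_i` with `i + 1 < n` commute with the substitution `u_n = t` -/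
theorem SA_ev (n i : ℕ) (hi : 1 ≤ i) (hn : i + 1 < n) (f : PA) :
    ev n (SA i f) = SA i (ev n f) := by
  have h : (ev n).comp (sA i) = (sA i).comp (ev n) := by
    apply MvPolynomial.algHom_ext
    intro j
    rw [AlgHom.comp_apply, AlgHom.comp_apply]
    have hs0 : ev n (MvPolynomial.X n) = MvPolynomial.X 0 := by simp [ev]
    have hs : ∀ l, l ≠ n → ev n (MvPolynomial.X l) = MvPolynomial.X l := by
      intro l hl
      simp [ev, hl]
    by_cases h0 : j = n
    · subst h0
      rw [hs0, sA_X_of_ne _ _ (by omega) (by omega), sA_X_of_ne _ _ (by omega) (by omega), hs0]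
    · rw [hs j h0]
      by_cases h1 : j = i
      · subst h1
        rw [sA_X_self, map_sub, map_mul, hs j (by omega), hs (j + 1) (by omega), map_ofNat]
      · by_cases h2 : j = i + 1
        · subst h2
          rw [sA_X_succ, hs i (by omega)]
        · rw [sA_X_of_ne i j h1 h2, hs j h0]
  exact DFunLike.congr_fun h f

/-- `s_i` fixes the polynomials in the other variables -/
theorem SA_fix (i : ℕ) (f : PA) (hf : ∀ j ∈ f.vars, j ≠ i ∧ j ≠ i + 1) : SA i f = f := by
  have h := MvPolynomial.hom_congr_vars (f₁ := (sA i : PA →+* PA)) (f₂ := RingHom.id PA)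
    (p₁ := f) (p₂ := f) ?_ ?_ rfl
  · exact h
  · ext a : 1
    exact (sA i).commutes a
  · intro j hj _
    exact sA_X_of_ne i j (hf j hj).1 (hf j hj).2

private theorem sA_sum (o n i : ℕ) (c : ℕ → ℝ) : sA i (∑ j ∈ Finset.range n,
      MvPolynomial.C (c j) * MvPolynomial.X (o + j + 1)) =
    ∑ j ∈ Finset.range n, MvPolynomial.C (c j) * sA i (MvPolynomial.X (o + j + 1)) := by
  rw [map_sum]
  apply Finset.sum_congr rfl
  intro j _
  rw [map_mul]
  congr 1
  exact (sA i).commutes _

/-- `δ^[o]_n` is invariant under `s_(o+1), .., s_(o+n-1)` -/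
theorem SA_dl (o n i : ℕ) (h1 : o < i) (h2 : i < o + n) : SA i (dl o n) = dl o n := by
  obtain ⟨a, rfl⟩ := Nat.exists_eq_add_of_lt h1
  obtain ⟨b, rfl⟩ : ∃ b, n = a + 2 + b := ⟨n - (a + 2), by omega⟩
  rw [SA_apply, dl, sA_sum, Finset.sum_range_add, Finset.sum_range_add, Finset.sum_range_add,
    Finset.sum_range_add, Finset.sum_range_succ, Finset.sum_range_one, Finset.sum_range_succ,
    Finset.sum_range_one, add_zero]
  have e1 : ∑ j ∈ Finset.range a, MvPolynomial.C ((-1 : ℝ) ^ j) *
      sA (o + a + 1) (MvPolynomial.X (o + j + 1)) =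
      ∑ j ∈ Finset.range a, MvPolynomial.C ((-1 : ℝ) ^ j) * MvPolynomial.X (o + j + 1) := by
    apply Finset.sum_congr rfl
    intro j hj
    rw [Finset.mem_range] at hj
    rw [sA_X_of_ne _ _ (by omega) (by omega)]
  have e2 : ∑ j ∈ Finset.range b, MvPolynomial.C ((-1 : ℝ) ^ (a + 2 + j)) *
      sA (o + a + 1) (MvPolynomial.X (o + (a + 2 + j) + 1)) =
      ∑ j ∈ Finset.range b, MvPolynomial.C ((-1 : ℝ) ^ (a + 2 + j)) *
        MvPolynomial.X (o + (a + 2 + j) + 1) := by
    apply Finset.sum_congr rfl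
    intro j hj
    rw [sA_X_of_ne _ _ (by omega) (by omega)]
  rw [e1, e2, sA_X_self, ← add_assoc o a 1, sA_X_succ]
  rw [pow_succ]
  simp only [map_mul, map_neg, map_one]
  ring

theorem SA_comm (i j : ℕ) (hi : 1 ≤ i) (h : i + 2 ≤ j) : SA i * SA j = SA j * SA i := by
  have h : (sA i).comp (sA j) = (sA j).comp (sA i) := by
    apply MvPolynomial.algHom_ext
    intro l
    rw [AlgHom.comp_apply, AlgHom.comp_apply]
    by_cases h1 : l = i
    · subst h1
      rw [sA_X_self, map_sub, map_mul, map_ofNat, sA_X_of_ne j _ (by omega) (by omega),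
        sA_X_of_ne j _ (by omega) (by omega), sA_X_self]
    by_cases h2 : l = i + 1
    · subst h2
      rw [sA_X_succ, sA_X_of_ne j _ (by omega) (by omega),
        sA_X_of_ne j _ (by omega) (by omega), sA_X_succ]
    by_cases h3 : l = j
    · subst h3
      rw [sA_X_of_ne i _ (by omega) (by omega), sA_X_self, map_sub, map_mul, map_ofNat,
        sA_X_of_ne i _ (by omega) (by omega), sA_X_of_ne i _ (by omega) (by omega)]
    by_cases h4 : l = j + 1
    · subst h4
      rw [sA_X_of_ne i _ (by omega) (by omega), sA_X_succ,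
        sA_X_of_ne i _ (by omega) (by omega)]
    rw [sA_X_of_ne j l h3 h4, sA_X_of_ne i l h1 h2, sA_X_of_ne j l h3 h4]
  apply LinearMap.ext
  intro f
  exact DFunLike.congr_fun h f

theorem SA_braid (i : ℕ) (hi : 1 ≤ i) :
    SA i * SA (i + 1) * SA i = SA (i + 1) * SA i * SA (i + 1) := by
  have h : (sA i).comp ((sA (i + 1)).comp (sA i)) =
      (sA (i + 1)).comp ((sA i).comp (sA (i + 1))) := by
    apply MvPolynomial.algHom_ext
    intro l
    rw [AlgHom.comp_apply, AlgHom.comp_apply, AlgHom.comp_apply, AlgHom.comp_apply]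
    have a1 : sA i (MvPolynomial.X i) = 2 * MvPolynomial.X i - MvPolynomial.X (i + 1) :=
      sA_X_self i
    have a2 : sA i (MvPolynomial.X (i + 1)) = MvPolynomial.X i := sA_X_succ i
    have a3 : sA i (MvPolynomial.X (i + 1 + 1)) = MvPolynomial.X (i + 1 + 1) :=
      sA_X_of_ne _ _ (by omega) (by omega)
    have b1 : sA (i + 1) (MvPolynomial.X i) = MvPolynomial.X i :=
      sA_X_of_ne _ _ (by omega) (by omega)
    have b2 : sA (i + 1) (MvPolynomial.X (i + 1)) =
        2 * MvPolynomial.X (i + 1) - MvPolynomial.X (i + 1 + 1) := sA_X_self (i + 1)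
    have b3 : sA (i + 1) (MvPolynomial.X (i + 1 + 1)) = MvPolynomial.X (i + 1) := sA_X_succ (i + 1)
    by_cases h1 : l = i
    · subst h1
      simp only [a1, a2, a3, b1, b2, b3, map_sub, map_mul, map_ofNat]
      ring
    by_cases h2 : l = i + 1
    · subst h2
      simp only [a1, a2, a3, b1, b2, b3, map_sub, map_mul, map_ofNat]
      try ring
    by_cases h3 : l = i + 1 + 1
    · subst h3
      simp only [a1, a2, a3, b1, b2, b3, map_sub, map_mul, map_ofNat]
    rw [sA_X_of_ne i l h1 h2, sA_X_of_ne (i + 1) l h2 h3, sA_X_of_ne i l h1 h2,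
      sA_X_of_ne (i + 1) l h2 h3]
  apply LinearMap.ext
  intro f
  exact DFunLike.congr_fun h f

/-- multiplication by an element fixed by the generators involved -/
theorem Qe_SA_mul (o a b : ℕ) (f g : PA) (hg : ∀ i, o < i → i < o + a + b → SA i g = g) :
    Qe SA o a b (f * g) = Qe SA o a b f * g := by
  have h := Qe_nat (LinearMap.mulRight ℝ g) SA SA o o a b ?_ f
  · rw [LinearMap.mulRight_apply, LinearMap.mulRight_apply] at h
    exact h.symm
  · intro i h1 h2 x
    rw [LinearMap.mulRight_apply, LinearMap.mulRight_apply, SA_mul,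
      hg (o + i) (by omega) (by omega)]

theorem Qe_SA_shf (o a b : ℕ) (f : PA) : Qe SA o a b (shf o f) = shf o (Qe SA 0 a b f) := by
  have h := Qe_nat (shf o).toLinearMap SA SA 0 o a b ?_ f
  · exact h.symm
  · intro i h1 h2 x
    rw [zero_add]
    exact (SA_shf o i h1 x).symm

end BrV
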