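import Pool.Agent.Lib.BrV.PDet
import Pool.Agent.Lib.BrV.QApi
import Pool.Agent.Lib.BrV.Api

/-!
# BrV.Key: the key lemma (7.2), product of words and shuffle elements

`PP (f * g) = Q(0; a, b) [ F(u_1..u_a; ζ) G(u_(a+1)..u_(a+b); t) ]`, `F = PP f`, `G = PP g`, `ζ = zet a b`.
Proof by induction on `a + k + b + l` for homogeneous `f, g`.  Call the right side `F o G` (it is in `An (a+b) (k+l)`: `Qe_mem`, `SA_mem_An`).  `H` = difference.
(1) `pderiv 0`: commutes with `Q` (`SA_pderiv`, `Qe_nat`); `pderiv 0 (subt ζ F) = (-1)^b subt ζ (pderiv 0 F)` (`ζ = 2 dl a b + (-1)^b t`; check on variables), `pderiv 0 (shf a G) = shf a (pderiv 0 G)`.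
 So `pderiv 0 (F o G) = F o (pderiv 0 G) + (-1)^b (pderiv 0 F) o G`; and `del false (f * g) = f * del false g + (-1)^b (del false f) * g` (`del_mu`, `tau_of_IsH`).  With `pderiv_PP` and
 the induction hypothesis (`del false g` has bidegree `(b, l-1)`, it is `0` if `l = 0`): `pderiv 0 H = 0`.
(2) `a + b ≥ 1`: `ev (a+b) H = 0`.  `del true (f * g) = f * del true g + (-1)^b (del true f) * g`, `ev_PP`.
 * `a, b ≥ 1`: `Qe_succ`: `Q(0;a,b) = Q(0;a,b-1) + (-1)^b Q(0;a-1,b) C`, `C = cyc SA a b = s_(a+b-1) ... s_a`.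
   First term: `ev (a+b)` commutes with the `s_i`, `i ≤ a+b-2` (`SA_ev`, `Qe_nat`); `ev (a+b) (subt ζ F) = subt (zet a (b-1)) F` (`ev (a+b) (zet a b) = zet a (b-1)`, `F` has no `u_(a+b)`),
   `ev (a+b) (shf a G) = shf a (ev b G)`: get `F o (ev b G)`.
   Second term: `C` acts as the algebra map `σ = s_(a+b-1) ∘ ... ∘ s_a`: `σ u_j = u_j` (`j < a`), `σ u_(a+j) = u_(a+j-1)` (`1 ≤ j ≤ b`), `σ u_a = 2 dl (a-1) b + (-1)^b u_(a+b)` (induction on `b`), `σ t = t`.
   So `ev (a+b) (σ u_a) = zet (a-1) b = ev (a+b) (σ (zet a b))` (`σ (dl a b) = dl (a-1) b`), hence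
   `ev (a+b) (σ (subt ζ F * shf a G)) = subt (zet (a-1) b) (ev a F) * shf (a-1) G`: get `(-1)^b (ev a F) o G`.
 * `a = 0`: `Q = 1`; `F ∈ ℝ[t]`; `ev b (subt (zet 0 b) F * G) = subt (zet 0 (b-1)) F * ev b G`; `del true f = 0`.
 * `b = 0`: `Q = 1`, `zet a 0 = X 0`, `shf a G = G` (`G ∈ ℝ[t]`): `ev a (F * G) = ev a F * G`; `del true g = 0`.
(3) `a + b ≥ 1`: `det_pos`.  `a = b = 0`: if `k + l ≥ 1` `det_zero`, else `f, g` are multiples of `bw []`.
-/

namespace BrV

open Finsupp

private theorem alg_eq (t : Set ℕ) (φ ψ : PA →ₐ[ℝ] PA)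
    (h : ∀ i ∈ t, φ (MvPolynomial.X i) = ψ (MvPolynomial.X i)) (F : PA)
    (hF : F ∈ MvPolynomial.supported ℝ t) : φ F = ψ F := by
  have h1 : Set.EqOn φ ψ (Algebra.adjoin ℝ (MvPolynomial.X '' t : Set PA)) := by
    rw [AlgHom.eqOn_adjoin_iff]
    rintro _ ⟨i, hi, rfl⟩
    exact h i hi
  exact h1 hF

private theorem supp_map (s t : Set ℕ) (φ : PA →ₐ[ℝ] PA)
    (h : ∀ i ∈ s, φ (MvPolynomial.X i) ∈ MvPolynomial.supported ℝ t) (F : PA)
    (hF : F ∈ MvPolynomial.supported ℝ s) : φ F ∈ MvPolynomial.supported ℝ t := by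
  have h1 : Algebra.adjoin ℝ (MvPolynomial.X '' s : Set PA) ≤
      (MvPolynomial.supported ℝ t).comap φ := by
    rw [Algebra.adjoin_le_iff]
    rintro _ ⟨i, hi, rfl⟩
    exact h i hi
  exact h1 hF

private theorem An_map (n m k : ℕ) (g : ℕ → PA) (hg : ∀ i, (g i).IsHomogeneous 1)
    (h : ∀ i ≤ n, g i ∈ MvPolynomial.supported ℝ {i | i ≤ m}) (F : PA) (hF : F ∈ An n k) :
    MvPolynomial.aeval g F ∈ An m k := by
  refine ⟨?_, ?_⟩
  · have h1 := MvPolynomial.IsHomogeneous.aeval
      ((MvPolynomial.mem_homogeneousSubmodule k F).mp hF.1) g hg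
    rw [one_mul] at h1
    exact (MvPolynomial.mem_homogeneousSubmodule k _).mpr h1
  · refine supp_map {i | i ≤ n} {i | i ≤ m} (MvPolynomial.aeval g) ?_ F hF.2
    intro i hi
    rw [MvPolynomial.aeval_X]
    exact h i hi

private theorem ev_X (n i : ℕ) : ev n (MvPolynomial.X i) =
    if i = n then MvPolynomial.X 0 else MvPolynomial.X i := by
  rw [ev, MvPolynomial.aeval_X]

private theorem subt_X (q : PA) (i : ℕ) : subt q (MvPolynomial.X i) =
    if i = 0 then q else MvPolynomial.X i := by
  rw [subt, MvPolynomial.aeval_X]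

private theorem shf_X (o i : ℕ) : shf o (MvPolynomial.X i) =
    if i = 0 then MvPolynomial.X 0 else MvPolynomial.X (i + o) := by
  rw [shf, MvPolynomial.aeval_X]

private theorem sA_X (i j : ℕ) : sA i (MvPolynomial.X j) =
    if j = i then 2 * MvPolynomial.X i - MvPolynomial.X (i + 1)
    else if j = i + 1 then MvPolynomial.X i else MvPolynomial.X j := by
  rw [sA, MvPolynomial.aeval_X]

private theorem two_eq : (2 : PA) = MvPolynomial.C 2 := by
  rw [← MvPolynomial.algebraMap_eq, map_ofNat]

private theorem alg_C (φ : PA →ₐ[ℝ] PA) (r : ℝ) : φ (MvPolynomial.C r) = MvPolynomial.C r := by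
  rw [← MvPolynomial.algebraMap_eq]
  exact φ.commutes r

private theorem dl_succ (o n : ℕ) : dl o (n + 1) =
    dl o n + MvPolynomial.C ((-1 : ℝ) ^ n) * MvPolynomial.X (o + n + 1) := by
  rw [dl, dl, Finset.sum_range_succ]

private theorem zet_succ (o n : ℕ) : zet o (n + 1) = 2 * dl o n +
    MvPolynomial.C ((-1 : ℝ) ^ n) * (2 * MvPolynomial.X (o + n + 1) - MvPolynomial.X 0) := by
  rw [zet, dl_succ]
  have h : (MvPolynomial.C ((-1 : ℝ) ^ (n + 1)) : PA) = - MvPolynomial.C ((-1 : ℝ) ^ n) := by
    rw [pow_succ, mul_neg_one, map_neg]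
  rw [h]
  ring

private theorem dl_supp (o n : ℕ) (t : Set ℕ) (h : ∀ j < n, o + j + 1 ∈ t) :
    dl o n ∈ MvPolynomial.supported ℝ t := by
  rw [dl]
  refine Subalgebra.sum_mem _ fun j hj => ?_
  refine Subalgebra.mul_mem _ ?_ ?_
  · rw [← MvPolynomial.algebraMap_eq]
    exact Subalgebra.algebraMap_mem _ _
  · exact Algebra.subset_adjoin ⟨_, h j (Finset.mem_range.mp hj), rfl⟩

/-- an algebra map fixing the variables of `dl o n` fixes it -/
private theorem dl_fix (o n : ℕ) (φ : PA →ₐ[ℝ] PA)
    (h : ∀ j < n, φ (MvPolynomial.X (o + j + 1)) = MvPolynomial.X (o + j + 1)) :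
    φ (dl o n) = dl o n := by
  rw [dl, map_sum]
  refine Finset.sum_congr rfl fun j hj => ?_
  rw [map_mul, alg_C, h j (Finset.mem_range.mp hj)]

private theorem zet_supp (o n : ℕ) : zet o n ∈ MvPolynomial.supported ℝ {i | i ≤ o + n} := by
  rw [zet]
  refine Subalgebra.add_mem _ (Subalgebra.mul_mem _ ?_ ?_) (Subalgebra.mul_mem _ ?_ ?_)
  · rw [two_eq, ← MvPolynomial.algebraMap_eq]
    exact Subalgebra.algebraMap_mem _ _
  · refine dl_supp _ _ _ fun j hj => ?_
    show o + j + 1 ≤ o + n
    omega
  · rw [← MvPolynomial.algebraMap_eq]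
    exact Subalgebra.algebraMap_mem _ _
  · exact Algebra.subset_adjoin ⟨0, by show 0 ≤ o + n; omega, rfl⟩

private theorem zet_hom (o n : ℕ) : (zet o n).IsHomogeneous 1 := by
  rw [zet, two_eq]
  refine MvPolynomial.IsHomogeneous.add ?_ ?_
  · refine MvPolynomial.IsHomogeneous.C_mul ?_ _
    rw [dl]
    refine MvPolynomial.IsHomogeneous.sum _ _ _ fun j _ => ?_
    exact MvPolynomial.IsHomogeneous.C_mul (MvPolynomial.isHomogeneous_X _ _) _
  · exact MvPolynomial.IsHomogeneous.C_mul (MvPolynomial.isHomogeneous_X _ _) _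

private theorem subt_mem (a b k : ℕ) (F : PA) (hF : F ∈ An a k) :
    subt (zet a b) F ∈ An (a + b) k := by
  refine An_map a (a + b) k _ ?_ ?_ F hF
  · intro i
    split_ifs
    · exact zet_hom a b
    · exact MvPolynomial.isHomogeneous_X _ _
  · intro i hi
    split_ifs
    · exact zet_supp a b
    · exact Algebra.subset_adjoin ⟨i, by show i ≤ a + b; omega, rfl⟩

private theorem shf_mem (a b l : ℕ) (G : PA) (hG : G ∈ An b l) : shf a G ∈ An (a + b) l := by
  refine An_map b (a + b) l _ ?_ ?_ G hG
  · intro i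
    split_ifs <;> exact MvPolynomial.isHomogeneous_X _ _
  · intro i hi
    split_ifs
    · exact Algebra.subset_adjoin ⟨0, by show 0 ≤ a + b; omega, rfl⟩
    · exact Algebra.subset_adjoin ⟨i + a, by show i + a ≤ a + b; omega, rfl⟩

/-- chain rule for the derivative with respect to `X 0` -/
private theorem pder_alg (φ : PA →ₐ[ℝ] PA) (c : ℝ)
    (h : ∀ i, MvPolynomial.pderiv 0 (φ (MvPolynomial.X i)) = if i = 0 then MvPolynomial.C c else 0)
    (F : PA) : MvPolynomial.pderiv 0 (φ F) = MvPolynomial.C c * φ (MvPolynomial.pderiv 0 F) := by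
  induction F using MvPolynomial.induction_on with
  | C r =>
    rw [alg_C, MvPolynomial.pderiv_C, map_zero, mul_zero]
  | add p q hp hq =>
    rw [map_add, map_add, hp, hq, map_add, map_add, mul_add]
  | mul_X p i hp =>
    rw [map_mul, MvPolynomial.pderiv_mul, MvPolynomial.pderiv_mul, hp, h, map_add, map_mul,
      map_mul, MvPolynomial.pderiv_X]
    by_cases hi : i = 0
    · subst hi
      rw [if_pos rfl, Pi.single_eq_same, map_one]
      ring
    · rw [if_neg hi, Pi.single_eq_of_ne hi, map_zero]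
      ring

private theorem pder_dl (o n : ℕ) : MvPolynomial.pderiv 0 (dl o n) = 0 := by
  rw [dl, map_sum]
  refine Finset.sum_eq_zero fun j _ => ?_
  rw [MvPolynomial.pderiv_C_mul, MvPolynomial.pderiv_X_of_ne (by omega), mul_zero]

private theorem pder_zet (o n : ℕ) :
    MvPolynomial.pderiv 0 (zet o n) = MvPolynomial.C ((-1 : ℝ) ^ n) := by
  rw [zet, map_add, two_eq, MvPolynomial.pderiv_C_mul, pder_dl, mul_zero, zero_add,
    MvPolynomial.pderiv_C_mul, MvPolynomial.pderiv_X_self, mul_one]

private theorem pder_subt (a b : ℕ) (F : PA) : MvPolynomial.pderiv 0 (subt (zet a b) F) =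
    MvPolynomial.C ((-1 : ℝ) ^ b) * subt (zet a b) (MvPolynomial.pderiv 0 F) := by
  refine pder_alg _ _ (fun i => ?_) F
  rw [subt_X]
  split_ifs with h
  · rw [pder_zet]
  · rw [MvPolynomial.pderiv_X_of_ne (by omega)]

private theorem pder_shf (a : ℕ) (G : PA) : MvPolynomial.pderiv 0 (shf a G) =
    shf a (MvPolynomial.pderiv 0 G) := by
  have h := pder_alg (shf a) 1 (fun i => ?_) G
  · rw [h, map_one, one_mul]
  · rw [shf_X]
    split_ifs with h
    · rw [MvPolynomial.pderiv_X_self, map_one]
    · rw [MvPolynomial.pderiv_X_of_ne (by omega)]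

/-- the right side of the key lemma -/
private noncomputable def oo (a b : ℕ) (F G : PA) : PA :=
  Qe SA 0 a b (subt (zet a b) F * shf a G)

private theorem oo_mem (a b k l : ℕ) (F G : PA) (hF : F ∈ An a k) (hG : G ∈ An b l) :
    oo a b F G ∈ An (a + b) (k + l) := by
  refine Qe_mem (An (a + b) (k + l)) SA 0 a b ?_ _ ?_
  · intro i h1 h2 x hx
    exact SA_mem_An (a + b) (k + l) i (by omega) (by omega) x hx
  · exact An_mul _ _ _ _ _ (subt_mem a b k F hF) (shf_mem a b l G hG)

private theorem Qe_C_mul (a b : ℕ) (c : ℝ) (F : PA) :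
    Qe SA 0 a b (MvPolynomial.C c * F) = MvPolynomial.C c * Qe SA 0 a b F := by
  rw [← MvPolynomial.smul_eq_C_mul, map_smul, MvPolynomial.smul_eq_C_mul]

private theorem oo_pder (a b : ℕ) (F G : PA) : MvPolynomial.pderiv 0 (oo a b F G) =
    oo a b F (MvPolynomial.pderiv 0 G) +
      MvPolynomial.C ((-1 : ℝ) ^ b) * oo a b (MvPolynomial.pderiv 0 F) G := by
  unfold oo
  have h1 := Qe_nat (MvPolynomial.pderiv (R := ℝ) (0 : ℕ)).toLinearMap SA SA 0 0 a b
    (fun i hi _ x => SA_pderiv (0 + i) (by omega) x) (subt (zet a b) F * shf a G)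
  change MvPolynomial.pderiv 0 (Qe SA 0 a b (subt (zet a b) F * shf a G)) =
    Qe SA 0 a b (MvPolynomial.pderiv 0 (subt (zet a b) F * shf a G)) at h1
  rw [h1, MvPolynomial.pderiv_mul, pder_subt, pder_shf, map_add, mul_assoc, Qe_C_mul, add_comm]

private theorem oo_zero_right (a b : ℕ) (F : PA) : oo a b F 0 = 0 := by
  rw [oo, map_zero, mul_zero, map_zero]

private theorem oo_zero_left (a b : ℕ) (G : PA) : oo a b 0 G = 0 := by
  rw [oo, map_zero, zero_mul, map_zero]

private theorem ev_subt (a b : ℕ) (F : PA) (k : ℕ) (hF : F ∈ An a k) :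
    ev (a + (b + 1)) (subt (zet a (b + 1)) F) = subt (zet a b) F := by
  rw [← AlgHom.comp_apply]
  refine alg_eq {i | i ≤ a} _ _ ?_ F hF.2
  intro i hi
  have hi : i ≤ a := hi
  rw [AlgHom.comp_apply, subt_X, subt_X]
  split_ifs with h0
  · rw [zet_succ, map_add, map_mul, map_mul, map_sub, map_mul, ev_X, ev_X, map_ofNat, alg_C,
      dl_fix, if_pos (by omega), if_neg (by omega), zet]
    · ring
    · intro j hj
      rw [ev_X, if_neg (by omega)]
  · rw [ev_X, if_neg (by omega)]

private theorem ev_shf (a b : ℕ) (G : PA) :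
    ev (a + (b + 1)) (shf a G) = shf a (ev (b + 1) G) := by
  have h : (ev (a + (b + 1))).comp (shf a) = (shf a).comp (ev (b + 1)) := by
    refine MvPolynomial.algHom_ext fun i => ?_
    rw [AlgHom.comp_apply, AlgHom.comp_apply, shf_X, ev_X]
    by_cases h0 : i = 0
    · rw [if_pos h0, ev_X, if_neg (by omega), if_neg (by omega), h0, shf_X, if_pos rfl]
    · rw [if_neg h0, ev_X]
      by_cases h1 : i = b + 1
      · rw [if_pos (by omega), if_pos h1, shf_X, if_pos rfl]
      · rw [if_neg (by omega), if_neg h1, shf_X, if_neg h0]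
  exact AlgHom.congr_fun h G

/-- the cycle as an algebra map -/
private noncomputable def cy (i : ℕ) : ℕ → (PA →ₐ[ℝ] PA)
  | 0 => AlgHom.id ℝ PA
  | b + 1 => (sA (i + b)).comp (cy i b)

private theorem cy_cyc (i b : ℕ) (F : PA) : cyc SA i b F = cy i b F := by
  induction b with
  | zero => rfl
  | succ b ih =>
    rw [cyc, cy, Module.End.mul_apply, ih, SA_apply, AlgHom.comp_apply]

private theorem cy_lt (i b j : ℕ) (h : j < i) : cy i b (MvPolynomial.X j) = MvPolynomial.X j := by
  induction b with
  | zero => rfl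
  | succ b ih => rw [cy, AlgHom.comp_apply, ih, sA_X, if_neg (by omega), if_neg (by omega)]

private theorem cy_gt (i b j : ℕ) (h : i + b < j) :
    cy i b (MvPolynomial.X j) = MvPolynomial.X j := by
  induction b with
  | zero => rfl
  | succ b ih =>
    rw [cy, AlgHom.comp_apply, ih (by omega), sA_X, if_neg (by omega), if_neg (by omega)]

private theorem cy_mid (i b j : ℕ) (h1 : i < j) (h2 : j ≤ i + b) :
    cy i b (MvPolynomial.X j) = MvPolynomial.X (j - 1) := by
  induction b with
  | zero => omega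
  | succ b ih =>
    rw [cy, AlgHom.comp_apply]
    by_cases h3 : j ≤ i + b
    · rw [ih h3, sA_X, if_neg (by omega), if_neg (by omega)]
    · have h4 : j = i + b + 1 := by omega
      rw [cy_gt i b j (by omega), sA_X, if_neg (by omega), if_pos h4]
      congr 1
      omega

private theorem cy_self (i b : ℕ) : cy (i + 1) b (MvPolynomial.X (i + 1)) =
    2 * dl i b + MvPolynomial.C ((-1 : ℝ) ^ b) * MvPolynomial.X (i + 1 + b) := by
  induction b with
  | zero =>
    have h : dl i 0 = 0 := by rw [dl, Finset.sum_range_zero]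
    rw [h]
    simp [cy]
  | succ b ih =>
    rw [cy, AlgHom.comp_apply, ih, map_add, map_mul, map_mul, map_ofNat, alg_C, dl_fix, sA_X,
      if_pos rfl, dl_succ]
    · have h : (MvPolynomial.C ((-1 : ℝ) ^ (b + 1)) : PA) = - MvPolynomial.C ((-1 : ℝ) ^ b) := by
        rw [pow_succ, mul_neg_one, map_neg]
      have h2 : i + b + 1 = i + 1 + b := by ring
      have h3 : i + 1 + (b + 1) = i + 1 + b + 1 := by ring
      rw [h, h2, h3]
      ring
    · intro j hj
      rw [sA_X, if_neg (by omega), if_neg (by omega)]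

private theorem cy_dl (i b : ℕ) : cy (i + 1) b (dl (i + 1) b) = dl i b := by
  rw [dl, dl, map_sum]
  refine Finset.sum_congr rfl fun j hj => ?_
  have hj' := Finset.mem_range.mp hj
  rw [map_mul, alg_C, cy_mid (i + 1) b _ (by omega) (by omega)]
  congr 2
  omega

private theorem cy_zet (i b : ℕ) : cy (i + 1) b (zet (i + 1) b) = zet i b := by
  rw [zet, zet, map_add, map_mul, map_mul, map_ofNat, alg_C, cy_dl, cy_lt _ _ _ (by omega)]

private theorem ev_zet (i b : ℕ) : ev (i + 1 + b) (zet i b) = zet i b := by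
  rw [zet, map_add, map_mul, map_mul, map_ofNat, alg_C, dl_fix, ev_X, if_neg (by omega)]
  intro j hj
  rw [ev_X, if_neg (by omega)]

private theorem ev_cy_aux (i b : ℕ) : ∀ j ∈ ({j | j ≤ i + 1} : Set ℕ),
    ((ev (i + 1 + b)).comp ((cy (i + 1) b).comp (subt (zet (i + 1) b)))) (MvPolynomial.X j) =
      ((subt (zet i b)).comp (ev (i + 1))) (MvPolynomial.X j) := by
  intro j hj
  have hj : j ≤ i + 1 := hj
  rw [AlgHom.comp_apply, AlgHom.comp_apply, AlgHom.comp_apply, subt_X, ev_X]
  by_cases h0 : j = 0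
  · rw [if_pos h0, if_neg (by omega), h0, subt_X, if_pos rfl, cy_zet, ev_zet]
  · rw [if_neg h0]
    by_cases h1 : j = i + 1
    · rw [if_pos h1, subt_X, if_pos rfl, h1, cy_self, map_add, map_mul, map_mul, map_ofNat,
        alg_C, dl_fix, ev_X, if_pos rfl, zet]
      intro j hj
      rw [ev_X, if_neg (by omega)]
    · rw [if_neg h1, cy_lt _ _ _ (by omega), ev_X, if_neg (by omega), subt_X, if_neg h0]

private theorem ev_cy_subt (i b : ℕ) (F : PA) (k : ℕ) (hF : F ∈ An (i + 1) k) :
    ev (i + 1 + b) (cy (i + 1) b (subt (zet (i + 1) b) F)) = subt (zet i b) (ev (i + 1) F) := by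
  have hgoal : ((ev (i + 1 + b)).comp ((cy (i + 1) b).comp (subt (zet (i + 1) b)))) F =
      ((subt (zet i b)).comp (ev (i + 1))) F := by
    refine alg_eq {j | j ≤ i + 1} _ _ ?_ F hF.2
    exact ev_cy_aux i b
  rw [AlgHom.comp_apply, AlgHom.comp_apply, AlgHom.comp_apply] at hgoal
  exact hgoal


private theorem ev_cy_shf (i b : ℕ) (G : PA) (l : ℕ) (hG : G ∈ An b l) :
    ev (i + 1 + b) (cy (i + 1) b (shf (i + 1) G)) = shf i G := by
  have hgoal : ((ev (i + 1 + b)).comp ((cy (i + 1) b).comp (shf (i + 1)))) G = shf i G := by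
    refine alg_eq {j | j ≤ b} _ _ ?_ G hG.2
    intro j hj
    have hj : j ≤ b := hj
    rw [AlgHom.comp_apply, AlgHom.comp_apply, shf_X, shf_X]
    by_cases h0 : j = 0
    · rw [if_pos h0, if_pos h0, cy_lt _ _ _ (by omega), ev_X, if_neg (by omega)]
    · rw [if_neg h0, if_neg h0, cy_mid _ _ _ (by omega) (by omega), ev_X, if_neg (by omega)]
      congr 1
  rw [AlgHom.comp_apply, AlgHom.comp_apply] at hgoal
  exact hgoal

private theorem Qe_ev (n a b : ℕ) (h : a + b < n) (F : PA) :
    ev n (Qe SA 0 a b F) = Qe SA 0 a b (ev n F) := by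
  have h1 := Qe_nat (ev n).toLinearMap SA SA 0 0 a b
    (fun i hi hi2 x => SA_ev n (0 + i) (by omega) (by omega) x) F
  exact h1

private theorem neg_pow_end (n : ℕ) (A : Module.End ℝ PA) (F : PA) :
    ((-1) ^ n * A) F = MvPolynomial.C ((-1 : ℝ) ^ n) * A F := by
  rcases neg_one_pow_eq_or (Module.End ℝ PA) n with h | h
  · rcases neg_one_pow_eq_or ℝ n with h' | h'
    · rw [h, h', one_mul, map_one, one_mul]
    · exfalso
      rcases Nat.even_or_odd n with he | ho
      · rw [he.neg_one_pow] at h'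
        norm_num at h'
      · rw [ho.neg_one_pow] at h
        have h2 := congrArg (fun T : Module.End ℝ PA => T 1) h
        simp only [LinearMap.neg_apply, Module.End.one_apply] at h2
        have h3 : (2 : PA) = 0 := by linear_combination -h2
        exact two_ne_zero h3
  · rcases neg_one_pow_eq_or ℝ n with h' | h'
    · exfalso
      rcases Nat.even_or_odd n with he | ho
      · rw [he.neg_one_pow] at h
        have h2 := congrArg (fun T : Module.End ℝ PA => T 1) h
        simp only [LinearMap.neg_apply, Module.End.one_apply] at h2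
        have h3 : (2 : PA) = 0 := by linear_combination h2
        exact two_ne_zero h3
      · rw [ho.neg_one_pow] at h'
        norm_num at h'
    · rw [h, h', neg_one_mul, map_neg, map_one, neg_one_mul]
      rfl

/-- `u_(a+b) = t` in the right side of the key lemma -/
private theorem oo_ev (a b k l : ℕ) (F G : PA) (hF : F ∈ An (a + 1) k) (hG : G ∈ An (b + 1) l) :
    ev (a + 1 + (b + 1)) (oo (a + 1) (b + 1) F G) = oo (a + 1) b F (ev (b + 1) G) +
      MvPolynomial.C ((-1 : ℝ) ^ (b + 1)) * oo a (b + 1) (ev (a + 1) F) G := by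
  unfold oo
  rw [Qe_succ, LinearMap.add_apply, map_add, Qe_ev _ _ _ (by omega),
    map_mul (ev (a + 1 + (b + 1))), ev_subt _ _ _ k hF,
    ev_shf, mul_assoc, neg_pow_end, map_mul (ev (a + 1 + (b + 1))), alg_C, Module.End.mul_apply,
    Qe_ev _ _ _ (by omega), cy_cyc, map_mul (cy (0 + a + 1) (b + 1)),
    map_mul (ev (a + 1 + (b + 1)))]
  have h1 : 0 + a + 1 = a + 1 := by omega
  rw [h1, ev_cy_subt _ _ _ k hF, ev_cy_shf _ _ _ l hG]

private theorem oo_ev_left (b k l : ℕ) (F G : PA) (hF : F ∈ An 0 k) :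
    ev (b + 1) (oo 0 (b + 1) F G) = oo 0 b F (ev (b + 1) G) := by
  unfold oo
  rw [Qe_zero_left, Qe_zero_left, Module.End.one_apply, Module.End.one_apply, map_mul]
  have h1 := ev_subt 0 b F k hF
  have h2 := ev_shf 0 b G
  rw [Nat.zero_add] at h1 h2
  rw [h1, h2]

private theorem oo_ev_right (a l : ℕ) (F G : PA) (hG : G ∈ An 0 l) :
    ev (a + 1) (oo (a + 1) 0 F G) = oo a 0 (ev (a + 1) F) G := by
  unfold oo
  rw [Qe_zero_right, Qe_zero_right, Module.End.one_apply, Module.End.one_apply, map_mul]
  have hz : ∀ o, zet o 0 = MvPolynomial.X 0 := by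
    intro o
    rw [zet, dl, Finset.sum_range_zero]
    simp
  have hs : ∀ F : PA, subt (MvPolynomial.X 0) F = F := by
    intro F
    have h : subt (MvPolynomial.X 0) = AlgHom.id ℝ PA := by
      refine MvPolynomial.algHom_ext fun i => ?_
      rw [subt_X, AlgHom.id_apply]
      split_ifs with h0
      · rw [h0]
      · rfl
    rw [h, AlgHom.id_apply]
  rw [hz, hz, hs, hs]
  congr 1
  rw [← AlgHom.comp_apply]
  refine alg_eq {j | j ≤ 0} _ _ ?_ G hG.2
  intro j hj
  have hj : j = 0 := Nat.le_zero.mp hj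
  rw [AlgHom.comp_apply, shf_X, shf_X, if_pos hj, if_pos hj, ev_X, if_neg (by omega)]

theorem PP_mu (a k b l : ℕ) (f g : R) (hf : IsH a k f) (hg : IsH b l g) :
    PP (mu f g) = Qe SA 0 a b (subt (zet a b) (PP f) * shf a (PP g)) := by
  change PP (mu f g) = oo a b (PP f) (PP g)
  induction hN : a + k + b + l using Nat.strong_induction_on generalizing a k b l f g with
  | _ N ih =>
  have htau : tau g = (-1 : ℝ) ^ b • g := tau_of_IsH b l g hg
  have hF := PP_mem a k f hf
  have hG := PP_mem b l g hg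
  have hfg := IsH_mu a k b l f g hf hg
  -- the derivative
  have hdf : PP (mu (del false f) g) = oo a b (PP (del false f)) (PP g) := by
    rcases k with _ | k
    · have h0 : del false f = 0 := by
        ext w
        by_contra hw
        have := (IsH_del_false a 0 f hf w hw).2
        omega
      rw [h0, map_zero, LinearMap.zero_apply, map_zero, oo_zero_left]
    · refine ih _ ?_ a k b l (del false f) g ?_ hg rfl
      · omega
      · intro w hw
        obtain ⟨h1, h2⟩ := IsH_del_false a (k + 1) f hf w hw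
        exact ⟨h1, by omega⟩
  have hdg : PP (mu f (del false g)) = oo a b (PP f) (PP (del false g)) := by
    rcases l with _ | l
    · have h0 : del false g = 0 := by
        ext w
        by_contra hw
        have := (IsH_del_false b 0 g hg w hw).2
        omega
      rw [h0, map_zero, map_zero, oo_zero_right]
    · refine ih _ ?_ a k b l f (del false g) hf ?_ rfl
      · omega
      · intro w hw
        obtain ⟨h1, h2⟩ := IsH_del_false b (l + 1) g hg w hw
        exact ⟨h1, by omega⟩
  have hH : PP (mu f g) - oo a b (PP f) (PP g) ∈ An (a + b) (k + l) :=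
    Submodule.sub_mem _ (PP_mem _ _ _ hfg) (oo_mem a b k l _ _ hF hG)
  have hder : MvPolynomial.pderiv 0 (PP (mu f g) - oo a b (PP f) (PP g)) = 0 := by
    rw [map_sub, pderiv_PP, oo_pder, del_mu, htau, map_add, hdg, map_smul, map_smul, hdf,
      pderiv_PP, pderiv_PP, MvPolynomial.smul_eq_C_mul, sub_self]
  -- `u_(a+b) = t`
  have hfin : PP (mu f g) - oo a b (PP f) (PP g) = 0 := by
    rcases a with _ | a
    · have hdf0 : b ≠ 0 ∨ b = 0 := by omega
      rcases b with _ | b
      · rw [Nat.zero_add] at hH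
        by_cases hkl : 1 ≤ k + l
        · exact det_zero _ hkl _ hH hder
        · have hk : k = 0 := by omega
          have hl : l = 0 := by omega
          subst hk hl
          have hone : ∀ q : R, IsH 0 0 q → q = q [] • bw [] := by
            intro q hq
            ext w
            rw [Finsupp.smul_apply, bw]
            by_cases hw : w = []
            · rw [hw, Finsupp.single_eq_same, smul_eq_mul, mul_one]
            · rw [Finsupp.single_eq_of_ne hw, smul_zero]
              by_contra hqw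
              obtain ⟨h1, h2⟩ := hq w hqw
              rcases w with _ | ⟨c, w⟩
              · exact hw rfl
              · cases c
                · simp [nz] at h2
                · simp [np] at h1
          have hP1 : PP (bw []) = 1 := by rw [PP_bw, P]
          have e1 : ∀ c d : ℝ, mu (c • bw []) (d • bw []) = (c * d) • bw [] := by
            intro c d
            rw [map_smul mu, LinearMap.smul_apply, map_smul, nil_mu, smul_smul]
          have e2 : ∀ c : ℝ, PP (c • bw []) = MvPolynomial.C c := by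
            intro c
            rw [map_smul, hP1, MvPolynomial.smul_eq_C_mul, mul_one]
          rw [hone f hf, hone g hg, e1, e2, e2, e2]
          unfold oo
          rw [Qe_zero_left, Module.End.one_apply, alg_C, alg_C, map_mul, sub_self]
      · have hd0 : del true f = 0 := by
          ext w
          by_contra hw
          have := (IsH_del_true 0 k f hf w hw).1
          omega
        have hdt : PP (mu f (del true g)) = oo 0 b (PP f) (PP (del true g)) := by
          refine ih _ ?_ 0 k b l f (del true g) hf ?_ rfl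
          · omega
          · intro w hw
            obtain ⟨h1, h2⟩ := IsH_del_true (b + 1) l g hg w hw
            exact ⟨by omega, h2⟩
        rw [Nat.zero_add] at hH hfg
        refine det_pos b (k + l) _ hH hder ?_
        rw [map_sub, ev_PP b (k + l) _ hfg, oo_ev_left b k l _ _ hF, del_mu, hd0, map_zero,
          LinearMap.zero_apply, add_zero, hdt, ev_PP b l g hg, sub_self]
    · rcases b with _ | b
      · have hd0 : del true g = 0 := by
          ext w
          by_contra hw
          have := (IsH_del_true 0 l g hg w hw).1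
          omega
        have hdt : PP (mu (del true f) g) = oo a 0 (PP (del true f)) (PP g) := by
          refine ih _ ?_ a k 0 l (del true f) g ?_ hg rfl
          · omega
          · intro w hw
            obtain ⟨h1, h2⟩ := IsH_del_true (a + 1) k f hf w hw
            exact ⟨by omega, h2⟩
        rw [Nat.add_zero] at hH hfg
        refine det_pos a (k + l) _ hH hder ?_
        rw [map_sub, ev_PP a (k + l) _ hfg, oo_ev_right a l _ _ hG, del_mu, hd0, map_zero,
          zero_add, htau, pow_zero, one_smul, hdt, ev_PP a k f hf, sub_self]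
      · have hdt1 : PP (mu f (del true g)) = oo (a + 1) b (PP f) (PP (del true g)) := by
          refine ih _ ?_ (a + 1) k b l f (del true g) hf ?_ rfl
          · omega
          · intro w hw
            obtain ⟨h1, h2⟩ := IsH_del_true (b + 1) l g hg w hw
            exact ⟨by omega, h2⟩
        have hdt2 : PP (mu (del true f) g) = oo a (b + 1) (PP (del true f)) (PP g) := by
          refine ih _ ?_ a k (b + 1) l (del true f) g ?_ hg rfl
          · omega
          · intro w hw
            obtain ⟨h1, h2⟩ := IsH_del_true (a + 1) k f hf w hw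
            exact ⟨by omega, h2⟩
        have e1 : a + 1 + (b + 1) = a + b + 1 + 1 := by omega
        have hfg' : IsH (a + b + 1 + 1) (k + l) (mu f g) := by
          rw [← e1]
          exact hfg
        have hH' : PP (mu f g) - oo (a + 1) (b + 1) (PP f) (PP g) ∈ An (a + b + 1 + 1) (k + l) := by
          rw [← e1]
          exact hH
        refine det_pos (a + b + 1) (k + l) _ hH' hder ?_
        have h2 := oo_ev a b k l _ _ hF hG
        rw [e1] at h2
        rw [map_sub, ev_PP (a + b + 1) (k + l) _ hfg', h2, del_mu, htau, map_add, hdt1, map_smul,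
          map_smul, hdt2, ev_PP a k f hf, ev_PP b l g hg, MvPolynomial.smul_eq_C_mul, sub_self]
  exact sub_eq_zero.mp hfin

private theorem subt_Bn (q : PA) (n k : ℕ) (F : PA) (hF : F ∈ Bn n k) : subt q F = F := by
  refine alg_eq {i | 1 ≤ i ∧ i ≤ n} (subt q) (AlgHom.id ℝ PA) ?_ F hF.2
  intro i hi
  have hi : 1 ≤ i ∧ i ≤ n := hi
  rw [subt_X, if_neg (by omega), AlgHom.id_apply]

private theorem shf_zero (F : PA) : shf 0 F = F := by
  have h : shf 0 = AlgHom.id ℝ PA := by
    refine MvPolynomial.algHom_ext fun i => ?_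
    rw [shf_X, AlgHom.id_apply]
    split_ifs with h0
    · rw [h0]
    · rfl
  rw [h, AlgHom.id_apply]

/-- blocks: no `t` in the left factor -/
theorem PP_mu_block (a k b l : ℕ) (f g : R) (hf : IsH a k f) (hg : IsH b l g) :
    PP (mu (app true f) (app true g)) =
      Qe SA 0 (a + 1) (b + 1) (PP (app true f) * shf (a + 1) (PP (app true g))) := by
  rw [PP_mu (a + 1) k (b + 1) l _ _ (IsH_app_true a k f hf) (IsH_app_true b l g hg),
    subt_Bn _ _ _ _ (PP_app_mem a k f hf)]

/-- right multiplication by `z` is multiplication by `t` -/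
theorem PP_mu_z (f : R) : PP (mu f (bw [false])) = MvPolynomial.X 0 * PP f := by
  have hz : ∀ v : Wd, PP (mu (bw v) (bw [false])) = MvPolynomial.X 0 * PP (bw v) := by
    intro v
    have hg : IsH 0 1 (bw [false]) := IsH_bw [false]
    rw [PP_mu (np v) (nz v) 0 1 _ _ (IsH_bw v) hg, Qe_zero_right, Module.End.one_apply,
      PP_bw [false], P_z, shf_X, if_pos rfl]
    have h1 : zet (np v) 0 = MvPolynomial.X 0 := by
      rw [zet, dl, Finset.sum_range_zero]
      simp
    have h2 : subt (MvPolynomial.X 0) (PP (bw v)) = PP (bw v) := by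
      have h : subt (MvPolynomial.X 0) = AlgHom.id ℝ PA := by
        refine MvPolynomial.algHom_ext fun i => ?_
        rw [subt_X, AlgHom.id_apply]
        split_ifs with h0
        · rw [h0]
        · rfl
      rw [h, AlgHom.id_apply]
    rw [h1, h2, mul_comm]
  have hlin : PP.comp (mu.flip (bw [false])) =
      (LinearMap.mulLeft ℝ (MvPolynomial.X 0 : PA)).comp PP := by
    refine Finsupp.lhom_ext fun v c => ?_
    have h1 : (single v c : R) = c • bw v := by
      rw [bw, Finsupp.smul_single, smul_eq_mul, mul_one]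
    rw [h1, map_smul, map_smul, LinearMap.comp_apply, LinearMap.comp_apply, LinearMap.flip_apply,
      hz, LinearMap.mulLeft_apply]
  exact LinearMap.congr_fun hlin f

/-- left multiplication by `z` is multiplication by `ζ_n` -/
theorem PP_z_mu (n k : ℕ) (f : R) (hf : IsH n k f) :
    PP (mu (bw [false]) f) = zet 0 n * PP f := by
  have hg : IsH 0 1 (bw [false]) := IsH_bw [false]
  rw [PP_mu 0 1 n k _ _ hg hf, Qe_zero_left, Module.End.one_apply, PP_bw [false], P_z, subt_X,
    if_pos rfl, shf_zero]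

/-- `U` is multiplication by `2 δ_n` -/
theorem PP_ub (w : Wd) : PP (app true (ub w)) = 2 * dl 0 (np w + 1) * P (true :: w) := by
  have hw : IsH (np w + 1) (nz w) (bw (true :: w)) := by
    have h1 := IsH_bw (true :: w)
    have h2 : np (true :: w) = np w + 1 := by simp [np]
    have h3 : nz (true :: w) = nz w := by simp [nz]
    rw [h2, h3] at h1
    exact h1
  rw [app_ub, map_add, map_smul, PP_z_mu _ _ _ hw, PP_mu_z, PP_bw, zet, sg,
    MvPolynomial.smul_eq_C_mul]
  have h : (MvPolynomial.C ((-1 : ℝ) ^ (np w + 1)) : PA) = - MvPolynomial.C ((-1 : ℝ) ^ np w) := by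
    rw [pow_succ, mul_neg_one, map_neg]
  rw [h]
  ring

end BrV
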