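import Pool.Agent.Lib.BrV.LCb

/-!
# BrV.LAct: `CW` is a left module over `R` (paper 3, (1.4))

* `act_mul`: `CW_ind` on `y` (for all `f g`).  `y = single [] 1`: `act_nil`, `mu_nil`.  `y = cb (bw u) y'`: with large ranges
  `act g y = ∑_j cb (gc_j (g*u)) (p^j y')`, `act f (act g y) = ∑_j ∑_i cb (gc_i (f * gc_j (g*u))) (p^i (p^j y'))` and by the induction hypothesis for `y'` and `pow_mul`
  `p^i (p^j y') = cc i j • p^(i+j) y'`.  On the other side `act (f*g) y = ∑_m cb (gc_m (f*(g*u))) (p^m y')` (`mu_assoc`) and `gc_mu`: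
  `gc_m (f*(g*u)) = ∑_{j ≤ m} cc (m-j) j • gc_(m-j) (f * gc_j (g*u))`.  Reorder the sum (`i = m - j`; all terms with large indices vanish).
* `act_pw`: `act_mul`, `pow_mul`.
-/

namespace BrV

open Finsupp

private theorem lact_reorder (L M N : ℕ) (T : ℕ → ℕ → CW) (hN : ∀ i j, N ≤ j → T i j = 0)
    (hM : ∀ i j, j < N → M ≤ i → T i j = 0) (hL : N + M ≤ L) :
    ∑ m ∈ Finset.range L, ∑ j ∈ Finset.range (m + 1), T (m - j) j =
      ∑ j ∈ Finset.range N, ∑ i ∈ Finset.range M, T i j := by
  have h1 : ∑ m ∈ Finset.range L, ∑ j ∈ Finset.range (m + 1), T (m - j) j =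
      ∑ j ∈ Finset.range L, ∑ m ∈ Finset.Ico j L, T (m - j) j := by
    refine Finset.sum_comm' ?_
    intro m j
    simp only [Finset.mem_range, Finset.mem_Ico]
    omega
  have h2 : ∀ j, ∑ m ∈ Finset.Ico j L, T (m - j) j = ∑ i ∈ Finset.range (L - j), T i j := by
    intro j
    rw [Finset.sum_Ico_eq_sum_range]
    refine Finset.sum_congr rfl fun i _ => ?_
    rw [Nat.add_sub_cancel_left]
  rw [h1]
  have h3 : Finset.range N ⊆ Finset.range L := Finset.range_subset_range.2 (by omega)
  rw [← Finset.sum_subset h3]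
  · refine Finset.sum_congr rfl fun j hj => ?_
    rw [Finset.mem_range] at hj
    rw [h2]
    have h4 : Finset.range M ⊆ Finset.range (L - j) := Finset.range_subset_range.2 (by omega)
    rw [← Finset.sum_subset h4]
    intro i _ hi
    rw [Finset.mem_range, not_lt] at hi
    exact hM i j hj hi
  · intro j _ hj
    rw [Finset.mem_range, not_lt] at hj
    rw [h2]
    exact Finset.sum_eq_zero fun i _ => hN i j hj

theorem act_mul (f g : R) (y : CW) : act (mu f g) y = act f (act g y) := by
  refine CW_ind (fun y => ∀ f g : R, act (mu f g) y = act f (act g y)) ?_ ?_ ?_ ?_ ?_ y f g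
  · intro f g
    rw [map_zero, map_zero, map_zero]
  · intro x y hx hy f g
    rw [map_add, map_add, map_add, hx, hy]
  · intro a x hx f g
    rw [map_smul, map_smul, map_smul, hx]
  · intro f g
    rw [act_nil, act_nil, mu_nil, map_smul, act_nil, smul_smul, mul_comm]
  · intro u y ih f g
    obtain ⟨N, hN⟩ := gc_bound (mu g (bw u))
    have hM' : ∀ j, ∃ M, ∀ i, M ≤ i → gc i (mu f (gc j (mu g (bw u)))) = 0 := fun j =>
      gc_bound _
    choose M' hM' using hM'
    obtain ⟨L', hL'⟩ := gc_bound (mu f (mu g (bw u)))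
    set M := (Finset.range N).sup M' with hMdef
    have hM : ∀ i j, j < N → M ≤ i → gc i (mu f (gc j (mu g (bw u)))) = 0 := by
      intro i j hj hi
      exact hM' j i ((Finset.le_sup (f := M') (Finset.mem_range.2 hj)).trans hi)
    set L := L' + (N + M) with hLdef
    have hL : ∀ m, L ≤ m → gc m (mu f (mu g (bw u))) = 0 := fun m hm => hL' m (by omega)
    have hpw : ∀ i j, act (bw (pw i)) (act (bw (pw j)) y) = cc i j • act (bw (pw (i + j))) y := by
      intro i j
      rw [← ih, pow_mul, map_smul, LinearMap.smul_apply]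
    have e1 : act (mu f g) (cb (bw u) y) = ∑ m ∈ Finset.range L,
        cb (gc m (mu f (mu g (bw u)))) (act (bw (pw m)) y) := by
      rw [act_cb (mu f g) (bw u) y L (by
        intro m hm
        rw [mu_assoc]
        exact hL m hm)]
      refine Finset.sum_congr rfl fun m _ => ?_
      rw [mu_assoc]
    have e2 : act f (act g (cb (bw u) y)) = ∑ j ∈ Finset.range N, ∑ i ∈ Finset.range M,
        cc i j • cb (gc i (mu f (gc j (mu g (bw u))))) (act (bw (pw (i + j))) y) := by
      rw [act_cb g (bw u) y N hN, map_sum]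
      refine Finset.sum_congr rfl fun j hj => ?_
      rw [Finset.mem_range] at hj
      rw [act_cb f _ _ M (fun i hi => hM i j hj hi)]
      refine Finset.sum_congr rfl fun i _ => ?_
      rw [hpw, map_smul]
    rw [e1, e2, ← lact_reorder L M N
      (fun i j => cc i j • cb (gc i (mu f (gc j (mu g (bw u))))) (act (bw (pw (i + j))) y))]
    · refine Finset.sum_congr rfl fun m _ => ?_
      rw [gc_mu, map_sum, LinearMap.sum_apply]
      refine Finset.sum_congr rfl fun j hj => ?_
      rw [Finset.mem_range] at hj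
      have h5 : m - j + j = m := by omega
      rw [map_smul, LinearMap.smul_apply, h5]
    · intro i j hj
      rw [hN j hj, map_zero, map_zero, map_zero, LinearMap.zero_apply, smul_zero]
    · intro i j hj hi
      rw [hM i j hj hi, map_zero, LinearMap.zero_apply, smul_zero]
    · omega

theorem act_pw (a b : ℕ) (y : CW) :
    act (bw (pw a)) (act (bw (pw b)) y) = cc a b • act (bw (pw (a + b))) y := by
  rw [← act_mul, pow_mul, map_smul, LinearMap.smul_apply]

end BrV
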