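import Pool.Agent.Lib.BrV.LKer
import Pool.Agent.Lib.BrV.LHom

/-!
# BrV.LBzX: `bz F = 0` in coordinates (paper 3, (5.3))

`F` is a combination of the lists `xl a`, `a : List ℕ` of length `k` (a word ending in `z` with `nz = 1` is `xw a`; `k` words ending in `z` with total `nz = k` have `nz = 1` each).
* `xl_of`: this remark.
* `bz_xl`: `bz0 (xl a) = ∑_i (-1)^i (x_(a_0), .., x_(a_i) * x_(a_(i+1)), ..)` (for `a` of length `≥ 2`; the last step `bz0 [w] = 0` for `w ≠ []`).  A list with `nzW = k` and `k - 1` words ending in `z` has exactly one word `w` with `nz w = 2`; its position tells `i`: the coefficient of `bz F` at `xl p ++ w :: xl s` (`nz w = 2`, `p.length + s.length + 2 = k`) is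
  `(-1)^(p.length) ∑_{a,b} F (xl (p ++ a :: b :: s)) * (sh x_a x_b) w`, and only `a + b = np w` contributes.  So `bz F = 0` iff for all `p, s, M`: `∑_{a ≤ M} F (xl (p ++ a :: (M-a) :: s)) • x_a * x_(M-a) = 0`, and `ker2`.
  For a proof by induction: `bz (∑ ...)`; a convenient form: for `p` of length `i`, `bz (cb (x_(a_0)) (... )) = ...` by `bz_cb_cb`.
-/

namespace BrV

open Finsupp

private lemma lbzx_np_xw (a : ℕ) : np (xw a) = a := by
  simp [np, xw, pw]

private lemma lbzx_nz_xw (a : ℕ) : nz (xw a) = 1 := by
  simp [nz, xw, pw, List.count_replicate]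

private lemma lbzx_xw_inj {a b : ℕ} (h : xw a = xw b) : a = b := by
  have h1 := congrArg np h
  rwa [lbzx_np_xw, lbzx_np_xw] at h1

private lemma lbzx_eq_xw (w : Wd) (h1 : Zw w) (h2 : nz w = 1) : w = xw (np w) := by
  cases w with
  | nil => simp [Zw] at h1
  | cons b w =>
    have hb : b = false := by simpa [Zw] using h1
    subst hb
    have h3 : nz w = 0 := by
      have : nz (false :: w) = nz w + 1 := by simp [nz]
      omega
    have h4 : w = List.replicate w.length true := by
      rw [List.eq_replicate_iff]
      refine ⟨rfl, fun c hc => ?_⟩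
      by_contra hne
      have hcf : c = false := by simpa using hne
      subst hcf
      have : 0 < w.count false := List.count_pos_iff.2 hc
      unfold nz at h3
      omega
    have h5 : np (false :: w) = w.length := by
      have e : np (false :: w) = w.count true := by simp [np]
      rw [e]
      conv_lhs => rw [h4]
      simp
    rw [h5, xw, pw, ← h4]

theorem xl_of (k : ℕ) (q : LW) (h1 : q.length = k) (h2 : ∀ w ∈ q, Zw w) (h3 : nzW q = k) :
    ∃ a : List ℕ, a.length = k ∧ a.sum = npW q ∧ q = xl a := by
  have hz : ∀ w : Wd, Zw w → 1 ≤ nz w := by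
    intro w hw
    cases w with
    | nil => simp [Zw] at hw
    | cons b w =>
      have hb : b = false := by simpa [Zw] using hw
      subst hb
      simp [nz]
  have hle : ∀ q : LW, (∀ w ∈ q, Zw w) → q.length ≤ nzW q := by
    intro q
    induction q with
    | nil => intro _; simp [nzW]
    | cons w q ih =>
      intro h
      have a1 := ih fun v hv => h v (List.mem_cons_of_mem _ hv)
      have a2 := hz w (h w List.mem_cons_self)
      have a3 : nzW (w :: q) = nz w + nzW q := by simp [nzW]
      rw [a3, List.length_cons]
      omega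
  induction q generalizing k with
  | nil =>
    refine ⟨[], ?_, ?_, ?_⟩
    · simpa using h1
    · simp [npW]
    · simp [xl]
  | cons w q ih =>
    rw [List.length_cons] at h1
    have a3 : nzW (w :: q) = nz w + nzW q := by simp [nzW]
    have a4 : npW (w :: q) = np w + npW q := by simp [npW]
    have a1 := hle q fun v hv => h2 v (List.mem_cons_of_mem _ hv)
    have a2 := hz w (h2 w List.mem_cons_self)
    rw [a3] at h3
    obtain ⟨a, b1, b2, b3⟩ := ih (k - 1) (by omega)
      (fun v hv => h2 v (List.mem_cons_of_mem _ hv)) (by omega)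
    refine ⟨np w :: a, ?_, ?_, ?_⟩
    · rw [List.length_cons]
      omega
    · rw [List.sum_cons, b2, a4]
    · rw [xl, List.map_cons, ← lbzx_eq_xw w (h2 w List.mem_cons_self) (by omega), b3, xl]

private lemma lbzx_bz_single (l : LW) (a : ℝ) : bz (single l a) = a • bz0 l := by
  unfold bz
  rw [Finsupp.lift_apply, Finsupp.sum_single_index]
  exact zero_smul _ _

private lemma lbzx_ext {M : Type*} [AddCommGroup M] [Module ℝ M] (L1 L2 : CW →ₗ[ℝ] M) (F : CW)
    (h : ∀ l, F l ≠ 0 → L1 (single l 1) = L2 (single l 1)) : L1 F = L2 F := by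
  have e : F = ∑ l ∈ F.support, F l • (single l (1 : ℝ) : CW) := by
    conv_lhs => rw [← Finsupp.sum_single F]
    rw [Finsupp.sum]
    refine Finset.sum_congr rfl fun l _ => ?_
    rw [Finsupp.smul_single, smul_eq_mul, mul_one]
  rw [e, map_sum, map_sum]
  refine Finset.sum_congr rfl fun l hl => ?_
  rw [map_smul, map_smul, h l (Finsupp.mem_support_iff.1 hl)]

private def lbzx_sup (k : ℕ) (F : CW) : Prop := ∀ q, F q ≠ 0 → ∃ a : List ℕ, a.length = k ∧ q = xl a

private noncomputable def lbzx_dl (u : Wd) : CW →ₗ[ℝ] CW :=
  lcomapDomain (List.cons u) List.cons_injective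

private lemma lbzx_dl_apply (u : Wd) (F : CW) (q : LW) : lbzx_dl u F q = F (u :: q) := rfl

private lemma lbzx_dl_single (u w : Wd) (l : LW) (a : ℝ) :
    lbzx_dl u (single (w :: l) a) = if w = u then single l a else 0 := by
  ext q
  rw [lbzx_dl_apply]
  split_ifs with h
  · subst h
    rw [Finsupp.single_apply, Finsupp.single_apply]
    by_cases h2 : l = q
    · rw [if_pos (by rw [h2]), if_pos h2]
    · rw [if_neg (fun h3 => h2 (List.cons.inj h3).2), if_neg h2]
  · rw [Finsupp.single_eq_of_ne' (fun h3 => h (List.cons.inj h3).1), Finsupp.zero_apply]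

private lemma lbzx_sh_supp (v w x : Wd) (h : sh v w x ≠ 0) :
    np x = np v + np w ∧ nz x = nz v + nz w := by
  have h1 := IsH_mu (np v) (nz v) (np w) (nz w) (bw v) (bw w) (IsH_bw v) (IsH_bw w)
  rw [mu_bw] at h1
  exact h1 x h

private lemma lbzx_xl_cons (a : ℕ) (s : List ℕ) : xl (a :: s) = xw a :: xl s := rfl

private lemma lbzx_bz0 (w v : Wd) (l : LW) : bz0 (w :: v :: l) = cl (sh w v) l - cns w (bz0 (v :: l)) :=
  rfl

private lemma lbzx_form (k : ℕ) (F : CW) (hF : lbzx_sup (k + 2) F) (u : Wd) (q : LW) :
    bz F (u :: q) = (∑ a ∈ Finset.range (np u + 1),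
      sh (xw a) (xw (np u - a)) u * F (xw a :: xw (np u - a) :: q)) - bz (lbzx_dl u F) q := by
  have key := lbzx_ext ((Finsupp.lapply (u :: q)).comp bz)
    ((∑ a ∈ Finset.range (np u + 1), sh (xw a) (xw (np u - a)) u •
      (Finsupp.lapply (xw a :: xw (np u - a) :: q) : CW →ₗ[ℝ] ℝ)) -
      (Finsupp.lapply q).comp (bz.comp (lbzx_dl u))) F ?_
  · simpa [LinearMap.sum_apply] using key
  · intro l hl
    obtain ⟨t, ht1, ht2⟩ := hF l hl
    obtain ⟨a', b', s, rfl⟩ : ∃ a' b' s, t = a' :: b' :: s := by
      match t, ht1 with
      | a' :: b' :: s, _ => exact ⟨a', b', s, rfl⟩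
    rw [ht2, lbzx_xl_cons, lbzx_xl_cons]
    simp only [LinearMap.comp_apply, Finsupp.lapply_apply, LinearMap.sub_apply,
      LinearMap.sum_apply, LinearMap.smul_apply, smul_eq_mul]
    rw [lbzx_bz_single, one_smul, lbzx_bz0, Finsupp.sub_apply, cl_apply, cns_apply,
      lbzx_dl_single]
    congr 1
    · by_cases hq : q = xl s
      · rw [if_pos hq]
        by_cases hM : a' + b' = np u
        · rw [Finset.sum_eq_single a']
          · have e : np u - a' = b' := by omega
            rw [e, hq, Finsupp.single_eq_same, mul_one]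
          · intro a _ hne
            rw [Finsupp.single_eq_of_ne', mul_zero]
            intro h3
            exact hne (lbzx_xw_inj (List.cons.inj h3).1).symm
          · intro h3
            exact absurd (Finset.mem_range.2 (by omega)) h3
        · have h0 : sh (xw a') (xw b') u = 0 := by
            by_contra hne
            have h3 := (lbzx_sh_supp _ _ _ hne).1
            rw [lbzx_np_xw, lbzx_np_xw] at h3
            exact hM h3.symm
          rw [h0, Finset.sum_eq_zero]
          intro a ha
          rw [Finset.mem_range] at ha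
          rw [Finsupp.single_eq_of_ne', mul_zero]
          intro h3
          have e1 := lbzx_xw_inj (List.cons.inj h3).1
          have e2 := lbzx_xw_inj (List.cons.inj (List.cons.inj h3).2).1
          omega
      · rw [if_neg hq, Finset.sum_eq_zero]
        intro a ha
        rw [Finsupp.single_eq_of_ne', mul_zero]
        intro h3
        exact hq (List.cons.inj (List.cons.inj h3).2).2.symm
    · split_ifs with h
      · rw [lbzx_bz_single, one_smul]
      · rw [map_zero, Finsupp.zero_apply]

private lemma lbzx_dl_zero {k : ℕ} {F : CW} (hF : lbzx_sup k F) {u : Wd}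
    (hu : ¬ ∃ a, u = xw a) : lbzx_dl u F = 0 := by
  ext q
  rw [lbzx_dl_apply, Finsupp.zero_apply]
  by_contra hne
  obtain ⟨t, _, ht⟩ := hF _ hne
  cases t with
  | nil => exact absurd ht (List.cons_ne_nil _ _)
  | cons a t => exact hu ⟨a, (List.cons.inj ht).1⟩

private lemma lbzx_dl_sup {k : ℕ} {F : CW} (hF : lbzx_sup (k + 1) F) (u : Wd) :
    lbzx_sup k (lbzx_dl u F) := by
  intro q hq
  rw [lbzx_dl_apply] at hq
  obtain ⟨t, ht1, ht2⟩ := hF _ hq
  cases t with
  | nil => exact absurd ht2 (List.cons_ne_nil _ _)
  | cons a t =>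
    refine ⟨t, ?_, (List.cons.inj ht2).2⟩
    rw [List.length_cons] at ht1
    omega

private lemma lbzx_zero_of (F : CW) (h : ∀ l, F l ≠ 0 → bz0 l = 0) : bz F = 0 := by
  have := lbzx_ext bz 0 F (by
    intro l hl
    rw [lbzx_bz_single, h l hl, smul_zero, LinearMap.zero_apply])
  rw [this, LinearMap.zero_apply]

private lemma lbzx_sum_zero (F : CW) (u : Wd) (q : LW) (hu : nz u ≠ 2) :
    ∑ a ∈ Finset.range (np u + 1),
      sh (xw a) (xw (np u - a)) u * F (xw a :: xw (np u - a) :: q) = 0 := by
  refine Finset.sum_eq_zero fun a _ => ?_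
  have h0 : sh (xw a) (xw (np u - a)) u = 0 := by
    by_contra hne
    have h3 := (lbzx_sh_supp _ _ _ hne).2
    rw [lbzx_nz_xw, lbzx_nz_xw] at h3
    exact hu h3
  rw [h0, zero_mul]

private theorem lbzx_main (k : ℕ) : ∀ F : CW, lbzx_sup k F → (bz F = 0 ↔
    ∀ p s : List ℕ, p.length + s.length + 2 = k →
      ∀ M, C2 M fun a b => F (xl (p ++ a :: b :: s))) := by
  induction k with
  | zero =>
    intro F hF
    refine ⟨fun _ p s h => by omega, fun _ => lbzx_zero_of F fun l hl => ?_⟩
    obtain ⟨t, ht1, rfl⟩ := hF l hl
    rw [List.length_eq_zero_iff.1 ht1]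
    rfl
  | succ k ih =>
    intro F hF
    cases k with
    | zero =>
      refine ⟨fun _ p s h => by omega, fun _ => lbzx_zero_of F fun l hl => ?_⟩
      obtain ⟨t, ht1, rfl⟩ := hF l hl
      obtain ⟨a, rfl⟩ := List.length_eq_one_iff.1 ht1
      show (if xw a = [] then (single [] 1 : CW) else 0) = 0
      rw [if_neg (by simp [xw])]
    | succ k =>
      constructor
      · intro h p s hlen M
        cases p with
        | nil =>
          refine (ker2 M _).1 ?_
          ext u
          rw [Finsupp.finsetSum_apply, Finsupp.zero_apply]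
          by_cases hu : np u = M ∧ nz u = 2
          · have h1 := lbzx_form k F hF u (xl s)
            rw [h, Finsupp.zero_apply, lbzx_dl_zero hF (by
              rintro ⟨a, rfl⟩
              rw [lbzx_nz_xw] at hu
              omega), map_zero, Finsupp.zero_apply, sub_zero, hu.1] at h1
            rw [h1]
            refine Finset.sum_congr rfl fun a _ => ?_
            rw [mu_bw, Finsupp.smul_apply, smul_eq_mul, mul_comm]
            rfl
          · refine Finset.sum_eq_zero fun a ha => ?_
            rw [Finset.mem_range] at ha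
            rw [mu_bw, Finsupp.smul_apply, smul_eq_mul]
            have h0 : sh (xw a) (xw (M - a)) u = 0 := by
              by_contra hne
              have h3 := lbzx_sh_supp _ _ _ hne
              rw [lbzx_nz_xw, lbzx_nz_xw, lbzx_np_xw, lbzx_np_xw] at h3
              exact hu ⟨by omega, by omega⟩
            rw [h0, mul_zero]
        | cons a p =>
          have h2 : bz (lbzx_dl (xw a) F) = 0 := by
            ext q
            have h1 := lbzx_form k F hF (xw a) q
            rw [h, Finsupp.zero_apply, lbzx_sum_zero F (xw a) q (by rw [lbzx_nz_xw]; omega),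
              zero_sub] at h1
            rw [Finsupp.zero_apply]
            linarith
          have h3 := (ih (lbzx_dl (xw a) F) (lbzx_dl_sup hF _)).1 h2 p s (by
            rw [List.length_cons] at hlen
            omega) M
          exact h3
      · intro h
        ext l
        rw [Finsupp.zero_apply]
        cases l with
        | nil =>
          have := lbzx_ext ((Finsupp.lapply []).comp bz) 0 F (by
            intro l hl
            obtain ⟨t, ht1, ht2⟩ := hF l hl
            obtain ⟨a', b', s, rfl⟩ : ∃ a' b' s, t = a' :: b' :: s := by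
              match t, ht1 with
              | a' :: b' :: s, _ => exact ⟨a', b', s, rfl⟩
            rw [ht2, lbzx_xl_cons, lbzx_xl_cons, LinearMap.comp_apply, lbzx_bz_single, one_smul,
              lbzx_bz0, Finsupp.lapply_apply, Finsupp.sub_apply, cl_nil, cns_nil, sub_zero,
              LinearMap.zero_apply])
          simpa using this
        | cons u q =>
          rw [lbzx_form k F hF u q]
          by_cases hu : ∃ a, u = xw a
          · obtain ⟨a, rfl⟩ := hu
            rw [lbzx_sum_zero F (xw a) q (by rw [lbzx_nz_xw]; omega)]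
            have h2 : bz (lbzx_dl (xw a) F) = 0 := by
              refine (ih (lbzx_dl (xw a) F) (lbzx_dl_sup hF _)).2 fun p s hlen M => ?_
              exact h (a :: p) s (by rw [List.length_cons]; omega) M
            rw [h2, Finsupp.zero_apply, sub_zero]
          · rw [lbzx_dl_zero hF hu, map_zero, Finsupp.zero_apply, sub_zero]
            by_cases hq : ∃ s : List ℕ, s.length = k ∧ q = xl s
            · obtain ⟨s, hs1, rfl⟩ := hq
              have h1 := (ker2 (np u) _).2 (h [] s (by simp [hs1]) (np u))
              have h2 := DFunLike.congr_fun h1 u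
              rw [Finsupp.finsetSum_apply, Finsupp.zero_apply] at h2
              rw [← h2]
              refine Finset.sum_congr rfl fun a _ => ?_
              rw [mu_bw, Finsupp.smul_apply, smul_eq_mul, mul_comm]
              rfl
            · refine Finset.sum_eq_zero fun a _ => ?_
              have h0 : F (xw a :: xw (np u - a) :: q) = 0 := by
                by_contra hne
                obtain ⟨t, ht1, ht2⟩ := hF _ hne
                obtain ⟨a', b', s, rfl⟩ : ∃ a' b' s, t = a' :: b' :: s := by
                  match t, ht1 with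
                  | a' :: b' :: s, _ => exact ⟨a', b', s, rfl⟩
                refine hq ⟨s, ?_, (List.cons.inj (List.cons.inj ht2).2).2⟩
                simp only [List.length_cons] at ht1
                omega
              rw [h0, mul_zero]

theorem bz_xl (k : ℕ) (F : CW) (hT : F ∈ TT k) (hk : ∀ q, F q ≠ 0 → nzW q = k) : bz F = 0 ↔
    ∀ p s : List ℕ, p.length + s.length + 2 = k →
      ∀ M, C2 M fun a b => F (xl (p ++ a :: b :: s)) := by
  refine lbzx_main k F fun q hq => ?_
  have h1 : q ∈ {q : LW | q.length = k ∧ ∀ w ∈ q, Zw w} :=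
    (Finsupp.mem_supported ℝ F).1 hT (Finset.mem_coe.2 (Finsupp.mem_support_iff.2 hq))
  obtain ⟨a, h2, _, h3⟩ := xl_of k q h1.1 h1.2 (hk q hq)
  exact ⟨a, h2, h3⟩

end BrV
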