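import Pool.Agent.Lib.BrV.LExP
import Pool.Agent.Lib.BrV.LBzX

/-!
# BrV.LActX: `p` and `p^2` on the lists `xl a` (paper 3, (5.6))

* `act_p_xl`: `act_p_cb` with `g = bw (xw m)`: `gc 0 (mu (bw [true]) (bw (xw m))) = gp (..) = (if Even m then 2 else 0) • bw (xw (m+1))` (`p_x` of `SProj`: the difference is in `F 1`; `gp_of_mem`, `gp_eq_zero`), `tau (bw (xw m)) = (-1)^m • bw (xw m)`, `act_one`.
* `act_pp_xl`: `act_cb` with `N = 3`: `gc_0 (p^2*x_m) = 0` (`pa_x`), `d_p (p^2 * x_m) = (-1)^m p*x_m` (`del_mu`), so `gc_1 = (-1)^m gp (p*x_m) = (if Even m then 2 else 0) • x_(m+1)`, `d_p^2 (p^2*x_m) = (-1)^m d_p (p*x_m) = x_m`, so `gc_2 = x_m`, `gc_j = 0` for `j ≥ 3`.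
* `act_p_odd`: all entries odd: induction.  `act_pp_one`: `ev2 a ≤ 1`: induction: first entry even: the others are odd, `act_p_odd` and the induction hypothesis (`ev2 = 0`).
* `act_p_SPe`: for `α : List ℕ`: `act p (SPe α) = (if Odd α.length then 2 else 0) • xl (α.map (2·+1))`: induction: `act p (SPe (a :: α)) = 2 xl (odd list of a :: α) + 0 - cns (x_(2a+1)) (act p (SPe α))` (`act_p_odd` for the tail).
* `act_pp_SPe`: all lists of `SPe α` have `ev2 = 1`.
* `SPe_apply`: `SPe α (xl a) = 1` if `a.map (· / 2) = α` and `ev2 a = 1`, else `0`: induction (`xl`, `xw` injective).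
-/

namespace BrV

open Finsupp

private theorem lactx_xw_mem (m : ℕ) : bw (xw m) ∈ G' := by
  have h : bw (xw m) = app false (bw (pw m)) := (app_bw _ _).symm
  rw [h]
  exact LinearMap.mem_ker.2 (del_app_ne true false (by decide) _)

private theorem lactx_tau (m : ℕ) : tau (bw (xw m)) = (-1 : ℝ) ^ m • bw (xw m) := by
  ext v
  rw [tau_apply, Finsupp.smul_apply, smul_eq_mul]
  by_cases h : v = xw m
  · rw [h]
    congr 1
    simp [sg, np, xw, pw]
  · have : (bw (xw m) : R) v = 0 := by
      unfold bw
      exact Finsupp.single_eq_of_ne h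
    rw [this, mul_zero, mul_zero]

private theorem lactx_gp (m : ℕ) : gp (mu (bw [true]) (bw (xw m))) =
    (if Even m then (2 : ℝ) else 0) • bw (xw (m + 1)) := by
  have h1 := (gp_eq_zero _).2 (p_x m)
  rw [map_sub, map_smul, gp_of_mem _ (lactx_xw_mem _), sub_eq_zero] at h1
  exact h1

private theorem lactx_del_xw (m : ℕ) : del true (bw (xw m)) = 0 :=
  LinearMap.mem_ker.1 (lactx_xw_mem m)

private theorem lactx_p (m : ℕ) (y : CW) : act (bw [true]) (cns (xw m) y) =
    (if Even m then (2 : ℝ) else 0) • cns (xw (m + 1)) (act (bw []) y) +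
      (-1 : ℝ) ^ m • cns (xw m) (act (bw [true]) y) := by
  have e0 : gc 0 (mu (bw [true]) (bw (xw m))) = gp (mu (bw [true]) (bw (xw m))) := rfl
  rw [← cb_bw, act_p_cb _ (lactx_xw_mem m), e0, lactx_gp, lactx_tau, map_smul, map_smul,
    LinearMap.smul_apply, LinearMap.smul_apply, cb_bw, cb_bw]

private theorem lactx_sq (m : ℕ) : ((-1 : ℝ) ^ m) * (-1) ^ m = 1 := by
  rw [← mul_pow]
  norm_num

private theorem lactx_pp (m : ℕ) (y : CW) : act (bw [true, true]) (cns (xw m) y) =
    (if Even m then (2 : ℝ) else 0) • cns (xw (m + 1)) (act (bw [true]) y) +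
      cns (xw m) (act (bw [true, true]) y) := by
  have d1 : del true (mu (bw [true, true]) (bw (xw m))) =
      (-1 : ℝ) ^ m • mu (bw [true]) (bw (xw m)) := by
    have h1 : del true (bw [true, true]) = bw [true] := by
      rw [← app_bw, del_app]
    rw [del_mu, lactx_del_xw, map_zero, zero_add, h1, lactx_tau, map_smul]
  have d2 : del true (mu (bw [true]) (bw (xw m))) = (-1 : ℝ) ^ m • bw (xw m) := by
    have h1 : del true (bw [true]) = bw [] := by
      rw [← app_bw, del_app]
    rw [del_mu, lactx_del_xw, map_zero, zero_add, h1, lactx_tau, map_smul, nil_mu]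
  have dd : del true (del true (mu (bw [true, true]) (bw (xw m)))) = bw (xw m) := by
    rw [d1, map_smul, d2, smul_smul, lactx_sq, one_smul]
  have g0 : gc 0 (mu (bw [true, true]) (bw (xw m))) = 0 := by
    have e : gc 0 (mu (bw [true, true]) (bw (xw m))) = gp (mu (bw (pw 2)) (bw (xw m))) := rfl
    rw [e, gp_eq_zero]
    exact pa_x 2 m le_rfl
  have g1 : gc 1 (mu (bw [true, true]) (bw (xw m))) =
      (if Even m then (2 : ℝ) else 0) • bw (xw (m + 1)) := by
    have e : gc 1 (mu (bw [true, true]) (bw (xw m))) =
        gp (((del true) ^ 1 : Module.End ℝ R) (mu (bw [true, true]) (bw (xw m)))) := rfl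
    rw [e, pow_one, d1, map_smul, lactx_gp, smul_smul]
    congr 1
    split_ifs with h
    · rw [h.neg_one_pow, one_mul]
    · rw [mul_zero]
  have g2 : gc 2 (mu (bw [true, true]) (bw (xw m))) = bw (xw m) := by
    have e : gc 2 (mu (bw [true, true]) (bw (xw m))) =
        gp (((del true) ^ 2 : Module.End ℝ R) (mu (bw [true, true]) (bw (xw m)))) := rfl
    rw [e, pow_two, Module.End.mul_apply, dd, gp_of_mem _ (lactx_xw_mem m)]
  have g3 : ∀ j, 3 ≤ j → gc j (mu (bw [true, true]) (bw (xw m))) = 0 := by
    intro j hj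
    obtain ⟨i, rfl⟩ := Nat.exists_eq_add_of_le hj
    have e : gc (3 + i) (mu (bw [true, true]) (bw (xw m))) =
        gp (((del true) ^ (3 + i) : Module.End ℝ R) (mu (bw [true, true]) (bw (xw m)))) := rfl
    rw [e, show 3 + i = ((i + 1) + 1) + 1 by omega, pow_succ, Module.End.mul_apply, pow_succ,
      Module.End.mul_apply, dd, pow_succ, Module.End.mul_apply, lactx_del_xw, map_zero, map_zero]
  rw [← cb_bw, act_cb _ _ _ 3 g3, Finset.sum_range_succ, Finset.sum_range_succ,
    Finset.sum_range_succ, Finset.sum_range_zero, g0, g1, g2, map_zero, LinearMap.zero_apply,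
    zero_add, zero_add, map_smul, LinearMap.smul_apply, cb_bw, cb_bw]
  rfl

private theorem lactx_xl_cons (m : ℕ) (s : List ℕ) : xl (m :: s) = xw m :: xl s := rfl

private theorem lactx_single (m : ℕ) (s : List ℕ) (a : ℝ) :
    (single (xl (m :: s)) a : CW) = cns (xw m) (single (xl s) a) := by
  rw [cns_single, lactx_xl_cons]

private theorem lactx_one (s : List ℕ) : act (bw []) (single (xl s) 1) = single (xl s) 1 := by
  refine act_one s.length _ (TT_le_YY s.length ?_)
  unfold TT
  refine single_mem_supported ℝ 1 ⟨by simp [xl], ?_⟩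
  intro w hw
  unfold xl at hw
  obtain ⟨a, _, rfl⟩ := List.mem_map.1 hw
  simp [Zw, xw]

theorem act_p_xl (m : ℕ) (s : List ℕ) : act (bw [true]) (single (xl (m :: s)) 1) =
    (if Even m then (2 : ℝ) else 0) • single (xl ((m + 1) :: s)) 1 +
      (-1 : ℝ) ^ m • cns (xw m) (act (bw [true]) (single (xl s) 1)) := by
  rw [lactx_single, lactx_p, lactx_one, lactx_single]

theorem act_pp_xl (m : ℕ) (s : List ℕ) : act (bw [true, true]) (single (xl (m :: s)) 1) =
    (if Even m then (2 : ℝ) else 0) • cns (xw (m + 1)) (act (bw [true]) (single (xl s) 1)) +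
      cns (xw m) (act (bw [true, true]) (single (xl s) 1)) := by
  rw [lactx_single, lactx_pp]

private theorem lactx_ev_cons (m : ℕ) (s : List ℕ) :
    ev2 (m :: s) = ev2 s + if m % 2 = 0 then 1 else 0 := by
  simp [ev2, List.countP_cons]

private theorem lactx_nil (w : Wd) (h : w ≠ []) : act (bw w) (single (xl []) 1) = 0 := by
  have e : (single (xl []) 1 : CW) = single [] 1 := rfl
  rw [e, act_nil]
  have : (bw w : R) [] = 0 := by
    unfold bw
    exact Finsupp.single_eq_of_ne (Ne.symm h)
  rw [this, zero_smul]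

theorem act_p_odd (a : List ℕ) (h : ev2 a = 0) : act (bw [true]) (single (xl a) 1) = 0 := by
  induction a with
  | nil => exact lactx_nil _ (by simp)
  | cons m s ih =>
    rw [lactx_ev_cons] at h
    have h1 : ¬ m % 2 = 0 := by
      intro hm
      rw [if_pos hm] at h
      omega
    have h2 : ¬ Even m := by
      rw [Nat.even_iff]
      exact h1
    rw [if_neg h1] at h
    rw [act_p_xl, if_neg h2, zero_smul, ih (by omega), map_zero, smul_zero, add_zero]

theorem act_pp_one (a : List ℕ) (h : ev2 a ≤ 1) :
    act (bw [true, true]) (single (xl a) 1) = 0 := by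
  induction a with
  | nil => exact lactx_nil _ (by simp)
  | cons m s ih =>
    rw [lactx_ev_cons] at h
    rw [act_pp_xl]
    by_cases h1 : m % 2 = 0
    · rw [if_pos h1] at h
      rw [act_p_odd s (by omega), ih (by omega), map_zero, map_zero, smul_zero, add_zero]
    · rw [if_neg h1] at h
      have h2 : ¬ Even m := by
        rw [Nat.even_iff]
        exact h1
      rw [if_neg h2, zero_smul, ih (by omega), map_zero, add_zero]

private theorem lactx_ev_map (s : List ℕ) : ev2 (s.map fun b => 2 * b + 1) = 0 := by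
  induction s with
  | nil => simp [ev2]
  | cons a s ih =>
    rw [List.map_cons, lactx_ev_cons, ih, if_neg (by omega)]

private theorem lactx_SPe_cons (a : ℕ) (s : List ℕ) : SPe (a :: s) =
    single (xl (2 * a :: s.map fun b => 2 * b + 1)) 1 + cns (xw (2 * a + 1)) (SPe s) := rfl

private theorem lactx_odd (a : ℕ) : ¬ Even (2 * a + 1) := by
  rw [Nat.even_iff]
  omega

theorem act_p_SPe (s : List ℕ) : act (bw [true]) (SPe s) =
    (if Odd s.length then (2 : ℝ) else 0) • single (xl (s.map fun b => 2 * b + 1)) 1 := by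
  induction s with
  | nil =>
    rw [if_neg (by simp), zero_smul]
    exact map_zero _
  | cons a s ih =>
    rw [lactx_SPe_cons, map_add, act_p_xl, if_pos (even_two_mul a),
      act_p_odd _ (lactx_ev_map s), map_zero, smul_zero, add_zero, lactx_p,
      if_neg (lactx_odd a), zero_smul, zero_add, ih, map_smul, ← lactx_single, List.map_cons]
    have h1 : (-1 : ℝ) ^ (2 * a + 1) = -1 := by
      rw [pow_succ, (even_two_mul a).neg_one_pow, one_mul]
    rw [h1, smul_smul, ← add_smul]
    congr 1
    rw [List.length_cons]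
    by_cases h : Odd s.length
    · rw [if_pos h, if_neg (by rw [Nat.odd_iff] at h ⊢; omega)]
      norm_num
    · rw [if_neg h, if_pos (by rw [Nat.odd_iff] at h ⊢; omega)]
      norm_num

theorem act_pp_SPe (s : List ℕ) : act (bw [true, true]) (SPe s) = 0 := by
  induction s with
  | nil => exact map_zero _
  | cons a s ih =>
    rw [lactx_SPe_cons, map_add, act_pp_one _ (by
      rw [lactx_ev_cons, lactx_ev_map]
      split_ifs <;> omega), lactx_pp, if_neg (lactx_odd a), zero_smul, ih, map_zero, add_zero,
      add_zero]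

private theorem lactx_np_xw (a : ℕ) : np (xw a) = a := by
  simp [np, xw, pw]

private theorem lactx_xw_inj {a b : ℕ} (h : xw a = xw b) : a = b := by
  have h1 := congrArg np h
  rwa [lactx_np_xw, lactx_np_xw] at h1

private theorem lactx_xl_inj {s t : List ℕ} (h : xl s = xl t) : s = t :=
  List.map_injective_iff.2 (fun _ _ => lactx_xw_inj) h

private theorem lactx_half (s t : List ℕ) :
    (s.map fun b => 2 * b + 1) = t ↔ (t.map fun b => b / 2) = s ∧ ev2 t = 0 := by
  constructor
  · rintro rfl
    refine ⟨?_, lactx_ev_map s⟩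
    rw [List.map_map]
    conv_rhs => rw [← List.map_id s]
    refine List.map_congr_left fun a _ => ?_
    simp only [Function.comp_apply, id]
    omega
  · rintro ⟨rfl, h⟩
    induction t with
    | nil => rfl
    | cons c t ih =>
      rw [lactx_ev_cons] at h
      have h1 : ¬ c % 2 = 0 := by
        intro hm
        rw [if_pos hm] at h
        omega
      rw [List.map_cons, List.map_cons, ih (by omega)]
      congr 1
      omega

theorem SPe_apply (s a : List ℕ) : SPe s (xl a) =
    if (a.map fun b => b / 2) = s ∧ ev2 a = 1 then 1 else 0 := by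
  induction s generalizing a with
  | nil =>
    rw [if_neg]
    · rfl
    · rintro ⟨h1, h2⟩
      rw [List.map_eq_nil_iff] at h1
      subst h1
      simp [ev2] at h2
  | cons b s ih =>
    rw [lactx_SPe_cons, Finsupp.add_apply]
    cases a with
    | nil =>
      have h1 : xl [] = [] := rfl
      rw [h1, cns_nil, if_neg (by rintro ⟨h2, _⟩; exact absurd h2 (by simp)), add_zero]
      exact Finsupp.single_eq_of_ne (by
        rw [lactx_xl_cons]
        exact (List.cons_ne_nil _ _).symm)
    | cons c t =>
      rw [lactx_xl_cons c t, cns_apply, ← lactx_xl_cons, Finsupp.single_apply, ih t,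
        lactx_ev_cons, List.map_cons]
      by_cases hc : c % 2 = 0
      · have h3 : ¬ xw (2 * b + 1) = xw c := by
          intro h
          have := lactx_xw_inj h
          omega
        rw [if_neg h3, add_zero, if_pos hc]
        refine if_congr ?_ rfl rfl
        constructor
        · intro h
          have h4 := lactx_xl_inj h
          rw [List.cons.injEq] at h4
          obtain ⟨h5, h6⟩ := h4
          obtain ⟨h7, h8⟩ := (lactx_half s t).1 h6
          refine ⟨?_, by omega⟩
          rw [h7, List.cons.injEq]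
          exact ⟨by omega, rfl⟩
        · rintro ⟨h4, h5⟩
          rw [List.cons.injEq] at h4
          rw [(lactx_half s t).2 ⟨h4.2, by omega⟩]
          have : 2 * b = c := by omega
          rw [this]
      · have h3 : ¬ xl (2 * b :: s.map fun b => 2 * b + 1) = xl (c :: t) := by
          intro h
          have h4 := lactx_xl_inj h
          rw [List.cons.injEq] at h4
          omega
        rw [if_neg h3, zero_add, if_neg hc, add_zero]
        by_cases h5 : 2 * b + 1 = c
        · rw [if_pos (by rw [h5])]
          refine if_congr ?_ rfl rfl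
          rw [List.cons.injEq]
          constructor
          · rintro ⟨h6, h7⟩
            exact ⟨⟨by omega, h6⟩, h7⟩
          · rintro ⟨⟨_, h6⟩, h7⟩
            exact ⟨h6, h7⟩
        · rw [if_neg (fun h => h5 (lactx_xw_inj h)), if_neg]
          rintro ⟨h6, _⟩
          rw [List.cons.injEq] at h6
          omega

end BrV
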