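import Pool.Agent.Lib.BrV.LDef

/-!
# BrV.LAnt: the functions satisfying all relations are alternating (paper 3, (5.4)), first part.  Only Mathlib and the definitions.

`f` with `Ant k N f`, `N` odd, `k ≥ 2`.  Write `f(..)`; an entry `2m+1` or `2m` has half `m`.
(M) [relation 4] `f (p ++ (2m+1) :: (2n) :: s) = f (p ++ (2m) :: (2n+1) :: s)` (`p.length + s.length + 2 = k`): evenness may be moved between neighbours, the halves are fixed.
Canonical form: `can e α` = the list with halves `α`, first `e` entries even, the others odd.
(a) `f (p ++ (2m+1) :: can e β) = f (p ++ can e (m :: β))` for `e ≤ β.length` (right length): induction on `e` and `β`: `e = 0` clear; `can (e+1) (b :: β) = (2b) :: can e β`, by (M) `f (p ++ (2m+1) :: (2b) :: can e β) = f (p ++ (2m) :: (2b+1) :: can e β)`, then the induction hypothesis with prefix `p ++ [2m]`.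
(b) `f (p ++ a) = f (p ++ can (ev2 a) (a.map (· / 2)))`: induction on `a`, with (a) if the first entry is odd.
* `ant_ev`: let `f a ≠ 0`.  `N = a.sum ≡ number of odd entries = k - ev2 a` modulo `2`.  If `k = 2` and `ev2 a = 2` then `N` is even: contradiction.  If `k ≥ 3` and `e = ev2 a ≥ 2`: `f a = f (can e α)`, `α = a0 :: b0 :: c0 :: r`; let `g (a, b, c) = f (can e (a :: b :: c :: r))`.  By (M) the evenness in the first three entries can be distributed arbitrarily (at least two
  of them are even), so: relation 2 at the positions (1,2): `g (a+1,b,c) = - g (a,b+1,c)`; relation 2 at (2,3): `g (a,b+1,c) = - g (a,b,c+1)`; relation 1 at (1,2): `g (a,b,c) = - g (b,a,c)`.  So `g (a+1,b,c) = g (a,b,c+1)`, and `g (a+1,b,c) = - g (b,a+1,c) = g (b,a,c+1) = - g (a,b,c+1)`: hence `g (a,b,c+1) = 0 = g (a+1,b,c)`, and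
  `g (a,b+1,c) = - g (a,b,c+1) = 0`; `g (0,0,0) = - g (0,0,0)`.  So `f a = 0`, contradiction.  Hence `ev2 a ≤ 1` and the parity gives the claim.
* `ant_pat`: (b) and `pat α = can e α` for `e = 0` (`k` odd), `e = 1` (`k` even), `α.length = k`.
* `ant_swap`: `k` odd: all entries odd: relation 3: `f (.. (2a+1) (2b+1) ..) + f (.. (2b+1) (2a+1) ..) = 2 f (.. (2a) (2b+2) ..) = 0` by `ant_ev`.  `k` even: move the evenness to the first of the two entries (by (b): all lists with the same halves and `ev2 = 1` have the same value), relation 5.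
-/

namespace BrV

open Finsupp

/-- the list with halves `α`, the first `e` entries even, the others odd -/
private def can : ℕ → List ℕ → List ℕ
  | _, [] => []
  | 0, a :: s => (2 * a + 1) :: can 0 s
  | e + 1, a :: s => (2 * a) :: can e s

private theorem can_length (e : ℕ) (s : List ℕ) : (can e s).length = s.length := by
  induction s generalizing e with
  | nil => cases e <;> rfl
  | cons a s ih =>
    cases e with
    | zero => simp [can, ih]
    | succ e => simp [can, ih]

private theorem can_zero (s : List ℕ) : can 0 s = s.map fun b => 2 * b + 1 := by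
  induction s with
  | nil => rfl
  | cons a s ih => simp [can, ih]

private theorem ev2_cons (a : ℕ) (s : List ℕ) :
    ev2 (a :: s) = ev2 s + if a % 2 = 0 then 1 else 0 := by
  simp [ev2, List.countP_cons]

private theorem ev2_append (s t : List ℕ) : ev2 (s ++ t) = ev2 s + ev2 t := by
  simp [ev2]

private theorem ev2_nil : ev2 [] = 0 := rfl

private theorem ev2_le (s : List ℕ) : ev2 s ≤ s.length := List.countP_le_length

private theorem ev2_odd (s : List ℕ) : ev2 (s.map fun b => 2 * b + 1) = 0 := by
  induction s with
  | nil => rfl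
  | cons a s ih =>
    rw [List.map_cons, ev2_cons, ih, if_neg (by omega)]

private theorem half_odd (s : List ℕ) :
    ((s.map fun b => 2 * b + 1).map fun b => b / 2) = s := by
  induction s with
  | nil => rfl
  | cons a s ih =>
    rw [List.map_cons, List.map_cons, ih]
    congr 1
    omega

private theorem par (s : List ℕ) : (s.sum + ev2 s) % 2 = s.length % 2 := by
  induction s with
  | nil => rfl
  | cons a s ih =>
    rw [List.sum_cons, ev2_cons, List.length_cons]
    split_ifs with h <;> omega

private theorem ant_M {k N : ℕ} {f : List ℕ → ℝ} (h : Ant k N f) (p s : List ℕ) (m n : ℕ)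
    (hl : p.length + s.length + 2 = k) :
    f (p ++ (2 * m + 1) :: (2 * n) :: s) = f (p ++ (2 * m) :: (2 * n + 1) :: s) :=
  (h.rel p s hl (2 * m + 2 * n + 1)).2.2.2.1 m n rfl

private theorem canA {k N : ℕ} {f : List ℕ → ℝ} (h : Ant k N f) (β : List ℕ) :
    ∀ (e : ℕ) (p : List ℕ) (m : ℕ), p.length + β.length + 1 = k → e ≤ β.length →
      f (p ++ (2 * m + 1) :: can e β) = f (p ++ can e (m :: β)) := by
  induction β with
  | nil =>
    intro e p m _ he
    have he0 : e = 0 := by simpa using he
    subst he0
    rfl
  | cons b β ih =>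
    intro e p m hl he
    cases e with
    | zero => rfl
    | succ e =>
      rw [List.length_cons] at hl he
      have h1 := ant_M h p (can e β) m b (by rw [can_length]; omega)
      have h2 := ih e (p ++ [2 * m]) b (by simp; omega) (by omega)
      simp only [List.append_assoc, List.cons_append, List.nil_append] at h2
      change f (p ++ (2 * m + 1) :: (2 * b) :: can e β) = f (p ++ (2 * m) :: can e (b :: β))
      rw [h1, h2]

private theorem canB {k N : ℕ} {f : List ℕ → ℝ} (h : Ant k N f) (a : List ℕ) :
    ∀ p : List ℕ, p.length + a.length = k →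
      f (p ++ a) = f (p ++ can (ev2 a) (a.map fun b => b / 2)) := by
  induction a with
  | nil => intro p _; rfl
  | cons c a ih =>
    intro p hl
    rw [List.length_cons] at hl
    have h1 := ih (p ++ [c]) (by simp; omega)
    simp only [List.append_assoc, List.cons_append, List.nil_append] at h1
    rw [h1, ev2_cons, List.map_cons]
    by_cases hc : c % 2 = 0
    · rw [if_pos hc]
      have h2 : 2 * (c / 2) = c := by omega
      change _ = f (p ++ (2 * (c / 2)) :: can (ev2 a) (a.map fun b => b / 2))
      rw [h2]
    · rw [if_neg hc, add_zero]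
      have h2 : 2 * (c / 2) + 1 = c := by omega
      have h3 := canA h (a.map fun b => b / 2) (ev2 a) p (c / 2) (by simp; omega)
        (by rw [List.length_map]; exact ev2_le a)
      rw [h2] at h3
      exact h3

private theorem ant_eqv {k N : ℕ} {f : List ℕ → ℝ} (h : Ant k N f) (a b : List ℕ)
    (ha : a.length = k) (hab : (a.map fun c => c / 2) = b.map fun c => c / 2)
    (he : ev2 a = ev2 b) : f a = f b := by
  have hb : b.length = k := by
    have h1 := congrArg List.length hab
    rw [List.length_map, List.length_map] at h1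
    omega
  have h1 := canB h a [] (by simpa using ha)
  have h2 := canB h b [] (by simpa using hb)
  rw [List.nil_append, List.nil_append] at h1 h2
  rw [h1, h2, hab, he]

private theorem can_vanish {k N : ℕ} {f : List ℕ → ℝ} (h : Ant k N f) (e : ℕ) (r : List ℕ)
    (hl : r.length + 3 = k) (x y z : ℕ) : f (can (e + 2) (x :: y :: z :: r)) = 0 := by
  have R1 : ∀ x y z : ℕ, f (can (e + 2) ((x + 1) :: y :: z :: r)) =
      - f (can (e + 2) (x :: (y + 1) :: z :: r)) := by
    intro x y z
    have h1 := (h.rel [] (can e (z :: r)) (by rw [can_length]; simp; omega)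
      (2 * x + 2 * y + 2)).2.1 x y rfl
    exact eq_neg_of_add_eq_zero_left h1
  have R3 : ∀ x y z : ℕ, f (can (e + 2) (x :: y :: z :: r)) =
      - f (can (e + 2) (y :: x :: z :: r)) := by
    intro x y z
    exact (h.rel [] (can e (z :: r)) (by rw [can_length]; simp; omega)
      (2 * x + 2 * y)).1 x y rfl
  have R2 : ∀ x y z : ℕ, f (can (e + 2) (x :: (y + 1) :: z :: r)) =
      - f (can (e + 2) (x :: y :: (z + 1) :: r)) := by
    intro x y z
    cases e with
    | succ e =>
      have h1 := (h.rel [2 * x] (can e r) (by rw [can_length]; simp; omega)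
        (2 * y + 2 * z + 2)).2.1 y z rfl
      exact eq_neg_of_add_eq_zero_left h1
    | zero =>
      have key : ∀ y z : ℕ, f (can (0 + 2) (x :: y :: z :: r)) =
          f ((2 * x + 1) :: (2 * y) :: (2 * z) :: can 0 r) := by
        intro y z
        have h1 := ant_M h [2 * x] (can 0 r) y z (by rw [can_length]; simp; omega)
        have h2 := ant_M h [] ((2 * z) :: can 0 r) x y (by
          rw [List.length_cons, can_length]; simp; omega)
        rw [List.nil_append, List.nil_append] at h2
        rw [h2]
        exact h1.symm
      rw [key, key]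
      have h1 := (h.rel [2 * x + 1] (can 0 r) (by rw [can_length]; simp; omega)
        (2 * y + 2 * z + 2)).2.1 y z rfl
      exact eq_neg_of_add_eq_zero_left h1
  have Z3 : ∀ x y z : ℕ, f (can (e + 2) (x :: y :: (z + 1) :: r)) = 0 := by
    intro x y z
    have h1 := R1 x y z
    have h2 := R2 x y z
    have h3 := R3 (x + 1) y z
    have h4 := R2 y x z
    have h5 := R3 x y (z + 1)
    linarith
  have Z1 : ∀ x y z : ℕ, f (can (e + 2) ((x + 1) :: y :: z :: r)) = 0 := by
    intro x y z
    rw [R1, R2, Z3, neg_zero, neg_zero]
  have Z2 : ∀ x y z : ℕ, f (can (e + 2) (x :: (y + 1) :: z :: r)) = 0 := by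
    intro x y z
    rw [R2, Z3, neg_zero]
  cases z with
  | succ z => exact Z3 x y z
  | zero =>
    cases y with
    | succ y => exact Z2 x y 0
    | zero =>
      cases x with
      | succ x => exact Z1 x 0 0
      | zero =>
        have h1 := R3 0 0 0
        linarith

theorem ant_ev (k N : ℕ) (f : List ℕ → ℝ) (hk : 2 ≤ k) (hN : Odd N) (h : Ant k N f)
    (a : List ℕ) (ha : f a ≠ 0) : ev2 a = if Odd k then 0 else 1 := by
  obtain ⟨hl, hs⟩ := h.supp a ha
  have hp := par a
  rw [hs, hl] at hp
  have hN' := Nat.odd_iff.mp hN
  have hle := ev2_le a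
  rw [hl] at hle
  have h1 : ev2 a ≤ 1 := by
    by_contra hne
    push Not at hne
    rcases Nat.lt_or_ge k 3 with hk3 | hk3
    · omega
    · obtain ⟨e, he⟩ := Nat.exists_eq_add_of_le hne
      have h2 := canB h a [] (by simpa using hl)
      rw [List.nil_append, List.nil_append] at h2
      apply ha
      rw [h2, show ev2 a = e + 2 by omega]
      have hlen : (a.map fun b => b / 2).length = k := by rw [List.length_map, hl]
      generalize (a.map fun b => b / 2) = α at hlen
      match α, hlen with
      | [], hlen => simp at hlen; omega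
      | [_], hlen => simp at hlen; omega
      | [_, _], hlen => simp at hlen; omega
      | x :: y :: z :: r, hlen =>
        exact can_vanish h e r (by simpa using hlen) x y z
  by_cases hodd : Odd k
  · rw [if_pos hodd]
    have := Nat.odd_iff.mp hodd
    omega
  · rw [if_neg hodd]
    rw [Nat.not_odd_iff_even, Nat.even_iff] at hodd
    omega

theorem ant_pat (k N : ℕ) (f : List ℕ → ℝ) (hk : 2 ≤ k) (hN : Odd N) (h : Ant k N f)
    (a : List ℕ) (hl : a.length = k) (he : ev2 a = if Odd k then 0 else 1) :
    f a = f (pat (a.map fun b => b / 2)) := by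
  have h2 := canB h a [] (by simpa using hl)
  rw [List.nil_append, List.nil_append] at h2
  rw [h2, he]
  have hlen : (a.map fun b => b / 2).length = k := by rw [List.length_map, hl]
  generalize (a.map fun b => b / 2) = α at hlen
  congr 1
  unfold pat
  rw [hlen]
  by_cases hodd : Odd k
  · rw [if_pos hodd, if_pos hodd, can_zero]
  · rw [if_neg hodd, if_neg hodd]
    match α, hlen with
    | [], hlen => rfl
    | x :: t, hlen =>
      change (2 * x) :: can 0 t = _
      rw [can_zero]

private theorem pat_length (s : List ℕ) : (pat s).length = s.length := by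
  unfold pat
  split_ifs with h
  · rw [List.length_map]
  · match s with
    | [] => rfl
    | a :: t => simp

private theorem pat_half (s : List ℕ) : ((pat s).map fun b => b / 2) = s := by
  unfold pat
  split_ifs with h
  · exact half_odd s
  · match s with
    | [] => rfl
    | a :: t =>
      change (2 * a / 2) :: ((t.map fun b => 2 * b + 1).map fun b => b / 2) = _
      rw [half_odd]
      congr 1
      omega

private theorem pat_ev2 (s : List ℕ) (h : ¬ Odd s.length) (hs : s ≠ []) : ev2 (pat s) = 1 := by
  unfold pat
  rw [if_neg h]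
  match s, hs with
  | a :: t, _ =>
    change ev2 ((2 * a) :: (t.map fun b => 2 * b + 1)) = 1
    rw [ev2_cons, ev2_odd, if_pos (by omega)]

theorem ant_swap (k N : ℕ) (f : List ℕ → ℝ) (hk : 2 ≤ k) (hN : Odd N) (h : Ant k N f)
    (p s : List ℕ) (a b : ℕ) (hl : p.length + s.length + 2 = k) :
    f (pat (p ++ a :: b :: s)) = - f (pat (p ++ b :: a :: s)) := by
  set p' := p.map fun b => 2 * b + 1 with hp'
  set s' := s.map fun b => 2 * b + 1 with hs'
  have hl' : p'.length + s'.length + 2 = k := by rw [hp', hs', List.length_map, List.length_map, hl]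
  have hlen : ∀ a b : ℕ, (p ++ a :: b :: s).length = k := by
    intro a b
    simp
    omega
  by_cases hodd : Odd k
  · have h0 : ∀ a b : ℕ, pat (p ++ a :: b :: s) = p' ++ (2 * a + 1) :: (2 * b + 1) :: s' := by
      intro a b
      unfold pat
      rw [hlen, if_pos hodd]
      simp [hp', hs']
    rw [h0, h0]
    have h1 := (h.rel p' s' hl' (2 * a + 2 * b + 2)).2.2.1 a b rfl
    beta_reduce at h1
    have h2 : f (p' ++ (2 * a) :: (2 * b + 2) :: s') = 0 := by
      by_contra hne
      have h3 := ant_ev k N f hk hN h _ hne
      rw [if_pos hodd, ev2_append, ev2_cons, if_pos (by omega)] at h3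
      omega
    rw [h2, mul_zero] at h1
    exact eq_neg_of_add_eq_zero_left h1
  · have hev : ∀ a b : ℕ, ev2 (pat (p ++ a :: b :: s)) = 1 := fun a b =>
      pat_ev2 _ (by rw [hlen]; exact hodd) (by simp)
    have e1 : ∀ a b : ℕ, f (pat (p ++ a :: b :: s)) = f (p' ++ (2 * a) :: (2 * b + 1) :: s') := by
      intro a b
      refine ant_eqv h _ _ (by rw [pat_length, hlen]) ?_ ?_
      · rw [pat_half, List.map_append, List.map_cons, List.map_cons, hp', hs', half_odd, half_odd,
          show 2 * a / 2 = a by omega, show (2 * b + 1) / 2 = b by omega]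
      · rw [hev, ev2_append, ev2_cons, ev2_cons, hp', hs', ev2_odd, ev2_odd, if_neg (by omega),
          if_pos (by omega)]
    have h4 := ant_M h p' s' b a hl'
    have h5 := (h.rel p' s' hl' (2 * a + 2 * b + 1)).2.2.2.2 a b rfl
    beta_reduce at h5
    have h6 := ant_M h p' s' a b hl'
    rw [e1, ← h6, h5, e1 b a, h4]

end BrV
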