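import Pool.Agent.Lib.BrV.LAnt

/-!
# BrV.LAntZ: an alternating function is determined by its values on increasing lists (paper 3, (5.4)), second part

`G α = f (pat α)` for `α.length = k`.
* If `α ~ β` (`List.Perm`), then `|G (p ++ α)| = |G (p ++ β)|` for all `p` with `p.length + α.length = k`: induction on the permutation (`List.Perm.rec`: `cons x`: prefix `p ++ [x]`; `swap`: `ant_swap`; `trans`).
* If `α` has a repeated entry then `α ~ x :: x :: r` and `G (x :: x :: r) = - G (x :: x :: r)`, so `G α = 0`.
* `ant_zero`: let `f a ≠ 0`: `ant_ev`, `ant_pat`: `G α ≠ 0` for `α = a.map (· / 2)`, so `α` is `Nodup`, `s = α.toFinset` has `k` elements, `α ~ s.sort`, and `G (s.sort) ≠ 0`: contradiction to `h0`.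
-/

namespace BrV

open Finsupp

private theorem abs_perm (k N : ℕ) (f : List ℕ → ℝ) (hk : 2 ≤ k) (hN : Odd N) (h : Ant k N f)
    {l l' : List ℕ} (hp : l.Perm l') : ∀ p : List ℕ, p.length + l.length = k →
      |f (pat (p ++ l))| = |f (pat (p ++ l'))| := by
  induction hp with
  | nil => intro p _; rfl
  | cons x _ ih =>
    intro p hl
    have h1 := ih (p ++ [x]) (by
      rw [List.length_append, List.length_singleton, ← hl, List.length_cons]
      ring)
    rw [List.append_assoc, List.append_assoc] at h1
    exact h1
  | swap x y l =>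
    intro p hl
    rw [ant_swap k N f hk hN h p l y x (by
      rw [← hl, List.length_cons, List.length_cons]
      ring), abs_neg]
  | trans h1 _ ih1 ih2 =>
    intro p hl
    rw [ih1 p hl, ih2 p (by rw [← hl, h1.length_eq])]

private theorem zero_of_dup (k N : ℕ) (f : List ℕ → ℝ) (hk : 2 ≤ k) (hN : Odd N) (h : Ant k N f)
    (l : List ℕ) (hl : l.length = k) (hd : ¬ l.Nodup) : f (pat l) = 0 := by
  rw [List.nodup_iff_sublist] at hd
  push Not at hd
  obtain ⟨x, hx⟩ := hd
  obtain ⟨r, hr⟩ := hx.exists_perm_append
  have h1 := abs_perm k N f hk hN h hr [] (by rw [List.length_nil, zero_add, hl])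
  rw [List.nil_append, List.nil_append] at h1
  have hlen : r.length + 2 = k := by
    have := hr.length_eq
    rw [hl, List.length_append] at this
    simp only [List.length_cons, List.length_nil] at this
    omega
  have h2 := ant_swap k N f hk hN h [] r x x (by rw [List.length_nil]; omega)
  have h3 : f (pat ([x, x] ++ r)) = 0 := by
    change f (pat (x :: x :: r)) = 0
    rw [List.nil_append] at h2
    linarith
  rw [h3, abs_zero] at h1
  exact abs_eq_zero.1 h1

theorem ant_zero (k N : ℕ) (f : List ℕ → ℝ) (hk : 2 ≤ k) (hN : Odd N) (h : Ant k N f)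
    (h0 : ∀ s : Finset ℕ, s.card = k → f (pat (s.sort (· ≤ ·))) = 0) : ∀ a, f a = 0 := by
  intro a
  by_contra ha
  have hlen := (h.supp a ha).1
  have he := ant_ev k N f hk hN h a ha
  have h1 := ant_pat k N f hk hN h a hlen he
  set α := a.map fun b => b / 2 with hα
  have hαl : α.length = k := by rw [hα, List.length_map, hlen]
  have hnd : α.Nodup := by
    by_contra hd
    exact ha (h1.trans (zero_of_dup k N f hk hN h α hαl hd))
  have hcard : α.toFinset.card = k := by rw [List.toFinset_card_of_nodup hnd, hαl]
  have hperm : α.Perm (α.toFinset.sort (· ≤ ·)) := by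
    rw [List.perm_ext_iff_of_nodup hnd (Finset.sort_nodup _ _)]
    intro x
    rw [Finset.mem_sort, List.mem_toFinset]
  have h2 := abs_perm k N f hk hN h hperm [] (by rw [List.length_nil, zero_add, hαl])
  rw [List.nil_append, List.nil_append, h0 _ hcard, abs_zero] at h2
  exact ha (h1.trans (abs_eq_zero.1 h2))

end BrV
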