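import Pool.Agent.Lib.BrV.LGc

/-!
# BrV.LCb: evaluation lemmas for `cb` and `act` (paper 3, section 1)

* `cb`: `Finsupp.lift` is the sum; `cns_single`, `cns_apply`, `cl`; `cb_single`: `cl f q = mapDomain (· :: q) f`.
* `act_single`, `act_nil`: unfold `act` (`Finsupp.lift_apply`, `sum_single_index`).
* `act_cb`: all terms are linear in `f`, `g`, `y`, once the range is large: choose `M ≥ N` such that `M > np v + np u` for all `v ∈ f.support`, `u ∈ g.support`
  (`Finset.sup`); for words (`f = bw v`, `g = bw u`, `y = single l 1`) `act (bw v) (single (u :: l) 1) = act0 (u :: l) v` and the range may be enlarged (`gc_sh`); the range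
  `M` may be shrunk to `N` (the terms vanish by `hN`).
* `CW_ind`: `Finsupp.induction_linear` and, for `single q 1`, induction on `q` (`cb_bw`, `cns_single`).
-/

namespace BrV

open Finsupp

theorem cb_bw (u : Wd) (y : CW) : cb (bw u) y = cns u y := by
  simp [cb, bw]

private theorem lcb_cb_single (u : Wd) (a : ℝ) (y : CW) : cb (single u a) y = a • cns u y := by
  rw [← smul_single_one, map_smul, LinearMap.smul_apply]
  exact congrArg (fun z => a • z) (cb_bw u y)

theorem cb_single (f : R) (q : LW) : cb f (single q 1) = cl f q := by
  induction f using Finsupp.induction_linear with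
  | zero => rw [map_zero, LinearMap.zero_apply]; simp [cl]
  | add f g hf hg => rw [map_add, LinearMap.add_apply, hf, hg, cl_add]
  | single u a =>
    rw [lcb_cb_single, cns_single]
    have h1 : (single u a : R) = a • bw u := by rw [bw, smul_single_one]
    rw [h1, cl_smul, cl_bw]

theorem cb_apply (f : R) (y : CW) (u : Wd) (q : LW) : cb f y (u :: q) = f u * y q := by
  induction f using Finsupp.induction_linear with
  | zero => rw [map_zero, LinearMap.zero_apply]; simp
  | add f g hf hg =>
    rw [map_add, LinearMap.add_apply, Finsupp.add_apply, hf, hg, Finsupp.add_apply]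
    ring
  | single v a =>
    rw [lcb_cb_single, Finsupp.smul_apply, cns_apply, single_apply, smul_eq_mul]
    split_ifs <;> ring

theorem cb_nil (f : R) (y : CW) : cb f y [] = 0 := by
  induction f using Finsupp.induction_linear with
  | zero => rw [map_zero, LinearMap.zero_apply]; simp
  | add f g hf hg => rw [map_add, LinearMap.add_apply, Finsupp.add_apply, hf, hg, add_zero]
  | single v a => rw [lcb_cb_single, Finsupp.smul_apply, cns_nil, smul_zero]

theorem act_single (v : Wd) (l : LW) : act (bw v) (single l 1) = act0 l v := by
  simp [act, bw]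

theorem act_nil (f : R) : act f (single [] 1) = f [] • single [] 1 := by
  induction f using Finsupp.induction_linear with
  | zero => rw [map_zero, LinearMap.zero_apply]; simp
  | add f g hf hg => rw [map_add, LinearMap.add_apply, hf, hg, Finsupp.add_apply, add_smul]
  | single v a =>
    rw [← smul_single_one v a, map_smul, LinearMap.smul_apply]
    have h1 : act (single v 1) (single [] 1) = act0 [] v := act_single v []
    rw [h1, act0, Finsupp.smul_apply, single_apply, smul_eq_mul]
    split_ifs <;> simp

/-- the right side of `act_cb` -/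
private noncomputable def lcbT (M : ℕ) (f g : R) (y : CW) : CW :=
  ∑ j ∈ Finset.range M, cb (gc j (mu f g)) (act (bw (pw j)) y)

private theorem lcbT_mono (f g : R) (y : CW) (N M : ℕ) (hNM : N ≤ M)
    (hN : ∀ j, N ≤ j → gc j (mu f g) = 0) : lcbT M f g y = lcbT N f g y := by
  unfold lcbT
  symm
  refine Finset.sum_subset (Finset.range_mono hNM) ?_
  intro j _ hj
  rw [Finset.mem_range, not_lt] at hj
  rw [hN j hj, map_zero, LinearMap.zero_apply]

private theorem lcbT_base (v u : Wd) (l : LW) (M : ℕ) (hM : np v + np u + 1 ≤ M) :
    act (bw v) (cb (bw u) (single l 1)) = lcbT M (bw v) (bw u) (single l 1) := by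
  rw [lcbT_mono (bw v) (bw u) (single l 1) _ M hM (by
    intro j hj
    rw [mu_bw]
    exact gc_sh v u j (by omega)), cb_bw, cns_single, act_single, act0, lcbT]
  refine Finset.sum_congr rfl fun j _ => ?_
  rw [mu_bw, act_single]

private theorem lcb_ex (f g : R) (y : CW) : ∃ M0, ∀ M, M0 ≤ M → act f (cb g y) = lcbT M f g y := by
  induction f using Finsupp.induction_linear with
  | zero => exact ⟨0, fun M _ => by simp [lcbT]⟩
  | add f f' hf hf' =>
    obtain ⟨A, hA⟩ := hf
    obtain ⟨B, hB⟩ := hf'
    refine ⟨max A B, fun M hM => ?_⟩
    rw [map_add, LinearMap.add_apply, hA M (le_trans (le_max_left _ _) hM),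
      hB M (le_trans (le_max_right _ _) hM)]
    simp only [lcbT, map_add, LinearMap.add_apply, Finset.sum_add_distrib]
  | single v a =>
    have key : ∃ M0, ∀ M, M0 ≤ M → act (bw v) (cb g y) = lcbT M (bw v) g y := by
      induction g using Finsupp.induction_linear with
      | zero => exact ⟨0, fun M _ => by simp [lcbT]⟩
      | add f f' hf hf' =>
        obtain ⟨A, hA⟩ := hf
        obtain ⟨B, hB⟩ := hf'
        refine ⟨max A B, fun M hM => ?_⟩
        rw [map_add, LinearMap.add_apply, map_add, hA M (le_trans (le_max_left _ _) hM),
          hB M (le_trans (le_max_right _ _) hM)]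
        simp only [lcbT, map_add, LinearMap.add_apply, Finset.sum_add_distrib]
      | single u b =>
        have key2 : ∃ M0, ∀ M, M0 ≤ M → act (bw v) (cb (bw u) y) = lcbT M (bw v) (bw u) y := by
          induction y using Finsupp.induction_linear with
          | zero => exact ⟨0, fun M _ => by simp [lcbT]⟩
          | add f f' hf hf' =>
            obtain ⟨A, hA⟩ := hf
            obtain ⟨B, hB⟩ := hf'
            refine ⟨max A B, fun M hM => ?_⟩
            rw [map_add, map_add, hA M (le_trans (le_max_left _ _) hM),
              hB M (le_trans (le_max_right _ _) hM)]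
            simp only [lcbT, map_add, Finset.sum_add_distrib]
          | single l c =>
            refine ⟨np v + np u + 1, fun M hM => ?_⟩
            rw [← smul_single_one l c, map_smul, map_smul, lcbT_base v u l M hM]
            simp only [lcbT, map_smul, Finset.smul_sum]
        obtain ⟨M0, hM0⟩ := key2
        refine ⟨M0, fun M hM => ?_⟩
        have h1 : (single u b : R) = b • bw u := by rw [bw, smul_single_one]
        rw [h1, map_smul, LinearMap.smul_apply, map_smul, hM0 M hM]
        simp only [lcbT, map_smul, LinearMap.smul_apply, Finset.smul_sum]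
    obtain ⟨M0, hM0⟩ := key
    refine ⟨M0, fun M hM => ?_⟩
    have h1 : (single v a : R) = a • bw v := by rw [bw, smul_single_one]
    rw [h1, map_smul, LinearMap.smul_apply, hM0 M hM]
    simp only [lcbT, map_smul, LinearMap.smul_apply, Finset.smul_sum]

theorem act_cb (f g : R) (y : CW) (N : ℕ) (hN : ∀ j, N ≤ j → gc j (mu f g) = 0) :
    act f (cb g y) = ∑ j ∈ Finset.range N, cb (gc j (mu f g)) (act (bw (pw j)) y) := by
  obtain ⟨M0, hM0⟩ := lcb_ex f g y
  rw [hM0 (max M0 N) (le_max_left _ _), lcbT_mono f g y N _ (le_max_right _ _) hN]
  rfl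

theorem CW_ind (p : CW → Prop) (h0 : p 0) (hadd : ∀ x y, p x → p y → p (x + y))
    (hs : ∀ (a : ℝ) x, p x → p (a • x)) (hn : p (single [] 1))
    (hc : ∀ u y, p y → p (cb (bw u) y)) : ∀ y, p y := by
  intro y
  induction y using Finsupp.induction_linear with
  | zero => exact h0
  | add f g hf hg => exact hadd f g hf hg
  | single q a =>
    rw [← smul_single_one q a]
    refine hs a _ ?_
    induction q with
    | nil => exact hn
    | cons u q ih =>
      have h := hc u _ ih
      rw [cb_bw, cns_single] at h
      exact h

end BrV
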