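import Pool.Agent.Lib.BrV.LDL

/-!
# BrV.LCmp: homogeneous components in `Φ(CW)` (paper 3, section 2)

* `cmpL_apply`: `Finsupp.lsum`, `Finsupp.lift` (see the private `lift_if`, `cmpP_apply2` in `Grad.lean`).
* `cmpL_DL`: by linearity `x = single i (single q 1)`, `D1_ne`, `act0_supp`: `DL (single i (single q 1))` is homogeneous of degree `(rI i - 1, nI i + npW q, kI i + nzW q)` (`DL_IsHL`; for `rI i = 0` it is `0`, `DL_zero`).
* `cmpL_mem`: for submodules stable under all the maps keep the lists `q` with `npW q = a` and `nzW q = b`: `hX`.  `YY m`, `TT m` are of this form (supported), and `KK m` too (`bz` preserves `npW`, `nzW`: `IsW_bz`).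
* `KK_act`: `act_YY`, `bz_act`.  `tL_DL`: `act_fl`.
-/

namespace BrV

open Finsupp

private theorem liftW_if (P : LW → Prop) [DecidablePred P] (f : CW) (u : LW) :
    (Finsupp.lift CW ℝ LW (fun w => if P w then single w 1 else 0)) f u =
      if P u then f u else 0 := by
  induction f using Finsupp.induction_linear with
  | zero => simp
  | add f g hf hg =>
    rw [map_add, Finsupp.add_apply, hf, hg, Finsupp.add_apply]
    split_ifs <;> simp
  | single w a =>
    rw [Finsupp.lift_apply, Finsupp.sum_single_index (by simp)]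
    by_cases hw : P w
    · rw [if_pos hw]
      rw [Finsupp.smul_apply, Finsupp.single_apply, Finsupp.single_apply]
      by_cases hu : w = u
      · subst hu
        simp [hw]
      · simp [hu]
    · rw [if_neg hw, smul_zero]
      by_cases hu : w = u
      · subst hu
        simp [hw]
      · rw [Finsupp.single_apply, if_neg hu]
        simp

private theorem singleL_supp (i j : Ix) (f : CW) (u : LW) (h : (single i f : PhL) j u ≠ 0) :
    j = i ∧ f u ≠ 0 := by
  by_cases hij : j = i
  · subst hij
    rw [Finsupp.single_eq_same] at h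
    exact ⟨rfl, h⟩
  · rw [Finsupp.single_eq_of_ne hij] at h
    exact absurd rfl h

private theorem IsHL_single (i : Ix) (w : LW) (a : ℝ) :
    IsHL (rI i) (nI i + npW w) (kI i + nzW w) (single i (single w a)) := by
  intro j u h
  obtain ⟨rfl, hu⟩ := singleL_supp _ _ _ _ h
  have : u = w := by
    by_contra hne
    exact hu (Finsupp.single_eq_of_ne hne)
  subst this
  exact ⟨rfl, rfl, rfl⟩

private theorem IsHL_coeff (r n k : ℕ) (x : PhL) (h : IsHL r n k x) (i : Ix) (hi : x i ≠ 0) :
    rI i = r ∧ nI i ≤ n ∧ kI i ≤ k ∧ IsW (n - nI i) (k - kI i) (x i) := by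
  obtain ⟨w, hw⟩ := Finsupp.ne_iff.mp hi
  have h1 := h i w (by simpa using hw)
  refine ⟨h1.1, by omega, by omega, fun u hu => ?_⟩
  have h2 := h i u hu
  omega

theorem cmpL_apply (r n k : ℕ) (x : PhL) (i : Ix) (q : LW) : cmpL r n k x i q =
    if rI i = r ∧ nI i + npW q = n ∧ kI i + nzW q = k then x i q else 0 := by
  induction x using Finsupp.induction_linear with
  | zero => simp
  | add x y hx hy =>
    rw [map_add, Finsupp.add_apply, Finsupp.add_apply, hx, hy, Finsupp.add_apply,
      Finsupp.add_apply]
    split_ifs <;> simp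
  | single j f =>
    unfold cmpL
    rw [Finsupp.lsum_single, LinearMap.comp_apply, Finsupp.lsingle_apply]
    by_cases hij : i = j
    · subst hij
      rw [Finsupp.single_eq_same, Finsupp.single_eq_same]
      exact liftW_if (fun w => rI i = r ∧ nI i + npW w = n ∧ kI i + nzW w = k) f q
    · rw [Finsupp.single_eq_of_ne hij, Finsupp.single_eq_of_ne hij]
      simp

theorem cmpL_IsHL (r n k : ℕ) (x : PhL) : IsHL r n k (cmpL r n k x) := by
  intro i w h
  rw [cmpL_apply] at h
  by_contra hc
  rw [if_neg hc] at h
  exact h rfl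

theorem cmpL_of (r n k : ℕ) (x : PhL) (h : IsHL r n k x) : cmpL r n k x = x := by
  ext i w
  rw [cmpL_apply]
  split_ifs with hc
  · rfl
  · by_contra hne
    exact hc (h i w (Ne.symm hne))

private theorem cmpL_eq_zero (r n k r' n' k' : ℕ) (x : PhL) (h : IsHL r' n' k' x)
    (hc : ¬ (r' = r ∧ n' = n ∧ k' = k)) : cmpL r n k x = 0 := by
  ext i w
  rw [cmpL_apply]
  split_ifs with h1
  · by_contra hne
    have := h i w hne
    exact hc (by omega)
  · rfl

theorem cmpL_DL (r n k : ℕ) (x : PhL) : cmpL r n k (DL x) = DL (cmpL (r + 1) n k x) := by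
  induction x using Finsupp.induction_linear with
  | zero => simp
  | add x y hx hy => rw [map_add, map_add, hx, hy, map_add, map_add]
  | single i f =>
    induction f using Finsupp.induction_linear with
    | zero => simp
    | add f g hf hg =>
      rw [Finsupp.single_add, map_add, map_add, hf, hg, map_add, map_add]
    | single w a =>
      have hH := IsHL_single i w a
      by_cases hc : rI i = r + 1 ∧ nI i + npW w = n ∧ kI i + nzW w = k
      · obtain ⟨h1, h2, h3⟩ := hc
        rw [h1, h2, h3] at hH
        rw [cmpL_of _ _ _ _ (DL_IsHL _ _ _ _ hH), cmpL_of _ _ _ _ hH]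
      · rw [cmpL_eq_zero (r + 1) n k _ _ _ _ hH hc, map_zero]
        cases hr : rI i with
        | zero =>
          rw [hr] at hH
          rw [DL_zero _ _ _ hH, map_zero]
        | succ r' =>
          rw [hr] at hH
          refine cmpL_eq_zero r n k _ _ _ _ (DL_IsHL _ _ _ _ hH) ?_
          intro h1
          exact hc (by omega)

theorem cmpL_YY (m r n k : ℕ) (x : PhL) (hx : ∀ i, x i ∈ YY m) (i : Ix) :
    cmpL r n k x i ∈ YY m := by
  have h := hx i
  unfold YY at h ⊢
  rw [Finsupp.mem_supported] at h ⊢
  intro q hq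
  apply h
  rw [Finset.mem_coe, Finsupp.mem_support_iff] at hq ⊢
  rw [cmpL_apply] at hq
  split_ifs at hq with h1
  · exact hq
  · exact absurd rfl hq

private theorem filter_bz (n k : ℕ) (y : CW) :
    (bz y).filter (fun q => npW q = n ∧ nzW q = k) =
      bz (y.filter (fun q => npW q = n ∧ nzW q = k)) := by
  have hz : (0 : CW).filter (fun q => npW q = n ∧ nzW q = k) = 0 := by
    ext u
    rw [Finsupp.filter_apply]
    split_ifs <;> rfl
  induction y using Finsupp.induction_linear with
  | zero => rw [hz, map_zero, hz]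
  | add y z hy hz => rw [map_add, Finsupp.filter_add, Finsupp.filter_add, map_add, hy, hz]
  | single q a =>
    have hW : IsW (npW q) (nzW q) (single q a) := by
      intro u hu
      have : u = q := by
        by_contra hne
        exact hu (Finsupp.single_eq_of_ne hne)
      rw [this]
      exact ⟨rfl, rfl⟩
    have hB := IsW_bz _ _ _ hW
    by_cases hq : npW q = n ∧ nzW q = k
    · have e : (single q a : CW).filter (fun q => npW q = n ∧ nzW q = k) = single q a := by
        ext u
        rw [Finsupp.filter_apply]
        split_ifs with h1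
        · rfl
        · by_contra hne
          have := hW u (Ne.symm hne)
          omega
      rw [e]
      ext u
      rw [Finsupp.filter_apply]
      split_ifs with h1
      · rfl
      · by_contra hne
        have := hB u (Ne.symm hne)
        omega
    · have e : (single q a : CW).filter (fun q => npW q = n ∧ nzW q = k) = 0 := by
        ext u
        rw [Finsupp.filter_apply]
        split_ifs with h1
        · by_contra hne
          have := hW u hne
          omega
        · rfl
      rw [e, map_zero]
      ext u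
      rw [Finsupp.filter_apply]
      split_ifs with h1
      · by_contra hne
        have := hB u hne
        omega
      · rfl

theorem cmpL_KK (m r n k : ℕ) (x : PhL) (hx : ∀ i, x i ∈ KK m) (i : Ix) :
    cmpL r n k x i ∈ KK m := by
  refine ⟨cmpL_YY m r n k x (fun j => (hx j).1) i, ?_⟩
  have hb : bz (x i) = 0 := (hx i).2
  show bz (cmpL r n k x i) = 0
  by_cases hc : rI i = r ∧ nI i ≤ n ∧ kI i ≤ k
  · have e : cmpL r n k x i =
        (x i).filter (fun q => npW q = n - nI i ∧ nzW q = k - kI i) := by
      ext q
      rw [cmpL_apply, Finsupp.filter_apply]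
      by_cases h2 : npW q = n - nI i ∧ nzW q = k - kI i
      · rw [if_pos h2, if_pos (by omega)]
      · rw [if_neg h2, if_neg (by omega)]
    rw [e, ← filter_bz, hb]
    ext u
    rw [Finsupp.filter_apply]
    split_ifs <;> rfl
  · have e : cmpL r n k x i = 0 := by
      ext q
      rw [cmpL_apply, if_neg (by omega)]
      rfl
    rw [e, map_zero]

theorem KK_act (m : ℕ) (f : R) (y : CW) (hy : y ∈ KK m) : act f y ∈ KK m := by
  refine ⟨act_YY m f y hy.1, ?_⟩
  have hb : bz y = 0 := hy.2
  show bz (act f y) = 0
  rw [bz_act, hb, map_zero]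

theorem tL_DL (k : ℕ) (x : PhL) : tL k (DL x) = DL (tL k x) := by
  induction x using Finsupp.induction_linear with
  | zero => simp
  | add x y hx hy => rw [map_add, map_add, hx, hy, map_add, map_add]
  | single i y =>
    have e : tL k (single i y) = single i (fl k y) := by
      unfold tL
      rw [Finsupp.mapRange.linearMap_apply, Finsupp.mapRange_single]
    rw [e]
    ext1 j
    rw [DL_single, ← act_fl]
    unfold tL
    rw [Finsupp.mapRange.linearMap_apply, Finsupp.mapRange_apply, DL_single]

theorem tL_apply (k : ℕ) (x : PhL) (i : Ix) (q : LW) :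
    tL k x i q = if nzW q.tail < k then x i q else 0 := by
  unfold tL
  rw [Finsupp.mapRange.linearMap_apply, Finsupp.mapRange_apply, fl_apply]

theorem IsHL_BZ (r n k : ℕ) (x : PhL) (h : IsHL r n k x) : IsHL r n k (BZ x) := by
  intro i q hq
  unfold BZ at hq
  rw [Finsupp.mapRange.linearMap_apply, Finsupp.mapRange_apply] at hq
  have hi : x i ≠ 0 := by
    intro h0
    rw [h0, map_zero] at hq
    exact hq rfl
  obtain ⟨h1, h2, h3, h4⟩ := IsHL_coeff _ _ _ _ h i hi
  have := IsW_bz _ _ _ h4 q hq
  omega

theorem IsHL_SS (r n k : ℕ) (x : PhL) (h : IsHL r n k x) : IsHL r n k (SS x) := by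
  intro i q hq
  unfold SS at hq
  rw [Finsupp.mapRange.linearMap_apply, Finsupp.mapRange_apply] at hq
  have hi : x i ≠ 0 := by
    intro h0
    rw [h0, map_zero] at hq
    exact hq rfl
  obtain ⟨h1, h2, h3, h4⟩ := IsHL_coeff _ _ _ _ h i hi
  have := IsW_ss _ _ _ h4 q hq
  omega

theorem IsHL_tL (r n k k' : ℕ) (x : PhL) (h : IsHL r n k x) : IsHL r n k (tL k' x) := by
  intro i q hq
  rw [tL_apply] at hq
  split_ifs at hq with h1
  · exact h i q hq
  · exact absurd rfl hq

theorem IsHL_sub (r n k : ℕ) (x y : PhL) (hx : IsHL r n k x) (hy : IsHL r n k y) :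
    IsHL r n k (x - y) := by
  intro i w h
  rw [Finsupp.sub_apply, Finsupp.sub_apply] at h
  by_cases h1 : x i w = 0
  · have h2 : y i w ≠ 0 := by
      intro h0
      apply h
      rw [h1, h0, sub_zero]
    exact hy _ _ h2
  · exact hx _ _ h1

theorem IsHL_add (r n k : ℕ) (x y : PhL) (hx : IsHL r n k x) (hy : IsHL r n k y) :
    IsHL r n k (x + y) := by
  intro i w h
  rw [Finsupp.add_apply, Finsupp.add_apply] at h
  by_cases h1 : x i w = 0
  · have h2 : y i w ≠ 0 := by
      intro h0
      apply h
      rw [h1, h0, add_zero]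
    exact hy _ _ h2
  · exact hx _ _ h1

end BrV
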