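import Pool.Agent.Lib.BrV.Api

/-!
# BrV.MgMg: merging is a differential and commutes with `U` (section 4)

Write `L_F (f) = ∑_u f(u) F(u)` (= `Finsupp.lift _ ℝ Wd F f`, or `f.sum`).
(A) `app_bm`, `mu_assoc`, `app_inj`: block associativity `∑_x (bm v w)(x) bm u x = ∑_y (bm u v)(y) bm y w`.
(B) `app_ub`: with `z * (f * g) - tau (f * g) * z = (z * f - tau f * z) * g + tau f * (z * g - tau g * z)` for `f = u p, g = w p`
(`tau f = (-1)^(np f) f`): `∑_x (bm v w)(x) ub x = ∑_x (ub v)(x) bm x w + sg (true :: v) ∑_x (ub w)(x) bm v x`.
`mg_mg0`: induction on the list.  Let `m = mg0 (u :: l)`.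
 `mg0 (w::v::u::l) = cl (bm v w) (u::l) - cns w (mg0 (v::u::l))`,
 `mg (cl (bm v w) (u::l)) = ∑_x (bm v w)(x) (cl (bm u x) l - cns x m)`,
 `mg0 (v::u::l) = cl (bm u v) l - cns v m`,
 `mg (cns w (cl (bm u v) l)) = ∑_y (bm u v)(y) (cl (bm y w) l - cns w (mg0 (y::l)))`,
 `mg (cns w (cns v m)) = ∑_q m(q) (cl (bm v w) q - cns w (mg0 (v::q)))`, `∑_q m(q) cl (bm v w) q = ∑_x (bm v w)(x) cns x m`.
 By (A) everything cancels but `cns w (∑_y (bm u v)(y) mg0 (y::l) - ∑_q m(q) mg0 (v::q)) = cns w (mg (mg0 (v::u::l))) = 0`.
 (Lists with 0, 1, 2 elements: direct.)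
`mg_uo0`: induction.  `m = mg0 (v::l)`, `y = uo0 l`, `s(l) = (-1)^(npL l)`; for `w::v::l`:
 `uo (cl (bm v w) l) = ∑_x (bm v w)(x) (cns x y + s(l) cl (ub x) l)`,
 `uo (cns w m) = cns w (uo m) + s(v::l) ∑_q m(q) cl (ub w) q`   (merging preserves `npL`: prove privately `m q ≠ 0 → npL q = npL (v::l)`),
 `uo0 (w::v::l) = cns w (cns v y + s(l) cl (ub v) l) + s(v::l) cl (ub w) (v::l)`,
 `mg (cns w (cns v y)) = ∑_q y(q) (cl (bm v w) q - cns w (mg0 (v::q)))`,
 `mg (cns w (cl (ub v) l)) = ∑_x (ub v)(x) (cl (bm x w) l - cns w (mg0 (x::l)))`,
 `mg (cl (ub w) (v::l)) = ∑_x (ub w)(x) (cl (bm v x) l - cns x m)`.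
 With (B) the difference is `cns w` of the induction hypothesis for `v::l`.
-/

namespace BrV

open Finsupp

private noncomputable def LW {M : Type} [AddCommGroup M] [Module ℝ M] (F : Wd → M) : R →ₗ[ℝ] M :=
  Finsupp.lift M ℝ Wd F

private noncomputable def LL {M : Type} [AddCommGroup M] [Module ℝ M] (F : LB → M) :
    CL →ₗ[ℝ] M := Finsupp.lift M ℝ LB F

section lin

variable {M N : Type} [AddCommGroup M] [Module ℝ M] [AddCommGroup N] [Module ℝ N]

private theorem LW_single (F : Wd → M) (x : Wd) (a : ℝ) : LW F (single x a) = a • F x := by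
  simp [LW, Finsupp.lift_apply]

private theorem LL_single (F : LB → M) (x : LB) (a : ℝ) : LL F (single x a) = a • F x := by
  simp [LL, Finsupp.lift_apply]

private theorem LW_add (F G : Wd → M) (f : R) : LW (fun x => F x + G x) f = LW F f + LW G f := by
  induction f using Finsupp.induction_linear with
  | zero => simp
  | add f g hf hg => rw [map_add, map_add, map_add, hf, hg]; abel
  | single x a => rw [LW_single, LW_single, LW_single, smul_add]

private theorem LW_sub (F G : Wd → M) (f : R) : LW (fun x => F x - G x) f = LW F f - LW G f := by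
  induction f using Finsupp.induction_linear with
  | zero => simp
  | add f g hf hg => rw [map_add, map_add, map_add, hf, hg]; abel
  | single x a => rw [LW_single, LW_single, LW_single, smul_sub]

private theorem LW_smul (c : ℝ) (F : Wd → M) (f : R) :
    LW (fun x => c • F x) f = c • LW F f := by
  induction f using Finsupp.induction_linear with
  | zero => simp
  | add f g hf hg => rw [map_add, map_add, smul_add, hf, hg]
  | single x a => rw [LW_single, LW_single, smul_comm]

private theorem LL_sub (F G : LB → M) (f : CL) : LL (fun x => F x - G x) f = LL F f - LL G f := by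
  induction f using Finsupp.induction_linear with
  | zero => simp
  | add f g hf hg => rw [map_add, map_add, map_add, hf, hg]; abel
  | single x a => rw [LL_single, LL_single, LL_single, smul_sub]

private theorem LL_add (F G : LB → M) (f : CL) : LL (fun x => F x + G x) f = LL F f + LL G f := by
  induction f using Finsupp.induction_linear with
  | zero => simp
  | add f g hf hg => rw [map_add, map_add, map_add, hf, hg]; abel
  | single x a => rw [LL_single, LL_single, LL_single, smul_add]

private theorem LW_map (Φ : M →ₗ[ℝ] N) (F : Wd → M) (f : R) :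
    Φ (LW F f) = LW (fun x => Φ (F x)) f := by
  induction f using Finsupp.induction_linear with
  | zero => simp
  | add f g hf hg => rw [map_add, map_add, map_add, hf, hg]
  | single x a => rw [LW_single, LW_single, map_smul]

private theorem LL_map (Φ : M →ₗ[ℝ] N) (F : LB → M) (f : CL) :
    Φ (LL F f) = LL (fun x => Φ (F x)) f := by
  induction f using Finsupp.induction_linear with
  | zero => simp
  | add f g hf hg => rw [map_add, map_add, map_add, hf, hg]
  | single x a => rw [LL_single, LL_single, map_smul]

private theorem cl_single (x : Wd) (a : ℝ) (q : LB) : cl (single x a) q = single (x :: q) a := by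
  simp [cl, Finsupp.mapDomain_single]

private theorem cl_zero (q : LB) : cl 0 q = 0 := by
  simp [cl]

private theorem map_cl (Φ : CL →ₗ[ℝ] M) (f : R) (q : LB) :
    Φ (cl f q) = LW (fun x => Φ (single (x :: q) 1)) f := by
  induction f using Finsupp.induction_linear with
  | zero => rw [cl_zero, map_zero, map_zero]
  | add f g hf hg => rw [cl_add, map_add, map_add, hf, hg]
  | single x a =>
    rw [cl_single, LW_single, ← map_smul, Finsupp.smul_single, smul_eq_mul, mul_one]

private theorem map_cns (Φ : CL →ₗ[ℝ] M) (w : Wd) (c : CL) :
    Φ (cns w c) = LL (fun q => Φ (single (w :: q) 1)) c := by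
  induction c using Finsupp.induction_linear with
  | zero => rw [map_zero, map_zero, map_zero]
  | add f g hf hg => rw [map_add, map_add, map_add, hf, hg]
  | single x a =>
    rw [cns_single, LL_single, ← map_smul, Finsupp.smul_single, smul_eq_mul, mul_one]

end lin

private theorem mg_one (l : LB) : mg (single l 1) = mg0 l := by rw [mg_single, one_smul]

private theorem uo_one (l : LB) : uo (single l 1) = uo0 l := by rw [uo_single, one_smul]

private theorem cl_LW (F : Wd → R) (f : R) (q : LB) : cl (LW F f) q = LW (fun x => cl (F x) q) f := by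
  induction f using Finsupp.induction_linear with
  | zero => rw [map_zero, map_zero, cl_zero]
  | add f g hf hg => rw [map_add, map_add, cl_add, hf, hg]
  | single x a => rw [LW_single, LW_single, cl_smul]

/-- exchange of the two sums -/
private theorem swap (f : R) (m : CL) : LL (fun q => cl f q) m = LW (fun x => cns x m) f := by
  induction f using Finsupp.induction_linear with
  | zero =>
    rw [map_zero]
    have : (fun q : LB => cl 0 q) = fun _ => (0 : CL) := by
      funext q
      exact cl_zero q
    rw [this]
    induction m using Finsupp.induction_linear with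
    | zero => rw [map_zero]
    | add f g hf hg => rw [map_add, hf, hg, add_zero]
    | single x a => rw [LL_single, smul_zero]
  | add f g hf hg =>
    rw [map_add, ← hf, ← hg, ← LL_add]
    have : (fun q : LB => cl (f + g) q) = fun q => cl f q + cl g q := by
      funext q
      exact cl_add f g q
    rw [this]
  | single x a =>
    rw [LW_single]
    induction m using Finsupp.induction_linear with
    | zero => rw [map_zero, map_zero, smul_zero]
    | add f g hf hg => rw [map_add, map_add, smul_add, hf, hg]
    | single q b =>
      rw [LL_single, cl_single, cns_single, Finsupp.smul_single, Finsupp.smul_single,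
        smul_eq_mul, smul_eq_mul, mul_comm]

private theorem app_LW_bm_right (u : Wd) (f : R) :
    app true (LW (fun x => bm u x) f) = mu (bw (true :: u)) (app true f) := by
  induction f using Finsupp.induction_linear with
  | zero => simp
  | add f g hf hg => rw [map_add, map_add, map_add, map_add, hf, hg]
  | single x a =>
    have h : single x a = a • bw x := by
      rw [bw, Finsupp.smul_single, smul_eq_mul, mul_one]
    rw [LW_single, map_smul, app_bm, h, map_smul, map_smul, app_bw]

private theorem app_LW_bm_left (w : Wd) (f : R) :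
    app true (LW (fun x => bm x w) f) = mu (app true f) (bw (true :: w)) := by
  induction f using Finsupp.induction_linear with
  | zero => simp
  | add f g hf hg => rw [map_add, map_add, map_add, map_add, LinearMap.add_apply, hf, hg]
  | single x a =>
    have h : single x a = a • bw x := by
      rw [bw, Finsupp.smul_single, smul_eq_mul, mul_one]
    rw [LW_single, map_smul, app_bm, h, map_smul, map_smul, LinearMap.smul_apply, app_bw]

private theorem tau_bw (w : Wd) : tau (bw w) = sg w • bw w := by
  rw [bw, tau, Finsupp.lift_apply, Finsupp.sum_single_index (by simp), one_smul, bw]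

private theorem sg_cons_true (w : Wd) : sg (true :: w) = - sg w := by
  simp [sg, np, pow_succ]

private theorem app_LW_ub (f : R) :
    app true (LW (fun x => ub x) f) =
      mu (bw [false]) (app true f) - mu (tau (app true f)) (bw [false]) := by
  induction f using Finsupp.induction_linear with
  | zero => simp
  | add f g hf hg =>
    rw [map_add, map_add, map_add, map_add, map_add, map_add, LinearMap.add_apply, hf, hg]
    abel
  | single x a =>
    have h : single x a = a • bw x := by
      rw [bw, Finsupp.smul_single, smul_eq_mul, mul_one]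
    rw [LW_single, map_smul, app_ub, h, map_smul, map_smul, map_smul, map_smul,
      LinearMap.smul_apply, app_bw, tau_bw, sg_cons_true, map_smul, LinearMap.smul_apply,
      smul_add, neg_smul, smul_neg, sub_neg_eq_add]

private theorem ruleA (u v w : Wd) :
    LW (fun x => bm u x) (bm v w) = LW (fun y => bm y w) (bm u v) := by
  apply app_inj true
  rw [app_LW_bm_right, app_LW_bm_left, app_bm, app_bm, mu_assoc]

private theorem ruleB (v w : Wd) :
    LW (fun x => ub x) (bm v w) =
      LW (fun x => bm x w) (ub v) + sg (true :: v) • LW (fun x => bm v x) (ub w) := by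
  apply app_inj true
  have hv : sg v • bw (true :: v) = - tau (bw (true :: v)) := by
    rw [tau_bw, sg_cons_true, neg_smul, neg_neg]
  have hw : sg w • bw (true :: w) = - tau (bw (true :: w)) := by
    rw [tau_bw, sg_cons_true, neg_smul, neg_neg]
  have ev : app true (ub v) =
      mu (bw [false]) (bw (true :: v)) - mu (tau (bw (true :: v))) (bw [false]) := by
    rw [app_ub, ← LinearMap.smul_apply, ← map_smul, hv, map_neg, LinearMap.neg_apply,
      ← sub_eq_add_neg]
  have ew : app true (ub w) =
      mu (bw [false]) (bw (true :: w)) - mu (tau (bw (true :: w))) (bw [false]) := by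
    rw [app_ub, ← LinearMap.smul_apply, ← map_smul, hw, map_neg, LinearMap.neg_apply,
      ← sub_eq_add_neg]
  rw [app_LW_ub, map_add, map_smul, app_LW_bm_left, app_LW_bm_right, app_bm, ev, ew,
    ← LinearMap.smul_apply, ← map_smul, ← tau_bw, tau_mu, map_sub, map_sub,
    LinearMap.sub_apply]
  simp only [mu_assoc]
  abel

private theorem bm_np (v w x : Wd) (h : bm v w x ≠ 0) : np x + 1 = (np v + 1) + (np w + 1) := by
  have h1 : app true (bm v w) (true :: x) ≠ 0 := by
    rw [app_cons, if_pos rfl]
    exact h
  rw [app_bm] at h1
  have h2 := (IsH_mu _ _ _ _ _ _ (IsH_bw (true :: v)) (IsH_bw (true :: w)) _ h1).1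
  have e : ∀ y : Wd, np (true :: y) = np y + 1 := fun y => by simp [np]
  rw [e, e, e] at h2
  exact h2

private theorem npL_cons (w : Wd) (l : LB) : npL (w :: l) = np w + 1 + npL l := by
  simp [npL]

private theorem mg0_npL (l : LB) : ∀ q : LB, mg0 l q ≠ 0 → npL q = npL l := by
  induction l with
  | nil =>
    intro q h
    exact absurd (by simp [mg0]) h
  | cons w l ih =>
    cases l with
    | nil =>
      intro q h
      exact absurd (by simp [mg0]) h
    | cons v l =>
      intro q h
      rw [mg0_cons2, Finsupp.sub_apply] at h
      cases q with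
      | nil =>
        rw [cl_nil, cns_nil, sub_zero] at h
        exact absurd rfl h
      | cons u q =>
        rw [cl_apply, cns_apply] at h
        by_cases h1 : q = l
        · by_cases h2 : bm v w u = 0
          · rw [if_pos h1, h2, zero_sub, neg_ne_zero] at h
            by_cases h3 : w = u
            · rw [if_pos h3] at h
              rw [npL_cons, ih q h, npL_cons w, h3]
            · rw [if_neg h3] at h
              exact absurd rfl h
          · have := bm_np v w u h2
            rw [npL_cons, npL_cons, npL_cons, h1]
            omega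
        · rw [if_neg h1, zero_sub, neg_ne_zero] at h
          by_cases h3 : w = u
          · rw [if_pos h3] at h
            rw [npL_cons, ih q h, npL_cons w, h3]
          · rw [if_neg h3] at h
            exact absurd rfl h

private theorem uo_cns (w : Wd) (l : LB) :
    uo (cns w (mg0 l)) = cns w (uo (mg0 l)) +
      (-1 : ℝ) ^ npL l • LW (fun x => cns x (mg0 l)) (ub w) := by
  have h1 : uo (mg0 l) = LL uo0 (mg0 l) := rfl
  rw [map_cns, ← swap, h1, LL_map]
  have h2 : ∀ F : LB → CL, LL F (mg0 l) = (mg0 l).sum fun q a => a • F q := fun F => by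
    rw [LL, Finsupp.lift_apply]
  rw [h2, h2, h2, Finsupp.sum, Finsupp.sum, Finsupp.sum, Finset.smul_sum, ← Finset.sum_add_distrib]
  refine Finset.sum_congr rfl fun q hq => ?_
  have hq' := mg0_npL l q (Finsupp.mem_support_iff.1 hq)
  rw [uo_one, uo0, hq', smul_add, smul_comm]

private theorem mg_cl (f : R) (u : Wd) (l : LB) :
    mg (cl f (u :: l)) = LW (fun x => cl (bm u x) l) f - LW (fun x => cns x (mg0 (u :: l))) f := by
  rw [map_cl, ← LW_sub]
  have : (fun x => mg (single (x :: u :: l) 1)) =
      fun x => cl (bm u x) l - cns x (mg0 (u :: l)) := by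
    funext x
    rw [mg_one, mg0_cons2]
  rw [this]

private theorem mg_cns_cl (w : Wd) (f : R) (l : LB) :
    mg (cns w (cl f l)) = LW (fun y => cl (bm y w) l) f - cns w (mg (cl f l)) := by
  rw [map_cns, map_cl, map_cl mg, LW_map, ← LW_sub]
  have : (fun x => (LL fun q => mg (single (w :: q) 1)) (single (x :: l) 1)) =
      fun y => cl (bm y w) l - cns w (mg (single (y :: l) 1)) := by
    funext x
    rw [LL_single, one_smul, mg_one, mg0_cons2, mg_one]
  rw [this]

private theorem mg_cns_cns (w v : Wd) (m : CL) :
    mg (cns w (cns v m)) = LW (fun x => cns x m) (bm v w) - cns w (mg (cns v m)) := by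
  rw [map_cns, map_cns, map_cns mg, LL_map, ← swap, ← LL_sub]
  have : (fun q => (LL fun q => mg (single (w :: q) 1)) (single (v :: q) 1)) =
      fun q => cl (bm v w) q - cns w (mg (single (v :: q) 1)) := by
    funext q
    rw [LL_single, one_smul, mg_one, mg0_cons2, mg_one]
  rw [this]

theorem mg_mg0 (l : LB) : mg (mg0 l) = 0 := by
  induction l with
  | nil => simp [mg0]
  | cons w l ih =>
    cases l with
    | nil => simp [mg0]
    | cons v l =>
      cases l with
      | nil =>
        rw [mg0_cons2]
        have h0 : mg0 [v] = 0 := by simp [mg0]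
        rw [h0, map_zero, sub_zero, map_cl]
        have h1 : (fun x : Wd => mg (single [x] 1)) = fun _ => (0 : CL) := by
          funext x
          rw [mg_one]
          simp [mg0]
        rw [h1]
        have h2 := LW_smul (0 : ℝ) (fun _ : Wd => (0 : CL)) (bm v w)
        simpa using h2
      | cons u l =>
        rw [mg0_cons2 v u l, map_sub] at ih
        have ihw := congrArg (cns w) ih
        rw [map_sub, map_zero] at ihw
        have hA : LW (fun x => cl (bm u x) l) (bm v w) = LW (fun y => cl (bm y w) l) (bm u v) := by
          rw [← cl_LW, ← cl_LW, ruleA]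
        rw [mg0_cons2 w v (u :: l), mg0_cons2 v u l, map_sub, map_sub, map_sub, mg_cl, mg_cns_cl,
          mg_cns_cns, hA]
        have e : ∀ a b c d : CL, c - d = 0 → a - b - (a - c - (b - d)) = 0 := by
          intro a b c d h
          rw [sub_eq_zero] at h
          rw [h]
          abel
        exact e _ _ _ _ ihw

private theorem uo_cl (f : R) (l : LB) :
    uo (cl f l) = LW (fun x => cns x (uo0 l)) f + (-1 : ℝ) ^ npL l • cl (LW (fun x => ub x) f) l := by
  rw [map_cl, cl_LW, ← LW_smul, ← LW_add]
  have : (fun x => uo (single (x :: l) 1)) =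
      fun x => cns x (uo0 l) + (-1 : ℝ) ^ npL l • cl (ub x) l := by
    funext x
    rw [uo_one, uo0]
  rw [this]

theorem mg_uo0 (l : LB) : mg (uo0 l) = uo (mg0 l) := by
  induction l with
  | nil => simp [mg0, uo0]
  | cons w l ih =>
    cases l with
    | nil =>
      have h0 : mg0 [w] = 0 := by simp [mg0]
      have h3 : uo0 [w] = cl (ub w) [] := by simp [uo0, npL]
      rw [h0, map_zero, h3, map_cl]
      have h1 : (fun x : Wd => mg (single [x] 1)) = fun _ => (0 : CL) := by
        funext x
        rw [mg_one]
        simp [mg0]
      rw [h1]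
      have h2 := LW_smul (0 : ℝ) (fun _ : Wd => (0 : CL)) (ub w)
      simpa using h2
    | cons v l =>
      have hs : (-1 : ℝ) ^ npL (v :: l) = (-1 : ℝ) ^ npL l * sg (true :: v) := by
        rw [npL_cons, pow_add, mul_comm, sg]
        simp [np]
      have hu : uo0 (w :: v :: l) =
          cns w (uo0 (v :: l)) + (-1 : ℝ) ^ npL (v :: l) • cl (ub w) (v :: l) := by
        rw [uo0]
      have hv : uo0 (v :: l) = cns v (uo0 l) + (-1 : ℝ) ^ npL l • cl (ub v) l := by
        rw [uo0]
      have ihw := congrArg (cns w) ih
      rw [hv, map_add, map_smul, map_add, map_smul] at ihw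
      have hB := congrArg (fun f => cl f l) (ruleB v w)
      simp only [cl_add, cl_smul] at hB
      rw [hu, mg0_cons2, map_add, map_sub, map_smul, uo_cl, uo_cns, hB, mg_cl, ← cl_LW, hv,
        map_add, map_smul, map_add, map_smul, mg_cns_cns, mg_cns_cl, ← cl_LW, ← ihw, hs]
      simp only [smul_sub, smul_add, mul_smul]
      abel

end BrV
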