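import Pool.Agent.Lib.BrV.ThCh
import Pool.Agent.Lib.BrV.MgMg
import Pool.Agent.Lib.BrV.Grad

/-!
# BrV.RelSal: from `Va` to `Sal` modulo `δ_n` (7.5); high homological degrees

For `c b : CL` let `pr c b : Ph0` be the element with `(false, l) ↦ c l`, `(true, l) ↦ b l`.  From the definitions (`D01 i j = D1 i j []`, the action terms have no coefficient at `[]`):
`D0 (pr c b) = pr (- mg c + uo b) (mg b)`.   (*)
`uo_inj`: `Θ (uo c) = 2 δ_n Θ c`, `δ_n ≠ 0` (`dl_ne_zero`), `Th_inj`.
`relSal`: `x = Θ c`, `b = Θ b1` with `Th_surj` (`c` of degree `(r,n,k+1)`, `b1` of degree `(r-1,n,k)`; for `b` the support condition follows from the equation as `δ_n ≠ 0`).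
 `Θ (mg c) = sal SA x = δ_n b = (1/2) Θ (uo b1)`, so `mg c = uo b2`, `b2 = (1/2) b1` (`Th_inj`).  `uo (mg b2) = mg (uo b2) = mg (mg c) = 0` (`mg_uo0`, `mg_mg0`, linear), so `mg b2 = 0` (`uo_inj`).
 So `D0 (pr c b2) = 0`; it is of degree `(r, n, k+1)`: `Va` gives `pr c b2 = D0 (pr f h)`: `c = - mg f + uo h`.  `y = - Θ f`, `z = 2 Θ h`.
 If `r = 0`: the lists have length 0, `n ≥ 1`: `x = 0`.
`Va_high`: `IsH0 r n k c`, `n + 1 ≤ r`.  Indices `(false, l)`: `l.length = r > n = npL l ≥ l.length`: impossible.  So `c = pr 0 b` with `D0 c = pr (uo b) (mg b) = 0`; if `n ≥ 1`: `b = 0` by `uo_inj`;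
 if `n = 0`, `r ≥ 2`: `l.length = r - 1 ≥ 1` but `npL l = 0`: impossible.
-/

namespace BrV

open Finsupp

/-- the element of `Ph0` with `false` part `c` and `true` part `b` -/
noncomputable def pr (c b : CL) : Ph0 :=
  mapDomain (fun l => ((false, l) : Ix)) c + mapDomain (fun l => ((true, l) : Ix)) b

private theorem prInj (b : Bool) : Function.Injective (fun l : LB => ((b, l) : Ix)) := by
  intro l l' h
  exact (Prod.mk.inj h).2

theorem pr_false (c b : CL) (l : LB) : pr c b (false, l) = c l := by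
  unfold pr
  rw [Finsupp.add_apply]
  have h1 : mapDomain (fun l => ((false, l) : Ix)) c (false, l) = c l :=
    mapDomain_apply (prInj false) c l
  have h2 : mapDomain (fun l => ((true, l) : Ix)) b (false, l) = 0 := by
    refine mapDomain_of_notMem_range _ _ ?_
    rintro ⟨l', hl'⟩
    exact absurd (Prod.mk.inj hl').1 (by decide)
  rw [h1, h2, add_zero]

theorem pr_true (c b : CL) (l : LB) : pr c b (true, l) = b l := by
  unfold pr
  rw [Finsupp.add_apply]
  have h1 : mapDomain (fun l => ((true, l) : Ix)) b (true, l) = b l :=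
    mapDomain_apply (prInj true) b l
  have h2 : mapDomain (fun l => ((false, l) : Ix)) c (true, l) = 0 := by
    refine mapDomain_of_notMem_range _ _ ?_
    rintro ⟨l', hl'⟩
    exact absurd (Prod.mk.inj hl').1 (by decide)
  rw [h1, h2, zero_add]

private theorem pr_ext {x y : Ph0} (h1 : ∀ l, x (false, l) = y (false, l))
    (h2 : ∀ l, x (true, l) = y (true, l)) : x = y := by
  ext ⟨b, l⟩
  cases b
  · exact h1 l
  · exact h2 l

theorem exists_pr (x : Ph0) : ∃ c b : CL, x = pr c b := by
  refine ⟨comapDomain (fun l => ((false, l) : Ix)) x (prInj false).injOn,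
    comapDomain (fun l => ((true, l) : Ix)) x (prInj true).injOn, pr_ext ?_ ?_⟩
  · intro l
    rw [pr_false, comapDomain_apply]
  · intro l
    rw [pr_true, comapDomain_apply]

private theorem pr_add (c b c' b' : CL) : pr (c + c') (b + b') = pr c b + pr c' b' := by
  refine pr_ext ?_ ?_
  · intro l
    rw [pr_false, Finsupp.add_apply, Finsupp.add_apply, pr_false, pr_false]
  · intro l
    rw [pr_true, Finsupp.add_apply, Finsupp.add_apply, pr_true, pr_true]

private theorem pr_smul (a : ℝ) (c b : CL) : pr (a • c) (a • b) = a • pr c b := by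
  refine pr_ext ?_ ?_
  · intro l
    rw [pr_false, Finsupp.smul_apply, Finsupp.smul_apply, pr_false]
  · intro l
    rw [pr_true, Finsupp.smul_apply, Finsupp.smul_apply, pr_true]

private theorem pr_single_false (l : LB) (a : ℝ) : pr (single l a) 0 = single (false, l) a := by
  unfold pr
  rw [mapDomain_single, mapDomain_zero, add_zero]

private theorem pr_single_true (l : LB) (a : ℝ) : pr 0 (single l a) = single (true, l) a := by
  unfold pr
  rw [mapDomain_single, mapDomain_zero, zero_add]

private theorem bw_cons_nil (a : Bool) (w : Wd) : bw (a :: w) [] = 0 := by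
  unfold bw
  exact single_eq_of_ne (by simp)

private theorem bw_nil_nil : bw [] [] = 1 := by
  unfold bw
  exact single_eq_same

private theorem dB_nil (b b' : Bool) (l l' : LB) :
    dB b l (b', l') [] = if b = b' then - mg0 l l' else 0 := by
  cases l with
  | nil =>
    rw [dB, mg0]
    simp
  | cons w l =>
    rw [dB, Finsupp.sub_apply, Finsupp.sub_apply, emb_apply]
    have h1 : (single (b, l) (bw (true :: w)) : Ph) (b', l') [] = 0 := by
      by_cases h : ((b', l') : Ix) = (b, l)
      · rw [h, single_eq_same, bw_cons_nil]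
      · rw [single_eq_of_ne h, Finsupp.zero_apply]
    rw [h1, zero_sub]
    split_ifs
    · rw [Finsupp.smul_apply, bw_nil_nil, smul_eq_mul, mul_one]
    · rw [Finsupp.zero_apply, neg_zero]

private theorem D01_false (l : LB) : D01 (false, l) = pr (- mg0 l) 0 := by
  refine pr_ext ?_ ?_
  · intro l'
    rw [D01_apply, pr_false, D1, dB_nil, if_pos rfl, Finsupp.neg_apply]
  · intro l'
    rw [D01_apply, pr_true, D1, dB_nil, if_neg (by decide), Finsupp.zero_apply]

private theorem D01_true (l : LB) : D01 (true, l) = pr (uo0 l) (mg0 l) := by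
  have hs : ∀ j : Ix, (single (false, l) ((-1 : ℝ) ^ npL l • bw [false]) : Ph) j [] = 0 := by
    intro j
    by_cases h : j = (false, l)
    · rw [h, single_eq_same, Finsupp.smul_apply, bw_cons_nil, smul_zero]
    · rw [single_eq_of_ne h, Finsupp.zero_apply]
  refine pr_ext ?_ ?_
  · intro l'
    rw [D01_apply, pr_false, D1, Finsupp.sub_apply, Finsupp.add_apply, Finsupp.sub_apply,
      Finsupp.add_apply, hs, dB_nil, if_neg (by decide), emb_apply, if_pos rfl,
      Finsupp.smul_apply, bw_nil_nil, smul_eq_mul, mul_one, add_zero, sub_zero]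
  · intro l'
    rw [D01_apply, pr_true, D1, Finsupp.sub_apply, Finsupp.add_apply, Finsupp.sub_apply,
      Finsupp.add_apply, hs, dB_nil, if_pos rfl, emb_apply, if_neg (by decide),
      Finsupp.zero_apply, add_zero, zero_sub, neg_neg]

private theorem pr_zero : pr 0 0 = 0 := by
  refine pr_ext ?_ ?_
  · intro l
    rw [pr_false]
    rfl
  · intro l
    rw [pr_true]
    rfl

private theorem D0_pr_left (c : CL) : D0 (pr c 0) = pr (- mg c) 0 := by
  induction c using Finsupp.induction_linear with
  | zero => rw [pr_zero, map_zero, map_zero, neg_zero, pr_zero]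
  | add c c' hc hc' =>
    have h1 : pr (c + c') 0 = pr c 0 + pr c' 0 := by rw [← pr_add, add_zero]
    have h2 : pr (- mg (c + c')) 0 = pr (- mg c) 0 + pr (- mg c') 0 := by
      rw [← pr_add, add_zero, map_add, neg_add]
    rw [h1, map_add, hc, hc', h2]
  | single l a =>
    rw [pr_single_false, D0_single, D01_false, ← pr_smul, mg_single, smul_neg, smul_zero]

private theorem D0_pr_right (b : CL) : D0 (pr 0 b) = pr (uo b) (mg b) := by
  induction b using Finsupp.induction_linear with
  | zero => rw [pr_zero, map_zero, map_zero, map_zero, pr_zero]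
  | add c c' hc hc' =>
    have h1 : pr 0 (c + c') = pr 0 c + pr 0 c' := by rw [← pr_add, add_zero]
    rw [h1, map_add, hc, hc', ← pr_add, map_add, map_add]
  | single l a =>
    rw [pr_single_true, D0_single, D01_true, ← pr_smul, mg_single, uo_single]

theorem D0_pr (c b : CL) : D0 (pr c b) = pr (- mg c + uo b) (mg b) := by
  have h1 : pr c b = pr c 0 + pr 0 b := by rw [← pr_add, add_zero, zero_add]
  rw [h1, map_add, D0_pr_left, D0_pr_right, ← pr_add, zero_add]

private theorem dl_ne (n : ℕ) (hn : 1 ≤ n) : dl 0 n ≠ 0 := by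
  intro h
  have h1 := congrArg (MvPolynomial.eval fun i => if i = 1 then (1 : ℝ) else 0) h
  unfold dl at h1
  rw [map_sum, map_zero] at h1
  have h2 : ∀ j ∈ Finset.range n, j ≠ 0 →
      MvPolynomial.eval (fun i => if i = 1 then (1 : ℝ) else 0)
        (MvPolynomial.C ((-1 : ℝ) ^ j) * MvPolynomial.X (0 + j + 1)) = 0 := by
    intro j _ hj
    rw [map_mul, MvPolynomial.eval_X, if_neg (by omega), mul_zero]
  rw [Finset.sum_eq_single_of_mem 0 (Finset.mem_range.2 hn) h2] at h1
  simp at h1

private theorem mul_dl_zero {n : ℕ} (hn : 1 ≤ n) {f : PA} (h : 2 * dl 0 n * f = 0) : f = 0 := by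
  rcases mul_eq_zero.1 h with h1 | h1
  · rcases mul_eq_zero.1 h1 with h2 | h2
    · exact absurd h2 two_ne_zero
    · exact absurd h2 (dl_ne n hn)
  · exact h1

theorem uo_inj (n k : ℕ) (hn : 1 ≤ n) (c : CL) (hc : ∀ l, c l ≠ 0 → npL l = n ∧ nzL l = k)
    (h : uo c = 0) : c = 0 := by
  refine Th_inj n k c hc ?_
  ext1 l
  have h1 := Th_uo n c (fun l hl => (hc l hl).1) l
  rw [h, map_zero, Finsupp.zero_apply] at h1
  exact mul_dl_zero hn h1.symm

private theorem mg_supp (c : CL) (q : LB) (h : mg c q ≠ 0) : ∃ l, c l ≠ 0 ∧ mg0 l q ≠ 0 := by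
  unfold mg at h
  rw [lift_apply, Finsupp.sum, Finsupp.finsetSum_apply] at h
  obtain ⟨l, hl, hne⟩ := Finset.exists_ne_zero_of_sum_ne_zero h
  refine ⟨l, Finsupp.mem_support_iff.1 hl, ?_⟩
  intro h0
  apply hne
  rw [Finsupp.smul_apply, h0, smul_zero]

private theorem uo_supp (c : CL) (q : LB) (h : uo c q ≠ 0) : ∃ l, c l ≠ 0 ∧ uo0 l q ≠ 0 := by
  unfold uo at h
  rw [lift_apply, Finsupp.sum, Finsupp.finsetSum_apply] at h
  obtain ⟨l, hl, hne⟩ := Finset.exists_ne_zero_of_sum_ne_zero h
  refine ⟨l, Finsupp.mem_support_iff.1 hl, ?_⟩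
  intro h0
  apply hne
  rw [Finsupp.smul_apply, h0, smul_zero]

private theorem mg_mg (c : CL) : mg (mg c) = 0 := by
  induction c using Finsupp.induction_linear with
  | zero => simp
  | add c c' hc hc' => rw [map_add, map_add, hc, hc', add_zero]
  | single l a => rw [mg_single, map_smul, mg_mg0, smul_zero]

private theorem mg_uo (c : CL) : mg (uo c) = uo (mg c) := by
  induction c using Finsupp.induction_linear with
  | zero => simp
  | add c c' hc hc' => rw [map_add, map_add, hc, hc', map_add, map_add]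
  | single l a => rw [uo_single, map_smul, mg_uo0, mg_single, map_smul]

private theorem pr_IsH0 {r n k : ℕ} {c b : CL}
    (hc : ∀ l, c l ≠ 0 → l.length = r ∧ npL l = n ∧ nzL l = k)
    (hb : ∀ l, b l ≠ 0 → l.length + 1 = r ∧ npL l = n ∧ nzL l + 1 = k) :
    IsH0 r n k (pr c b) := by
  rintro ⟨x, l⟩ h
  cases x
  · rw [pr_false] at h
    have := hc l h
    simpa [rI, nI, kI] using this
  · rw [pr_true] at h
    have := hb l h
    simpa [rI, nI, kI] using this

private theorem IsH0_pr {r n k : ℕ} {c b : CL} (h : IsH0 r n k (pr c b)) :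
    (∀ l, c l ≠ 0 → l.length = r ∧ npL l = n ∧ nzL l = k) ∧
    (∀ l, b l ≠ 0 → l.length + 1 = r ∧ npL l = n ∧ nzL l + 1 = k) := by
  constructor
  · intro l hl
    have := h (false, l) (by rw [pr_false]; exact hl)
    simpa [rI, nI, kI] using this
  · intro l hl
    have := h (true, l) (by rw [pr_true]; exact hl)
    simpa [rI, nI, kI] using this

private theorem pr_inj {c b c' b' : CL} (h : pr c b = pr c' b') : c = c' ∧ b = b' := by
  constructor
  · ext l
    rw [← pr_false c b l, h, pr_false]
  · ext l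
    rw [← pr_true c b l, h, pr_true]

theorem relSal (r n k : ℕ) (hn : 1 ≤ n) (hV : Va r n (k + 1)) (x : List ℕ →₀ PA)
    (hx : IsS (Bn n (k + 1)) r n x) (b : List ℕ →₀ PA) (hb : ∀ l, b l ∈ Bn n k)
    (h : ∀ l, sal SA x l = dl 0 n * b l) :
    ∃ y z : List ℕ →₀ PA, IsS (Bn n (k + 1)) (r + 1) n y ∧ (∀ l, z l ∈ Bn n k) ∧
      ∀ l, x l = sal SA y l + dl 0 n * z l := by
  rcases Nat.eq_zero_or_pos r with hr | hr
  · -- there are no compositions of length zero
    have hx0 : x = 0 := by
      ext1 l
      by_contra hne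
      have h1 := hx.1 l (by simpa using hne)
      rw [hr] at h1
      have h2 : l = [] := List.length_eq_zero_iff.1 h1.1
      rw [h2] at h1
      have h3 : tot [] = 0 := rfl
      omega
    refine ⟨0, 0, ⟨fun l hl => absurd rfl hl, fun l => (Bn n (k + 1)).zero_mem⟩,
      fun l => (Bn n k).zero_mem, fun l => ?_⟩
    rw [hx0, map_zero, Finsupp.zero_apply, mul_zero, add_zero]
  · obtain ⟨s, rfl⟩ : ∃ s, r = s + 1 := ⟨r - 1, by omega⟩
    have hbS : IsS (Bn n k) s n b := by
      refine ⟨fun l hl => ?_, hb⟩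
      have h1 : sal SA x l ≠ 0 := by
        rw [h l]
        exact mul_ne_zero (dl_ne n hn) hl
      have h2 := sal_supp SA (s + 1) n x hx.1 l h1
      exact ⟨by omega, h2.2⟩
    obtain ⟨c, hc, hcx⟩ := Th_surj (s + 1) n (k + 1) x hx
    obtain ⟨b1, hb1, hb1x⟩ := Th_surj s n k b hbS
    set b2 : CL := (1 / 2 : ℝ) • b1 with hb2
    have hb2s : ∀ l, b2 l ≠ 0 → l.length = s ∧ npL l = n ∧ nzL l = k := by
      intro l hl
      refine hb1 l ?_
      intro h0
      apply hl
      rw [hb2, Finsupp.smul_apply, h0, smul_zero]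
    have hthb2 : ∀ l, 2 * dl 0 n * Th b2 l = dl 0 n * b l := by
      intro l
      rw [hb2, map_smul, hb1x, Finsupp.smul_apply]
      have h3 : (2 : PA) * ((1 / 2 : ℝ) • b l) = b l := by
        have h4 : (2 : PA) * ((1 / 2 : ℝ) • b l) = (2 : ℝ) • ((1 / 2 : ℝ) • b l) := by
          rw [MvPolynomial.smul_eq_C_mul (a := (2 : ℝ))]
          rw [map_ofNat]
        rw [h4, smul_smul]
        norm_num
      calc 2 * dl 0 n * ((1 / 2 : ℝ) • b l) = dl 0 n * (2 * ((1 / 2 : ℝ) • b l)) := by ring
        _ = _ := by rw [h3]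
    have hmgc : mg c = uo b2 := by
      have h5 : mg c - uo b2 = 0 := by
        refine Th_inj n (k + 1) _ ?_ ?_
        · intro q hq
          rw [Finsupp.sub_apply] at hq
          by_cases h6 : mg c q = 0
          · have h7 : uo b2 q ≠ 0 := by
              intro h0
              apply hq
              rw [h6, h0, sub_zero]
            obtain ⟨l, hl, hl'⟩ := uo_supp _ _ h7
            have h8 := hb2s l hl
            have h9 := uo0_supp _ _ hl'
            omega
          · obtain ⟨l, hl, hl'⟩ := mg_supp _ _ h6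
            have h8 := hc l hl
            have h9 := mg0_supp _ _ hl'
            omega
        · ext1 l
          rw [map_sub, Finsupp.sub_apply, Th_mg, hcx, h l,
            Th_uo n b2 (fun l hl => (hb2s l hl).2.1) l, hthb2 l, sub_self, Finsupp.zero_apply]
      exact sub_eq_zero.1 h5
    have hmgb : mg b2 = 0 := by
      refine uo_inj n k hn (mg b2) ?_ ?_
      · intro q hq
        obtain ⟨l, hl, hl'⟩ := mg_supp _ _ hq
        have h8 := hb2s l hl
        have h9 := mg0_supp _ _ hl'
        omega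
      · rw [← mg_uo, ← hmgc, mg_mg]
    have hD : D0 (pr c b2) = 0 := by
      rw [D0_pr, hmgc, hmgb, neg_add_cancel, pr_zero]
    obtain ⟨e, he, hDe⟩ := hV (pr c b2) (pr_IsH0 hc (fun l hl => by
      have := hb2s l hl
      omega)) hD
    obtain ⟨f, g, rfl⟩ := exists_pr e
    obtain ⟨hf, hg⟩ := IsH0_pr he
    rw [D0_pr] at hDe
    obtain ⟨hDc, -⟩ := pr_inj hDe
    have hf' : IsS (Bn n (k + 1)) (s + 1 + 1) n (Th f) := Th_IsS _ _ _ f hf
    have hg' : IsS (Bn n k) (s + 1) n (Th g) := Th_IsS _ _ _ g (fun l hl => by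
      have := hg l hl
      omega)
    refine ⟨- Th f, (2 : ℝ) • Th g, ⟨?_, ?_⟩, ?_, ?_⟩
    · intro l hl
      refine hf'.1 l ?_
      intro h0
      apply hl
      rw [Finsupp.neg_apply, h0, neg_zero]
    · intro l
      rw [Finsupp.neg_apply]
      exact (Bn n (k + 1)).neg_mem (hf'.2 l)
    · intro l
      rw [Finsupp.smul_apply]
      exact (Bn n k).smul_mem _ (hg'.2 l)
    · intro l
      rw [← hcx, ← hDc, map_add, map_neg, Th_mg, map_neg, Finsupp.add_apply,
        Th_uo n g (fun l hl => (hg l hl).2.1) l, Finsupp.smul_apply,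
        MvPolynomial.smul_eq_C_mul, map_ofNat]
      ring

private theorem length_le_npL (l : LB) : l.length ≤ npL l := by
  induction l with
  | nil => simp [npL]
  | cons w l ih =>
    have h1 : npL (w :: l) = np w + 1 + npL l := by
      unfold npL
      rw [List.map_cons, List.sum_cons]
    rw [h1, List.length_cons]
    omega

theorem Va_high (r n k : ℕ) (h : n + 1 ≤ r) (h' : 1 ≤ n ∨ 2 ≤ r) (hk : 1 ≤ k) : Va r n k := by
  intro c hc hD
  obtain ⟨a, b, rfl⟩ := exists_pr c
  obtain ⟨ha, hb⟩ := IsH0_pr hc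
  have ha0 : a = 0 := by
    ext l
    by_contra hne
    have h1 := ha l (by simpa using hne)
    have h2 := length_le_npL l
    omega
  have hb0 : b = 0 := by
    rcases Nat.eq_zero_or_pos n with hn | hn
    · ext l
      by_contra hne
      have h1 := hb l (by simpa using hne)
      have h2 := length_le_npL l
      omega
    · rw [D0_pr, ha0, map_zero, neg_zero, zero_add, ← pr_zero] at hD
      obtain ⟨h1, -⟩ := pr_inj hD
      exact uo_inj n (k - 1) hn b (fun l hl => by
        have := hb l hl
        omega) h1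
  rw [ha0, hb0, pr_zero]
  exact ⟨0, fun i hi => absurd rfl hi, map_zero _⟩

end BrV
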