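import Pool.Agent.Lib.BrV.SDefs
import Pool.Agent.Lib.BrV.RelSal
import Pool.Agent.Lib.BrV.PiMap
import Pool.Agent.Lib.BrV.CRDefs

/-!
# Part 2, section 4: definitions for the passage from `Φ0` to `Sal(Sym^2 V)`
-/

namespace BrV

open Finsupp

noncomputable section

/-- the quotient `Z / (Z ∩ B)` has dimension `d` -/
def HD {V : Type} [AddCommGroup V] [Module ℝ V] (Z B : Submodule ℝ V) (d : ℕ) : Prop :=
  Module.rank ℝ (Z ⧸ B.comap Z.subtype) = (d : Cardinal)

/-- cycles of `Φ0` -/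
def Z0 (r n k : ℕ) : Submodule ℝ Ph0 where
  carrier := {c | IsH0 r n k c ∧ D0 c = 0}
  zero_mem' := ⟨fun i h => absurd rfl h, map_zero _⟩
  add_mem' := by
    rintro x y ⟨h1, h2⟩ ⟨h3, h4⟩
    refine ⟨fun i hi => ?_, by rw [map_add, h2, h4, add_zero]⟩
    by_cases h : x i = 0
    · exact h3 i (by intro h'; exact hi (by rw [Finsupp.add_apply, h, h', add_zero]))
    · exact h1 i h
  smul_mem' := by
    rintro a x ⟨h1, h2⟩
    exact ⟨fun i hi => h1 i (by intro h'; exact hi (by rw [Finsupp.smul_apply, h', smul_zero])),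
      by rw [map_smul, h2, smul_zero]⟩

/-- boundaries of `Φ0` -/
def B0 (r n k : ℕ) : Submodule ℝ Ph0 where
  carrier := {c | ∃ e, IsH0 (r + 1) n k e ∧ D0 e = c}
  zero_mem' := ⟨0, fun i h => absurd rfl h, map_zero _⟩
  add_mem' := by
    rintro _ _ ⟨x, h1, rfl⟩ ⟨y, h3, rfl⟩
    refine ⟨x + y, fun i hi => ?_, map_add _ _ _⟩
    by_cases h : x i = 0
    · exact h3 i (by intro h'; exact hi (by rw [Finsupp.add_apply, h, h', add_zero]))
    · exact h1 i h
  smul_mem' := by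
    rintro a _ ⟨x, h1, rfl⟩
    exact ⟨a • x, fun i hi => h1 i
      (by intro h'; exact hi (by rw [Finsupp.smul_apply, h', smul_zero])), map_smul _ _ _⟩

/-- the part with the indices `(false, l)` -/
def fpart : Ph0 →ₗ[ℝ] CL :=
  Finsupp.lcomapDomain (fun l => ((false, l) : Ix)) fun _ _ h => (Prod.mk.inj h).2

/-- the map `Φ0 → Sal(M)`, `(c, b) ↦ piM (Θ c)` -/
def Lam (g : ℕ) : Ph0 →ₗ[ℝ] (List ℕ →₀ MQ g) :=
  (Finsupp.mapRange.linearMap (piM g).toLinearMap).comp (Th.comp fpart)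

/-- the derivation of `MQ g` with `T ↦ 1`, `X (some j) ↦ 0`, applied to all coefficients -/
def EM (g : ℕ) : (List ℕ →₀ MQ g) →ₗ[ℝ] (List ℕ →₀ MQ g) := Finsupp.mapRange.linearMap
  (MvPolynomial.pderiv (R := ℝ) (none : Option (Fin (2 * g)))).toLinearMap

/-- the inclusion of the coefficients without `T` -/
def JM (g : ℕ) : (List ℕ →₀ MvPolynomial (Fin (2 * g)) ℝ) →ₗ[ℝ] (List ℕ →₀ MQ g) :=
  Finsupp.mapRange.linearMap (emT g).toLinearMap

/-- the derivation with `X i ↦ 1` for all `i` -/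
def EA : Derivation ℝ PA PA := MvPolynomial.mkDerivation ℝ fun _ => 1

/-- delete an initial `z` (the last element of the list) -/
def Ef0 : Wd → R
  | [] => 0
  | [false] => bw []
  | a :: w => app a (Ef0 w)

/-- delete an initial `z` of one of the blocks -/
def EL0 : LB → CL
  | [] => 0
  | w :: l => cl (Ef0 w) l + cns w (EL0 l)

/-- linear extension -/
def EL : CL →ₗ[ℝ] CL := Finsupp.lift CL ℝ LB EL0

end

end BrV
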