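import Pool.Agent.Lib.BrV.SProj
import Pool.Agent.Lib.BrV.SHDef
import Pool.Agent.Lib.BrV.BarN

/-!
# Part 3 (lowest degree for all `k`): definitions.  Paper: /team-store/MP_97e538_al_paper3.md

A LIST (type `LW`) is a list of words; its HEAD IS THE FIRST WORD.  (Inside a word the head is the LAST letter, as before.)
-/

namespace BrV

open Finsupp

noncomputable section

/-- the coefficient of `p^j` in the decomposition `f = ∑ (gc j f) * p^j`, `gc j f ∈ G'` -/
def gc (j : ℕ) : R →ₗ[ℝ] R := gp.comp ((del true) ^ j : Module.End ℝ R)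

/-- lists of words, the head is the FIRST word -/
abbrev LW : Type := List Wd

/-- combinations of lists of words -/
abbrev CW : Type := LW →₀ ℝ

/-- number of `p` -/
def npW (q : LW) : ℕ := (q.map np).sum

/-- number of `z` -/
def nzW (q : LW) : ℕ := (q.map nz).sum

/-- homogeneous of bidegree `(n, k)` -/
def IsW (n k : ℕ) (y : CW) : Prop := ∀ q, y q ≠ 0 → npW q = n ∧ nzW q = k

/-- `cb f y = ∑ f(u) y(q) (u :: q)` -/
def cb : R →ₗ[ℝ] CW →ₗ[ℝ] CW := Finsupp.lift (CW →ₗ[ℝ] CW) ℝ Wd fun u => cns u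

/-- the word `v` acts on a list: `v (w :: l) = ∑_j gc_j(v*w) :: (p^j l)` -/
def act0 : LW → Wd → CW
  | [], v => if v = [] then single [] 1 else 0
  | w :: l, v => ∑ j ∈ Finset.range (np v + np w + 1), cb (gc j (sh v w)) (act0 l (pw j))

/-- the action of `R` on combinations of lists -/
def act : R →ₗ[ℝ] CW →ₗ[ℝ] CW :=
  Finsupp.lift (CW →ₗ[ℝ] CW) ℝ Wd fun v => Finsupp.lift CW ℝ LW fun l => act0 l v

/-- alternating sum of the merges of neighbours, from the first one -/
def bz0 : LW → CW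
  | [] => 0
  | [w] => if w = [] then single [] 1 else 0
  | w :: v :: l => cl (sh w v) l - cns w (bz0 (v :: l))

/-- linear extension -/
def bz : CW →ₗ[ℝ] CW := Finsupp.lift CW ℝ LW bz0

/-- contraction: insert an empty first word -/
def ss0 : LW → CW
  | [] => single [[]] 1
  | w :: l => if w = [] then 0 else single ([] :: w :: l) 1

/-- linear extension -/
def ss : CW →ₗ[ℝ] CW := Finsupp.lift CW ℝ LW ss0

/-- the word ends in `z` -/
def Zw (w : Wd) : Prop := w.head? = some false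

/-- lists of length `m`, all words end in `z` -/
def TT (m : ℕ) : Submodule ℝ CW := supported ℝ ℝ {q | q.length = m ∧ ∀ w ∈ q, Zw w}

/-- lists of length `m`; the first word is empty or ends in `z`, the others end in `z` -/
def YY (m : ℕ) : Submodule ℝ CW :=
  supported ℝ ℝ {q | q.length = m ∧ (∀ w ∈ q, w = [] ∨ Zw w) ∧ ∀ w ∈ q.tail, Zw w}

/-- the kernel of `bz` in `YY m` -/
def KK (m : ℕ) : Submodule ℝ CW := YY m ⊓ LinearMap.ker bz

/-- the part of the lists with nonempty first word -/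
def tp : CW →ₗ[ℝ] CW := Finsupp.lift CW ℝ LW fun q =>
  match q with
  | [] => 0
  | w :: l => if w = [] then 0 else single (w :: l) 1

/-! ### the complexes `Φ(Q)` for modules `Q` of lists -/

/-- coefficients in `CW` on the right -/
abbrev PhL : Type := Ix →₀ CW

/-- the differential `D (i ⊗ y) = ∑_j j ⊗ (D1 i j) y` -/
def DL : PhL →ₗ[ℝ] PhL := Finsupp.lsum ℝ fun i =>
  { toFun := fun y => Finsupp.mapRange.linearMap (act.flip y) (D1 i)
    map_add' := fun y z => by
      ext1 j
      simp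
    map_smul' := fun a y => by
      ext1 j
      simp }

/-- homogeneous of homological degree `r` and bidegree `(n, k)` -/
def IsHL (r n k : ℕ) (x : PhL) : Prop :=
  ∀ i q, x i q ≠ 0 → rI i = r ∧ nI i + npW q = n ∧ kI i + nzW q = k

/-- `bz` on the coefficients -/
def BZ : PhL →ₗ[ℝ] PhL := Finsupp.mapRange.linearMap bz

/-- `ss` on the coefficients -/
def SS : PhL →ₗ[ℝ] PhL := Finsupp.mapRange.linearMap ss

/-- the connecting map `δ x = D (S x)` -/
def dlt : PhL →ₗ[ℝ] PhL := DL.comp SS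

/-- scalars as elements of `Φ(CW)`: the empty list -/
def ioL : Ph0 →ₗ[ℝ] PhL :=
  Finsupp.mapRange.linearMap (LinearMap.toSpanSingleton ℝ CW (single [] 1))

/-- cycles of `Φ(KK m)` -/
def ZL (m r n k : ℕ) : Set PhL := {x | IsHL r n k x ∧ (∀ i, x i ∈ KK m) ∧ DL x = 0}

/-- boundaries of `Φ(KK m)` -/
def BL (m r n k : ℕ) : Set PhL := {x | ∃ y, IsHL (r + 1) n k y ∧ (∀ i, y i ∈ KK m) ∧ DL y = x}

/-- `H_r(Φ(YY (m+1)))_(n,k) = 0` -/
def YAc (m r n k : ℕ) : Prop := ∀ x : PhL, IsHL r n k x → (∀ i, x i ∈ YY (m + 1)) → DL x = 0 →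
  ∃ y : PhL, IsHL (r + 1) n k y ∧ (∀ i, y i ∈ YY (m + 1)) ∧ DL y = x

/-- the component of homological degree `r` and bidegree `(n, k)` -/
def cmpL (r n k : ℕ) : PhL →ₗ[ℝ] PhL := Finsupp.lsum ℝ fun i =>
  (Finsupp.lsingle i).comp <| Finsupp.lift CW ℝ LW fun q =>
    if rI i = r ∧ nI i + npW q = n ∧ kI i + nzW q = k then single q 1 else 0

/-- the part of the lists whose tail has less than `k` letters `z` -/
def fl (k : ℕ) : CW →ₗ[ℝ] CW := Finsupp.lift CW ℝ LW fun q =>
  if nzW q.tail < k then single q 1 else 0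

/-- `fl k` on the coefficients -/
def tL (k : ℕ) : PhL →ₗ[ℝ] PhL := Finsupp.mapRange.linearMap (fl k)

/-- lists of blocks which are powers of `p`: `[a]` stands for the block `p^(a+1)` -/
def jL (s : List ℕ) : Ix := (false, s.map pw)

/-- the pure part: `s ⊗ t ↦ (blocks p^(a+1), a ∈ s) ⊗ ([] :: t)` -/
def pur : (List ℕ →₀ CW) →ₗ[ℝ] PhL :=
  (Finsupp.lmapDomain CW ℝ jL).comp (Finsupp.mapRange.linearMap (cns []))

/-- operators `p^a` -/
def eA (a : ℕ) : CW →ₗ[ℝ] CW := act (bw (pw a))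

/-- the functional of `BarN`: `[a] ⊗ v ↦ (2 / (a+1)) e_a v` for odd `a` -/
def bF {N : Type} [AddCommGroup N] [Module ℝ N] (e : ℕ → N →ₗ[ℝ] N) :
    (List ℕ →₀ N) →ₗ[ℝ] N := Finsupp.lsum ℝ fun l =>
  match l with
  | [a] => if Odd a then (2 / ((a : ℝ) + 1)) • e a else 0
  | _ => 0

/-- the coefficients at the indices `jL [a]`, first word nonempty -/
def uL : PhL →ₗ[ℝ] (List ℕ →₀ CW) := Finsupp.lsum ℝ fun i =>
  match i with
  | (false, [w]) => if w = pw (np w) then (Finsupp.lsingle [np w]).comp tp else 0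
  | _ => 0

/-- the functional on `Φ(KK k)_1` -/
def Fn : PhL →ₗ[ℝ] CW := (bF eA).comp uL

/-- the functional on `Φ0_(k+1)` -/
def phi (k : ℕ) : Ph0 →ₗ[ℝ] CW := (Fn.comp ((dlt ^ k : Module.End ℝ PhL))).comp ioL

/-- combinations of bidegree `(n, k)` -/
def WW (n k : ℕ) : Submodule ℝ CW := supported ℝ ℝ {q | npW q = n ∧ nzW q = k}

/-- `𝒢_(N,k)` -/
def GG (N k : ℕ) : Submodule ℝ CW := TT k ⊓ WW N k ⊓ LinearMap.ker (act (bw [true])) ⊓
  LinearMap.ker (act (bw [true, true])) ⊓ LinearMap.ker bz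

/-! ### two letters `z` -/

/-- delete the initial letter of a word (the last element of the list) if it is `c` -/
def din0 (c : Bool) : Wd → R
  | [] => 0
  | [a] => if a = c then bw [] else 0
  | a :: b :: w => app a (din0 c (b :: w))

/-- linear extension -/
def din (c : Bool) : R →ₗ[ℝ] R := Finsupp.lift R ℝ Wd (din0 c)

/-- the relations between the coefficients of `∑ f a b • x_a ⊗ x_b` in degree `a + b = M` which say that
`∑ f a b • x_a * x_b = 0` -/
def C2 (M : ℕ) (f : ℕ → ℕ → ℝ) : Prop :=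
  (∀ m n, 2 * m + 2 * n = M → f (2 * m) (2 * n) = - f (2 * n) (2 * m)) ∧
  (∀ m n, 2 * m + 2 * n + 2 = M → f (2 * m + 2) (2 * n) + f (2 * m) (2 * n + 2) = 0) ∧
  (∀ m n, 2 * m + 2 * n + 2 = M →
    f (2 * m + 1) (2 * n + 1) + f (2 * n + 1) (2 * m + 1) = 2 * f (2 * m) (2 * n + 2)) ∧
  (∀ m n, 2 * m + 2 * n + 1 = M → f (2 * m + 1) (2 * n) = f (2 * m) (2 * n + 1)) ∧
  (∀ m n, 2 * m + 2 * n + 1 = M → f (2 * m + 1) (2 * n) = - f (2 * n + 1) (2 * m))

/-- the list of the words `x_a` -/
def xl (s : List ℕ) : LW := s.map xw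

/-- the pattern with all entries odd (`s.length` odd), or the first entry even and the others odd -/
def pat (s : List ℕ) : List ℕ :=
  if Odd s.length then s.map fun a => 2 * a + 1 else
    match s with
    | [] => []
    | a :: t => (2 * a) :: t.map fun b => 2 * b + 1

/-- number of even entries -/
def ev2 (s : List ℕ) : ℕ := s.countP fun a => a % 2 = 0

/-- the coefficient functions of the elements of `𝒢_(N,k)` -/
structure Ant (k N : ℕ) (f : List ℕ → ℝ) : Prop where
  supp : ∀ a, f a ≠ 0 → a.length = k ∧ a.sum = N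
  rel : ∀ p s : List ℕ, p.length + s.length + 2 = k → ∀ M, C2 M fun a b => f (p ++ a :: b :: s)

/-- alternating functions on lists -/
def Alt (g : List ℕ → ℝ) : Prop := ∀ p s a b, g (p ++ a :: b :: s) = - g (p ++ b :: a :: s)

/-- the sum of the lists with one even entry over `s` -/
def SPe : List ℕ → CW
  | [] => 0
  | a :: s => single (xl (2 * a :: s.map fun b => 2 * b + 1)) 1 + cns (xw (2 * a + 1)) (SPe s)

/-- signed removal of an entry equal to `x` -/
def ex (g : List ℕ → ℝ) (x : ℕ) : List ℕ → ℝ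
  | [] => 0
  | a :: s => (if a = x then g s else 0) - ex (fun t => g (a :: t)) x s

/-- the alternating function with value `1` at `s` -/
def FS : List ℕ → List ℕ → ℝ
  | [] => fun t => if t = [] then 1 else 0
  | x :: s => ex (FS s) x

/-- the index set: `k`-element sets with sum `L - ⌈k/2⌉` -/
def SI (L k : ℕ) : Finset (Finset ℕ) :=
  ((Finset.range (L + 1)).powersetCard k).filter fun s => ∑ a ∈ s, a + (k + 1) / 2 = L

end

end BrV
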