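import Pool.Agent.Lib.BrV.LDef

/-!
# BrV.LFS: the alternating functions `FS s` (paper 3, (5.5)).  Only Mathlib and the definitions.

`ex g x [] = 0`, `ex g x (a :: s) = (if a = x then g s else 0) - ex (fun t => g (a :: t)) x s`.
* `ex_neg`, `ex_add`: `ex` is additive in `g` (induction on the list).
* `ex_alt`: if `Alt g` then `Alt (ex g x)`: `ex g x (p ++ a :: b :: s)`, induction on `p` (for all `g` with `Alt g`; `Alt (fun t => g (c :: t))` is clear with prefix `c :: p`).  `p = []`: `ex g x (a :: b :: s) = [a=x] g (b :: s) - [b=x] g (a :: s) + ex (fun t => g (a :: b :: t)) x s`; exchange `a, b`: the first two terms change sign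
  as a whole, the last one by `Alt g` with `p = []` (`ex_neg`).
* `FS_alt`: `FS []` vanishes on lists of length `≥ 2`; induction.
* `FS_self`: `FS (x :: s) (x :: s) = FS s s - ex (..) x s` and `ex g x s = 0` if `x ∉ s`.
* `FS_perm`: `ex g x t ≠ 0` implies `t = p ++ x :: q` with `g (p ++ q) ≠ 0` (induction on `t`, for all `g`); induction on `s`.
-/

namespace BrV

open Finsupp

private theorem ex_neg (x : ℕ) (s : List ℕ) : ∀ g : List ℕ → ℝ,
    ex (fun t => - g t) x s = - ex g x s := by
  induction s with
  | nil =>
    intro g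
    simp [ex]
  | cons a s ih =>
    intro g
    simp only [ex]
    rw [ih fun t => g (a :: t)]
    by_cases h : a = x
    · rw [if_pos h, if_pos h]
      ring
    · rw [if_neg h, if_neg h]
      ring

private theorem ex_alt (x : ℕ) (p : List ℕ) : ∀ g : List ℕ → ℝ, Alt g → ∀ s a b,
    ex g x (p ++ a :: b :: s) = - ex g x (p ++ b :: a :: s) := by
  induction p with
  | nil =>
    intro g hg s a b
    simp only [List.nil_append, ex]
    have e : (fun t => g (b :: a :: t)) = fun t => - g (a :: b :: t) := by
      funext t
      exact hg [] t b a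
    rw [e, ex_neg]
    ring
  | cons c p ih =>
    intro g hg s a b
    simp only [List.cons_append, ex]
    have hg' : Alt fun t => g (c :: t) := fun p s a b => hg (c :: p) s a b
    rw [ih (fun t => g (c :: t)) hg' s a b, hg p s a b]
    by_cases h : c = x
    · rw [if_pos h, if_pos h]
      ring
    · rw [if_neg h, if_neg h]
      ring

private theorem ex_nmem (x : ℕ) (s : List ℕ) : ∀ g : List ℕ → ℝ, x ∉ s → ex g x s = 0 := by
  induction s with
  | nil =>
    intro g _
    simp [ex]
  | cons a s ih =>
    intro g h
    rw [List.mem_cons, not_or] at h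
    simp only [ex]
    rw [if_neg (Ne.symm h.1), ih _ h.2, sub_zero]

private theorem ex_ne (x : ℕ) (t : List ℕ) : ∀ g : List ℕ → ℝ, ex g x t ≠ 0 →
    ∃ p q, t = p ++ x :: q ∧ g (p ++ q) ≠ 0 := by
  induction t with
  | nil =>
    intro g h
    exact absurd (by simp [ex]) h
  | cons a t ih =>
    intro g h
    by_cases h1 : a = x ∧ g t ≠ 0
    · exact ⟨[], t, by rw [h1.1]; rfl, h1.2⟩
    · have h2 : (if a = x then g t else 0) = 0 := by
        by_cases h3 : a = x
        · rw [if_pos h3]
          by_contra h4
          exact h1 ⟨h3, h4⟩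
        · rw [if_neg h3]
      simp only [ex] at h
      rw [h2, zero_sub, neg_ne_zero] at h
      obtain ⟨p, q, hp, hq⟩ := ih _ h
      exact ⟨a :: p, q, by rw [hp]; rfl, hq⟩

theorem FS_alt (s : List ℕ) : Alt (FS s) := by
  induction s with
  | nil =>
    intro p s a b
    simp [FS]
  | cons x s ih => exact fun p s' a b => ex_alt x p _ ih s' a b

theorem FS_self (s : List ℕ) (h : s.Nodup) : FS s s = 1 := by
  induction s with
  | nil => simp [FS]
  | cons x s ih =>
    rw [List.nodup_cons] at h
    simp only [FS, ex]
    rw [if_pos trivial, ih h.2, ex_nmem x s _ h.1, sub_zero]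

theorem FS_perm (s t : List ℕ) (h : FS s t ≠ 0) : t.Perm s := by
  induction s generalizing t with
  | nil =>
    simp only [FS] at h
    by_cases ht : t = []
    · rw [ht]
    · exact absurd (if_neg ht) h
  | cons x s ih =>
    obtain ⟨p, q, hp, hq⟩ := ex_ne x t (FS s) h
    rw [hp]
    exact List.perm_middle.trans ((ih _ hq).cons x)

end BrV
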