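import Pool.Agent.Lib.BrV.LExi
import Pool.Agent.Lib.BrV.LAntZ
import Pool.Agent.Lib.BrV.LFS
import Pool.Agent.Lib.BrV.SLin

/-!
# BrV.LDim: the dimension of `𝒢_(2g+1,k)` (paper 3, (5.7))

`N = 2g + 1`, `L = g + 1`, `d = (SI (g+1) k).card`, `e : Fin d ≃ SI (g+1) k` (`Finset.equivFin`).  For `s : Finset ℕ` with `k` elements write `σ s = s.sort (· ≤ ·)`.
* `pat_spec`: for `s : List ℕ` of length `k ≥ 2`: `(pat s).length = k`, `(pat s).sum = 2 s.sum + k - e*`, `ev2 (pat s) = e*`, halves of `pat s` = `s` (`e* = 0` for `k` odd, `1` for `k` even).  So `(pat (σ s)).sum = 2g+1` iff `∑ s + (k+1)/2 = g + 1`, and then `s ⊆ range (g+2)`, i.e. `s ∈ SI (g+1) k`.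
* `HD_fun` with `φ F = fun i => F (xl (pat (σ (e i))))`.
  `h1`: for `F ∈ GG N k` put `f a = F (xl a)`: `Ant k N f`: `supp`: `F ∈ TT k`, `IsW N k F` (`npW (xl a) = a.sum`, `nzW (xl a) = a.length`); `rel`: `bz_xl`.  If `φ F = 0` then `f (pat (σ s)) = 0` for all `s` with `k` elements (if `s ∉ SI` the sum is not `N`: `supp`), so `f = 0` (`ant_zero`), and `F = 0` (`xl_of`).
  `h2`: for `t : Fin d → ℝ`: `g' = ∑_i t i • FS (σ (e i))` is `Alt` (`FS_alt`); `exi k g` gives `F`, `F (xl (pat (σ (e j)))) = g' (σ (e j)) = ∑_i t i * FS (σ (e i)) (σ (e j)) = t j` (`FS_self`; `FS_perm`: two sorted lists which are permutations of each other are equal, so the sets are equal).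
-/

namespace BrV

open Finsupp

private theorem ld_sum (t : List ℕ) : (t.map fun b => 2 * b + 1).sum = 2 * t.sum + t.length := by
  induction t with
  | nil => simp
  | cons a t ih =>
    rw [List.map_cons, List.sum_cons, List.sum_cons, List.length_cons, ih]
    ring

private theorem ld_cnt (t : List ℕ) : ev2 (t.map fun b => 2 * b + 1) = 0 := by
  unfold ev2
  rw [List.countP_eq_zero]
  intro a ha
  rw [List.mem_map] at ha
  obtain ⟨b, -, rfl⟩ := ha
  rw [decide_eq_true_eq]
  omega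

private theorem ld_half (t : List ℕ) : ((t.map fun b => 2 * b + 1).map fun b => b / 2) = t := by
  induction t with
  | nil => rfl
  | cons a t ih =>
    rw [List.map_cons, List.map_cons, ih]
    congr 1
    omega

theorem pat_spec (s : List ℕ) (h : 2 ≤ s.length) : (pat s).length = s.length ∧
    (pat s).sum + (if Odd s.length then 0 else 1) = 2 * s.sum + s.length ∧
    ev2 (pat s) = (if Odd s.length then 0 else 1) ∧ ((pat s).map fun b => b / 2) = s := by
  by_cases ho : Odd s.length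
  · have hp : pat s = s.map fun a => 2 * a + 1 := by
      unfold pat
      rw [if_pos ho]
    rw [hp, if_pos ho, ld_sum, ld_cnt, ld_half, List.length_map]
    exact ⟨rfl, rfl, rfl, rfl⟩
  · match s, h, ho with
    | [], h, _ => simp at h
    | a :: t, _, ho =>
      have hp : pat (a :: t) = (2 * a) :: t.map fun b => 2 * b + 1 := by
        unfold pat
        rw [if_neg ho]
      rw [hp, if_neg ho]
      refine ⟨by simp, ?_, ?_, ?_⟩
      · rw [List.sum_cons, ld_sum, List.sum_cons, List.length_cons]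
        ring
      · have h1 := ld_cnt t
        unfold ev2 at h1 ⊢
        rw [List.countP_cons, h1, if_pos (by rw [decide_eq_true_eq]; omega)]
      · rw [List.map_cons, ld_half]
        congr 1
        omega

private theorem ld_np (m : ℕ) : np (xw m) = m := by
  unfold np xw pw
  rw [List.count_cons, List.count_replicate_self]
  simp

private theorem ld_npW (a : List ℕ) : npW (xl a) = a.sum := by
  unfold npW xl
  rw [List.map_map]
  have h : (np ∘ xw) = id := by
    funext m
    exact ld_np m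
  rw [h, List.map_id]

private theorem ld_sort_sum (s : Finset ℕ) : (s.sort (· ≤ ·)).sum = ∑ a ∈ s, a := by
  rw [← Multiset.sum_coe, Finset.sort_eq]
  unfold Finset.sum
  rw [Multiset.map_id']

private theorem ld_SI (g k : ℕ) (s : Finset ℕ) (hs : s.card = k)
    (h : (2 * g + 1) + (if Odd k then 0 else 1) = 2 * (∑ a ∈ s, a) + k) : s ∈ SI (g + 1) k := by
  have h1 : ∑ a ∈ s, a + (k + 1) / 2 = g + 1 := by
    by_cases ho : Odd k
    · rw [if_pos ho] at h
      rw [Nat.odd_iff] at ho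
      omega
    · rw [if_neg ho] at h
      rw [Nat.odd_iff] at ho
      omega
  unfold SI
  rw [Finset.mem_filter, Finset.mem_powersetCard]
  refine ⟨⟨fun a ha => ?_, hs⟩, h1⟩
  rw [Finset.mem_range]
  have h2 : a ≤ ∑ b ∈ s, b := Finset.single_le_sum (f := fun b : ℕ => b) (fun _ _ => Nat.zero_le _) ha
  omega

private theorem ld_of_SI (g k : ℕ) (s : Finset ℕ) (h : s ∈ SI (g + 1) k) : s.card = k ∧
    (2 * g + 1) + (if Odd k then 0 else 1) = 2 * (∑ a ∈ s, a) + k := by
  unfold SI at h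
  rw [Finset.mem_filter, Finset.mem_powersetCard] at h
  obtain ⟨⟨-, h1⟩, h2⟩ := h
  refine ⟨h1, ?_⟩
  by_cases ho : Odd k
  · rw [if_pos ho]
    rw [Nat.odd_iff] at ho
    omega
  · rw [if_neg ho]
    rw [Nat.odd_iff] at ho
    omega

private theorem ld_zero (g k : ℕ) (hk : 2 ≤ k) (z : CW) (hz : z ∈ GG (2 * g + 1) k)
    (h0 : ∀ s ∈ SI (g + 1) k, z (xl (pat (s.sort (· ≤ ·)))) = 0) : z = 0 := by
  unfold GG at hz
  obtain ⟨⟨⟨⟨hT, hW⟩, -⟩, -⟩, hb⟩ := hz
  have hT' : ∀ q, z q ≠ 0 → q.length = k ∧ ∀ w ∈ q, Zw w := by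
    intro q hq
    exact (Finsupp.mem_supported ℝ z).1 hT (Finsupp.mem_support_iff.2 hq)
  have hW' : ∀ q, z q ≠ 0 → npW q = 2 * g + 1 ∧ nzW q = k := by
    intro q hq
    exact (Finsupp.mem_supported ℝ z).1 hW (Finsupp.mem_support_iff.2 hq)
  have hA : Ant k (2 * g + 1) fun a => z (xl a) := by
    refine ⟨fun a ha => ?_, fun p s hps M => ?_⟩
    · obtain ⟨h1, -⟩ := hT' _ ha
      obtain ⟨h2, -⟩ := hW' _ ha
      rw [ld_npW] at h2
      unfold xl at h1
      rw [List.length_map] at h1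
      exact ⟨h1, h2⟩
    · exact (bz_xl k z hT fun q hq => (hW' q hq).2).1 (LinearMap.mem_ker.1 hb) p s hps M
  have hall := ant_zero k (2 * g + 1) (fun a => z (xl a)) hk (odd_two_mul_add_one g) hA (by
    intro s hs
    by_contra hne
    apply hne
    apply h0
    have hlen : (s.sort (· ≤ ·)).length = k := by rw [Finset.length_sort, hs]
    obtain ⟨-, h2, -, -⟩ := pat_spec (s.sort (· ≤ ·)) (by rw [hlen]; exact hk)
    obtain ⟨-, h3⟩ := hA.supp _ hne
    rw [h3, hlen, ld_sort_sum] at h2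
    exact ld_SI g k s hs h2)
  ext q
  rw [Finsupp.coe_zero, Pi.zero_apply]
  by_contra hq
  obtain ⟨h1, h2⟩ := hT' q hq
  obtain ⟨a, -, -, h3⟩ := xl_of k q h1 h2 (hW' q hq).2
  apply hq
  rw [h3]
  exact hall a

private theorem ld_exi (g k : ℕ) (hk : 2 ≤ k) {ι : Type} [Fintype ι] (e : ι → Finset ℕ)
    (he : Function.Injective e) (hm : ∀ i, e i ∈ SI (g + 1) k) (t : ι → ℝ) :
    ∃ z ∈ GG (2 * g + 1) k, ∀ j, z (xl (pat ((e j).sort (· ≤ ·)))) = t j := by
  classical
  obtain ⟨F, hF, hF2⟩ := exi k g hk (fun l => ∑ i, t i * FS ((e i).sort (· ≤ ·)) l) (by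
    intro p s a b
    rw [← Finset.sum_neg_distrib]
    refine Finset.sum_congr rfl fun i _ => ?_
    rw [FS_alt _ p s a b, mul_neg])
  refine ⟨F, hF, fun j => ?_⟩
  obtain ⟨h1, h2⟩ := ld_of_SI g k (e j) (hm j)
  have hlen : ((e j).sort (· ≤ ·)).length = k := by rw [Finset.length_sort, h1]
  obtain ⟨p1, p2, p3, p4⟩ := pat_spec ((e j).sort (· ≤ ·)) (by rw [hlen]; exact hk)
  rw [hlen] at p1 p2 p3
  rw [ld_sort_sum, ← h2] at p2
  rw [hF2 _ p1 (Nat.add_right_cancel p2) p3, p4]
  rw [Finset.sum_eq_single j]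
  · rw [FS_self _ (Finset.sort_nodup _ _), mul_one]
  · intro i _ hij
    have h3 : FS ((e i).sort (· ≤ ·)) ((e j).sort (· ≤ ·)) = 0 := by
      by_contra hne
      have h4 := FS_perm _ _ hne
      apply hij
      apply he
      have h5 : ((e j).sort (· ≤ ·) : Multiset ℕ) = ((e i).sort (· ≤ ·) : Multiset ℕ) :=
        Multiset.coe_eq_coe.2 h4
      rw [Finset.sort_eq, Finset.sort_eq] at h5
      exact (Finset.val_injective h5).symm
    rw [h3, mul_zero]
  · intro h
    exact absurd (Finset.mem_univ j) h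

theorem hd_dim (g k : ℕ) (hk : 2 ≤ k) : HD (GG (2 * g + 1) k) ⊥ (SI (g + 1) k).card := by
  set e := (SI (g + 1) k).equivFin.symm with he
  refine HD_fun _ _ _ (LinearMap.pi fun i =>
    Finsupp.lapply (xl (pat (((e i : Finset ℕ)).sort (· ≤ ·))))) ?_ ?_
  · intro z hz
    rw [Submodule.mem_bot]
    constructor
    · intro h
      refine ld_zero g k hk z hz fun s hs => ?_
      have h1 := congrFun h (e.symm ⟨s, hs⟩)
      rw [LinearMap.pi_apply, Equiv.apply_symm_apply] at h1
      exact h1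
    · rintro rfl
      exact map_zero _
  · intro t
    obtain ⟨z, hz, h⟩ := ld_exi g k hk (fun i => (e i : Finset ℕ))
      (Subtype.val_injective.comp e.injective) (fun i => (e i).2) t
    refine ⟨z, hz, ?_⟩
    funext j
    exact h j

end BrV
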