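import Pool.Agent.Lib.BrV.LAct
import Pool.Agent.Lib.BrV.LSup

/-!
# BrV.LExP: `p` is exact on lists of words ending in `z` (paper 3, (2.4))

* `act_p_cb`: for `g ∈ G'`: `del_mu true` gives `d_p (p*g) = tau g ∈ G'`, so `gc_1 (p*g) = tau g`, `gc_j (p*g) = 0` for `j ≥ 2`; `act_cb` with `N = 2`.
* `gc0_p`: for a word `A` with `n = np A`: `p*(A z) = (p*A) z + (-1)^n A z p` (`sh_cons`), `(A z)*p = A z p - (A*p) z`, so `p*(A z) = (p*A + (-1)^n A*p) z + (-1)^n (A z)*p`; the first part is in `G'`, the second in `F 1`.
* `TT_ex`: let `hh` be the linear map on `CW` with `hh (w :: l) = - (1/2) (-1)^(np A) cb ((d_p A) z) l` for `w = A z` (in Lean `w = false :: A`), `0` on all other lists.  `ad A = p*A + (-1)^n A*p` satisfies `d_p (ad A) = 2 (-1)^n A + ad (d_p A)`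
  (`del_mu`: `d_p (p*A) = p*d_p A + (-1)^n A`, `d_p (A*p) = A - (d_p A)*p`, and `ad (d_p A) = p*d_p A + (-1)^(n-1) (d_p A)*p`).  For `w = A z`, `p (w :: l) = cb ((ad A) z) l + (-1)^n cb w (p l)`:
  `p (hh (w :: l)) = -(1/2)(-1)^n [cb ((ad (d_p A)) z) l + (-1)^(n-1) cb ((d_p A) z) (p l)]`,
  `hh (p (w :: l)) = -(1/2)(-1)^(n+1) cb ((d_p (ad A)) z) l + (-1)^n (-(1/2)) (-1)^n cb ((d_p A) z) (p l)`; the sum is `cb (A z) l = w :: l`.
  So `p (hh y) + hh (p y) = y` for `y ∈ TT (m+1)`; take `w = hh y`.
-/

namespace BrV

open Finsupp

private theorem lx_single (w : Wd) (a : ℝ) : (single w a : R) = a • bw w := by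
  rw [bw, smul_single, smul_eq_mul, mul_one]

private theorem lx_ext {M : Type*} [AddCommMonoid M] [Module ℝ M] {φ ψ : R →ₗ[ℝ] M}
    (h : ∀ w, φ (bw w) = ψ (bw w)) : φ = ψ := by
  refine Finsupp.lhom_ext fun w a => ?_
  rw [lx_single, map_smul, map_smul, h]

private theorem lx_memG (f : R) : f ∈ G' ↔ del true f = 0 := LinearMap.mem_ker

private theorem lx_sgT (w : Wd) : sg (true :: w) = - sg w := by
  simp [sg, np, pow_succ]

private theorem lx_sgF (w : Wd) : sg (false :: w) = sg w := by
  simp [sg, np]

private theorem lx_tau_del (f : R) : tau (del true f) = - del true (tau f) := by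
  ext w
  rw [tau_apply, Finsupp.neg_apply, del_apply, del_apply, tau_apply, lx_sgT]
  ring

private theorem lx_tauG (g : R) (hg : g ∈ G') : tau g ∈ G' := by
  rw [lx_memG] at hg ⊢
  have h := lx_tau_del g
  rw [hg, map_zero] at h
  rw [← neg_eq_zero, ← h]

private theorem lx_del_p : del true (bw [true]) = bw [] := by
  rw [← app_bw, del_app]

private theorem lx_del_pmu (g : R) : del true (mu (bw [true]) g) =
    mu (bw [true]) (del true g) + tau g := by
  rw [del_mu, lx_del_p, nil_mu]

theorem act_p_cb (g : R) (hg : g ∈ G') (y : CW) : act (bw [true]) (cb g y) =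
    cb (gc 0 (mu (bw [true]) g)) (act (bw []) y) + cb (tau g) (act (bw [true]) y) := by
  have h1 : del true (mu (bw [true]) g) = tau g := by
    rw [lx_del_pmu, (lx_memG g).1 hg, map_zero, zero_add]
  have hd : ∀ j, ((del true) ^ (j + 1) : Module.End ℝ R) (mu (bw [true]) g) =
      ((del true) ^ j : Module.End ℝ R) (tau g) := by
    intro j
    rw [pow_succ, Module.End.mul_apply, h1]
  have h0 : del true (tau g) = 0 := (lx_memG _).1 (lx_tauG g hg)
  have g1 : gc 1 (mu (bw [true]) g) = tau g := by
    have e : gc 1 (mu (bw [true]) g) =
        gp (((del true) ^ (0 + 1) : Module.End ℝ R) (mu (bw [true]) g)) := rfl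
    rw [e, hd, pow_zero, Module.End.one_apply, gp_of_mem _ (lx_tauG g hg)]
  have g2 : ∀ j, 2 ≤ j → gc j (mu (bw [true]) g) = 0 := by
    intro j hj
    obtain ⟨i, rfl⟩ := Nat.exists_eq_add_of_le hj
    have e : gc (2 + i) (mu (bw [true]) g) =
        gp (((del true) ^ (2 + i) : Module.End ℝ R) (mu (bw [true]) g)) := rfl
    rw [e, show 2 + i = (i + 1) + 1 by omega, hd, pow_succ, Module.End.mul_apply, h0,
      map_zero, map_zero]
  rw [act_cb _ _ _ 2 g2, Finset.sum_range_succ, Finset.sum_range_succ, Finset.sum_range_zero,
    zero_add, g1]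
  rfl

private theorem lx_appG (f : R) : app false f ∈ G' := by
  rw [lx_memG]
  exact del_app_ne true false (by decide) f

private theorem lx_F1 (f : R) : mu f (bw [true]) ∈ F 1 := by
  have h : mu f (bw (pw 1)) ∈ F 1 := by
    unfold F
    exact Submodule.mem_iSup_of_mem 1 (Submodule.mem_iSup_of_mem le_rfl ⟨f, rfl⟩)
  exact h

theorem gc0_p (A : Wd) : gc 0 (mu (bw [true]) (bw (false :: A))) =
    app false (mu (bw [true]) (bw A) + (-1 : ℝ) ^ np A • mu (bw A) (bw [true])) := by
  have e : gc 0 (mu (bw [true]) (bw (false :: A))) = gp (mu (bw [true]) (bw (false :: A))) := rfl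
  have h1 : mu (bw [true]) (bw (false :: A)) = app false (mu (bw [true]) (bw A)) +
      sg A • bw (true :: false :: A) := by
    rw [mu_bw, mu_bw, sh_cons, lx_sgF, ← mu_bw [] (false :: A), nil_mu, app_bw]
  have h2 : mu (bw (false :: A)) (bw [true]) = bw (true :: false :: A) -
      app false (mu (bw A) (bw [true])) := by
    rw [mu_bw, mu_bw, sh_cons, sh_nil, app_bw, lx_sgT]
    have h3 : sg [] = 1 := by simp [sg, np]
    rw [h3, neg_smul, one_smul, ← sub_eq_add_neg]
  have h4 : mu (bw [true]) (bw (false :: A)) =
      app false (mu (bw [true]) (bw A) + (-1 : ℝ) ^ np A • mu (bw A) (bw [true])) +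
        sg A • mu (bw (false :: A)) (bw [true]) := by
    rw [h1, h2, map_add, map_smul, smul_sub]
    unfold sg
    abel
  rw [e, h4, map_add, map_smul, gp_of_mem _ (lx_appG _), (gp_eq_zero _).2 (lx_F1 _), smul_zero,
    add_zero]

private theorem lx_tau_bw (w : Wd) : tau (bw w) = sg w • bw w := by
  ext v
  rw [tau_apply, Finsupp.smul_apply, smul_eq_mul]
  by_cases h : v = w
  · rw [h]
  · have : (bw w : R) v = 0 := by
      unfold bw
      exact Finsupp.single_eq_of_ne h
    rw [this, mul_zero, mul_zero]

private theorem lx_gc0 (f : R) : gc 0 (mu (bw [true]) (app false f)) =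
    app false (mu (bw [true]) f + mu (tau f) (bw [true])) := by
  have h : (gc 0).comp ((mu (bw [true])).comp (app false)) =
      (app false).comp (mu (bw [true]) + (mu.flip (bw [true])).comp tau) := by
    refine lx_ext fun A => ?_
    show gc 0 (mu (bw [true]) (app false (bw A))) =
      app false (mu (bw [true]) (bw A) + mu (tau (bw A)) (bw [true]))
    rw [app_bw, gc0_p, lx_tau_bw, map_smul, LinearMap.smul_apply]
    rfl
  exact LinearMap.congr_fun h f

private theorem lx_tau_app (f : R) : tau (app false f) = app false (tau f) := by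
  ext w
  rw [tau_apply]
  cases w with
  | nil => rw [app_nil, app_nil, mul_zero]
  | cons b w =>
    rw [app_cons, app_cons]
    split_ifs with h
    · subst h
      rw [tau_apply, lx_sgF]
    · rw [mul_zero]

/-- `p` acts on `cb (f z) y` -/
private theorem lx_act (f : R) (y : CW) (hy : act (bw []) y = y) :
    act (bw [true]) (cb (app false f) y) =
      cb (app false (mu (bw [true]) f + mu (tau f) (bw [true]))) y +
        cb (app false (tau f)) (act (bw [true]) y) := by
  rw [act_p_cb _ (lx_appG f), lx_gc0, lx_tau_app, hy]

/-- the contraction on lists -/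
private noncomputable def lxh0 : LW → CW
  | (false :: A) :: l => (-(1 / 2) * sg A : ℝ) • cb (app false (del true (bw A))) (single l 1)
  | _ => 0

/-- the contraction -/
private noncomputable def lxh : CW →ₗ[ℝ] CW := Finsupp.lift CW ℝ LW lxh0

private theorem lxh_single (q : LW) : lxh (single q 1) = lxh0 q := by
  unfold lxh
  rw [lift_apply]
  refine (sum_single_index ?_).trans (one_smul _ _)
  exact zero_smul _ _

private theorem lxh_cb (f : R) (y : CW) : lxh (cb (app false f) y) =
    (-(1 / 2) : ℝ) • cb (app false (del true (tau f))) y := by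
  induction y using Finsupp.induction_linear with
  | zero => simp
  | add y z hy hz => rw [map_add, map_add, hy, hz, map_add, smul_add]
  | single l a =>
    have e : (single l a : CW) = a • single l 1 := by
      rw [smul_single, smul_eq_mul, mul_one]
    rw [e, map_smul, map_smul, map_smul, smul_comm]
    congr 1
    have h : lxh.comp ((cb.flip (single l 1)).comp (app false)) =
        (-(1 / 2) : ℝ) • (cb.flip (single l 1)).comp ((app false).comp ((del true).comp tau)) := by
      refine lx_ext fun A => ?_
      show lxh (cb (app false (bw A)) (single l 1)) =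
        (-(1 / 2) : ℝ) • cb (app false (del true (tau (bw A)))) (single l 1)
      rw [app_bw, cb_bw, cns_single, lxh_single, lx_tau_bw, map_smul, map_smul, map_smul,
        LinearMap.smul_apply, smul_smul]
      rfl
    exact LinearMap.congr_fun h f

private theorem lx_key (f : R) (y : CW) (hy : act (bw []) y = y) :
    act (bw [true]) (lxh (cb (app false f) y)) + lxh (act (bw [true]) (cb (app false f) y)) =
      cb (app false f) y := by
  have htp : tau (bw [true]) = - bw [true] := by
    rw [lx_tau_bw]
    simp [sg, np]
  have h1 : tau (del true (tau f)) = - del true f := by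
    rw [lx_tau_del, tau_tau]
  have h2 : del true (tau (mu (bw [true]) f + mu (tau f) (bw [true]))) =
      - mu (bw [true]) (del true (tau f)) - (2 : ℝ) • f + mu (del true f) (bw [true]) := by
    rw [map_add, tau_mu, tau_mu, tau_tau, htp, map_neg, map_add, map_neg, map_neg,
      LinearMap.neg_apply, map_neg, del_mu, del_mu, lx_del_p, nil_mu, mu_one, tau_tau, htp,
      map_neg, two_smul]
    abel
  rw [lxh_cb, map_smul, lx_act _ _ hy, lx_act _ _ hy, map_add lxh, lxh_cb, lxh_cb, tau_tau, h2, h1]
  have h3 : ∀ a b : R, cb (app false (a + b)) y = cb (app false a) y + cb (app false b) y := by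
    intro a b
    rw [map_add, map_add, LinearMap.add_apply]
  have h4 : ∀ a b : R, cb (app false (a - b)) y = cb (app false a) y - cb (app false b) y := by
    intro a b
    rw [map_sub, map_sub, LinearMap.sub_apply]
  have h5 : ∀ (a : R) (z : CW), cb (app false (-a)) z = - cb (app false a) z := by
    intro a z
    rw [map_neg, map_neg, LinearMap.neg_apply]
  have h6 : ∀ (c : ℝ) (a : R), cb (app false (c • a)) y = c • cb (app false a) y := by
    intro c a
    rw [map_smul, map_smul, LinearMap.smul_apply]
  have h7 : mu (- del true f) (bw [true]) = - mu (del true f) (bw [true]) := by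
    rw [map_neg, LinearMap.neg_apply]
  rw [h7, h3, h3, h4, h5, h5, h5, h6]
  module

theorem TT_ex (m k : ℕ) (y : CW) (hy : y ∈ TT (m + 1)) (hk : ∀ q, y q ≠ 0 → nzW q = k)
    (h : act (bw [true]) y = 0) :
    ∃ w ∈ TT (m + 1), (∀ q, w q ≠ 0 → nzW q = k) ∧ y = act (bw [true]) w := by
  have hyS : y ∈ supported ℝ ℝ {q : LW | (q.length = m + 1 ∧ ∀ w ∈ q, Zw w) ∧ nzW q = k} := by
    unfold TT at hy
    rw [mem_supported] at hy ⊢
    intro q hq
    exact ⟨hy hq, hk q (Finsupp.mem_support_iff.1 hq)⟩
  have hP : lxh y ∈ supported ℝ ℝ {q : LW | (q.length = m + 1 ∧ ∀ w ∈ q, Zw w) ∧ nzW q = k} ∧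
      act (bw [true]) (lxh y) + lxh (act (bw [true]) y) = y := by
    rw [supported_eq_span_single] at hyS
    clear hy hk h
    induction hyS using Submodule.span_induction with
    | mem x hx =>
      obtain ⟨q, ⟨⟨hl, hz⟩, hn⟩, rfl⟩ := hx
      cases q with
      | nil => exact absurd hl (by simp)
      | cons w l =>
        have hw : Zw w := hz w (by simp)
        cases w with
        | nil => exact absurd hw (by simp [Zw])
        | cons b A =>
          have hb : b = false := by
            simpa [Zw] using hw
          subst hb
          have e : (single ((false :: A) :: l) 1 : CW) = cb (app false (bw A)) (single l 1) := by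
            rw [app_bw, cb_bw, cns_single]
          have hlT : (single l 1 : CW) ∈ TT m := by
            unfold TT
            refine single_mem_supported ℝ 1 ⟨by simpa using hl, fun w hw => hz w ?_⟩
            exact List.mem_cons_of_mem _ hw
          constructor
          · rw [lxh_single, lxh0]
            refine Submodule.smul_mem _ _ ?_
            rw [mem_supported]
            intro q hq
            have hq' := Finsupp.mem_support_iff.1 hq
            cases q with
            | nil => exact absurd (cb_nil _ _) hq'
            | cons u q =>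
              rw [cb_apply] at hq'
              have h1 := left_ne_zero_of_mul hq'
              have h2 := right_ne_zero_of_mul hq'
              have hql : q = l := by
                by_contra hne
                exact h2 (Finsupp.single_eq_of_ne hne)
              subst hql
              cases u with
              | nil => exact absurd (app_nil _ _) h1
              | cons c B =>
                rw [app_cons] at h1
                split_ifs at h1 with hc
                · subst hc
                  rw [del_apply] at h1
                  have hB : true :: B = A := by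
                    by_contra hne
                    exact h1 (by unfold bw; exact Finsupp.single_eq_of_ne hne)
                  subst hB
                  refine ⟨⟨by simpa using hl, ?_⟩, ?_⟩
                  · intro w hw
                    rcases List.mem_cons.1 hw with rfl | hw
                    · simp [Zw]
                    · exact hz w (List.mem_cons_of_mem _ hw)
                  · rw [← hn]
                    simp [nzW, nz]
                · exact absurd rfl h1
          · show act (bw [true]) (lxh (single ((false :: A) :: l) 1)) +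
              lxh (act (bw [true]) (single ((false :: A) :: l) 1)) = single ((false :: A) :: l) 1
            rw [e]
            exact lx_key (bw A) (single l 1) (act_one m _ (TT_le_YY m hlT))
    | zero => simp
    | add x z _ _ hx hz =>
      refine ⟨?_, ?_⟩
      · rw [map_add]
        exact Submodule.add_mem _ hx.1 hz.1
      · rw [map_add, map_add, map_add, map_add]
        calc _ = (act (bw [true]) (lxh x) + lxh (act (bw [true]) x)) +
            (act (bw [true]) (lxh z) + lxh (act (bw [true]) z)) := by abel
          _ = x + z := by rw [hx.2, hz.2]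
    | smul a x _ hx =>
      refine ⟨?_, ?_⟩
      · rw [map_smul]
        exact Submodule.smul_mem _ _ hx.1
      · rw [map_smul, map_smul, map_smul, map_smul, ← smul_add, hx.2]
  obtain ⟨h1, h2⟩ := hP
  rw [mem_supported] at h1
  refine ⟨lxh y, ?_, ?_, ?_⟩
  · unfold TT
    rw [mem_supported]
    intro q hq
    exact (h1 hq).1
  · intro q hq
    exact (h1 (Finsupp.mem_support_iff.2 hq)).2
  · rw [h, map_zero, add_zero] at h2
    exact h2.symm

end BrV
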