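import Pool.Agent.Lib.BrV.LActX

/-!
# BrV.LExi: elements of `𝒢` from alternating functions (paper 3, (5.6))

`e* = 0` for `k` odd, `1` for `k` even; `N = 2 L + 1`.  Let `A` be the (finite) set of the lists `α` of length `k` with `2 α.sum + k - e* = N` (finite: the entries are `≤ N`; e.g. image of `List.finite_length_eq (Fin (N+1)) k`).
`F = ∑_{α ∈ A} g α • S α` with `S α = single (xl (α.map (2·+1))) 1` for `k` odd, `S α = SPe α` for `k` even.
* coefficients: `F (xl a) = g (a.map (· / 2))` if `a.length = k`, `a.sum = N`, `ev2 a = e*`, else `0` (`SPe_apply`; `a.sum = 2 (halves).sum + number of odd entries`), and `F q = 0` for lists `q` not of the form `xl a`.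
* `F ∈ TT k`, `IsW N k F`: clear.  `act p F = 0`: `k` odd: `act_p_odd`; `k` even: `act_p_SPe` (length even).  `act p^2 F = 0`: `act_pp_one`, `act_pp_SPe`.
* `bz F = 0` by `bz_xl`: for `p, s, M` and `c = ev2 p + ev2 s`, the function `f a b = F (xl (p ++ a :: b :: s))`: relations 1, 2 and the right side of 3: `ev2 = c + 2 ≠ e*`, values `0`.  Left side of 3: `ev2 = c` in both terms, halves exchanged: `Alt g` (`map` of `p ++ a :: b :: s`).  Relation 4: the same halves, `ev2 = c + 1`, same sum.
  Relation 5: halves exchanged, `ev2 = c + 1`: `Alt g`.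
-/

namespace BrV

open Finsupp

private theorem np_xw' (a : ℕ) : np (xw a) = a := by
  have h : np (xw a) = np (pw a) := by
    unfold xw np
    rw [List.count_cons]
    simp
  rw [h, np_pw]

private theorem nz_xw' (a : ℕ) : nz (xw a) = 1 := by
  have h : nz (xw a) = nz (pw a) + 1 := by
    unfold xw nz
    rw [List.count_cons]
    simp
  rw [h, nz_pw]

private theorem xl_inj' {a b : List ℕ} (h : xl a = xl b) : a = b := by
  refine (List.map_injective_iff.2 (fun x y hxy => ?_)) h
  have := congrArg np hxy
  rwa [np_xw', np_xw'] at this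

private theorem npW_xl' (a : List ℕ) : npW (xl a) = a.sum := by
  unfold npW xl
  rw [List.map_map]
  have h : np ∘ xw = id := funext np_xw'
  rw [h, List.map_id]

private theorem nzW_xl' (a : List ℕ) : nzW (xl a) = a.length := by
  unfold nzW xl
  rw [List.map_map]
  have h : nz ∘ xw = fun _ => 1 := funext nz_xw'
  rw [h]
  simp

private theorem len_xl' (a : List ℕ) : (xl a).length = a.length := List.length_map _

private theorem Zw_xl' (a : List ℕ) : ∀ w ∈ xl a, Zw w := by
  intro w hw
  obtain ⟨b, _, rfl⟩ := List.mem_map.1 hw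
  rfl

private theorem ev_cons' (b : ℕ) (a : List ℕ) :
    ev2 (b :: a) = (if b % 2 = 0 then 1 else 0) + ev2 a := by
  unfold ev2
  rw [List.countP_cons, add_comm]
  congr 1
  by_cases h : b % 2 = 0 <;> simp [h]

private theorem ev_app' (a b : List ℕ) : ev2 (a ++ b) = ev2 a + ev2 b := by
  unfold ev2
  exact List.countP_append

private theorem sum_half' (a : List ℕ) :
    a.sum + ev2 a = 2 * (a.map fun b => b / 2).sum + a.length := by
  induction a with
  | nil => rfl
  | cons b a ih =>
    rw [List.sum_cons, ev_cons', List.map_cons, List.sum_cons, List.length_cons]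
    split_ifs <;> omega

private theorem half_odd' (s : List ℕ) :
    ((s.map fun b => 2 * b + 1).map fun b => b / 2) = s ∧ ev2 (s.map fun b => 2 * b + 1) = 0 := by
  induction s with
  | nil => exact ⟨rfl, rfl⟩
  | cons a s ih =>
    obtain ⟨h1, h2⟩ := ih
    rw [List.map_cons, List.map_cons, h1, ev_cons', h2]
    constructor
    · congr 1
      omega
    · rw [if_neg (by omega)]

private theorem odd_half' (a : List ℕ) (h : ev2 a = 0) :
    ((a.map fun b => b / 2).map fun b => 2 * b + 1) = a := by
  induction a with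
  | nil => rfl
  | cons b a ih =>
    rw [ev_cons'] at h
    have h1 : ¬ b % 2 = 0 := by
      intro h2
      rw [if_pos h2] at h
      omega
    rw [List.map_cons, List.map_cons, ih (by omega)]
    congr 1
    omega

/-- the elements for one list of halves -/
private noncomputable def Sal (k : ℕ) (s : List ℕ) : CW :=
  if Odd k then single (xl (s.map fun b => 2 * b + 1)) 1 else SPe s

private theorem Sal_apply (k : ℕ) (s a : List ℕ) : Sal k s (xl a) =
    if (a.map fun b => b / 2) = s ∧ ev2 a = (if Odd k then 0 else 1) then 1 else 0 := by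
  unfold Sal
  by_cases hk : Odd k
  · rw [if_pos hk, if_pos hk, Finsupp.single_apply]
    by_cases h : (a.map fun b => b / 2) = s ∧ ev2 a = 0
    · rw [if_pos h, if_pos]
      rw [← h.1, odd_half' a h.2]
    · rw [if_neg h, if_neg]
      intro h1
      have h2 := xl_inj' h1
      apply h
      rw [← h2]
      exact half_odd' s
  · rw [if_neg hk, if_neg hk, SPe_apply]

private theorem SPe_supp' (s : List ℕ) (q : LW) (h : SPe s q ≠ 0) :
    ∃ a : List ℕ, q = xl a ∧ a.length = s.length := by
  induction s generalizing q with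
  | nil =>
    exact absurd rfl h
  | cons b s ih =>
    rw [SPe, Finsupp.add_apply] at h
    by_cases h1 : single (xl (2 * b :: s.map fun b => 2 * b + 1)) (1 : ℝ) q = 0
    · rw [h1, zero_add] at h
      cases q with
      | nil =>
        rw [cns_nil] at h
        exact absurd rfl h
      | cons w q =>
        rw [cns_apply] at h
        by_cases h2 : xw (2 * b + 1) = w
        · rw [if_pos h2] at h
          obtain ⟨a, h3, h4⟩ := ih q h
          refine ⟨(2 * b + 1) :: a, ?_, ?_⟩
          · rw [h3, ← h2]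
            rfl
          · rw [List.length_cons, List.length_cons, h4]
        · rw [if_neg h2] at h
          exact absurd rfl h
    · rw [Finsupp.single_apply] at h1
      by_cases h2 : xl (2 * b :: s.map fun b => 2 * b + 1) = q
      · refine ⟨_, h2.symm, ?_⟩
        rw [List.length_cons, List.length_cons, List.length_map]
      · rw [if_neg h2] at h1
        exact absurd rfl h1

private theorem Sal_supp (k : ℕ) (s : List ℕ) (q : LW) (h : Sal k s q ≠ 0) :
    ∃ a : List ℕ, q = xl a ∧ a.length = s.length := by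
  unfold Sal at h
  by_cases hk : Odd k
  · rw [if_pos hk, Finsupp.single_apply] at h
    by_cases h2 : xl (s.map fun b => 2 * b + 1) = q
    · exact ⟨_, h2.symm, List.length_map _⟩
    · rw [if_neg h2] at h
      exact absurd rfl h
  · rw [if_neg hk] at h
    exact SPe_supp' s q h

private theorem act_Sal (k : ℕ) (s : List ℕ) (h : s.length = k) :
    act (bw [true]) (Sal k s) = 0 := by
  unfold Sal
  by_cases hk : Odd k
  · rw [if_pos hk]
    exact act_p_odd _ (half_odd' s).2
  · rw [if_neg hk, act_p_SPe, h, if_neg hk, zero_smul]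

private theorem actt_Sal (k : ℕ) (s : List ℕ) : act (bw [true, true]) (Sal k s) = 0 := by
  unfold Sal
  by_cases hk : Odd k
  · rw [if_pos hk]
    refine act_pp_one _ ?_
    rw [(half_odd' s).2]
    exact Nat.zero_le _
  · rw [if_neg hk]
    exact act_pp_SPe s

private theorem mem_le_sum' (s : List ℕ) (x : ℕ) (h : x ∈ s) : x ≤ s.sum := by
  induction s with
  | nil => exact absurd h List.not_mem_nil
  | cons b s ih =>
    rw [List.sum_cons]
    rcases List.mem_cons.1 h with rfl | h
    · omega
    · have := ih h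
      omega

private theorem fin_set' (k M : ℕ) : {s : List ℕ | s.length = k ∧ 2 * s.sum + k = M}.Finite := by
  refine ((List.finite_length_eq (Fin (M + 1)) k).image (List.map Fin.val)).subset ?_
  rintro s ⟨h1, h2⟩
  have h3 : ∀ x ∈ s, x < M + 1 := by
    intro x hx
    have := mem_le_sum' s x hx
    omega
  refine ⟨s.pmap (fun x hx => (⟨x, hx⟩ : Fin (M + 1))) h3, ?_, ?_⟩
  · show (List.pmap _ _ _).length = k
    rw [List.length_pmap, h1]
  · rw [List.map_pmap]
    simp

theorem exi (k L : ℕ) (hk : 2 ≤ k) (g : List ℕ → ℝ) (hg : Alt g) :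
    ∃ F ∈ GG (2 * L + 1) k, ∀ a : List ℕ, a.length = k → a.sum = 2 * L + 1 →
      ev2 a = (if Odd k then 0 else 1) → F (xl a) = g (a.map fun b => b / 2) := by
  set e : ℕ := if Odd k then 0 else 1 with he
  have he1 : e ≤ 1 := by
    rw [he]
    split_ifs <;> omega
  have hfin := fin_set' k (2 * L + 1 + e)
  set F : CW := ∑ s ∈ hfin.toFinset, g s • Sal k s with hF
  have hmem : ∀ s ∈ hfin.toFinset, s.length = k ∧ 2 * s.sum + k = 2 * L + 1 + e := by
    intro s hs
    exact hfin.mem_toFinset.1 hs
  have hFa : ∀ a : List ℕ, F (xl a) = if a.length = k ∧ a.sum = 2 * L + 1 ∧ ev2 a = e then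
      g (a.map fun b => b / 2) else 0 := by
    intro a
    rw [hF, Finsupp.finset_sum_apply]
    have h1 : ∀ s, (g s • Sal k s) (xl a) =
        if (a.map fun b => b / 2) = s then (if ev2 a = e then g s else 0) else 0 := by
      intro s
      rw [Finsupp.smul_apply, Sal_apply, ← he, smul_eq_mul]
      by_cases h2 : (a.map fun b => b / 2) = s <;> by_cases h3 : ev2 a = e <;> simp [h2, h3]
    simp only [h1]
    rw [Finset.sum_ite_eq]
    have h2 : (a.map fun b => b / 2) ∈ hfin.toFinset ↔
        (a.length = k ∧ 2 * (a.map fun b => b / 2).sum + k = 2 * L + 1 + e) := by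
      rw [hfin.mem_toFinset, Set.mem_setOf_eq, List.length_map]
    have h3 := sum_half' a
    by_cases h4 : ev2 a = e
    · by_cases h5 : a.length = k ∧ a.sum = 2 * L + 1 ∧ ev2 a = e
      · rw [if_pos h5, if_pos h4, if_pos]
        rw [h2]
        obtain ⟨h6, h7, h8⟩ := h5
        exact ⟨h6, by omega⟩
      · rw [if_neg h5, if_neg]
        rw [h2]
        rintro ⟨h6, h7⟩
        exact h5 ⟨h6, by omega, h4⟩
    · rw [if_neg h4, if_neg (fun h5 : a.length = k ∧ a.sum = 2 * L + 1 ∧ ev2 a = e => h4 h5.2.2)]
      split_ifs <;> rfl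
  have hFs : ∀ q, F q ≠ 0 → ∃ a : List ℕ, q = xl a ∧ a.length = k ∧ a.sum = 2 * L + 1 := by
    intro q hq
    have h1 := hq
    rw [hF, Finsupp.finset_sum_apply] at h1
    obtain ⟨s, hs, h2⟩ := Finset.exists_ne_zero_of_sum_ne_zero h1
    rw [Finsupp.smul_apply, smul_eq_mul] at h2
    obtain ⟨a, h3, h4⟩ := Sal_supp k s q (right_ne_zero_of_mul h2)
    refine ⟨a, h3, h4.trans (hmem s hs).1, ?_⟩
    rw [h3, hFa] at hq
    by_contra h5
    rw [if_neg (fun h6 => h5 h6.2.1)] at hq
    exact hq rfl
  have hT : F ∈ TT k := by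
    unfold TT
    rw [Finsupp.mem_supported]
    intro q hq
    obtain ⟨a, h1, h2, h3⟩ := hFs q (Finsupp.mem_support_iff.1 hq)
    rw [h1]
    exact ⟨(len_xl' a).trans h2, Zw_xl' a⟩
  have hW : F ∈ WW (2 * L + 1) k := by
    unfold WW
    rw [Finsupp.mem_supported]
    intro q hq
    obtain ⟨a, h1, h2, h3⟩ := hFs q (Finsupp.mem_support_iff.1 hq)
    rw [h1]
    exact ⟨(npW_xl' a).trans h3, (nzW_xl' a).trans h2⟩
  have hp : act (bw [true]) F = 0 := by
    rw [hF, map_sum]
    refine Finset.sum_eq_zero fun s hs => ?_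
    rw [map_smul, act_Sal k s (hmem s hs).1, smul_zero]
  have hpp : act (bw [true, true]) F = 0 := by
    rw [hF, map_sum]
    refine Finset.sum_eq_zero fun s _ => ?_
    rw [map_smul, actt_Sal k s, smul_zero]
  have hbz : bz F = 0 := by
    refine (bz_xl k F hT (fun q hq => ?_)).2 ?_
    · obtain ⟨a, h1, h2, h3⟩ := hFs q hq
      rw [h1, nzW_xl', h2]
    · intro p s hps M
      have hl : ∀ a b : ℕ, (p ++ a :: b :: s).length = k := by
        intro a b
        rw [List.length_append, List.length_cons, List.length_cons]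
        omega
      have hv : ∀ a b : ℕ, F (xl (p ++ a :: b :: s)) =
          if p.sum + (a + (b + s.sum)) = 2 * L + 1 ∧
            ev2 p + ((if a % 2 = 0 then 1 else 0) + ((if b % 2 = 0 then 1 else 0) + ev2 s)) = e then
          g ((p.map fun b => b / 2) ++ (a / 2) :: (b / 2) :: (s.map fun b => b / 2)) else 0 := by
        intro a b
        rw [hFa, ev_app', ev_cons', ev_cons', List.sum_append, List.sum_cons, List.sum_cons,
          List.map_append, List.map_cons, List.map_cons]
        by_cases h : p.sum + (a + (b + s.sum)) = 2 * L + 1 ∧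
            ev2 p + ((if a % 2 = 0 then 1 else 0) + ((if b % 2 = 0 then 1 else 0) + ev2 s)) = e
        · rw [if_pos h, if_pos ⟨hl a b, h⟩]
        · rw [if_neg h, if_neg (fun h' => h h'.2)]
      have ev0 : ∀ m : ℕ, (2 * m) % 2 = 0 := by
        intro m
        omega
      have ev2' : ∀ m : ℕ, (2 * m + 2) % 2 = 0 := by
        intro m
        omega
      have od1 : ∀ m : ℕ, ¬ (2 * m + 1) % 2 = 0 := by
        intro m
        omega
      have hf0 : ∀ m : ℕ, 2 * m / 2 = m := by
        intro m
        omega
      have hf1 : ∀ m : ℕ, (2 * m + 1) / 2 = m := by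
        intro m
        omega
      refine ⟨?_, ?_, ?_, ?_, ?_⟩
      · intro m n _
        simp only [hv, if_pos (ev0 _)]
        rw [if_neg (by rintro ⟨-, h⟩; omega), if_neg (by rintro ⟨-, h⟩; omega), neg_zero]
      · intro m n _
        simp only [hv, if_pos (ev0 _), if_pos (ev2' _)]
        rw [if_neg (by rintro ⟨-, h⟩; omega), if_neg (by rintro ⟨-, h⟩; omega), zero_add]
      · intro m n _
        simp only [hv, if_pos (ev0 _), if_pos (ev2' _), if_neg (od1 _), hf0, hf1]
        rw [if_neg (c := p.sum + (2 * m + (2 * n + 2 + s.sum)) = 2 * L + 1 ∧ _)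
          (by rintro ⟨-, h⟩; omega), mul_zero]
        by_cases h : p.sum + (2 * m + 1 + (2 * n + 1 + s.sum)) = 2 * L + 1 ∧
            ev2 p + (0 + (0 + ev2 s)) = e
        · rw [if_pos h, if_pos ⟨by omega, h.2⟩, hg, neg_add_cancel]
        · rw [if_neg h, if_neg (fun h' => h ⟨by omega, h'.2⟩), add_zero]
      · intro m n _
        simp only [hv, if_pos (ev0 _), if_neg (od1 _), hf0, hf1]
        by_cases h : p.sum + (2 * m + 1 + (2 * n + s.sum)) = 2 * L + 1 ∧
            ev2 p + (0 + (1 + ev2 s)) = e
        · rw [if_pos h, if_pos ⟨by omega, by omega⟩]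
        · rw [if_neg h, if_neg (fun h' => h ⟨by omega, by omega⟩)]
      · intro m n _
        simp only [hv, if_pos (ev0 _), if_neg (od1 _), hf0, hf1]
        by_cases h : p.sum + (2 * m + 1 + (2 * n + s.sum)) = 2 * L + 1 ∧
            ev2 p + (0 + (1 + ev2 s)) = e
        · rw [if_pos h, if_pos ⟨by omega, h.2⟩, hg]
        · rw [if_neg h, if_neg (fun h' => h ⟨by omega, h'.2⟩), neg_zero]
  refine ⟨F, ?_, ?_⟩
  · unfold GG
    exact ⟨⟨⟨⟨hT, hW⟩, hp⟩, hpp⟩, hbz⟩
  · intro a h1 h2 h3
    rw [hFa, if_pos ⟨h1, h2, h3⟩]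

end BrV
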