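import Pool.Agent.Lib.BrV.SDesA

/-!
# BrV.SEx: exact sequence `0 → Sal(Sym^(k+1) V) → Sal(M_(k+1)) → Sal(M_k) → 0` (section 4)

Same arguments as in `Desc.salSym`; `n = 2g + 2`.
* `desc`: suppose `H_(r+1)(M_(k+1)) → H_(r+1)(M_k)` is onto (`hs`).  Then `JM` induces an isomorphism from `H_r(Sym^(k+1) V)` to `ker (H_r(M_(k+1)) → H_r(M_k)) = (SalZ ⊓ EM⁻¹ SalB) / SalB`.  `HD_map` with `φ = JM g`:
  `h1`: `JM x` is a cycle, `EM (JM x) = 0`.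
  `h2` `→`: `JM z = sal ψ`, `ψ ∈ Sal_(r+1)(M_(k+1))`: `sal (EM ψ) = EM (JM z) = 0`: by `hs` `EM ψ - EM ψ2 = sal χ`, `ψ2` a cycle, `χ = EM χ'` (`EM_lift`), `ψ' = ψ - ψ2 - sal χ'`, `EM ψ' = 0`, `ψ' = JM f'` (`JM_lift`), `sal ψ' = JM z`, so `sal (ST g) f' = z` (`JM_inj`).  `←`: clear.
  `h3`: `z' ∈ SalZ`, `EM z' = sal χ`, `χ = EM χ'`: `EM (z' - sal χ') = 0`, `z' - sal χ' = JM z`, `z` a cycle (`JM_inj`); `z' - JM z = sal χ'`.
-/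

namespace BrV

open Finsupp Pool.Agent.Lib.BrSym

private theorem IsS_sub' {M : Type} [AddCommGroup M] [Module ℝ M] (N : Submodule ℝ M) (r n : ℕ)
    (x y : List ℕ →₀ M) (hx : IsS N r n x) (hy : IsS N r n y) : IsS N r n (x - y) := by
  refine ⟨fun l hl => ?_, fun l => ?_⟩
  · by_cases h : x l = 0
    · refine hy.1 l fun h' => hl ?_
      rw [Finsupp.sub_apply, h, h', sub_zero]
    · exact hx.1 l h
  · rw [Finsupp.sub_apply]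
    exact N.sub_mem (hx.2 l) (hy.2 l)

theorem desc (g r k d : ℕ) (hg : 1 ≤ g)
    (hs : ∀ y ∈ SalZ (SM g) (MQk g k) (r + 1) (2 * g + 2),
      ∃ x ∈ SalZ (SM g) (MQk g (k + 1)) (r + 1) (2 * g + 2),
        y - EM g x ∈ SalB (SM g) (MQk g k) (r + 1) (2 * g + 2))
    (h : HD (SalZ (SM g) (MQk g (k + 1)) r (2 * g + 2) ⊓
      (SalB (SM g) (MQk g k) r (2 * g + 2)).comap (EM g))
      (SalB (SM g) (MQk g (k + 1)) r (2 * g + 2)) d) :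
    HD (SalZ (ST g) (Wsp g (k + 1)) r (2 * g + 2)) (SalB (ST g) (Wsp g (k + 1)) r (2 * g + 2)) d := by
  have hm : ∀ z, z ∈ SalZ (ST g) (Wsp g (k + 1)) r (2 * g + 2) →
      JM g z ∈ SalZ (SM g) (MQk g (k + 1)) r (2 * g + 2) := by
    rintro z ⟨hz, hz2⟩
    refine ⟨JM_IsS g r _ _ z hz, ?_⟩
    rw [← JM_sal g z fun l hl => (hz.1 l hl).2, hz2, map_zero]
  refine (HD_map (SalZ (ST g) (Wsp g (k + 1)) r (2 * g + 2))
    (SalB (ST g) (Wsp g (k + 1)) r (2 * g + 2))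
    (SalZ (SM g) (MQk g (k + 1)) r (2 * g + 2) ⊓
      (SalB (SM g) (MQk g k) r (2 * g + 2)).comap (EM g))
    (SalB (SM g) (MQk g (k + 1)) r (2 * g + 2)) (JM g) ?_ ?_ ?_ d).2 h
  · intro z hz
    refine ⟨hm z hz, ?_⟩
    rw [Submodule.comap_coe, Set.mem_preimage, EM_JM]
    exact Submodule.zero_mem _
  · rintro z ⟨hz, hz2⟩
    constructor
    · rintro ⟨ψ, hψ, hψ2⟩
      have e1 : EM g ψ ∈ SalZ (SM g) (MQk g k) (r + 1) (2 * g + 2) := by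
        refine ⟨EM_IsS g _ _ k ψ hψ, ?_⟩
        rw [← EM_sal g ψ fun l hl => (hψ.1 l hl).2, hψ2, EM_JM]
      obtain ⟨ψ2, ⟨h1, h2⟩, χ, hχ, hχ2⟩ := hs _ e1
      obtain ⟨χ', h3, h4⟩ := EM_lift g (r + 1 + 1) _ k χ hχ
      have h5 : IsS (MQk g (k + 1)) (r + 1) (2 * g + 2) (sal (SM g) χ') :=
        sal_IsS g (r + 1) (k + 1) χ' h3
      have h6 : IsS (MQk g (k + 1)) (r + 1) (2 * g + 2) (ψ - ψ2 - sal (SM g) χ') :=
        IsS_sub' _ _ _ _ _ (IsS_sub' _ _ _ _ _ hψ h1) h5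
      have h7 : EM g (ψ - ψ2 - sal (SM g) χ') = 0 := by
        rw [map_sub, map_sub, EM_sal g χ' fun l hl => (h3.1 l hl).2, h4, hχ2, sub_self]
      obtain ⟨f, hf, hf2⟩ := JM_lift g (r + 1) _ (k + 1) _ h6 h7
      refine ⟨f, hf, ?_⟩
      have h8 : JM g (sal (ST g) f - z) = 0 := by
        rw [map_sub, JM_sal g f fun l hl => (hf.1 l hl).2, hf2, map_sub, map_sub, hψ2, h2,
          sal_sal_SM g hg χ' fun l hl => (h3.1 l hl).2, sub_zero, sub_zero, sub_self]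
      exact sub_eq_zero.1 (JM_inj g _ h8)
    · rintro ⟨f, hf, hf2⟩
      refine ⟨JM g f, JM_IsS g _ _ _ f hf, ?_⟩
      rw [← JM_sal g f fun l hl => (hf.1 l hl).2, hf2]
  · rintro z' ⟨⟨h1, h2⟩, χ, hχ, hχ2⟩
    obtain ⟨χ', h3, h4⟩ := EM_lift g (r + 1) _ k χ hχ
    have h5 : IsS (MQk g (k + 1)) r (2 * g + 2) (sal (SM g) χ') := sal_IsS g r (k + 1) χ' h3
    have h6 : IsS (MQk g (k + 1)) r (2 * g + 2) (z' - sal (SM g) χ') :=
      IsS_sub' _ _ _ _ _ h1 h5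
    have h7 : EM g (z' - sal (SM g) χ') = 0 := by
      rw [map_sub, EM_sal g χ' fun l hl => (h3.1 l hl).2, h4, hχ2, sub_self]
    obtain ⟨z, hz, hz2⟩ := JM_lift g r _ (k + 1) _ h6 h7
    refine ⟨z, ⟨hz, ?_⟩, χ', h3, ?_⟩
    · refine JM_inj g _ ?_
      rw [JM_sal g z fun l hl => (hz.1 l hl).2, hz2, map_sub, h2,
        sal_sal_SM g hg χ' fun l hl => (h3.1 l hl).2, sub_zero]
    · rw [hz2]
      abel

end BrV
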