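import Pool.Agent.Lib.BrV.SLin
import Pool.Agent.Lib.BrV.CSym

/-!
# BrV.SFinB: transfer to group cohomology; `Sym^k V` is finite-dimensional

* `Wsp_fin`: `MvPolynomial.homogeneousSubmodule_eq_finsupp_supported` (or: the span of finitely many monomials): finitely many exponents of degree `k` in `Fin (2 g) →₀ ℕ`.
* `ST_mem`, `ST_BRel`: from `SM_mem`, `SM_BRel` and `SM_emT`, `emT_mem`, `emT_inj` (`h ∈ Wsp` iff `emT h ∈ MQk`: `rename` of an injective map preserves and reflects homogeneity), or directly from `twist`.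
* `sym_tr`: `HD_map` with `φ = mapRange (Wsp g k).subtype` between `SalZ (opS (SymV g k)) ⊤ r (2g+1+1)`, `SalB ..` and `SalZ (ST g) (Wsp g k) r (2g+2)`, `SalB ..` (as in `CSym.sym_transfer`, copy its private `opS_val`), then `coh_iso`, `LinearEquiv.rank_eq`.
-/

namespace BrV

open CategoryTheory Finsupp Pool.Agent.Lib.BrSym

theorem Wsp_fin (g k : ℕ) : Module.Finite ℝ (Wsp g k) :=
  Module.Finite.iff_fg.mpr (MvPolynomial.homogeneousSubmodule_fg (Fin (2 * g)) ℝ k)

theorem ST_mem (g k i : ℕ) (x : MvPolynomial (Fin (2 * g)) ℝ) (hx : x ∈ Wsp g k) :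
    ST g i x ∈ Wsp g k :=
  twist_hom (i - 1) hx

theorem ST_BRel (g : ℕ) (hg : 1 ≤ g) : BRel (ST g) 0 (2 * g + 2) := by
  constructor
  · intro i j h1 h2 h3
    apply LinearMap.ext
    intro v
    simp only [Module.End.mul_apply]
    exact twist_comm (by omega) (by omega) (om_far (by omega)) v
  · intro i h1 h2
    apply LinearMap.ext
    intro v
    simp only [Module.End.mul_apply]
    have h3 : i + 1 - 1 = (i - 1) + 1 := by omega
    show twist g (i - 1) (twist g (i + 1 - 1) (twist g (i - 1) v)) =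
      twist g (i + 1 - 1) (twist g (i - 1) (twist g (i + 1 - 1) v))
    rw [h3]
    exact twist_braid (by omega) v

private theorem opS_val' (g k j : ℕ) (h1 : 1 ≤ j) (h2 : j < 2 * g + 2) (v : Wsp g k) :
    (Wsp g k).subtype (opS (SymV g k) j v) = ST g j ((Wsp g k).subtype v) := by
  have h : sG (2 * g + 1) j = PresentedGroup.of ⟨j - 1, by omega⟩ := by
    unfold sG
    rw [dif_pos ⟨h1, by omega⟩]
  show ((symRep g k (sG (2 * g + 1) j)) v).1 = _
  rw [h]
  exact symRep_of g k ⟨j - 1, by omega⟩ v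

theorem sym_tr (g k i r d : ℕ) (h : r + i = 2 * g + 2)
    (hd : HD (SalZ (ST g) (Wsp g k) r (2 * g + 2)) (SalB (ST g) (Wsp g k) r (2 * g + 2)) d) :
    Module.rank ℝ (groupCohomology (SymV g k) i) = (d : Cardinal) := by
  classical
  obtain ⟨e⟩ := coh_iso (2 * g + 1) i r (SymV g k) h
  rw [e.rank_eq]
  set φ : Wsp g k →ₗ[ℝ] MvPolynomial (Fin (2 * g)) ℝ := (Wsp g k).subtype with hφ
  have hφ0 : ∀ v : Wsp g k, φ v = 0 → v = 0 := fun v hv => Subtype.ext hv
  have hinj : Function.Injective (Finsupp.mapRange.linearMap (α := List ℕ) φ) := by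
    intro a b hab
    ext1 l
    have h3 := DFunLike.congr_fun hab l
    exact Subtype.ext h3
  have hnat : ∀ y : List ℕ →₀ Wsp g k, (∀ l, y l ≠ 0 → tot l = 2 * g + 2) →
      Finsupp.mapRange.linearMap φ (sal (opS (SymV g k)) y) =
        sal (ST g) (Finsupp.mapRange.linearMap φ y) := by
    intro y hy
    exact sal_nat φ (opS (SymV g k)) (ST g) (2 * g + 2)
      (fun j hj1 hj2 v => opS_val' g k j hj1 hj2 v) y hy
  -- restriction of the coefficients
  have hlift : ∀ (s : ℕ) (y' : List ℕ →₀ MvPolynomial (Fin (2 * g)) ℝ),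
      IsS (Wsp g k) s (2 * g + 2) y' →
      ∃ y : List ℕ →₀ Wsp g k, IsS ⊤ s (2 * g + 2) y ∧ Finsupp.mapRange.linearMap φ y = y' := by
    intro s y' hy1
    set ψ : MvPolynomial (Fin (2 * g)) ℝ → Wsp g k := fun v => if hv : v ∈ Wsp g k then ⟨v, hv⟩ else 0
      with hψ
    have hψ0 : ψ 0 = 0 := by
      rw [hψ]
      simp only
      rw [dif_pos (Submodule.zero_mem _)]
      rfl
    have hφψ : ∀ v ∈ Wsp g k, φ (ψ v) = v := by
      intro v hv
      rw [hψ]
      simp only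
      rw [dif_pos hv]
      rfl
    refine ⟨Finsupp.mapRange ψ hψ0 y', ⟨fun l hl => hy1.1 l ?_, fun _ => Submodule.mem_top⟩, ?_⟩
    · intro h0
      apply hl
      show ψ (y' l) = 0
      rw [h0, hψ0]
    · ext1 l
      exact hφψ _ (hy1.2 l)
  have hpush : ∀ (s : ℕ) (y : List ℕ →₀ Wsp g k), IsS ⊤ s (2 * g + 2) y →
      IsS (Wsp g k) s (2 * g + 2) (Finsupp.mapRange.linearMap φ y) := by
    rintro s y ⟨h1, -⟩
    exact ⟨fun l hl => h1 l (by
        intro h0
        apply hl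
        show φ (y l) = 0
        rw [h0, map_zero]), fun l => (y l).2⟩
  refine (HD_map (SalZ (opS (SymV g k)) ⊤ r (2 * g + 1 + 1))
    (SalB (opS (SymV g k)) ⊤ r (2 * g + 1 + 1))
    (SalZ (ST g) (Wsp g k) r (2 * g + 2)) (SalB (ST g) (Wsp g k) r (2 * g + 2))
    (Finsupp.mapRange.linearMap (α := List ℕ) φ) ?_ ?_ ?_ d).mpr hd
  · rintro x ⟨h1, h2⟩
    exact ⟨hpush r x h1, by rw [← hnat x (fun l hl => (h1.1 l hl).2), h2, map_zero]⟩
  · rintro x ⟨h1, h2⟩
    constructor
    · rintro ⟨y', hy1, hy2⟩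
      obtain ⟨y, hy3, rfl⟩ := hlift (r + 1) y' hy1
      refine ⟨y, hy3, ?_⟩
      apply hinj
      rw [hnat y (fun l hl => (hy3.1 l hl).2), hy2]
    · rintro ⟨y, hy1, rfl⟩
      exact ⟨_, hpush (r + 1) y hy1, (hnat y (fun l hl => (hy1.1 l hl).2)).symm⟩
  · rintro z' ⟨h1, h2⟩
    obtain ⟨z, hz1, rfl⟩ := hlift r z' h1
    refine ⟨z, ⟨hz1, ?_⟩, ?_⟩
    · apply hinj
      rw [hnat z (fun l hl => (hz1.1 l hl).2), h2, map_zero]
    · rw [sub_self]
      exact Submodule.zero_mem _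

end BrV
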