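import Pool.Agent.Lib.BrV.SLin
import Pool.Agent.Lib.BrV.Desc

/-!
# BrV.SPhS: the homology of `Φ0` is the homology of `Sal(M_k)`, `n = 2g + 2`, `k ≥ 1`

`Lam g (pr c b) = piM (Θ c)` coefficientwise (`fpart (pr c b) = c` by `pr_false`).
* `Lam_IsS`: `Th_IsS`, `piM_mem`.
* `Lam_D0`: `D0 (pr c b) = pr (- mg c + uo b) (mg b)` (`exists_pr`, `D0_pr`), `Th_mg`, `Th_uo`, `piM_dl`, `sal_nat` with `piM_SA` (as in `Desc.salMQ`).
* `Lam_surj`: as in `Desc.salMQ` and `RelSal.relSal`: `r = 0`: `x = 0` (`tot [] = 0`).  Lift `x` to `x1` with coefficients in `Bn n (k+1)` (`piM_surj`), `piM (sal SA x1) = 0`, so `sal SA x1 l = dl 0 n * b l`, `b l ∈ Bn n k` (`piM_ker`); `x1 = Th c`, `b = Th b1` (`Th_surj`), `b2 = (1/2) b1`: `mg c = uo b2` and `mg b2 = 0`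
  exactly as in the proof of `relSal` (copy its private lemmas `mg_mg`, `mg_uo`, `mg_supp`, `uo_supp`, `pr_IsH0`, `dl_ne`); `c' = pr c b2` is a cycle of degree `(r, n, k+1)` with `Lam c' = x`.
* `Lam_inj`: `c ∈ Z0 r n (k+1)`, `Lam g c = sal (SM g) y`.  Lift `y` to `y1` in `Bn n (k+1)`, `y1 = Th f`, `f` of degree `(r+1, n, k+1)`; `c1 = c + D0 (pr f 0)` has `Lam c1 = 0` (`Lam_D0`) and `D0 c1 = 0` (`D0 D0 = 0`: from `D0_pr`, `mg_mg`, `mg_uo`).
  `c1 = pr a b`: `piM (Th a l) = 0`, so `Th a l = dl 0 n * z l`, `z l ∈ Bn n k` (`piM_ker`; choose `z l = 0` where `Th a l = 0`), `z = Th b'` (degree `(r, n, k)`), so `a = uo ((1/2) b')` (`Th_inj`, `Th_uo`).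
  `c1 - D0 (pr 0 ((1/2) b')) = pr 0 b''`, still a cycle: `uo b'' = 0`, `b'' = 0` (`uo_inj`).  So `c = D0 (pr 0 ((1/2) b') - pr f 0)`.
* `hd_Lam`: `HD_map`.
* `Lam_fix`: given a cycle `x = Lam g c0`, `IsH0 r n (k+1) c0`, of `Sal(M_(k+1))`: `Lam_surj` gives a cycle `c'` with `Lam c' = x`; `a = fpart (c0 - c')` has `piM (Th a) = 0`, so as above `a = uo b'`, `b'` of degree `(r, n, k)`, and `c' + D0 (pr 0 b')` is a cycle with the same `fpart` as `c0`.
-/

namespace BrV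

open Finsupp

private theorem sps_ext {x y : Ph0} (h1 : ∀ l, x (false, l) = y (false, l))
    (h2 : ∀ l, x (true, l) = y (true, l)) : x = y := by
  ext ⟨b, l⟩
  cases b
  · exact h1 l
  · exact h2 l

private theorem sps_pr_zero : pr 0 0 = 0 := by
  refine sps_ext ?_ ?_
  · intro l
    rw [pr_false]
    rfl
  · intro l
    rw [pr_true]
    rfl

private theorem sps_mg_supp (c : CL) (q : LB) (h : mg c q ≠ 0) : ∃ l, c l ≠ 0 ∧ mg0 l q ≠ 0 := by
  unfold mg at h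
  rw [lift_apply, Finsupp.sum, Finsupp.finsetSum_apply] at h
  obtain ⟨l, hl, hne⟩ := Finset.exists_ne_zero_of_sum_ne_zero h
  refine ⟨l, Finsupp.mem_support_iff.1 hl, ?_⟩
  intro h0
  apply hne
  rw [Finsupp.smul_apply, h0, smul_zero]

private theorem sps_uo_supp (c : CL) (q : LB) (h : uo c q ≠ 0) : ∃ l, c l ≠ 0 ∧ uo0 l q ≠ 0 := by
  unfold uo at h
  rw [lift_apply, Finsupp.sum, Finsupp.finsetSum_apply] at h
  obtain ⟨l, hl, hne⟩ := Finset.exists_ne_zero_of_sum_ne_zero h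
  refine ⟨l, Finsupp.mem_support_iff.1 hl, ?_⟩
  intro h0
  apply hne
  rw [Finsupp.smul_apply, h0, smul_zero]

private theorem sps_mg_mg (c : CL) : mg (mg c) = 0 := by
  induction c using Finsupp.induction_linear with
  | zero => simp
  | add c c' hc hc' => rw [map_add, map_add, hc, hc', add_zero]
  | single l a => rw [mg_single, map_smul, mg_mg0, smul_zero]

private theorem sps_mg_uo (c : CL) : mg (uo c) = uo (mg c) := by
  induction c using Finsupp.induction_linear with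
  | zero => simp
  | add c c' hc hc' => rw [map_add, map_add, hc, hc', map_add, map_add]
  | single l a => rw [uo_single, map_smul, mg_uo0, mg_single, map_smul]

private theorem sps_pr_IsH0 {r n k : ℕ} {c b : CL}
    (hc : ∀ l, c l ≠ 0 → l.length = r ∧ npL l = n ∧ nzL l = k)
    (hb : ∀ l, b l ≠ 0 → l.length + 1 = r ∧ npL l = n ∧ nzL l + 1 = k) :
    IsH0 r n k (pr c b) := by
  rintro ⟨x, l⟩ h
  cases x
  · rw [pr_false] at h
    have := hc l h
    simpa [rI, nI, kI] using this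
  · rw [pr_true] at h
    have := hb l h
    simpa [rI, nI, kI] using this

private theorem sps_IsH0_pr {r n k : ℕ} {c b : CL} (h : IsH0 r n k (pr c b)) :
    (∀ l, c l ≠ 0 → l.length = r ∧ npL l = n ∧ nzL l = k) ∧
    (∀ l, b l ≠ 0 → l.length + 1 = r ∧ npL l = n ∧ nzL l + 1 = k) := by
  constructor
  · intro l hl
    have := h (false, l) (by rw [pr_false]; exact hl)
    simpa [rI, nI, kI] using this
  · intro l hl
    have := h (true, l) (by rw [pr_true]; exact hl)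
    simpa [rI, nI, kI] using this

private theorem sps_pr_inj {c b c' b' : CL} (h : pr c b = pr c' b') : c = c' ∧ b = b' := by
  constructor
  · ext l
    rw [← pr_false c b l, h, pr_false]
  · ext l
    rw [← pr_true c b l, h, pr_true]

private theorem sps_add_ne {α : Type} {x y : α →₀ ℝ} {i : α} (h : (x + y) i ≠ 0) :
    x i ≠ 0 ∨ y i ≠ 0 := by
  by_contra h1
  rw [not_or, not_not, not_not] at h1
  exact h (by rw [Finsupp.add_apply, h1.1, h1.2, add_zero])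

private theorem sps_sub_ne {α : Type} {x y : α →₀ ℝ} {i : α} (h : (x - y) i ≠ 0) :
    x i ≠ 0 ∨ y i ≠ 0 := by
  by_contra h1
  rw [not_or, not_not, not_not] at h1
  exact h (by rw [Finsupp.sub_apply, h1.1, h1.2, sub_zero])

private theorem sps_IsH0_add {r n k : ℕ} {x y : Ph0} (hx : IsH0 r n k x) (hy : IsH0 r n k y) :
    IsH0 r n k (x + y) := fun i hi => (sps_add_ne hi).elim (hx i) (hy i)

private theorem sps_IsH0_sub {r n k : ℕ} {x y : Ph0} (hx : IsH0 r n k x) (hy : IsH0 r n k y) :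
    IsH0 r n k (x - y) := fun i hi => (sps_sub_ne hi).elim (hx i) (hy i)

private theorem sps_IsH0_neg {r n k : ℕ} {x : Ph0} (hx : IsH0 r n k x) : IsH0 r n k (- x) :=
  fun i hi => hx i (by
    intro h0
    apply hi
    rw [Finsupp.neg_apply, h0, neg_zero])

private theorem sps_mg_deg {r n k : ℕ} {c : CL}
    (hc : ∀ l, c l ≠ 0 → l.length = r + 1 ∧ npL l = n ∧ nzL l = k) :
    ∀ q, mg c q ≠ 0 → q.length = r ∧ npL q = n ∧ nzL q = k := by
  intro q hq
  obtain ⟨l, hl, hl'⟩ := sps_mg_supp _ _ hq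
  have h8 := hc l hl
  have h9 := mg0_supp _ _ hl'
  omega

private theorem sps_uo_deg {r n k : ℕ} {c : CL}
    (hc : ∀ l, c l ≠ 0 → l.length = r ∧ npL l = n ∧ nzL l = k) :
    ∀ q, uo c q ≠ 0 → q.length = r ∧ npL q = n ∧ nzL q = k + 1 := by
  intro q hq
  obtain ⟨l, hl, hl'⟩ := sps_uo_supp _ _ hq
  have h8 := hc l hl
  have h9 := uo0_supp _ _ hl'
  omega

private theorem sps_exists_lift {M M' : Type*} [AddCommGroup M] [Module ℝ M] [AddCommGroup M']
    [Module ℝ M'] (φ : M →ₗ[ℝ] M') (N : Submodule ℝ M) (x' : List ℕ →₀ M')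
    (h : ∀ l, ∃ m ∈ N, φ m = x' l) :
    ∃ x : List ℕ →₀ M, (∀ l, x l ∈ N) ∧ (∀ l, φ (x l) = x' l) ∧ ∀ l, x l ≠ 0 → x' l ≠ 0 := by
  classical
  choose m hm hφ using h
  refine ⟨Finsupp.onFinset x'.support (fun l => if x' l = 0 then 0 else m l) ?_, ?_, ?_, ?_⟩
  · intro l hl
    rw [Finsupp.mem_support_iff]
    intro h
    exact hl (if_pos h)
  · intro l
    rw [Finsupp.onFinset_apply]
    split_ifs with h
    · exact N.zero_mem
    · exact hm l
  · intro l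
    rw [Finsupp.onFinset_apply]
    split_ifs with h
    · rw [h, map_zero]
    · exact hφ l
  · intro l hl h
    rw [Finsupp.onFinset_apply] at hl
    exact hl (if_pos h)

private theorem sps_Th_supp (c : CL) (s : List ℕ) (h : Th c s ≠ 0) :
    ∃ l, c l ≠ 0 ∧ l.map np = s := by
  unfold Th at h
  rw [lift_apply, Finsupp.sum, Finsupp.finsetSum_apply] at h
  obtain ⟨l, hl, hne⟩ := Finset.exists_ne_zero_of_sum_ne_zero h
  refine ⟨l, Finsupp.mem_support_iff.1 hl, ?_⟩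
  by_contra h0
  apply hne
  rw [Finsupp.smul_apply, single_eq_of_ne (Ne.symm h0), smul_zero]

private theorem sps_Th_tot {n : ℕ} {c : CL} (hc : ∀ l, c l ≠ 0 → npL l = n) (s : List ℕ)
    (h : Th c s ≠ 0) : tot s = n := by
  obtain ⟨l, hl, rfl⟩ := sps_Th_supp c s h
  rw [tot_map_np]
  exact hc l hl

private theorem sps_nat (g : ℕ) (hg : 1 ≤ g) (y : List ℕ →₀ PA)
    (hy : ∀ l, y l ≠ 0 → tot l = 2 * g + 2) :
    Finsupp.mapRange.linearMap (piM g).toLinearMap (sal SA y)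
      = sal (SM g) (Finsupp.mapRange.linearMap (piM g).toLinearMap y) :=
  sal_nat (piM g).toLinearMap SA (SM g) (2 * g + 2)
    (fun i hi hi' f => piM_SA g i hg hi (by omega) f) y hy

/-- chains of `Sal(M)` lift to lists of blocks -/
private theorem sps_lift (g r k : ℕ) (hg : 1 ≤ g) (x : List ℕ →₀ MQ g)
    (hx : IsS (MQk g k) r (2 * g + 2) x) :
    ∃ c : CL, (∀ l, c l ≠ 0 → l.length = r ∧ npL l = 2 * g + 2 ∧ nzL l = k) ∧
      ∀ l, piM g (Th c l) = x l := by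
  obtain ⟨x1, h1, h2, h3⟩ := sps_exists_lift (piM g).toLinearMap (Bn (2 * g + 2) k) x
    fun l => piM_surj g k hg (x l) (hx.2 l)
  obtain ⟨c, hc, hcx⟩ := Th_surj r (2 * g + 2) k x1 ⟨fun l hl => hx.1 l (h3 l hl), h1⟩
  refine ⟨c, hc, fun l => ?_⟩
  rw [hcx]
  exact h2 l

/-- the kernel of `piM ∘ Θ` is the image of `uo` -/
private theorem sps_ker (g r k : ℕ) (hg : 1 ≤ g) (a : CL)
    (ha : ∀ l, a l ≠ 0 → l.length = r ∧ npL l = 2 * g + 2 ∧ nzL l = k + 1)
    (h : ∀ l, piM g (Th a l) = 0) :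
    ∃ b : CL, (∀ l, b l ≠ 0 → l.length = r ∧ npL l = 2 * g + 2 ∧ nzL l = k) ∧ a = uo b := by
  have hT := Th_IsS r (2 * g + 2) (k + 1) a ha
  obtain ⟨z, hz1, hz2, hz3⟩ := sps_exists_lift (LinearMap.mulLeft ℝ (dl 0 (2 * g + 2)))
    (Bn (2 * g + 2) k) (Th a) fun l => by
      obtain ⟨q, hq, hq2⟩ := piM_ker g k hg (Th a l) (hT.2 l) (h l)
      exact ⟨q, hq, hq2.symm⟩
  obtain ⟨b1, hb1, hb1x⟩ := Th_surj r (2 * g + 2) k z ⟨fun l hl => hT.1 l (hz3 l hl), hz1⟩
  have hbs : ∀ l, ((1 / 2 : ℝ) • b1) l ≠ 0 → l.length = r ∧ npL l = 2 * g + 2 ∧ nzL l = k := by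
    intro l hl
    refine hb1 l ?_
    intro h0
    apply hl
    rw [Finsupp.smul_apply, h0, smul_zero]
  refine ⟨(1 / 2 : ℝ) • b1, hbs, ?_⟩
  have h5 : a - uo ((1 / 2 : ℝ) • b1) = 0 := by
    refine Th_inj (2 * g + 2) (k + 1) _ ?_ ?_
    · intro q hq
      rcases sps_sub_ne hq with h6 | h6
      · exact (ha q h6).2
      · exact (sps_uo_deg hbs q h6).2
    · ext1 l
      have h7 : (2 : PA) * ((1 / 2 : ℝ) • z l) = z l := by
        have h4 : (2 : PA) * ((1 / 2 : ℝ) • z l) = (2 : ℝ) • ((1 / 2 : ℝ) • z l) := by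
          rw [MvPolynomial.smul_eq_C_mul (a := (2 : ℝ))]
          rw [map_ofNat]
        rw [h4, smul_smul]
        norm_num
      have h8 : dl 0 (2 * g + 2) * z l = Th a l := hz2 l
      rw [map_sub, Finsupp.sub_apply, Th_uo (2 * g + 2) _ (fun l hl => (hbs l hl).2.1) l,
        map_smul, hb1x, Finsupp.smul_apply, ← h8, Finsupp.zero_apply]
      calc dl 0 (2 * g + 2) * z l - 2 * dl 0 (2 * g + 2) * ((1 / 2 : ℝ) • z l)
          = dl 0 (2 * g + 2) * (z l - 2 * ((1 / 2 : ℝ) • z l)) := by ring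
        _ = 0 := by rw [h7, sub_self, mul_zero]
  exact sub_eq_zero.1 h5

theorem fpart_apply (c : Ph0) (l : LB) : fpart c l = c (false, l) := by
  rfl

theorem Lam_pr (g : ℕ) (c b : CL) (l : List ℕ) : Lam g (pr c b) l = piM g (Th c l) := by
  have h : fpart (pr c b) = c := by
    ext l
    rw [fpart_apply, pr_false]
  change piM g (Th (fpart (pr c b)) l) = _
  rw [h]

theorem D0_D0' (c : Ph0) : D0 (D0 c) = 0 := by
  obtain ⟨a, b, rfl⟩ := exists_pr c
  rw [D0_pr, D0_pr, map_add, map_neg, sps_mg_mg, sps_mg_mg, sps_mg_uo, neg_zero, zero_add,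
    neg_add_cancel, sps_pr_zero]

theorem IsH0_D0' (r n k : ℕ) (c : Ph0) (h : IsH0 (r + 1) n k c) : IsH0 r n k (D0 c) := by
  obtain ⟨a, b, rfl⟩ := exists_pr c
  obtain ⟨ha, hb⟩ := sps_IsH0_pr h
  rw [D0_pr]
  refine sps_pr_IsH0 ?_ ?_
  · intro q hq
    rcases sps_add_ne hq with h1 | h1
    · refine sps_mg_deg ha q ?_
      intro h0
      apply h1
      rw [Finsupp.neg_apply, h0, neg_zero]
    · obtain ⟨l, hl, hl'⟩ := sps_uo_supp _ _ h1
      have h8 := hb l hl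
      have h9 := uo0_supp _ _ hl'
      omega
  · intro q hq
    obtain ⟨l, hl, hl'⟩ := sps_mg_supp _ _ hq
    have h8 := hb l hl
    have h9 := mg0_supp _ _ hl'
    omega

theorem Lam_IsS (g r k : ℕ) (hg : 1 ≤ g) (c : Ph0) (hc : IsH0 r (2 * g + 2) k c) :
    IsS (MQk g k) r (2 * g + 2) (Lam g c) := by
  obtain ⟨a, b, rfl⟩ := exists_pr c
  obtain ⟨ha, -⟩ := sps_IsH0_pr hc
  have hT := Th_IsS r (2 * g + 2) k a ha
  constructor
  · intro l hl
    refine hT.1 l ?_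
    intro h0
    apply hl
    rw [Lam_pr, h0, map_zero]
  · intro l
    rw [Lam_pr]
    exact piM_mem g k hg _ (hT.2 l)

theorem Lam_D0 (g : ℕ) (hg : 1 ≤ g) (c : Ph0) (hc : ∀ i, c i ≠ 0 → nI i = 2 * g + 2) :
    Lam g (D0 c) = - sal (SM g) (Lam g c) := by
  obtain ⟨a, b, rfl⟩ := exists_pr c
  have ha : ∀ l, a l ≠ 0 → npL l = 2 * g + 2 := by
    intro l hl
    have h1 := hc (false, l) (by rw [pr_false]; exact hl)
    simpa [nI] using h1
  have hb : ∀ l, b l ≠ 0 → npL l = 2 * g + 2 := by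
    intro l hl
    have h1 := hc (true, l) (by rw [pr_true]; exact hl)
    simpa [nI] using h1
  have h1 : Finsupp.mapRange.linearMap (piM g).toLinearMap (Th a) = Lam g (pr a b) := by
    ext1 l
    rw [Lam_pr]
    rfl
  have h2 := sps_nat g hg (Th a) fun l hl => sps_Th_tot ha l hl
  rw [h1] at h2
  ext1 l
  have h3 : piM g (sal SA (Th a) l) = sal (SM g) (Lam g (pr a b)) l := DFunLike.congr_fun h2 l
  rw [D0_pr, Lam_pr, Finsupp.neg_apply, ← h3, map_add, map_neg, Finsupp.add_apply,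
    Finsupp.neg_apply, Th_mg, Th_uo (2 * g + 2) b hb l, map_add, map_neg, map_mul, map_mul,
    piM_dl g hg, mul_zero, zero_mul, add_zero]

theorem Lam_surj (g r k : ℕ) (hg : 1 ≤ g) (x : List ℕ →₀ MQ g)
    (hx : IsS (MQk g (k + 1)) r (2 * g + 2) x) (h : sal (SM g) x = 0) :
    ∃ c ∈ Z0 r (2 * g + 2) (k + 1), Lam g c = x := by
  rcases Nat.eq_zero_or_pos r with hr | hr
  · have hx0 : x = 0 := by
      ext1 l
      by_contra hne
      have h1 := hx.1 l (by simpa using hne)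
      rw [hr] at h1
      have h2 : l = [] := List.length_eq_zero_iff.1 h1.1
      rw [h2] at h1
      have h3 : tot [] = 0 := rfl
      omega
    exact ⟨0, (Z0 r (2 * g + 2) (k + 1)).zero_mem, by rw [hx0, map_zero]⟩
  · obtain ⟨s, rfl⟩ : ∃ s, r = s + 1 := ⟨r - 1, by omega⟩
    obtain ⟨c, hc, hcx⟩ := sps_lift g (s + 1) (k + 1) hg x hx
    have h1 : Finsupp.mapRange.linearMap (piM g).toLinearMap (Th c) = x := by
      ext1 l
      exact hcx l
    have h2 := sps_nat g hg (Th c) fun l hl => sps_Th_tot (fun l hl => (hc l hl).2.1) l hl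
    rw [h1, h] at h2
    have h3 : ∀ l, piM g (Th (mg c) l) = 0 := by
      intro l
      rw [Th_mg]
      exact DFunLike.congr_fun h2 l
    obtain ⟨b, hb, hmg⟩ := sps_ker g s k hg (mg c) (sps_mg_deg hc) h3
    have hmgb : mg b = 0 := by
      refine uo_inj (2 * g + 2) k (by omega) (mg b) ?_ ?_
      · intro q hq
        obtain ⟨l, hl, hl'⟩ := sps_mg_supp _ _ hq
        have h8 := hb l hl
        have h9 := mg0_supp _ _ hl'
        omega
      · rw [← sps_mg_uo, ← hmg, sps_mg_mg]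
    refine ⟨pr c b, ⟨sps_pr_IsH0 hc fun l hl => ?_, ?_⟩, ?_⟩
    · have h8 := hb l hl
      omega
    · rw [D0_pr, hmg, hmgb, neg_add_cancel, sps_pr_zero]
    · ext1 l
      rw [Lam_pr, hcx]

theorem Lam_inj (g r k : ℕ) (hg : 1 ≤ g) (c : Ph0) (hc : c ∈ Z0 r (2 * g + 2) (k + 1)) :
    Lam g c ∈ SalB (SM g) (MQk g (k + 1)) r (2 * g + 2) ↔ c ∈ B0 r (2 * g + 2) (k + 1) := by
  obtain ⟨hc1, hc2⟩ := hc
  have hn : ∀ {r : ℕ} {k : ℕ} {x : Ph0}, IsH0 r (2 * g + 2) k x →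
      ∀ i, x i ≠ 0 → nI i = 2 * g + 2 := fun hx i hi => (hx i hi).2.1
  constructor
  · rintro ⟨y, hy, hyc⟩
    obtain ⟨f, hf, hfy⟩ := sps_lift g (r + 1) (k + 1) hg y hy
    have hF : IsH0 (r + 1) (2 * g + 2) (k + 1) (pr f 0) :=
      sps_pr_IsH0 hf fun l hl => absurd rfl hl
    have hLf : Lam g (pr f 0) = y := by
      ext1 l
      rw [Lam_pr, hfy]
    have hc3 : IsH0 r (2 * g + 2) (k + 1) (c + D0 (pr f 0)) :=
      sps_IsH0_add hc1 (IsH0_D0' _ _ _ _ hF)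
    have hc4 : D0 (c + D0 (pr f 0)) = 0 := by rw [map_add, hc2, D0_D0', add_zero]
    have hc5 : Lam g (c + D0 (pr f 0)) = 0 := by
      rw [map_add, Lam_D0 g hg _ (hn hF), hLf, hyc, add_neg_cancel]
    obtain ⟨a, b, hab⟩ := exists_pr (c + D0 (pr f 0))
    rw [hab] at hc3 hc4 hc5
    obtain ⟨ha, hb⟩ := sps_IsH0_pr hc3
    obtain ⟨z, hz, haz⟩ := sps_ker g r k hg a ha fun l => by
      rw [← Lam_pr g a b l, hc5]
      rfl
    rw [D0_pr] at hc4
    obtain ⟨h6, h7⟩ := sps_pr_inj (hc4.trans sps_pr_zero.symm)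
    have hbz : b - mg z = 0 := by
      refine uo_inj (2 * g + 2) k (by omega) _ ?_ ?_
      · intro q hq
        rcases sps_sub_ne hq with h8 | h8
        · have h9 := hb q h8
          omega
        · obtain ⟨l, hl, hl'⟩ := sps_mg_supp _ _ h8
          have h9 := hz l hl
          have h10 := mg0_supp _ _ hl'
          omega
      · rw [map_sub, ← sps_mg_uo, ← haz, ← h6]
        abel
    have hz2 : IsH0 (r + 1) (2 * g + 2) (k + 1) (pr 0 z) :=
      sps_pr_IsH0 (fun l hl => absurd rfl hl) fun l hl => by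
        have h9 := hz l hl
        omega
    refine ⟨pr 0 z - pr f 0, sps_IsH0_sub hz2 hF, ?_⟩
    rw [map_sub, D0_pr 0 z, map_zero, neg_zero, zero_add, ← haz, ← sub_eq_zero.1 hbz, ← hab]
    abel
  · rintro ⟨e, he, rfl⟩
    refine ⟨- Lam g e, ?_, ?_⟩
    · rw [← map_neg]
      exact Lam_IsS g (r + 1) (k + 1) hg _ (sps_IsH0_neg he)
    · rw [map_neg, Lam_D0 g hg _ (hn he)]

theorem hd_Lam (g r k : ℕ) (hg : 1 ≤ g) (d : ℕ) :
    HD (Z0 r (2 * g + 2) (k + 1)) (B0 r (2 * g + 2) (k + 1)) d ↔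
      HD (SalZ (SM g) (MQk g (k + 1)) r (2 * g + 2)) (SalB (SM g) (MQk g (k + 1)) r (2 * g + 2)) d := by
  refine HD_map _ _ _ _ (Lam g) ?_ ?_ ?_ d
  · rintro z ⟨h1, h2⟩
    refine ⟨Lam_IsS g r (k + 1) hg z h1, ?_⟩
    have h3 := Lam_D0 g hg z fun i hi => (h1 i hi).2.1
    rw [h2, map_zero] at h3
    rw [← neg_eq_zero, ← h3]
  · intro z hz
    exact Lam_inj g r k hg z hz
  · rintro z' ⟨h1, h2⟩
    obtain ⟨z, hz, hzz⟩ := Lam_surj g r k hg z' h1 h2
    refine ⟨z, hz, ?_⟩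
    rw [hzz, sub_self]
    exact Submodule.zero_mem _

theorem Lam_fix (g r k : ℕ) (hg : 1 ≤ g) (c0 : Ph0) (hc : IsH0 r (2 * g + 2) (k + 1) c0)
    (h : sal (SM g) (Lam g c0) = 0) :
    ∃ c ∈ Z0 r (2 * g + 2) (k + 1), Lam g c = Lam g c0 ∧ fpart c = fpart c0 := by
  obtain ⟨c', ⟨hc1, hc2⟩, hcx⟩ := Lam_surj g r k hg (Lam g c0) (Lam_IsS g r (k + 1) hg c0 hc) h
  obtain ⟨a, b, hab⟩ := exists_pr (c0 - c')
  have hd : IsH0 r (2 * g + 2) (k + 1) (pr a b) := by
    rw [← hab]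
    exact sps_IsH0_sub hc hc1
  obtain ⟨z, hz, haz⟩ := sps_ker g r k hg a (sps_IsH0_pr hd).1 fun l => by
    rw [← Lam_pr g a b l, ← hab, map_sub, hcx, sub_self]
    rfl
  have hz2 : IsH0 (r + 1) (2 * g + 2) (k + 1) (pr 0 z) :=
    sps_pr_IsH0 (fun l hl => absurd rfl hl) fun l hl => by
      have h9 := hz l hl
      omega
  have hf : fpart (c' + D0 (pr 0 z)) = fpart c0 := by
    ext l
    have h1 := DFunLike.congr_fun hab (false, l)
    rw [Finsupp.sub_apply, pr_false] at h1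
    rw [fpart_apply, fpart_apply, Finsupp.add_apply, D0_pr, pr_false, map_zero, neg_zero,
      zero_add, ← haz, ← h1]
    ring
  refine ⟨c' + D0 (pr 0 z), ⟨sps_IsH0_add hc1 (IsH0_D0' _ _ _ _ hz2), ?_⟩, ?_, hf⟩
  · rw [map_add, hc2, D0_D0', add_zero]
  · unfold Lam
    rw [LinearMap.comp_apply, LinearMap.comp_apply, LinearMap.comp_apply, LinearMap.comp_apply, hf]

end BrV
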