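import Pool.Agent.Lib.BrV.LIso
import Pool.Agent.Lib.BrV.LDim
import Pool.Agent.Lib.BrV.SEx
import Pool.Agent.Lib.BrV.SPhS
import Pool.Agent.Lib.BrV.SFinB
import Pool.Agent.Lib.BrV.Half1

/-!
# BrV.LFin: the lowest cohomology group of `Sym^k V` (paper 3, section 6)

`n = 2g + 2`, `k = m + 2`.
* `hd_low`: as `hd_st3` in `SFinA.lean` (copy the private lemma `EM_cyc`): `desc g (m+3) (m+1) d hg`: `hs`: `H_(m+4)(M_(m+1)) = 0` (`salMQ g m (m+4) hg (Va_half1 (m+1) .. (m+4) n ..)`, `m + 2 < m + 4`; take `x = 0`), `SalZ ⊓ EM⁻¹ SalB = SalZ` for `r = m + 3` (`H_(m+3)(M_(m+1)) = 0`: `m + 2 < m + 3`);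
  then `hd_Lam g (m+3) (m+1)`, `hd_GG m (2g+1) d`, `hd_dim g (m+2)` (`2*g+2 = (2*g+1)+1`).
* `lowest`: `sym_tr g k i (k+1) d` with `(k + 1) + i = 2g + 2`.
-/

namespace BrV

open CategoryTheory Finsupp Pool.Agent.Lib.BrSym

private theorem lfin_EM_cyc (g r k : ℕ) (z : List ℕ →₀ MQ g)
    (hz : z ∈ SalZ (SM g) (MQk g (k + 1)) r (2 * g + 2)) :
    EM g z ∈ SalZ (SM g) (MQk g k) r (2 * g + 2) := by
  obtain ⟨h1, h2⟩ := hz
  refine ⟨EM_IsS g r _ k z h1, ?_⟩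
  rw [← EM_sal g z fun l hl => (h1.1 l hl).2, h2, map_zero]

theorem hd_low (g m : ℕ) (hg : 1 ≤ g) : HD (SalZ (ST g) (Wsp g (m + 2)) (m + 3) (2 * g + 2))
    (SalB (ST g) (Wsp g (m + 2)) (m + 3) (2 * g + 2)) (SI (g + 1) (m + 2)).card := by
  have e4 : SalEx (SM g) (MQk g (m + 1)) (m + 4) (2 * g + 2) :=
    salMQ g m (m + 4) hg (Va_half1 (m + 1) (by omega) (m + 4) (2 * g + 2) (by omega))
  have e3 : SalEx (SM g) (MQk g (m + 1)) (m + 3) (2 * g + 2) :=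
    salMQ g m (m + 3) hg (Va_half1 (m + 1) (by omega) (m + 3) (2 * g + 2) (by omega))
  refine desc g (m + 3) (m + 1) (SI (g + 1) (m + 2)).card hg ?_ ?_
  · intro y hy
    refine ⟨0, Submodule.zero_mem _, ?_⟩
    rw [map_zero, sub_zero]
    exact e4 y hy.1 hy.2
  · have h1 : SalZ (SM g) (MQk g (m + 1 + 1)) (m + 3) (2 * g + 2) ⊓
        (SalB (SM g) (MQk g (m + 1)) (m + 3) (2 * g + 2)).comap (EM g) =
        SalZ (SM g) (MQk g (m + 1 + 1)) (m + 3) (2 * g + 2) := by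
      rw [inf_eq_left]
      intro z hz
      have h2 := lfin_EM_cyc g (m + 3) (m + 1) z hz
      exact e3 _ h2.1 h2.2
    rw [h1]
    refine (hd_Lam g (m + 3) (m + 1) hg (SI (g + 1) (m + 2)).card).1 ?_
    exact (hd_GG m (2 * g + 1) (SI (g + 1) (m + 2)).card).2 (hd_dim g (m + 2) (by omega))

theorem lowest (g k i : ℕ) (hg : 1 ≤ g) (hk : 2 ≤ k) (hi : i + k = 2 * g + 1) :
    Module.rank ℝ (groupCohomology (SymV g k) i) = ((SI (g + 1) k).card : Cardinal) := by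
  obtain ⟨m, rfl⟩ : ∃ m, k = m + 2 := ⟨k - 2, by omega⟩
  exact sym_tr g (m + 2) i (m + 3) (SI (g + 1) (m + 2)).card (by omega) (hd_low g m hg)

end BrV
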