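import Pool.Agent.Lib.BrV.LFnZ

/-!
# BrV.LFnY: which cycles of `Φ(KK (m+1))_1` are boundaries in `Φ(YY (m+1))` (paper 3, (4.3))

Here `k = m + 2`.  `x = BZ (pur u)` (`form m+1`), so `x = x1 + x2`: `x1 = ∑ jL s ⊗ u s` (lists with nonempty head, total `nzW = m + 2`, each entry of these lists of length `m + 2` has exactly one `z`: tails have `nzW = m + 1 < k`), `x2 = - pur (bz u)` (`bz_cns_nil`; `bz u` is `mapRange bz u`, values in
`Tk (m+1) (m+2)`: `bz_TT`, `IsW_bz`; tails of `cns [] _` have `nzW = m + 2 = k`).  So `tL k x = x1`, `x - tL k x = - pur (bz u)`.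
* `bF eA (mapRange bz u) = bz (bF eA u) = bz (Fn x)` (`bz_act`).
* `→`: `DL x = 0` gives `DL x1 = 0` and `DL (pur (bz u)) = 0` (`tL_DL`), so `bd eA (bz u) = 0` (`DL_pur`, `pur_inj`) and `bF_inj` with `T = Tk (m+1) (m+2)` (exact by `Tk_ex`): `bz u = bd eA w`, `pur (bz u) = DL (pur w)`.  `x1` is a boundary by `tail_ac` (with `m + 1`).  Take `cmpL 2 n (m+2)` of the sum (`cmpL_DL`, `cmpL_of`, `cmpL_YY`, `pur_YY`).
* `←`: `x = DL v`: `v2 = v - tL k v` is `pur w` (`split`, `pur_of`), `w` on lists of length `2`, `- pur (bz u) = x - tL k x = DL v2 = pur (bd eA w)`, so `bz u = - bd eA w`, and `bz (Fn x) = bF eA (bz u) = - bF eA (bd eA w) = 0` (`bF_bd`).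
-/

namespace BrV

open Finsupp

private theorem fy_bF_single (l : List ℕ) (v : CW) : bF eA (single l v) =
    (match l with
      | [a] => if Odd a then (2 / ((a : ℝ) + 1)) • eA a else 0
      | _ => 0 : CW →ₗ[ℝ] CW) v := by
  unfold bF
  rw [Finsupp.lsum_single]
  rfl

private theorem fy_bz_bF (u : List ℕ →₀ CW) :
    bz (bF eA u) = bF eA (Finsupp.mapRange.linearMap bz u) := by
  induction u using Finsupp.induction_linear with
  | zero => simp
  | add f g hf hg => rw [map_add, map_add, map_add, map_add, hf, hg]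
  | single l v =>
    have h1 : Finsupp.mapRange.linearMap bz (single l v) = single l (bz v) := by
      rw [Finsupp.mapRange.linearMap_apply, Finsupp.mapRange_single]
    rw [h1, fy_bF_single, fy_bF_single]
    rcases l with _ | ⟨a, _ | ⟨b, l⟩⟩
    · simp
    · by_cases ha : Odd a
      · show bz ((if Odd a then (2 / ((a : ℝ) + 1)) • eA a else 0 : CW →ₗ[ℝ] CW) v) =
          (if Odd a then (2 / ((a : ℝ) + 1)) • eA a else 0 : CW →ₗ[ℝ] CW) (bz v)
        rw [if_pos ha, LinearMap.smul_apply, LinearMap.smul_apply, map_smul]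
        unfold eA
        rw [bz_act]
      · show bz ((if Odd a then (2 / ((a : ℝ) + 1)) • eA a else 0 : CW →ₗ[ℝ] CW) v) =
          (if Odd a then (2 / ((a : ℝ) + 1)) • eA a else 0 : CW →ₗ[ℝ] CW) (bz v)
        rw [if_neg ha, LinearMap.zero_apply, LinearMap.zero_apply, map_zero]
    · simp

private theorem fy_Tk (m k : ℕ) (v : CW) (hv : v ∈ Tk m k) (q : LW) (hq : v q ≠ 0) :
    q.length = m ∧ (∀ w ∈ q, Zw w) ∧ nzW q = k := by
  obtain ⟨h1, h2⟩ := (Tk_mem m k v).1 hv
  unfold TT at h1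
  rw [Finsupp.mem_supported] at h1
  have h3 := h1 (Finset.mem_coe.2 (Finsupp.mem_support_iff.2 hq))
  exact ⟨h3.1, h3.2, h2 q hq⟩

private theorem fy_nz (w : Wd) (h : Zw w) : 1 ≤ nz w := by
  unfold Zw at h
  cases w with
  | nil => simp at h
  | cons a w =>
    have h' : a = false := by simpa using h
    subst h'
    unfold nz
    rw [List.count_cons_self]
    omega

private theorem fy_tL (m : ℕ) (u : List ℕ →₀ CW) (hu : ∀ s, u s ∈ Tk (m + 2) (m + 2))
    (hW : ∀ s, ∃ N, IsW N (m + 2) (u s)) :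
    BZ (pur u) - tL (m + 2) (BZ (pur u)) = - pur (Finsupp.mapRange.linearMap bz u) := by
  ext i q
  rw [Finsupp.sub_apply, Finsupp.sub_apply, tL_apply, Finsupp.neg_apply, Finsupp.neg_apply]
  have hB : ∀ y : PhL, BZ y i = bz (y i) := by
    intro y
    unfold BZ
    rw [Finsupp.mapRange.linearMap_apply, Finsupp.mapRange_apply]
  rw [hB]
  by_cases h : ∃ s, jL s = i
  · obtain ⟨s, rfl⟩ := h
    rw [pur_jL, pur_jL, Finsupp.mapRange.linearMap_apply, Finsupp.mapRange_apply, bz_cns_nil]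
    rcases q with _ | ⟨w, l⟩
    · rw [if_pos (by simp [nzW]), sub_self, cns_nil, neg_zero]
    · rw [cns_apply]
      have ht : nzW (w :: l).tail = nzW l := rfl
      rw [ht]
      by_cases hl : nzW l < m + 2
      · rw [if_pos hl, sub_self]
        symm
        rw [neg_eq_zero]
        split_ifs with hw
        · by_contra hne
          obtain ⟨N, hN⟩ := hW s
          have := (IsW_bz N (m + 2) (u s) hN l hne).2
          omega
        · rfl
      · rw [if_neg hl, sub_zero, Finsupp.sub_apply, cns_apply]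
        have h0 : u s (w :: l) = 0 := by
          by_contra hne
          obtain ⟨_, h2, h3⟩ := fy_Tk _ _ _ (hu s) _ hne
          have h4 := fy_nz w (h2 w List.mem_cons_self)
          have h5 : nzW (w :: l) = nz w + nzW l := by simp [nzW]
          omega
        rw [h0, zero_sub]
  · have h' : ∀ s, jL s ≠ i := fun s hs => h ⟨s, hs⟩
    rw [pur_ne u i h', pur_ne _ i h', map_zero]
    simp

private theorem fy_sub (f : PhL →ₗ[ℝ] PhL) (x y : PhL) : f (x - y) = f x - f y := by
  have h : x = (x - y) + y := by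
    ext i q
    simp only [Finsupp.add_apply, Finsupp.sub_apply]
    ring
  have h2 : f x = f (x - y) + f y :=
    calc f x = f ((x - y) + y) := congrArg f h
      _ = f (x - y) + f y := map_add f _ _
  ext i q
  have h3 := DFunLike.congr_fun (DFunLike.congr_fun h2 i) q
  rw [Finsupp.add_apply, Finsupp.add_apply] at h3
  rw [Finsupp.sub_apply, Finsupp.sub_apply]
  linarith

private theorem fy_negsub (x y z : PhL) (h : x - y = - z) : z = y - x := by
  ext i q
  have h1 := DFunLike.congr_fun (DFunLike.congr_fun h i) q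
  rw [Finsupp.sub_apply, Finsupp.sub_apply, Finsupp.neg_apply, Finsupp.neg_apply] at h1
  rw [Finsupp.sub_apply, Finsupp.sub_apply]
  linarith

theorem Fn_Y (m n : ℕ) (x : PhL) (hx : x ∈ ZL (m + 2) 1 n (m + 2)) : bz (Fn x) = 0 ↔
    ∃ v : PhL, IsHL 2 n (m + 2) v ∧ (∀ i, v i ∈ YY (m + 2)) ∧ DL v = x := by
  obtain ⟨hH, hK, hd⟩ := hx
  obtain ⟨u, hxu, huT, hul, hun⟩ := form (m + 1) 1 n x hH hK
  have hW : ∀ s, ∃ N, IsW N (m + 2) (u s) := by
    intro s
    refine ⟨n - (s.map fun a => a + 1).sum, fun q hq => ⟨?_, (fy_Tk _ _ _ (huT s) q hq).2.2⟩⟩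
    have := hun s q hq
    omega
  have huTT : ∀ s, u s ∈ TT (m + 2) := fun s => ((Tk_mem _ _ _).1 (huT s)).1
  have hbT : ∀ s, (Finsupp.mapRange.linearMap bz u) s ∈ Tk (m + 1) (m + 2) := by
    intro s
    rw [Finsupp.mapRange.linearMap_apply, Finsupp.mapRange_apply, Tk_mem]
    refine ⟨bz_TT (m + 1) _ (huTT s), fun q hq => ?_⟩
    obtain ⟨N, hN⟩ := hW s
    exact (IsW_bz N (m + 2) (u s) hN q hq).2
  have hbTT : ∀ s, (Finsupp.mapRange.linearMap bz u) s ∈ TT (m + 1) :=
    fun s => ((Tk_mem _ _ _).1 (hbT s)).1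
  have hbl : ∀ s, (Finsupp.mapRange.linearMap bz u) s ≠ 0 → s.length = 1 := by
    intro s hs
    apply hul s
    intro h0
    apply hs
    rw [Finsupp.mapRange.linearMap_apply, Finsupp.mapRange_apply, h0, map_zero]
  have hFn : bz (Fn x) = bF eA (Finsupp.mapRange.linearMap bz u) := by
    have h1 : Fn x = bF eA u := by
      unfold Fn
      rw [LinearMap.comp_apply, hxu, uL_form (m + 1) u huTT hul]
    rw [h1, fy_bz_bF]
  have hx2 : x - tL (m + 2) x = - pur (Finsupp.mapRange.linearMap bz u) := by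
    rw [hxu]
    exact fy_tL m u huT hW
  have hYx : ∀ i, x i ∈ YY (m + 2) := fun i => (Submodule.mem_inf.1 (hK i)).1
  have hsx := split (m + 1) 1 n (m + 2) x hH hYx
  rw [hFn]
  constructor
  · intro h0
    have hd1 : DL (tL (m + 2) x) = 0 := by rw [← tL_DL, hd, map_zero]
    have hdb : bd eA (Finsupp.mapRange.linearMap bz u) = 0 := by
      apply pur_inj
      rw [← DL_pur (m + 1) _ hbTT, map_zero]
      have h2 : pur (Finsupp.mapRange.linearMap bz u) = tL (m + 2) x - x := fy_negsub _ _ _ hx2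
      rw [h2, fy_sub, hd1, hd]
      ext i q
      rw [Finsupp.sub_apply, Finsupp.sub_apply]
      simp
    obtain ⟨w, hwl, hwT, hw⟩ := bF_inj eA (Tk (m + 1) (m + 2))
      (fun a v hv => Tk_act (m + 1) (m + 2) a v hv) eA_pw
      (fun v hv h => Tk_ex m (m + 2) v hv h) _ hbl hbT hdb h0
    obtain ⟨y, _, hyY, _, hyd⟩ := tail_ac (m + 1) 1 n (m + 2) (tL (m + 2) x) hsx.1.1 hsx.1.2.1
      hsx.1.2.2 hd1
    have hwTT : ∀ s, w s ∈ TT (m + 1) := fun s => ((Tk_mem _ _ _).1 (hwT s)).1
    refine ⟨cmpL 2 n (m + 2) (y - pur w), cmpL_IsHL _ _ _ _, fun i => cmpL_YY _ _ _ _ _ ?_ i, ?_⟩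
    · intro i
      rw [Finsupp.sub_apply]
      exact Submodule.sub_mem _ (hyY i) (pur_YY (m + 1) w hwTT i)
    · rw [← cmpL_DL 1 n (m + 2) (y - pur w), fy_sub, hyd, DL_pur (m + 1) w hwTT, hw]
      have h3 : tL (m + 2) x - pur (Finsupp.mapRange.linearMap bz u) = x := by
        rw [fy_negsub _ _ _ hx2]
        ext i q
        simp only [Finsupp.sub_apply]
        ring
      rw [h3]
      exact cmpL_of _ _ _ _ hH
  · rintro ⟨v, hvH, hvY, hvd⟩
    have hsv := split (m + 1) 2 n (m + 2) v hvH hvY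
    obtain ⟨w, hw, hwT, _, hwl⟩ := pur_of (m + 1) 2 n (m + 2) (v - tL (m + 2) v) hsv.2.1
      hsv.2.2.1 hsv.2.2.2
    have h1 : pur (bd eA w) = - pur (Finsupp.mapRange.linearMap bz u) := by
      rw [← DL_pur (m + 1) w hwT, hw, fy_sub, hvd, ← tL_DL, hvd, hx2]
    have h2 : bd eA w + Finsupp.mapRange.linearMap bz u = 0 := by
      apply pur_inj
      rw [map_add, map_zero, h1]
      ext i q
      rw [Finsupp.add_apply, Finsupp.add_apply, Finsupp.neg_apply, Finsupp.neg_apply]
      simp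
    have h3 := bF_bd eA eA_pw w hwl
    have h4 := congrArg (bF eA) h2
    rw [map_add, map_zero, h3, zero_add] at h4
    exact h4

end BrV
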