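import Pool.Agent.Lib.BrV.LKk

/-!
# BrV.LFnZ: the functional `Fn` on `H_1(Φ(KK (m+1)))`, `z`-degree `m + 1` (paper 3, (4.2))

For `x = BZ (pur u)`, `u` supported on lists of length `1`: `Fn x = bF eA (uL x) = bF eA u` (`uL_form`); values of `bd eA u` are again in `TT (m+1)` (`Tk_act`).  Apply `LBar` with `T = Tk (m+1) (m+1)`.
* `Fn_B`: `x = DL y`, `y = BZ (pur u)`, `u` on lists of length `2` (`form`), `x = BZ (pur (bd eA u))` (`DL_form`), `bF_bd`.
* `Fn_Z`: `bd eA u = 0` (`DL_form`, `BZpur_inj`), `bF_cyc` (`eA 1`, `eA 2`); the degree: `u [a]` has `npW = N + 1 - (a + 1) = N - a`, so `eA a (u [a])` has `npW = N` (`IsW_act`).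
* `Fn_inj`: `bF_inj`: `u = bd eA w`, `x = DL (BZ (pur w))`; take the component `cmpL 2 n (m+1)` (`cmpL_DL`, `cmpL_of`, `cmpL_KK`, `BZpur_KK`).
* `Fn_surj`: `bF_surj` gives `u`; `x = cmpL 1 (N+1) (m+1) (BZ (pur u))`; `uL x` is the part of `u` with `a + 1 + npW = N + 1`; `bF eA` of it is the part of degree `N` of `bF eA u = F`, so `F`; `DL x = cmpL .. (DL (BZ (pur u))) = 0`.
-/

/-!
# BrV.LFnZ: the functional `Fn` on `H_1(Φ(KK (m+1)))`, `z`-degree `m + 1` (paper 3, (4.2))

For `x = BZ (pur u)`, `u` supported on lists of length `1`: `Fn x = bF eA (uL x) = bF eA u` (`uL_form`); values of `bd eA u` are again in `TT (m+1)` (`Tk_act`).  Apply `LBar` with `T = Tk (m+1) (m+1)`.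
* `Fn_B`: `x = DL y`, `y = BZ (pur u)`, `u` on lists of length `2` (`form`), `x = BZ (pur (bd eA u))` (`DL_form`), `bF_bd`.
* `Fn_Z`: `bd eA u = 0` (`DL_form`, `BZpur_inj`), `bF_cyc` (`eA 1`, `eA 2`); the degree: `u [a]` has `npW = N + 1 - (a + 1) = N - a`, so `eA a (u [a])` has `npW = N` (`IsW_act`).
* `Fn_inj`: `bF_inj`: `u = bd eA w`, `x = DL (BZ (pur w))`; take the component `cmpL 2 n (m+1)` (`cmpL_DL`, `cmpL_of`, `cmpL_KK`, `BZpur_KK`).
* `Fn_surj`: `bF_surj` gives `u`; `x = cmpL 1 (N+1) (m+1) (BZ (pur u))`; `uL x` is the part of `u` with `a + 1 + npW = N + 1`; `bF eA` of it is the part of degree `N` of `bF eA u = F`, so `F`; `DL x = cmpL .. (DL (BZ (pur u))) = 0`.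
-/

namespace BrV

open Finsupp

private theorem LFnZ_mgN (l : List ℕ) : ∀ l' : List ℕ, mgN l l' ≠ 0 → l'.length + 1 = l.length := by
  induction l with
  | nil =>
    intro l' h
    exact absurd rfl h
  | cons a l ih =>
    cases l with
    | nil =>
      intro l' h
      exact absurd rfl h
    | cons b l =>
      intro l' h
      have h1 : mgN (a :: b :: l) l' = (single ((a + b + 1) :: l) (cc (b + 1) (a + 1)) -
          mapDomain (List.cons a) (mgN (b :: l))) l' := rfl
      rw [h1, Finsupp.sub_apply] at h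
      by_cases h2 : l' = (a + b + 1) :: l
      · rw [h2]
        simp
      · rw [Finsupp.single_eq_of_ne h2, zero_sub, neg_ne_zero] at h
        by_cases h3 : l' ∈ Set.range (List.cons a)
        · obtain ⟨l'', rfl⟩ := h3
          rw [Finsupp.mapDomain_apply List.cons_injective] at h
          have := ih l'' h
          simp only [List.length_cons] at this ⊢
          omega
        · exact absurd (Finsupp.mapDomain_of_notMem_range _ _ h3) h

private theorem LFnZ_bd {N : Type} [AddCommGroup N] [Module ℝ N] (e : ℕ → N →ₗ[ℝ] N)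
    (x : List ℕ →₀ N) (l' : List ℕ) :
    bd e x l' = ∑ l ∈ x.support, bd0 e l (x l) l' := by
  have h1 : bd e x = x.sum fun l v => bd0 e l v := rfl
  rw [h1, Finsupp.sum_apply]
  rfl

private theorem LFnZ_bd0 {N : Type} [AddCommGroup N] [Module ℝ N] (e : ℕ → N →ₗ[ℝ] N)
    (a : ℕ) (l : List ℕ) (v : N) (l' : List ℕ) :
    bd0 e (a :: l) v l' = (single l (e (a + 1) v) : List ℕ →₀ N) l' - mgN (a :: l) l' • v := rfl

private theorem LFnZ_bd_mem {N : Type} [AddCommGroup N] [Module ℝ N] (e : ℕ → N →ₗ[ℝ] N)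
    (T : Submodule ℝ N) (hT : ∀ a, ∀ v ∈ T, e a v ∈ T) (x : List ℕ →₀ N) (hx : ∀ l, x l ∈ T)
    (l' : List ℕ) : bd e x l' ∈ T := by
  rw [LFnZ_bd]
  refine Submodule.sum_mem _ fun l _ => ?_
  cases l with
  | nil => exact T.zero_mem
  | cons a l =>
    rw [LFnZ_bd0]
    refine T.sub_mem ?_ (T.smul_mem _ (hx _))
    by_cases h : l' = l
    · subst h
      rw [Finsupp.single_eq_same]
      exact hT _ _ (hx _)
    · rw [Finsupp.single_eq_of_ne h]
      exact T.zero_mem

private theorem LFnZ_bd_len {N : Type} [AddCommGroup N] [Module ℝ N] (e : ℕ → N →ₗ[ℝ] N)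
    (r : ℕ) (x : List ℕ →₀ N) (hx : ∀ l, x l ≠ 0 → l.length = r + 1) (l' : List ℕ)
    (h : bd e x l' ≠ 0) : l'.length = r := by
  rw [LFnZ_bd] at h
  obtain ⟨l, hl, h1⟩ := Finset.exists_ne_zero_of_sum_ne_zero h
  have h2 := hx l (Finsupp.mem_support_iff.1 hl)
  cases l with
  | nil => exact absurd rfl h1
  | cons a l =>
    rw [List.length_cons] at h2
    rw [LFnZ_bd0] at h1
    by_cases h3 : l' = l
    · subst h3
      omega
    · rw [Finsupp.single_eq_of_ne h3, zero_sub, neg_ne_zero] at h1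
      have h4 := LFnZ_mgN (a :: l) l' (fun h5 => h1 (by rw [h5, zero_smul]))
      rw [List.length_cons] at h4
      omega

private theorem LFnZ_bF_mem {N : Type} [AddCommGroup N] [Module ℝ N] (e : ℕ → N →ₗ[ℝ] N)
    (S : Submodule ℝ N) (x : List ℕ →₀ N) (hx : ∀ a, e a (x [a]) ∈ S) : bF e x ∈ S := by
  unfold bF
  rw [Finsupp.lsum_apply, Finsupp.sum]
  refine Submodule.sum_mem _ fun l _ => ?_
  rcases l with _ | ⟨a, _ | ⟨b, l⟩⟩
  · exact S.zero_mem
  · show (if Odd a then (2 / ((a : ℝ) + 1)) • e a else 0) (x [a]) ∈ S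
    split
    · exact S.smul_mem _ (hx a)
    · exact S.zero_mem
  · exact S.zero_mem

private theorem LFnZ_np (a : ℕ) : np (pw a) = a := by
  unfold np pw
  exact List.count_replicate_self

private theorem LFnZ_nz (a : ℕ) : nz (pw a) = 0 := by
  unfold nz pw
  rw [List.count_replicate]
  simp

private theorem LFnZ_IsH (a : ℕ) : IsH a 0 (bw (pw a)) := by
  intro w hw
  have : w = pw a := by
    by_contra h
    apply hw
    unfold bw
    exact Finsupp.single_eq_of_ne h
  rw [this]
  exact ⟨LFnZ_np a, LFnZ_nz a⟩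

private theorem LFnZ_eA_W (a n k : ℕ) (y : CW) (hy : IsW n k y) : IsW (a + n) k (eA a y) := by
  have := IsW_act a 0 n k (bw (pw a)) y (LFnZ_IsH a) hy
  rwa [zero_add] at this

private theorem LFnZ_T (m : ℕ) (u : List ℕ →₀ CW) (hu : ∀ s, u s ∈ Tk (m + 1) (m + 1)) (s : List ℕ) :
    u s ∈ TT (m + 1) := ((Tk_mem _ _ _).1 (hu s)).1

private theorem LFnZ_bdT (m : ℕ) (u : List ℕ →₀ CW) (hu : ∀ s, u s ∈ Tk (m + 1) (m + 1))
    (s : List ℕ) : bd eA u s ∈ TT (m + 1) :=
  ((Tk_mem _ _ _).1 (LFnZ_bd_mem eA (Tk (m + 1) (m + 1))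
    (fun a v hv => Tk_act (m + 1) (m + 1) a v hv) u hu s)).1

private theorem LFnZ_Fn (m : ℕ) (u : List ℕ →₀ CW) (hu : ∀ s, u s ∈ TT (m + 1))
    (hl : ∀ s, u s ≠ 0 → s.length = 1) : Fn (BZ (pur u)) = bF eA u := by
  have : Fn (BZ (pur u)) = bF eA (uL (BZ (pur u))) := rfl
  rw [this, uL_form m u hu hl]

theorem Fn_B (m n : ℕ) (x : PhL) (hx : x ∈ BL (m + 1) 1 n (m + 1)) : Fn x = 0 := by
  obtain ⟨y, hy, hK, rfl⟩ := hx
  obtain ⟨u, rfl, hu, hl, -⟩ := form m 2 n y hy hK
  rw [DL_form m u (LFnZ_T m u hu), LFnZ_Fn m _ (LFnZ_bdT m u hu)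
    (fun s hs => LFnZ_bd_len eA 1 u hl s hs)]
  exact bF_bd eA eA_pw u hl

private theorem LFnZ_cyc (m n : ℕ) (x : PhL) (hx : x ∈ ZL (m + 1) 1 n (m + 1)) :
    ∃ u : List ℕ →₀ CW, x = BZ (pur u) ∧ (∀ s, u s ∈ Tk (m + 1) (m + 1)) ∧
      (∀ s, u s ≠ 0 → s.length = 1) ∧
      (∀ s q, u s q ≠ 0 → (s.map fun a => a + 1).sum + npW q = n) ∧ bd eA u = 0 := by
  obtain ⟨hx, hK, hD⟩ := hx
  obtain ⟨u, rfl, hu, hl, hd⟩ := form m 1 n x hx hK
  refine ⟨u, rfl, hu, hl, hd, ?_⟩
  rw [DL_form m u (LFnZ_T m u hu)] at hD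
  refine BZpur_inj m (bd eA u) 0 (LFnZ_bdT m u hu) (fun s => Submodule.zero_mem _) ?_
  rw [hD, map_zero, map_zero]

theorem Fn_Z (m N : ℕ) (x : PhL) (hx : x ∈ ZL (m + 1) 1 (N + 1) (m + 1)) :
    Fn x ∈ TT (m + 1) ∧ IsW N (m + 1) (Fn x) ∧ act (bw [true]) (Fn x) = 0 ∧
      act (bw [true, true]) (Fn x) = 0 := by
  obtain ⟨u, rfl, hu, hl, hd, hb⟩ := LFnZ_cyc m (N + 1) x hx
  rw [LFnZ_Fn m u (LFnZ_T m u hu) hl]
  have hc := bF_cyc eA eA_pw u hl hb
  refine ⟨?_, ?_, hc.1, hc.2⟩
  · exact LFnZ_bF_mem eA (TT (m + 1)) u fun a =>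
      ((Tk_mem _ _ _).1 (Tk_act (m + 1) (m + 1) a _ (hu [a]))).1
  · have h1 : bF eA u ∈ WW N (m + 1) := by
      refine LFnZ_bF_mem eA (WW N (m + 1)) u fun a => ?_
      unfold WW
      rw [Finsupp.mem_supported]
      intro q hq
      have hq' : eA a (u [a]) q ≠ 0 := Finsupp.mem_support_iff.1 hq
      by_cases ha : a ≤ N
      · have hW : IsW (N - a) (m + 1) (u [a]) := by
          intro l hl'
          have e1 := hd [a] l hl'
          simp only [List.map_cons, List.map_nil, List.sum_cons, List.sum_nil] at e1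
          exact ⟨by omega, ((Tk_mem _ _ _).1 (hu [a])).2 l hl'⟩
        have := LFnZ_eA_W a (N - a) (m + 1) _ hW q hq'
        exact ⟨by omega, this.2⟩
      · exfalso
        apply hq'
        have : u [a] = 0 := by
          ext l
          by_contra hl'
          have e1 := hd [a] l hl'
          simp only [List.map_cons, List.map_nil, List.sum_cons, List.sum_nil] at e1
          omega
        rw [this, map_zero]
        rfl
    intro q hq
    unfold WW at h1
    rw [Finsupp.mem_supported] at h1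
    exact h1 (Finsupp.mem_support_iff.2 hq)

theorem Fn_inj (m n : ℕ) (x : PhL) (hx : x ∈ ZL (m + 1) 1 n (m + 1)) (h : Fn x = 0) :
    x ∈ BL (m + 1) 1 n (m + 1) := by
  have hhom := hx.1
  obtain ⟨u, hxu, hu, hl, hd, hb⟩ := LFnZ_cyc m n x hx
  rw [hxu, LFnZ_Fn m u (LFnZ_T m u hu) hl] at h
  obtain ⟨w, hw1, hw2, hw3⟩ := bF_inj eA (Tk (m + 1) (m + 1))
    (fun a v hv => Tk_act (m + 1) (m + 1) a v hv) eA_pw
    (fun v hv h1 => Tk_ex m (m + 1) v hv h1) u hl hu hb h
  refine ⟨cmpL 2 n (m + 1) (BZ (pur w)), cmpL_IsHL _ _ _ _,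
    fun i => cmpL_KK _ _ _ _ _ (fun i => BZpur_KK m w (LFnZ_T m w hw2) i) i, ?_⟩
  have h1 := cmpL_DL 1 n (m + 1) (BZ (pur w))
  rw [DL_form m w (LFnZ_T m w hw2), hw3, ← hxu, cmpL_of 1 n (m + 1) x hhom] at h1
  exact h1.symm

private theorem LFnZ_tp (l : LW) (t : ℝ) :
    tp (single l t) = 0 ∨ tp (single l t) = single l t := by
  unfold tp
  rw [Finsupp.lift_apply, Finsupp.sum_single_index]
  swap
  · exact zero_smul _ _
  cases l with
  | nil => left; exact smul_zero _
  | cons w l =>
    by_cases hw : w = []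
    · left
      show t • (if w = [] then (0 : CW) else single (w :: l) 1) = 0
      rw [if_pos hw, smul_zero]
    · right
      show t • (if w = [] then (0 : CW) else single (w :: l) 1) = _
      rw [if_neg hw, Finsupp.smul_single, smul_eq_mul, mul_one]

private theorem LFnZ_single (i : Ix) (l : LW) (t : ℝ) (q : LW)
    (h : Fn (single i (single l t)) q ≠ 0) :
    ∃ a, i = (false, [pw a]) ∧ npW q = a + npW l ∧ nzW q = nzW l := by
  have h1 : Fn (single i (single l t)) = bF eA (uL (single i (single l t))) := rfl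
  rw [h1] at h
  unfold uL at h
  rw [Finsupp.lsum_single] at h
  obtain ⟨b, L⟩ := i
  rcases b with _ | _
  · rcases L with _ | ⟨w, _ | ⟨w', L⟩⟩
    · exact absurd (by show bF eA ((0 : CW →ₗ[ℝ] _) _) q = 0; rw [LinearMap.zero_apply, map_zero]; rfl) h
    · change bF eA ((if w = pw (np w) then (Finsupp.lsingle [np w]).comp tp else 0) (single l t)) q ≠ 0 at h
      by_cases hw : w = pw (np w)
      · rw [if_pos hw, LinearMap.comp_apply] at h
        refine ⟨np w, by rw [← hw], ?_⟩
        rcases LFnZ_tp l t with h2 | h2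
        · rw [h2, map_zero, map_zero] at h
          exact absurd rfl h
        · rw [h2, Finsupp.lsingle_apply] at h
          unfold bF at h
          rw [Finsupp.lsum_single] at h
          change (if Odd (np w) then (2 / ((np w : ℝ) + 1)) • eA (np w) else 0) (single l t) q ≠ 0 at h
          by_cases ho : Odd (np w)
          · rw [if_pos ho, LinearMap.smul_apply, Finsupp.smul_apply] at h
            have h3 : eA (np w) (single l t) q ≠ 0 := fun h4 => h (by rw [h4, smul_zero])
            refine LFnZ_eA_W (np w) (npW l) (nzW l) _ ?_ q h3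
            intro q' hq'
            have : q' = l := by
              by_contra hne
              exact hq' (Finsupp.single_eq_of_ne hne)
            rw [this]
            exact ⟨rfl, rfl⟩
          · rw [if_neg ho, LinearMap.zero_apply] at h
            exact absurd rfl h
      · rw [if_neg hw, LinearMap.zero_apply, map_zero] at h
        exact absurd rfl h
    · exact absurd (by show bF eA ((0 : CW →ₗ[ℝ] _) _) q = 0; rw [LinearMap.zero_apply, map_zero]; rfl) h
  · exact absurd (by show bF eA ((0 : CW →ₗ[ℝ] _) _) q = 0; rw [LinearMap.zero_apply, map_zero]; rfl) h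

private theorem LFnZ_cmp (N k : ℕ) (X : PhL) (q : LW) :
    Fn (cmpL 1 (N + 1) k X) q = if npW q = N ∧ nzW q = k then Fn X q else 0 := by
  induction X using Finsupp.induction_linear with
  | zero => simp
  | add f g hf hg =>
    rw [map_add, map_add, map_add, Finsupp.add_apply, Finsupp.add_apply, hf, hg]
    split
    · rfl
    · rw [add_zero]
  | single i y =>
    induction y using Finsupp.induction_linear with
    | zero => simp
    | add f g hf hg =>
      rw [Finsupp.single_add, map_add, map_add, map_add, Finsupp.add_apply, Finsupp.add_apply,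
        hf, hg]
      split
      · rfl
      · rw [add_zero]
    | single l t =>
      have hc : cmpL 1 (N + 1) k (single i (single l t)) =
          if rI i = 1 ∧ nI i + npW l = N + 1 ∧ kI i + nzW l = k then single i (single l t)
          else 0 := by
        ext j q'
        rw [cmpL_apply]
        by_cases hj : j = i
        · subst hj
          rw [Finsupp.single_eq_same]
          by_cases hq : q' = l
          · subst hq
            split
            · rw [Finsupp.single_eq_same, Finsupp.single_eq_same, Finsupp.single_eq_same]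
            · rfl
          · rw [Finsupp.single_eq_of_ne hq, ite_self]
            split
            · rw [Finsupp.single_eq_same, Finsupp.single_eq_of_ne hq]
            · rfl
        · rw [Finsupp.single_eq_of_ne hj, Finsupp.zero_apply, ite_self]
          split
          · rw [Finsupp.single_eq_of_ne hj]
            rfl
          · rfl
      rw [hc]
      by_cases h : Fn (single i (single l t)) q = 0
      · rw [h, ite_self]
        split
        · exact h
        · rw [map_zero]
          rfl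
      · obtain ⟨a, hi, h1, h2⟩ := LFnZ_single i l t q h
        have e1 : rI i = 1 := by rw [hi]; rfl
        have e2 : nI i = a + 1 := by
          rw [hi]
          show npL [pw a] = a + 1
          simp [npL, LFnZ_np]
        have e3 : kI i = 0 := by
          rw [hi]
          show nzL [pw a] + 0 = 0
          simp [nzL, LFnZ_nz]
        by_cases hcond : npW q = N ∧ nzW q = k
        · rw [if_pos hcond, if_pos]
          exact ⟨e1, by omega, by omega⟩
        · rw [if_neg hcond, if_neg]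
          · rw [map_zero]
            rfl
          · rintro ⟨-, h3, h4⟩
            exact hcond ⟨by omega, by omega⟩

theorem Fn_surj (m N : ℕ) (F : CW) (hF : F ∈ TT (m + 1)) (hW : IsW N (m + 1) F)
    (h1 : act (bw [true]) F = 0) (h2 : act (bw [true, true]) F = 0) :
    ∃ x ∈ ZL (m + 1) 1 (N + 1) (m + 1), Fn x = F := by
  have hFT : F ∈ Tk (m + 1) (m + 1) := (Tk_mem _ _ _).2 ⟨hF, fun q hq => (hW q hq).2⟩
  obtain ⟨u, hu1, hu2, hu3, hu4⟩ := bF_surj eA (Tk (m + 1) (m + 1))
    (fun a v hv => Tk_act (m + 1) (m + 1) a v hv) eA_pw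
    (fun v hv h1 => Tk_ex m (m + 1) v hv h1) F hFT h1 h2
  have hT := LFnZ_T m u hu2
  refine ⟨cmpL 1 (N + 1) (m + 1) (BZ (pur u)), ⟨cmpL_IsHL _ _ _ _,
    fun i => cmpL_KK _ _ _ _ _ (fun i => BZpur_KK m u hT i) i, ?_⟩, ?_⟩
  · have h3 := cmpL_DL 0 (N + 1) (m + 1) (BZ (pur u))
    rw [DL_form m u hT, hu3, map_zero, map_zero, map_zero] at h3
    exact h3.symm
  · ext q
    rw [LFnZ_cmp, LFnZ_Fn m u hT hu1, hu4]
    by_cases hq : F q = 0
    · rw [hq, ite_self]
    · rw [if_pos (hW q hq)]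

end BrV
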