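import Pool.Agent.Lib.BrV.LDef

/-!
# BrV.LGc: the coefficients `gc j` (paper 3, section 1)

`gc j f = gp (d_p^j f)`, `d_p = del true`, `gp` = projection to `G'` along `F 1`.
* `gc_pw`: for `g ∈ G'` (`d_p g = 0`) `del_mu true g (bw (pw (i+1)))` gives `d_p (g*p^(i+1)) = g*p^i` (see the private lemmas `del_step, del_pow` in `Str.lean`), so
  `d_p^j (g*p^i) = g*p^(i-j)` for `j ≤ i`, `0` for `j > i`; `gp (g*p^(i-j)) = 0` for `j < i` (it is in `F 1`) and `= g` for `i = j`.  `gc_G`: `i = 0`.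
* `gc_bound`, `gc_sum`: `str_exists`: `f = ∑_{j<M} g_j*p^j`, `g_j ∈ G'`; by `gc_pw` and linearity `gc j f = g_j` for `j < M`, `0` for `j ≥ M`; enlarge/shrink the range.
* `gc_IsH`: `IsH_del_true` (iterated), `gp_IsH`.  `gc_sh`: `sh v w` is homogeneous (`IsH_mu`, `mu_bw`), so `d_p^j = 0` for `j > np v + np w`.
* `G_mu`: `del_mu true`: `d_p (f*g) = f * d_p g + (sign) (d_p f)*g`.
* `gc_mul_pw`: `f = ∑ gc_l f * p^l`, `p^l * p^i = cc l i p^(l+i)` (`pow_mul`), then `gc_pw`.
* `gc_mu`: `f*g = ∑_j (f * gc_j g)*p^j` (`gc_sum`, `mu_assoc`), then `gc_mul_pw`, `gc_mul_pw0`.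
* `gc_mu2`: `f*g = ∑_j gc_j f * (p^j * g) = ∑_j ∑_i (gc_j f * gc_i (p^j*g)) * p^i`, the products are in `G'` (`G_mu`), `gc_pw`.
* `gc_nil`: `f - gp f ∈ F 1 ≤ Rpl` (`sub_gp`, `F_le_Rpl`, `mem_Rpl`).
-/

namespace BrV

open Finsupp

private theorem gc_def (j : ℕ) (f : R) : gc j f = gp (((del true) ^ j : Module.End ℝ R) f) := rfl

theorem gc_mem (j : ℕ) (f : R) : gc j f ∈ G' := by
  rw [gc_def]
  exact gp_mem _

private theorem gc_pw0 : bw (pw 0) = bw [] := rfl

private theorem gc_del_step (g : R) (hg : g ∈ G') (j : ℕ) :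
    del true (mu g (bw (pw (j + 1)))) = mu g (bw (pw j)) := by
  have h1 : bw (pw (j + 1)) = app true (bw (pw j)) := by rw [app_bw]; rfl
  have h2 : del true g = 0 := hg
  rw [del_mu, h2, map_zero, LinearMap.zero_apply, add_zero, h1, del_app]

private theorem gc_del_zero (g : R) (hg : g ∈ G') : del true (mu g (bw (pw 0))) = 0 := by
  rw [gc_pw0, mu_one]; exact hg

private theorem gc_del_pow (g : R) (hg : g ∈ G') (k j : ℕ) :
    ((del true) ^ k : Module.End ℝ R) (mu g (bw (pw j))) =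
      if k ≤ j then mu g (bw (pw (j - k))) else 0 := by
  induction k generalizing j with
  | zero => simp
  | succ k ih =>
    rw [pow_succ, Module.End.mul_apply]
    cases j with
    | zero => rw [gc_del_zero g hg, map_zero]; simp
    | succ j => rw [gc_del_step g hg, ih]; simp [Nat.add_sub_add_right]

private theorem gc_mem_F1 (f : R) (i : ℕ) (hi : 1 ≤ i) : mu f (bw (pw i)) ∈ F 1 := by
  unfold F
  exact Submodule.mem_iSup_of_mem i (Submodule.mem_iSup_of_mem hi ⟨f, rfl⟩)

theorem gc_pw (i j : ℕ) (g : R) (hg : g ∈ G') : gc j (mu g (bw (pw i))) = if i = j then g else 0 := by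
  rw [gc_def, gc_del_pow g hg]
  rcases lt_trichotomy i j with h | h | h
  · rw [if_neg (by omega), if_neg (by omega), map_zero]
  · subst h
    rw [if_pos le_rfl, if_pos rfl, Nat.sub_self, gc_pw0, mu_one, gp_of_mem g hg]
  · rw [if_pos (by omega), if_neg (by omega), gp_eq_zero]
    exact gc_mem_F1 _ _ (by omega)

theorem gc_G (j : ℕ) (g : R) (hg : g ∈ G') : gc j g = if j = 0 then g else 0 := by
  have h := gc_pw 0 j g hg
  rw [gc_pw0, mu_one] at h
  rw [h]
  by_cases h0 : j = 0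
  · rw [if_pos h0.symm, if_pos h0]
  · rw [if_neg (Ne.symm h0), if_neg h0]

private theorem gc_of_sum (M : ℕ) (g : ℕ → R) (hg : ∀ j, g j ∈ G') (j : ℕ) :
    gc j (∑ i ∈ Finset.range M, mu (g i) (bw (pw i))) = if j < M then g j else 0 := by
  rw [map_sum, Finset.sum_congr rfl fun i _ => gc_pw i j (g i) (hg i), Finset.sum_ite_eq']
  simp only [Finset.mem_range]

theorem gc_bound (f : R) : ∃ N, ∀ j, N ≤ j → gc j f = 0 := by
  obtain ⟨M, g, hg, h⟩ := str_exists f
  refine ⟨M, fun j hj => ?_⟩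
  rw [h, gc_of_sum M g hg, if_neg (by omega)]

private theorem gc_sum_ext {g : ℕ → R} {N N' : ℕ} (h : N ≤ N') (hz : ∀ j, N ≤ j → g j = 0) :
    ∑ j ∈ Finset.range N, mu (g j) (bw (pw j)) = ∑ j ∈ Finset.range N', mu (g j) (bw (pw j)) := by
  apply Finset.sum_subset (Finset.range_mono h)
  intro j _ hj
  rw [hz j (not_lt.1 fun h' => hj (Finset.mem_range.2 h')), map_zero, LinearMap.zero_apply]

theorem gc_sum (f : R) (N : ℕ) (h : ∀ j, N ≤ j → gc j f = 0) :
    f = ∑ j ∈ Finset.range N, mu (gc j f) (bw (pw j)) := by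
  obtain ⟨M, g, hg, hf⟩ := str_exists f
  have hc : ∀ j, gc j f = if j < M then g j else 0 := by
    intro j
    conv_lhs => rw [hf]
    exact gc_of_sum M g hg j
  have h1 : f = ∑ j ∈ Finset.range M, mu (gc j f) (bw (pw j)) := by
    conv_lhs => rw [hf]
    refine Finset.sum_congr rfl fun j hj => ?_
    rw [hc j, if_pos (Finset.mem_range.1 hj)]
  have h2 : ∀ j, M ≤ j → gc j f = 0 := by
    intro j hj
    rw [hc j, if_neg (by omega)]
  have h3 := gc_sum_ext (le_max_left M N) h2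
  have h4 := gc_sum_ext (le_max_right M N) h
  rw [h4, ← h3]
  exact h1

private theorem gc_IsH_pow (n k j : ℕ) (f : R) (h : IsH n k f) (w : Wd)
    (hw : ((del true) ^ j : Module.End ℝ R) f w ≠ 0) : np w + j = n ∧ nz w = k := by
  induction j generalizing w with
  | zero => exact h w hw
  | succ j ih =>
    rw [pow_succ', Module.End.mul_apply, del_apply] at hw
    have h1 := ih (true :: w) hw
    have h2 : np (true :: w) = np w + 1 := by simp [np]
    have h3 : nz (true :: w) = nz w := by simp [nz]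
    omega

theorem gc_IsH (n k j : ℕ) (f : R) (h : IsH n k f) (w : Wd) (hw : gc j f w ≠ 0) :
    np w + j = n ∧ nz w = k := by
  have hne : ((del true) ^ j : Module.End ℝ R) f ≠ 0 := by
    intro h0
    rw [gc_def, h0, map_zero] at hw
    exact hw rfl
  obtain ⟨u, hu⟩ := Finsupp.ne_iff.mp hne
  have hj := (gc_IsH_pow n k j f h u hu).1
  have h1 : IsH (n - j) k (((del true) ^ j : Module.End ℝ R) f) := by
    intro v hv
    have := gc_IsH_pow n k j f h v hv
    omega
  have h2 := gp_IsH (n - j) k _ h1 w hw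
  omega

theorem gc_sh (v w : Wd) (j : ℕ) (h : np v + np w < j) : gc j (sh v w) = 0 := by
  ext u
  by_contra hu
  have h1 : IsH (np v + np w) (nz v + nz w) (sh v w) := by
    rw [← mu_bw]
    exact IsH_mu _ _ _ _ _ _ (IsH_bw v) (IsH_bw w)
  have h2 := (gc_IsH _ _ _ _ h1 u hu).1
  omega

theorem G_mu (f g : R) (hf : f ∈ G') (hg : g ∈ G') : mu f g ∈ G' := by
  have h1 : del true f = 0 := hf
  have h2 : del true g = 0 := hg
  show del true (mu f g) = 0
  rw [del_mu, h1, h2, map_zero, map_zero, LinearMap.zero_apply, add_zero]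

/-- the expansion of `f * p^i` -/
private theorem gc_mul_exp (i j : ℕ) (f : R) (N : ℕ) (hN : ∀ j, N ≤ j → gc j f = 0) :
    gc j (mu f (bw (pw i))) = ∑ l ∈ Finset.range N, if l + i = j then cc l i • gc l f else 0 := by
  conv_lhs => rw [gc_sum f N hN]
  rw [map_sum, LinearMap.sum_apply, map_sum]
  refine Finset.sum_congr rfl fun l _ => ?_
  rw [mu_assoc, pow_mul, map_smul, map_smul, gc_pw (l + i) j _ (gc_mem l f), smul_ite, smul_zero]

theorem gc_mul_pw (i j : ℕ) (f : R) : gc (j + i) (mu f (bw (pw i))) = cc j i • gc j f := by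
  obtain ⟨N, hN⟩ := gc_bound f
  rw [gc_mul_exp i (j + i) f N hN]
  have h1 : ∀ l ∈ Finset.range N, (if l + i = j + i then cc l i • gc l f else 0) =
      if l = j then cc l i • gc l f else 0 := by
    intro l _
    by_cases h : l = j
    · rw [if_pos h, if_pos (by omega)]
    · rw [if_neg h, if_neg (by omega)]
  rw [Finset.sum_congr rfl h1, Finset.sum_ite_eq']
  by_cases hj : j ∈ Finset.range N
  · rw [if_pos hj]
  · rw [if_neg hj, hN j (not_lt.1 fun h' => hj (Finset.mem_range.2 h')), smul_zero]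

theorem gc_mul_pw0 (i j : ℕ) (f : R) (h : j < i) : gc j (mu f (bw (pw i))) = 0 := by
  obtain ⟨N, hN⟩ := gc_bound f
  rw [gc_mul_exp i j f N hN]
  exact Finset.sum_eq_zero fun l _ => if_neg (by omega)

theorem gc_mu (m : ℕ) (f g : R) : gc m (mu f g) =
    ∑ j ∈ Finset.range (m + 1), cc (m - j) j • gc (m - j) (mu f (gc j g)) := by
  obtain ⟨N, hN⟩ := gc_bound g
  have hN' : ∀ j, max N (m + 1) ≤ j → gc j g = 0 := fun j hj =>
    hN j (le_trans (le_max_left _ _) hj)
  conv_lhs => rw [gc_sum g (max N (m + 1)) hN']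
  rw [map_sum, map_sum]
  have h1 : Finset.range (m + 1) ⊆ Finset.range (max N (m + 1)) :=
    Finset.range_mono (le_max_right _ _)
  rw [← Finset.sum_subset h1]
  · refine Finset.sum_congr rfl fun j hj => ?_
    have hj' := Finset.mem_range.1 hj
    rw [← mu_assoc]
    have h2 := gc_mul_pw j (m - j) (mu f (gc j g))
    have h3 : m - j + j = m := by omega
    rw [h3] at h2
    exact h2
  · intro j _ hj
    have hj' : m + 1 ≤ j := not_lt.1 fun h' => hj (Finset.mem_range.2 h')
    rw [← mu_assoc]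
    exact gc_mul_pw0 j m _ (by omega)

private theorem gc_mu_left (m : ℕ) (a h : R) (ha : a ∈ G') : gc m (mu a h) = mu a (gc m h) := by
  obtain ⟨N, hN⟩ := gc_bound h
  conv_lhs => rw [gc_sum h N hN]
  rw [map_sum, map_sum]
  have h1 : ∀ i ∈ Finset.range N, gc m (mu a (mu (gc i h) (bw (pw i)))) =
      if i = m then mu a (gc i h) else 0 := by
    intro i _
    rw [← mu_assoc]
    exact gc_pw i m _ (G_mu a _ ha (gc_mem i h))
  rw [Finset.sum_congr rfl h1, Finset.sum_ite_eq']
  by_cases hm : m ∈ Finset.range N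
  · rw [if_pos hm]
  · rw [if_neg hm, hN m (not_lt.1 fun h' => hm (Finset.mem_range.2 h')), map_zero]

theorem gc_mu2 (m : ℕ) (f g : R) (N : ℕ) (h : ∀ j, N ≤ j → gc j f = 0) : gc m (mu f g) =
    ∑ j ∈ Finset.range N, mu (gc j f) (gc m (mu (bw (pw j)) g)) := by
  conv_lhs => rw [gc_sum f N h]
  rw [map_sum, LinearMap.sum_apply, map_sum]
  refine Finset.sum_congr rfl fun j _ => ?_
  rw [mu_assoc]
  exact gc_mu_left m _ _ (gc_mem j f)

theorem gc_nil (f : R) : gc 0 f [] = f [] := by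
  have h1 : gc 0 f = gp f := by
    rw [gc_def, pow_zero]
    rfl
  have h2 := (mem_Rpl _).1 (F_le_Rpl 1 le_rfl (sub_gp f))
  rw [Finsupp.sub_apply, sub_eq_zero] at h2
  rw [h1, h2]

end BrV
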