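import Pool.Agent.Lib.BrV.LDef

/-!
# BrV.LIn: deletion of the initial letter (paper 3, (5.1))

`din c` deletes the initial letter (LAST element of the list) if it is `c`.  `ε = -1` for `c = true`, `1` for `c = false`.
* `din_app`: by definition, for `w ≠ []`; for a combination `f` with `f [] = 0`: `din c (app a f) = app a (din c f)`.
* `din_sh` (`∂_c (v*w) = (∂_c v)*w + ε^(length v) v*(∂_c w)`): induction as for `sh` (`sh_cons`).  `v = []` or `w = []`: clear (`nil_mu`, `mu_one`).  `v = a :: v'`, `w = b :: w'`: `sh v w = app b (sh v w') + sg w • app a (sh v' w)`, both arguments of `app` have coefficient `0` at `[]` (`mu_nil`), so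
  `din c (sh v w) = app b (din c (sh v w')) + sg w • app a (din c (sh v' w))`; insert the induction hypotheses and compare with `mu (din0 c v) (bw w) + ε^(length v) mu (bw v) (din0 c w)`, computed by the bilinear form of `sh_cons` (`mu (app a X) (bw (b :: w')) = app b (mu (app a X) (bw w')) + sg (b :: w') • app a (mu X (bw (b :: w')))`,
  `mu (bw (a :: v')) (app b Y) = app b (mu (bw (a :: v')) Y) + s • app a (mu (bw v') (app b Y))` with `s = sg (b :: y)` for the words `y` of `Y`; for `Y = din0 c w'` this is `s = ε * sg (b :: w')`).  Special cases: `v' = []`: `din0 c [a] = bw []` if `a = c`, else `0`, `din0 c [] = 0`; `w' = []`: the same, with `sg [c] = ε`.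
* `din_ext`: a word `w ≠ []` is `w' ++ [c]`, and `(din c f) w' = f (w' ++ [c])`.
* `din_xw`: `xw a = false :: replicate a true`.
-/

namespace BrV

open Finsupp

theorem din_bw (c : Bool) (w : Wd) : din c (bw w) = din0 c w := by
  show (Finsupp.lift R ℝ Wd (din0 c)) (single w 1) = din0 c w
  rw [Finsupp.lift_apply]
  refine (sum_single_index ?_).trans (one_smul _ _)
  exact zero_smul _ _

private theorem lin_bw (v w : Wd) : (bw v : R) w = if v = w then 1 else 0 := by
  rw [bw, single_apply]

private theorem lin_din0 (c : Bool) : ∀ (v w : Wd), din0 c v w = (bw v : R) (w ++ [c])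
  | [], w => by
    rw [lin_bw, if_neg (by simp)]
    rfl
  | [a], w => by
    show (if a = c then bw [] else 0 : R) w = _
    rw [lin_bw]
    by_cases h : a = c
    · rw [if_pos h, lin_bw]
      subst h
      cases w with
      | nil => rw [List.nil_append, if_pos rfl, if_pos rfl]
      | cons b w => rw [if_neg (by simp), if_neg (by simp)]
    · rw [if_neg h, if_neg]
      · rfl
      · intro h1
        cases w with
        | nil => exact h (by simpa using h1)
        | cons b w => simp at h1
  | a :: b :: v, w => by
    show app a (din0 c (b :: v)) w = _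
    cases w with
    | nil =>
      rw [app_nil, lin_bw, if_neg (by simp)]
    | cons a' w =>
      rw [app_cons, lin_din0 c (b :: v) w, lin_bw, lin_bw]
      by_cases h : a = a'
      · subst h
        simp
      · rw [if_neg h, if_neg]
        intro h1
        exact h (List.cons.inj h1).1

theorem din_apply (c : Bool) (f : R) (w : Wd) : din c f w = f (w ++ [c]) := by
  induction f using Finsupp.induction_linear with
  | zero => rw [map_zero]; rfl
  | add f g hf hg => rw [map_add, Finsupp.add_apply, hf, hg, Finsupp.add_apply]
  | single x a =>
    have h : (single x a : R) = a • bw x := by rw [bw, smul_single, smul_eq_mul, mul_one]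
    rw [h, map_smul, din_bw, Finsupp.smul_apply, Finsupp.smul_apply, lin_din0]

private theorem lin_din_del (c b : Bool) (f : R) : del b (din c f) = din c (del b f) := by
  ext w
  rw [del_apply, din_apply, din_apply, del_apply, List.cons_append]

private theorem lin_sg (w : Wd) (c : Bool) : sg (w ++ [c]) = sg w * (if c then -1 else 1) := by
  unfold sg np
  rw [List.count_append, pow_add]
  cases c <;> simp

private theorem lin_din_tau (c : Bool) (f : R) :
    tau (din c f) = (if c then (-1 : ℝ) else 1) • din c (tau f) := by
  ext w
  rw [tau_apply, din_apply, Finsupp.smul_apply, din_apply, tau_apply, lin_sg, smul_eq_mul]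
  cases c <;> simp

private theorem lin_tau_bw (w : Wd) : tau (bw w) = sg w • bw w := by
  ext u
  rw [tau_apply, Finsupp.smul_apply, smul_eq_mul, lin_bw]
  by_cases h : w = u
  · rw [h]
  · rw [if_neg h, mul_zero, mul_zero]

private theorem lin_del_bw (c : Bool) (u : Wd) : del c (bw u) = 0 ∨
    ∃ u' : Wd, u'.length + 1 = u.length ∧ del c (bw u) = bw u' := by
  cases u with
  | nil =>
    refine Or.inl ?_
    ext w
    rw [del_apply, lin_bw, if_neg (by simp)]
    rfl
  | cons a u =>
    rw [← app_bw]
    by_cases h : c = a
    · subst h
      exact Or.inr ⟨u, rfl, del_app _ _⟩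
    · exact Or.inl (del_app_ne _ _ h _)

private theorem lin_main (c : Bool) (N : ℕ) : ∀ v w : Wd, v.length + w.length ≤ N →
    din c (mu (bw v) (bw w)) = mu (din c (bw v)) (bw w) +
      (if c then (-1 : ℝ) ^ v.length else 1) • mu (bw v) (din c (bw w)) := by
  have hnil : din c (bw []) = 0 := din_bw c []
  induction N with
  | zero =>
    intro v w h
    have hv : v = [] := List.length_eq_zero_iff.mp (by omega)
    have hw : w = [] := List.length_eq_zero_iff.mp (by omega)
    rw [hv, hw, nil_mu, hnil, map_zero, map_zero, LinearMap.zero_apply, smul_zero, add_zero]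
  | succ N ih =>
    intro v w h
    refine R_ext _ _ ?_ fun b => ?_
    · have h1 : din c (mu (bw v) (bw w)) [] = del c (mu (bw v) (bw w)) [] := by
        rw [din_apply, del_apply]
        rfl
      rw [h1, del_mu, Finsupp.add_apply, Finsupp.add_apply, Finsupp.smul_apply, mu_nil, mu_nil,
        mu_nil, mu_nil, del_apply, del_apply, din_apply, din_apply, tau_apply, List.nil_append,
        smul_eq_mul]
      have hsg : sg [] = 1 := by simp [sg, np]
      rw [hsg]
      cases v with
      | nil => cases c <;> simp [add_comm]
      | cons a v =>
        rw [lin_bw (a :: v) [], if_neg (by simp)]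
        ring
    · rw [lin_din_del, del_mu, map_add, map_add, map_smul, del_mu, del_mu, lin_din_del,
        lin_din_del]
      have h1 : din c (mu (bw v) (del b (bw w))) = mu (din c (bw v)) (del b (bw w)) +
          (if c then (-1 : ℝ) ^ v.length else 1) • mu (bw v) (din c (del b (bw w))) := by
        rcases lin_del_bw b w with h0 | ⟨w', hl, h0⟩
        · rw [h0, map_zero, map_zero, map_zero, map_zero, smul_zero, add_zero]
        · rw [h0, ih v w' (by omega)]
      have h2 : din c (mu (del b (bw v)) (tau (bw w))) = mu (din c (del b (bw v))) (tau (bw w)) +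
          (if c then (-1 : ℝ) ^ v.length else 1) • mu (del b (bw v)) (tau (din c (bw w))) := by
        rw [lin_din_tau, lin_tau_bw]
        simp only [map_smul]
        rcases lin_del_bw b v with h0 | ⟨v', hl, h0⟩
        · rw [h0]
          simp only [map_zero, LinearMap.zero_apply, smul_zero, add_zero]
        · rw [h0, ih v' w (by omega), smul_add, ← hl]
          congr 1
          simp only [smul_smul]
          congr 1
          cases c
          · simp
          · simp only [if_true, pow_succ]
            ring
      rw [h1, h2, smul_add]
      abel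

theorem din_sh (c : Bool) (v w : Wd) : din c (mu (bw v) (bw w)) =
    mu (din c (bw v)) (bw w) + (if c then (-1 : ℝ) ^ v.length else 1) • mu (bw v) (din c (bw w)) :=
  lin_main c _ v w le_rfl

theorem din_ext (f : R) (h0 : f [] = 0) (ht : din true f = 0) (hf : din false f = 0) : f = 0 := by
  ext w
  rcases List.eq_nil_or_concat w with rfl | ⟨u, c, rfl⟩
  · exact h0
  · rw [List.concat_eq_append, ← din_apply]
    cases c
    · rw [hf]
      rfl
    · rw [ht]
      rfl

private theorem lin_din_concat (c d : Bool) (u : Wd) :
    din c (bw (u ++ [d])) = if d = c then bw u else 0 := by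
  ext w
  rw [din_apply, lin_bw]
  by_cases h : d = c
  · subst h
    rw [if_pos rfl, lin_bw]
    by_cases h1 : u = w
    · rw [h1, if_pos rfl, if_pos rfl]
    · rw [if_neg h1, if_neg fun h2 => h1 (List.append_cancel_right h2)]
  · rw [if_neg h, if_neg]
    · rfl
    · intro h1
      have h2 := congrArg List.getLast? h1
      simp at h2
      exact h h2

private theorem lin_xw (a : ℕ) : xw (a + 1) = xw a ++ [true] := by
  unfold xw pw
  rw [List.replicate_succ', List.cons_append]

private theorem lin_xw0 : xw 0 = [] ++ [false] := rfl

theorem din_true_xw (a : ℕ) : din true (bw (xw (a + 1))) = bw (xw a) := by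
  rw [lin_xw, lin_din_concat, if_pos rfl]

theorem din_true_xw0 : din true (bw (xw 0)) = 0 := by
  rw [lin_xw0, lin_din_concat, if_neg (by decide)]

theorem din_false_xw (a : ℕ) : din false (bw (xw a)) = if a = 0 then bw [] else 0 := by
  cases a with
  | zero => rw [lin_xw0, lin_din_concat, if_pos rfl, if_pos rfl]
  | succ a => rw [lin_xw, lin_din_concat, if_neg (by decide), if_neg (Nat.succ_ne_zero a)]

end BrV
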