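import Pool.Agent.Lib.BrV.LShift
import Pool.Agent.Lib.BrV.LFnY
import Pool.Agent.Lib.BrV.SLin

/-!
# BrV.LIso: `H_(k+1)(Φ0)_(N+1,k) = 𝒢_(N,k)`, `k = m + 2` (paper 3, (4.4))

`n = N + 1`.  `phi k = Fn ∘ dlt^k ∘ ioL`.
* `ioL_Z`, `ioL_B`: `ioL c i = c i • single [] 1`; `KK 0 = YY 0` is spanned by `single [] 1` (`bz0 [] = 0`); `DL (ioL c) = ioL (D0 c)` (`DL_ioL`); an element of `Φ(KK 0)` is `ioL e` with `e i = y i []`.
* `chain`: for `j ≤ m + 2` and `c ∈ Z0 (m+3) n k`: `dlt^j (ioL c) ∈ ZL j (m+3-j) n k`, and it is in `BL j (m+3-j) n k` iff `c ∈ B0 (m+3) n k`.  Induction on `j`: `dlt_Z`, `dlt_B`, `dlt_inj` with `YAc j (m+3-j) n k` for `j ≤ m + 1`: `j = 0`: `YAc_zero`; `j ≥ 1`: `YAc_pos`, `m + 3 - j ≥ 2`.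
* `chain_surj`: for `j ≤ m + 1`: every `x ∈ ZL j (m+3-j) n k` is `dlt^j (ioL c) + b`, `c ∈ Z0`, `b ∈ BL j ..`.  Induction on `j`: `x ∈ ZL (j+1) (m+3-(j+1)) n k` is `DL v`, `v` in `Φ(YY (j+1))`, by `YAc j (m+3-(j+1))` (`j = 0`: `YAc_zero`; `1 ≤ j ≤ m`: `m + 2 - j ≥ 2`), `dlt_surj`: `x ≡ dlt x0`, `x0 ≡ dlt^j (ioL c)`, and `dlt` maps `BL` to `BL` (`dlt_B`).
  `BL` is closed under addition.
* `hd_GG`: `HD_map` with `φ = phi k`, `Z' = GG N k`, `B' = ⊥`.  `h1`: `Fn_Z`, and `bz (phi c) = 0` by `Fn_Y` (`←`) as `dlt^k (ioL c) = DL (SS (dlt^(k-1) (ioL c)))` with `SS ..` in `Φ(YY k)`.  `h2`: `phi c = 0` iff `dlt^k (ioL c) ∈ BL k 1 n k` (`Fn_B`, `Fn_inj`) iff `c ∈ B0` (`chain`).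
  `h3`: `F ∈ GG N k`: `Fn_surj` gives `x' ∈ ZL k 1 n k`, `Fn x' = F`; `bz F = 0` and `Fn_Y` (`→`): `x' = DL v`; `dlt_surj` (`m + 1`, `r = 1`): `x' - dlt x ∈ BL`, `x ∈ ZL (k-1) 2 n k`; `chain_surj` for `x`: `x - dlt^(k-1) (ioL c) ∈ BL`; so `x' - dlt^k (ioL c) ∈ BL k 1 n k` and `Fn` of it is `0` (`Fn_B`).
  (`WW N k`, `TT`, kernels: definition of `GG`.)
-/

namespace BrV

open Finsupp

theorem mem_GG (N k : ℕ) (F : CW) : F ∈ GG N k ↔ F ∈ TT k ∧ IsW N k F ∧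
    act (bw [true]) F = 0 ∧ act (bw [true, true]) F = 0 ∧ bz F = 0 := by
  have h1 : F ∈ WW N k ↔ IsW N k F := by
    unfold WW IsW
    rw [mem_supported]
    constructor
    · intro h q hq
      exact h (Finset.mem_coe.2 (mem_support_iff.2 hq))
    · intro h q hq
      exact h q (mem_support_iff.1 (Finset.mem_coe.1 hq))
  unfold GG
  rw [Submodule.mem_inf, Submodule.mem_inf, Submodule.mem_inf, Submodule.mem_inf, h1,
    LinearMap.mem_ker, LinearMap.mem_ker, LinearMap.mem_ker]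
  tauto

private theorem ioL_apply (c : Ph0) (i : Ix) : ioL c i = c i • (single [] 1 : CW) := by
  unfold ioL
  rw [mapRange.linearMap_apply, mapRange_apply, LinearMap.toSpanSingleton_apply]

private theorem ioL_apply2 (c : Ph0) (i : Ix) (q : LW) : ioL c i q = if q = [] then c i else 0 := by
  rw [ioL_apply, Finsupp.smul_apply, single_apply, smul_eq_mul]
  by_cases h : q = []
  · rw [if_pos h, if_pos h.symm, mul_one]
  · rw [if_neg h, if_neg (fun h' => h h'.symm), mul_zero]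

private theorem ioL_inj (c c' : Ph0) (h : ioL c = ioL c') : c = c' := by
  ext i
  have h1 := congrArg (fun x : PhL => x i []) h
  simp only [ioL_apply2, if_true] at h1
  exact h1

private theorem ioL_IsHL (r n k : ℕ) (c : Ph0) : IsHL r n k (ioL c) ↔ IsH0 r n k c := by
  constructor
  · intro h i hi
    have h1 := h i [] (by rw [ioL_apply2, if_pos rfl]; exact hi)
    simpa [npW, nzW] using h1
  · intro h i q hq
    rw [ioL_apply2] at hq
    by_cases hq' : q = []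
    · subst hq'
      rw [if_pos rfl] at hq
      have h1 := h i hq
      simpa [npW, nzW] using h1
    · rw [if_neg hq'] at hq
      exact absurd rfl hq

private theorem ioL_KK (c : Ph0) (i : Ix) : ioL c i ∈ KK 0 := by
  rw [ioL_apply]
  refine Submodule.smul_mem _ _ ?_
  unfold KK
  refine Submodule.mem_inf.2 ⟨?_, ?_⟩
  · unfold YY
    refine single_mem_supported ℝ _ ?_
    exact ⟨rfl, fun w hw => absurd hw List.not_mem_nil, fun w hw => absurd hw List.not_mem_nil⟩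
  · rw [LinearMap.mem_ker]
    unfold bz
    rw [lift_apply, sum_single_index (by simp)]
    exact smul_zero _

private theorem KK0_ioL (x : PhL) (hx : ∀ i, x i ∈ KK 0) : ∃ c : Ph0, ioL c = x := by
  refine ⟨Finsupp.mapRange (fun y : CW => y []) rfl x, ?_⟩
  ext i q
  rw [ioL_apply2, mapRange_apply]
  have h1 : x i ∈ YY 0 := (Submodule.mem_inf.1 (hx i)).1
  by_cases hq : q = []
  · rw [if_pos hq, hq]
  · rw [if_neg hq]
    by_contra hne
    have h2 := (mem_supported ℝ _).1 h1 (Finset.mem_coe.2 (mem_support_iff.2 (Ne.symm hne)))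
    exact hq (List.length_eq_zero_iff.1 h2.1)

private theorem BL_add (m r n k : ℕ) (x y : PhL) (hx : x ∈ BL m r n k) (hy : y ∈ BL m r n k) :
    x + y ∈ BL m r n k := by
  obtain ⟨x', h1, h2, h3⟩ := hx
  obtain ⟨y', h4, h5, h6⟩ := hy
  refine ⟨x' + y', IsHL_add _ _ _ _ _ h1 h4, fun i => ?_, ?_⟩
  · rw [Finsupp.add_apply]
    exact Submodule.add_mem _ (h2 i) (h5 i)
  · rw [map_add, h3, h6]

private theorem BL_zero (m r n k : ℕ) : (0 : PhL) ∈ BL m r n k :=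
  ⟨0, fun _ _ h => absurd rfl h, fun _ => Submodule.zero_mem _, map_zero _⟩

private theorem YAc_all (j r n m : ℕ) (hr : j = 0 ∨ 2 ≤ r) : YAc j r n (m + 2) := by
  rcases Nat.eq_zero_or_pos j with h | h
  · subst h
    exact YAc_zero r n (m + 2) (by omega)
  · obtain ⟨j', rfl⟩ : ∃ j', j = j' + 1 := ⟨j - 1, by omega⟩
    exact YAc_pos j' r n (m + 2) (by omega)

private theorem dlt_pow (j : ℕ) (x : PhL) : (dlt ^ (j + 1) : Module.End ℝ PhL) x =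
    dlt ((dlt ^ j : Module.End ℝ PhL) x) := by
  rw [pow_succ', Module.End.mul_apply]

private theorem comb (x y z : PhL) : x - dlt y + dlt (y - z) = x - dlt z := by
  have h : dlt (y - z) = dlt y - dlt z := map_sub dlt y z
  rw [h]
  exact sub_add_sub_cancel x (dlt y) (dlt z)

theorem chain (m n j : ℕ) (hj : j ≤ m + 2) (c : Ph0) (hc : c ∈ Z0 (m + 3) n (m + 2)) :
    (dlt ^ j : Module.End ℝ PhL) (ioL c) ∈ ZL j (m + 3 - j) n (m + 2) ∧
    ((dlt ^ j : Module.End ℝ PhL) (ioL c) ∈ BL j (m + 3 - j) n (m + 2) ↔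
      c ∈ B0 (m + 3) n (m + 2)) := by
  induction j with
  | zero =>
    rw [pow_zero, Module.End.one_apply, Nat.sub_zero]
    obtain ⟨hc1, hc2⟩ := hc
    refine ⟨⟨(ioL_IsHL _ _ _ _).2 hc1, ioL_KK c, ?_⟩, ?_⟩
    · rw [DL_ioL, hc2, map_zero]
    · constructor
      · rintro ⟨y, h1, h2, h3⟩
        obtain ⟨e, rfl⟩ := KK0_ioL y h2
        rw [DL_ioL] at h3
        exact ⟨e, (ioL_IsHL _ _ _ _).1 h1, ioL_inj _ _ h3⟩
      · rintro ⟨e, h1, h2⟩
        exact ⟨ioL e, (ioL_IsHL _ _ _ _).2 h1, ioL_KK e, by rw [DL_ioL, h2]⟩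
  | succ j ih =>
    obtain ⟨ih1, ih2⟩ := ih (by omega)
    obtain ⟨r, hr1, hr2⟩ : ∃ r, m + 3 - j = r + 1 ∧ m + 3 - (j + 1) = r :=
      ⟨m + 2 - j, by omega, by omega⟩
    rw [hr1] at ih1 ih2
    rw [hr2, dlt_pow]
    refine ⟨dlt_Z _ _ _ _ _ ih1, ?_⟩
    rw [← ih2]
    exact ⟨dlt_inj _ _ _ _ (YAc_all _ _ _ _ (by omega)) _ ih1, dlt_B _ _ _ _ _⟩

theorem chain_surj (m n j : ℕ) (hj : j ≤ m + 1) (x : PhL)
    (hx : x ∈ ZL j (m + 3 - j) n (m + 2)) :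
    ∃ c ∈ Z0 (m + 3) n (m + 2),
      x - (dlt ^ j : Module.End ℝ PhL) (ioL c) ∈ BL j (m + 3 - j) n (m + 2) := by
  induction j generalizing x with
  | zero =>
    rw [Nat.sub_zero] at hx
    obtain ⟨h1, h2, h3⟩ := hx
    obtain ⟨c, rfl⟩ := KK0_ioL x h2
    refine ⟨c, ⟨(ioL_IsHL _ _ _ _).1 h1, ?_⟩, ?_⟩
    · rw [DL_ioL] at h3
      exact ioL_inj _ _ (by rw [h3, map_zero])
    · rw [pow_zero, Module.End.one_apply]
      have h4 : (ioL c - ioL c : PhL) = 0 := sub_self (ioL c)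
      rw [h4]
      exact BL_zero _ _ _ _
  | succ j ih =>
    obtain ⟨r, hr1, hr2⟩ : ∃ r, m + 3 - j = r + 1 ∧ m + 3 - (j + 1) = r :=
      ⟨m + 2 - j, by omega, by omega⟩
    rw [hr2] at hx ⊢
    obtain ⟨v, hv1, hv2, hv3⟩ := YAc_all j r n m (by omega) x hx.1
      (fun i => (Submodule.mem_inf.1 (hx.2.1 i)).1) hx.2.2
    obtain ⟨x0, hx0, hb⟩ := dlt_surj j r n (m + 2) x hx v hv1 hv2 hv3
    obtain ⟨c, hc, hb'⟩ := ih (by omega) x0 (by rw [hr1]; exact hx0)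
    rw [hr1] at hb'
    refine ⟨c, hc, ?_⟩
    have h1 := BL_add _ _ _ _ _ _ hb (dlt_B _ _ _ _ _ hb')
    rw [comb, ← dlt_pow] at h1
    exact h1

theorem hd_GG (m N d : ℕ) :
    HD (Z0 (m + 3) (N + 1) (m + 2)) (B0 (m + 3) (N + 1) (m + 2)) d ↔
      HD (GG N (m + 2)) ⊥ d := by
  have e1 : m + 3 - (m + 2) = 1 := by omega
  have e2 : m + 3 - (m + 1) = 2 := by omega
  have hphi : ∀ c, phi (m + 2) c = Fn ((dlt ^ (m + 2) : Module.End ℝ PhL) (ioL c)) := fun c => rfl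
  refine HD_map _ _ _ _ (phi (m + 2)) ?_ ?_ ?_ d
  · intro c hc
    have h1 := (chain m (N + 1) (m + 2) le_rfl c hc).1
    have h2 := (chain m (N + 1) (m + 1) (by omega) c hc).1
    rw [e1] at h1
    rw [e2] at h2
    obtain ⟨h3, h4, h5, h6⟩ := Fn_Z (m + 1) N _ h1
    rw [mem_GG, hphi]
    refine ⟨h3, h4, h5, h6, (Fn_Y m (N + 1) _ h1).2
      ⟨SS ((dlt ^ (m + 1) : Module.End ℝ PhL) (ioL c)), IsHL_SS _ _ _ _ h2.1, fun i => ?_, ?_⟩⟩
    · have h7 : SS ((dlt ^ (m + 1) : Module.End ℝ PhL) (ioL c)) i =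
          ss ((dlt ^ (m + 1) : Module.End ℝ PhL) (ioL c) i) := by
        unfold SS
        rw [mapRange.linearMap_apply, mapRange_apply]
      rw [h7]
      exact ss_YY _ _ (Submodule.mem_inf.1 (h2.2.1 i)).1
    · exact (dlt_pow (m + 1) (ioL c)).symm
  · intro c hc
    obtain ⟨h1, h2⟩ := chain m (N + 1) (m + 2) le_rfl c hc
    rw [e1] at h1 h2
    rw [← h2, Submodule.mem_bot, hphi]
    exact ⟨Fn_inj _ _ _ h1, Fn_B _ _ _⟩
  · intro F hF
    rw [mem_GG] at hF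
    obtain ⟨h1, h2, h3, h4, h5⟩ := hF
    obtain ⟨x', hx', hF'⟩ := Fn_surj (m + 1) N F h1 h2 h3 h4
    obtain ⟨v, hv1, hv2, hv3⟩ := (Fn_Y m (N + 1) x' hx').1 (by rw [hF', h5])
    obtain ⟨x, hx, hb⟩ := dlt_surj (m + 1) 1 (N + 1) (m + 2) x' hx' v hv1 hv2 hv3
    obtain ⟨c, hc, hb'⟩ := chain_surj m (N + 1) (m + 1) le_rfl x (by rw [e2]; exact hx)
    rw [e2] at hb'
    refine ⟨c, hc, ?_⟩
    have h6 := BL_add _ _ _ _ _ _ hb (dlt_B _ _ _ _ _ hb')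
    rw [comb, ← dlt_pow] at h6
    have h7 := Fn_B _ _ _ h6
    have h8 : Fn (x' - (dlt ^ (m + 2) : Module.End ℝ PhL) (ioL c)) =
        Fn x' - Fn ((dlt ^ (m + 2) : Module.End ℝ PhL) (ioL c)) := map_sub Fn _ _
    rw [h8, hF'] at h7
    rw [Submodule.mem_bot, hphi]
    exact h7

end BrV
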