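import Pool.Agent.Lib.BrV.LIn

/-!
# BrV.LKer: relations between the products `x_a * x_b` (paper 3, (5.2))

`Q_M f = ∑_{a ≤ M} f a (M-a) • x_a * x_(M-a)`.
* `Q_zero_iff`: `din_sh` with `length (xw a) = a + 1`: `din false (Q_M f) = (f 0 M + f M 0) • x_M` (for `M = 0`: `2 f 0 0 • x_0`), `din true (Q_(M+1) f) = Q_M f'`, `f' a b = f (a+1) b + (-1)^(a+1) f a (b+1)`, `din true (Q_0 f) = 0`; `Q_M f` has coefficient `0` at `[]`.  By `din_ext`:
  `Q_0 f = 0` iff `f 0 0 = 0`;  `Q_(M+1) f = 0` iff `f 0 (M+1) + f (M+1) 0 = 0` and `Q_M f' = 0`.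
* `ker2`: induction on `M` (for all `f`).  `M = 0`: `C2 0 f` says `f 0 0 = - f 0 0`.  Step: `f' ∈ C2 M`, `f 0 (M+1) + f (M+1) 0 = 0` iff `f ∈ C2 (M+1)`.
  (a) `M + 1` even.  `f' (2m+1) (2n) = f (2m+2) (2n) + f (2m+1) (2n+1)`, `f' (2m) (2n+1) = f (2m+1) (2n+1) - f (2m) (2n+2)`.  Fourth relation for `f'`: second relation for `f`.  Fifth relation for `f'`: `f (2m+1) (2n+1) + f (2n+1) (2m+1) = - f (2m+2) (2n) - f (2n+2) (2m)`.
      From the second relation `f (2m) (2n) = (-1)^m f 0 (M+1)`, `m + n = (M+1)/2 = q`, in particular `f (M+1) 0 = (-1)^q f 0 (M+1)`; with `f (M+1) 0 = - f 0 (M+1)`: the even values vanish if `q` is even, and for `q` odd `f (2m) (2n) = (-1)^m c`, `f (2n) (2m) = (-1)^n c = - (-1)^m c`: first relation; and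
      `- f (2m+2) (2n) - f (2n+2) (2m) = f (2m) (2n+2) + f (2n) (2m+2) = f (2m) (2n+2) - f (2m+2) (2n) = 2 f (2m) (2n+2)`: third relation.  Conversely the same equations.
  (b) `M + 1` odd, `M = 2q`.  Put `g m n = f (2m+1) (2n)`, `h m n = f (2m) (2n+1)`, `Δ = g - h` (`m + n = q`).  `f' (2m) (2n) = Δ m n`, `f' (2m+1) (2n+1) = h (m+1) n + g m (n+1)`.  Relations for `f'`: (1) `Δ m n = - Δ n m`, (2) `Δ (m+1) n = - Δ m (n+1)`,
      (3) `h (m+1) n + g m (n+1) + h (n+1) m + g n (m+1) = 2 Δ m (n+1)`, and (4) `h 0 q + g q 0 = 0`.  With `s m n = h m n + h n m`: (3) reads `s (m+1) n + s m (n+1) + Δ n (m+1) - Δ m (n+1) = 0`, and `Δ n (m+1) = - Δ (m+1) n = Δ m (n+1)`: so `s (m+1) n = - s m (n+1)`, `s m n = (-1)^m s 0 q`,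
      `Δ m n = (-1)^m Δ 0 q`; (4): `s 0 q + Δ q 0 = 0`.  `q` even: `Δ q 0 = Δ 0 q = - Δ q 0`, `Δ = 0`, `s 0 q = 0`, `s = 0`.  `q` odd: `s q 0 = - s 0 q = s 0 q` (symmetry), so `s = 0`, `Δ q 0 = 0`, `Δ = 0`.  `Δ = 0` is the fourth, `s = 0` (with `Δ = 0`) the fifth relation.  Conversely `Δ = 0 = s` give (1)-(4).
-/

namespace BrV

open Finsupp

private noncomputable def lk_Q (M : ℕ) (f : ℕ → ℕ → ℝ) : R :=
  ∑ a ∈ Finset.range (M + 1), f a (M - a) • mu (bw (xw a)) (bw (xw (M - a)))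

private def lk_f (f : ℕ → ℕ → ℝ) (a b : ℕ) : ℝ := f (a + 1) b + (-1) ^ (a + 1) * f a (b + 1)

private theorem lk_len (a : ℕ) : (xw a).length = a + 1 := by simp [xw, pw]

private theorem lk_dtrue (a b : ℕ) : din true (mu (bw (xw a)) (bw (xw b))) =
    mu (din true (bw (xw a))) (bw (xw b)) +
      (-1 : ℝ) ^ (a + 1) • mu (bw (xw a)) (din true (bw (xw b))) := by
  rw [din_sh, if_pos rfl, lk_len]

private theorem lk_dfalse (a b : ℕ) : din false (mu (bw (xw a)) (bw (xw b))) =
    (if a = 0 then bw (xw b) else 0) + (if b = 0 then bw (xw a) else 0) := by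
  rw [din_sh, if_neg (by simp), one_smul, din_false_xw, din_false_xw]
  congr 1
  · split_ifs
    · exact nil_mu _
    · rw [map_zero]
      rfl
  · split_ifs
    · exact mu_one _
    · exact map_zero _

private theorem lk_Qfalse (M : ℕ) (f : ℕ → ℕ → ℝ) :
    din false (lk_Q M f) = (f 0 M + f M 0) • bw (xw M) := by
  unfold lk_Q
  rw [map_sum]
  simp only [map_smul, lk_dfalse, smul_add, Finset.sum_add_distrib]
  rw [Finset.sum_eq_single 0, Finset.sum_eq_single M]
  · rw [if_pos rfl, if_pos (Nat.sub_self M), Nat.sub_zero, Nat.sub_self, add_smul]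
  · intro b hb hbM
    rw [Finset.mem_range] at hb
    rw [if_neg (by omega), smul_zero]
  · intro h
    exact absurd (Finset.mem_range.2 (Nat.lt_succ_self M)) h
  · intro b _ hb
    rw [if_neg hb, smul_zero]
  · intro h
    exact absurd (Finset.mem_range.2 (Nat.succ_pos M)) h

private theorem lk_Qtrue (M : ℕ) (f : ℕ → ℕ → ℝ) :
    din true (lk_Q (M + 1) f) = lk_Q M (lk_f f) := by
  unfold lk_Q
  rw [map_sum]
  simp only [map_smul, lk_dtrue, smul_add, Finset.sum_add_distrib]
  rw [Finset.sum_range_succ', Finset.sum_range_succ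
    (fun a => f a (M + 1 - a) • (-1 : ℝ) ^ (a + 1) • mu (bw (xw a))
      (din true (bw (xw (M + 1 - a))))), din_true_xw0, Nat.sub_self, din_true_xw0]
  simp only [map_zero, LinearMap.zero_apply, smul_zero, add_zero]
  rw [← Finset.sum_add_distrib]
  refine Finset.sum_congr rfl fun a ha => ?_
  rw [Finset.mem_range] at ha
  have e1 : M + 1 - (a + 1) = M - a := by omega
  have e2 : M + 1 - a = (M - a) + 1 := by omega
  rw [din_true_xw, e1, e2, din_true_xw, smul_smul, ← add_smul]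
  unfold lk_f
  rw [mul_comm (f a _)]

private theorem lk_Qnil (M : ℕ) (f : ℕ → ℕ → ℝ) : lk_Q M f [] = 0 := by
  unfold lk_Q
  rw [Finsupp.finsetSum_apply]
  refine Finset.sum_eq_zero fun a _ => ?_
  rw [Finsupp.smul_apply, mu_nil]
  have h : bw (xw a) [] = 0 := by
    unfold bw xw
    rw [Finsupp.single_apply, if_neg (by simp)]
  rw [h, zero_mul, smul_zero]

private theorem lk_smul {c : ℝ} {w : Wd} (h : c • bw w = 0) : c = 0 := by
  have h1 := DFunLike.congr_fun h w
  rw [Finsupp.smul_apply, bw, Finsupp.single_eq_same, smul_eq_mul, mul_one] at h1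
  exact h1

private theorem lk_zero (f : ℕ → ℕ → ℝ) : lk_Q 0 f = 0 ↔ f 0 0 = 0 := by
  constructor
  · intro h
    have h1 := lk_Qfalse 0 f
    rw [h, map_zero] at h1
    have h2 := lk_smul h1.symm
    linarith
  · intro h
    unfold lk_Q
    rw [Finset.sum_range_one, h, zero_smul]

private theorem lk_succ (M : ℕ) (f : ℕ → ℕ → ℝ) :
    lk_Q (M + 1) f = 0 ↔ f 0 (M + 1) + f (M + 1) 0 = 0 ∧ lk_Q M (lk_f f) = 0 := by
  constructor
  · intro h
    have h1 := lk_Qfalse (M + 1) f
    have h2 := lk_Qtrue M f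
    rw [h, map_zero] at h1 h2
    exact ⟨lk_smul h1.symm, h2.symm⟩
  · rintro ⟨h1, h2⟩
    refine din_ext _ (lk_Qnil _ _) ?_ ?_
    · rw [lk_Qtrue, h2]
    · rw [lk_Qfalse, h1, zero_smul]

private theorem lk_alt {q : ℕ} {u : ℕ → ℕ → ℝ}
    (h : ∀ m n, m + n + 1 = q → u (m + 1) n + u m (n + 1) = 0) :
    ∀ m n, m + n = q → u m n = (-1) ^ m * u 0 q := by
  intro m
  induction m with
  | zero =>
    intro n hn
    rw [pow_zero, one_mul]
    congr 1
    omega
  | succ m ih =>
    intro n hn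
    have h1 := h m n (by omega)
    have h2 := ih (n + 1) (by omega)
    rw [pow_succ]
    linarith

private theorem lk_f_odd (f : ℕ → ℕ → ℝ) (m b : ℕ) :
    lk_f f (2 * m + 1) b = f (2 * m + 2) b + f (2 * m + 1) (b + 1) := by
  unfold lk_f
  have e : (-1 : ℝ) ^ (2 * m + 1 + 1) = 1 := by
    rw [show 2 * m + 1 + 1 = 2 * (m + 1) by ring, _root_.pow_mul]
    norm_num
  rw [e, one_mul]

private theorem lk_f_even (f : ℕ → ℕ → ℝ) (m b : ℕ) :
    lk_f f (2 * m) b = f (2 * m + 1) b - f (2 * m) (b + 1) := by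
  unfold lk_f
  have e : (-1 : ℝ) ^ (2 * m + 1) = -1 := by
    rw [pow_succ, _root_.pow_mul]
    norm_num
  rw [e]
  ring

private theorem lk_C2_even (q : ℕ) (f : ℕ → ℕ → ℝ) : C2 (2 * q) f ↔
    (∀ m n, m + n = q → f (2 * m) (2 * n) = - f (2 * n) (2 * m)) ∧
    (∀ m n, m + n + 1 = q → f (2 * m + 2) (2 * n) + f (2 * m) (2 * n + 2) = 0) ∧
    (∀ m n, m + n + 1 = q →
      f (2 * m + 1) (2 * n + 1) + f (2 * n + 1) (2 * m + 1) = 2 * f (2 * m) (2 * n + 2)) := by
  unfold C2
  constructor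
  · rintro ⟨h1, h2, h3, -, -⟩
    exact ⟨fun m n h => h1 m n (by omega), fun m n h => h2 m n (by omega),
      fun m n h => h3 m n (by omega)⟩
  · rintro ⟨h1, h2, h3⟩
    exact ⟨fun m n h => h1 m n (by omega), fun m n h => h2 m n (by omega),
      fun m n h => h3 m n (by omega), fun m n h => by omega, fun m n h => by omega⟩

private theorem lk_C2_odd (q : ℕ) (f : ℕ → ℕ → ℝ) : C2 (2 * q + 1) f ↔
    (∀ m n, m + n = q → f (2 * m + 1) (2 * n) = f (2 * m) (2 * n + 1)) ∧
    (∀ m n, m + n = q → f (2 * m + 1) (2 * n) = - f (2 * n + 1) (2 * m)) := by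
  unfold C2
  constructor
  · rintro ⟨-, -, -, h4, h5⟩
    exact ⟨fun m n h => h4 m n (by omega), fun m n h => h5 m n (by omega)⟩
  · rintro ⟨h4, h5⟩
    exact ⟨fun m n h => by omega, fun m n h => by omega,
      fun m n h => by omega, fun m n h => h4 m n (by omega), fun m n h => h5 m n (by omega)⟩

/-- from odd `M` to even `M + 1` -/
private theorem lk_stepA (q : ℕ) (f : ℕ → ℕ → ℝ) :
    (f 0 (2 * q + 1 + 1) + f (2 * q + 1 + 1) 0 = 0 ∧ C2 (2 * q + 1) (lk_f f)) ↔
      C2 (2 * q + 1 + 1) f := by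
  have e : 2 * q + 1 + 1 = 2 * (q + 1) := by ring
  rw [lk_C2_odd, e, lk_C2_even]
  simp only [lk_f_odd, lk_f_even]
  constructor
  · rintro ⟨hb, h4, h5⟩
    have E2 : ∀ m n, m + n + 1 = q + 1 → f (2 * m + 2) (2 * n) + f (2 * m) (2 * n + 2) = 0 := by
      intro m n h
      have h1 := h4 m n (by omega)
      have e2 : 2 * n + 1 + 1 = 2 * n + 2 := rfl
      rw [e2] at h1
      linarith
    have E1 : ∀ m n, m + n = q + 1 → f (2 * m) (2 * n) = - f (2 * n) (2 * m) := by
      intro m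
      induction m with
      | zero =>
        intro n hn
        have : n = q + 1 := by omega
        subst this
        rw [Nat.mul_zero]
        linarith
      | succ m ih =>
        intro n hn
        have h1 := ih (n + 1) (by omega)
        have h2 := E2 m n (by omega)
        have h3 := E2 n m (by omega)
        have e2 : ∀ t, 2 * (t + 1) = 2 * t + 2 := fun t => by ring
        rw [e2] at h1 ⊢
        linarith
    refine ⟨E1, E2, ?_⟩
    intro m n h
    have h1 := h5 m n (by omega)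
    have h2 := E2 m n (by omega)
    have h3 := E1 (n + 1) m (by omega)
    have e2 : ∀ t, 2 * (t + 1) = 2 * t + 2 := fun t => by ring
    rw [e2] at h3
    linarith
  · rintro ⟨E1, E2, E3⟩
    refine ⟨?_, ?_, ?_⟩
    · have h1 := E1 0 (q + 1) (by omega)
      rw [Nat.mul_zero] at h1
      linarith
    · intro m n h
      have h1 := E2 m n (by omega)
      have e2 : 2 * n + 1 + 1 = 2 * n + 2 := rfl
      rw [e2]
      linarith
    · intro m n h
      have h1 := E3 m n (by omega)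
      have h2 := E2 m n (by omega)
      have h3 := E1 (n + 1) m (by omega)
      have e2 : ∀ t, 2 * (t + 1) = 2 * t + 2 := fun t => by ring
      rw [e2] at h3
      linarith

/-- from even `M` to odd `M + 1` -/
private theorem lk_stepB (q : ℕ) (f : ℕ → ℕ → ℝ) :
    (f 0 (2 * q + 1) + f (2 * q + 1) 0 = 0 ∧ C2 (2 * q) (lk_f f)) ↔ C2 (2 * q + 1) f := by
  rw [lk_C2_even, lk_C2_odd]
  have e2 : ∀ t, 2 * (t + 1) = 2 * t + 2 := fun t => by ring
  constructor
  · rintro ⟨hb, h1, h2, h3⟩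
    obtain ⟨g, hg⟩ : ∃ g : ℕ → ℕ → ℝ, ∀ m n, g m n = f (2 * m + 1) (2 * n) := ⟨_, fun _ _ => rfl⟩
    obtain ⟨k, hk⟩ : ∃ k : ℕ → ℕ → ℝ, ∀ m n, k m n = f (2 * m) (2 * n + 1) := ⟨_, fun _ _ => rfl⟩
    have H1 : ∀ m n, m + n = q → g m n - k m n = - (g n m - k n m) := by
      intro m n h
      have h' := h1 m n h
      rw [lk_f_even, lk_f_even, ← hg, ← hk, ← hg, ← hk] at h'
      exact h'
    have H2 : ∀ m n, m + n + 1 = q →
        (g (m + 1) n - k (m + 1) n) + (g m (n + 1) - k m (n + 1)) = 0 := by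
      intro m n h
      have h' := h2 m n h
      rw [← e2, ← e2, lk_f_even, lk_f_even, ← hg, ← hk, ← hg, ← hk] at h'
      exact h'
    have H3 : ∀ m n, m + n + 1 = q → k (m + 1) n + g m (n + 1) + (k (n + 1) m + g n (m + 1)) =
        2 * (g m (n + 1) - k m (n + 1)) := by
      intro m n h
      have h' := h3 m n h
      rw [lk_f_odd, lk_f_odd, ← e2, ← e2, lk_f_even] at h'
      rw [← hg, ← hg, ← hk, ← hk, ← hk] at h'
      exact h'
    have H4 : k 0 q + g q 0 = 0 := by
      rw [hg, hk]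
      exact hb
    have HD := lk_alt (u := fun m n => g m n - k m n) H2
    have HS := lk_alt (q := q) (u := fun m n => k m n + k n m) (by
      intro m n h
      have a1 := H3 m n h
      have a2 := H1 n (m + 1) (by omega)
      have a3 := H2 m n h
      show k (m + 1) n + k n (m + 1) + (k m (n + 1) + k (n + 1) m) = 0
      linarith)
    have key : g 0 q - k 0 q = 0 ∧ k 0 q + k q 0 = 0 := by
      have b1 := HD q 0 (by omega)
      have b2 := HS q 0 (by omega)
      have b3 := H1 0 q (by omega)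
      rcases Nat.even_or_odd q with hq | hq
      · rw [hq.neg_one_pow] at b1 b2
        constructor <;> linarith
      · rw [hq.neg_one_pow] at b1 b2
        constructor <;> linarith
    have HD0 : ∀ m n, m + n = q → g m n = k m n := by
      intro m n h
      have := HD m n h
      rw [key.1, mul_zero] at this
      linarith
    refine ⟨fun m n h => ?_, fun m n h => ?_⟩
    · rw [← hg, ← hk]
      exact HD0 m n h
    · rw [← hg, ← hg, HD0 m n h, HD0 n m (by omega)]
      have := HS m n h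
      rw [key.2, mul_zero] at this
      linarith
  · rintro ⟨h4, h5⟩
    refine ⟨?_, ?_, ?_, ?_⟩
    · have a1 := h4 0 q (by omega)
      have a2 := h5 0 q (by omega)
      simp only [Nat.mul_zero, Nat.zero_add] at a1 a2
      linarith
    · intro m n h
      rw [lk_f_even, lk_f_even, h4 m n h, h4 n m (by omega)]
      ring
    · intro m n h
      rw [← e2, ← e2, lk_f_even, lk_f_even, h4 (m + 1) n (by omega), h4 m (n + 1) (by omega)]
      ring
    · intro m n h
      rw [lk_f_odd, lk_f_odd, ← e2, ← e2, lk_f_even]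
      have b1 := h4 (m + 1) n (by omega)
      have b2 := h4 m (n + 1) (by omega)
      have b3 := h4 (n + 1) m (by omega)
      have b4 := h4 n (m + 1) (by omega)
      have b5 := h5 (m + 1) n (by omega)
      have b6 := h5 m (n + 1) (by omega)
      linarith

private theorem lk_step (M : ℕ) (f : ℕ → ℕ → ℝ) :
    (f 0 (M + 1) + f (M + 1) 0 = 0 ∧ C2 M (lk_f f)) ↔ C2 (M + 1) f := by
  rcases Nat.even_or_odd' M with ⟨q, rfl | rfl⟩
  · exact lk_stepB q f
  · exact lk_stepA q f

private theorem lk_main (M : ℕ) : ∀ f : ℕ → ℕ → ℝ, lk_Q M f = 0 ↔ C2 M f := by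
  induction M with
  | zero =>
    intro f
    rw [lk_zero]
    constructor
    · intro h
      unfold C2
      refine ⟨fun m n hmn => ?_, fun m n hmn => by omega, fun m n hmn => by omega,
        fun m n hmn => by omega, fun m n hmn => by omega⟩
      have hm : m = 0 := by omega
      have hn : n = 0 := by omega
      subst hm hn
      rw [Nat.mul_zero, h, neg_zero]
    · intro h
      have h1 := h.1 0 0 rfl
      rw [Nat.mul_zero] at h1
      linarith
  | succ M ih =>
    intro f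
    rw [lk_succ, ih (lk_f f), lk_step]

theorem ker2 (M : ℕ) (f : ℕ → ℕ → ℝ) :
    (∑ a ∈ Finset.range (M + 1), f a (M - a) • mu (bw (xw a)) (bw (xw (M - a))) = 0) ↔ C2 M f := lk_main M f

end BrV
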