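import Pool.Agent.Lib.BrV.LYac

/-!
# BrV.LKk: the complex `Φ(KK (m+1))` in `z`-degree `m + 1` (paper 3, (4.1))

* `KK_top`: `bz y = 0` and `bz_ss`, `ss_tp`: `y = bz (ss y) = bz (cns [] (tp y))`.
* `KK_low`: all entries from the second on end in `z`, so `nzW q ≥ m`, and `nzW q ≥ m + 1` if the first word is not empty: `tp y = 0`, so `y = 0` by `KK_top`.
* `KK_of_TT`: `bz (cns [] t) = t - cns [] (bz t)` (`bz_cns_nil`, `bz_TT`, `cns_nil_YY`, `bz_bz`, `tp_of_TT`, `tp_cns_nil`).
* `form`: `u s = tp (x (jL s))`.  If `x i ≠ 0` then `kI i = 0` (else all lists in `x i` have `nzW ≤ m`, `KK_low`), so `i = jL s` (`eq_pw`), the lists have `nzW = m + 1`, and `x (jL s) = bz (cns [] (u s)) = BZ (pur u) (jL s)` (`KK_top`).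
* `uL_form`: for `u` supported on lists of length `1` with values in `TT (m+1)`: `uL (BZ (pur u)) = u` (`KK_of_TT`: `tp (bz (cns [] t)) = t`).
* `DL_form`: `DL (BZ (pur u)) = BZ (DL (pur u)) = BZ (pur (bd eA u))` (`BZ_DL`, `DL_pur`); `BZpur_inj`: `tp (BZ (pur u) (jL s)) = u s`.
-/

namespace BrV

open Finsupp

private theorem lkk_mem_YY (m : ℕ) (y : CW) : y ∈ YY m ↔ ∀ q, y q ≠ 0 →
    q.length = m ∧ (∀ w ∈ q, w = [] ∨ Zw w) ∧ ∀ w ∈ q.tail, Zw w := by
  unfold YY
  rw [Finsupp.mem_supported]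
  constructor
  · intro h q hq
    exact h (Finsupp.mem_support_iff.2 hq)
  · intro h q hq
    exact h q (Finsupp.mem_support_iff.1 hq)

private theorem lkk_Zw (w : Wd) (h : Zw w) : 1 ≤ nz w := by
  unfold Zw at h
  cases w with
  | nil => exact absurd h (by simp)
  | cons a w =>
    have h1 : a = false := by simpa using h
    subst h1
    unfold nz
    rw [List.count_cons_self]
    exact Nat.le_add_left _ _

private theorem lkk_nzW (q : LW) (h : ∀ w ∈ q, Zw w) : q.length ≤ nzW q := by
  induction q with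
  | nil => exact Nat.zero_le _
  | cons w q ih =>
    have h1 := lkk_Zw w (h w List.mem_cons_self)
    have h2 := ih fun v hv => h v (List.mem_cons_of_mem _ hv)
    unfold nzW at h2 ⊢
    rw [List.map_cons, List.sum_cons, List.length_cons]
    omega

private theorem lkk_tp_cons (y : CW) (w : Wd) (l : LW) :
    tp y (w :: l) = if w = [] then 0 else y (w :: l) := by
  induction y using Finsupp.induction_linear with
  | zero => simp
  | add f g hf hg =>
    rw [map_add, Finsupp.add_apply, hf, hg, Finsupp.add_apply]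
    split_ifs
    · rw [add_zero]
    · rfl
  | single q a =>
    unfold tp
    rw [Finsupp.lift_apply, Finsupp.sum_single_index (by rw [zero_smul])]
    cases q with
    | nil =>
      have h0 : (single ([] : LW) a : CW) (w :: l) = 0 := by
        rw [Finsupp.single_apply, if_neg]
        exact fun h => List.cons_ne_nil _ _ h.symm
      rw [h0, ite_self]
      change (a • (0 : CW)) (w :: l) = 0
      rw [smul_zero, Finsupp.zero_apply]
    | cons v r =>
      change (a • (if v = [] then (0 : CW) else single (v :: r) 1)) (w :: l) = _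
      by_cases hv : v = []
      · rw [if_pos hv, smul_zero, Finsupp.zero_apply]
        by_cases hw : w = []
        · rw [if_pos hw]
        · rw [if_neg hw, Finsupp.single_apply, if_neg]
          intro h
          rw [List.cons.injEq] at h
          exact hw (h.1.symm.trans hv)
      · rw [if_neg hv, Finsupp.smul_single, smul_eq_mul, mul_one]
        by_cases hw : w = []
        · rw [if_pos hw, Finsupp.single_apply, if_neg]
          intro h
          rw [List.cons.injEq] at h
          exact hv (h.1.trans hw)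
        · rw [if_neg hw]

private theorem lkk_tp_nil (y : CW) : tp y [] = 0 := by
  induction y using Finsupp.induction_linear with
  | zero => simp
  | add f g hf hg => rw [map_add, Finsupp.add_apply, hf, hg, add_zero]
  | single q a =>
    unfold tp
    rw [Finsupp.lift_apply, Finsupp.sum_single_index (by rw [zero_smul])]
    cases q with
    | nil =>
      change (a • (0 : CW)) [] = 0
      rw [smul_zero, Finsupp.zero_apply]
    | cons v r =>
      change (a • (if v = [] then (0 : CW) else single (v :: r) 1)) [] = 0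
      by_cases hv : v = []
      · rw [if_pos hv, smul_zero, Finsupp.zero_apply]
      · rw [if_neg hv, Finsupp.smul_single, Finsupp.single_apply, if_neg]
        exact List.cons_ne_nil _ _

private theorem lkk_tp_ne (y : CW) (q : LW) (h : tp y q ≠ 0) :
    y q ≠ 0 ∧ ∃ w l, q = w :: l ∧ w ≠ [] := by
  cases q with
  | nil => exact absurd (lkk_tp_nil y) h
  | cons w l =>
    rw [lkk_tp_cons] at h
    by_cases hw : w = []
    · rw [if_pos hw] at h
      exact absurd rfl h
    · rw [if_neg hw] at h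
      exact ⟨h, w, l, rfl, hw⟩

private theorem lkk_np_pw (a : ℕ) : np (pw a) = a := by
  unfold np pw
  rw [List.count_replicate_self]

private theorem lkk_nz_pw (a : ℕ) : nz (pw a) = 0 := by
  unfold nz pw
  rw [List.count_replicate]
  rfl

private theorem lkk_kI (s : List ℕ) : kI (jL s) = 0 := by
  unfold kI jL nzL
  rw [List.map_map]
  have : (s.map (nz ∘ pw)).sum = 0 := by
    rw [List.sum_eq_zero]
    intro a ha
    obtain ⟨b, -, rfl⟩ := List.mem_map.1 ha
    exact lkk_nz_pw b
  rw [this]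
  rfl

private theorem lkk_rI (s : List ℕ) : rI (jL s) = s.length := by
  unfold rI jL
  rw [List.length_map]
  rfl

private theorem lkk_nI (s : List ℕ) : nI (jL s) = (s.map fun a => a + 1).sum := by
  unfold nI jL npL
  rw [List.map_map]
  congr 1
  apply List.map_congr_left
  intro a _
  change np (pw a) + 1 = a + 1
  rw [lkk_np_pw]

private theorem lkk_list (l : LB) (h : nzL l = 0) : (l.map np).map pw = l := by
  induction l with
  | nil => rfl
  | cons w l ih =>
    unfold nzL at h ih
    rw [List.map_cons, List.sum_cons] at h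
    rw [List.map_cons, List.map_cons, ih (by omega), ← eq_pw w (by omega)]

private theorem lkk_jL (i : Ix) (h : kI i = 0) : jL (i.2.map np) = i := by
  obtain ⟨b, l⟩ := i
  unfold kI at h
  have h1 : nzL l = 0 := by
    have : nzL l + b.toNat = 0 := h
    omega
  have h2 : b = false := by
    have : nzL l + b.toNat = 0 := h
    cases b with
    | false => rfl
    | true => exact absurd this (by simp)
  unfold jL
  rw [lkk_list l h1, h2]

private theorem lkk_BZ (x : PhL) (i : Ix) : BZ x i = bz (x i) := rfl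

private theorem lkk_pur_single (s : List ℕ) (v : CW) :
    pur (single s v) = single (jL s) (cns [] v) := by
  unfold pur
  rw [LinearMap.comp_apply, Finsupp.mapRange.linearMap_apply, Finsupp.mapRange_single,
    Finsupp.lmapDomain_apply, Finsupp.mapDomain_single]

theorem KK_top (m : ℕ) (y : CW) (hy : y ∈ KK (m + 1)) : y = bz (cns [] (tp y)) := by
  have h1 := bz_ss (m + 1) y hy.1
  have h2 : bz y = 0 := LinearMap.mem_ker.1 hy.2
  rw [h2, map_zero, add_zero, ss_tp m y hy.1] at h1
  exact h1.symm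


theorem KK_low (m : ℕ) (y : CW) (hy : y ∈ KK (m + 1)) (hk : ∀ q, y q ≠ 0 → nzW q ≤ m) :
    y = 0 := by
  have h0 : tp y = 0 := by
    ext q
    rw [Finsupp.zero_apply]
    by_contra h
    obtain ⟨h1, w, l, rfl, hw⟩ := lkk_tp_ne y q h
    obtain ⟨h2, h3, h4⟩ := (lkk_mem_YY _ _).1 hy.1 _ h1
    have h5 : ∀ v ∈ w :: l, Zw v := by
      intro v hv
      rcases List.mem_cons.1 hv with h6 | h6
      · rw [h6]
        exact (h3 w List.mem_cons_self).resolve_left hw
      · exact h4 v h6
    have h6 := lkk_nzW _ h5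
    have h7 := hk _ h1
    omega
  rw [KK_top m y hy, h0, map_zero, map_zero]


theorem KK_of_TT (m : ℕ) (t : CW) (ht : t ∈ TT (m + 1)) :
    bz (cns [] t) ∈ KK (m + 1) ∧ tp (bz (cns [] t)) = t := by
  refine ⟨⟨bz_YY (m + 1) _ (cns_nil_YY (m + 1) t ht), LinearMap.mem_ker.2 (bz_bz _)⟩, ?_⟩
  rw [bz_cns_nil, map_sub, tp_of_TT m t ht, tp_cns_nil, sub_zero]


theorem form (m r n : ℕ) (x : PhL) (hx : IsHL r n (m + 1) x) (hK : ∀ i, x i ∈ KK (m + 1)) :
    ∃ u : List ℕ →₀ CW, x = BZ (pur u) ∧ (∀ s, u s ∈ Tk (m + 1) (m + 1)) ∧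
      (∀ s, u s ≠ 0 → s.length = r) ∧ ∀ s q, u s q ≠ 0 → (s.map fun a => a + 1).sum + npW q = n := by
  have hu : ∀ s, Finsupp.mapRange tp (map_zero _)
      (Finsupp.comapDomain jL x jL_inj.injOn) s = tp (x (jL s)) := fun s => rfl
  have hdeg : ∀ s q, tp (x (jL s)) q ≠ 0 →
      s.length = r ∧ (s.map fun a => a + 1).sum + npW q = n ∧ nzW q = m + 1 := by
    intro s q hq
    obtain ⟨h1, -⟩ := lkk_tp_ne _ q hq
    obtain ⟨h2, h3, h4⟩ := hx _ q h1
    rw [lkk_rI] at h2
    rw [lkk_nI] at h3
    rw [lkk_kI, zero_add] at h4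
    exact ⟨h2, h3, h4⟩
  refine ⟨Finsupp.mapRange tp (map_zero _) (Finsupp.comapDomain jL x jL_inj.injOn), ?_, ?_, ?_, ?_⟩
  · ext1 i
    rw [lkk_BZ]
    by_cases hi : ∃ s, jL s = i
    · obtain ⟨s, rfl⟩ := hi
      rw [pur_jL, hu]
      exact KK_top m _ (hK _)
    · have hi' : ∀ s, jL s ≠ i := fun s hs => hi ⟨s, hs⟩
      rw [pur_ne _ i hi', map_zero]
      refine KK_low m _ (hK i) fun q hq => ?_
      have h1 := (hx i q hq).2.2
      have h2 : kI i ≠ 0 := fun h => hi ⟨_, lkk_jL i h⟩
      omega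
  · intro s
    rw [Tk_mem, hu]
    exact ⟨tp_TT m _ (hK _).1, fun q hq => (hdeg s q hq).2.2⟩
  · intro s hs
    rw [hu] at hs
    obtain ⟨q, hq⟩ := Finsupp.ne_iff.1 hs
    exact (hdeg s q hq).1
  · intro s q hq
    rw [hu] at hq
    exact (hdeg s q hq).2.1


theorem uL_form (m : ℕ) (u : List ℕ →₀ CW) (hu : ∀ s, u s ∈ TT (m + 1))
    (hl : ∀ s, u s ≠ 0 → s.length = 1) : uL (BZ (pur u)) = u := by
  have h1 : BZ (pur u) = u.sum fun s v => single (jL s) (bz (cns [] v)) := by
    conv_lhs => rw [← Finsupp.sum_single u]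
    rw [map_finsuppSum, map_finsuppSum]
    refine Finsupp.sum_congr fun s _ => ?_
    rw [lkk_pur_single]
    exact Finsupp.mapRange_single (hf := map_zero bz)
  rw [h1, map_finsuppSum]
  conv_rhs => rw [← Finsupp.sum_single u]
  refine Finsupp.sum_congr fun s hs => ?_
  obtain ⟨a, rfl⟩ := List.length_eq_one_iff.1 (hl s (Finsupp.mem_support_iff.1 hs))
  have h2 : uL (single (jL [a]) (bz (cns [] (u [a])))) = single [np (pw a)]
      (tp (bz (cns [] (u [a])))) := by
    unfold uL
    rw [Finsupp.lsum_single]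
    change (if pw a = pw (np (pw a)) then (Finsupp.lsingle [np (pw a)]).comp tp else 0)
      (bz (cns [] (u [a]))) = _
    rw [lkk_np_pw, if_pos rfl]
    rfl
  rw [h2, (KK_of_TT m _ (hu [a])).2, lkk_np_pw]


theorem DL_form (m : ℕ) (u : List ℕ →₀ CW) (hu : ∀ s, u s ∈ TT (m + 1)) :
    DL (BZ (pur u)) = BZ (pur (bd eA u)) := by
  rw [← BZ_DL, DL_pur (m + 1) u hu]


theorem BZpur_inj (m : ℕ) (u u' : List ℕ →₀ CW) (hu : ∀ s, u s ∈ TT (m + 1))
    (hu' : ∀ s, u' s ∈ TT (m + 1)) (h : BZ (pur u) = BZ (pur u')) : u = u' := by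
  ext1 s
  have h1 := DFunLike.congr_fun h (jL s)
  rw [lkk_BZ, lkk_BZ, pur_jL, pur_jL] at h1
  rw [← (KK_of_TT m _ (hu s)).2, h1, (KK_of_TT m _ (hu' s)).2]


theorem BZpur_KK (m : ℕ) (u : List ℕ →₀ CW) (hu : ∀ s, u s ∈ TT (m + 1)) (i : Ix) :
    BZ (pur u) i ∈ KK (m + 1) := by
  rw [lkk_BZ]
  by_cases hi : ∃ s, jL s = i
  · obtain ⟨s, rfl⟩ := hi
    rw [pur_jL]
    exact (KK_of_TT m _ (hu s)).1
  · have hi' : ∀ s, jL s ≠ i := fun s hs => hi ⟨s, hs⟩
    rw [pur_ne _ i hi', map_zero]
    exact Submodule.zero_mem _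


end BrV
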