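import Pool.Agent.Lib.BrV.LCmp

/-!
# BrV.LShift: `H_(r+1)(Φ(KK m)) = H_r(Φ(KK (m+1)))` (paper 3, section 3)

`dlt x = DL (SS x)`.  `BZ (SS x) = x - SS (BZ x)` for `x` with coefficients in `YY m` (`bz_ss`); for `x` with coefficients in `KK m` `BZ x = 0`.  `BZ (DL x) = DL (BZ x)` (`BZ_DL`), `DL (DL x) = 0` (`DL_DL`).
* `dlt_Z`: `SS x` has coefficients in `YY (m+1)` (`ss_YY`), so has `dlt x` (`DL_mem`, `act_YY`); `BZ (dlt x) = DL (BZ (SS x)) = DL x = 0`.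
* `dlt_B`: `x = DL y`: `u = SS (DL y) - DL (SS y)` has coefficients in `YY (m+1)`, `BZ u = DL y - SS (BZ (DL y)) - DL (y - SS (BZ y)) = 0` and `DL u = dlt x`.
* `dlt_inj`: `dlt x = DL u`: `SS x - u` is a cycle in `Φ(YY (m+1))`, so `= DL v` (`YAc`), and `x = BZ (SS x - u) = DL (BZ v)`, `BZ v` has coefficients in `KK m` (`bz_YY`, `bz_bz`).
* `dlt_surj`: `x = BZ v` (`bz_YY`, `bz_bz`, `DL x = BZ x' = 0`); `u = SS (BZ v) - v`: `BZ u = BZ v - SS (BZ (BZ v)) - BZ v = 0`, `DL u = dlt x - x'`; so `x' - dlt x = DL (- u)`.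
Degrees: `IsHL_SS`, `IsHL_BZ`, `DL_IsHL`, `IsHL_sub`.
-/

namespace BrV

open Finsupp

private theorem lsh_BZ (x : PhL) (i : Ix) : BZ x i = bz (x i) := by
  unfold BZ
  rw [Finsupp.mapRange.linearMap_apply, Finsupp.mapRange_apply]

private theorem lsh_SS (x : PhL) (i : Ix) : SS x i = ss (x i) := by
  unfold SS
  rw [Finsupp.mapRange.linearMap_apply, Finsupp.mapRange_apply]

private theorem lsh_DLs (x y : PhL) : DL (x - y) = DL x - DL y := map_sub DL x y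

private theorem lsh_BZs (x y : PhL) : BZ (x - y) = BZ x - BZ y := map_sub BZ x y

private theorem lsh_s0 (x : PhL) : x - 0 = x := sub_zero x

private theorem lsh_ss (x : PhL) : x - x = 0 := sub_self x

private theorem lsh_BZ_SS (m : ℕ) (x : PhL) (hx : ∀ i, x i ∈ YY m) :
    BZ (SS x) = x - SS (BZ x) := by
  refine Finsupp.ext fun i => ?_
  rw [Finsupp.sub_apply, lsh_BZ, lsh_SS, lsh_SS, lsh_BZ]
  exact eq_sub_of_add_eq (bz_ss m (x i) (hx i))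

private theorem lsh_zero (m : ℕ) (x : PhL) (hx : ∀ i, x i ∈ KK m) : BZ x = 0 := by
  refine Finsupp.ext fun i => ?_
  rw [lsh_BZ, Finsupp.zero_apply]
  exact (hx i).2

private theorem lsh_K (m : ℕ) (x : PhL) (hx : ∀ i, x i ∈ YY m) (h : BZ x = 0) :
    ∀ i, x i ∈ KK m := by
  intro i
  refine ⟨hx i, ?_⟩
  show bz (x i) = 0
  rw [← lsh_BZ, h, Finsupp.zero_apply]

private theorem lsh_BZK (m : ℕ) (v : PhL) (hv : ∀ i, v i ∈ YY (m + 1)) :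
    ∀ i, BZ v i ∈ KK m := by
  intro i
  rw [lsh_BZ]
  refine ⟨bz_YY m _ (hv i), ?_⟩
  show bz (bz (v i)) = 0
  exact bz_bz _

private theorem lsh_SSY (m : ℕ) (x : PhL) (hx : ∀ i, x i ∈ YY m) :
    ∀ i, SS x i ∈ YY (m + 1) := by
  intro i
  rw [lsh_SS]
  exact ss_YY m _ (hx i)

private theorem lsh_DLY (m : ℕ) (x : PhL) (hx : ∀ i, x i ∈ YY m) :
    ∀ i, DL x i ∈ YY m :=
  DL_mem (YY m) (act_YY m) x hx

private theorem lsh_BZBZ (x : PhL) : BZ (BZ x) = 0 := by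
  refine Finsupp.ext fun i => ?_
  rw [lsh_BZ, lsh_BZ, Finsupp.zero_apply]
  exact bz_bz _

theorem dlt_Z (m r n k : ℕ) (x : PhL) (hx : x ∈ ZL m (r + 1) n k) :
    dlt x ∈ ZL (m + 1) r n k := by
  obtain ⟨h1, h2, h3⟩ := hx
  have hY : ∀ i, x i ∈ YY m := fun i => (h2 i).1
  refine ⟨DL_IsHL _ _ _ _ (IsHL_SS _ _ _ _ h1), lsh_K _ _ (lsh_DLY _ _ (lsh_SSY _ _ hY)) ?_,
    DL_DL _⟩
  show BZ (DL (SS x)) = 0
  rw [BZ_DL, lsh_BZ_SS m x hY, lsh_zero m x h2, map_zero, lsh_s0, h3]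

theorem dlt_B (m r n k : ℕ) (x : PhL) (hx : x ∈ BL m (r + 1) n k) :
    dlt x ∈ BL (m + 1) r n k := by
  obtain ⟨y, h1, h2, rfl⟩ := hx
  have hY : ∀ i, y i ∈ YY m := fun i => (h2 i).1
  refine ⟨SS (DL y) - DL (SS y), ?_, ?_, ?_⟩
  · exact IsHL_sub _ _ _ _ _ (IsHL_SS _ _ _ _ (DL_IsHL _ _ _ _ h1))
      (DL_IsHL _ _ _ _ (IsHL_SS _ _ _ _ h1))
  · refine lsh_K _ _ (fun i => ?_) ?_
    · rw [Finsupp.sub_apply]
      exact Submodule.sub_mem _ (lsh_SSY _ _ (lsh_DLY _ _ hY) i)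
        (lsh_DLY _ _ (lsh_SSY _ _ hY) i)
    · rw [lsh_BZs, lsh_BZ_SS m (DL y) (lsh_DLY _ _ hY), BZ_DL, BZ_DL, lsh_BZ_SS m y hY,
        lsh_zero m y h2, map_zero, map_zero, lsh_s0, lsh_s0, lsh_ss]
  · show DL (SS (DL y) - DL (SS y)) = DL (SS (DL y))
    rw [lsh_DLs, DL_DL, lsh_s0]

theorem dlt_inj (m r n k : ℕ) (h : YAc m (r + 1) n k) (x : PhL) (hx : x ∈ ZL m (r + 1) n k)
    (hd : dlt x ∈ BL (m + 1) r n k) : x ∈ BL m (r + 1) n k := by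
  obtain ⟨h1, h2, h3⟩ := hx
  obtain ⟨u, hu1, hu2, hu3⟩ := hd
  have hY : ∀ i, x i ∈ YY m := fun i => (h2 i).1
  obtain ⟨v, hv1, hv2, hv3⟩ := h (SS x - u) (IsHL_sub _ _ _ _ _ (IsHL_SS _ _ _ _ h1) hu1)
    (fun i => by
      rw [Finsupp.sub_apply]
      exact Submodule.sub_mem _ (lsh_SSY _ _ hY i) (hu2 i).1)
    (by
      rw [lsh_DLs, hu3]
      exact lsh_ss (dlt x))
  refine ⟨BZ v, IsHL_BZ _ _ _ _ hv1, lsh_BZK _ _ hv2, ?_⟩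
  rw [← BZ_DL, hv3, lsh_BZs, lsh_BZ_SS m x hY, lsh_zero m x h2, lsh_zero (m + 1) u hu2, map_zero,
    lsh_s0, lsh_s0]

theorem dlt_surj (m r n k : ℕ) (x' : PhL) (hx' : x' ∈ ZL (m + 1) r n k) (v : PhL)
    (hv : IsHL (r + 1) n k v) (hvY : ∀ i, v i ∈ YY (m + 1)) (hd : DL v = x') :
    ∃ x ∈ ZL m (r + 1) n k, x' - dlt x ∈ BL (m + 1) r n k := by
  have hK := lsh_BZK m v hvY
  have hKY : ∀ i, BZ v i ∈ YY m := fun i => (hK i).1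
  have hB : IsHL (r + 1) n k (SS (BZ v)) := IsHL_SS _ _ _ _ (IsHL_BZ _ _ _ _ hv)
  refine ⟨BZ v, ⟨IsHL_BZ _ _ _ _ hv, hK, ?_⟩, v - SS (BZ v), ?_, ?_, ?_⟩
  · rw [← BZ_DL, hd]
    exact lsh_zero (m + 1) x' hx'.2.1
  · exact IsHL_sub _ _ _ _ _ hv hB
  · refine lsh_K _ _ (fun i => ?_) ?_
    · rw [Finsupp.sub_apply]
      exact Submodule.sub_mem _ (hvY i) (lsh_SSY _ _ hKY i)
    · rw [lsh_BZs, lsh_BZ_SS m (BZ v) hKY, lsh_BZBZ, map_zero, lsh_s0, lsh_ss]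
  · rw [lsh_DLs, hd]
    rfl

end BrV
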