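import Pool.Agent.Lib.BrV.LTail
import Pool.Agent.Lib.BrV.LExP
import Pool.Agent.Lib.BrV.LPur

/-!
# BrV.LYac: acyclicity of `Φ(YY (m+1))` (paper 3, (2.7))

`T = TT m ⊓ {all lists have nzW = k}` is stable under `eA a` (`act_TT`, `act0_supp`, `nz (pw a) = 0`), `eA 0 = 1` on `T` (`act_one`), and for `m ≥ 1` `eA 1` is exact on `T` (`TT_ex`; `pw 1 = [true]`).
* `split`: `x1 = tL k x`, `x2 = x - tL k x`: lists of `x` have `nzW q.tail ≤ k` (`IsHL`), so those of `x2` have `nzW q.tail = k`; `DL x = 0` gives `DL x1 = tL k (DL x) = 0` (`tL_DL`).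
* `YAc_zero` (`m = 0`): tails are empty, `nzW [] = 0 < k`: `tail_ac`.
* `YAc_pos`: `x = x1 + x2`; `tail_ac` for `x1`; `x2 = pur u` (`pur_of`), `pur (bd eA u) = DL x2 = 0`, so `bd eA u = 0` (`pur_inj`), `bar_exact_sub` gives `u = bd eA w`, `x2 = DL (pur w)` (`DL_pur`), take the component `cmpL (r+1) n k (pur w)` (`cmpL_DL`, `cmpL_of`, `cmpL_YY`).
-/

namespace BrV

open Finsupp

/-- the submodule `T` -/
noncomputable def Tk (m k : ℕ) : Submodule ℝ CW := TT m ⊓ supported ℝ ℝ {q | nzW q = k}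

theorem Tk_mem (m k : ℕ) (v : CW) : v ∈ Tk m k ↔ v ∈ TT m ∧ ∀ q, v q ≠ 0 → nzW q = k := by
  unfold Tk
  rw [Submodule.mem_inf, Finsupp.mem_supported]
  constructor
  · rintro ⟨h1, h2⟩
    refine ⟨h1, fun q hq => ?_⟩
    exact h2 (Finset.mem_coe.2 (Finsupp.mem_support_iff.2 hq))
  · rintro ⟨h1, h2⟩
    refine ⟨h1, fun q hq => ?_⟩
    exact h2 q (Finsupp.mem_support_iff.1 (Finset.mem_coe.1 hq))

private theorem YY_mem (m : ℕ) (y : CW) : y ∈ YY m ↔ ∀ q, y q ≠ 0 →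
    q.length = m ∧ (∀ w ∈ q, w = [] ∨ Zw w) ∧ ∀ w ∈ q.tail, Zw w := by
  unfold YY
  rw [Finsupp.mem_supported]
  constructor
  · intro h q hq
    exact h (Finset.mem_coe.2 (Finsupp.mem_support_iff.2 hq))
  · intro h q hq
    exact h q (Finsupp.mem_support_iff.1 (Finset.mem_coe.1 hq))

private theorem bw_ne {w v : Wd} (h : bw w v ≠ 0) : v = w := by
  unfold bw at h
  rw [Finsupp.single_apply] at h
  by_contra hne
  exact h (if_neg fun h' => hne h'.symm)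

private theorem nzW_tail (q : LW) : nzW q.tail ≤ nzW q := by
  cases q with
  | nil => exact le_refl _
  | cons w l =>
    unfold nzW
    simp

theorem Tk_act (m k a : ℕ) (v : CW) (hv : v ∈ Tk m k) : eA a v ∈ Tk m k := by
  rw [Tk_mem] at hv ⊢
  refine ⟨act_TT m _ v hv.1, fun q hq => ?_⟩
  obtain ⟨u, l, h1, h2, h3⟩ := act_supp (bw (pw a)) v q hq
  have h4 := bw_ne h1
  have h5 := (act0_supp l u q h3).2.2.1
  rw [h5, h4, nz_pw, hv.2 l h2, zero_add]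

theorem Tk_one (m k : ℕ) (v : CW) (hv : v ∈ Tk m k) : eA 0 v = v := by
  rw [Tk_mem] at hv
  exact act_one m v (TT_le_YY m hv.1)

theorem Tk_ex (m k : ℕ) (v : CW) (hv : v ∈ Tk (m + 1) k) (h : eA 1 v = 0) :
    ∃ w ∈ Tk (m + 1) k, v = eA 1 w := by
  rw [Tk_mem] at hv
  obtain ⟨w, hw1, hw2, hw3⟩ := TT_ex m k v hv.1 hv.2 h
  exact ⟨w, (Tk_mem _ _ _).2 ⟨hw1, hw2⟩, hw3⟩

theorem split (m r n k : ℕ) (x : PhL) (hx : IsHL r n k x) (hY : ∀ i, x i ∈ YY (m + 1)) :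
    (IsHL r n k (tL k x) ∧ (∀ i, tL k x i ∈ YY (m + 1)) ∧
      ∀ i q, tL k x i q ≠ 0 → nzW q.tail < k) ∧
    (IsHL r n k (x - tL k x) ∧ (∀ i, (x - tL k x) i ∈ YY (m + 1)) ∧
      ∀ i q, (x - tL k x) i q ≠ 0 → nzW q.tail = k) := by
  have hYt : ∀ i, tL k x i ∈ YY (m + 1) := by
    intro i
    rw [YY_mem]
    intro q hq
    rw [tL_apply] at hq
    split_ifs at hq with hlt
    · exact (YY_mem _ _).1 (hY i) q hq
    · exact absurd rfl hq
  refine ⟨⟨IsHL_tL r n k k x hx, hYt, fun i q hq => ?_⟩,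
    ⟨IsHL_sub r n k _ _ hx (IsHL_tL r n k k x hx), fun i => ?_, fun i q hq => ?_⟩⟩
  · rw [tL_apply] at hq
    split_ifs at hq with hlt
    · exact hlt
    · exact absurd rfl hq
  · rw [Finsupp.sub_apply]
    exact Submodule.sub_mem _ (hY i) (hYt i)
  · rw [Finsupp.sub_apply, Finsupp.sub_apply, tL_apply] at hq
    split_ifs at hq with hlt
    · exact absurd (sub_self _) hq
    · rw [sub_zero] at hq
      have h1 := (hx i q hq).2.2
      have h2 := nzW_tail q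
      omega

theorem YAc_zero (r n k : ℕ) (hk : 1 ≤ k) : YAc 0 r n k := by
  intro x hx hY hd
  obtain ⟨y, h1, h2, _, h4⟩ := tail_ac 0 r n k x hx hY (fun i q hq => by
    have h := ((YY_mem _ _).1 (hY i) q hq).1
    obtain ⟨w, rfl⟩ := List.length_eq_one_iff.1 h
    show nzW [] < k
    have h0 : nzW [] = 0 := rfl
    rw [h0]
    omega) hd
  exact ⟨y, h1, h2, h4⟩

theorem YAc_pos (m r n k : ℕ) (hr : 2 ≤ r) : YAc (m + 1) r n k := by
  intro x hx hY hd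
  obtain ⟨⟨a1, a2, a3⟩, ⟨b1, b2, b3⟩⟩ := split (m + 1) r n k x hx hY
  have hd1 : DL (tL k x) = 0 := by
    rw [← tL_DL, hd, map_zero]
  have hd2 : DL (x - tL k x) = 0 := by
    have h0 : DL ((x - tL k x) + tL k x) = DL (x - tL k x) + DL (tL k x) := map_add _ _ _
    have h1 : (x - tL k x) + tL k x = x := by
      ext i q
      rw [Finsupp.add_apply, Finsupp.add_apply, Finsupp.sub_apply, Finsupp.sub_apply]
      ring
    rw [h1, hd, hd1] at h0
    ext i q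
    have h2 := DFunLike.congr_fun (DFunLike.congr_fun h0 i) q
    rw [Finsupp.add_apply, Finsupp.add_apply] at h2
    simpa using h2.symm
  obtain ⟨y1, c1, c2, _, c4⟩ := tail_ac (m + 1) r n k (tL k x) a1 a2 a3 hd1
  obtain ⟨u, e1, e2, e3, e4⟩ := pur_of (m + 1) r n k (x - tL k x) b1 b2 b3
  have hbd : bd eA u = 0 := by
    apply pur_inj
    rw [← DL_pur (m + 1) u e2, e1, hd2]
    unfold pur
    rw [map_zero]
  obtain ⟨w, f1, f2, f3⟩ := bar_exact_sub eA (Tk (m + 1) k) (fun a v hv => Tk_act _ _ a v hv)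
    (fun v hv => Tk_one _ _ v hv) eA_pw (fun v hv h => Tk_ex m k v hv h) r hr u e4
    (fun l => (Tk_mem _ _ _).2 ⟨e2 l, e3 l⟩) hbd
  have hwT : ∀ l, w l ∈ TT (m + 1) := fun l => ((Tk_mem _ _ _).1 (f2 l)).1
  refine ⟨y1 + cmpL (r + 1) n k (pur w), IsHL_add _ _ _ _ _ c1 (cmpL_IsHL _ _ _ _),
    fun i => ?_, ?_⟩
  · rw [Finsupp.add_apply]
    exact Submodule.add_mem _ (c2 i) (cmpL_YY _ _ _ _ _ (fun j => pur_YY (m + 1) w hwT j) i)
  · rw [map_add, c4, ← cmpL_DL, DL_pur (m + 1) w hwT, f3, e1, cmpL_of r n k _ b1]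
    ext i q
    rw [Finsupp.add_apply, Finsupp.add_apply, Finsupp.sub_apply, Finsupp.sub_apply]
    ring

end BrV
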