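import Pool.Agent.Lib.BrV.OBar

/-!
# BrV.OFil: chain condition for the total complex (paper 4, section 6)

`1 ≤ k`.  `ZU M r k L`, `BU M r k L`: cycles and boundaries with lists of at most `M` words.
* `ZU_sta`, `BU_sta`: `CU_yU`, `yU_dU`, `CU_low`.  `BU_le`: `CU_dU`, `dU_dU`.
* `art_tot`, induction on `M`.  `M = 0`: `CU 0 r n k = ⊥` (`q = []`, `nzW q = 0 < k`): `art_triv`.
  `M → M + 1`: `C L := ZU M r k L ⊔ BU (M+1) r k L`.  `art_ext`: `Sta yU k C`; `BU (M+1) ≤ C ≤ ZU (M+1)` (`CU_mono`).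
  `Art C (BU (M+1))`: `art_surj` with `f = id` from `Art (ZU M) (BU M)` (`BU M ≤ BU (M+1)`).
  `Art (ZU (M+1)) C`: `art_inj` with `f = top`, `top u` = the part of `u` with `q.length = M + 1`, into `(ZB (M+1) r k, BB (M+1) r k)` (`art_bar`, `BB_sta`).  `top (dU w) = bd eA (top w)` for `w ∈ CU (M+1) (r+1) n k` (`bd eA` preserves the length of the lists, `bz` lowers it by one);
  `top (yU j u) = yU j (top u)` (`yW_supp`).  If `top u = bd eA b`, `b ∈ CB (M+1) (r+1)`: `b ∈ CU (M+1) (r+1)` (`CB_le`), `u - dU b` has `top = 0` (`top b = b`), so it is in `ZU M r k L`; `u ∈ C`.  Conversely `top` of `z + dU w` is `bd eA (top w) ∈ BB`.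
-/

namespace BrV

open Finsupp

theorem ZU_sta (M r k N : ℕ) : Sta (V := UL) yU N (ZU M r k) := by
  intro j _ _
  refine ⟨fun L v hv => ?_, fun L hL v hv => ?_⟩
  · obtain ⟨h1, h2⟩ := Submodule.mem_inf.1 hv
    refine Submodule.mem_inf.2 ⟨?_, ?_⟩
    · refine CU_yU M r (2 * L) k j v ?_
      rw [← Nat.mul_add]
      exact h1
    · rw [LinearMap.mem_ker] at h2 ⊢
      rw [← yU_dU, h2, map_zero]
  · obtain ⟨h1, h2⟩ := Submodule.mem_inf.1 hv
    exact CU_low M r (2 * L) k j v h1 (by omega)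

theorem BU_sta (M r k N : ℕ) : Sta (V := UL) yU N (BU M r k) := by
  intro j _ _
  refine ⟨fun L v hv => ?_, fun L hL v hv => ?_⟩
  · obtain ⟨w, hw, rfl⟩ := Submodule.mem_map.1 hv
    refine Submodule.mem_map.2 ⟨yU j w, ?_, ?_⟩
    · refine CU_yU M (r + 1) (2 * L) k j w ?_
      rw [← Nat.mul_add]
      exact hw
    · exact (yU_dU j w).symm
  · obtain ⟨w, hw, rfl⟩ := Submodule.mem_map.1 hv
    rw [yU_dU, CU_low M (r + 1) (2 * L) k j w hw (by omega), map_zero]

theorem BU_le (M r k L : ℕ) : BU M r k L ≤ ZU M r k L := by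
  intro v hv
  obtain ⟨w, hw, rfl⟩ := Submodule.mem_map.1 hv
  exact Submodule.mem_inf.2 ⟨CU_dU M r (2 * L) k w hw, LinearMap.mem_ker.2 (dU_dU w)⟩

private lemma ofil_neg (a b : UL) : a - b = a + (-1 : ℝ) • b := by
  ext s q
  show a s q - b s q = a s q + (-1 : ℝ) * b s q
  ring

private lemma ofil_sub (X : Submodule ℝ UL) (a b : UL) (ha : a ∈ X) (hb : b ∈ X) : a - b ∈ X := by
  rw [ofil_neg]
  exact X.add_mem ha (X.smul_mem _ hb)

private lemma ofil_msub (f : UL →ₗ[ℝ] UL) (a b : UL) : f (a - b) = f a - f b := by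
  rw [ofil_neg a b, ofil_neg (f a) (f b), f.map_add, f.map_smul]

private lemma ofil_zadd (a : UL) : (0 : UL) + a = a := by
  ext s q
  show (0 : ℝ) + a s q = a s q
  ring

private lemma ofil_subz (a : UL) : a - (0 : UL) = a := by
  ext s q
  show a s q - (0 : ℝ) = a s q
  ring

private lemma ofil_subs (a : UL) : a - a = (0 : UL) := by
  ext s q
  show a s q - a s q = (0 : ℝ)
  ring

private lemma ofil_suba (a b : UL) : (a - b) + b = a := by
  ext s q
  show a s q - b s q + b s q = a s q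
  ring

/-- the part of the lists of length `m` -/
private noncomputable def ofilF (m : ℕ) : CW →ₗ[ℝ] CW where
  toFun y := y.filter fun q => q.length = m
  map_add' _ _ := filter_add
  map_smul' _ _ := filter_smul

private lemma ofilF_apply (m : ℕ) (y : CW) (q : LW) :
    ofilF m y q = if q.length = m then y q else 0 := by
  show (y.filter fun q => q.length = m) q = _
  rw [filter_apply]

private lemma ofilF_single (m : ℕ) (l : LW) (t : ℝ) :
    ofilF m (single l t) = if l.length = m then single l t else 0 := by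
  ext q
  rw [ofilF_apply]
  by_cases hq : q = l
  · subst hq
    split_ifs <;> rfl
  · rw [Finsupp.single_eq_of_ne hq, ite_self]
    split_ifs
    · rw [Finsupp.single_eq_of_ne hq]
    · rfl

private lemma ofilF_comm (m : ℕ) (ψ : CW →ₗ[ℝ] CW)
    (h : ∀ l q : LW, ψ (single l 1) q ≠ 0 → q.length = l.length) (y : CW) :
    ofilF m (ψ y) = ψ (ofilF m y) := by
  have h1 : (ofilF m).comp ψ = ψ.comp (ofilF m) := by
    ext l q
    show ofilF m (ψ (single l 1)) q = ψ (ofilF m (single l 1)) q
    rw [ofilF_single, ofilF_apply]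
    by_cases hl : l.length = m
    · rw [if_pos hl]
      split_ifs with hq
      · rfl
      · by_contra hc
        exact hq ((h l q (fun h' => hc h'.symm)).trans hl)
    · rw [if_neg hl, map_zero]
      split_ifs with hq
      · by_contra hc
        exact hl ((h l q hc).symm.trans hq)
      · rfl
  exact DFunLike.congr_fun h1 y

private lemma ofil_eA (a : ℕ) (l q : LW) (h : eA a (single l 1) q ≠ 0) : q.length = l.length := by
  obtain ⟨v, l', _, hl', h0⟩ := act_supp _ _ _ h
  have h1 : l' = l := by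
    by_contra hc
    exact hl' (Finsupp.single_eq_of_ne hc)
  subst h1
  exact (act0_supp _ _ _ h0).1

private lemma ofil_yW (j : ℕ) (l q : LW) (h : yW j (single l 1) q ≠ 0) : q.length = l.length := by
  obtain ⟨l', hl', h0, _⟩ := yW_supp _ _ _ h
  have h1 : l' = l := by
    by_contra hc
    exact hl' (Finsupp.single_eq_of_ne hc)
  subst h1
  exact h0

private lemma ofil_bds {N : Type} [AddCommGroup N] [Module ℝ N] (e : ℕ → N →ₗ[ℝ] N)
    (s : List ℕ) (v : N) : bd e (single s v) = bd0 e s v := by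
  unfold bd
  rw [Finsupp.lsum_single]
  rfl

private lemma ofil_bd {N : Type} [AddCommGroup N] [Module ℝ N] (e : ℕ → N →ₗ[ℝ] N)
    (φ : N →ₗ[ℝ] N) (h : ∀ a v, φ (e a v) = e a (φ v)) (u : List ℕ →₀ N) :
    mapRange.linearMap φ (bd e u) = bd e (mapRange.linearMap φ u) := by
  have h1 : (mapRange.linearMap φ).comp (bd e) = (bd e).comp (mapRange.linearMap φ) := by
    refine Finsupp.lhom_ext fun s v => ?_
    show mapRange.linearMap φ (bd e (single s v)) = bd e (mapRange.linearMap φ (single s v))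
    rw [mapRange.linearMap_apply, mapRange.linearMap_apply, mapRange_single, ofil_bds, ofil_bds]
    cases s with
    | nil =>
      show mapRange φ _ 0 = 0
      rw [mapRange_zero]
    | cons a l =>
      ext j
      rw [mapRange_apply]
      show φ ((single l (e (a + 1) v) - (mgN (a :: l)).mapRange (fun t => t • v) (zero_smul _ _)) j)
        = (single l (e (a + 1) (φ v)) -
          (mgN (a :: l)).mapRange (fun t => t • φ v) (zero_smul _ _)) j
      rw [Finsupp.sub_apply, Finsupp.sub_apply, mapRange_apply, mapRange_apply, map_sub, map_smul]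
      congr 1
      by_cases hj : j = l
      · subst hj
        rw [Finsupp.single_eq_same, Finsupp.single_eq_same, h]
      · rw [Finsupp.single_eq_of_ne hj, Finsupp.single_eq_of_ne hj, map_zero]
  exact DFunLike.congr_fun h1 u

/-- the part of the lists of length `m` in the complex -/
private noncomputable def ofilT (m : ℕ) : UL →ₗ[ℝ] UL := mapRange.linearMap (ofilF m)

private lemma ofilT_apply (m : ℕ) (u : UL) (s : List ℕ) (q : LW) :
    ofilT m u s q = if q.length = m then u s q else 0 := by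
  show (mapRange.linearMap (ofilF m) u) s q = _
  rw [mapRange.linearMap_apply, mapRange_apply, ofilF_apply]

private lemma ofilT_bd (m : ℕ) (u : UL) : ofilT m (bd eA u) = bd eA (ofilT m u) :=
  ofil_bd eA (ofilF m) (fun a v => ofilF_comm m (eA a) (fun l q h => ofil_eA a l q h) v) u

private lemma ofilT_yU (m j : ℕ) (u : UL) : ofilT m (yU j u) = yU j (ofilT m u) := by
  ext s q
  show (mapRange.linearMap (ofilF m) (mapRange.linearMap (yW j) u)) s q =
    (mapRange.linearMap (yW j) (mapRange.linearMap (ofilF m) u)) s q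
  rw [mapRange.linearMap_apply, mapRange.linearMap_apply, mapRange.linearMap_apply,
    mapRange.linearMap_apply, mapRange_apply, mapRange_apply, mapRange_apply, mapRange_apply,
    ofilF_comm m (yW j) (fun l q h => ofil_yW j l q h)]

private lemma ofil_bz (m : ℕ) (y : CW) (h : ∀ q, y q ≠ 0 → q.length ≤ m ∧ ∀ w ∈ q, Zw w) (q : LW)
    (hq : bz y q ≠ 0) : q.length ≠ m := by
  have h1 : y = ∑ l ∈ y.support, y l • single l (1 : ℝ) := by
    conv_lhs => rw [← Finsupp.sum_single y]
    refine Finset.sum_congr rfl fun l _ => ?_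
    rw [Finsupp.smul_single, smul_eq_mul, mul_one]
  rw [h1, map_sum, Finsupp.finsetSum_apply] at hq
  obtain ⟨l, hl, hlq⟩ := Finset.exists_ne_zero_of_sum_ne_zero hq
  obtain ⟨h2, h3⟩ := h l (Finsupp.mem_support_iff.1 hl)
  rw [map_smul, Finsupp.smul_apply, smul_eq_mul] at hlq
  have h4 : bz (single l 1) q ≠ 0 := right_ne_zero_of_mul hlq
  cases l with
  | nil =>
    exfalso
    apply h4
    have h5 : bz (single ([] : LW) 1) = 0 := by
      show Finsupp.lift CW ℝ LW bz0 (single [] 1) = 0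
      rw [Finsupp.lift_apply, Finsupp.sum_single_index]
      · show (1 : ℝ) • (0 : CW) = 0
        rw [smul_zero]
      · rw [zero_smul]
    rw [h5, Finsupp.zero_apply]
  | cons w l =>
    have h5 : (single (w :: l) (1 : ℝ) : CW) ∈ TT (l.length + 1) := by
      unfold TT
      rw [Finsupp.mem_supported']
      intro q' hq'
      refine Finsupp.single_eq_of_ne fun hc => hq' ?_
      rw [hc]
      exact ⟨rfl, h3⟩
    have h6 := bz_TT l.length _ h5
    unfold TT at h6
    rw [Finsupp.mem_supported'] at h6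
    have h7 : q ∈ {q : LW | q.length = l.length ∧ ∀ w ∈ q, Zw w} := by
      by_contra hc
      exact h4 (h6 q hc)
    have h8 := h7.1
    have h9 : (w :: l).length = l.length + 1 := rfl
    omega

private lemma ofil_sgU (u : UL) (s : List ℕ) : sgU u s = ((-1 : ℝ) ^ s.length) • u s := by
  have h1 : sgU u = u.sum fun s y => single s (((-1 : ℝ) ^ s.length) • y) := by
    show Finsupp.lsum ℝ (fun s => ((-1 : ℝ) ^ s.length) • Finsupp.lsingle s) u = _
    rw [Finsupp.lsum_apply]
    refine Finsupp.sum_congr fun s _ => ?_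
    rw [LinearMap.smul_apply, Finsupp.lsingle_apply, Finsupp.smul_single]
  rw [h1, Finsupp.sum_apply]
  rw [Finsupp.sum, Finset.sum_eq_single s]
  · rw [Finsupp.single_eq_same]
  · intro s' _ hs'
    exact Finsupp.single_eq_of_ne (fun hc => hs' hc.symm)
  · intro hs
    rw [Finsupp.notMem_support_iff.1 hs, smul_zero, Finsupp.single_zero, Finsupp.zero_apply]

private lemma ofilT_dU (m r n k : ℕ) (u : UL) (hu : u ∈ CU m r n k) :
    ofilT m (dU u) = bd eA (ofilT m u) := by
  rw [← ofilT_bd]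
  have h1 : dU u = bd eA u - sgU (mapRange.linearMap bz u) := rfl
  have h2 : ofilT m (sgU (mapRange.linearMap bz u)) = 0 := by
    ext s q
    rw [ofilT_apply, Finsupp.zero_apply, Finsupp.zero_apply]
    split_ifs with hq
    · rw [ofil_sgU, Finsupp.smul_apply, smul_eq_mul, mapRange.linearMap_apply, mapRange_apply]
      by_contra hc
      exact ofil_bz m (u s) (fun q hq => ⟨hu.2 s q hq, (hu.1 s q hq).2.2.2⟩) q
        (right_ne_zero_of_mul hc) hq
    · rfl
  rw [h1, ofil_msub, h2, ofil_subz]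

private lemma ofilT_CB (m r n k : ℕ) (u : UL) (hu : u ∈ CU m r n k) : ofilT m u ∈ CB m r n k := by
  refine ⟨fun s q h => ?_, fun s q h => ?_⟩
  · rw [ofilT_apply] at h
    have h1 : q.length = m := by
      by_contra hc
      rw [if_neg hc] at h
      exact h rfl
    rw [if_pos h1] at h
    exact hu.1 s q h
  · rw [ofilT_apply] at h
    by_contra hc
    rw [if_neg hc] at h
    exact h rfl

private lemma ofilT_of_CB (m r n k : ℕ) (u : UL) (hu : u ∈ CB m r n k) : ofilT m u = u := by
  ext s q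
  rw [ofilT_apply]
  split_ifs with h
  · rfl
  · by_contra hc
    exact h (hu.2 s q (fun h' => hc h'.symm))

private lemma ofilT_low (M r n k : ℕ) (u : UL) (hu : u ∈ CU M r n k) : ofilT (M + 1) u = 0 := by
  ext s q
  rw [ofilT_apply]
  split_ifs with h
  · by_contra hc
    have h1 := hu.2 s q hc
    omega
  · rfl

private lemma ofilT_ker (M r n k : ℕ) (u : UL) (hu : u ∈ CU (M + 1) r n k)
    (h0 : ofilT (M + 1) u = 0) : u ∈ CU M r n k := by
  refine ⟨hu.1, fun s q h => ?_⟩
  have h1 := hu.2 s q h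
  by_contra hc
  have h2 : q.length = M + 1 := by omega
  apply h
  have h3 := ofilT_apply (M + 1) u s q
  rw [if_pos h2, h0] at h3
  exact h3.symm

private lemma ofil_bot (r n k : ℕ) (hk : 1 ≤ k) (u : UL) (hu : u ∈ CU 0 r n k) : u = 0 := by
  ext s q
  by_contra hc
  have h1 := hu.2 s q hc
  have h2 : q = [] := List.length_eq_zero_iff.1 (Nat.le_zero.1 h1)
  have h3 := (hu.1 s q hc).2.2.1
  rw [h2] at h3
  have h4 : nzW [] = 0 := rfl
  omega

private lemma ofil_sup (N : ℕ) (X X' : ℕ → Submodule ℝ UL) (h : Sta (V := UL) yU N X)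
    (h' : Sta (V := UL) yU N X') : Sta (V := UL) yU N (fun L => X L ⊔ X' L) := by
  intro j hj1 hj2
  obtain ⟨h1, h2⟩ := h j hj1 hj2
  obtain ⟨h3, h4⟩ := h' j hj1 hj2
  refine ⟨fun L v hv => ?_, fun L hL v hv => ?_⟩
  · obtain ⟨a, ha, b, hb, rfl⟩ := Submodule.mem_sup.1 hv
    rw [map_add]
    exact Submodule.add_mem_sup (h1 L a ha) (h3 L b hb)
  · obtain ⟨a, ha, b, hb, rfl⟩ := Submodule.mem_sup.1 hv
    rw [map_add, h2 L hL a ha, h4 L hL b hb, ofil_zadd]

private lemma ofil_ZU (M r k L : ℕ) : ZU M r k L ≤ ZU (M + 1) r k L := by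
  intro v hv
  obtain ⟨h1, h2⟩ := Submodule.mem_inf.1 hv
  exact Submodule.mem_inf.2 ⟨CU_mono M (M + 1) r (2 * L) k (Nat.le_succ M) h1, h2⟩

private lemma ofil_BU (M r k L : ℕ) : BU M r k L ≤ BU (M + 1) r k L :=
  Submodule.map_mono (CU_mono M (M + 1) (r + 1) (2 * L) k (Nat.le_succ M))

private lemma ofil_iff (M r k L : ℕ) (v : UL) (hv : v ∈ ZU (M + 1) r k L) :
    ofilT (M + 1) v ∈ BB (M + 1) r k L ↔ v ∈ ZU M r k L ⊔ BU (M + 1) r k L := by
  constructor
  · intro h
    obtain ⟨b, hb, hbv⟩ := Submodule.mem_map.1 h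
    have hb' : b ∈ CU (M + 1) (r + 1) (2 * L) k := CB_le (M + 1) (r + 1) (2 * L) k hb
    have h1 : dU b ∈ BU (M + 1) r k L := Submodule.mem_map.2 ⟨b, hb', rfl⟩
    have h2 : dU b ∈ ZU (M + 1) r k L := BU_le (M + 1) r k L h1
    have h3 : v - dU b ∈ ZU (M + 1) r k L := ofil_sub _ _ _ hv h2
    have h4 : ofilT (M + 1) (v - dU b) = 0 := by
      rw [ofil_msub, ofilT_dU (M + 1) (r + 1) (2 * L) k b hb',
        ofilT_of_CB (M + 1) (r + 1) (2 * L) k b hb, ← hbv, ofil_subs]
    obtain ⟨h5, h6⟩ := Submodule.mem_inf.1 h3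
    have h7 : v - dU b ∈ ZU M r k L :=
      Submodule.mem_inf.2 ⟨ofilT_ker M r (2 * L) k _ h5 h4, h6⟩
    have h8 : v = (v - dU b) + dU b := (ofil_suba v (dU b)).symm
    rw [h8]
    exact Submodule.add_mem_sup h7 h1
  · intro h
    obtain ⟨z, hz, b, hb, rfl⟩ := Submodule.mem_sup.1 h
    obtain ⟨w, hw, rfl⟩ := Submodule.mem_map.1 hb
    have h1 : ofilT (M + 1) (z + dU w) = bd eA (ofilT (M + 1) w) := by
      rw [map_add, ofilT_low M r (2 * L) k z (Submodule.mem_inf.1 hz).1,
        ofilT_dU (M + 1) (r + 1) (2 * L) k w hw, ofil_zadd]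
    rw [h1]
    exact Submodule.mem_map.2 ⟨ofilT (M + 1) w, ofilT_CB (M + 1) (r + 1) (2 * L) k w hw, rfl⟩

theorem art_tot (M r k : ℕ) (hk : 1 ≤ k) : Art (V := UL) yU k (ZU M r k) (BU M r k) := by
  induction M with
  | zero =>
    refine art_triv (V := UL) yU k (ZU 0 r k) (BU 0 r k) fun L v hv => ?_
    rw [ofil_bot r (2 * L) k hk v (Submodule.mem_inf.1 hv).1]
    exact Submodule.zero_mem _
  | succ M ih =>
    refine art_ext (V := UL) yU k (ZU (M + 1) r k) (fun L => ZU M r k L ⊔ BU (M + 1) r k L)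
      (BU (M + 1) r k) ?_ ?_ ?_ ?_ ?_
    · exact ofil_sup k (ZU M r k) (BU (M + 1) r k) (ZU_sta M r k k) (BU_sta (M + 1) r k k)
    · intro L
      exact le_sup_right
    · intro L
      exact sup_le (ofil_ZU M r k L) (BU_le (M + 1) r k L)
    · refine art_surj (V := UL) (V' := UL) yU yU k (ZU M r k) (BU M r k)
        (fun L => ZU M r k L ⊔ BU (M + 1) r k L) (BU (M + 1) r k) LinearMap.id
        (fun j L v _ => rfl) ?_ ?_ (ZU_sta M r k k) (BU_le M r k) ih
      · intro L v hv
        exact ofil_BU M r k L hv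
      · intro L v' hv'
        obtain ⟨z, hz, b, hb, rfl⟩ := Submodule.mem_sup.1 hv'
        refine ⟨z, hz, ?_⟩
        have h1 : z + b - z = b := by
          ext s q
          show z s q + b s q - z s q = b s q
          ring
        show z + b - z ∈ BU (M + 1) r k L
        rw [h1]
        exact hb
    · refine art_inj (V := UL) (V' := UL) yU yU k (ZU (M + 1) r k)
        (fun L => ZU M r k L ⊔ BU (M + 1) r k L) (ZB (M + 1) r k) (BB (M + 1) r k)
        (ofilT (M + 1)) (fun j L v _ => ofilT_yU (M + 1) j v) ?_ ?_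
        (BB_sta (M + 1) r k k) (BB_le (M + 1) r k) (art_bar (M + 1) r k hk)
      · intro L v hv
        obtain ⟨h1, h2⟩ := Submodule.mem_inf.1 hv
        refine Submodule.mem_inf.2 ⟨ofilT_CB (M + 1) r (2 * L) k v h1, ?_⟩
        rw [LinearMap.mem_ker] at h2 ⊢
        rw [← ofilT_dU (M + 1) r (2 * L) k v h1, h2, map_zero]
      · intro L v hv
        exact ofil_iff M r k L v hv

end BrV
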