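import Pool.Agent.Lib.BrV.DHd
import Pool.Agent.Lib.BrV.OFil
import Pool.Agent.Lib.BrV.GHS

/-!
# BrV.MRat: the series of `H_r(Φ0)_(2L,k)` is rational (paper 4, section 7)

`hil_serre yU k (ZU k r k) (BU k r k)` with `ZU_sta`, `BU_sta`, `BU_le`, `CU_comm`, `art_tot`; then `HD_tot`.
-/

namespace BrV

theorem M_rat (r k : ℕ) (hk : 1 ≤ k) : ∃ (d : ℕ → ℕ) (P : Polynomial ℤ),
    (∀ L, HD (Z0 r (2 * L) k) (B0 r (2 * L) k) (d L)) ∧ Rat k P d := by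
  obtain ⟨d, P, h1, h2⟩ := hil_serre (V := UL) yU k (ZU k r k) (BU k r k) (ZU_sta k r k k)
    (BU_sta k r k k) (BU_le k r k)
    (fun i j L v hv => CU_comm k r (2 * L) k i j v (Submodule.mem_inf.1 hv).1)
    (art_tot k r k hk)
  exact ⟨d, P, fun L => (HD_tot r L k (d L) hk).2 (h1 L), h2⟩

end BrV
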