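import Pool.Agent.Lib.BrV.OGc
import Pool.Agent.Lib.BrV.LAct
import Pool.Agent.Lib.BrV.LBz

/-!
# BrV.OAct: `lamW` on combinations of lists of words (paper 4, section 1)

* `lamW_cb`: bilinear in `f, y`; for `f = bw w`, `y = single l 1`: `cb (bw w) (single l 1) = single (w :: l) 1` (`cb_bw`, `cns_single`), `lamW (single (w :: l) 1) = lamW0 (w :: l) = cb (lam0 w) (lamW0 l)`, `lam_bw`.
  (`cb f y` is determined by its values on the basis: `Finsupp.induction_linear` twice.)  `lamW_nil`: unfold.
* `lamW_act`: `CW_ind` on `y` (all `f`): `y = single [] 1`: `act_nil`, `lam_eps`.  `y = cb (bw u) y'`: with `N` large enough for both (`gc_bound` for `mu f (bw u)`; `gc j (mu (lam f) (lam (bw u))) = lam (gc j (mu f (bw u)))` by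
  `lam_mu`, `gc_lam`, so it is `0` for `j ≥ N`) `act_cb`: `act f (cb (bw u) y') = ∑_{j<N} cb (gc j (mu f (bw u))) (act (bw (pw j)) y')`; apply `lamW_cb`, the induction hypothesis for `bw (pw j)`, `lam_pw`, and `act_cb` backwards.
* `lamW_bz`: `CW_ind` twice or induction on lists: `bz (single [] 1) = 0`; `bz (cb f (single [] 1)) = f [] • single [] 1` (`bz_cb_nil`, `lam_eps`); `bz (cb f (cb g y)) = cb (mu f g) y - cb f (bz (cb g y))` (`bz_cb_cb`), `lam_mu`, `lamW_cb`.
* `lamW_supp`: induction on `l`: `lamW0 (w :: l) = cb (lam0 w) (lamW0 l)`, `cb_apply`, `cb_nil`, `lam_supp`, `lam_Zw`.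
-/

namespace BrV

open Finsupp

theorem lamW_single (l : LW) : lamW (single l 1) = lamW0 l := by
  simp [lamW]

private theorem oact_nil : lamW0 [] = single [] 1 := rfl

private theorem oact_cons (w : Wd) (l : LW) : lamW0 (w :: l) = cb (lam0 w) (lamW0 l) := rfl

private theorem oact_single (w : Wd) (l : LW) :
    (single (w :: l) 1 : CW) = cb (bw w) (single l 1) := by
  rw [cb_bw, cns_single]

theorem lamW_cb (f : R) (y : CW) : lamW (cb f y) = cb (lam f) (lamW y) := by
  induction f using Finsupp.induction_linear with
  | zero => simp only [map_zero, LinearMap.zero_apply]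
  | add f g hf hg => simp only [map_add, LinearMap.add_apply, hf, hg]
  | single w a =>
    have h1 : (single w a : R) = a • bw w := by rw [bw, smul_single_one]
    have key : lamW (cb (bw w) y) = cb (lam (bw w)) (lamW y) := by
      induction y using Finsupp.induction_linear with
      | zero => simp only [map_zero]
      | add x y hx hy => simp only [map_add, hx, hy]
      | single l b =>
        have h2 : lamW (cb (bw w) (single l 1)) = cb (lam (bw w)) (lamW (single l 1)) := by
          rw [← oact_single, lamW_single, lamW_single, lam_bw, oact_cons]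
        rw [← smul_single_one l b, map_smul, map_smul, map_smul, map_smul, h2]
    rw [h1, map_smul, LinearMap.smul_apply, map_smul, key, map_smul, map_smul,
      LinearMap.smul_apply]

theorem lamW_act (f : R) (y : CW) : lamW (act f y) = act (lam f) (lamW y) := by
  refine CW_ind (fun y => ∀ f : R, lamW (act f y) = act (lam f) (lamW y)) ?_ ?_ ?_ ?_ ?_ y f
  · intro f
    simp only [map_zero]
  · intro x y hx hy f
    simp only [map_add, hx, hy]
  · intro a x hx f
    simp only [map_smul, hx]
  · intro f
    rw [act_nil, map_smul, lamW_single, oact_nil, act_nil, lam_eps]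
  · intro u y ih f
    obtain ⟨N, hN⟩ := gc_bound (mu f (bw u))
    have hN' : ∀ j, N ≤ j → gc j (mu (lam f) (lam (bw u))) = 0 := by
      intro j hj
      rw [← lam_mu, gc_lam, hN j hj, map_zero]
    rw [act_cb f (bw u) y N hN, map_sum, lamW_cb, act_cb (lam f) (lam (bw u)) (lamW y) N hN']
    refine Finset.sum_congr rfl fun j _ => ?_
    rw [lamW_cb, ih, lam_pw, ← lam_mu, gc_lam]

private theorem oact_bz_nil : bz (single [] 1) = 0 := by
  simp [bz, bz0]

private theorem oact_bz_list (l : LW) : lamW (bz (single l 1)) = bz (lamW (single l 1)) := by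
  induction l with
  | nil => rw [lamW_single, oact_nil, oact_bz_nil, map_zero]
  | cons w l ih =>
    cases l with
    | nil =>
      rw [oact_single, bz_cb_nil, lamW_cb, map_smul, lamW_single, oact_nil, bz_cb_nil, lam_eps]
    | cons v l =>
      rw [oact_single v] at ih
      rw [oact_single w, oact_single v, bz_cb_cb, map_sub, lamW_cb, lamW_cb, ih, lamW_cb, lamW_cb,
        lamW_cb, bz_cb_cb, lam_mu]

theorem lamW_bz (y : CW) : lamW (bz y) = bz (lamW y) := by
  induction y using Finsupp.induction_linear with
  | zero => simp only [map_zero]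
  | add x y hx hy => simp only [map_add, hx, hy]
  | single l b =>
    rw [← smul_single_one l b, map_smul, map_smul, map_smul, map_smul, oact_bz_list]

theorem lamW_supp (l q : LW) (h : lamW0 l q ≠ 0) : q.length = l.length ∧ nzW q = nzW l ∧
    nzW q.tail = nzW l.tail ∧ (∃ j, npW q + 2 * j = npW l) ∧
    ((∀ w ∈ l, Zw w) → ∀ w ∈ q, Zw w) := by
  induction l generalizing q with
  | nil =>
    rw [oact_nil, single_apply] at h
    have hq : q = [] := by
      by_contra hc
      exact h (if_neg fun e => hc e.symm)
    subst hq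
    exact ⟨rfl, rfl, rfl, ⟨0, rfl⟩, fun h => h⟩
  | cons w l ih =>
    rw [oact_cons] at h
    cases q with
    | nil => exact absurd (cb_nil _ _) h
    | cons u q =>
      rw [cb_apply] at h
      have hu : lam0 w u ≠ 0 := left_ne_zero_of_mul h
      have hq : lamW0 l q ≠ 0 := right_ne_zero_of_mul h
      obtain ⟨h1, h2, -, ⟨j, hj⟩, h5⟩ := ih q hq
      obtain ⟨g1, ⟨i, hi⟩⟩ := lam_supp w u hu
      have e1 : nzW (u :: q) = nz u + nzW q := by simp [nzW]
      have e2 : nzW (w :: l) = nz w + nzW l := by simp [nzW]
      have e3 : npW (u :: q) = np u + npW q := by simp [npW]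
      have e4 : npW (w :: l) = np w + npW l := by simp [npW]
      refine ⟨?_, ?_, h2, ⟨i + j, ?_⟩, ?_⟩
      · rw [List.length_cons, List.length_cons, h1]
      · rw [e1, e2, g1, h2]
      · rw [e3, e4]
        omega
      · intro hZ v hv
        rcases List.mem_cons.1 hv with rfl | hv
        · exact lam_Zw w v (hZ w List.mem_cons_self) hu
        · exact h5 (fun x hx => hZ x (List.mem_cons_of_mem _ hx)) v hv

end BrV
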