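import Pool.Agent.Lib.BrV.ODef
import Pool.Agent.Lib.BrV.LGc
import Pool.Agent.Lib.BrV.LCb

/-!
# BrV.OX: the letters `x_a` span (paper 4, section 2)

`XX0 s`: `0` starts a new (empty) first word, `a + 1` replaces the first word `w` by `(w*p^a) z`.
* `XX_co1_zero`, `XX_co1_succ`: linear in `v`; `XX (single s 1) = XX0 s`.
* `apC_cb`: `apC a (cb f y) = cb (app false (mu f (bw (pw a)))) y`: bilinear; on `f = bw w`, `y = single l 1`.
* `XX_span1`: for a list `q` all of whose words are `[]` or end in `z` there is `v : MX` with `XX v = single q 1` and `v s ≠ 0 → nNo s = q.length ∧ nSo s = nzW q ∧ sSo s = npW q`.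
  Induction on `q` (for all lists), and for `q = w :: l` strong induction on `nz w` (for all `w` with this property).
  `q = []`: `v = single [] 1`.  `w = []`: `v = co1 0 v_l`.  `w = false :: A`: `bw A = ∑_{j<N} mu (gc j (bw A)) (bw (pw j))` (`gc_bound`, `gc_sum`), so
  `single q 1 = cb (app false (bw A)) (single l 1) = ∑_j apC j (cb (gc j (bw A)) (single l 1))`; by `gc_IsH` the words `w'` of `gc j (bw A)` have `np w' + j = np A`, `nz w' = nz A = nz w - 1`, and they are `[]` or end in `z` (`gc_mem`:
  `gc j (bw A) ∈ G' = ker (del true)`, `del_apply`); `cb g (single l 1) = ∑ g(w') single (w' :: l) 1` has a preimage `v_j` by induction (sum of the preimages), take `v = ∑_j co1 (j + 1) v_j` (`XX_co1_succ`).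
  (`nNo (0 :: s) = nNo s + 1`, `nSo ((a+1) :: s) = nSo s + 1`, `sSo ((a+1) :: s) = a + sSo s`.)
* `TF_le`: sum over the support of `t`.
-/

namespace BrV

open Finsupp

theorem XX_co1_zero (v : MX) : XX (co1 0 v) = cns [] (XX v) := by
  induction v using Finsupp.induction_linear with
  | zero => simp
  | add f g hf hg => rw [map_add, map_add, hf, hg, map_add, map_add]
  | single s a =>
    have h1 : co1 0 (single s a) = single (0 :: s) a := by
      simp [co1, Finsupp.lmapDomain_apply, Finsupp.mapDomain_single]
    rw [h1]
    simp [XX, XX0]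

theorem XX_co1_succ (a : ℕ) (v : MX) : XX (co1 (a + 1) v) = apC a (XX v) := by
  induction v using Finsupp.induction_linear with
  | zero => simp
  | add f g hf hg => rw [map_add, map_add, hf, hg, map_add, map_add]
  | single s b =>
    have h1 : co1 (a + 1) (single s b) = single ((a + 1) :: s) b := by
      simp [co1, Finsupp.lmapDomain_apply, Finsupp.mapDomain_single]
    rw [h1]
    simp [XX, XX0]

theorem apC_cb (a : ℕ) (f : R) (y : CW) :
    apC a (cb f y) = cb (app false (mu f (bw (pw a)))) y := by
  induction f using Finsupp.induction_linear with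
  | zero => simp
  | add f g hf hg =>
    rw [map_add, LinearMap.add_apply, map_add, hf, hg, map_add, LinearMap.add_apply, map_add,
      map_add, LinearMap.add_apply]
  | single u b =>
    have hu : (single u b : R) = b • bw u := by rw [bw, smul_single_one]
    have key : apC a (cb (bw u) y) = cb (app false (mu (bw u) (bw (pw a)))) y := by
      induction y using Finsupp.induction_linear with
      | zero => simp
      | add f g hf hg => rw [map_add, map_add, hf, hg, map_add]
      | single l c =>
        rw [← smul_single_one l c, map_smul, map_smul, map_smul]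
        congr 1
        rw [cb_bw, cns_single, cb_single]
        simp [apC]
    rw [hu, map_smul, LinearMap.smul_apply, map_smul, key, map_smul, LinearMap.smul_apply,
      map_smul, map_smul, LinearMap.smul_apply]

private theorem OX_co1_supp (o : ℕ) (v : MX) (s : List ℕ) (h : co1 o v s ≠ 0) :
    ∃ s', s = o :: s' ∧ v s' ≠ 0 := by
  classical
  have h1 : s ∈ (co1 o v).support := Finsupp.mem_support_iff.2 h
  have h2 : co1 o v = Finsupp.mapDomain (List.cons o) v := rfl
  rw [h2] at h1
  have h3 := Finsupp.mapDomain_support h1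
  rw [Finset.mem_image] at h3
  obtain ⟨s', h4, h5⟩ := h3
  exact ⟨s', h5.symm, Finsupp.mem_support_iff.1 h4⟩

private theorem OX_sum_supp {ι : Type} (t : Finset ι) (f : ι → MX) (s : List ℕ)
    (h : (∑ i ∈ t, f i) s ≠ 0) : ∃ i ∈ t, f i s ≠ 0 := by
  rw [Finsupp.finsetSum_apply] at h
  exact Finset.exists_ne_zero_of_sum_ne_zero h

private theorem OX_word (l : LW) (vl : MX) (h1 : XX vl = single l 1)
    (h2 : ∀ s, vl s ≠ 0 → nNo s = l.length ∧ nSo s = nzW l ∧ sSo s = npW l) (k : ℕ) :
    ∀ w : Wd, nz w = k → (w = [] ∨ Zw w) → ∃ v : MX, XX v = single (w :: l) 1 ∧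
      ∀ s, v s ≠ 0 → nNo s = l.length + 1 ∧ nSo s = nz w + nzW l ∧ sSo s = np w + npW l := by
  classical
  induction k using Nat.strong_induction_on with
  | _ k ih =>
    intro w hk hw
    rcases hw with hw | hw
    · subst hw
      refine ⟨co1 0 vl, ?_, ?_⟩
      · rw [XX_co1_zero, h1, cns_single]
      · intro s hs
        obtain ⟨s', rfl, hs'⟩ := OX_co1_supp 0 vl s hs
        obtain ⟨h3, h4, h5⟩ := h2 s' hs'
        refine ⟨?_, ?_, ?_⟩
        · rw [← h3]; simp [nNo]
        · rw [← h4]; simp [nSo, nz]
        · rw [← h5]; simp [sSo, np]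
    · cases w with
      | nil => simp [Zw] at hw
      | cons b A =>
        have hb : b = false := by simpa [Zw] using hw
        subst hb
        have hnz : nz (false :: A) = nz A + 1 := by simp [nz]
        have hnp : np (false :: A) = np A := by simp [np]
        obtain ⟨N, hN⟩ := gc_bound (bw A)
        have hH : ∀ j w', gc j (bw A) w' ≠ 0 → np w' + j = np A ∧ nz w' = nz A :=
          fun j w' h => gc_IsH _ _ _ _ (IsH_bw A) w' h
        have hZ : ∀ j w', gc j (bw A) w' ≠ 0 → w' = [] ∨ Zw w' := by
          intro j w' h
          cases w' with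
          | nil => exact Or.inl rfl
          | cons c u =>
            right
            cases c with
            | false => simp [Zw]
            | true =>
              exfalso
              apply h
              have h6 : del true (gc j (bw A)) = 0 := gc_mem j (bw A)
              rw [← del_apply, h6]
              rfl
        have hex : ∀ j w', ∃ v : MX, gc j (bw A) w' ≠ 0 → XX v = single (w' :: l) 1 ∧
            ∀ s, v s ≠ 0 → nNo s = l.length + 1 ∧ nSo s = nz w' + nzW l ∧
              sSo s = np w' + npW l := by
          intro j w'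
          by_cases h : gc j (bw A) w' = 0
          · exact ⟨0, fun h' => absurd h h'⟩
          · obtain ⟨v, hv⟩ := ih (nz w') (by rw [(hH j w' h).2]; omega) w' rfl (hZ j w' h)
            exact ⟨v, fun _ => hv⟩
        choose vv hvv using hex
        set V : ℕ → MX := fun j => ∑ w' ∈ (gc j (bw A)).support, gc j (bw A) w' • vv j w'
          with hV
        have hXV : ∀ j, XX (V j) = cb (gc j (bw A)) (single l 1) := by
          intro j
          rw [hV]
          simp only
          rw [map_sum]
          have h7 : gc j (bw A) = ∑ w' ∈ (gc j (bw A)).support, gc j (bw A) w' • bw w' := by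
            conv_lhs => rw [← Finsupp.sum_single (gc j (bw A))]
            rw [Finsupp.sum]
            refine Finset.sum_congr rfl fun w' _ => ?_
            exact (smul_single_one w' _).symm
          conv_rhs => rw [h7]
          rw [map_sum, LinearMap.sum_apply]
          refine Finset.sum_congr rfl fun w' hw' => ?_
          rw [map_smul, (hvv j w' (Finsupp.mem_support_iff.1 hw')).1, map_smul,
            LinearMap.smul_apply, cb_bw, cns_single]
        refine ⟨∑ j ∈ Finset.range N, co1 (j + 1) (V j), ?_, ?_⟩
        · rw [map_sum]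
          have h8 : ∀ j ∈ Finset.range N, XX (co1 (j + 1) (V j)) =
              cb (app false (mu (gc j (bw A)) (bw (pw j)))) (single l 1) := by
            intro j _
            rw [XX_co1_succ, hXV, apC_cb]
          rw [Finset.sum_congr rfl h8]
          have h9 : ∑ j ∈ Finset.range N, cb (app false (mu (gc j (bw A)) (bw (pw j))))
              (single l 1) = cb (app false (∑ j ∈ Finset.range N,
                mu (gc j (bw A)) (bw (pw j)))) (single l 1) := by
            rw [map_sum, map_sum, LinearMap.sum_apply]
          rw [h9, ← gc_sum (bw A) N hN, app_bw, cb_bw, cns_single]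
        · intro s hs
          obtain ⟨j, _, hj⟩ := OX_sum_supp _ _ _ hs
          obtain ⟨s', rfl, hs'⟩ := OX_co1_supp (j + 1) (V j) s hj
          obtain ⟨w', hw', hw2⟩ := OX_sum_supp _ _ _ hs'
          have h10 : vv j w' s' ≠ 0 := by
            intro h0
            apply hw2
            rw [Finsupp.smul_apply, h0, smul_zero]
          have hw3 := Finsupp.mem_support_iff.1 hw'
          obtain ⟨h3, h4, h5⟩ := (hvv j w' hw3).2 s' h10
          obtain ⟨h11, h12⟩ := hH j w' hw3
          refine ⟨?_, ?_, ?_⟩
          · rw [← h3]; simp [nNo]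
          · rw [hnz, ← h12]
            have : nSo ((j + 1) :: s') = nSo s' + 1 := by simp [nSo]
            rw [this, h4]; ring
          · rw [hnp, ← h11]
            have : sSo ((j + 1) :: s') = j + sSo s' := by simp [sSo]
            rw [this, h5]; ring

theorem XX_span1 (q : LW) (hq : ∀ w ∈ q, w = [] ∨ Zw w) : ∃ v : MX, XX v = single q 1 ∧
    ∀ s, v s ≠ 0 → nNo s = q.length ∧ nSo s = nzW q ∧ sSo s = npW q := by
  induction q with
  | nil =>
    refine ⟨single [] 1, ?_, ?_⟩
    · simp [XX, XX0]
    · intro s hs
      have : s = [] := by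
        by_contra h
        exact hs (Finsupp.single_eq_of_ne h)
      subst this
      simp [nNo, nSo, sSo, nzW, npW]
  | cons w l ih =>
    obtain ⟨vl, h1, h2⟩ := ih fun u hu => hq u (List.mem_cons_of_mem _ hu)
    obtain ⟨v, h3, h4⟩ := OX_word l vl h1 h2 (nz w) w rfl (hq w List.mem_cons_self)
    refine ⟨v, h3, fun s hs => ?_⟩
    obtain ⟨h5, h6, h7⟩ := h4 s hs
    refine ⟨?_, ?_, ?_⟩
    · rw [h5]; simp
    · rw [h6]; simp [nzW]
    · rw [h7]; simp [npW]

theorem TF_le (m k δ L : ℕ) : TF m k δ L ≤ (MF m k δ L).map XX := by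
  unfold TF
  rw [Finsupp.supported_eq_span_single, Submodule.span_le]
  rintro _ ⟨q, hq, rfl⟩
  obtain ⟨h1, h2, h3, h4⟩ := hq
  obtain ⟨v, h5, h6⟩ := XX_span1 q fun w hw => Or.inr (h2 w hw)
  refine ⟨v, ?_, h5⟩
  unfold MF
  rw [SetLike.mem_coe, Finsupp.mem_supported]
  intro s hs
  have hs' := Finsupp.mem_support_iff.1 (Finset.mem_coe.1 hs)
  obtain ⟨h7, h8, h9⟩ := h6 s hs'
  exact ⟨by rw [h7, h1], by rw [h8, h4], by rw [h9, h3]⟩

end BrV
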