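import Pool.Agent.Lib.BrV.OAct
import Pool.Agent.Lib.BrV.LSup
import Pool.Agent.Lib.BrV.LHom

/-!
# BrV.OY: the homogeneous operators `yW j` (paper 4, section 1)

* `yW_of`: for `y` homogeneous of bidegree `(n, k)`: `y = ∑ y(l) single l 1` over `l` with `npW l = n`; `yW j (single l 1) = (lamW0 l).filter (npW · + 2 j = npW l)`, `filter_apply`, sum.
* `yW_supp`: some `l` with `y l ≠ 0` and `(yW j (single l 1)) q ≠ 0`; `lamW_supp`.
* `yW_eA`, `yW_bz`: linear in `y`, so let `y = single l 1` (homogeneous of bidegree `(npW l, nzW l)`).  `eA a y = act (bw (pw a)) y` is homogeneous of bidegree `(a + npW l, nzW l)` (`IsW_act`, `np_pw`, `nz_pw`), and `lamW (eA a y) = eA a (lamW y)`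
  (`lamW_act`, `lam_pw`).  For `z : CW` let `z_m` be the part with `npW = m`: `(eA a z)_(a+m) = eA a (z_m)` (for `z = single q 1`: `IsW_act`), `(eA a z)_m' = 0` for `m' < a`.  With `yW_of`:
  `(yW j (eA a y))(q) = [npW q + 2j = a + n] (eA a (lamW y))(q)`, `eA a (yW j y) = eA a ((lamW y)_(n - 2j))`.  The same for `bz` (`lamW_bz`, `IsW_bz`: degree `0`).
* `yW_low`: `npW q + 2 j = npW l` is impossible for `npW l < 2 j`.
-/

namespace BrV

open Finsupp

private theorem OY_apply (j : ℕ) (y : CW) (q : LW) :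
    yW j y q = ∑ l ∈ y.support, y l * (if npW q + 2 * j = npW l then lamW0 l q else 0) := by
  unfold yW
  rw [Finsupp.lift_apply, Finsupp.sum, Finsupp.finsetSum_apply]
  refine Finset.sum_congr rfl fun l _ => ?_
  rw [Finsupp.smul_apply, smul_eq_mul, Finsupp.filter_apply]

private theorem OY_lam (y : CW) (q : LW) :
    lamW y q = ∑ l ∈ y.support, y l * lamW0 l q := by
  unfold lamW
  rw [Finsupp.lift_apply, Finsupp.sum, Finsupp.finsetSum_apply]
  refine Finset.sum_congr rfl fun l _ => ?_
  rw [Finsupp.smul_apply, smul_eq_mul]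

theorem yW_of (n k j : ℕ) (y : CW) (hy : IsW n k y) (q : LW) :
    yW j y q = if npW q + 2 * j = n then lamW y q else 0 := by
  have h : yW j y q =
      ∑ l ∈ y.support, if npW q + 2 * j = n then y l * lamW0 l q else 0 := by
    rw [OY_apply]
    refine Finset.sum_congr rfl fun l hl => ?_
    rw [(hy l (Finsupp.mem_support_iff.1 hl)).1, mul_ite, mul_zero]
  rw [h]
  split_ifs with h1
  · rw [OY_lam]
  · exact Finset.sum_const_zero

theorem yW_supp (j : ℕ) (y : CW) (q : LW) (h : yW j y q ≠ 0) : ∃ l, y l ≠ 0 ∧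
    q.length = l.length ∧ nzW q = nzW l ∧ nzW q.tail = nzW l.tail ∧ npW q + 2 * j = npW l ∧
    ((∀ w ∈ l, Zw w) → ∀ w ∈ q, Zw w) := by
  rw [OY_apply] at h
  obtain ⟨l, -, hl⟩ := Finset.exists_ne_zero_of_sum_ne_zero h
  have h1 := left_ne_zero_of_mul hl
  have h2 := right_ne_zero_of_mul hl
  by_cases h3 : npW q + 2 * j = npW l
  · rw [if_pos h3] at h2
    obtain ⟨a1, a2, a3, -, a5⟩ := lamW_supp l q h2
    exact ⟨l, h1, a1, a2, a3, h3, a5⟩
  · rw [if_neg h3] at h2
    exact absurd rfl h2

theorem yW_low (j : ℕ) (y : CW) (h : ∀ l, y l ≠ 0 → npW l < 2 * j) : yW j y = 0 := by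
  ext q
  by_contra h1
  obtain ⟨l, h2, -, -, -, h3, -⟩ := yW_supp j y q h1
  have h4 := h l h2
  omega

private theorem OY_filter (φ : CW →ₗ[ℝ] CW) (a : ℕ)
    (hφ : ∀ l q, φ (single l 1) q ≠ 0 → npW q = a + npW l) (t n : ℕ) (z : CW) (q : LW) :
    φ (z.filter fun q' => npW q' + t = n) q = if npW q + t = a + n then φ z q else 0 := by
  induction z using Finsupp.induction_linear with
  | zero =>
    rw [Finsupp.filter_zero, map_zero]
    simp
  | add f g hf hg =>
    rw [Finsupp.filter_add, map_add, map_add, Finsupp.add_apply, Finsupp.add_apply, hf, hg]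
    split_ifs
    · rfl
    · rw [add_zero]
  | single l c =>
    have hc : (single l c : CW) = c • single l 1 := by
      rw [Finsupp.smul_single, smul_eq_mul, mul_one]
    by_cases h0 : φ (single l 1) q = 0
    · have h1 : φ (single l c) q = 0 := by
        rw [hc, map_smul, Finsupp.smul_apply, h0, smul_zero]
      rw [h1, ite_self]
      by_cases h2 : npW l + t = n
      · rw [Finsupp.filter_single_of_pos (fun q' : LW => npW q' + t = n) h2, h1]
      · rw [Finsupp.filter_single_of_neg (fun q' : LW => npW q' + t = n) h2, map_zero]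
        rfl
    · have h1 := hφ l q h0
      by_cases h2 : npW l + t = n
      · rw [Finsupp.filter_single_of_pos (fun q' : LW => npW q' + t = n) h2,
          if_pos (by omega)]
      · rw [Finsupp.filter_single_of_neg (fun q' : LW => npW q' + t = n) h2,
          if_neg (by omega), map_zero]
        rfl

private theorem OY_IsW (l : LW) : IsW (npW l) (nzW l) (single l 1) := by
  intro q hq
  by_cases h : q = l
  · rw [h]
    exact ⟨rfl, rfl⟩
  · exact absurd (Finsupp.single_eq_of_ne h) hq

private theorem OY_single (j : ℕ) (l : LW) :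
    yW j (single l 1) = (lamW (single l 1)).filter fun q => npW q + 2 * j = npW l := by
  ext q
  rw [yW_of _ _ j _ (OY_IsW l) q, Finsupp.filter_apply]

private theorem OY_comm (φ : CW →ₗ[ℝ] CW) (a b : ℕ)
    (hφ : ∀ l, IsW (a + npW l) (b + nzW l) (φ (single l 1)))
    (hl : ∀ y, lamW (φ y) = φ (lamW y)) (j : ℕ) (y : CW) :
    yW j (φ y) = φ (yW j y) := by
  have key : (yW j).comp φ = φ.comp (yW j) := by
    refine Finsupp.lhom_ext' fun l => ?_
    refine LinearMap.ext_ring ?_
    rw [LinearMap.comp_apply, LinearMap.comp_apply, LinearMap.comp_apply, LinearMap.comp_apply,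
      Finsupp.lsingle_apply]
    ext q
    rw [yW_of _ _ j _ (hφ l) q, OY_single,
      OY_filter φ a (fun l' q' h => (hφ l' q' h).1) (2 * j) (npW l) _ q, hl]
  exact congrArg (fun ψ => ψ y) key

theorem yW_eA (j a : ℕ) (y : CW) : yW j (eA a y) = eA a (yW j y) := by
  refine OY_comm (eA a) a 0 (fun l => ?_) (fun y => ?_) j y
  · have h := IsH_bw (pw a)
    rw [np_pw, nz_pw] at h
    exact IsW_act _ _ _ _ _ _ h (OY_IsW l)
  · unfold eA
    rw [lamW_act, lam_pw]

theorem yW_bz (j : ℕ) (y : CW) : yW j (bz y) = bz (yW j y) := by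
  refine OY_comm bz 0 0 (fun l => ?_) (fun y => lamW_bz y) j y
  rw [zero_add, zero_add]
  exact IsW_bz _ _ _ (OY_IsW l)

end BrV
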