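import Pool.Agent.Lib.BrV.OEO
import Pool.Agent.Lib.BrV.OX
import Pool.Agent.Lib.BrV.OY

/-!
# BrV.OMF: the model family; `XX` is equivariant (paper 4, section 2)

* `MF_fin`: finitely many lists `s` with `nNo s = m`, `nSo s = k`, `sSo s ≤ 2 L`: their length is `m + k` and their entries are `≤ 2 L + 1` (`List.finite_length_eq`, or the image of a `Finset` of vectors); `supported` on a finite set is finite-dimensional.
* `MF_sta`: `EO_supp`: `sSo s' + 2 j = sSo s`; `v ∈ MF m k δ (L + j)` gives `sSo s' + δ = 2 L`; for `L < j`: `sSo s + δ = 2 L`, `sSo s ≥ 2 j` impossible, so `EO j v = 0`.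
* `apC_lam`: bilinear: on `cb (bw w) (single l 1)` (`apC_cb`, `lamW_cb`), `lam (app false (mu f (bw (pw a)))) = app false (lam (h + del true (del true h)))`, `h = mu f (bw (pw a))` (`lam_app`).  HERE `f` is a word `[]` or ending in `z`
  (`f ∈ G'`, `del true f = 0`): `del true (mu f (bw (pw (a+1)))) = mu f (bw (pw a))`, `del true f = 0`, so `del true (del true h) = mu f (bw (pw (a-2)))` for `2 ≤ a`, `0` for `a < 2`; `lam_mu`, `lam_pw`.
  So the statement is for `y` supported on lists whose first word is `[]` or ends in `z`.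
* `XX0_first`: all words of all lists of `XX0 s` are `[]` or end in `z` (induction; `mu f (bw (pw a))` is followed by `app false`).  `XX0_IsW`: bidegree `(sSo s, nSo s)`; (`IsH_mu`, `app` raises `nz` by one); length `nNo s`.
* `lam_XX`: for `N > nSo s`: `lamW (XX0 s) = ∑_{j<N} XX (EO0 j s)`: induction on `s`: `lamW (cns [] y) = cns [] (lamW y)` (`lamW_cb`, `lam_nil`), `apC_lam`; reindex (`EO_big`).
* `XX_EO`: for `v = single s 1`: `yW_of` with `XX0_IsW`: `yW j (XX0 s)` is the part of `lamW (XX0 s)` with `npW q + 2 j = sSo s`, and `XX (EO0 j' s)` has `npW = sSo s - 2 j'` (`EO_supp`, `XX0_IsW`): only `j' = j` remains.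
-/

namespace BrV

open Finsupp

private theorem omf_lift {α β : Type} (F : α → (β →₀ ℝ)) (v : α →₀ ℝ) (b : β)
    (h : (Finsupp.lift (β →₀ ℝ) ℝ α F) v b ≠ 0) : ∃ a, v a ≠ 0 ∧ F a b ≠ 0 := by
  rw [Finsupp.lift_apply, Finsupp.sum, Finsupp.finsetSum_apply] at h
  obtain ⟨a, ha, h'⟩ := Finset.exists_ne_zero_of_sum_ne_zero h
  exact ⟨a, Finsupp.mem_support_iff.1 ha, fun h0 => h' (by rw [Finsupp.smul_apply, h0, smul_zero])⟩

private theorem omf_eq {α N : Type} [AddCommGroup N] [Module ℝ N] (φ ψ : (α →₀ ℝ) →ₗ[ℝ] N)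
    (y : α →₀ ℝ) (h : ∀ q, y q ≠ 0 → φ (single q 1) = ψ (single q 1)) : φ y = ψ y := by
  have hy := Finsupp.sum_single y
  rw [← hy, Finsupp.sum, map_sum, map_sum]
  refine Finset.sum_congr rfl fun q hq => ?_
  have h1 : (single q (y q) : α →₀ ℝ) = y q • single q 1 := by
    rw [Finsupp.smul_single, smul_eq_mul, mul_one]
  rw [h1, map_smul, map_smul, h q (Finsupp.mem_support_iff.1 hq)]

private theorem omf_nNo_zero (s : List ℕ) : nNo (0 :: s) = nNo s + 1 := by
  simp [nNo]

private theorem omf_nSo_zero (s : List ℕ) : nSo (0 :: s) = nSo s := by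
  simp [nSo]

private theorem omf_sSo_zero (s : List ℕ) : sSo (0 :: s) = sSo s := by
  simp [sSo]

private theorem omf_nNo_succ (a : ℕ) (s : List ℕ) : nNo ((a + 1) :: s) = nNo s := by
  simp [nNo]

private theorem omf_nSo_succ (a : ℕ) (s : List ℕ) : nSo ((a + 1) :: s) = nSo s + 1 := by
  simp [nSo]

private theorem omf_sSo_succ (a : ℕ) (s : List ℕ) : sSo ((a + 1) :: s) = a + sSo s := by
  simp [sSo]

private theorem omf_length (s : List ℕ) : s.length = nNo s + nSo s := by
  induction s with
  | nil => simp [nNo, nSo]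
  | cons o s ih =>
    cases o with
    | zero => rw [List.length_cons, ih, omf_nNo_zero, omf_nSo_zero]; omega
    | succ a => rw [List.length_cons, ih, omf_nNo_succ, omf_nSo_succ]; omega

private theorem omf_le (s : List ℕ) (o : ℕ) (ho : o ∈ s) : o ≤ sSo s + 1 := by
  have h1 : o - 1 ∈ s.map fun o => o - 1 := List.mem_map.2 ⟨o, ho, rfl⟩
  have h2 : o - 1 ≤ sSo s := List.single_le_sum (fun _ _ => Nat.zero_le _) _ h1
  omega

theorem MF_fin (m k δ L : ℕ) : Module.Finite ℝ (MF m k δ L) := by
  have hfin : Set.Finite {s : List ℕ | nNo s = m ∧ nSo s = k ∧ sSo s + δ = 2 * L} := by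
    refine Set.Finite.subset ((List.finite_length_eq (Fin (2 * L + 2)) (m + k)).image
      (List.map Fin.val)) ?_
    rintro s ⟨h1, h2, h3⟩
    have hb : ∀ o ∈ s, o < 2 * L + 2 := fun o ho => by
      have := omf_le s o ho
      omega
    refine ⟨s.pmap (fun o h => (⟨o, h⟩ : Fin (2 * L + 2))) hb, ?_, ?_⟩
    · show (s.pmap (fun o h => (⟨o, h⟩ : Fin (2 * L + 2))) hb).length = m + k
      rw [List.length_pmap, omf_length, h1, h2]
    · rw [List.map_pmap]
      simp
  have hinst : Finite {s : List ℕ | nNo s = m ∧ nSo s = k ∧ sSo s + δ = 2 * L} :=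
    hfin.to_subtype
  unfold MF
  exact Module.Finite.equiv (Finsupp.supportedEquivFinsupp
    {s : List ℕ | nNo s = m ∧ nSo s = k ∧ sSo s + δ = 2 * L}).symm

theorem MF_sta (m k δ N : ℕ) : Sta EO N (MF m k δ) := by
  intro j _ _
  constructor
  · intro L v hv
    unfold MF at hv ⊢
    rw [Finsupp.mem_supported'] at hv ⊢
    intro s' hs'
    by_contra h
    obtain ⟨s, h1, h2⟩ := omf_lift (EO0 j) v s' h
    obtain ⟨h3, h4, h5⟩ := EO_supp j s s' h2
    have hs : s ∈ {s : List ℕ | nNo s = m ∧ nSo s = k ∧ sSo s + δ = 2 * (L + j)} := by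
      by_contra hc
      exact h1 (hv s hc)
    obtain ⟨h6, h7, h8⟩ := hs
    exact hs' ⟨by rw [h3, h6], by rw [h4, h7], by omega⟩
  · intro L hL v hv
    unfold MF at hv
    rw [Finsupp.mem_supported'] at hv
    ext s'
    by_contra h
    obtain ⟨s, h1, h2⟩ := omf_lift (EO0 j) v s' h
    obtain ⟨h3, h4, h5⟩ := EO_supp j s s' h2
    have hs : s ∈ {s : List ℕ | nNo s = m ∧ nSo s = k ∧ sSo s + δ = 2 * L} := by
      by_contra hc
      exact h1 (hv s hc)
    obtain ⟨h6, h7, h8⟩ := hs
    omega

private theorem omf_XX_single (s : List ℕ) : XX (single s 1) = XX0 s := by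
  simp [XX, Finsupp.lift_apply]

private theorem omf_co1_single (o : ℕ) (s : List ℕ) : co1 o (single s 1) = single (o :: s) 1 := by
  unfold co1
  rw [lmapDomain_apply, mapDomain_single]

private theorem omf_XX0_zero (s : List ℕ) : XX0 (0 :: s) = cns [] (XX0 s) := by
  rw [← omf_XX_single, ← omf_XX_single, ← omf_co1_single, XX_co1_zero]

private theorem omf_XX0_succ (a : ℕ) (s : List ℕ) : XX0 ((a + 1) :: s) = apC a (XX0 s) := by
  rw [← omf_XX_single, ← omf_XX_single, ← omf_co1_single, XX_co1_succ]

private theorem omf_apC_nil (a : ℕ) : apC a (single [] 1) = 0 := by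
  simp [apC, Finsupp.lift_apply]

private theorem omf_apC_cons (a : ℕ) (w : Wd) (l : LW) : apC a (single (w :: l) 1) =
    cl (app false (mu (bw w) (bw (pw a)))) l := by
  simp [apC, Finsupp.lift_apply]

private theorem omf_apC_supp (a : ℕ) (y : CW) (q : LW) (h : apC a y q ≠ 0) :
    ∃ w l u, y (w :: l) ≠ 0 ∧ q = (false :: u) :: l ∧ mu (bw w) (bw (pw a)) u ≠ 0 := by
  unfold apC at h
  obtain ⟨q', h1, h2⟩ := omf_lift _ y q h
  cases q' with
  | nil => exact absurd rfl h2
  | cons w l =>
    replace h2 : cl (app false (mu (bw w) (bw (pw a)))) l q ≠ 0 := h2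
    rw [← cb_single] at h2
    cases q with
    | nil => exact absurd (cb_nil _ _) h2
    | cons u q =>
      rw [cb_apply] at h2
      have h3 := left_ne_zero_of_mul h2
      have h4 := right_ne_zero_of_mul h2
      have h5 : q = l := by
        by_contra hne
        exact h4 (Finsupp.single_eq_of_ne hne)
      subst h5
      cases u with
      | nil => exact absurd (app_nil _ _) h3
      | cons b u =>
        rw [app_cons] at h3
        by_cases hb : false = b
        · subst hb
          rw [if_pos rfl] at h3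
          exact ⟨w, q, u, h1, rfl, h3⟩
        · rw [if_neg hb] at h3
          exact absurd rfl h3

private theorem omf_np_pw (j : ℕ) : np (pw j) = j := by
  simp [np, pw]

private theorem omf_nz_pw (j : ℕ) : nz (pw j) = 0 := by
  simp [nz, pw, List.count_replicate]

theorem XX0_first (s : List ℕ) (q : LW) (h : XX0 s q ≠ 0) :
    q.length = nNo s ∧ npW q = sSo s ∧ nzW q = nSo s ∧ ∀ w ∈ q, w = [] ∨ Zw w := by
  induction s generalizing q with
  | nil =>
    have h1 : q = [] := by
      by_contra hne
      exact h (Finsupp.single_eq_of_ne hne)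
    subst h1
    simp [nNo, nSo, sSo, npW, nzW]
  | cons o s ih =>
    cases o with
    | zero =>
      rw [omf_XX0_zero] at h
      cases q with
      | nil => exact absurd (cns_nil _ _) h
      | cons u q =>
        rw [cns_apply] at h
        by_cases hu : ([] : Wd) = u
        · subst hu
          rw [if_pos rfl] at h
          obtain ⟨h1, h2, h3, h4⟩ := ih q h
          refine ⟨?_, ?_, ?_, ?_⟩
          · rw [List.length_cons, h1, omf_nNo_zero]
          · rw [omf_sSo_zero, ← h2]
            simp [npW, np]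
          · rw [omf_nSo_zero, ← h3]
            simp [nzW, nz]
          · intro w hw
            rcases List.mem_cons.1 hw with rfl | hw
            · exact Or.inl rfl
            · exact h4 w hw
        · rw [if_neg hu] at h
          exact absurd rfl h
    | succ a =>
      rw [omf_XX0_succ] at h
      obtain ⟨w, l, u, h1, rfl, h2⟩ := omf_apC_supp a _ q h
      obtain ⟨h3, h4, h5, h6⟩ := ih (w :: l) h1
      have h7 := IsH_mu _ _ _ _ _ _ (IsH_bw w) (IsH_bw (pw a)) u h2
      rw [omf_np_pw, omf_nz_pw] at h7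
      obtain ⟨h8, h9⟩ := h7
      refine ⟨?_, ?_, ?_, ?_⟩
      · rw [List.length_cons, omf_nNo_succ, ← h3, List.length_cons]
      · rw [omf_sSo_succ, ← h4]
        have e1 : npW ((false :: u) :: l) = np u + npW l := by
          simp [npW, np]
        have e2 : npW (w :: l) = np w + npW l := by
          simp [npW]
        rw [e1, e2, h8]
        omega
      · rw [omf_nSo_succ, ← h5]
        have e1 : nzW ((false :: u) :: l) = nz u + 1 + nzW l := by
          simp [nzW, nz]
        have e2 : nzW (w :: l) = nz w + nzW l := by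
          simp [nzW]
        rw [e1, e2, h9]
        omega
      · intro v hv
        rcases List.mem_cons.1 hv with rfl | hv
        · exact Or.inr rfl
        · exact h6 v (List.mem_cons_of_mem _ hv)

private theorem omf_G (w : Wd) (h : w = [] ∨ Zw w) : del true (bw w) = 0 := by
  ext u
  rw [del_apply]
  refine Finsupp.single_eq_of_ne ?_
  rintro rfl
  rcases h with h | h
  · exact List.cons_ne_nil _ _ h
  · unfold Zw at h
    simp at h

private theorem omf_del_succ (g : R) (hg : del true g = 0) (j : ℕ) :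
    del true (mu g (bw (pw (j + 1)))) = mu g (bw (pw j)) := by
  have h1 : bw (pw (j + 1)) = app true (bw (pw j)) := by rw [app_bw]; rfl
  rw [del_mu, hg, map_zero, LinearMap.zero_apply, add_zero, h1, del_app]

private theorem omf_del_zero (g : R) (hg : del true g = 0) : del true (mu g (bw (pw 0))) = 0 := by
  have h1 : bw (pw 0) = bw [] := rfl
  rw [h1, mu_one, hg]

private theorem omf_del2 (g : R) (hg : del true g = 0) (a : ℕ) :
    del true (del true (mu g (bw (pw a)))) = if 2 ≤ a then mu g (bw (pw (a - 2))) else 0 := by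
  match a with
  | 0 => rw [omf_del_zero g hg, map_zero, if_neg (by omega)]
  | 1 => rw [omf_del_succ g hg 0, omf_del_zero g hg, if_neg (by omega)]
  | a + 2 =>
    rw [omf_del_succ g hg (a + 1), omf_del_succ g hg a, if_pos (by omega)]
    rfl

private theorem omf_lam_h (w : Wd) (b : ℕ) :
    lam (mu (bw w) (bw (pw b))) = mu (lam (bw w)) (bw (pw b)) := by
  rw [lam_mu, lam_pw]

private theorem omf_apC_lam (a : ℕ) (y : CW) (hy : ∀ q, y q ≠ 0 → ∀ w ∈ q, w = [] ∨ Zw w) :
    lamW (apC a y) = apC a (lamW y) + if 2 ≤ a then apC (a - 2) (lamW y) else 0 := by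
  have key : (lamW.comp (apC a)) y = ((apC a).comp lamW +
      (if 2 ≤ a then (apC (a - 2)).comp lamW else 0)) y := by
    refine omf_eq _ _ y fun q hq => ?_
    cases q with
    | nil =>
      have e1 : lamW (single ([] : LW) 1) = single [] 1 := by
        rw [lamW_single]
        rfl
      rw [LinearMap.comp_apply, omf_apC_nil, map_zero, LinearMap.add_apply, LinearMap.comp_apply,
        e1, omf_apC_nil, zero_add]
      split_ifs
      · rw [LinearMap.comp_apply, e1, omf_apC_nil]
      · rfl
    | cons w l =>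
      have hw : del true (bw w) = 0 := omf_G w (hy _ hq w List.mem_cons_self)
      have e1 : lamW (single (w :: l) 1) = cb (lam (bw w)) (lamW (single l 1)) := by
        have e2 : (single (w :: l) 1 : CW) = cb (bw w) (single l 1) := by
          rw [cb_bw, cns_single]
        rw [e2, lamW_cb]
      rw [LinearMap.comp_apply, omf_apC_cons, ← cb_single, lamW_cb, lam_app, omf_del2 _ hw,
        map_add, map_add, map_add, LinearMap.add_apply, omf_lam_h, LinearMap.add_apply,
        LinearMap.comp_apply, e1, apC_cb]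
      congr 1
      split_ifs
      · rw [omf_lam_h, LinearMap.comp_apply, e1, apC_cb]
      · simp
  rw [LinearMap.comp_apply, LinearMap.add_apply, LinearMap.comp_apply] at key
  rw [key]
  congr 1
  split_ifs <;> rfl

private theorem omf_EO0_zero (j : ℕ) (s : List ℕ) : EO0 j (0 :: s) = co1 0 (EO0 j s) := by
  rw [← EO_single, ← EO_single, ← omf_co1_single, EO_co1_zero]

private theorem omf_EO0_zs (a : ℕ) (s : List ℕ) :
    EO0 0 ((a + 1) :: s) = co1 (a + 1) (EO0 0 s) := by
  rw [← EO_single, ← EO_single, ← omf_co1_single, EO_zero_co1]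

private theorem omf_EO0_ss (j a : ℕ) (s : List ℕ) : EO0 (j + 1) ((a + 1) :: s) =
    co1 (a + 1) (EO0 (j + 1) s) + if 2 ≤ a then co1 (a - 1) (EO0 j s) else 0 := by
  rw [← EO_single, ← EO_single, ← EO_single, ← omf_co1_single, EO_succ_co1]

private theorem omf_lam_XX (s : List ℕ) : ∀ N, nSo s < N →
    lamW (XX0 s) = XX (∑ j ∈ Finset.range N, EO0 j s) := by
  induction s with
  | nil =>
    intro N hN
    have h1 : ∑ j ∈ Finset.range N, EO0 j [] = single [] 1 := by
      rw [Finset.sum_eq_single_of_mem 0 (Finset.mem_range.2 (by omega))]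
      · rfl
      · intro j _ hj
        cases j with
        | zero => exact absurd rfl hj
        | succ j => rfl
    have e2 : XX0 [] = single ([] : LW) 1 := rfl
    rw [h1, omf_XX_single, e2, lamW_single]
    rfl
  | cons o s ih =>
    intro N hN
    cases o with
    | zero =>
      rw [omf_nSo_zero] at hN
      rw [omf_XX0_zero, ← cb_bw, lamW_cb, lam_nil, cb_bw, ih N hN, ← XX_co1_zero, map_sum]
      congr 1
      exact Finset.sum_congr rfl fun j _ => (omf_EO0_zero j s).symm
    | succ a =>
      rw [omf_nSo_succ] at hN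
      obtain ⟨M, rfl⟩ : ∃ M, N = M + 1 := ⟨N - 1, by omega⟩
      rw [omf_XX0_succ, omf_apC_lam a (XX0 s) (fun q hq => (XX0_first s q hq).2.2.2)]
      have h1 : ∑ j ∈ Finset.range (M + 1), EO0 j ((a + 1) :: s) =
          co1 (a + 1) (∑ j ∈ Finset.range (M + 1), EO0 j s) +
            if 2 ≤ a then co1 (a - 1) (∑ j ∈ Finset.range M, EO0 j s) else 0 := by
        rw [Finset.sum_range_succ', omf_EO0_zs, Finset.sum_range_succ' (fun j => EO0 j s),
          map_add, map_sum]
        have h2 : ∀ j ∈ Finset.range M, EO0 (j + 1) ((a + 1) :: s) =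
            co1 (a + 1) (EO0 (j + 1) s) + if 2 ≤ a then co1 (a - 1) (EO0 j s) else 0 :=
          fun j _ => omf_EO0_ss j a s
        rw [Finset.sum_congr rfl h2, Finset.sum_add_distrib]
        by_cases ha : 2 ≤ a
        · simp only [if_pos ha]
          rw [map_sum]
          abel
        · simp only [if_neg ha, Finset.sum_const_zero, add_zero]
      rw [h1, map_add, XX_co1_succ, ← ih (M + 1) (by omega)]
      congr 1
      by_cases ha : 2 ≤ a
      · rw [if_pos ha, if_pos ha]
        have e1 : a - 1 = (a - 2) + 1 := by omega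
        rw [e1, XX_co1_succ, ← ih M (by omega)]
      · rw [if_neg ha, if_neg ha, map_zero]

private theorem omf_XX_supp (v : MX) (q : LW) (h : XX v q ≠ 0) : ∃ s, v s ≠ 0 ∧ XX0 s q ≠ 0 := by
  unfold XX at h
  exact omf_lift XX0 v q h

theorem XX_EO (j : ℕ) (v : MX) : XX (EO j v) = yW j (XX v) := by
  have key : (XX.comp (EO j)) v = ((yW j).comp XX) v := by
    refine omf_eq _ _ v fun s _ => ?_
    rw [LinearMap.comp_apply, LinearMap.comp_apply, EO_single, omf_XX_single]
    have hW : IsW (sSo s) (nSo s) (XX0 s) := fun q hq =>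
      ⟨(XX0_first s q hq).2.1, (XX0_first s q hq).2.2.1⟩
    ext q
    have hne : ∀ i, XX (EO0 i s) q ≠ 0 → npW q + 2 * i = sSo s := by
      intro i hi
      obtain ⟨s', h1, h2⟩ := omf_XX_supp _ q hi
      have h3 := (EO_supp i s s' h1).2.2
      have h4 := (XX0_first s' q h2).2.1
      omega
    rw [yW_of _ _ j _ hW q, omf_lam_XX s (nSo s + j + 1) (by omega), map_sum,
      Finsupp.finsetSum_apply]
    by_cases hq : npW q + 2 * j = sSo s
    · rw [if_pos hq, Finset.sum_eq_single_of_mem j (Finset.mem_range.2 (by omega))]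
      intro i _ hi
      by_contra hc
      have := hne i hc
      omega
    · rw [if_neg hq]
      by_contra hc
      exact hq (hne j hc)
  exact key

end BrV
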