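import Pool.Agent.Lib.BrV.OY
import Pool.Agent.Lib.BrV.OMF
import Pool.Agent.Lib.BrV.LPur

/-!
# BrV.OUa: identities in the complex `UL` (paper 4, section 6)

`u : UL = List ℕ →₀ CW`; `bd e` acts on a basis element `single s y` (`s = a :: s'`) by `single s' (e (a+1) y) - (mgN s) ⊗ y` (`bd0`; `mgN` lowers the length by one).
* `bd_bd`: only needs `eA a (eA b v) = cc a b • eA (a+b) v` (`eA_pw`) and `cc_assoc` (compare the private lemmas of `BarN.lean`, `MgMg.lean`; induction on the length of `s`).
* `dU_dU`: `bd eA` anticommutes with `sgU` (it lowers the length of `s` by one); `sgU` commutes with `mapRange bz`; `mapRange bz` commutes with `bd eA` (`bz_act`), `bz_bz`; `sgU sgU = 1`.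
* `yU_bd`: `yW_eA` (`bd e` is built from `e (a+1)` and scalars: for any linear `φ` commuting with all `e a`, `mapRange φ` commutes with `bd e`).  `yU_dU`: and `yW_bz`.
* `yW_comm`: `t = ∑ t(q) single q 1`; for `q` with all words ending in `z`: `q ∈ TF q.length (nzW q) (npW q) (npW q)` (`npW q + npW q = 2 * npW q`), `TF_le`, `XX_EO` twice, `EO_comm`.  `CU_comm`: coefficientwise.
-/

namespace BrV

open Finsupp

section aux

variable {M M' : Type} [AddCommGroup M] [Module ℝ M] [AddCommGroup M'] [Module ℝ M']

/-- `m ⊗ v` -/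
private noncomputable def oua_tn (v : M) : (List ℕ →₀ ℝ) →ₗ[ℝ] (List ℕ →₀ M) :=
  Finsupp.mapRange.linearMap (LinearMap.toSpanSingleton ℝ M v)

private lemma oua_tn_apply (v : M) (m : List ℕ →₀ ℝ) (l : List ℕ) : oua_tn v m l = m l • v := rfl

private lemma oua_tn_single (v : M) (l : List ℕ) (t : ℝ) : oua_tn v (single l t) = single l (t • v) := by
  simp [oua_tn]

private lemma oua_tn_eq (v : M) (m : List ℕ →₀ ℝ) :
    m.mapRange (fun t => t • v) (zero_smul _ _) = oua_tn v m := by
  ext l
  rfl

private lemma oua_tn_mapDomain (v : M) (a : ℕ) (m : List ℕ →₀ ℝ) :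
    oua_tn v (mapDomain (List.cons a) m) = mapDomain (List.cons a) (oua_tn v m) := by
  induction m using Finsupp.induction_linear with
  | zero => simp
  | add f g hf hg => rw [mapDomain_add, map_add, map_add, mapDomain_add, hf, hg]
  | single l t => rw [mapDomain_single, oua_tn_single, oua_tn_single, mapDomain_single]

private lemma oua_bd_single (e : ℕ → M →ₗ[ℝ] M) (l : List ℕ) (v : M) :
    bd e (single l v) = bd0 e l v := by
  have h1 : bd e (single l v) = (single l v).sum fun l v => bd0 e l v := rfl
  rw [h1, Finsupp.sum_single_index]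
  cases l with
  | nil => rfl
  | cons a l =>
    show single l (e (a + 1) 0) - (mgN (a :: l)).mapRange (fun t => t • (0 : M)) (zero_smul _ _) = 0
    rw [map_zero, single_zero, zero_sub, neg_eq_zero]
    ext j
    exact smul_zero _

private lemma oua_bd_nil (e : ℕ → M →ₗ[ℝ] M) (v : M) : bd e (single [] v) = 0 := by
  rw [oua_bd_single]; rfl

private lemma oua_bd_cons (e : ℕ → M →ₗ[ℝ] M) (a : ℕ) (l : List ℕ) (v : M) :
    bd e (single (a :: l) v) = single l (e (a + 1) v) - oua_tn v (mgN (a :: l)) := by
  rw [oua_bd_single, bd0, oua_tn_eq]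

/-- linear extension of `mgN` -/
private noncomputable def oua_mgL : (List ℕ →₀ ℝ) →ₗ[ℝ] (List ℕ →₀ ℝ) :=
  Finsupp.lift (List ℕ →₀ ℝ) ℝ (List ℕ) mgN

private lemma oua_mgL_single (l : List ℕ) (t : ℝ) : oua_mgL (single l t) = t • mgN l := by
  simp [oua_mgL]

private lemma oua_mgN_two (a b : ℕ) (l : List ℕ) :
    mgN (a :: b :: l) = single ((a + b + 1) :: l) (cc (b + 1) (a + 1)) -
      mapDomain (List.cons a) (mgN (b :: l)) := rfl

private lemma oua_mgL_two (a b : ℕ) (m : List ℕ →₀ ℝ) :
    oua_mgL (mapDomain (List.cons a) (mapDomain (List.cons b) m)) =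
      cc (b + 1) (a + 1) • mapDomain (List.cons (a + b + 1)) m -
        mapDomain (List.cons a) (oua_mgL (mapDomain (List.cons b) m)) := by
  induction m using Finsupp.induction_linear with
  | zero => simp
  | add f g hf hg =>
    simp only [mapDomain_add, map_add, smul_add] at hf hg ⊢
    rw [hf, hg]
    abel
  | single l t =>
    rw [mapDomain_single, mapDomain_single, mapDomain_single, oua_mgL_single, oua_mgL_single, oua_mgN_two,
      smul_sub, smul_single, smul_single, mapDomain_smul]
    simp only [smul_eq_mul, mul_comm]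

private lemma oua_mgL_mgN (l : List ℕ) : ∀ a b : ℕ,
    oua_mgL (mapDomain (List.cons a) (mgN (b :: l))) = cc (b + 1) (a + 1) • mgN ((a + b + 1) :: l) := by
  induction l with
  | nil =>
    intro a b
    simp [mgN]
  | cons c l ih =>
    intro a b
    have hm : ∃ m : List ℕ →₀ ℝ, m = mgN (c :: l) := ⟨_, rfl⟩
    rw [oua_mgN_two b c l, oua_mgN_two (a + b + 1) c l, mapDomain_sub, map_sub, mapDomain_single,
      oua_mgL_single, oua_mgN_two a (b + c + 1) l, oua_mgL_two, ih b c, smul_sub, smul_sub, mapDomain_smul,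
      smul_single, smul_single]
    have h1 : cc (c + 1) (b + 1) * cc (b + c + 1 + 1) (a + 1) =
        cc (b + 1) (a + 1) * cc (c + 1) (a + b + 1 + 1) := by
      have h := cc_assoc (c + 1) (b + 1) (a + 1)
      have e1 : c + 1 + (b + 1) = b + c + 1 + 1 := by ring
      have e2 : b + 1 + (a + 1) = a + b + 1 + 1 := by ring
      rw [e1, e2] at h
      exact h
    have h2 : a + (b + c + 1) + 1 = a + b + 1 + c + 1 := by ring
    rw [smul_eq_mul, smul_eq_mul, h1, h2]
    abel

private lemma oua_bd_tn_cons (e : ℕ → M →ₗ[ℝ] M) (a : ℕ) (v : M) (m : List ℕ →₀ ℝ) :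
    bd e (oua_tn v (mapDomain (List.cons a) m)) =
      oua_tn (e (a + 1) v) m - oua_tn v (oua_mgL (mapDomain (List.cons a) m)) := by
  induction m using Finsupp.induction_linear with
  | zero => simp
  | add f g hf hg =>
    simp only [mapDomain_add, map_add] at hf hg ⊢
    rw [hf, hg]
    abel
  | single l t =>
    rw [mapDomain_single, oua_tn_single, oua_bd_cons, oua_tn_single, oua_mgL_single, map_smul, map_smul]
    congr 1
    ext j
    rw [oua_tn_apply, Finsupp.smul_apply, oua_tn_apply, smul_comm]

private lemma oua_bd_bd (e : ℕ → M →ₗ[ℝ] M) (hm : ∀ a b v, e a (e b v) = cc a b • e (a + b) v)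
    (x : List ℕ →₀ M) : bd e (bd e x) = 0 := by
  induction x using Finsupp.induction_linear with
  | zero => simp
  | add f g hf hg => rw [map_add, map_add, hf, hg, add_zero]
  | single l v =>
    match l with
    | [] => rw [oua_bd_nil, map_zero]
    | [a] =>
      rw [oua_bd_cons]
      simp [mgN, oua_bd_nil]
    | a :: b :: l =>
      rw [oua_bd_cons, map_sub, oua_bd_cons, oua_mgN_two, map_sub, map_sub, oua_tn_single, oua_bd_tn_cons, oua_mgL_mgN,
        map_smul, oua_bd_cons, hm, map_smul]
      have h1 : b + 1 + (a + 1) = a + b + 1 + 1 := by ring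
      have h2 : oua_tn (cc (b + 1) (a + 1) • v) (mgN ((a + b + 1) :: l)) =
          cc (b + 1) (a + 1) • oua_tn v (mgN ((a + b + 1) :: l)) := by
        ext j
        rw [oua_tn_apply, Finsupp.smul_apply, oua_tn_apply, smul_comm]
      rw [h1, h2]
      abel

private lemma oua_bd_map (e : ℕ → M →ₗ[ℝ] M) (e' : ℕ → M' →ₗ[ℝ] M') (f : M →ₗ[ℝ] M')
    (hf : ∀ a v, f (e a v) = e' a (f v)) (x : List ℕ →₀ M) :
    bd e' (mapRange.linearMap f x) = mapRange.linearMap f (bd e x) := by
  induction x using Finsupp.induction_linear with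
  | zero => simp
  | add g h hg hh => simp only [map_add] at hg hh ⊢; rw [hg, hh]
  | single l v =>
    have h1 : ∀ (l : List ℕ) (v : M), mapRange.linearMap f (single l v) = single l (f v) := by
      intro l v
      simp
    have h2 : ∀ (m : List ℕ →₀ ℝ), mapRange.linearMap f (oua_tn v m) = oua_tn (f v) m := by
      intro m
      ext j
      rw [mapRange.linearMap_apply, mapRange_apply, oua_tn_apply, oua_tn_apply, map_smul]
    cases l with
    | nil => rw [h1, oua_bd_nil, oua_bd_nil, map_zero]
    | cons a l => rw [h1, oua_bd_cons, oua_bd_cons, map_sub, h1, h2, hf]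

private lemma oua_mgN_len : ∀ (l l' : List ℕ), mgN l l' ≠ 0 → l'.length + 1 = l.length := by
  intro l
  match l with
  | [] => intro l' h; exact absurd rfl h
  | [_] => intro l' h; exact absurd rfl h
  | a :: b :: l =>
    intro l' h
    by_contra hne
    apply h
    rw [oua_mgN_two, coe_sub, Pi.sub_apply]
    have h1 : (single ((a + b + 1) :: l) (cc (b + 1) (a + 1)) : List ℕ →₀ ℝ) l' = 0 := by
      rw [single_apply, if_neg]
      rintro rfl
      apply hne
      simp
    have h2 : (mapDomain (List.cons a) (mgN (b :: l)) : List ℕ →₀ ℝ) l' = 0 := by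
      by_contra h3
      have h4 := mapDomain_support (mem_support_iff.2 h3)
      obtain ⟨l'', h5, rfl⟩ := Finset.mem_image.1 h4
      have h6 := oua_mgN_len (b :: l) l'' (mem_support_iff.1 h5)
      apply hne
      simp only [List.length_cons] at h6 ⊢
      omega
    rw [h1, h2, sub_zero]

private lemma oua_bd_len (e : ℕ → M →ₗ[ℝ] M) (r : ℕ) (x : List ℕ →₀ M)
    (hx : ∀ l, x l ≠ 0 → l.length = r) : ∀ l, bd e x l ≠ 0 → l.length + 1 = r := by
  intro l hl
  have h1 : bd e x = x.sum fun l v => bd0 e l v := rfl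
  rw [h1, Finsupp.sum_apply, Finsupp.sum] at hl
  obtain ⟨l0, h2, h3⟩ := Finset.exists_ne_zero_of_sum_ne_zero hl
  have h4 := hx l0 (mem_support_iff.1 h2)
  match l0 with
  | [] => exact absurd rfl h3
  | a :: l0 =>
    by_contra hne
    apply h3
    simp only [List.length_cons] at h4
    have h5 : (single l0 (e (a + 1) (x (a :: l0))) : List ℕ →₀ M) l = 0 := by
      rw [single_apply, if_neg]
      rintro rfl
      exact hne h4
    have h6 : mgN (a :: l0) l = 0 := by
      by_contra h7
      have := oua_mgN_len _ _ h7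
      simp only [List.length_cons] at this
      omega
    show (single l0 (e (a + 1) (x (a :: l0))) - (mgN (a :: l0)).mapRange
      (fun t => t • x (a :: l0)) (zero_smul _ _) : List ℕ →₀ M) l = 0
    rw [coe_sub, Pi.sub_apply, h5, mapRange_apply, h6, zero_smul, sub_zero]


end aux

private lemma oua_sgU_single (s : List ℕ) (y : CW) :
    sgU (single s y) = ((-1 : ℝ) ^ s.length) • single s y := by
  unfold sgU
  rw [Finsupp.lsum_single, LinearMap.smul_apply, Finsupp.lsingle_apply]

private lemma oua_sgU_apply (u : UL) (s : List ℕ) : sgU u s = ((-1 : ℝ) ^ s.length) • u s := by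
  induction u using Finsupp.induction_linear with
  | zero => simp
  | add f g hf hg => rw [map_add, Finsupp.add_apply, Finsupp.add_apply, hf, hg, smul_add]
  | single l v =>
    rw [oua_sgU_single, Finsupp.smul_apply]
    by_cases h : l = s
    · rw [h]
    · rw [Finsupp.single_eq_of_ne (Ne.symm h), smul_zero, smul_zero]

private lemma oua_sg_sg (u : UL) : sgU (sgU u) = u := by
  ext1 s
  rw [oua_sgU_apply, oua_sgU_apply, smul_smul, ← mul_pow]
  norm_num

private lemma oua_sg_map (f : CW →ₗ[ℝ] CW) (u : UL) :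
    sgU (mapRange.linearMap f u) = mapRange.linearMap f (sgU u) := by
  ext1 s
  rw [oua_sgU_apply, mapRange.linearMap_apply, mapRange.linearMap_apply, mapRange_apply,
    mapRange_apply, oua_sgU_apply, map_smul]

private lemma oua_bd_sg (u : UL) : bd eA (sgU u) = - sgU (bd eA u) := by
  induction u using Finsupp.induction_linear with
  | zero => simp
  | add f g hf hg =>
    rw [map_add, map_add, map_add, map_add, hf, hg]
    exact (neg_add _ _).symm
  | single l v =>
    rw [oua_sgU_single, map_smul]
    ext1 s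
    rw [Finsupp.smul_apply, Finsupp.neg_apply, oua_sgU_apply]
    by_cases h : bd eA (single l v) s = 0
    · rw [h, smul_zero, smul_zero, neg_zero]
    · have h1 := oua_bd_len eA l.length (single l v) (fun l' hl' => by
        by_contra hne
        apply hl'
        rw [Finsupp.single_eq_of_ne]
        rintro rfl
        exact hne rfl) s h
      rw [← h1, pow_succ, mul_neg_one, neg_smul]

theorem bd_bd (u : UL) : bd eA (bd eA u) = 0 := oua_bd_bd eA eA_pw u

private lemma oua_bz_bz (u : UL) : mapRange.linearMap bz (mapRange.linearMap bz u) = (0 : UL) := by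
  ext1 s
  rw [mapRange.linearMap_apply, mapRange_apply, mapRange.linearMap_apply, mapRange_apply, bz_bz]
  rfl

private lemma oua_dU (u : UL) : dU u = bd eA u - sgU (mapRange.linearMap bz u) := rfl

theorem dU_dU (u : UL) : dU (dU u) = 0 := by
  have h1 : ∀ v : UL, bd eA (mapRange.linearMap bz v) = mapRange.linearMap bz (bd eA v) :=
    fun v => oua_bd_map eA eA bz (fun a y => bz_act _ y) v
  have h2 : sgU (mapRange.linearMap bz (sgU (mapRange.linearMap bz u))) = (0 : UL) := by
    rw [oua_sg_map, oua_sg_sg, oua_bz_bz]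
  have h3 : ∀ x y : UL, bd eA (x - y) = bd eA x - bd eA y := fun x y => map_sub (bd eA) x y
  have h4 : ∀ x y : UL, mapRange.linearMap bz (x - y) =
      (mapRange.linearMap bz x - mapRange.linearMap bz y : UL) :=
    fun x y => map_sub (mapRange.linearMap bz) x y
  have h5 : ∀ x y : UL, sgU (x - y) = sgU x - sgU y := fun x y => map_sub sgU x y
  rw [oua_dU, oua_dU, h3, h4, h5, bd_bd, oua_bd_sg, h1, h2]
  abel

theorem yU_bd (j : ℕ) (u : UL) : yU j (bd eA u) = bd eA (yU j u) :=
  (oua_bd_map eA eA (yW j) (fun a y => yW_eA j a y) u).symm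

theorem yU_dU (j : ℕ) (u : UL) : yU j (dU u) = dU (yU j u) := by
  have h1 : yU j (sgU (mapRange.linearMap bz u)) = sgU (mapRange.linearMap bz (yU j u)) := by
    have h2 : mapRange.linearMap (yW j) (mapRange.linearMap bz u) =
        (mapRange.linearMap bz (mapRange.linearMap (yW j) u) : UL) := by
      ext1 s
      rw [mapRange.linearMap_apply, mapRange_apply, mapRange.linearMap_apply, mapRange_apply,
        mapRange.linearMap_apply, mapRange_apply, mapRange.linearMap_apply, mapRange_apply, yW_bz]
    unfold yU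
    rw [← oua_sg_map, h2]
  have h3 : ∀ x y : UL, yU j (x - y) = yU j x - yU j y := fun x y => map_sub (yU j) x y
  rw [oua_dU, oua_dU, h3, yU_bd, h1]

private lemma oua_comm1 (i j : ℕ) (q : LW) (hq : ∀ w ∈ q, Zw w) :
    yW i (yW j (single q 1)) = yW j (yW i (single q 1)) := by
  have h1 : (single q 1 : CW) ∈ TF q.length (nzW q) (npW q) (npW q) := by
    unfold TF
    refine Finsupp.single_mem_supported ℝ 1 ⟨rfl, hq, ?_, rfl⟩
    omega
  obtain ⟨v, -, hv⟩ := TF_le _ _ _ _ h1
  rw [← hv, ← XX_EO, ← XX_EO, ← XX_EO, ← XX_EO, EO_comm]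

theorem yW_comm (i j : ℕ) (t : CW) (ht : ∀ q, t q ≠ 0 → ∀ w ∈ q, Zw w) :
    yW i (yW j t) = yW j (yW i t) := by
  have h1 := Finsupp.sum_single t
  rw [← h1, Finsupp.sum]
  simp only [map_sum]
  refine Finset.sum_congr rfl fun q hq => ?_
  have h2 : (single q (t q) : CW) = t q • single q 1 := by
    rw [Finsupp.smul_single, smul_eq_mul, mul_one]
  rw [h2]
  simp only [map_smul]
  rw [oua_comm1 i j q (ht q (Finsupp.mem_support_iff.1 hq))]

theorem CU_comm (M r n k i j : ℕ) (u : UL) (hu : u ∈ CU M r n k) :
    yU i (yU j u) = yU j (yU i u) := by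
  ext1 s
  unfold yU
  rw [mapRange.linearMap_apply, mapRange_apply, mapRange.linearMap_apply, mapRange_apply,
    mapRange.linearMap_apply, mapRange_apply, mapRange.linearMap_apply, mapRange_apply]
  exact yW_comm i j (u s) fun q hq => (hu.1 s q hq).2.2.2

end BrV
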