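import Pool.Agent.Lib.BrV.OTF
import Pool.Agent.Lib.BrV.OUa
import Pool.Agent.Lib.BrV.OUb
import Pool.Agent.Lib.BrV.LBar
import Pool.Agent.Lib.BrV.LKk

/-!
# BrV.OBar: chain condition for the bar complex of `T_m` (paper 4, section 6)

`1 ≤ k`.  `CB m r n k`: indices `s` of length `r - m`, lists of exactly `m` words.
* `m = 0` or `r < m`: `CB m r n k = ⊥` (`q = []` has `nzW q = 0`): `art_triv`.
* `r = m` (`s = []`): `art_surj` from `art_TF m k 0` with `f = Finsupp.lsingle []`: `u = single [] (u [])`, `u [] ∈ TF m k 0 L`; `bd eA (single [] y) = 0`; `yU j (single [] y) = single [] (yW j y)`.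
* `r = m + 1` (`s = [a]`): `art_inj` with `f = bF eA` into `(TF m k 1, ⊥)` (`art_TF m k 1`): `bF eA (single [a] y) = (2/(a+1)) e_a y` (`a` odd) or `0`: `npW = 2L - 1`; `f (yU j u) = yW j (f u)` (`yW_eA`);
  `f u = 0 ↔ u ∈ BB`: `bF_bd`, and `bF_inj` with `T = Tk m k` (`Tk_act`, `Tk_ex`, `eA_pw`; `m = m' + 1`): `u = bd eA y`, `y` supported on length `2`, values in `T`; replace `y` by its part with `∑ (a+1) + npW q = 2 L` (`part`), it is in `CB m (m+2) (2L) k`.
* `r ≥ m + 2`: `bar_exact_sub` (`T = Tk m k`, `Tk_one`) and `part`: `ZB = BB`: `art_triv`.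
* `part`: for `n` let `h_n u` be the part of `u` with `(s.map (·+1)).sum + npW q = n`; `h_n (bd eA u) = bd eA (h_n u)` (on `single s (single q 1)`: all terms of `bd eA` have the same total, `IsW_act`, `mgN` preserves the total).
* `ZB_sta`, `BB_sta`: `CB_yU`, `yU_bd`, `CU_low` (`CB_le`).  `BB_le`: `CB_bd`, `bd_bd`.  `TF_sta` for `art_surj`.
-/

namespace BrV

open Finsupp

private theorem oba_nzW_pos (q : LW) (h : ∀ w ∈ q, Zw w) : q.length ≤ nzW q := by
  induction q with
  | nil => exact Nat.zero_le _
  | cons w q ih =>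
    have h1 : 1 ≤ nz w := by
      have h5 : Zw w := h w List.mem_cons_self
      cases w with
      | nil => exact absurd h5 (by simp [Zw])
      | cons a w =>
        have h6 : a = false := by simpa [Zw] using h5
        rw [h6]
        simp [nz]
    have h2 := ih fun v hv => h v (List.mem_cons_of_mem _ hv)
    unfold nzW at h2 ⊢
    rw [List.map_cons, List.sum_cons, List.length_cons]
    omega

private theorem oba_yU_single (j : ℕ) (s : List ℕ) (v : CW) :
    yU j (single s v) = single s (yW j v) := by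
  unfold yU
  rw [Finsupp.mapRange.linearMap_apply, Finsupp.mapRange_single]

private theorem oba_bF_single (s : List ℕ) (v : CW) : bF eA (single s v) =
    (match s with
      | [a] => if Odd a then (2 / ((a : ℝ) + 1)) • eA a else 0
      | _ => 0 : CW →ₗ[ℝ] CW) v := by
  unfold bF
  rw [Finsupp.lsum_single]
  rcases s with _ | ⟨a, _ | ⟨b, l⟩⟩ <;> rfl

private theorem oba_bF_one (a : ℕ) (v : CW) :
    bF eA (single [a] v) = if Odd a then (2 / ((a : ℝ) + 1)) • eA a v else 0 := by
  rw [oba_bF_single]
  change (if Odd a then (2 / ((a : ℝ) + 1)) • eA a else (0 : CW →ₗ[ℝ] CW)) v = _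
  split_ifs <;> rfl

private theorem oba_bF_yU (j : ℕ) (u : UL) : bF eA (yU j u) = yW j (bF eA u) := by
  induction u using Finsupp.induction_linear with
  | zero => simp
  | add x y hx hy => rw [map_add, map_add, hx, hy, map_add, map_add]
  | single s v =>
    rw [oba_yU_single, oba_bF_single, oba_bF_single]
    match s with
    | [] => simp
    | [a] =>
      change (if Odd a then (2 / ((a : ℝ) + 1)) • eA a else (0 : CW →ₗ[ℝ] CW)) (yW j v) =
        yW j ((if Odd a then (2 / ((a : ℝ) + 1)) • eA a else (0 : CW →ₗ[ℝ] CW)) v)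
      split_ifs
      · rw [LinearMap.smul_apply, LinearMap.smul_apply, map_smul, yW_eA]
      · simp
    | _ :: _ :: _ => simp

/-- total of an index -/
private def oba_t (s : List ℕ) : ℕ := (s.map fun a => a + 1).sum

private theorem oba_mgN (s s' : List ℕ) (h : mgN s s' ≠ 0) : oba_t s' = oba_t s := by
  induction s generalizing s' with
  | nil => exact absurd rfl h
  | cons a s ih =>
    cases s with
    | nil => exact absurd rfl h
    | cons b l =>
      have h1 : mgN (a :: b :: l) = single ((a + b + 1) :: l) (cc (b + 1) (a + 1)) -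
        mapDomain (List.cons a) (mgN (b :: l)) := rfl
      rw [h1, Finsupp.sub_apply] at h
      by_cases h2 : s' = (a + b + 1) :: l
      · rw [h2]
        unfold oba_t
        simp only [List.map_cons, List.sum_cons]
        omega
      · rw [Finsupp.single_eq_of_ne h2, zero_sub, neg_ne_zero] at h
        have h3 : s' ∈ Set.range (List.cons a) := by
          by_contra hc
          exact h (Finsupp.mapDomain_of_notMem_range _ _ hc)
        obtain ⟨t, rfl⟩ := h3
        rw [Finsupp.mapDomain_apply (List.cons_injective)] at h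
        have h4 := ih t h
        unfold oba_t at h4 ⊢
        simp only [List.map_cons, List.sum_cons] at h4 ⊢
        omega

private theorem oba_eA (a : ℕ) (y : CW) (q : LW) (h : eA a y q ≠ 0) : ∃ l, y l ≠ 0 ∧
    q.length = l.length ∧ npW q = a + npW l ∧ nzW q = nzW l := by
  unfold eA at h
  obtain ⟨v, l, h1, h2, h3⟩ := act_supp _ _ _ h
  have h4 : v = pw a := by
    unfold bw at h1
    by_contra hc
    exact h1 (Finsupp.single_eq_of_ne hc)
  subst h4
  obtain ⟨h5, h6, h7, -⟩ := act0_supp _ _ _ h3
  rw [np_pw] at h6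
  rw [nz_pw, zero_add] at h7
  exact ⟨l, h2, h5, h6, h7⟩

private theorem oba_bd_single (s : List ℕ) (v : CW) : bd eA (single s v) = bd0 eA s v := by
  unfold bd
  rw [Finsupp.lsum_single]
  rfl

private theorem oba_bd_tot (s : List ℕ) (q : LW) (s' : List ℕ) (q' : LW)
    (h : bd eA (single s (single q 1)) s' q' ≠ 0) : oba_t s' + npW q' = oba_t s + npW q := by
  rw [oba_bd_single] at h
  cases s with
  | nil => exact absurd rfl h
  | cons a l =>
    change (single l (eA (a + 1) (single q 1)) -
      (mgN (a :: l)).mapRange (fun t => t • single q (1 : ℝ)) (zero_smul _ _)) s' q' ≠ 0 at h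
    rw [Finsupp.sub_apply, Finsupp.sub_apply, Finsupp.mapRange_apply] at h
    by_cases h1 : (single l (eA (a + 1) (single q (1 : ℝ))) : UL) s' q' = 0
    · rw [h1, zero_sub, neg_ne_zero, Finsupp.smul_apply, smul_eq_mul] at h
      have h2 := oba_mgN _ _ (left_ne_zero_of_mul h)
      have h3 : q' = q := by
        by_contra hc
        exact (right_ne_zero_of_mul h) (Finsupp.single_eq_of_ne hc)
      rw [h2, h3]
    · have h2 : s' = l := by
        by_contra hc
        rw [Finsupp.single_eq_of_ne hc] at h1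
        exact h1 rfl
      subst h2
      rw [Finsupp.single_eq_same] at h1
      obtain ⟨l', h3, -, h4, -⟩ := oba_eA _ _ _ h1
      have h5 : l' = q := by
        by_contra hc
        exact h3 (Finsupp.single_eq_of_ne hc)
      rw [h4, h5]
      unfold oba_t
      simp only [List.map_cons, List.sum_cons]
      omega

/-- the part of total `n` -/
private noncomputable def oba_h (n : ℕ) : UL →ₗ[ℝ] UL := Finsupp.lsum ℝ fun s =>
  (Finsupp.lsingle s).comp <| Finsupp.lift CW ℝ LW fun q =>
    if oba_t s + npW q = n then single q 1 else 0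

private theorem oba_h_single (n : ℕ) (s : List ℕ) (q : LW) : oba_h n (single s (single q 1)) =
    if oba_t s + npW q = n then single s (single q 1) else 0 := by
  unfold oba_h
  rw [Finsupp.lsum_single, LinearMap.comp_apply, Finsupp.lift_apply, Finsupp.sum_single_index
    (by rw [zero_smul]), one_smul, Finsupp.lsingle_apply]
  split_ifs
  · rfl
  · rw [Finsupp.single_zero]

private theorem oba_ind (p : UL → Prop) (h0 : p 0) (hadd : ∀ x y, p x → p y → p (x + y))
    (hs : ∀ s q, ∀ c : ℝ, p (c • single s (single q 1))) (u : UL) : p u := by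
  induction u using Finsupp.induction_linear with
  | zero => exact h0
  | add x y hx hy => exact hadd x y hx hy
  | single s v =>
    induction v using Finsupp.induction_linear with
    | zero => rw [Finsupp.single_zero]; exact h0
    | add x y hx hy => rw [Finsupp.single_add]; exact hadd _ _ hx hy
    | single q c =>
      have h1 := hs s q c
      rw [Finsupp.smul_single, Finsupp.smul_single, smul_eq_mul, mul_one] at h1
      exact h1

private theorem oba_h_apply (n : ℕ) (u : UL) (s : List ℕ) (q : LW) :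
    oba_h n u s q = if oba_t s + npW q = n then u s q else 0 := by
  induction u using oba_ind with
  | h0 => simp
  | hadd x y hx hy =>
    rw [map_add, Finsupp.add_apply, Finsupp.add_apply, hx, hy, Finsupp.add_apply,
      Finsupp.add_apply]
    split_ifs
    · rfl
    · rw [add_zero]
  | hs s' q' c =>
    rw [map_smul, oba_h_single, Finsupp.smul_apply, Finsupp.smul_apply, Finsupp.smul_apply,
      Finsupp.smul_apply]
    by_cases h1 : s = s' ∧ q = q'
    · rw [h1.1, h1.2]
      split_ifs
      · rfl
      · rw [Finsupp.zero_apply, Finsupp.zero_apply, smul_zero]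
    · have h2 : (single s' (single q' (1 : ℝ)) : UL) s q = 0 := by
        by_cases h3 : s = s'
        · rw [h3, Finsupp.single_eq_same, Finsupp.single_eq_of_ne]
          exact fun h4 => h1 ⟨h3, h4⟩
        · rw [Finsupp.single_eq_of_ne h3, Finsupp.zero_apply]
      rw [h2, smul_zero, ite_self]
      split_ifs
      · rw [h2, smul_zero]
      · rw [Finsupp.zero_apply, Finsupp.zero_apply, smul_zero]

private theorem oba_h_id (n : ℕ) (u : UL) (h : ∀ s q, u s q ≠ 0 → oba_t s + npW q = n) :
    oba_h n u = u := by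
  ext s q
  rw [oba_h_apply]
  split_ifs with h1
  · rfl
  · by_contra hc
    exact h1 (h s q fun h2 => hc h2.symm)

private theorem oba_h_ne (n : ℕ) (u : UL) (h : ∀ s q, u s q ≠ 0 → oba_t s + npW q ≠ n) :
    oba_h n u = 0 := by
  ext s q
  rw [oba_h_apply]
  split_ifs with h1
  · by_contra hc
    exact h s q hc h1
  · rfl

private theorem oba_h_bd (n : ℕ) (u : UL) : oba_h n (bd eA u) = bd eA (oba_h n u) := by
  induction u using oba_ind with
  | h0 => simp
  | hadd x y hx hy => rw [map_add, map_add, map_add, map_add, hx, hy]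
  | hs s q c =>
    rw [map_smul, map_smul, map_smul, map_smul, oba_h_single]
    split_ifs with h1
    · rw [oba_h_id]
      intro s' q' h2
      rw [oba_bd_tot s q s' q' h2, h1]
    · rw [map_zero, oba_h_ne]
      intro s' q' h2
      rw [oba_bd_tot s q s' q' h2]
      exact h1

private theorem oba_part (m r n k : ℕ) (x y : UL)
    (hx : ∀ s q, x s q ≠ 0 → oba_t s + npW q = n)
    (hy1 : ∀ l, y l ≠ 0 → l.length + m = r) (hy2 : ∀ l, y l ∈ Tk m k) (hyx : bd eA y = x) :
    ∃ z ∈ CB m r n k, bd eA z = x := by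
  refine ⟨oba_h n y, ?_, ?_⟩
  · have h1 : ∀ s q, oba_h n y s q ≠ 0 → y s q ≠ 0 ∧ oba_t s + npW q = n := by
      intro s q h
      rw [oba_h_apply] at h
      split_ifs at h with h2
      · exact ⟨h, h2⟩
      · exact absurd rfl h
    have h3 : ∀ s q, oba_h n y s q ≠ 0 → q.length = m ∧ (∀ w ∈ q, Zw w) ∧ nzW q = k ∧
        s.length + m = r ∧ oba_t s + npW q = n := by
      intro s q h
      obtain ⟨h4, h5⟩ := h1 s q h
      have h6 := (Tk_mem m k _).1 (hy2 s)
      have h7 := h6.1
      unfold TT at h7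
      rw [Finsupp.mem_supported] at h7
      have h8 := h7 (Finset.mem_coe.2 (Finsupp.mem_support_iff.2 h4))
      refine ⟨h8.1, h8.2, h6.2 q h4, hy1 s ?_, h5⟩
      intro h9
      rw [h9] at h4
      exact h4 rfl
    refine ⟨fun s q h => ?_, fun s q h => (h3 s q h).1⟩
    obtain ⟨h4, h5, h6, h7, h8⟩ := h3 s q h
    exact ⟨by omega, h8, h6, h5⟩
  · rw [← oba_h_bd, hyx, oba_h_id n x hx]

private theorem oba_CB (m r n k : ℕ) (u : UL) (hu : u ∈ CB m r n k) (s : List ℕ) (q : LW)
    (h : u s q ≠ 0) : q.length = m ∧ s.length + m = r ∧ oba_t s + npW q = n ∧ nzW q = k ∧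
      ∀ w ∈ q, Zw w := by
  obtain ⟨h1, h2⟩ := hu
  obtain ⟨h3, h4, h5, h6⟩ := h1 s q h
  have h7 := h2 s q h
  exact ⟨h7, by omega, h4, h5, h6⟩

private theorem oba_CB_Tk (m r n k : ℕ) (u : UL) (hu : u ∈ CB m r n k) (s : List ℕ) :
    u s ∈ Tk m k := by
  rw [Tk_mem]
  constructor
  · unfold TT
    rw [Finsupp.mem_supported]
    intro q hq
    have h := oba_CB m r n k u hu s q (Finsupp.mem_support_iff.1 (Finset.mem_coe.1 hq))
    exact ⟨h.1, h.2.2.2.2⟩
  · intro q hq
    exact (oba_CB m r n k u hu s q hq).2.2.2.1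

private theorem oba_CB_len (m r n k : ℕ) (u : UL) (hu : u ∈ CB m r n k) (s : List ℕ)
    (h : u s ≠ 0) : s.length + m = r := by
  obtain ⟨q, hq⟩ := Finsupp.ne_iff.1 h
  exact (oba_CB m r n k u hu s q hq).2.1

private theorem oba_CB_bot (m r n k : ℕ) (h : (m = 0 ∧ 1 ≤ k) ∨ r < m) (u : UL)
    (hu : u ∈ CB m r n k) : u = 0 := by
  ext s q
  rw [Finsupp.zero_apply, Finsupp.zero_apply]
  by_contra hc
  obtain ⟨h1, h2, h3, h4, h5⟩ := oba_CB m r n k u hu s q hc
  rcases h with ⟨h6, h7⟩ | h6
  · rw [h6] at h1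
    have h8 := List.length_eq_zero_iff.1 h1
    rw [h8] at h4
    have h9 : nzW [] = 0 := rfl
    omega
  · omega

theorem ZB_sta (m r k N : ℕ) : Sta (V := UL) yU N (ZB m r k) := by
  intro j _ _
  constructor
  · intro L v hv
    obtain ⟨h1, h2⟩ := hv
    refine ⟨?_, ?_⟩
    · apply CB_yU
      rw [← mul_add]
      exact h1
    · apply LinearMap.mem_ker.2
      rw [← yU_bd, LinearMap.mem_ker.1 h2, map_zero]
  · intro L hL v hv
    exact CU_low m r (2 * L) k j v (CB_le _ _ _ _ hv.1) (by omega)

theorem BB_sta (m r k N : ℕ) : Sta (V := UL) yU N (BB m r k) := by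
  intro j _ _
  constructor
  · intro L v hv
    obtain ⟨w, hw, rfl⟩ := Submodule.mem_map.1 hv
    rw [yU_bd]
    apply Submodule.mem_map_of_mem
    apply CB_yU
    rw [← mul_add]
    exact hw
  · intro L hL v hv
    obtain ⟨w, hw, rfl⟩ := Submodule.mem_map.1 hv
    rw [yU_bd, CU_low m (r + 1) (2 * L) k j w (CB_le _ _ _ _ hw) (by omega), map_zero]

theorem BB_le (m r k L : ℕ) : BB m r k L ≤ ZB m r k L := by
  intro v hv
  obtain ⟨w, hw, rfl⟩ := Submodule.mem_map.1 hv
  exact ⟨CB_bd _ _ _ _ _ hw, LinearMap.mem_ker.2 (bd_bd w)⟩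

theorem art_bar (m r k : ℕ) (hk : 1 ≤ k) : Art (V := UL) yU k (ZB m r k) (BB m r k) := by
  by_cases h0 : m = 0 ∨ r < m
  · apply art_triv
    intro L v hv
    have h1 : v = 0 := oba_CB_bot m r (2 * L) k (h0.imp (fun h => ⟨h, hk⟩) id) v hv.1
    rw [h1]
    exact Submodule.zero_mem _
  rw [not_or, not_lt] at h0
  obtain ⟨hm0, hmr⟩ := h0
  obtain ⟨m', rfl⟩ := Nat.exists_eq_succ_of_ne_zero hm0
  rw [Nat.succ_eq_add_one] at hmr ⊢
  by_cases h1 : r = m' + 1
  · subst h1
    refine art_surj yW yU k (TF (m' + 1) k 0) (fun _ => ⊥) _ _ (Finsupp.lsingle []) ?_ ?_ ?_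
      (TF_sta _ _ _ _) (fun L => bot_le) (art_TF _ _ _)
    · intro j L v _
      rw [Finsupp.lsingle_apply, Finsupp.lsingle_apply, oba_yU_single]
    · intro L v hv
      rw [(Submodule.mem_bot ℝ).1 hv, map_zero]
      exact Submodule.zero_mem _
    · intro L v' hv'
      refine ⟨v' [], ?_, ?_⟩
      · unfold TF
        rw [Finsupp.mem_supported]
        intro q hq
        have h2 := oba_CB _ _ _ _ _ hv'.1 [] q (Finsupp.mem_support_iff.1 (Finset.mem_coe.1 hq))
        refine ⟨h2.1, h2.2.2.2.2, ?_, h2.2.2.2.1⟩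
        have h3 : oba_t [] = 0 := rfl
        have h4 := h2.2.2.1
        omega
      · have h2 : v' = single [] (v' []) := by
          ext1 s
          by_cases hs : s = []
          · rw [hs, Finsupp.single_eq_same]
          · rw [Finsupp.single_eq_of_ne hs]
            by_contra hc
            have h3 := oba_CB_len _ _ _ _ _ hv'.1 s hc
            exact hs (List.length_eq_zero_iff.1 (by omega))
        rw [Finsupp.lsingle_apply, ← h2, sub_self]
        exact Submodule.zero_mem _
  by_cases h2 : r = m' + 1 + 1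
  · subst h2
    refine art_inj yU yW k _ _ (TF (m' + 1) k 1) (fun _ => ⊥) (bF eA) ?_ ?_ ?_ ?_
      (fun L => bot_le) (art_TF _ _ _)
    · intro j L v _
      exact oba_bF_yU j v
    · intro L v hv
      have h3 : v = v.sum fun s y => single s y := (Finsupp.sum_single v).symm
      rw [h3, map_finsuppSum]
      apply Submodule.sum_mem
      intro s hs
      have h4 := oba_CB_len _ _ _ _ _ hv.1 s (Finsupp.mem_support_iff.1 hs)
      obtain ⟨a, rfl⟩ := List.length_eq_one_iff.1 (show s.length = 1 by omega)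
      change bF eA (single [a] (v [a])) ∈ _
      rw [oba_bF_one]
      split_ifs
      · apply Submodule.smul_mem
        unfold TF
        rw [Finsupp.mem_supported]
        intro q hq
        have h5 := Finsupp.mem_support_iff.1 (Finset.mem_coe.1 hq)
        have h6 := Tk_act (m' + 1) k a _ (oba_CB_Tk _ _ _ _ _ hv.1 [a])
        rw [Tk_mem] at h6
        have h7 := h6.1
        unfold TT at h7
        rw [Finsupp.mem_supported] at h7
        have h8 := h7 hq
        obtain ⟨l, h9, h10, h11, h12⟩ := oba_eA _ _ _ h5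
        have h13 := (oba_CB _ _ _ _ _ hv.1 [a] l h9).2.2.1
        refine ⟨h8.1, h8.2, ?_, h6.2 q h5⟩
        have h14 : oba_t [a] = a + 1 := by
          unfold oba_t
          simp
        omega
      · exact Submodule.zero_mem _
    · intro L v hv
      rw [Submodule.mem_bot]
      constructor
      · intro h3
        obtain ⟨y, hy1, hy2, hy3⟩ := bF_inj eA (Tk (m' + 1) k) (fun a v hv => Tk_act _ _ a v hv)
          eA_pw (fun v hv => Tk_ex m' k v hv) v
          (fun l hl => by
            have := oba_CB_len _ _ _ _ _ hv.1 l hl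
            omega)
          (fun l => oba_CB_Tk _ _ _ _ _ hv.1 l) (LinearMap.mem_ker.1 hv.2) h3
        obtain ⟨z, hz1, hz2⟩ := oba_part (m' + 1) (m' + 1 + 1 + 1) (2 * L) k v y
          (fun s q h => (oba_CB _ _ _ _ _ hv.1 s q h).2.2.1)
          (fun l hl => by
            have := hy1 l hl
            omega) hy2 hy3
        exact Submodule.mem_map.2 ⟨z, hz1, hz2⟩
      · intro h3
        obtain ⟨w, hw, rfl⟩ := Submodule.mem_map.1 h3
        exact bF_bd eA eA_pw w fun l hl => by
          have := oba_CB_len _ _ _ _ _ hw l hl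
          omega
    · intro j _ _
      constructor
      · intro L v hv
        rw [(Submodule.mem_bot ℝ).1 hv, map_zero]
        exact Submodule.zero_mem _
      · intro L _ v hv
        rw [(Submodule.mem_bot ℝ).1 hv, map_zero]
  · apply art_triv
    intro L v hv
    obtain ⟨y, hy1, hy2, hy3⟩ := bar_exact_sub eA (Tk (m' + 1) k)
      (fun a v hv => Tk_act _ _ a v hv) (fun v hv => Tk_one _ _ v hv) eA_pw
      (fun v hv => Tk_ex m' k v hv) (r - (m' + 1)) (by omega) v
      (fun l hl => by
        have := oba_CB_len _ _ _ _ _ hv.1 l hl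
        omega)
      (fun l => oba_CB_Tk _ _ _ _ _ hv.1 l) (LinearMap.mem_ker.1 hv.2)
    obtain ⟨z, hz1, hz2⟩ := oba_part (m' + 1) (r + 1) (2 * L) k v y
      (fun s q h => (oba_CB _ _ _ _ _ hv.1 s q h).2.2.1)
      (fun l hl => by
        have := hy1 l hl
        omega) hy2 hy3
    exact Submodule.mem_map.2 ⟨z, hz1, hz2⟩

end BrV
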