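import Pool.Agent.Lib.BrV.LDef

/-!
# Part 4 (growth of all Betti numbers for fixed `k`): definitions.
Paper: /team-store/MP_97e538_al_paper4.md
-/

namespace BrV

open Finsupp

noncomputable section

/-! ### the algebra endomorphism `lam` of `R` -/

/-- `lam` on words (head of a list = last letter) -/
def lam0 : Wd → R
  | [] => bw []
  | true :: true :: false :: u => app true (lam0 (true :: false :: u)) - app false (lam0 u)
  | true :: u => app true (lam0 u)
  | false :: true :: true :: u => app false (lam0 (true :: true :: u)) + app false (lam0 u)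
  | false :: u => app false (lam0 u)

/-- linear extension -/
def lam : R →ₗ[ℝ] R := Finsupp.lift R ℝ Wd lam0

/-- `lam` on all words of a list -/
def lamW0 : LW → CW
  | [] => single [] 1
  | w :: l => cb (lam0 w) (lamW0 l)

/-- linear extension -/
def lamW : CW →ₗ[ℝ] CW := Finsupp.lift CW ℝ LW lamW0

/-- the component of `lamW` which lowers the number of letters `p` by `2 * j` -/
def yW (j : ℕ) : CW →ₗ[ℝ] CW :=
  Finsupp.lift CW ℝ LW fun q => (lamW0 q).filter fun q' => npW q' + 2 * j = npW q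

/-! ### the model of the lists of words -/

/-- the model: `0` separates the words, `a + 1` stands for the letter `x_a` -/
abbrev MX : Type := List ℕ →₀ ℝ

/-- number of the separators -/
def nNo (s : List ℕ) : ℕ := s.countP fun o => o = 0

/-- number of the letters -/
def nSo (s : List ℕ) : ℕ := s.countP fun o => o ≠ 0

/-- sum of the letters -/
def sSo (s : List ℕ) : ℕ := (s.map fun o => o - 1).sum

/-- add an entry at the head -/
def co1 (o : ℕ) : MX →ₗ[ℝ] MX := Finsupp.lmapDomain ℝ ℝ (List.cons o)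

/-- replace the first word `w` by `(w * p^a) z` -/
def apC (a : ℕ) : CW →ₗ[ℝ] CW := Finsupp.lift CW ℝ LW fun q =>
  match q with
  | [] => 0
  | w :: l => cl (app false (mu (bw w) (bw (pw a)))) l

/-- the list of words of a list of letters and separators -/
def XX0 : List ℕ → CW
  | [] => single [] 1
  | 0 :: s => cns [] (XX0 s)
  | (a + 1) :: s => apC a (XX0 s)

/-- linear extension -/
def XX : MX →ₗ[ℝ] CW := Finsupp.lift CW ℝ (List ℕ) XX0

/-- elementary symmetric functions of the operators `x_a ↦ x_(a-2)` -/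
def EO0 : ℕ → List ℕ → MX
  | 0, [] => single [] 1
  | _ + 1, [] => 0
  | j, 0 :: s => co1 0 (EO0 j s)
  | 0, (a + 1) :: s => co1 (a + 1) (EO0 0 s)
  | j + 1, (a + 1) :: s => co1 (a + 1) (EO0 (j + 1) s) +
      if 2 ≤ a then co1 (a - 1) (EO0 j s) else 0

/-- linear extension -/
def EO (j : ℕ) : MX →ₗ[ℝ] MX := Finsupp.lift MX ℝ (List ℕ) (EO0 j)

/-- the letter number `i` is lowered by two -/
def tO0 : ℕ → List ℕ → MX
  | _, [] => 0
  | i, 0 :: s => co1 0 (tO0 i s)
  | 0, (a + 1) :: s => if 2 ≤ a then single ((a - 1) :: s) 1 else 0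
  | i + 1, (a + 1) :: s => co1 (a + 1) (tO0 i s)

/-- linear extension -/
def tO (i : ℕ) : MX →ₗ[ℝ] MX := Finsupp.lift MX ℝ (List ℕ) (tO0 i)

/-- elementary symmetric functions without the letter number `i` -/
def FO0 : ℕ → ℕ → List ℕ → MX
  | _, _, [] => 0
  | i, j, 0 :: s => co1 0 (FO0 i j s)
  | 0, j, (a + 1) :: s => co1 (a + 1) (EO0 j s)
  | i + 1, 0, (a + 1) :: s => co1 (a + 1) (FO0 i 0 s)
  | i + 1, j + 1, (a + 1) :: s => co1 (a + 1) (FO0 i (j + 1) s) +
      if 2 ≤ a then co1 (a - 1) (FO0 i j s) else 0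

/-- linear extension -/
def FO (i j : ℕ) : MX →ₗ[ℝ] MX := Finsupp.lift MX ℝ (List ℕ) (FO0 i j)

/-! ### stable families and the descending chain condition -/

/-- the family `X` is stable under `y 1, .., y m`; `y j` lowers the index by `j` -/
def Sta {V : Type} [AddCommGroup V] [Module ℝ V] (y : ℕ → V →ₗ[ℝ] V) (m : ℕ)
    (X : ℕ → Submodule ℝ V) : Prop :=
  ∀ j, 1 ≤ j → j ≤ m → (∀ L, ∀ v ∈ X (L + j), y j v ∈ X L) ∧
    ∀ L, L < j → ∀ v ∈ X L, y j v = 0

/-- descending chain condition for the stable families between `B` and `Z` -/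
def Art {V : Type} [AddCommGroup V] [Module ℝ V] (y : ℕ → V →ₗ[ℝ] V) (m : ℕ)
    (Z B : ℕ → Submodule ℝ V) : Prop :=
  ∀ X : ℕ → ℕ → Submodule ℝ V, (∀ a, Sta y m (X a)) →
    (∀ a L, B L ≤ X a L ∧ X a L ≤ Z L) → (∀ a L, X (a + 1) L ≤ X a L) →
    ∃ a₀, ∀ a, a₀ ≤ a → ∀ L, X a L = X a₀ L

/-- the operators `1, .., m` commute on `Z` -/
def Cmm {V : Type} [AddCommGroup V] [Module ℝ V] (y : ℕ → V →ₗ[ℝ] V)
    (Z : ℕ → Submodule ℝ V) : Prop :=
  ∀ i j L, ∀ v ∈ Z L, y i (y j v) = y j (y i v)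

/-- the model family -/
def MF (m k δ : ℕ) (L : ℕ) : Submodule ℝ MX :=
  supported ℝ ℝ {s | nNo s = m ∧ nSo s = k ∧ sSo s + δ = 2 * L}

/-- lists of `m` words ending in `z`, with `2 L - δ` letters `p` and `k` letters `z` -/
def TF (m k δ : ℕ) (L : ℕ) : Submodule ℝ CW :=
  supported ℝ ℝ {q | q.length = m ∧ (∀ w ∈ q, Zw w) ∧ npW q + δ = 2 * L ∧ nzW q = k}

/-! ### the small complex -/

/-- lists of positive integers (`a` stands for `a + 1`) with coefficients in lists of words -/
abbrev UL : Type := List ℕ →₀ CW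

/-- the operators on the coefficients -/
def yU (j : ℕ) : UL →ₗ[ℝ] UL := Finsupp.mapRange.linearMap (yW j)

/-- sign `(-1)^(length)` -/
def sgU : UL →ₗ[ℝ] UL := Finsupp.lsum ℝ fun s => ((-1 : ℝ) ^ s.length) • Finsupp.lsingle s

/-- the differential -/
def dU : UL →ₗ[ℝ] UL := bd eA - sgU.comp (Finsupp.mapRange.linearMap bz)

/-- homogeneous of degree `r` and bidegree `(n, k)`, all words end in `z` -/
def IsU (r n k : ℕ) (u : UL) : Prop := ∀ s q, u s q ≠ 0 →
  s.length + q.length = r ∧ (s.map fun a => a + 1).sum + npW q = n ∧ nzW q = k ∧ ∀ w ∈ q, Zw w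

/-- the subspace of the elements with `IsU r n k` and lists of words of length at most `M` -/
def CU (M r n k : ℕ) : Submodule ℝ UL where
  carrier := {u | IsU r n k u ∧ ∀ s q, u s q ≠ 0 → q.length ≤ M}
  zero_mem' := ⟨fun s q h => absurd rfl h, fun s q h => absurd rfl h⟩
  add_mem' := by
    rintro x y ⟨h1, h2⟩ ⟨h3, h4⟩
    have key : ∀ s q, (x + y) s q ≠ 0 → x s q ≠ 0 ∨ y s q ≠ 0 := by
      intro s q h
      by_contra hc
      rw [not_or, not_not, not_not] at hc
      exact h (by rw [Finsupp.add_apply, Finsupp.add_apply, hc.1, hc.2, add_zero])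
    exact ⟨fun s q h => (key s q h).elim (h1 s q) (h3 s q),
      fun s q h => (key s q h).elim (h2 s q) (h4 s q)⟩
  smul_mem' := by
    rintro a x ⟨h1, h2⟩
    have key : ∀ s q, (a • x) s q ≠ 0 → x s q ≠ 0 := by
      intro s q h h'
      exact h (by rw [Finsupp.smul_apply, Finsupp.smul_apply, h', smul_zero])
    exact ⟨fun s q h => h1 s q (key s q h), fun s q h => h2 s q (key s q h)⟩

/-- cycles -/
def ZU (M r k : ℕ) (L : ℕ) : Submodule ℝ UL := CU M r (2 * L) k ⊓ LinearMap.ker dU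

/-- boundaries -/
def BU (M r k : ℕ) (L : ℕ) : Submodule ℝ UL := (CU M (r + 1) (2 * L) k).map dU

/-- the lists of exactly `m` words -/
def CB (m r n k : ℕ) : Submodule ℝ UL where
  carrier := {u | IsU r n k u ∧ ∀ s q, u s q ≠ 0 → q.length = m}
  zero_mem' := ⟨fun s q h => absurd rfl h, fun s q h => absurd rfl h⟩
  add_mem' := by
    rintro x y ⟨h1, h2⟩ ⟨h3, h4⟩
    have key : ∀ s q, (x + y) s q ≠ 0 → x s q ≠ 0 ∨ y s q ≠ 0 := by
      intro s q h
      by_contra hc
      rw [not_or, not_not, not_not] at hc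
      exact h (by rw [Finsupp.add_apply, Finsupp.add_apply, hc.1, hc.2, add_zero])
    exact ⟨fun s q h => (key s q h).elim (h1 s q) (h3 s q),
      fun s q h => (key s q h).elim (h2 s q) (h4 s q)⟩
  smul_mem' := by
    rintro a x ⟨h1, h2⟩
    have key : ∀ s q, (a • x) s q ≠ 0 → x s q ≠ 0 := by
      intro s q h h'
      exact h (by rw [Finsupp.smul_apply, Finsupp.smul_apply, h', smul_zero])
    exact ⟨fun s q h => h1 s q (key s q h), fun s q h => h2 s q (key s q h)⟩

/-- cycles of the bar complex of `span {p^j}` with coefficients in the lists of `m` words -/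
def ZB (m r k : ℕ) (L : ℕ) : Submodule ℝ UL := CB m r (2 * L) k ⊓ LinearMap.ker (bd eA)

/-- boundaries -/
def BB (m r k : ℕ) (L : ℕ) : Submodule ℝ UL := (CB m (r + 1) (2 * L) k).map (bd eA)

/-! ### the total complex of `Φ(Y)` -/

/-- sign `(-1)^(rI i)` -/
def SG : PhL →ₗ[ℝ] PhL := Finsupp.lsum ℝ fun i => ((-1 : ℝ) ^ rI i) • Finsupp.lsingle i

/-- the total differential -/
def dt : PhL →ₗ[ℝ] PhL := DL + SG.comp BZ

/-- homogeneous of total degree `t` (indices and length of the lists) and bidegree `(n, k)` -/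
def IsD (t n k : ℕ) (x : PhL) : Prop := ∀ i q, x i q ≠ 0 →
  rI i + q.length = t ∧ nI i + npW q = n ∧ kI i + nzW q = k ∧
    (∀ w ∈ q, w = [] ∨ Zw w) ∧ ∀ w ∈ q.tail, Zw w

/-- less than `k` letters `z` in the tails of the lists -/
def IsA (k : ℕ) (x : PhL) : Prop := ∀ i q, x i q ≠ 0 → nzW q.tail < k

/-- only the empty list -/
def IsE (x : PhL) : Prop := ∀ i q, x i q ≠ 0 → q = []

/-! ### sequences -/

/-- `∏_{j=1}^m (1 - T^j)` -/
def pT (m : ℕ) : PowerSeries ℤ := ∏ j ∈ Finset.range m, (1 - PowerSeries.X ^ (j + 1))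

/-- the series of `d` is a polynomial divided by `∏_{j=1}^m (1 - T^j)` -/
def Rat (m : ℕ) (P : Polynomial ℤ) (d : ℕ → ℕ) : Prop :=
  pT m * PowerSeries.mk (fun L => (d L : ℤ)) = (P : PowerSeries ℤ)

end

end BrV
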