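import Pool.Agent.Lib.BrV.ODef

/-!
# BrV.OEO: the operators `EO j` of the model (paper 4, section 2): only lists and `Finsupp`

All statements by induction on the list `s` (`EO j (co1 0 v) = co1 0 (EO j v)`, `EO 0 (co1 (a+1) v) = co1 (a+1) (EO 0 v)`,
`EO (j+1) (co1 (a+1) v) = co1 (a+1) (EO (j+1) v) + if 2 ≤ a then co1 (a-1) (EO j v) else 0`: linear in `v`; note `a - 1 = (a - 2) + 1` for `2 ≤ a`, so `co1 (a-1)` is again a letter).
* `EO_single`: unfold.  `EO_supp`: the letters are lowered by `2` at `j` places.  `EO_big`: `EO0 j s = 0` for `j > nSo s`.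
* `EO_comm`: both orders give `co1 (a+1) (E_i E_j s) + [2 ≤ a] co1 (a-1) (E_(i-1) E_j s + E_i E_(j-1) s) + [4 ≤ a] co1 (a-3) (E_(i-1) E_(j-1) s)` (terms with a negative index are `0`).
-/

namespace BrV

open Finsupp

private theorem OEO_co1_single (o : ℕ) (s : List ℕ) (c : ℝ) :
    co1 o (single s c) = single (o :: s) c := by
  simp [co1, mapDomain_single]

private theorem OEO_ext {φ ψ : MX →ₗ[ℝ] MX} (h : ∀ s, φ (single s 1) = ψ (single s 1)) (v : MX) :
    φ v = ψ v := by
  have h1 : φ = ψ := by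
    apply Finsupp.lhom_ext
    intro a b
    have h2 : (single a b : MX) = b • single a 1 := by simp
    rw [h2, map_smul, map_smul, h a]
  rw [h1]

private theorem OEO_co1_ne (o : ℕ) (v : MX) (s' : List ℕ) (h : co1 o v s' ≠ 0) :
    ∃ t, s' = o :: t ∧ v t ≠ 0 := by
  have h0 : co1 o v = Finsupp.mapDomain (List.cons o) v := rfl
  rw [h0] at h
  by_cases hr : s' ∈ Set.range (List.cons o)
  · obtain ⟨t, rfl⟩ := hr
    refine ⟨t, rfl, ?_⟩
    rwa [Finsupp.mapDomain_apply (List.cons_injective)] at h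
  · exact absurd (Finsupp.mapDomain_of_notMem_range v s' hr) h

theorem EO_single (j : ℕ) (s : List ℕ) : EO j (single s 1) = EO0 j s := by
  simp [EO]

theorem EO_co1_zero (j : ℕ) (v : MX) : EO j (co1 0 v) = co1 0 (EO j v) := by
  refine OEO_ext (φ := (EO j).comp (co1 0)) (ψ := (co1 0).comp (EO j)) (fun s => ?_) v
  simp only [LinearMap.comp_apply]
  rw [OEO_co1_single, EO_single, EO_single, EO0]

theorem EO_zero_co1 (a : ℕ) (v : MX) : EO 0 (co1 (a + 1) v) = co1 (a + 1) (EO 0 v) := by
  refine OEO_ext (φ := (EO 0).comp (co1 (a + 1))) (ψ := (co1 (a + 1)).comp (EO 0))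
    (fun s => ?_) v
  simp only [LinearMap.comp_apply]
  rw [OEO_co1_single, EO_single, EO_single, EO0]

theorem EO_succ_co1 (j a : ℕ) (v : MX) : EO (j + 1) (co1 (a + 1) v) =
    co1 (a + 1) (EO (j + 1) v) + if 2 ≤ a then co1 (a - 1) (EO j v) else 0 := by
  by_cases ha : 2 ≤ a
  · rw [if_pos ha]
    refine OEO_ext (φ := (EO (j + 1)).comp (co1 (a + 1)))
      (ψ := (co1 (a + 1)).comp (EO (j + 1)) + (co1 (a - 1)).comp (EO j)) (fun s => ?_) v
    simp only [LinearMap.comp_apply, LinearMap.add_apply]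
    rw [OEO_co1_single, EO_single, EO_single, EO_single, EO0, if_pos ha]
  · rw [if_neg ha, add_zero]
    refine OEO_ext (φ := (EO (j + 1)).comp (co1 (a + 1)))
      (ψ := (co1 (a + 1)).comp (EO (j + 1))) (fun s => ?_) v
    simp only [LinearMap.comp_apply]
    rw [OEO_co1_single, EO_single, EO_single, EO0, if_neg ha, add_zero]

private theorem OEO_nNo_zero (s : List ℕ) : nNo (0 :: s) = nNo s + 1 := by
  simp [nNo]

private theorem OEO_nSo_zero (s : List ℕ) : nSo (0 :: s) = nSo s := by
  simp [nSo]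

private theorem OEO_sSo_zero (s : List ℕ) : sSo (0 :: s) = sSo s := by
  simp [sSo]

private theorem OEO_nNo_succ (a : ℕ) (s : List ℕ) : nNo ((a + 1) :: s) = nNo s := by
  simp [nNo]

private theorem OEO_nSo_succ (a : ℕ) (s : List ℕ) : nSo ((a + 1) :: s) = nSo s + 1 := by
  simp [nSo]

private theorem OEO_sSo_succ (a : ℕ) (s : List ℕ) : sSo ((a + 1) :: s) = a + sSo s := by
  simp [sSo]

theorem EO_supp (j : ℕ) (s s' : List ℕ) (h : EO0 j s s' ≠ 0) :
    nNo s' = nNo s ∧ nSo s' = nSo s ∧ sSo s' + 2 * j = sSo s := by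
  induction s generalizing j s' with
  | nil =>
    cases j with
    | zero =>
      rw [EO0] at h
      have h1 : s' = [] := by
        by_contra hne
        exact h (Finsupp.single_eq_of_ne (by simpa using hne))
      subst h1
      simp
    | succ j =>
      rw [EO0] at h
      exact absurd rfl h
  | cons o s ih =>
    rcases o with _ | a
    · rw [EO0] at h
      obtain ⟨t, rfl, ht⟩ := OEO_co1_ne _ _ _ h
      obtain ⟨h1, h2, h3⟩ := ih j t ht
      rw [OEO_nNo_zero, OEO_nNo_zero, OEO_nSo_zero, OEO_nSo_zero, OEO_sSo_zero, OEO_sSo_zero]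
      exact ⟨by rw [h1], h2, h3⟩
    · cases j with
      | zero =>
        rw [EO0] at h
        obtain ⟨t, rfl, ht⟩ := OEO_co1_ne _ _ _ h
        obtain ⟨h1, h2, h3⟩ := ih 0 t ht
        rw [OEO_nNo_succ, OEO_nNo_succ, OEO_nSo_succ, OEO_nSo_succ, OEO_sSo_succ, OEO_sSo_succ]
        exact ⟨h1, by rw [h2], by omega⟩
      | succ j =>
        rw [EO0, Finsupp.add_apply] at h
        have h' : co1 (a + 1) (EO0 (j + 1) s) s' ≠ 0 ∨
            (if 2 ≤ a then co1 (a - 1) (EO0 j s) else 0 : MX) s' ≠ 0 := by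
          by_contra hc
          push Not at hc
          exact h (by rw [hc.1, hc.2, add_zero])
        rcases h' with h' | h'
        · obtain ⟨t, rfl, ht⟩ := OEO_co1_ne _ _ _ h'
          obtain ⟨h1, h2, h3⟩ := ih (j + 1) t ht
          rw [OEO_nNo_succ, OEO_nNo_succ, OEO_nSo_succ, OEO_nSo_succ, OEO_sSo_succ,
            OEO_sSo_succ]
          exact ⟨h1, by rw [h2], by omega⟩
        · by_cases ha : 2 ≤ a
          · rw [if_pos ha] at h'
            obtain ⟨t, rfl, ht⟩ := OEO_co1_ne _ _ _ h'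
            obtain ⟨h1, h2, h3⟩ := ih j t ht
            obtain ⟨b, rfl⟩ : ∃ b, a = b + 2 := ⟨a - 2, by omega⟩
            have hb : b + 2 - 1 = b + 1 := by omega
            rw [hb, OEO_nNo_succ, OEO_nNo_succ, OEO_nSo_succ, OEO_nSo_succ, OEO_sSo_succ,
              OEO_sSo_succ]
            exact ⟨h1, by rw [h2], by omega⟩
          · rw [if_neg ha] at h'
            exact absurd rfl h'

theorem EO_big (j : ℕ) (s : List ℕ) (h : nSo s < j) : EO0 j s = 0 := by
  induction s generalizing j with
  | nil =>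
    cases j with
    | zero => exact absurd h (Nat.not_lt_zero _)
    | succ j => rw [EO0]
  | cons o s ih =>
    rcases o with _ | a
    · rw [OEO_nSo_zero] at h
      rw [EO0, ih j h, map_zero]
    · rw [OEO_nSo_succ] at h
      cases j with
      | zero => exact absurd h (Nat.not_lt_zero _)
      | succ j =>
        rw [EO0, ih (j + 1) (by omega), ih j (by omega), map_zero, map_zero]
        simp

private theorem OEO_comm0 (s : List ℕ) (i j : ℕ) : EO i (EO0 j s) = EO j (EO0 i s) := by
  induction s generalizing i j with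
  | nil =>
    rcases i with _ | i <;> rcases j with _ | j
    · rfl
    · rw [EO0, EO0, map_zero, EO_single, EO0]
    · rw [EO0, EO0, map_zero, EO_single, EO0]
    · rw [EO0, EO0, map_zero, map_zero]
  | cons o s ih =>
    rcases o with _ | a
    · rw [EO0, EO0, EO_co1_zero, EO_co1_zero, ih i j]
    · by_cases ha : 2 ≤ a
      · obtain ⟨b, rfl⟩ : ∃ b, a = b + 2 := ⟨a - 2, by omega⟩
        have hb : b + 2 - 1 = b + 1 := by omega
        rcases i with _ | i <;> rcases j with _ | j
        · rfl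
        · rw [EO0, EO0, if_pos ha, hb, map_add, EO_zero_co1, EO_zero_co1, EO_succ_co1,
            if_pos ha, hb, ih 0 (j + 1), ih 0 j]
        · rw [EO0, EO0, if_pos ha, hb, map_add, EO_zero_co1, EO_zero_co1, EO_succ_co1,
            if_pos ha, hb, ih (i + 1) 0, ih i 0]
        · rw [EO0, EO0, if_pos ha, if_pos ha, hb, map_add, map_add, EO_succ_co1, EO_succ_co1,
            EO_succ_co1, EO_succ_co1, if_pos ha, if_pos ha, hb, ih (i + 1) (j + 1),
            ih i (j + 1), ih (i + 1) j, ih i j]
          abel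
      · rcases i with _ | i <;> rcases j with _ | j
        · rfl
        · rw [EO0, EO0, if_neg ha, add_zero, EO_zero_co1, EO_succ_co1, if_neg ha, add_zero,
            ih 0 (j + 1)]
        · rw [EO0, EO0, if_neg ha, add_zero, EO_zero_co1, EO_succ_co1, if_neg ha, add_zero,
            ih (i + 1) 0]
        · rw [EO0, EO0, if_neg ha, if_neg ha, add_zero, add_zero, EO_succ_co1, EO_succ_co1,
            if_neg ha, if_neg ha, add_zero, add_zero, ih (i + 1) (j + 1)]

theorem EO_comm (i j : ℕ) (v : MX) : EO i (EO j v) = EO j (EO i v) := by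
  refine OEO_ext (φ := (EO i).comp (EO j)) (ψ := (EO j).comp (EO i)) (fun s => ?_) v
  simp only [LinearMap.comp_apply]
  rw [EO_single, EO_single]
  exact OEO_comm0 s i j

end BrV
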