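import Pool.Agent.Lib.BrV.OEO

/-!
# BrV.OFO: the common kernel of the operators of the model (paper 4, section 2): only lists and `Finsupp`

`tO i` lowers the letter number `i` by two, `FO i j` = elementary symmetric function without the letter number `i`.  Rules for `co1` as in `OEO.lean` (linear in `v`).
* `EO_split`: for `i < nSo s`: `EO0 (j+1) s = FO0 i (j+1) s + tO i (FO0 i j s)`; `EO0 0 s = single s 1 = FO0 i 0 s`.  Letter number `0`: the definition (`tO 0 (co1 (a+1) v) = if 2 ≤ a then co1 (a-1) v else 0`).  Letter number `i + 1`: induction on `s`.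
* `FO_big`: `FO0 i j s = 0` for `nSo s ≤ j` and `i < nSo s` (there are `nSo s - 1` other letters; `EO_big` for `i = 0`).
* `FO0 i j s`, `tO0 i s` are supported on lists with the same `nSo` (so `i < nSo` is preserved).
* For `i < k = nSo`: let `v` be supported on lists with `nSo = k` and `EO j v = 0` for `1 ≤ j ≤ k`.  By induction on `j ≤ k`: `FO i j v = (-1)^j • (tO i)^j v`: `0 = EO (j+1) v = FO i (j+1) v + tO i (FO i j v)` (`EO_split`, linear extension).
  By `FO_big` `(tO i)^k v = 0`.
* `tO_pow`: if `(tO i)^m v = 0`, `v` supported on lists with `i < nSo s`, and `v s ≠ 0`, then the letter number `i` of `s` is smaller than `2 m`: `tO i` maps the basis injectively to the basis or to `0` (induction on `s`; it is convenient to define, privately, `up i m s` =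
  the list `s` with the letter number `i` raised by `2 m`, and to show `((tO i)^m v) s' = v (up i m s')` for `i < nSo s'`).
* So all letters of all lists of the support are `< 2k`, `sSo s ≤ k * (2 k)`, while `sSo s + δ = 2 L ≥ 2 (k k + δ + 1)`.  (For `k = 0`: `sSo s = 0`.)
-/

namespace BrV

open Finsupp

private theorem OFO_co1_single (o : ℕ) (s : List ℕ) (r : ℝ) :
    co1 o (single s r) = single (o :: s) r := by
  simp [co1, Finsupp.lmapDomain_apply, Finsupp.mapDomain_single]

private theorem OFO_tO_single (i : ℕ) (s : List ℕ) : tO i (single s 1) = tO0 i s := by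
  simp [tO]

private theorem OFO_FO_single (i j : ℕ) (s : List ℕ) : FO i j (single s 1) = FO0 i j s := by
  simp [FO]

private theorem OFO_ext {f g : MX →ₗ[ℝ] MX} {S : Set (List ℕ)}
    (h : ∀ s ∈ S, f (single s 1) = g (single s 1)) {v : MX} (hv : v ∈ supported ℝ ℝ S) :
    f v = g v := by
  rw [supported_eq_span_single] at hv
  refine LinearMap.eqOn_span ?_ hv
  rintro _ ⟨s, hs, rfl⟩
  exact h s hs

private theorem OFO_ext' {f g : MX →ₗ[ℝ] MX}
    (h : ∀ s, f (single s 1) = g (single s 1)) (v : MX) : f v = g v := by
  have : v ∈ supported ℝ ℝ (Set.univ : Set (List ℕ)) := by simp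
  exact OFO_ext (fun s _ => h s) this

private theorem OFO_tO_co1_zero (i : ℕ) (v : MX) : tO i (co1 0 v) = co1 0 (tO i v) := by
  refine OFO_ext' (f := (tO i).comp (co1 0)) (g := (co1 0).comp (tO i)) (fun s => ?_) v
  rw [LinearMap.comp_apply, LinearMap.comp_apply, OFO_co1_single, OFO_tO_single, OFO_tO_single]
  rfl

private theorem OFO_tO_zero_co1 (a : ℕ) (v : MX) :
    tO 0 (co1 (a + 1) v) = if 2 ≤ a then co1 (a - 1) v else 0 := by
  by_cases ha : 2 ≤ a
  · rw [if_pos ha]
    refine OFO_ext' (f := (tO 0).comp (co1 (a + 1))) (g := co1 (a - 1)) (fun s => ?_) v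
    rw [LinearMap.comp_apply, OFO_co1_single, OFO_tO_single, OFO_co1_single]
    show (if 2 ≤ a then single ((a - 1) :: s) 1 else 0) = _
    rw [if_pos ha]
  · rw [if_neg ha]
    refine OFO_ext' (f := (tO 0).comp (co1 (a + 1))) (g := 0) (fun s => ?_) v
    rw [LinearMap.comp_apply, OFO_co1_single, OFO_tO_single, LinearMap.zero_apply]
    show (if 2 ≤ a then single ((a - 1) :: s) 1 else 0) = _
    rw [if_neg ha]

private theorem OFO_tO_succ_co1 (i a : ℕ) (v : MX) :
    tO (i + 1) (co1 (a + 1) v) = co1 (a + 1) (tO i v) := by
  refine OFO_ext' (f := (tO (i + 1)).comp (co1 (a + 1))) (g := (co1 (a + 1)).comp (tO i))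
    (fun s => ?_) v
  rw [LinearMap.comp_apply, LinearMap.comp_apply, OFO_co1_single, OFO_tO_single, OFO_tO_single]
  rfl

private theorem OFO_EO_zero (s : List ℕ) : EO0 0 s = single s 1 := by
  induction s with
  | nil => rfl
  | cons o s ih =>
    cases o with
    | zero =>
      show co1 0 (EO0 0 s) = _
      rw [ih, OFO_co1_single]
    | succ a =>
      show co1 (a + 1) (EO0 0 s) = _
      rw [ih, OFO_co1_single]

private theorem OFO_nSo_zero (s : List ℕ) : nSo (0 :: s) = nSo s := by
  simp [nSo]

private theorem OFO_nSo_succ (a : ℕ) (s : List ℕ) : nSo ((a + 1) :: s) = nSo s + 1 := by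
  simp [nSo]

private theorem OFO_FO_zero (i : ℕ) (s : List ℕ) (h : i < nSo s) :
    FO0 i 0 s = single s 1 := by
  induction s generalizing i with
  | nil => simp [nSo] at h
  | cons o s ih =>
    cases o with
    | zero =>
      rw [OFO_nSo_zero] at h
      show co1 0 (FO0 i 0 s) = _
      rw [ih i h, OFO_co1_single]
    | succ a =>
      rw [OFO_nSo_succ] at h
      cases i with
      | zero =>
        show co1 (a + 1) (EO0 0 s) = _
        rw [OFO_EO_zero, OFO_co1_single]
      | succ i =>
        show co1 (a + 1) (FO0 i 0 s) = _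
        rw [ih i (by omega), OFO_co1_single]

private theorem OFO_split (i j : ℕ) (s : List ℕ) (h : i < nSo s) :
    EO0 (j + 1) s = FO0 i (j + 1) s + tO i (FO0 i j s) := by
  induction s generalizing i j with
  | nil => simp [nSo] at h
  | cons o s ih =>
    cases o with
    | zero =>
      rw [OFO_nSo_zero] at h
      have e1 : EO0 (j + 1) (0 :: s) = co1 0 (EO0 (j + 1) s) := rfl
      have e2 : FO0 i (j + 1) (0 :: s) = co1 0 (FO0 i (j + 1) s) := rfl
      have e3 : FO0 i j (0 :: s) = co1 0 (FO0 i j s) := rfl
      rw [e1, e2, e3, OFO_tO_co1_zero, ih i j h, map_add]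
    | succ a =>
      rw [OFO_nSo_succ] at h
      have e1 : ∀ j, EO0 (j + 1) ((a + 1) :: s) = co1 (a + 1) (EO0 (j + 1) s) +
        if 2 ≤ a then co1 (a - 1) (EO0 j s) else 0 := fun _ => rfl
      cases i with
      | zero =>
        have e2 : FO0 0 (j + 1) ((a + 1) :: s) = co1 (a + 1) (EO0 (j + 1) s) := rfl
        have e3 : FO0 0 j ((a + 1) :: s) = co1 (a + 1) (EO0 j s) := rfl
        rw [e1, e2, e3, OFO_tO_zero_co1]
      | succ i =>
        have hi : i < nSo s := by omega
        have e2 : ∀ j, FO0 (i + 1) (j + 1) ((a + 1) :: s) = co1 (a + 1) (FO0 i (j + 1) s) +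
          if 2 ≤ a then co1 (a - 1) (FO0 i j s) else 0 := fun _ => rfl
        cases j with
        | zero =>
          have e3 : FO0 (i + 1) 0 ((a + 1) :: s) = co1 (a + 1) (FO0 i 0 s) := rfl
          rw [e1, e2, e3, OFO_tO_succ_co1, ih i 0 hi, OFO_EO_zero, OFO_FO_zero i s hi, map_add]
          abel
        | succ j =>
          rw [e1, e2, e2, map_add, OFO_tO_succ_co1, ih i (j + 1) hi, ih i j hi, map_add]
          by_cases ha : 2 ≤ a
          · rw [if_pos ha, if_pos ha, if_pos ha, map_add]
            obtain ⟨b, rfl⟩ : ∃ b, a = b + 2 := ⟨a - 2, by omega⟩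
            have e4 : b + 2 - 1 = b + 1 := rfl
            rw [e4, OFO_tO_succ_co1]
            abel
          · rw [if_neg ha, if_neg ha, if_neg ha, map_zero]
            abel

private theorem OFO_big (i j : ℕ) (s : List ℕ) (h : i < nSo s) (hj : nSo s ≤ j) :
    FO0 i j s = 0 := by
  induction s generalizing i j with
  | nil => simp [nSo] at h
  | cons o s ih =>
    cases o with
    | zero =>
      rw [OFO_nSo_zero] at h hj
      show co1 0 (FO0 i j s) = 0
      rw [ih i j h hj, map_zero]
    | succ a =>
      rw [OFO_nSo_succ] at h hj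
      cases i with
      | zero =>
        show co1 (a + 1) (EO0 j s) = 0
        rw [EO_big j s (by omega), map_zero]
      | succ i =>
        cases j with
        | zero => omega
        | succ j =>
          show co1 (a + 1) (FO0 i (j + 1) s) +
            (if 2 ≤ a then co1 (a - 1) (FO0 i j s) else 0) = 0
          rw [ih i (j + 1) (by omega) (by omega), ih i j (by omega) (by omega)]
          simp

/-- the letter number `i` is raised by `2 m` -/
private def OFO_up : ℕ → ℕ → List ℕ → List ℕ
  | _, _, [] => []
  | i, m, 0 :: s => 0 :: OFO_up i m s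
  | 0, m, (a + 1) :: s => (a + 2 * m + 1) :: s
  | i + 1, m, (a + 1) :: s => (a + 1) :: OFO_up i m s

private theorem OFO_up_nSo (i m : ℕ) (s : List ℕ) : nSo (OFO_up i m s) = nSo s := by
  induction s generalizing i with
  | nil => rfl
  | cons o s ih =>
    cases o with
    | zero =>
      show nSo (0 :: OFO_up i m s) = _
      rw [OFO_nSo_zero, OFO_nSo_zero, ih]
    | succ a =>
      cases i with
      | zero =>
        show nSo ((a + 2 * m + 1) :: s) = _
        rw [OFO_nSo_succ, OFO_nSo_succ]
      | succ i =>
        show nSo ((a + 1) :: OFO_up i m s) = _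
        rw [OFO_nSo_succ, OFO_nSo_succ, ih]

private theorem OFO_up_zero (i : ℕ) (s : List ℕ) : OFO_up i 0 s = s := by
  induction s generalizing i with
  | nil => rfl
  | cons o s ih =>
    cases o with
    | zero =>
      show 0 :: OFO_up i 0 s = _
      rw [ih]
    | succ a =>
      cases i with
      | zero => rfl
      | succ i =>
        show (a + 1) :: OFO_up i 0 s = _
        rw [ih]

private theorem OFO_up_up (i m : ℕ) (s : List ℕ) :
    OFO_up i 1 (OFO_up i m s) = OFO_up i (m + 1) s := by
  induction s generalizing i with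
  | nil => rfl
  | cons o s ih =>
    cases o with
    | zero =>
      show 0 :: OFO_up i 1 (OFO_up i m s) = 0 :: OFO_up i (m + 1) s
      rw [ih]
    | succ a =>
      cases i with
      | zero =>
        show (a + 2 * m + 2 * 1 + 1) :: s = (a + 2 * (m + 1) + 1) :: s
        rw [show a + 2 * m + 2 * 1 + 1 = a + 2 * (m + 1) + 1 by ring]
      | succ i =>
        show (a + 1) :: OFO_up i 1 (OFO_up i m s) = (a + 1) :: OFO_up i (m + 1) s
        rw [ih]

private theorem OFO_co1_apply (o o' : ℕ) (w : MX) (t : List ℕ) :
    (co1 o w) (o' :: t) = if o' = o then w t else 0 := by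
  by_cases h : o' = o
  · subst h
    rw [if_pos rfl]
    have hinj : Function.Injective (List.cons o') := List.cons_injective
    simp only [co1, Finsupp.lmapDomain_apply]
    exact Finsupp.mapDomain_apply hinj w t
  · rw [if_neg h]
    simp only [co1, Finsupp.lmapDomain_apply]
    refine Finsupp.mapDomain_of_notMem_range _ _ ?_
    rintro ⟨u, hu⟩
    exact h (List.cons.inj hu).1.symm

private theorem OFO_tO0_apply (i : ℕ) (s s' : List ℕ) (h : i < nSo s') :
    (tO0 i s) s' = if s = OFO_up i 1 s' then 1 else 0 := by
  induction s generalizing i s' with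
  | nil =>
    cases s' with
    | nil => simp [nSo] at h
    | cons o' t =>
      have hne : ([] : List ℕ) ≠ OFO_up i 1 (o' :: t) := by
        cases o' with
        | zero => exact List.cons_ne_nil _ _ |>.symm
        | succ b =>
          cases i with
          | zero => exact List.cons_ne_nil _ _ |>.symm
          | succ i => exact List.cons_ne_nil _ _ |>.symm
      rw [if_neg hne]
      rfl
  | cons o s ih =>
    cases s' with
    | nil => simp [nSo] at h
    | cons o' t =>
      cases o with
      | zero =>
        have e1 : tO0 i (0 :: s) = co1 0 (tO0 i s) := rfl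
        rw [e1, OFO_co1_apply]
        cases o' with
        | zero =>
          rw [OFO_nSo_zero] at h
          rw [if_pos rfl, ih i t h]
          have e2 : OFO_up i 1 (0 :: t) = 0 :: OFO_up i 1 t := rfl
          rw [e2]
          by_cases hs : s = OFO_up i 1 t
          · rw [if_pos hs, if_pos (by rw [hs])]
          · rw [if_neg hs, if_neg (fun hc => hs (List.cons.inj hc).2)]
        | succ b =>
          rw [if_neg (Nat.succ_ne_zero b)]
          cases i with
          | zero =>
            have e2 : OFO_up 0 1 ((b + 1) :: t) = (b + 2 * 1 + 1) :: t := rfl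
            rw [e2, if_neg (fun hc => by have := (List.cons.inj hc).1; omega)]
          | succ i =>
            have e2 : OFO_up (i + 1) 1 ((b + 1) :: t) = (b + 1) :: OFO_up i 1 t := rfl
            rw [e2, if_neg (fun hc => by have := (List.cons.inj hc).1; omega)]
      | succ a =>
        cases i with
        | zero =>
          have e1 : tO0 0 ((a + 1) :: s) = if 2 ≤ a then single ((a - 1) :: s) 1 else 0 := rfl
          rw [e1]
          cases o' with
          | zero =>
            have e2 : OFO_up 0 1 (0 :: t) = 0 :: OFO_up 0 1 t := rfl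
            rw [e2, if_neg (fun hc => by have := (List.cons.inj hc).1; omega :
              ¬ ((a + 1) :: s = 0 :: OFO_up 0 1 t))]
            by_cases ha : 2 ≤ a
            · rw [if_pos ha, Finsupp.single_apply,
                if_neg (fun hc => by have := (List.cons.inj hc).1; omega)]
            · rw [if_neg ha]
              rfl
          | succ b =>
            have e2 : OFO_up 0 1 ((b + 1) :: t) = (b + 2 * 1 + 1) :: t := rfl
            rw [e2]
            by_cases ha : 2 ≤ a
            · rw [if_pos ha, Finsupp.single_apply]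
              by_cases hs : s = t
              · by_cases hb : a = b + 2
                · rw [if_pos, if_pos]
                  · rw [hs, hb]
                  · rw [hs, hb]; rfl
                · rw [if_neg, if_neg]
                  · intro hc
                    have := (List.cons.inj hc).1
                    omega
                  · intro hc
                    have := (List.cons.inj hc).1
                    omega
              · rw [if_neg (fun hc => hs (List.cons.inj hc).2),
                  if_neg (fun hc => hs (List.cons.inj hc).2)]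
            · rw [if_neg ha, if_neg]
              · rfl
              · intro hc
                have := (List.cons.inj hc).1
                omega
        | succ i =>
          have e1 : tO0 (i + 1) ((a + 1) :: s) = co1 (a + 1) (tO0 i s) := rfl
          rw [e1, OFO_co1_apply]
          cases o' with
          | zero =>
            have e2 : OFO_up (i + 1) 1 (0 :: t) = 0 :: OFO_up (i + 1) 1 t := rfl
            rw [e2, if_neg (Nat.succ_ne_zero a).symm,
              if_neg (fun hc => by have := (List.cons.inj hc).1; omega)]
          | succ b =>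
            rw [OFO_nSo_succ] at h
            have e2 : OFO_up (i + 1) 1 ((b + 1) :: t) = (b + 1) :: OFO_up i 1 t := rfl
            rw [e2]
            by_cases hab : b = a
            · subst hab
              rw [if_pos rfl, ih i t (by omega)]
              by_cases hs : s = OFO_up i 1 t
              · rw [if_pos hs, if_pos (by rw [hs])]
              · rw [if_neg hs, if_neg (fun hc => hs (List.cons.inj hc).2)]
            · rw [if_neg (fun hc => hab (by omega)), if_neg]
              intro hc
              have := (List.cons.inj hc).1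
              omega

private theorem OFO_tO_apply (i : ℕ) (v : MX) (s' : List ℕ) (h : i < nSo s') :
    (tO i v) s' = v (OFO_up i 1 s') := by
  induction v using Finsupp.induction_linear with
  | zero => simp
  | add f g hf hg => rw [map_add, Finsupp.add_apply, Finsupp.add_apply, hf, hg]
  | single s r =>
    have e : single s r = r • (single s (1 : ℝ)) := by simp
    rw [e, map_smul, Finsupp.smul_apply, Finsupp.smul_apply, OFO_tO_single,
      OFO_tO0_apply i s s' h, Finsupp.single_apply]

private theorem OFO_tO_pow (i m : ℕ) (v : MX) (s' : List ℕ) (h : i < nSo s') :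
    (((tO i) ^ m) v) s' = v (OFO_up i m s') := by
  induction m generalizing v with
  | zero =>
    rw [pow_zero, OFO_up_zero]
    rfl
  | succ m ih =>
    rw [pow_succ, Module.End.mul_apply, ih, OFO_tO_apply i v _ (by rw [OFO_up_nSo]; exact h),
      OFO_up_up]

private theorem OFO_exists_up (k : ℕ) (s : List ℕ) (h : ∃ o ∈ s, 2 * k + 1 ≤ o) :
    ∃ i s', i < nSo s' ∧ OFO_up i k s' = s := by
  induction s with
  | nil => simp at h
  | cons o s ih =>
    obtain ⟨x, hx, hk⟩ := h
    cases o with
    | zero =>
      have hx' : x ∈ s := by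
        rcases List.mem_cons.1 hx with h1 | h1
        · omega
        · exact h1
      obtain ⟨i, s', h1, h2⟩ := ih ⟨x, hx', hk⟩
      refine ⟨i, 0 :: s', ?_, ?_⟩
      · rw [OFO_nSo_zero]
        exact h1
      · show 0 :: OFO_up i k s' = _
        rw [h2]
    | succ a =>
      by_cases ha : 2 * k ≤ a
      · refine ⟨0, (a - 2 * k + 1) :: s, ?_, ?_⟩
        · rw [OFO_nSo_succ]
          omega
        · show (a - 2 * k + 2 * k + 1) :: s = _
          rw [Nat.sub_add_cancel ha]
      · have hx' : x ∈ s := by
          rcases List.mem_cons.1 hx with h1 | h1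
          · omega
          · exact h1
        obtain ⟨i, s', h1, h2⟩ := ih ⟨x, hx', hk⟩
        refine ⟨i + 1, (a + 1) :: s', ?_, ?_⟩
        · rw [OFO_nSo_succ]
          omega
        · show (a + 1) :: OFO_up i k s' = _
          rw [h2]

private theorem OFO_sSo_le (k : ℕ) (s : List ℕ) (h : ∀ o ∈ s, o ≤ 2 * k) :
    sSo s ≤ nSo s * (2 * k) := by
  induction s with
  | nil => simp [sSo, nSo]
  | cons o s ih =>
    have ih' := ih (fun x hx => h x (List.mem_cons_of_mem _ hx))
    have ho := h o List.mem_cons_self
    have e1 : sSo (o :: s) = (o - 1) + sSo s := by simp [sSo]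
    rw [e1]
    cases o with
    | zero =>
      rw [OFO_nSo_zero]
      omega
    | succ a =>
      rw [OFO_nSo_succ, Nat.add_mul]
      omega

private theorem OFO_FO_eq (k i : ℕ) (hi : i < k) (v : MX)
    (hv : v ∈ supported ℝ ℝ {s : List ℕ | nSo s = k})
    (h : ∀ j, 1 ≤ j → j ≤ k → EO j v = 0) (j : ℕ) (hj : j ≤ k) :
    FO i j v = ((-1 : ℝ) ^ j) • (((tO i) ^ j) v) := by
  induction j with
  | zero =>
    rw [pow_zero, pow_zero, one_smul]
    refine OFO_ext (f := FO i 0) (g := 1) (fun s hs => ?_) hv
    rw [OFO_FO_single, OFO_FO_zero i s (by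
      have : nSo s = k := hs
      omega)]
    rfl
  | succ j ih =>
    have h1 := h (j + 1) (by omega) hj
    have h2 : EO (j + 1) v = FO i (j + 1) v + tO i (FO i j v) := by
      refine OFO_ext (f := EO (j + 1)) (g := FO i (j + 1) + (tO i).comp (FO i j))
        (fun s hs => ?_) hv
      rw [LinearMap.add_apply, LinearMap.comp_apply, EO_single, OFO_FO_single, OFO_FO_single]
      refine OFO_split i j s ?_
      have : nSo s = k := hs
      omega
    rw [h1, ih (by omega), map_smul] at h2
    have h3 : FO i (j + 1) v = -(((-1 : ℝ) ^ j) • tO i (((tO i) ^ j) v)) := by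
      rw [eq_neg_iff_add_eq_zero]
      exact h2.symm
    rw [h3, pow_succ' (tO i) j, Module.End.mul_apply, pow_succ (-1 : ℝ) j, mul_neg_one, neg_smul]

private theorem OFO_pow_zero (k i : ℕ) (hi : i < k) (v : MX)
    (hv : v ∈ supported ℝ ℝ {s : List ℕ | nSo s = k})
    (h : ∀ j, 1 ≤ j → j ≤ k → EO j v = 0) : ((tO i) ^ k) v = 0 := by
  have h1 := OFO_FO_eq k i hi v hv h k le_rfl
  have h2 : FO i k v = 0 := by
    refine OFO_ext (f := FO i k) (g := 0) (fun s hs => ?_) hv
    have hs' : nSo s = k := hs
    rw [OFO_FO_single, LinearMap.zero_apply]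
    exact OFO_big i k s (by omega) (by omega)
  rw [h2] at h1
  have h3 : ((-1 : ℝ) ^ k) ≠ 0 := pow_ne_zero _ (by norm_num)
  exact (smul_eq_zero.1 h1.symm).resolve_left h3

theorem MF_ker (m k δ L : ℕ) (v : MX) (hv : v ∈ MF m k δ L)
    (h : ∀ j, 1 ≤ j → j ≤ k → EO j v = 0) (hL : k * k + δ + 1 ≤ L) : v = 0 := by
  have hv' : ∀ s, v s ≠ 0 → nNo s = m ∧ nSo s = k ∧ sSo s + δ = 2 * L := by
    intro s hs
    have h1 : (v.support : Set (List ℕ)) ⊆ {s | nNo s = m ∧ nSo s = k ∧ sSo s + δ = 2 * L} :=
      (mem_supported ℝ v).1 hv
    exact h1 (Finset.mem_coe.2 (Finsupp.mem_support_iff.2 hs))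
  have hk : v ∈ supported ℝ ℝ {s : List ℕ | nSo s = k} := by
    rw [mem_supported]
    intro s hs
    exact (hv' s (Finsupp.mem_support_iff.1 (Finset.mem_coe.1 hs))).2.1
  ext s
  rw [Finsupp.zero_apply]
  by_contra hs
  obtain ⟨-, h2, h3⟩ := hv' s hs
  by_cases hex : ∃ o ∈ s, 2 * k + 1 ≤ o
  · obtain ⟨i, s', hi, hup⟩ := OFO_exists_up k s hex
    have h4 : nSo s' = k := by
      rw [← h2, ← hup, OFO_up_nSo]
    have h5 := OFO_pow_zero k i (by omega) v hk h
    have h6 := OFO_tO_pow i k v s' hi
    rw [h5, hup] at h6
    exact hs h6.symm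
  · have h4 : ∀ o ∈ s, o ≤ 2 * k := by
      intro o ho
      by_contra hc
      exact hex ⟨o, ho, by omega⟩
    have h5 := OFO_sSo_le k s h4
    rw [h2] at h5
    have h6 : k * (2 * k) = 2 * (k * k) := by ring
    omega

end BrV
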