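import Pool.Agent.Lib.BrV.OLam
import Pool.Agent.Lib.BrV.LGc

/-!
# BrV.OGc: `lam` commutes with the coefficients `gc j` (paper 4, section 1)

* `lam_G`: `G' = ker (del true)`, `del_lam`.
* `gc_lam`: `gc j f = gp ((del true)^j f)`; `(del true)^j (lam f) = lam ((del true)^j f)` (`del_lam`, induction), and `gp (lam h) = lam (gp h)`:
  write `h = ∑_{i<N} mu (gc i h) (bw (pw i))` (`gc_bound`, `gc_sum`), `lam h = ∑ mu (lam (gc i h)) (bw (pw i))` (`lam_mu`, `lam_pw`), and apply `gc_pw` (`lam (gc i h) ∈ G'`, `gc_mem`); this gives directly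
  `gc j (lam f) = ∑_i (if i = j then lam (gc i f) else 0) = lam (gc j f)`.
* `lam_Zw`: `Zw w` means `w = false :: w'`, so `bw w ∈ G'`, `lam0 w = lam (bw w) ∈ G'` (`lam_G`, `lam_bw`): `u` does not end in `p` (`u ≠ true :: u'`); and `u ≠ []` as `lam (bw w) [] = (bw w) [] = 0` (`lam_eps`).
* `lam_GZ`: the same for `w = []` or `Zw w`.
-/

namespace BrV

open Finsupp

theorem lam_G (f : R) (hf : f ∈ G') : lam f ∈ G' := by
  have h1 : del true f = 0 := hf
  show del true (lam f) = 0
  rw [del_lam, h1, map_zero]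

theorem gc_lam (j : ℕ) (f : R) : gc j (lam f) = lam (gc j f) := by
  obtain ⟨N, hN⟩ := gc_bound f
  conv_lhs => rw [gc_sum f N hN]
  rw [map_sum, map_sum]
  have h1 : ∀ i ∈ Finset.range N, gc j (lam (mu (gc i f) (bw (pw i)))) =
      if i = j then lam (gc i f) else 0 := by
    intro i _
    rw [lam_mu, lam_pw]
    exact gc_pw i j _ (lam_G _ (gc_mem i f))
  rw [Finset.sum_congr rfl h1, Finset.sum_ite_eq']
  by_cases hm : j ∈ Finset.range N
  · rw [if_pos hm]
  · rw [if_neg hm, hN j (not_lt.1 fun h' => hm (Finset.mem_range.2 h')), map_zero]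

theorem lam_Zw (w u : Wd) (hw : Zw w) (h : lam0 w u ≠ 0) : Zw u := by
  unfold Zw at hw ⊢
  rcases w with _ | ⟨a, w⟩
  · simp at hw
  · have ha : a = false := by simpa using hw
    subst ha
    rcases u with _ | ⟨b, u⟩
    · exfalso
      apply h
      rw [← lam_bw, lam_eps, bw, single_eq_of_ne (by simp)]
    · cases b
      · rfl
      · exfalso
        apply h
        have h1 : bw (false :: w) ∈ G' := by
          show del true (bw (false :: w)) = 0
          ext v
          rw [del_apply, bw, single_eq_of_ne (by simp)]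
          rfl
        have h2 : del true (lam (bw (false :: w))) = 0 := lam_G _ h1
        have h3 : del true (lam (bw (false :: w))) u = 0 := by rw [h2]; rfl
        rw [del_apply, lam_bw] at h3
        exact h3

end BrV
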