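import Pool.Agent.Lib.BrV.ODef

/-!
# BrV.OLam: the algebra endomorphism `lam` (paper 4, section 1)

Head of a list = LAST letter; `d_p = del true`, `d_z = del false`, `d_c (f*g) = f * d_c g + (d_c f) * tau g` (`del_mu`).
* `lam_bw`: unfold.  `lam_nil`, `lam_pw`: recursion (`pw (i+1) = true :: pw i`; the clause `true :: u`, `u = pw i` has no `false`).
* On a word `w` (then for all `f` by linearity; two linear maps which agree on the `bw w` are equal; cases on the first three letters `w = [], true :: true :: false :: u,
  true :: u (not of this form), false :: true :: true :: u, false :: u`):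
  `lam f [] = f []` (`app_nil`);  `del true (lam f) = lam (del true f)` (`del_app`, `del_app_ne`);
  `(*)  del false (lam f) = lam (dd f)`,  `dd f := del false f + del true (del true (del false f)) - del false (del true (del true f))`
  (`dd (bw (true :: true :: false :: u)) = - bw u`, `dd (bw (false :: true :: true :: u)) = bw (true :: true :: u) + bw u`, `dd (bw (false :: u)) = bw u` else, `dd (bw (true :: u)) = 0` else).
* `lam_app`: `R_ext`: both sides have the same coefficient at `[]`, `del true` (both `0`), and `del false` (by (*): `dd (app false f) = f + del true (del true f)`).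
* `lam_tau`: all words of `lam0 w` have `np` of the same parity as `w` (`lam_supp`), `tau_apply`; or by (*) and `R_ext` (`del true (tau f) = - tau (del true f)`, `del false (tau f) = tau (del false f)`).
* `lam_supp`: recursion.
* `lam_mu`: prove `dd (mu f g) = mu f (dd g) + mu (dd f) (tau g)`: from `del_mu`; `del true (del true (mu f g)) = mu f (del true (del true g)) + mu (del true (del true f)) g`
  (`del true (tau g) = - tau (del true g)`, `tau_tau`), then `del false` of this and `del true ∘ del true` of `del false (mu f g)`; the mixed terms `mu (del true (del true f)) (del false g)` cancel,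
  `del true (del true (tau g)) = tau (del true (del true g))`.
  Then induction on the sum of the lengths of two words `v, w` (for `f = bw v`, `g = bw w`; `dd (bw w)` is a combination of words of smaller length, so is `del c (bw w)`; state the induction as:
  for all `N` and all `f, g` supported on words of lengths `a, b` with `a + b ≤ N`, or with `f, g ∈ span` of words of length `≤ a`, `≤ b`), with `R_ext`:
  coefficient at `[]`: `mu_nil`; `del true`: `del true (lam (mu f g)) = lam (mu f (del true g) + mu (del true f) (tau g))`, `del false`: (*) on both sides and the rule for `dd`; `lam_tau`.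
-/

namespace BrV

open Finsupp

theorem lam_bw (w : Wd) : lam (bw w) = lam0 w := by
  simp [lam, bw, Finsupp.lift_apply]

private theorem olam_single (w : Wd) (a : ℝ) : (single w a : R) = a • bw w := by
  rw [bw, smul_single, smul_eq_mul, mul_one]

private theorem olam_ext {M : Type*} [AddCommMonoid M] [Module ℝ M] {φ ψ : R →ₗ[ℝ] M}
    (h : ∀ w, φ (bw w) = ψ (bw w)) : φ = ψ := by
  refine Finsupp.lhom_ext fun w a => ?_
  rw [olam_single, map_smul, map_smul, h]

private theorem olam_ext2 {M : Type*} [AddCommMonoid M] [Module ℝ M] {φ ψ : R →ₗ[ℝ] R →ₗ[ℝ] M}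
    (h : ∀ v w, φ (bw v) (bw w) = ψ (bw v) (bw w)) : φ = ψ :=
  olam_ext fun v => olam_ext fun w => h v w

private theorem olam_del_nil (c : Bool) : del c (bw []) = 0 := by
  ext w
  rw [del_apply, bw, single_eq_of_ne (List.cons_ne_nil _ _)]
  rfl

private theorem olam_del_cons (a : Bool) (w : Wd) : del a (bw (a :: w)) = bw w := by
  rw [← app_bw, del_app]

private theorem olam_del_ne (a b : Bool) (h : a ≠ b) (w : Wd) : del a (bw (b :: w)) = 0 := by
  rw [← app_bw, del_app_ne a b h]

private theorem olam_tf : (true : Bool) ≠ false := by decide

private theorem olam_ft : (false : Bool) ≠ true := by decide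

theorem lam_nil : lam (bw []) = bw [] := by
  rw [lam_bw, lam0]

private theorem olam_eps0 (w : Wd) : lam0 w [] = bw w [] := by
  induction w using lam0.induct with
  | case1 => rw [lam0]
  | case2 u ih1 ih2 =>
    rw [lam0, Finsupp.sub_apply, app_nil, app_nil, sub_zero, ← app_bw, app_nil]
  | case3 u h ih =>
    rw [lam0, app_nil, ← app_bw, app_nil]
    exact h
  | case4 u ih1 ih2 =>
    rw [lam0, Finsupp.add_apply, app_nil, app_nil, add_zero, ← app_bw, app_nil]
  | case5 u h ih =>
    rw [lam0, app_nil, ← app_bw, app_nil]
    exact h

theorem lam_eps (f : R) : lam f [] = f [] := by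
  have h : (Finsupp.lapply ([] : Wd)).comp lam = Finsupp.lapply ([] : Wd) :=
    olam_ext fun w => by
      show lam (bw w) [] = bw w []
      rw [lam_bw, olam_eps0]
  exact congrArg (fun B : R →ₗ[ℝ] ℝ => B f) h

theorem del_lam (f : R) : del true (lam f) = lam (del true f) := by
  have h : (del true).comp lam = lam.comp (del true) :=
    olam_ext fun w => by
      show del true (lam (bw w)) = lam (del true (bw w))
      rw [lam_bw]
      induction w using lam0.induct with
      | case1 => rw [lam0, olam_del_nil, map_zero]
      | case2 u ih1 ih2 =>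
        rw [lam0, map_sub, del_app, del_app_ne true false olam_tf, sub_zero, olam_del_cons, lam_bw]
      | case3 u h ih =>
        rw [lam0, del_app, olam_del_cons, lam_bw]
        exact h
      | case4 u ih1 ih2 =>
        rw [lam0, map_add, del_app_ne true false olam_tf, del_app_ne true false olam_tf, add_zero,
          olam_del_ne true false olam_tf, map_zero]
      | case5 u h ih =>
        rw [lam0, del_app_ne true false olam_tf, olam_del_ne true false olam_tf, map_zero]
        exact h
  exact congrArg (fun B : R →ₗ[ℝ] R => B f) h

private noncomputable def olam_dd : R →ₗ[ℝ] R :=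
  del false + (del true).comp ((del true).comp (del false)) -
    (del false).comp ((del true).comp (del true))

private theorem olam_dd_apply (f : R) : olam_dd f =
    del false f + del true (del true (del false f)) - del false (del true (del true f)) := rfl

private theorem olam_dd1 (u : Wd) : olam_dd (bw (true :: true :: false :: u)) = - bw u := by
  rw [olam_dd_apply, olam_del_ne false true olam_ft, olam_del_cons, olam_del_cons, olam_del_cons,
    map_zero, map_zero, add_zero, zero_sub]

private theorem olam_dd2 (u : Wd) (h : ∀ v, u = true :: false :: v → False) :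
    olam_dd (bw (true :: u)) = 0 := by
  rw [olam_dd_apply, olam_del_ne false true olam_ft, olam_del_cons, map_zero, map_zero, add_zero,
    zero_sub]
  rcases u with _ | ⟨a, u⟩
  · rw [olam_del_nil, map_zero, neg_zero]
  · cases a
    · rw [olam_del_ne true false olam_tf, map_zero, neg_zero]
    · rw [olam_del_cons]
      rcases u with _ | ⟨b, u⟩
      · rw [olam_del_nil, neg_zero]
      · cases b
        · exact absurd rfl (fun h' => h u h')
        · rw [olam_del_ne false true olam_ft, neg_zero]

private theorem olam_dd3 (u : Wd) : olam_dd (bw (false :: true :: true :: u)) =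
    bw (true :: true :: u) + bw u := by
  rw [olam_dd_apply, olam_del_ne true false olam_tf, olam_del_cons, olam_del_cons, olam_del_cons,
    map_zero, map_zero, sub_zero]

private theorem olam_dd4 (u : Wd) (h : ∀ v, u = true :: true :: v → False) :
    olam_dd (bw (false :: u)) = bw u := by
  rw [olam_dd_apply, olam_del_ne true false olam_tf, olam_del_cons, map_zero, map_zero, sub_zero]
  rcases u with _ | ⟨a, u⟩
  · rw [olam_del_nil, map_zero, add_zero]
  · cases a
    · rw [olam_del_ne true false olam_tf, map_zero, add_zero]
    · rw [olam_del_cons]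
      rcases u with _ | ⟨b, u⟩
      · rw [olam_del_nil, add_zero]
      · cases b
        · rw [olam_del_ne true false olam_tf, add_zero]
        · exact absurd rfl (fun h' => h u h')

private theorem olam_dd0 : olam_dd (bw []) = 0 := by
  rw [olam_dd_apply, olam_del_nil, olam_del_nil, map_zero, map_zero, map_zero, add_zero, sub_zero]

private theorem olam_del_false (f : R) : del false (lam f) = lam (olam_dd f) := by
  have h : (del false).comp lam = lam.comp olam_dd :=
    olam_ext fun w => by
      show del false (lam (bw w)) = lam (olam_dd (bw w))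
      rw [lam_bw]
      induction w using lam0.induct with
      | case1 => rw [lam0, olam_del_nil, olam_dd0, map_zero]
      | case2 u ih1 ih2 =>
        rw [lam0, map_sub, del_app, del_app_ne false true olam_ft, zero_sub, olam_dd1, map_neg,
          lam_bw]
      | case3 u h ih =>
        rw [lam0, del_app_ne false true olam_ft, olam_dd2 u h, map_zero]
        exact h
      | case4 u ih1 ih2 =>
        rw [lam0, map_add, del_app, del_app, olam_dd3, map_add, lam_bw, lam_bw]
      | case5 u h ih =>
        rw [lam0, del_app, olam_dd4 u h, lam_bw]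
        exact h
  exact congrArg (fun B : R →ₗ[ℝ] R => B f) h

theorem lam_app (f : R) : lam (app false f) = app false (lam (f + del true (del true f))) := by
  refine R_ext _ _ ?_ fun c => ?_
  · rw [lam_eps, app_nil, app_nil]
  · cases c
    · rw [olam_del_false, del_app, olam_dd_apply, del_app, del_app_ne true false olam_tf, map_zero,
        map_zero, sub_zero]
    · rw [del_lam, del_app_ne true false olam_tf, del_app_ne true false olam_tf, map_zero]

theorem lam_pw (i : ℕ) : lam (bw (pw i)) = bw (pw i) := by
  induction i with
  | zero => exact lam_nil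
  | succ i ih =>
    have h1 : pw (i + 1) = true :: pw i := rfl
    rw [h1]
    refine R_ext _ _ ?_ fun c => ?_
    · rw [lam_eps]
    · cases c
      · have h2 : ∀ v, pw i = true :: false :: v → False := by
          intro v hv
          have h3 : (false : Bool) ∈ pw i := by rw [hv]; simp
          exact olam_ft (List.eq_of_mem_replicate h3)
        rw [olam_del_false, olam_dd2 _ h2, map_zero, olam_del_ne false true olam_ft]
      · rw [del_lam, olam_del_cons, ih]

private theorem olam_app_ne (a : Bool) (f : R) (u : Wd) (h : app a f u ≠ 0) :
    ∃ u', u = a :: u' ∧ f u' ≠ 0 := by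
  cases u with
  | nil => exact absurd (app_nil a f) h
  | cons b u =>
    rw [app_cons] at h
    split_ifs at h with hab
    · exact ⟨u, by rw [hab], h⟩
    · exact absurd rfl h

private theorem olam_npt (u : Wd) : np (true :: u) = np u + 1 := by simp [np]

private theorem olam_npf (u : Wd) : np (false :: u) = np u := by simp [np]

private theorem olam_nzt (u : Wd) : nz (true :: u) = nz u := by simp [nz]

private theorem olam_nzf (u : Wd) : nz (false :: u) = nz u + 1 := by simp [nz]

theorem lam_supp (w u : Wd) (h : lam0 w u ≠ 0) : nz u = nz w ∧ ∃ j, np u + 2 * j = np w := by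
  induction w using lam0.induct generalizing u with
  | case1 =>
    rw [lam0] at h
    have : u = [] := by
      by_contra hc
      exact h (single_eq_of_ne hc)
    rw [this]
    exact ⟨rfl, 0, rfl⟩
  | case2 v ih1 ih2 =>
    rw [lam0, Finsupp.sub_apply] at h
    have h' : app true (lam0 (true :: false :: v)) u ≠ 0 ∨ app false (lam0 v) u ≠ 0 := by
      by_contra hc
      rw [not_or, not_not, not_not] at hc
      exact h (by rw [hc.1, hc.2, sub_zero])
    rcases h' with h' | h'
    · obtain ⟨u', rfl, hu'⟩ := olam_app_ne _ _ _ h'
      obtain ⟨h1, j, h2⟩ := ih1 u' hu'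
      rw [olam_npt, olam_npf] at h2
      rw [olam_nzt, olam_nzf] at h1
      rw [olam_npt, olam_npt, olam_npt, olam_npf, olam_nzt, olam_nzt, olam_nzt, olam_nzf]
      exact ⟨h1, j, by omega⟩
    · obtain ⟨u', rfl, hu'⟩ := olam_app_ne _ _ _ h'
      obtain ⟨h1, j, h2⟩ := ih2 u' hu'
      rw [olam_npt, olam_npt, olam_npf, olam_npf, olam_nzt, olam_nzt, olam_nzf, olam_nzf]
      exact ⟨by omega, j + 1, by omega⟩
  | case3 v hv ih =>
    have h0 : lam0 (true :: v) = app true (lam0 v) := by
      rw [lam0]
      exact hv
    rw [h0] at h
    obtain ⟨u', rfl, hu'⟩ := olam_app_ne _ _ _ h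
    obtain ⟨h1, j, h2⟩ := ih u' hu'
    rw [olam_npt, olam_npt, olam_nzt, olam_nzt]
    exact ⟨h1, j, by omega⟩
  | case4 v ih1 ih2 =>
    rw [lam0, Finsupp.add_apply] at h
    have h' : app false (lam0 (true :: true :: v)) u ≠ 0 ∨ app false (lam0 v) u ≠ 0 := by
      by_contra hc
      rw [not_or, not_not, not_not] at hc
      exact h (by rw [hc.1, hc.2, add_zero])
    rcases h' with h' | h'
    · obtain ⟨u', rfl, hu'⟩ := olam_app_ne _ _ _ h'
      obtain ⟨h1, j, h2⟩ := ih1 u' hu'
      rw [olam_npt, olam_npt] at h2
      rw [olam_nzt, olam_nzt] at h1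
      rw [olam_npf, olam_npf, olam_npt, olam_npt, olam_nzf, olam_nzf, olam_nzt, olam_nzt]
      exact ⟨by omega, j, by omega⟩
    · obtain ⟨u', rfl, hu'⟩ := olam_app_ne _ _ _ h'
      obtain ⟨h1, j, h2⟩ := ih2 u' hu'
      rw [olam_npf, olam_npf, olam_npt, olam_npt, olam_nzf, olam_nzf, olam_nzt, olam_nzt]
      exact ⟨by omega, j + 1, by omega⟩
  | case5 v hv ih =>
    have h0 : lam0 (false :: v) = app false (lam0 v) := by
      rw [lam0]
      exact hv
    rw [h0] at h
    obtain ⟨u', rfl, hu'⟩ := olam_app_ne _ _ _ h
    obtain ⟨h1, j, h2⟩ := ih u' hu'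
    rw [olam_npf, olam_npf, olam_nzf, olam_nzf]
    exact ⟨by omega, j, by omega⟩

private theorem olam_tau_bw (w : Wd) : tau (bw w) = sg w • bw w := by
  ext u
  rw [tau_apply, Finsupp.smul_apply, smul_eq_mul]
  by_cases h : u = w
  · rw [h]
  · rw [bw, single_eq_of_ne h, mul_zero, mul_zero]

private theorem olam_tau_lam0 (w : Wd) : tau (lam0 w) = sg w • lam0 w := by
  ext u
  rw [tau_apply, Finsupp.smul_apply, smul_eq_mul]
  by_cases h : lam0 w u = 0
  · rw [h, mul_zero, mul_zero]
  · obtain ⟨_, j, hj⟩ := lam_supp w u h
    congr 1
    rw [sg, sg, ← hj, _root_.pow_add, _root_.pow_mul]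
    norm_num

private theorem olam_del_tau (f : R) : del true (tau f) = - tau (del true f) := by
  ext w
  rw [Finsupp.neg_apply, del_apply, tau_apply, tau_apply, del_apply, sg, sg, olam_npt, pow_succ]
  ring

private theorem olam_dt_tau (f : R) : del true (del true (tau f)) = tau (del true (del true f)) := by
  rw [olam_del_tau, map_neg, olam_del_tau, neg_neg]

private theorem olam_dt_mu (f g : R) : del true (del true (mu f g)) =
    mu f (del true (del true g)) + mu (del true (del true f)) g := by
  rw [del_mu, map_add, del_mu, del_mu, olam_del_tau, tau_tau, map_neg]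
  abel

private theorem olam_dd_mu (f g : R) :
    olam_dd (mu f g) = mu f (olam_dd g) + mu (olam_dd f) (tau g) := by
  rw [olam_dd_apply, olam_dt_mu, del_mu false f g, map_add, map_add, map_add, olam_dt_mu,
    olam_dt_mu, del_mu, del_mu, olam_dd_apply, olam_dd_apply, olam_dt_tau]
  simp only [map_add, map_sub, LinearMap.add_apply, LinearMap.sub_apply]
  abel

private theorem olam_del_bw (c : Bool) (u : Wd) : del c (bw u) = 0 ∨
    ∃ u' : Wd, u'.length < u.length ∧ del c (bw u) = bw u' := by
  cases u with
  | nil => exact Or.inl (olam_del_nil c)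
  | cons a u =>
    by_cases h : c = a
    · rw [h]
      exact Or.inr ⟨u, by simp, olam_del_cons a u⟩
    · exact Or.inl (olam_del_ne c a h u)

private theorem olam_dd_bw (u : Wd) : olam_dd (bw u) = 0 ∨
    ∃ (a b : ℝ) (v w : Wd), v.length < u.length ∧ w.length < u.length ∧
      olam_dd (bw u) = a • bw v + b • bw w := by
  induction u using lam0.induct with
  | case1 => exact Or.inl olam_dd0
  | case2 v ih1 ih2 =>
    refine Or.inr ⟨-1, 0, v, v, ?_, ?_, ?_⟩
    · simp only [List.length_cons]; omega
    · simp only [List.length_cons]; omega
    · rw [olam_dd1, zero_smul, add_zero, neg_smul, one_smul]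
  | case3 v hv ih => exact Or.inl (olam_dd2 v hv)
  | case4 v ih1 ih2 =>
    refine Or.inr ⟨1, 1, true :: true :: v, v, ?_, ?_, ?_⟩
    · simp only [List.length_cons]; omega
    · simp only [List.length_cons]; omega
    · rw [olam_dd3, one_smul, one_smul]
  | case5 v hv ih =>
    refine Or.inr ⟨1, 0, v, v, ?_, ?_, ?_⟩
    · simp only [List.length_cons]; omega
    · simp only [List.length_cons]; omega
    · rw [olam_dd4 v hv, zero_smul, add_zero, one_smul]

private theorem olam_mu_bw (N : ℕ) : ∀ v w : Wd, v.length + w.length ≤ N →
    lam (mu (bw v) (bw w)) = mu (lam (bw v)) (lam (bw w)) := by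
  induction N with
  | zero =>
    intro v w h
    have hv : v = [] := List.length_eq_zero_iff.mp (by omega)
    rw [hv, nil_mu, lam_nil, nil_mu]
  | succ N ih =>
    intro v w h
    refine R_ext _ _ ?_ fun c => ?_
    · rw [lam_eps, mu_nil, mu_nil, lam_eps, lam_eps]
    · have htau : tau (lam (bw w)) = sg w • lam (bw w) := by
        rw [lam_bw, olam_tau_lam0]
      cases c
      · rw [olam_del_false, olam_dd_mu, map_add, del_mu, olam_del_false, olam_del_false, htau,
          olam_tau_bw, map_smul, map_smul, map_smul]
        congr 1
        · rcases olam_dd_bw w with h0 | ⟨a, b, x, y, hx, hy, h0⟩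
          · rw [h0, map_zero, map_zero, map_zero]
          · rw [h0, map_add, map_add, map_add, map_add, map_smul, map_smul, map_smul, map_smul,
              map_smul, map_smul, map_smul, map_smul, ih v x (by omega), ih v y (by omega)]
        · congr 1
          rcases olam_dd_bw v with h0 | ⟨a, b, x, y, hx, hy, h0⟩
          · simp only [h0, map_zero, LinearMap.zero_apply]
          · rw [h0, map_add, map_add, LinearMap.add_apply, map_add, map_add, LinearMap.add_apply,
              map_smul, map_smul, map_smul, map_smul, LinearMap.smul_apply, LinearMap.smul_apply,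
              map_smul, map_smul, map_smul, map_smul, LinearMap.smul_apply, LinearMap.smul_apply,
              ih x w (by omega), ih y w (by omega)]
      · rw [del_lam, del_mu, map_add, del_mu, del_lam, del_lam, htau, olam_tau_bw, map_smul,
          map_smul, map_smul]
        congr 1
        · rcases olam_del_bw true w with h0 | ⟨x, hx, h0⟩
          · rw [h0, map_zero, map_zero, map_zero]
          · rw [h0, ih v x (by omega)]
        · congr 1
          rcases olam_del_bw true v with h0 | ⟨x, hx, h0⟩
          · simp only [h0, map_zero, LinearMap.zero_apply]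
          · rw [h0, ih x w (by omega)]

theorem lam_mu (f g : R) : lam (mu f g) = mu (lam f) (lam g) := by
  have h : mu.compr₂ lam = mu.compl₁₂ lam lam :=
    olam_ext2 fun v w => by
      show lam (mu (bw v) (bw w)) = mu (lam (bw v)) (lam (bw w))
      exact olam_mu_bw _ v w le_rfl
  exact congrArg (fun B : R →ₗ[ℝ] R →ₗ[ℝ] R => B f g) h

end BrV
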