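import Pool.Agent.Lib.BrV.OMF
import Pool.Agent.Lib.BrV.OFO
import Pool.Agent.Lib.BrV.GHil

/-!
# BrV.OTF: chain condition for the lists of words (paper 4, section 3)

* `TF_sta`: `yW_supp`, `yW_low`.
* `art_TF`: `Art EO k (MF m k δ) ⊥` by `hil_all` (`MF_sta`, `EO_comm`, `MF_fin`, `L₀ = k*k + δ + 1`, `MF_ker`); then `art_surj` with `f = XX` (`XX_EO`, `TF_le`: every element of `TF m k δ L` is `XX v`, `v ∈ MF m k δ L`).
-/

namespace BrV

open Finsupp

theorem TF_sta (m k δ N : ℕ) : Sta yW N (TF m k δ) := by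
  intro j _ _
  refine ⟨fun L v hv => ?_, fun L hL v hv => ?_⟩
  · rw [TF, Finsupp.mem_supported] at hv ⊢
    intro q hq
    obtain ⟨l, hl, h1, h2, _, h4, h5⟩ := yW_supp j v q (Finsupp.mem_support_iff.mp hq)
    obtain ⟨a1, a2, a3, a4⟩ := hv (Finsupp.mem_support_iff.mpr hl)
    exact ⟨by omega, h5 a2, by omega, by omega⟩
  · rw [TF, Finsupp.mem_supported] at hv
    apply yW_low
    intro l hl
    obtain ⟨_, _, a3, _⟩ := hv (Finsupp.mem_support_iff.mpr hl)
    omega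

theorem art_TF (m k δ : ℕ) : Art yW k (TF m k δ) (fun _ => ⊥) := by
  have h0 : Art EO k (MF m k δ) (fun _ => ⊥) :=
    hil_all EO k (MF m k δ) (MF_sta m k δ k) (fun i j _ v _ => EO_comm i j v)
      (fun L => MF_fin m k δ L) (k * k + δ + 1)
      (fun L hL v hv h => MF_ker m k δ L v hv h hL)
  refine art_surj EO yW k (MF m k δ) (fun _ => ⊥) (TF m k δ) (fun _ => ⊥) XX
    (fun j _ v _ => XX_EO j v) ?_ ?_ (MF_sta m k δ k) (fun _ => bot_le) h0
  · intro L v hv
    rw [Submodule.mem_bot] at hv ⊢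
    rw [hv, map_zero]
  · intro L v' hv'
    obtain ⟨v, hv, he⟩ := Submodule.mem_map.mp (TF_le m k δ L hv')
    exact ⟨v, hv, by rw [Submodule.mem_bot, he, sub_self]⟩

end BrV
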