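import Pool.Agent.Lib.BrV.Defs

/-!
# Part B: polynomials.  `X 0 = t`, `X i = u_i` for `i ≥ 1`.
-/

namespace BrV

open Finsupp

/-- polynomials in `X 0 = t` and `X i = u_i`, `i ≥ 1` -/
abbrev PA : Type := MvPolynomial ℕ ℝ

noncomputable section

open MvPolynomial

/-- substitute `q` for `t` -/
def subt (q : PA) : PA →ₐ[ℝ] PA := aeval fun i => if i = 0 then q else X i

/-- substitute `t` for `u_n` -/
def ev (n : ℕ) : PA →ₐ[ℝ] PA := aeval fun i => if i = n then X 0 else X i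

/-- shift the variables `u_i` by `o` -/
def shf (o : ℕ) : PA →ₐ[ℝ] PA := aeval fun i => if i = 0 then X 0 else X (i + o)

/-- `u_i`, with `u_0 := 0` -/
def uu (i : ℕ) : PA := if i = 0 then 0 else X i

/-- number of trailing letters `z` -/
def tz : Wd → ℕ
  | false :: w => tz w + 1
  | _ => 0

/-- the polynomial of a word -/
def P : Wd → PA
  | [] => 1
  | true :: w => subt (X (np w + 1)) (P w)
  | false :: w => P w * (X 0 - uu (np w)) * C ((tz w + 1 : ℝ)⁻¹)

/-- linear extension of `P` -/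
def PP : R →ₗ[ℝ] PA := Finsupp.lift PA ℝ Wd P

/-- the generator `s_i`, `i ≥ 1`: `u_i ↦ 2 u_i - u_(i+1)`, `u_(i+1) ↦ u_i` -/
def sA (i : ℕ) : PA →ₐ[ℝ] PA :=
  aeval fun j => if j = i then 2 * X i - X (i + 1) else if j = i + 1 then X i else X j

/-- the generators as linear operators -/
def SA (i : ℕ) : Module.End ℝ PA := (sA i).toLinearMap

/-- `u_(o+1) - u_(o+2) + ...`, `n` terms -/
def dl (o n : ℕ) : PA := ∑ j ∈ Finset.range n, C ((-1 : ℝ) ^ j) * X (o + j + 1)

/-- `ζ_n(u_(o+1), ..., u_(o+n); t)` -/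
def zet (o n : ℕ) : PA := 2 * dl o n + C ((-1 : ℝ) ^ n) * X 0

/-- polynomials in `t, u_1, ..., u_n`, homogeneous of degree `k` -/
def An (n k : ℕ) : Submodule ℝ PA :=
  homogeneousSubmodule ℕ ℝ k ⊓ Subalgebra.toSubmodule (MvPolynomial.supported ℝ {i | i ≤ n})

/-- polynomials in `u_1, ..., u_n`, homogeneous of degree `k` -/
def Bn (n k : ℕ) : Submodule ℝ PA :=
  homogeneousSubmodule ℕ ℝ k ⊓
    Subalgebra.toSubmodule (MvPolynomial.supported ℝ {i | 1 ≤ i ∧ i ≤ n})

/-! ### shuffle elements in a ring -/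

/-- `S (i+b-1) * ... * S (i+1) * S i`, `b` factors -/
def cyc {A : Type*} [Monoid A] (S : ℕ → A) (i : ℕ) : ℕ → A
  | 0 => 1
  | b + 1 => S (i + b) * cyc S i b

/-- the shuffle element `Q(o; a, b)` of the generators `S 1, S 2, ...` -/
def Qe {A : Type*} [Ring A] (S : ℕ → A) (o : ℕ) : ℕ → ℕ → A
  | 0, _ => 1
  | _ + 1, 0 => 1
  | a + 1, b + 1 => Qe S o (a + 1) b + (-1) ^ (b + 1) * Qe S o a (b + 1) * cyc S (o + a + 1) (b + 1)

/-! ### the complex `Sal` -/

/-- total size of a composition; the entry `a` stands for a part of size `a + 1`; the head of the list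
is the LAST part -/
def tot (c : List ℕ) : ℕ := (c.map fun a => a + 1).sum

/-- alternating sum of the merges of neighbouring parts, from the last one, with shuffle elements -/
def mgS {M : Type} [AddCommGroup M] [Module ℝ M] (S : ℕ → Module.End ℝ M) :
    List ℕ → (M →ₗ[ℝ] (List ℕ →₀ M))
  | [] => 0
  | [_] => 0
  | a :: b :: l => (lsingle ((a + b + 1) :: l)).comp (Qe S (tot l) (b + 1) (a + 1)) -
      (lmapDomain M ℝ (List.cons a)).comp (mgS S (b :: l))

/-- the differential of `Sal(M)` -/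
def sal {M : Type} [AddCommGroup M] [Module ℝ M] (S : ℕ → Module.End ℝ M) :
    (List ℕ →₀ M) →ₗ[ℝ] (List ℕ →₀ M) := Finsupp.lsum ℝ (mgS S)

/-- chains of `Sal`: compositions of `n` into `r` parts, coefficients in `N` -/
def IsS {M : Type} [AddCommGroup M] [Module ℝ M] (N : Submodule ℝ M) (r n : ℕ)
    (x : List ℕ →₀ M) : Prop :=
  (∀ l, x l ≠ 0 → l.length = r ∧ tot l = n) ∧ ∀ l, x l ∈ N

/-- `H_r(Sal(N))_n = 0` -/
def SalEx {M : Type} [AddCommGroup M] [Module ℝ M] (S : ℕ → Module.End ℝ M) (N : Submodule ℝ M)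
    (r n : ℕ) : Prop :=
  ∀ x : List ℕ →₀ M, IsS N r n x → sal S x = 0 → ∃ y, IsS N (r + 1) n y ∧ sal S y = x

/-! ### lists of blocks and polynomials -/

/-- the polynomial of a list of blocks -/
def Th0 : LB → PA
  | [] => 1
  | w :: l => shf (npL l) (P (true :: w)) * Th0 l

/-- `Θ` -/
def Th : CL →ₗ[ℝ] (List ℕ →₀ PA) :=
  Finsupp.lift (List ℕ →₀ PA) ℝ LB fun l => single (l.map np) (Th0 l)

end

end BrV
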