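import Pool.Agent.Lib.BrV.Alg
import Pool.Agent.Lib.BrV.PDefs

/-!
# BrV.PBas: the polynomials of words (section 7)

`X 0 = t`.  `P w` is a polynomial in `t, u_1, .., u_(np w)`, homogeneous of degree `nz w`.
Proofs.  `P_mem`: induction on the word (`subt (X (n+1))` of a homogeneous polynomial is homogeneous of the same degree:
`IsHomogeneous.aeval`/`eval₂`-type lemma or monomials; supports: `supported` is `Algebra.adjoin`, `MvPolynomial.mem_supported`).
`P_true_mem`: `subt (X (n+1))` replaces `t` by `u_(n+1)`.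
`pderiv_P_true`: no variable `X 0` occurs.
`pderiv_P_false`: by induction on the number of trailing `z`: `d/dt (P w * (t - u) / (tz w + 1)) = (d/dt (P w) * (t - u) + P w) / (tz w + 1)`; if `w = false :: w1`
 then `d/dt (P w) = P w1` and `P w1 * (t - u) = (tz w1 + 1) P w`  (`np w1 = np w`, `tz w = tz w1 + 1`); otherwise `tz w = 0`, `d/dt (P w) = 0`.
`ev_PP`: on words `w` with `np w = n + 1`: `w = true :: w'`: `ev (n+1) (subt (X (n+1)) (P w')) = P w'` as `P w'` involves only `t, u_1..u_n`
 (compare the two algebra maps on `supported ℝ {i | i ≤ n}`); `w = false :: w'`: the factor `X 0 - X (n+1)` goes to `0`.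
`pderiv_PP`: linear in `f`, words.
-/

namespace BrV

open Finsupp

private theorem aeval_supp (g : ℕ → PA) (s t : Set ℕ)
    (hg : ∀ i ∈ s, g i ∈ MvPolynomial.supported ℝ t) (f : PA)
    (hf : f ∈ MvPolynomial.supported ℝ s) :
    MvPolynomial.aeval g f ∈ MvPolynomial.supported ℝ t := by
  have h : (MvPolynomial.supported ℝ s).map (MvPolynomial.aeval g : PA →ₐ[ℝ] PA) ≤
      MvPolynomial.supported ℝ t := by
    rw [MvPolynomial.supported_eq_adjoin_X, AlgHom.map_adjoin]
    refine Algebra.adjoin_le ?_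
    rintro _ ⟨_, ⟨i, hi, rfl⟩, rfl⟩
    rw [MvPolynomial.aeval_X]
    exact hg i hi
  exact h ⟨f, hf, rfl⟩

private theorem aeval_fix (g : ℕ → PA) (s : Set ℕ) (hg : ∀ i ∈ s, g i = MvPolynomial.X i) (f : PA)
    (hf : f ∈ MvPolynomial.supported ℝ s) : MvPolynomial.aeval g f = f := by
  have h : MvPolynomial.supported ℝ s ≤
      AlgHom.equalizer (MvPolynomial.aeval g : PA →ₐ[ℝ] PA) (AlgHom.id ℝ PA) := by
    rw [MvPolynomial.supported_eq_adjoin_X]
    refine Algebra.adjoin_le ?_
    rintro _ ⟨i, hi, rfl⟩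
    show MvPolynomial.aeval g (MvPolynomial.X i) = MvPolynomial.X i
    rw [MvPolynomial.aeval_X, hg i hi]
  exact h hf

private theorem mem_An (n k : ℕ) (f : PA) : f ∈ An n k ↔
    MvPolynomial.IsHomogeneous f k ∧ f ∈ MvPolynomial.supported ℝ {i | i ≤ n} := Iff.rfl

private theorem mem_Bn (n k : ℕ) (f : PA) : f ∈ Bn n k ↔
    MvPolynomial.IsHomogeneous f k ∧ f ∈ MvPolynomial.supported ℝ {i | 1 ≤ i ∧ i ≤ n} := Iff.rfl

private theorem subt_hom (i : ℕ) (f : PA) (k : ℕ) (hf : MvPolynomial.IsHomogeneous f k) :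
    MvPolynomial.IsHomogeneous (subt (MvPolynomial.X i) f) k := by
  have h := hf.aeval (fun j => if j = 0 then (MvPolynomial.X i : PA) else MvPolynomial.X j)
    (n := 1) (fun j => by
      split_ifs
      · exact MvPolynomial.isHomogeneous_X _ _
      · exact MvPolynomial.isHomogeneous_X _ _)
  rw [one_mul] at h
  exact h

private theorem subt_supp (n : ℕ) (f : PA) (hf : f ∈ MvPolynomial.supported ℝ {i | i ≤ n}) :
    subt (MvPolynomial.X (n + 1)) f ∈ MvPolynomial.supported ℝ {i | 1 ≤ i ∧ i ≤ n + 1} := by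
  refine aeval_supp _ _ _ (fun i hi => ?_) f hf
  have hi : i ≤ n := hi
  split_ifs with h
  · rw [MvPolynomial.X_mem_supported]
    exact ⟨by omega, le_refl _⟩
  · rw [MvPolynomial.X_mem_supported]
    exact ⟨by omega, by omega⟩

private theorem uu_hom (i : ℕ) : MvPolynomial.IsHomogeneous (uu i) 1 := by
  unfold uu
  split_ifs
  · exact MvPolynomial.isHomogeneous_zero _ _ _
  · exact MvPolynomial.isHomogeneous_X _ _

private theorem uu_supp (n : ℕ) : uu n ∈ MvPolynomial.supported ℝ {i | i ≤ n} := by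
  unfold uu
  split_ifs
  · exact Subalgebra.zero_mem _
  · rw [MvPolynomial.X_mem_supported]
    show n ≤ n
    exact le_refl n

private theorem nz_t (w : Wd) : nz (true :: w) = nz w := by
  simp [nz]

private theorem nz_f (w : Wd) : nz (false :: w) = nz w + 1 := by
  simp [nz]

private theorem np_t (w : Wd) : np (true :: w) = np w + 1 := by
  simp [np]

private theorem np_f (w : Wd) : np (false :: w) = np w := by
  simp [np]

private theorem P_t (w : Wd) : P (true :: w) = subt (MvPolynomial.X (np w + 1)) (P w) := rfl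

private theorem P_f (w : Wd) : P (false :: w) =
    P w * (MvPolynomial.X 0 - uu (np w)) * MvPolynomial.C ((tz w + 1 : ℝ)⁻¹) := rfl

private theorem Bn_le (n k : ℕ) : Bn n k ≤ An n k := by
  rintro f ⟨h1, h2⟩
  exact ⟨h1, MvPolynomial.supported_mono (fun i hi => hi.2) h2⟩

private theorem pd_supp (n : ℕ) (f : PA)
    (hf : f ∈ MvPolynomial.supported ℝ {i | 1 ≤ i ∧ i ≤ n}) : MvPolynomial.pderiv 0 f = 0 := by
  apply MvPolynomial.pderiv_eq_zero_of_notMem_vars
  intro h
  have h1 := (MvPolynomial.mem_supported.1 hf) (Finset.mem_coe.2 h)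
  exact absurd h1.1 (by omega)

private theorem lin_ind (p : R → Prop) (f : R) (h0 : p 0) (ha : ∀ f g, p f → p g → p (f + g))
    (hs : ∀ (a : ℝ) w, f w ≠ 0 → p (a • bw w)) : p f := by
  rw [← Finsupp.sum_single f]
  refine Finset.sum_induction _ p ha h0 fun w hw => ?_
  have h : (single w (f w) : R) = f w • bw w := by
    rw [bw, smul_single, smul_eq_mul, mul_one]
  rw [h]
  exact hs _ _ (Finsupp.mem_support_iff.1 hw)

theorem PP_bw (w : Wd) : PP (bw w) = P w := by
  simp [PP, bw]

theorem P_mem (w : Wd) : P w ∈ An (np w) (nz w) := by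
  induction w with
  | nil =>
    refine ⟨?_, ?_⟩
    · exact MvPolynomial.isHomogeneous_one _ _
    · exact Subalgebra.one_mem _
  | cons b w ih =>
    obtain ⟨h1, h2⟩ := ih
    cases b with
    | true =>
      rw [P_t, nz_t, np_t]
      exact Bn_le _ _ ⟨subt_hom _ _ _ h1, subt_supp _ _ h2⟩
    | false =>
      rw [P_f, nz_f, np_f]
      refine ⟨?_, ?_⟩
      · have h3 : MvPolynomial.IsHomogeneous (MvPolynomial.X 0 - uu (np w) : PA) 1 :=
          (MvPolynomial.isHomogeneous_X _ _).sub (uu_hom _)
        have h4 := (h1.mul h3).mul (MvPolynomial.isHomogeneous_C ℕ ((tz w + 1 : ℝ)⁻¹))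
        rw [add_zero] at h4
        exact h4
      · refine Subalgebra.mul_mem _ (Subalgebra.mul_mem _ h2 (Subalgebra.sub_mem _ ?_ (uu_supp _)))
          (Subalgebra.algebraMap_mem _ _)
        rw [MvPolynomial.X_mem_supported]
        exact Nat.zero_le _

theorem P_true_mem (w : Wd) : P (true :: w) ∈ Bn (np w + 1) (nz w) := by
  obtain ⟨h1, h2⟩ := P_mem w
  rw [P_t]
  exact ⟨subt_hom _ _ _ h1, subt_supp _ _ h2⟩

theorem pderiv_P_true (w : Wd) : MvPolynomial.pderiv 0 (P (true :: w)) = 0 := by
  exact pd_supp _ _ (P_true_mem w).2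

theorem pderiv_P_false (w : Wd) : MvPolynomial.pderiv 0 (P (false :: w)) = P w := by
  have key : ∀ w : Wd, MvPolynomial.pderiv 0 (P w) * (MvPolynomial.X 0 - uu (np w)) =
      MvPolynomial.C (tz w : ℝ) * P w → MvPolynomial.pderiv 0 (P (false :: w)) = P w := by
    intro w h
    have hu : MvPolynomial.pderiv 0 (MvPolynomial.X 0 - uu (np w) : PA) = 1 := by
      rw [map_sub, MvPolynomial.pderiv_X_self]
      have h0 : MvPolynomial.pderiv 0 (uu (np w)) = 0 := by
        unfold uu
        split_ifs with h1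
        · exact map_zero _
        · exact MvPolynomial.pderiv_X_of_ne h1
      rw [h0, sub_zero]
    rw [P_f, MvPolynomial.pderiv_mul, MvPolynomial.pderiv_mul, MvPolynomial.pderiv_C, mul_zero,
      add_zero, hu, h, mul_one]
    have h2 : (MvPolynomial.C (tz w : ℝ) * P w + P w) * MvPolynomial.C ((tz w + 1 : ℝ)⁻¹) =
        (MvPolynomial.C ((tz w : ℝ) + 1) * MvPolynomial.C ((tz w + 1 : ℝ)⁻¹)) * P w := by
      rw [map_add, map_one]
      ring
    rw [h2, ← map_mul, mul_inv_cancel₀ (by positivity), map_one, one_mul]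
  induction w with
  | nil =>
    refine key [] ?_
    have h1 : P [] = 1 := rfl
    have h2 : tz [] = 0 := rfl
    rw [h1, h2]
    simp
  | cons b w ih =>
    cases b with
    | true =>
      refine key _ ?_
      rw [pderiv_P_true]
      have h2 : tz (true :: w) = 0 := rfl
      rw [h2]
      simp
    | false =>
      refine key _ ?_
      have h2 : tz (false :: w) = tz w + 1 := rfl
      rw [ih, h2, P_f w, np_f]
      have h3 : MvPolynomial.C ((tz w + 1 : ℕ) : ℝ) * (P w * (MvPolynomial.X 0 - uu (np w)) *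
          MvPolynomial.C ((tz w + 1 : ℝ)⁻¹)) =
          (MvPolynomial.C ((tz w : ℝ) + 1) * MvPolynomial.C ((tz w + 1 : ℝ)⁻¹)) *
            (P w * (MvPolynomial.X 0 - uu (np w))) := by
        push_cast
        ring
      rw [h3, ← map_mul, mul_inv_cancel₀ (by positivity), map_one, one_mul]

theorem PP_mem (n k : ℕ) (f : R) (hf : IsH n k f) : PP f ∈ An n k := by
  refine lin_ind (fun g => PP g ∈ An n k) f ?_ ?_ ?_
  · rw [map_zero]
    exact Submodule.zero_mem _
  · intro f g h1 h2
    rw [map_add]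
    exact Submodule.add_mem _ h1 h2
  · intro a w hw
    obtain ⟨h1, h2⟩ := hf w hw
    rw [map_smul, PP_bw, ← h1, ← h2]
    exact Submodule.smul_mem _ _ (P_mem w)

theorem PP_app_mem (n k : ℕ) (f : R) (hf : IsH n k f) : PP (app true f) ∈ Bn (n + 1) k := by
  refine lin_ind (fun g => PP (app true g) ∈ Bn (n + 1) k) f ?_ ?_ ?_
  · rw [map_zero, map_zero]
    exact Submodule.zero_mem _
  · intro f g h1 h2
    rw [map_add, map_add]
    exact Submodule.add_mem _ h1 h2
  · intro a w hw
    obtain ⟨h1, h2⟩ := hf w hw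
    rw [map_smul, map_smul, app_bw, PP_bw, ← h1, ← h2]
    exact Submodule.smul_mem _ _ (P_true_mem w)

theorem PP_app_true (n k : ℕ) (f : R) (hf : IsH n k f) :
    PP (app true f) = subt (MvPolynomial.X (n + 1)) (PP f) := by
  refine lin_ind (fun g => PP (app true g) = subt (MvPolynomial.X (n + 1)) (PP g)) f ?_ ?_ ?_
  · simp only [map_zero]
  · intro f g h1 h2
    rw [map_add, map_add, h1, h2, map_add, map_add]
  · intro a w hw
    obtain ⟨h1, h2⟩ := hf w hw
    rw [map_smul, map_smul, app_bw, PP_bw, map_smul, map_smul, PP_bw, P_t, h1]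

theorem pderiv_PP (f : R) : MvPolynomial.pderiv 0 (PP f) = PP (del false f) := by
  refine lin_ind (fun g => MvPolynomial.pderiv 0 (PP g) = PP (del false g)) f ?_ ?_ ?_
  · simp only [map_zero]
  · intro f g h1 h2
    rw [map_add, map_add, h1, h2, map_add, map_add]
  · intro a w _
    rw [map_smul, PP_bw, Derivation.map_smul, map_smul, map_smul]
    congr 1
    cases w with
    | nil =>
      have h1 : P [] = 1 := rfl
      have h2 : del false (bw []) = 0 := by
        ext v
        rw [del_apply]
        simp [bw]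
      rw [h1, h2, map_zero]
      simp
    | cons b w =>
      rw [← app_bw]
      cases b with
      | true =>
        rw [del_app_ne _ _ (by simp), map_zero]
        exact pderiv_P_true w
      | false =>
        rw [del_app, PP_bw]
        exact pderiv_P_false w

theorem ev_PP (n k : ℕ) (f : R) (hf : IsH (n + 1) k f) : ev (n + 1) (PP f) = PP (del true f) := by
  refine lin_ind (fun g => ev (n + 1) (PP g) = PP (del true g)) f ?_ ?_ ?_
  · simp only [map_zero]
  · intro f g h1 h2
    rw [map_add, map_add, h1, h2, map_add, map_add]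
  · intro a w hw
    obtain ⟨h1, h2⟩ := hf w hw
    rw [map_smul, map_smul, PP_bw, map_smul, map_smul]
    congr 1
    cases w with
    | nil => simp [np] at h1
    | cons b w =>
      cases b with
      | true =>
        rw [np_t] at h1
        rw [← app_bw, del_app, PP_bw, P_t]
        have h1 : np w = n := by omega
        rw [h1]
        have h3 := (P_mem w).2
        have h4 : ev (n + 1) (subt (MvPolynomial.X (n + 1)) (P w)) =
            MvPolynomial.aeval (fun i => ev (n + 1)
              ((if i = 0 then MvPolynomial.X (n + 1) else MvPolynomial.X i : PA))) (P w) := by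
          have h5 : (ev (n + 1)).comp (subt (MvPolynomial.X (n + 1))) =
              MvPolynomial.aeval (fun i => ev (n + 1)
              ((if i = 0 then MvPolynomial.X (n + 1) else MvPolynomial.X i : PA))) := by
            apply MvPolynomial.algHom_ext
            intro i
            rw [AlgHom.comp_apply, subt, MvPolynomial.aeval_X, MvPolynomial.aeval_X]
          exact DFunLike.congr_fun h5 (P w)
        rw [h4]
        refine aeval_fix _ _ (fun i hi => ?_) _ h3
        have hi' : i ≤ np w := hi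
        by_cases h0 : i = 0
        · subst h0
          rw [if_pos rfl, ev, MvPolynomial.aeval_X, if_pos rfl]
        · rw [if_neg h0, ev, MvPolynomial.aeval_X, if_neg (by omega)]
      | false =>
        rw [np_f] at h1
        rw [← app_bw, del_app_ne _ _ (by simp), map_zero, P_f, h1, map_mul, map_mul,
          map_sub]
        have h6 : ev (n + 1) (MvPolynomial.X 0) = MvPolynomial.X 0 := by
          rw [ev, MvPolynomial.aeval_X, if_neg (by omega)]
        have h7 : ev (n + 1) (uu (n + 1)) = MvPolynomial.X 0 := by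
          rw [uu, if_neg (by omega), ev, MvPolynomial.aeval_X, if_pos rfl]
        rw [h6, h7, sub_self, mul_zero, zero_mul]

/-- the polynomial of `z` -/
theorem P_z : P [false] = MvPolynomial.X 0 := by
  have h1 : P [] = 1 := rfl
  have h2 : tz [] = 0 := rfl
  have h3 : uu (np []) = 0 := by simp [uu, np]
  rw [P_f, h1, h2, h3]
  simp

/-- the polynomial of `p` -/
theorem P_p : P [true] = 1 := by
  have h1 : P [] = 1 := rfl
  rw [P_t, h1, map_one]

theorem Bn_le_An (n k : ℕ) : Bn n k ≤ An n k := by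
  exact Bn_le n k

theorem An_mono (n n' k : ℕ) (h : n ≤ n') : An n k ≤ An n' k := by
  rintro f ⟨h1, h2⟩
  refine ⟨h1, MvPolynomial.supported_mono ?_ h2⟩
  intro i hi
  exact le_trans hi h

theorem Bn_mono (n n' k : ℕ) (h : n ≤ n') : Bn n k ≤ Bn n' k := by
  rintro f ⟨h1, h2⟩
  refine ⟨h1, MvPolynomial.supported_mono ?_ h2⟩
  intro i hi
  exact ⟨hi.1, le_trans hi.2 h⟩

theorem An_mul (n k l : ℕ) (f g : PA) (hf : f ∈ An n k) (hg : g ∈ An n l) :
    f * g ∈ An n (k + l) := by
  exact ⟨MvPolynomial.IsHomogeneous.mul hf.1 hg.1, Subalgebra.mul_mem _ hf.2 hg.2⟩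

theorem Bn_mul (n k l : ℕ) (f g : PA) (hf : f ∈ Bn n k) (hg : g ∈ Bn n l) :
    f * g ∈ Bn n (k + l) := by
  exact ⟨MvPolynomial.IsHomogeneous.mul hf.1 hg.1, Subalgebra.mul_mem _ hf.2 hg.2⟩

theorem dl_mem (o n : ℕ) : dl o n ∈ Bn (o + n) 1 := by
  unfold dl
  refine Submodule.sum_mem _ fun j hj => ?_
  rw [Finset.mem_range] at hj
  refine ⟨?_, ?_⟩
  · have h := (MvPolynomial.isHomogeneous_C ℕ ((-1 : ℝ) ^ j)).mul
      (MvPolynomial.isHomogeneous_X ℝ (o + j + 1))
    rw [zero_add] at h
    exact h
  · refine Subalgebra.mul_mem _ (Subalgebra.algebraMap_mem _ _) ?_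
    rw [MvPolynomial.X_mem_supported]
    exact ⟨by omega, by omega⟩

theorem dl_ne_zero (o n : ℕ) (h : 1 ≤ n) : dl o n ≠ 0 := by
  intro h0
  have h1 := congrArg (MvPolynomial.eval (fun i => if i = o + 1 then (1 : ℝ) else 0)) h0
  rw [map_zero, dl, map_sum] at h1
  rw [Finset.sum_eq_single_of_mem 0 (Finset.mem_range.2 (by omega))] at h1
  · simp at h1
  · intro j _ hj
    rw [map_mul, MvPolynomial.eval_X, if_neg (by omega), mul_zero]

end BrV
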