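import Pool.Agent.Lib.BrV.PBas

/-!
# BrV.PDet: a polynomial is determined by its `t`-derivative and by `u_n = t`; `PP` is bijective

Proofs.  `det_pos`: `pderiv 0 H = 0` in characteristic `0`: `X 0` does not occur in `H`, so `H ∈ supported {1..n+1}`; on this subalgebra `ev (n+1)` is injective
(it is the renaming `n+1 ↦ 0`, an injective map on `{1,..,n+1}`; or compose with `subt (X (n+1))`, which gives back `H`), so `H = 0`.
`det_zero`: `H` is a homogeneous polynomial of degree `k ≥ 1` in `X 0` alone: `H = c X_0^k`, derivative `c k X_0^(k-1)`.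
`PP_inj`: induction on `n + k`.  `PP f = 0` gives `PP (del false f) = 0` (`pderiv_PP`), so `del false f = 0` (bidegree `(n,k-1)`; if `k = 0` it is `0` anyway), and if `n ≥ 1` `PP (del true f) = 0` (`ev_PP`),
`del true f = 0`; `R_ext`: `f [] = 0` unless `n = k = 0`, where `f = f [] • bw []`, `PP f = f []`.
`PP_surj`: induction on `n + k`.  `n = k = 0`: constants.  `n = 0, k ≥ 1`: take `f1` with `PP f1 = pderiv 0 H`, `f = app false f1`, `det_zero` for `H - PP f`.
 `n ≥ 1`: `f1` of bidegree `(n,k-1)` with `PP f1 = pderiv 0 H` (`f1 = 0` if `k = 0`), `f2` of bidegree `(n-1,k)` with `PP f2 = ev n H` (`ev n H ∈ An (n-1) k`), `f = app false f1 + app true f2`: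
 `pderiv 0 (PP f) = PP f1`, `ev n (PP f) = PP f2` (`pderiv_PP`, `ev_PP`, `del_app`, `del_app_ne`), so `H = PP f` by `det_pos`.
`PB_surj`: `H ∈ Bn (n+1) k`: `H' = ev (n+1) H ∈ An n k`, `PP f = H'`, `PP (app true f) = subt (X (n+1)) H' = H`.
`PB_inj`: `subt (X (n+1))` is injective on `An n k` (`ev (n+1)` is a left inverse), `PP_inj`.
-/

namespace BrV

open Finsupp

private theorem sup_ext (S : Set ℕ) (f g : PA →ₐ[ℝ] PA)
    (h : ∀ i ∈ S, f (MvPolynomial.X i) = g (MvPolynomial.X i)) (H : PA)
    (hH : H ∈ MvPolynomial.supported ℝ S) : f H = g H := by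
  have h1 : MvPolynomial.supported ℝ S ≤ AlgHom.equalizer f g := by
    rw [MvPolynomial.supported_eq_adjoin_X]
    refine Algebra.adjoin_le ?_
    rintro _ ⟨i, hi, rfl⟩
    exact h i hi
  exact h1 hH

private theorem sup_map (S T : Set ℕ) (f : PA →ₐ[ℝ] PA)
    (h : ∀ i ∈ S, f (MvPolynomial.X i) ∈ MvPolynomial.supported ℝ T) (H : PA)
    (hH : H ∈ MvPolynomial.supported ℝ S) : f H ∈ MvPolynomial.supported ℝ T := by
  have h1 : MvPolynomial.supported ℝ S ≤ (MvPolynomial.supported ℝ T).comap f := by
    rw [MvPolynomial.supported_eq_adjoin_X]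
    refine Algebra.adjoin_le ?_
    rintro _ ⟨i, hi, rfl⟩
    exact h i hi
  exact h1 hH

private theorem no_zero (H : PA) (h1 : MvPolynomial.pderiv 0 H = 0) : 0 ∉ H.vars := by
  intro h
  obtain ⟨d, hd, h0⟩ := (MvPolynomial.mem_vars 0).1 h
  have h2 : d 0 ≠ 0 := Finsupp.mem_support_iff.1 h0
  have h3 := MvPolynomial.coeff_pderiv (i := 0) H (d - Finsupp.single 0 1)
  have h4 : d - Finsupp.single 0 1 + Finsupp.single 0 1 = d := by
    ext i
    by_cases hi : i = 0
    · subst hi
      simp
      omega
    · simp [hi]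
  rw [h4, h1, MvPolynomial.coeff_zero] at h3
  have h5 : H.coeff d ≠ 0 := MvPolynomial.mem_support_iff.1 hd
  have h6 : (((d - Finsupp.single 0 1 : ℕ →₀ ℕ) 0 : ℝ) + 1) ≠ 0 := by positivity
  exact (mul_ne_zero h5 h6) h3.symm

private theorem sup_pos (S : Set ℕ) (H : PA) (hH : H ∈ MvPolynomial.supported ℝ S)
    (h1 : MvPolynomial.pderiv 0 H = 0) : H ∈ MvPolynomial.supported ℝ {i | i ∈ S ∧ i ≠ 0} := by
  rw [MvPolynomial.mem_supported] at hH ⊢
  intro i hi
  refine ⟨hH hi, ?_⟩
  rintro rfl
  exact no_zero H h1 hi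

private theorem sup_pderiv (S : Set ℕ) (H : PA) (hH : H ∈ MvPolynomial.supported ℝ S) :
    MvPolynomial.pderiv 0 H ∈ MvPolynomial.supported ℝ S := by
  rw [MvPolynomial.supported_eq_adjoin_X] at hH
  induction hH using Algebra.adjoin_induction with
  | mem x hx =>
    obtain ⟨i, hi, rfl⟩ := hx
    rw [MvPolynomial.pderiv_X]
    by_cases h : i = 0
    · subst h
      simp
    · rw [Pi.single_eq_of_ne h]
      exact Subalgebra.zero_mem _
  | algebraMap r =>
    rw [MvPolynomial.algebraMap_eq, MvPolynomial.pderiv_C]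
    exact Subalgebra.zero_mem _
  | add x y _ _ hx hy =>
    rw [map_add]
    exact Subalgebra.add_mem _ hx hy
  | mul x y hx' hy' hx hy =>
    rw [Derivation.leibniz, smul_eq_mul, smul_eq_mul]
    exact Subalgebra.add_mem _ (Subalgebra.mul_mem _ hx' hy) (Subalgebra.mul_mem _ hy' hx)

private theorem An_pderiv (n k : ℕ) (H : PA) (hH : H ∈ An n (k + 1)) :
    MvPolynomial.pderiv 0 H ∈ An n k := by
  obtain ⟨h1, h2⟩ := hH
  refine ⟨?_, sup_pderiv _ H h2⟩
  have h3 := MvPolynomial.IsHomogeneous.pderiv (i := 0)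
    ((MvPolynomial.mem_homogeneousSubmodule _ _).1 h1)
  rw [Nat.add_sub_cancel] at h3
  exact h3

private theorem ev_X (n i : ℕ) : ev n (MvPolynomial.X i) =
    if i = n then MvPolynomial.X 0 else MvPolynomial.X i := by
  unfold ev
  rw [MvPolynomial.aeval_X]

private theorem subt_X (q : PA) (i : ℕ) : subt q (MvPolynomial.X i) =
    if i = 0 then q else MvPolynomial.X i := by
  unfold subt
  rw [MvPolynomial.aeval_X]

private theorem An_ev (n k : ℕ) (H : PA) (hH : H ∈ An (n + 1) k) : ev (n + 1) H ∈ An n k := by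
  obtain ⟨h1, h2⟩ := hH
  refine ⟨?_, ?_⟩
  · have h3 := MvPolynomial.IsHomogeneous.aeval
      ((MvPolynomial.mem_homogeneousSubmodule _ _).1 h1)
      (fun i => if i = n + 1 then (MvPolynomial.X 0 : PA) else MvPolynomial.X i) (n := 1) (by
        intro i
        split_ifs
        · exact MvPolynomial.isHomogeneous_X _ _
        · exact MvPolynomial.isHomogeneous_X _ _)
    rw [one_mul] at h3
    exact h3
  · refine sup_map _ _ (ev (n + 1)) ?_ H h2
    intro i hi
    rw [ev_X]
    split_ifs with h
    · exact Algebra.subset_adjoin ⟨0, Nat.zero_le _, rfl⟩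
    · refine Algebra.subset_adjoin ⟨i, ?_, rfl⟩
      have : i ≤ n + 1 := hi
      show i ≤ n
      omega

private theorem subt_ev (n : ℕ) (H : PA)
    (hH : H ∈ MvPolynomial.supported ℝ {i | 1 ≤ i ∧ i ≤ n + 1}) :
    subt (MvPolynomial.X (n + 1)) (ev (n + 1) H) = H := by
  have h := sup_ext _ ((subt (MvPolynomial.X (n + 1))).comp (ev (n + 1))) (AlgHom.id ℝ PA) ?_ H hH
  · exact h
  · rintro i ⟨hi, _⟩
    rw [AlgHom.comp_apply, ev_X, AlgHom.id_apply]
    split_ifs with h
    · rw [subt_X, if_pos rfl, h]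
    · rw [subt_X, if_neg (by omega)]

private theorem ev_subt (n : ℕ) (H : PA)
    (hH : H ∈ MvPolynomial.supported ℝ {i | i ≤ n}) :
    ev (n + 1) (subt (MvPolynomial.X (n + 1)) H) = H := by
  have h := sup_ext _ ((ev (n + 1)).comp (subt (MvPolynomial.X (n + 1)))) (AlgHom.id ℝ PA) ?_ H hH
  · exact h
  · intro i hi
    have hi' : i ≤ n := hi
    rw [AlgHom.comp_apply, subt_X, AlgHom.id_apply]
    split_ifs with h
    · rw [ev_X, if_pos rfl, h]
    · rw [ev_X, if_neg (by omega)]

private theorem hom_zero (H : PA) (hH : H.IsHomogeneous 0) : H = MvPolynomial.C (H.coeff 0) := by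
  rw [← MvPolynomial.totalDegree_zero_iff_isHomogeneous,
    MvPolynomial.totalDegree_eq_zero_iff_eq_C] at hH
  exact hH

private theorem IsH_zero (n k : ℕ) : IsH n k 0 := fun _ hw => absurd rfl hw

private theorem IsH_add' (n k : ℕ) (f g : R) (hf : IsH n k f) (hg : IsH n k g) :
    IsH n k (f + g) := by
  intro w hw
  by_cases h : f w = 0
  · apply hg
    intro h2
    apply hw
    rw [Finsupp.add_apply, h, h2, add_zero]
  · exact hf w h

theorem det_pos (n k : ℕ) (H : PA) (hH : H ∈ An (n + 1) k) (h1 : MvPolynomial.pderiv 0 H = 0)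
    (h2 : ev (n + 1) H = 0) : H = 0 := by
  obtain ⟨h3, h4⟩ := hH
  have h5 := sup_pos _ H h4 h1
  rw [← subt_ev n H ?_, h2, map_zero]
  refine MvPolynomial.supported_mono ?_ h5
  rintro i ⟨hi, hi0⟩
  exact ⟨Nat.one_le_iff_ne_zero.2 hi0, hi⟩

theorem det_zero (k : ℕ) (hk : 1 ≤ k) (H : PA) (hH : H ∈ An 0 k)
    (h1 : MvPolynomial.pderiv 0 H = 0) : H = 0 := by
  obtain ⟨h3, h4⟩ := hH
  have h5 := sup_pos _ H h4 h1
  have h6 : H ∈ MvPolynomial.supported ℝ (∅ : Set ℕ) := by
    refine MvPolynomial.supported_mono ?_ h5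
    rintro i ⟨hi, hi0⟩
    exact absurd (Nat.le_zero.1 hi) hi0
  rw [MvPolynomial.supported_empty, Algebra.mem_bot] at h6
  obtain ⟨c, rfl⟩ := h6
  have h7 := (MvPolynomial.mem_homogeneousSubmodule _ _).1 h3
  by_contra hc
  have h8 := MvPolynomial.IsHomogeneous.inj_right h7
    (MvPolynomial.isHomogeneous_C ℕ c) hc
  omega

theorem PP_inj (n k : ℕ) (f : R) (hf : IsH n k f) (h : PP f = 0) : f = 0 := by
  induction hN : n + k using Nat.strong_induction_on generalizing n k f with
  | _ N ih =>
    subst hN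
    have hz : del false f = 0 := by
      cases k with
      | zero =>
        ext w
        by_contra hw
        have := (IsH_del_false n 0 f hf w hw).2
        omega
      | succ k =>
        refine ih (n + k) (by omega) n k (del false f) ?_ ?_ rfl
        · intro w hw
          have := IsH_del_false n (k + 1) f hf w hw
          exact ⟨this.1, by omega⟩
        · rw [← pderiv_PP, h, map_zero]
    have hp : del true f = 0 := by
      cases n with
      | zero =>
        ext w
        by_contra hw
        have := (IsH_del_true 0 k f hf w hw).1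
        omega
      | succ n =>
        refine ih (n + k) (by omega) n k (del true f) ?_ ?_ rfl
        · intro w hw
          have := IsH_del_true (n + 1) k f hf w hw
          exact ⟨by omega, this.2⟩
        · rw [← ev_PP n k f hf, h, map_zero]
    have h1 := R_decomp f
    rw [hz, hp, map_zero, map_zero, add_zero, add_zero] at h1
    rw [h1, map_smul, PP_bw] at h
    have h2 : f [] • (1 : PA) = 0 := h
    have h3 : f [] = 0 := by
      rcases smul_eq_zero.1 h2 with h3 | h3
      · exact h3
      · exact absurd h3 one_ne_zero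
    rw [h1, h3, zero_smul]

theorem PP_surj (n k : ℕ) (H : PA) (hH : H ∈ An n k) : ∃ f : R, IsH n k f ∧ PP f = H := by
  induction hN : n + k using Nat.strong_induction_on generalizing n k H with
  | _ N ih =>
    subst hN
    have hdf : ∃ f1 : R, (∀ w, f1 w ≠ 0 → np w = n ∧ nz w + 1 = k) ∧
        PP f1 = MvPolynomial.pderiv 0 H := by
      cases k with
      | zero =>
        refine ⟨0, fun w hw => absurd rfl hw, ?_⟩
        rw [map_zero, hom_zero H ((MvPolynomial.mem_homogeneousSubmodule _ _).1 hH.1),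
          MvPolynomial.pderiv_C]
      | succ k =>
        obtain ⟨f1, h1, h2⟩ := ih (n + k) (by omega) n k _ (An_pderiv n k H hH) rfl
        exact ⟨f1, fun w hw => ⟨(h1 w hw).1, by rw [(h1 w hw).2]⟩, h2⟩
    obtain ⟨f1, hf1, hP1⟩ := hdf
    have hA1 : IsH n k (app false f1) := by
      cases k with
      | zero =>
        have h0 : f1 = 0 := by
          ext w
          by_contra hw
          have := (hf1 w hw).2
          omega
        rw [h0, map_zero]
        exact IsH_zero _ _
      | succ k =>
        exact IsH_app_false n k f1 fun w hw => ⟨(hf1 w hw).1, by have := (hf1 w hw).2; omega⟩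
    cases n with
    | zero =>
      cases k with
      | zero =>
        refine ⟨H.coeff 0 • bw [], ?_, ?_⟩
        · intro w hw
          have h1 : w = [] := by
            by_contra h2
            apply hw
            rw [Finsupp.smul_apply, bw, Finsupp.single_apply, if_neg (Ne.symm h2), smul_zero]
          subst h1
          exact ⟨rfl, rfl⟩
        · rw [map_smul, PP_bw]
          have h1 := hom_zero H ((MvPolynomial.mem_homogeneousSubmodule _ _).1 hH.1)
          conv_rhs => rw [h1]
          show H.coeff 0 • (1 : PA) = _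
          rw [MvPolynomial.smul_eq_C_mul, mul_one]
      | succ k =>
        refine ⟨app false f1, hA1, ?_⟩
        have h1 : MvPolynomial.pderiv 0 (H - PP (app false f1)) = 0 := by
          rw [map_sub, pderiv_PP, del_app, hP1, sub_self]
        have h2 := det_zero (k + 1) (by omega) (H - PP (app false f1))
          (Submodule.sub_mem _ hH (PP_mem 0 (k + 1) _ hA1)) h1
        exact (sub_eq_zero.1 h2).symm
    | succ n =>
      obtain ⟨f2, hf2, hP2⟩ := ih (n + k) (by omega) n k _ (An_ev n k H hH) rfl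
      have hA2 : IsH (n + 1) k (app true f2) := IsH_app_true n k f2 hf2
      have hA : IsH (n + 1) k (app false f1 + app true f2) := IsH_add' _ _ _ _ hA1 hA2
      refine ⟨app false f1 + app true f2, hA, ?_⟩
      have h1 : MvPolynomial.pderiv 0 (H - PP (app false f1 + app true f2)) = 0 := by
        rw [map_sub, pderiv_PP, map_add, del_app, del_app_ne false true (by decide), add_zero,
          hP1, sub_self]
      have h2 : ev (n + 1) (H - PP (app false f1 + app true f2)) = 0 := by
        rw [map_sub, ev_PP n k _ hA, map_add, del_app, del_app_ne true false (by decide), zero_add,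
          hP2, sub_self]
      have h3 := det_pos n k (H - PP (app false f1 + app true f2))
        (Submodule.sub_mem _ hH (PP_mem (n + 1) k _ hA)) h1 h2
      exact (sub_eq_zero.1 h3).symm

theorem PB_inj (n k : ℕ) (f : R) (hf : IsH n k f) (h : PP (app true f) = 0) : f = 0 := by
  apply PP_inj n k f hf
  rw [← ev_subt n (PP f) (PP_mem n k f hf).2, ← PP_app_true n k f hf, h, map_zero]

theorem PB_surj (n k : ℕ) (H : PA) (hH : H ∈ Bn (n + 1) k) :
    ∃ f : R, IsH n k f ∧ PP (app true f) = H := by
  obtain ⟨f, hf, hP⟩ := PP_surj n k (ev (n + 1) H) (An_ev n k H (Bn_le_An (n + 1) k hH))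
  refine ⟨f, hf, ?_⟩
  rw [PP_app_true n k f hf, hP, subt_ev n H hH.2]

end BrV
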