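import Pool.Agent.Lib.BrV.SHDef

/-!
# BrV.SCyc2: an explicit cycle of degree `(2, 2i + 2, 2)`, `i ≥ 1` (section 4)

`n = 2i + 2`.  Head of a word = LAST letter; a block `true :: w` is encoded by `w`; the head of a list of blocks is the LAST block.
`cycA i = [p^2|zz p^(2i)] - [zz p^(2i)|p^2] - 2 [p|z p z p^(2i)] - 4 [zp|z p^(2i+1)]`,  `cycB i = 2 [z p^(2i+2)]`  (`zz p^(2i)` is encoded by `pw (2i-1) ++ [false, false]`, `z p z p^(2i)` by `pw (2i-1) ++ [false, true, false]`, `z p` by `[false]`, `z p^(2i+1)` by `pw (2i) ++ [false]`, `z p^(2i+2)` by `pw (2i+1) ++ [false]`).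
`cyc_rel`: `mg0 [w, v] = cl (bm v w) []` (`v` is the left block), `uo0 [w] = cl (ub w) []`, `app true (bm v w) = (block v) * (block w)` (`app_bm`), `app true (ub w) = z*(block w) + sg w • (block w)*z` (`app_ub`), `app_inj`.  So it is enough, in `R` (write `u p^m` for `((app true)^m) u`):
 (1) `p^2*(u p^(2i)) - (u p^(2i))*p^2 = (p^2*u - u*p^2) p^(2i)` for every word `u`:  by `sh_cons`: `p*(u p^(m+1)) = (p*(u p^m)) p + (-1)^(np u + m + 1) u p^(m+2)`, `(u p^(m+1))*p = u p^(m+2) - ((u p^m)*p) p`,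
     `p^2*(u p^(m+1)) = (p^2*(u p^m)) p + (-1)^(np u + m + 1) (p*(u p^(m+1))) p`, `(u p^(m+1))*p^2 = ((u p^(m+1))*p) p + ((u p^m)*p^2) p`; two steps: `p^2*(u p^(m+2)) = (p^2*(u p^m)) p^2 + u p^(m+4)` and `(u p^(m+2))*p^2 = ((u p^m)*p^2) p^2 + u p^(m+4)` for `m` even (the terms with one `p` cancel); induction.
     For `u = zz`: `p^2*zz - zz*p^2 = 2 pzpz + 2 zpzp` (finite computation with `sh`).
 (2) `p*(zpzp^(2i)) = pzpzp^(2i) - zpzp^(2i+1)`: `p*(u p^(m+2)) = (p*(u p^m)) p^2` (`m` even), `p*(zpz) = pzpz - zpzp`.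
 (3) `2 A_(2i+1) + B_(2i+2) - C_(2i+2) = 2 zpzp^(2i+1)`, `A_m = (zp)*(zp^m)`, `B_m = z*(zp^m)`, `C_m = (zp^m)*z`:  `A_(m+1) = A_m p + (-1)^(m+1) B_(m+1) p`, `B_(m+1) = B_m p + (-1)^(m+1) zp^(m+1)z`, `C_(m+1) = C_m p + zp^(m+1)z`;
     so for `m` odd `A_(m+2) = A_m p^2 + (zp^(m+2)z) p` and `(B - C)_(m+3) = (B - C)_(m+1) p^2 - 2 (zp^(m+2)z) p`; induction from `m = 1` (`A_1 = 2 zpzp`, `B_2 - C_2 = - 2 zpzp`).
 Together: `p^2*(zzp^(2i)) - (zzp^(2i))*p^2 - 2 p*(zpzp^(2i)) - 4 (zp)*(zp^(2i+1)) = 4 zpzp^(2i+1) - 4 A_(2i+1) = 2 (B - C)_(2i+2) = 2 U(zp^(2i+2))`.   (Checked by computer for `i ≤ 4`.)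
`cycA_*`, `cycB_deg`: unfold; `single` at a list not among the four is `0` (do not use that the four lists are different, only `l ∈ {..}`).
`cycA_E`: `EL0 [w, v] = cl (Ef0 w) [v] + cns w (cl (Ef0 v) [])`; `Ef0 (pw (2i-1) ++ [false, false]) = bw (pw (2i-1) ++ [false])`, `Ef0 [true] = 0`, `Ef0 [] = 0`, `Ef0 (pw (2i-1) ++ [false, true, false]) = bw (pw (2i-1) ++ [false, true])`, `Ef0 (pw (2i) ++ [false]) = bw (pw (2i))`, `Ef0 [false] = bw []`.
-/

namespace BrV

open Finsupp

noncomputable section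

/-- `false` part of the cycle -/
def cycA (i : ℕ) : CL :=
  single [pw (2 * i - 1) ++ [false, false], [true]] 1 -
    single [[true], pw (2 * i - 1) ++ [false, false]] 1 -
    single [pw (2 * i - 1) ++ [false, true, false], []] 2 -
    single [pw (2 * i) ++ [false], [false]] 4

/-- `true` part of the cycle -/
def cycB (i : ℕ) : CL := single [pw (2 * i + 1) ++ [false]] 2

end

private theorem pw_succ (m : ℕ) (u : Wd) : pw (m + 1) ++ u = true :: (pw m ++ u) := rfl

private theorem sg_cons_t (u : Wd) : sg (true :: u) = - sg u := by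
  simp [sg, np, pow_succ]

private theorem sg_cons_f (u : Wd) : sg (false :: u) = sg u := by
  simp [sg, np]

private theorem sg_nil' : sg [] = 1 := by simp [sg, np]

private theorem sg_even (i : ℕ) (u : Wd) : sg (pw (2 * i) ++ u) = sg u := by
  induction i with
  | zero => rfl
  | succ i ih =>
    show sg (true :: true :: (pw (2 * i) ++ u)) = sg u
    rw [sg_cons_t, sg_cons_t, ih, neg_neg]

private theorem sg_sq (u : Wd) : sg u * sg u = 1 := by
  unfold sg
  rw [← mul_pow]
  simp

private theorem sh_nil_left (w : Wd) : sh [] w = bw w := by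
  rw [← mu_bw, nil_mu]

private theorem a2 (i : ℕ) (u : Wd) : sh [true] (pw (2 * i + 2) ++ u) =
    app true (app true (sh [true] (pw (2 * i) ++ u))) := by
  have h1 : sh [true] (pw (2 * i + 2) ++ u) = app true (sh [true] (pw (2 * i + 1) ++ u)) +
      sg (pw (2 * i + 2) ++ u) • app true (sh [] (pw (2 * i + 2) ++ u)) := sh_cons _ _ _ _
  have h2 : sh [true] (pw (2 * i + 1) ++ u) = app true (sh [true] (pw (2 * i) ++ u)) +
      sg (pw (2 * i + 1) ++ u) • app true (sh [] (pw (2 * i + 1) ++ u)) := sh_cons _ _ _ _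
  have h3 : app true (bw (pw (2 * i + 1) ++ u)) = bw (pw (2 * i + 2) ++ u) := app_bw _ _
  have h4 : sg (pw (2 * i + 2) ++ u) = sg u := sg_even (i + 1) u
  have h5 : sg (pw (2 * i + 1) ++ u) = - sg u := by rw [pw_succ, sg_cons_t, sg_even]
  rw [h1, h2, sh_nil_left, sh_nil_left, h3, map_add, map_smul, h4, h5]
  module

private theorem c2 (i : ℕ) (u : Wd) : sh [true, true] (pw (2 * i + 2) ++ u) =
    app true (app true (sh [true, true] (pw (2 * i) ++ u))) + bw (pw (2 * i + 4) ++ u) := by
  have h1 : sh [true, true] (pw (2 * i + 2) ++ u) = app true (sh [true, true] (pw (2 * i + 1) ++ u)) +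
      sg (pw (2 * i + 2) ++ u) • app true (sh [true] (pw (2 * i + 2) ++ u)) := sh_cons _ _ _ _
  have h2 : sh [true, true] (pw (2 * i + 1) ++ u) = app true (sh [true, true] (pw (2 * i) ++ u)) +
      sg (pw (2 * i + 1) ++ u) • app true (sh [true] (pw (2 * i + 1) ++ u)) := sh_cons _ _ _ _
  have h2' : sh [true] (pw (2 * i + 1) ++ u) = app true (sh [true] (pw (2 * i) ++ u)) +
      sg (pw (2 * i + 1) ++ u) • app true (sh [] (pw (2 * i + 1) ++ u)) := sh_cons _ _ _ _
  have h3 : app true (bw (pw (2 * i + 1) ++ u)) = bw (pw (2 * i + 2) ++ u) := app_bw _ _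
  have h3' : app true (bw (pw (2 * i + 2) ++ u)) = bw (pw (2 * i + 3) ++ u) := app_bw _ _
  have h3'' : app true (bw (pw (2 * i + 3) ++ u)) = bw (pw (2 * i + 4) ++ u) := app_bw _ _
  have h4 : sg (pw (2 * i + 2) ++ u) = sg u := sg_even (i + 1) u
  have h5 : sg (pw (2 * i + 1) ++ u) = - sg u := by rw [pw_succ, sg_cons_t, sg_even]
  have h6 := sg_sq u
  rw [h1, h2, a2, h2', sh_nil_left, h3, h4, h5]
  simp only [map_add, map_smul, h3', h3'', smul_add, smul_smul]
  have h7 : (-sg u * -sg u) = 1 := by rw [neg_mul_neg, h6]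
  rw [h7]
  module

private theorem d2 (i : ℕ) (u : Wd) : sh (pw (2 * i + 2) ++ u) [true, true] =
    app true (app true (sh (pw (2 * i) ++ u) [true, true])) + bw (pw (2 * i + 4) ++ u) := by
  have e1 : sg [true] = -1 := by rw [sg_cons_t, sg_nil']
  have e2 : sg [true, true] = 1 := by rw [sg_cons_t, e1, neg_neg]
  have h1 : sh (pw (2 * i + 2) ++ u) [true, true] = app true (sh (pw (2 * i + 2) ++ u) [true]) +
      sg [true, true] • app true (sh (pw (2 * i + 1) ++ u) [true, true]) := sh_cons _ _ _ _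
  have h2 : sh (pw (2 * i + 1) ++ u) [true, true] = app true (sh (pw (2 * i + 1) ++ u) [true]) +
      sg [true, true] • app true (sh (pw (2 * i) ++ u) [true, true]) := sh_cons _ _ _ _
  have h3 : sh (pw (2 * i + 2) ++ u) [true] = app true (sh (pw (2 * i + 2) ++ u) []) +
      sg [true] • app true (sh (pw (2 * i + 1) ++ u) [true]) := sh_cons _ _ _ _
  have h4 : sh (pw (2 * i + 1) ++ u) [true] = app true (sh (pw (2 * i + 1) ++ u) []) +
      sg [true] • app true (sh (pw (2 * i) ++ u) [true]) := sh_cons _ _ _ _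
  have h5 : app true (bw (pw (2 * i + 1) ++ u)) = bw (pw (2 * i + 2) ++ u) := app_bw _ _
  have h5' : app true (bw (pw (2 * i + 2) ++ u)) = bw (pw (2 * i + 3) ++ u) := app_bw _ _
  have h5'' : app true (bw (pw (2 * i + 3) ++ u)) = bw (pw (2 * i + 4) ++ u) := app_bw _ _
  rw [h1, h2, h3, h4, sh_nil, sh_nil, e1, e2]
  simp only [map_add, map_smul, h5, h5', h5'', smul_add]
  module

private theorem A2 (i : ℕ) : sh [true, false] (pw (2 * i + 3) ++ [false]) =
    app true (app true (sh [true, false] (pw (2 * i + 1) ++ [false]))) +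
      app true (app false (bw (pw (2 * i + 3) ++ [false]))) := by
  have g1 : sg (pw (2 * i + 3) ++ [false]) = -1 := by
    show sg (true :: true :: true :: (pw (2 * i) ++ [false])) = -1
    rw [sg_cons_t, sg_cons_t, sg_cons_t, sg_even, sg_cons_f, sg_nil', neg_neg]
  have g2 : sg (pw (2 * i + 2) ++ [false]) = 1 := by
    show sg (true :: true :: (pw (2 * i) ++ [false])) = 1
    rw [sg_cons_t, sg_cons_t, sg_even, sg_cons_f, sg_nil', neg_neg]
  have h1 : sh [true, false] (pw (2 * i + 3) ++ [false]) =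
      app true (sh [true, false] (pw (2 * i + 2) ++ [false])) +
      sg (pw (2 * i + 3) ++ [false]) • app true (sh [false] (pw (2 * i + 3) ++ [false])) :=
    sh_cons _ _ _ _
  have h2 : sh [true, false] (pw (2 * i + 2) ++ [false]) =
      app true (sh [true, false] (pw (2 * i + 1) ++ [false])) +
      sg (pw (2 * i + 2) ++ [false]) • app true (sh [false] (pw (2 * i + 2) ++ [false])) :=
    sh_cons _ _ _ _
  have h3 : sh [false] (pw (2 * i + 3) ++ [false]) =
      app true (sh [false] (pw (2 * i + 2) ++ [false])) +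
      sg (pw (2 * i + 3) ++ [false]) • app false (sh [] (pw (2 * i + 3) ++ [false])) :=
    sh_cons _ _ _ _
  rw [h1, h2, h3, sh_nil_left, g1, g2]
  simp only [map_add, map_smul, smul_add]
  module

private theorem BC2 (i : ℕ) :
    sh [false] (pw (2 * i + 4) ++ [false]) - sh (pw (2 * i + 4) ++ [false]) [false] =
    app true (app true (sh [false] (pw (2 * i + 2) ++ [false]) -
      sh (pw (2 * i + 2) ++ [false]) [false])) -
      (2 : ℝ) • app true (app false (bw (pw (2 * i + 3) ++ [false]))) := by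
  have g0 : sg (pw (2 * i + 4) ++ [false]) = 1 := by
    show sg (true :: true :: true :: true :: (pw (2 * i) ++ [false])) = 1
    rw [sg_cons_t, sg_cons_t, sg_cons_t, sg_cons_t, sg_even, sg_cons_f, sg_nil', neg_neg, neg_neg]
  have g1 : sg (pw (2 * i + 3) ++ [false]) = -1 := by
    show sg (true :: true :: true :: (pw (2 * i) ++ [false])) = -1
    rw [sg_cons_t, sg_cons_t, sg_cons_t, sg_even, sg_cons_f, sg_nil', neg_neg]
  have e1 : sg [false] = 1 := by rw [sg_cons_f, sg_nil']
  have h1 : sh [false] (pw (2 * i + 4) ++ [false]) =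
      app true (sh [false] (pw (2 * i + 3) ++ [false])) +
      sg (pw (2 * i + 4) ++ [false]) • app false (sh [] (pw (2 * i + 4) ++ [false])) :=
    sh_cons _ _ _ _
  have h2 : sh [false] (pw (2 * i + 3) ++ [false]) =
      app true (sh [false] (pw (2 * i + 2) ++ [false])) +
      sg (pw (2 * i + 3) ++ [false]) • app false (sh [] (pw (2 * i + 3) ++ [false])) :=
    sh_cons _ _ _ _
  have h3 : sh (pw (2 * i + 4) ++ [false]) [false] =
      app false (sh (pw (2 * i + 4) ++ [false]) []) +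
      sg [false] • app true (sh (pw (2 * i + 3) ++ [false]) [false]) :=
    sh_cons _ _ _ _
  have h4 : sh (pw (2 * i + 3) ++ [false]) [false] =
      app false (sh (pw (2 * i + 3) ++ [false]) []) +
      sg [false] • app true (sh (pw (2 * i + 2) ++ [false]) [false]) :=
    sh_cons _ _ _ _
  rw [h1, h2, h3, h4, sh_nil_left, sh_nil_left, sh_nil, sh_nil, g0, g1, e1]
  simp only [map_add, map_sub, map_smul, smul_add, one_smul]
  module

private theorem base : sh [true, true] [false, false] - sh [false, false] [true, true] -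
    (2 : ℝ) • sh [true] [false, true, false] - (4 : ℝ) • sh [true, false] [true, false] -
    (2 : ℝ) • (sh [false] [true, true, false] - sh [true, true, false] [false]) = 0 := by
  have e0 := sg_nil'
  have e1 : sg [false] = 1 := by rw [sg_cons_f, sg_nil']
  have e2 : sg [false, false] = 1 := by rw [sg_cons_f, e1]
  have e3 : sg [true] = -1 := by rw [sg_cons_t, sg_nil']
  have e4 : sg [true, true] = 1 := by rw [sg_cons_t, e3, neg_neg]
  have e5 : sg [true, false] = -1 := by rw [sg_cons_t, e1]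
  have e6 : sg [false, true, false] = -1 := by rw [sg_cons_f, e5]
  have e7 : sg [true, true, false] = 1 := by rw [sg_cons_t, e5, neg_neg]
  simp only [sh_cons, sh_nil, sh_nil_left, e0, e1, e2, e3, e4, e5, e6, e7, map_add, map_smul, app_bw]
  module

private theorem main_id (i : ℕ) :
    sh [true, true] (pw (2 * i) ++ [false, false]) - sh (pw (2 * i) ++ [false, false]) [true, true] -
    (2 : ℝ) • sh [true] (pw (2 * i) ++ [false, true, false]) -
    (4 : ℝ) • sh [true, false] (pw (2 * i + 1) ++ [false]) -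
    (2 : ℝ) • (sh [false] (pw (2 * i + 2) ++ [false]) - sh (pw (2 * i + 2) ++ [false]) [false]) = 0 := by
  induction i with
  | zero => exact base
  | succ i ih =>
    show sh [true, true] (pw (2 * i + 2) ++ [false, false]) -
      sh (pw (2 * i + 2) ++ [false, false]) [true, true] -
      (2 : ℝ) • sh [true] (pw (2 * i + 2) ++ [false, true, false]) -
      (4 : ℝ) • sh [true, false] (pw (2 * i + 3) ++ [false]) -
      (2 : ℝ) • (sh [false] (pw (2 * i + 4) ++ [false]) -
        sh (pw (2 * i + 4) ++ [false]) [false]) = 0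
    have h := congrArg (fun x => app true (app true x)) ih
    simp only [map_sub, map_smul, map_zero] at h
    rw [c2, d2, a2, A2, BC2]
    simp only [map_sub, map_smul]
    rw [← h]
    module

private theorem mg0_two (w v : Wd) : mg0 [w, v] = cl (bm v w) [] := by
  rw [mg0_cons2]
  show cl (bm v w) [] - cns w 0 = _
  rw [map_zero, sub_zero]

private theorem uo0_one (w : Wd) : uo0 [w] = cl (ub w) [] := by
  show cns w 0 + (-1 : ℝ) ^ 0 • cl (ub w) [] = _
  rw [map_zero, zero_add, pow_zero, one_smul]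

private theorem cl_sub' (f g : R) (l : LB) : cl (f - g) l = cl f l - cl g l := by
  rw [sub_eq_add_neg, cl_add, sub_eq_add_neg]
  congr 1
  have : -g = (-1 : ℝ) • g := by rw [neg_one_smul]
  rw [this, cl_smul, neg_one_smul]

theorem cyc_rel (i : ℕ) (hi : 1 ≤ i) : mg (cycA i) = uo (cycB i) := by
  unfold cycA cycB
  rw [map_sub, map_sub, map_sub, mg_single, mg_single, mg_single, mg_single, uo_single, mg0_two,
    mg0_two, mg0_two, mg0_two, uo0_one, ← cl_smul, ← cl_smul, ← cl_smul, ← cl_smul, ← cl_smul,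
    ← cl_sub', ← cl_sub', ← cl_sub']
  congr 1
  apply app_inj true
  obtain ⟨j, rfl⟩ := Nat.exists_eq_add_of_le hi
  have h1 : ∀ u, true :: (pw (2 * (1 + j) - 1) ++ u) = pw (2 * (1 + j)) ++ u := by
    intro u
    have : 2 * (1 + j) = (2 * (1 + j) - 1) + 1 := by omega
    conv_rhs => rw [this]
    rfl
  have h2 : ∀ u, true :: (pw (2 * (1 + j)) ++ u) = pw (2 * (1 + j) + 1) ++ u := fun u => rfl
  have h3 : ∀ u, true :: (pw (2 * (1 + j) + 1) ++ u) = pw (2 * (1 + j) + 2) ++ u := fun u => rfl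
  have h4 : sg (pw (2 * (1 + j) + 1) ++ [false]) = -1 := by
    rw [pw_succ, sg_cons_t, sg_even, sg_cons_f, sg_nil']
  simp only [map_sub, map_smul, app_bm, app_ub, mu_bw, h1, h2, h3, h4]
  have h := main_id (1 + j)
  rw [← sub_eq_zero, ← h]
  module

private theorem npa_pw (m : ℕ) (u : Wd) : np (pw m ++ u) = m + np u := by
  unfold np pw
  rw [List.count_append, List.count_replicate_self]

private theorem nza_pw (m : ℕ) (u : Wd) : nz (pw m ++ u) = nz u := by
  unfold nz pw
  rw [List.count_append, List.count_replicate]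
  simp

private theorem supp4 {α : Type} {x1 x2 x3 x4 l : α} {a b c d : ℝ}
    (h : (single x1 a - single x2 b - single x3 c - single x4 d : α →₀ ℝ) l ≠ 0) :
    l = x1 ∨ l = x2 ∨ l = x3 ∨ l = x4 := by
  classical
  by_contra hc
  push Not at hc
  apply h
  rw [Finsupp.sub_apply, Finsupp.sub_apply, Finsupp.sub_apply, single_eq_of_ne hc.1,
    single_eq_of_ne hc.2.1, single_eq_of_ne hc.2.2.1, single_eq_of_ne hc.2.2.2]
  simp

theorem cycA_deg (i : ℕ) (hi : 1 ≤ i) (l : LB) (h : cycA i l ≠ 0) :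
    l.length = 2 ∧ npL l = 2 * i + 2 ∧ nzL l = 2 := by
  rcases supp4 h with rfl | rfl | rfl | rfl <;> refine ⟨rfl, ?_, ?_⟩ <;>
    simp only [npL, nzL, List.map_cons, List.map_nil, List.sum_cons, List.sum_nil, npa_pw, nza_pw] <;>
    simp [np, nz] <;> omega

theorem cycB_deg (i : ℕ) (hi : 1 ≤ i) (l : LB) (h : cycB i l ≠ 0) :
    l.length = 1 ∧ npL l = 2 * i + 2 ∧ nzL l = 1 := by
  have h1 : l = [pw (2 * i + 1) ++ [false]] := by
    by_contra hc
    apply h
    unfold cycB
    rw [single_eq_of_ne hc]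
  subst h1
  refine ⟨rfl, ?_, ?_⟩ <;>
    simp only [npL, nzL, List.map_cons, List.map_nil, List.sum_cons, List.sum_nil, npa_pw, nza_pw] <;>
    simp [np, nz] <;> omega

private theorem EL_single' (l : LB) (a : ℝ) : EL (single l a) = a • EL0 l := by
  unfold EL
  rw [Finsupp.lift_apply, Finsupp.sum_single_index]
  exact zero_smul _ _

private theorem Ef0_cons' (a : Bool) (w : Wd) (h : w ≠ []) : Ef0 (a :: w) = app a (Ef0 w) := by
  cases w with
  | nil => exact absurd rfl h
  | cons b w => cases a <;> rfl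

private theorem Ef0_f' (u : Wd) : Ef0 (u ++ [false]) = bw u := by
  induction u with
  | nil => rfl
  | cons a u ih => rw [List.cons_append, Ef0_cons' a _ (by simp), ih, app_bw]

private theorem Ef0_t' : Ef0 [true] = 0 := by
  show app true 0 = 0
  rw [map_zero]

private theorem EL0_two (w v : Wd) : EL0 [w, v] = cl (Ef0 w) [v] + cns w (cl (Ef0 v) []) := by
  show cl (Ef0 w) [v] + cns w (cl (Ef0 v) [] + cns v 0) = _
  rw [map_zero, add_zero]

private theorem cl_zero' (l : LB) : cl 0 l = 0 := by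
  unfold cl
  exact mapDomain_zero

/-- `E` of the cycle: `[p^2|zp^(2i)] - [zp^(2i)|p^2] - 2 [p|pzp^(2i)] - 4 [p|zp^(2i+1)] - 4 [zp|p^(2i+1)]` -/
theorem cycA_E (i : ℕ) (hi : 1 ≤ i) : EL (cycA i) =
    single [pw (2 * i - 1) ++ [false], [true]] 1 -
      single [[true], pw (2 * i - 1) ++ [false]] 1 -
      single [pw (2 * i - 1) ++ [false, true], []] 2 -
      single [pw (2 * i) ++ [false], []] 4 - single [pw (2 * i), [false]] 4 := by
  have f1 : Ef0 (pw (2 * i - 1) ++ [false, false]) = bw (pw (2 * i - 1) ++ [false]) := by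
    have : pw (2 * i - 1) ++ [false, false] = (pw (2 * i - 1) ++ [false]) ++ [false] := by
      rw [List.append_assoc]
      rfl
    rw [this, Ef0_f']
  have f2 : Ef0 (pw (2 * i - 1) ++ [false, true, false]) = bw (pw (2 * i - 1) ++ [false, true]) := by
    have : pw (2 * i - 1) ++ [false, true, false] = (pw (2 * i - 1) ++ [false, true]) ++ [false] := by
      rw [List.append_assoc]
      rfl
    rw [this, Ef0_f']
  have f3 : Ef0 (pw (2 * i) ++ [false]) = bw (pw (2 * i)) := Ef0_f' _
  have f4 : Ef0 [false] = bw [] := rfl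
  have f5 : Ef0 [] = 0 := rfl
  unfold cycA
  rw [map_sub, map_sub, map_sub, EL_single', EL_single', EL_single', EL_single', EL0_two, EL0_two,
    EL0_two, EL0_two, f1, f2, f3, f4, f5, Ef0_t', cl_zero', cl_zero', map_zero, map_zero,
    cl_bw, cl_bw, cl_bw, cl_bw, cl_bw]
  simp only [cns_single, smul_add, smul_single, smul_eq_mul, mul_one, cl_zero', map_zero, add_zero,
    zero_add]
  abel

end BrV
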