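import Pool.Agent.Lib.BrV.Str
import Pool.Agent.Lib.BrV.Ideals
import Pool.Agent.Lib.BrV.Formal

/-!
# Part 2 (complete answer for `k = 2`): definitions.  Paper: /team-store/MP_97e538_al_paper2.md
-/

namespace BrV

open Finsupp

noncomputable section

/-- `R = G' ⊕ F 1` -/
theorem isCompl_GF : IsCompl G' (F 1) := by
  constructor
  · rw [Submodule.disjoint_def]
    exact fun f h h' => G_inf_F1 f h h'
  · rw [codisjoint_iff, eq_top_iff]
    intro f _
    obtain ⟨g, hg, h, hh, rfl⟩ := G_sup_F1 f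
    exact Submodule.add_mem_sup hg hh

/-- projection of `R` onto `G'` along `F 1` -/
def gp : R →ₗ[ℝ] R := G'.subtype.comp (Submodule.linearProjOfIsCompl G' (F 1) isCompl_GF)

/-- the sign `τ_i = (-1)^(i(i-1)/2)` -/
def ta (i : ℕ) : ℝ := (-1) ^ (i * (i - 1) / 2)

/-- the word `x_m = p^m z` -/
def xw (m : ℕ) : Wd := false :: pw m

/-- the word `y_(a,b) = p^a z p^b z` -/
def yw (a b : ℕ) : Wd := false :: (pw b ++ (false :: pw a))

/-- coordinate of `x_m` modulo `F 1` -/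
def xc (m : ℕ) : R →ₗ[ℝ] ℝ := (Finsupp.lapply (xw m)).comp gp

/-- coordinate of `y_(2i, 2j)` modulo `F 1` -/
def yc (i j : ℕ) : R →ₗ[ℝ] ℝ := (Finsupp.lapply (yw (2 * i) (2 * j))).comp gp

/-- the vector `β_l + β_m` at `i` -/
def bb (l m i : ℕ) : ℝ := (i.choose l : ℝ) + (i.choose m : ℝ)

/-- scalars as elements of `Φ(R)` -/
def iot : Ph0 →ₗ[ℝ] Ph := Finsupp.mapRange.linearMap (LinearMap.toSpanSingleton ℝ R (bw []))

/-- coefficientwise coordinate of `x_m` -/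
def xco (m : ℕ) : Ph →ₗ[ℝ] Ph0 := Finsupp.mapRange.linearMap (xc m)

/-- `θ(c)` for `c` in `Φ0_(2, 2l+2, 1)`: the coordinate of `x_(2l)` of `D (iot c)` at `[p^2]` -/
def th (l : ℕ) (c : Ph0) : ℝ := xc (2 * l) (D (iot c) (false, [[true]]))

/-- `σ_l(c)` for `c` in `Φ0_(3, 2L, 2)`, `l + m + 1 = L` -/
def sgl (l m : ℕ) (c : Ph0) : ℝ := th l (xco (2 * m) (D (iot c)))

/-- `η_l(c)` for `c` in `Φ0_(1, 2L, 2)`: coordinates of `(yc i (L - i))_i` in the basis `(binom(i, l))_i` -/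
def eta (L l : ℕ) (c : Ph0) : ℝ := ∑ i ∈ Finset.range (L + 1),
  (-1 : ℝ) ^ (l + i) * (l.choose i : ℝ) * yc i (L - i) (D (iot c) (false, []))

end

end BrV
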