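import Pool.Agent.Lib.BrV.SLin
import Pool.Agent.Lib.BrV.Desc

/-!
# BrV.SDesA: the maps `JM`, `EM` on chains

Everything coefficientwise from `SM_emT`, `SM_pderiv`, `emT_inj`, `emT_mem`, `pderiv_none_mem`, `pderiv_none_surj`, `emT_of_pderiv` (PiMap), `sal_nat`; copy the corresponding steps of `Desc.salSym` (`exists_lift` there).
-/

namespace BrV

open Finsupp Pool.Agent.Lib.BrSym

private theorem exists_lift {M M' : Type*} [AddCommGroup M] [Module ℝ M] [AddCommGroup M']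
    [Module ℝ M'] (φ : M →ₗ[ℝ] M') (N : Submodule ℝ M) (x' : List ℕ →₀ M')
    (h : ∀ l, ∃ m ∈ N, φ m = x' l) :
    ∃ x : List ℕ →₀ M, (∀ l, x l ∈ N) ∧ (∀ l, φ (x l) = x' l) ∧ ∀ l, x l ≠ 0 → x' l ≠ 0 := by
  classical
  choose m hm hφ using h
  refine ⟨Finsupp.onFinset x'.support (fun l => if x' l = 0 then 0 else m l) ?_, ?_, ?_, ?_⟩
  · intro l hl
    rw [Finsupp.mem_support_iff]
    intro h
    exact hl (if_pos h)
  · intro l
    rw [Finsupp.onFinset_apply]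
    split_ifs with h
    · exact N.zero_mem
    · exact hm l
  · intro l
    rw [Finsupp.onFinset_apply]
    split_ifs with h
    · rw [h, map_zero]
    · exact hφ l
  · intro l hl h
    rw [Finsupp.onFinset_apply] at hl
    exact hl (if_pos h)

private theorem JM_apply (g : ℕ) (x : List ℕ →₀ MvPolynomial (Fin (2 * g)) ℝ) (l : List ℕ) :
    JM g x l = emT g (x l) := rfl

private theorem EM_apply (g : ℕ) (x : List ℕ →₀ MQ g) (l : List ℕ) :
    EM g x l = MvPolynomial.pderiv none (x l) := rfl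

private theorem JM_ne (g : ℕ) (x : List ℕ →₀ MvPolynomial (Fin (2 * g)) ℝ) (l : List ℕ)
    (h : JM g x l ≠ 0) : x l ≠ 0 := by
  intro h0
  apply h
  rw [JM_apply, h0, map_zero]

private theorem EM_ne (g : ℕ) (x : List ℕ →₀ MQ g) (l : List ℕ)
    (h : EM g x l ≠ 0) : x l ≠ 0 := by
  intro h0
  apply h
  rw [EM_apply, h0, map_zero]

theorem JM_inj (g : ℕ) (x : List ℕ →₀ MvPolynomial (Fin (2 * g)) ℝ) (h : JM g x = 0) : x = 0 := by
  ext1 l
  apply emT_inj g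
  rw [← JM_apply, h]
  rfl

theorem JM_IsS (g r n k : ℕ) (x : List ℕ →₀ MvPolynomial (Fin (2 * g)) ℝ)
    (h : IsS (Wsp g k) r n x) : IsS (MQk g k) r n (JM g x) :=
  ⟨fun l hl => h.1 l (JM_ne g x l hl), fun l => emT_mem g k (x l) (h.2 l)⟩

theorem JM_sal (g : ℕ) (x : List ℕ →₀ MvPolynomial (Fin (2 * g)) ℝ)
    (h : ∀ l, x l ≠ 0 → tot l = 2 * g + 2) : JM g (sal (ST g) x) = sal (SM g) (JM g x) :=
  sal_nat (emT g).toLinearMap (ST g) (SM g) (2 * g + 2)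
    (fun i _ _ v => (SM_emT g i v).symm) x h

theorem JM_lift (g r n k : ℕ) (x : List ℕ →₀ MQ g) (hx : IsS (MQk g k) r n x) (h : EM g x = 0) :
    ∃ y, IsS (Wsp g k) r n y ∧ JM g y = x := by
  obtain ⟨y, h1, h2, h3⟩ := exists_lift (emT g).toLinearMap (Wsp g k) x fun l => by
    have h4 : MvPolynomial.pderiv none (x l) = 0 := by
      rw [← EM_apply, h]
      rfl
    exact emT_of_pderiv g k (x l) (hx.2 l) h4
  refine ⟨y, ⟨fun l hl => hx.1 l (h3 l hl), h1⟩, ?_⟩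
  ext1 l
  exact h2 l

theorem EM_JM (g : ℕ) (x : List ℕ →₀ MvPolynomial (Fin (2 * g)) ℝ) : EM g (JM g x) = 0 := by
  ext1 l
  classical
  show MvPolynomial.pderiv none (MvPolynomial.rename Option.some (x l)) = 0
  apply MvPolynomial.pderiv_eq_zero_of_notMem_vars
  intro h
  have h3 := MvPolynomial.vars_rename Option.some (x l) h
  rw [Finset.mem_image] at h3
  obtain ⟨a, -, ha⟩ := h3
  exact absurd ha (by simp)

theorem EM_IsS (g r n k : ℕ) (x : List ℕ →₀ MQ g) (h : IsS (MQk g (k + 1)) r n x) :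
    IsS (MQk g k) r n (EM g x) :=
  ⟨fun l hl => h.1 l (EM_ne g x l hl), fun l => pderiv_none_mem g k (x l) (h.2 l)⟩

theorem EM_sal (g : ℕ) (x : List ℕ →₀ MQ g) (h : ∀ l, x l ≠ 0 → tot l = 2 * g + 2) :
    EM g (sal (SM g) x) = sal (SM g) (EM g x) :=
  sal_nat (MvPolynomial.pderiv (R := ℝ) (none : Option (Fin (2 * g)))).toLinearMap (SM g) (SM g)
    (2 * g + 2) (fun i _ _ v => SM_pderiv g i v) x h

theorem EM_lift (g r n k : ℕ) (x : List ℕ →₀ MQ g) (hx : IsS (MQk g k) r n x) :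
    ∃ y, IsS (MQk g (k + 1)) r n y ∧ EM g y = x := by
  obtain ⟨y, h1, h2, h3⟩ := exists_lift
    (MvPolynomial.pderiv (R := ℝ) (none : Option (Fin (2 * g)))).toLinearMap (MQk g (k + 1)) x
    fun l => pderiv_none_surj g k (x l) (hx.2 l)
  refine ⟨y, ⟨fun l hl => hx.1 l (h3 l hl), h1⟩, ?_⟩
  ext1 l
  exact h2 l

theorem sal_IsS (g r k : ℕ) (x : List ℕ →₀ MQ g) (hx : IsS (MQk g k) (r + 1) (2 * g + 2) x) :
    IsS (MQk g k) r (2 * g + 2) (sal (SM g) x) := by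
  refine ⟨fun l hl => ?_, sal_mem (MQk g k) (SM g) (2 * g + 2)
    (fun i _ _ x hx => SM_mem g k i x hx) x (fun l hl => (hx.1 l hl).2) hx.2⟩
  have h := sal_supp (SM g) (r + 1) (2 * g + 2) x hx.1 l hl
  exact ⟨by omega, h.2⟩

theorem sal_IsS_zero (g k : ℕ) (x : List ℕ →₀ MQ g) (hx : IsS (MQk g k) 1 (2 * g + 2) x) :
    sal (SM g) x = 0 := by
  ext1 l
  by_contra hl
  have h := sal_supp (SM g) 1 (2 * g + 2) x hx.1 l hl
  have h1 : l = [] := List.eq_nil_of_length_eq_zero (by omega)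
  rw [h1] at h
  have h2 : tot [] = 0 := rfl
  omega

theorem sal_sal_SM (g : ℕ) (hg : 1 ≤ g) (x : List ℕ →₀ MQ g)
    (h : ∀ l, x l ≠ 0 → tot l = 2 * g + 2) : sal (SM g) (sal (SM g) x) = 0 :=
  sal_sal (SM g) (2 * g + 2) (SM_BRel g hg) x h

theorem SalB_le (g r k : ℕ) (hg : 1 ≤ g) :
    SalB (SM g) (MQk g k) r (2 * g + 2) ≤ SalZ (SM g) (MQk g k) r (2 * g + 2) := by
  rintro _ ⟨y, hy, rfl⟩
  exact ⟨sal_IsS g r k y hy, sal_sal_SM g hg y fun l hl => (hy.1 l hl).2⟩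

end BrV
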