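import Pool.Agent.Lib.BrV.SHDef

/-!
# BrV.SEd: the derivation `E` on polynomials, words and lists of blocks

`EA (X i) = 1` for all `i` (`MvPolynomial.mkDerivation_X`).
* `EA_subt`: `EA (subt (X j) f) = subt (X j) (EA f)`: both sides are derivations along `subt (X j)` and agree on the variables (`MvPolynomial.induction_on`).  `EA_shf`: the same for `shf o`.
* `EA_P`: induction on the word.  `w = true :: w'`: `P w = subt (X (np w' + 1)) (P w')`; if `w' = []`: `P [true] = 1`, `EA 1 = 0`, `Ef0 [true] = app true (Ef0 []) = 0`.  In general `Ef0 (true :: w') = app true (Ef0 w')` and `PP (app true f) = subt (X (m + 1)) (PP f)` for `f` with `np = m`.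
  `w = false :: w'`: `P w = P w' * (X 0 - uu (np w')) * C (1 / (tz w' + 1))`.  If `np w' ≥ 1`: `EA (X 0 - X (np w')) = 0`, and `Ef0` does not change `tz` (the deleted `z` is not one of the trailing ones), `np`.  If `np w' = 0`: `w = z^j`, `P w = X 0 ^ j / j!`, `EA` of it is `X 0 ^(j-1) / (j-1)!`, `Ef0 (z^j) = z^(j-1)`.
* `EA_Th`: for a list: `Th0 (w :: l) = shf (npL l) (P (true :: w)) * Th0 l`, Leibniz rule, `EA_shf`, `EA_P`, and `Ef0 (true :: w) = app true (Ef0 w)`; all lists in `EL0 l` have the same `map np` as `l`.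
* `EA_piM`: for `f` in the subalgebra generated by `X 1, .., X (2g+2)`: `piM g (EA f) = pderiv none (piM g f)`: both sides are derivations along `piM g`; on `X i`, `1 ≤ i ≤ 2g+2`: `1` and `pderiv none (X none + emT ..) = 1`.
* `EA_Bn`: homogeneous of degree one less, no new variables.
* `EM_surj`, `EM_JM`, `EM_sal`, `JM_sal`, ..: coefficientwise from `pderiv_none_surj`, `emT_of_pderiv`, `SM_pderiv`, `SM_emT`, `sal_nat` (as in `Desc.salSym`).
-/

namespace BrV

open Finsupp

private theorem EA_X (i : ℕ) : EA (MvPolynomial.X i) = 1 := by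
  unfold EA
  rw [MvPolynomial.mkDerivation_X]

private theorem EA_C (a : ℝ) : EA (MvPolynomial.C a) = 0 := by
  rw [← MvPolynomial.algebraMap_eq, Derivation.map_algebraMap]

private theorem EA_mul (f h : PA) : EA (f * h) = f * EA h + h * EA f := by
  rw [Derivation.leibniz, smul_eq_mul, smul_eq_mul]

private theorem EA_hom (φ : PA →ₐ[ℝ] PA) (hφ : ∀ i, EA (φ (MvPolynomial.X i)) = 1) (f : PA) :
    EA (φ f) = φ (EA f) := by
  induction f using MvPolynomial.induction_on with
  | C a =>
    rw [EA_C, map_zero, ← MvPolynomial.algebraMap_eq, AlgHom.commutes, MvPolynomial.algebraMap_eq,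
      EA_C]
  | add p q hp hq => rw [map_add, map_add, map_add, map_add, hp, hq]
  | mul_X p i hp => rw [map_mul, EA_mul, EA_mul, hp, hφ, EA_X, map_add, map_mul, map_mul, map_one]

private theorem EA_subt (j : ℕ) (f : PA) :
    EA (subt (MvPolynomial.X j) f) = subt (MvPolynomial.X j) (EA f) := by
  apply EA_hom
  intro i
  unfold subt
  rw [MvPolynomial.aeval_X]
  split_ifs <;> exact EA_X _

private theorem EA_shf (o : ℕ) (f : PA) : EA (shf o f) = shf o (EA f) := by
  apply EA_hom
  intro i
  unfold shf
  rw [MvPolynomial.aeval_X]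
  split_ifs <;> exact EA_X _

private theorem Ef0_cons (a : Bool) (w : Wd) (h : w ≠ []) : Ef0 (a :: w) = app a (Ef0 w) := by
  cases w with
  | nil => exact absurd rfl h
  | cons b w => cases a <;> rfl

private theorem Ef0_true (w : Wd) : Ef0 (true :: w) = app true (Ef0 w) := by
  cases w with
  | nil =>
    rfl
  | cons b w => rfl

private theorem Ef0_f (u : Wd) : Ef0 (u ++ [false]) = bw u := by
  induction u with
  | nil => rfl
  | cons a u ih => rw [List.cons_append, Ef0_cons a _ (by simp), ih, app_bw]

private theorem Ef0_t (u : Wd) : Ef0 (u ++ [true]) = 0 := by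
  induction u with
  | nil =>
    show app true 0 = 0
    rw [map_zero]
  | cons a u ih => rw [List.cons_append, Ef0_cons a _ (by simp), ih, map_zero]

private theorem np_app (u : Wd) (c : Bool) : np (u ++ [c]) = np u + np [c] := by
  unfold np
  rw [List.count_append]

private theorem np_t : np [true] = 1 := by simp [np]

private theorem np_f : np [false] = 0 := by simp [np]

private theorem tz_app (u : Wd) (h : np u ≠ 0) (c : Bool) : tz (u ++ [c]) = tz u := by
  induction u with
  | nil => exact absurd (by simp [np]) h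
  | cons a u ih =>
    cases a with
    | true => rfl
    | false =>
      have h2 : np u ≠ 0 := by
        simpa [np] using h
      show tz (u ++ [c]) + 1 = tz u + 1
      rw [ih h2]

private theorem np_zero (u : Wd) (h : np u = 0) : u = List.replicate u.length false := by
  apply List.eq_replicate_iff.mpr
  refine ⟨rfl, fun b hb => ?_⟩
  cases b with
  | false => rfl
  | true => exact absurd (List.count_pos_iff.mpr hb) (by unfold np at h; omega)

private theorem tz_rep (j : ℕ) : tz (List.replicate j false) = j := by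
  induction j with
  | zero => rfl
  | succ j ih =>
    rw [List.replicate_succ]
    show tz (List.replicate j false) + 1 = j + 1
    rw [ih]

private theorem np_rep (j : ℕ) : np (List.replicate j false) = 0 := by
  unfold np
  rw [List.count_eq_zero]
  intro h
  have := List.eq_of_mem_replicate h
  exact absurd this (by decide)

private theorem P_rep (j : ℕ) : P (List.replicate j false) =
    MvPolynomial.X 0 ^ j * MvPolynomial.C ((j.factorial : ℝ)⁻¹) := by
  induction j with
  | zero =>
    rw [List.replicate_zero, pow_zero, Nat.factorial_zero]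
    simp only [Nat.cast_one, inv_one, MvPolynomial.C_1, mul_one]
    rfl
  | succ j ih =>
    rw [List.replicate_succ]
    show P (List.replicate j false) * (MvPolynomial.X 0 - uu (np (List.replicate j false))) *
      MvPolynomial.C (((tz (List.replicate j false) : ℝ) + 1)⁻¹) = _
    rw [ih, tz_rep, np_rep, uu, if_pos rfl, sub_zero, Nat.factorial_succ, pow_succ]
    rw [Nat.cast_mul, mul_inv, MvPolynomial.C_mul]
    push_cast
    ring

private theorem EA_pow (j : ℕ) : EA ((MvPolynomial.X 0 : PA) ^ (j + 1)) =
    MvPolynomial.C ((j : ℝ) + 1) * MvPolynomial.X 0 ^ j := by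
  rw [Derivation.leibniz_pow, EA_X, smul_eq_mul, mul_one, Nat.add_sub_cancel, nsmul_eq_mul]
  congr 1
  push_cast
  simp

private theorem EA_P_rep (j : ℕ) : EA (P (List.replicate (j + 1) false)) =
    P (List.replicate j false) := by
  rw [P_rep, P_rep, EA_mul, EA_C, mul_zero, zero_add, EA_pow, Nat.factorial_succ, Nat.cast_mul,
    mul_inv, MvPolynomial.C_mul]
  have h : (MvPolynomial.C (((j + 1 : ℕ) : ℝ)⁻¹) : PA) * MvPolynomial.C ((j : ℝ) + 1) = 1 := by
    rw [← MvPolynomial.C_mul]
    push_cast
    rw [inv_mul_cancel₀ (by positivity), MvPolynomial.C_1]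
  linear_combination (MvPolynomial.C ((j.factorial : ℝ)⁻¹) * MvPolynomial.X 0 ^ j) * h

private theorem EA_uu (n : ℕ) (h : n ≠ 0) : EA (MvPolynomial.X 0 - uu n) = 0 := by
  rw [uu, if_neg h, map_sub, EA_X, EA_X, sub_self]

private theorem EA_P_t (u : Wd) : EA (P (u ++ [true])) = 0 := by
  induction u with
  | nil =>
    rw [List.nil_append, P_p]
    exact Derivation.map_one_eq_zero _
  | cons a u ih =>
    cases a with
    | true =>
      show EA (subt (MvPolynomial.X (np (u ++ [true]) + 1)) (P (u ++ [true]))) = 0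
      rw [EA_subt, ih, map_zero]
    | false =>
      show EA (P (u ++ [true]) * (MvPolynomial.X 0 - uu (np (u ++ [true]))) *
        MvPolynomial.C ((tz (u ++ [true]) + 1 : ℝ)⁻¹)) = 0
      rw [EA_mul, EA_C, EA_mul, ih, EA_uu _ (by rw [np_app, np_t]; omega)]
      ring

private theorem EA_P_f (u : Wd) : EA (P (u ++ [false])) = P u := by
  induction u with
  | nil =>
    rw [List.nil_append, P_z, EA_X]
    rfl
  | cons a u ih =>
    cases a with
    | true =>
      show EA (subt (MvPolynomial.X (np (u ++ [false]) + 1)) (P (u ++ [false]))) =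
        subt (MvPolynomial.X (np u + 1)) (P u)
      rw [EA_subt, ih, np_app, np_f, add_zero]
    | false =>
      by_cases h : np u = 0
      · have h2 := np_zero u h
        have h3 : (false :: u) ++ [false] = List.replicate (u.length + 1 + 1) false := by
          conv_lhs => rw [h2]
          rw [List.replicate_succ', List.replicate_succ]
        have h4 : false :: u = List.replicate (u.length + 1) false := by
          conv_lhs => rw [h2]
          rw [List.replicate_succ]
        rw [h3, h4, EA_P_rep]
      · show EA (P (u ++ [false]) * (MvPolynomial.X 0 - uu (np (u ++ [false]))) *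
          MvPolynomial.C ((tz (u ++ [false]) + 1 : ℝ)⁻¹)) =
          P u * (MvPolynomial.X 0 - uu (np u)) * MvPolynomial.C ((tz u + 1 : ℝ)⁻¹)
        rw [EA_mul, EA_C, EA_mul, ih, np_app, np_f, add_zero, EA_uu _ h, tz_app u h]
        ring

theorem EA_P (w : Wd) : EA (P w) = PP (Ef0 w) := by
  rcases List.eq_nil_or_concat w with rfl | ⟨u, c, rfl⟩
  · show EA 1 = PP 0
    rw [map_zero]
    exact Derivation.map_one_eq_zero _
  · rw [List.concat_eq_append]
    cases c with
    | true => rw [EA_P_t, Ef0_t, map_zero]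
    | false => rw [EA_P_f, Ef0_f, PP_bw]

private theorem Ef0_app_true (w : Wd) : app true (Ef0 w) = Ef0 (true :: w) := (Ef0_true w).symm

theorem Ef0_supp (w u : Wd) (h : Ef0 w u ≠ 0) : np u = np w ∧ nz u + 1 = nz w := by
  rcases List.eq_nil_or_concat w with rfl | ⟨v, c, rfl⟩
  · exact absurd rfl h
  · rw [List.concat_eq_append] at h ⊢
    cases c with
    | true =>
      rw [Ef0_t] at h
      exact absurd rfl h
    | false =>
      rw [Ef0_f] at h
      have h2 : v = u := by
        by_contra h3
        apply h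
        unfold bw
        rw [single_apply, if_neg h3]
      subst h2
      unfold np nz
      rw [List.count_append, List.count_append]
      simp

theorem EL0_supp (l q : LB) (h : EL0 l q ≠ 0) :
    q.length = l.length ∧ npL q = npL l ∧ nzL q + 1 = nzL l := by
  induction l generalizing q with
  | nil => exact absurd rfl h
  | cons w l ih =>
    have h1 : cl (Ef0 w) l q + cns w (EL0 l) q ≠ 0 := h
    cases q with
    | nil =>
      rw [cl_nil, cns_nil, add_zero] at h1
      exact absurd rfl h1
    | cons u q =>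
      rw [cl_apply, cns_apply] at h1
      have key : (q = l ∧ Ef0 w u ≠ 0) ∨ (w = u ∧ EL0 l q ≠ 0) := by
        by_cases e1 : q = l ∧ Ef0 w u ≠ 0
        · exact Or.inl e1
        · by_cases e2 : w = u ∧ EL0 l q ≠ 0
          · exact Or.inr e2
          · exfalso
            apply h1
            have e3 : (if q = l then Ef0 w u else 0) = 0 := by
              split_ifs with hh
              · by_contra h5
                exact e1 ⟨hh, h5⟩
              · rfl
            have e4 : (if w = u then EL0 l q else 0) = 0 := by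
              split_ifs with hh
              · by_contra h5
                exact e2 ⟨hh, h5⟩
              · rfl
            rw [e3, e4, add_zero]
      rcases key with ⟨rfl, h2⟩ | ⟨rfl, h2⟩
      · obtain ⟨h3, h4⟩ := Ef0_supp w u h2
        refine ⟨rfl, ?_, ?_⟩
        · simp only [npL, List.map_cons, List.sum_cons, h3]
        · simp only [nzL, List.map_cons, List.sum_cons]
          omega
      · obtain ⟨h3, h4, h5⟩ := ih q h2
        refine ⟨by simp [h3], ?_, ?_⟩
        · simp only [npL, List.map_cons, List.sum_cons] at h4 ⊢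
          omega
        · simp only [nzL, List.map_cons, List.sum_cons] at h5 ⊢
          omega

private theorem Th_cl (f : R) (l : LB) (m : ℕ) (hf : ∀ u, f u ≠ 0 → np u = m) :
    Th (cl f l) = single (m :: l.map np) (shf (npL l) (PP (app true f)) * Th0 l) := by
  have h1 : cl f l = f.sum fun u a => (single (u :: l) a : CL) := rfl
  have h2 : app true f = f.sum fun u a => (single (true :: u) a : R) := rfl
  rw [h1, h2, map_finsuppSum, map_finsuppSum, map_finsuppSum, Finsupp.sum_mul]
  unfold Finsupp.sum
  rw [single_finsetSum]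
  apply Finset.sum_congr rfl
  intro u hu
  beta_reduce
  rw [Th_single]
  have h3 : np u = m := hf u (by simpa using hu)
  have h4 : PP (single (true :: u) (f u)) = f u • P (true :: u) := by
    have : (single (true :: u) (f u) : R) = f u • bw (true :: u) := by
      unfold bw
      rw [smul_single, smul_eq_mul, mul_one]
    rw [this, map_smul, PP_bw]
  rw [h4, map_smul, smul_mul_assoc, ← smul_single]
  simp only [List.map_cons, h3]
  rfl

private noncomputable def mm (q : PA) : (List ℕ →₀ PA) →ₗ[ℝ] (List ℕ →₀ PA) :=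
  mapRange.linearMap (LinearMap.mulLeft ℝ q)

private theorem mm_single (q : PA) (c : List ℕ) (x : PA) : mm q (single c x) = single c (q * x) := by
  unfold mm
  rw [mapRange.linearMap_apply, mapRange_single]
  rfl

private theorem Th_cns (w : Wd) (c : CL) (m : ℕ) (hc : ∀ l, c l ≠ 0 → npL l = m) :
    Th (cns w c) = lmapDomain PA ℝ (List.cons (np w)) (mm (shf m (P (true :: w))) (Th c)) := by
  have h1 : c = c.sum fun l a => (single l a : CL) := (Finsupp.sum_single c).symm
  conv_lhs => rw [h1]
  conv_rhs => rw [h1]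
  rw [map_finsuppSum, map_finsuppSum, map_finsuppSum, map_finsuppSum, map_finsuppSum]
  apply Finsupp.sum_congr
  intro l hl
  have h3 : npL l = m := hc l (by simpa using hl)
  rw [cns_single, Th_single, Th_single, map_smul, map_smul, mm_single, lmapDomain_apply,
    mapDomain_single, ← h3]
  rfl

private theorem Th_EL0 (q : LB) : Th (EL0 q) = single (q.map np) (EA (Th0 q)) := by
  induction q with
  | nil =>
    show Th 0 = single [] (EA 1)
    rw [map_zero, Derivation.map_one_eq_zero, single_zero]
  | cons w q ih =>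
    show Th (cl (Ef0 w) q + cns w (EL0 q)) =
      single (np w :: q.map np) (EA (shf (npL q) (P (true :: w)) * Th0 q))
    rw [map_add, Th_cl (Ef0 w) q (np w) (fun u hu => (Ef0_supp w u hu).1),
      Th_cns w (EL0 q) (npL q) (fun l hl => (EL0_supp q l hl).2.1), ih, mm_single,
      lmapDomain_apply, mapDomain_single, ← single_add, Ef0_app_true, ← EA_P, ← EA_shf, EA_mul]
    congr 1
    ring

theorem EA_Th (c : CL) (l : List ℕ) : EA (Th c l) = Th (EL c) l := by
  induction c using Finsupp.induction_linear with
  | zero => rw [map_zero, map_zero, map_zero, Finsupp.zero_apply, map_zero]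
  | add f g hf hg =>
    rw [map_add, map_add, map_add, Finsupp.add_apply, Finsupp.add_apply, map_add, hf, hg]
  | single q a =>
    have h1 : EL (single q a) = a • EL0 q := by
      unfold EL
      rw [Finsupp.lift_apply, Finsupp.sum_single_index]
      exact zero_smul _ _
    rw [h1, map_smul, Th_EL0, Th_single, Finsupp.smul_apply, Finsupp.smul_apply,
      Derivation.map_smul, single_apply, single_apply]
    split_ifs
    · rfl
    · rw [map_zero]

private theorem pderiv_emT' (g : ℕ) (v : MvPolynomial (Fin (2 * g)) ℝ) :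
    MvPolynomial.pderiv none (emT g v) = 0 := by
  induction v using MvPolynomial.induction_on with
  | C a =>
    rw [← MvPolynomial.algebraMap_eq, AlgHom.commutes, MvPolynomial.algebraMap_eq,
      MvPolynomial.pderiv_C]
  | add p q hp hq => rw [map_add, map_add, hp, hq, add_zero]
  | mul_X p j hp =>
    rw [map_mul, MvPolynomial.pderiv_mul, hp, emT, MvPolynomial.rename_X,
      MvPolynomial.pderiv_X_of_ne (by simp)]
    ring

private theorem supp_ind (n : ℕ) (p : PA → Prop) (hX : ∀ i, 1 ≤ i → i ≤ n → p (MvPolynomial.X i))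
    (hC : ∀ a, p (MvPolynomial.C a)) (ha : ∀ f g, p f → p g → p (f + g))
    (hm : ∀ f g, p f → p g → p (f * g)) (f : PA)
    (hf : f ∈ MvPolynomial.supported ℝ {i : ℕ | 1 ≤ i ∧ i ≤ n}) : p f := by
  rw [MvPolynomial.supported_eq_adjoin_X] at hf
  induction hf using Algebra.adjoin_induction with
  | mem x hx =>
    obtain ⟨i, hi, rfl⟩ := hx
    exact hX i hi.1 hi.2
  | algebraMap r => exact hC r
  | add x y _ _ hx hy => exact ha x y hx hy
  | mul x y _ _ hx hy => exact hm x y hx hy

theorem EA_piM (g k : ℕ) (hg : 1 ≤ g) (f : PA) (hf : f ∈ Bn (2 * g + 2) k) :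
    piM g (EA f) = MvPolynomial.pderiv none (piM g f) := by
  refine supp_ind (2 * g + 2) (fun f => piM g (EA f) = MvPolynomial.pderiv none (piM g f))
    ?_ ?_ ?_ ?_ f hf.2
  · intro i h1 h2
    rw [EA_X, map_one, piM, MvPolynomial.aeval_X, if_pos ⟨h1, h2⟩, map_add,
      MvPolynomial.pderiv_X_self, map_sum, Finset.sum_eq_zero (fun j _ => pderiv_emT' g _),
      add_zero]
  · intro a
    rw [EA_C, map_zero, ← MvPolynomial.algebraMap_eq, AlgHom.commutes, MvPolynomial.algebraMap_eq,
      MvPolynomial.pderiv_C]
  · intro x y hx hy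
    rw [map_add, map_add, map_add, map_add, hx, hy]
  · intro x y hx hy
    rw [EA_mul, map_add, map_mul, map_mul, map_mul, MvPolynomial.pderiv_mul, hx, hy]
    ring

private theorem EA_sum (n : ℕ) (f : PA)
    (hf : f ∈ MvPolynomial.supported ℝ {i : ℕ | 1 ≤ i ∧ i ≤ n}) :
    EA f = ∑ i ∈ Finset.range (n + 1), MvPolynomial.pderiv i f := by
  refine supp_ind n (fun f => EA f = ∑ i ∈ Finset.range (n + 1), MvPolynomial.pderiv i f)
    ?_ ?_ ?_ ?_ f hf
  · intro i h1 h2
    rw [EA_X, Finset.sum_eq_single i, MvPolynomial.pderiv_X_self]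
    · intro j _ hj
      rw [MvPolynomial.pderiv_X_of_ne (Ne.symm hj)]
    · intro h
      exact absurd (Finset.mem_range.mpr (by omega)) h
  · intro a
    rw [EA_C]
    symm
    apply Finset.sum_eq_zero
    intro j _
    rw [MvPolynomial.pderiv_C]
  · intro x y hx hy
    rw [map_add, hx, hy, ← Finset.sum_add_distrib]
    apply Finset.sum_congr rfl
    intro j _
    rw [map_add]
  · intro x y hx hy
    rw [EA_mul, hx, hy, Finset.mul_sum, Finset.mul_sum, ← Finset.sum_add_distrib]
    apply Finset.sum_congr rfl
    intro j _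
    rw [MvPolynomial.pderiv_mul]
    ring

private theorem EA_supp (n : ℕ) (f : PA)
    (hf : f ∈ MvPolynomial.supported ℝ {i : ℕ | 1 ≤ i ∧ i ≤ n}) :
    EA f ∈ MvPolynomial.supported ℝ {i : ℕ | 1 ≤ i ∧ i ≤ n} := by
  have h : f ∈ MvPolynomial.supported ℝ {i : ℕ | 1 ≤ i ∧ i ≤ n} ∧
      EA f ∈ MvPolynomial.supported ℝ {i : ℕ | 1 ≤ i ∧ i ≤ n} := by
    refine supp_ind n (fun f => f ∈ MvPolynomial.supported ℝ {i : ℕ | 1 ≤ i ∧ i ≤ n} ∧
      EA f ∈ MvPolynomial.supported ℝ {i : ℕ | 1 ≤ i ∧ i ≤ n}) ?_ ?_ ?_ ?_ f hf
    · intro i h1 h2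
      refine ⟨MvPolynomial.X_mem_supported.mpr ⟨h1, h2⟩, ?_⟩
      rw [EA_X]
      exact Subalgebra.one_mem _
    · intro a
      refine ⟨Subalgebra.algebraMap_mem _ a, ?_⟩
      rw [EA_C]
      exact Subalgebra.zero_mem _
    · rintro x y ⟨hx1, hx2⟩ ⟨hy1, hy2⟩
      refine ⟨Subalgebra.add_mem _ hx1 hy1, ?_⟩
      rw [map_add]
      exact Subalgebra.add_mem _ hx2 hy2
    · rintro x y ⟨hx1, hx2⟩ ⟨hy1, hy2⟩
      refine ⟨Subalgebra.mul_mem _ hx1 hy1, ?_⟩
      rw [EA_mul]
      exact Subalgebra.add_mem _ (Subalgebra.mul_mem _ hx1 hy2) (Subalgebra.mul_mem _ hy1 hx2)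
  exact h.2

theorem EA_Bn (n k : ℕ) (f : PA) (hf : f ∈ Bn n (k + 1)) : EA f ∈ Bn n k := by
  have h1 : f.IsHomogeneous (k + 1) := hf.1
  have h2 : f ∈ MvPolynomial.supported ℝ {i : ℕ | 1 ≤ i ∧ i ≤ n} := hf.2
  refine ⟨?_, EA_supp n f h2⟩
  show (EA f).IsHomogeneous k
  rw [EA_sum n f h2]
  apply MvPolynomial.IsHomogeneous.sum
  intro i _
  exact h1.pderiv

end BrV
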