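import Pool.Agent.Lib.BrV.SLin
import Pool.Agent.Lib.BrV.Coassoc

/-!
# BrV.SEul: the Euler characteristic of `Sal(N)` is zero, `n ≥ 2`

* `Tn n`: all lists `l` with `tot l = n` (the entry `a` is a part of size `a + 1`); `mem_Tn`: induction on `n`: a list with `tot = n + 2` is `0 :: l` with `tot l = n + 1` or `(a+1) :: l` with `tot (a :: l) = n + 1`.
* `sum_Tn`: `∑_{l ∈ Tn n} (-1)^(length l) = 0` for `n ≥ 2`: `Tn (n+2)` is the disjoint union of the images of `Tn (n+1)` under `cons 0` (length + 1) and `inc` (same length; all lists in `Tn (n+1)` are nonempty), both injective on it.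
* `euler`: let `C r` = the submodule of the `x` with `IsS N r n x`: linearly isomorphic to `{l ∈ Tn n | length l = r} → N`, so `finrank (C r) = card * finrank N`.  `sal S` maps `C (r+1)` to `C r` (`sal_supp`, `sal_mem` with `hst`), kernel `SalZ S N (r+1) n`, range `SalB S N r n ≤ SalZ S N r n` (`sal_sal` with `hrel`):
  `finrank (C (r+1)) = finrank Z_(r+1) + finrank B_r` (`LinearMap.finrank_range_add_finrank_ker`; everything finite-dimensional).  `h r = finrank Z_r - finrank B_r` (`HD_fin`).  `C 0 = 0` and `C r = 0` for `r > n`.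
  `∑_{r ≤ n} (-1)^r h r = ∑ (-1)^r z_r - ∑ (-1)^r b_r = ∑_{r ≤ n} (-1)^r finrank (C r)` (telescoping, `z_0 = b_0 = 0`, `b_n = 0`) `= finrank N * ∑_{l ∈ Tn n} (-1)^(length l) = 0`.
-/

namespace BrV

open Finsupp

private theorem tcons (a : ℕ) (l : List ℕ) : tot (a :: l) = a + 1 + tot l := by
  simp [tot]

private theorem tnil : tot [] = 0 := rfl

/-- increase the first entry -/
def inc : List ℕ → List ℕ
  | [] => []
  | a :: l => (a + 1) :: l

/-- all lists with `tot = n` -/
def Tn : ℕ → Finset (List ℕ)
  | 0 => {[]}
  | 1 => {[0]}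
  | n + 2 => (Tn (n + 1)).image (List.cons 0) ∪ (Tn (n + 1)).image inc

theorem mem_Tn (n : ℕ) (l : List ℕ) : l ∈ Tn n ↔ tot l = n := by
  induction n generalizing l with
  | zero =>
    show l ∈ ({[]} : Finset (List ℕ)) ↔ _
    rw [Finset.mem_singleton]
    cases l with
    | nil => exact ⟨fun _ => rfl, fun _ => rfl⟩
    | cons a l =>
      rw [tcons]
      constructor
      · intro h
        exact absurd h (List.cons_ne_nil _ _)
      · intro h
        omega
  | succ n ih =>
    cases n with
    | zero =>
      show l ∈ ({[0]} : Finset (List ℕ)) ↔ _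
      rw [Finset.mem_singleton]
      cases l with
      | nil =>
        rw [tnil]
        constructor
        · intro h
          exact absurd h.symm (List.cons_ne_nil _ _)
        · intro h
          omega
      | cons a l =>
        cases l with
        | nil =>
          rw [tcons, tnil]
          constructor
          · intro h
            have := (List.cons.inj h).1
            omega
          · intro h
            have : a = 0 := by omega
            rw [this]
        | cons b l =>
          rw [tcons, tcons]
          constructor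
          · intro h
            exact absurd (List.cons.inj h).2 (List.cons_ne_nil _ _)
          · intro h
            omega
    | succ n =>
      show l ∈ (Tn (n + 1)).image (List.cons 0) ∪ (Tn (n + 1)).image inc ↔ _
      rw [Finset.mem_union, Finset.mem_image, Finset.mem_image]
      cases l with
      | nil =>
        constructor
        · rintro (⟨l', _, h⟩ | ⟨l', h1, h⟩)
          · exact absurd h (List.cons_ne_nil _ _)
          · cases l' with
            | nil =>
              rw [ih, tnil] at h1
              omega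
            | cons a l' => exact absurd h (List.cons_ne_nil _ _)
        · intro h
          rw [tnil] at h
          omega
      | cons a l =>
        rw [tcons]
        cases a with
        | zero =>
          constructor
          · rintro (⟨l', h1, h⟩ | ⟨l', h1, h⟩)
            · rw [(List.cons.inj h).2, ih] at h1
              omega
            · cases l' with
              | nil => exact absurd h.symm (List.cons_ne_nil _ _)
              | cons b l' =>
                have := (List.cons.inj h).1
                omega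
          · intro h
            exact Or.inl ⟨l, (ih l).2 (by omega), rfl⟩
        | succ a =>
          constructor
          · rintro (⟨l', h1, h⟩ | ⟨l', h1, h⟩)
            · have := (List.cons.inj h).1
              omega
            · cases l' with
              | nil => exact absurd h.symm (List.cons_ne_nil _ _)
              | cons b l' =>
                have h2 := (List.cons.inj h).1
                have h3 := (List.cons.inj h).2
                rw [ih, tcons, h3] at h1
                omega
          · intro h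
            exact Or.inr ⟨a :: l, (ih _).2 (by rw [tcons]; omega), rfl⟩

theorem sum_Tn (n : ℕ) (hn : 2 ≤ n) : ∑ l ∈ Tn n, (-1 : ℤ) ^ l.length = 0 := by
  obtain ⟨m, rfl⟩ : ∃ m, n = m + 2 := ⟨n - 2, by omega⟩
  show ∑ l ∈ (Tn (m + 1)).image (List.cons 0) ∪ (Tn (m + 1)).image inc, (-1 : ℤ) ^ l.length = 0
  rw [Finset.sum_union, Finset.sum_image, Finset.sum_image, ← Finset.sum_add_distrib]
  · refine Finset.sum_eq_zero fun l hl => ?_
    cases l with
    | nil =>
      rw [mem_Tn, tnil] at hl
      omega
    | cons a l =>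
      show (-1 : ℤ) ^ (l.length + 1 + 1) + (-1) ^ (l.length + 1) = 0
      rw [pow_succ (-1 : ℤ) (l.length + 1)]
      ring
  · intro x _ y _ h
    cases x with
    | nil =>
      cases y with
      | nil => rfl
      | cons b y => exact absurd h.symm (List.cons_ne_nil _ _)
    | cons a x =>
      cases y with
      | nil => exact absurd h (List.cons_ne_nil _ _)
      | cons b y =>
        have h1 := (List.cons.inj h).1
        have h2 := (List.cons.inj h).2
        have h3 : a = b := by omega
        rw [h3, h2]
  · intro x _ y _ h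
    exact (List.cons.inj h).2
  · rw [Finset.disjoint_left]
    intro x h1 h2
    rw [Finset.mem_image] at h1 h2
    obtain ⟨y, _, rfl⟩ := h1
    obtain ⟨z, _, h⟩ := h2
    cases z with
    | nil => exact absurd h.symm (List.cons_ne_nil _ _)
    | cons a z =>
      have := (List.cons.inj h).1
      omega

private def CC {M : Type} [AddCommGroup M] [Module ℝ M] (P : Submodule ℝ M) (r n : ℕ) :
    Submodule ℝ (List ℕ →₀ M) where
  carrier := {x | IsS P r n x}
  zero_mem' := ⟨fun l h => absurd rfl h, fun l => P.zero_mem⟩
  add_mem' := by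
    rintro x y ⟨h1, h2⟩ ⟨h4, h5⟩
    refine ⟨fun l hl => ?_, fun l => P.add_mem (h2 l) (h5 l)⟩
    by_cases h : x l = 0
    · exact h4 l (by intro h'; exact hl (by simp [h, h']))
    · exact h1 l h
  smul_mem' := by
    rintro a x ⟨h1, h2⟩
    exact ⟨fun l hl => h1 l (by intro h'; exact hl (by simp [h'])),
      fun l => P.smul_mem a (h2 l)⟩

private def Fs (r n : ℕ) : Finset (List ℕ) := (Tn n).filter fun l => l.length = r

private theorem mem_Fs (r n : ℕ) (l : List ℕ) : l ∈ Fs r n ↔ tot l = n ∧ l.length = r := by
  unfold Fs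
  rw [Finset.mem_filter, mem_Tn]

private def evC {M : Type} [AddCommGroup M] [Module ℝ M] (P : Submodule ℝ M) (r n : ℕ) :
    CC P r n →ₗ[ℝ] (Fs r n → P) where
  toFun x := fun l => ⟨x.1 l.1, x.2.2 l.1⟩
  map_add' _ _ := rfl
  map_smul' _ _ := rfl

private theorem evC_bij {M : Type} [AddCommGroup M] [Module ℝ M] (P : Submodule ℝ M)
    (r n : ℕ) : Function.Bijective (evC P r n) := by
  constructor
  · rintro ⟨x, hx⟩ ⟨y, hy⟩ h
    apply Subtype.ext
    show x = y
    ext l
    by_cases hl : l ∈ Fs r n
    · exact congrArg Subtype.val (congrFun h ⟨l, hl⟩)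
    · have h1 : ∀ z : List ℕ →₀ M, IsS P r n z → z l = 0 := by
        intro z hz
        by_contra h2
        exact hl ((mem_Fs r n l).2 ⟨(hz.1 l h2).2, (hz.1 l h2).1⟩)
      rw [h1 x hx, h1 y hy]
  · intro f
    let g : List ℕ → M := fun l => if h : l ∈ Fs r n then (f ⟨l, h⟩ : M) else 0
    have hg : ∀ l, g l ≠ 0 → l ∈ Fs r n := by
      intro l hl
      by_contra h
      exact hl (dif_neg h)
    have hI : IsS P r n (Finsupp.onFinset (Fs r n) g hg) := by
      refine ⟨fun l hl => ?_, fun l => ?_⟩
      · have := (mem_Fs r n l).1 (hg l hl)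
        exact ⟨this.2, this.1⟩
      · show g l ∈ P
        by_cases h : l ∈ Fs r n
        · have h1 : g l = f ⟨l, h⟩ := dif_pos h
          rw [h1]
          exact (f ⟨l, h⟩).2
        · have h1 : g l = 0 := dif_neg h
          rw [h1]
          exact P.zero_mem
    refine ⟨⟨_, hI⟩, ?_⟩
    funext l
    apply Subtype.ext
    show g l.1 = f l
    exact dif_pos l.2

private theorem CC_fin {M : Type} [AddCommGroup M] [Module ℝ M] (P : Submodule ℝ M)
    (hP : Module.Finite ℝ P) (r n : ℕ) : Module.Finite ℝ (CC P r n) ∧
      Module.finrank ℝ (CC P r n) = (Fs r n).card * Module.finrank ℝ P := by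
  have e := LinearEquiv.ofBijective (evC P r n) (evC_bij P r n)
  refine ⟨Module.Finite.equiv e.symm, ?_⟩
  rw [e.finrank_eq, Module.finrank_pi_fintype, Finset.sum_const, Finset.card_univ,
    Fintype.card_coe, smul_eq_mul]

private theorem len_le_tot (l : List ℕ) : l.length ≤ tot l := by
  induction l with
  | nil => exact Nat.zero_le _
  | cons a l ih =>
    rw [tcons]
    show l.length + 1 ≤ _
    omega

theorem euler {M : Type} [AddCommGroup M] [Module ℝ M] (S : ℕ → Module.End ℝ M)
    (N : Submodule ℝ M) (hN : Module.Finite ℝ N) (n : ℕ) (hn : 2 ≤ n)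
    (hst : ∀ i, 1 ≤ i → i < n → ∀ x ∈ N, S i x ∈ N) (hrel : BRel S 0 n) :
    ∃ h : ℕ → ℕ, (∀ r, HD (SalZ S N r n) (SalB S N r n) (h r)) ∧
      ∑ r ∈ Finset.range (n + 1), (-1 : ℤ) ^ r * (h r : ℤ) = 0 := by
  have hfin : ∀ r, Module.Finite ℝ (CC N r n) := fun r => (CC_fin N hN r n).1
  have hZC : ∀ r, SalZ S N r n ≤ CC N r n := fun r x hx => hx.1
  have hZf : ∀ r, Module.Finite ℝ (SalZ S N r n) := fun r => by
    have := hfin r
    exact Submodule.finiteDimensional_of_le (hZC r)
  have hBZ : ∀ r, SalB S N r n ≤ SalZ S N r n := by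
    rintro r _ ⟨y, hy, rfl⟩
    refine ⟨⟨fun l hl => ?_, ?_⟩, ?_⟩
    · have := sal_supp S (r + 1) n y hy.1 l hl
      exact ⟨by omega, this.2⟩
    · exact sal_mem N S n hst y (fun l hl => (hy.1 l hl).2) hy.2
    · exact sal_sal S n hrel y fun l hl => (hy.1 l hl).2
  have hZB : ∀ r, Module.finrank ℝ (SalB S N r n) ≤ Module.finrank ℝ (SalZ S N r n) :=
    fun r => (HD_fin _ _ (hZf r) (hBZ r)).2
  -- exactness of dimensions
  have hdim : ∀ r, Module.finrank ℝ (SalB S N r n) + Module.finrank ℝ (SalZ S N (r + 1) n) =
      Module.finrank ℝ (CC N (r + 1) n) := by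
    intro r
    have := hfin (r + 1)
    have h1 := LinearMap.finrank_range_add_finrank_ker ((sal S).comp (CC N (r + 1) n).subtype)
    have h2 : LinearMap.range ((sal S).comp (CC N (r + 1) n).subtype) = SalB S N r n := by
      ext x
      constructor
      · rintro ⟨y, rfl⟩
        exact ⟨y.1, y.2, rfl⟩
      · rintro ⟨y, hy, rfl⟩
        exact ⟨⟨y, hy⟩, rfl⟩
    have h3 : (LinearMap.ker ((sal S).comp (CC N (r + 1) n).subtype)).map
        (CC N (r + 1) n).subtype = SalZ S N (r + 1) n := by
      ext x
      constructor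
      · rintro ⟨y, hy, rfl⟩
        exact ⟨y.2, hy⟩
      · rintro ⟨hx, hx2⟩
        exact ⟨⟨x, hx⟩, hx2, rfl⟩
    have h4 := (Submodule.equivMapOfInjective (CC N (r + 1) n).subtype
      (Submodule.subtype_injective _)
      (LinearMap.ker ((sal S).comp (CC N (r + 1) n).subtype))).finrank_eq
    rw [h3] at h4
    rw [h2, h4] at h1
    exact h1
  have hz0 : ∀ r, (r = 0 ∨ n < r) → Module.finrank ℝ (CC N r n) = 0 := by
    intro r hr
    rw [(CC_fin N hN r n).2]
    have h1 : Fs r n = ∅ := by
      rw [Finset.eq_empty_iff_forall_notMem]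
      intro l hl
      rw [mem_Fs] at hl
      rcases hr with h | h
      · have h2 : l = [] := List.length_eq_zero_iff.1 (by omega)
        rw [h2, tnil] at hl
        omega
      · have := len_le_tot l
        omega
    rw [h1, Finset.card_empty, zero_mul]
  have hZ0 : Module.finrank ℝ (SalZ S N 0 n) = 0 := by
    have := hfin 0
    have := Submodule.finrank_mono (hZC 0)
    have h2 := hz0 0 (Or.inl rfl)
    omega
  have hBn : Module.finrank ℝ (SalB S N n n) = 0 := by
    have h1 := hdim n
    have h2 := hz0 (n + 1) (Or.inr (Nat.lt_succ_self n))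
    omega
  refine ⟨fun r => Module.finrank ℝ (SalZ S N r n) - Module.finrank ℝ (SalB S N r n),
    fun r => (HD_fin _ _ (hZf r) (hBZ r)).1, ?_⟩
  have hcast : ∀ r, (((Module.finrank ℝ (SalZ S N r n) - Module.finrank ℝ (SalB S N r n) : ℕ)) : ℤ) =
      (Module.finrank ℝ (SalZ S N r n) : ℤ) - (Module.finrank ℝ (SalB S N r n) : ℤ) :=
    fun r => Nat.cast_sub (hZB r)
  have htel : ∀ m : ℕ, ∑ r ∈ Finset.range (m + 1), (-1 : ℤ) ^ r *
      ((Module.finrank ℝ (SalZ S N r n) - Module.finrank ℝ (SalB S N r n) : ℕ) : ℤ) =
      ∑ r ∈ Finset.range (m + 1), (-1 : ℤ) ^ r * (Module.finrank ℝ (CC N r n) : ℤ) -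
        (-1 : ℤ) ^ m * (Module.finrank ℝ (SalB S N m n) : ℤ) := by
    intro m
    induction m with
    | zero =>
      rw [Finset.sum_range_one, Finset.sum_range_one, hcast, hZ0, hz0 0 (Or.inl rfl)]
      ring
    | succ m ih =>
      rw [Finset.sum_range_succ, ih, Finset.sum_range_succ _ (m + 1), hcast]
      have h1 : (Module.finrank ℝ (SalZ S N (m + 1) n) : ℤ) =
          (Module.finrank ℝ (CC N (m + 1) n) : ℤ) - (Module.finrank ℝ (SalB S N m n) : ℤ) := by
        have := hdim m
        omega
      rw [h1, pow_succ]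
      ring
  have h1 := htel n
  rw [hBn] at h1
  rw [h1]
  have h2 : ∑ r ∈ Finset.range (n + 1), (-1 : ℤ) ^ r * (Module.finrank ℝ (CC N r n) : ℤ) =
      (∑ l ∈ Tn n, (-1 : ℤ) ^ l.length) * (Module.finrank ℝ N : ℤ) := by
    rw [← Finset.sum_fiberwise_of_maps_to (s := Tn n) (t := Finset.range (n + 1))
      (g := fun l => l.length) (fun l hl => by
        rw [mem_Tn] at hl
        have := len_le_tot l
        exact Finset.mem_range.2 (by omega)), Finset.sum_mul]
    refine Finset.sum_congr rfl fun r _ => ?_
    rw [(CC_fin N hN r n).2]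
    have h3 : ∑ l ∈ Tn n with l.length = r, (-1 : ℤ) ^ l.length =
        ∑ l ∈ Fs r n, (-1 : ℤ) ^ r := by
      refine Finset.sum_congr rfl fun l hl => ?_
      rw [((mem_Fs r n l).1 hl).2]
    rw [h3, Finset.sum_const, nsmul_eq_mul]
    push_cast
    ring
  rw [h2, sum_Tn n hn]
  simp

end BrV
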