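import Pool.Agent.Lib.BrV.SK1
import Pool.Agent.Lib.BrV.SEd
import Pool.Agent.Lib.BrV.SCyc2
import Pool.Agent.Lib.BrV.SPhS

/-!
# BrV.SEw: `H_2(M_2) → H_2(M_1)` is onto (section 4)

`n = 2g + 2`, `g ≥ 1`.
* `EM_Lam`: `EM g (Lam g (pr a b)) = Lam g (pr (EL a) 0)`: `Lam_pr`, `EA_piM` (`Th a l ∈ Bn n k`: `Th_IsS`), `EA_Th`.
* `c2 = pr (cycA g) (cycB g) ∈ Z0 2 (2g+2) 2`: `D0_pr`, `cyc_rel`, `mg (cycB g) = 0` (lists of length one), degrees `cycA_deg`, `cycB_deg`.  `x2 = Lam g c2` is a cycle of `Sal_2(M_2)` (`Lam_IsS`, `Lam_D0`).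
* `EM g x2 = Lam g (pr (EL (cycA g)) 0)` is a cycle (`EM` commutes with `sal`: `SM_pderiv`, `sal_nat`; or `SDesA`), `pr (EL (cycA g)) 0` is of degree `(2, 2g+2, 1)` (`EL0_supp`); `Lam_fix` (`k = 0`): there is `c1 ∈ Z0 2 (2g+2) 1` with `Lam g c1 = EM g x2`, `fpart c1 = EL (cycA g)`.
* `th g c1 = (-1)^g`: `th g c1 = xc (2g) (D (iot c1) (false, [[true]]))`.  `D (iot c1) j = ∑_i c1 i • D1 i j`; `xc (2g)` kills multiples of `bw []` (`g ≥ 1`) and `bw [false]` (`2g ≥ 2 > 0`), so only the terms `single (false, l) (bw (true :: w))` of `dB false (w :: l)` with `l = [[true]]` contribute: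
  `∑_w c1 (false, [w, [true]]) * xc (2g) (bw (true :: w))`; `c1 (false, [w, [true]]) = EL (cycA g) [w, [true]]` is `1` for `w = pw (2g-1) ++ [false]` and `0` else (`cycA_E`), and `xc (2g) (bw (pw (2g) ++ [false])) = ta (2g) * cc 0 (2g) = (-1)^g` (`xc_word 0 (2g)`).
* `h2_onto`: `y = Lam g c`, `c ∈ Z0 2 (2g+2) 1` (`Lam_surj`, `k = 0`); `t = (-1)^g * th g c`; `c - t • c1 ∈ Z0`, `th g (c - t • c1) = 0` (`th g` is linear), so it is in `B0 2 (2g+2) 1` (`h2_even`, `l = g`), and `y - EM g (t • x2) = Lam g (c - t • c1) ∈ SalB` (`Lam_inj`).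
-/

namespace BrV

open Finsupp

private theorem EM_apply (g : ℕ) (x : List ℕ →₀ MQ g) (l : List ℕ) :
    EM g x l = MvPolynomial.pderiv none (x l) := rfl

theorem EM_Lam (g r k : ℕ) (hg : 1 ≤ g) (a b : CL)
    (ha : ∀ l, a l ≠ 0 → l.length = r ∧ npL l = 2 * g + 2 ∧ nzL l = k) :
    EM g (Lam g (pr a b)) = Lam g (pr (EL a) 0) := by
  have h1 : IsS (Bn (2 * g + 2) k) r (2 * g + 2) (Th a) := Th_IsS r (2 * g + 2) k a ha
  ext1 l
  rw [EM_apply, Lam_pr, Lam_pr, ← EA_piM g k hg _ (h1.2 l), EA_Th]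

private theorem EM_sal (g : ℕ) (x : List ℕ →₀ MQ g) (hx : ∀ l, x l ≠ 0 → tot l = 2 * g + 2) :
    EM g (sal (SM g) x) = sal (SM g) (EM g x) :=
  sal_nat (MvPolynomial.pderiv (R := ℝ) (none : Option (Fin (2 * g)))).toLinearMap (SM g) (SM g)
    (2 * g + 2) (fun i _ _ v => SM_pderiv g i v) x hx

private theorem EL_supp (c : CL) (q : LB) (h : EL c q ≠ 0) : ∃ l, c l ≠ 0 ∧ EL0 l q ≠ 0 := by
  unfold EL at h
  rw [lift_apply, Finsupp.sum, Finsupp.finsetSum_apply] at h
  obtain ⟨l, hl, hne⟩ := Finset.exists_ne_zero_of_sum_ne_zero h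
  refine ⟨l, Finsupp.mem_support_iff.1 hl, ?_⟩
  intro h0
  apply hne
  rw [Finsupp.smul_apply, h0, smul_zero]

private theorem pr_IsH0w {r n k : ℕ} {c b : CL}
    (hc : ∀ l, c l ≠ 0 → l.length = r ∧ npL l = n ∧ nzL l = k)
    (hb : ∀ l, b l ≠ 0 → l.length + 1 = r ∧ npL l = n ∧ nzL l + 1 = k) :
    IsH0 r n k (pr c b) := by
  rintro ⟨x, l⟩ h
  cases x
  · rw [pr_false] at h
    obtain ⟨h1, h2, h3⟩ := hc l h
    exact ⟨h1, h2, h3⟩
  · rw [pr_true] at h
    obtain ⟨h1, h2, h3⟩ := hb l h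
    exact ⟨h1, h2, h3⟩

private theorem pr_extw {x y : Ph0} (h1 : ∀ l, x (false, l) = y (false, l))
    (h2 : ∀ l, x (true, l) = y (true, l)) : x = y := by
  ext ⟨b, l⟩
  cases b
  · exact h1 l
  · exact h2 l

/-! ### the functional `th g` -/

/-- `th l` as a linear map -/
private noncomputable def thL (l : ℕ) : Ph0 →ₗ[ℝ] ℝ :=
  (xc (2 * l)).comp ((Finsupp.lapply ((false, [[true]]) : Ix)).comp (D.comp iot))

private theorem thL_apply (l : ℕ) (c : Ph0) : thL l c = th l c := rfl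

private theorem iot_singlew (i : Ix) (t : ℝ) : iot (single i t) = single i (t • bw []) := by
  ext1 j
  rw [iot_apply]
  by_cases h : i = j
  · subst h
    rw [Finsupp.single_eq_same, Finsupp.single_eq_same]
  · rw [Finsupp.single_eq_of_ne (Ne.symm h), Finsupp.single_eq_of_ne (Ne.symm h), zero_smul]

private theorem thL_single (l : ℕ) (i : Ix) (t : ℝ) :
    thL l (single i t) = t * xc (2 * l) (D1 i (false, [[true]])) := by
  show xc (2 * l) (D (iot (single i t)) (false, [[true]])) = _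
  rw [iot_singlew, D_single, rmP_smul, rmP_one, Finsupp.smul_apply, map_smul, smul_eq_mul]

private theorem xc_bw_nilw (m : ℕ) : xc m (bw []) = 0 :=
  xc_other m 0 0 (bw []) (IsH_bw []) (Or.inr (by decide))

private theorem xc_z (m : ℕ) (hm : 1 ≤ m) : xc m (bw [false]) = 0 :=
  xc_other m 0 1 (bw [false]) (IsH_bw [false]) (Or.inl (by omega))

private theorem D1_twow (w v : Wd) : D1 (false, [w, v]) =
    single (false, [v]) (bw (true :: w)) - emb false (cl (bm v w) []) := by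
  show single (false, [v]) (bw (true :: w)) - emb false (mg0 [w, v]) = _
  have h0 : mg0 [v] = 0 := by rw [mg0]
  have h : mg0 [w, v] = cl (bm v w) [] := by
    rw [mg0_cons2, h0, map_zero, sub_zero]
  rw [h]

private theorem xc_D1_twow (m : ℕ) (w v : Wd) : xc m (D1 (false, [w, v]) (false, [[true]])) =
    if v = [true] then xc m (bw (true :: w)) else 0 := by
  rw [D1_twow, Finsupp.sub_apply, map_sub, emb_apply, if_pos rfl, map_smul, xc_bw_nilw, smul_zero,
    sub_zero]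
  by_cases h : v = [true]
  · subst h
    rw [if_pos rfl, Finsupp.single_eq_same]
  · rw [if_neg h, Finsupp.single_eq_of_ne, map_zero]
    intro h'
    apply h
    have h2 := congrArg Prod.snd h'
    exact (List.cons.inj h2).1.symm

private theorem dB_true_false (l q : LB) : dB true l (false, q) = 0 := by
  cases l with
  | nil => rfl
  | cons w l =>
    show (single (true, l) (bw (true :: w)) - emb true (mg0 (w :: l)) : Ph) (false, q) = 0
    rw [Finsupp.sub_apply, emb_apply, if_neg (by decide), sub_zero,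
      Finsupp.single_eq_of_ne (by simp)]

private theorem xc_D1_true (m : ℕ) (hm : 1 ≤ m) (l : LB) :
    xc m (D1 (true, l) (false, [[true]])) = 0 := by
  show xc m ((emb false (uo0 l) + single (false, l) ((-1 : ℝ) ^ npL l • bw [false])
    - dB true l : Ph) (false, [[true]])) = 0
  rw [Finsupp.sub_apply, Finsupp.add_apply, dB_true_false, sub_zero, emb_apply, if_pos rfl,
    map_add, map_smul, xc_bw_nilw, smul_zero, zero_add]
  by_cases h : l = [[true]]
  · subst h
    rw [Finsupp.single_eq_same, map_smul, xc_z m hm, smul_zero]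
  · rw [Finsupp.single_eq_of_ne, map_zero]
    intro h'
    exact h (congrArg Prod.snd h').symm

/-- `pr · 0` as a linear map -/
private noncomputable def prF : CL →ₗ[ℝ] Ph0 := lmapDomain ℝ ℝ (fun l => ((false, l) : Ix))

/-- `pr 0 ·` as a linear map -/
private noncomputable def prT : CL →ₗ[ℝ] Ph0 := lmapDomain ℝ ℝ (fun l => ((true, l) : Ix))

private theorem prF_single (l : LB) (t : ℝ) : prF (single l t) = single (false, l) t := by
  unfold prF
  rw [lmapDomain_apply, mapDomain_single]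

private theorem prT_single (l : LB) (t : ℝ) : prT (single l t) = single (true, l) t := by
  unfold prT
  rw [lmapDomain_apply, mapDomain_single]

private theorem pr_eq (c b : CL) : pr c b = prF c + prT b := rfl

private theorem thL_prT (l : ℕ) (hl : 1 ≤ l) (b : CL) : thL l (prT b) = 0 := by
  have h : (thL l).comp prT = 0 := by
    refine Finsupp.lhom_ext fun q a => ?_
    rw [LinearMap.comp_apply, prT_single, thL_single, xc_D1_true _ (by omega), mul_zero,
      LinearMap.zero_apply]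
  exact DFunLike.congr_fun h b

private theorem ta_evenw (l : ℕ) : ta (2 * l) = (-1) ^ l := by
  unfold ta
  rcases Nat.eq_zero_or_pos l with h | h
  · subst h
    rfl
  · have h1 : 2 * l * (2 * l - 1) / 2 = l * (2 * l - 1) := by
      rw [mul_assoc]
      exact Nat.mul_div_cancel_left _ (by norm_num)
    rw [h1, _root_.pow_mul]
    have h2 : Odd (2 * l - 1) := ⟨l - 1, by omega⟩
    rcases Nat.even_or_odd l with h3 | h3
    · rw [h3.neg_one_pow, one_pow]
    · rw [h3.neg_one_pow, h2.neg_one_pow]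

private theorem thL_cyc (g : ℕ) (hg : 1 ≤ g) : thL g (prF (EL (cycA g))) = (-1) ^ g := by
  rw [cycA_E g hg]
  simp only [map_sub, prF_single, thL_single, xc_D1_twow]
  rw [if_pos trivial, if_neg (by decide : ¬ (([] : Wd) = [true])),
    if_neg (by decide : ¬ (([] : Wd) = [true])),
    if_neg (by decide : ¬ (([false] : Wd) = [true]))]
  have hne : pw (2 * g - 1) ++ [false] ≠ [true] := by
    intro h
    have h2 := congrArg (fun w => false ∈ w) h
    simp at h2
  rw [if_neg hne]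
  have h1 : true :: (pw (2 * g - 1) ++ [false]) = pw (2 * g) ++ (false :: pw 0) := by
    obtain ⟨m, hm⟩ : ∃ m, 2 * g = m + 1 := ⟨2 * g - 1, by omega⟩
    rw [hm]
    rfl
  have h2 := xc_word 0 (2 * g)
  rw [zero_add, cc_zero_left, mul_one, ta_evenw] at h2
  rw [h1, h2]
  ring

/-- the class of `E x_2` -/
private theorem ex_c1 (g : ℕ) (hg : 1 ≤ g) : ∃ x ∈ SalZ (SM g) (MQk g 2) 2 (2 * g + 2),
    ∃ c ∈ Z0 2 (2 * g + 2) 1, Lam g c = EM g x ∧ th g c = (-1) ^ g := by
  have hc2 : IsH0 2 (2 * g + 2) 2 (pr (cycA g) (cycB g)) := by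
    refine pr_IsH0w (cycA_deg g hg) ?_
    intro l hl
    obtain ⟨h1, h2, h3⟩ := cycB_deg g hg l hl
    exact ⟨by omega, h2, by omega⟩
  have hB : mg (cycB g) = 0 := by
    unfold cycB
    rw [mg_single]
    have h0 : mg0 [pw (2 * g + 1) ++ [false]] = 0 := by rw [mg0]
    rw [h0, smul_zero]
  have hD : D0 (pr (cycA g) (cycB g)) = 0 := by
    rw [D0_pr, cyc_rel g hg, hB, neg_add_cancel]
    refine pr_extw ?_ ?_
    · intro l
      rw [pr_false]
      rfl
    · intro l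
      rw [pr_true]
      rfl
  have hS : IsS (MQk g 2) 2 (2 * g + 2) (Lam g (pr (cycA g) (cycB g))) :=
    Lam_IsS g 2 2 hg _ hc2
  have hsal : sal (SM g) (Lam g (pr (cycA g) (cycB g))) = 0 := by
    have h1 := Lam_D0 g hg (pr (cycA g) (cycB g)) (fun i hi => (hc2 i hi).2.1)
    rw [hD, map_zero] at h1
    exact neg_eq_zero.1 h1.symm
  refine ⟨Lam g (pr (cycA g) (cycB g)), ⟨hS, hsal⟩, ?_⟩
  have hE : EM g (Lam g (pr (cycA g) (cycB g))) = Lam g (pr (EL (cycA g)) 0) :=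
    EM_Lam g 2 2 hg _ _ (cycA_deg g hg)
  have hsalE : sal (SM g) (Lam g (pr (EL (cycA g)) 0)) = 0 := by
    rw [← hE, ← EM_sal g _ (fun l hl => (hS.1 l hl).2), hsal, map_zero]
  have hH : IsH0 2 (2 * g + 2) (0 + 1) (pr (EL (cycA g)) 0) := by
    refine pr_IsH0w ?_ (fun l hl => absurd rfl hl)
    intro q hq
    obtain ⟨l, hl, hlq⟩ := EL_supp _ _ hq
    obtain ⟨h1, h2, h3⟩ := EL0_supp l q hlq
    obtain ⟨h4, h5, h6⟩ := cycA_deg g hg l hl
    exact ⟨by omega, by omega, by omega⟩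
  obtain ⟨c, hc, hcL, hcf⟩ := Lam_fix g 2 0 hg (pr (EL (cycA g)) 0) hH hsalE
  refine ⟨c, hc, hcL.trans hE.symm, ?_⟩
  obtain ⟨a, b, rfl⟩ := exists_pr c
  have ha : a = EL (cycA g) := by
    ext l
    have h1 := DFunLike.congr_fun hcf l
    rw [fpart_apply, fpart_apply, pr_false, pr_false] at h1
    exact h1
  subst ha
  rw [← thL_apply, pr_eq, map_add, thL_prT g hg, add_zero, thL_cyc g hg]

theorem h2_onto (g : ℕ) (hg : 1 ≤ g) (y : List ℕ →₀ MQ g)
    (hy : y ∈ SalZ (SM g) (MQk g 1) 2 (2 * g + 2)) :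
    ∃ x ∈ SalZ (SM g) (MQk g 2) 2 (2 * g + 2),
      y - EM g x ∈ SalB (SM g) (MQk g 1) 2 (2 * g + 2) := by
  obtain ⟨x2, hx2, c1, hc1, hL1, hth1⟩ := ex_c1 g hg
  obtain ⟨c, hc, hLc⟩ := Lam_surj g 2 0 hg y hy.1 hy.2
  refine ⟨((-1 : ℝ) ^ g * th g c) • x2, Submodule.smul_mem _ _ hx2, ?_⟩
  have h1 : y - EM g (((-1 : ℝ) ^ g * th g c) • x2) =
      Lam g (c - ((-1 : ℝ) ^ g * th g c) • c1) := by
    rw [map_smul, map_sub, map_smul, hLc, hL1]
  have h2 : c - ((-1 : ℝ) ^ g * th g c) • c1 ∈ Z0 2 (2 * g + 2) 1 :=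
    Submodule.sub_mem _ hc (Submodule.smul_mem _ _ hc1)
  rw [h1]
  refine (Lam_inj g 2 0 hg _ h2).2 ?_
  refine (h2_even g _ h2.1 h2.2).2 ?_
  rw [← thL_apply, map_sub, map_smul, thL_apply, thL_apply, hth1, smul_eq_mul]
  have h3 : (-1 : ℝ) ^ g * (-1) ^ g = 1 := by
    rw [← mul_pow]
    norm_num
  linear_combination (-(th g c)) * h3

end BrV
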