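import Pool.Agent.Lib.BrV.SFinA
import Pool.Agent.Lib.BrV.SFinB
import Pool.Agent.Lib.BrV.SEul
import Pool.Agent.Lib.BrV.CHigh

/-!
# BrV.SFin: the cohomology of `B_(2g+2)` with coefficients in `Sym^2 V` (section 4)

* `hd_st2`: `euler` for `ST g`, `Wsp g 2`, `n = 2g + 2` (`Wsp_fin`, `ST_mem`, `ST_BRel`); `h r = 0` for `r ≥ 4` (`salEx_sym g 2 r`, `2 + 1 < r`, `HD_zero`, `HD_uniq`) and for `r = 0` (`Sal_0 = 0`: `tot [] = 0`), `h 3 = (g+1)/2`, `h 1 = g/2`: `- h 1 + h 2 - h 3 = 0` and `g/2 + (g+1)/2 = g`.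
* `symSq`: `r = 2g + 2 - i`; `i > 2g + 1`: `coh_high (2g+1)`; `i + 2 < 2g + 1`: `vanishing`; `i = 2g - 1, 2g, 2g + 1`: `sym_tr` with `r = 3, 2, 1`.
-/

namespace BrV

open CategoryTheory Finsupp Pool.Agent.Lib.BrSym

private theorem hd_st0 (g : ℕ) : HD (SalZ (ST g) (Wsp g 2) 0 (2 * g + 2))
    (SalB (ST g) (Wsp g 2) 0 (2 * g + 2)) 0 := by
  apply HD_zero
  rintro x ⟨⟨h1, -⟩, -⟩
  have hx : x = 0 := by
    ext1 l
    by_contra hne
    obtain ⟨h2, h3⟩ := h1 l hne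
    have h4 : l = [] := List.length_eq_zero_iff.1 h2
    rw [h4] at h3
    have h5 : tot [] = 0 := rfl
    omega
  rw [hx]
  exact Submodule.zero_mem _

private theorem hd_st4 (g r : ℕ) (hg : 1 ≤ g) (hr : 4 ≤ r) :
    HD (SalZ (ST g) (Wsp g 2) r (2 * g + 2)) (SalB (ST g) (Wsp g 2) r (2 * g + 2)) 0 := by
  apply HD_zero
  rintro x ⟨h1, h2⟩
  exact salEx_sym g 2 r hg le_rfl (Or.inr (by omega)) x h1 h2

theorem hd_st2 (g : ℕ) (hg : 1 ≤ g) : HD (SalZ (ST g) (Wsp g 2) 2 (2 * g + 2))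
    (SalB (ST g) (Wsp g 2) 2 (2 * g + 2)) g := by
  obtain ⟨h, hh, hsum⟩ := euler (ST g) (Wsp g 2) (Wsp_fin g 2) (2 * g + 2) (by omega)
    (fun i _ _ x hx => ST_mem g 2 i x hx) (ST_BRel g hg)
  have h0 : h 0 = 0 := HD_uniq _ _ _ _ (hh 0) (hd_st0 g)
  have h1 : h 1 = g / 2 := HD_uniq _ _ _ _ (hh 1) (hd_st1 g hg)
  have h3 : h 3 = (g + 1) / 2 := HD_uniq _ _ _ _ (hh 3) (hd_st3 g hg)
  have h4 : ∀ r, 4 ≤ r → h r = 0 := fun r hr => HD_uniq _ _ _ _ (hh r) (hd_st4 g r hg hr)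
  have h5 : ∑ r ∈ Finset.range (2 * g + 2 + 1), (-1 : ℤ) ^ r * (h r : ℤ) =
      ∑ r ∈ Finset.range 4, (-1 : ℤ) ^ r * (h r : ℤ) := by
    symm
    refine Finset.sum_subset ?_ ?_
    · intro r hr
      rw [Finset.mem_range] at hr ⊢
      omega
    · intro r _ hr
      rw [Finset.mem_range, not_lt] at hr
      rw [h4 r hr]
      simp
  rw [h5] at hsum
  simp only [Finset.sum_range_succ, Finset.sum_range_zero] at hsum
  rw [h0, h1, h3] at hsum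
  have h2 : h 2 = g := by
    have e : (h 2 : ℤ) = ((g / 2 : ℕ) : ℤ) + (((g + 1) / 2 : ℕ) : ℤ) := by
      norm_num at hsum ⊢
      linarith
    have e2 : h 2 = g / 2 + (g + 1) / 2 := by exact_mod_cast e
    omega
  have h6 := hh 2
  rw [h2] at h6
  exact h6

theorem symSq (g i : ℕ) (hg : 1 ≤ g) : Module.rank ℝ (groupCohomology (SymV g 2) i) =
    ((if i + 1 = 2 * g then (g + 1) / 2 else if i = 2 * g then g
      else if i = 2 * g + 1 then g / 2 else 0 : ℕ) : Cardinal) := by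
  split_ifs with h1 h2 h3
  · exact sym_tr g 2 i 3 _ (by omega) (hd_st3 g hg)
  · exact sym_tr g 2 i 2 _ (by omega) (hd_st2 g hg)
  · exact sym_tr g 2 i 1 _ (by omega) (hd_st1 g hg)
  · rw [Nat.cast_zero]
    rcases Nat.lt_or_ge (2 * g + 1) i with h4 | h4
    · exact coh_high (2 * g + 1) i (SymV g 2) h4
    · exact vanishing g 2 i hg le_rfl (Or.inr (by omega))

end BrV
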