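import Pool.Agent.Lib.BrV.SH1

/-!
# BrV.SH1b: `H_1(Φ0)_{2L,2}`, surjectivity (3.3)
-/

namespace BrV

open Finsupp

private noncomputable def nuL (L l : ℕ) : R →ₗ[ℝ] ℝ :=
  ∑ i ∈ Finset.range (L + 1), ((-1 : ℝ) ^ (l + i) * (l.choose i : ℝ)) • yc i (L - i)

private theorem nuL_apply (L l : ℕ) (f : R) : nuL L l f = ∑ i ∈ Finset.range (L + 1),
    (-1 : ℝ) ^ (l + i) * (l.choose i : ℝ) * yc i (L - i) f := by
  rw [nuL, LinearMap.sum_apply]
  rfl

private noncomputable def tT (L l : ℕ) : R →ₗ[ℝ] ℝ := nuL L l - nuL L (L - l)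

private theorem eta_eq (L l : ℕ) (c : Ph0) : eta L l c = nuL L l (D (iot c) (false, [])) := by
  rw [nuL_apply]
  rfl

private theorem orth0 (l m : ℕ) : ∑ i ∈ Finset.range (l + 1),
    (-1 : ℝ) ^ (l + i) * (l.choose i : ℝ) * (i.choose m : ℝ) = if m = l then 1 else 0 := by
  have h1 : ((1 + Polynomial.X : Polynomial ℝ) + (-1)) ^ l = Polynomial.X ^ l := by
    congr 1
    ring
  rw [add_pow] at h1
  have h2 := congrArg (fun P => Polynomial.coeff P m) h1
  simp only [Polynomial.finsetSum_coeff, Polynomial.coeff_X_pow] at h2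
  rw [← h2]
  refine Finset.sum_congr rfl fun i hi => ?_
  have hi' : i ≤ l := Nat.lt_succ_iff.1 (Finset.mem_range.1 hi)
  have e : ((-1 : Polynomial ℝ)) ^ (l - i) * ((l.choose i : ℕ) : Polynomial ℝ) =
      Polynomial.C ((-1 : ℝ) ^ (l - i) * (l.choose i : ℝ)) := by
    rw [Polynomial.C_mul, Polynomial.C_pow, Polynomial.C_neg, Polynomial.C_1]
    congr 1
  have e3 : (1 + Polynomial.X : Polynomial ℝ) ^ i * (-1) ^ (l - i) * ((l.choose i : ℕ) : Polynomial ℝ) =
      (1 + Polynomial.X) ^ i * Polynomial.C ((-1 : ℝ) ^ (l - i) * (l.choose i : ℝ)) := by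
    rw [← e]
    ring
  rw [e3, Polynomial.coeff_mul_C, Polynomial.coeff_one_add_X_pow]
  have e2 : (-1 : ℝ) ^ (l + i) = (-1 : ℝ) ^ (l - i) := by
    have : l + i = (l - i) + 2 * i := by omega
    rw [this, pow_add, _root_.pow_mul]
    norm_num
  rw [e2]
  ring

private theorem orth (L l m : ℕ) (hl : l ≤ L) : ∑ i ∈ Finset.range (L + 1),
    (-1 : ℝ) ^ (l + i) * (l.choose i : ℝ) * (i.choose m : ℝ) = if m = l then 1 else 0 := by
  rw [← orth0 l m]
  symm
  refine Finset.sum_subset (Finset.range_mono (by omega)) ?_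
  intro i _ hi
  rw [Finset.mem_range, not_lt] at hi
  rw [Nat.choose_eq_zero_of_lt (by omega : l < i)]
  simp

private theorem tT_prod (L l : ℕ) (hl : l ≤ L) (u : R) (hu : IsH (2 * L) 1 u) :
    tT L l (mu u (bw [false])) = 0 := by
  have h1 : ∀ i, i ≤ L → yc i (L - i) (mu u (bw [false])) = xc (2 * L) u * bb L 0 i := by
    intro i hi
    have h := yc_prod L 0 i (by omega) u hu
    exact h
  have h2 : ∀ k, k ≤ L → nuL L k (mu u (bw [false])) =
      xc (2 * L) u * ((if L = k then 1 else 0) + (if 0 = k then 1 else 0)) := by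
    intro k hk
    rw [nuL_apply]
    have e : ∀ i ∈ Finset.range (L + 1), (-1 : ℝ) ^ (k + i) * (k.choose i : ℝ) *
        yc i (L - i) (mu u (bw [false])) = xc (2 * L) u * ((-1 : ℝ) ^ (k + i) * (k.choose i : ℝ) *
          (i.choose L : ℝ)) + xc (2 * L) u * ((-1 : ℝ) ^ (k + i) * (k.choose i : ℝ) *
          (i.choose 0 : ℝ)) := by
      intro i hi
      rw [h1 i (Nat.lt_succ_iff.1 (Finset.mem_range.1 hi)), bb]
      ring
    rw [Finset.sum_congr rfl e, Finset.sum_add_distrib, ← Finset.mul_sum, ← Finset.mul_sum,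
      orth L k L hk, orth L k 0 hk]
    ring
  rw [tT, LinearMap.sub_apply, h2 l hl, h2 (L - l) (by omega)]
  have e1 : (L = L - l) ↔ (0 = l) := by omega
  have e2 : (0 = L - l) ↔ (L = l) := by omega
  simp only [e1, e2]
  ring

/-- elements congruent to a combination of words ending in `p` -/
private def QQ (L : ℕ) : Submodule ℝ R where
  carrier := {f | ∃ g : R, (∀ w, g w ≠ 0 → np w + 1 = 2 * L ∧ nz w = 2) ∧
    ∀ l, l ≤ L → tT L l f = tT L l (app true g)}
  add_mem' := by
    rintro a b ⟨g, hg, hg'⟩ ⟨h, hh, hh'⟩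
    refine ⟨g + h, fun w hw => ?_, fun l hl => ?_⟩
    · rw [Finsupp.add_apply] at hw
      by_cases h0 : g w = 0
      · refine hh w fun h1 => hw ?_
        rw [h0, h1, add_zero]
      · exact hg w h0
    · rw [map_add, map_add, map_add, hg' l hl, hh' l hl]
  zero_mem' := by
    refine ⟨0, fun w hw => absurd rfl hw, fun l _ => ?_⟩
    rw [map_zero (app true)]
  smul_mem' := by
    rintro a f ⟨g, hg, hg'⟩
    refine ⟨a • g, fun w hw => ?_, fun l hl => ?_⟩
    · rw [Finsupp.smul_apply] at hw
      refine hg w fun h1 => hw ?_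
      rw [h1, smul_zero]
    · rw [map_smul, map_smul, map_smul, hg' l hl]

private theorem mem_QQ_of_app (L : ℕ) (g : R) (hg : ∀ w, g w ≠ 0 → np w + 1 = 2 * L ∧ nz w = 2) :
    app true g ∈ QQ L := ⟨g, hg, fun _ _ => rfl⟩

private theorem mem_QQ_of_prod (L : ℕ) (u : R) (hu : IsH (2 * L) 1 u) :
    mu u (bw [false]) ∈ QQ L := by
  refine ⟨0, fun w hw => absurd rfl hw, fun l hl => ?_⟩
  rw [tT_prod L l hl u hu, map_zero (app true), map_zero]

private theorem IsH_bw' {n k : ℕ} (w : Wd) (hn : np w = n) (hk : nz w = k) : IsH n k (bw w) := by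
  intro x hx
  by_cases h : x = w
  · subst h
    exact ⟨hn, hk⟩
  · exact absurd (single_eq_of_ne h) hx

private theorem np_cons_true (w : Wd) : np (true :: w) = np w + 1 := by
  simp [np]

private theorem np_cons_false (w : Wd) : np (false :: w) = np w := by
  simp [np]

private theorem nz_cons_true (w : Wd) : nz (true :: w) = nz w := by
  simp [nz]

private theorem nz_cons_false (w : Wd) : nz (false :: w) = nz w + 1 := by
  simp [nz]

private theorem nz_pw' (j : ℕ) : nz (pw j) = 0 := by
  induction j with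
  | zero => rfl
  | succ j ih =>
    show nz (true :: pw j) = 0
    rw [nz_cons_true, ih]

private theorem sh_false (a : Bool) (v : Wd) : sh (a :: v) [false] =
    bw (false :: a :: v) + app a (sh v [false]) := by
  rw [sh_cons, sh_nil, app_bw]
  have : sg [false] = 1 := by simp [sg, np]
  rw [this, one_smul]

private theorem sh_supp (v : Wd) {n k : ℕ} (hn : np v = n) (hk : nz v + 1 = k) (w : Wd)
    (hw : sh v [false] w ≠ 0) : np w = n ∧ nz w = k := by
  rw [← mu_bw] at hw
  have h := IsH_mu (np v) (nz v) 0 1 (bw v) (bw [false]) (IsH_bw' v rfl rfl)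
    (IsH_bw' [false] (by simp [np]) (by simp [nz])) w hw
  exact ⟨by rw [h.1, hn, add_zero], by rw [h.2, hk]⟩

private theorem word_ft (L : ℕ) (w : Wd) (hn : np w + 1 = 2 * L) (hk : nz w = 1) :
    bw (false :: true :: w) ∈ QQ L := by
  have h1 : mu (bw (true :: w)) (bw [false]) ∈ QQ L :=
    mem_QQ_of_prod L _ (IsH_bw' _ (by rw [np_cons_true, hn]) (by rw [nz_cons_true, hk]))
  rw [mu_bw, sh_false] at h1
  have h2 : app true (sh w [false]) ∈ QQ L := by
    refine mem_QQ_of_app L _ fun x hx => ?_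
    have := sh_supp w (n := np w) (k := 2) rfl (by rw [hk]) x hx
    exact ⟨by rw [this.1, hn], this.2⟩
  have h3 := (QQ L).sub_mem h1 h2
  rwa [add_sub_cancel_right] at h3

private theorem mem_of_words (Q : Submodule ℝ R) (f : R) (h : ∀ w, f w ≠ 0 → bw w ∈ Q) : f ∈ Q := by
  rw [← Finsupp.sum_single f]
  refine Submodule.sum_mem _ fun w hw => ?_
  have e : (single w (f w) : R) = f w • bw w := by
    rw [bw, smul_single, smul_eq_mul, mul_one]
  rw [e]
  exact Q.smul_mem _ (h w (Finsupp.mem_support_iff.1 hw))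

private theorem map_words (Q : Submodule ℝ R) (φ : R →ₗ[ℝ] R) (f : R)
    (h : ∀ w, f w ≠ 0 → φ (bw w) ∈ Q) : φ f ∈ Q :=
  mem_of_words (Q.comap φ) f h

private theorem nz_zero (w : Wd) (h : nz w = 0) : w = pw (np w) := by
  induction w with
  | nil => rfl
  | cons a w ih =>
    cases a with
    | false => rw [nz_cons_false] at h; omega
    | true =>
      rw [nz_cons_true] at h
      rw [np_cons_true]
      show true :: w = true :: pw (np w)
      rw [← ih h]

private theorem word_ff (L : ℕ) (hL : 1 ≤ L) : bw (false :: false :: pw (2 * L)) ∈ QQ L := by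
  have hp : ∀ j, np (pw j) = j := fun j => by simp [np, pw]
  have hz : ∀ j, nz (pw j) = 0 := nz_pw'
  have h1 : mu (bw (false :: pw (2 * L))) (bw [false]) ∈ QQ L :=
    mem_QQ_of_prod L _ (IsH_bw' _ (by rw [np_cons_false, hp]) (by rw [nz_cons_false, hz]))
  have e0 : pw (2 * L) = true :: pw (2 * L - 1) := by
    have : 2 * L = (2 * L - 1) + 1 := by omega
    conv_lhs => rw [this]
    rfl
  have e : sh (false :: pw (2 * L)) [false] = (2 : ℝ) • bw (false :: false :: pw (2 * L)) +
      app false (app true (sh (pw (2 * L - 1)) [false])) := by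
    rw [sh_false]
    have e1 : sh (pw (2 * L)) [false] = bw (false :: pw (2 * L)) +
        app true (sh (pw (2 * L - 1)) [false]) := by
      rw [e0]
      exact sh_false true _
    rw [e1, map_add, app_bw, two_smul, add_assoc]
  rw [mu_bw, e] at h1
  have h2 : app false (app true (sh (pw (2 * L - 1)) [false])) ∈ QQ L := by
    refine map_words (QQ L) ((app false).comp (app true)) _ fun w hw => ?_
    have h3 := sh_supp _ (n := 2 * L - 1) (k := 1) (hp _) (by rw [hz]) w hw
    show app false (app true (bw w)) ∈ QQ L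
    rw [app_bw, app_bw]
    exact word_ft L w (by rw [h3.1]; omega) h3.2
  have h3 := (QQ L).sub_mem h1 h2
  rw [add_sub_cancel_right] at h3
  have h4 := (QQ L).smul_mem (1 / 2 : ℝ) h3
  rw [smul_smul] at h4
  norm_num at h4
  exact h4

private theorem all_QQ (L : ℕ) (hL : 1 ≤ L) (f : R) (hf : IsH (2 * L) 2 f) : f ∈ QQ L := by
  refine mem_of_words _ f fun w hw => ?_
  obtain ⟨hn, hk⟩ := hf w hw
  match w, hn, hk with
  | [], _, hk => simp [nz] at hk
  | true :: w', hn, hk =>
    rw [np_cons_true] at hn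
    rw [nz_cons_true] at hk
    rw [← app_bw]
    refine mem_QQ_of_app L _ fun x hx => ?_
    have := IsH_bw' w' rfl rfl x hx
    exact ⟨by rw [this.1, hn], by rw [this.2, hk]⟩
  | [false], _, hk => simp [nz] at hk
  | false :: true :: w'', hn, hk =>
    rw [np_cons_false, np_cons_true] at hn
    rw [nz_cons_false, nz_cons_true] at hk
    exact word_ft L w'' hn (by omega)
  | false :: false :: w'', hn, hk =>
    rw [np_cons_false, np_cons_false] at hn
    rw [nz_cons_false, nz_cons_false] at hk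
    rw [nz_zero w'' (by omega), hn]
    exact word_ff L hL

private theorem D_block (g : R) :
    D (iot (mapDomain (fun w => ((false, [w]) : Ix)) g)) (false, []) = app true g := by
  have key : ((Finsupp.lapply ((false, []) : Ix) : Ph →ₗ[ℝ] R).comp (D.comp (iot.comp
      (Finsupp.lmapDomain ℝ ℝ (fun w => ((false, [w]) : Ix)))))) = app true := by
    refine Finsupp.lhom_ext fun w a => ?_
    simp only [LinearMap.comp_apply, Finsupp.lmapDomain_apply, mapDomain_single]
    have e1 : iot (single ((false, [w]) : Ix) a) = single (false, [w]) (a • bw []) := by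
      simp [iot]
    rw [e1, D_single]
    show rmP (a • bw []) (dB false [w]) (false, []) = _
    have e2 : dB false [w] = single (false, []) (bw (true :: w)) := by
      show single (false, []) (bw (true :: w)) - emb false (mg0 [w]) = _
      have : emb false (mg0 [w]) = 0 := by
        show emb false 0 = 0
        simp [emb]
      rw [this]
      exact sub_zero (single ((false, []) : Ix) (bw (true :: w)) : Ph)
    rw [e2]
    have e3 : (single w a : R) = a • bw w := by
      rw [bw, smul_single, smul_eq_mul, mul_one]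
    rw [e3, map_smul, app_bw]
    simp [rmP, mu_one]
  have := LinearMap.congr_fun key g
  exact this

theorem h1_surj (L : ℕ) (hL : 1 ≤ L) (v : ℕ → ℝ) (hv : ∀ l, l ≤ L → v l + v (L - l) = 0) :
    ∃ c : Ph0, IsH0 1 (2 * L) 2 c ∧ ∀ l, l ≤ L → eta L l c - eta L (L - l) c = v l := by
  have hp : ∀ j, np (pw j) = j := fun j => by simp [np, pw]
  have hz : ∀ j, nz (pw j) = 0 := nz_pw'
  -- the element `f`
  set f : R := ∑ i ∈ Finset.range (L + 1),
    (∑ m ∈ Finset.range (L + 1), v m / 2 * (i.choose m : ℝ)) • bw (yw (2 * i) (2 * (L - i))) with hf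
  have hfH : IsH (2 * L) 2 f := by
    intro w hw
    rw [hf, Finsupp.finsetSum_apply] at hw
    obtain ⟨i, hi, hi'⟩ := Finset.exists_ne_zero_of_sum_ne_zero hw
    rw [Finsupp.smul_apply] at hi'
    have h1 : (bw (yw (2 * i) (2 * (L - i))) : R) w ≠ 0 := fun h => hi' (by rw [h, smul_zero])
    have h2 := IsH_bw' (yw (2 * i) (2 * (L - i))) rfl rfl w h1
    have hi2 := Finset.mem_range.1 hi
    refine ⟨h2.1.trans ?_, h2.2.trans ?_⟩
    · simp [yw, np, pw]
      omega
    · rw [yw, nz_cons_false]
      have : nz (pw (2 * (L - i)) ++ false :: pw (2 * i)) = 1 := by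
        have h5 := hz (2 * (L - i))
        have h6 := hz (2 * i)
        unfold nz at h5 h6 ⊢
        rw [List.count_append, List.count_cons, h5, h6]
        rfl
      rw [this]
  have hyc : ∀ i, i ≤ L → yc i (L - i) f = ∑ m ∈ Finset.range (L + 1), v m / 2 * (i.choose m : ℝ) := by
    intro i hi
    rw [hf, map_sum]
    rw [Finset.sum_eq_single i]
    · rw [map_smul, yc_yw, smul_eq_mul, mul_one]
    · intro j _ hj
      rw [map_smul, yc_yw_ne i (L - i) (2 * j) (2 * (L - j)) (Or.inl (by omega)), smul_zero]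
    · intro h
      exact absurd (Finset.mem_range.2 (by omega)) h
  have hnu : ∀ l, l ≤ L → nuL L l f = v l / 2 := by
    intro l hl
    rw [nuL_apply]
    have e : ∀ i ∈ Finset.range (L + 1), (-1 : ℝ) ^ (l + i) * (l.choose i : ℝ) * yc i (L - i) f =
        ∑ m ∈ Finset.range (L + 1), v m / 2 * ((-1 : ℝ) ^ (l + i) * (l.choose i : ℝ) *
          (i.choose m : ℝ)) := by
      intro i hi
      rw [hyc i (Nat.lt_succ_iff.1 (Finset.mem_range.1 hi)), Finset.mul_sum]
      refine Finset.sum_congr rfl fun m _ => ?_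
      ring
    rw [Finset.sum_congr rfl e, Finset.sum_comm]
    simp only [← Finset.mul_sum]
    simp only [orth L l _ hl]
    simp [Nat.lt_succ_iff.2 hl]
  obtain ⟨g, hg, hg'⟩ := all_QQ L hL f hfH
  refine ⟨mapDomain (fun w => ((false, [w]) : Ix)) g, ?_, fun l hl => ?_⟩
  · intro i hi
    have h1 := Finsupp.mem_support_iff.2 hi
    classical
    have h2 := Finsupp.mapDomain_support h1
    rw [Finset.mem_image] at h2
    obtain ⟨w, hw, rfl⟩ := h2
    have h3 := hg w (Finsupp.mem_support_iff.1 hw)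
    refine ⟨rfl, ?_, ?_⟩
    · show npL [w] = 2 * L
      simp [npL, h3.1]
    · show nzL [w] + 0 = 2
      simp [nzL, h3.2]
  · rw [eta_eq, eta_eq, D_block]
    have h1 := hg' l hl
    rw [tT, LinearMap.sub_apply, LinearMap.sub_apply, hnu l hl, hnu (L - l) (by omega)] at h1
    rw [← h1]
    have h2 := hv l hl
    linarith

end BrV
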