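import Pool.Agent.Lib.BrV.SH3
import Pool.Agent.Lib.BrV.SH1b
import Pool.Agent.Lib.BrV.SLin

/-!
# BrV.SHd: dimensions of `H_3(Φ0)_(2L,2)`, `H_1(Φ0)_(2L,2)`, `H_1(Φ0)_(2L,1)`

`HD_fun` in all three cases.
* `hd_31`: `φ : Ph0 →ₗ (Fin (L / 2) → ℝ)`, `φ c l = sgl l (L - 1 - l) c` (linear in `c`: composite of linear maps).  For `c ∈ Z0 3 (2L) 2`: `φ c = 0` iff all `sgl l m c = 0`, `l + m + 1 = L`: either `l < L / 2`, or `m < L / 2` and `sgl l m c = - sgl m l c` (`s3_anti`), or `l = m` and `2 sgl l l c = 0`; `s3_inj`.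
  onto: given `t`, `v l = t l` for `l < L / 2`, `v l = - t (L - 1 - l)` for `L - 1 - l < L / 2`, `0` else (`l ≠ m` in the first two cases, they exclude each other): `s3_surj`.
* `hd_12`: `φ c l = eta L l c - eta L (L - l) c`, `l < (L + 1) / 2` (so `l < L - l`); every `c` of degree `(1, 2L, 2)` is a cycle.  `h1_two`, `h1_surj` (`v l = t l` for `l < (L+1)/2`, `- t (L - l)` for `L - l < (L+1)/2`, `0` else).
* `hd_11`: `φ c = xc (2L) (D (iot c) (false, []))`: `h1_one`, `h1_one_ex`.
* degree one: `Z0 1 n k` is everything of degree `(1, n, k)` for `n ≥ 1` (`D0` of it is of degree `(0, n, k)`, the indices with `rI = 0` have `nI = 0`).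
-/

namespace BrV

open Finsupp

private theorem D01_one (w : Wd) : D01 (false, [w]) = 0 := by
  ext j
  rw [D01_apply]
  have h1 : mg0 [w] = 0 := rfl
  have h2 : D1 (false, [w]) = single (false, []) (bw (true :: w)) - emb false (mg0 [w]) := rfl
  have h3 : emb false (0 : CL) = 0 := by
    unfold emb
    rw [mapDomain_zero, mapRange_zero]
  have h4 : D1 (false, [w]) = single (false, []) (bw (true :: w)) := by
    rw [h2, h1, h3]
    exact sub_zero (single (false, []) (bw (true :: w)) : Ph)
  rw [h4]
  by_cases h : j = (false, [])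
  · subst h
    rw [single_eq_same]
    show (single (true :: w) (1 : ℝ) : R) [] = _
    rw [single_eq_of_ne (by simp)]
    rfl
  · rw [single_eq_of_ne h]
    rfl

theorem Z0_one (n k : ℕ) (hn : 1 ≤ n) (c : Ph0) (hc : IsH0 1 n k c) : c ∈ Z0 1 n k := by
  refine ⟨hc, ?_⟩
  unfold D0
  rw [lift_apply]
  unfold Finsupp.sum
  apply Finset.sum_eq_zero
  intro i hi
  obtain ⟨h1, h2, -⟩ := hc i (mem_support_iff.1 hi)
  obtain ⟨b, l⟩ := i
  cases b with
  | true =>
    have h3 : l = [] := by
      have : l.length + 1 = 1 := h1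
      exact List.length_eq_zero_iff.1 (by omega)
    subst h3
    have h4 : nI (true, []) = 0 := rfl
    omega
  | false =>
    have h3 : l.length = 1 := h1
    obtain ⟨w, rfl⟩ := List.length_eq_one_iff.1 h3
    show c (false, [w]) • D01 (false, [w]) = 0
    rw [D01_one, smul_zero]

private noncomputable def thL (l : ℕ) : Ph0 →ₗ[ℝ] ℝ :=
  (xc (2 * l)).comp ((Finsupp.lapply ((false, [[true]]) : Ix)).comp (D.comp iot))

private theorem thL_apply (l : ℕ) (c : Ph0) : thL l c = th l c := rfl

private noncomputable def sglL (l m : ℕ) : Ph0 →ₗ[ℝ] ℝ :=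
  (thL l).comp ((xco (2 * m)).comp (D.comp iot))

private theorem sglL_apply (l m : ℕ) (c : Ph0) : sglL l m c = sgl l m c := rfl

private noncomputable def etaL (L l : ℕ) : Ph0 →ₗ[ℝ] ℝ :=
  ∑ i ∈ Finset.range (L + 1), ((-1 : ℝ) ^ (l + i) * (l.choose i : ℝ)) •
    (yc i (L - i)).comp ((Finsupp.lapply ((false, []) : Ix)).comp (D.comp iot))

private theorem etaL_apply (L l : ℕ) (c : Ph0) : etaL L l c = eta L l c := by
  unfold etaL eta
  rw [LinearMap.sum_apply]
  rfl

theorem hd_31 (L : ℕ) : HD (Z0 3 (2 * L) 2) (B0 3 (2 * L) 2) (L / 2) := by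
  apply HD_fun _ _ _ (LinearMap.pi fun l : Fin (L / 2) => sglL l (L - 1 - l))
  · rintro z ⟨hz, hD⟩
    have h2 : z ∈ B0 3 (2 * L) 2 ↔ ∀ l m, l + m + 1 = L → sgl l m z = 0 := s3_inj L z hz hD
    rw [h2]
    constructor
    · intro h0
      have h1 : ∀ l : ℕ, l < L / 2 → sgl l (L - 1 - l) z = 0 := fun l hl => congrFun h0 ⟨l, hl⟩
      intro l m hlm
      have ha := s3_anti L l m hlm z hz hD
      rcases lt_or_ge l (L / 2) with hl | hl
      · have := h1 l hl
        rwa [show L - 1 - l = m by omega] at this
      · rcases lt_or_ge m (L / 2) with hm | hm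
        · have := h1 m hm
          rw [show L - 1 - m = l by omega] at this
          linarith
        · have hlm' : l = m := by omega
          subst hlm'
          linarith
    · intro h
      funext l
      exact h l (L - 1 - l) (by have := l.2; omega)
  · intro t
    obtain ⟨c, hc, hD, hv⟩ := s3_surj L
      (fun l => if h : l < L / 2 then t ⟨l, h⟩ else if h' : L - 1 - l < L / 2 then
        - t ⟨L - 1 - l, h'⟩ else 0) (by
        intro l m hlm
        by_cases hl : l < L / 2
        · have hm : ¬ m < L / 2 := by omega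
          have hm' : L - 1 - m < L / 2 := by omega
          rw [dif_pos hl, dif_neg hm, dif_pos hm']
          have he : (⟨L - 1 - m, hm'⟩ : Fin (L / 2)) = ⟨l, hl⟩ := by
            apply Fin.ext
            show L - 1 - m = l
            omega
          rw [he]
          ring
        · by_cases hm : m < L / 2
          · have hl' : L - 1 - l < L / 2 := by omega
            rw [dif_neg hl, dif_pos hl', dif_pos hm]
            have he : (⟨L - 1 - l, hl'⟩ : Fin (L / 2)) = ⟨m, hm⟩ := by
              apply Fin.ext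
              show L - 1 - l = m
              omega
            rw [he]
            ring
          · rw [dif_neg hl, dif_neg hm, dif_neg (by omega), dif_neg (by omega)]
            ring)
    refine ⟨c, ⟨hc, hD⟩, ?_⟩
    funext l
    have := hv l (L - 1 - l) (by have := l.2; omega)
    show sgl l (L - 1 - l) c = t l
    rw [this, dif_pos l.2]

theorem hd_12 (L : ℕ) (hL : 1 ≤ L) : HD (Z0 1 (2 * L) 2) (B0 1 (2 * L) 2) ((L + 1) / 2) := by
  apply HD_fun _ _ _ (LinearMap.pi fun l : Fin ((L + 1) / 2) => etaL L l - etaL L (L - l))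
  · rintro z ⟨hz, -⟩
    have h2 : z ∈ B0 1 (2 * L) 2 ↔ ∀ l, l ≤ L → eta L l z = eta L (L - l) z := h1_two L hL z hz
    rw [h2]
    have hφ : ∀ l : Fin ((L + 1) / 2), (LinearMap.pi fun l : Fin ((L + 1) / 2) =>
        etaL L l - etaL L (L - l)) z l = eta L l z - eta L (L - l) z := by
      intro l
      rw [LinearMap.pi_apply, LinearMap.sub_apply, etaL_apply, etaL_apply]
    constructor
    · intro h0
      have h1 : ∀ l : ℕ, l < (L + 1) / 2 → eta L l z = eta L (L - l) z := by
        intro l hl
        have := hφ ⟨l, hl⟩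
        rw [h0] at this
        have h3 : (0 : ℝ) = eta L l z - eta L (L - l) z := this
        linarith
      intro l hl
      rcases lt_or_ge l ((L + 1) / 2) with h | h
      · exact h1 l h
      · rcases lt_or_ge (L - l) ((L + 1) / 2) with h' | h'
        · have := h1 (L - l) h'
          rw [show L - (L - l) = l by omega] at this
          exact this.symm
        · rw [show L - l = l by omega]
    · intro h
      funext l
      rw [hφ]
      have := h l (by have := l.2; omega)
      rw [this, sub_self]
      rfl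
  · intro t
    obtain ⟨c, hc, hv⟩ := h1_surj L hL
      (fun l => if h : l < (L + 1) / 2 then t ⟨l, h⟩ else if h' : L - l < (L + 1) / 2 then
        - t ⟨L - l, h'⟩ else 0) (by
        intro l hlL
        by_cases hl : l < (L + 1) / 2
        · have hm : ¬ L - l < (L + 1) / 2 := by omega
          have hm' : L - (L - l) < (L + 1) / 2 := by omega
          rw [dif_pos hl, dif_neg hm, dif_pos hm']
          have he : (⟨L - (L - l), hm'⟩ : Fin ((L + 1) / 2)) = ⟨l, hl⟩ := by
            apply Fin.ext
            show L - (L - l) = l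
            omega
          rw [he]
          ring
        · by_cases hm : L - l < (L + 1) / 2
          · rw [dif_neg hl, dif_pos hm, dif_pos hm]
            ring
          · have hm2 : ¬ L - (L - l) < (L + 1) / 2 := by omega
            rw [dif_neg hl, dif_neg hm, dif_neg hm, dif_neg hm2]
            ring)
    refine ⟨c, Z0_one _ _ (by omega) c hc, ?_⟩
    funext l
    rw [LinearMap.pi_apply, LinearMap.sub_apply, etaL_apply, etaL_apply,
      hv l (by have := l.2; omega), dif_pos l.2]

theorem hd_11 (L : ℕ) (hL : 1 ≤ L) : HD (Z0 1 (2 * L) 1) (B0 1 (2 * L) 1) 1 := by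
  apply HD_fun _ _ _ (LinearMap.pi fun _ : Fin 1 => (xc (2 * L)).comp
    ((Finsupp.lapply ((false, []) : Ix)).comp (D.comp iot)))
  · rintro z ⟨hz, -⟩
    have h2 : z ∈ B0 1 (2 * L) 1 ↔ xc (2 * L) (D (iot z) (false, [])) = 0 := h1_one L hL z hz
    rw [h2]
    constructor
    · intro h0
      exact congrFun h0 0
    · intro h
      funext l
      exact h
  · intro t
    obtain ⟨c, hc, h1⟩ := h1_one_ex L hL
    refine ⟨t 0 • c, (Z0 1 (2 * L) 1).smul_mem _ (Z0_one _ _ (by omega) c hc), ?_⟩
    rw [map_smul]
    funext l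
    have hl : l = 0 := Subsingleton.elim _ _
    subst hl
    show t 0 * xc (2 * L) (D (iot c) (false, [])) = t 0
    rw [h1, mul_one]

end BrV
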