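import Pool.Agent.Lib.BrV.SEw
import Pool.Agent.Lib.BrV.SEx
import Pool.Agent.Lib.BrV.SHd
import Pool.Agent.Lib.BrV.Half1

/-!
# BrV.SFinA: degrees 3 and 1 for `Sym^2 V` (section 4)

`n = 2g + 2 = 2L`, `L = g + 1`.
* `hd_st3`: `desc` with `k = 1`, `r = 3`: `hs`: `H_4(M_1) = 0` (`salMQ g 0 4` with `Va_half1 1 .. 4 n`: `1 + 1 < 4`; take `x = 0`), and `SalZ ⊓ EM⁻¹ SalB = SalZ` for `r = 3` (`H_3(M_1) = 0`: `salMQ g 0 3`, `Va_half1`: `1 + 1 < 3`; `EM` maps cycles to cycles: `EM_IsS`, `EM_sal`);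
  `hd_Lam g 3 1`, `hd_31 (g + 1)` (`2 * (g + 1) = 2 * g + 2`).
* `hd_st1`: `desc` with `k = 1`, `r = 1`, `hs = h2_onto`; `HD_ker` with `Z, B` for `M_2`, `Z', B'` for `M_1`, `φ = EM g`, `a = (g + 1 + 1) / 2` (`hd_Lam g 1 1`, `hd_12 (g + 1)`), `b = 1` (`hd_Lam g 1 0`, `hd_11 (g + 1)`), `c = g / 2`;
  `h3` of `HD_ker`: every element of `Sal_1(M_1)` is `EM` of an element of `Sal_1(M_2)` (`EM_lift`), and all elements of `Sal_1` are cycles (`sal_IsS_zero`).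
-/

namespace BrV

open Finsupp Pool.Agent.Lib.BrSym

private theorem EM_cyc (g r k : ℕ) (z : List ℕ →₀ MQ g)
    (hz : z ∈ SalZ (SM g) (MQk g (k + 1)) r (2 * g + 2)) :
    EM g z ∈ SalZ (SM g) (MQk g k) r (2 * g + 2) := by
  obtain ⟨h1, h2⟩ := hz
  refine ⟨EM_IsS g r _ k z h1, ?_⟩
  rw [← EM_sal g z fun l hl => (h1.1 l hl).2, h2, map_zero]

private theorem EM_bd (g r k : ℕ) (z : List ℕ →₀ MQ g)
    (hz : z ∈ SalB (SM g) (MQk g (k + 1)) r (2 * g + 2)) :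
    EM g z ∈ SalB (SM g) (MQk g k) r (2 * g + 2) := by
  obtain ⟨y, h1, rfl⟩ := hz
  refine ⟨EM g y, EM_IsS g (r + 1) _ k y h1, ?_⟩
  rw [EM_sal g y fun l hl => (h1.1 l hl).2]

theorem hd_st3 (g : ℕ) (hg : 1 ≤ g) : HD (SalZ (ST g) (Wsp g 2) 3 (2 * g + 2))
    (SalB (ST g) (Wsp g 2) 3 (2 * g + 2)) ((g + 1) / 2) := by
  have e4 : SalEx (SM g) (MQk g (0 + 1)) 4 (2 * g + 2) :=
    salMQ g 0 4 hg (Va_half1 1 le_rfl 4 (2 * g + 2) (by norm_num))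
  have e3 : SalEx (SM g) (MQk g (0 + 1)) 3 (2 * g + 2) :=
    salMQ g 0 3 hg (Va_half1 1 le_rfl 3 (2 * g + 2) (by norm_num))
  refine desc g 3 1 ((g + 1) / 2) hg ?_ ?_
  · intro y hy
    refine ⟨0, Submodule.zero_mem _, ?_⟩
    rw [map_zero, sub_zero]
    exact e4 y hy.1 hy.2
  · have h1 : SalZ (SM g) (MQk g (1 + 1)) 3 (2 * g + 2) ⊓
        (SalB (SM g) (MQk g 1) 3 (2 * g + 2)).comap (EM g) =
        SalZ (SM g) (MQk g (1 + 1)) 3 (2 * g + 2) := by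
      rw [inf_eq_left]
      intro z hz
      have h2 := EM_cyc g 3 1 z hz
      exact e3 _ h2.1 h2.2
    rw [h1]
    exact (hd_Lam g 3 1 hg ((g + 1) / 2)).1 (hd_31 (g + 1))

theorem hd_st1 (g : ℕ) (hg : 1 ≤ g) : HD (SalZ (ST g) (Wsp g 2) 1 (2 * g + 2))
    (SalB (ST g) (Wsp g 2) 1 (2 * g + 2)) (g / 2) := by
  refine desc g 1 1 (g / 2) hg (h2_onto g hg) ?_
  refine HD_ker _ _ (SalB_le g 1 2 hg) (SalZ (SM g) (MQk g 1) 1 (2 * g + 2)) _ (EM g)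
    (fun z hz => EM_cyc g 1 1 z hz) (fun z hz => EM_bd g 1 1 z hz) ?_ ((g + 1 + 1) / 2) 1 (g / 2)
    ((hd_Lam g 1 1 hg ((g + 1 + 1) / 2)).1 (hd_12 (g + 1) (by omega)))
    ((hd_Lam g 1 0 hg 1).1 (hd_11 (g + 1) (by omega))) (by omega)
  rintro z' ⟨h1, -⟩
  obtain ⟨y, h2, h3⟩ := EM_lift g 1 (2 * g + 2) 1 z' h1
  refine ⟨y, ⟨h2, sal_IsS_zero g 2 y h2⟩, ?_⟩
  rw [h3, sub_self]
  exact Submodule.zero_mem _

end BrV
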