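import Pool.Agent.Lib.BrV.SW2

/-!
# BrV.SW2b: products of two elements of `z`-degree one (1.2)

`prod_zp`: `(z p^(2l))*(p^(2m) z)`, `l ≥ 1`, `L = l + m`.  `sh_cons` repeatedly: `= ∑_{s=0}^{2l} [(z p^(2l-s))*p^(2m)] z p^s + (p^(2m) z) z p^(2l)` (the signs `(-1)^(2m s)` are `1`); modulo `F 1` (`gp_T`)
 `= (∑_s ta s • ((z p^(2l-s))*p^(2m))*p^s + ta (2l) • (p^(2m) z)*p^(2l)) z`.  `p^(2m)*p^s = cc (2m) s p^(2m+s)`; `(z p^b)*p^i = ∑_t (-1)^(t(b+1)) cc b (i-t) p^t z p^(b+i-t)`; `(p^a z)*p^i = ∑_t (-1)^t cc a t p^(a+t) z p^(i-t)`.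
 Coefficient of `y_(2i, 2(L-i))` (`t = 2i` resp. `a + t = 2i`): only even `s = 2σ` contribute (for odd `s` `cc (2l-s) (2m+s-2i) = 0`), `ta (2σ) = (-1)^σ`:
 `∑_σ (-1)^σ binom(m+σ,m) binom(L-i,l-σ) + (-1)^l binom(i,m)`, and `∑_σ (-1)^σ binom(m+σ,m) binom(L-i,l-σ) = (-1)^l binom(i,l)`
 (`conv`: coefficient of `x^l` in `(1+x)^(-m-1) (1+x)^(l+m-i) = (1+x)^(l-i-1)`; elementary: induction on `L - i` or on `m` with Pascal's rule).
 `l = 0`: `z*(p^(2m) z) = (z*p^(2m)) z + p^(2m) z z`, `z*p^(2m) = ∑_t (-1)^t p^t z p^(2m-t)`.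
`yc_prod`: by `R1_span` for `u`; `i ≥ 1`: `yc_pa` and `xc (2l) (p^i*(z p^j)) = 0` (`R1_decomp` for `z p^j`, `p_x`, `pa_x`); `i = 0`: `prod_zp`, `xc_word 0 (2l)`.
`yc_prod_odd`: `2 x_(2m+1) = p*x_(2m)` modulo `F 1`; `u*(p*x_(2m)) = (u*p)*x_(2m)`, `xc (u*p) = 0` (`u*p ∈ F 1`), `yc_prod`; `u*F 1 ⊆ F 1`.
-/

namespace BrV

open Finsupp

private theorem conv_zero (N l : ℕ) (h : N ≤ l) : ∑ s ∈ Finset.range (l + 1),
    (-1 : ℝ) ^ s * (N.choose (l - s) : ℝ) = (-1 : ℝ) ^ l * ((l - N).choose l : ℝ) := by
  have h1 : ∑ s ∈ Finset.range (l + 1), (-1 : ℝ) ^ s * (N.choose (l - s) : ℝ) =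
      (-1 : ℝ) ^ l * ∑ j ∈ Finset.range (l + 1), (-1 : ℝ) ^ j * (N.choose j : ℝ) := by
    rw [← Finset.sum_range_reflect, Finset.mul_sum]
    apply Finset.sum_congr rfl
    intro j hj
    have hj' : j ≤ l := Nat.lt_succ_iff.1 (Finset.mem_range.1 hj)
    have e1 : l + 1 - 1 - j = l - j := by omega
    have e2 : l - (l - j) = j := by omega
    rw [e1, e2, ← mul_assoc, ← pow_add]
    congr 1
    have e3 : l + j = (l - j) + 2 * j := by omega
    rw [e3, pow_add, _root_.pow_mul (-1 : ℝ) 2 j]
    norm_num
  rw [h1]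
  congr 1
  have h2 : ∑ j ∈ Finset.range (l + 1), (-1 : ℝ) ^ j * (N.choose j : ℝ) =
      ∑ j ∈ Finset.range (N + 1), (-1 : ℝ) ^ j * (N.choose j : ℝ) := by
    symm
    apply Finset.sum_subset (Finset.range_mono (by omega))
    intro j _ hj
    have hj' : N < j := by
      by_contra h'
      exact hj (Finset.mem_range.2 (by omega))
    rw [Nat.choose_eq_zero_of_lt hj']
    simp
  have h3 := congrArg (fun z : ℤ => (z : ℝ)) (Int.alternating_sum_range_choose (n := N))
  simp only [Int.cast_sum, Int.cast_mul, Int.cast_pow, Int.cast_neg, Int.cast_one,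
    Int.cast_natCast] at h3
  rw [h2, h3]
  by_cases hN : N = 0
  · subst hN
    simp
  · rw [if_neg hN, Nat.choose_eq_zero_of_lt (by omega)]
    simp

private theorem conv_aux (m : ℕ) : ∀ (N l : ℕ), N ≤ l + m → ∑ s ∈ Finset.range (l + 1),
    (-1 : ℝ) ^ s * ((m + s).choose m : ℝ) * (N.choose (l - s) : ℝ) =
      (-1 : ℝ) ^ l * ((l + m - N).choose l : ℝ) := by
  induction m with
  | zero =>
    intro N l h
    have := conv_zero N l (by omega)
    simpa using this
  | succ m ih =>
    intro N l h
    cases N with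
    | zero =>
      rw [Finset.sum_eq_single l]
      · simp only [Nat.sub_self, Nat.choose_self, Nat.cast_one, mul_one, Nat.sub_zero]
        rw [Nat.add_comm l (m + 1), Nat.choose_symm_add]
      · intro s hs hsl
        have : s < l + 1 := Finset.mem_range.1 hs
        rw [Nat.choose_eq_zero_of_lt (show 0 < l - s by omega)]
        simp
      · intro hl
        exact absurd (Finset.mem_range.2 (Nat.lt_succ_self l)) hl
    | succ N =>
      have h1 := ih N l (by omega)
      have e : l + (m + 1) - (N + 1) = l + m - N := by omega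
      rw [e, ← h1]
      have A1 : ∑ s ∈ Finset.range (l + 1),
          (-1 : ℝ) ^ s * ((m + 1 + s).choose (m + 1) : ℝ) * ((N + 1).choose (l - s) : ℝ) =
          ∑ s ∈ Finset.range l, (-1 : ℝ) ^ s * ((m + 1 + s).choose (m + 1) : ℝ) *
            (N.choose (l - s - 1) : ℝ) +
          ∑ s ∈ Finset.range (l + 1),
            (-1 : ℝ) ^ s * ((m + 1 + s).choose (m + 1) : ℝ) * (N.choose (l - s) : ℝ) := by
        rw [Finset.sum_range_succ, Finset.sum_range_succ (n := l), ← add_assoc,
          ← Finset.sum_add_distrib]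
        congr 1
        · apply Finset.sum_congr rfl
          intro s hs
          obtain ⟨k, hk⟩ : ∃ k, l - s = k + 1 :=
            ⟨l - s - 1, by have := Finset.mem_range.1 hs; omega⟩
          rw [hk, Nat.choose_succ_succ, Nat.add_sub_cancel]
          push_cast
          ring
        · simp
      have A2 : ∑ s ∈ Finset.range (l + 1),
          (-1 : ℝ) ^ s * ((m + s).choose m : ℝ) * (N.choose (l - s) : ℝ) =
          ∑ s ∈ Finset.range l, (-1 : ℝ) ^ s * ((m + 1 + s).choose (m + 1) : ℝ) *
            (N.choose (l - s - 1) : ℝ) +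
          ∑ s ∈ Finset.range (l + 1),
            (-1 : ℝ) ^ s * ((m + 1 + s).choose (m + 1) : ℝ) * (N.choose (l - s) : ℝ) := by
        rw [Finset.sum_range_succ', Finset.sum_range_succ' (n := l), ← add_assoc,
          ← Finset.sum_add_distrib]
        congr 1
        · apply Finset.sum_congr rfl
          intro s hs
          have e1 : l - (s + 1) = l - s - 1 := by omega
          have e2 : m + 1 + (s + 1) = (m + (s + 1)) + 1 := by omega
          have e3 : m + 1 + s = m + (s + 1) := by omega
          rw [e1, e2, Nat.choose_succ_succ (m + (s + 1)) m, e3]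
          push_cast
          ring
        · simp
      rw [A1, A2]

theorem conv (l m i : ℕ) (h : i ≤ l + m) : ∑ s ∈ Finset.range (l + 1),
    (-1 : ℝ) ^ s * ((m + s).choose m : ℝ) * ((l + m - i).choose (l - s) : ℝ) =
      (-1 : ℝ) ^ l * (i.choose l : ℝ) := by
  have h1 := conv_aux m (l + m - i) l (by omega)
  have e : l + m - (l + m - i) = i := by omega
  rw [e] at h1
  exact h1

private theorem pw_succ (b : ℕ) : pw (b + 1) = true :: pw b := rfl

private theorem sg_false (a : ℕ) : sg (false :: pw a) = (-1) ^ a := by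
  have : np (false :: pw a) = a := by
    have h := np_pw a
    unfold np at h ⊢
    simp [h]
  rw [sg, this]

private theorem del_bw_cons (c a : Bool) (w : Wd) :
    del c (bw (a :: w)) = if c = a then bw w else 0 := by
  rw [← app_bw]
  split_ifs with h
  · rw [h, del_app]
  · exact del_app_ne c a h _

private theorem del_bw_nil (c : Bool) : del c (bw ([] : Wd)) = 0 := by
  ext w
  rw [del_apply, bw, single_eq_of_ne (by simp)]
  rfl

private theorem tau_pw (a : ℕ) : tau (bw (pw a)) = (-1 : ℝ) ^ a • bw (pw a) := by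
  ext w
  rw [tau_apply, Finsupp.smul_apply, smul_eq_mul]
  by_cases h : w = pw a
  · subst h
    rw [sg, np_pw]
  · rw [bw, single_eq_of_ne (by simpa using h)]
    simp

/-- coefficients of `(z p^β) * p^α` -/
private theorem C1 (y : ℕ) : ∀ (β α x : ℕ), Even x → x + y = α + β →
    (mu (bw (pw β ++ [false])) (bw (pw α))) (pw y ++ (false :: pw x)) =
      if x ≤ α then cc β (α - x) else 0 := by
  induction y with
  | zero =>
    intro β α x hx h
    have e0 : pw 0 ++ (false :: pw x) = false :: pw x := rfl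
    rw [e0, ← del_apply, del_mu]
    have h1 : del false (bw (pw α)) = 0 := by
      cases α with
      | zero => exact del_bw_nil _
      | succ α => rw [pw_succ, del_bw_cons]; simp
    rw [h1, map_zero, zero_add]
    cases β with
    | zero =>
      have e1 : pw 0 ++ [false] = false :: ([] : Wd) := rfl
      rw [e1, del_bw_cons, if_pos rfl, nil_mu, tau_pw]
      have hxa : x = α := by omega
      subst hxa
      rw [if_pos le_rfl, Nat.sub_self, cc_zero_right, Finsupp.smul_apply, bw, single_eq_same,
        hx.neg_one_pow]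
      simp
    | succ β =>
      have e1 : pw (β + 1) ++ [false] = true :: (pw β ++ [false]) := rfl
      rw [e1, del_bw_cons, if_neg (by simp), if_neg (by omega)]
      simp
  | succ y ih =>
    intro β α x hx h
    have e0 : pw (y + 1) ++ (false :: pw x) = true :: (pw y ++ (false :: pw x)) := rfl
    rw [e0, ← del_apply, del_mu, Finsupp.add_apply, tau_pw]
    have T1 : (mu (bw (pw β ++ [false])) (del true (bw (pw α)))) (pw y ++ (false :: pw x)) =
        if x + 1 ≤ α then cc β (α - 1 - x) else 0 := by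
      cases α with
      | zero =>
        have : pw 0 = ([] : Wd) := rfl
        rw [this, del_bw_nil, map_zero, if_neg (by omega)]
        rfl
      | succ α =>
        rw [pw_succ, del_bw_cons, if_pos rfl, ih β α x hx (by omega)]
        have e2 : α + 1 - 1 - x = α - x := by omega
        rw [e2]
        by_cases hc : x ≤ α
        · rw [if_pos hc, if_pos (by omega)]
        · rw [if_neg hc, if_neg (by omega)]
    have T2 : (mu (del true (bw (pw β ++ [false]))) ((-1 : ℝ) ^ α • bw (pw α)))
        (pw y ++ (false :: pw x)) =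
        if 1 ≤ β ∧ x ≤ α then (-1 : ℝ) ^ α * cc (β - 1) (α - x) else 0 := by
      cases β with
      | zero =>
        have e1 : pw 0 ++ [false] = false :: ([] : Wd) := rfl
        rw [e1, del_bw_cons, if_neg (by simp), if_neg (by omega)]
        simp
      | succ β =>
        have e1 : pw (β + 1) ++ [false] = true :: (pw β ++ [false]) := rfl
        rw [e1, del_bw_cons, if_pos rfl, map_smul, Finsupp.smul_apply, ih β α x hx (by omega),
          Nat.add_sub_cancel, smul_eq_mul]
        by_cases hc : x ≤ α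
        · rw [if_pos hc, if_pos ⟨by omega, hc⟩]
        · rw [if_neg hc, if_neg (by omega), mul_zero]
    rw [T1, T2]
    by_cases hc : x ≤ α
    · rw [if_pos hc]
      rcases Nat.eq_or_lt_of_le hc with hxa | hxa
      · subst hxa
        rw [if_neg (by omega), if_pos ⟨by omega, le_rfl⟩, Nat.sub_self, cc_zero_right,
          cc_zero_right, hx.neg_one_pow]
        norm_num
      · rw [if_pos (by omega)]
        obtain ⟨k, rfl⟩ : ∃ k, α = x + (k + 1) := ⟨α - x - 1, by omega⟩
        have e2 : x + (k + 1) - x = k + 1 := by omega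
        have e3 : x + (k + 1) - 1 - x = k := by omega
        rw [e2, e3]
        cases β with
        | zero => rw [if_neg (by omega), cc_zero_left, cc_zero_left, add_zero]
        | succ β =>
          rw [if_pos ⟨by omega, by omega⟩, Nat.add_sub_cancel, pow_add, hx.neg_one_pow, one_mul]
          rw [cc]
    · rw [if_neg hc, if_neg (by omega), if_neg (by omega), add_zero]

/-- coefficients of `(p^a z) * p^b` -/
private theorem C2 (a : ℕ) (ha : Even a) (y : ℕ) : ∀ (b x : ℕ), Even x → x + y = a + b →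
    (mu (bw (xw a)) (bw (pw b))) (pw y ++ (false :: pw x)) =
      if a ≤ x then cc a (x - a) else 0 := by
  induction y with
  | zero =>
    intro b x hx h
    have e0 : pw 0 ++ (false :: pw x) = false :: pw x := rfl
    rw [e0, ← del_apply, del_mu]
    have h1 : del false (bw (pw b)) = 0 := by
      cases b with
      | zero => exact del_bw_nil _
      | succ b => rw [pw_succ, del_bw_cons]; simp
    have hb : b = x - a := by omega
    have hbe : Even b := by
      rw [hb]
      obtain ⟨c, hc⟩ := hx
      obtain ⟨e, he⟩ := ha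
      exact ⟨c - e, by omega⟩
    rw [h1, map_zero, zero_add, xw, del_bw_cons, if_pos rfl, tau_pw, map_smul, hbe.neg_one_pow,
      one_smul, BrV.pow_mul, Finsupp.smul_apply, if_pos (by omega)]
    have e : a + b = x := by omega
    rw [e, bw, single_eq_same, hb]
    simp
  | succ y ih =>
    intro b x hx h
    have e0 : pw (y + 1) ++ (false :: pw x) = true :: (pw y ++ (false :: pw x)) := rfl
    rw [e0, ← del_apply, del_mu]
    have h2 : del true (bw (xw a)) = 0 := by
      rw [xw, del_bw_cons]
      simp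
    rw [h2, map_zero, LinearMap.zero_apply, add_zero]
    cases b with
    | zero =>
      have : pw 0 = ([] : Wd) := rfl
      rw [this, del_bw_nil, map_zero, if_neg (by omega)]
      rfl
    | succ b =>
      rw [pw_succ, del_bw_cons, if_pos rfl, ih b x hx (by omega)]

private theorem S_sum (a : ℕ) (ha : Even a) (b : ℕ) :
    mu (bw (pw b ++ [false])) (bw (xw a)) =
      ∑ s ∈ Finset.range (b + 1),
        ((app true) ^ s) (app false (mu (bw (pw (b - s) ++ [false])) (bw (pw a)))) +
      ((app true) ^ b) (app false (bw (xw a))) := by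
  induction b with
  | zero =>
    have e1 : pw 0 ++ [false] = false :: ([] : Wd) := rfl
    have e2 : sh ([] : Wd) (xw a) = bw (xw a) := by rw [← mu_bw, nil_mu]
    rw [Finset.sum_range_one, pow_zero, Nat.sub_zero, e1, mu_bw]
    show sh (false :: ([] : Wd)) (false :: pw a) = _
    rw [sh_cons, sg_false, ha.neg_one_pow, one_smul]
    show app false (sh [false] (pw a)) + app false (sh ([] : Wd) (xw a)) = _
    rw [e2, mu_bw]
    rfl
  | succ b ih =>
    have e1 : pw (b + 1) ++ [false] = true :: (pw b ++ [false]) := rfl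
    rw [e1, mu_bw]
    show sh (true :: (pw b ++ [false])) (false :: pw a) = _
    rw [sh_cons, sg_false, ha.neg_one_pow, one_smul]
    show app false (sh (true :: (pw b ++ [false])) (pw a)) +
      app true (sh (pw b ++ [false]) (xw a)) = _
    rw [← mu_bw, ← mu_bw, ih, Finset.sum_range_succ' (n := b + 1), map_add, map_sum]
    have e3 : ∀ (s : ℕ) (f : R), ((app true) ^ (s + 1)) f = app true (((app true) ^ s) f) := by
      intro s f
      rw [pow_succ']
      rfl
    simp only [e3, Nat.sub_zero, pow_zero, Nat.add_sub_add_right]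
    rw [e1]
    show _ = _ + app false (mu (bw (true :: (pw b ++ [false]))) (bw (pw a))) + _
    abel

private theorem yc_false (i j : ℕ) (f : R) :
    yc i j (app false f) = f (pw (2 * j) ++ (false :: pw (2 * i))) := by
  have h : app false f ∈ G' := by
    show del true (app false f) = 0
    exact del_app_ne true false (by simp) f
  show (gp (app false f)) (yw (2 * i) (2 * j)) = _
  rw [gp_of_mem _ h, yw, app_cons, if_pos rfl]

private theorem yc_T (i j s : ℕ) (f : R) : yc i j (((app true) ^ s) (app false f)) =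
    ta s * (mu f (bw (pw s))) (pw (2 * j) ++ (false :: pw (2 * i))) := by
  have h := yc_F1 i j _ (gp_T f s)
  rw [map_sub, map_smul, smul_eq_mul, yc_false, sub_eq_zero] at h
  exact h

private theorem ta_even (σ : ℕ) : ta (2 * σ) = (-1) ^ σ := by
  unfold ta
  cases σ with
  | zero => simp
  | succ σ =>
    have e : 2 * (σ + 1) * (2 * (σ + 1) - 1) / 2 = (2 * σ + 1) * (σ + 1) := by
      have : 2 * (σ + 1) * (2 * (σ + 1) - 1) = 2 * ((2 * σ + 1) * (σ + 1)) := by
        have e2 : 2 * (σ + 1) - 1 = 2 * σ + 1 := by omega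
        rw [e2]
        ring
      rw [this]
      exact Nat.mul_div_cancel_left _ (by norm_num)
    have e3 : (-1 : ℝ) ^ (2 * σ + 1) = -1 := by
      rw [pow_succ, _root_.pow_mul]
      norm_num
    rw [e, _root_.pow_mul, e3]

private theorem sum_even (g : ℕ → ℝ) (l : ℕ) (hg : ∀ s, s < l → g (2 * s + 1) = 0) :
    ∑ s ∈ Finset.range (2 * l + 1), g s = ∑ s ∈ Finset.range (l + 1), g (2 * s) := by
  induction l with
  | zero => simp
  | succ l ih =>
    have e : 2 * (l + 1) + 1 = 2 * l + 1 + 1 + 1 := by ring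
    rw [e, Finset.sum_range_succ, Finset.sum_range_succ, ih (fun s hs => hg s (by omega)),
      hg l (by omega), Finset.sum_range_succ (n := l + 1)]
    have e2 : 2 * l + 1 + 1 = 2 * (l + 1) := by ring
    rw [e2, add_zero]

theorem prod_zp (l m i : ℕ) (h : i ≤ l + m) :
    yc i (l + m - i) (mu (bw (pw (2 * l) ++ [false])) (bw (xw (2 * m)))) =
      (-1 : ℝ) ^ l * bb l m i := by
  rw [S_sum (2 * m) (even_two_mul m), map_add, map_sum]
  have h1 : ∀ s ∈ Finset.range (2 * l + 1),
      yc i (l + m - i) (((app true) ^ s)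
        (app false (mu (bw (pw (2 * l - s) ++ [false])) (bw (pw (2 * m)))))) =
      ta s * (cc (2 * m) s *
        (if 2 * i ≤ 2 * m + s then cc (2 * l - s) (2 * m + s - 2 * i) else 0)) := by
    intro s hs
    have hs' : s ≤ 2 * l := Nat.lt_succ_iff.1 (Finset.mem_range.1 hs)
    rw [yc_T, mu_assoc, BrV.pow_mul, map_smul, Finsupp.smul_apply, smul_eq_mul,
      C1 _ _ _ _ (even_two_mul i) (by omega)]
  rw [Finset.sum_congr rfl h1, yc_T, C2 _ (even_two_mul m) _ _ _ (even_two_mul i) (by omega),
    sum_even _ l]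
  · have h2 : ∀ s ∈ Finset.range (l + 1),
        ta (2 * s) * (cc (2 * m) (2 * s) *
          (if 2 * i ≤ 2 * m + 2 * s then cc (2 * l - 2 * s) (2 * m + 2 * s - 2 * i) else 0)) =
        (-1 : ℝ) ^ s * ((m + s).choose m : ℝ) * ((l + m - i).choose (l - s) : ℝ) := by
      intro s hs
      have hs' : s ≤ l := Nat.lt_succ_iff.1 (Finset.mem_range.1 hs)
      rw [ta_even, mul_assoc]
      congr 1
      have e1 : cc (2 * m) (2 * s) = ((m + s).choose m : ℝ) := by
        rw [cc_formula, if_neg (fun hh => (Nat.not_odd_iff_even.2 (even_two_mul m)) hh.1)]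
        have : (2 * m + 2 * s) / 2 = m + s := by omega
        have h' : 2 * m / 2 = m := by omega
        rw [this, h']
      rw [e1]
      congr 1
      by_cases hc : i ≤ m + s
      · rw [if_pos (by omega), cc_formula]
        have e2 : 2 * l - 2 * s = 2 * (l - s) := by omega
        have e3 : 2 * m + 2 * s - 2 * i = 2 * (m + s - i) := by omega
        rw [e2, e3, if_neg (fun hh => (Nat.not_odd_iff_even.2 (even_two_mul (l - s))) hh.1)]
        have e4 : (2 * (l - s) + 2 * (m + s - i)) / 2 = l + m - i := by omega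
        have e5 : 2 * (l - s) / 2 = l - s := by omega
        rw [e4, e5]
      · rw [if_neg (by omega), Nat.choose_eq_zero_of_lt (by omega)]
        simp
    rw [Finset.sum_congr rfl h2, conv l m i h, ta_even, bb, mul_add]
    congr 1
    congr 1
    by_cases hc : m ≤ i
    · rw [if_pos (by omega), cc_formula,
        if_neg (fun hh => (Nat.not_odd_iff_even.2 (even_two_mul m)) hh.1)]
      have e4 : (2 * m + (2 * i - 2 * m)) / 2 = i := by omega
      have e5 : 2 * m / 2 = m := by omega
      rw [e4, e5]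
    · rw [if_neg (by omega), Nat.choose_eq_zero_of_lt (by omega)]
      simp
  · intro s hsl
    by_cases hs : 2 * i ≤ 2 * m + (2 * s + 1)
    · rw [if_pos hs, cc_formula (2 * l - (2 * s + 1)), if_pos]
      · simp
      · constructor
        · exact ⟨l - s - 1, by omega⟩
        · exact ⟨m + s - i, by omega⟩
    · rw [if_neg hs]
      simp

private theorem np_zp (b : ℕ) : np (pw b ++ [false]) = b := by
  have h := np_pw b
  unfold np at h ⊢
  simp [h]

private theorem nz_zp (b : ℕ) : nz (pw b ++ [false]) = 1 := by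
  have h := nz_pw b
  unfold nz at h ⊢
  simp [h]

private theorem np_xw (b : ℕ) : np (xw b) = b := by
  have h := np_pw b
  unfold np xw at *
  simp [h]

private theorem nz_xw (b : ℕ) : nz (xw b) = 1 := by
  have h := nz_pw b
  unfold nz xw at *
  simp [h]

private theorem xc_zp (l i : ℕ) (hi : 1 ≤ i) (h : i ≤ 2 * l) :
    xc (2 * l) (mu (bw (pw i)) (bw (pw (2 * l - i) ++ [false]))) = 0 := by
  have h1 := IsH_bw (pw (2 * l - i) ++ [false])
  rw [np_zp, nz_zp] at h1
  have h2 := R1_decomp _ _ h1
  have h3 := xc_F1 (2 * l) _ ((IsLI_F 1).mul_mem (bw (pw i)) _ h2)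
  rw [map_sub, map_sub, map_smul, map_smul, sub_eq_zero] at h3
  rw [h3]
  have h4 : xc (2 * l) (mu (bw (pw i)) (bw (xw (2 * l - i)))) = 0 := by
    rcases Nat.eq_or_lt_of_le hi with h5 | h5
    · subst h5
      have h6 := xc_F1 (2 * l) _ (p_x (2 * l - 1))
      rw [if_neg (by
        rw [Nat.not_even_iff_odd]
        exact ⟨l - 1, by omega⟩), zero_smul, sub_zero] at h6
      exact h6
    · exact xc_F1 _ _ (pa_x i _ h5)
  rw [h4, smul_zero]

theorem yc_prod (l m i : ℕ) (h : i ≤ l + m) (u : R) (hu : IsH (2 * l) 1 u) :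
    yc i (l + m - i) (mu u (bw (xw (2 * m)))) = xc (2 * l) u * bb l m i := by
  obtain ⟨t, ht⟩ := R1_span _ _ hu
  have h0 : xc (2 * l) (bw (pw (2 * l) ++ [false])) = (-1) ^ l := by
    have := xc_word 0 (2 * l)
    rw [Nat.zero_add, ta_even, cc_zero_left, mul_one] at this
    exact this
  have h1 : xc (2 * l) u = t 0 * (-1) ^ l := by
    rw [ht, map_sum, Finset.sum_range_succ']
    rw [Finset.sum_eq_zero]
    · rw [map_smul, smul_eq_mul, Nat.sub_zero, zero_add]
      have : bw (pw 0) = bw ([] : Wd) := rfl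
      rw [this, nil_mu, h0]
    · intro s hs
      have hs' := Finset.mem_range.1 hs
      rw [map_smul, xc_zp l (s + 1) (by omega) (by omega), smul_zero]
  have h2 : yc i (l + m - i) (mu u (bw (xw (2 * m)))) = t 0 * ((-1) ^ l * bb l m i) := by
    rw [ht, map_sum, LinearMap.sum_apply, map_sum, Finset.sum_range_succ']
    rw [Finset.sum_eq_zero]
    · rw [map_smul, LinearMap.smul_apply, map_smul, smul_eq_mul, Nat.sub_zero, zero_add]
      have : bw (pw 0) = bw ([] : Wd) := rfl
      rw [this, nil_mu, prod_zp l m i h]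
    · intro s hs
      have hs' := Finset.mem_range.1 hs
      rw [map_smul, LinearMap.smul_apply, map_smul, mu_assoc]
      have h3 : IsH (2 * l - (s + 1) + 2 * m) 2
          (mu (bw (pw (2 * l - (s + 1)) ++ [false])) (bw (xw (2 * m)))) := by
        have e1 := IsH_bw (pw (2 * l - (s + 1)) ++ [false])
        have e2 := IsH_bw (xw (2 * m))
        rw [np_zp, nz_zp] at e1
        rw [np_xw, nz_xw] at e2
        exact IsH_mu _ _ _ _ _ _ e1 e2
      rw [yc_pa i (l + m - i) (s + 1) _ (by omega) _ h3, smul_zero]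
  rw [h2, h1]
  ring

theorem yc_prod_odd (l m i : ℕ) (h : i ≤ l + m + 1) (u : R) (hu : IsH (2 * l + 1) 1 u) :
    yc i (l + m + 1 - i) (mu u (bw (xw (2 * m + 1)))) = 0 := by
  have h1 := p_x (2 * m)
  rw [if_pos (even_two_mul m)] at h1
  have h2 := yc_F1 i (l + m + 1 - i) _ ((IsLI_F 1).mul_mem u _ h1)
  rw [map_sub, map_sub, map_smul, map_smul, ← mu_assoc, smul_eq_mul] at h2
  have h3 : IsH (2 * (l + 1)) 1 (mu u (bw [true])) := by
    have e2 := IsH_bw [true]
    have e3 : np [true] = 1 := rfl
    have e4 : nz [true] = 0 := rfl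
    rw [e3, e4] at e2
    have := IsH_mu _ _ _ _ _ _ hu e2
    have e5 : 2 * l + 1 + 1 = 2 * (l + 1) := by ring
    rw [e5] at this
    exact this
  have h4 := yc_prod (l + 1) m i (by omega) _ h3
  have h5 : mu u (bw [true]) ∈ F 1 := Rp_le_F1 ⟨u, rfl⟩
  have e6 : l + 1 + m - i = l + m + 1 - i := by omega
  rw [xc_F1 _ _ h5, zero_mul, e6] at h4
  rw [h4] at h2
  linarith

end BrV
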