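import Pool.Agent.Lib.BrV.SN2
import Pool.Agent.Lib.BrV.SW2b

/-!
# BrV.SH1: `H_1(Φ0)_{2L,2}` (3.3), `L ≥ 1`

`f_c = D (iot c) (false, []) ∈ R_(2L,2)` for `c ∈ Φ0_{1,2L,2}` (its blocks as elements of `R`).  `eta L l c = ∑_{i ≤ L} (-1)^(l+i) binom(l,i) yc i (L-i) f_c`: inverse binomial transform: `yc i (L-i) f_c = ∑_{l ≤ L} eta L l c binom(i,l)` (`eta_inv`).
* `h1_two` `⟸`: suppose `eta L l c = eta L (L-l) c` for all `l ≤ L`.  Then `(yc i (L-i) f_c)_i = ∑_l a_l bb l (L-l) i` with `a_l = eta L l c / 2`.  `t = ∑_l a_l (-1)^l • T_l ∈ Φ(Rpl)_{1,2L,2}`, `T_l = single (false, [block z p^(2l)]) (bw (xw (2(L-l))))` for `l ≥ 1`, `T_0 = single (true, []) (bw (xw (2L)))`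
  (`D T_l (false, []) = (z p^(2l))*x_(2m)`, resp. `z*x_(2L)`): `yc i (L-i) (D t (false, [])) = yc i (L-i) f_c` (`prod_zp`).  So (`yc_zero_iff`) `f_c - D t (false,[]) - p*b ∈ F 1`, `b ∈ R_(2L-1,2)`; `x = iot c - t - single (false, [[]]) b` (`[]` encodes the block `p`): `D x ∈ Φ(F 1)` (`D x` lives at `(false, [])`).
  `Ac_top_F1 2` (degree 1): `x = D u + z`; coefficient at `[]`: `c = D0 (u [])`.
* `⟹`: `c = D0 e`: `D (iot c) = - D v`, `v ∈ Φ(Rpl)_{1,2L,2}`; `D v (false, []) = ∑_w (w block) * v (false,[w]) + z * v (true, [])`.  `nz w = 0`: pure block times `R_(.,2)`: `yc = 0` (`yc_pa`).  `nz w = 2`: coefficient a multiple of `p^m`, `m ≥ 1`: in `F 1`.  `nz w = 1`: coefficient in `R_(j,1)`,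
  `= xc j (..) x_j + F 1`: `yc_prod` or `yc_prod_odd`: a multiple of `bb l (L-l)`.  `z * v(true,[])`: the same with `u = z`.  `bb l (L-l)` has `eta` symmetric (`eta` of `(binom(i,l))_i` is the unit vector `l`).
-/

namespace BrV

open Finsupp

private theorem orth (L a b : ℕ) (ha : a ≤ L) : ∑ j ∈ Finset.range (L + 1),
    (-1 : ℝ) ^ (a + j) * (a.choose j : ℝ) * (j.choose b : ℝ) = if a = b then 1 else 0 := by
  have h1 : ∑ j ∈ Finset.range (L + 1),
      (-1 : ℝ) ^ (a + j) * (a.choose j : ℝ) * (j.choose b : ℝ) =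
      ∑ j ∈ Finset.range (a + 1),
        (-1 : ℝ) ^ (a + j) * (a.choose j : ℝ) * (j.choose b : ℝ) := by
    symm
    apply Finset.sum_subset
    · intro j hj
      simp only [Finset.mem_range] at hj ⊢
      omega
    · intro j _ hj2
      simp only [Finset.mem_range] at hj2
      rw [Nat.choose_eq_zero_of_lt (by omega)]
      simp
  rw [h1]
  by_cases hab : b ≤ a
  · have h2 : ∑ j ∈ Finset.range (a + 1),
        (-1 : ℝ) ^ (a + j) * (a.choose j : ℝ) * (j.choose b : ℝ) =
        ∑ j ∈ (Finset.range (a + 1)).filter (fun j => b ≤ j),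
        (-1 : ℝ) ^ (a + j) * (a.choose j : ℝ) * (j.choose b : ℝ) := by
      symm
      apply Finset.sum_subset (Finset.filter_subset _ _)
      intro j hj hj2
      simp only [Finset.mem_filter, not_and, not_le] at hj2
      rw [Nat.choose_eq_zero_of_lt (hj2 hj)]
      simp
    have h3 : (Finset.range (a + 1)).filter (fun j => b ≤ j) =
        (Finset.range (a - b + 1)).image (fun t => b + t) := by
      ext j
      simp only [Finset.mem_filter, Finset.mem_range, Finset.mem_image]
      constructor
      · intro h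
        exact ⟨j - b, by omega, by omega⟩
      · rintro ⟨t, ht, rfl⟩
        omega
    rw [h2, h3, Finset.sum_image (fun x _ y _ h => by omega)]
    have h4 : ∀ t ∈ Finset.range (a - b + 1),
        (-1 : ℝ) ^ (a + (b + t)) * (a.choose (b + t) : ℝ) * ((b + t).choose b : ℝ) =
        (-1 : ℝ) ^ (a + b) * (a.choose b : ℝ) * ((-1 : ℝ) ^ t * ((a - b).choose t : ℝ)) := by
      intro t ht
      simp only [Finset.mem_range] at ht
      have h5 : a.choose (b + t) * (b + t).choose b = a.choose b * (a - b).choose t := by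
        have := Nat.choose_mul (n := a) (k := b + t) (s := b) (by omega)
        rw [this]
        congr 2
        omega
      have h6 : (a.choose (b + t) : ℝ) * ((b + t).choose b : ℝ) =
          (a.choose b : ℝ) * ((a - b).choose t : ℝ) := by exact_mod_cast h5
      calc (-1 : ℝ) ^ (a + (b + t)) * (a.choose (b + t) : ℝ) * ((b + t).choose b : ℝ)
          = (-1 : ℝ) ^ (a + b) * (-1 : ℝ) ^ t *
            ((a.choose (b + t) : ℝ) * ((b + t).choose b : ℝ)) := by
            rw [← add_assoc, pow_add]
            ring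
        _ = _ := by rw [h6]; ring
    rw [Finset.sum_congr rfl h4, ← Finset.mul_sum]
    have h7 : ∑ t ∈ Finset.range (a - b + 1), (-1 : ℝ) ^ t * ((a - b).choose t : ℝ) =
        if a - b = 0 then 1 else 0 := by
      have := Int.alternating_sum_range_choose (n := a - b)
      have h8 : ((∑ t ∈ Finset.range (a - b + 1), (-1 : ℤ) ^ t * ((a - b).choose t : ℤ) : ℤ) : ℝ) =
          ((if a - b = 0 then 1 else 0 : ℤ) : ℝ) := by rw [this]
      push_cast at h8
      exact h8
    rw [h7]
    by_cases h8 : a = b
    · subst h8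
      simp only [Nat.sub_self, if_true, Nat.choose_self, Nat.cast_one, mul_one]
      rw [← two_mul, _root_.pow_mul]
      norm_num
    · rw [if_neg (by omega), if_neg h8, mul_zero]
  · have h2 : a ≠ b := by omega
    rw [if_neg h2]
    apply Finset.sum_eq_zero
    intro j hj
    simp only [Finset.mem_range] at hj
    rw [Nat.choose_eq_zero_of_lt (show j < b by omega)]
    simp

private theorem binv (L i : ℕ) (hi : i ≤ L) (y : ℕ → ℝ) :
    ∑ l ∈ Finset.range (L + 1), (∑ j ∈ Finset.range (L + 1),
      (-1 : ℝ) ^ (l + j) * (l.choose j : ℝ) * y j) * (i.choose l : ℝ) = y i := by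
  have h1 : ∀ l ∈ Finset.range (L + 1), (∑ j ∈ Finset.range (L + 1),
      (-1 : ℝ) ^ (l + j) * (l.choose j : ℝ) * y j) * (i.choose l : ℝ) =
      ∑ j ∈ Finset.range (L + 1),
        (-1 : ℝ) ^ (l + j) * (l.choose j : ℝ) * y j * (i.choose l : ℝ) := by
    intro l _
    rw [Finset.sum_mul]
  rw [Finset.sum_congr rfl h1, Finset.sum_comm]
  have h2 : ∀ j ∈ Finset.range (L + 1), ∑ l ∈ Finset.range (L + 1),
      (-1 : ℝ) ^ (l + j) * (l.choose j : ℝ) * y j * (i.choose l : ℝ) =
      (-1 : ℝ) ^ (i + j) * y j * (if i = j then 1 else 0) := by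
    intro j _
    rw [← orth L i j hi, Finset.mul_sum]
    refine Finset.sum_congr rfl fun l _ => ?_
    have h3 : (-1 : ℝ) ^ (l + j) = (-1 : ℝ) ^ (i + j) * (-1 : ℝ) ^ (i + l) := by
      rw [← pow_add]
      have : i + j + (i + l) = 2 * i + (l + j) := by ring
      rw [this, pow_add _ (2 * i), _root_.pow_mul]
      norm_num
    rw [h3]
    ring
  rw [Finset.sum_congr rfl h2, Finset.sum_eq_single i]
  · rw [if_pos rfl, ← two_mul, _root_.pow_mul]
    norm_num
  · intro j _ hj
    rw [if_neg (Ne.symm hj), mul_zero]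
  · intro h
    simp only [Finset.mem_range, not_lt] at h
    omega

/-- the functional `eta` on `R` -/
private noncomputable def ee (L l : ℕ) (f : R) : ℝ := ∑ i ∈ Finset.range (L + 1),
  (-1 : ℝ) ^ (l + i) * (l.choose i : ℝ) * yc i (L - i) f

private theorem ee_add (L l : ℕ) (f g : R) : ee L l (f + g) = ee L l f + ee L l g := by
  unfold ee
  rw [← Finset.sum_add_distrib]
  refine Finset.sum_congr rfl fun i _ => ?_
  rw [map_add]
  ring

private theorem ee_zero (L l : ℕ) : ee L l 0 = 0 := by
  unfold ee
  apply Finset.sum_eq_zero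
  intro i _
  rw [map_zero, mul_zero]

private theorem ee_neg (L l : ℕ) (f : R) : ee L l (-f) = -ee L l f := by
  unfold ee
  rw [← Finset.sum_neg_distrib]
  refine Finset.sum_congr rfl fun i _ => ?_
  rw [map_neg]
  ring

private theorem ee_bb (L l₀ l : ℕ) (hl : l ≤ L) (κ : ℝ) (f : R)
    (h : ∀ i, i ≤ L → yc i (L - i) f = κ * bb l₀ (L - l₀) i) :
    ee L l f = κ * ((if l = l₀ then 1 else 0) + (if l = L - l₀ then 1 else 0)) := by
  unfold ee
  rw [← orth L l l₀ hl, ← orth L l (L - l₀) hl, ← Finset.sum_add_distrib, Finset.mul_sum]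
  refine Finset.sum_congr rfl fun i hi => ?_
  simp only [Finset.mem_range] at hi
  rw [h i (by omega)]
  unfold bb
  ring

private theorem ee_sym (L l₀ l : ℕ) (hl₀ : l₀ ≤ L) (hl : l ≤ L) (κ : ℝ) (f : R)
    (h : ∀ i, i ≤ L → yc i (L - i) f = κ * bb l₀ (L - l₀) i) :
    ee L l f = ee L (L - l) f := by
  rw [ee_bb L l₀ l hl κ f h, ee_bb L l₀ (L - l) (Nat.sub_le _ _) κ f h]
  have h1 : (L - l = l₀) ↔ (l = L - l₀) := by omega
  have h2 : (L - l = L - l₀) ↔ (l = l₀) := by omega
  simp only [h1, h2]
  ring

private theorem low_F1 (n : ℕ) (f : R) (hf : IsH n 0 f) (hX : f ∈ Rpl) : f ∈ F 1 := by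
  have h1 : f = f (pw n) • bw (pw n) := by
    ext w
    rw [bw, smul_single, smul_eq_mul, mul_one, single_apply]
    split_ifs with h
    · rw [h]
    · by_contra h2
      have h3 := hf w h2
      apply h
      rw [eq_pw w h3.2, h3.1]
  rcases Nat.eq_zero_or_pos n with hn | hn
  · subst hn
    have h2 : f (pw 0) = 0 := (mem_Rpl f).1 hX
    rw [h1, h2, zero_smul]
    exact (F 1).zero_mem
  · rw [h1]
    refine (F 1).smul_mem _ ?_
    have h2 : bw (pw n) ∈ F n := by
      have h3 : bw (pw n) ∈ LinearMap.range (rm (pw n)) := ⟨bw [], by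
        show mu (bw []) (bw (pw n)) = bw (pw n)
        rw [nil_mu]⟩
      exact (le_iSup₂_of_le n (le_refl n) (le_refl _) : LinearMap.range (rm (pw n)) ≤ F n) h3
    exact F_anti 1 n hn h2

private theorem ee_sum {ι : Type*} (L l : ℕ) (s : Finset ι) (f : ι → R) :
    ee L l (∑ i ∈ s, f i) = ∑ i ∈ s, ee L l (f i) := by
  classical
  induction s using Finset.induction_on with
  | empty => rw [Finset.sum_empty, Finset.sum_empty, ee_zero]
  | insert a s ha ih => rw [Finset.sum_insert ha, Finset.sum_insert ha, ee_add, ih]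

private theorem idx_zero (i : Ix) (h : rI i = 0) : i = (false, []) := by
  obtain ⟨b, l⟩ := i
  have h1 : l.length + b.toNat = 0 := h
  cases b with
  | true => simp at h1
  | false =>
    cases l with
    | nil => rfl
    | cons a l => simp at h1

private theorem idx_one (i : Ix) (h : rI i = 1) : (∃ w, i = (false, [w])) ∨ i = (true, []) := by
  obtain ⟨b, l⟩ := i
  have h1 : l.length + b.toNat = 1 := h
  cases b with
  | true =>
    right
    cases l with
    | nil => rfl
    | cons a l => simp at h1
  | false =>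
    left
    match l, h1 with
    | [a], _ => exact ⟨a, rfl⟩
    | [], h1 => simp at h1
    | a :: b :: l, h1 => simp at h1

private theorem D1_f (w : Wd) : D1 (false, [w]) = single (false, []) (bw (true :: w)) := by
  have h1 : D1 (false, [w]) = single (false, []) (bw (true :: w)) - emb false (mg0 [w]) := rfl
  have h2 : mg0 [w] = 0 := rfl
  rw [h1, h2, emb_zero]
  exact sub_zero (single (false, []) (bw (true :: w)) : Ph)

private theorem D1_t : D1 (true, []) = single (false, []) (bw [false]) := by
  have h1 : D1 (true, []) = emb false (uo0 []) +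
      single (false, []) ((-1 : ℝ) ^ npL [] • bw [false]) - dB true [] := rfl
  have h2 : uo0 [] = 0 := rfl
  have h3 : dB true [] = 0 := rfl
  have h4 : npL [] = 0 := rfl
  rw [h1, h2, h3, h4, emb_zero, pow_zero, one_smul]
  exact (sub_zero (0 + single (false, []) (bw [false]) : Ph)).trans
    (zero_add (single (false, []) (bw [false]) : Ph))

private theorem D_sub' (x y : Ph) : D (x - y) = D x - D y := map_sub D x y

private theorem D_f (w : Wd) (v : R) :
    D (single (false, [w]) v) = single (false, []) (mu (bw (true :: w)) v) := by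
  rw [D_single, D1_f, rmP_single]

private theorem D_t (v : R) :
    D (single (true, []) v) = single (false, []) (mu (bw [false]) v) := by
  rw [D_single, D1_t, rmP_single]

/-- `D` of an element of degree zero vanishes off the empty list -/
private theorem off_zero (n k : ℕ) (x : Ph) (hx : IsHP 1 n k x) (i : Ix) (hi : i ≠ (false, [])) :
    D x i = 0 := by
  ext w
  by_contra h
  have h1 := (D_IsHP 1 n k x hx i w h).1
  exact hi (idx_zero i (by omega))

private theorem Dx_IsH (n k : ℕ) (x : Ph) (hx : IsHP 1 n k x) : IsH n k (D x (false, [])) := by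
  intro w hw
  have h1 := D_IsHP 1 n k x hx (false, []) w hw
  have h2 : nI (false, []) = 0 := rfl
  have h3 : kI (false, []) = 0 := rfl
  rw [h2, h3, zero_add, zero_add] at h1
  exact h1.2

/-- each term of `D v` is symmetric -/
private theorem term_sym (L : ℕ) (v : Ph) (hv : IsHP 1 (2 * L) 2 v) (hvX : ∀ i, v i ∈ Rpl)
    (l : ℕ) (hl : l ≤ L) (i : Ix) :
    ee L l (mu (D1 i (false, [])) (v i)) = ee L (L - l) (mu (D1 i (false, [])) (v i)) := by
  by_cases h0 : v i = 0
  · rw [h0, map_zero, ee_zero, ee_zero]
  obtain ⟨h1, h2, h3, h4⟩ := IsHP_coeff 1 (2 * L) 2 v hv i h0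
  rcases idx_one i h1 with ⟨w, rfl⟩ | rfl
  · rw [D1_f, single_eq_same]
    have hn : nI (false, [w]) = np w + 1 := by simp [nI, npL]
    have hk : kI (false, [w]) = nz w := by simp [kI, nzL]
    rw [hn] at h2 h4
    rw [hk] at h3 h4
    have hw : IsH (np w + 1) (nz w) (bw (true :: w)) := by
      have h5 := IsH_bw (true :: w)
      have h6 : np (true :: w) = np w + 1 := by simp [np]
      have h7 : nz (true :: w) = nz w := by simp [nz]
      rwa [h6, h7] at h5
    have hcases : nz w = 0 ∨ nz w = 1 ∨ nz w = 2 := by omega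
    rcases hcases with hz | hz | hz
    · -- pure block
      have h5 : w = pw (np w) := eq_pw w hz
      have h6 : true :: w = pw (np w + 1) := by
        conv_lhs => rw [h5]
        rfl
      rw [h6]
      have h7 : ∀ i, i ≤ L → yc i (L - i) (mu (bw (pw (np w + 1))) (v (false, [w]))) =
          0 * bb l (L - l) i := by
        intro i _
        rw [hz] at h4
        rw [yc_pa i (L - i) (np w + 1) _ (by omega) _ h4, zero_mul]
      exact ee_sym L l l hl hl 0 _ h7
    · -- one letter z
      rw [hz] at h4 hw
      have h5 : v (false, [w]) - xc (2 * L - (np w + 1)) (v (false, [w])) •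
          bw (xw (2 * L - (np w + 1))) ∈ F 1 := R1_decomp _ _ h4
      obtain ⟨f, hf⟩ : ∃ f, f = v (false, [w]) - xc (2 * L - (np w + 1)) (v (false, [w])) •
          bw (xw (2 * L - (np w + 1))) := ⟨_, rfl⟩
      obtain ⟨κ, hκ⟩ : ∃ κ, κ = xc (2 * L - (np w + 1)) (v (false, [w])) := ⟨_, rfl⟩
      rw [← hf] at h5
      rw [← hκ] at hf
      have h6 : v (false, [w]) = κ • bw (xw (2 * L - (np w + 1))) + f := by
        rw [hf]
        abel
      rw [h6, map_add, map_smul]
      have h8 : mu (bw (true :: w)) f ∈ F 1 := (IsLI_F 1).mul_mem _ _ h5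
      rcases Nat.even_or_odd (np w + 1) with he | ho
      · obtain ⟨a, ha⟩ := he
        have e1 : np w + 1 = 2 * a := by omega
        have e2 : 2 * L - (np w + 1) = 2 * (L - a) := by omega
        rw [e1] at hw
        have h9 : ∀ i, i ≤ L → yc i (L - i) (κ • mu (bw (true :: w))
            (bw (xw (2 * L - (np w + 1)))) + mu (bw (true :: w)) f) =
            (κ * xc (2 * a) (bw (true :: w))) * bb a (L - a) i := by
          intro i hi
          rw [map_add, map_smul, yc_F1 i (L - i) _ h8, add_zero, e2]
          have h10 := yc_prod a (L - a) i (by omega) (bw (true :: w)) hw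
          have e3 : a + (L - a) - i = L - i := by omega
          rw [e3] at h10
          rw [h10, smul_eq_mul]
          ring
        exact ee_sym L a l (by omega) hl _ _ h9
      · obtain ⟨a, ha⟩ := ho
        have e1 : np w + 1 = 2 * a + 1 := by omega
        have e2 : 2 * L - (np w + 1) = 2 * (L - a - 1) + 1 := by omega
        rw [e1] at hw
        have h9 : ∀ i, i ≤ L → yc i (L - i) (κ • mu (bw (true :: w))
            (bw (xw (2 * L - (np w + 1)))) + mu (bw (true :: w)) f) =
            0 * bb l (L - l) i := by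
          intro i hi
          rw [map_add, map_smul, yc_F1 i (L - i) _ h8, add_zero, e2]
          have h10 := yc_prod_odd a (L - a - 1) i (by omega) (bw (true :: w)) hw
          have e3 : a + (L - a - 1) + 1 - i = L - i := by omega
          rw [e3] at h10
          rw [h10, smul_zero, zero_mul]
        exact ee_sym L l l hl hl _ _ h9
    · -- two letters z
      have h5 : v (false, [w]) ∈ F 1 := by
        rw [hz] at h4
        exact low_F1 _ _ h4 (hvX _)
      have h8 : mu (bw (true :: w)) (v (false, [w])) ∈ F 1 := (IsLI_F 1).mul_mem _ _ h5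
      have h9 : ∀ i, i ≤ L → yc i (L - i) (mu (bw (true :: w)) (v (false, [w]))) =
          0 * bb l (L - l) i := by
        intro i _
        rw [yc_F1 i (L - i) _ h8, zero_mul]
      exact ee_sym L l l hl hl _ _ h9
  · rw [D1_t, single_eq_same]
    have hn : nI (true, []) = 0 := rfl
    have hk : kI (true, []) = 1 := rfl
    rw [hn, hk] at h4
    have h4' : IsH (2 * L) 1 (v (true, [])) := h4
    have h5 : v (true, []) - xc (2 * L) (v (true, [])) • bw (xw (2 * L)) ∈ F 1 :=
      R1_decomp _ _ h4'
    obtain ⟨f, hf⟩ : ∃ f, f = v (true, []) - xc (2 * L) (v (true, [])) • bw (xw (2 * L)) :=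
      ⟨_, rfl⟩
    obtain ⟨κ, hκ⟩ : ∃ κ, κ = xc (2 * L) (v (true, [])) := ⟨_, rfl⟩
    rw [← hf] at h5
    rw [← hκ] at hf
    have h6 : v (true, []) = κ • bw (xw (2 * L)) + f := by
      rw [hf]
      abel
    rw [h6, map_add, map_smul]
    have h8 : mu (bw [false]) f ∈ F 1 := (IsLI_F 1).mul_mem _ _ h5
    have hw : IsH (2 * 0) 1 (bw [false]) := IsH_bw [false]
    have h9 : ∀ i, i ≤ L → yc i (L - i) (κ • mu (bw [false]) (bw (xw (2 * L))) +
        mu (bw [false]) f) = (κ * xc (2 * 0) (bw [false])) * bb 0 (L - 0) i := by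
      intro i hi
      rw [map_add, map_smul, yc_F1 i (L - i) _ h8, add_zero]
      have h10 := yc_prod 0 L i (by omega) (bw [false]) hw
      rw [Nat.zero_add] at h10
      rw [h10, smul_eq_mul, Nat.sub_zero]
      ring
    exact ee_sym L 0 l (Nat.zero_le _) hl _ _ h9

theorem eta_inv (L i : ℕ) (hi : i ≤ L) (c : Ph0) : yc i (L - i) (D (iot c) (false, [])) =
    ∑ l ∈ Finset.range (L + 1), eta L l c * (i.choose l : ℝ) := by
  unfold eta
  exact (binv L i hi fun i => yc i (L - i) (D (iot c) (false, []))).symm

theorem h1_two (L : ℕ) (hL : 1 ≤ L) (c : Ph0) (hc : IsH0 1 (2 * L) 2 c) :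
    (∃ e, IsH0 2 (2 * L) 2 e ∧ D0 e = c) ↔ ∀ l, l ≤ L → eta L l c = eta L (L - l) c := by
  have heta : ∀ l, eta L l c = ee L l (D (iot c) (false, [])) := fun l => rfl
  have hic : IsHP 1 (2 * L) 2 (iot c) := iot_IsHP 1 (2 * L) 2 c hc
  constructor
  · rintro ⟨e, he, rfl⟩ l hl
    rw [heta, heta]
    -- `v = D (iot e) - iot (D0 e)`
    obtain ⟨v, hv⟩ : ∃ v, v = D (iot e) - iot (D0 e) := ⟨_, rfl⟩
    have hvX : ∀ i, v i ∈ Rpl := by
      intro i
      rw [hv, Finsupp.sub_apply]
      exact D_iot e i
    have hvH : IsHP 1 (2 * L) 2 v := by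
      rw [hv]
      exact IsHP_sub _ _ _ _ _ (IsHP_D 1 _ _ _ (iot_IsHP _ _ _ e he)) hic
    have h1 : D (iot (D0 e)) = -D v := by
      rw [hv, D_sub', D_D]
      exact (neg_neg (D (iot (D0 e)))).symm.trans (congrArg Neg.neg (zero_sub (D (iot (D0 e)))).symm)
    have h2 : D v (false, []) = ∑ i ∈ v.support, mu (D1 i (false, [])) (v i) := by
      rw [D_apply]
      rfl
    have h3 : D (iot (D0 e)) (false, []) = -D v (false, []) := by
      rw [h1, Finsupp.neg_apply]
    rw [h3, ee_neg, ee_neg, h2, ee_sum, ee_sum]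
    congr 1
    exact Finset.sum_congr rfl fun i _ => term_sym L v hvH hvX l hl i
  · intro hsym
    obtain ⟨TT, hTT⟩ : ∃ TT : ℕ → Ph, TT = fun l => if l = 0 then
        single (true, []) (bw (xw (2 * L))) else
        single (false, [pw (2 * l - 1) ++ [false]]) (bw (xw (2 * (L - l)))) := ⟨_, rfl⟩
    have TD : ∀ l, l ≤ L → D (TT l) =
        single (false, []) (mu (bw (pw (2 * l) ++ [false])) (bw (xw (2 * (L - l))))) := by
      intro l _
      rw [hTT]
      by_cases h0 : l = 0
      · subst h0
        simp only [if_true]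
        rw [D_t]
        rfl
      · simp only [if_neg h0]
        rw [D_f]
        have h1 : true :: (pw (2 * l - 1) ++ [false]) = pw (2 * l) ++ [false] := by
          have h2 : 2 * l = (2 * l - 1) + 1 := by omega
          conv_rhs => rw [h2]
          rfl
        rw [h1]
    have TX : ∀ l i, TT l i ∈ Rpl := by
      intro l i
      rw [mem_Rpl, hTT]
      by_cases h0 : l = 0
      · simp only [if_pos h0]
        rw [single_apply]
        split_ifs
        · simp [bw, xw]
        · rfl
      · simp only [if_neg h0]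
        rw [single_apply]
        split_ifs
        · simp [bw, xw]
        · rfl
    have npxw : ∀ m, np (xw m) = m := fun m => by
      have := np_pw m
      simp only [xw, np, List.count_cons] at this ⊢
      simpa using this
    have nzxw : ∀ m, nz (xw m) = 1 := fun m => by
      have := nz_pw m
      simp only [xw, nz, List.count_cons] at this ⊢
      simpa using this
    have TH : ∀ l, l ≤ L → IsHP 1 (2 * L) 2 (TT l) := by
      intro l hl i w hw
      rw [hTT] at hw
      by_cases h0 : l = 0
      · simp only [if_pos h0] at hw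
        rw [single_apply] at hw
        split_ifs at hw with h1
        · subst h1
          rw [bw, single_apply] at hw
          split_ifs at hw with h2
          · subst h2
            refine ⟨rfl, ?_, ?_⟩
            · rw [npxw]
              show 0 + 2 * L = 2 * L
              omega
            · rw [nzxw]
              rfl
          · exact absurd rfl hw
        · exact absurd rfl hw
      · simp only [if_neg h0] at hw
        rw [single_apply] at hw
        split_ifs at hw with h1
        · subst h1
          rw [bw, single_apply] at hw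
          split_ifs at hw with h2
          · subst h2
            refine ⟨rfl, ?_, ?_⟩
            · rw [npxw]
              have h3 : nI (false, [pw (2 * l - 1) ++ [false]]) = 2 * l - 1 + 1 := by
                have := np_pw (2 * l - 1)
                simp only [np] at this
                simp [nI, npL, np, this]
              rw [h3]
              omega
            · rw [nzxw]
              have h3 : kI (false, [pw (2 * l - 1) ++ [false]]) = 1 := by
                have := nz_pw (2 * l - 1)
                simp only [nz] at this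
                simp [kI, nzL, nz, this]
              rw [h3]
          · exact absurd rfl hw
        · exact absurd rfl hw
    obtain ⟨t, ht⟩ : ∃ t : Ph, t = ∑ l ∈ Finset.range (L + 1),
        (eta L l c / 2 * (-1 : ℝ) ^ l) • TT l := ⟨_, rfl⟩
    have htX : ∀ i, t i ∈ Rpl := by
      intro i
      rw [ht, Finsupp.finsetSum_apply]
      exact Submodule.sum_mem _ fun l _ => Submodule.smul_mem _ _ (TX l i)
    have htH : IsHP 1 (2 * L) 2 t := by
      intro i w hw
      rw [ht, Finsupp.finsetSum_apply, Finsupp.finsetSum_apply] at hw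
      obtain ⟨l, hl, hl2⟩ := Finset.exists_ne_zero_of_sum_ne_zero hw
      refine TH l (by simpa [Nat.lt_succ_iff] using hl) i w ?_
      intro h0
      apply hl2
      rw [Finsupp.smul_apply, Finsupp.smul_apply, h0, smul_zero]
    have hDt : ∀ i, i ≤ L → yc i (L - i) (D t (false, [])) =
        yc i (L - i) (D (iot c) (false, [])) := by
      intro i hi
      rw [ht, map_sum, Finsupp.finsetSum_apply, map_sum]
      have h1 : ∀ l ∈ Finset.range (L + 1), yc i (L - i)
          ((D ((eta L l c / 2 * (-1 : ℝ) ^ l) • TT l)) (false, [])) =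
          eta L l c / 2 * (i.choose l : ℝ) + eta L l c / 2 * (i.choose (L - l) : ℝ) := by
        intro l hl
        have hl' : l ≤ L := by simpa [Nat.lt_succ_iff] using hl
        rw [map_smul, Finsupp.smul_apply, map_smul, TD l hl', single_eq_same]
        have h2 := prod_zp l (L - l) i (by omega)
        have e3 : l + (L - l) - i = L - i := by omega
        rw [e3] at h2
        rw [h2, smul_eq_mul]
        have h3 : (-1 : ℝ) ^ l * (-1 : ℝ) ^ l = 1 := by
          rw [← mul_pow]
          norm_num
        unfold bb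
        calc eta L l c / 2 * (-1 : ℝ) ^ l * ((-1 : ℝ) ^ l *
              ((i.choose l : ℝ) + (i.choose (L - l) : ℝ)))
            = eta L l c / 2 * ((-1 : ℝ) ^ l * (-1 : ℝ) ^ l) *
              ((i.choose l : ℝ) + (i.choose (L - l) : ℝ)) := by ring
          _ = _ := by rw [h3]; ring
      rw [Finset.sum_congr rfl h1, Finset.sum_add_distrib]
      have h2 : ∑ l ∈ Finset.range (L + 1), eta L l c / 2 * (i.choose (L - l) : ℝ) =
          ∑ l ∈ Finset.range (L + 1), eta L l c / 2 * (i.choose l : ℝ) := by
        rw [← Finset.sum_range_reflect (fun l => eta L l c / 2 * (i.choose l : ℝ)) (L + 1)]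
        refine Finset.sum_congr rfl fun l hl => ?_
        have hl' : l ≤ L := by simpa [Nat.lt_succ_iff] using hl
        have e : L + 1 - 1 - l = L - l := by omega
        simp only [e]
        rw [hsym l hl']
      rw [h2, ← Finset.sum_add_distrib, eta_inv L i hi c]
      refine Finset.sum_congr rfl fun l _ => ?_
      ring
    have hfH : IsH (2 * L) 2 (D (iot c) (false, []) - D t (false, [])) := by
      have h1 := Dx_IsH (2 * L) 2 (iot c - t) (IsHP_sub _ _ _ _ _ hic htH)
      rwa [D_sub', Finsupp.sub_apply] at h1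
    obtain ⟨b, hb1, hb2⟩ := (yc_zero_iff L _ hfH).1 (by
      intro i hi
      rw [map_sub, hDt i hi, sub_self])
    obtain ⟨x, hx⟩ : ∃ x : Ph, x = iot c - t - single (false, [[]]) b := ⟨_, rfl⟩
    have hsb : IsHP 1 (2 * L) 2 (single (false, [[]]) b) := by
      intro i w hw
      rw [single_apply] at hw
      split_ifs at hw with h1
      · subst h1
        have h2 := hb1 w hw
        refine ⟨rfl, ?_, ?_⟩
        · have h3 : nI (false, [[]]) = 1 := rfl
          rw [h3]
          omega
        · have h3 : kI (false, [[]]) = 0 := rfl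
          rw [h3]
          omega
      · exact absurd rfl hw
    have hxH : IsHP 1 (2 * L) 2 x := by
      rw [hx]
      exact IsHP_sub _ _ _ _ _ (IsHP_sub _ _ _ _ _ hic htH) hsb
    have hDx : ∀ i, D x i ∈ F 1 := by
      intro i
      by_cases hi : i = (false, [])
      · subst hi
        rw [hx, D_sub', D_sub', D_f, Finsupp.sub_apply, Finsupp.sub_apply, single_eq_same]
        exact hb2
      · rw [off_zero (2 * L) 2 x hxH i hi]
        exact (F 1).zero_mem
    obtain ⟨y, z, hy1, -, -, hz2, hyz⟩ := Ac_top_F1 2 (by norm_num) 1 (2 * L) x hxH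
      (fun _ => Submodule.mem_top) hDx
    refine ⟨y.mapRange (fun f => f []) rfl, ?_, ?_⟩
    · intro i hi
      rw [mapRange_apply] at hi
      have h1 := hy1 i [] hi
      exact ⟨h1.1, h1.2.1, h1.2.2⟩
    · ext i
      rw [← D_nil]
      have h1 : D y i [] = x i [] - z i [] := by
        rw [hyz, Finsupp.add_apply, Finsupp.add_apply, add_sub_cancel_right]
      have h2 : z i [] = 0 := (mem_Rpl _).1 (F_le_Rpl 1 (le_refl 1) (hz2 i))
      have h3 : t i [] = 0 := (mem_Rpl _).1 (htX i)
      have h4 : (single (false, [[]]) b : Ph) i [] = 0 := by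
        rw [single_apply]
        split_ifs
        · by_contra h5
          have h6 := (hb1 [] h5).2
          exact absurd h6 (by decide)
        · rfl
      have h5 : iot c i [] = c i := by
        rw [iot_apply, Finsupp.smul_apply, bw, single_eq_same, smul_eq_mul, mul_one]
      rw [h1, h2, hx, Finsupp.sub_apply, Finsupp.sub_apply, Finsupp.sub_apply, Finsupp.sub_apply,
        h3, h4, h5, sub_zero, sub_zero, sub_zero]

end BrV
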