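import Pool.Agent.Lib.BrV.SN2
import Pool.Agent.Lib.BrV.SW2b

/-!
# BrV.SH3: `H_3(Φ0)_{2L,2}` (3.4)

`X = F 1 ⊔ RG 2`, `σ_l(c) = sgl l m c = th l (xco (2m) (D (iot c)))`, `l + m + 1 = L`.
* `obs`: for `y ∈ Φ(Rpl)_{2,2L,2}` with `D y ∈ Φ(X)` and `i + j + 1 = L`: `yc i j (D y (false, [[true]])) = ∑_{m < L} th (L-1-m) (xco (2m) y) * bb (L-1-m) m i`.  Proof: `y = ∑_j rmP (bw (xw j)) (iot c_j) + y''`, `y'' ∈ Φ(X)` (`xco_decomp`); `D y'' (false, [[true]]) ∈ p*X + F 1`
  (`pure_one_conv` with `X`, `Y = F 1`, `k = 2`; `h2` from `P2_le`, the `b` is in `RG 2`), so `yc` of it is `0` (`yc_pa`, `yc_F1`).  `D (rmP x_j (iot c_j)) (false, [[true]]) = mu (u_j) (bw (xw j))`, `u_j = D (iot c_j) (false, [[true]]) ∈ R_(2L-2-j, 1)`: `j = 2m`: `yc_prod`, `xc (2l) u_j = th l c_j`;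
  `j` odd: `yc_prod_odd`.
* `s3_anti`: `D0 c = 0`, `y = D (iot c) ∈ Φ(Rpl)` (`D_iot`), `D y = 0`: `∑_m σ_(L-1-m) (binom(i, L-1-m) + binom(i, m)) = 0` for all `i < L`.  The vectors `(binom(i,m))_{i<L}`, `m < L`, are independent (unitriangular), so `σ_l + σ_{L-1-l} = 0`.
* `s3_inj`: `σ(c) = 0`, `D0 c = 0`: `y = D (iot c)`, `n2_red`: `y = D y' + y''`, `y'' ∈ Φ(X)_2`, `D y'' = 0`; `Ac_pure` (`X`, `F 1`, `k = 2`, `r = 2`; as in Half1): `y'' = D y3 + f`, `f ∈ Φ(F 1)`.  `D (iot c - y' - y3) = f`; `Ac_top_F1 2`: `iot c - y' - y3 = D u + f'`; coefficient at `[]`: `c = D0 (u [])` (`D_nil`).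
  Conversely `c = D0 e`: `D (iot c) = - D v`, `v = D (iot e) - iot c ∈ Φ(Rpl)_3` (`D_iot`): `n2_conv`.
* `s3_surj`: given `v : ℕ → ℝ` with `v l + v m = 0` for `l + m + 1 = L`: let `mu_l` be the cycles of `mu_cyc` (`choose`), `y0 = ∑_{l < L} (v l * (-1)^l) • rmP (bw (xw (2 * (L-1-l)))) (iot mu_l)`: `y0 ∈ Φ(Rpl)_{2,2L,2}`.
  `xco (2m) y0 = (v l * (-1)^l) • mu_l` (`l = L-1-m`), `xco j y0 = 0` for odd `j` (the coefficient of `y0` at `i` is `∑_l (..) mu_l i • bw (xw (2(L-1-l)))`, `xc_xw`, `xc_other`).  So by `xco_D` (`D0 mu_l = 0`; for odd `j = 2m+1` the last clause of `mu_cyc`) `xco j (D y0) i = 0` for all `i, j`,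
  and `D y0 ∈ Φ(Rpl)_{1,2L,2}` (`D_mem`, `IsHP_D`), so `D y0 i ∈ F 1 ⊔ RG 2 = X` (`xco_decomp`).
  `th l (xco (2m) y0) = v l`; `obs`: `yc i j (D y0 (false, [[true]])) = ∑_l v_l bb l (L-1-l) i = 0` (`l ↔ L-1-l`), so `D y0 (false,[[true]]) - p*b ∈ F 1` (`yc_zero_iff` with `L - 1`; for `L = 0` everything is empty: there is no index of degree `(3, 0, 2)`, `c = 0`), `pure_one` (`X`, `F 1`, `k = 2`, `h2` from `P2_le`) for `D y0 ∈ Φ(X)_1`:
  `D y0 = D b + f`, `b ∈ Φ(X)_2`, `f ∈ Φ(F 1)_1`.  `D f = 0`: `Ac_top_bot`: `f = D g`, `Ac_top_F1`: `g = D g' + g''`, `g'' ∈ Φ(F 1)_2`, so `f = D g''`.  `y2 = y0 - b - g''` is a cycle in `Φ(Rpl)_2`, and `xco j` of `b`, `g''` is `0` (`X = F 1 ⊔ RG 2`; `xc` vanishes on words with `nz ≠ 1`), so `th l (xco (2m) y2) = v l`.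
  `Ac_top_bot`: `y2 = D c1`, `c1` of degree `(3,2L,2)`; `c i = c1 i []`: `D0 c = 0` (`D_nil`, `y2 ∈ Φ(Rpl)`), and `D (iot c) = y2 - D (c1 - iot c)`, `c1 - iot c ∈ Φ(Rpl)_3`: `n2_conv`: `sgl l m c = v l`.
-/

namespace BrV

open Finsupp

private theorem dsub (x y : Ph) : D (x - y) = D x - D y := map_sub D x y

private theorem dadd (x y : Ph) : D (x + y) = D x + D y := map_add D x y

private theorem xsub (j : ℕ) (x y : Ph) : xco j (x - y) = xco j x - xco j y :=
  map_sub (xco j) x y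

private theorem ssub (x y : Ph) (i : Ix) : (x - y) i = x i - y i := rfl

private theorem XLI : IsLI (F 1 ⊔ RG 2) := IsLI_sup _ _ (IsLI_F 1) (IsLI_RG 2)

private theorem X_le : F 1 ⊔ RG 2 ≤ Rpl :=
  sup_le (F_le_Rpl 1 le_rfl) (RG_le_Rpl 2 (by norm_num))

private theorem RG_of_IsH (n : ℕ) (f : R) (h : IsH n 2 f) : f ∈ RG 2 := by
  rw [mem_RG]
  intro w hw
  exact (h w hw).2.ge

private theorem hlow : ∀ (n i : ℕ) (f : R), i < 2 → IsH n i f → f ∈ F 1 ⊔ RG 2 → f ∈ F 1 := by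
  intro m i f hi hf hmem
  obtain ⟨g, hg, h, hh, hgh⟩ := Submodule.mem_sup.1 hmem
  have e1 : cmp m i f = cmp m i g + cmp m i h := by
    rw [← hgh]
    exact Finsupp.filter_add
  have e2 : cmp m i h = 0 := by
    ext w
    by_cases hw : h w = 0
    · simp [cmp, Finsupp.filter_apply, hw]
    · have h3 := (mem_RG 2 h).1 hh w hw
      have h4 : ¬ (np w = m ∧ nz w = i) := by
        rintro ⟨_, h5⟩
        omega
      simp [cmp, h4]
  have e3 : f = cmp m i g := by
    rw [e2, add_zero, cmp_of_IsH m i f hf] at e1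
    exact e1
  rw [e3]
  exact (IsLI_F 1).cmp_mem m i g hg

private theorem hex : Ex (F 1 ⊔ RG 2) (F 1) 2 := Ex_sup (F 1) 2 (Ex_top_F1 2 (by norm_num))

private theorem hpp : ∀ (n : ℕ) (a : R), IsH n 2 a → a ∈ F 1 ⊔ RG 2 →
    ∃ b ∈ F 1 ⊔ RG 2, IsH (n + 1) 2 b ∧ mu (bw (pw 2)) a - mu (bw [true]) b ∈ F 1 := by
  intro n a ha _
  obtain ⟨g, hg, h⟩ := P2_le n a ha
  exact ⟨g, Submodule.mem_sup_right (RG_of_IsH _ _ hg), hg, h⟩

private theorem xc_RG (m : ℕ) (f : R) (h : f ∈ RG 2) : xc m f = 0 := by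
  have hle : RG 2 ≤ LinearMap.ker (xc m) := by
    conv_lhs => unfold RG
    rw [Finsupp.supported_eq_span_single, Submodule.span_le]
    rintro _ ⟨w, hw, rfl⟩
    show xc m (bw w) = 0
    have h2 : 2 ≤ nz w := hw
    exact xc_other m _ _ _ (IsH_bw w) (Or.inr (by omega))
  exact hle h

private theorem xc_X (m : ℕ) (f : R) (h : f ∈ F 1 ⊔ RG 2) : xc m f = 0 := by
  obtain ⟨g, hg, k, hk, rfl⟩ := Submodule.mem_sup.1 h
  rw [map_add, xc_F1 m g hg, xc_RG m k hk, add_zero]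

private theorem xco_ap (j : ℕ) (x : Ph) (i : Ix) : xco j x i = xc j (x i) := rfl

private theorem xco_X (j : ℕ) (x : Ph) (h : ∀ i, x i ∈ F 1 ⊔ RG 2) : xco j x = 0 := by
  ext i
  rw [xco_ap, xc_X j _ (h i)]
  rfl

private theorem IsHP_rmP (r n k a b : ℕ) (c : R) (hc : IsH a b c) (x : Ph)
    (hx : IsHP r n k x) : IsHP r (n + a) (k + b) (rmP c x) := by
  intro i w hw
  rw [rmP_apply] at hw
  have hne : x i ≠ 0 := by
    intro h0
    rw [h0, map_zero, LinearMap.zero_apply] at hw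
    exact hw rfl
  obtain ⟨h1, h2, h3, h4⟩ := IsHP_coeff _ _ _ _ hx i hne
  have := IsH_mu _ _ _ _ _ _ h4 hc w hw
  omega

private theorem IsHP_smul' (r n k : ℕ) (a : ℝ) (x : Ph) (hx : IsHP r n k x) :
    IsHP r n k (a • x) := by
  intro i w h
  refine hx i w ?_
  intro h0
  apply h
  show a * x i w = 0
  rw [h0, mul_zero]

private theorem IsHP_sum' (r n k N : ℕ) (f : ℕ → Ph) (h : ∀ j, j < N → IsHP r n k (f j)) :
    IsHP r n k (∑ j ∈ Finset.range N, f j) := by
  induction N with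
  | zero =>
    rw [Finset.sum_range_zero]
    intro i w h
    exact absurd rfl h
  | succ N ih =>
    rw [Finset.sum_range_succ]
    exact IsHP_add _ _ _ _ _ (ih fun j hj => h j (by omega)) (h N (by omega))

private theorem IsH_xw (j : ℕ) : IsH j 1 (bw (xw j)) := by
  have h := IsH_bw (xw j)
  have h1 : np (xw j) = j := by
    have := np_pw j
    unfold np at *
    unfold xw
    rw [List.count_cons_of_ne (by decide)]
    exact this
  have h2 : nz (xw j) = 1 := by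
    have := nz_pw j
    unfold nz at *
    unfold xw
    rw [List.count_cons_self, this]
  rwa [h1, h2] at h

private noncomputable def bas (N : ℕ) (y : Ph) : Ph :=
  ∑ j ∈ Finset.range (N + 1), rmP (bw (xw j)) (iot (xco j y))

private theorem rmiot (v : R) (c : Ph0) (i : Ix) : rmP v (iot c) i = c i • v := by
  rw [rmP_apply, iot_apply, map_smul, LinearMap.smul_apply, nil_mu]

private theorem bas_ap (N : ℕ) (y : Ph) (i : Ix) :
    bas N y i = ∑ j ∈ Finset.range (N + 1), xco j y i • bw (xw j) := by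
  unfold bas
  rw [Finsupp.finsetSum_apply]
  exact Finset.sum_congr rfl fun j _ => rmiot _ _ _

private theorem xco_H (r n j : ℕ) (y : Ph) (hy : IsHP r n 2 y) (hj : j ≤ n) :
    IsH0 r (n - j) 1 (xco j y) := by
  intro i hi
  have := xco_IsH0 r n 1 j y hy i hi
  omega

private theorem bas_IsHP (r n : ℕ) (y : Ph) (hy : IsHP r n 2 y) : IsHP r n 2 (bas n y) := by
  refine IsHP_sum' _ _ _ _ _ ?_
  intro j hj
  have h1 := IsHP_rmP r (n - j) 1 j 1 (bw (xw j)) (IsH_xw j) (iot (xco j y))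
    (iot_IsHP _ _ _ _ (xco_H r n j y hy (by omega)))
  have h2 : n - j + j = n := by omega
  rwa [h2] at h1

private theorem ksum (L : ℕ) (g : ℕ → ℝ) : ∑ j ∈ Finset.range (2 * L), g j =
    ∑ m ∈ Finset.range L, (g (2 * m) + g (2 * m + 1)) := by
  induction L with
  | zero => rfl
  | succ L ih =>
    have e : 2 * (L + 1) = 2 * L + 1 + 1 := by ring
    rw [e, Finset.sum_range_succ, Finset.sum_range_succ, ih, Finset.sum_range_succ]
    ring

private theorem cf_H (n : ℕ) (x : Ph) (hx : IsHP 1 n 1 x) :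
    IsH (n - 2) 1 (x (false, [[true]])) := by
  intro w hw
  have h := (hx (false, [[true]]) w hw).2
  have h4 : nI (false, [[true]]) = 2 := rfl
  have h5 : kI (false, [[true]]) = 0 := rfl
  rw [h4, h5] at h
  omega

private theorem cf_0 (n : ℕ) (x : Ph) (hx : IsHP 1 n 1 x) (hn : n < 2) :
    x (false, [[true]]) = 0 := by
  ext w
  by_contra hw
  have h := (hx (false, [[true]]) w hw).2
  have h4 : nI (false, [[true]]) = 2 := rfl
  rw [h4] at h
  omega

private theorem obs (L : ℕ) (y : Ph) (hy : IsHP 2 (2 * L) 2 y) (hyX : ∀ i, y i ∈ Rpl)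
    (i j : ℕ) (h : i + j + 1 = L) : yc i j (D y (false, [[true]])) =
      ∑ m ∈ Finset.range L, th (L - 1 - m) (xco (2 * m) y) * bb (L - 1 - m) m i := by
  have h1 : IsHP 2 (2 * L) 2 (y - bas (2 * L) y) :=
    IsHP_sub _ _ _ _ _ hy (bas_IsHP _ _ _ hy)
  have h2 : ∀ i, (y - bas (2 * L) y) i ∈ F 1 ⊔ RG 2 := by
    intro i
    rw [ssub, bas_ap]
    exact xco_decomp 2 (2 * L) y hy hyX i
  obtain ⟨b, hb, hb1, hb2⟩ := pure_one_conv (F 1 ⊔ RG 2) (F 1) XLI (IsLI_F 1) le_sup_left 2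
    hlow hpp (2 * L) _ h1 h2
  have h3 : yc i j (D (y - bas (2 * L) y) (false, [[true]])) = 0 := by
    have h4 := yc_F1 i j _ hb2
    have h5 : yc i j (mu (bw [true]) b) = 0 := by
      refine yc_pa i j 1 (2 * L - 3) le_rfl b ?_
      intro w hw
      have := hb1 w hw
      omega
    rw [map_sub, h5, sub_zero] at h4
    exact h4
  rw [dsub, ssub, map_sub, sub_eq_zero] at h3
  rw [h3]
  have hu : ∀ k, k ≤ 2 * L → IsHP 1 (2 * L - k) 1 (D (iot (xco k y))) := fun k hk =>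
    IsHP_D _ _ _ _ (iot_IsHP _ _ _ _ (xco_H 2 (2 * L) k y hy hk))
  have h6 : D (bas (2 * L) y) (false, [[true]]) = ∑ k ∈ Finset.range (2 * L + 1),
      mu (D (iot (xco k y)) (false, [[true]])) (bw (xw k)) := by
    unfold bas
    rw [map_sum, Finsupp.finsetSum_apply]
    refine Finset.sum_congr rfl fun k _ => ?_
    rw [D_rmP, rmP_apply]
  have h7 : yc i j (D (bas (2 * L) y) (false, [[true]])) = ∑ k ∈ Finset.range (2 * L + 1),
      yc i j (mu (D (iot (xco k y)) (false, [[true]])) (bw (xw k))) := by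
    rw [h6, map_sum]
  rw [h7, Finset.sum_range_succ, ksum]
  have h8 : D (iot (xco (2 * L) y)) (false, [[true]]) = 0 :=
    cf_0 _ _ (hu (2 * L) le_rfl) (by omega)
  rw [h8, map_zero, LinearMap.zero_apply, map_zero, add_zero]
  refine Finset.sum_congr rfl fun m hm => ?_
  have hm' : m < L := Finset.mem_range.1 hm
  have h9 : yc i j (mu (D (iot (xco (2 * m + 1) y)) (false, [[true]])) (bw (xw (2 * m + 1)))) =
      0 := by
    by_cases hm2 : m + 1 < L
    · have g1 := cf_H _ _ (hu (2 * m + 1) (by omega))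
      have e1 : 2 * L - (2 * m + 1) - 2 = 2 * (L - 2 - m) + 1 := by omega
      rw [e1] at g1
      have g2 := yc_prod_odd (L - 2 - m) m i (by omega) _ g1
      have e2 : L - 2 - m + m + 1 - i = j := by omega
      rw [e2] at g2
      exact g2
    · rw [cf_0 _ _ (hu (2 * m + 1) (by omega)) (by omega), map_zero, LinearMap.zero_apply,
        map_zero]
  have g1 := cf_H _ _ (hu (2 * m) (by omega))
  have e1 : 2 * L - 2 * m - 2 = 2 * (L - 1 - m) := by omega
  rw [e1] at g1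
  have g2 := yc_prod (L - 1 - m) m i (by omega) _ g1
  have e2 : L - 1 - m + m - i = j := by omega
  rw [e2] at g2
  rw [h9, add_zero, g2]
  rfl

private theorem tri (L : ℕ) (t : ℕ → ℝ)
    (h : ∀ i, i < L → ∑ m ∈ Finset.range L, t m * (i.choose m : ℝ) = 0) :
    ∀ i, i < L → t i = 0 := by
  intro i
  induction i using Nat.strong_induction_on with
  | _ i ih =>
    intro hi
    have h1 := h i hi
    rw [Finset.sum_eq_single i] at h1
    · rw [Nat.choose_self, Nat.cast_one, mul_one] at h1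
      exact h1
    · intro m hm hne
      rcases Nat.lt_or_ge m i with h2 | h2
      · rw [ih m h2 (by omega), zero_mul]
      · rw [Nat.choose_eq_zero_of_lt (by omega), Nat.cast_zero, mul_zero]
    · intro h2
      exact absurd (Finset.mem_range.2 hi) h2

private theorem refl_sum (L : ℕ) (g : ℕ → ℝ) :
    ∑ m ∈ Finset.range L, g (L - 1 - m) = ∑ m ∈ Finset.range L, g m :=
  Finset.sum_range_reflect g L

/-- facts about `D (iot c)` for cycles -/
private theorem cyc (r n : ℕ) (c : Ph0) (hc : IsH0 (r + 1) n 2 c) (hD : D0 c = 0) :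
    IsHP r n 2 (D (iot c)) ∧ ∀ i, D (iot c) i ∈ Rpl := by
  refine ⟨IsHP_D _ _ _ _ (iot_IsHP _ _ _ _ hc), fun i => ?_⟩
  have h := D_iot c i
  rw [hD, map_zero] at h
  have h1 : D (iot c) i - (0 : Ph) i = D (iot c) i := sub_zero _
  rwa [h1] at h

private noncomputable def thL (l : ℕ) : Ph0 →ₗ[ℝ] ℝ :=
  (xc (2 * l)).comp ((Finsupp.lapply (false, [[true]])).comp (D.comp iot))

private theorem thL_ap (l : ℕ) (c : Ph0) : th l c = thL l c := rfl

private noncomputable def nilP (x : Ph) : Ph0 := x.mapRange (fun f => f []) rfl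

private theorem nilP_ap (x : Ph) (i : Ix) : nilP x i = x i [] := rfl

private theorem nilP_H (r n k : ℕ) (x : Ph) (hx : IsHP r n k x) : IsH0 r n k (nilP x) := by
  intro i hi
  have h := hx i [] hi
  have h1 : np [] = 0 := rfl
  have h2 : nz [] = 0 := rfl
  rw [h1, h2] at h
  exact h

private theorem Rpl_nil (f : R) (h : f ∈ Rpl) : f [] = 0 := (mem_Rpl f).1 h

private theorem iot_nil (c : Ph0) (i : Ix) : iot c i [] = c i := by
  rw [iot_apply]
  show c i * (bw [] : R) [] = c i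
  have : (bw [] : R) [] = 1 := by
    unfold bw
    exact Finsupp.single_eq_same
  rw [this, mul_one]

theorem s3_anti (L l m : ℕ) (h : l + m + 1 = L) (c : Ph0) (hc : IsH0 3 (2 * L) 2 c)
    (hD : D0 c = 0) : sgl l m c + sgl m l c = 0 := by
  obtain ⟨hy, hyX⟩ := cyc 2 (2 * L) c hc hD
  have h0 : ∀ i, i < L → ∑ m ∈ Finset.range L,
      sgl (L - 1 - m) m c * bb (L - 1 - m) m i = 0 := by
    intro i hi
    have h1 := obs L (D (iot c)) hy hyX i (L - 1 - i) (by omega)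
    rw [D_D] at h1
    have h2 : yc i (L - 1 - i) ((0 : Ph) (false, [[true]])) = 0 := map_zero _
    rw [h2] at h1
    exact h1.symm
  have h1 : ∀ i, i < L → ∑ m ∈ Finset.range L,
      (sgl m (L - 1 - m) c + sgl (L - 1 - m) m c) * (i.choose m : ℝ) = 0 := by
    intro i hi
    rw [← h0 i hi]
    have h2 := refl_sum L (fun m => sgl m (L - 1 - m) c * (i.choose m : ℝ))
    have h3 : ∑ m ∈ Finset.range L, (sgl m (L - 1 - m) c + sgl (L - 1 - m) m c) *
        (i.choose m : ℝ) = ∑ m ∈ Finset.range L, sgl m (L - 1 - m) c * (i.choose m : ℝ) +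
        ∑ m ∈ Finset.range L, sgl (L - 1 - m) m c * (i.choose m : ℝ) := by
      rw [← Finset.sum_add_distrib]
      exact Finset.sum_congr rfl fun m _ => add_mul _ _ _
    rw [h3, ← h2, ← Finset.sum_add_distrib]
    refine Finset.sum_congr rfl fun m hm => ?_
    have hm' : m < L := Finset.mem_range.1 hm
    have e : L - 1 - (L - 1 - m) = m := by omega
    simp only [e]
    unfold bb
    ring
  have h2 := tri L _ h1 m (by omega)
  have e : L - 1 - m = l := by omega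
  rw [e] at h2
  rw [add_comm]
  exact h2

theorem s3_inj (L : ℕ) (c : Ph0) (hc : IsH0 3 (2 * L) 2 c) (hD : D0 c = 0) :
    (∃ e, IsH0 4 (2 * L) 2 e ∧ D0 e = c) ↔ ∀ l m, l + m + 1 = L → sgl l m c = 0 := by
  constructor
  · rintro ⟨e, he, rfl⟩ l m h
    have h1 : IsHP 3 (2 * L) 2 (iot (D0 e) - D (iot e)) :=
      IsHP_sub _ _ _ _ _ (iot_IsHP _ _ _ _ hc) (IsHP_D _ _ _ _ (iot_IsHP _ _ _ _ he))
    have h2 : ∀ i, (iot (D0 e) - D (iot e)) i ∈ Rpl := by
      intro i
      rw [ssub, ← neg_sub]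
      exact Submodule.neg_mem _ (D_iot e i)
    have h3 := n2_conv L l m h _ h1 h2
    rw [dsub, D_D] at h3
    have h4 : D (iot (D0 e)) - 0 = D (iot (D0 e)) := sub_zero (D (iot (D0 e)))
    rw [h4] at h3
    exact h3
  · intro hs
    obtain ⟨hy, hyX⟩ := cyc 2 (2 * L) c hc hD
    obtain ⟨y', z, hy', hyX', hz, hzX, e1⟩ := n2_red L (D (iot c)) hy hyX
      (fun i => by
        rw [D_D]
        exact Submodule.zero_mem _) hs
    have hDz : D z = 0 := by
      have h1 := congrArg D e1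
      rw [D_D, dadd, D_D] at h1
      have h2 : (0 : Ph) + D z = D z := zero_add (D z)
      rw [h2] at h1
      exact h1.symm
    obtain ⟨y3, f, hy3, hyX3, hf, hfF, e2⟩ := Ac_pure (F 1 ⊔ RG 2) (F 1) XLI (IsLI_F 1)
      le_sup_left 2 hlow hex 2 (2 * L) le_rfl z hz hzX (fun i => by
        rw [hDz]
        exact Submodule.zero_mem _)
    have e3 : D (iot c - y' - y3) = f := by
      rw [dsub, dsub, e1, e2]
      have h1 : D y' + (D y3 + f) - D y' - D y3 = f := by abel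
      exact h1
    obtain ⟨u, f', hu, _, hf', hfF', e4⟩ := Ac_top_F1 2 (by norm_num) 3 (2 * L)
      (iot c - y' - y3) (IsHP_sub _ _ _ _ _ (IsHP_sub _ _ _ _ _ (iot_IsHP _ _ _ _ hc) hy') hy3)
      (fun i => Submodule.mem_top) (fun i => by
        rw [e3]
        exact hfF i)
    refine ⟨nilP u, nilP_H _ _ _ _ hu, ?_⟩
    ext i
    have h1 := D_nil u i
    have h2 : D0 (nilP u) i = D u i [] := h1.symm
    rw [h2]
    have h3 : (iot c - y' - y3) i [] = (D u + f') i [] := by rw [e4]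
    have h4 : (iot c - y' - y3) i [] = iot c i [] - y' i [] - y3 i [] := rfl
    have h5 : (D u + f') i [] = D u i [] + f' i [] := rfl
    rw [h4, h5, iot_nil, Rpl_nil _ (hyX' i), Rpl_nil _ (X_le (hyX3 i)),
      Rpl_nil _ (F_le_Rpl 1 le_rfl (hfF' i)), sub_zero, sub_zero, add_zero] at h3
    exact h3.symm

theorem s3_surj (L : ℕ) (v : ℕ → ℝ) (hv : ∀ l m, l + m + 1 = L → v l + v m = 0) :
    ∃ c : Ph0, IsH0 3 (2 * L) 2 c ∧ D0 c = 0 ∧ ∀ l m, l + m + 1 = L → sgl l m c = v l := by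
  rcases Nat.eq_zero_or_pos L with hL | hL
  · subst hL
    refine ⟨0, fun i hi => absurd rfl hi, map_zero _, fun l m h => ?_⟩
    omega
  choose M hM1 hM2 hM3 hM4 using mu_cyc
  obtain ⟨y0, hy0⟩ : ∃ y0 : Ph, y0 = ∑ l ∈ Finset.range L,
      (v l * (-1 : ℝ) ^ l) • rmP (bw (xw (2 * (L - 1 - l)))) (iot (M l)) := ⟨_, rfl⟩
  have hyH : IsHP 2 (2 * L) 2 y0 := by
    rw [hy0]
    refine IsHP_sum' _ _ _ _ _ fun l hl => IsHP_smul' _ _ _ _ _ ?_
    have h1 := IsHP_rmP 2 (2 * l + 2) 1 _ 1 _ (IsH_xw (2 * (L - 1 - l))) (iot (M l))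
      (iot_IsHP _ _ _ _ (hM1 l))
    have e1 : 2 * l + 2 + 2 * (L - 1 - l) = 2 * L := by omega
    rwa [e1] at h1
  have hyap : ∀ i, y0 i = ∑ l ∈ Finset.range L,
      (v l * (-1 : ℝ) ^ l * M l i) • bw (xw (2 * (L - 1 - l))) := by
    intro i
    rw [hy0, Finsupp.finsetSum_apply]
    refine Finset.sum_congr rfl fun l _ => ?_
    have h1 : ((v l * (-1 : ℝ) ^ l) • rmP (bw (xw (2 * (L - 1 - l)))) (iot (M l))) i =
      (v l * (-1 : ℝ) ^ l) • (rmP (bw (xw (2 * (L - 1 - l)))) (iot (M l)) i) := rfl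
    rw [h1, rmiot, smul_smul]
  have hyX : ∀ i, y0 i ∈ Rpl := by
    intro i
    rw [hyap]
    refine Submodule.sum_mem _ fun l _ => Submodule.smul_mem _ _ ?_
    rw [mem_Rpl]
    unfold bw xw
    exact Finsupp.single_eq_of_ne (by simp)
  -- the coordinates of `y0`
  have hxo : ∀ j i, xco j y0 i = ∑ l ∈ Finset.range L,
      (v l * (-1 : ℝ) ^ l * M l i) * (if 2 * (L - 1 - l) = j then 1 else 0) := by
    intro j i
    rw [xco_ap, hyap, map_sum]
    refine Finset.sum_congr rfl fun l _ => ?_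
    rw [map_smul, smul_eq_mul]
    congr 1
    split_ifs with h
    · rw [h, xc_xw]
    · exact xc_other j _ _ _ (IsH_xw _) (Or.inl h)
  have hx1 : ∀ l, l < L → xco (2 * (L - 1 - l)) y0 = (v l * (-1 : ℝ) ^ l) • M l := by
    intro l hl
    ext i
    rw [hxo, Finset.sum_eq_single l]
    · rw [if_pos rfl, mul_one]
      rfl
    · intro k hk hne
      have hk' : k < L := Finset.mem_range.1 hk
      rw [if_neg (by omega), mul_zero]
    · intro h
      exact absurd (Finset.mem_range.2 hl) h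
  have hx2 : ∀ j, (∀ l, l < L → 2 * (L - 1 - l) ≠ j) → xco j y0 = 0 := by
    intro j hj
    ext i
    rw [hxo]
    refine Finset.sum_eq_zero fun l hl => ?_
    rw [if_neg (hj l (Finset.mem_range.1 hl)), mul_zero]
  have hx3 : ∀ j, D0 (xco j y0) = 0 ∧ ∀ i, D (iot (xco j y0)) i [true] = 0 := by
    intro j
    by_cases hj : ∀ l, l < L → 2 * (L - 1 - l) ≠ j
    · rw [hx2 j hj]
      refine ⟨map_zero _, fun i => ?_⟩
      have h1 : D (iot 0) = 0 := by rw [map_zero]; exact map_zero D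
      rw [h1]
      rfl
    · push Not at hj
      obtain ⟨l, hl, rfl⟩ := hj
      rw [hx1 l hl]
      refine ⟨?_, fun i => ?_⟩
      · rw [map_smul, hM2, smul_zero]
      · have h1 : D (iot ((v l * (-1 : ℝ) ^ l) • M l)) = (v l * (-1 : ℝ) ^ l) • D (iot (M l)) := by
          rw [map_smul]
          exact map_smul D _ _
        rw [h1]
        have h2 : ((v l * (-1 : ℝ) ^ l) • D (iot (M l))) i [true] =
          (v l * (-1 : ℝ) ^ l) * (D (iot (M l)) i [true]) := rfl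
        rw [h2, hM4, mul_zero]
  have hDX : ∀ i, D y0 i ∈ F 1 ⊔ RG 2 := by
    intro i
    have h1 := xco_decomp 1 (2 * L) (D y0) (IsHP_D _ _ _ _ hyH)
      (D_mem Rpl IsLI_Rpl y0 hyX) i
    have h2 : ∀ j, xco j (D y0) i = 0 := by
      intro j
      rw [xco_D 2 (2 * L) j y0 hyH hyX i, (hx3 j).1, (hx3 (j - 1)).2 i]
      have h3 : (0 : Ph0) i = 0 := rfl
      rw [h3]
      split_ifs <;> simp
    rw [Finset.sum_eq_zero, sub_zero] at h1
    · exact h1
    · intro j _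
      rw [h2, zero_smul]
  have hth : ∀ m, m < L → th (L - 1 - m) (xco (2 * m) y0) = v (L - 1 - m) := by
    intro m hm
    have h1 := hx1 (L - 1 - m) (by omega)
    have e : L - 1 - (L - 1 - m) = m := by omega
    rw [e] at h1
    rw [h1, thL_ap, map_smul, ← thL_ap, hM3, smul_eq_mul, mul_assoc, ← pow_add, ← two_mul,
      _root_.pow_mul]
    norm_num
  have hyc : ∀ i, i ≤ L - 1 → yc i (L - 1 - i) (D y0 (false, [[true]])) = 0 := by
    intro i hi
    rw [obs L y0 hyH hyX i (L - 1 - i) (by omega)]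
    have h1 : ∑ m ∈ Finset.range L, th (L - 1 - m) (xco (2 * m) y0) * bb (L - 1 - m) m i =
        ∑ m ∈ Finset.range L, v (L - 1 - m) * bb (L - 1 - m) m i :=
      Finset.sum_congr rfl fun m hm => by rw [hth m (Finset.mem_range.1 hm)]
    rw [h1]
    have h2 := refl_sum L (fun m => v (L - 1 - m) * bb (L - 1 - m) m i)
    have h3 : ∑ m ∈ Finset.range L, (v (L - 1 - (L - 1 - m)) * bb (L - 1 - (L - 1 - m))
        (L - 1 - m) i + v (L - 1 - m) * bb (L - 1 - m) m i) = 0 := by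
      refine Finset.sum_eq_zero fun m hm => ?_
      have hm' : m < L := Finset.mem_range.1 hm
      have e : L - 1 - (L - 1 - m) = m := by omega
      rw [e]
      have h4 := hv m (L - 1 - m) (by omega)
      have h5 : v m = - v (L - 1 - m) := by linarith
      rw [h5]
      unfold bb
      ring
    rw [Finset.sum_add_distrib] at h3
    rw [h2] at h3
    linarith
  have hDH := IsHP_D _ _ _ _ hyH
  have hcH : IsH (2 * (L - 1)) 2 (D y0 (false, [[true]])) := by
    intro w hw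
    have h := (hDH (false, [[true]]) w hw).2
    have h4 : nI (false, [[true]]) = 2 := rfl
    have h5 : kI (false, [[true]]) = 0 := rfl
    rw [h4, h5] at h
    omega
  obtain ⟨g, hg1, hg2⟩ := (yc_zero_iff (L - 1) _ hcH).1 hyc
  have hgX : g ∈ F 1 ⊔ RG 2 := by
    refine Submodule.mem_sup_right ?_
    rw [mem_RG]
    intro w hw
    exact (hg1 w hw).2.ge
  obtain ⟨b, f, hb, hbX, hf, hfF, e1⟩ := pure_one (F 1 ⊔ RG 2) (F 1) XLI (IsLI_F 1)
    le_sup_left 2 hlow hex hpp (2 * L) (D y0) hDH hDX (fun i => by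
      rw [D_D]
      exact Submodule.zero_mem _) ⟨g, hgX, hg2⟩
  have hDf : D f = 0 := by
    have h1 := congrArg D e1
    rw [D_D, dadd, D_D] at h1
    have h2 : (0 : Ph) + D f = D f := zero_add (D f)
    rw [h2] at h1
    exact h1.symm
  obtain ⟨g0, z0, hg0, _, _, hz0, e2⟩ := Ac_top_bot 1 (2 * L) 2 (by norm_num) f hf
    (fun i => Submodule.mem_top) (fun i => by
      rw [hDf]
      exact Submodule.zero_mem _)
  have e3 : f = D g0 := by
    have h1 : z0 = 0 := by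
      ext1 i
      exact (Submodule.mem_bot ℝ).1 (hz0 i)
    rw [e2, h1]
    exact add_zero (D g0)
  obtain ⟨g1, g2, _, _, hg2H, hg2F, e4⟩ := Ac_top_F1 2 (by norm_num) 2 (2 * L) g0 hg0
    (fun i => Submodule.mem_top) (fun i => by
      rw [← e3]
      exact hfF i)
  have e5 : f = D g2 := by
    rw [e3, e4, dadd, D_D]
    exact zero_add (D g2)
  obtain ⟨y2, hy2⟩ : ∃ y2 : Ph, y2 = y0 - b - g2 := ⟨_, rfl⟩
  have hD2 : D y2 = 0 := by
    rw [hy2, dsub, dsub, e1, ← e5]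
    have h1 : D b + f - D b - f = 0 := by abel
    exact h1
  have hy2H : IsHP 2 (2 * L) 2 y2 := by
    rw [hy2]
    exact IsHP_sub _ _ _ _ _ (IsHP_sub _ _ _ _ _ hyH hb) hg2H
  have hy2X : ∀ i, y2 i ∈ Rpl := by
    intro i
    rw [hy2, ssub, ssub]
    exact Submodule.sub_mem _ (Submodule.sub_mem _ (hyX i) (X_le (hbX i)))
      (F_le_Rpl 1 le_rfl (hg2F i))
  have hxy : ∀ j, xco j y2 = xco j y0 := by
    intro j
    rw [hy2, xsub, xsub, xco_X j b hbX, xco_X j g2 fun i => Submodule.mem_sup_left (hg2F i),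
      sub_zero, sub_zero]
  obtain ⟨c1, z1, hc1, _, _, hz1, e6⟩ := Ac_top_bot 2 (2 * L) 2 (by norm_num) y2 hy2H
    (fun i => Submodule.mem_top) (fun i => by
      rw [hD2]
      exact Submodule.zero_mem _)
  have e7 : y2 = D c1 := by
    have h1 : z1 = 0 := by
      ext1 i
      exact (Submodule.mem_bot ℝ).1 (hz1 i)
    rw [e6, h1]
    exact add_zero (D c1)
  have hcH1 := nilP_H _ _ _ _ hc1
  refine ⟨nilP c1, hcH1, ?_, ?_⟩
  · ext i
    have h1 : D0 (nilP c1) i = D c1 i [] := (D_nil c1 i).symm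
    rw [h1, ← e7]
    exact Rpl_nil _ (hy2X i)
  · intro l m h
    have h1 : ∀ i, (c1 - iot (nilP c1)) i ∈ Rpl := by
      intro i
      rw [mem_Rpl]
      have h2 : (c1 - iot (nilP c1)) i [] = c1 i [] - iot (nilP c1) i [] := rfl
      rw [h2, iot_nil, nilP_ap, sub_self]
    have h2 := n2_conv L l m h (c1 - iot (nilP c1))
      (IsHP_sub _ _ _ _ _ hc1 (iot_IsHP _ _ _ _ hcH1)) h1
    rw [dsub, ← e7, xsub, thL_ap, map_sub, ← thL_ap, ← thL_ap, hxy, sub_eq_zero] at h2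
    have h3 := hth m (by omega)
    have e : L - 1 - m = l := by omega
    rw [e] at h3
    show th l (xco (2 * m) (D (iot (nilP c1)))) = v l
    rw [← h2, h3]

end BrV
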