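import Pool.Agent.Lib.BrV.SProj

/-!
# BrV.SW2: `z`-degree two modulo `F 1` (section 1 of paper 2)

`y_(a,b) = p^a z p^b z = yw a b`; they are the words of `G'` of `z`-degree 2 (a word of `G'` with `nz = 2` ends in `z`).
* `p_y`: `p*(w z) = (p*w) z + (-1)^n w z p`, `w z p = (w*p) z` modulo `F 1` (`gp_T`, `i = 1`), `w = p^a z p^b`, `n = a + b`; `p*w = cc 1 a p^(a+1) z p^b + (-1)^a cc 1 b p^a z p^(b+1)`,
  `w*p = cc b 1 p^a z p^(b+1) + (-1)^(b+1) cc a 1 p^(a+1) z p^b`.  Coefficient of `y_(a+1,b)`: `cc 1 a + (-1)^(a+b) (-1)^(b+1) cc a 1 = 0`; of `y_(a,b+1)`: `(-1)^a cc 1 b + (-1)^(a+b) cc b 1 = 2 (-1)^a [b even]`.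
* `pp_y`: `p^2*(w z) = ((p^2*w) + (-1)^n (p*w)*p - w*p^2) z` modulo `F 1`; result `4 [a, b even] y_(a+1,b+1)` (the terms with `y_(a+2,b)`, `y_(a,b+2)` cancel as `cc 2 a = cc a 2`).
* `P2_le`: for `a, b` even `4 y_(a+1,b+1) = -2 p*y_(a+1,b)` modulo `F 1`.
* `yc_zero_iff`: modulo `F 1` and `p*R` the `y_(a,b)` with `b` odd vanish (`p*y_(a,b-1) = ±2 y_(a,b)`), and the coordinates of `p*g` at `y_(a,b)`, `b` even, are `0`.  In bidegree `(2L,2)` with `b` even also `a` is even.
* `yc_F1`, `yc_p`: consequences.  `yc_pa`: `p^a*g`, `a ≥ 1`: odd `a`: `p^a = p*p^(a-1)` (`cc 1 (a-1) = 1`, `a - 1` even); even `a`: `p^a` is a multiple of `p^2*p^(a-2)`, `P2_le`.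
-/

namespace BrV

open Finsupp

/-- the word `p^a z p^b` -/
private def ww (a b : ℕ) : Wd := pw b ++ (false :: pw a)

private theorem ww_succ (a b : ℕ) : ww a (b + 1) = true :: ww a b := by
  simp [ww, pw, List.replicate_succ]

private theorem ww_zero (a : ℕ) : ww a 0 = false :: pw a := by
  simp [ww, pw]

private theorem np_ww (a b : ℕ) : np (ww a b) = a + b := by
  simp [ww, np, pw, List.count_append]
  omega

private theorem nz_ww (a b : ℕ) : nz (ww a b) = 1 := by
  simp [ww, nz, pw, List.count_append, List.count_replicate]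

private theorem yw_eq (a b : ℕ) : yw a b = false :: ww a b := rfl

private theorem np_yw (a b : ℕ) : np (yw a b) = a + b := by
  rw [yw_eq, ← np_ww a b]
  simp [np]

private theorem nz_yw (a b : ℕ) : nz (yw a b) = 2 := by
  have := nz_ww a b
  rw [yw_eq]
  simp only [nz, List.count_cons_self] at this ⊢
  omega

private theorem sg_false (w : Wd) : sg (false :: w) = sg w := by
  simp [sg, np]

private theorem sg_true (w : Wd) : sg (true :: w) = - sg w := by
  simp [sg, np, pow_succ]

private theorem sg_ww (a b : ℕ) : sg (ww a b) = (-1 : ℝ) ^ (a + b) := by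
  rw [sg, np_ww]

private theorem sg_pw (a : ℕ) : sg (pw a) = (-1 : ℝ) ^ a := by
  rw [sg, np_pw]

private theorem mu_cons (a b : Bool) (v w : Wd) : mu (bw (a :: v)) (bw (b :: w)) =
    app b (mu (bw (a :: v)) (bw w)) + sg (b :: w) • app a (mu (bw v) (bw (b :: w))) := by
  rw [mu_bw, mu_bw, mu_bw, sh_cons]

private theorem e1 : ([true] : Wd) = pw 1 := rfl

private theorem sq1 (a : ℕ) : (-1 : ℝ) ^ a * (-1 : ℝ) ^ a = 1 := by
  rw [← mul_pow]
  norm_num

private theorem mp (a b : ℕ) : mu (bw [true]) (bw (ww a b)) =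
    cc 1 a • bw (ww (a + 1) b) + ((-1 : ℝ) ^ a * cc 1 b) • bw (ww a (b + 1)) := by
  induction b with
  | zero =>
    rw [ww_zero, mu_cons, nil_mu, sg_false, sg_pw]
    have h : mu (bw [true]) (bw (pw a)) = cc 1 a • bw (pw (a + 1)) := by
      rw [e1, pow_mul, Nat.add_comm 1 a]
    rw [h, map_smul, app_bw, app_bw, ← ww_zero, ← ww_zero, ← ww_succ, cc_zero_right, mul_one]
  | succ b ih =>
    rw [ww_succ a b, mu_cons, nil_mu, ih, map_add, map_smul, map_smul, app_bw, app_bw, app_bw,
      ← ww_succ, ← ww_succ, ← ww_succ, ← ww_succ, sg_ww]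
    have h : cc 1 (b + 1) = cc 1 b + (-1 : ℝ) ^ (b + 1) := by
      rw [cc, cc_zero_left, mul_one]
    rw [h, add_assoc, ← add_smul]
    congr 2
    ring

private theorem mq (a b : ℕ) : mu (bw (ww a b)) (bw [true]) =
    cc b 1 • bw (ww a (b + 1)) + ((-1 : ℝ) ^ (b + 1) * cc a 1) • bw (ww (a + 1) b) := by
  induction b with
  | zero =>
    rw [ww_zero, mu_cons, mu_one]
    have h : mu (bw (pw a)) (bw [true]) = cc a 1 • bw (pw (a + 1)) := by
      rw [e1, pow_mul]
    rw [h, map_smul, app_bw, app_bw, ← ww_zero, ← ww_zero, ← ww_succ, cc_zero_left, one_smul]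
    simp [sg, np]
  | succ b ih =>
    rw [ww_succ a b, mu_cons, mu_one, ih, map_add, map_smul, map_smul, app_bw, app_bw, app_bw,
      ← ww_succ, ← ww_succ, ← ww_succ]
    have h : cc (b + 1) 1 = 1 - cc b 1 := by
      rw [cc, cc_zero_right]
      ring
    have h2 : sg ([true] : Wd) = -1 := by simp [sg, np]
    rw [h, h2]
    module

private theorem e2 : pw 2 = [true, true] := rfl

private theorem mpp (a b : ℕ) : mu (bw (pw 2)) (bw (ww a b)) =
    cc 2 a • bw (ww (a + 2) b) + ((-1 : ℝ) ^ a * cc 1 a * cc 1 b) • bw (ww (a + 1) (b + 1)) +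
      cc 2 b • bw (ww a (b + 2)) := by
  induction b with
  | zero =>
    rw [ww_zero, e2, mu_cons, ← e2, sg_false, sg_pw, ← ww_zero, mp, pow_mul, map_add, map_smul,
      map_smul, map_smul, app_bw, app_bw, app_bw, ← ww_succ, ← ww_succ, Nat.add_comm 2 a, ← ww_zero]
    rw [cc_zero_right, cc_zero_right, smul_add, smul_smul, smul_smul, mul_one, mul_one, sq1]
    rw [← add_assoc]
  | succ b ih =>
    rw [ww_succ a b, e2, mu_cons, ← e2, ih, ← ww_succ, mp]
    simp only [map_add, map_smul, app_bw, ← ww_succ]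
    have h1 : cc 1 (b + 1) = cc 1 b + (-1 : ℝ) ^ (b + 1) := by
      rw [cc, cc_zero_left, mul_one]
    have h2 : cc 2 (b + 1) = cc 2 b + (-1 : ℝ) ^ (b + 1) * cc 1 (b + 1) := by
      rw [cc]
    have h3 : sg (ww a (b + 1)) = (-1 : ℝ) ^ a * (-1) ^ (b + 1) := by
      rw [sg_ww, ← pow_add]
    rw [h2, h3, smul_add, smul_smul, smul_smul]
    have h4 : (-1 : ℝ) ^ a * (-1) ^ (b + 1) * ((-1) ^ a * cc 1 (b + 1)) =
        (-1) ^ (b + 1) * cc 1 (b + 1) := by
      have := sq1 a
      linear_combination (-1 : ℝ) ^ (b + 1) * cc 1 (b + 1) * this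
    rw [h4, h1]
    module

private theorem mqq (a b : ℕ) : mu (bw (ww a b)) (bw (pw 2)) =
    cc a 2 • bw (ww (a + 2) b) +
      ((-1 : ℝ) ^ (b + 1) * cc a 1 * cc b 1) • bw (ww (a + 1) (b + 1)) +
      cc b 2 • bw (ww a (b + 2)) := by
  have hs : sg ([true, true] : Wd) = 1 := by simp [sg, np]
  induction b with
  | zero =>
    have h : mu (bw (ww a 0)) (bw (pw 2)) = app true (mu (bw (ww a 0)) (bw [true])) +
        app false (mu (bw (pw a)) (bw (pw 2))) := by
      rw [ww_zero, e2, mu_cons, hs, one_smul]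
    rw [h, mq, pow_mul]
    simp only [map_add, map_smul, app_bw, ← ww_succ]
    rw [← ww_zero, cc_zero_left, cc_zero_left]
    simp only [Nat.zero_add]
    module
  | succ b ih =>
    have h : mu (bw (ww a (b + 1))) (bw (pw 2)) = app true (mu (bw (ww a (b + 1))) (bw [true])) +
        app true (mu (bw (ww a b)) (bw (pw 2))) := by
      rw [ww_succ, e2, mu_cons, hs, one_smul]
    rw [h, mq, ih]
    simp only [map_add, map_smul, app_bw, ← ww_succ]
    have h1 : cc (b + 1) 1 = 1 - cc b 1 := by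
      rw [cc, cc_zero_right]
      ring
    have h2 : cc (b + 1) 2 = cc (b + 1) 1 + cc b 2 := by
      rw [cc]
      norm_num
    rw [h2, h1]
    module

private theorem ta_one : ta 1 = 1 := by simp [ta]

private theorem ta_two : ta 2 = -1 := by simp [ta]

private theorem cc_two_symm (a : ℕ) : cc 2 a = cc a 2 := by
  have h1 : ¬ (Odd 2 ∧ Odd a) := by
    rintro ⟨h, -⟩
    exact absurd h (by decide)
  have h2 : ¬ (Odd a ∧ Odd 2) := by
    rintro ⟨-, h⟩
    exact absurd h (by decide)
  rw [cc_formula, cc_formula, if_neg h1, if_neg h2, Nat.add_comm 2 a]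
  have h3 : (a + 2) / 2 = a / 2 + 1 := by omega
  rw [h3]
  norm_num

private theorem wzp (w : Wd) :
    app true (app false (bw w)) - app false (mu (bw w) (bw [true])) ∈ F 1 := by
  have h := gp_T (bw w) 1
  rw [pow_one, ta_one, one_smul] at h
  exact h

private theorem wzp_g (f : R) :
    app true (app false f) - app false (mu f (bw [true])) ∈ F 1 := by
  have h := gp_T f 1
  rw [pow_one, ta_one, one_smul] at h
  exact h

private theorem wzpp (w : Wd) :
    app true (app true (app false (bw w))) + app false (mu (bw w) (bw (pw 2))) ∈ F 1 := by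
  have h := gp_T (bw w) 2
  rw [pow_two, ta_two, neg_one_smul, sub_neg_eq_add] at h
  exact h

theorem p_y (a b : ℕ) : mu (bw [true]) (bw (yw a b)) -
    (if Even b then 2 * (-1 : ℝ) ^ a else 0) • bw (yw a (b + 1)) ∈ F 1 := by
  have h1 : mu (bw [true]) (bw (yw a b)) = app false (mu (bw [true]) (bw (ww a b))) +
      (-1 : ℝ) ^ (a + b) • app true (app false (bw (ww a b))) := by
    rw [yw_eq, mu_cons, nil_mu, sg_false, sg_ww, ← app_bw false]
  have h2 : mu (bw [true]) (bw (yw a b)) -
      (if Even b then 2 * (-1 : ℝ) ^ a else 0) • bw (yw a (b + 1)) =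
      (-1 : ℝ) ^ (a + b) • (app true (app false (bw (ww a b))) -
        app false (mu (bw (ww a b)) (bw [true]))) := by
    rw [h1, mp, mq]
    simp only [map_add, map_smul, app_bw, ← yw_eq]
    rcases Nat.even_or_odd a with ha | ha <;> rcases Nat.even_or_odd b with hb | hb <;>
      simp only [cc_one, cc_one_left, ha, hb, if_true, if_false, pow_add, ha.neg_one_pow,
        hb.neg_one_pow, Nat.not_even_iff_odd.2, pow_one] <;> module
  rw [h2]
  exact (F 1).smul_mem _ (wzp _)

theorem pp_y (a b : ℕ) : mu (bw (pw 2)) (bw (yw a b)) -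
    (if Even a ∧ Even b then (4 : ℝ) else 0) • bw (yw (a + 1) (b + 1)) ∈ F 1 := by
  have h0 : mu (bw [true]) (bw (yw a b)) = app false (mu (bw [true]) (bw (ww a b))) +
      (-1 : ℝ) ^ (a + b) • app true (app false (bw (ww a b))) := by
    rw [yw_eq, mu_cons, nil_mu, sg_false, sg_ww, ← app_bw false]
  have h1 : mu (bw (pw 2)) (bw (yw a b)) = app false (mu (bw (pw 2)) (bw (ww a b))) +
      (-1 : ℝ) ^ (a + b) • app true (mu (bw [true]) (bw (yw a b))) := by
    rw [yw_eq, e2, mu_cons, sg_false, sg_ww]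
  have h2 : mu (bw (pw 2)) (bw (yw a b)) -
      (if Even a ∧ Even b then (4 : ℝ) else 0) • bw (yw (a + 1) (b + 1)) =
      (-1 : ℝ) ^ (a + b) • (app true (app false (mu (bw [true]) (bw (ww a b)))) -
        app false (mu (mu (bw [true]) (bw (ww a b))) (bw [true]))) +
      (app true (app true (app false (bw (ww a b)))) +
        app false (mu (bw (ww a b)) (bw (pw 2)))) := by
    rw [h1, h0]
    simp only [map_add, map_smul, smul_add, smul_smul, sq1, one_smul]
    have h3 : app false (mu (bw (pw 2)) (bw (ww a b))) -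
        (if Even a ∧ Even b then (4 : ℝ) else 0) • bw (yw (a + 1) (b + 1)) +
        (-1 : ℝ) ^ (a + b) • app false (mu (mu (bw [true]) (bw (ww a b))) (bw [true])) -
        app false (mu (bw (ww a b)) (bw (pw 2))) = 0 := by
      rw [mp, mpp, mqq, cc_two_symm a, cc_two_symm b]
      simp only [map_add, LinearMap.add_apply, map_smul, LinearMap.smul_apply, mq, app_bw,
        ← yw_eq]
      rcases Nat.even_or_odd a with ha | ha <;> rcases Nat.even_or_odd b with hb | hb <;>
        simp only [cc_one, cc_one_left, ha, hb, if_true, if_false, pow_add, ha.neg_one_pow,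
          hb.neg_one_pow, Nat.not_even_iff_odd.2, pow_one, and_self, and_true, and_false,
          Nat.even_add_one, not_true, not_false_iff, if_true, if_false] <;> module
    rw [smul_sub]
    have h4 : ∀ A B C D E G : R, A - B + C - D = 0 → A + (E + G) - B = E - C + (G + D) := by
      intro A B C D E G h
      have : A + (E + G) - B - (E - C + (G + D)) = A - B + C - D := by abel
      rw [← sub_eq_zero, this, h]
    exact h4 _ _ _ _ _ _ h3
  rw [h2]
  exact (F 1).add_mem ((F 1).smul_mem _ (wzp_g _)) (wzpp _)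

private theorem ww_inj : ∀ (b b' a a' : ℕ), ww a b = ww a' b' → a = a' ∧ b = b' := by
  intro b
  induction b with
  | zero =>
    intro b' a a' h
    cases b' with
    | zero =>
      rw [ww_zero, ww_zero, List.cons.injEq] at h
      have := congrArg List.length h.2
      simp [pw] at this
      exact ⟨this, rfl⟩
    | succ b' =>
      rw [ww_zero, ww_succ, List.cons.injEq] at h
      exact absurd h.1 (by decide)
  | succ b ih =>
    intro b' a a' h
    cases b' with
    | zero =>
      rw [ww_zero, ww_succ, List.cons.injEq] at h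
      exact absurd h.1 (by decide)
    | succ b' =>
      rw [ww_succ, ww_succ, List.cons.injEq] at h
      obtain ⟨h1, h2⟩ := ih b' a a' h.2
      exact ⟨h1, by rw [h2]⟩

private theorem ww_of_nz : ∀ v : Wd, nz v = 1 → ∃ a b, a + b = np v ∧ v = ww a b := by
  intro v
  induction v with
  | nil => intro h; exact absurd h (by simp [nz])
  | cons x v ih =>
    intro h
    cases x with
    | false =>
      have h1 : nz v = 0 := by
        have : nz (false :: v) = nz v + 1 := by simp [nz]
        omega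
      refine ⟨np v, 0, ?_, ?_⟩
      · simp [np]
      · rw [ww_zero, ← eq_pw v h1]
    | true =>
      have h1 : nz v = 1 := by
        have : nz (true :: v) = nz v := by simp [nz]
        omega
      obtain ⟨a, b, hab, rfl⟩ := ih h1
      refine ⟨a, b + 1, ?_, (ww_succ a b).symm⟩
      have : np (true :: ww a b) = np (ww a b) + 1 := by simp [np]
      omega

private theorem G_word (n : ℕ) (f : R) (hG : f ∈ G') (h : IsH n 2 f) (w : Wd) (hw : f w ≠ 0) :
    ∃ a b, a + b = n ∧ w = yw a b := by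
  obtain ⟨h1, h2⟩ := h w hw
  cases w with
  | nil => exact absurd h2 (by simp [nz])
  | cons x v =>
    cases x with
    | true =>
      exfalso
      apply hw
      have h3 : del true f = 0 := hG
      rw [← del_apply, h3]
      rfl
    | false =>
      have h3 : nz v = 1 := by
        have : nz (false :: v) = nz v + 1 := by simp [nz]
        omega
      obtain ⟨a, b, hab, hv⟩ := ww_of_nz v h3
      refine ⟨a, b, ?_, ?_⟩
      · rw [hab, ← h1]
        simp [np]
      · rw [hv]
        rfl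

private theorem dec (f : R) : f = ∑ w ∈ f.support, f w • bw w := by
  conv_lhs => rw [← Finsupp.sum_single f]
  refine Finset.sum_congr rfl fun w _ => ?_
  rw [bw, smul_single, smul_eq_mul, mul_one]

private theorem lin_zero (φ : R →ₗ[ℝ] ℝ) (f : R) (h : ∀ w, f w ≠ 0 → φ (bw w) = 0) :
    φ f = 0 := by
  rw [dec f, map_sum]
  exact Finset.sum_eq_zero fun w hw => by
    rw [map_smul, h w (Finsupp.mem_support_iff.1 hw), smul_zero]

private theorem sum_dec (f : R) (Q : Wd → Prop) (φ : R →ₗ[ℝ] R)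
    (h : ∀ w, f w ≠ 0 → ∃ g : R, (∀ v, g v ≠ 0 → Q v) ∧
      φ (f w • bw w) - mu (bw [true]) g ∈ F 1) :
    ∃ g : R, (∀ v, g v ≠ 0 → Q v) ∧ φ f - mu (bw [true]) g ∈ F 1 := by
  classical
  choose! g hg1 hg2 using h
  refine ⟨∑ w ∈ f.support, g w, ?_, ?_⟩
  · intro v hv
    rw [Finsupp.finsetSum_apply] at hv
    obtain ⟨w, hw, hw2⟩ := Finset.exists_ne_zero_of_sum_ne_zero hv
    exact hg1 w (Finsupp.mem_support_iff.1 hw) v hw2
  · have e : φ f - mu (bw [true]) (∑ w ∈ f.support, g w) =
        ∑ w ∈ f.support, (φ (f w • bw w) - mu (bw [true]) (g w)) := by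
      rw [Finset.sum_sub_distrib, map_sum, ← map_sum φ, ← dec f]
    rw [e]
    exact (F 1).sum_mem fun w hw => hg2 w (Finsupp.mem_support_iff.1 hw)

private theorem bw_apply_ne {v w : Wd} (h : bw w v ≠ 0) : v = w := by
  by_contra hne
  exact h (by rw [bw, single_eq_of_ne hne])

theorem P2_le (n : ℕ) (f : R) (h : IsH n 2 f) :
    ∃ g : R, IsH (n + 1) 2 g ∧ mu (bw (pw 2)) f - mu (bw [true]) g ∈ F 1 := by
  have h1 := gp_IsH n 2 f h
  obtain ⟨g, hg1, hg2⟩ := sum_dec (gp f) (fun w => np w = n + 1 ∧ nz w = 2) (mu (bw (pw 2)))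
    (by
      intro w hw
      obtain ⟨a, b, hab, rfl⟩ := G_word n (gp f) (gp_mem f) h1 w hw
      by_cases hE : Even a ∧ Even b
      · refine ⟨(-2 * gp f (yw a b)) • bw (yw (a + 1) b), ?_, ?_⟩
        · intro v hv
          rw [Finsupp.smul_apply] at hv
          have hv2 : bw (yw (a + 1) b) v ≠ 0 := fun h0 => hv (by rw [h0, smul_zero])
          rw [bw_apply_ne hv2, np_yw, nz_yw]
          omega
        · have h2 := pp_y a b
          have h3 := p_y (a + 1) b
          rw [if_pos hE] at h2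
          rw [if_pos hE.2] at h3
          have h4 : (-1 : ℝ) ^ (a + 1) = -1 := by
            rw [pow_succ, hE.1.neg_one_pow, one_mul]
          rw [h4] at h3
          have e : mu (bw (pw 2)) (gp f (yw a b) • bw (yw a b)) -
              mu (bw [true]) ((-2 * gp f (yw a b)) • bw (yw (a + 1) b)) =
              gp f (yw a b) • (mu (bw (pw 2)) (bw (yw a b)) - (4 : ℝ) • bw (yw (a + 1) (b + 1))) +
              (2 * gp f (yw a b)) • (mu (bw [true]) (bw (yw (a + 1) b)) -
                (2 * (-1 : ℝ)) • bw (yw (a + 1) (b + 1))) := by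
            rw [map_smul, map_smul]
            module
          rw [e]
          exact (F 1).add_mem ((F 1).smul_mem _ h2) ((F 1).smul_mem _ h3)
      · refine ⟨0, fun v hv => absurd rfl hv, ?_⟩
        have h2 := pp_y a b
        rw [if_neg hE, zero_smul, sub_zero] at h2
        rw [map_zero, sub_zero, map_smul]
        exact (F 1).smul_mem _ h2)
  refine ⟨g, hg1, ?_⟩
  have e : mu (bw (pw 2)) f - mu (bw [true]) g = mu (bw (pw 2)) (f - gp f) +
      (mu (bw (pw 2)) (gp f) - mu (bw [true]) g) := by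
    rw [map_sub]
    abel
  rw [e]
  exact (F 1).add_mem ((IsLI_F 1).mul_mem _ _ (sub_gp f)) hg2

private theorem yw_mem (a b : ℕ) : bw (yw a b) ∈ G' := by
  show del true (bw (yw a b)) = 0
  rw [yw_eq, ← app_bw, del_app_ne true false (by decide)]

private theorem yc_apply (i j : ℕ) (f : R) : yc i j f = gp f (yw (2 * i) (2 * j)) := rfl

theorem yc_yw (i j : ℕ) : yc i j (bw (yw (2 * i) (2 * j))) = 1 := by
  rw [yc_apply, gp_of_mem _ (yw_mem _ _), bw, single_eq_same]

theorem yc_yw_ne (i j a b : ℕ) (h : a ≠ 2 * i ∨ b ≠ 2 * j) : yc i j (bw (yw a b)) = 0 := by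
  rw [yc_apply, gp_of_mem _ (yw_mem _ _), bw, single_eq_of_ne]
  intro h1
  rw [yw_eq, yw_eq, List.cons.injEq] at h1
  obtain ⟨h2, h3⟩ := ww_inj _ _ _ _ h1.2
  omega

theorem yc_F1 (i j : ℕ) (f : R) (h : f ∈ F 1) : yc i j f = 0 := by
  rw [yc_apply, (gp_eq_zero f).2 h]
  rfl

private theorem yc_p (i j n : ℕ) (f : R) (h : IsH n 2 f) :
    yc i j (mu (bw [true]) f) = 0 := by
  have e : mu (bw [true]) f = mu (bw [true]) (f - gp f) + mu (bw [true]) (gp f) := by
    rw [map_sub]
    abel
  rw [e, map_add, yc_F1 i j _ ((IsLI_F 1).mul_mem _ _ (sub_gp f)), zero_add]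
  refine lin_zero ((yc i j).comp (mu (bw [true]))) (gp f) fun w hw => ?_
  obtain ⟨a, b, hab, rfl⟩ := G_word n (gp f) (gp_mem f) (gp_IsH n 2 f h) w hw
  rw [LinearMap.comp_apply]
  have h1 := yc_F1 i j _ (p_y a b)
  rw [map_sub, map_smul, sub_eq_zero] at h1
  rw [h1]
  by_cases hb : Even b
  · rw [yc_yw_ne i j a (b + 1) (Or.inr ?_), smul_zero]
    rintro hb2
    have h3 : Even (b + 1) := by
      rw [hb2]
      exact even_two_mul j
    rw [Nat.even_add_one] at h3
    exact h3 hb
  · rw [if_neg hb, zero_smul]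

theorem yc_pa (i j a n : ℕ) (ha : 1 ≤ a) (f : R) (h : IsH n 2 f) :
    yc i j (mu (bw (pw a)) f) = 0 := by
  have hI : ∀ t, IsH (t + n) 2 (mu (bw (pw t)) f) := by
    intro t
    have h1 := IsH_bw (pw t)
    rw [np_pw, nz_pw] at h1
    have h2 := IsH_mu _ _ _ _ _ _ h1 h
    rwa [Nat.zero_add] at h2
  rcases Nat.even_or_odd a with hE | hO
  · obtain ⟨t, rfl⟩ : ∃ t, a = 2 + 2 * t := by
      obtain ⟨r, hr⟩ := hE
      exact ⟨r - 1, by omega⟩
    have h1 : mu (bw (pw 2)) (mu (bw (pw (2 * t))) f) =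
        cc 2 (2 * t) • mu (bw (pw (2 + 2 * t))) f := by
      rw [← mu_assoc, pow_mul, map_smul, LinearMap.smul_apply]
    obtain ⟨g, hg1, hg2⟩ := P2_le _ _ (hI (2 * t))
    have h2 := yc_F1 i j _ hg2
    rw [map_sub, yc_p i j _ g hg1, sub_zero, h1, map_smul, smul_eq_mul, cc_two_symm] at h2
    rcases mul_eq_zero.1 h2 with h3 | h3
    · exact absurd h3 (cc_two_pos _).ne'
    · exact h3
  · obtain ⟨t, rfl⟩ : ∃ t, a = 1 + 2 * t := by
      obtain ⟨r, hr⟩ := hO
      exact ⟨r, by omega⟩
    have h1 : mu (bw [true]) (mu (bw (pw (2 * t))) f) = mu (bw (pw (1 + 2 * t))) f := by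
      rw [← mu_assoc, e1, pow_mul, cc_one_left, if_pos (even_two_mul t), one_smul]
    rw [← h1]
    exact yc_p i j _ _ (hI (2 * t))

/-- `R_(2L,2) / (F 1 + p R)` has the coordinates `yc i (L - i)` -/
theorem yc_zero_iff (L : ℕ) (f : R) (h : IsH (2 * L) 2 f) :
    (∀ i, i ≤ L → yc i (L - i) f = 0) ↔
      ∃ g : R, (∀ w, g w ≠ 0 → np w + 1 = 2 * L ∧ nz w = 2) ∧ f - mu (bw [true]) g ∈ F 1 := by
  constructor
  · intro hy
    obtain ⟨g, hg1, hg2⟩ := sum_dec (gp f) (fun w => np w + 1 = 2 * L ∧ nz w = 2) LinearMap.id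
      (by
        intro w hw
        obtain ⟨a, b, hab, rfl⟩ := G_word (2 * L) (gp f) (gp_mem f) (gp_IsH _ 2 f h) w hw
        rcases Nat.even_or_odd b with hb | hb
        · exfalso
          apply hw
          obtain ⟨j, hj⟩ := hb
          have h1 := hy (L - j) (by omega)
          rw [yc_apply] at h1
          have e1 : 2 * (L - j) = a := by omega
          have e2 : 2 * (L - (L - j)) = b := by omega
          rw [e1, e2] at h1
          exact h1
        · obtain ⟨b', hb'⟩ := hb
          have hb2 : b = 2 * b' + 1 := hb'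
          subst hb2
          refine ⟨((2 * (-1 : ℝ) ^ a)⁻¹ * gp f (yw a (2 * b' + 1))) • bw (yw a (2 * b')), ?_, ?_⟩
          · intro v hv
            rw [Finsupp.smul_apply] at hv
            have hv2 : bw (yw a (2 * b')) v ≠ 0 := fun h0 => hv (by rw [h0, smul_zero])
            rw [bw_apply_ne hv2, np_yw, nz_yw]
            omega
          · have h3 := p_y a (2 * b')
            rw [if_pos (even_two_mul b')] at h3
            have hne : (2 * (-1 : ℝ) ^ a) ≠ 0 :=
              mul_ne_zero two_ne_zero (pow_ne_zero _ (by norm_num))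
            have e : (LinearMap.id : R →ₗ[ℝ] R) (gp f (yw a (2 * b' + 1)) • bw (yw a (2 * b' + 1))) -
                mu (bw [true]) (((2 * (-1 : ℝ) ^ a)⁻¹ * gp f (yw a (2 * b' + 1))) •
                  bw (yw a (2 * b'))) =
                (-((2 * (-1 : ℝ) ^ a)⁻¹ * gp f (yw a (2 * b' + 1)))) •
                (mu (bw [true]) (bw (yw a (2 * b'))) -
                  (2 * (-1 : ℝ) ^ a) • bw (yw a (2 * b' + 1))) := by
              rw [LinearMap.id_apply, map_smul, smul_sub, smul_smul]
              have e2 : -((2 * (-1 : ℝ) ^ a)⁻¹ * gp f (yw a (2 * b' + 1))) * (2 * (-1) ^ a) =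
                  - gp f (yw a (2 * b' + 1)) := by
                field_simp
              rw [e2]
              module
            rw [e]
            exact (F 1).smul_mem _ h3)
    refine ⟨g, hg1, ?_⟩
    have e : f - mu (bw [true]) g = (f - gp f) +
        ((LinearMap.id : R →ₗ[ℝ] R) (gp f) - mu (bw [true]) g) := by
      rw [LinearMap.id_apply]
      abel
    rw [e]
    exact (F 1).add_mem (sub_gp f) hg2
  · rintro ⟨g, hg1, hg2⟩ i hi
    have h1 := yc_F1 i (L - i) _ hg2
    rw [map_sub, sub_eq_zero] at h1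
    rw [h1]
    refine lin_zero ((yc i (L - i)).comp (mu (bw [true]))) g fun w hw => ?_
    rw [LinearMap.comp_apply]
    refine yc_p i (L - i) (np w) (bw w) ?_
    have h2 := IsH_bw w
    rwa [(hg1 w hw).2] at h2

end BrV
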