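import Pool.Agent.Lib.BrV.SPure1
import Pool.Agent.Lib.BrV.SW2
import Pool.Agent.Lib.BrV.Half1

/-!
# BrV.SK1: `z`-degree one: `H_1(Φ0)_{2L,1}` and `H_2(Φ0)_{j,1}`  (3.1), (3.2)

General facts (`iot_D`): for `c : Ph0`: every coefficient of `D (iot c) - iot (D0 c)` is in `Rpl` (`D_nil`, `mem_Rpl`).
Let `c` have degree `(r, n, 1)` with `D0 c = 0`; `y = D (iot c) ∈ Φ(Rpl)_{r-1,n,1}`, `D y = 0`.  At an index with `kI i = 1` the coefficient is a multiple of `p^m`, `m ≥ 1`, in `F 1`; at the pure indices it has `z`-degree one.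
* `h1_one` (`r = 1`, `n = 2L`): `y` lives at `(false, [])`: `y (false, []) ∈ R_(2L,1)`.  `⟸`: if `xc (2L)` of it is `0` then it is in `F 1` (`R1_decomp`), so by `Ac_top_F1 1` (degree 1): `iot c = D u + z`, `z ∈ Φ(F 1)`; coefficient at `[]` (`D_nil`): `c = D0 e`, `e i = u i []`.
  `⟹`: `c = D0 e`: `iot c = D (iot e) - v`, `v ∈ Φ(Rpl)_{1,2L,1}`, `D (iot c) = - D v`; `D v (false, []) = ∑ (block) * (coefficient) + z * (v (true, []))`: pure block `p^a` times `g ∈ R_(2L-a,1)`: `xc (p^a*g) = 0` (`a = 1`: `2L - 1` odd, `p_x`; `a ≥ 2`: `pa_x`; `R1_decomp`);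
  blocks with `nz = 1`, coefficient a multiple of `p^m ∈ F 1`: in `F 1`; `z * p^(2L) ∈ F 1`.
  `h1_one_ex`: `c = single (false, [pw (2L-1) ++ [false]]) 1` (the block `z p^(2L)`; for the encoding the block `true :: w`): value `ta (2L) = ±1` (`xc_word`).
* `h2_odd`, `h2_even` (`r = 2`): `y ∈ Φ(Rpl)_{1,j,1}`, modulo `Φ(F 1)` pure.  `pure_one` with `X = Rpl`, `Y = F 1`, `k = 1` (`hlow`: homogeneous elements of `Rpl` of `z`-degree `0` are in `F 1`; `Ex Rpl (F 1) 1` from `Ex_top_F1` (the `b` has `z`-degree 1, so it is in `Rpl`); `h2`: `p^2*a ∈ F 1`):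
  if the coefficient at `[p^2]`, in `R_(j-2,1)`, is in `p*R + F 1` then `y = D u + z`, `u ∈ Φ(Rpl)_2`, `z ∈ Φ(F 1)_1`; `D (iot c - u) = z ∈ Φ(F 1)`, `Ac_top_F1`: `iot c - u = D v + z'`, so `c = D0 (v [])`.
  `j` odd: `x_(j-2)` with `j - 2` odd is `(1/2) p*x_(j-3)` modulo `F 1`: the condition holds (`j = 1`: there is no index `[p^2]`).  `j = 2l+2`: the condition is `xc (2l) = 0`, i.e. `th l c = 0`.
  `⟹` for `j = 2l+2`: `c = D0 e`: `D (iot c) = - D v`, `v ∈ Φ(Rpl)_{2,j,1}`: `pure_one_conv`: coefficient at `[p^2]` is `p*b + f`, `b ∈ R_(2l-1,1)`, `xc (2l) (p*b) = 0` (`p_x`, odd).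
* `mu_cyc`: `mu_l = [p^2|z p^(2l)] - [z p^(2l)|p^2] - 2 [p|z p^(2l+1)]` (`l ≥ 1`): `p^2*(z p^(2l)) - (z p^(2l))*p^2 - 2 p*(z p^(2l+1)) = 0`  (`app_bm`);  `mu_0 = e [p^2] - 2 [p|zp]`: `U(p^2) = - 2 p*(zp)` (`app_ub`).
  `th l mu_l = ta (2l) = (-1)^l`: the coefficient of `D (iot mu_l)` at `(false, [[true]])` is `z p^(2l)` plus a multiple of `bw []` (for `l = 0`: `z` from the `e`-part, sign `(-1)^2`).
  The last condition: the coefficients of `D (i * 1)` are the last block, `z` and multiples of `bw []`; the last blocks of `mu_l` are `z p^(2l)`, `p^2`, `z p^(2l+1)` (`p^2`, `zp` for `l = 0`), never `p`.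
-/

namespace BrV

open Finsupp

theorem iot_apply (c : Ph0) (i : Ix) : iot c i = c i • bw [] := by
  simp [iot]

private theorem iot_eval (c : Ph0) : (iot c).mapRange (fun f => f []) rfl = c := by
  ext i
  rw [mapRange_apply, iot_apply]
  simp [bw]

theorem iot_IsHP (r n k : ℕ) (c : Ph0) (h : IsH0 r n k c) : IsHP r n k (iot c) := by
  intro i w hw
  rw [iot_apply] at hw
  have hw' : c i * (bw [] : R) w ≠ 0 := hw
  have h1 : c i ≠ 0 := left_ne_zero_of_mul hw'
  have h2 : (bw [] : R) w ≠ 0 := right_ne_zero_of_mul hw'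
  have h3 : w = [] := by
    by_contra hne
    apply h2
    simp [bw, Ne.symm hne]
  subst h3
  obtain ⟨h4, h5, h6⟩ := h i h1
  exact ⟨h4, by rw [h5]; rfl, by rw [h6]; rfl⟩

theorem D_iot (c : Ph0) (i : Ix) : D (iot c) i - iot (D0 c) i ∈ Rpl := by
  rw [mem_Rpl, Finsupp.sub_apply, D_nil, iot_eval, iot_apply]
  simp [bw]

private theorem low1 (m : ℕ) (f : R) (hf : IsH m 0 f) (hR : f ∈ Rpl) : f ∈ F 1 := by
  have h1 : ∀ w, f w ≠ 0 → w = pw m := by
    intro w hw
    obtain ⟨h2, h3⟩ := hf w hw
    have := eq_pw w h3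
    rwa [h2] at this
  have h2 : f = f (pw m) • bw (pw m) := by
    ext w
    by_cases hw : w = pw m
    · subst hw
      simp [bw]
    · have h3 : f w = 0 := by
        by_contra h4
        exact hw (h1 w h4)
      rw [h3]
      simp [bw, Ne.symm hw]
  rcases Nat.eq_zero_or_pos m with hm | hm
  · subst hm
    rw [mem_Rpl] at hR
    have h3 : f (pw 0) = 0 := hR
    rw [h2, h3, zero_smul]
    exact Submodule.zero_mem _
  · rw [h2]
    refine Submodule.smul_mem _ _ ?_
    refine F_anti 1 m hm ?_
    rw [F_succ]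
    refine Submodule.mem_sup_left ⟨bw [], ?_⟩
    show mu (bw []) (bw (pw m)) = bw (pw m)
    exact nil_mu _

private theorem F1_Rpl : F 1 ≤ Rpl := F_le_Rpl 1 le_rfl

/-- `p^a * g ∈ F 1` for `a ≥ 2`, `g` of `z`-degree one -/
private theorem pa_mem (a m : ℕ) (ha : 2 ≤ a) (g : R) (hg : IsH m 1 g) :
    mu (bw (pw a)) g ∈ F 1 := by
  have h1 := (IsLI_F 1).mul_mem (bw (pw a)) _ (R1_decomp m g hg)
  rw [map_sub, map_smul] at h1
  have h2 := Submodule.smul_mem (F 1) (xc m g) (pa_x a m ha)
  have h3 := Submodule.add_mem _ h1 h2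
  rwa [sub_add_cancel] at h3

/-- `p * g ∈ F 1` for `g` of bidegree `(m, 1)`, `m` odd -/
private theorem p_mem (m : ℕ) (hm : Odd m) (g : R) (hg : IsH m 1 g) :
    mu (bw [true]) g ∈ F 1 := by
  have h1 := (IsLI_F 1).mul_mem (bw [true]) _ (R1_decomp m g hg)
  rw [map_sub, map_smul] at h1
  have h2 := p_x m
  rw [if_neg (Nat.not_even_iff_odd.2 hm), zero_smul, sub_zero] at h2
  have h3 := Submodule.add_mem _ h1 (Submodule.smul_mem (F 1) (xc m g) h2)
  rwa [sub_add_cancel] at h3

private theorem npL_cons' (w : Wd) (l : LB) : npL (w :: l) = np w + 1 + npL l := by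
  rw [npL, List.map_cons, List.sum_cons]
  rfl

private theorem nzL_cons' (w : Wd) (l : LB) : nzL (w :: l) = nz w + nzL l := by
  rw [nzL, List.map_cons, List.sum_cons]
  rfl

private theorem D1_one (w : Wd) : D1 (false, [w]) = single (false, []) (bw (true :: w)) := by
  show single (false, []) (bw (true :: w)) - emb false (mg0 [w]) = _
  have h : mg0 [w] = 0 := by rw [mg0]
  rw [h, emb_zero]
  exact sub_zero (single (false, []) (bw (true :: w)) : Ph)

private theorem D1_e : D1 (true, []) = single (false, []) (bw [false]) := by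
  show emb false (uo0 []) + single (false, []) ((-1 : ℝ) ^ npL [] • bw [false]) - dB true [] = _
  have h1 : uo0 [] = 0 := by rw [uo0]
  have h2 : dB true [] = 0 := rfl
  have h3 : npL [] = 0 := rfl
  rw [h1, h2, h3, emb_zero, pow_zero, one_smul]
  exact (sub_zero ((0 : Ph) + (single (false, []) (bw [false]) : Ph))).trans
    (zero_add (single (false, []) (bw [false]) : Ph))

private theorem D_sub' (x y : Ph) : D (x - y) = D x - D y := map_sub D x y

private theorem D_neg' (e : Ph0) : D (iot (D0 e)) = - D (D (iot e) - iot (D0 e)) := by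
  rw [D_sub', D_D]
  ext1 i
  rw [Finsupp.neg_apply, Finsupp.sub_apply, Finsupp.zero_apply, zero_sub, neg_neg]

private theorem Dv_nil (L : ℕ) (hL : 1 ≤ L) (v : Ph) (hv : IsHP 1 (2 * L) 1 v)
    (hR : ∀ i, v i ∈ Rpl) : D v (false, []) ∈ F 1 := by
  rw [D_apply]
  refine Submodule.sum_mem _ fun i hi => ?_
  rw [Finsupp.mem_support_iff] at hi
  obtain ⟨h1, h2, h3, h4⟩ := IsHP_coeff 1 (2 * L) 1 v hv i hi
  by_cases hk : kI i = 1
  · refine (IsLI_F 1).mul_mem _ _ (low1 (2 * L - nI i) _ ?_ (hR i))
    rwa [hk] at h4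
  · have hk0 : kI i = 0 := by omega
    obtain ⟨b, l⟩ := i
    cases b with
    | true =>
      exfalso
      have : kI (true, l) = nzL l + 1 := rfl
      omega
    | false =>
      have hlen : l.length = 1 := h1
      obtain ⟨w, rfl⟩ := List.length_eq_one_iff.1 hlen
      have hnz : nz w = 0 := by
        have e1 : kI (false, [w]) = nzL [w] := rfl
        rw [e1, nzL_cons'] at hk0
        have e2 : nzL ([] : LB) = 0 := rfl
        omega
      have hw := eq_pw w hnz
      have hn : nI (false, [w]) = np w + 1 := by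
        have e1 : nI (false, [w]) = npL [w] := rfl
        rw [e1, npL_cons']
        rfl
      rw [hk0, Nat.sub_zero, hn] at h4
      rw [hn] at h2
      show mu (D1 (false, [w]) (false, [])) (v (false, [w])) ∈ F 1
      rw [D1_one, Finsupp.single_eq_same]
      have hw2 : true :: w = pw (np w + 1) := by
        conv_lhs => rw [hw]
        rfl
      rw [hw2]
      rcases Nat.eq_zero_or_pos (np w) with h0 | h0
      · rw [h0] at h4 ⊢
        refine p_mem (2 * L - (0 + 1)) ?_ _ h4
        exact ⟨L - 1, by omega⟩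
      · exact pa_mem (np w + 1) _ (by omega) _ h4

private theorem top_zero (n k : ℕ) (y : Ph) (hy : IsHP 0 n k y) (i : Ix) (hi : i ≠ (false, [])) :
    y i = 0 := by
  by_contra h
  obtain ⟨h1, -⟩ := IsHP_coeff 0 n k y hy i h
  obtain ⟨b, l⟩ := i
  have h2 : l.length + b.toNat = 0 := h1
  have h3 : l = [] := List.length_eq_zero_iff.1 (by omega)
  have h4 : b = false := by
    cases b
    · rfl
    · exfalso
      have : Bool.toNat true = 1 := rfl
      omega
  exact hi (by rw [h3, h4])

private theorem IsH_at (r n k : ℕ) (x : Ph) (h : IsHP r n k x) (i : Ix) :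
    IsH (n - nI i) (k - kI i) (x i) := by
  by_cases hi : x i = 0
  · intro w hw
    rw [hi] at hw
    exact absurd rfl hw
  · exact (IsHP_coeff r n k x h i hi).2.2.2

private theorem IsH0_ev (r n k : ℕ) (u : Ph) (hu : IsHP r n k u) :
    IsH0 r n k (u.mapRange (fun f => f []) rfl) := by
  intro i hi
  rw [mapRange_apply] at hi
  obtain ⟨h1, h2, h3⟩ := hu i [] hi
  exact ⟨h1, h2, h3⟩

private theorem ev_of (c : Ph0) (x u z : Ph) (hx : ∀ i, x i [] = c i) (hz : ∀ i, z i ∈ F 1)
    (h : x = D u + z) : D0 (u.mapRange (fun f => f []) rfl) = c := by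
  ext i
  rw [← D_nil, ← hx i, h, Finsupp.add_apply, Finsupp.add_apply]
  have h1 : z i [] = 0 := (mem_Rpl _).1 (F1_Rpl (hz i))
  rw [h1, add_zero]

theorem h1_one (L : ℕ) (hL : 1 ≤ L) (c : Ph0) (hc : IsH0 1 (2 * L) 1 c) :
    (∃ e, IsH0 2 (2 * L) 1 e ∧ D0 e = c) ↔ xc (2 * L) (D (iot c) (false, [])) = 0 := by
  constructor
  · rintro ⟨e, he, rfl⟩
    have h1 := D_neg' e
    have hv : IsHP 1 (2 * L) 1 (D (iot e) - iot (D0 e)) :=
      IsHP_sub _ _ _ _ _ (IsHP_D 1 (2 * L) 1 _ (iot_IsHP _ _ _ _ he)) (iot_IsHP _ _ _ _ hc)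
    have h2 := Dv_nil L hL _ hv (fun i => D_iot e i)
    rw [h1, Finsupp.neg_apply, map_neg, xc_F1 _ _ h2, neg_zero]
  · intro h
    have hx : IsHP 1 (2 * L) 1 (iot c) := iot_IsHP _ _ _ _ hc
    have hy : IsHP 0 (2 * L) 1 (D (iot c)) := IsHP_D 0 (2 * L) 1 _ hx
    have hF : ∀ i, D (iot c) i ∈ F 1 := by
      intro i
      by_cases hi : i = (false, [])
      · subst hi
        have h1 := IsH_at 0 (2 * L) 1 _ hy (false, [])
        have h2 := R1_decomp (2 * L) _ h1
        rwa [h, zero_smul, sub_zero] at h2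
      · rw [top_zero _ _ _ hy i hi]
        exact Submodule.zero_mem _
    obtain ⟨u, z, hu, -, -, hz, huz⟩ := Ac_top_F1 1 le_rfl 1 (2 * L) (iot c) hx
      (fun _ => Submodule.mem_top) hF
    refine ⟨u.mapRange (fun f => f []) rfl, IsH0_ev _ _ _ u hu, ev_of c (iot c) u z ?_ hz huz⟩
    intro i
    rw [iot_apply]
    simp [bw]

private theorem ta_sq (i : ℕ) : ta i * ta i = 1 := by
  unfold ta
  rw [← mul_pow]
  norm_num

private theorem iot_single (i : Ix) (t : ℝ) : iot (single i t) = single i (t • bw []) := by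
  ext1 j
  rw [iot_apply]
  by_cases h : i = j
  · subst h
    rw [Finsupp.single_eq_same, Finsupp.single_eq_same]
  · rw [Finsupp.single_eq_of_ne (Ne.symm h), Finsupp.single_eq_of_ne (Ne.symm h), zero_smul]

private theorem D_iot_single (i : Ix) (t : ℝ) : D (iot (single i t)) = t • D1 i := by
  rw [iot_single, D_single, rmP_smul, rmP_one]

theorem h1_one_ex (L : ℕ) (hL : 1 ≤ L) : ∃ c : Ph0, IsH0 1 (2 * L) 1 c ∧
    xc (2 * L) (D (iot c) (false, [])) = 1 := by
  refine ⟨single (false, [pw (2 * L - 1) ++ [false]]) (ta (2 * L)), ?_, ?_⟩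
  · intro i hi
    have h1 : i = (false, [pw (2 * L - 1) ++ [false]]) := by
      by_contra hne
      exact hi (Finsupp.single_eq_of_ne hne)
    subst h1
    refine ⟨rfl, ?_, ?_⟩
    · have e1 : nI (false, [pw (2 * L - 1) ++ [false]]) = npL [pw (2 * L - 1) ++ [false]] := rfl
      have e2 : npL ([] : LB) = 0 := rfl
      rw [e1, npL_cons', e2, np, List.count_append]
      have e3 : (pw (2 * L - 1)).count true = 2 * L - 1 := np_pw _
      rw [e3]
      have e4 : List.count true [false] = 0 := rfl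
      omega
    · have e1 : kI (false, [pw (2 * L - 1) ++ [false]]) = nzL [pw (2 * L - 1) ++ [false]] := rfl
      have e2 : nzL ([] : LB) = 0 := rfl
      rw [e1, nzL_cons', e2, nz, List.count_append]
      have e3 : (pw (2 * L - 1)).count false = 0 := nz_pw _
      rw [e3]
      rfl
  · rw [D_iot_single, Finsupp.smul_apply, D1_one, Finsupp.single_eq_same, map_smul]
    have h1 : true :: (pw (2 * L - 1) ++ [false]) = pw (2 * L) ++ (false :: pw 0) := by
      obtain ⟨m, hm⟩ : ∃ m, 2 * L = m + 1 := ⟨2 * L - 1, by omega⟩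
      rw [hm]
      rfl
    have h2 := xc_word 0 (2 * L)
    rw [zero_add, cc_zero_left, mul_one] at h2
    rw [h1, h2, smul_eq_mul, ta_sq]

private theorem hlow' (n i : ℕ) (f : R) (hi : i < 1) (hf : IsH n i f) (hR : f ∈ Rpl) : f ∈ F 1 := by
  have h0 : i = 0 := by omega
  subst h0
  exact low1 n f hf hR

private theorem hex' : Ex Rpl (F 1) 1 := by
  intro n a ha _ hpa
  obtain ⟨b, -, hb, hbF⟩ := Ex_top_F1 1 le_rfl n a ha Submodule.mem_top hpa
  refine ⟨b, ?_, hb, hbF⟩
  rw [mem_Rpl]
  by_contra h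
  have := (hb [] h).2
  have e : nz [] = 0 := rfl
  omega

private theorem h2' (n : ℕ) (a : R) (ha : IsH n 1 a) (_ : a ∈ Rpl) :
    ∃ b ∈ Rpl, IsH (n + 1) 1 b ∧ mu (bw (pw 2)) a - mu (bw [true]) b ∈ F 1 := by
  refine ⟨0, Submodule.zero_mem _, ?_, ?_⟩
  · intro w hw
    exact absurd rfl hw
  · rw [map_zero, sub_zero]
    exact pa_mem 2 n le_rfl a ha

private theorem h2_core (j : ℕ) (c : Ph0) (hc : IsH0 2 j 1 c) (hD : D0 c = 0)
    (hs : ∃ b ∈ Rpl, D (iot c) (false, [[true]]) - mu (bw [true]) b ∈ F 1) :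
    ∃ e : Ph0, IsH0 3 j 1 e ∧ D0 e = c := by
  have hx : IsHP 2 j 1 (iot c) := iot_IsHP _ _ _ _ hc
  have hy : IsHP 1 j 1 (D (iot c)) := IsHP_D 1 j 1 _ hx
  have hyR : ∀ i, D (iot c) i ∈ Rpl := by
    intro i
    have h1 := D_iot c i
    rw [hD, map_zero, Finsupp.zero_apply, sub_zero] at h1
    exact h1
  have hDD : ∀ i, D (D (iot c)) i ∈ F 1 := by
    intro i
    rw [D_D, Finsupp.zero_apply]
    exact Submodule.zero_mem _
  obtain ⟨u, z, hu, huR, hz, hzF, huz⟩ := pure_one Rpl (F 1) IsLI_Rpl (IsLI_F 1) F1_Rpl 1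
    hlow' hex' h2' j (D (iot c)) hy hyR hDD hs
  have hD2 : D (iot c - u) = z := by
    rw [D_sub', huz]
    exact add_sub_cancel_left (D u) z
  have hx2 : IsHP 2 j 1 (iot c - u) := IsHP_sub _ _ _ _ _ hx hu
  obtain ⟨v, z', hv, -, -, hz', hvz⟩ := Ac_top_F1 1 le_rfl 2 j (iot c - u) hx2
    (fun _ => Submodule.mem_top) (fun i => by rw [hD2]; exact hzF i)
  refine ⟨v.mapRange (fun f => f []) rfl, IsH0_ev _ _ _ v hv,
    ev_of c (iot c - u) v z' ?_ hz' hvz⟩
  intro i
  have h1 : u i [] = 0 := (mem_Rpl _).1 (huR i)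
  rw [Finsupp.sub_apply, Finsupp.sub_apply, h1, sub_zero, iot_apply]
  simp [bw]

private theorem nI_pp (b : Bool) : nI (b, [[true]]) = 2 := rfl

private theorem kI_pp : kI (false, [[true]]) = 0 := rfl

theorem h2_odd (j : ℕ) (hj : Odd j) : Va 2 j 1 := by
  intro c hc hD
  refine h2_core j c hc hD ?_
  have hy : IsHP 1 j 1 (D (iot c)) := IsHP_D 1 j 1 _ (iot_IsHP _ _ _ _ hc)
  by_cases h0 : D (iot c) (false, [[true]]) = 0
  · refine ⟨0, Submodule.zero_mem _, ?_⟩
    rw [h0, map_zero, sub_zero]
    exact Submodule.zero_mem _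
  · obtain ⟨-, h2, -, h4⟩ := IsHP_coeff 1 j 1 _ hy (false, [[true]]) h0
    rw [nI_pp] at h2 h4
    rw [kI_pp, Nat.sub_zero] at h4
    obtain ⟨t, ht⟩ := hj
    have hj3 : j - 2 = (j - 3) + 1 := by omega
    have hev : Even (j - 3) := ⟨t - 1, by omega⟩
    have h5 := R1_decomp (j - 2) _ h4
    have h6 := p_x (j - 3)
    rw [if_pos hev, ← hj3] at h6
    refine ⟨(xc (j - 2) (D (iot c) (false, [[true]])) / 2) • bw (xw (j - 3)), ?_, ?_⟩
    · refine Submodule.smul_mem _ _ ?_
      rw [mem_Rpl]
      have hne : xw (j - 3) ≠ [] := List.cons_ne_nil _ _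
      exact Finsupp.single_eq_of_ne (Ne.symm hne)
    · rw [map_smul]
      have h7 := Submodule.sub_mem _ h5
        (Submodule.smul_mem (F 1) (xc (j - 2) (D (iot c) (false, [[true]])) / 2) h6)
      convert h7 using 1
      module

private theorem th_conv (l : ℕ) (v : Ph) (hv : IsHP 2 (2 * l + 2) 1 v) (hvR : ∀ i, v i ∈ Rpl) :
    xc (2 * l) (D v (false, [[true]])) = 0 := by
  obtain ⟨b, hbR, hb, hbF⟩ := pure_one_conv Rpl (F 1) IsLI_Rpl (IsLI_F 1) F1_Rpl 1
    hlow' h2' (2 * l + 2) v hv hvR
  have h1 : mu (bw [true]) b ∈ F 1 := by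
    rcases Nat.eq_zero_or_pos l with h0 | h0
    · have hb0 : b = 0 := by
        ext w
        by_contra hw
        have := (hb w hw).1
        omega
      rw [hb0, map_zero]
      exact Submodule.zero_mem _
    · refine p_mem (2 * l - 1) ⟨l - 1, by omega⟩ b ?_
      intro w hw
      obtain ⟨h2, h3⟩ := hb w hw
      exact ⟨by omega, h3⟩
  have h2 := Submodule.add_mem _ hbF h1
  rw [sub_add_cancel] at h2
  exact xc_F1 _ _ h2

theorem h2_even (l : ℕ) (c : Ph0) (hc : IsH0 2 (2 * l + 2) 1 c) (hD : D0 c = 0) :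
    (∃ e, IsH0 3 (2 * l + 2) 1 e ∧ D0 e = c) ↔ th l c = 0 := by
  constructor
  · rintro ⟨e, he, rfl⟩
    have h1 := D_neg' e
    have hv : IsHP 2 (2 * l + 2) 1 (D (iot e) - iot (D0 e)) :=
      IsHP_sub _ _ _ _ _ (IsHP_D 2 (2 * l + 2) 1 _ (iot_IsHP _ _ _ _ he))
        (iot_IsHP _ _ _ _ hc)
    have h2 := th_conv l _ hv (fun i => D_iot e i)
    unfold th
    rw [h1, Finsupp.neg_apply, map_neg, h2, neg_zero]
  · intro h
    refine h2_core (2 * l + 2) c hc hD ⟨0, Submodule.zero_mem _, ?_⟩
    rw [map_zero, sub_zero]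
    have hy : IsHP 1 (2 * l + 2) 1 (D (iot c)) := IsHP_D 1 _ 1 _ (iot_IsHP _ _ _ _ hc)
    have h4 := IsH_at 1 (2 * l + 2) 1 _ hy (false, [[true]])
    rw [nI_pp, kI_pp, Nat.sub_zero, Nat.add_sub_cancel] at h4
    have h5 := R1_decomp (2 * l) _ h4
    have h6 : xc (2 * l) (D (iot c) (false, [[true]])) = 0 := h
    rwa [h6, zero_smul, sub_zero] at h5

/-! ### the cycle -/

private theorem sg_cons_true (w : Wd) : sg (true :: w) = - sg w := by
  simp [sg, np, pow_succ]

private theorem sg_zp (m : ℕ) : sg (pw m ++ [false]) = (-1) ^ m := by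
  have e3 : (pw m).count true = m := np_pw _
  have e4 : List.count true [false] = 0 := rfl
  rw [sg, np, List.count_append, e3, e4, add_zero]

private theorem sh_empty' (w : Wd) : sh [] w = bw w := by
  rw [← mu_bw, nil_mu]

private theorem pw_succ' (m : ℕ) (v : Wd) : pw (m + 1) ++ v = true :: (pw m ++ v) := rfl

private theorem shA (m : ℕ) : sh [true] (pw m ++ [false]) = bw (pw m ++ [false, true]) +
    (if Even m then (1 : ℝ) else 0) • bw (pw (m + 1) ++ [false]) := by
  induction m with
  | zero =>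
    have e : pw 0 ++ [false] = [false] := rfl
    have e2 : pw 0 ++ [false, true] = [false, true] := rfl
    have e3 : pw (0 + 1) ++ [false] = [true, false] := rfl
    have e4 : sg [false] = 1 := by simp [sg, np]
    rw [e, e2, e3, sh_cons, sh_nil, sh_empty', app_bw, app_bw, e4, if_pos (by decide)]
  | succ m ih =>
    rw [pw_succ' m [false], sh_cons, ih, sh_empty', sg_cons_true, sg_zp, map_add, map_smul,
      app_bw, app_bw, app_bw, ← pw_succ', ← pw_succ', ← pw_succ', ← pw_succ', add_assoc,
      ← add_smul]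
    congr 2
    by_cases h : Even m
    · rw [if_pos h, if_neg (by rw [Nat.even_add_one]; exact fun h' => h' h), h.neg_one_pow]
      norm_num
    · rw [if_neg h, if_pos (by rw [Nat.even_add_one]; exact h),
        (Nat.not_even_iff_odd.1 h).neg_one_pow]
      norm_num

private theorem shB (m : ℕ) : sh (pw m ++ [false]) [true] =
    (-1 : ℝ) ^ (m + 1) • bw (pw m ++ [false, true]) +
    (if Even m then (1 : ℝ) else 0) • bw (pw (m + 1) ++ [false]) := by
  have e4 : sg [true] = -1 := by simp [sg, np]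
  induction m with
  | zero =>
    have e : pw 0 ++ [false] = [false] := rfl
    have e2 : pw 0 ++ [false, true] = [false, true] := rfl
    have e3 : pw (0 + 1) ++ [false] = [true, false] := rfl
    rw [e, e2, e3, sh_cons, sh_nil, sh_empty', app_bw, app_bw, e4, if_pos (by decide)]
    rw [one_smul, zero_add, pow_one, add_comm]
  | succ m ih =>
    rw [pw_succ' m [false], sh_cons, ih, sh_nil, e4, map_add, map_smul, map_smul,
      app_bw, app_bw, app_bw, ← pw_succ', ← pw_succ', ← pw_succ']
    by_cases h : Even m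
    · rw [if_pos h, if_neg (by rw [Nat.even_add_one]; exact fun h' => h' h), pow_succ, pow_succ,
        pow_succ, h.neg_one_pow]
      module
    · rw [if_neg h, if_pos (by rw [Nat.even_add_one]; exact h), pow_succ, pow_succ,
        pow_succ, (Nat.not_even_iff_odd.1 h).neg_one_pow]
      module

private theorem shE (m : ℕ) : sh [true, true] (pw m ++ [false]) -
    sh (pw m ++ [false]) [true, true] =
    (if Even m then (2 : ℝ) else 0) • bw (pw (m + 1) ++ [false, true]) := by
  have e5 : sg [true, true] = 1 := by simp [sg, np]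
  induction m with
  | zero =>
    have e : pw 0 ++ [false] = [false] := rfl
    have e2 : pw (0 + 1) ++ [false, true] = [true, false, true] := rfl
    have e4 : sg [false] = 1 := by simp [sg, np]
    have hA := shA 0
    have hB := shB 0
    have e3 : pw 0 ++ [false, true] = [false, true] := rfl
    have e6 : pw (0 + 1) ++ [false] = [true, false] := rfl
    rw [e, e3, e6] at hA hB
    rw [e, e2, sh_cons true false [true] [], sh_cons false true [] [true], hA, hB, sh_nil,
      sh_empty', e4, e5]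
    have h0 : Even 0 := ⟨0, rfl⟩
    simp only [map_add, map_smul, app_bw, if_pos h0]
    module
  | succ m ih =>
    have hA := shA (m + 1)
    have hB := shB (m + 1)
    rw [pw_succ' m [false]] at hA hB ⊢
    rw [sh_cons true true [true] (pw m ++ [false]), sh_cons true true (pw m ++ [false]) [true],
      hA, hB, sg_cons_true, sg_zp, e5, one_smul]
    have h1 : app true (sh [true, true] (pw m ++ [false])) =
        app true (sh (pw m ++ [false]) [true, true]) +
        (if Even m then (2 : ℝ) else 0) • bw (pw (m + 2) ++ [false, true]) := by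
      have h2 := congrArg (app true) ih
      rw [map_sub, map_smul, app_bw, ← pw_succ'] at h2
      rw [← h2]
      abel
    rw [h1]
    simp only [map_add, map_smul, app_bw]
    rw [← pw_succ' (m + 1) [false, true]]
    by_cases h : Even m
    · have he : ¬ Even (m + 1) := by rw [Nat.even_add_one]; exact fun h' => h' h
      simp only [if_pos h, if_neg he]
      rw [pow_succ, pow_succ, h.neg_one_pow]
      module
    · have he : Even (m + 1) := by rw [Nat.even_add_one]; exact h
      simp only [if_neg h, if_pos he]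
      rw [pow_succ, pow_succ, (Nat.not_even_iff_odd.1 h).neg_one_pow]
      module

private theorem D1_two (w v : Wd) : D1 (false, [w, v]) =
    single (false, [v]) (bw (true :: w)) - emb false (cl (bm v w) []) := by
  show single (false, [v]) (bw (true :: w)) - emb false (mg0 [w, v]) = _
  have h0 : mg0 [v] = 0 := by rw [mg0]
  have h : mg0 [w, v] = cl (bm v w) [] := by
    rw [mg0_cons2, h0, map_zero, sub_zero]
  rw [h]

private theorem single_nil (j i : Ix) (w : Wd) :
    (single j (bw (true :: w)) : Ph) i [] = 0 := by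
  by_cases h : i = j
  · subst h
    rw [Finsupp.single_eq_same]
    exact Finsupp.single_eq_of_ne (Ne.symm (List.cons_ne_nil _ _))
  · rw [Finsupp.single_eq_of_ne h, Finsupp.zero_apply]

private theorem bw_nil : (bw [] : R) [] = 1 := Finsupp.single_eq_same

private theorem D1_two_nil (w v : Wd) (b : Bool) (q : LB) : D1 (false, [w, v]) (b, q) [] =
    - (if b = false then cl (bm v w) [] q else 0) := by
  rw [D1_two, Finsupp.sub_apply, Finsupp.sub_apply, single_nil, emb_apply, zero_sub]
  cases b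
  · rw [if_pos rfl, if_pos rfl, Finsupp.smul_apply, bw_nil, smul_eq_mul, mul_one]
  · rw [if_neg (by decide), if_neg (by decide), Finsupp.zero_apply]

private theorem xc_bw_nil (m : ℕ) : xc m (bw []) = 0 :=
  xc_other m 0 0 (bw []) (IsH_bw []) (Or.inr (by decide))

private theorem xc_D1_two (m : ℕ) (w v : Wd) : xc m (D1 (false, [w, v]) (false, [[true]])) =
    if v = [true] then xc m (bw (true :: w)) else 0 := by
  rw [D1_two, Finsupp.sub_apply, map_sub, emb_apply, if_pos rfl, map_smul, xc_bw_nil, smul_zero,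
    sub_zero]
  by_cases h : v = [true]
  · subst h
    rw [if_pos rfl, Finsupp.single_eq_same]
  · rw [if_neg h, Finsupp.single_eq_of_ne, map_zero]
    intro h'
    apply h
    have h2 := congrArg Prod.snd h'
    exact (List.cons.inj h2).1.symm

private theorem bm_rel (m : ℕ) (hm : Even (m + 1)) :
    bm [true] (pw m ++ [false]) - bm (pw m ++ [false]) [true] -
      (2 : ℝ) • bm [] (pw (m + 1) ++ [false]) = 0 := by
  apply app_inj true
  rw [map_zero, map_sub, map_sub, map_smul, app_bm, app_bm, app_bm, mu_bw, mu_bw, mu_bw,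
    ← pw_succ', ← pw_succ', shE, shA, if_pos hm, if_neg (by rw [Nat.even_add_one]; exact fun h => h hm)]
  module

private theorem ub_rel : ub [true] + (2 : ℝ) • bm [] [false] = 0 := by
  have e1 : sg [true] = -1 := by simp [sg, np]
  have hE := shE 0
  have hA := shA 1
  have h0 : Even 0 := ⟨0, rfl⟩
  have h1 : ¬ Even 1 := by decide
  simp only [if_pos h0] at hE
  simp only [if_neg h1] at hA
  have f1 : pw 0 ++ [false] = [false] := rfl
  have f2 : pw (0 + 1) ++ [false, true] = [true, false, true] := rfl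
  have f3 : pw 1 ++ [false] = [true, false] := rfl
  have f4 : pw 1 ++ [false, true] = [true, false, true] := rfl
  rw [f1, f2] at hE
  rw [f3, f4, zero_smul, add_zero] at hA
  apply app_inj true
  rw [map_zero, map_add, map_smul, app_ub, app_bm, mu_bw, mu_bw, mu_bw, e1, hA, ← hE]
  module

private theorem D1_epp : D1 (true, [[true]]) = emb false (cl (ub [true]) []) +
    single (false, [[true]]) (bw [false]) - single (true, []) (bw [true, true]) := by
  show emb false (uo0 [[true]]) + single (false, [[true]]) ((-1 : ℝ) ^ npL [[true]] • bw [false]) -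
    (single (true, []) (bw [true, true]) - emb true (mg0 [[true]])) = _
  have h0 : mg0 [[true]] = 0 := by rw [mg0]
  have h1 : uo0 [] = 0 := by rw [uo0]
  have h2 : uo0 [[true]] = cl (ub [true]) [] := by
    have h3 : npL [] = 0 := rfl
    rw [uo0, h1, map_zero, zero_add, h3, pow_zero, one_smul]
  have h4 : npL [[true]] = 2 := rfl
  have h5 : (-1 : ℝ) ^ 2 = 1 := by norm_num
  rw [h0, h2, h4, h5, one_smul, emb_zero]
  congr 1
  exact sub_zero (single (true, []) (bw [true, true]) : Ph)

private theorem D1_epp_nil (b : Bool) (q : LB) : D1 (true, [[true]]) (b, q) [] =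
    if b = false then cl (ub [true]) [] q else 0 := by
  rw [D1_epp, Finsupp.sub_apply, Finsupp.sub_apply, single_nil, Finsupp.add_apply,
    Finsupp.add_apply, emb_apply, sub_zero]
  have h : (single (false, [[true]]) (bw [false]) : Ph) (b, q) [] = 0 := by
    by_cases h : ((b, q) : Ix) = (false, [[true]])
    · rw [h, Finsupp.single_eq_same]
      exact Finsupp.single_eq_of_ne (Ne.symm (List.cons_ne_nil _ _))
    · rw [Finsupp.single_eq_of_ne h, Finsupp.zero_apply]
  rw [h, add_zero]
  cases b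
  · rw [if_pos rfl, if_pos rfl, Finsupp.smul_apply, bw_nil, smul_eq_mul, mul_one]
  · rw [if_neg (by decide), if_neg (by decide), Finsupp.zero_apply]

private theorem xc_epp : xc 0 (D1 (true, [[true]]) (false, [[true]])) = 1 := by
  have h1 : xc 0 (bw [false]) = 1 := xc_xw 0
  have h2 : (single (true, []) (bw [true, true]) : Ph) (false, [[true]]) = 0 :=
    Finsupp.single_eq_of_ne (by decide)
  rw [D1_epp, Finsupp.sub_apply, h2, sub_zero, Finsupp.add_apply, map_add, emb_apply, if_pos rfl,
    map_smul, xc_bw_nil, smul_zero, zero_add, Finsupp.single_eq_same, h1]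

private theorem cl_sub' (f g : R) (q : LB) : cl (f - g) [] q = cl f [] q - cl g [] q := by
  rw [sub_eq_add_neg, ← neg_one_smul ℝ g, cl_add, cl_smul, Finsupp.add_apply, Finsupp.smul_apply,
    smul_eq_mul]
  ring

private theorem cl_zero' (q : LB) : cl 0 [] q = 0 := by
  have h := cl_sub' 0 0 q
  rw [sub_self, sub_self] at h
  exact h

private theorem ta_even (l : ℕ) : ta (2 * l) = (-1) ^ l := by
  unfold ta
  have h1 : 2 * l * (2 * l - 1) / 2 = l * (2 * l - 1) := by
    rw [mul_assoc, Nat.mul_div_cancel_left _ (by norm_num)]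
  rw [h1]
  rcases Nat.even_or_odd l with h | h
  · rw [(h.mul_right _).neg_one_pow, h.neg_one_pow]
  · have h2 : Odd (2 * l - 1) := by
      obtain ⟨t, ht⟩ := h
      exact ⟨2 * t, by omega⟩
    rw [(h.mul h2).neg_one_pow, h.neg_one_pow]

private theorem np_zp (m : ℕ) : np (pw m ++ [false]) = m := by
  have e3 : (pw m).count true = m := np_pw _
  have e4 : List.count true [false] = 0 := rfl
  rw [np, List.count_append, e3, e4, add_zero]

private theorem nz_zp (m : ℕ) : nz (pw m ++ [false]) = 1 := by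
  have e3 : (pw m).count false = 0 := nz_pw _
  have e4 : List.count false [false] = 1 := rfl
  rw [nz, List.count_append, e3, e4, zero_add]

private theorem IsH0_single (r n k : ℕ) (i : Ix) (t : ℝ) (h : rI i = r ∧ nI i = n ∧ kI i = k) :
    IsH0 r n k (single i t) := by
  intro j hj
  have h1 : j = i := by
    by_contra hne
    exact hj (Finsupp.single_eq_of_ne hne)
  rw [h1]
  exact h

private theorem IsH0_sub' (r n k : ℕ) (c d : Ph0) (hc : IsH0 r n k c) (hd : IsH0 r n k d) :
    IsH0 r n k (c - d) := by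
  intro i hi
  by_cases h : c i = 0
  · refine hd i ?_
    intro h2
    apply hi
    rw [Finsupp.sub_apply, h, h2, sub_zero]
  · exact hc i h

private theorem D0_sub' (x y : Ph0) : D0 (x - y) = D0 x - D0 y := map_sub D0 x y

private theorem Diot_sub' (x y : Ph0) : D (iot (x - y)) = D (iot x) - D (iot y) := by
  rw [map_sub iot x y, D_sub']

private theorem emb_true (b : Bool) (f : CL) (i : Ix) : emb b f i [true] = 0 := by
  obtain ⟨b', q⟩ := i
  rw [emb_apply]
  have h : (bw [] : R) [true] = 0 := Finsupp.single_eq_of_ne (List.cons_ne_nil _ _)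
  split_ifs
  · rw [Finsupp.smul_apply, h, smul_zero]
  · rw [Finsupp.zero_apply]

private theorem single_true (j i : Ix) (w : Wd) (hw : w ≠ [true]) :
    (single j (bw w) : Ph) i [true] = 0 := by
  by_cases h : i = j
  · subst h
    rw [Finsupp.single_eq_same]
    exact Finsupp.single_eq_of_ne (Ne.symm hw)
  · rw [Finsupp.single_eq_of_ne h, Finsupp.zero_apply]

private theorem D1_two_true (w v : Wd) (hw : w ≠ []) (i : Ix) :
    D1 (false, [w, v]) i [true] = 0 := by
  rw [D1_two, Finsupp.sub_apply, Finsupp.sub_apply, emb_true, single_true, sub_zero]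
  intro h
  exact hw (List.cons.inj h).2

private theorem D1_epp_true (i : Ix) : D1 (true, [[true]]) i [true] = 0 := by
  rw [D1_epp, Finsupp.sub_apply, Finsupp.sub_apply, Finsupp.add_apply, Finsupp.add_apply,
    emb_true, single_true _ _ _ (by decide), single_true _ _ _ (by decide), add_zero, sub_zero]

/-- in addition `D (iot c)` has no coefficient of the word `p` -/
theorem mu_cyc (l : ℕ) : ∃ c : Ph0, IsH0 2 (2 * l + 2) 1 c ∧ D0 c = 0 ∧ th l c = (-1 : ℝ) ^ l ∧
    ∀ i, D (iot c) i [true] = 0 := by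
  rcases Nat.eq_zero_or_pos l with hl | hl
  · subst hl
    refine ⟨single (true, [[true]]) 1 - single (false, [[false], []]) 2, ?_, ?_, ?_, ?_⟩
    · exact IsH0_sub' _ _ _ _ _ (IsH0_single _ _ _ _ _ ⟨rfl, rfl, rfl⟩)
        (IsH0_single _ _ _ _ _ ⟨rfl, rfl, rfl⟩)
    · ext ⟨b, q⟩
      rw [D0_sub', D0_single, D0_single, Finsupp.sub_apply, Finsupp.smul_apply,
        Finsupp.smul_apply, D01_apply, D01_apply, D1_epp_nil, D1_two_nil, Finsupp.zero_apply]
      cases b
      · rw [if_pos rfl, if_pos rfl]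
        have h1 := cl_zero' q
        rw [← ub_rel, cl_add, cl_smul, Finsupp.add_apply, Finsupp.smul_apply] at h1
        simp only [smul_eq_mul] at h1 ⊢
        linarith
      · rw [if_neg (by decide), if_neg (by decide)]
        simp
    · unfold th
      rw [Diot_sub', D_iot_single, D_iot_single, Finsupp.sub_apply, Finsupp.smul_apply,
        Finsupp.smul_apply, map_sub, map_smul, map_smul, mul_zero, xc_epp, xc_D1_two,
        if_neg (by decide)]
      simp
    · intro i
      rw [Diot_sub', D_iot_single, D_iot_single, Finsupp.sub_apply, Finsupp.smul_apply,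
        Finsupp.smul_apply, Finsupp.sub_apply, Finsupp.smul_apply, Finsupp.smul_apply,
        D1_epp_true, D1_two_true _ _ (by decide)]
      simp
  · obtain ⟨m, hm⟩ : ∃ m, 2 * l = m + 1 := ⟨2 * l - 1, by omega⟩
    have hev : Even (m + 1) := ⟨l, by omega⟩
    refine ⟨single (false, [pw m ++ [false], [true]]) 1 -
      single (false, [[true], pw m ++ [false]]) 1 -
      single (false, [pw (m + 1) ++ [false], []]) 2, ?_, ?_, ?_, ?_⟩
    · have e0 : npL ([] : LB) = 0 := rfl
      have e1 : nzL ([] : LB) = 0 := rfl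
      have e2 : np [true] = 1 := rfl
      have e3 : nz [true] = 0 := rfl
      have e4 : np [] = 0 := rfl
      have e5 : nz [] = 0 := rfl
      refine IsH0_sub' _ _ _ _ _ (IsH0_sub' _ _ _ _ _ (IsH0_single _ _ _ _ _ ⟨rfl, ?_, ?_⟩)
        (IsH0_single _ _ _ _ _ ⟨rfl, ?_, ?_⟩)) (IsH0_single _ _ _ _ _ ⟨rfl, ?_, ?_⟩)
      · show npL _ = _
        rw [npL_cons', npL_cons', np_zp]
        omega
      · show nzL _ + 0 = _
        rw [nzL_cons', nzL_cons', nz_zp]
        omega
      · show npL _ = _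
        rw [npL_cons', npL_cons', np_zp]
        omega
      · show nzL _ + 0 = _
        rw [nzL_cons', nzL_cons', nz_zp]
        omega
      · show npL _ = _
        rw [npL_cons', npL_cons', np_zp]
        omega
      · show nzL _ + 0 = _
        rw [nzL_cons', nzL_cons', nz_zp]
        omega
    · ext ⟨b, q⟩
      rw [D0_sub', D0_sub', D0_single, D0_single, D0_single, Finsupp.sub_apply, Finsupp.sub_apply,
        Finsupp.smul_apply, Finsupp.smul_apply, Finsupp.smul_apply, D01_apply, D01_apply,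
        D01_apply, D1_two_nil, D1_two_nil, D1_two_nil, Finsupp.zero_apply]
      cases b
      · simp only [if_pos]
        have h1 := cl_zero' q
        rw [← bm_rel m hev, cl_sub', cl_sub', cl_smul, Finsupp.smul_apply] at h1
        simp only [smul_eq_mul] at h1 ⊢
        linarith
      · simp
    · have hne : pw m ++ [false] ≠ [true] := by
        intro h
        have h2 := congrArg nz h
        rw [nz_zp] at h2
        have e3 : nz [true] = 0 := rfl
        omega
      have h1 : xc (2 * l) (bw (true :: (pw m ++ [false]))) = (-1) ^ l := by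
        have h2 := xc_word 0 (2 * l)
        rw [zero_add, cc_zero_left, mul_one, ta_even] at h2
        have h3 : true :: (pw m ++ [false]) = pw (2 * l) ++ (false :: pw 0) := by
          rw [hm]
          rfl
        rw [h3, h2]
      unfold th
      rw [Diot_sub', Diot_sub', D_iot_single, D_iot_single, D_iot_single, Finsupp.sub_apply,
        Finsupp.sub_apply, Finsupp.smul_apply, Finsupp.smul_apply, Finsupp.smul_apply, map_sub,
        map_sub, map_smul, map_smul, map_smul, xc_D1_two, xc_D1_two, xc_D1_two, if_pos rfl,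
        if_neg hne, if_neg (by decide), h1]
      simp
    · intro i
      have hne (t : ℕ) : pw t ++ [false] ≠ [] := by
        intro h
        have h2 := congrArg nz h
        rw [nz_zp] at h2
        have e3 : nz [] = 0 := rfl
        omega
      rw [Diot_sub', Diot_sub', D_iot_single, D_iot_single, D_iot_single]
      have hs (a b : Ph) : (a - b) i [true] = a i [true] - b i [true] := rfl
      have ht (t : ℝ) (a : Ph) : (t • a) i [true] = t * a i [true] := rfl
      rw [hs, hs, ht, ht, ht, D1_two_true _ _ (hne m), D1_two_true _ _ (by decide),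
        D1_two_true _ _ (hne (m + 1))]
      simp

end BrV
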