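import Pool.Agent.Lib.BrV.BarN

/-!
# BrV.SKo: the bar complex in degree one (2.1), abstract part

Lists: the entry `a` stands for `p^(a+1)`.  `bd e (single [a] v) = single [] (e (a+1) v)`;
`bd e (single [a, b] v) = single [b] (e (a+1) v) - cc (b+1) (a+1) • single [a+b+1] v`  (`a` = last entry).
Hypotheses as in `bar_exact` and in addition `h2`: `e 2 v ∈ range (e 1)` for all `v`.  Then `e j v ∈ range (e 1)` for all `j ≥ 1`: `e j` is a nonzero multiple of `e 1 ∘ e (j-1)` (`j` odd, `cc 1 (j-1) = 1`) or of `e 2 ∘ e (j-2)` (`j` even, `cc 2 (j-2) ≠ 0`).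
Let `x = ∑ single [i-1] (y_i)` with `∑ e i y_i = 0`, `y_2 ∈ range (e 1)`.  Modulo boundaries `single [a+b-1] y = (1 / cc a b) single [a-1] (e b y)` (`a, b ≥ 1`, `cc a b ≠ 0`; use `single [b-1, a-1] y`: `bd` of it is `single [a-1] (e b y) - cc a b • single [a+b-1] y`).
`i = 3`: `a = 1, b = 2`; `i ≥ 4`: `a = 2`, `b = i - 2`.  So `x = single [0] y1' + single [1] y2'`, `y2' ∈ range (e 1)`, `y2' = e 1 w`: `single [1] (e 1 w) = cc 2 1 • single [2] w = (1/cc 1 2) single [0] (e 2 w)`.
So `x = single [0] y`, cycle: `e 1 y = 0`, `y = e 1 w'`, `single [0] (e 1 w') = cc 1 1 • single [1] w' = 0` modulo boundaries.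
`bar_one_conv`: the coefficient at `[1]` of `bd e y`, `y` of degree two, is `∑_b e (b+1) (y [b,1]) - cc 1 1 • (..) ∈ range (e 1)`.
-/

namespace BrV

open Finsupp

section aux

variable {M : Type} [AddCommGroup M] [Module ℝ M]

private lemma sk_bd_single (e : ℕ → M →ₗ[ℝ] M) (l : List ℕ) (v : M) :
    bd e (single l v) = bd0 e l v := by
  have h1 : bd e (single l v) = (single l v).sum fun l v => bd0 e l v := rfl
  rw [h1, Finsupp.sum_single_index]
  cases l with
  | nil => rfl
  | cons a l =>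
    show single l (e (a + 1) 0) - (mgN (a :: l)).mapRange (fun t => t • (0 : M)) (zero_smul _ _) = 0
    rw [map_zero, single_zero, zero_sub, neg_eq_zero]
    ext j
    exact smul_zero _

private lemma sk_one (e : ℕ → M →ₗ[ℝ] M) (a : ℕ) (v : M) :
    bd e (single [a] v) = single [] (e (a + 1) v) := by
  rw [sk_bd_single]
  simp [bd0, mgN]

private lemma sk_two (e : ℕ → M →ₗ[ℝ] M) (a b : ℕ) (v : M) :
    bd e (single [a, b] v) =
      single [b] (e (a + 1) v) - cc (b + 1) (a + 1) • single [a + b + 1] v := by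
  rw [sk_bd_single]
  simp [bd0, mgN]

/-- boundaries of degree one -/
private noncomputable def Bnd (e : ℕ → M →ₗ[ℝ] M) : Submodule ℝ (List ℕ →₀ M) :=
  (Finsupp.supported M ℝ {l : List ℕ | l.length = 2}).map (bd e)

private lemma sk_mem (e : ℕ → M →ₗ[ℝ] M) (x : List ℕ →₀ M) :
    x ∈ Bnd e ↔ ∃ y : List ℕ →₀ M, (∀ l, y l ≠ 0 → l.length = 2) ∧ bd e y = x := by
  unfold Bnd
  rw [Submodule.mem_map]
  constructor
  · rintro ⟨y, hy, rfl⟩
    refine ⟨y, fun l hl => ?_, rfl⟩
    rw [Finsupp.mem_supported] at hy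
    exact hy (Finset.mem_coe.2 (mem_support_iff.2 hl))
  · rintro ⟨y, hy, rfl⟩
    refine ⟨y, ?_, rfl⟩
    rw [Finsupp.mem_supported]
    intro l hl
    exact hy l (mem_support_iff.1 (Finset.mem_coe.1 hl))

private lemma sk_bnd (e : ℕ → M →ₗ[ℝ] M) (a b : ℕ) (v : M) :
    single [b] (e (a + 1) v) - cc (b + 1) (a + 1) • single [a + b + 1] v ∈ Bnd e := by
  rw [← sk_two]
  refine Submodule.mem_map_of_mem ?_
  exact Finsupp.single_mem_supported ℝ v (by simp)

private lemma sk_ind (P : (List ℕ →₀ M) → Prop) (r : ℕ)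
    (hz : P 0) (ha : ∀ x y, P x → P y → P (x + y))
    (hs : ∀ l v, l.length = r → P (single l v)) (y : List ℕ →₀ M)
    (hy : ∀ l, y l ≠ 0 → l.length = r) : P y := by
  rw [← Finsupp.sum_single y, Finsupp.sum]
  refine Finset.sum_induction _ P ha hz ?_
  intro l hl
  exact hs l _ (hy l (mem_support_iff.1 hl))

private lemma sk_bdbd (e : ℕ → M →ₗ[ℝ] M) (hm : ∀ a b v, e a (e b v) = cc a b • e (a + b) v)
    (x : List ℕ →₀ M) (hx : x ∈ Bnd e) : bd e x = 0 := by
  rw [sk_mem] at hx
  obtain ⟨y, hy, rfl⟩ := hx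
  refine sk_ind (fun y => bd e (bd e y) = 0) 2 (by simp) ?_ ?_ y hy
  · intro x y h1 h2
    rw [map_add, map_add, h1, h2, add_zero]
  · intro l v hl
    match l, hl with
    | [a, b], _ =>
      rw [sk_two, map_sub, map_smul, sk_one, sk_one, hm, smul_single]
      have h1 : b + 1 + (a + 1) = a + b + 1 + 1 := by ring
      rw [h1, sub_self]

private lemma sk_red (e : ℕ → M →ₗ[ℝ] M) (h2 : ∀ v, ∃ w, e 2 v = e 1 w) (i : ℕ) :
    ∀ v : M, (i = 1 → ∃ w, v = e 1 w) → ∃ u, single [i] v - single [0] u ∈ Bnd e := by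
  -- from `i` to `i + 2`
  have hstep : ∀ (i : ℕ) (v : M), (∃ u, single [i] (e 2 v) - single [0] u ∈ Bnd e) →
      ∃ u, single [i + 2] v - single [0] u ∈ Bnd e := by
    rintro i v ⟨u, hu⟩
    have h3 := sk_bnd e 1 i v
    have hc : cc (i + 1) 2 ≠ 0 := (cc_two_pos _).ne'
    refine ⟨(cc (i + 1) 2)⁻¹ • u, ?_⟩
    have h4 := (Bnd e).smul_mem (cc (i + 1) 2)⁻¹ ((Bnd e).sub_mem hu h3)
    have h5 : (cc (i + 1) 2)⁻¹ • (single [i] (e 2 v) - single [0] u -
        (single [i] (e (1 + 1) v) - cc (i + 1) (1 + 1) • single [1 + i + 1] v)) =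
        single [i + 2] v - single [0] ((cc (i + 1) 2)⁻¹ • u) := by
      have e1 : 1 + i + 1 = i + 2 := by ring
      have e2 : (1 + 1 : ℕ) = 2 := rfl
      rw [e1, e2]
      have e3 : (single [i] (e 2 v) - single [0] u -
        (single [i] (e 2 v) - cc (i + 1) 2 • single [i + 2] v) : List ℕ →₀ M) =
        cc (i + 1) 2 • single [i + 2] v - single [0] u := by abel
      rw [e3, smul_sub, smul_smul, inv_mul_cancel₀ hc, one_smul, smul_single]
    rw [h5] at h4
    exact h4
  induction i using Nat.strong_induction_on with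
  | _ i ih =>
    intro v hv
    match i with
    | 0 => exact ⟨v, by simp⟩
    | 1 =>
      obtain ⟨w, rfl⟩ := hv rfl
      obtain ⟨u, hu⟩ := hstep 0 w ⟨e 2 w, by simp⟩
      have h3 := sk_bnd e 0 1 w
      have h4 : cc (1 + 1) (0 + 1) = 1 := by
        rw [cc_one, if_pos (by decide)]
      rw [h4, one_smul] at h3
      refine ⟨u, ?_⟩
      have h5 := (Bnd e).add_mem h3 hu
      have h6 : (single [1] (e (0 + 1) w) - single [0 + 1 + 1] w +
          (single [0 + 2] w - single [0] u) : List ℕ →₀ M) = single [1] (e 1 w) - single [0] u := by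
        have e1 : (0 + 1 + 1 : ℕ) = 2 := rfl
        have e3 : (0 + 1 : ℕ) = 1 := rfl
        rw [e1, e3]
        abel
      rw [h6] at h5
      exact h5
    | i + 2 =>
      refine hstep i v (ih i (by omega) (e 2 v) (fun _ => ?_))
      exact h2 v

private lemma sk_range (e : ℕ → M →ₗ[ℝ] M) (hm : ∀ a b v, e a (e b v) = cc a b • e (a + b) v)
    (h2 : ∀ v, ∃ w, e 2 v = e 1 w) (j : ℕ) : ∀ v, ∃ w, e (j + 1) v = e 1 w := by
  induction j using Nat.strong_induction_on with
  | _ j ih =>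
    intro v
    match j with
    | 0 => exact ⟨v, rfl⟩
    | 1 => exact h2 v
    | j + 2 =>
      obtain ⟨w, hw⟩ := ih j (by omega) (e 2 v)
      have h3 := hm (j + 1) 2 v
      have hc : cc (j + 1) 2 ≠ 0 := (cc_two_pos _).ne'
      refine ⟨(cc (j + 1) 2)⁻¹ • w, ?_⟩
      have e1 : j + 1 + 2 = j + 2 + 1 := by ring
      rw [map_smul, ← hw, h3, smul_smul, inv_mul_cancel₀ hc, one_smul, e1]

end aux

theorem bar_one {N : Type} [AddCommGroup N] [Module ℝ N] (e : ℕ → N →ₗ[ℝ] N)
    (h0 : ∀ v, e 0 v = v) (hm : ∀ a b v, e a (e b v) = cc a b • e (a + b) v)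
    (hex : ∀ v, e 1 v = 0 → ∃ w, v = e 1 w) (h2 : ∀ v, ∃ w, e 2 v = e 1 w) (x : List ℕ →₀ N)
    (hx : ∀ l, x l ≠ 0 → l.length = 1) (hd : bd e x = 0) (hx2 : ∃ w, x [1] = e 1 w) :
    ∃ y : List ℕ →₀ N, (∀ l, y l ≠ 0 → l.length = 2) ∧ bd e y = x := by
  rw [← sk_mem]
  have h3 : ∃ u, x - single [0] u ∈ Bnd e := by
    have h4 : ∀ s : Finset (List ℕ), s ⊆ x.support →
        ∃ u, (∑ l ∈ s, single l (x l)) - single [0] u ∈ Bnd e := by
      intro s
      induction s using Finset.induction_on with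
      | empty => exact fun _ => ⟨0, by simp⟩
      | insert l s hl ih =>
        intro hs
        obtain ⟨u, hu⟩ := ih (fun a ha => hs (Finset.mem_insert_of_mem ha))
        have h5 : l ∈ x.support := hs (Finset.mem_insert_self l s)
        have h6 := hx l (mem_support_iff.1 h5)
        match l, h6 with
        | [i], _ =>
          obtain ⟨u', hu'⟩ := sk_red e h2 i (x [i]) (by
            rintro rfl
            exact hx2)
          refine ⟨u + u', ?_⟩
          rw [Finset.sum_insert hl, single_add]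
          have h7 := (Bnd e).add_mem hu' hu
          have h8 : (single [i] (x [i]) - single [0] u' +
              ((∑ l ∈ s, single l (x l)) - single [0] u) : List ℕ →₀ N) =
              single [i] (x [i]) + (∑ l ∈ s, single l (x l)) - (single [0] u + single [0] u') := by
            abel
          rw [h8] at h7
          exact h7
    obtain ⟨u, hu⟩ := h4 x.support (Finset.Subset.refl _)
    refine ⟨u, ?_⟩
    have h5 : x = ∑ l ∈ x.support, single l (x l) := (Finsupp.sum_single x).symm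
    rw [← h5] at hu
    exact hu
  obtain ⟨u, hu⟩ := h3
  have h4 := sk_bdbd e hm _ hu
  rw [map_sub, hd, zero_sub, neg_eq_zero, sk_one, single_eq_zero] at h4
  obtain ⟨w, rfl⟩ := hex u h4
  have h5 := sk_bnd e 0 0 w
  have h6 : cc (0 + 1) (0 + 1) = 0 := by
    rw [cc_one, if_neg (by decide)]
  rw [h6, zero_smul, sub_zero] at h5
  have h7 := (Bnd e).add_mem hu h5
  rw [sub_add_cancel] at h7
  exact h7

theorem bar_one_conv {N : Type} [AddCommGroup N] [Module ℝ N] (e : ℕ → N →ₗ[ℝ] N)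
    (h0 : ∀ v, e 0 v = v) (hm : ∀ a b v, e a (e b v) = cc a b • e (a + b) v)
    (h2 : ∀ v, ∃ w, e 2 v = e 1 w) (y : List ℕ →₀ N) (hy : ∀ l, y l ≠ 0 → l.length = 2) :
    ∃ w, bd e y [1] = e 1 w := by
  refine sk_ind (fun y => ∃ w, bd e y [1] = e 1 w) 2 ⟨0, by simp⟩ ?_ ?_ y hy
  · rintro x y ⟨w, hw⟩ ⟨w', hw'⟩
    exact ⟨w + w', by rw [map_add, coe_add, Pi.add_apply, hw, hw', map_add]⟩
  · intro l v hl
    match l, hl with
    | [a, b], _ =>
      rw [sk_two, coe_sub, Pi.sub_apply, coe_smul, Pi.smul_apply]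
      have h3 : cc (b + 1) (a + 1) • (single [a + b + 1] v : List ℕ →₀ N) [1] = 0 := by
        by_cases h : a + b + 1 = 1
        · have ha : a = 0 := by omega
          have hb : b = 0 := by omega
          subst ha hb
          have h6 : cc (0 + 1) (0 + 1) = 0 := by
            rw [cc_one, if_neg (by decide)]
          rw [h6, zero_smul]
        · rw [single_apply, if_neg (by simpa using h), smul_zero]
      rw [h3, sub_zero]
      by_cases h : b = 1
      · subst h
        rw [single_eq_same]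
        exact sk_range e hm h2 a v
      · rw [single_apply, if_neg (by simpa using h)]
        exact ⟨0, by simp⟩

end BrV
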