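import Pool.Agent.Lib.BrV.SK1

/-!
# BrV.SN2: the part of `Φ(Rpl)` with coefficients of `z`-degree one (3.4)

`X = F 1 ⊔ RG 2`.  Let `x ∈ Φ(Rpl)_{r,n,2}`; `c_j = xco j x ∈ Φ0_{r, n-j, 1}`, and `x' = ∑_j rmP (bw (xw j)) (iot c_j)` (finite sum, `j ≤ n`).
* `xco_decomp`: `x i - ∑_{j ≤ n} c_j i • bw (xw j) ∈ F 1 ⊔ RG 2` for every `i`: the coefficient `x i` is homogeneous of bidegree `(n - nI i, 2 - kI i)`: `kI i = 0`: in `RG 2`; `kI i = 1`: `R1_decomp`; `kI i = 2`: `z`-degree 0 and in `Rpl`: in `F 1`.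
* `xco_D`: for every index `i` with `kI i = 1` and every `j`: `xco j (D x) i = D0 (xco j x) i + (if Odd j then 2 * (D (iot (xco (j-1) x)) i) [true] else 0)`.  Proof: `D (x - x')` has coefficients in `D Φ(F 1 ⊔ RG 2) ⊆ Φ(F 1 ⊔ RG 2)` (`D_mem`),
  `xc j` vanishes on `F 1 ⊔ RG 2` (`xc_F1`, `xc_other`); `D x' i = ∑_j mu (D (iot c_j) i) (bw (xw j))` (`D_rmP`), `D (iot c_j) i` has `z`-degree 0: it is `∑_a t_a • bw (pw a)`, `t_0 = D0 c_j i`, and `p^0*x_j = x_j`, `p*x_j` (`p_x`), `p^a*x_j ∈ F 1` (`pa_x`).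
* `n2_red`: `r = 2`, `n = 2L`, `D x ∈ Φ(X)`: so `xco j (D x) i = 0` at all `i`  (only `kI i ≤ 1`... at `kI i = 1` by `hD` and `xc` zero on `X`; at other `i` by degree).  `xco_D`: `D0 c_{2m} = 0`.  If `th l c_{2m} = 0` for all `l + m + 1 = L` then
  (`h2_even`; `c_{2m}` has degree `(2, 2L - 2m, 1)`, `2L - 2m = 2l + 2`; `m = L`: `c_{2L}` has degree `(2, 0, 1)`, no such indices: it is `0`) `c_{2m} = D0 e_m`.  Put `x1 = x - ∑_m D (rmP (bw (xw (2m))) (iot e_m))`: the new `c_{2m}` is `0` (`xco_D` for `Φ_3`, or compute: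
  `xco j` of `rmP (bw (xw (2m))) (iot e)` is `e` for `j = 2m`, `0` else), so the new `c_{2m+1}` satisfies `D0 c_{2m+1} = 0`, degree `(2, 2L - 2m - 1, 1)`, odd: `h2_odd`: `c_{2m+1} = D0 f_m`; `x2 = x1 - ∑ D (rmP (bw (xw (2m+1))) (iot f_m))` has all `xco j x2 = 0` at indices with `kI i = 1`, so `x2 ∈ Φ(X)` (`xco_decomp`).
* `n2_conv`: `xco (2m) (D v)` for `v ∈ Φ(Rpl)_{3,2L,2}`: by `xco_D` (with `D (D v) = 0`, and) `xco (2m) (D v) i = D0 (xco (2m) v) i` for `kI i = 1`; at other indices both vanish by degree; so `th l (xco (2m) (D v)) = 0` by `h2_even` (`⟹`).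
-/

namespace BrV

open Finsupp

private theorem sn_xco (m : ℕ) (x : Ph) (i : Ix) : xco m x i = xc m (x i) := rfl

private theorem sn_sub (j : ℕ) (x y : Ph) (i : Ix) :
    xco j (x - y) i = xco j x i - xco j y i := by
  rw [sn_xco, sn_xco, sn_xco, Finsupp.sub_apply, map_sub]

private theorem sn_D_sub (x y : Ph) (i : Ix) : D (x - y) i = D x i - D y i := by
  have h : D (x - y) = D x - D y := map_sub D x y
  rw [h, Finsupp.sub_apply]

theorem xco_IsH0 (r n k j : ℕ) (x : Ph) (h : IsHP r n (k + 1) x) :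
    ∀ i, xco j x i ≠ 0 → rI i = r ∧ nI i + j = n ∧ kI i = k := by
  intro i hi
  rw [sn_xco] at hi
  have hx : x i ≠ 0 := by
    intro h0
    rw [h0, map_zero] at hi
    exact hi rfl
  obtain ⟨h1, h2, h3, h4⟩ := IsHP_coeff r n (k + 1) x h i hx
  by_cases hh : n - nI i ≠ j ∨ k + 1 - kI i ≠ 1
  · exact absurd (xc_other j _ _ _ h4 hh) hi
  · push Not at hh
    exact ⟨h1, by omega, by omega⟩

private theorem sn_low (m : ℕ) (f : R) (h : IsH m 0 f) (hf : f ∈ Rpl) : f ∈ F 1 := by
  have h1 : f = f (pw m) • bw (pw m) := by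
    ext w
    rw [Finsupp.smul_apply, bw, smul_eq_mul]
    by_cases hw : w = pw m
    · subst hw
      rw [single_eq_same, mul_one]
    · rw [single_eq_of_ne (by exact hw), mul_zero]
      by_contra hne
      obtain ⟨h2, h3⟩ := h w hne
      apply hw
      rw [eq_pw w h3, h2]
  cases m with
  | zero =>
    have h2 : f (pw 0) = 0 := (mem_Rpl f).1 hf
    rw [h1, h2, zero_smul]
    exact Submodule.zero_mem _
  | succ m =>
    rw [h1]
    apply Submodule.smul_mem
    have h3 : bw (pw (m + 1)) ∈ F (m + 1) := by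
      refine Submodule.mem_iSup_of_mem (m + 1) (Submodule.mem_iSup_of_mem le_rfl ?_)
      exact ⟨bw [], nil_mu _⟩
    exact F_anti 1 (m + 1) (by omega) h3

theorem xco_decomp (r n : ℕ) (x : Ph) (hx : IsHP r n 2 x) (hX : ∀ i, x i ∈ Rpl) (i : Ix) :
    x i - ∑ j ∈ Finset.range (n + 1), xco j x i • bw (xw j) ∈ F 1 ⊔ RG 2 := by
  by_cases h0 : x i = 0
  · have h1 : ∀ j ∈ Finset.range (n + 1), xco j x i • bw (xw j) = 0 := by
      intro j _
      rw [sn_xco, h0, map_zero, zero_smul]
    rw [Finset.sum_eq_zero h1, h0, sub_zero]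
    exact Submodule.zero_mem _
  · obtain ⟨h1, h2, h3, h4⟩ := IsHP_coeff r n 2 x hx i h0
    by_cases hk1 : kI i = 1
    · rw [hk1] at h4
      have h5 : ∑ j ∈ Finset.range (n + 1), xco j x i • bw (xw j) =
          xc (n - nI i) (x i) • bw (xw (n - nI i)) := by
        rw [Finset.sum_eq_single (n - nI i)]
        · rw [sn_xco]
        · intro j _ hj
          rw [sn_xco, xc_other j _ _ _ h4 (Or.inl (Ne.symm hj)), zero_smul]
        · intro hh
          exact absurd (Finset.mem_range.2 (by omega)) hh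
      rw [h5]
      exact Submodule.mem_sup_left (R1_decomp _ _ h4)
    · have h5 : ∑ j ∈ Finset.range (n + 1), xco j x i • bw (xw j) = 0 := by
        refine Finset.sum_eq_zero fun j _ => ?_
        rw [sn_xco, xc_other j _ _ _ h4 (Or.inr (by omega)), zero_smul]
      rw [h5, sub_zero]
      by_cases hk0 : kI i = 0
      · rw [hk0] at h4
        apply Submodule.mem_sup_right
        rw [mem_RG]
        intro w hw
        rw [(h4 w hw).2]
      · have hk2 : kI i = 2 := by omega
        rw [hk2] at h4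
        exact Submodule.mem_sup_left (sn_low _ _ h4 (hX i))

private theorem sn_xc_RG (j : ℕ) (f : R) (h : f ∈ RG 2) : xc j f = 0 := by
  obtain ⟨N, hN⟩ := sum_cmp f
  rw [hN N le_rfl, map_sum]
  refine Finset.sum_eq_zero fun n _ => ?_
  rw [map_sum]
  refine Finset.sum_eq_zero fun k _ => ?_
  by_cases hk : k = 1
  · have h1 : cmp n k f = 0 := by
      ext w
      by_contra hne
      have h2 : f w ≠ 0 := by
        intro h3
        apply hne
        show (f.filter fun w => np w = n ∧ nz w = k) w = _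
        rw [filter_apply]
        split_ifs
        · rw [h3]; rfl
        · rfl
      have h3 := (IsH_cmp n k f w (by simpa using hne)).2
      have h4 := (mem_RG 2 f).1 h w h2
      omega
    rw [h1, map_zero]
  · exact xc_other j n k _ (IsH_cmp n k f) (Or.inr hk)

private theorem sn_xc_sup (j : ℕ) (f : R) (h : f ∈ F 1 ⊔ RG 2) : xc j f = 0 := by
  obtain ⟨a, ha, b, hb, rfl⟩ := Submodule.mem_sup.1 h
  rw [map_add, xc_F1 j a ha, sn_xc_RG j b hb, add_zero]

private theorem sn_IsH_xw (j : ℕ) : IsH j 1 (bw (xw j)) := by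
  have h := IsH_bw (xw j)
  have h1 : np (xw j) = j := by
    show np (false :: pw j) = j
    have : np (false :: pw j) = np (pw j) := by simp [np]
    rw [this, np_pw]
  have h2 : nz (xw j) = 1 := by
    show nz (false :: pw j) = 1
    have : nz (false :: pw j) = nz (pw j) + 1 := by simp [nz]
    rw [this, nz_pw]
  rw [h1, h2] at h
  exact h

private theorem sn_xc_ne (j j' : ℕ) (h : j ≠ j') : xc j (bw (xw j')) = 0 :=
  xc_other j j' 1 _ (sn_IsH_xw j') (Or.inl (Ne.symm h))

/-- multiplication of `x_{j'}` from the left -/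
private theorem sn_mul_x (j j' : ℕ) (g : R) : xc j (mu g (bw (xw j'))) =
    (if j = j' then g [] else 0) + (if j = j' + 1 ∧ Even j' then 2 * g [true] else 0) := by
  induction g using Finsupp.induction_linear with
  | zero => simp
  | add f g hf hg =>
    rw [map_add, LinearMap.add_apply, map_add, hf, hg]
    simp only [Finsupp.add_apply]
    split_ifs <;> ring
  | single w a =>
    have h1 : (single w a : R) = a • bw w := by
      rw [bw, smul_single, smul_eq_mul, mul_one]
    rw [h1, map_smul, LinearMap.smul_apply, map_smul, smul_eq_mul, Finsupp.smul_apply,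
      Finsupp.smul_apply, smul_eq_mul, smul_eq_mul]
    by_cases hz : nz w = 0
    · obtain ⟨b, rfl⟩ : ∃ b, w = pw b := ⟨np w, eq_pw w hz⟩
      rcases Nat.lt_or_ge b 2 with hb | hb
      · interval_cases b
        · have e0 : bw (pw 0) = bw [] := rfl
          have e1 : (bw (pw 0) : R) [] = 1 := by
            rw [e0, bw, single_eq_same]
          have e2 : (bw (pw 0) : R) [true] = 0 := by
            rw [e0, bw, single_eq_of_ne (by simp)]
          rw [e1, e2, e0, nil_mu]
          by_cases hj : j = j'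
          · subst hj
            rw [xc_xw]
            simp
          · rw [sn_xc_ne j j' hj, if_neg hj]
            simp
        · have e0 : bw (pw 1) = bw [true] := rfl
          have e1 : (bw (pw 1) : R) [] = 0 := by
            rw [e0, bw, single_eq_of_ne (by simp)]
          have e2 : (bw (pw 1) : R) [true] = 1 := by
            rw [e0, bw, single_eq_same]
          rw [e1, e2, e0]
          have h3 := xc_F1 j _ (p_x j')
          rw [map_sub, map_smul, smul_eq_mul, sub_eq_zero] at h3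
          rw [h3]
          by_cases hj : j = j' + 1
          · subst hj
            rw [xc_xw]
            by_cases he : Even j'
            · rw [if_pos he, if_neg (by omega : ¬ (j' + 1 = j')),
                if_pos (⟨rfl, he⟩ : j' + 1 = j' + 1 ∧ Even j')]
              ring
            · simp [he]
          · rw [sn_xc_ne j (j' + 1) hj]
            simp [hj]
      · rw [xc_F1 j _ (pa_x b j' hb)]
        have e1 : (bw (pw b) : R) [] = 0 := by
          rw [bw, single_eq_of_ne]
          intro hh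
          have := congrArg List.length hh
          simp [pw] at this
          omega
        have e2 : (bw (pw b) : R) [true] = 0 := by
          rw [bw, single_eq_of_ne]
          intro hh
          have := congrArg List.length hh
          simp [pw] at this
          omega
        rw [e1, e2]
        simp
    · have h2 := IsH_mu _ _ _ _ _ _ (IsH_bw w) (sn_IsH_xw j')
      rw [xc_other j _ _ _ h2 (Or.inr (by omega))]
      have e1 : (bw w : R) [] = 0 := by
        rw [bw, single_eq_of_ne]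
        intro hh
        apply hz
        rw [← hh]
        rfl
      have e2 : (bw w : R) [true] = 0 := by
        rw [bw, single_eq_of_ne]
        intro hh
        apply hz
        rw [← hh]
        rfl
      rw [e1, e2]
      simp

private theorem sn_D_iot_nil (c : Ph0) (i : Ix) : D (iot c) i [] = D0 c i := by
  rw [D_nil]
  congr 1
  congr 1
  ext k
  rw [mapRange_apply, iot_apply, Finsupp.smul_apply, bw, single_eq_same, smul_eq_mul, mul_one]

/-- `∑_j c_j x_j` -/
private noncomputable def YY (N : ℕ) (e : ℕ → Ph0) : Ph :=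
  ∑ j ∈ Finset.range N, rmP (bw (xw j)) (iot (e j))

private theorem sn_YY_apply (N : ℕ) (e : ℕ → Ph0) (i : Ix) :
    YY N e i = ∑ j ∈ Finset.range N, e j i • bw (xw j) := by
  unfold YY
  rw [Finsupp.finsetSum_apply]
  refine Finset.sum_congr rfl fun j _ => ?_
  rw [rmP_apply, iot_apply, map_smul, LinearMap.smul_apply, nil_mu]

private theorem sn_xco_YY (N : ℕ) (e : ℕ → Ph0) (j : ℕ) (hj : j < N) : xco j (YY N e) = e j := by
  ext i
  rw [sn_xco, sn_YY_apply, map_sum, Finset.sum_eq_single j]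
  · rw [map_smul, xc_xw, smul_eq_mul, mul_one]
  · intro j' _ hj'
    rw [map_smul, sn_xc_ne j j' (Ne.symm hj'), smul_zero]
  · intro hh
    exact absurd (Finset.mem_range.2 hj) hh

private theorem sn_xco_YY' (N : ℕ) (e : ℕ → Ph0) (j : ℕ) (hj : ¬ j < N) : xco j (YY N e) = 0 := by
  ext i
  rw [sn_xco, sn_YY_apply, map_sum]
  refine Finset.sum_eq_zero fun j' hj' => ?_
  have := Finset.mem_range.1 hj'
  rw [map_smul, sn_xc_ne j j' (by omega), smul_zero]

private theorem sn_YY_IsHP (r n N : ℕ) (e : ℕ → Ph0)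
    (he : ∀ j, j < N → ∀ i, e j i ≠ 0 → rI i = r ∧ nI i + j = n ∧ kI i = 1) :
    IsHP r n 2 (YY N e) := by
  intro i w hw
  rw [sn_YY_apply, Finsupp.finsetSum_apply] at hw
  obtain ⟨j, hj, hj2⟩ := Finset.exists_ne_zero_of_sum_ne_zero hw
  rw [Finsupp.smul_apply, smul_eq_mul] at hj2
  have h1 : e j i ≠ 0 := left_ne_zero_of_mul hj2
  have h2 : (bw (xw j) : R) w ≠ 0 := right_ne_zero_of_mul hj2
  obtain ⟨h3, h4, h5⟩ := he j (Finset.mem_range.1 hj) i h1
  obtain ⟨h6, h7⟩ := sn_IsH_xw j w h2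
  exact ⟨h3, by omega, by omega⟩

private theorem sn_YY_mem (N : ℕ) (e : ℕ → Ph0) (i : Ix) : YY N e i ∈ Rpl := by
  rw [sn_YY_apply]
  refine Submodule.sum_mem _ fun j _ => Submodule.smul_mem _ _ ?_
  rw [mem_Rpl, bw, single_eq_of_ne]
  intro hh
  have := congrArg List.length hh
  simp [xw] at this

private theorem sn_D_YY (N : ℕ) (e : ℕ → Ph0) (i : Ix) :
    D (YY N e) i = ∑ j ∈ Finset.range N, mu (D (iot (e j)) i) (bw (xw j)) := by
  unfold YY
  rw [map_sum, Finsupp.finsetSum_apply]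
  refine Finset.sum_congr rfl fun j _ => ?_
  rw [D_rmP, rmP_apply]

private theorem sn_xco_big (r n k j : ℕ) (x : Ph) (h : IsHP r n (k + 1) x) (hj : n < j) :
    xco j x = 0 := by
  ext i
  by_contra hne
  have := (xco_IsH0 r n k j x h i hne).2.1
  omega

theorem xco_D (r n j : ℕ) (x : Ph) (hx : IsHP r n 2 x) (hX : ∀ i, x i ∈ Rpl) (i : Ix) :
    xco j (D x) i = D0 (xco j x) i +
      (if Odd j then 2 * (D (iot (xco (j - 1) x)) i) [true] else 0) := by
  have hd : ∀ i, (x - YY (n + 1) (fun j => xco j x)) i ∈ F 1 ⊔ RG 2 := by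
    intro i
    rw [Finsupp.sub_apply, sn_YY_apply]
    exact xco_decomp r n x hx hX i
  have hD := D_mem _ (IsLI_sup _ _ (IsLI_F 1) (IsLI_RG 2)) _ hd i
  rw [sn_D_sub] at hD
  have h1 := sn_xc_sup j _ hD
  rw [map_sub, sub_eq_zero] at h1
  rw [sn_xco, h1, sn_D_YY, map_sum]
  simp only [sn_mul_x]
  rw [Finset.sum_add_distrib]
  congr 1
  · rw [Finset.sum_ite_eq]
    split_ifs with hj
    · exact sn_D_iot_nil _ _
    · have hj' : n < j := by
        by_contra hh
        exact hj (Finset.mem_range.2 (by omega))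
      rw [sn_xco_big r n 1 j x hx hj', map_zero]
      rfl
  · by_cases hj : Odd j
    · rw [if_pos hj]
      obtain ⟨s, hs⟩ := hj
      by_cases hn : j - 1 ≤ n
      · rw [Finset.sum_eq_single (j - 1)]
        · rw [if_pos ⟨by omega, ⟨s, by omega⟩⟩]
        · intro b _ hb
          rw [if_neg]
          rintro ⟨h2, -⟩
          omega
        · intro hh
          exact absurd (Finset.mem_range.2 (by omega)) hh
      · rw [sn_xco_big r n 1 (j - 1) x hx (by omega), map_zero, map_zero]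
        rw [Finset.sum_eq_zero]
        · simp
        · intro b hb
          have := Finset.mem_range.1 hb
          rw [if_neg]
          rintro ⟨h2, -⟩
          omega
    · rw [if_neg hj, Finset.sum_eq_zero]
      intro b _
      rw [if_neg]
      rintro ⟨h2, ⟨s, hs⟩⟩
      exact hj ⟨s, by omega⟩

private theorem sn_D0_zero (x : Ph) (j : ℕ) (r n : ℕ) (hx : IsHP r n 2 x) (hX : ∀ i, x i ∈ Rpl)
    (hD : ∀ i, D x i ∈ F 1 ⊔ RG 2) (hj : Odd j → xco (j - 1) x = 0) : D0 (xco j x) = 0 := by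
  ext i
  have h1 := xco_D r n j x hx hX i
  rw [sn_xco, sn_xc_sup j _ (hD i)] at h1
  by_cases ho : Odd j
  · rw [if_pos ho, hj ho, map_zero, map_zero] at h1
    simp at h1
    rw [← h1]
    rfl
  · rw [if_neg ho, add_zero] at h1
    rw [← h1]
    rfl

theorem n2_red (L : ℕ) (x : Ph) (hx : IsHP 2 (2 * L) 2 x) (hX : ∀ i, x i ∈ Rpl)
    (hD : ∀ i, D x i ∈ F 1 ⊔ RG 2) (hs : ∀ l m, l + m + 1 = L → th l (xco (2 * m) x) = 0) :
    ∃ y z : Ph, IsHP 3 (2 * L) 2 y ∧ (∀ i, y i ∈ Rpl) ∧ IsHP 2 (2 * L) 2 z ∧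
      (∀ i, z i ∈ F 1 ⊔ RG 2) ∧ x = D y + z := by
  -- even part
  have hE : ∀ j, ∃ e : Ph0, (∀ i, e i ≠ 0 → rI i = 3 ∧ nI i + j = 2 * L ∧ kI i = 1) ∧
      (Even j → D0 e = xco j x) ∧ (Odd j → e = 0) := by
    intro j
    by_cases hj : Even j
    · obtain ⟨m, hm⟩ := hj
      have hno : ¬ Odd j := by
        rintro ⟨s, hs'⟩
        omega
      have hD0 : D0 (xco j x) = 0 :=
        sn_D0_zero x j 2 (2 * L) hx hX hD (fun h => absurd h hno)
      by_cases hmL : m < L
      · have hc : IsH0 2 (2 * (L - m - 1) + 2) 1 (xco j x) := by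
          intro i hi
          obtain ⟨h1, h2, h3⟩ := xco_IsH0 2 (2 * L) 1 j x hx i hi
          exact ⟨h1, by omega, h3⟩
        have hth : th (L - m - 1) (xco j x) = 0 := by
          have h1 := hs (L - m - 1) m (by omega)
          have h2 : 2 * m = j := by omega
          rw [h2] at h1
          exact h1
        obtain ⟨e, he1, he2⟩ := (h2_even (L - m - 1) (xco j x) hc hD0).2 hth
        refine ⟨e, ?_, fun _ => he2, fun h => absurd h hno⟩
        intro i hi
        obtain ⟨h1, h2, h3⟩ := he1 i hi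
        exact ⟨h1, by omega, h3⟩
      · refine ⟨0, ?_, fun _ => ?_, fun _ => rfl⟩
        · intro i hi
          exact absurd rfl hi
        · rw [map_zero]
          ext i
          symm
          by_contra hne
          obtain ⟨h1, h2, h3⟩ := xco_IsH0 2 (2 * L) 1 j x hx i hne
          have h4 : nI i = 0 := by omega
          have h5 : i.2 = [] := by
            rcases hi2 : i.2 with _ | ⟨w, l⟩
            · rfl
            · exfalso
              unfold nI npL at h4
              rw [hi2] at h4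
              simp at h4
          unfold rI at h1
          rw [h5] at h1
          have h6 : i.1.toNat ≤ 1 := Bool.toNat_le i.1
          simp at h1
          omega
    · refine ⟨0, ?_, fun h => absurd h hj, fun _ => rfl⟩
      intro i hi
      exact absurd rfl hi
  choose e he1 he2 he3 using hE
  set Y1 : Ph := YY (2 * L + 1) e with hY1
  have hY1H : IsHP 3 (2 * L) 2 Y1 := sn_YY_IsHP 3 (2 * L) _ e (fun j _ => he1 j)
  have hY1R : ∀ i, Y1 i ∈ Rpl := fun i => sn_YY_mem _ _ i
  set x1 : Ph := x - D Y1 with hx1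
  have hx1H : IsHP 2 (2 * L) 2 x1 := IsHP_sub _ _ _ _ _ hx (IsHP_D 2 (2 * L) 2 Y1 hY1H)
  have hDY1R : ∀ i, D Y1 i ∈ Rpl := D_mem _ IsLI_Rpl _ hY1R
  have hx1R : ∀ i, x1 i ∈ Rpl := by
    intro i
    rw [hx1, Finsupp.sub_apply]
    exact Submodule.sub_mem _ (hX i) (hDY1R i)
  have hDx1 : ∀ i, D x1 i ∈ F 1 ⊔ RG 2 := by
    intro i
    rw [hx1, sn_D_sub, D_D, Finsupp.zero_apply, sub_zero]
    exact hD i
  have hx1even : ∀ j, Even j → xco j x1 = 0 := by
    intro j hj
    by_cases hjL : j < 2 * L + 1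
    · ext i
      have h1 := xco_D 3 (2 * L) j Y1 hY1H hY1R i
      have hno : ¬ Odd j := by
        rintro ⟨s, hs'⟩
        obtain ⟨m, hm⟩ := hj
        omega
      rw [if_neg hno, add_zero, hY1, sn_xco_YY _ _ j hjL, he2 j hj] at h1
      rw [hx1, sn_sub, hY1, h1, sub_self]
      rfl
    · exact sn_xco_big 2 (2 * L) 1 j x1 hx1H (by omega)
  -- odd part
  have hO : ∀ j, ∃ f : Ph0, (∀ i, f i ≠ 0 → rI i = 3 ∧ nI i + j = 2 * L ∧ kI i = 1) ∧
      (Odd j → D0 f = xco j x1) ∧ (Even j → f = 0) := by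
    intro j
    by_cases hj : Odd j
    · have hne : ¬ Even j := by
        rintro ⟨m, hm⟩
        obtain ⟨s, hs'⟩ := hj
        omega
      have hD0 : D0 (xco j x1) = 0 := by
        apply sn_D0_zero x1 j 2 (2 * L) hx1H hx1R hDx1
        intro ho
        apply hx1even
        obtain ⟨s, hs'⟩ := ho
        exact ⟨s, by omega⟩
      by_cases hjL : j ≤ 2 * L
      · have hc : IsH0 2 (2 * L - j) 1 (xco j x1) := by
          intro i hi
          obtain ⟨h1, h2, h3⟩ := xco_IsH0 2 (2 * L) 1 j x1 hx1H i hi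
          exact ⟨h1, by omega, h3⟩
        have hodd : Odd (2 * L - j) := by
          obtain ⟨s, hs'⟩ := hj
          exact ⟨L - s - 1, by omega⟩
        obtain ⟨f, hf1, hf2⟩ := h2_odd (2 * L - j) hodd (xco j x1) hc hD0
        refine ⟨f, ?_, fun _ => hf2, fun h => absurd h hne⟩
        intro i hi
        obtain ⟨h1, h2, h3⟩ := hf1 i hi
        exact ⟨h1, by omega, h3⟩
      · refine ⟨0, ?_, fun _ => ?_, fun _ => rfl⟩
        · intro i hi
          exact absurd rfl hi
        · rw [map_zero, sn_xco_big 2 (2 * L) 1 j x1 hx1H (by omega)]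
    · refine ⟨0, ?_, fun h => absurd h hj, fun _ => rfl⟩
      intro i hi
      exact absurd rfl hi
  choose f hf1 hf2 hf3 using hO
  set Y2 : Ph := YY (2 * L + 1) f with hY2
  have hY2H : IsHP 3 (2 * L) 2 Y2 := sn_YY_IsHP 3 (2 * L) _ f (fun j _ => hf1 j)
  have hY2R : ∀ i, Y2 i ∈ Rpl := fun i => sn_YY_mem _ _ i
  set x2 : Ph := x1 - D Y2 with hx2
  have hx2H : IsHP 2 (2 * L) 2 x2 := IsHP_sub _ _ _ _ _ hx1H (IsHP_D 2 (2 * L) 2 Y2 hY2H)
  have hDY2R : ∀ i, D Y2 i ∈ Rpl := D_mem _ IsLI_Rpl _ hY2R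
  have hx2R : ∀ i, x2 i ∈ Rpl := by
    intro i
    rw [hx2, Finsupp.sub_apply]
    exact Submodule.sub_mem _ (hx1R i) (hDY2R i)
  have hx2all : ∀ j, xco j x2 = 0 := by
    intro j
    by_cases hjL : j < 2 * L + 1
    · ext i
      have h1 := xco_D 3 (2 * L) j Y2 hY2H hY2R i
      rw [hY2, sn_xco_YY _ _ j hjL] at h1
      rcases Nat.even_or_odd j with hj | hj
      · have hno : ¬ Odd j := by
          rintro ⟨s, hs'⟩
          obtain ⟨m, hm⟩ := hj
          omega
        rw [if_neg hno, hf3 j hj, map_zero] at h1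
        rw [hx2, sn_sub, hx1even j hj, hY2, h1]
        simp
      · have h2 : f (j - 1) = 0 := by
          apply hf3
          obtain ⟨s, hs'⟩ := hj
          exact ⟨s, by omega⟩
        rw [if_pos hj, sn_xco_YY _ _ (j - 1) (by omega), h2, map_zero, map_zero, hf2 j hj] at h1
        rw [hx2, sn_sub, hY2, h1]
        simp
    · exact sn_xco_big 2 (2 * L) 1 j x2 hx2H (by omega)
  refine ⟨Y1 + Y2, x2, IsHP_add _ _ _ _ _ hY1H hY2H, ?_, hx2H, ?_, ?_⟩
  · intro i
    rw [Finsupp.add_apply]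
    exact Submodule.add_mem _ (hY1R i) (hY2R i)
  · intro i
    have h1 := xco_decomp 2 (2 * L) x2 hx2H hx2R i
    have h2 : ∀ j ∈ Finset.range (2 * L + 1), xco j x2 i • bw (xw j) = 0 := by
      intro j _
      rw [hx2all j]
      simp
    rw [Finset.sum_eq_zero h2, sub_zero] at h1
    exact h1
  · rw [hx2, hx1, map_add]
    abel

theorem n2_conv (L l m : ℕ) (h : l + m + 1 = L) (v : Ph) (hv : IsHP 3 (2 * L) 2 v)
    (hX : ∀ i, v i ∈ Rpl) : th l (xco (2 * m) (D v)) = 0 := by
  have hno : ¬ Odd (2 * m) := by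
    rintro ⟨s, hs'⟩
    omega
  have h1 : xco (2 * m) (D v) = D0 (xco (2 * m) v) := by
    ext i
    rw [xco_D 3 (2 * L) (2 * m) v hv hX i, if_neg hno, add_zero]
  have hc : IsH0 2 (2 * l + 2) 1 (xco (2 * m) (D v)) := by
    intro i hi
    obtain ⟨h2, h3, h4⟩ := xco_IsH0 2 (2 * L) 1 (2 * m) (D v) (IsHP_D 2 (2 * L) 2 v hv) i hi
    exact ⟨h2, by omega, h4⟩
  have hD0 : D0 (xco (2 * m) (D v)) = 0 := by
    apply sn_D0_zero (D v) (2 * m) 2 (2 * L) (IsHP_D 2 (2 * L) 2 v hv)
      (D_mem _ IsLI_Rpl _ hX)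
    · intro i
      rw [D_D]
      exact Submodule.zero_mem _
    · exact fun h => absurd h hno
  refine (h2_even l (xco (2 * m) (D v)) hc hD0).1 ⟨xco (2 * m) v, ?_, h1.symm⟩
  intro i hi
  obtain ⟨h2, h3, h4⟩ := xco_IsH0 3 (2 * L) 1 (2 * m) v hv i hi
  exact ⟨h2, by omega, h4⟩

end BrV
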