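import Pool.Agent.Lib.BrV.SDefs
import Pool.Agent.Lib.BrV.LowN

/-!
# BrV.SProj: words modulo `F 1`; `z`-degree one  (1.1)

Head of a list = LAST letter.  `p = bw [true]`.
* `gp`: projection onto `G'` along `F 1`.  `gp` preserves bidegrees: `F 1` and `G'` are stable under `cmp` (`IsLI_F`; `cmp` preserves `G'`), uniqueness.
* `gp_T` (1.1): `y z p^i - ta i • (y*p^i) z ∈ F 1`.  `sh_cons`: `(y z)*p^i = ∑_{j ≤ i} (-1)^j (y*p^j) z p^(i-j)` (induction on `i`: `mu (app false y) (bw (pw (i+1))) = app true (mu (app false y) (bw (pw i))) + (-1)^(i+1) app false (mu y (bw (pw (i+1))))`).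
  It is in `F 1` for `i ≥ 1`.  Strong induction on `i`: `y z p^i = - ∑_{j=1}^i (-1)^j (y*p^j) z p^(i-j) = - ∑_{j ≥ 1} (-1)^j ta (i-j) ((y*p^j)*p^(i-j)) z = (- ∑_{j ≥ 1} (-1)^j ta (i-j) cc j (i-j)) (y*p^i) z` modulo `F 1` (`pow_mul`), and
  `∑_{j=0}^i (-1)^j ta (i-j) cc j (i-j) = 0` for `i ≥ 1`  (`ta_sum`; with `cc_formula`: only `j (i-j)` even contributes; `i` odd: the terms `j` and `i - j` cancel; `i = 2r`: `j = 2s`: `∑_s (-1)^(r-s) binom(r,s) = 0`, `ta (2t) = (-1)^t`).
* `z`-degree one: a word of bidegree `(m,1)` is `p^a z p^b`, `a + b = m`; `mu (bw (pw a)) (bw (pw b)) = cc a b • ..`, so it is `ta b * cc a b` times `x_m` modulo `F 1`.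
* `p_x`: `p*(p^m z) = (p*p^m) z + (-1)^m p^m z p` and `p^m z p = (p^m*p) z` modulo `F 1`: coefficient `cc 1 m + (-1)^m cc m 1`.
  `pp_x`: `p^2*(p^m z) = (p^2*p^m) z + (-1)^m ((p*p^m) z p + (-1)^m p^m z p p)` (`sh_cons` twice), modulo `F 1`: `cc 2 m + (-1)^m cc 1 m cc (m+1) 1 - cc m 2 = 0`.
  `pa_x`: for `a ≥ 3`: `p^a = (1 / cc (a-2) 2) p^(a-2)*p^2`, `F 1` is a left ideal.
* `R1_span`: `f` of bidegree `(m,1)` is a combination of the `p^i*(z p^j)`, `i + j = m`: `p^i*(z p^j) = p^i z p^j + (words p^s z p^(m-s), s < i)` (by `sh_cons`; or triangularity), induction on `i`.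
-/

namespace BrV

open Finsupp

private theorem gp_def (f : R) :
    gp f = ((Submodule.projectionOnto G' (F 1) isCompl_GF f : G') : R) := rfl

theorem gp_mem (f : R) : gp f ∈ G' := by
  rw [gp_def]
  exact (Submodule.projectionOnto G' (F 1) isCompl_GF f).2

theorem gp_of_mem (f : R) (h : f ∈ G') : gp f = f := by
  rw [gp_def]
  have h1 := Submodule.projectionOnto_apply_left isCompl_GF (⟨f, h⟩ : G')
  have h2 := congrArg (fun x : G' => (x : R)) h1
  exact h2

theorem gp_eq_zero (f : R) : gp f = 0 ↔ f ∈ F 1 := by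
  rw [gp_def, ← Submodule.projectionOnto_apply_eq_zero_iff isCompl_GF]
  exact Submodule.coe_eq_zero

theorem sub_gp (f : R) : f - gp f ∈ F 1 := by
  rw [← gp_eq_zero, map_sub, gp_of_mem (gp f) (gp_mem f), sub_self]

private theorem mem_G' (f : R) : f ∈ G' ↔ ∀ w, f (true :: w) = 0 := by
  unfold G'
  rw [LinearMap.mem_ker]
  constructor
  · intro h w
    rw [← del_apply, h]
    rfl
  · intro h
    ext w
    rw [del_apply, h w]
    rfl

private theorem cmp_val (n k : ℕ) (f : R) (w : Wd) :
    cmp n k f w = if np w = n ∧ nz w = k then f w else 0 := by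
  unfold cmp
  rw [Finsupp.filter_apply]

private theorem cmp_sub (n k : ℕ) (f g : R) : cmp n k (f - g) = cmp n k f - cmp n k g := by
  ext w
  rw [Finsupp.sub_apply, cmp_val, cmp_val, cmp_val, Finsupp.sub_apply]
  split_ifs
  · rfl
  · rw [sub_zero]

theorem gp_IsH (n k : ℕ) (f : R) (h : IsH n k f) : IsH n k (gp f) := by
  have h1 : cmp n k (gp f) ∈ G' := by
    rw [mem_G']
    intro w
    rw [cmp_val, (mem_G' _).1 (gp_mem f) w]
    exact ite_self _
  have h2 : f - cmp n k (gp f) ∈ F 1 := by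
    have := (IsLI_F 1).cmp_mem n k _ (sub_gp f)
    rwa [cmp_sub, cmp_of_IsH n k f h] at this
  have h3 : gp f - cmp n k (gp f) = 0 := by
    apply G_inf_F1
    · exact Submodule.sub_mem _ (gp_mem f) h1
    · have h4 := Submodule.sub_mem _ h2 (sub_gp f)
      have h5 : f - cmp n k (gp f) - (f - gp f) = gp f - cmp n k (gp f) := by abel
      rwa [h5] at h4
  rw [sub_eq_zero.1 h3]
  exact IsH_cmp n k (gp f)

private theorem cc_ff (a b : ℕ) :
    cc (2 * a) (2 * b) = ((a + b).choose a : ℝ) ∧ cc (2 * a + 1) (2 * b) = ((a + b).choose a : ℝ) ∧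
    cc (2 * a) (2 * b + 1) = ((a + b).choose a : ℝ) ∧ cc (2 * a + 1) (2 * b + 1) = 0 := by
  have st : ∀ x y : ℕ, cc (x + 1) (y + 1) = cc (x + 1) y + (-1) ^ (y + 1) * cc x (y + 1) :=
    fun x y => by rw [cc]
  have e1 : ∀ t : ℕ, (-1 : ℝ) ^ (2 * t + 1) = -1 := fun t => (odd_two_mul_add_one t).neg_one_pow
  have e3 : ∀ t : ℕ, (-1 : ℝ) ^ (2 * t) = 1 := fun t => (even_two_mul t).neg_one_pow
  induction a generalizing b with
  | zero =>
    have h0 : ∀ t, cc (2 * 0) t = 1 := fun t => cc_zero_left t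
    refine ⟨by rw [h0]; simp, ?_, by rw [h0]; simp, ?_⟩
    · rw [Nat.mul_zero, Nat.zero_add, cc_one_left, if_pos (even_two_mul b)]; simp
    · rw [Nat.mul_zero, Nat.zero_add, cc_one_left, if_neg]
      rw [Nat.even_add_one]
      exact not_not.mpr (even_two_mul b)
  | succ a iha =>
    have r0 : 2 * (a + 1) = 2 * a + 1 + 1 := by ring
    induction b with
    | zero =>
      have h0 : ∀ t, cc t (2 * 0) = 1 := fun t => cc_zero_right t
      have hc : (-1 : ℝ) ^ (0 + 1) = -1 := by norm_num
      refine ⟨by rw [h0]; simp, by rw [h0]; simp, ?_, ?_⟩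
      · rw [Nat.mul_zero, Nat.zero_add, cc_one, if_pos (even_two_mul _)]; simp
      · rw [Nat.mul_zero, Nat.zero_add, cc_one, if_neg]
        rw [Nat.even_add_one]
        exact not_not.mpr (even_two_mul _)
    | succ b ihb =>
      obtain ⟨b1, b2, b3, b4⟩ := ihb
      have s0 : 2 * (b + 1) = 2 * b + 1 + 1 := by ring
      obtain ⟨a1, a2, a3, a4⟩ := iha (b + 1)
      obtain ⟨c1, c2, c3, c4⟩ := iha b
      have t1 : cc (2 * (a + 1)) (2 * (b + 1)) = ((a + 1 + (b + 1)).choose (a + 1) : ℝ) := by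
        have h1 := st (2 * a + 1) (2 * b + 1)
        rw [← r0, ← s0, b3, a2, e3] at h1
        rw [h1]
        have h2 : (a + 1 + (b + 1)).choose (a + 1) =
            (a + (b + 1)).choose a + (a + (b + 1)).choose (a + 1) := by
          have : a + 1 + (b + 1) = (a + (b + 1)) + 1 := by ring
          rw [this, Nat.choose_succ_succ]
        have h3 : a + 1 + b = a + (b + 1) := by ring
        rw [h2, h3]
        push_cast
        ring
      have t2 : cc (2 * (a + 1) + 1) (2 * (b + 1)) = ((a + 1 + (b + 1)).choose (a + 1) : ℝ) := by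
        have h1 := st (2 * (a + 1)) (2 * b + 1)
        rw [← s0, b4, t1, e3] at h1
        rw [h1]
        ring
      have t3 : cc (2 * (a + 1)) (2 * (b + 1) + 1) = ((a + 1 + (b + 1)).choose (a + 1) : ℝ) := by
        have h1 := st (2 * a + 1) (2 * (b + 1))
        rw [← r0, t1, a4] at h1
        rw [h1]
        ring
      refine ⟨t1, t2, t3, ?_⟩
      have h1 := st (2 * (a + 1)) (2 * (b + 1))
      rw [t2, t3, e1] at h1
      rw [h1]
      ring

theorem cc_formula (a b : ℕ) : cc a b = if Odd a ∧ Odd b then 0 else (((a + b) / 2).choose (a / 2) : ℝ) := by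
  rcases Nat.even_or_odd' a with ⟨s, rfl | rfl⟩ <;> rcases Nat.even_or_odd' b with ⟨t, rfl | rfl⟩
  · have h1 : ¬ (Odd (2 * s) ∧ Odd (2 * t)) := fun h => (Nat.not_odd_iff_even.2 (even_two_mul s)) h.1
    have h2 : (2 * s + 2 * t) / 2 = s + t := by omega
    have h3 : 2 * s / 2 = s := by omega
    rw [if_neg h1, h2, h3]
    exact (cc_ff s t).1
  · have h1 : ¬ (Odd (2 * s) ∧ Odd (2 * t + 1)) :=
      fun h => (Nat.not_odd_iff_even.2 (even_two_mul s)) h.1
    have h2 : (2 * s + (2 * t + 1)) / 2 = s + t := by omega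
    have h3 : 2 * s / 2 = s := by omega
    rw [if_neg h1, h2, h3]
    exact (cc_ff s t).2.2.1
  · have h1 : ¬ (Odd (2 * s + 1) ∧ Odd (2 * t)) :=
      fun h => (Nat.not_odd_iff_even.2 (even_two_mul t)) h.2
    have h2 : (2 * s + 1 + 2 * t) / 2 = s + t := by omega
    have h3 : (2 * s + 1) / 2 = s := by omega
    rw [if_neg h1, h2, h3]
    exact (cc_ff s t).2.1
  · rw [if_pos ⟨odd_two_mul_add_one s, odd_two_mul_add_one t⟩]
    exact (cc_ff s t).2.2.2

private theorem ta_even (t : ℕ) : ta (2 * t) = (-1) ^ t := by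
  unfold ta
  have h : 2 * t * (2 * t - 1) / 2 = t * (2 * t - 1) := by
    rw [mul_assoc, Nat.mul_div_cancel_left _ (by norm_num)]
  rw [h]
  rcases Nat.eq_zero_or_pos t with rfl | ht
  · simp
  · have h2 : Odd (2 * t - 1) := ⟨t - 1, by omega⟩
    rw [mul_comm, _root_.pow_mul, h2.neg_one_pow]

private theorem ta_odd (t : ℕ) : ta (2 * t + 1) = (-1) ^ t := by
  unfold ta
  have h : (2 * t + 1) * (2 * t + 1 - 1) / 2 = t * (2 * t + 1) := by
    have : (2 * t + 1) * (2 * t + 1 - 1) = 2 * (t * (2 * t + 1)) := by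
      rw [Nat.add_sub_cancel]; ring
    rw [this, Nat.mul_div_cancel_left _ (by norm_num)]
  rw [h, mul_comm, _root_.pow_mul, (odd_two_mul_add_one t).neg_one_pow]

private theorem sum_pairs (f : ℕ → ℝ) (m : ℕ) :
    ∑ j ∈ Finset.range (2 * m), f j = ∑ s ∈ Finset.range m, (f (2 * s) + f (2 * s + 1)) := by
  induction m with
  | zero => simp
  | succ m ih =>
    have h : 2 * (m + 1) = 2 * m + 1 + 1 := by ring
    rw [h, Finset.sum_range_succ, Finset.sum_range_succ, ih, Finset.sum_range_succ, add_assoc]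

theorem ta_sum (i : ℕ) (h : 1 ≤ i) :
    ∑ j ∈ Finset.range (i + 1), (-1 : ℝ) ^ j * ta (i - j) * cc j (i - j) = 0 := by
  have e0 : ∀ s : ℕ, (-1 : ℝ) ^ (2 * s) = 1 := fun s => (even_two_mul s).neg_one_pow
  have e1 : ∀ s : ℕ, (-1 : ℝ) ^ (2 * s + 1) = -1 := fun s => (odd_two_mul_add_one s).neg_one_pow
  rcases Nat.even_or_odd' i with ⟨r, rfl | rfl⟩
  · have hr : r ≠ 0 := by omega
    rw [Finset.sum_range_succ, sum_pairs]
    have h1 : ∀ s ∈ Finset.range r, (-1 : ℝ) ^ (2 * s) * ta (2 * r - 2 * s) * cc (2 * s) (2 * r - 2 * s) +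
        (-1 : ℝ) ^ (2 * s + 1) * ta (2 * r - (2 * s + 1)) * cc (2 * s + 1) (2 * r - (2 * s + 1)) =
        (-1) ^ (r - s) * (r.choose s : ℝ) := by
      intro s hs
      have hs' := Finset.mem_range.1 hs
      have h2 : 2 * r - 2 * s = 2 * (r - s) := by omega
      have h3 : 2 * r - (2 * s + 1) = 2 * (r - s - 1) + 1 := by omega
      have h4 : s + (r - s) = r := by omega
      rw [h2, h3, e0, e1, ta_even, ta_odd, (cc_ff s (r - s)).1, (cc_ff s (r - s - 1)).2.2.2, h4]
      ring
    have h5 : 2 * r - 2 * r = 2 * 0 := by omega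
    rw [Finset.sum_congr rfl h1, h5, e0, ta_even, (cc_ff r 0).1]
    have h6 : (-1 : ℝ) ^ 0 * ((r + 0).choose r : ℝ) = (-1) ^ (r - r) * (r.choose r : ℝ) := by
      rw [Nat.sub_self, Nat.add_zero]
    have h7 : (1 : ℝ) * (-1) ^ 0 * ((r + 0).choose r : ℝ) = (-1) ^ (r - r) * (r.choose r : ℝ) := by
      rw [one_mul, h6]
    rw [h7, ← Finset.sum_range_succ (fun s => (-1 : ℝ) ^ (r - s) * (r.choose s : ℝ))]
    have h8 := add_pow (1 : ℝ) (-1) r
    rw [add_neg_cancel, zero_pow hr] at h8
    rw [h8]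
    refine Finset.sum_congr rfl fun s _ => ?_
    rw [one_pow, one_mul]
  · have h0 : 2 * r + 1 + 1 = 2 * (r + 1) := by ring
    rw [h0, sum_pairs]
    refine Finset.sum_eq_zero fun s hs => ?_
    have hs' := Finset.mem_range.1 hs
    have h2 : 2 * r + 1 - 2 * s = 2 * (r - s) + 1 := by omega
    have h3 : 2 * r + 1 - (2 * s + 1) = 2 * (r - s) := by omega
    rw [h2, h3, e0, e1, ta_even, ta_odd, (cc_ff s (r - s)).2.2.1, (cc_ff s (r - s)).2.1]
    ring

private theorem bw_ext {φ ψ : R →ₗ[ℝ] R} (h : ∀ w, φ (bw w) = ψ (bw w)) : φ = ψ :=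
  Finsupp.lhom_ext fun w b => by
    have h1 : (single w b : R) = b • bw w := by simp [bw]
    rw [h1, map_smul, map_smul, h w]

private theorem sg_pw (i : ℕ) : sg (pw i) = (-1) ^ i := by
  rw [sg, np_pw]

/-- multiplication of `y z` by `p^(i+1)` -/
private theorem yz_step (y : R) (i : ℕ) : mu (app false y) (bw (pw (i + 1))) =
    app true (mu (app false y) (bw (pw i))) +
      (-1 : ℝ) ^ (i + 1) • app false (mu y (bw (pw (i + 1)))) := by
  have h : (mu.flip (bw (pw (i + 1)))).comp (app false) =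
      (app true).comp ((mu.flip (bw (pw i))).comp (app false)) +
        (-1 : ℝ) ^ (i + 1) • (app false).comp (mu.flip (bw (pw (i + 1)))) := by
    refine bw_ext fun v => ?_
    show mu (app false (bw v)) (bw (pw (i + 1))) = app true (mu (app false (bw v)) (bw (pw i))) +
      (-1 : ℝ) ^ (i + 1) • app false (mu (bw v) (bw (pw (i + 1))))
    have e1 : pw (i + 1) = true :: pw i := rfl
    have e2 : sg (true :: pw i) = (-1) ^ (i + 1) := by rw [← e1, sg_pw]
    rw [app_bw, mu_bw, mu_bw, mu_bw, e1, sh_cons, e2]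
  exact LinearMap.congr_fun h y

private theorem yz_sum (y : R) (i : ℕ) : mu (app false y) (bw (pw i)) =
    ∑ j ∈ Finset.range (i + 1), (-1 : ℝ) ^ j •
      ((app true) ^ (i - j)) (app false (mu y (bw (pw j)))) := by
  induction i with
  | zero =>
    have e : bw (pw 0) = bw [] := rfl
    rw [e, mu_one, Finset.sum_range_one, e, mu_one]
    simp
  | succ i ih =>
    rw [yz_step, ih, map_sum, Finset.sum_range_succ _ (i + 1), Nat.sub_self, pow_zero]
    congr 1
    refine Finset.sum_congr rfl fun j hj => ?_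
    have hj' := Finset.mem_range.1 hj
    have h1 : i + 1 - j = (i - j) + 1 := by omega
    rw [h1, pow_succ', map_smul]
    rfl

private theorem mem_F1 (f : R) (i : ℕ) (hi : 1 ≤ i) : mu f (bw (pw i)) ∈ F 1 := by
  unfold F
  exact Submodule.mem_iSup_of_mem i (Submodule.mem_iSup_of_mem hi ⟨f, rfl⟩)

theorem gp_T (y : R) (i : ℕ) :
    ((app true) ^ i) (app false y) - ta i • app false (mu y (bw (pw i))) ∈ F 1 := by
  induction i using Nat.strong_induction_on generalizing y with
  | _ i ih =>
    rcases Nat.eq_zero_or_pos i with rfl | hi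
    · have e : bw (pw 0) = bw [] := rfl
      have e2 : ta 0 = 1 := by simp [ta]
      rw [e, mu_one, e2, one_smul, pow_zero]
      show app false y - app false y ∈ F 1
      rw [sub_self]
      exact Submodule.zero_mem _
    · set tm : ℕ → R := fun j => (-1 : ℝ) ^ j • (((app true) ^ (i - j)) (app false (mu y (bw (pw j)))) -
        ta (i - j) • app false (mu (mu y (bw (pw j))) (bw (pw (i - j))))) with htm
      have h1 : ∑ j ∈ Finset.range (i + 1), tm j ∈ F 1 := by
        have h2 : ∑ j ∈ Finset.range (i + 1), tm j = mu (app false y) (bw (pw i)) -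
            (∑ j ∈ Finset.range (i + 1), (-1 : ℝ) ^ j * ta (i - j) * cc j (i - j)) •
              app false (mu y (bw (pw i))) := by
          rw [yz_sum, Finset.sum_smul, ← Finset.sum_sub_distrib]
          refine Finset.sum_congr rfl fun j hj => ?_
          have hj' := Finset.mem_range.1 hj
          have h3 : j + (i - j) = i := by omega
          rw [htm]
          show (-1 : ℝ) ^ j • (_ - _) = _
          rw [mu_assoc, pow_mul, h3, map_smul, map_smul, smul_sub, smul_smul, smul_smul]
        rw [h2, ta_sum i hi, zero_smul, sub_zero]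
        exact mem_F1 _ i hi
      rw [Finset.sum_range_succ'] at h1
      have h4 : ∑ j ∈ Finset.range i, tm (j + 1) ∈ F 1 := by
        refine Submodule.sum_mem _ fun j hj => Submodule.smul_mem _ _ ?_
        have hj' := Finset.mem_range.1 hj
        exact ih (i - (j + 1)) (by omega) _
      have h5 : tm 0 ∈ F 1 := by
        have := Submodule.sub_mem _ h1 h4
        rwa [add_sub_cancel_left] at this
      have e : bw (pw 0) = bw [] := rfl
      rw [htm] at h5
      have h6 : (-1 : ℝ) ^ 0 • (((app true) ^ (i - 0)) (app false (mu y (bw (pw 0)))) -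
        ta (i - 0) • app false (mu (mu y (bw (pw 0))) (bw (pw (i - 0))))) ∈ F 1 := h5
      rw [pow_zero, one_smul, e, mu_one, Nat.sub_zero] at h6
      exact h6

private theorem xw_mem (m : ℕ) : bw (xw m) ∈ G' := by
  rw [mem_G']
  intro w
  unfold bw xw
  exact Finsupp.single_eq_of_ne (by simp)

private theorem bw_self (w : Wd) : (bw w : R) w = 1 := by
  unfold bw
  exact Finsupp.single_eq_same

private theorem xc_def (m : ℕ) (f : R) : xc m f = gp f (xw m) := rfl

theorem xc_xw (m : ℕ) : xc m (bw (xw m)) = 1 := by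
  rw [xc_def, gp_of_mem _ (xw_mem m), bw_self]

theorem xc_F1 (m : ℕ) (f : R) (h : f ∈ F 1) : xc m f = 0 := by
  rw [xc_def, (gp_eq_zero f).2 h]
  rfl

private theorem np_xw (m : ℕ) : np (xw m) = m := by
  have : np (xw m) = np (pw m) := by simp [np, xw]
  rw [this, np_pw]

private theorem nz_xw (m : ℕ) : nz (xw m) = 1 := by
  have : nz (xw m) = nz (pw m) + 1 := by simp [nz, xw]
  rw [this, nz_pw]

/-- other bidegrees -/
theorem xc_other (m n k : ℕ) (f : R) (h : IsH n k f) (hn : n ≠ m ∨ k ≠ 1) : xc m f = 0 := by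
  rw [xc_def]
  by_contra hne
  obtain ⟨h1, h2⟩ := gp_IsH n k f h (xw m) hne
  rw [np_xw] at h1
  rw [nz_xw] at h2
  rcases hn with hn | hn
  · exact hn h1.symm
  · exact hn h2.symm

theorem R1_decomp (m : ℕ) (f : R) (h : IsH m 1 f) : f - xc m f • bw (xw m) ∈ F 1 := by
  have h1 : gp f = xc m f • bw (xw m) := by
    ext w
    rw [Finsupp.smul_apply, smul_eq_mul]
    by_cases hw : w = xw m
    · rw [hw, bw_self, mul_one, xc_def]
    · have h2 : (bw (xw m) : R) w = 0 := by
        unfold bw
        exact Finsupp.single_eq_of_ne hw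
      rw [h2, mul_zero]
      by_contra hne
      obtain ⟨h3, h4⟩ := gp_IsH m 1 f h w hne
      cases w with
      | nil => simp [nz] at h4
      | cons a w =>
        cases a with
        | true => exact hne ((mem_G' _).1 (gp_mem f) w)
        | false =>
          apply hw
          have h5 : nz w = 0 := by simpa [nz] using h4
          have h6 : np w = m := by simpa [np] using h3
          unfold xw
          rw [eq_pw w h5, h6]
  rw [← h1]
  exact sub_gp f

private theorem app_pow_bw (b : ℕ) (w : Wd) : ((app true) ^ b) (bw w) = bw (pw b ++ w) := by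
  induction b with
  | zero => rfl
  | succ b ih =>
    rw [pow_succ', Module.End.mul_apply, ih, app_bw]
    rfl

theorem xc_word (a b : ℕ) : xc (a + b) (bw (pw b ++ (false :: pw a))) = ta b * cc a b := by
  have h1 := gp_T (bw (pw a)) b
  rw [app_bw, app_pow_bw, pow_mul, map_smul, app_bw, smul_smul] at h1
  have h2 := xc_F1 (a + b) _ h1
  rw [map_sub, map_smul] at h2
  have h3 : xc (a + b) (bw (false :: pw (a + b))) = 1 := xc_xw (a + b)
  rw [h3, smul_eq_mul, mul_one] at h2
  exact sub_eq_zero.1 h2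

private theorem ta_one : ta 1 = 1 := by simp [ta]

private theorem ta_two : ta 2 = -1 := by simp [ta]

private theorem sh_emp (w : Wd) : sh [] w = bw w := by
  rw [← mu_bw, nil_mu]

private theorem sg_fpw (m : ℕ) : sg (false :: pw m) = (-1) ^ m := by
  have : sg (false :: pw m) = sg (pw m) := by simp [sg, np]
  rw [this, sg_pw]

private theorem sh_p_x (m : ℕ) : sh [true] (false :: pw m) =
    cc 1 m • bw (false :: pw (1 + m)) + (-1 : ℝ) ^ m • bw (true :: false :: pw m) := by
  have h1 : sh [true] (pw m) = cc 1 m • bw (pw (1 + m)) := by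
    rw [← mu_bw]
    exact pow_mul 1 m
  rw [sh_cons, h1, map_smul, app_bw, sg_fpw, sh_emp, app_bw]

private theorem xw_IsH (m : ℕ) : IsH m 1 (bw (xw m)) := by
  have := IsH_bw (xw m)
  rwa [np_xw, nz_xw] at this

private theorem pw_IsH (a : ℕ) : IsH a 0 (bw (pw a)) := by
  have := IsH_bw (pw a)
  rwa [np_pw, nz_pw] at this

private theorem mul_xw_IsH (a m : ℕ) : IsH (a + m) 1 (mu (bw (pw a)) (bw (xw m))) := by
  have := IsH_mu a 0 m 1 _ _ (pw_IsH a) (xw_IsH m)
  rwa [Nat.zero_add] at this

theorem p_x (m : ℕ) : mu (bw [true]) (bw (xw m)) -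
    (if Even m then (2 : ℝ) else 0) • bw (xw (m + 1)) ∈ F 1 := by
  have h1 := R1_decomp (1 + m) _ (mul_xw_IsH 1 m)
  have e1 : (bw (pw 1) : R) = bw [true] := rfl
  have h2 : xc (1 + m) (mu (bw [true]) (bw (xw m))) = if Even m then (2 : ℝ) else 0 := by
    have e2 : xw m = false :: pw m := rfl
    rw [mu_bw, e2, sh_p_x, map_add, map_smul, map_smul]
    have h3 : xc (1 + m) (bw (false :: pw (1 + m))) = 1 := xc_xw (1 + m)
    have h4 : xc (1 + m) (bw (true :: false :: pw m)) = ta 1 * cc m 1 := by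
      rw [Nat.add_comm 1 m]
      exact xc_word m 1
    rw [h3, h4, ta_one, cc_one, cc_one_left]
    split_ifs with hm
    · rw [hm.neg_one_pow]
      norm_num
    · norm_num
  rw [e1, h2, Nat.add_comm 1 m] at h1
  exact h1

theorem pa_x (a m : ℕ) (h : 2 ≤ a) : mu (bw (pw a)) (bw (xw m)) ∈ F 1 := by
  have h2 : mu (bw (pw 2)) (bw (xw m)) ∈ F 1 := by
    have h1 := R1_decomp (2 + m) _ (mul_xw_IsH 2 m)
    have h3 : xc (2 + m) (mu (bw (pw 2)) (bw (xw m))) = 0 := by
      have e2 : xw m = false :: pw m := rfl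
      have e3 : pw 2 = true :: [true] := rfl
      have h4 : sh (true :: [true]) (pw m) = cc 2 m • bw (pw (2 + m)) := by
        rw [← mu_bw]
        exact pow_mul 2 m
      rw [mu_bw, e2, e3, sh_cons, h4, map_smul, app_bw, sg_fpw, sh_p_x]
      simp only [map_add, map_smul, app_bw]
      have h5 : xc (2 + m) (bw (false :: pw (2 + m))) = 1 := xc_xw (2 + m)
      have h6 : xc (2 + m) (bw (true :: false :: pw (1 + m))) = ta 1 * cc (1 + m) 1 := by
        have : 2 + m = 1 + m + 1 := by ring
        rw [this]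
        exact xc_word (1 + m) 1
      have h7 : xc (2 + m) (bw (true :: true :: false :: pw m)) = ta 2 * cc m 2 := by
        rw [Nat.add_comm 2 m]
        exact xc_word m 2
      have h8 : cc 2 m = cc m 2 := by
        have g1 : ¬ (Odd 2 ∧ Odd m) := fun hh => (by decide : ¬ Odd 2) hh.1
        have g2 : ¬ (Odd m ∧ Odd 2) := fun hh => (by decide : ¬ Odd 2) hh.2
        rw [cc_formula, cc_formula, if_neg g1, if_neg g2, Nat.add_comm 2 m]
        have g3 : (m + 2) / 2 = m / 2 + 1 := by omega
        have g4 : 2 / 2 = 1 := rfl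
        rw [g3, g4, Nat.choose_one_right, Nat.choose_succ_self_right]
      have h9 : cc 1 m * cc (1 + m) 1 = 0 := by
        rw [cc_one, cc_one_left]
        by_cases hm : Even m
        · have : ¬ Even (1 + m) := by
            rw [Nat.add_comm, Nat.even_add_one]
            exact not_not.mpr hm
          rw [if_neg this, mul_zero]
        · rw [if_neg hm, zero_mul]
      have h10 : (-1 : ℝ) ^ m * (-1 : ℝ) ^ m = 1 := by
        rw [← mul_pow]
        norm_num
      rw [h5, h6, h7, ta_one, ta_two, h8]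
      simp only [smul_eq_mul]
      linear_combination (-1 : ℝ) ^ m * h9 - cc m 2 * h10
    rw [h3, zero_smul, sub_zero] at h1
    exact h1
  have h3 := pow_mul (a - 2) 2
  have h4 : a - 2 + 2 = a := by omega
  rw [h4] at h3
  have h5 : bw (pw a) = (cc (a - 2) 2)⁻¹ • mu (bw (pw (a - 2))) (bw (pw 2)) := by
    rw [h3, smul_smul, inv_mul_cancel₀ (cc_two_pos _).ne', one_smul]
  rw [h5, map_smul, LinearMap.smul_apply, mu_assoc]
  exact Submodule.smul_mem _ _ ((IsLI_F 1).mul_mem _ _ h2)

/-- the word `p^s z p^j` -/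
private noncomputable def E (j s : ℕ) : R := bw (pw j ++ (false :: pw s))

private theorem app_E (j s : ℕ) : app true (E j s) = E (j + 1) s := by
  unfold E
  rw [app_bw]
  rfl

/-- span of the words `p^t z p^(n-t)`, `t < i` -/
private noncomputable def Lo (n i : ℕ) : Submodule ℝ R :=
  Submodule.span ℝ {x | ∃ t j, t < i ∧ j + t = n ∧ x = E j t}

private theorem app_Lo (n i : ℕ) (x : R) (hx : x ∈ Lo n i) : app true x ∈ Lo (n + 1) i := by
  unfold Lo at hx ⊢
  induction hx using Submodule.span_induction with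
  | mem x hx =>
    obtain ⟨t, j, ht, hj, rfl⟩ := hx
    rw [app_E]
    exact Submodule.subset_span ⟨t, j + 1, ht, by omega, rfl⟩
  | zero => rw [map_zero]; exact Submodule.zero_mem _
  | add x y _ _ h1 h2 => rw [map_add]; exact Submodule.add_mem _ h1 h2
  | smul c x _ h1 => rw [map_smul]; exact Submodule.smul_mem _ _ h1

private theorem Lo_mono (n i : ℕ) : Lo n i ≤ Lo n (i + 1) := by
  refine Submodule.span_mono ?_
  rintro x ⟨t, j, ht, hj, rfl⟩
  exact ⟨t, j, by omega, hj, rfl⟩

private theorem E_mem_Lo (n j s i : ℕ) (h : s < i) (h2 : j + s = n) : E j s ∈ Lo n i :=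
  Submodule.subset_span ⟨s, j, h, h2, rfl⟩

private theorem prod_E (i j : ℕ) : sh (pw i) (pw j ++ [false]) - E j i ∈ Lo (i + j) i := by
  induction i generalizing j with
  | zero =>
    have h : sh (pw 0) (pw j ++ [false]) = E j 0 := sh_emp _
    rw [h, sub_self]
    exact Submodule.zero_mem _
  | succ i ihi =>
    induction j with
    | zero =>
      have e1 : sh (pw (i + 1)) (pw 0 ++ [false]) = E 0 (i + 1) + app true (sh (pw i) (pw 0 ++ [false])) := by
        have e2 : sh (pw (i + 1)) (pw 0 ++ [false]) = sh (true :: pw i) (false :: []) := rfl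
        have e3 : sg (false :: []) = 1 := by simp [sg, np]
        rw [e2, sh_cons, e3, one_smul, sh_nil, app_bw]
        rfl
      rw [e1, add_sub_cancel_left]
      have h1 := app_Lo _ _ _ (ihi 0)
      rw [map_sub, app_E] at h1
      have h2 : E (0 + 1) i ∈ Lo (i + 1 + 0) (i + 1) := E_mem_Lo _ _ _ _ (by omega) (by omega)
      have h3 := Lo_mono _ _ h1
      have h4 := Submodule.add_mem _ h3 h2
      rwa [sub_add_cancel] at h4
    | succ j ihj =>
      have e1 : sh (pw (i + 1)) (pw (j + 1) ++ [false]) =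
          app true (sh (pw (i + 1)) (pw j ++ [false])) +
            sg (pw (j + 1) ++ [false]) • app true (sh (pw i) (pw (j + 1) ++ [false])) := by
        have e2 : sh (pw (i + 1)) (pw (j + 1) ++ [false]) =
          sh (true :: pw i) (true :: (pw j ++ [false])) := rfl
        rw [e2, sh_cons]
        rfl
      have h1 := app_Lo _ _ _ ihj
      rw [map_sub, app_E] at h1
      have h2 := app_Lo _ _ _ (ihi (j + 1))
      rw [map_sub, app_E] at h2
      have e4 : i + 1 + (j + 1) = i + 1 + j + 1 := by ring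
      have e5 : i + (j + 1) + 1 = i + 1 + (j + 1) := by ring
      rw [← e4] at h1
      rw [e5] at h2
      have h3 : E (j + 1 + 1) i ∈ Lo (i + 1 + (j + 1)) (i + 1) :=
        E_mem_Lo _ _ _ _ (by omega) (by omega)
      have h4 := Submodule.add_mem _ (Lo_mono _ _ h2) h3
      rw [sub_add_cancel] at h4
      have h5 := Submodule.add_mem _ h1 (Submodule.smul_mem _ (sg (pw (j + 1) ++ [false])) h4)
      rw [e1, add_sub_right_comm]
      exact h5

private theorem word_one (w : Wd) (h : nz w = 1) : ∃ j s, w = pw j ++ (false :: pw s) ∧ j + s = np w := by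
  induction w with
  | nil => simp [nz] at h
  | cons a w ih =>
    cases a with
    | true =>
      have h' : nz w = 1 := by simpa [nz] using h
      obtain ⟨j, s, h1, h2⟩ := ih h'
      refine ⟨j + 1, s, ?_, ?_⟩
      · conv_lhs => rw [h1]
        rfl
      · have : np (true :: w) = np w + 1 := by simp [np]
        omega
    | false =>
      have h' : nz w = 0 := by simpa [nz] using h
      refine ⟨0, np w, ?_, ?_⟩
      · conv_lhs => rw [eq_pw w h']
        rfl
      · have : np (false :: w) = np w := by simp [np]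
        omega

theorem R1_span (m : ℕ) (f : R) (h : IsH m 1 f) : ∃ t : ℕ → ℝ,
    f = ∑ i ∈ Finset.range (m + 1), t i • mu (bw (pw i)) (bw (pw (m - i) ++ [false])) := by
  set P : Submodule ℝ R := Submodule.span ℝ (Set.range fun i : Fin (m + 1) =>
    mu (bw (pw i)) (bw (pw (m - i) ++ [false]))) with hP
  have hE : ∀ s, s ≤ m → E (m - s) s ∈ P := by
    intro s
    induction s using Nat.strong_induction_on with
    | _ s ih =>
      intro hs
      have h1 := prod_E s (m - s)
      have h2 : Lo (s + (m - s)) s ≤ P := by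
        unfold Lo
        rw [Submodule.span_le]
        rintro x ⟨t, j, ht, hj, rfl⟩
        have : j = m - t := by omega
        rw [this]
        exact ih t ht (by omega)
      have h3 : sh (pw s) (pw (m - s) ++ [false]) ∈ P := by
        rw [hP]
        refine Submodule.subset_span ⟨⟨s, by omega⟩, ?_⟩
        show mu (bw (pw s)) (bw (pw (m - s) ++ [false])) = _
        rw [mu_bw]
      have h4 := Submodule.sub_mem _ h3 (h2 h1)
      rwa [sub_sub_cancel] at h4
  have hf : f ∈ P := by
    have h1 : f = ∑ w ∈ f.support, f w • bw w := by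
      conv_lhs => rw [← Finsupp.sum_single f]
      rw [Finsupp.sum]
      refine Finset.sum_congr rfl fun w _ => ?_
      simp [bw]
    rw [h1]
    refine Submodule.sum_mem _ fun w hw => Submodule.smul_mem _ _ ?_
    obtain ⟨h2, h3⟩ := h w (Finsupp.mem_support_iff.1 hw)
    obtain ⟨j, s, h4, h5⟩ := word_one w h3
    have h6 : j = m - s := by omega
    have h7 : bw w = E (m - s) s := by
      unfold E
      rw [h4, h6]
    rw [h7]
    exact hE s (by omega)
  rw [hP, Submodule.mem_span_range_iff_exists_fun] at hf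
  obtain ⟨c, hc⟩ := hf
  refine ⟨fun i => if hi : i < m + 1 then c ⟨i, hi⟩ else 0, ?_⟩
  rw [← hc, Finset.sum_range]
  refine Finset.sum_congr rfl fun i _ => ?_
  dsimp only
  rw [dif_pos i.2]

end BrV
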