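import Pool.Agent.Lib.BrV.Pure
import Pool.Agent.Lib.BrV.SKo

/-!
# BrV.SPure1: the pure part in homological degree one (2.1)

Same reduction as in `Pure.lean` (`Ac_pure`; copy its private lemmas): `N = Xk ⧸ Y`, `e a` = left multiplication by `bw (pw a)`; a coefficient of `x ∈ Φ(X)_{1,n,k}` at an index `i` with `kI i ≥ 1` is in `Y` (`hlow`);
the pure indices are `(false, [pw a])`.  `h2` gives the hypothesis `h2` of `bar_one` (components: for `v` a combination of words with `nz = k`, decompose into bidegrees).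
The coefficient at `[1] : List ℕ` is that of `(false, [pw 1]) = (false, [[true]])` (the block `p^2`).
`pure_one_conv`: `y ∈ Φ(X)_{2,n,k}`: modulo `Y` the coefficient of `D y` at `(false, [[true]])` comes from the pure indices only (if `kI i ≥ 1` then `y i ∈ Y`), `bar_one_conv`.
-/

namespace BrV

open Finsupp

private def jj (L : List ℕ) : Ix := (false, L.map pw)

private theorem pw_inj : Function.Injective pw := by
  intro a b h
  have h2 := congrArg np h
  rwa [np_pw, np_pw] at h2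

private theorem jj_inj : Function.Injective jj := by
  intro L L' h
  have h2 : L.map pw = L'.map pw := congrArg Prod.snd h
  exact (List.map_injective_iff.2 pw_inj) h2

private theorem pw_succ (a : ℕ) : pw (a + 1) = true :: pw a := rfl

private noncomputable def EE (a : ℕ) : R →ₗ[ℝ] R := mu (bw (pw a))

private theorem bm_pure (a b : ℕ) :
    bm (pw b) (pw a) = cc (b + 1) (a + 1) • bw (pw (a + b + 1)) := by
  apply app_inj true
  rw [app_bm, map_smul, app_bw, ← pw_succ, ← pw_succ, ← pw_succ, pow_mul]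
  congr 3
  omega

private theorem mg0_pure : ∀ L : List ℕ, mg0 (L.map pw) = mapDomain (List.map pw) (mgN L)
  | [] => by simp [mg0, mgN]
  | [a] => by simp [mg0, mgN]
  | a :: b :: L => by
    have ih := mg0_pure (b :: L)
    have h1 : mg0 ((a :: b :: L).map pw) =
        cl (bm (pw b) (pw a)) (L.map pw) - cns (pw a) (mg0 ((b :: L).map pw)) := by
      rw [List.map_cons, List.map_cons, mg0_cons2]
    have h2 : cns (pw a) (mapDomain (List.map pw) (mgN (b :: L))) =
        mapDomain (List.map pw) (mapDomain (List.cons a) (mgN (b :: L))) := by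
      rw [cns, lmapDomain_apply, ← mapDomain_comp, ← mapDomain_comp]
      rfl
    have h3 : mapDomain (List.map pw) (mgN (a :: b :: L)) =
        mapDomain (List.map pw) (single ((a + b + 1) :: L) (cc (b + 1) (a + 1))) -
        mapDomain (List.map pw) (mapDomain (List.cons a) (mgN (b :: L))) := by
      rw [mgN, ← lmapDomain_apply ℝ ℝ, map_sub, lmapDomain_apply, lmapDomain_apply]
    rw [h1, ih, h2, h3, bm_pure, cl_smul, cl_bw, mapDomain_single, List.map_cons, smul_single,
      smul_eq_mul, mul_one]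

private theorem rmP_emb (v : R) (c : List ℕ →₀ ℝ) :
    rmP v (emb false (mapDomain (List.map pw) c)) =
      mapDomain jj (c.mapRange (fun t => t • v) (zero_smul _ _)) := by
  induction c using Finsupp.induction_linear with
  | zero => simp [emb_zero]
  | add f g hf hg =>
    rw [mapDomain_add, emb_add, map_add, hf, hg, mapRange_add (fun x y => add_smul x y v),
      mapDomain_add]
  | single L a =>
    rw [mapDomain_single, emb_single, rmP_single, mapRange_single, mapDomain_single, map_smul,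
      LinearMap.smul_apply, nil_mu]
    rfl

private theorem D_pure (u : List ℕ →₀ R) : D (mapDomain jj u) = mapDomain jj (bd EE u) := by
  induction u using Finsupp.induction_linear with
  | zero => simp
  | add f g hf hg => rw [mapDomain_add, map_add, hf, hg, map_add, mapDomain_add]
  | single L v =>
    have h1 : bd EE (single L v) = bd0 EE L v := by
      rw [bd, lsum_single]
      rfl
    rw [mapDomain_single, D_single, h1]
    cases L with
    | nil =>
      have h2 : D1 (jj []) = 0 := rfl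
      have h3 : bd0 EE [] v = 0 := rfl
      rw [h2, h3, map_zero, mapDomain_zero]
    | cons a L =>
      have h2 : D1 (jj (a :: L)) = single (jj L) (bw (pw (a + 1))) -
          emb false (mg0 ((a :: L).map pw)) := rfl
      have h3 : bd0 EE (a :: L) v = single L (EE (a + 1) v) -
          (mgN (a :: L)).mapRange (fun t => t • v) (zero_smul _ _) := rfl
      have h4 : rmP v (single (jj L) (bw (pw (a + 1))) - emb false (mg0 ((a :: L).map pw))) =
          rmP v (single (jj L) (bw (pw (a + 1)))) - rmP v (emb false (mg0 ((a :: L).map pw))) :=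
        map_sub (rmP v) (single (jj L) (bw (pw (a + 1)))) (emb false (mg0 ((a :: L).map pw)))
      have h5 : ∀ f g : List ℕ →₀ R, mapDomain jj (f - g) = mapDomain jj f - mapDomain jj g :=
        fun f g => map_sub (lmapDomain R ℝ jj) f g
      rw [h2, h3, h4, h5, rmP_single, mg0_pure, rmP_emb, mapDomain_single]
      rfl

private theorem mapRange_bd {N N' : Type} [AddCommGroup N] [Module ℝ N] [AddCommGroup N']
    [Module ℝ N'] (e : ℕ → N →ₗ[ℝ] N) (e' : ℕ → N' →ₗ[ℝ] N') (φ : N →ₗ[ℝ] N')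
    (h : ∀ a v, φ (e a v) = e' a (φ v)) (u : List ℕ →₀ N) :
    mapRange.linearMap φ (bd e u) = bd e' (mapRange.linearMap φ u) := by
  induction u using Finsupp.induction_linear with
  | zero => simp
  | add f g hf hg => rw [map_add, map_add, hf, hg, map_add, map_add]
  | single L v =>
    have h1 : bd e (single L v) = bd0 e L v := by
      rw [bd, lsum_single]
      rfl
    have h2 : bd e' (single L (φ v)) = bd0 e' L (φ v) := by
      rw [bd, lsum_single]
      rfl
    rw [mapRange.linearMap_apply, mapRange.linearMap_apply, mapRange_single, h1, h2]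
    cases L with
    | nil =>
      show mapRange φ _ (0 : List ℕ →₀ N) = 0
      simp
    | cons a L =>
      ext j
      simp only [bd0, mapRange_apply, coe_sub, Pi.sub_apply, map_sub, map_smul]
      congr 1
      rw [Finsupp.single_apply, Finsupp.single_apply]
      split_ifs
      · exact h _ _
      · simp

/-- the degree part -/
private def Dk (k : ℕ) : Submodule ℝ R := supported ℝ ℝ {w | nz w = k}

private theorem mem_Dk (k : ℕ) (f : R) : f ∈ Dk k ↔ ∀ w, f w ≠ 0 → nz w = k := by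
  rw [Dk, mem_supported']
  constructor
  · intro h w hw
    by_contra h2
    exact hw (h w h2)
  · intro h w hw
    by_contra h2
    exact hw (h w h2)

private theorem pw_mu_Dk (k a : ℕ) (f : R) (hf : f ∈ Dk k) : mu (bw (pw a)) f ∈ Dk k := by
  have h1 : ∀ w, nz w = k → mu (bw (pw a)) (bw w) ∈ Dk k := by
    intro w hw
    rw [mem_Dk]
    have h := IsH_mu _ _ _ _ _ _ (IsH_bw (pw a)) (IsH_bw w)
    intro x hx
    rw [(h x hx).2, nz_pw, hw, zero_add]
  have h2 : Dk k = Submodule.span ℝ ((fun w => bw w) '' {w | nz w = k}) := by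
    rw [Dk, supported_eq_span_single]
    rfl
  have h3 : Dk k ≤ (Dk k).comap (mu (bw (pw a))) := by
    conv_lhs => rw [h2]
    rw [Submodule.span_le]
    rintro _ ⟨w, hw, rfl⟩
    exact h1 w hw
  exact h3 hf

private theorem cmp_Dk (n k k' : ℕ) (f : R) (hf : f ∈ Dk k) (h : k' ≠ k) : cmp n k' f = 0 := by
  ext w
  rw [cmp, filter_apply]
  split_ifs with h1
  · by_contra h2
    exact h (h1.2.symm.trans ((mem_Dk k f).1 hf w h2))
  · rfl

private theorem sum_cmp_Dk (k : ℕ) (f : R) (hf : f ∈ Dk k) :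
    ∃ M : ℕ, f = ∑ n ∈ Finset.range M, cmp n k f := by
  obtain ⟨N, hN⟩ := sum_cmp f
  refine ⟨max N (k + 1), ?_⟩
  conv_lhs => rw [hN (max N (k + 1)) (le_max_left _ _)]
  refine Finset.sum_congr rfl fun n _ => ?_
  rw [Finset.sum_eq_single k]
  · intro b _ hb
    exact cmp_Dk n k b f hf hb
  · intro h
    exact absurd (Finset.mem_range.2 (lt_of_lt_of_le (Nat.lt_succ_self k) (le_max_right _ _))) h

private theorem exact_Dk (X Y : Submodule ℝ R) (hX : IsLI X) (hY : IsLI Y) (k : ℕ)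
    (hex : Ex X Y k) (f : R) (hf : f ∈ X) (hk : f ∈ Dk k) (h : mu (bw [true]) f ∈ Y) :
    ∃ b ∈ X, b ∈ Dk k ∧ f - mu (bw [true]) b ∈ Y := by
  obtain ⟨M, hM⟩ := sum_cmp_Dk k f hk
  have h1 : ∀ n, ∃ b, b ∈ X ∧ b ∈ Dk k ∧ cmp n k f - mu (bw [true]) b ∈ Y := by
    intro n
    have h2 : mu (bw [true]) (cmp n k f) ∈ Y := by
      have h3 := cmp_mu_left n k 1 0 f (bw [true]) (IsH_bw [true])
      rw [← h3]
      exact hY.cmp_mem _ _ _ h
    obtain ⟨b, hb, hb1, hb2⟩ := hex n (cmp n k f) (IsH_cmp n k f) (hX.cmp_mem _ _ _ hf) h2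
    exact ⟨b, hb, (mem_Dk k b).2 fun w hw => (hb1 w hw).2, hb2⟩
  choose b hb1 hb2 hb3 using h1
  refine ⟨∑ n ∈ Finset.range M, b n, Submodule.sum_mem _ fun n _ => hb1 n,
    Submodule.sum_mem _ fun n _ => hb2 n, ?_⟩
  have h4 : f - mu (bw [true]) (∑ n ∈ Finset.range M, b n) =
      ∑ n ∈ Finset.range M, (cmp n k f - mu (bw [true]) (b n)) := by
    rw [map_sum, Finset.sum_sub_distrib, ← hM]
  rw [h4]
  exact Submodule.sum_mem _ fun n _ => hb3 n

private theorem kI_jj (L : List ℕ) : kI (jj L) = 0 := by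
  have h : ∀ L : List ℕ, nzL (L.map pw) = 0 := by
    intro L
    induction L with
    | nil => rfl
    | cons a L ih =>
      have h1 : nzL ((a :: L).map pw) = nz (pw a) + nzL (L.map pw) := by
        simp [nzL]
      rw [h1, ih, nz_pw]
  show nzL (L.map pw) + 0 = 0
  rw [h]

private theorem rI_jj (L : List ℕ) : rI (jj L) = L.length := by
  show (L.map pw).length + 0 = L.length
  simp

private theorem eq_jj (i : Ix) (h : kI i = 0) : ∃ L, jj L = i := by
  obtain ⟨b, l⟩ := i
  have h1 : nzL l + b.toNat = 0 := h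
  have h2 : b = false := by
    cases b with
    | false => rfl
    | true => simp at h1
  have h3 : nzL l = 0 := by omega
  have h4 : ∀ l : LB, nzL l = 0 → (l.map np).map pw = l := by
    intro l
    induction l with
    | nil => intro _; rfl
    | cons w l ih =>
      intro h5
      have h6 : nz w + nzL l = 0 := by
        simpa [nzL] using h5
      have h7 : nz w = 0 := by omega
      have h8 : nzL l = 0 := by omega
      rw [List.map_cons, List.map_cons, ih h8, ← eq_pw w h7]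
  refine ⟨l.map np, ?_⟩
  rw [jj, h4 l h3, h2]


/-- the quotient module -/
private noncomputable def Nn (X Y : Submodule ℝ R) (k : ℕ) : Submodule ℝ (R ⧸ Y) := (X ⊓ Dk k).map Y.mkQ

private noncomputable def eb (Y : Submodule ℝ R) (hY : IsLI Y) (a : ℕ) :
    (R ⧸ Y) →ₗ[ℝ] (R ⧸ Y) := Y.mapQ Y (EE a) (fun _ hf => hY.mul_mem _ _ hf)

private theorem eb_mk (Y : Submodule ℝ R) (hY : IsLI Y) (a : ℕ) (f : R) :
    eb Y hY a (Y.mkQ f) = Y.mkQ (EE a f) := rfl

private theorem eb_mem (X Y : Submodule ℝ R) (hX : IsLI X) (hY : IsLI Y) (k a : ℕ) :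
    ∀ v ∈ Nn X Y k, eb Y hY a v ∈ Nn X Y k := by
  rintro _ ⟨f, hf, rfl⟩
  rw [eb_mk]
  exact ⟨EE a f, ⟨hX.mul_mem _ _ hf.1, pw_mu_Dk k a f hf.2⟩, rfl⟩

private noncomputable def en (X Y : Submodule ℝ R) (hX : IsLI X) (hY : IsLI Y) (k a : ℕ) :
    Nn X Y k →ₗ[ℝ] Nn X Y k := (eb Y hY a).restrict (eb_mem X Y hX hY k a)

private theorem en_coe (X Y : Submodule ℝ R) (hX : IsLI X) (hY : IsLI Y) (k a : ℕ)
    (v : Nn X Y k) : ((en X Y hX hY k a v : Nn X Y k) : R ⧸ Y) = eb Y hY a v := rfl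

private theorem en_zero (X Y : Submodule ℝ R) (hX : IsLI X) (hY : IsLI Y) (k : ℕ)
    (v : Nn X Y k) : en X Y hX hY k 0 v = v := by
  obtain ⟨_, f, hf, rfl⟩ := v
  apply Subtype.ext
  rw [en_coe, eb_mk]
  show Y.mkQ (mu (bw []) f) = Y.mkQ f
  rw [nil_mu]

private theorem en_mul (X Y : Submodule ℝ R) (hX : IsLI X) (hY : IsLI Y) (k a b : ℕ)
    (v : Nn X Y k) :
    en X Y hX hY k a (en X Y hX hY k b v) = cc a b • en X Y hX hY k (a + b) v := by
  obtain ⟨_, f, hf, rfl⟩ := v
  apply Subtype.ext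
  rw [Submodule.coe_smul, en_coe, en_coe, en_coe, eb_mk, eb_mk, eb_mk, ← map_smul]
  congr 1
  show mu (bw (pw a)) (mu (bw (pw b)) f) = cc a b • mu (bw (pw (a + b))) f
  rw [← mu_assoc, pow_mul, map_smul, LinearMap.smul_apply]

private theorem en_exact (X Y : Submodule ℝ R) (hX : IsLI X) (hY : IsLI Y) (k : ℕ)
    (hex : Ex X Y k) (v : Nn X Y k) (hv : en X Y hX hY k 1 v = 0) :
    ∃ w, v = en X Y hX hY k 1 w := by
  obtain ⟨_, f, hf, rfl⟩ := v
  have h1 : Y.mkQ (mu (bw [true]) f) = 0 := congrArg Subtype.val hv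
  have h2 : mu (bw [true]) f ∈ Y := by
    rwa [Submodule.mkQ_apply, Submodule.Quotient.mk_eq_zero] at h1
  obtain ⟨b, hb1, hb2, hb3⟩ := exact_Dk X Y hX hY k hex f hf.1 hf.2 h2
  refine ⟨⟨Y.mkQ b, b, ⟨hb1, hb2⟩, rfl⟩, ?_⟩
  apply Subtype.ext
  rw [en_coe, eb_mk]
  show Y.mkQ f = Y.mkQ (mu (bw [true]) b)
  rw [← sub_eq_zero, ← map_sub, Submodule.mkQ_apply, Submodule.Quotient.mk_eq_zero]
  exact hb3

private theorem en_two (X Y : Submodule ℝ R) (hX : IsLI X) (hY : IsLI Y) (k : ℕ)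
    (h2 : ∀ n a, IsH n k a → a ∈ X →
      ∃ b ∈ X, IsH (n + 1) k b ∧ mu (bw (pw 2)) a - mu (bw [true]) b ∈ Y)
    (v : Nn X Y k) : ∃ w, en X Y hX hY k 2 v = en X Y hX hY k 1 w := by
  obtain ⟨_, f, hf, rfl⟩ := v
  obtain ⟨M, hM⟩ := sum_cmp_Dk k f hf.2
  have h1 : ∀ n, ∃ b, b ∈ X ∧ b ∈ Dk k ∧ mu (bw (pw 2)) (cmp n k f) - mu (bw [true]) b ∈ Y := by
    intro n
    obtain ⟨b, hb, hb1, hb2⟩ := h2 n (cmp n k f) (IsH_cmp n k f) (hX.cmp_mem _ _ _ hf.1)
    exact ⟨b, hb, (mem_Dk k b).2 fun w hw => (hb1 w hw).2, hb2⟩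
  choose b hb1 hb2 hb3 using h1
  refine ⟨⟨Y.mkQ (∑ n ∈ Finset.range M, b n), ∑ n ∈ Finset.range M, b n,
    ⟨Submodule.sum_mem _ fun n _ => hb1 n, Submodule.sum_mem _ fun n _ => hb2 n⟩, rfl⟩, ?_⟩
  apply Subtype.ext
  rw [en_coe, en_coe, eb_mk, eb_mk]
  show Y.mkQ (mu (bw (pw 2)) f) = Y.mkQ (mu (bw [true]) (∑ n ∈ Finset.range M, b n))
  rw [← sub_eq_zero, ← map_sub, Submodule.mkQ_apply, Submodule.Quotient.mk_eq_zero]
  have h4 : mu (bw (pw 2)) f - mu (bw [true]) (∑ n ∈ Finset.range M, b n) =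
      ∑ n ∈ Finset.range M, (mu (bw (pw 2)) (cmp n k f) - mu (bw [true]) (b n)) := by
    rw [Finset.sum_sub_distrib, ← map_sum, ← map_sum, ← hM]
  rw [h4]
  exact Submodule.sum_mem _ fun n _ => hb3 n

/-- non pure coefficients -/
private theorem nonpure (X Y : Submodule ℝ R) (k : ℕ)
    (hlow : ∀ n i f, i < k → IsH n i f → f ∈ X → f ∈ Y) (r n : ℕ) (x : Ph)
    (hx : IsHP r n k x) (hxX : ∀ i, x i ∈ X) (i : Ix) (hi : ∀ L, jj L ≠ i) : x i ∈ Y := by
  by_cases h0 : x i = 0
  · rw [h0]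
    exact Y.zero_mem
  obtain ⟨h1, h2, h3, h4⟩ := IsHP_coeff r n k x hx i h0
  refine hlow _ _ _ ?_ h4 (hxX i)
  have h5 : kI i ≠ 0 := by
    intro h6
    obtain ⟨L, hL⟩ := eq_jj i h6
    exact hi L hL
  omega

/-- reduction to the pure part -/
private theorem toN (X Y : Submodule ℝ R) (hX : IsLI X) (hY : IsLI Y) (k : ℕ)
    (hlow : ∀ n i f, i < k → IsH n i f → f ∈ X → f ∈ Y) (r n : ℕ) (x : Ph)
    (hx : IsHP r n k x) (hxX : ∀ i, x i ∈ X) :
    ∃ xN : List ℕ →₀ Nn X Y k, (∀ L, ((xN L : Nn X Y k) : R ⧸ Y) = Y.mkQ (x (jj L))) ∧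
      (∀ L, xN L ≠ 0 → L.length = r) ∧
      ∀ L, ((bd (en X Y hX hY k) xN L : Nn X Y k) : R ⧸ Y) = Y.mkQ (D x (jj L)) := by
  classical
  let u : List ℕ →₀ R := comapDomain jj x jj_inj.injOn
  have hDk : ∀ L, u L ∈ Dk k := by
    intro L
    rw [mem_Dk]
    intro w hw
    have h1 := (hx (jj L) w hw).2.2
    rw [kI_jj, zero_add] at h1
    exact h1
  have hbd : ∀ L, D x (jj L) - bd EE u L ∈ Y := by
    intro L
    have h1 : x.filter (fun i => ∃ L, jj L = i) = mapDomain jj u := by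
      ext1 i
      by_cases hi : ∃ L, jj L = i
      · rw [filter_apply_pos (fun i => ∃ L, jj L = i) x hi]
        obtain ⟨L, rfl⟩ := hi
        rw [mapDomain_apply jj_inj]
        rfl
      · rw [filter_apply_neg (fun i => ∃ L, jj L = i) x hi, mapDomain_of_notMem_range]
        rintro ⟨L, hL⟩
        exact hi ⟨L, hL⟩
    have h2 : D x = D (mapDomain jj u) + D (x.filter (fun i => ¬ ∃ L, jj L = i)) := by
      rw [← h1, ← map_add, filter_add_filter_not]
    have h3 : D (x.filter (fun i => ¬ ∃ L, jj L = i)) (jj L) ∈ Y := by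
      refine D_mem Y hY _ (fun i => ?_) _
      by_cases hi : ∃ L, jj L = i
      · rw [filter_apply_neg (fun i => ¬ ∃ L, jj L = i) x (not_not.2 hi)]
        exact Y.zero_mem
      · rw [filter_apply_pos (fun i => ¬ ∃ L, jj L = i) x hi]
        exact nonpure X Y k hlow r n x hx hxX i fun L hL => hi ⟨L, hL⟩
    have h4 : D x (jj L) = bd EE u L + D (x.filter (fun i => ¬ ∃ L, jj L = i)) (jj L) := by
      rw [h2, Finsupp.add_apply, D_pure, mapDomain_apply jj_inj]
    rw [h4, add_sub_cancel_left]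
    exact h3
  have hmem : ∀ L, Y.mkQ (u L) ∈ Nn X Y k := fun L => ⟨u L, ⟨hxX (jj L), hDk L⟩, rfl⟩
  let xN : List ℕ →₀ Nn X Y k := onFinset u.support (fun L => ⟨Y.mkQ (u L), hmem L⟩) (by
    intro L hL
    rw [mem_support_iff]
    intro h1
    apply hL
    apply Subtype.ext
    show Y.mkQ (u L) = 0
    rw [h1, map_zero])
  have hxN : mapRange.linearMap (Nn X Y k).subtype xN = mapRange.linearMap Y.mkQ u := by
    ext1 L
    rfl
  refine ⟨xN, fun L => rfl, ?_, ?_⟩
  · intro L hL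
    have h1 : x (jj L) ≠ 0 := by
      intro h2
      apply hL
      apply Subtype.ext
      show Y.mkQ (x (jj L)) = 0
      rw [h2, map_zero]
    rw [← rI_jj]
    exact (IsHP_coeff r n k x hx (jj L) h1).1
  · intro L
    have h1 : mapRange.linearMap (Nn X Y k).subtype (bd (en X Y hX hY k) xN) =
        mapRange.linearMap Y.mkQ (bd EE u) := by
      rw [mapRange_bd (en X Y hX hY k) (eb Y hY) (Nn X Y k).subtype (fun a v => rfl), hxN,
        mapRange_bd EE (eb Y hY) Y.mkQ (fun a v => rfl)]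
    have h2 := DFunLike.congr_fun h1 L
    rw [mapRange.linearMap_apply, mapRange.linearMap_apply, mapRange_apply, mapRange_apply] at h2
    have h3 : Y.mkQ (D x (jj L)) = Y.mkQ (bd EE u L) := by
      rw [← sub_eq_zero, ← map_sub, Submodule.mkQ_apply, Submodule.Quotient.mk_eq_zero]
      exact hbd L
    rw [h3]
    exact h2

/-- lift from the pure part -/
private theorem ofN (X Y : Submodule ℝ R) (hX : IsLI X) (hY : IsLI Y) (k : ℕ)
    (yN : List ℕ →₀ Nn X Y k) :
    ∃ y : Ph, (∀ i, y i ∈ X) ∧ (∀ i, (∀ L, jj L ≠ i) → D y i = 0) ∧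
      ∀ L, Y.mkQ (D y (jj L)) = ((bd (en X Y hX hY k) yN L : Nn X Y k) : R ⧸ Y) := by
  classical
  have hg : ∀ v : Nn X Y k, ∃ f, f ∈ X ∧ Y.mkQ f = v ∧ (v = 0 → f = 0) := by
    intro v
    by_cases hv : v = 0
    · exact ⟨0, X.zero_mem, by rw [hv, map_zero]; rfl, fun _ => rfl⟩
    · obtain ⟨_, f, hf, rfl⟩ := v
      exact ⟨f, hf.1, rfl, fun h => absurd h hv⟩
  choose g hg1 hg2 hg3 using hg
  let y0 : List ℕ →₀ R := yN.mapRange g (hg3 0 rfl)
  have hy0 : mapRange.linearMap Y.mkQ y0 = mapRange.linearMap (Nn X Y k).subtype yN := by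
    ext1 L
    exact hg2 (yN L)
  refine ⟨mapDomain jj y0, ?_, ?_, ?_⟩
  · intro i
    by_cases hi : ∃ L, jj L = i
    · obtain ⟨L, rfl⟩ := hi
      rw [mapDomain_apply jj_inj]
      exact hg1 _
    · rw [mapDomain_of_notMem_range]
      · exact X.zero_mem
      · rintro ⟨L, hL⟩
        exact hi ⟨L, hL⟩
  · intro i hi
    rw [D_pure, mapDomain_of_notMem_range]
    rintro ⟨L, hL⟩
    exact hi L hL
  · intro L
    have h1 : mapRange.linearMap Y.mkQ (bd EE y0) =
        mapRange.linearMap (Nn X Y k).subtype (bd (en X Y hX hY k) yN) := by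
      rw [mapRange_bd EE (eb Y hY) Y.mkQ (fun a v => rfl), hy0,
        ← mapRange_bd (en X Y hX hY k) (eb Y hY) (Nn X Y k).subtype (fun a v => rfl)]
    have h2 := DFunLike.congr_fun h1 L
    rw [mapRange.linearMap_apply, mapRange.linearMap_apply, mapRange_apply, mapRange_apply] at h2
    rw [D_pure, mapDomain_apply jj_inj]
    exact h2

/-- homogeneous witnesses -/
private theorem homog (X Y : Submodule ℝ R) (hX : IsLI X) (hY : IsLI Y) (n k : ℕ) (g b : R)
    (hg : ∀ w, g w ≠ 0 → 2 + np w = n ∧ nz w = k) (hb : b ∈ X)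
    (h : g - mu (bw [true]) b ∈ Y) :
    ∃ b ∈ X, (∀ w, b w ≠ 0 → np w + 3 = n ∧ nz w = k) ∧ g - mu (bw [true]) b ∈ Y := by
  by_cases h0 : g = 0
  · refine ⟨0, X.zero_mem, fun w hw => absurd rfl hw, ?_⟩
    rw [h0, map_zero, sub_zero]
    exact Y.zero_mem
  obtain ⟨w0, hw0⟩ := Finsupp.ne_iff.mp h0
  have hn : 2 ≤ n := by
    have := (hg w0 (by simpa using hw0)).1
    omega
  have hgH : IsH (n - 2) k g := fun w hw => ⟨by have := (hg w hw).1; omega, (hg w hw).2⟩
  have h1 : g - cmp (n - 2) k (mu (bw [true]) b) ∈ Y := by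
    have h2 := hY.cmp_mem (n - 2) k _ h
    have h3 : cmp (n - 2) k (g - mu (bw [true]) b) =
        cmp (n - 2) k g - cmp (n - 2) k (mu (bw [true]) b) := by
      rw [cmp, cmp, cmp, filter_sub]
    rw [h3, cmp_of_IsH _ _ _ hgH] at h2
    exact h2
  rcases Nat.eq_or_lt_of_le hn with h2 | h2
  · refine ⟨0, X.zero_mem, fun w hw => absurd rfl hw, ?_⟩
    have h3 : cmp (n - 2) k (mu (bw [true]) b) = 0 := by
      have e : n - 2 = 0 := by omega
      rw [e]
      have h4 : ∀ f : R, cmp 0 k (mu (bw [true]) f) = 0 := by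
        intro f
        induction f using Finsupp.induction_linear with
        | zero => rw [map_zero, cmp, filter_zero]
        | add f g hf hg =>
          rw [cmp] at hf hg ⊢
          rw [map_add, filter_add, hf, hg, add_zero]
        | single w a =>
          ext v
          rw [cmp, filter_apply]
          split_ifs with h5
          · by_contra h6
            have h7 : (single w a : R) = a • bw w := by
              rw [bw, smul_single, smul_eq_mul, mul_one]
            rw [h7, map_smul, Finsupp.smul_apply] at h6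
            have h8 : mu (bw [true]) (bw w) v ≠ 0 := by
              intro h9
              apply h6
              rw [h9, smul_zero]
              rfl
            have h10 := (IsH_mu _ _ _ _ _ _ (IsH_bw [true]) (IsH_bw w) v h8).1
            have h11 : np [true] = 1 := rfl
            omega
          · rfl
      exact h4 b
    rw [h3, sub_zero] at h1
    rw [map_zero, sub_zero]
    exact h1
  · refine ⟨cmp (n - 3) k b, hX.cmp_mem _ _ _ hb, fun w hw => ?_, ?_⟩
    · have := IsH_cmp (n - 3) k b w hw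
      exact ⟨by omega, this.2⟩
    · have h3 := cmp_mu_left (n - 3) k 1 0 b (bw [true]) (IsH_bw [true])
      have e1 : 1 + (n - 3) = n - 2 := by omega
      rw [e1, Nat.zero_add] at h3
      rw [← h3]
      exact h1

theorem pure_one (X Y : Submodule ℝ R) (hX : IsLI X) (hY : IsLI Y) (hYX : Y ≤ X) (k : ℕ)
    (hlow : ∀ n i f, i < k → IsH n i f → f ∈ X → f ∈ Y) (hex : Ex X Y k)
    (h2 : ∀ n a, IsH n k a → a ∈ X →
      ∃ b ∈ X, IsH (n + 1) k b ∧ mu (bw (pw 2)) a - mu (bw [true]) b ∈ Y)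
    (n : ℕ) (x : Ph) (hx : IsHP 1 n k x) (hxX : ∀ i, x i ∈ X) (hD : ∀ i, D x i ∈ Y)
    (hs : ∃ b ∈ X, x (false, [[true]]) - mu (bw [true]) b ∈ Y) :
    ∃ y z : Ph, IsHP 2 n k y ∧ (∀ i, y i ∈ X) ∧ IsHP 1 n k z ∧ (∀ i, z i ∈ Y) ∧
      x = D y + z := by
  obtain ⟨xN, hx1, hx2, hx3⟩ := toN X Y hX hY k hlow 1 n x hx hxX
  have hbN : bd (en X Y hX hY k) xN = 0 := by
    ext1 L
    apply Subtype.ext
    rw [hx3 L]
    show Y.mkQ (D x (jj L)) = 0
    rw [Submodule.mkQ_apply, Submodule.Quotient.mk_eq_zero]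
    exact hD (jj L)
  have hs2 : ∃ w, xN [1] = en X Y hX hY k 1 w := by
    obtain ⟨b, hb, hb1⟩ := hs
    obtain ⟨b', hb', hb2, hb3⟩ := homog X Y hX hY n k (x (false, [[true]])) b
      (fun w hw => by
        have h3 := (hx (false, [[true]]) w hw).2
        have h4 : nI (false, [[true]]) = 2 := rfl
        have h5 : kI (false, [[true]]) = 0 := rfl
        rw [h4, h5, zero_add] at h3
        exact h3) hb hb1
    refine ⟨⟨Y.mkQ b', b', ⟨hb', (mem_Dk k b').2 fun w hw => (hb2 w hw).2⟩, rfl⟩, ?_⟩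
    apply Subtype.ext
    rw [hx1, en_coe, eb_mk]
    show Y.mkQ (x (false, [[true]])) = Y.mkQ (mu (bw [true]) b')
    rw [← sub_eq_zero, ← map_sub, Submodule.mkQ_apply, Submodule.Quotient.mk_eq_zero]
    exact hb3
  obtain ⟨yN, _, hyN⟩ := bar_one (en X Y hX hY k) (en_zero X Y hX hY k) (en_mul X Y hX hY k)
    (en_exact X Y hX hY k hex) (en_two X Y hX hY k h2) xN hx2 hbN hs2
  obtain ⟨y, hy1, hy2, hy3⟩ := ofN X Y hX hY k yN
  have hz : ∀ i, (x - D y) i ∈ Y := by
    intro i
    rw [Finsupp.sub_apply]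
    by_cases hi : ∃ L, jj L = i
    · obtain ⟨L, rfl⟩ := hi
      have h3 : Y.mkQ (x (jj L) - D y (jj L)) = 0 := by
        rw [map_sub, hy3, hyN, hx1, sub_self]
      rwa [Submodule.mkQ_apply, Submodule.Quotient.mk_eq_zero] at h3
    · rw [hy2 i fun L hL => hi ⟨L, hL⟩, sub_zero]
      exact nonpure X Y k hlow 1 n x hx hxX i fun L hL => hi ⟨L, hL⟩
  refine ⟨cmpP 2 n k y, cmpP 1 n k (x - D y), cmpP_IsHP _ _ _ _, cmpP_mem X hX _ _ _ _ hy1,
    cmpP_IsHP _ _ _ _, cmpP_mem Y hY _ _ _ _ hz, ?_⟩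
  have h3 := cmpP_of_IsHP _ _ _ _ hx
  have h4 : x = D y + (x - D y) := (add_sub_cancel (D y) x).symm
  have h5 := congrArg (cmpP 1 n k) h4
  rw [map_add, cmpP_D, h3] at h5
  exact h5

theorem pure_one_conv (X Y : Submodule ℝ R) (hX : IsLI X) (hY : IsLI Y) (hYX : Y ≤ X) (k : ℕ)
    (hlow : ∀ n i f, i < k → IsH n i f → f ∈ X → f ∈ Y)
    (h2 : ∀ n a, IsH n k a → a ∈ X →
      ∃ b ∈ X, IsH (n + 1) k b ∧ mu (bw (pw 2)) a - mu (bw [true]) b ∈ Y)
    (n : ℕ) (y : Ph) (hy : IsHP 2 n k y) (hyX : ∀ i, y i ∈ X) :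
    ∃ b ∈ X, (∀ w, b w ≠ 0 → np w + 3 = n ∧ nz w = k) ∧
      D y (false, [[true]]) - mu (bw [true]) b ∈ Y := by
  obtain ⟨yN, hy1, hy2, hy3⟩ := toN X Y hX hY k hlow 2 n y hy hyX
  obtain ⟨w, hw⟩ := bar_one_conv (en X Y hX hY k) (en_zero X Y hX hY k) (en_mul X Y hX hY k)
    (en_two X Y hX hY k h2) yN hy2
  obtain ⟨_, f, hf, rfl⟩ := w
  have h3 : Y.mkQ (D y (false, [[true]])) = Y.mkQ (mu (bw [true]) f) := by
    have h4 := hy3 [1]
    rw [hw, en_coe, eb_mk] at h4
    exact h4.symm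
  have h4 : D y (false, [[true]]) - mu (bw [true]) f ∈ Y := by
    rw [← sub_eq_zero, ← map_sub, Submodule.mkQ_apply, Submodule.Quotient.mk_eq_zero] at h3
    exact h3
  have hDy := IsHP_D 1 n k y hy
  exact homog X Y hX hY n k _ f (fun w hw => by
    have h3 := (hDy (false, [[true]]) w hw).2
    have h4 : nI (false, [[true]]) = 2 := rfl
    have h5 : kI (false, [[true]]) = 0 := rfl
    rw [h4, h5, zero_add] at h3
    exact h3) hf.1 h4

end BrV
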