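import Pool.Agent.Lib.BrV.Pow

/-!
# BrV.Str: structure of `R` as a right module over the span of the `p^j` (section 2)

`G' = ker (del true)`, `F m = ⨆_{j ≥ m} R * p^j`, `Rp = R * p`.

Proofs.  From `del_mu` (`c = true`; `tau (bw (pw j)) = (-1)^j bw (pw j)`, `del true (bw (pw (j+1))) = bw (pw j)`):
for `g ∈ G'` and `j ≥ 1`: `del true (g * p^j) = g * p^(j-1)`; `del true (g * p^0) = 0`.
* `str_unique`: apply `(del true)^[M-1]` to the sum: only `g (M-1)` survives; induct on `M`.
* `str_exists`: let `(del true)^(M+1) f = 0` (exists, finite support); `g = (del true)^M f ∈ G'` and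
  `(del true)^M (f - g * p^M) = 0`; induct on `M`.
* `pow_mul`: `(∑ g_l p^l) * p^m = ∑ cc l m g_l p^(l+m)` with `cc 0 m = 1`, `cc l 1 = 1` (l even), `0` (l odd).
  So: `f ∈ F m` iff `f = ∑ g_j p^j` with `g_j = 0` for `j < m`  (for `⟸` obvious; for `⟹`: `F m` is spanned by
  the `f * p^j`, `j ≥ m`); `f ∈ Rp` iff `g_j = 0` for all even `j`  (`g p^j = (g p^(j-1)) * p` for `j` odd);
  `f ∈ Rp ⊔ F (2 j)` iff `g_l = 0` for all even `l < 2 j`.
  I suggest to prove first, as private lemmas, these three characterisations.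
* `mul_pow_mem_F_iff`: the coefficient `g_0` of `f` is the coefficient of `p^m` in `f * p^m`.
* `mul_pow_mem_Rp_iff`: the same for the even exponent `2 j`: the exponents `l + 2 j`, `l ≥ 1`, are odd or `≥ 2 j + 2`.
* `mul_p_eq_zero_iff`: `f * p = ∑_{l even} g_l p^(l+1)`.
* `F_low`: `f * p^j` has only words with `np ≥ j` (`IsH_mu`), `F m ≤ {f | f w ≠ 0 → m ≤ np w}`.
-/

namespace BrV

open Finsupp

/-- deletion of the last letter `p` as an endomorphism -/
private noncomputable def dt : Module.End ℝ R := del true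

private theorem pw_zero : bw (pw 0) = bw [] := rfl

private theorem del_step (g : R) (hg : g ∈ G') (j : ℕ) :
    dt (mu g (bw (pw (j + 1)))) = mu g (bw (pw j)) := by
  have h1 : bw (pw (j + 1)) = app true (bw (pw j)) := by rw [app_bw]; rfl
  have h2 : del true g = 0 := hg
  show del true _ = _
  rw [del_mu, h2, map_zero, LinearMap.zero_apply, add_zero, h1, del_app]

private theorem del_zero_step (g : R) (hg : g ∈ G') : dt (mu g (bw (pw 0))) = 0 := by
  rw [pw_zero, mu_one]; exact hg

private theorem del_pow (g : R) (hg : g ∈ G') (k j : ℕ) :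
    (dt ^ k) (mu g (bw (pw j))) = if k ≤ j then mu g (bw (pw (j - k))) else 0 := by
  induction k generalizing j with
  | zero => simp
  | succ k ih =>
    rw [pow_succ, Module.End.mul_apply]
    cases j with
    | zero => rw [del_zero_step g hg, map_zero]; simp
    | succ j => rw [del_step g hg, ih]; simp [Nat.add_sub_add_right]

private theorem dt_pow_apply (M : ℕ) (f : R) (w : Wd) :
    (dt ^ M) f w = f (List.replicate M true ++ w) := by
  induction M generalizing f with
  | zero => rfl
  | succ M ih =>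
    rw [pow_succ, Module.End.mul_apply, ih]
    show del true f _ = _
    rw [del_apply]
    rfl

private theorem dt_nilp (f : R) : ∃ M, (dt ^ M) f = 0 := by
  refine ⟨f.support.sup List.length + 1, ?_⟩
  ext w
  rw [dt_pow_apply]
  by_contra h
  have h1 : List.replicate (f.support.sup List.length + 1) true ++ w ∈ f.support :=
    Finsupp.mem_support_iff.2 h
  have h2 : (List.replicate (f.support.sup List.length + 1) true ++ w).length ≤
      f.support.sup List.length := Finset.le_sup (f := List.length) h1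
  rw [List.length_append, List.length_replicate] at h2
  omega

private theorem ex_aux (M : ℕ) : ∀ f : R, (dt ^ M) f = 0 → ∃ g : ℕ → R, (∀ j, g j ∈ G') ∧
    f = ∑ j ∈ Finset.range M, mu (g j) (bw (pw j)) := by
  induction M with
  | zero =>
    intro f hf
    exact ⟨fun _ => 0, fun _ => Submodule.zero_mem _, by simpa using hf⟩
  | succ M ih =>
    intro f hf
    have hγ : (dt ^ M) f ∈ G' := by
      show del true ((dt ^ M) f) = 0
      rw [pow_succ', Module.End.mul_apply] at hf
      exact hf
    obtain ⟨g, hg, h⟩ := ih (f - mu ((dt ^ M) f) (bw (pw M))) (by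
      rw [map_sub, del_pow _ hγ, if_pos le_rfl, Nat.sub_self, pw_zero, mu_one, sub_self])
    refine ⟨fun j => if j = M then (dt ^ M) f else g j, ?_, ?_⟩
    · intro j
      try dsimp only
      split_ifs
      · exact hγ
      · exact hg j
    · rw [Finset.sum_range_succ]
      dsimp only
      rw [if_pos rfl]
      have h1 : ∑ j ∈ Finset.range M, mu (if j = M then (dt ^ M) f else g j) (bw (pw j)) =
          ∑ j ∈ Finset.range M, mu (g j) (bw (pw j)) := by
        apply Finset.sum_congr rfl
        intro j hj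
        rw [if_neg (Finset.mem_range.1 hj).ne]
      rw [h1, ← h, sub_add_cancel]

theorem str_exists (f : R) : ∃ (M : ℕ) (g : ℕ → R), (∀ j, g j ∈ G') ∧
    f = ∑ j ∈ Finset.range M, mu (g j) (bw (pw j)) := by
  obtain ⟨M, hM⟩ := dt_nilp f
  exact ⟨M, ex_aux M f hM⟩

theorem str_unique (M : ℕ) (g : ℕ → R) (hg : ∀ j, g j ∈ G')
    (h : ∑ j ∈ Finset.range M, mu (g j) (bw (pw j)) = 0) : ∀ j, j < M → g j = 0 := by
  induction M with
  | zero => intro j hj; omega
  | succ M ih =>
    have h1 : (dt ^ M) (∑ j ∈ Finset.range (M + 1), mu (g j) (bw (pw j))) = 0 := by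
      rw [h, map_zero]
    rw [map_sum, Finset.sum_range_succ, Finset.sum_eq_zero, zero_add, del_pow _ (hg M),
      if_pos le_rfl, Nat.sub_self, pw_zero, mu_one] at h1
    · rw [Finset.sum_range_succ, h1, map_zero, LinearMap.zero_apply, add_zero] at h
      intro j hj
      rcases Nat.lt_succ_iff_lt_or_eq.1 hj with hj | rfl
      · exact ih h j hj
      · exact h1
    · intro j hj
      rw [del_pow _ (hg j), if_neg (not_le.2 (Finset.mem_range.1 hj))]

private theorem sum_ext {g : ℕ → R} {N N' : ℕ} (h : N ≤ N') (hz : ∀ j, N ≤ j → g j = 0) :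
    ∑ j ∈ Finset.range N, mu (g j) (bw (pw j)) = ∑ j ∈ Finset.range N', mu (g j) (bw (pw j)) := by
  apply Finset.sum_subset (Finset.range_mono h)
  intro j _ hj
  rw [hz j (not_lt.1 fun h' => hj (Finset.mem_range.2 h')), map_zero, LinearMap.zero_apply]

private theorem ex_rep (f : R) : ∃ g : ℕ → R, (∀ j, g j ∈ G') ∧ ∃ M, (∀ j, M ≤ j → g j = 0) ∧
    ∀ N, M ≤ N → f = ∑ j ∈ Finset.range N, mu (g j) (bw (pw j)) := by
  obtain ⟨M, g, hg, h⟩ := str_exists f
  have hz : ∀ j, M ≤ j → (fun j => if j < M then g j else 0) j = 0 := by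
    intro j hj
    exact if_neg (not_lt.2 hj)
  refine ⟨fun j => if j < M then g j else 0, ?_, M, hz, ?_⟩
  · intro j
    try dsimp only
    split_ifs
    · exact hg j
    · exact Submodule.zero_mem _
  · intro N hN
    rw [← sum_ext hN hz, h]
    apply Finset.sum_congr rfl
    intro j hj
    try dsimp only
    rw [if_pos (Finset.mem_range.1 hj)]

/-- the coefficients of `f` with respect to the powers of `p` -/
private noncomputable def co (f : R) : ℕ → R := (ex_rep f).choose

private theorem co_mem (f : R) (j : ℕ) : co f j ∈ G' := (ex_rep f).choose_spec.1 j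

private theorem co_sum (f : R) : ∃ M, (∀ j, M ≤ j → co f j = 0) ∧
    ∀ N, M ≤ N → f = ∑ j ∈ Finset.range N, mu (co f j) (bw (pw j)) :=
  (ex_rep f).choose_spec.2

private theorem co_unique (f : R) (g : ℕ → R) (hg : ∀ j, g j ∈ G') (N : ℕ)
    (hz : ∀ j, N ≤ j → g j = 0) (h : f = ∑ j ∈ Finset.range N, mu (g j) (bw (pw j))) (i : ℕ) :
    co f i = g i := by
  obtain ⟨M, hM, hf⟩ := co_sum f
  have h1 := hf (max M N) (le_max_left _ _)
  have h2 : f = ∑ j ∈ Finset.range (max M N), mu (g j) (bw (pw j)) := by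
    rw [← sum_ext (le_max_right M N) hz]
    exact h
  have h3 : ∑ j ∈ Finset.range (max M N), mu (co f j - g j) (bw (pw j)) = 0 := by
    simp only [map_sub, LinearMap.sub_apply, Finset.sum_sub_distrib]
    rw [← h1, ← h2, sub_self]
  by_cases hi : i < max M N
  · exact sub_eq_zero.1 (str_unique _ _ (fun j => Submodule.sub_mem _ (co_mem f j) (hg j)) h3 i hi)
  · have hi' := not_lt.1 hi
    rw [hM i (le_trans (le_max_left _ _) hi'), hz i (le_trans (le_max_right _ _) hi')]

private theorem co_add (f h : R) (i : ℕ) : co (f + h) i = co f i + co h i := by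
  obtain ⟨M, hM, hf⟩ := co_sum f
  obtain ⟨M', hM', hf'⟩ := co_sum h
  refine co_unique (f + h) (fun j => co f j + co h j)
    (fun j => Submodule.add_mem _ (co_mem f j) (co_mem h j)) (max M M') ?_ ?_ i
  · intro j hj
    try dsimp only
    rw [hM j (le_trans (le_max_left _ _) hj), hM' j (le_trans (le_max_right _ _) hj), add_zero]
  · simp only [map_add, LinearMap.add_apply, Finset.sum_add_distrib]
    rw [← hf _ (le_max_left _ _), ← hf' _ (le_max_right _ _)]

private theorem co_smul (a : ℝ) (f : R) (i : ℕ) : co (a • f) i = a • co f i := by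
  obtain ⟨M, hM, hf⟩ := co_sum f
  refine co_unique (a • f) (fun j => a • co f j)
    (fun j => Submodule.smul_mem _ a (co_mem f j)) M ?_ ?_ i
  · intro j hj
    try dsimp only
    rw [hM j hj, smul_zero]
  · simp only [map_smul, LinearMap.smul_apply]
    rw [← Finset.smul_sum, ← hf _ le_rfl]

/-- the coefficients as linear maps -/
private noncomputable def coL (i : ℕ) : R →ₗ[ℝ] R where
  toFun f := co f i
  map_add' f h := co_add f h i
  map_smul' a f := co_smul a f i

private theorem co_zero (i : ℕ) : co 0 i = 0 := (coL i).map_zero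

private theorem eq_zero_of_co (f : R) (h : ∀ i, co f i = 0) : f = 0 := by
  obtain ⟨M, hM, hf⟩ := co_sum f
  rw [hf M le_rfl]
  apply Finset.sum_eq_zero
  intro j _
  rw [h j, map_zero, LinearMap.zero_apply]

private theorem mem_of_terms (X : Submodule ℝ R) (f : R)
    (h : ∀ j, mu (co f j) (bw (pw j)) ∈ X) : f ∈ X := by
  obtain ⟨M, hM, hf⟩ := co_sum f
  rw [hf M le_rfl]
  exact Submodule.sum_mem _ fun j _ => h j

private theorem co_mul (f : R) (j i : ℕ) :
    co (mu f (bw (pw j))) i = if i < j then 0 else cc (i - j) j • co f (i - j) := by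
  obtain ⟨M, hM, hf⟩ := co_sum f
  refine co_unique (mu f (bw (pw j))) (fun i => if i < j then 0 else cc (i - j) j • co f (i - j))
    ?_ (j + M) ?_ ?_ i
  · intro l
    try dsimp only
    split_ifs
    · exact Submodule.zero_mem _
    · exact Submodule.smul_mem _ _ (co_mem f _)
  · intro l hl
    try dsimp only
    rw [if_neg (by omega), hM (l - j) (by omega), smul_zero]
  · rw [Finset.sum_range_add, Finset.sum_eq_zero (s := Finset.range j), zero_add]
    · conv_lhs => rw [hf M le_rfl]
      rw [map_sum, LinearMap.sum_apply]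
      apply Finset.sum_congr rfl
      intro l _
      rw [if_neg (by omega), Nat.add_sub_cancel_left, mu_assoc, pow_mul, map_smul,
        map_smul, LinearMap.smul_apply, add_comm l j]
    · intro l hl
      rw [if_pos (Finset.mem_range.1 hl), map_zero, LinearMap.zero_apply]

private theorem range_le_F (m j : ℕ) (h : m ≤ j) : LinearMap.range (rm (pw j)) ≤ F m :=
  le_iSup₂_of_le (f := fun (j : ℕ) (_ : m ≤ j) => LinearMap.range (rm (pw j))) j h le_rfl

private theorem mem_F (m : ℕ) (f : R) : f ∈ F m ↔ ∀ i, i < m → co f i = 0 := by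
  constructor
  · intro hf i hi
    have h1 : F m ≤ LinearMap.ker (coL i) := by
      refine iSup₂_le fun j hj => ?_
      rintro _ ⟨h, rfl⟩
      show co (mu h (bw (pw j))) i = 0
      rw [co_mul, if_pos (lt_of_lt_of_le hi hj)]
    exact h1 hf
  · intro h
    apply mem_of_terms
    intro j
    by_cases hj : j < m
    · rw [h j hj, map_zero, LinearMap.zero_apply]
      exact Submodule.zero_mem _
    · exact range_le_F m j (not_lt.1 hj) ⟨co f j, rfl⟩

private theorem pw_one : pw 1 = [true] := rfl

private theorem odd_range (l : ℕ) : LinearMap.range (rm (pw (2 * l + 1))) ≤ Rp := by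
  rintro _ ⟨h, rfl⟩
  refine ⟨mu h (bw (pw (2 * l))), ?_⟩
  show mu (mu h (bw (pw (2 * l)))) (bw [true]) = mu h (bw (pw (2 * l + 1)))
  rw [mu_assoc, pow_odd]

private theorem Rp_co (f : R) (hf : f ∈ Rp) (i : ℕ) (hi : Even i) : co f i = 0 := by
  obtain ⟨h, rfl⟩ := hf
  show co (mu h (bw (pw 1))) i = 0
  rw [co_mul]
  split_ifs with h1
  · rfl
  · have h2 : ¬ Even (i - 1) := by
      rw [Nat.even_sub (not_lt.1 h1)]
      simp [hi]
    rw [cc_one, if_neg h2, zero_smul]

private theorem mem_Rp (f : R) : f ∈ Rp ↔ ∀ i, Even i → co f i = 0 := by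
  constructor
  · exact fun hf i hi => Rp_co f hf i hi
  · intro h
    apply mem_of_terms
    intro j
    rcases Nat.even_or_odd j with hj | hj
    · rw [h j hj, map_zero, LinearMap.zero_apply]
      exact Submodule.zero_mem _
    · obtain ⟨l, rfl⟩ := hj
      exact odd_range l ⟨co f (2 * l + 1), rfl⟩

private theorem mem_Rp_sup (j : ℕ) (f : R) :
    f ∈ Rp ⊔ F (2 * j) ↔ ∀ i, Even i → i < 2 * j → co f i = 0 := by
  constructor
  · intro hf i hi hij
    obtain ⟨a, ha, b, hb, rfl⟩ := Submodule.mem_sup.1 hf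
    rw [co_add, Rp_co a ha i hi, (mem_F _ b).1 hb i hij, add_zero]
  · intro h
    apply mem_of_terms
    intro l
    rcases Nat.even_or_odd l with hl | hl
    · by_cases hlj : l < 2 * j
      · rw [h l hl hlj, map_zero, LinearMap.zero_apply]
        exact Submodule.zero_mem _
      · exact Submodule.mem_sup_right (range_le_F _ l (not_lt.1 hlj) ⟨co f l, rfl⟩)
    · obtain ⟨l, rfl⟩ := hl
      exact Submodule.mem_sup_left (odd_range l ⟨co f (2 * l + 1), rfl⟩)


theorem F_zero : F 0 = ⊤ := by
  rw [eq_top_iff]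
  intro f _
  exact (mem_F 0 f).2 fun i hi => absurd hi (Nat.not_lt_zero i)

theorem F_succ (m : ℕ) : F m = LinearMap.range (rm (pw m)) ⊔ F (m + 1) := by
  apply le_antisymm
  · refine iSup₂_le fun j hj => ?_
    rcases Nat.eq_or_lt_of_le hj with rfl | hj
    · exact le_sup_left
    · exact le_trans (range_le_F (m + 1) j hj) le_sup_right
  · refine sup_le (range_le_F m m le_rfl) (iSup₂_le fun j hj => range_le_F m j (by omega))

theorem F_anti (m m' : ℕ) (h : m ≤ m') : F m' ≤ F m := by
  exact iSup₂_le fun j hj => range_le_F m j (h.trans hj)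

theorem Rp_le_F1 : Rp ≤ F 1 := by
  exact range_le_F 1 1 le_rfl

theorem mul_pow_mem_F_iff (m : ℕ) (f : R) : mu f (bw (pw m)) ∈ F (m + 1) ↔ f ∈ F 1 := by
  rw [mem_F, mem_F]
  constructor
  · intro h i hi
    have h1 := h m (Nat.lt_succ_self m)
    rw [co_mul, if_neg (lt_irrefl m), Nat.sub_self, cc_zero_left, one_smul] at h1
    rw [Nat.lt_one_iff.1 hi]
    exact h1
  · intro h i hi
    rw [co_mul]
    split_ifs with h1
    · rfl
    · have h2 : i - m = 0 := by omega
      rw [h2, h 0 Nat.one_pos, smul_zero]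

theorem mul_pow_mem_Rp_iff (j : ℕ) (f : R) :
    mu f (bw (pw (2 * j))) ∈ Rp ⊔ F (2 * j + 2) ↔ f ∈ F 1 := by
  have h0 : 2 * j + 2 = 2 * (j + 1) := by ring
  rw [h0, mem_Rp_sup, mem_F]
  constructor
  · intro h i hi
    have h1 := h (2 * j) (even_two_mul j) (by omega)
    rw [co_mul, if_neg (lt_irrefl _), Nat.sub_self, cc_zero_left, one_smul] at h1
    rw [Nat.lt_one_iff.1 hi]
    exact h1
  · intro h i hi hij
    rw [co_mul]
    split_ifs with h1
    · rfl
    · obtain ⟨l, rfl⟩ := hi
      have h2 : l + l - 2 * j = 0 := by omega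
      rw [h2, h 0 Nat.one_pos, smul_zero]

theorem Rp_F (j : ℕ) :
    Rp ⊔ F (2 * j) = LinearMap.range (rm (pw (2 * j))) ⊔ (Rp ⊔ F (2 * j + 2)) := by
  apply le_antisymm
  · refine sup_le (le_trans le_sup_left le_sup_right) ?_
    rw [F_succ (2 * j)]
    refine sup_le le_sup_left ?_
    rw [F_succ (2 * j + 1)]
    refine sup_le ?_ ?_
    · exact le_trans (odd_range j) (le_trans le_sup_left le_sup_right)
    · exact le_trans le_sup_right le_sup_right
  · refine sup_le (le_trans (range_le_F _ _ le_rfl) le_sup_right)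
      (sup_le le_sup_left (le_trans (F_anti _ _ (by omega)) le_sup_right))

theorem mul_p_eq_zero_iff (f : R) : mu f (bw [true]) = 0 ↔ f ∈ Rp := by
  rw [mem_Rp]
  have h0 : mu f (bw [true]) = mu f (bw (pw 1)) := rfl
  rw [h0]
  constructor
  · intro h i hi
    have h1 := co_mul f 1 (i + 1)
    rw [h, co_zero, if_neg (by omega), Nat.add_sub_cancel, cc_one, if_pos hi, one_smul] at h1
    exact h1.symm
  · intro h
    apply eq_zero_of_co
    intro i
    rw [co_mul]
    split_ifs with h1
    · rfl
    · rw [cc_one]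
      split_ifs with h2
      · rw [h _ h2, smul_zero]
      · rw [zero_smul]

theorem F_low (m n k : ℕ) (f : R) (hf : f ∈ F m) (hh : IsH n k f) (h : n < m) : f = 0 := by
  have h1 : F m ≤ supported ℝ ℝ {w : Wd | m ≤ np w} := by
    refine iSup₂_le fun j hj => ?_
    rintro _ ⟨h', rfl⟩
    show mu h' (bw (pw j)) ∈ _
    induction h' using Finsupp.induction_linear with
    | zero =>
      rw [map_zero, LinearMap.zero_apply]
      exact Submodule.zero_mem _
    | add a b ha hb =>
      rw [map_add, LinearMap.add_apply]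
      exact Submodule.add_mem _ ha hb
    | single w a =>
      have h2 : (single w a : R) = a • bw w := by
        rw [bw, smul_single, smul_eq_mul, mul_one]
      rw [h2, map_smul, LinearMap.smul_apply]
      apply Submodule.smul_mem
      rw [mem_supported]
      intro x hx
      have h3 := (IsH_mu _ _ _ _ _ _ (IsH_bw w) (IsH_bw (pw j))) x
        (Finsupp.mem_support_iff.1 hx)
      rw [np_pw] at h3
      show m ≤ np x
      omega
  have h2 := h1 hf
  rw [mem_supported] at h2
  ext w
  by_contra hw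
  have h3 : m ≤ np w := h2 (Finsupp.mem_support_iff.2 hw)
  have h4 := (hh w hw).1
  omega

theorem G_inf_F1 (f : R) (h : f ∈ G') (h' : f ∈ F 1) : f = 0 := by
  have h1 := co_unique f (fun j => if j = 0 then f else 0) (fun j => by
    try dsimp only
    split_ifs
    · exact h
    · exact Submodule.zero_mem _) 1 (fun j hj => if_neg (by omega)) (by
      rw [Finset.sum_range_one, if_pos rfl, pw_zero, mu_one]) 0
  rw [if_pos rfl, (mem_F 1 f).1 h' 0 Nat.one_pos] at h1
  exact h1.symm

theorem G_sup_F1 (f : R) : ∃ g ∈ G', ∃ h ∈ F 1, f = g + h := by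
  have h1 := co_unique (co f 0) (fun j => if j = 0 then co f 0 else 0) (fun j => by
    try dsimp only
    split_ifs
    · exact co_mem f 0
    · exact Submodule.zero_mem _) 1 (fun j hj => if_neg (by omega)) (by
      rw [Finset.sum_range_one, if_pos rfl, pw_zero, mu_one]) 0
  rw [if_pos rfl] at h1
  refine ⟨co f 0, co_mem f 0, f - co f 0, ?_, by rw [add_sub_cancel]⟩
  rw [mem_F]
  intro i hi
  rw [Nat.lt_one_iff.1 hi]
  have h2 : coL 0 (f - co f 0) = coL 0 f - coL 0 (co f 0) := map_sub _ _ _
  show coL 0 (f - co f 0) = 0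
  rw [h2]
  show co f 0 - co (co f 0) 0 = 0
  rw [h1, sub_self]

end BrV
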