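import Pool.Agent.Lib.BrV.Formal
import Pool.Agent.Lib.BrV.Coef

/-!
# BrV.Supp: the support lemma (4.4)

(Step) Let `Y ≤ X` be graded left ideals and `(m,i)` a bidegree, `m ≤ n`, `i ≤ k`, such that every homogeneous `f ∈ X` of another
bidegree is in `Y`, and `Va r (n-m) (k-i)`.  Then `Ac X Y r n k`: with `Q = X / Y` one has `[mu f v] = f [] • [v]` for `v ∈ X`, so
`D` becomes `D0Q Q`, and `Va_coef` applies.
(Chain) For a down-closed set `S` of bidegrees `Zs X Y S = {f ∈ X | cmp a b f ∈ Y for (a,b) ∈ S}` is a graded left ideal between `Y`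
and `X`; the lexicographic segments give a chain from `X` to `Y` (up to `Ac_triv`) with steps as in (Step).
-/

namespace BrV

open Finsupp

private theorem cmp_add' (a b : ℕ) (f g : R) : cmp a b (f + g) = cmp a b f + cmp a b g :=
  Finsupp.filter_add

private theorem cmp_smul' (a b : ℕ) (t : ℝ) (f : R) : cmp a b (t • f) = t • cmp a b f := by
  ext w
  simp [cmp, Finsupp.filter_apply]

private theorem cmp_zero' (a b : ℕ) : cmp a b (0 : R) = 0 := by
  ext w
  simp [cmp, Finsupp.filter_apply]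

private theorem cmp_ne (a b a' b' : ℕ) (f : R) (hf : IsH a b f) (h : a' ≠ a ∨ b' ≠ b) :
    cmp a' b' f = 0 := by
  ext w
  simp only [cmp, Finsupp.filter_apply, Finsupp.coe_zero, Pi.zero_apply]
  split_ifs with h1
  · by_contra h2
    have := hf w h2
    omega
  · rfl

private theorem cmp_eq (a b : ℕ) (f : R) (hf : IsH a b f) : cmp a b f = f := cmp_of_IsH a b f hf

private theorem mu_expand (f g : R) :
    mu f g = ∑ w ∈ f.support, f w • mu (bw w) g := by
  have h : f = ∑ w ∈ f.support, f w • bw w := by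
    conv_lhs => rw [← Finsupp.sum_single f]
    simp only [Finsupp.sum, bw, Finsupp.smul_single, smul_eq_mul, mul_one]
  conv_lhs => rw [h]
  simp only [map_sum, LinearMap.sum_apply, map_smul, LinearMap.smul_apply]

/-- the elements of `X` whose components in the bidegrees of `S` are in `Y` -/
private def Zs (X Y : Submodule ℝ R) (S : ℕ → ℕ → Prop) : Submodule ℝ R where
  carrier := {f | f ∈ X ∧ ∀ a b, S a b → cmp a b f ∈ Y}
  add_mem' := by
    rintro f g ⟨hf, hf'⟩ ⟨hg, hg'⟩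
    refine ⟨X.add_mem hf hg, fun a b h => ?_⟩
    rw [cmp_add']
    exact Y.add_mem (hf' a b h) (hg' a b h)
  zero_mem' := ⟨X.zero_mem, fun a b _ => by rw [cmp_zero']; exact Y.zero_mem⟩
  smul_mem' := by
    rintro t f ⟨hf, hf'⟩
    refine ⟨X.smul_mem t hf, fun a b h => ?_⟩
    rw [cmp_smul']
    exact Y.smul_mem t (hf' a b h)

private theorem mem_Zs (X Y : Submodule ℝ R) (S : ℕ → ℕ → Prop) (f : R) :
    f ∈ Zs X Y S ↔ f ∈ X ∧ ∀ a b, S a b → cmp a b f ∈ Y := Iff.rfl

private theorem cmp_sum' {ι : Type} (s : Finset ι) (a b : ℕ) (f : ι → R) :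
    cmp a b (∑ i ∈ s, f i) = ∑ i ∈ s, cmp a b (f i) := by
  classical
  induction s using Finset.induction_on with
  | empty => simp [cmp_zero']
  | insert i s hi ih => rw [Finset.sum_insert hi, Finset.sum_insert hi, cmp_add', ih]

private theorem cmp_left_zero (n k a b : ℕ) (f g : R) (hg : IsH a b g) (h : n < a ∨ k < b) :
    cmp n k (mu g f) = 0 := by
  obtain ⟨N, hN⟩ := sum_cmp f
  have hf := hN N le_rfl
  conv_lhs => rw [hf]
  simp only [map_sum, cmp_sum']
  refine Finset.sum_eq_zero fun c _ => Finset.sum_eq_zero fun d _ => ?_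
  refine cmp_ne (a + c) (b + d) n k _ (IsH_mu a b c d g _ hg (IsH_cmp c d f)) ?_
  omega

private theorem Zs_LI (X Y : Submodule ℝ R) (hX : IsLI X) (hY : IsLI Y) (S : ℕ → ℕ → Prop)
    (hS : ∀ a b a' b', a' ≤ a → b' ≤ b → S a b → S a' b') : IsLI (Zs X Y S) where
  mul_mem := by
    rintro f g ⟨hg, hg'⟩
    refine ⟨hX.mul_mem f g hg, fun a b hab => ?_⟩
    rw [mu_expand, cmp_sum']
    refine Y.sum_mem fun w _ => ?_
    rw [cmp_smul']
    refine Y.smul_mem _ ?_
    by_cases h : np w ≤ a ∧ nz w ≤ b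
    · have h1 := cmp_mu_left (a - np w) (b - nz w) (np w) (nz w) g (bw w) (IsH_bw w)
      rw [Nat.add_sub_cancel' h.1, Nat.add_sub_cancel' h.2] at h1
      rw [h1]
      exact hY.mul_mem _ _ (hg' _ _ (hS a b _ _ (Nat.sub_le _ _) (Nat.sub_le _ _) hab))
    · rw [cmp_left_zero a b (np w) (nz w) g (bw w) (IsH_bw w) (by omega)]
      exact Y.zero_mem
  cmp_mem := by
    rintro n k g ⟨hg, hg'⟩
    refine ⟨hX.cmp_mem n k g hg, fun a b hab => ?_⟩
    by_cases h : a = n ∧ b = k
    · obtain ⟨rfl, rfl⟩ := h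
      rw [cmp_eq _ _ _ (IsH_cmp _ _ _)]
      exact hg' _ _ hab
    · rw [cmp_ne n k a b _ (IsH_cmp n k g) (by omega)]
      exact Y.zero_mem

/-- left multiplication by an element without constant term maps `X` into `Y` -/
private theorem mu_mem_of_nil (X Y : Submodule ℝ R) (hX : IsLI X) (hY : IsLI Y) (m i : ℕ)
    (hother : ∀ a b f, IsH a b f → (a ≠ m ∨ b ≠ i) → f ∈ X → f ∈ Y)
    (g v : R) (hg : g [] = 0) (hv : v ∈ X) : mu g v ∈ Y := by
  obtain ⟨N, hN⟩ := sum_cmp v
  have hf := hN N le_rfl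
  rw [hf]
  simp only [map_sum]
  refine Y.sum_mem fun a _ => Y.sum_mem fun b _ => ?_
  have hvX : cmp a b v ∈ X := hX.cmp_mem a b v hv
  by_cases h : a ≠ m ∨ b ≠ i
  · exact hY.mul_mem _ _ (hother a b _ (IsH_cmp a b v) h hvX)
  · rw [mu_expand]
    refine Y.sum_mem fun w hw => Y.smul_mem _ ?_
    refine hother (np w + a) (nz w + b) _ (IsH_mu _ _ _ _ _ _ (IsH_bw w) (IsH_cmp a b v)) ?_
      (hX.mul_mem _ _ hvX)
    have hw0 : w ≠ [] := by
      rintro rfl
      exact (Finsupp.mem_support_iff.1 hw) hg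
    have : 0 < np w + nz w := by
      cases w with
      | nil => exact absurd rfl hw0
      | cons c w => cases c <;> simp [np, nz]
    omega

private theorem mu_sub_mem (X Y : Submodule ℝ R) (hX : IsLI X) (hY : IsLI Y) (m i : ℕ)
    (hother : ∀ a b f, IsH a b f → (a ≠ m ∨ b ≠ i) → f ∈ X → f ∈ Y)
    (f v : R) (hv : v ∈ X) : mu f v - f [] • v ∈ Y := by
  have h := mu_mem_of_nil X Y hX hY m i hother (f - f [] • bw []) v (by simp [bw]) hv
  rwa [map_sub, LinearMap.sub_apply, map_smul, LinearMap.smul_apply, nil_mu] at h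

private theorem D0Q_apply (Q : Type) [AddCommGroup Q] [Module ℝ Q] (c : Ix →₀ Q) (j : Ix) :
    D0Q Q c j = ∑ i ∈ c.support, D01 i j • c i := by
  simp only [D0Q, Finsupp.coe_lsum, LinearMap.coe_mk, AddHom.coe_mk, Finsupp.sum,
    Finsupp.finsetSum_apply, Finsupp.mapRange_apply]

private theorem D0Q_eq (X Y : Submodule ℝ R) (hX : IsLI X) (hY : IsLI Y) (m i : ℕ)
    (hother : ∀ a b f, IsH a b f → (a ≠ m ∨ b ≠ i) → f ∈ X → f ∈ Y)
    (x : Ph) (hx : ∀ j, x j ∈ X) (c : Ix →₀ (X.map Y.mkQ : Submodule ℝ (R ⧸ Y)))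
    (hc : ∀ j, (c j : R ⧸ Y) = Y.mkQ (x j)) (j : Ix) :
    ((D0Q _ c j : (X.map Y.mkQ : Submodule ℝ (R ⧸ Y))) : R ⧸ Y) = Y.mkQ (D x j) := by
  have hsub : c.support ⊆ x.support := by
    intro a ha
    rw [Finsupp.mem_support_iff] at ha ⊢
    intro h0
    apply ha
    apply Subtype.ext
    rw [hc, h0]
    simp
  have h1 : D0Q _ c j = ∑ a ∈ x.support, D01 a j • c a := by
    rw [D0Q_apply]
    refine Finset.sum_subset hsub fun a _ ha => ?_
    rw [Finsupp.notMem_support_iff.1 ha, smul_zero]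
  rw [h1, D_apply, Finsupp.sum]
  rw [Submodule.coe_sum, map_sum]
  refine Finset.sum_congr rfl fun a _ => ?_
  rw [Submodule.coe_smul, hc, ← map_smul, D01_apply]
  have h2 := mu_sub_mem X Y hX hY m i hother (D1 a j) (x a) (hx a)
  have h3 : Y.mkQ (mu (D1 a j) (x a) - D1 a j [] • x a) = 0 := by
    rw [Submodule.mkQ_apply, Submodule.Quotient.mk_eq_zero]
    exact h2
  rw [map_sub, sub_eq_zero] at h3
  exact h3.symm

private theorem Ac_step (X Y : Submodule ℝ R) (hX : IsLI X) (hY : IsLI Y) (r n k m i : ℕ)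
    (hm : m ≤ n) (hi : i ≤ k)
    (hother : ∀ a b f, IsH a b f → (a ≠ m ∨ b ≠ i) → f ∈ X → f ∈ Y)
    (hV : Va r (n - m) (k - i)) : Ac X Y r n k := by
  classical
  refine Ac_weak X Y hX hY r n k ?_
  intro x hxh hx hDx
  have hcx : ∀ j, ((⟨Y.mkQ (x j), ⟨x j, hx j, rfl⟩⟩ : (X.map Y.mkQ : Submodule ℝ (R ⧸ Y)))) ≠ 0 →
      j ∈ x.support := by
    intro j hj
    rw [Finsupp.mem_support_iff]
    intro h0
    apply hj
    apply Subtype.ext
    simp [h0]
  obtain ⟨c, hc⟩ : ∃ c : Ix →₀ (X.map Y.mkQ : Submodule ℝ (R ⧸ Y)),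
      ∀ j, (c j : R ⧸ Y) = Y.mkQ (x j) :=
    ⟨Finsupp.onFinset x.support (fun j => ⟨Y.mkQ (x j), ⟨x j, hx j, rfl⟩⟩) hcx, fun j => rfl⟩
  have hch : ∀ j, c j ≠ 0 → rI j = r ∧ nI j = n - m ∧ kI j = k - i := by
    intro j hj
    have hY' : x j ∉ Y := by
      intro h
      apply hj
      apply Subtype.ext
      rw [hc, Submodule.mkQ_apply, (Submodule.Quotient.mk_eq_zero Y).2 h]
      rfl
    have h0 : x j ≠ 0 := by
      intro h
      exact hY' (h ▸ Y.zero_mem)
    obtain ⟨h1, h2, h3, h4⟩ := IsHP_coeff r n k x hxh j h0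
    by_contra hcon
    refine hY' (hother _ _ _ h4 ?_ (hx j))
    by_contra h5
    apply hcon
    omega
  have hD : D0Q _ c = 0 := by
    ext1 j
    apply Subtype.ext
    rw [D0Q_eq X Y hX hY m i hother x hx c hc j, Submodule.mkQ_apply,
      (Submodule.Quotient.mk_eq_zero Y).2 (hDx j)]
    rfl
  obtain ⟨e, -, he⟩ := Va_coef _ r (n - m) (k - i) hV c hch hD
  have hlift : ∀ q : (X.map Y.mkQ : Submodule ℝ (R ⧸ Y)), ∃ v : R, v ∈ X ∧ Y.mkQ v = (q : R ⧸ Y) ∧
      (q = 0 → v = 0) := by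
    intro q
    by_cases hq : q = 0
    · subst hq
      exact ⟨0, X.zero_mem, by simp, fun _ => rfl⟩
    · obtain ⟨v, hv, hv'⟩ := q.2
      exact ⟨v, hv, hv', fun h => absurd h hq⟩
  choose lf hlf1 hlf2 hlf3 using hlift
  have hy1 : ∀ j, (e.mapRange lf (hlf3 0 rfl)) j ∈ X := by
    intro j
    rw [Finsupp.mapRange_apply]
    exact hlf1 _
  have hy2 : ∀ j, (e j : R ⧸ Y) = Y.mkQ ((e.mapRange lf (hlf3 0 rfl)) j) := by
    intro j
    rw [Finsupp.mapRange_apply, hlf2]
  refine ⟨e.mapRange lf (hlf3 0 rfl), x - D (e.mapRange lf (hlf3 0 rfl)), hy1, ?_, by abel⟩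
  intro j
  rw [Finsupp.sub_apply]
  rw [← Submodule.Quotient.mk_eq_zero Y, ← Submodule.mkQ_apply, map_sub, sub_eq_zero, ← hc,
    ← D0Q_eq X Y hX hY m i hother _ hy1 e hy2 j, he]

/-- lexicographic segments -/
private def Lx (m i a b : ℕ) : Prop := a < m ∨ (a = m ∧ b < i)

private theorem Lx_down (m i : ℕ) : ∀ a b a' b', a' ≤ a → b' ≤ b → Lx m i a b → Lx m i a' b' := by
  intro a b a' b' h1 h2 h
  unfold Lx at *
  omega

theorem Ac_supp (X Y : Submodule ℝ R) (hX : IsLI X) (hY : IsLI Y) (hYX : Y ≤ X) (r n k : ℕ)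
    (h : ∀ m i, m ≤ n → i ≤ k → (∀ f, IsH m i f → f ∈ X → f ∈ Y) ∨ Va r (n - m) (k - i)) :
    Ac X Y r n k := by
  classical
  have hZX : ∀ S, Zs X Y S ≤ X := fun S f hf => hf.1
  have hYZ : ∀ S, Y ≤ Zs X Y S := fun S f hf => ⟨hYX hf, fun a b _ => hY.cmp_mem a b f hf⟩
  -- last step
  have hlast : Ac (Zs X Y (Lx (n + 1) 0)) Y r n k := by
    refine Ac_triv _ _ r n k ?_
    intro a b f ha hb hf hfZ
    have := hfZ.2 a b (by unfold Lx; omega)
    rwa [cmp_eq a b f hf] at this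
  -- from `(m, i + 1)` to `(m, i)`
  have hrow : ∀ m, m ≤ n → Ac (Zs X Y (Lx m (k + 1))) Y r n k →
      ∀ d i, i + d = k + 1 → Ac (Zs X Y (Lx m i)) Y r n k := by
    intro m hm hend d
    induction d with
    | zero =>
      intro i hi
      have : i = k + 1 := by omega
      subst this
      exact hend
    | succ d ih =>
      intro i hi
      have h1 := ih (i + 1) (by omega)
      have hle : Zs X Y (Lx m (i + 1)) ≤ Zs X Y (Lx m i) := by
        rintro f ⟨hf1, hf2⟩
        refine ⟨hf1, fun a b hab => hf2 a b ?_⟩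
        unfold Lx at *
        omega
      refine Ac_chain _ _ _ hle (hYZ _) r n k ?_ h1
      have hother : ∀ a b f, IsH a b f → (a ≠ m ∨ b ≠ i) → f ∈ Zs X Y (Lx m i) →
          f ∈ Zs X Y (Lx m (i + 1)) := by
        rintro a b f hf hab ⟨hf1, hf2⟩
        refine ⟨hf1, fun a' b' hab' => ?_⟩
        by_cases h2 : a' = m ∧ b' = i
        · rw [cmp_ne a b a' b' f hf (by omega)]
          exact Y.zero_mem
        · refine hf2 a' b' ?_
          unfold Lx at *
          omega
      rcases h m i hm (by omega) with h2 | h2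
      · -- trivial layer
        refine Ac_triv _ _ r n k ?_
        intro a b f _ _ hf hfZ
        by_cases hab : a ≠ m ∨ b ≠ i
        · exact hother a b f hf hab hfZ
        · have ha : a = m := by omega
          have hb : b = i := by omega
          subst ha hb
          exact hYZ _ (h2 f hf hfZ.1)
      · exact Ac_step _ _ (Zs_LI X Y hX hY _ (Lx_down m i)) (Zs_LI X Y hX hY _ (Lx_down m (i + 1)))
          r n k m i hm (by omega) hother h2
  have hcol : ∀ d m, m + d = n + 1 → Ac (Zs X Y (Lx m 0)) Y r n k := by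
    intro d
    induction d with
    | zero =>
      intro m hm
      have : m = n + 1 := by omega
      subst this
      exact hlast
    | succ d ih =>
      intro m hm
      have h1 := ih (m + 1) (by omega)
      refine hrow m (by omega) ?_ (k + 1) 0 (by omega)
      have hle : Zs X Y (Lx (m + 1) 0) ≤ Zs X Y (Lx m (k + 1)) := by
        rintro f ⟨hf1, hf2⟩
        refine ⟨hf1, fun a b hab => hf2 a b ?_⟩
        unfold Lx at *
        omega
      refine Ac_chain _ _ _ hle (hYZ _) r n k ?_ h1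
      refine Ac_triv _ _ r n k ?_
      rintro a b f ha hb hf ⟨hf1, hf2⟩
      refine ⟨hf1, fun a' b' hab' => ?_⟩
      by_cases h2 : a' = a ∧ b' = b
      · refine hf2 a' b' ?_
        unfold Lx at *
        omega
      · rw [cmp_ne a b a' b' f hf (by omega)]
        exact Y.zero_mem
  have h0 := hcol (n + 1) 0 (by omega)
  have hX0 : Zs X Y (Lx 0 0) = X := by
    apply le_antisymm (hZX _)
    intro f hf
    refine ⟨hf, fun a b hab => ?_⟩
    unfold Lx at hab
    omega
  rwa [hX0] at h0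

end BrV
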