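import Pool.Agent.Lib.BrV.PDet
import Pool.Agent.Lib.BrV.QApi

/-!
# BrV.ThBij: `Θ` is bijective in every bidegree (7.4)

`Th0 (w :: l) = shf (npL l) (P (true :: w)) * Th0 l`; `Th (single l a) = a • single (l.map np) (Th0 l)`; `tot (l.map np) = npL l`.
Surjectivity: induction on the list of the sizes of the blocks; every monomial in `u_1, ..., u_(o+a+1)` is a product of a
monomial in `u_1, ..., u_o` and of the shift by `o` of a monomial in `u_1, ..., u_(a+1)`, which is a combination of the
polynomials `P (true :: w)`, `np w = a`, by `PB_surj`.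
Injectivity: induction on the list of sizes.  Evaluation of the variables `u_1, ..., u_o` at real numbers and the linear
independence of the `P (true :: w)`, `np w = a` (`PB_inj`) show that the coefficients of `shf o (P (true :: w))` vanish.
-/

namespace BrV

open Finsupp

private theorem ThBij_shf (o : ℕ) (f : PA) :
    shf o f = MvPolynomial.rename (fun i => if i = 0 then 0 else i + o) f := by
  have h : shf o = MvPolynomial.rename (fun i => if i = 0 then 0 else i + o) := by
    apply MvPolynomial.algHom_ext
    intro i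
    rw [shf, MvPolynomial.aeval_X, MvPolynomial.rename_X]
    split_ifs <;> rfl
  rw [h]

private theorem ThBij_shf_inj (o : ℕ) (f : PA) (h : shf o f = 0) : f = 0 := by
  rw [ThBij_shf] at h
  refine MvPolynomial.rename_injective _ ?_ (h.trans (map_zero _).symm)
  intro i j hij
  simp only at hij
  split_ifs at hij <;> omega

private theorem ThBij_Bn_iff (n k : ℕ) (f : PA) : f ∈ Bn n k ↔ f.IsHomogeneous k ∧
    ∀ i ∈ f.vars, 1 ≤ i ∧ i ≤ n := by
  rw [Bn, Submodule.mem_inf, MvPolynomial.mem_homogeneousSubmodule, Subalgebra.mem_toSubmodule,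
    MvPolynomial.mem_supported]
  rfl

private theorem ThBij_shf_vars (o m k : ℕ) (f : PA) (hf : f ∈ Bn m k) :
    ∀ i ∈ (shf o f).vars, o < i ∧ i ≤ o + m := by
  classical
  intro i hi
  rw [ThBij_shf] at hi
  obtain ⟨j, hj, rfl⟩ := Finset.mem_image.1 (MvPolynomial.vars_rename _ f hi)
  have h := ((ThBij_Bn_iff m k f).1 hf).2 j hj
  rw [if_neg (by omega)]
  omega

private theorem ThBij_shf_mem (o m k : ℕ) (f : PA) (hf : f ∈ Bn m k) : shf o f ∈ Bn (o + m) k := by
  rw [ThBij_Bn_iff]
  refine ⟨?_, fun i hi => ?_⟩
  · rw [ThBij_shf]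
    exact ((ThBij_Bn_iff m k f).1 hf).1.rename_isHomogeneous
  · have h := ThBij_shf_vars o m k f hf i hi
    omega

theorem Th_single (l : LB) (a : ℝ) : Th (single l a) = a • single (l.map np) (Th0 l) := by
  rw [Th, Finsupp.lift_apply]
  exact Finsupp.sum_single_index (zero_smul _ _)

theorem tot_map_np (l : LB) : tot (l.map np) = npL l := by
  rw [tot, npL, List.map_map]
  rfl

private theorem ThBij_npL_cons (w : Wd) (l : LB) : npL (w :: l) = np w + 1 + npL l := by
  rw [npL, List.map_cons, List.sum_cons]
  rfl

private theorem ThBij_nzL_cons (w : Wd) (l : LB) : nzL (w :: l) = nz w + nzL l := by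
  rw [nzL, List.map_cons, List.sum_cons]
  rfl

private theorem ThBij_tot_cons (a : ℕ) (s : List ℕ) : tot (a :: s) = a + 1 + tot s := by
  rw [tot, List.map_cons, List.sum_cons]
  rfl

theorem Th0_mem (l : LB) : Th0 l ∈ Bn (npL l) (nzL l) := by
  induction l with
  | nil =>
    rw [ThBij_Bn_iff]
    refine ⟨MvPolynomial.isHomogeneous_one ℕ ℝ, fun i hi => ?_⟩
    have h : (Th0 []).vars = ∅ := MvPolynomial.vars_one
    rw [h] at hi
    exact absurd hi (Finset.notMem_empty i)
  | cons w l ih =>
    rw [ThBij_npL_cons, ThBij_nzL_cons]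
    have h1 : shf (npL l) (P (true :: w)) ∈ Bn (np w + 1 + npL l) (nz w) := by
      have h := ThBij_shf_mem (npL l) (np w + 1) (nz w) _ (P_true_mem w)
      rwa [add_comm] at h
    exact Bn_mul _ _ _ _ _ h1 (Bn_mono _ _ _ (Nat.le_add_left _ _) ih)

/-- `Θ` with values in the polynomials -/
private noncomputable def T0 : CL →ₗ[ℝ] PA := Finsupp.linearCombination ℝ Th0

private theorem T0_single (l : LB) (a : ℝ) : T0 (single l a) = a • Th0 l :=
  Finsupp.linearCombination_single _ _ _

private theorem Th_apply (c : CL) (s : List ℕ) : Th c s = T0 (c.filter fun l => l.map np = s) := by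
  induction c using Finsupp.induction_linear with
  | zero => rw [Finsupp.filter_zero, map_zero, map_zero, Finsupp.zero_apply]
  | add f g hf hg =>
    rw [map_add, Finsupp.add_apply, hf, hg, Finsupp.filter_add, map_add]
  | single l a =>
    rw [Th_single, Finsupp.smul_apply]
    by_cases h : l.map np = s
    · rw [Finsupp.filter_single_of_pos (fun l : LB => l.map np = s) h, T0_single, h,
        Finsupp.single_eq_same]
    · rw [Finsupp.filter_single_of_neg (fun l : LB => l.map np = s) h, map_zero,
        Finsupp.single_eq_of_ne (Ne.symm h), smul_zero]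

/-! ### linear independence of the polynomials of blocks with the same number of `p` -/

private theorem PP_app_single (w : Wd) (a : ℝ) : PP (app true (single w a)) = a • P (true :: w) := by
  rw [app, Finsupp.lmapDomain_apply, Finsupp.mapDomain_single, PP, Finsupp.lift_apply]
  exact Finsupp.sum_single_index (zero_smul _ _)

private theorem PP_hom (j : ℕ) (F : R) : MvPolynomial.homogeneousComponent j (PP (app true F)) =
    PP (app true (F.filter fun w => nz w = j)) := by
  induction F using Finsupp.induction_linear with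
  | zero => rw [Finsupp.filter_zero, map_zero, map_zero, map_zero]
  | add f g hf hg => rw [map_add, map_add, map_add, hf, hg, Finsupp.filter_add, map_add, map_add]
  | single w a =>
    have hw : (P (true :: w)) ∈ MvPolynomial.homogeneousSubmodule ℕ ℝ (nz w) :=
      (Submodule.mem_inf.1 (P_true_mem w)).1
    rw [PP_app_single, map_smul]
    by_cases h : nz w = j
    · rw [Finsupp.filter_single_of_pos (fun w => nz w = j) h, PP_app_single, ← h,
        MvPolynomial.homogeneousComponent_of_mem hw, if_pos rfl]
    · rw [Finsupp.filter_single_of_neg (fun w => nz w = j) h, map_zero, map_zero,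
        MvPolynomial.homogeneousComponent_of_mem hw, if_neg (Ne.symm h), smul_zero]

private theorem PB_inj' (a : ℕ) (F : R) (hF : ∀ w, F w ≠ 0 → np w = a)
    (h : PP (app true F) = 0) : F = 0 := by
  ext w
  have h1 : (F.filter fun w' => nz w' = nz w) = 0 := by
    refine PB_inj a (nz w) _ ?_ ?_
    · intro w' hw'
      by_cases h2 : nz w' = nz w
      · rw [Finsupp.filter_apply_pos (fun w' => nz w' = nz w) _ h2] at hw'
        exact ⟨hF w' hw', h2⟩
      · rw [Finsupp.filter_apply_neg (fun w' => nz w' = nz w) _ h2] at hw'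
        exact absurd rfl hw'
    · rw [← PP_hom, h, map_zero]
  have h2 := DFunLike.congr_fun h1 w
  rwa [Finsupp.filter_apply_pos (fun w' => nz w' = nz w) F rfl] at h2

/-! ### injectivity -/

private theorem T0_cns (w : Wd) (s : List ℕ) (c : CL) (hc : ∀ l, c l ≠ 0 → l.map np = s) :
    T0 (mapDomain (List.cons w) c) = shf (tot s) (P (true :: w)) * T0 c := by
  rw [T0, Finsupp.linearCombination_mapDomain, Finsupp.linearCombination_apply,
    Finsupp.linearCombination_apply, Finsupp.sum, Finsupp.sum, Finset.mul_sum]
  refine Finset.sum_congr rfl fun l hl => ?_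
  have h1 : npL l = tot s := by rw [← tot_map_np, hc l (Finsupp.mem_support_iff.1 hl)]
  have h2 : Th0 (w :: l) = shf (npL l) (P (true :: w)) * Th0 l := rfl
  rw [Function.comp_apply, h2, h1, mul_smul_comm]

private theorem T0_vars (s : List ℕ) (c : CL) (hc : ∀ l, c l ≠ 0 → l.map np = s) :
    ∀ i ∈ (T0 c).vars, i ≤ tot s := by
  have h : T0 c ∈ Subalgebra.toSubmodule (MvPolynomial.supported ℝ {i : ℕ | i ≤ tot s}) := by
    rw [T0, Finsupp.linearCombination_apply, Finsupp.sum]
    refine Submodule.sum_mem _ fun l hl => Submodule.smul_mem _ _ ?_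
    rw [Subalgebra.mem_toSubmodule, MvPolynomial.mem_supported]
    intro i hi
    have h1 : npL l = tot s := by rw [← tot_map_np, hc l (Finsupp.mem_support_iff.1 hl)]
    have h2 := ((ThBij_Bn_iff _ _ _).1 (Th0_mem l)).2 i hi
    rw [h1] at h2
    exact h2.2
  rw [Subalgebra.mem_toSubmodule, MvPolynomial.mem_supported] at h
  exact fun i hi => h hi

/-- evaluation of the variables with index at most `o` -/
private noncomputable def evo (o : ℕ) (v : ℕ → ℝ) : PA →ₐ[ℝ] PA :=
  MvPolynomial.aeval fun i => if i ≤ o then MvPolynomial.C (v i) else MvPolynomial.X i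

private theorem evo_le (o : ℕ) (v : ℕ → ℝ) (f : PA) (hf : ∀ i ∈ f.vars, i ≤ o) :
    evo o v f = MvPolynomial.C (MvPolynomial.eval v f) := by
  have h := MvPolynomial.hom_congr_vars (f₁ := (evo o v).toRingHom)
    (f₂ := (MvPolynomial.C).comp (MvPolynomial.eval v)) (p₁ := f) (p₂ := f) ?_ ?_ rfl
  · exact h
  · ext r
    simp
  · intro i hi _
    simp [evo, hf i hi]

private theorem evo_gt (o : ℕ) (v : ℕ → ℝ) (f : PA) (hf : ∀ i ∈ f.vars, o < i) :
    evo o v f = f := by
  have h := MvPolynomial.hom_congr_vars (f₁ := (evo o v).toRingHom)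
    (f₂ := RingHom.id PA) (p₁ := f) (p₂ := f) ?_ ?_ rfl
  · exact h
  · ext r
    simp
  · intro i hi _
    have h1 : ¬ i ≤ o := by
      have := hf i hi
      omega
    simp [evo, h1]

private theorem T0_inj (s : List ℕ) : ∀ c : CL, (∀ l, c l ≠ 0 → l.map np = s) → T0 c = 0 →
    c = 0 := by
  classical
  induction s with
  | nil =>
    intro c hc h0
    have h1 : c = single [] (c []) := by
      ext l
      by_cases hl : l = []
      · rw [hl, Finsupp.single_eq_same]
      · rw [Finsupp.single_eq_of_ne hl]
        by_contra h2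
        exact hl (List.map_eq_nil_iff.1 (hc l h2))
    rw [h1, T0_single] at h0
    have h2 : c [] = 0 := by
      have h3 : Th0 [] = 1 := rfl
      rw [h3] at h0
      exact (smul_eq_zero.1 h0).resolve_right one_ne_zero
    rw [h1, h2, Finsupp.single_zero]
  | cons a s ih =>
    intro c hc h0
    set o := tot s with ho
    set cw : Wd → CL := fun w =>
      (lcomapDomain (List.cons w) List.cons_injective : CL →ₗ[ℝ] CL) c with hcw
    have hcwa : ∀ w l, cw w l = c (w :: l) := fun w l => rfl
    have hcws : ∀ w l, cw w l ≠ 0 → l.map np = s := by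
      intro w l hl
      have h1 := hc _ hl
      rw [List.map_cons, List.cons.injEq] at h1
      exact h1.2
    set W : Finset Wd := c.support.image (fun l => l.headD []) with hW
    have hWa : ∀ w ∈ W, np w = a := by
      intro w hw
      obtain ⟨l, hl, rfl⟩ := Finset.mem_image.1 hw
      have h1 := hc l (Finsupp.mem_support_iff.1 hl)
      cases l with
      | nil => simp at h1
      | cons w l =>
        rw [List.map_cons, List.cons.injEq] at h1
        exact h1.1
    have hWc : ∀ w l, c (w :: l) ≠ 0 → w ∈ W := by
      intro w l hl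
      exact Finset.mem_image.2 ⟨w :: l, Finsupp.mem_support_iff.2 hl, rfl⟩
    -- decomposition of `c`
    have hdec : c = ∑ w ∈ W, mapDomain (List.cons w) (cw w) := by
      ext l
      rw [Finsupp.finsetSum_apply]
      cases l with
      | nil =>
        have h1 : c [] = 0 := by
          by_contra h2
          have h3 := hc [] h2
          simp at h3
        rw [h1]
        symm
        refine Finset.sum_eq_zero fun w _ => Finsupp.mapDomain_of_notMem_range _ _ ?_
        rintro ⟨l, hl⟩
        exact List.cons_ne_nil _ _ hl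
      | cons w' l =>
        have h1 : ∀ w ∈ W, w ≠ w' → mapDomain (List.cons w) (cw w) (w' :: l) = 0 := by
          intro w _ hne
          refine Finsupp.mapDomain_of_notMem_range _ _ ?_
          rintro ⟨l', hl'⟩
          rw [List.cons.injEq] at hl'
          exact hne hl'.1
        by_cases hw' : w' ∈ W
        · rw [Finset.sum_eq_single w' h1 (fun h => absurd hw' h),
            Finsupp.mapDomain_apply List.cons_injective, hcwa]
        · have h2 : c (w' :: l) = 0 := by
            by_contra h3
            exact hw' (hWc _ _ h3)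
          rw [h2]
          symm
          refine Finset.sum_eq_zero fun w hw => h1 w hw ?_
          rintro rfl
          exact hw' hw
    have hT : ∑ w ∈ W, shf o (P (true :: w)) * T0 (cw w) = 0 := by
      rw [← h0]
      conv_rhs => rw [hdec]
      rw [map_sum]
      exact Finset.sum_congr rfl fun w _ => (T0_cns w s (cw w) (hcws w)).symm
    -- the coefficients vanish
    have hz : ∀ w ∈ W, T0 (cw w) = 0 := by
      have h1 : ∀ v : ℕ → ℝ, ∀ w ∈ W, MvPolynomial.eval v (T0 (cw w)) = 0 := by
        intro v
        set F : R := ∑ w ∈ W, (single w (MvPolynomial.eval v (T0 (cw w))) : R) with hF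
        have hFa : ∀ w, F w = if w ∈ W then MvPolynomial.eval v (T0 (cw w)) else 0 := by
          intro w
          rw [hF, Finsupp.finsetSum_apply]
          by_cases hw : w ∈ W
          · rw [if_pos hw, Finset.sum_eq_single w]
            · rw [Finsupp.single_eq_same]
            · intro w' _ hne
              rw [Finsupp.single_eq_of_ne hne.symm]
            · intro h
              exact absurd hw h
          · rw [if_neg hw]
            refine Finset.sum_eq_zero fun w' hw' => ?_
            rw [Finsupp.single_eq_of_ne]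
            rintro rfl
            exact hw hw'
        have hPF : PP (app true F) = 0 := by
          apply ThBij_shf_inj o
          rw [hF]
          rw [map_sum (app true), map_sum PP, map_sum (shf o), ← map_zero (evo o v), ← hT, map_sum]
          refine Finset.sum_congr rfl fun w hw => ?_
          rw [PP_app_single, map_mul, evo_le o v _ (T0_vars s (cw w) (hcws w)), evo_gt o v,
            map_smul, mul_comm, MvPolynomial.C_mul']
          intro i hi
          exact (ThBij_shf_vars o _ _ _ (P_true_mem w) i hi).1
        have hF0 : F = 0 := by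
          refine PB_inj' a F ?_ hPF
          intro w hw
          rw [hFa] at hw
          by_cases hwW : w ∈ W
          · exact hWa w hwW
          · rw [if_neg hwW] at hw
            exact absurd rfl hw
        intro w hw
        have h2 := hFa w
        rw [if_pos hw, hF0, Finsupp.zero_apply] at h2
        exact h2.symm
      intro w hw
      apply MvPolynomial.funext
      intro v
      rw [h1 v w hw, map_zero]
    rw [hdec]
    refine Finset.sum_eq_zero fun w hw => ?_
    rw [ih (cw w) (hcws w) (hz w hw), Finsupp.mapDomain_zero]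

theorem Th_inj (n k : ℕ) (c : CL) (hc : ∀ l, c l ≠ 0 → npL l = n ∧ nzL l = k) (h : Th c = 0) :
    c = 0 := by
  have h1 : ∀ s, (c.filter fun l => l.map np = s) = 0 := by
    intro s
    refine T0_inj s _ ?_ ?_
    · intro l hl
      by_contra h2
      rw [Finsupp.filter_apply_neg (fun l : LB => l.map np = s) _ h2] at hl
      exact hl rfl
    · rw [← Th_apply, h, Finsupp.zero_apply]
  ext l
  have h2 := DFunLike.congr_fun (h1 (l.map np)) l
  rwa [Finsupp.filter_apply_pos (fun l' : LB => l'.map np = l.map np) c rfl] at h2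

/-! ### surjectivity -/

private theorem Bn_span (a k : ℕ) (H : PA) (hH : H ∈ Bn (a + 1) k) :
    H ∈ Submodule.span ℝ ((fun w => P (true :: w)) '' {w | np w = a ∧ nz w = k}) := by
  obtain ⟨f, hf, rfl⟩ := PB_surj a k H hH
  rw [← Finsupp.sum_single f, Finsupp.sum, map_sum, map_sum]
  refine Submodule.sum_mem _ fun w hw => ?_
  rw [PP_app_single]
  refine Submodule.smul_mem _ _ (Submodule.subset_span ?_)
  exact ⟨w, hf w (Finsupp.mem_support_iff.1 hw), rfl⟩

private theorem mono_Bn (n : ℕ) (m : ℕ →₀ ℕ) (hm : ∀ i ∈ m.support, 1 ≤ i ∧ i ≤ n) :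
    MvPolynomial.monomial m (1 : ℝ) ∈ Bn n m.degree := by
  rw [ThBij_Bn_iff]
  refine ⟨MvPolynomial.isHomogeneous_monomial _ rfl, fun i hi => hm i ?_⟩
  rwa [MvPolynomial.vars_monomial one_ne_zero] at hi

private theorem T0_span (s : List ℕ) : ∀ (k : ℕ) (H : PA), H ∈ Bn (tot s) k →
    H ∈ Submodule.span ℝ (Th0 '' {l | l.map np = s ∧ nzL l = k}) := by
  induction s with
  | nil =>
    intro k H hH
    rw [ThBij_Bn_iff] at hH
    rw [← MvPolynomial.support_sum_monomial_coeff H]
    refine Submodule.sum_mem _ fun m hm => ?_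
    have hm0 : m = 0 := by
      rw [← Finsupp.support_eq_empty, Finset.eq_empty_iff_forall_notMem]
      intro i hi
      have h1 := hH.2 i ((MvPolynomial.mem_vars_iff_mem_support i).2 ⟨m, hm, hi⟩)
      have h2 : tot [] = 0 := rfl
      omega
    have hk : k = 0 := by
      by_contra hk
      have h1 := hH.1.coeff_eq_zero (d := m) (by rw [hm0, map_zero]; exact Ne.symm hk)
      exact MvPolynomial.mem_support_iff.1 hm h1
    have h2 : MvPolynomial.monomial m (MvPolynomial.coeff m H) =
        MvPolynomial.coeff m H • Th0 [] := by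
      rw [hm0]
      have h3 : Th0 [] = 1 := rfl
      rw [h3, MvPolynomial.smul_eq_C_mul, mul_one]
      rfl
    rw [h2]
    refine Submodule.smul_mem _ _ (Submodule.subset_span ⟨[], ?_, rfl⟩)
    exact ⟨rfl, hk.symm⟩
  | cons a s ih =>
    intro k H hH
    rw [ThBij_Bn_iff] at hH
    rw [← MvPolynomial.support_sum_monomial_coeff H]
    refine Submodule.sum_mem _ fun m hm => ?_
    set o := tot s with ho
    have htot : tot (a :: s) = a + 1 + o := ThBij_tot_cons a s
    have hmv : ∀ i ∈ m.support, 1 ≤ i ∧ i ≤ a + 1 + o := by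
      intro i hi
      rw [← htot]
      exact hH.2 i ((MvPolynomial.mem_vars_iff_mem_support i).2 ⟨m, hm, hi⟩)
    have hdeg : m.degree = k := by
      by_contra hk
      exact MvPolynomial.mem_support_iff.1 hm (hH.1.coeff_eq_zero hk)
    have hsc : MvPolynomial.monomial m (MvPolynomial.coeff m H) =
        MvPolynomial.coeff m H • MvPolynomial.monomial m (1 : ℝ) := by
      rw [MvPolynomial.smul_monomial, smul_eq_mul, mul_one]
    rw [hsc]
    refine Submodule.smul_mem _ _ ?_
    -- the two parts of the monomial
    set m1 := m.filter (fun i => i ≤ o) with hm1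
    set m2 := m.filter (fun i => ¬ i ≤ o) with hm2
    have hm12 : m1 + m2 = m := Finsupp.filter_add_filter_not m (fun i => i ≤ o)
    set m3 : ℕ →₀ ℕ := m2.mapDomain (fun i => i - o) with hm3
    have hs1 : ∀ i ∈ m1.support, 1 ≤ i ∧ i ≤ o := by
      intro i hi
      rw [hm1, Finsupp.support_filter, Finset.mem_filter] at hi
      exact ⟨(hmv i hi.1).1, hi.2⟩
    have hs2 : ∀ i ∈ m2.support, o < i ∧ i ≤ a + 1 + o := by
      intro i hi
      rw [hm2, Finsupp.support_filter, Finset.mem_filter] at hi
      exact ⟨not_le.1 hi.2, (hmv i hi.1).2⟩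
    have hs3 : ∀ i ∈ m3.support, 1 ≤ i ∧ i ≤ a + 1 := by
      classical
      intro i hi
      obtain ⟨j, hj, rfl⟩ := Finset.mem_image.1 (Finsupp.mapDomain_support hi)
      have h1 := hs2 j hj
      exact ⟨by omega, by omega⟩
    have hmon2 : shf o (MvPolynomial.monomial m3 (1 : ℝ)) = MvPolynomial.monomial m2 (1 : ℝ) := by
      rw [ThBij_shf, MvPolynomial.rename_monomial, hm3, ← Finsupp.mapDomain_comp]
      have h2 : mapDomain ((fun i => if i = 0 then 0 else i + o) ∘ fun i => i - o) m2 = m2 := by
        conv_rhs => rw [← Finsupp.mapDomain_id (v := m2)]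
        refine Finsupp.mapDomain_congr fun i hi => ?_
        have h1 := hs2 i hi
        simp only [Function.comp_apply, id]
        rw [if_neg (by omega)]
        omega
      rw [h2]
    have hmon : MvPolynomial.monomial m (1 : ℝ) =
        shf o (MvPolynomial.monomial m3 (1 : ℝ)) * MvPolynomial.monomial m1 (1 : ℝ) := by
      rw [hmon2, MvPolynomial.monomial_mul, one_mul, add_comm, hm12]
    have hd3 : m3.degree = m2.degree := Finsupp.degree_mapDomain _ _
    have hdd : m3.degree + m1.degree = k := by
      rw [hd3, add_comm, ← map_add, hm12, hdeg]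
    have hA := Bn_span a m3.degree _ (mono_Bn (a + 1) m3 hs3)
    have hB := ih m1.degree _ (mono_Bn o m1 hs1)
    rw [hmon]
    refine Submodule.span_induction (p := fun x _ => shf o x * MvPolynomial.monomial m1 (1 : ℝ) ∈
      Submodule.span ℝ (Th0 '' {l | l.map np = a :: s ∧ nzL l = k})) ?_ ?_ ?_ ?_ hA
    · rintro x ⟨w, ⟨hw1, hw2⟩, rfl⟩
      refine Submodule.span_induction (p := fun y _ => shf o (P (true :: w)) * y ∈
        Submodule.span ℝ (Th0 '' {l | l.map np = a :: s ∧ nzL l = k})) ?_ ?_ ?_ ?_ hB
      · rintro y ⟨l, ⟨hl1, hl2⟩, rfl⟩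
        refine Submodule.subset_span ⟨w :: l, ⟨?_, ?_⟩, ?_⟩
        · rw [List.map_cons, hw1, hl1]
        · rw [ThBij_nzL_cons, hw2, hl2, hdd]
        · have h1 : npL l = o := by rw [← tot_map_np, hl1]
          rw [← h1]
          rfl
      · rw [mul_zero]
        exact Submodule.zero_mem _
      · intro y z _ _ hy hz
        rw [mul_add]
        exact Submodule.add_mem _ hy hz
      · intro r y _ hy
        rw [mul_smul_comm]
        exact Submodule.smul_mem _ _ hy
    · rw [map_zero, zero_mul]
      exact Submodule.zero_mem _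
    · intro y z _ _ hy hz
      rw [map_add, add_mul]
      exact Submodule.add_mem _ hy hz
    · intro r y _ hy
      rw [map_smul, smul_mul_assoc]
      exact Submodule.smul_mem _ _ hy

theorem Th_surj (r n k : ℕ) (x : List ℕ →₀ PA) (hx : IsS (Bn n k) r n x) :
    ∃ c : CL, (∀ l, c l ≠ 0 → l.length = r ∧ npL l = n ∧ nzL l = k) ∧ Th c = x := by
  classical
  have h1 : ∀ s : List ℕ, ∃ c : CL, (∀ l, c l ≠ 0 → l.map np = s ∧ npL l = n ∧ nzL l = k ∧
      l.length = r) ∧ T0 c = x s := by
    intro s
    by_cases hs : x s = 0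
    · refine ⟨0, fun l hl => absurd rfl hl, ?_⟩
      rw [hs, map_zero]
    · have h2 := hx.1 s hs
      have h3 := hx.2 s
      rw [← h2.2] at h3
      obtain ⟨c, hc, hc'⟩ := (Finsupp.mem_span_image_iff_linearCombination ℝ).1 (T0_span s k _ h3)
      refine ⟨c, fun l hl => ?_, hc'⟩
      have h4 : l ∈ {l | l.map np = s ∧ nzL l = k} := hc (Finsupp.mem_support_iff.2 hl)
      refine ⟨h4.1, ?_, h4.2, ?_⟩
      · rw [← tot_map_np, h4.1, h2.2]
      · rw [← h2.1, ← h4.1, List.length_map]
  choose c hc hc' using h1
  refine ⟨∑ s ∈ x.support, c s, fun l hl => ?_, ?_⟩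
  · rw [Finsupp.finsetSum_apply] at hl
    obtain ⟨s, _, hs⟩ := Finset.exists_ne_zero_of_sum_ne_zero hl
    have h2 := hc s l hs
    exact ⟨h2.2.2.2, h2.2.1, h2.2.2.1⟩
  · ext1 s
    rw [map_sum, Finsupp.finsetSum_apply]
    have h2 : ∀ s', Th (c s') s = if s' = s then x s else 0 := by
      intro s'
      rw [Th_apply]
      by_cases hs : s' = s
      · rw [if_pos hs, ← hc' s, ← hs]
        congr 1
        refine (Finsupp.filter_eq_self_iff _ _).2 ?_
        intro l hl
        exact (hc s' l hl).1
      · rw [if_neg hs]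
        have h3 : ((c s').filter fun l => l.map np = s) = 0 := by
          ext l
          by_cases hl : l.map np = s
          · rw [Finsupp.filter_apply_pos (fun l : LB => l.map np = s) _ hl, Finsupp.zero_apply]
            by_contra h4
            exact hs ((hc s' l h4).1.symm.trans hl)
          · rw [Finsupp.filter_apply_neg (fun l : LB => l.map np = s) _ hl, Finsupp.zero_apply]
        rw [h3, map_zero]
    rw [Finset.sum_congr rfl fun s' _ => h2 s', Finset.sum_ite_eq']
    split_ifs with h3
    · rfl
    · exact (Finsupp.notMem_support_iff.1 h3).symm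

theorem Th_IsS (r n k : ℕ) (c : CL)
    (hc : ∀ l, c l ≠ 0 → l.length = r ∧ npL l = n ∧ nzL l = k) : IsS (Bn n k) r n (Th c) := by
  constructor
  · intro s hs
    rw [Th_apply] at hs
    have h1 : (c.filter fun l => l.map np = s) ≠ 0 := by
      intro h
      rw [h, map_zero] at hs
      exact hs rfl
    obtain ⟨l, hl⟩ := Finsupp.ne_iff.1 h1
    by_cases h2 : l.map np = s
    · rw [Finsupp.filter_apply_pos (fun l : LB => l.map np = s) _ h2] at hl
      have h3 := hc l hl
      rw [← h2, List.length_map, tot_map_np]
      exact ⟨h3.1, h3.2.1⟩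
    · rw [Finsupp.filter_apply_neg (fun l : LB => l.map np = s) _ h2] at hl
      exact absurd rfl hl
  · intro s
    rw [Th_apply, T0, Finsupp.linearCombination_apply, Finsupp.sum]
    refine Submodule.sum_mem _ fun l hl => Submodule.smul_mem _ _ ?_
    have h1 : c l ≠ 0 := by
      rw [Finsupp.support_filter, Finset.mem_filter] at hl
      exact Finsupp.mem_support_iff.1 hl.1
    have h2 := Th0_mem l
    rwa [(hc l h1).2.1, (hc l h1).2.2] at h2

end BrV
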