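import Pool.Agent.Lib.BrV.Key
import Pool.Agent.Lib.BrV.ThBij
import Pool.Agent.Lib.BrV.Api
import Pool.Agent.Lib.BrV.Grad

namespace BrV

open Finsupp

private theorem sh_supp (v w x : Wd) (h : sh v w x ≠ 0) :
    np x = np v + np w ∧ nz x = nz v + nz w := by
  have := IsH_mu _ _ _ _ _ _ (IsH_bw v) (IsH_bw w) x
  rw [mu_bw] at this
  exact this h

private theorem np_true (w : Wd) : np (true :: w) = np w + 1 := by
  simp [np]

private theorem np_false (w : Wd) : np (false :: w) = np w := by
  simp [np]

private theorem np_nil : np [] = 0 := by simp [np]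

private theorem npL_cons (w : Wd) (l : LB) : npL (w :: l) = np w + 1 + npL l := by
  simp [npL]

private theorem bm_np (v w x : Wd) (h : bm v w x ≠ 0) : np x = np w + np v + 1 := by
  unfold bm at h
  rw [Finsupp.add_apply, Finsupp.smul_apply, smul_eq_mul] at h
  by_cases h1 : sh (true :: v) w x = 0
  · have h2 : sh v (true :: w) x ≠ 0 := by
      intro h0
      apply h
      rw [h1, h0]
      simp
    have := (sh_supp _ _ _ h2).1
    rw [np_true] at this
    omega
  · have := (sh_supp _ _ _ h1).1
    rw [np_true] at this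
    omega

private theorem ub_np (w x : Wd) (h : ub w x ≠ 0) : np x = np w := by
  unfold ub at h
  rw [Finsupp.add_apply, Finsupp.smul_apply, smul_eq_mul] at h
  by_cases h1 : sh [false] w x = 0
  · have h2 : sh w [false] x ≠ 0 := by
      intro h0
      apply h
      rw [h1, h0]
      simp
    have := (sh_supp _ _ _ h2).1
    rw [np_false, np_nil] at this
    omega
  · have := (sh_supp _ _ _ h1).1
    rw [np_false, np_nil] at this
    omega

private theorem Th_cl (f : R) (l : LB) (m : ℕ) (hf : ∀ u, f u ≠ 0 → np u = m) :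
    Th (cl f l) = single (m :: l.map np) (shf (npL l) (PP (app true f)) * Th0 l) := by
  have h1 : cl f l = f.sum fun u a => (single (u :: l) a : CL) := rfl
  have h2 : app true f = f.sum fun u a => (single (true :: u) a : R) := rfl
  rw [h1, h2, map_finsuppSum, map_finsuppSum, map_finsuppSum, Finsupp.sum_mul]
  unfold Finsupp.sum
  rw [single_finsetSum]
  apply Finset.sum_congr rfl
  intro u hu
  beta_reduce
  rw [Th_single]
  have h3 : np u = m := hf u (by simpa using hu)
  have h4 : PP (single (true :: u) (f u)) = f u • P (true :: u) := by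
    have : (single (true :: u) (f u) : R) = f u • bw (true :: u) := by
      unfold bw
      rw [smul_single, smul_eq_mul, mul_one]
    rw [this, map_smul, PP_bw]
  rw [h4, map_smul, smul_mul_assoc, ← smul_single]
  simp only [List.map_cons, h3]
  rfl

private noncomputable def mm (q : PA) : (List ℕ →₀ PA) →ₗ[ℝ] (List ℕ →₀ PA) :=
  mapRange.linearMap (LinearMap.mulLeft ℝ q)

private theorem mm_single (q : PA) (c : List ℕ) (x : PA) : mm q (single c x) = single c (q * x) := by
  unfold mm
  rw [mapRange.linearMap_apply, mapRange_single]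
  rfl

private theorem Th_cns (w : Wd) (c : CL) (m : ℕ) (hc : ∀ l, c l ≠ 0 → npL l = m) :
    Th (cns w c) = lmapDomain PA ℝ (List.cons (np w)) (mm (shf m (P (true :: w))) (Th c)) := by
  have h1 : c = c.sum fun l a => (single l a : CL) := (Finsupp.sum_single c).symm
  conv_lhs => rw [h1]
  conv_rhs => rw [h1]
  rw [map_finsuppSum, map_finsuppSum, map_finsuppSum, map_finsuppSum, map_finsuppSum]
  apply Finsupp.sum_congr
  intro l hl
  have h3 : npL l = m := hc l (by simpa using hl)
  rw [cns_single, Th_single, Th_single, map_smul, map_smul, mm_single, lmapDomain_apply,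
    mapDomain_single, ← h3]
  rfl

private theorem mgS_cons2 (a b : ℕ) (l : List ℕ) : mgS SA (a :: b :: l) =
    (lsingle ((a + b + 1) :: l)).comp (Qe SA (tot l) (b + 1) (a + 1)) -
      (lmapDomain PA ℝ (List.cons a)).comp (mgS SA (b :: l)) := by
  rw [mgS]

private theorem mgS_mul (q : PA) (L : List ℕ) (hq : ∀ i, 0 < i → i < tot L → SA i q = q) (x : PA) :
    mgS SA L (q * x) = mm q (mgS SA L x) := by
  induction L with
  | nil => simp [mgS]
  | cons a L ih =>
    cases L with
    | nil => simp [mgS]
    | cons b l =>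
      have htot : tot (a :: b :: l) = (a + 1) + ((b + 1) + tot l) := by
        simp [tot]
      have htot2 : tot (b :: l) = (b + 1) + tot l := by
        simp [tot]
      rw [mgS]
      rw [LinearMap.sub_apply, LinearMap.sub_apply, LinearMap.comp_apply, LinearMap.comp_apply,
        LinearMap.comp_apply, LinearMap.comp_apply]
      rw [ih (fun i h1 h2 => hq i h1 (by omega))]
      rw [mul_comm q x, Qe_SA_mul _ _ _ _ _ (fun i h1 h2 => hq i (by omega) (by omega))]
      rw [map_sub, lsingle_apply, lsingle_apply, mm_single, mul_comm q]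
      congr 1
      have hcomm : (lmapDomain PA ℝ (List.cons a)).comp (mm q) =
          (mm q).comp (lmapDomain PA ℝ (List.cons a)) := by
        refine Finsupp.lhom_ext fun i y => ?_
        rw [LinearMap.comp_apply, LinearMap.comp_apply, mm_single, lmapDomain_apply,
          lmapDomain_apply, mapDomain_single, mapDomain_single, mm_single]
      exact LinearMap.congr_fun hcomm _

private theorem shf_shf (o a : ℕ) (f : PA) : shf o (shf a f) = shf (a + o) f := by
  have h : (shf o).comp (shf a) = shf (a + o) := by
    apply MvPolynomial.algHom_ext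
    intro i
    rw [AlgHom.comp_apply]
    unfold shf
    rw [MvPolynomial.aeval_X, MvPolynomial.aeval_X]
    by_cases hi : i = 0
    · rw [if_pos hi, if_pos hi, MvPolynomial.aeval_X, if_pos rfl]
    · rw [if_neg hi, if_neg hi, MvPolynomial.aeval_X, if_neg (by omega)]
      congr 1
      omega
  exact DFunLike.congr_fun h f

private theorem shf_vars (o n k : ℕ) (f : PA) (hf : f ∈ Bn n k) (j : ℕ)
    (hj : j ∈ (shf o f).vars) : o < j := by
  have h1 : f ∈ MvPolynomial.supported ℝ {i | 1 ≤ i ∧ i ≤ n} := hf.2
  have h2 : shf o f ∈ MvPolynomial.supported ℝ {i | o < i} := by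
    have h3 : (MvPolynomial.supported ℝ {i : ℕ | 1 ≤ i ∧ i ≤ n}).map (shf o) ≤
        MvPolynomial.supported ℝ {i | o < i} := by
      unfold MvPolynomial.supported
      rw [AlgHom.map_adjoin]
      apply Algebra.adjoin_mono
      rintro _ ⟨_, ⟨i, hi, rfl⟩, rfl⟩
      refine ⟨i + o, ?_, ?_⟩
      · have := hi.1
        simp only [Set.mem_ofPred_eq]
        omega
      · show MvPolynomial.X (i + o) = shf o (MvPolynomial.X i)
        unfold shf
        rw [MvPolynomial.aeval_X, if_neg (by have := hi.1; omega)]
    exact h3 ⟨f, h1, rfl⟩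
  have := (MvPolynomial.mem_supported.mp h2) hj
  exact this

private theorem shf_fix (m : ℕ) (w : Wd) (i : ℕ) (hi : i < m) :
    SA i (shf m (P (true :: w))) = shf m (P (true :: w)) := by
  apply SA_fix
  intro j hj
  have := shf_vars m _ _ _ (P_true_mem w) j hj
  omega

private theorem Th0_fix (l : LB) (i : ℕ) (hi : npL l < i) : SA i (Th0 l) = Th0 l := by
  apply SA_fix
  intro j hj
  have h1 : Th0 l ∈ MvPolynomial.supported ℝ {i | 1 ≤ i ∧ i ≤ npL l} := (Th0_mem l).2
  have := (MvPolynomial.mem_supported.mp h1) hj
  simp only [Set.mem_ofPred_eq] at this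
  omega

private theorem Th_mg0 (l : LB) : Th (mg0 l) = mgS SA (l.map np) (Th0 l) := by
  induction l with
  | nil => simp [mg0, mgS]
  | cons w l ih =>
    cases l with
    | nil => simp [mg0, mgS]
    | cons v l =>
      rw [mg0_cons2, map_sub, Th_cl (bm v w) l (np w + np v + 1) (bm_np v w)]
      rw [Th_cns w (mg0 (v :: l)) (npL (v :: l)) (fun q hq => (mg0_supp _ _ hq).2.1)]
      rw [ih]
      simp only [List.map_cons]
      rw [mgS_cons2, LinearMap.sub_apply, LinearMap.comp_apply,
        LinearMap.comp_apply, lsingle_apply]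
      have hT : Th0 (w :: v :: l) = shf (npL (v :: l)) (P (true :: w)) * Th0 (v :: l) := rfl
      have hT2 : Th0 (v :: l) = shf (npL l) (P (true :: v)) * Th0 l := rfl
      congr 1
      · -- first term
        rw [app_bm, ← app_bw, ← app_bw, PP_mu_block (np v) (nz v) (np w) (nz w) _ _ (IsH_bw v)
          (IsH_bw w), app_bw, app_bw, PP_bw, PP_bw, ← Qe_SA_shf, map_mul, shf_shf,
          ← Qe_SA_mul _ _ _ _ _ (fun i h1 _ => Th0_fix l i h1), tot_map_np, hT, hT2, npL_cons]
        congr 2
        ring
      · congr 1
        rw [hT, mgS_mul]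
        intro i h1 h2
        have h3 : tot (np v :: l.map np) = npL (v :: l) := tot_map_np (v :: l)
        rw [h3] at h2
        exact shf_fix _ _ _ h2

theorem Th_mg (c : CL) : Th (mg c) = sal SA (Th c) := by
  have h : Th.comp mg = (sal SA).comp Th := by
    refine Finsupp.lhom_ext fun l a => ?_
    rw [LinearMap.comp_apply, LinearMap.comp_apply, mg_single, Th_single, map_smul, map_smul,
      Th_mg0]
    unfold sal
    rw [lsum_single]
  exact LinearMap.congr_fun h c

private theorem dl_add (o n m : ℕ) : dl o (n + m) = dl o n + MvPolynomial.C ((-1 : ℝ) ^ n) * dl (o + n) m := by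
  unfold dl
  rw [Finset.sum_range_add, Finset.mul_sum]
  congr 1
  apply Finset.sum_congr rfl
  intro j _
  rw [pow_add, MvPolynomial.C_mul, mul_assoc]
  congr 4
  omega

private theorem shf_dl (o m : ℕ) : shf o (dl 0 m) = dl o m := by
  unfold dl
  rw [map_sum]
  apply Finset.sum_congr rfl
  intro j _
  rw [map_mul]
  unfold shf
  rw [MvPolynomial.aeval_X, MvPolynomial.aeval_C, if_neg (by omega)]
  congr 2
  omega

private theorem Th_uo0 (l : LB) :
    Th (uo0 l) = single (l.map np) (2 * dl 0 (npL l) * Th0 l) := by
  induction l with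
  | nil => simp [uo0, npL, dl]
  | cons w l ih =>
    rw [uo0, map_add, map_smul, Th_cl (ub w) l (np w) (ub_np w),
      Th_cns w (uo0 l) (npL l) (fun q hq => (uo0_supp _ _ hq).2.1), ih, mm_single,
      lmapDomain_apply, mapDomain_single, PP_ub, smul_single, ← single_add, List.map_cons]
    have hT : Th0 (w :: l) = shf (npL l) (P (true :: w)) * Th0 l := rfl
    congr 1
    rw [hT, npL_cons, add_comm (np w + 1) (npL l), dl_add 0 (npL l) (np w + 1), zero_add, map_mul,
      map_mul, shf_dl, MvPolynomial.smul_eq_C_mul]
    have h2 : shf (npL l) (2 : PA) = 2 := map_ofNat _ 2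
    rw [h2]
    ring

theorem Th_uo (n : ℕ) (c : CL) (hc : ∀ l, c l ≠ 0 → npL l = n) :
    ∀ l, Th (uo c) l = 2 * dl 0 n * Th c l := by
  have h0 : Th (uo c) = mm (2 * dl 0 n) (Th c) := by
    have h1 : c = c.sum fun l a => (single l a : CL) := (Finsupp.sum_single c).symm
    conv_lhs => rw [h1]
    conv_rhs => rw [h1]
    rw [map_finsuppSum, map_finsuppSum, map_finsuppSum, map_finsuppSum]
    apply Finsupp.sum_congr
    intro l hl
    have h3 : npL l = n := hc l (by simpa using hl)
    rw [uo_single, map_smul, Th_uo0, Th_single, map_smul, mm_single, h3]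
  intro l
  rw [h0]
  unfold mm
  rw [mapRange.linearMap_apply, mapRange_apply]
  rfl

end BrV
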