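import Pool.Agent.Lib.BrV.VOne
import Pool.Agent.Lib.BrV.GSI
import Pool.Agent.Lib.BrV.LFin
import Pool.Agent.Lib.BrV.SEul

/-!
# BrV.VGr: growth of the Betti numbers of `Sym^k V` for fixed `k` (paper 4, section 8)

`k = m + 2`, `n = 2g + 2`, `c = k! (k-1)!`.  `P_r, C_r, d_r` from `V_one k r`.
* Uniqueness: if `|c d g - P g^(k-1)| ≤ C g^(k-2)` and `|c d g - P' g^(k-1)| ≤ C' g^(k-2)` for all large `g` then `P = P'` (`|P - P'| g ≤ C + C'`); if `d g ≥ 0` then `P ≥ 0`.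
* `r = 0` or `r > k + 1`: `d_r(g) = 0` for all `g ≥ 1`: `r = 0`: `SalZ .. 0 n = ⊥` because only the empty composition has length `0` and `tot [] = 0 ≠ n` (`HD_zero`, `HD_uniq`).
  `r > k + 1`: `V_le g r m` with `a = 0`, `c = 0`: `Va_half1 (m+2) .. r n` (`m + 3 < r`), `Va_half1 (m+1) .. (r+1) n`: `Z0 ≤ B0`, `HD_zero`; so `d ≤ 0`.
* `N r := (P_r).toNat` for `1 ≤ r ≤ k + 1`, `0` else; `d g r := d_r g`; `C := ∑_{r ≤ k+1} max(C_r, 0)`.
* `N (k+1) = 1`: `hd_low g m hg`: `d_(k+1)(g) = (SI (g+1) k).card`; `SI_rat k` and `as_lim` (`P(1) = 1`) with `L = g + 1`: `|c (SI (g+1) k).card - (g+1)^(k-1)| ≤ C (g+2)^(k-2)`; uniqueness.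
* `∑ (-1)^r N r = 0`: `euler (ST g) (Wsp g k) (Wsp_fin g k) (2g+2) .. (ST_mem ..) (ST_BRel g hg)`: `h` with `HD (SalZ ..) (SalB ..) (h r)`, so `h r = d_r(g)` (`HD_uniq`), and the alternating sum over `r ≤ 2g+2` is `0`; the terms with `r > k + 1` vanish (for `2g + 2 ≥ k + 2` the sum over
  `range (k+2)` is the whole sum; enough for large `g`).  Multiply by `c`: `|(∑_{r < k+2} (-1)^r N r) g^(k-1)| ≤ C' g^(k-2)` for all large `g`.
-/

namespace BrV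

open Finsupp Pool.Agent.Lib.BrSym

private theorem vgr_bdd (a b : ℝ) (e g₀ : ℕ) (ha : 0 < a)
    (h : ∀ g : ℕ, g₀ ≤ g → a * (g : ℝ) ^ (e + 1) ≤ b * (g : ℝ) ^ e) : False := by
  obtain ⟨n, hn⟩ := exists_nat_gt (b / a)
  have h1 := h (max (max n g₀) 1) (le_trans (le_max_right _ _) (le_max_left _ _))
  have h2 : (1 : ℝ) ≤ ((max (max n g₀) 1 : ℕ) : ℝ) := by exact_mod_cast le_max_right _ _
  have h3 : (n : ℝ) ≤ ((max (max n g₀) 1 : ℕ) : ℝ) := by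
    exact_mod_cast le_trans (le_max_left _ _) (le_max_left _ _)
  generalize ((max (max n g₀) 1 : ℕ) : ℝ) = x at h1 h2 h3
  have h4 : (0 : ℝ) < x ^ e := pow_pos (by linarith) e
  have h5 : a * x ≤ b := by
    have h6 : (a * x) * x ^ e ≤ b * x ^ e := by
      calc (a * x) * x ^ e = a * x ^ (e + 1) := by ring
        _ ≤ b * x ^ e := h1
    exact le_of_mul_le_mul_right h6 h4
  have h7 : b < a * n := by rwa [div_lt_iff₀' ha] at hn
  nlinarith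

private theorem vgr_zero (P : ℤ) (C : ℝ) (e g₀ : ℕ)
    (h : ∀ g : ℕ, g₀ ≤ g → |(P : ℝ) * (g : ℝ) ^ (e + 1)| ≤ C * (g : ℝ) ^ e) : P = 0 := by
  by_contra hP
  have h1 : (1 : ℝ) ≤ |(P : ℝ)| := by exact_mod_cast Int.one_le_abs hP
  refine vgr_bdd 1 C e g₀ one_pos fun g hg => ?_
  have h2 := h g hg
  have h3 : (0 : ℝ) ≤ (g : ℝ) ^ (e + 1) := pow_nonneg (Nat.cast_nonneg g) (e + 1)
  rw [abs_mul, abs_of_nonneg h3] at h2
  nlinarith

private theorem vgr_uniq (x : ℕ → ℝ) (P P' : ℤ) (C C' : ℝ) (e g₀ : ℕ)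
    (h : ∀ g : ℕ, g₀ ≤ g → |x g - (P : ℝ) * (g : ℝ) ^ (e + 1)| ≤ C * (g : ℝ) ^ e)
    (h' : ∀ g : ℕ, g₀ ≤ g → |x g - (P' : ℝ) * (g : ℝ) ^ (e + 1)| ≤ C' * (g : ℝ) ^ e) :
    P = P' := by
  have h0 : P - P' = 0 := by
    refine vgr_zero (P - P') (C + C') e g₀ fun g hg => ?_
    have h1 := abs_le.1 (h g hg)
    have h2 := abs_le.1 (h' g hg)
    rw [abs_le]
    push_cast
    constructor
    · nlinarith [h1.1, h2.2]
    · nlinarith [h1.2, h2.1]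
  omega

private theorem vgr_nonneg (x : ℕ → ℝ) (P : ℤ) (C : ℝ) (e g₀ : ℕ) (hx : ∀ g, 0 ≤ x g)
    (h : ∀ g : ℕ, g₀ ≤ g → |x g - (P : ℝ) * (g : ℝ) ^ (e + 1)| ≤ C * (g : ℝ) ^ e) :
    0 ≤ P := by
  by_contra hP
  have h1 : (P : ℝ) ≤ -1 := by exact_mod_cast (by omega : P ≤ -1)
  refine vgr_bdd 1 C e g₀ one_pos fun g hg => ?_
  have h2 := (abs_le.1 (h g hg)).2
  have h3 : (0 : ℝ) ≤ (g : ℝ) ^ (e + 1) := pow_nonneg (Nat.cast_nonneg g) (e + 1)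
  nlinarith [hx g]

/-- comparison of `(g+1)^(e+1)` and `g^(e+1)` -/
private theorem vgr_shift (y : ℕ → ℝ) (C : ℝ) (e : ℕ) (hC : 0 ≤ C)
    (h : ∀ L : ℕ, |y L - (L : ℝ) ^ (e + 1)| ≤ C * ((L : ℝ) + 1) ^ e) :
    ∃ C' : ℝ, ∀ g : ℕ, 1 ≤ g → |y (g + 1) - (g : ℝ) ^ (e + 1)| ≤ C' * (g : ℝ) ^ e := by
  refine ⟨C * 3 ^ e + (e + 1) * 2 ^ e, fun g hg => ?_⟩
  have hg1 : (1 : ℝ) ≤ g := by exact_mod_cast hg
  have h1 := h (g + 1)
  push_cast at h1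
  have h2 : C * ((g : ℝ) + 1 + 1) ^ e ≤ C * 3 ^ e * (g : ℝ) ^ e := by
    rw [mul_assoc, ← mul_pow]
    refine mul_le_mul_of_nonneg_left ?_ hC
    exact pow_le_pow_left₀ (by linarith) (by linarith) e
  have h3 : ∀ n : ℕ, |((g : ℝ) + 1) ^ (n + 1) - (g : ℝ) ^ (n + 1)| ≤ (n + 1) * 2 ^ n * (g : ℝ) ^ n := by
    intro n
    have h4 : (0 : ℝ) ≤ ((g : ℝ) + 1) ^ (n + 1) - (g : ℝ) ^ (n + 1) := by
      have := pow_le_pow_left₀ (by linarith : (0 : ℝ) ≤ g) (by linarith : (g : ℝ) ≤ g + 1) (n + 1)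
      linarith
    rw [abs_of_nonneg h4]
    induction n with
    | zero => norm_num
    | succ n ih =>
      have h5 : (0 : ℝ) ≤ ((g : ℝ) + 1) ^ (n + 1) - (g : ℝ) ^ (n + 1) := by
        have := pow_le_pow_left₀ (by linarith : (0 : ℝ) ≤ g) (by linarith : (g : ℝ) ≤ g + 1) (n + 1)
        linarith
      have h6 := ih h5
      have h7 : ((g : ℝ) + 1) ^ (n + 1) ≤ 2 ^ (n + 1) * (g : ℝ) ^ (n + 1) := by
        rw [← mul_pow]
        exact pow_le_pow_left₀ (by linarith) (by linarith) _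
      have h8 : ((g : ℝ) + 1) ^ (n + 1 + 1) - (g : ℝ) ^ (n + 1 + 1) =
          g * (((g : ℝ) + 1) ^ (n + 1) - (g : ℝ) ^ (n + 1)) + ((g : ℝ) + 1) ^ (n + 1) := by ring
      have h9 : (g : ℝ) * (((g : ℝ) + 1) ^ (n + 1) - (g : ℝ) ^ (n + 1)) ≤
          g * ((n + 1) * 2 ^ n * (g : ℝ) ^ n) := mul_le_mul_of_nonneg_left h6 (by linarith)
      have h10 : (0 : ℝ) ≤ (n + 1) * 2 ^ n * (g : ℝ) ^ (n + 1) := by positivity
      rw [h8]
      push_cast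
      calc (g : ℝ) * (((g : ℝ) + 1) ^ (n + 1) - (g : ℝ) ^ (n + 1)) + ((g : ℝ) + 1) ^ (n + 1)
          ≤ g * ((n + 1) * 2 ^ n * (g : ℝ) ^ n) + 2 ^ (n + 1) * (g : ℝ) ^ (n + 1) :=
            add_le_add h9 h7
        _ = (n + 1) * 2 ^ n * (g : ℝ) ^ (n + 1) + 2 ^ (n + 1) * (g : ℝ) ^ (n + 1) := by ring
        _ ≤ 2 * ((n + 1) * 2 ^ n * (g : ℝ) ^ (n + 1)) + 2 ^ (n + 1) * (g : ℝ) ^ (n + 1) := by
            linarith
        _ = (n + 1 + 1) * 2 ^ (n + 1) * (g : ℝ) ^ (n + 1) := by ring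
  have h11 := h3 e
  have h12 : y (g + 1) - (g : ℝ) ^ (e + 1) =
      (y (g + 1) - ((g : ℝ) + 1) ^ (e + 1)) + (((g : ℝ) + 1) ^ (e + 1) - (g : ℝ) ^ (e + 1)) := by
    ring
  rw [h12]
  refine (abs_add_le _ _).trans ?_
  calc _ ≤ C * ((g : ℝ) + 1 + 1) ^ e + (e + 1) * 2 ^ e * (g : ℝ) ^ e := add_le_add h1 h11
    _ ≤ C * 3 ^ e * (g : ℝ) ^ e + (e + 1) * 2 ^ e * (g : ℝ) ^ e := by linarith
    _ = _ := by ring

/-- the alternating sum of the leading coefficients vanishes -/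
private theorem vgr_alt (n e g₀ : ℕ) (P : ℕ → ℤ) (C : ℕ → ℝ) (d : ℕ → ℕ → ℕ) (c : ℝ)
    (h : ∀ r, r < n → ∀ g : ℕ, g₀ ≤ g → |c * (d r g : ℝ) - (P r : ℝ) * (g : ℝ) ^ (e + 1)| ≤
      C r * (g : ℝ) ^ e)
    (h0 : ∀ g : ℕ, g₀ ≤ g → ∑ r ∈ Finset.range n, (-1 : ℤ) ^ r * (d r g : ℤ) = 0) :
    ∑ r ∈ Finset.range n, (-1 : ℤ) ^ r * P r = 0 := by
  refine vgr_zero _ (∑ r ∈ Finset.range n, C r) e g₀ fun g hg => ?_
  have h1 : ((∑ r ∈ Finset.range n, (-1 : ℤ) ^ r * P r : ℤ) : ℝ) * (g : ℝ) ^ (e + 1) =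
      - ∑ r ∈ Finset.range n, (-1 : ℝ) ^ r * (c * (d r g : ℝ) - (P r : ℝ) * (g : ℝ) ^ (e + 1)) := by
    have h2 : ((∑ r ∈ Finset.range n, (-1 : ℤ) ^ r * (d r g : ℤ) : ℤ) : ℝ) = 0 := by
      rw [h0 g hg]; norm_num
    push_cast at h2 ⊢
    have h3 : ∑ r ∈ Finset.range n, (-1 : ℝ) ^ r *
        (c * (d r g : ℝ) - (P r : ℝ) * (g : ℝ) ^ (e + 1)) =
        c * ∑ r ∈ Finset.range n, (-1 : ℝ) ^ r * (d r g : ℝ) -
        (∑ r ∈ Finset.range n, (-1 : ℝ) ^ r * (P r : ℝ)) * (g : ℝ) ^ (e + 1) := by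
      rw [Finset.mul_sum, Finset.sum_mul, ← Finset.sum_sub_distrib]
      refine Finset.sum_congr rfl fun r _ => ?_
      ring
    rw [h3, h2]
    ring
  rw [h1, abs_neg, Finset.sum_mul]
  refine (Finset.abs_sum_le_sum_abs _ _).trans (Finset.sum_le_sum fun r hr => ?_)
  rw [abs_mul, abs_pow, abs_neg, abs_one, one_pow, one_mul]
  exact h r (Finset.mem_range.1 hr) g hg

private theorem vgr_d0 (g k : ℕ) :
    HD (SalZ (ST g) (Wsp g k) 0 (2 * g + 2)) (SalB (ST g) (Wsp g k) 0 (2 * g + 2)) 0 := by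
  refine HD_zero _ _ ?_
  intro x hx
  have h0 : x = 0 := by
    refine Finsupp.ext fun l => ?_
    rw [Finsupp.zero_apply]
    by_contra hl
    obtain ⟨h1, h2⟩ := hx.1.1 l hl
    rw [List.length_eq_zero_iff] at h1
    subst h1
    have h3 : tot [] = 0 := rfl
    omega
  rw [h0]
  exact Submodule.zero_mem _

private theorem vgr_Va (r n k : ℕ) (h : Va r n k) : HD (Z0 r n k) (B0 r n k) 0 :=
  HD_zero _ _ fun c hc => h c hc.1 hc.2

private theorem vgr_dbig (g m r : ℕ) (hg : 1 ≤ g) (hr : m + 3 < r) :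
    HD (SalZ (ST g) (Wsp g (m + 2)) r (2 * g + 2))
      (SalB (ST g) (Wsp g (m + 2)) r (2 * g + 2)) 0 := by
  obtain ⟨d, h1, h2, _⟩ := V_le g r m hg 0 0 0
    (vgr_Va _ _ _ (Va_half1 (m + 2) (by omega) r (2 * g + 2) (by omega)))
    (vgr_Va _ _ _ (Va_half1 (m + 1) (by omega) r (2 * g + 2) (by omega)))
    (vgr_Va _ _ _ (Va_half1 (m + 1) (by omega) (r + 1) (2 * g + 2) (by omega)))
  have h3 : d = 0 := by omega
  rw [h3] at h1
  exact h1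

theorem V_growth (k : ℕ) (hk : 2 ≤ k) : ∃ (N : ℕ → ℕ) (C : ℝ) (d : ℕ → ℕ → ℕ),
    (∀ g r, 1 ≤ g → HD (SalZ (ST g) (Wsp g k) r (2 * g + 2))
      (SalB (ST g) (Wsp g k) r (2 * g + 2)) (d g r)) ∧
    (∀ g r : ℕ, 1 ≤ g → |((k.factorial * (k - 1).factorial : ℕ) : ℝ) * (d g r : ℝ) -
      (N r : ℝ) * (g : ℝ) ^ (k - 1)| ≤ C * (g : ℝ) ^ (k - 2)) ∧
    N (k + 1) = 1 ∧ (∀ r, r = 0 ∨ k + 1 < r → N r = 0) ∧
    ∑ r ∈ Finset.range (k + 2), (-1 : ℤ) ^ r * (N r : ℤ) = 0 := by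
  obtain ⟨m, rfl⟩ : ∃ m, k = m + 2 := ⟨k - 2, by omega⟩
  choose P C d hd hb using fun r => V_one (m + 2) r hk
  have e1 : m + 2 - 1 = m + 1 := by omega
  have e2 : m + 2 - 2 = m := by omega
  simp only [e1, e2] at hb ⊢
  set c : ℕ := (m + 2).factorial * (m + 1).factorial with hc
  -- the zero Betti numbers
  have hz : ∀ r, r = 0 ∨ m + 2 + 1 < r → ∀ g, 1 ≤ g → d r g = 0 := by
    intro r hr g hg
    rcases hr with hr | hr
    · subst hr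
      exact HD_uniq _ _ _ _ (hd 0 g hg) (vgr_d0 g (m + 2))
    · exact HD_uniq _ _ _ _ (hd r g hg) (vgr_dbig g m r hg (by omega))
  have hPz : ∀ r, r = 0 ∨ m + 2 + 1 < r → P r = 0 := by
    intro r hr
    refine vgr_zero (P r) (C r) m 1 fun g hg => ?_
    have h1 := hb r g hg
    rw [hz r hr g hg, Nat.cast_zero, mul_zero, zero_sub, abs_neg] at h1
    exact h1
  have hP0 : ∀ r, 0 ≤ P r := fun r =>
    vgr_nonneg (fun g => (c : ℝ) * (d r g : ℝ)) (P r) (C r) m 1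
      (fun g => mul_nonneg (Nat.cast_nonneg _) (Nat.cast_nonneg _)) fun g hg => hb r g hg
  have hN : ∀ r, ((P r).toNat : ℤ) = P r := fun r => Int.toNat_of_nonneg (hP0 r)
  have hNR : ∀ r, (((P r).toNat : ℕ) : ℝ) = (P r : ℝ) := by
    intro r
    have h1 := hN r
    exact_mod_cast congrArg (fun z : ℤ => (z : ℝ)) h1
  -- the lowest one
  have hlow : P (m + 2 + 1) = 1 := by
    obtain ⟨C1, hC1⟩ := as_lim (m + 2) (by omega) _ _ (SI_rat (m + 2))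
    have h1 : ∀ L : ℕ, |(c : ℝ) * ((SI L (m + 2)).card : ℝ) - (L : ℝ) ^ (m + 1)| ≤
        max C1 0 * ((L : ℝ) + 1) ^ m := by
      intro L
      have h2 := hC1 L
      rw [Polynomial.eval_pow, Polynomial.eval_X, one_pow, Int.cast_one, one_mul, e1, e2] at h2
      refine h2.trans ?_
      exact mul_le_mul_of_nonneg_right (le_max_left _ _) (by positivity)
    obtain ⟨C2, hC2⟩ := vgr_shift (fun L => (c : ℝ) * ((SI L (m + 2)).card : ℝ)) (max C1 0) m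
      (le_max_right _ _) h1
    refine vgr_uniq (fun g => (c : ℝ) * (d (m + 2 + 1) g : ℝ)) (P (m + 2 + 1)) 1
      (C (m + 2 + 1)) C2 m 1 (fun g hg => hb (m + 2 + 1) g hg) fun g hg => ?_
    have h3 : d (m + 2 + 1) g = (SI (g + 1) (m + 2)).card :=
      HD_uniq _ _ _ _ (hd (m + 3) g hg) (hd_low g m hg)
    have h4 := hC2 g hg
    simp only [h3, Int.cast_one, one_mul]
    exact h4
  -- the alternating sum
  have halt : ∑ r ∈ Finset.range (m + 2 + 2), (-1 : ℤ) ^ r * P r = 0 := by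
    refine vgr_alt (m + 2 + 2) m (m + 2) P C d (c : ℝ)
      (fun r _ g hg => hb r g (by omega)) fun g hg => ?_
    obtain ⟨h, h1, h2⟩ := euler (ST g) (Wsp g (m + 2)) (Wsp_fin g (m + 2)) (2 * g + 2) (by omega)
      (fun i _ _ x hx => ST_mem g (m + 2) i x hx) (ST_BRel g (by omega))
    have h3 : ∀ r, h r = d r g := fun r => HD_uniq _ _ _ _ (h1 r) (hd r g (by omega))
    rw [← h2]
    have h4 : Finset.range (m + 2 + 2) ⊆ Finset.range (2 * g + 2 + 1) :=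
      Finset.range_subset_range.2 (by omega)
    rw [← Finset.sum_subset h4]
    · refine Finset.sum_congr rfl fun r _ => ?_
      rw [h3]
    · intro r _ hr
      rw [Finset.mem_range, not_lt] at hr
      rw [h3, hz r (Or.inr (by omega)) g (by omega)]
      norm_num
  refine ⟨fun r => (P r).toNat, ∑ r ∈ Finset.range (m + 4), max (C r) 0, fun g r => d r g,
    fun g r hg => hd r g hg, ?_, ?_, ?_, ?_⟩
  · intro g r hg
    show |(c : ℝ) * (d r g : ℝ) - (((P r).toNat : ℕ) : ℝ) * (g : ℝ) ^ (m + 1)| ≤ _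
    rw [hNR]
    have hg0 : (0 : ℝ) ≤ (g : ℝ) ^ m := pow_nonneg (Nat.cast_nonneg g) m
    have hS : (0 : ℝ) ≤ ∑ r ∈ Finset.range (m + 4), max (C r) 0 :=
      Finset.sum_nonneg fun r _ => le_max_right _ _
    by_cases hr : m + 2 + 1 < r
    · rw [hz r (Or.inr hr) g hg, hPz r (Or.inr hr)]
      norm_num
      exact mul_nonneg hS hg0
    · refine (hb r g hg).trans (mul_le_mul_of_nonneg_right ?_ hg0)
      refine (le_max_left (C r) 0).trans ?_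
      exact Finset.single_le_sum (f := fun r => max (C r) 0) (fun i _ => le_max_right _ _)
        (Finset.mem_range.2 (by omega))
  · show (P (m + 2 + 1)).toNat = 1
    rw [hlow]
    rfl
  · intro r hr
    show (P r).toNat = 0
    rw [hPz r hr]
    rfl
  · rw [← halt]
    refine Finset.sum_congr rfl fun r _ => ?_
    show (-1 : ℤ) ^ r * (((P r).toNat : ℕ) : ℤ) = _
    rw [hN]

end BrV
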