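import Pool.Agent.Lib.BrV.GRk
import Pool.Agent.Lib.BrV.SEx
import Pool.Agent.Lib.BrV.SPhS

/-!
# BrV.VLe: from `M_k` to `Sym^k V`, inequalities (paper 4, section 8)

`n = 2g + 2`.  Write `Z_r(M_k) = SalZ (SM g) (MQk g k) r n`, `B_r(M_k) = SalB ..`, `Z_r(V_k) = SalZ (ST g) (Wsp g k) r n`, `B_r(V_k)`; lemmas in `SDesA.lean`: `JM_inj`, `JM_IsS`, `JM_sal`, `JM_lift`, `EM_JM`, `EM_IsS`, `EM_sal`, `EM_lift`, `sal_IsS`, `sal_IsS_zero`, `sal_sal_SM`, `SalB_le`.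
By `hd_Lam g r (k+1) hg a`, `hd_Lam g r k hg b`, `hd_Lam g (r+1) k hg c`: `a = dim H_r(M_(k+2))`, `b = dim H_r(M_(k+1))`, `c = dim H_(r+1)(M_(k+1))`.  `EM : M_(k+2) → M_(k+1)`, `JM : V_(k+2) → M_(k+2)`.
* `d ≤ a + c`: `P := {y | IsS (MQk g (k+2)) (r+1) n y ∧ EM g y ∈ Z_(r+1)(M_(k+1))}`, `BP := {y ∈ P | EM g y ∈ B_(r+1)(M_(k+1))}`; `HD P BP c` by `HD_map` with `EM g` (`EM_lift`).
  `JZ := (Z_r(V_(k+2))).map (JM g)`, `JB := (B_r(V_(k+2))).map (JM g)`; `HD Z_r(V) B_r(V) d ↔ HD JZ JB d` (`HD_map` with `JM g`, `JM_inj`).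
  `HD_mid` for `f = sal (SM g) : P → JZ`, `g = id : JZ → Z_r(M_(k+2))`:  `y ∈ P`: `EM (sal y) = sal (EM y) = 0`, so `sal y = JM v` (`JM_lift`, `sal_IsS`), `v ∈ Z_r(V)` (`JM_sal`, `JM_inj`, `sal_sal_SM`).  `y ∈ BP`: `EM y = sal w`, `w = EM w'` (`EM_lift`), `EM (y - sal w') = 0`,
  `y - sal w' = JM v'`, `sal y = JM (sal v') ∈ JB`.  Exactness: `z ∈ JZ`, `z = sal y`, `y ∈ Sal_(r+1)(M_(k+2))`: `sal (EM y) = EM z = 0` (`EM_JM`), so `y ∈ P`.  Result: `∃ d ≤ c + a, HD Z_r(V) B_r(V) d`.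
* `a ≤ d + b`: `HD_mid` for `f = JM g : Z_r(V_(k+2)) → Z_r(M_(k+2))`, `g = EM g : → Z_r(M_(k+1))`: if `EM z = sal w`, `w = EM w'`: `EM (z - sal w') = 0`, `z - sal w' = JM v`, `v ∈ Z_r(V)`.  It gives `a' ≤ d + b` with `HD Z_r(M_(k+2)) B_r(M_(k+2)) a'`, `a' = a` (`HD_uniq`).
(In degree `r = 0`: `IsS _ 0 n` has only the empty composition, `n ≥ 4`, everything is `0`; no special treatment should be necessary except for `sal_IsS` in low degrees: `sal_IsS_zero`.)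
-/

namespace BrV

open Finsupp Pool.Agent.Lib.BrSym

private theorem vle_sub {M : Type} [AddCommGroup M] [Module ℝ M] (N : Submodule ℝ M) (r n : ℕ)
    (x y : List ℕ →₀ M) (hx : IsS N r n x) (hy : IsS N r n y) : IsS N r n (x - y) := by
  refine ⟨fun l hl => ?_, fun l => ?_⟩
  · by_cases h : x l = 0
    · refine hy.1 l fun h' => hl ?_
      rw [Finsupp.sub_apply, h, h', sub_zero]
    · exact hx.1 l h
  · rw [Finsupp.sub_apply]
    exact N.sub_mem (hx.2 l) (hy.2 l)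

/-- the homogeneous chains as a submodule -/
private def vleC {M : Type} [AddCommGroup M] [Module ℝ M] (N : Submodule ℝ M) (r n : ℕ) :
    Submodule ℝ (List ℕ →₀ M) where
  carrier := {x | IsS N r n x}
  zero_mem' := ⟨fun l h => absurd rfl h, fun l => N.zero_mem⟩
  add_mem' := by
    rintro x y ⟨h1, h2⟩ ⟨h4, h5⟩
    refine ⟨fun l hl => ?_, fun l => N.add_mem (h2 l) (h5 l)⟩
    by_cases h : x l = 0
    · exact h4 l (by intro h'; exact hl (by simp [h, h']))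
    · exact h1 l h
  smul_mem' := by
    rintro a x ⟨h1, h2⟩
    exact ⟨fun l hl => h1 l (by intro h'; exact hl (by simp [h'])),
      fun l => N.smul_mem a (h2 l)⟩

/-- `JM` maps cycles to cycles -/
private theorem vle_JM_Z (g r k : ℕ) (z : List ℕ →₀ MvPolynomial (Fin (2 * g)) ℝ)
    (hz : z ∈ SalZ (ST g) (Wsp g k) r (2 * g + 2)) :
    JM g z ∈ SalZ (SM g) (MQk g k) r (2 * g + 2) := by
  obtain ⟨hz, hz2⟩ := hz
  refine ⟨JM_IsS g r _ _ z hz, ?_⟩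
  rw [← JM_sal g z fun l hl => (hz.1 l hl).2, hz2, map_zero]

/-- `JM` maps boundaries to boundaries -/
private theorem vle_JM_B (g r k : ℕ) (z : List ℕ →₀ MvPolynomial (Fin (2 * g)) ℝ)
    (hz : z ∈ SalB (ST g) (Wsp g k) r (2 * g + 2)) :
    JM g z ∈ SalB (SM g) (MQk g k) r (2 * g + 2) := by
  obtain ⟨f, hf, hf2⟩ := hz
  refine ⟨JM g f, JM_IsS g _ _ _ f hf, ?_⟩
  rw [← JM_sal g f fun l hl => (hf.1 l hl).2, hf2]

/-- `EM` maps cycles to cycles -/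
private theorem vle_EM_Z (g r k : ℕ) (z : List ℕ →₀ MQ g)
    (hz : z ∈ SalZ (SM g) (MQk g (k + 1)) r (2 * g + 2)) :
    EM g z ∈ SalZ (SM g) (MQk g k) r (2 * g + 2) := by
  obtain ⟨hz, hz2⟩ := hz
  refine ⟨EM_IsS g r _ k z hz, ?_⟩
  rw [← EM_sal g z fun l hl => (hz.1 l hl).2, hz2, map_zero]

/-- `EM` maps boundaries to boundaries -/
private theorem vle_EM_B (g r k : ℕ) (z : List ℕ →₀ MQ g)
    (hz : z ∈ SalB (SM g) (MQk g (k + 1)) r (2 * g + 2)) :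
    EM g z ∈ SalB (SM g) (MQk g k) r (2 * g + 2) := by
  obtain ⟨f, hf, hf2⟩ := hz
  refine ⟨EM g f, EM_IsS g _ _ k f hf, ?_⟩
  rw [← EM_sal g f fun l hl => (hf.1 l hl).2, hf2]

/-- a chain killed by `EM` which is a cycle comes from a cycle -/
private theorem vle_lift_Z (g r k : ℕ) (z : List ℕ →₀ MQ g)
    (hz : IsS (MQk g k) r (2 * g + 2) z) (hs : sal (SM g) z = 0) (he : EM g z = 0) :
    ∃ v ∈ SalZ (ST g) (Wsp g k) r (2 * g + 2), JM g v = z := by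
  obtain ⟨v, hv, hv2⟩ := JM_lift g r _ k z hz he
  refine ⟨v, ⟨hv, ?_⟩, hv2⟩
  refine JM_inj g _ ?_
  rw [JM_sal g v fun l hl => (hv.1 l hl).2, hv2, hs]

/-- correction of a chain with `EM z` a boundary -/
private theorem vle_corr (g r k : ℕ) (z : List ℕ →₀ MQ g)
    (hz : IsS (MQk g (k + 1)) r (2 * g + 2) z)
    (hb : EM g z ∈ SalB (SM g) (MQk g k) r (2 * g + 2)) :
    ∃ w, IsS (MQk g (k + 1)) (r + 1) (2 * g + 2) w ∧
      IsS (MQk g (k + 1)) r (2 * g + 2) (z - sal (SM g) w) ∧ EM g (z - sal (SM g) w) = 0 := by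
  obtain ⟨χ, hχ, hχ2⟩ := hb
  obtain ⟨χ', h3, h4⟩ := EM_lift g (r + 1) _ k χ hχ
  refine ⟨χ', h3, vle_sub _ _ _ _ _ hz (sal_IsS g r (k + 1) χ' h3), ?_⟩
  rw [map_sub, EM_sal g χ' fun l hl => (h3.1 l hl).2, h4, hχ2, sub_self]

theorem V_le (g r k : ℕ) (hg : 1 ≤ g) (a b c : ℕ)
    (ha : HD (Z0 r (2 * g + 2) (k + 2)) (B0 r (2 * g + 2) (k + 2)) a)
    (hb : HD (Z0 r (2 * g + 2) (k + 1)) (B0 r (2 * g + 2) (k + 1)) b)
    (hc : HD (Z0 (r + 1) (2 * g + 2) (k + 1)) (B0 (r + 1) (2 * g + 2) (k + 1)) c) :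
    ∃ d, HD (SalZ (ST g) (Wsp g (k + 2)) r (2 * g + 2)) (SalB (ST g) (Wsp g (k + 2)) r (2 * g + 2)) d ∧
      d ≤ a + c ∧ a ≤ d + b := by
  have ha' : HD (SalZ (SM g) (MQk g (k + 2)) r (2 * g + 2))
      (SalB (SM g) (MQk g (k + 2)) r (2 * g + 2)) a := (hd_Lam g r (k + 1) hg a).1 ha
  have hb' := (hd_Lam g r k hg b).1 hb
  have hc' := (hd_Lam g (r + 1) k hg c).1 hc
  -- the module `P`
  have hP : HD (vleC (MQk g (k + 2)) (r + 1) (2 * g + 2) ⊓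
      (SalZ (SM g) (MQk g (k + 1)) (r + 1) (2 * g + 2)).comap (EM g))
      (vleC (MQk g (k + 2)) (r + 1) (2 * g + 2) ⊓
      (SalB (SM g) (MQk g (k + 1)) (r + 1) (2 * g + 2)).comap (EM g)) c := by
    refine (HD_map _ _ _ _ (EM g) ?_ ?_ ?_ c).2 hc'
    · rintro z ⟨-, hz⟩
      exact hz
    · rintro z ⟨hz, -⟩
      exact ⟨fun h => ⟨hz, h⟩, fun h => h.2⟩
    · intro z' hz'
      obtain ⟨y, hy, hy2⟩ := EM_lift g (r + 1) _ (k + 1) z' hz'.1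
      refine ⟨y, ⟨hy, ?_⟩, ?_⟩
      · rw [Submodule.comap_coe, Set.mem_preimage, hy2]
        exact hz'
      · rw [hy2, sub_self]
        exact Submodule.zero_mem _
  obtain ⟨d, hd1, hd2⟩ := HD_mid ((SalZ (ST g) (Wsp g (k + 2)) r (2 * g + 2)).map (JM g))
    ((SalB (ST g) (Wsp g (k + 2)) r (2 * g + 2)).map (JM g)) _ _
    (SalZ (SM g) (MQk g (k + 2)) r (2 * g + 2)) (SalB (SM g) (MQk g (k + 2)) r (2 * g + 2))
    (sal (SM g)) LinearMap.id (by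
      rintro z ⟨hz, hz2, hz3⟩
      have hz : IsS (MQk g (k + 2)) (r + 1) (2 * g + 2) z := hz
      obtain ⟨v, hv, hv2⟩ := vle_lift_Z g r (k + 2) (sal (SM g) z)
        (sal_IsS g r (k + 2) z hz) (sal_sal_SM g hg z fun l hl => (hz.1 l hl).2) (by
          rw [EM_sal g z fun l hl => (hz.1 l hl).2]
          exact hz3)
      exact ⟨v, hv, hv2⟩) (by
      rintro z ⟨hz, hz2⟩
      have hz : IsS (MQk g (k + 2)) (r + 1) (2 * g + 2) z := hz
      obtain ⟨w, hw, hw2, hw3⟩ := vle_corr g (r + 1) (k + 1) z hz hz2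
      obtain ⟨v, hv, hv2⟩ := JM_lift g (r + 1) _ (k + 2) _ hw2 hw3
      refine ⟨sal (ST g) v, ⟨v, hv, rfl⟩, ?_⟩
      rw [JM_sal g v fun l hl => (hv.1 l hl).2, hv2, map_sub,
        sal_sal_SM g hg w fun l hl => (hw.1 l hl).2, sub_zero]) (by
      rintro _ ⟨v, hv, rfl⟩
      exact vle_JM_Z g r (k + 2) v hv) (by
      rintro _ ⟨v, hv, rfl⟩
      exact vle_JM_B g r (k + 2) v hv) (by
      rintro _ ⟨v, hv, rfl⟩ ⟨y, hy, hy2⟩
      refine ⟨y, ⟨hy, EM_IsS g _ _ (k + 1) y hy, ?_⟩, ?_⟩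
      · rw [← EM_sal g y fun l hl => (hy.1 l hl).2, hy2]
        exact EM_JM g v
      · rw [hy2]
        exact (by
          rw [show JM g v - LinearMap.id (JM g v) = 0 from sub_self _]
          exact Submodule.zero_mem _)) c a hP ha'
  have hV : HD (SalZ (ST g) (Wsp g (k + 2)) r (2 * g + 2))
      (SalB (ST g) (Wsp g (k + 2)) r (2 * g + 2)) d := by
    refine (HD_map _ _ _ _ (JM g) ?_ ?_ ?_ d).2 hd2
    · intro z hz
      exact ⟨z, hz, rfl⟩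
    · intro z _
      constructor
      · rintro ⟨v, hv, hv2⟩
        have h := JM_inj g (v - z) (by rw [map_sub, hv2, sub_self])
        rw [← sub_eq_zero.1 h]
        exact hv
      · intro h
        exact ⟨z, h, rfl⟩
    · rintro _ ⟨v, hv, rfl⟩
      refine ⟨v, hv, ?_⟩
      rw [sub_self]
      exact Submodule.zero_mem _
  refine ⟨d, hV, by omega, ?_⟩
  obtain ⟨a', ha1, ha2⟩ := HD_mid (SalZ (SM g) (MQk g (k + 2)) r (2 * g + 2))
    (SalB (SM g) (MQk g (k + 2)) r (2 * g + 2))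
    (SalZ (ST g) (Wsp g (k + 2)) r (2 * g + 2)) (SalB (ST g) (Wsp g (k + 2)) r (2 * g + 2))
    (SalZ (SM g) (MQk g (k + 1)) r (2 * g + 2)) (SalB (SM g) (MQk g (k + 1)) r (2 * g + 2))
    (JM g) (EM g) (fun z hz => vle_JM_Z g r (k + 2) z hz) (fun z hz => vle_JM_B g r (k + 2) z hz)
    (fun z hz => vle_EM_Z g r (k + 1) z hz) (fun z hz => vle_EM_B g r (k + 1) z hz) (by
      rintro z ⟨hz, hz2⟩ hb
      obtain ⟨w, hw, hw2, hw3⟩ := vle_corr g r (k + 1) z hz hb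
      obtain ⟨v, hv, hv2⟩ := vle_lift_Z g r (k + 2) _ hw2 (by
        rw [map_sub, hz2, sal_sal_SM g hg w fun l hl => (hw.1 l hl).2, sub_zero]) hw3
      refine ⟨v, hv, w, hw, ?_⟩
      rw [hv2]
      abel) d b hV hb'
  have h := HD_uniq _ _ _ _ ha2 ha'
  omega

end BrV
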