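import Pool.Agent.Lib.BrV.MRat
import Pool.Agent.Lib.BrV.GAb
import Pool.Agent.Lib.BrV.GAs
import Pool.Agent.Lib.BrV.VLe

/-!
# BrV.VOne: one Betti number (paper 4, section 8)

`k = m + 2`, `n = 2g + 2 = 2 L`, `L = g + 1`, `c = k! (k-1)!`.  Let `a, P` be from `M_rat r (m+2)`, `b, Q` from `M_rat r (m+1)`, `b', Q'` from `M_rat (r+1) (m+1)`.
`V_le g r m`: for `g ≥ 1` there is `d` with `HD (SalZ ..) (SalB ..) d`, `d ≤ a L + b' L`, `a L ≤ d + b L` (choose `d g`; `d 0 = 0`).  `as_bd` (`m + 1 ≥ 1`): `b L, b' L ≤ C (L+1)^m`; `as_lim` (`m + 2 ≥ 2`): `|c a L - P(1) L^(m+1)| ≤ C (L+1)^m`.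
`|(g+1)^(m+1) - g^(m+1)| ≤ C g^m` and `L + 1 = g + 2 ≤ 3 g` for `g ≥ 1`.  So `|c d g - P(1) g^(k-1)| ≤ C g^(k-2)`.
-/

namespace BrV

open Finsupp Pool.Agent.Lib.BrSym

private theorem VOne_pow (n : ℕ) {x : ℝ} (hx : 0 ≤ x) :
    (x + 1) ^ (n + 1) ≤ x ^ (n + 1) + ((n : ℝ) + 1) * (x + 1) ^ n := by
  induction n with
  | zero => simp
  | succ n ih =>
    have h1 : x ^ (n + 1) ≤ (x + 1) ^ (n + 1) := pow_le_pow_left₀ hx (by linarith) _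
    have h2 : (x + 1) * (x + 1) ^ (n + 1) ≤
        (x + 1) * (x ^ (n + 1) + ((n : ℝ) + 1) * (x + 1) ^ n) :=
      mul_le_mul_of_nonneg_left ih (by linarith)
    calc (x + 1) ^ (n + 1 + 1) = (x + 1) * (x + 1) ^ (n + 1) := by ring
      _ ≤ (x + 1) * (x ^ (n + 1) + ((n : ℝ) + 1) * (x + 1) ^ n) := h2
      _ = x ^ (n + 1 + 1) + x ^ (n + 1) + ((n : ℝ) + 1) * (x + 1) ^ (n + 1) := by ring
      _ ≤ x ^ (n + 1 + 1) + (x + 1) ^ (n + 1) + ((n : ℝ) + 1) * (x + 1) ^ (n + 1) := by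
          linarith
      _ = x ^ (n + 1 + 1) + (((n + 1 : ℕ) : ℝ) + 1) * (x + 1) ^ (n + 1) := by
          push_cast
          ring

theorem V_one (k r : ℕ) (hk : 2 ≤ k) : ∃ (P : ℤ) (C : ℝ) (d : ℕ → ℕ),
    (∀ g, 1 ≤ g → HD (SalZ (ST g) (Wsp g k) r (2 * g + 2))
      (SalB (ST g) (Wsp g k) r (2 * g + 2)) (d g)) ∧
    ∀ g : ℕ, 1 ≤ g → |((k.factorial * (k - 1).factorial : ℕ) : ℝ) * (d g : ℝ) -
      (P : ℝ) * (g : ℝ) ^ (k - 1)| ≤ C * (g : ℝ) ^ (k - 2) := by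
  obtain ⟨m, rfl⟩ : ∃ m, k = m + 2 := ⟨k - 2, by omega⟩
  have e1 : m + 2 - 1 = m + 1 := rfl
  have e2 : m + 2 - 2 = m := rfl
  rw [e1, e2]
  obtain ⟨a, P, ha, hP⟩ := M_rat r (m + 2) (by omega)
  obtain ⟨b, Q, hb, hQ⟩ := M_rat r (m + 1) (by omega)
  obtain ⟨b', Q', hb', hQ'⟩ := M_rat (r + 1) (m + 1) (by omega)
  obtain ⟨C1, hC1⟩ := as_lim (m + 2) (by omega) P a hP
  obtain ⟨C2, hC2⟩ := as_bd (m + 1) (by omega) Q b hQ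
  obtain ⟨C3, hC3⟩ := as_bd (m + 1) (by omega) Q' b' hQ'
  have e3 : m + 1 - 1 = m := rfl
  rw [e1, e2] at hC1
  rw [e3] at hC2 hC3
  have hV : ∀ g : ℕ, ∃ d : ℕ, 1 ≤ g → (HD (SalZ (ST g) (Wsp g (m + 2)) r (2 * g + 2))
      (SalB (ST g) (Wsp g (m + 2)) r (2 * g + 2)) d ∧ d ≤ a (g + 1) + b' (g + 1) ∧
      a (g + 1) ≤ d + b (g + 1)) := by
    intro g
    by_cases hg : 1 ≤ g
    · obtain ⟨d, hd⟩ := V_le g r m hg (a (g + 1)) (b (g + 1)) (b' (g + 1))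
        (ha (g + 1)) (hb (g + 1)) (hb' (g + 1))
      exact ⟨d, fun _ => hd⟩
    · exact ⟨0, fun h => absurd h hg⟩
  choose d hd using hV
  set c : ℝ := (((m + 2).factorial * (m + 1).factorial : ℕ) : ℝ) with hc
  have hc0 : 0 ≤ c := Nat.cast_nonneg _
  set p : ℝ := ((P.eval 1 : ℤ) : ℝ) with hp
  refine ⟨P.eval 1, (|C1| + c * (|C2| + |C3|)) * 3 ^ m + |p| * (((m : ℝ) + 1) * 2 ^ m), d,
    fun g hg => (hd g hg).1, fun g hg => ?_⟩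
  obtain ⟨_, h1, h2⟩ := hd g hg
  have hg' : (1 : ℝ) ≤ (g : ℝ) := by exact_mod_cast hg
  have hg0 : (0 : ℝ) ≤ (g : ℝ) := by linarith
  have h1' : (d g : ℝ) ≤ (a (g + 1) : ℝ) + (b' (g + 1) : ℝ) := by exact_mod_cast h1
  have h2' : (a (g + 1) : ℝ) ≤ (d g : ℝ) + (b (g + 1) : ℝ) := by exact_mod_cast h2
  have hL : (((g + 1 : ℕ) : ℝ)) = (g : ℝ) + 1 := by push_cast; ring
  have hA := hC1 (g + 1)
  have hB := hC2 (g + 1)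
  have hB' := hC3 (g + 1)
  rw [hL] at hA hB hB'
  have hpw : ((g : ℝ) + 1 + 1) ^ m ≤ 3 ^ m * (g : ℝ) ^ m := by
    rw [← mul_pow]
    exact pow_le_pow_left₀ (by linarith) (by linarith) _
  have hpw0 : (0 : ℝ) ≤ ((g : ℝ) + 1 + 1) ^ m := by positivity
  have hA' : |c * (a (g + 1) : ℝ) - p * ((g : ℝ) + 1) ^ (m + 1)| ≤
      |C1| * (3 ^ m * (g : ℝ) ^ m) :=
    hA.trans ((mul_le_mul_of_nonneg_right (le_abs_self C1) hpw0).trans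
      (mul_le_mul_of_nonneg_left hpw (abs_nonneg _)))
  have hBB : (b (g + 1) : ℝ) ≤ |C2| * (3 ^ m * (g : ℝ) ^ m) :=
    hB.trans ((mul_le_mul_of_nonneg_right (le_abs_self C2) hpw0).trans
      (mul_le_mul_of_nonneg_left hpw (abs_nonneg _)))
  have hBB' : (b' (g + 1) : ℝ) ≤ |C3| * (3 ^ m * (g : ℝ) ^ m) :=
    hB'.trans ((mul_le_mul_of_nonneg_right (le_abs_self C3) hpw0).trans
      (mul_le_mul_of_nonneg_left hpw (abs_nonneg _)))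
  have hb0 : (0 : ℝ) ≤ (b (g + 1) : ℝ) := Nat.cast_nonneg _
  have hb0' : (0 : ℝ) ≤ (b' (g + 1) : ℝ) := Nat.cast_nonneg _
  have hda : |(d g : ℝ) - (a (g + 1) : ℝ)| ≤ (|C2| + |C3|) * (3 ^ m * (g : ℝ) ^ m) := by
    rw [abs_le]
    constructor <;> nlinarith
  have hcd : |c * (d g : ℝ) - c * (a (g + 1) : ℝ)| ≤
      c * ((|C2| + |C3|) * (3 ^ m * (g : ℝ) ^ m)) := by
    rw [← mul_sub, abs_mul, abs_of_nonneg hc0]
    exact mul_le_mul_of_nonneg_left hda hc0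
  have hq1 := VOne_pow m hg0
  have hq2 : (g : ℝ) ^ (m + 1) ≤ ((g : ℝ) + 1) ^ (m + 1) :=
    pow_le_pow_left₀ hg0 (by linarith) _
  have hq3 : ((g : ℝ) + 1) ^ m ≤ 2 ^ m * (g : ℝ) ^ m := by
    rw [← mul_pow]
    exact pow_le_pow_left₀ (by linarith) (by linarith) _
  have hq4 : |((g : ℝ) + 1) ^ (m + 1) - (g : ℝ) ^ (m + 1)| ≤
      ((m : ℝ) + 1) * 2 ^ m * (g : ℝ) ^ m := by
    rw [abs_of_nonneg (by linarith)]
    have : ((m : ℝ) + 1) * ((g : ℝ) + 1) ^ m ≤ ((m : ℝ) + 1) * (2 ^ m * (g : ℝ) ^ m) :=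
      mul_le_mul_of_nonneg_left hq3 (by positivity)
    linarith
  have hpq : |p * ((g : ℝ) + 1) ^ (m + 1) - p * (g : ℝ) ^ (m + 1)| ≤
      |p| * (((m : ℝ) + 1) * 2 ^ m * (g : ℝ) ^ m) := by
    rw [← mul_sub, abs_mul]
    exact mul_le_mul_of_nonneg_left hq4 (abs_nonneg _)
  have hsum : c * (d g : ℝ) - p * (g : ℝ) ^ (m + 1) =
      (c * (d g : ℝ) - c * (a (g + 1) : ℝ)) +
      (c * (a (g + 1) : ℝ) - p * ((g : ℝ) + 1) ^ (m + 1)) +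
      (p * ((g : ℝ) + 1) ^ (m + 1) - p * (g : ℝ) ^ (m + 1)) := by ring
  rw [hsum]
  refine (abs_add_three _ _ _).trans ?_
  have hfin : ((|C1| + c * (|C2| + |C3|)) * 3 ^ m + |p| * (((m : ℝ) + 1) * 2 ^ m)) *
      (g : ℝ) ^ m = c * ((|C2| + |C3|) * (3 ^ m * (g : ℝ) ^ m)) +
      |C1| * (3 ^ m * (g : ℝ) ^ m) + |p| * (((m : ℝ) + 1) * 2 ^ m * (g : ℝ) ^ m) := by ring
  rw [hfin]
  exact add_le_add (add_le_add hcd hA') hpq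

end BrV
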